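import Pool.Agent.Lib.Coin.Assembly

/-!
# Coin race (MP_e3f87b_pr): the full answer from the four remaining statements
-/

namespace Coin

/-- Q1 (negated form) and Q2 -/
theorem answer (hIF : IncFull) (hIE : IncEq) (hWF : WinFull) (hWE : WinEq) :
    (∀ A B : List Bool, A ≠ [] → B ≠ [] → ∀ m : ℕ, Flips (adv A B) m → m ≤ 1) ∧
    (∀ L1 L2 : ℕ, 1 ≤ L1 → 1 ≤ L2 → IsGreatest {m : ℕ | ∃ A B : List Bool,
      A.length = L1 ∧ B.length = L2 ∧ (∃ p : ℝ, 0 < p ∧ p < 1 ∧ adv A B p ≠ 0) ∧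
      Flips (adv A B) m} 1) :=
  final (noTwoFlips_of hIF hIE hWF hWE)

end Coin
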