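import Mathlib

/-!
# Coin race (MP_e3f87b_pr): definitions

`true` = heads (probability `p`), `false` = tails (probability `1 - p`).
-/

namespace Coin

open Finset

/-- probability of a finite word -/
noncomputable def wt (p : ℝ) (l : List Bool) : ℝ :=
  p ^ l.count true * (1 - p) ^ l.count false

/-- expectation of `f` over the words of length `n` -/
noncomputable def ew (p : ℝ) : ℕ → (List Bool → ℝ) → ℝ
  | 0, f => f []
  | n + 1, f => p * ew p n (fun l => f (true :: l)) + (1 - p) * ew p n (fun l => f (false :: l))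

open Classical in
/-- indicator of `A` does not occur in `l` -/
noncomputable def nocc (A l : List Bool) : ℝ := if A <:+: l then 0 else 1

/-- `P(τ_A > n)` -/
noncomputable def surv (p : ℝ) (A : List Bool) (n : ℕ) : ℝ := ew p n (nocc A)

/-- `P(τ_A = n)` -/
noncomputable def pm (p : ℝ) (A : List Bool) (n : ℕ) : ℝ :=
  if n = 0 then 0 else surv p A (n - 1) - surv p A n

/-- the lengths of the borders of `A` (the whole word included) -/
def bd (A : List Bool) : Finset ℕ :=
  (Finset.Icc 1 A.length).filter (fun k => A.take k = A.drop (A.length - k))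

/-- the weight `1 / P(A_k)` of the initial part of length `k` -/
noncomputable def kap (p : ℝ) (A : List Bool) (k : ℕ) : ℝ := 1 / wt p (A.take k)

/-- content (number of heads, number of tails) -/
def cont (l : List Bool) : ℕ × ℕ := (l.count true, l.count false)

/-- the contents of the borders of `A` -/
def bc (A : List Bool) : Finset (ℕ × ℕ) := (bd A).image (fun k => cont (A.take k))

/-- `P(τ_A < τ_B) - P(τ_A > τ_B)` for independent sequences with the same `p` (= `2 g`) -/
noncomputable def G (p : ℝ) (A B : List Bool) : ℝ :=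
  (∑' n, pm p A n * surv p B n) - ∑' n, pm p B n * surv p A n

/-- abstract waiting time law: everything which the analytic part uses -/
structure CLaw where
  /-- length of the pattern -/
  L : ℕ
  /-- point probabilities `P(τ = n)` -/
  a : ℕ → ℝ
  /-- border lengths -/
  K : Finset ℕ
  /-- border weights -/
  kap : ℕ → ℝ
  Lpos : 1 ≤ L
  a_nonneg : ∀ n, 0 ≤ a n
  a_sum : HasSum a 1
  a_zero : ∀ n, n < L → a n = 0
  a_pos : 0 < a L
  a_anti : ∀ n, L ≤ n → a (n + 1) ≤ a n
  K_sub : ∀ k ∈ K, 1 ≤ k ∧ k ≤ L
  L_mem : L ∈ K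
  kap_pos : ∀ k ∈ K, 0 < kap k
  kap_L : kap L * a L = 1
  renewal : ∀ n, ∑ k ∈ K, kap k * a (n + k) = 1 - ∑ m ∈ Finset.range (n + 1), a m

namespace CLaw

/-- survival function `P(τ > n)` -/
def s (A : CLaw) (n : ℕ) : ℝ := 1 - ∑ m ∈ Finset.range (n + 1), A.a m

/-- new better than used (holds for all pattern waiting times) -/
def NBU (A : CLaw) : Prop := ∀ m n, A.s (m + n) ≤ A.s m * A.s n

/-- union bound over the straddling positions -/
def Straddle (A : CLaw) : Prop := ∀ m n, A.s m * A.s n - A.s (m + n) ≤
  A.a A.L * ∑ j ∈ Finset.Icc 1 (A.L - 1), A.s (m + j - A.L) * A.s (n - j)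

end CLaw

end Coin
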