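import Mathlib
import Pool.Agent.Lib.Coin.Defs

/-!
# Coin race (MP_e3f87b_pr): link with the measure theoretic race
-/

open MeasureTheory Set

namespace Coin

/-- The law of one toss: `true` (heads) with probability `p`, `false` (tails) with `1 - p`. -/
noncomputable def bern (p : ℝ) : Measure Bool :=
  ENNReal.ofReal p • Measure.dirac true + ENNReal.ofReal (1 - p) • Measure.dirac false

/-- The law of an independent sequence of tosses of the `p`-coin. -/
noncomputable def seqLaw (p : ℝ) : Measure (ℕ → Bool) := Measure.infinitePi (fun _ => bern p)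

/-- The pattern `A` occurs in the sequence `x` with last letter at time `n` (times are `1, 2, ...`,
the letter at time `i + 1` is `x i`). -/
def Occ (A : List Bool) (x : ℕ → Bool) (n : ℕ) : Prop :=
  A.length ≤ n ∧ ∀ i (hi : i < A.length), x (n - A.length + i) = A[i]

/-- The waiting time of the pattern `A`. -/
noncomputable def tau (A : List Bool) (x : ℕ → Bool) : ℕ∞ :=
  ⨅ n : ℕ, ⨅ _ : Occ A x n, (n : ℕ∞)

/-- Two independent sequences of `p`-tosses and an independent fair coin. -/
noncomputable def raceLaw (p : ℝ) : Measure (((ℕ → Bool) × (ℕ → Bool)) × Bool) :=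
  ((seqLaw p).prod (seqLaw p)).prod (bern (1 / 2))

/-- The event that `A` beats `B`. -/
def wins (A B : List Bool) : Set (((ℕ → Bool) × (ℕ → Bool)) × Bool) :=
  {w | tau A w.1.1 < tau B w.1.2 ∨ (tau A w.1.1 = tau B w.1.2 ∧ w.2 = true)}

/-- The advantage function. -/
noncomputable def adv (A B : List Bool) (p : ℝ) : ℝ := (raceLaw p).real (wins A B) - 1 / 2

/-! ### the law of one sequence -/

noncomputable def w1 (p : ℝ) (b : Bool) : ℝ := if b then p else 1 - p

variable {p : ℝ}

theorem bern_prob (h0 : 0 ≤ p) (h1 : p ≤ 1) : IsProbabilityMeasure (bern p) := by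
  constructor
  simp only [bern, Measure.coe_add, Measure.coe_smul, Pi.add_apply, Pi.smul_apply, smul_eq_mul,
    measure_univ, mul_one]
  rw [← ENNReal.ofReal_add h0 (by linarith)]
  simp

theorem bern_singleton (b : Bool) : bern p {b} = ENNReal.ofReal (w1 p b) := by
  cases b <;> simp [bern, w1]

theorem seqLaw_prob (h0 : 0 ≤ p) (h1 : p ≤ 1) : IsProbabilityMeasure (seqLaw p) := by
  have := bern_prob h0 h1
  unfold seqLaw
  infer_instance

theorem w1_nonneg (h0 : 0 ≤ p) (h1 : p ≤ 1) (b : Bool) : 0 ≤ w1 p b := by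
  cases b <;> simp [w1] <;> linarith

/-- first `n` letters -/
def pre (n : ℕ) (x : ℕ → Bool) : List Bool := List.ofFn (fun i : Fin n => x i)

theorem ew_eq_sum (p : ℝ) (n : ℕ) (f : List Bool → ℝ) :
    ew p n f = ∑ v : Fin n → Bool, (∏ i, w1 p (v i)) * f (List.ofFn v) := by
  induction n generalizing f with
  | zero => simp [ew]
  | succ n ih =>
    rw [ew, ih, ih]
    rw [← (Fin.consEquiv (fun _ => Bool)).sum_comp]
    rw [Fintype.sum_prod_type]
    simp only [Fin.consEquiv_apply, Fintype.sum_bool, Fin.prod_univ_succ, Fin.cons_zero, Fin.cons_succ]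
    simp only [Finset.mul_sum]
    congr 1
    · refine Finset.sum_congr rfl fun v _ => ?_
      simp [w1, List.ofFn_succ, mul_assoc]
    · refine Finset.sum_congr rfl fun v _ => ?_
      simp [w1, List.ofFn_succ, mul_assoc]

theorem cyl_measure (h0 : 0 ≤ p) (h1 : p ≤ 1) (n : ℕ) (v : Fin n → Bool) :
    (seqLaw p).real {x | ∀ i : Fin n, x i = v i} = ∏ i, w1 p (v i) := by
  have := bern_prob h0 h1
  have e : {x : ℕ → Bool | ∀ i : Fin n, x i = v i} =
      Set.pi (Finset.range n) (fun i => if h : i < n then {v ⟨i, h⟩} else univ) := by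
    ext x
    simp only [mem_ofPred_eq, Set.mem_pi, Finset.coe_range, mem_Iio]
    constructor
    · intro h i hi
      simp [hi, h ⟨i, hi⟩]
    · intro h i
      have := h i i.2
      simpa using this
  rw [e, measureReal_def, seqLaw, Measure.infinitePi_pi _ (fun i _ => MeasurableSet.of_discrete)]
  rw [← Fin.prod_univ_eq_prod_range (fun i => bern p (if h : i < n then {v ⟨i, h⟩} else univ))]
  rw [ENNReal.toReal_prod]
  refine Finset.prod_congr rfl fun i _ => ?_
  simp only [Fin.is_lt, ↓reduceDIte, Fin.eta]
  rw [bern_singleton, ENNReal.toReal_ofReal (w1_nonneg h0 h1 _)]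

theorem pre_eq_iff (n : ℕ) (x : ℕ → Bool) (v : Fin n → Bool) :
    (∀ i : Fin n, x i = v i) ↔ pre n x = List.ofFn v := by
  unfold pre
  rw [List.ofFn_inj]
  constructor
  · intro h; funext i; exact h i
  · intro h i; exact congrFun h i

theorem cyl_meas (n : ℕ) (v : Fin n → Bool) : MeasurableSet {x : ℕ → Bool | ∀ i : Fin n, x i = v i} := by
  have : {x : ℕ → Bool | ∀ i : Fin n, x i = v i} = ⋂ i : Fin n, (fun x : ℕ → Bool => x i) ⁻¹' {v i} := by
    ext x; simp
  rw [this]
  exact MeasurableSet.iInter fun i => (measurable_pi_apply _) (MeasurableSet.of_discrete)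

theorem pre_set_eq (n : ℕ) (P : List Bool → Prop) [DecidablePred P] :
    {x : ℕ → Bool | P (pre n x)} =
      ⋃ v ∈ (Finset.univ.filter (fun v : Fin n → Bool => P (List.ofFn v))),
        {x : ℕ → Bool | ∀ i : Fin n, x i = v i} := by
  ext x
  simp only [mem_ofPred_eq, mem_iUnion, Finset.mem_filter, Finset.mem_univ, true_and, exists_prop]
  constructor
  · intro h
    exact ⟨fun i => x i, h, fun i => rfl⟩
  · rintro ⟨v, hv, hx⟩
    rw [(pre_eq_iff n x v).1 hx]
    exact hv

theorem pre_meas (n : ℕ) (P : List Bool → Prop) : MeasurableSet {x : ℕ → Bool | P (pre n x)} := by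
  classical
  rw [pre_set_eq n P]
  exact Finset.measurableSet_biUnion _ fun v _ => cyl_meas n v

theorem pre_measure (h0 : 0 ≤ p) (h1 : p ≤ 1) (n : ℕ) (P : List Bool → Prop) [DecidablePred P] :
    (seqLaw p).real {x | P (pre n x)} = ew p n (fun l => if P l then 1 else 0) := by
  have := seqLaw_prob h0 h1
  rw [pre_set_eq n P, measureReal_biUnion_finset, ew_eq_sum, Finset.sum_filter]
  · refine Finset.sum_congr rfl fun v _ => ?_
    rw [cyl_measure h0 h1]
    split_ifs <;> simp
  · intro v _ w _ hvw
    refine Set.disjoint_left.2 fun x hx hx' => hvw ?_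
    funext i
    rw [← hx i, ← hx' i]
  · intro v _
    exact cyl_meas n v

/-! ### the waiting time -/

theorem tau_le_iff (A : List Bool) (x : ℕ → Bool) (n : ℕ) :
    tau A x ≤ n ↔ ∃ m ≤ n, Occ A x m := by
  constructor
  · intro h
    by_contra hc
    push Not at hc
    have : ((n + 1 : ℕ) : ℕ∞) ≤ tau A x := by
      refine le_iInf fun m => le_iInf fun hm => ?_
      have : ¬ m ≤ n := fun hmn => hc m hmn hm
      exact_mod_cast (by omega : n + 1 ≤ m)
    have := this.trans h
    norm_cast at this
    omega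
  · rintro ⟨m, hm, ho⟩
    refine (iInf_le _ m).trans ((iInf_le _ ho).trans ?_)
    exact_mod_cast hm

theorem occ_pre (A : List Bool) (x : ℕ → Bool) (n : ℕ) :
    (∃ m ≤ n, Occ A x m) ↔ A <:+: pre n x := by
  constructor
  · rintro ⟨m, hm, hA, ho⟩
    refine ⟨(pre n x).take (m - A.length), (pre n x).drop m, ?_⟩
    have hlen : (pre n x).length = n := by simp [pre]
    have e1 : (pre n x).take (m - A.length) ++ A = (pre n x).take m := by
      apply List.ext_getElem
      · simp only [List.length_append, List.length_take, hlen]; omega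
      · intro i h1 h2
        simp only [List.length_take, hlen] at h2
        rw [List.getElem_take]
        by_cases c : i < m - A.length
        · rw [List.getElem_append_left (by simp only [List.length_take, hlen]; omega), List.getElem_take]
        · rw [List.getElem_append_right (by simp only [List.length_take, hlen]; omega)]
          simp only [List.length_take, hlen]
          have hi : i - min (m - A.length) n < A.length := by omega
          have := ho _ hi
          rw [← this]
          simp only [pre, List.getElem_ofFn]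
          congr 1
          omega
    rw [e1, List.take_append_drop]
  · rintro ⟨s, t, hst⟩
    have hl := congrArg List.length hst
    simp only [List.length_append, pre, List.length_ofFn] at hl
    refine ⟨s.length + A.length, by omega, by omega, ?_⟩
    intro i hi
    have h1 : s.length + i < (s ++ A ++ t).length := by simp; omega
    have h2 : (s ++ A ++ t)[s.length + i] = A[i] := by
      rw [List.getElem_append_left (by simp; omega)]
      rw [List.getElem_append_right (by omega)]
      simp
    rw [← h2]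
    have h3 : (s ++ A ++ t)[s.length + i] = (pre n x)[s.length + i]'(by rw [← hst]; exact h1) := by
      simp only [hst]
    rw [h3]
    simp only [pre, List.getElem_ofFn]
    congr 1
    omega

theorem lt_tau_iff (A : List Bool) (x : ℕ → Bool) (n : ℕ) :
    (n : ℕ∞) < tau A x ↔ ¬ A <:+: pre n x := by
  rw [← occ_pre, ← tau_le_iff, not_le]

theorem surv_eq (h0 : 0 ≤ p) (h1 : p ≤ 1) (A : List Bool) (n : ℕ) :
    (seqLaw p).real {x | (n : ℕ∞) < tau A x} = surv p A n := by
  classical
  simp only [lt_tau_iff]
  rw [pre_measure h0 h1 n (fun l => ¬ A <:+: l), surv]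
  congr 1
  funext l
  by_cases h : A <:+: l <;> simp [h, nocc]

theorem lt_tau_meas (A : List Bool) (n : ℕ) : MeasurableSet {x : ℕ → Bool | (n : ℕ∞) < tau A x} := by
  simp only [lt_tau_iff]
  exact pre_meas n (fun l => ¬ A <:+: l)

theorem tau_pos (A : List Bool) (hA : A ≠ []) (x : ℕ → Bool) : 0 < tau A x := by
  have := lt_tau_iff A x 0
  rw [Nat.cast_zero] at this
  rw [this]
  simp [pre, hA]

theorem tau_eq_meas (A : List Bool) (n : ℕ) : MeasurableSet {x : ℕ → Bool | tau A x = n} := by
  rcases n with _ | n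
  · have : {x : ℕ → Bool | tau A x = (0 : ℕ)} = {x : ℕ → Bool | ((0 : ℕ) : ℕ∞) < tau A x}ᶜ := by
      ext x; simp
    rw [this]
    exact (lt_tau_meas A 0).compl
  · have : {x : ℕ → Bool | tau A x = (n + 1 : ℕ)} =
        {x : ℕ → Bool | ((n : ℕ) : ℕ∞) < tau A x} \ {x : ℕ → Bool | ((n + 1 : ℕ) : ℕ∞) < tau A x} := by
      ext x
      simp only [mem_ofPred_eq, mem_sdiff, not_lt]
      constructor
      · intro h; rw [h]; exact ⟨by exact_mod_cast Nat.lt_succ_self n, le_rfl⟩
      · rintro ⟨h, h'⟩
        refine le_antisymm h' ?_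
        have := Order.add_one_le_of_lt h
        exact_mod_cast this
    rw [this]
    exact (lt_tau_meas A n).diff (lt_tau_meas A (n + 1))

theorem pm_eq (h0 : 0 ≤ p) (h1 : p ≤ 1) (A : List Bool) (hA : A ≠ []) (n : ℕ) :
    (seqLaw p).real {x | tau A x = n} = pm p A n := by
  have := seqLaw_prob h0 h1
  rcases n with _ | n
  · have : {x : ℕ → Bool | tau A x = (0 : ℕ)} = ∅ := by
      ext x
      have := (tau_pos A hA x).ne'
      simpa using this
    rw [this]; simp [pm]
  · have e : {x : ℕ → Bool | tau A x = (n + 1 : ℕ)} =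
        {x : ℕ → Bool | ((n : ℕ) : ℕ∞) < tau A x} \ {x : ℕ → Bool | ((n + 1 : ℕ) : ℕ∞) < tau A x} := by
      ext x
      simp only [mem_ofPred_eq, mem_sdiff, not_lt]
      constructor
      · intro h; rw [h]; exact ⟨by exact_mod_cast Nat.lt_succ_self n, le_rfl⟩
      · rintro ⟨h, h'⟩
        refine le_antisymm h' ?_
        have := Order.add_one_le_of_lt h
        exact_mod_cast this
    rw [e, measureReal_sdiff _ (lt_tau_meas A (n + 1)), surv_eq h0 h1, surv_eq h0 h1]
    · simp [pm]
    · intro x hx
      simp only [mem_ofPred_eq] at hx ⊢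
      refine lt_trans ?_ hx
      exact_mod_cast Nat.lt_succ_self n

/-! ### the race -/

theorem less_eq_iUnion (A B : List Bool) :
    {w : (ℕ → Bool) × (ℕ → Bool) | tau A w.1 < tau B w.2} =
      ⋃ n : ℕ, {x | tau A x = n} ×ˢ {y | (n : ℕ∞) < tau B y} := by
  ext w
  simp only [mem_ofPred_eq, mem_iUnion, mem_prod]
  constructor
  · intro h
    have hne : tau A w.1 ≠ ⊤ := (lt_of_lt_of_le h le_top).ne
    obtain ⟨n, hn⟩ := ENat.ne_top_iff_exists.1 hne
    exact ⟨n, hn.symm, by rw [hn]; exact h⟩
  · rintro ⟨n, h, h'⟩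
    rw [h]; exact h'

theorem less_meas (A B : List Bool) :
    MeasurableSet {w : (ℕ → Bool) × (ℕ → Bool) | tau A w.1 < tau B w.2} := by
  rw [less_eq_iUnion]
  exact MeasurableSet.iUnion fun n => (tau_eq_meas A n).prod (lt_tau_meas B n)

theorem less_measure (h0 : 0 ≤ p) (h1 : p ≤ 1) (A B : List Bool) (hA : A ≠ []) :
    ((seqLaw p).prod (seqLaw p)).real {w | tau A w.1 < tau B w.2} =
      ∑' n, pm p A n * surv p B n := by
  have := seqLaw_prob h0 h1
  rw [less_eq_iUnion, measureReal_def, measure_iUnion]
  · rw [ENNReal.tsum_toReal_eq (fun n => measure_ne_top _ _)]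
    refine tsum_congr fun n => ?_
    rw [Measure.prod_prod, ENNReal.toReal_mul, ← pm_eq h0 h1 A hA n, ← surv_eq h0 h1 B n]
    rfl
  · intro i j hij
    refine Set.disjoint_left.2 fun w hw hw' => hij ?_
    have h1 := hw.1
    have h2 := hw'.1
    simp only [mem_ofPred_eq] at h1 h2
    rw [h1] at h2
    exact_mod_cast h2
  · intro n
    exact (tau_eq_meas A n).prod (lt_tau_meas B n)

theorem two_adv (h0 : 0 < p) (h1 : p < 1) (A B : List Bool) (hA : A ≠ []) (hB : B ≠ []) :
    2 * adv A B p = G p A B := by
  have hs := seqLaw_prob h0.le h1.le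
  have hb : IsProbabilityMeasure (bern (1 / 2)) := bern_prob (by norm_num) (by norm_num)
  set ν := (seqLaw p).prod (seqLaw p) with hν
  let L : Set ((ℕ → Bool) × (ℕ → Bool)) := {w | tau A w.1 < tau B w.2}
  let R : Set ((ℕ → Bool) × (ℕ → Bool)) := {w | tau B w.2 < tau A w.1}
  have hL : MeasurableSet L := less_meas A B
  have hR : MeasurableSet R := by
    have := (less_meas B A)
    exact measurable_swap this
  have hRm : ν.real R = ∑' n, pm p B n * surv p A n := by
    rw [← less_measure h0.le h1.le B A hB]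
    have hsw : Measure.map Prod.swap ν = ν := by rw [hν]; exact Measure.prod_swap
    conv_rhs => rw [← hν, ← hsw]
    rw [map_measureReal_apply measurable_swap (less_meas B A)]
    rfl
  have hLm : ν.real L = ∑' n, pm p A n * surv p B n := less_measure h0.le h1.le A B hA
  let E : Set ((ℕ → Bool) × (ℕ → Bool)) := (L ∪ R)ᶜ
  have hE : MeasurableSet E := (hL.union hR).compl
  have hdis : Disjoint L R := by
    refine Set.disjoint_left.2 fun w hw hw' => ?_
    have h1 : tau A w.1 < tau B w.2 := hw
    have h2 : tau B w.2 < tau A w.1 := hw'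
    exact lt_asymm h1 h2
  have hEm : ν.real E = 1 - (ν.real L + ν.real R) := by
    rw [probReal_compl_eq_one_sub (hL.union hR), measureReal_union hdis hR]
  have hw : wins A B = (L ×ˢ (univ : Set Bool)) ∪ (E ×ˢ ({true} : Set Bool)) := by
    ext ⟨⟨x, y⟩, b⟩
    simp only [wins, mem_ofPred_eq, mem_union, mem_prod, mem_univ, and_true, mem_singleton_iff, L, R, E,
      mem_compl_iff, not_or, not_lt]
    constructor
    · rintro (h | ⟨h, hb⟩)
      · exact Or.inl h
      · exact Or.inr ⟨⟨h.ge, h.le⟩, hb⟩
    · rintro (h | ⟨⟨h, h'⟩, hb⟩)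
      · exact Or.inl h
      · exact Or.inr ⟨le_antisymm h' h, hb⟩
  have hhalf : (bern (1 / 2)).real {true} = 1 / 2 := by
    rw [measureReal_def, bern_singleton]
    rw [ENNReal.toReal_ofReal] <;> norm_num [w1]
  have hd2 : Disjoint (L ×ˢ (univ : Set Bool)) (E ×ˢ ({true} : Set Bool)) := by
    refine Set.disjoint_left.2 fun w hw hw' => ?_
    exact hw'.1 (Or.inl hw.1)
  unfold adv raceLaw
  rw [← hν, hw, measureReal_union hd2 (hE.prod (measurableSet_singleton _)), measureReal_prod_prod,
    measureReal_prod_prod, hhalf, hEm, probReal_univ, hLm, hRm, G]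
  ring

end Coin
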