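import Mathlib
import Pool.Agent.Lib.Coin.Measure

/-!
# Coin race (MP_e3f87b_pr): the pair `H^L1`, `T^L2` has a winner flip, for all lengths
-/

open MeasureTheory Set

namespace Coin

variable {p : ℝ}

theorem const_cyl (h0 : 0 ≤ p) (h1 : p ≤ 1) (b : Bool) (n : ℕ) :
    (seqLaw p).real {x | pre n x = List.replicate n b} = w1 p b ^ n := by
  have h := cyl_measure h0 h1 n (fun _ => b)
  simp only [pre_eq_iff, List.ofFn_const, Finset.prod_const, Finset.card_univ, Fintype.card_fin] at h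
  exact h

theorem surv_const_ge (h0 : 0 ≤ p) (h1 : p ≤ 1) (b : Bool) (A : List Bool) (hA : (!b) ∈ A) (n : ℕ) :
    w1 p b ^ n ≤ (seqLaw p).real {x | (n : ℕ∞) < tau A x} := by
  have := seqLaw_prob h0 h1
  rw [← const_cyl h0 h1 b n]
  refine measureReal_mono ?_
  intro x hx
  simp only [mem_ofPred_eq] at hx ⊢
  rw [lt_tau_iff, hx]
  intro h
  have h2 := h.subset hA
  rw [List.mem_replicate] at h2
  cases b <;> simp at h2

theorem hit_const_ge (h0 : 0 ≤ p) (h1 : p ≤ 1) (b : Bool) (n : ℕ) :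
    w1 p b ^ n ≤ (seqLaw p).real {x | tau (List.replicate n b) x ≤ (n : ℕ∞)} := by
  have := seqLaw_prob h0 h1
  rw [← const_cyl h0 h1 b n]
  refine measureReal_mono ?_
  intro x hx
  simp only [mem_ofPred_eq] at hx ⊢
  rw [tau_le_iff, occ_pre, hx]

theorem le_tau_meas (A : List Bool) (n : ℕ) : MeasurableSet {x : ℕ → Bool | tau A x ≤ (n : ℕ∞)} := by
  have : {x : ℕ → Bool | tau A x ≤ (n : ℕ∞)} = {x : ℕ → Bool | (n : ℕ∞) < tau A x}ᶜ := by
    ext x; simp
  rw [this]
  exact (lt_tau_meas A n).compl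

theorem lower_prod (h0 : 0 ≤ p) (h1 : p ≤ 1) (b : Bool) (A : List Bool) (hA : (!b) ∈ A) (n : ℕ) :
    w1 p b ^ (2 * n) ≤ ((seqLaw p).prod (seqLaw p)).real
      {w | tau (List.replicate n b) w.2 < tau A w.1} := by
  have := seqLaw_prob h0 h1
  calc w1 p b ^ (2 * n) = w1 p b ^ n * w1 p b ^ n := by rw [two_mul, pow_add]
    _ ≤ (seqLaw p).real {x | (n : ℕ∞) < tau A x} *
        (seqLaw p).real {x | tau (List.replicate n b) x ≤ (n : ℕ∞)} := by
        refine mul_le_mul (surv_const_ge h0 h1 b A hA n) (hit_const_ge h0 h1 b n) ?_ ?_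
        · exact pow_nonneg (w1_nonneg h0 h1 b) n
        · exact measureReal_nonneg
    _ = ((seqLaw p).prod (seqLaw p)).real
        ({x | (n : ℕ∞) < tau A x} ×ˢ {x | tau (List.replicate n b) x ≤ (n : ℕ∞)}) := by
        rw [measureReal_prod_prod]
    _ ≤ _ := by
        refine measureReal_mono ?_
        rintro ⟨x, y⟩ ⟨hx, hy⟩
        have hx' : (n : ℕ∞) < tau A x := hx
        have hy' : tau (List.replicate n b) y ≤ (n : ℕ∞) := hy
        exact lt_of_le_of_lt hy' hx'

theorem bern_pow (m : ℕ) (hm : 1 ≤ m) : 1 / 2 < (1 - 1 / (8 * (m : ℝ))) ^ (2 * m) := by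
  have hm' : (1 : ℝ) ≤ m := by exact_mod_cast hm
  have h := one_add_mul_le_pow (a := -(1 / (8 * (m : ℝ)))) (by
    have : 1 / (8 * (m : ℝ)) ≤ 1 := by
      rw [div_le_one (by positivity)]; linarith
    linarith) (2 * m)
  have e : 1 + ((2 * m : ℕ) : ℝ) * -(1 / (8 * (m : ℝ))) = 3 / 4 := by
    push_cast
    field_simp
    norm_num
  rw [e] at h
  have e2 : 1 + -(1 / (8 * (m : ℝ))) = 1 - 1 / (8 * (m : ℝ)) := by ring
  rw [e2] at h
  linarith

/-- `T^L2` wins when `p` is small. -/
theorem adv_neg (L1 L2 : ℕ) (h1 : 1 ≤ L1) (h2 : 1 ≤ L2) :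
    adv (List.replicate L1 true) (List.replicate L2 false) (1 / (8 * (L2 : ℝ))) < 0 := by
  have hL : (1 : ℝ) ≤ L2 := by exact_mod_cast h2
  set p : ℝ := 1 / (8 * (L2 : ℝ)) with hp
  have hp0 : 0 < p := by positivity
  have hp1 : p ≤ 1 := by
    rw [hp, div_le_one (by positivity)]; linarith
  have hs := seqLaw_prob hp0.le hp1
  have hb : IsProbabilityMeasure (bern (1 / 2)) := bern_prob (by norm_num) (by norm_num)
  have hlow := lower_prod hp0.le hp1 false (List.replicate L1 true) (by simp; omega) L2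
  have hpow := bern_pow L2 h2
  rw [← hp] at hpow
  have hw : w1 p false = 1 - p := by simp [w1]
  rw [hw] at hlow
  set S : Set ((ℕ → Bool) × (ℕ → Bool)) :=
    {w | tau (List.replicate L2 false) w.2 < tau (List.replicate L1 true) w.1} with hS
  have hSm : MeasurableSet S := measurable_swap (less_meas (List.replicate L2 false) (List.replicate L1 true))
  have hsub : wins (List.replicate L1 true) (List.replicate L2 false) ⊆ Sᶜ ×ˢ (univ : Set Bool) := by
    rintro ⟨⟨x, y⟩, c⟩ hw
    refine ⟨?_, mem_univ _⟩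
    intro hmem
    have h3 : tau (List.replicate L2 false) y < tau (List.replicate L1 true) x := hmem
    rcases hw with h | ⟨h, _⟩
    · exact lt_asymm h h3
    · exact h3.ne h.symm
  have hle := measureReal_mono (μ := raceLaw p) hsub (by
    unfold raceLaw; exact measure_ne_top _ _)
  have e : (raceLaw p).real (Sᶜ ×ˢ (univ : Set Bool)) = 1 - ((seqLaw p).prod (seqLaw p)).real S := by
    unfold raceLaw
    rw [measureReal_prod_prod, probReal_univ, mul_one, probReal_compl_eq_one_sub hSm]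
  rw [e] at hle
  unfold adv
  linarith

/-- `H^L1` wins when `1 - p` is small. -/
theorem adv_pos (L1 L2 : ℕ) (h1 : 1 ≤ L1) (h2 : 1 ≤ L2) :
    0 < adv (List.replicate L1 true) (List.replicate L2 false) (1 - 1 / (8 * (L1 : ℝ))) := by
  have hL : (1 : ℝ) ≤ L1 := by exact_mod_cast h1
  have hq : 1 / (8 * (L1 : ℝ)) ≤ 1 := by
    rw [div_le_one (by positivity)]; linarith
  have hq0 : 0 < 1 / (8 * (L1 : ℝ)) := by positivity
  set p : ℝ := 1 - 1 / (8 * (L1 : ℝ)) with hp
  have hp0 : 0 ≤ p := by linarith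
  have hp1 : p ≤ 1 := by linarith
  have hs := seqLaw_prob hp0 hp1
  have hb : IsProbabilityMeasure (bern (1 / 2)) := bern_prob (by norm_num) (by norm_num)
  have hlow := lower_prod hp0 hp1 true (List.replicate L2 false) (by simp; omega) L1
  have hpow := bern_pow L1 h1
  rw [← hp] at hpow
  have hw : w1 p true = p := by simp [w1]
  rw [hw] at hlow
  set S : Set ((ℕ → Bool) × (ℕ → Bool)) :=
    {w | tau (List.replicate L1 true) w.2 < tau (List.replicate L2 false) w.1} with hS
  have hSm : MeasurableSet S := measurable_swap (less_meas (List.replicate L1 true) (List.replicate L2 false))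
  have hsub : (Prod.swap ⁻¹' S) ×ˢ (univ : Set Bool) ⊆ wins (List.replicate L1 true) (List.replicate L2 false) := by
    rintro ⟨⟨x, y⟩, c⟩ hw
    exact Or.inl hw.1
  have hle := measureReal_mono (μ := raceLaw p) hsub (by
    unfold raceLaw; exact measure_ne_top _ _)
  have e : (raceLaw p).real ((Prod.swap ⁻¹' S) ×ˢ (univ : Set Bool)) =
      ((seqLaw p).prod (seqLaw p)).real S := by
    unfold raceLaw
    rw [measureReal_prod_prod, probReal_univ, mul_one]
    conv_rhs => rw [← Measure.prod_swap (μ := seqLaw p) (ν := seqLaw p)]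
    rw [map_measureReal_apply measurable_swap hSm]
  rw [e] at hle
  unfold adv
  linarith

/-- For all lengths there is a pair of patterns with a winner flip. -/
theorem exists_flip (L1 L2 : ℕ) (h1 : 1 ≤ L1) (h2 : 1 ≤ L2) :
    ∃ p0 p1 : ℝ, 0 < p0 ∧ p0 < p1 ∧ p1 < 1 ∧
      adv (List.replicate L1 true) (List.replicate L2 false) p0 < 0 ∧
      0 < adv (List.replicate L1 true) (List.replicate L2 false) p1 := by
  have hL1 : (1 : ℝ) ≤ L1 := by exact_mod_cast h1
  have hL2 : (1 : ℝ) ≤ L2 := by exact_mod_cast h2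
  have a1 : 1 / (8 * (L1 : ℝ)) ≤ 1 / 8 := by
    apply one_div_le_one_div_of_le <;> linarith
  have a2 : 1 / (8 * (L2 : ℝ)) ≤ 1 / 8 := by
    apply one_div_le_one_div_of_le <;> linarith
  have b1 : 0 < 1 / (8 * (L1 : ℝ)) := by positivity
  have b2 : 0 < 1 / (8 * (L2 : ℝ)) := by positivity
  exact ⟨1 / (8 * (L2 : ℝ)), 1 - 1 / (8 * (L1 : ℝ)), b2, by linarith, by linarith,
    adv_neg L1 L2 h1 h2, adv_pos L1 L2 h1 h2⟩

end Coin
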