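import Mathlib
import Pool.Agent.Lib.Coin.Example

/-!
# Coin race (MP_e3f87b_pr): number of winner flips, reduction of the final statement to
no three points with alternating signs of `G`
-/

open MeasureTheory Set

namespace Coin

/-- `g` has `m` sign changes on `(0,1)` (at least): there are `0 < q 0 < ... < q m < 1` such that
`g` has opposite strict signs at consecutive points. -/
def Flips (g : ℝ → ℝ) (m : ℕ) : Prop :=
  ∃ q : Fin (m + 1) → ℝ, StrictMono q ∧ (∀ i, 0 < q i ∧ q i < 1) ∧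
    ∀ i : Fin m, g (q i.castSucc) * g (q i.succ) < 0

/-- The statement about `G` which remains to be proved. -/
def NoTwoFlips : Prop := ∀ A B : List Bool, A ≠ [] → B ≠ [] → ∀ p0 p1 p2 : ℝ,
  0 < p0 → p0 < p1 → p1 < p2 → p2 < 1 → G p0 A B * G p1 A B < 0 → G p1 A B * G p2 A B < 0 → False

/-- the admissible numbers of sign changes for the lengths `L1`, `L2` -/
def flipNumbers (L1 L2 : ℕ) : Set ℕ :=
  {m | ∃ A B : List Bool, A.length = L1 ∧ B.length = L2 ∧
    (∃ p : ℝ, 0 < p ∧ p < 1 ∧ adv A B p ≠ 0) ∧ Flips (adv A B) m}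

theorem flips_le_one (h : NoTwoFlips) (A B : List Bool) (hA : A ≠ []) (hB : B ≠ []) (m : ℕ)
    (hm : Flips (adv A B) m) : m ≤ 1 := by
  by_contra hc
  push Not at hc
  obtain ⟨q, hq, h01, hs⟩ := hm
  let i0 : Fin (m + 1) := ⟨0, by omega⟩
  let i1 : Fin (m + 1) := ⟨1, by omega⟩
  let i2 : Fin (m + 1) := ⟨2, by omega⟩
  have s0 := hs ⟨0, by omega⟩
  have s1 := hs ⟨1, by omega⟩
  have e0 : adv A B (q i0) * adv A B (q i1) < 0 := s0
  have e1 : adv A B (q i1) * adv A B (q i2) < 0 := s1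
  have g0 := two_adv (h01 i0).1 (h01 i0).2 A B hA hB
  have g1 := two_adv (h01 i1).1 (h01 i1).2 A B hA hB
  have g2 := two_adv (h01 i2).1 (h01 i2).2 A B hA hB
  refine h A B hA hB (q i0) (q i1) (q i2) (h01 i0).1 (hq ?_) (hq ?_) (h01 i2).2 ?_ ?_
  · exact Fin.mk_lt_mk.2 (by norm_num)
  · exact Fin.mk_lt_mk.2 (by norm_num)
  · rw [← g0, ← g1]; nlinarith
  · rw [← g1, ← g2]; nlinarith

theorem isGreatest_flips (h : NoTwoFlips) (L1 L2 : ℕ) (h1 : 1 ≤ L1) (h2 : 1 ≤ L2) :
    IsGreatest (flipNumbers L1 L2) 1 := by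
  constructor
  · obtain ⟨p0, p1, h0, h01, hp1, hn, hp⟩ := exists_flip L1 L2 h1 h2
    refine ⟨List.replicate L1 true, List.replicate L2 false, by simp, by simp,
      ⟨p1, h0.trans h01, hp1, hp.ne'⟩, ![p0, p1], ?_, ?_, ?_⟩
    · intro i j hij
      fin_cases i <;> fin_cases j <;> simp at hij ⊢
      exact h01
    · intro i
      fin_cases i
      · exact ⟨h0, h01.trans hp1⟩
      · exact ⟨h0.trans h01, hp1⟩
    · intro i
      fin_cases i
      exact mul_neg_of_neg_of_pos hn hp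
  · rintro m ⟨A, B, hA, hB, _, hm⟩
    refine flips_le_one h A B ?_ ?_ m hm
    · rintro rfl; simp at hA; omega
    · rintro rfl; simp at hB; omega

/-- Q1 and Q2 in one statement. -/
theorem final (h : NoTwoFlips) :
    (∀ A B : List Bool, A ≠ [] → B ≠ [] → ∀ m, Flips (adv A B) m → m ≤ 1) ∧
    (∀ L1 L2 : ℕ, 1 ≤ L1 → 1 ≤ L2 → IsGreatest (flipNumbers L1 L2) 1) :=
  ⟨fun A B hA hB m hm => flips_le_one h A B hA hB m hm, fun L1 L2 h1 h2 => isGreatest_flips h L1 L2 h1 h2⟩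

end Coin
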