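import Pool.Agent.Lib.Coin.Comparable
import Pool.Agent.Lib.Coin.Final

/-!
# Coin race: the case tree

The four remaining statements `IncFull`, `IncEq`, `WinFull`, `WinEq` imply `NoTwoFlips`.
-/

namespace Coin

open Finset

/-- `G` is strictly increasing at every tie -/
def UpAtTies (A B : List Bool) : Prop :=
  ∀ p : ℝ, 0 < p → p < 1 → G p A B = 0 → ∃ d : ℝ, 0 < d ∧ HasDerivAt (fun x => G x A B) d p

/-- `x` is the largest content of `A` which is not a content of `B` -/
structure IsTop (A B : List Bool) (x : ℕ × ℕ) : Prop where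
  mem : x ∈ bc A \ bc B
  max : ∀ z ∈ bc A \ bc B, z.1 + z.2 ≤ x.1 + x.2

/-- M5a, M5b: incomparable contents of the two words -/
def IncFull : Prop := ∀ A B : List Bool, A ≠ [] → B ≠ [] →
  B.count true < A.count true → A.count false < B.count false → UpAtTies A B

/-- M5c: the two words have the same content, incomparable tops of the different borders -/
def IncEq : Prop := ∀ A B : List Bool, A ≠ [] → B ≠ [] → cont A = cont B →
  ∀ x y : ℕ × ℕ, IsTop A B x → IsTop B A y → y.1 < x.1 → x.2 < y.2 → UpAtTies A B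

/-- M6a: one-tail window -/
def WinFull : Prop := ∀ A B : List Bool, A ≠ [] → B ≠ [] →
  A.count false = 1 → B.count false = 1 → B.count true < A.count true →
  A.count true - B.count true + 1 < (bc B \ bc A).card → UpAtTies A B

/-- M6b: one-tail window inside two words with the same content -/
def WinEq : Prop := ∀ A B : List Bool, A ≠ [] → B ≠ [] → cont A = cont B →
  ∀ x y : ℕ × ℕ, IsTop A B x → IsTop B A y → x.2 = 1 → y.2 = 1 → y.1 < x.1 →
  x.1 - y.1 + 1 < (bc B \ bc A).card → UpAtTies A B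

theorem cont_mem {A : List Bool} (hA : A ≠ []) : cont A ∈ bc A := cont_self_mem hA

theorem size_le {A : List Bool} {z : ℕ × ℕ} (hz : z ∈ bc A) : z.1 + z.2 ≤ (cont A).1 + (cont A).2 := by
  obtain ⟨k, hk, rfl⟩ := mem_bc.1 hz
  rw [cont_add hk]
  have := count_add A
  show k ≤ A.count true + A.count false
  rw [this]; exact bd_le hk

theorem le_cont {A : List Bool} (hA : A ≠ []) {z : ℕ × ℕ} (hz : z ∈ bc A) :
    z.1 ≤ (cont A).1 ∧ z.2 ≤ (cont A).2 := bc_chain hz (cont_mem hA) (size_le hz)

theorem eq_of_size {A : List Bool} {z w : ℕ × ℕ} (hz : z ∈ bc A) (hw : w ∈ bc A)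
    (h : z.1 + z.2 = w.1 + w.2) : z = w := by
  obtain ⟨h1, h2⟩ := bc_chain hz hw h.le
  exact Prod.ext (by omega) (by omega)

/-- equal contents if both words are contents of each other -/
theorem cont_eq_of_mem {A B : List Bool} (hA : A ≠ []) (hB : B ≠ []) (h1 : cont A ∈ bc B)
    (h2 : cont B ∈ bc A) : cont A = cont B := by
  obtain ⟨a, b⟩ := le_cont hB h1
  obtain ⟨c, d⟩ := le_cont hA h2
  exact Prod.ext (by omega) (by omega)

/-- incomparable tops: full tops or equal contents -/
theorem inc_split {A B : List Bool} (hA : A ≠ []) (hB : B ≠ []) {x y : ℕ × ℕ}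
    (hx : IsTop A B x) (hy : IsTop B A y) (h1 : y.1 < x.1) (h2 : x.2 < y.2) :
    (B.count true < A.count true ∧ A.count false < B.count false) ∨ cont A = cont B := by
  have hxm := Finset.mem_sdiff.1 hx.mem
  have hym := Finset.mem_sdiff.1 hy.mem
  by_cases hAB : cont A ∈ bc B
  · by_cases hBA : cont B ∈ bc A
    · exact Or.inr (cont_eq_of_mem hA hB hAB hBA)
    · exfalso
      have h3 := hy.max (cont B) (Finset.mem_sdiff.2 ⟨cont_mem hB, hBA⟩)
      have h4 : y = cont B := eq_of_size hym.1 (cont_mem hB) (le_antisymm (size_le hym.1) h3)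
      have h5 := le_cont hA hxm.1
      have h6 := le_cont hB hAB
      rw [← h4] at h6
      omega
  · have h3 := hx.max (cont A) (Finset.mem_sdiff.2 ⟨cont_mem hA, hAB⟩)
    have h4 : x = cont A := eq_of_size hxm.1 (cont_mem hA) (le_antisymm (size_le hxm.1) h3)
    have h5 := le_cont hB hym.1
    by_cases hBA : cont B ∈ bc A
    · exfalso
      have h6 := le_cont hA hBA
      rw [← h4] at h6
      omega
    · have h6 := hy.max (cont B) (Finset.mem_sdiff.2 ⟨cont_mem hB, hBA⟩)
      have h7 : y = cont B := eq_of_size hym.1 (cont_mem hB) (le_antisymm (size_le hym.1) h6)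
      left
      rw [h4, h7] at h1 h2
      exact ⟨h1, h2⟩

/-- one-tail window: full tops or equal contents -/
theorem win_split {A B : List Bool} (hA : A ≠ []) (hB : B ≠ []) {x y : ℕ × ℕ}
    (hx : IsTop A B x) (hy : IsTop B A y) (h1 : y.1 < x.1) (hx1 : x.2 = 1) (hy1 : y.2 = 1) :
    (x = cont A ∧ y = cont B) ∨ cont A = cont B := by
  have hxm := Finset.mem_sdiff.1 hx.mem
  have hym := Finset.mem_sdiff.1 hy.mem
  by_cases hAB : cont A ∈ bc B
  · by_cases hBA : cont B ∈ bc A
    · exact Or.inr (cont_eq_of_mem hA hB hAB hBA)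
    · exfalso
      have h3 := hy.max (cont B) (Finset.mem_sdiff.2 ⟨cont_mem hB, hBA⟩)
      have h5 := size_le hxm.1
      have h6 := size_le hAB
      omega
  · have h3 := hx.max (cont A) (Finset.mem_sdiff.2 ⟨cont_mem hA, hAB⟩)
    have h4 : x = cont A := eq_of_size hxm.1 (cont_mem hA) (le_antisymm (size_le hxm.1) h3)
    have h5 := le_cont hB hym.1
    by_cases hBA : cont B ∈ bc A
    · exfalso
      have h6 := le_cont hA hBA
      rw [← h4] at h6
      have h8 : cont B ≠ x := fun h => hxm.2 (h ▸ cont_mem hB)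
      have h9 : (cont B).1 + (cont B).2 < x.1 + x.2 := by
        rcases Nat.lt_or_ge ((cont B).1 + (cont B).2) (x.1 + x.2) with h | h
        · exact h
        · exact absurd (eq_of_size hBA hxm.1 (by omega)) h8
      have h10 := bc_lt_snd hBA hxm.1 h9 (by omega)
      omega
    · have h6 := hy.max (cont B) (Finset.mem_sdiff.2 ⟨cont_mem hB, hBA⟩)
      have h7 : y = cont B := eq_of_size hym.1 (cont_mem hB) (le_antisymm (size_le hym.1) h6)
      exact Or.inl ⟨h4, h7⟩

/-! ## sign changes -/

/-- no three points with alternating signs -/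
def NoAlt (A B : List Bool) : Prop := ∀ p0 p1 p2 : ℝ, 0 < p0 → p0 < p1 → p1 < p2 → p2 < 1 →
  G p0 A B * G p1 A B < 0 → G p1 A B * G p2 A B < 0 → False

theorem continuousOn_G {A B : List Bool} (hA : A ≠ []) (hB : B ≠ []) :
    ContinuousOn (fun p => G p A B) (Set.Ioo 0 1) := fun p hp =>
  (hasDerivAt_G hp.1 hp.2 hA hB).continuousAt.continuousWithinAt

/-- if a continuous function is increasing at each of its zeros then it stays positive -/
theorem pos_of_up {f : ℝ → ℝ} {a b : ℝ} (hab : a < b) (hf : ContinuousOn f (Set.Icc a b))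
    (ha : 0 < f a) (hup : ∀ p ∈ Set.Icc a b, f p = 0 → ∃ d : ℝ, 0 < d ∧ HasDerivAt f d p) :
    0 < f b := by
  by_contra hb
  push Not at hb
  -- the first zero
  set S := {t | t ∈ Set.Icc a b ∧ f t ≤ 0} with hS
  have hne : S.Nonempty := ⟨b, ⟨⟨hab.le, le_rfl⟩, hb⟩⟩
  have hbdd : BddBelow S := ⟨a, fun t ht => ht.1.1⟩
  have hclosed : IsClosed S := by
    have := hf.preimage_isClosed_of_isClosed isClosed_Icc (isClosed_Iic (a := (0 : ℝ)))
    exact this
  have hc : sInf S ∈ S := hclosed.csInf_mem hne hbdd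
  set c := sInf S with hcdef
  have hlt : ∀ t, a ≤ t → t < c → 0 < f t := by
    intro t h1 h2
    by_contra h3
    push Not at h3
    have : t ∈ S := ⟨⟨h1, (h2.le.trans hc.1.2)⟩, h3⟩
    exact absurd (csInf_le hbdd this) (not_le.2 h2)
  have hac : a < c := by
    rcases lt_or_eq_of_le hc.1.1 with h | h
    · exact h
    · exfalso; have := hc.2; rw [← h] at this; linarith
  have hfc : f c = 0 := by
    refine le_antisymm hc.2 ?_
    have hcont : ContinuousWithinAt f (Set.Ico a c) c :=
      (hf c hc.1).mono (fun t ht => ⟨ht.1, ht.2.le.trans hc.1.2⟩)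
    have hcl : c ∈ closure (Set.Ico a c) := by
      rw [closure_Ico hac.ne]; exact ⟨hac.le, le_rfl⟩
    have hmem := hcont.mem_closure_image hcl
    have hsub : f '' Set.Ico a c ⊆ Set.Ici 0 := by
      rintro _ ⟨t, ht, rfl⟩; exact (hlt t ht.1 ht.2).le
    exact closure_minimal hsub isClosed_Ici hmem
  obtain ⟨d, hd, hder⟩ := hup c hc.1 hfc
  -- left of `c` the function is negative
  have h1 : ∀ᶠ t in nhdsWithin c (Set.Iio c), f t < 0 := by
    have hs := (hasDerivAt_iff_tendsto_slope.1 hder)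
    have hs2 : Filter.Tendsto (slope f c) (nhdsWithin c (Set.Iio c)) (nhds d) :=
      hs.mono_left (nhdsWithin_mono c (fun t ht => ne_of_lt ht))
    filter_upwards [hs2.eventually (lt_mem_nhds hd), self_mem_nhdsWithin] with t ht1 ht2
    rw [slope_def_field, hfc, sub_zero] at ht1
    have ht3 : t - c < 0 := sub_neg.2 ht2
    by_contra h4
    push Not at h4
    have := div_nonpos_of_nonneg_of_nonpos h4 ht3.le
    linarith
  have h2 : ∀ᶠ t in nhdsWithin c (Set.Iio c), a ≤ t := by
    have : Set.Ioo a c ∈ nhdsWithin c (Set.Iio c) := Ioo_mem_nhdsLT hac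
    filter_upwards [this] with t ht using ht.1.le
  obtain ⟨t, ht⟩ := ((h1.and h2).and self_mem_nhdsWithin).exists
  have := hlt t ht.1.2 ht.2
  linarith [ht.1.1]

theorem UpAtTies.noAlt {A B : List Bool} (hA : A ≠ []) (hB : B ≠ []) (h : UpAtTies A B) :
    NoAlt A B := by
  intro p0 p1 p2 h0 h01 h12 h2 e1 e2
  have hcont := continuousOn_G hA hB
  rcases lt_trichotomy (G p1 A B) 0 with h3 | h3 | h3
  · have h4 : 0 < G p0 A B := by
      by_contra hc
      push Not at hc
      have := mul_nonneg_of_nonpos_of_nonpos hc h3.le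
      linarith
    have := pos_of_up (f := fun p => G p A B) h01
      (hcont.mono (fun t ht => ⟨h0.trans_le ht.1, ht.2.trans_lt (h12.trans h2)⟩)) h4
      (fun p hp hz => h p (h0.trans_le hp.1) (hp.2.trans_lt (h12.trans h2)) hz)
    linarith
  · rw [h3] at e1; simp at e1
  · have := pos_of_up (f := fun p => G p A B) h12
      (hcont.mono (fun t ht => ⟨(h0.trans h01).trans_le ht.1, ht.2.trans_lt h2⟩)) h3
      (fun p hp hz => h p ((h0.trans h01).trans_le hp.1) (hp.2.trans_lt h2) hz)
    have := mul_pos h3 this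
    linarith

theorem NoAlt.symm {A B : List Bool} (h : NoAlt A B) : NoAlt B A := by
  intro p0 p1 p2 h0 h01 h12 h2 e1 e2
  refine h p0 p1 p2 h0 h01 h12 h2 ?_ ?_
  · have a : G p0 B A = - G p0 A B := by unfold G; ring
    have b : G p1 B A = - G p1 A B := by unfold G; ring
    rw [a, b] at e1; linarith
  · have a : G p1 B A = - G p1 A B := by unfold G; ring
    have b : G p2 B A = - G p2 A B := by unfold G; ring
    rw [a, b] at e2; linarith

theorem NoAlt.of_neg {A B : List Bool} (h : ∀ p : ℝ, 0 < p → p < 1 → G p A B < 0) : NoAlt A B := by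
  intro p0 p1 p2 h0 h01 h12 h2 e1 _
  have := mul_pos_of_neg_of_neg (h p0 h0 (h01.trans (h12.trans h2))) (h p1 (h0.trans h01) (h12.trans h2))
  linarith

/-! ## letter flip -/

theorem ew_map_not (p : ℝ) : ∀ (n : ℕ) (f : List Bool → ℝ),
    ew p n (fun l => f (l.map not)) = ew (1 - p) n f
  | 0, f => rfl
  | n + 1, f => by
    rw [ew_succ, ew_succ]
    have e1 := ew_map_not p n (fun l => f (false :: l))
    have e2 := ew_map_not p n (fun l => f (true :: l))
    simp only [List.map_cons, Bool.not_true, Bool.not_false]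
    rw [e1, e2]; ring

theorem nocc_map_not (A l : List Bool) : nocc (A.map not) (l.map not) = nocc A l := by
  have hinj : Function.Injective (List.map not) := List.map_injective_iff.mpr Bool.not_injective
  have key : A.map not <:+: l.map not ↔ A <:+: l := by
    constructor
    · intro h
      have h2 := h.map not
      simpa [List.map_map, Function.comp_def] using h2
    · intro h
      exact h.map not
  by_cases h : A <:+: l
  · rw [nocc_of_infix h, nocc_of_infix (key.2 h)]
  · rw [nocc_of_not h, nocc_of_not (fun h2 => h (key.1 h2))]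

theorem surv_map_not (p : ℝ) (A : List Bool) (n : ℕ) : surv p (A.map not) n = surv (1 - p) A n := by
  unfold surv
  rw [← ew_map_not]
  exact ew_congr p n (fun l _ => by
    have := nocc_map_not A (l.map not)
    simpa [List.map_map, Function.comp_def] using this)

theorem pm_map_not (p : ℝ) (A : List Bool) (n : ℕ) : pm p (A.map not) n = pm (1 - p) A n := by
  unfold pm
  rw [surv_map_not, surv_map_not]

theorem G_map_not (p : ℝ) (A B : List Bool) : G p (A.map not) (B.map not) = G (1 - p) A B := by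
  unfold G
  simp only [surv_map_not, pm_map_not]

theorem NoAlt.of_map_not {A B : List Bool} (h : NoAlt (A.map not) (B.map not)) : NoAlt A B := by
  intro p0 p1 p2 h0 h01 h12 h2 e1 e2
  refine h (1 - p2) (1 - p1) (1 - p0) (by linarith) (by linarith) (by linarith) (by linarith) ?_ ?_
  · rw [G_map_not, G_map_not, sub_sub_cancel, sub_sub_cancel, mul_comm]; exact e2
  · rw [G_map_not, G_map_not, sub_sub_cancel, sub_sub_cancel, mul_comm]; exact e1

theorem IsTop.map_not {A B : List Bool} {x : ℕ × ℕ} (h : IsTop A B x) :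
    IsTop (A.map not) (B.map not) x.swap := by
  refine ⟨?_, ?_⟩
  · rw [sdiff_map_not]; exact Finset.mem_image_of_mem _ h.mem
  · rw [sdiff_map_not]
    intro z hz
    obtain ⟨w, hw, rfl⟩ := Finset.mem_image.1 hz
    have := h.max w hw
    simp only [Prod.fst_swap, Prod.snd_swap]
    omega

/-! ## the case tree -/

theorem win_case (hF : WinFull) (hE : WinEq) {A B : List Bool} (hA : A ≠ []) (hB : B ≠ [])
    {x y : ℕ × ℕ} (hx : IsTop A B x) (hy : IsTop B A y) (hle : y.1 ≤ x.1) (hx1 : x.2 = 1)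
    {z : ℕ × ℕ} (hz : z ∈ bc B \ bc A) (hz1 : z.2 = 1) (hy1 : y.2 ≤ 1)
    (hcard : x.1 - z.1 + 1 < (bc B \ bc A).card) : NoAlt A B := by
  have hym := Finset.mem_sdiff.1 hy.mem
  have hxm := Finset.mem_sdiff.1 hx.mem
  have hzm := Finset.mem_sdiff.1 hz
  have hzy := bc_chain hzm.1 hym.1 (hy.max z hz)
  have hy2 : y.2 = 1 := by omega
  have hzey : z = y := by
    rcases Nat.lt_or_ge (z.1 + z.2) (y.1 + y.2) with h | h
    · have := bc_lt_snd hzm.1 hym.1 h (by omega)
      omega
    · exact eq_of_size hzm.1 hym.1 (le_antisymm (hy.max z hz) h)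
  rw [hzey] at hcard
  have hlt : y.1 < x.1 := by
    rcases Nat.lt_or_ge y.1 x.1 with h | h
    · exact h
    · exfalso
      have : y = x := Prod.ext (le_antisymm hle h) (by omega)
      exact hxm.2 (this ▸ hym.1)
  rcases win_split hA hB hx hy hlt hx1 hy2 with ⟨h3, h4⟩ | h3
  · refine UpAtTies.noAlt hA hB (hF A B hA hB ?_ ?_ ?_ ?_)
    · rw [h3] at hx1; exact hx1
    · rw [h4] at hy2; exact hy2
    · rw [h3, h4] at hlt; exact hlt
    · rw [h3, h4] at hcard; exact hcard
  · exact UpAtTies.noAlt hA hB (hE A B hA hB h3 x y hx hy hx1 hy2 hlt hcard)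

theorem ge_case (hF : WinFull) (hE : WinEq) {A B : List Bool} (hA : A ≠ []) (hB : B ≠ [])
    {x y : ℕ × ℕ} (hx : IsTop A B x) (hy : IsTop B A y) (hle1 : y.1 ≤ x.1) (hle2 : y.2 ≤ x.2) :
    NoAlt A B := by
  have hym := Finset.mem_sdiff.1 hy.mem
  have hxm := Finset.mem_sdiff.1 hx.mem
  have hle : ∀ z ∈ bc B \ bc A, z.1 ≤ x.1 ∧ z.2 ≤ x.2 := fun z hz => by
    have := bc_chain (Finset.mem_sdiff.1 hz).1 hym.1 (hy.max z hz)
    exact ⟨this.1.trans hle1, this.2.trans hle2⟩
  by_cases h1 : x.2 = 1 → ∀ z ∈ bc B \ bc A, z.2 = 1 → (bc B \ bc A).card ≤ x.1 - z.1 + 1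
  · by_cases h2 : x.1 = 1 → ∀ z ∈ bc B \ bc A, z.1 = 1 → (bc B \ bc A).card ≤ x.2 - z.2 + 1
    · have hab : Above A B x := ⟨hx.mem, hle, h1, h2⟩
      exact NoAlt.of_neg (fun p h0 h1 => hab.G_neg h0 h1 hA hB)
    · push Not at h2
      obtain ⟨hx1, z, hz, hz1, hcard⟩ := h2
      refine NoAlt.of_map_not ?_
      have hA' : A.map not ≠ [] := by simpa using hA
      have hB' : B.map not ≠ [] := by simpa using hB
      refine win_case hF hE hA' hB' hx.map_not hy.map_not hle2 hx1 (z := z.swap) ?_ hz1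
        (by have := hle1; simp only [Prod.snd_swap]; omega) ?_
      · rw [sdiff_map_not]; exact Finset.mem_image_of_mem _ hz
      · rw [sdiff_map_not, Finset.card_image_of_injective _ Prod.swap_injective]
        exact hcard
  · push Not at h1
    obtain ⟨hx1, z, hz, hz1, hcard⟩ := h1
    exact win_case hF hE hA hB hx hy hle1 hx1 hz hz1 (by omega) hcard

theorem inc_case (hI : IncFull) (hE : IncEq) {A B : List Bool} (hA : A ≠ []) (hB : B ≠ [])
    {x y : ℕ × ℕ} (hx : IsTop A B x) (hy : IsTop B A y) (h1 : y.1 < x.1) (h2 : x.2 < y.2) :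
    NoAlt A B := by
  rcases inc_split hA hB hx hy h1 h2 with ⟨h3, h4⟩ | h3
  · exact UpAtTies.noAlt hA hB (hI A B hA hB h3 h4)
  · exact UpAtTies.noAlt hA hB (hE A B hA hB h3 x y hx hy h1 h2)

theorem exists_isTop {A B : List Bool} (h : (bc A \ bc B).Nonempty) : ∃ x, IsTop A B x := by
  obtain ⟨x, hx, hm⟩ := Finset.exists_max_image (bc A \ bc B) (fun z => z.1 + z.2) h
  exact ⟨x, hx, hm⟩

theorem noAlt_of_empty {A B : List Bool} (hA : A ≠ []) (hB : B ≠ [])
    (h : bc B \ bc A = ∅) : NoAlt A B := by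
  rcases Finset.eq_empty_or_nonempty (bc A \ bc B) with h1 | h1
  · have he : bc A = bc B :=
      Finset.Subset.antisymm (Finset.sdiff_eq_empty_iff_subset.1 h1)
        (Finset.sdiff_eq_empty_iff_subset.1 h)
    intro p0 p1 p2 h0 h01 h12 h2 e1 _
    rw [G_eq_zero h0 (h01.trans (h12.trans h2)) hA hB he] at e1
    simp at e1
  · obtain ⟨x, hx⟩ := exists_isTop h1
    have hab : Above A B x := ⟨hx.mem, by simp [h], by simp [h], by simp [h]⟩
    exact NoAlt.of_neg (fun p h0 h1 => hab.G_neg h0 h1 hA hB)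

/-- **the case tree**: the four remaining statements imply `NoTwoFlips` -/
theorem noTwoFlips_of (hIF : IncFull) (hIE : IncEq) (hWF : WinFull) (hWE : WinEq) :
    NoTwoFlips := by
  have main : ∀ A B : List Bool, A ≠ [] → B ≠ [] → NoAlt A B := by
    intro A B hA hB
    rcases Finset.eq_empty_or_nonempty (bc B \ bc A) with h1 | h1
    · exact noAlt_of_empty hA hB h1
    rcases Finset.eq_empty_or_nonempty (bc A \ bc B) with h2 | h2
    · exact (noAlt_of_empty hB hA h2).symm
    obtain ⟨x, hx⟩ := exists_isTop h2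
    obtain ⟨y, hy⟩ := exists_isTop h1
    rcases Nat.lt_or_ge x.1 y.1 with h3 | h3
    · rcases Nat.lt_or_ge y.2 x.2 with h4 | h4
      · exact (inc_case hIF hIE hB hA hy hx h3 h4).symm
      · exact (ge_case hWF hWE hB hA hy hx h3.le h4).symm
    · rcases Nat.lt_or_ge x.2 y.2 with h4 | h4
      · rcases Nat.lt_or_ge y.1 x.1 with h5 | h5
        · exact inc_case hIF hIE hA hB hx hy h5 h4
        · exact (ge_case hWF hWE hB hA hy hx h5 h4.le).symm
      · exact ge_case hWF hWE hA hB hx hy h3 h4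
  intro A B hA hB p0 p1 p2 h0 h01 h12 h2 e1 e2
  exact main A B hA hB p0 p1 p2 h0 h01 h12 h2 e1 e2

end Coin
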