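import Pool.Agent.Lib.Coin.Renewal

/-!
# Coin race: border combinatorics (module M3)

`true` = heads, `false` = tails.
-/

namespace Coin

open Finset

theorem mem_bd3 {A : List Bool} {k : ℕ} :
    k ∈ bd A ↔ (1 ≤ k ∧ k ≤ A.length) ∧ A.take k = A.drop (A.length - k) := by
  simp [bd]

theorem bd_self {A : List Bool} (h : A ≠ []) : A.length ∈ bd A := by
  rw [mem_bd3]
  refine ⟨⟨List.length_pos_iff.mpr h, le_rfl⟩, by simp⟩

theorem bd_le {A : List Bool} {k : ℕ} (h : k ∈ bd A) : k ≤ A.length := (mem_bd3.mp h).1.2

theorem bd_pos {A : List Bool} {k : ℕ} (h : k ∈ bd A) : 1 ≤ k := (mem_bd3.mp h).1.1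

theorem length_take_bd {A : List Bool} {k : ℕ} (h : k ∈ bd A) : (A.take k).length = k := by
  simp [bd_le h]

/-- borders of a border -/
theorem bd_take {A : List Bool} {k l : ℕ} (hk : k ∈ bd A) (hl : l ≤ k) :
    l ∈ bd (A.take k) ↔ l ∈ bd A := by
  obtain ⟨⟨hk1, hk2⟩, hk3⟩ := mem_bd3.mp hk
  have hlen : (A.take k).length = k := length_take_bd hk
  rw [mem_bd3, mem_bd3, hlen, List.take_take, min_eq_left hl]
  have : (A.take k).drop (k - l) = A.drop (A.length - l) := by
    rw [hk3, List.drop_drop]
    congr 1
    omega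
  rw [this]
  constructor
  · rintro ⟨⟨h1, h2⟩, h3⟩
    exact ⟨⟨h1, hl.trans hk2⟩, h3⟩
  · rintro ⟨⟨h1, h2⟩, h3⟩
    exact ⟨⟨h1, hl⟩, h3⟩

theorem bd_take_eq {A : List Bool} {k : ℕ} (hk : k ∈ bd A) :
    bd (A.take k) = (bd A).filter (fun l => l ≤ k) := by
  ext l
  rw [Finset.mem_filter]
  constructor
  · intro h
    have h1 : l ≤ k := by
      have := bd_le h
      rwa [length_take_bd hk] at this
    exact ⟨(bd_take hk h1).mp h, h1⟩
  · rintro ⟨h1, h2⟩
    exact (bd_take hk h2).mpr h1

/-- periodicity -/
theorem bd_getElem {A : List Bool} {k : ℕ} (hk : k ∈ bd A) (i : ℕ) (hi : i < k) :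
    A[i]? = A[i + (A.length - k)]? := by
  obtain ⟨⟨hk1, hk2⟩, hk3⟩ := mem_bd3.mp hk
  have h1 : (A.take k)[i]? = A[i]? := by
    rw [List.getElem?_take]
    simp [hi]
  have h2 : (A.drop (A.length - k))[i]? = A[A.length - k + i]? := by
    rw [List.getElem?_drop]
  rw [← h1, hk3, h2, add_comm]

theorem not_mem_of_not_mem_drop {A : List Bool} {k : ℕ} (hk : k ∈ bd A) (hlt : k < A.length)
    {b : Bool} (hb : b ∉ A.drop k) : b ∉ A := by
  have key : ∀ d i : ℕ, A.length - i ≤ d → A[i]? ≠ some b := by
    intro d
    induction d with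
    | zero =>
      intro i hi
      have : A.length ≤ i := by omega
      simp [List.getElem?_eq_none this]
    | succ d ih =>
      intro i hi
      by_cases hik : i < k
      · rw [bd_getElem hk i hik]
        apply ih
        omega
      · intro hc
        apply hb
        have h2 : (A.drop k)[i - k]? = A[k + (i - k)]? := by
          rw [List.getElem?_drop]
        rw [show k + (i - k) = i by omega, hc] at h2
        exact List.mem_of_getElem? h2
  intro hmem
  obtain ⟨i, hi⟩ := List.mem_iff_getElem?.mp hmem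
  exact key _ i le_rfl hi

theorem count_split (A : List Bool) (k : ℕ) (b : Bool) :
    A.count b = (A.take k).count b + (A.drop k).count b := by
  rw [← List.count_append, List.take_append_drop]

/-- the part after a proper border contains every letter that occurs -/
theorem mem_drop {A : List Bool} {k : ℕ} (hk : k ∈ bd A) (hlt : k < A.length)
    {b : Bool} (hb : b ∈ A) : b ∈ A.drop k := by
  by_contra hc
  exact not_mem_of_not_mem_drop hk hlt hc hb

/-- a proper border loses at least one of every letter that occurs -/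
theorem count_lt {A : List Bool} {k : ℕ} (hk : k ∈ bd A) (hlt : k < A.length)
    {b : Bool} (hb : b ∈ A) : (A.take k).count b < A.count b := by
  have h := count_split A k b
  have h2 : 0 < (A.drop k).count b := List.count_pos_iff.mpr (mem_drop hk hlt hb)
  omega

/-- two borders: the shorter one has strictly fewer of every letter of the longer one -/
theorem count_lt_of_lt {A : List Bool} {k l : ℕ} (hk : k ∈ bd A) (hl : l ∈ bd A) (hkl : k < l)
    {b : Bool} (hb : b ∈ A.take l) : (A.take k).count b < (A.take l).count b := by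
  have h1 : k ∈ bd (A.take l) := (bd_take hl hkl.le).mpr hk
  have h2 := count_lt h1 (by rw [length_take_bd hl]; exact hkl) hb
  rwa [List.take_take, min_eq_left hkl.le] at h2

theorem count_le_of_le {A : List Bool} {k l : ℕ} (hkl : k ≤ l) (b : Bool) :
    (A.take k).count b ≤ (A.take l).count b := by
  have : A.take k = (A.take l).take k := by rw [List.take_take, min_eq_left hkl]
  rw [this]
  exact (List.take_sublist _ _).count_le _

theorem count_add (A : List Bool) : A.count true + A.count false = A.length := by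
  induction A with
  | nil => simp
  | cons a l ih => cases a <;> simp <;> omega

/-- the length of a border is determined by its content -/
theorem cont_inj {A : List Bool} {k l : ℕ} (hk : k ∈ bd A) (hl : l ∈ bd A)
    (h : cont (A.take k) = cont (A.take l)) : k = l := by
  have h1 := count_add (A.take k)
  have h2 := count_add (A.take l)
  rw [length_take_bd hk] at h1
  rw [length_take_bd hl] at h2
  simp only [cont, Prod.mk.injEq] at h
  omega

/-! ### words without one letter -/

theorem eq_replicate_of_count {l : List Bool} {b : Bool} (h : l.count (!b) = 0) :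
    l = List.replicate l.length b := by
  rw [List.eq_replicate_iff]
  refine ⟨rfl, fun x hx => ?_⟩
  by_contra hne
  have : x = !b := by cases x <;> cases b <;> simp_all
  rw [this] at hx
  have := List.count_pos_iff.mpr hx
  omega

theorem bd_replicate (n : ℕ) (b : Bool) : bd (List.replicate n b) = Finset.Icc 1 n := by
  ext k
  rw [mem_bd3, Finset.mem_Icc]
  simp only [List.length_replicate, List.take_replicate, List.drop_replicate]
  constructor
  · rintro ⟨h, -⟩
    exact h
  · rintro ⟨h1, h2⟩
    refine ⟨⟨h1, h2⟩, ?_⟩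
    congr 1
    omega

/-! ### weights -/

theorem wt_take_drop (p : ℝ) (l : List Bool) (k : ℕ) :
    wt p l = wt p (l.take k) * wt p (l.drop k) := by
  rw [← wt_append, List.take_append_drop]

theorem kap_pos' {p : ℝ} (h0 : 0 < p) (h1 : p < 1) (A : List Bool) (k : ℕ) : 0 < kap p A k :=
  one_div_pos.mpr (wt_pos h0 h1 _)

theorem kap_take {A : List Bool} (p : ℝ) {k l : ℕ} (h : l ≤ k) :
    kap p (A.take k) l = kap p A l := by
  simp only [kap, List.take_take, min_eq_left h]

/-- flipping the letters -/
theorem wt_map_not (p : ℝ) (l : List Bool) : wt p (l.map not) = wt (1 - p) l := by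
  have h1 : ∀ l : List Bool, (l.map not).count true = l.count false := by
    intro l
    induction l with
    | nil => simp
    | cons a l ih => cases a <;> simp [ih]
  have h2 : ∀ l : List Bool, (l.map not).count false = l.count true := by
    intro l
    induction l with
    | nil => simp
    | cons a l ih => cases a <;> simp [ih]
  simp only [wt, h1, h2]
  ring_nf

theorem count_map_not (l : List Bool) (b : Bool) : (l.map not).count b = l.count (!b) := by
  induction l with
  | nil => simp
  | cons a l ih => cases a <;> cases b <;> simp_all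

theorem bd_map_not (A : List Bool) : bd (A.map not) = bd A := by
  ext k
  rw [mem_bd3, mem_bd3, List.length_map, ← List.map_take, ← List.map_drop]
  have hinj : Function.Injective (List.map not) :=
    List.map_injective_iff.mpr Bool.not_injective
  constructor
  · rintro ⟨h1, h2⟩
    exact ⟨h1, hinj h2⟩
  · rintro ⟨h1, h2⟩
    exact ⟨h1, by rw [h2]⟩

theorem kap_map_not (p : ℝ) (A : List Bool) (k : ℕ) : kap p (A.map not) k = kap (1 - p) A k := by
  simp only [kap, ← List.map_take, wt_map_not]

/-! ### the border sum -/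

/-- `P(Y) * sum over the borders of 1/P(Y_k)` -/
noncomputable def Sg (p : ℝ) (Y : List Bool) : ℝ := wt p Y * ∑ k ∈ bd Y, kap p Y k

theorem Sg_map_not (p : ℝ) (A : List Bool) : Sg p (A.map not) = Sg (1 - p) A := by
  simp only [Sg, wt_map_not, bd_map_not, kap_map_not]

/-- either no proper border, or a largest one -/
theorem exists_top (A : List Bool) :
    (bd A).erase A.length = ∅ ∨ ∃ k ∈ bd A, k < A.length ∧
      (bd A).erase A.length = bd (A.take k) := by
  rcases Finset.eq_empty_or_nonempty ((bd A).erase A.length) with h | h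
  · exact Or.inl h
  · right
    set k := ((bd A).erase A.length).max' h with hkdef
    have hk : k ∈ (bd A).erase A.length := Finset.max'_mem _ h
    rw [Finset.mem_erase] at hk
    have hlt : k < A.length := lt_of_le_of_ne (bd_le hk.2) hk.1
    refine ⟨k, hk.2, hlt, ?_⟩
    rw [bd_take_eq hk.2]
    ext l
    rw [Finset.mem_erase, Finset.mem_filter]
    constructor
    · rintro ⟨h1, h2⟩
      exact ⟨h2, Finset.le_max' _ _ (Finset.mem_erase.mpr ⟨h1, h2⟩)⟩
    · rintro ⟨h1, h2⟩
      exact ⟨by omega, h1⟩

theorem Sg_eq {p : ℝ} (h0 : 0 < p) (h1 : p < 1) {Y : List Bool} (hY : Y ≠ []) :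
    Sg p Y = 1 + wt p Y * ∑ k ∈ (bd Y).erase Y.length, kap p Y k := by
  rw [Sg, ← Finset.add_sum_erase _ _ (bd_self hY), mul_add]
  congr 1
  simp only [kap, List.take_length]
  exact mul_one_div_cancel (wt_pos h0 h1 _).ne'

/-- the recursion over the largest proper border -/
theorem Sg_rec {p : ℝ} (h0 : 0 < p) (h1 : p < 1) {Y : List Bool} (hY : Y ≠ []) {k : ℕ}
    (hk : k ∈ bd Y) (he : (bd Y).erase Y.length = bd (Y.take k)) :
    Sg p Y = 1 + wt p (Y.drop k) * Sg p (Y.take k) := by
  rw [Sg_eq h0 h1 hY, he, Sg, ← mul_assoc, mul_comm (wt p (Y.drop k)), ← wt_take_drop]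
  congr 2
  apply Finset.sum_congr rfl
  intro l hl
  have : l ≤ k := by
    have := bd_le hl
    rwa [length_take_bd hk] at this
  rw [kap_take p this]

theorem Sg_top {p : ℝ} (h0 : 0 < p) (h1 : p < 1) {Y : List Bool} (hY : Y ≠ [])
    (he : (bd Y).erase Y.length = ∅) : Sg p Y = 1 := by
  rw [Sg_eq h0 h1 hY, he]
  simp

theorem Sg_pos {p : ℝ} (h0 : 0 < p) (h1 : p < 1) {Y : List Bool} (hY : Y ≠ []) : 0 < Sg p Y :=
  mul_pos (wt_pos h0 h1 _)
    (Finset.sum_pos (fun _ _ => kap_pos' h0 h1 _ _) ⟨_, bd_self hY⟩)

theorem one_le_Sg {p : ℝ} (h0 : 0 < p) (h1 : p < 1) {Y : List Bool} (hY : Y ≠ []) :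
    1 ≤ Sg p Y := by
  rw [Sg_eq h0 h1 hY]
  have : 0 ≤ wt p Y * ∑ k ∈ (bd Y).erase Y.length, kap p Y k :=
    mul_nonneg (wt_pos h0 h1 _).le (Finset.sum_nonneg (fun _ _ => (kap_pos' h0 h1 _ _).le))
  linarith

end Coin
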