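import Pool.Agent.Lib.Coin.Borders

/-!
# Coin race: bounds for the border sums (module M3, part 2)
-/

namespace Coin

open Finset

theorem wt_replicate_true (p : ℝ) (n : ℕ) : wt p (List.replicate n true) = p ^ n := by
  simp [wt, List.count_replicate]

theorem wt_replicate_false (p : ℝ) (n : ℕ) : wt p (List.replicate n false) = (1 - p) ^ n := by
  simp [wt, List.count_replicate]

/-- unary words -/
theorem Sg_replicate_true {p : ℝ} (h0 : 0 < p) (h1 : p < 1) (n : ℕ) :
    Sg p (List.replicate n true) = (1 - p ^ n) / (1 - p) := by
  have hq : (1 - p) ≠ 0 := by linarith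
  rw [Sg, bd_replicate, wt_replicate_true]
  induction n with
  | zero => simp
  | succ n ih =>
    rw [Finset.sum_Icc_succ_top (by omega)]
    have h2 : ∀ m, ∀ k ∈ Finset.Icc 1 m, kap p (List.replicate m true) k = 1 / p ^ k := by
      intro m k hk
      rw [Finset.mem_Icc] at hk
      simp only [kap, List.take_replicate, wt_replicate_true, min_eq_left hk.2]
    rw [Finset.sum_congr rfl (h2 n)] at ih
    have h3 : ∑ k ∈ Finset.Icc 1 n, kap p (List.replicate (n + 1) true) k =
        ∑ k ∈ Finset.Icc 1 n, 1 / p ^ k := by
      apply Finset.sum_congr rfl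
      intro k hk
      rw [Finset.mem_Icc] at hk
      simp only [kap, List.take_replicate, wt_replicate_true]
      rw [min_eq_left (by omega)]
    rw [h3, h2 (n + 1) (n + 1) (by simp), mul_add, mul_one_div_cancel (pow_pos h0 _).ne', pow_succ,
      mul_assoc, mul_comm p, ← mul_assoc, ih]
    field_simp
    ring

theorem Sg_replicate_false {p : ℝ} (h0 : 0 < p) (h1 : p < 1) (n : ℕ) :
    Sg p (List.replicate n false) = (1 - (1 - p) ^ n) / p := by
  have h := Sg_map_not p (List.replicate n true)
  rw [List.map_replicate, Sg_replicate_true (by linarith : 0 < 1 - p) (by linarith)] at h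
  simp only [Bool.not_true] at h
  rw [h]
  congr 1
  ring

/-- the weight of a word with both letters -/
theorem wt_le_pq {p : ℝ} (h0 : 0 < p) (h1 : p < 1) {l : List Bool} (ht : true ∈ l)
    (hf : false ∈ l) : wt p l ≤ p * (1 - p) := by
  have a1 : 1 ≤ l.count true := List.count_pos_iff.mpr ht
  have a2 : 1 ≤ l.count false := List.count_pos_iff.mpr hf
  have b1 : p ^ l.count true ≤ p ^ 1 := pow_le_pow_of_le_one h0.le h1.le a1
  have b2 : (1 - p) ^ l.count false ≤ (1 - p) ^ 1 :=
    pow_le_pow_of_le_one (by linarith) (by linarith) a2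
  rw [pow_one] at b1 b2
  exact mul_le_mul b1 b2 (pow_nonneg (by linarith) _) h0.le

theorem wt_drop_le {p : ℝ} (h0 : 0 < p) (h1 : p < 1) {Y : List Bool} {k : ℕ} (hk : k ∈ bd Y)
    (hlt : k < Y.length) (ht : true ∈ Y) (hf : false ∈ Y) :
    wt p (Y.drop k) ≤ p * (1 - p) :=
  wt_le_pq h0 h1 (mem_drop hk hlt ht) (mem_drop hk hlt hf)

theorem take_ne_nil {Y : List Bool} {k : ℕ} (hk : k ∈ bd Y) : Y.take k ≠ [] := by
  intro h
  have := length_take_bd hk
  rw [h, List.length_nil] at this
  have := bd_pos hk
  omega

/-- every border sum is smaller than `1/(pq)` (after normalisation) -/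
theorem Sg_lt {p : ℝ} (h0 : 0 < p) (h1 : p < 1) {Y : List Bool} (hY : Y ≠ []) :
    p * (1 - p) * Sg p Y < 1 := by
  induction hn : Y.length using Nat.strong_induction_on generalizing Y with
  | _ n ih =>
    have hq : 0 < 1 - p := by linarith
    by_cases ht : true ∈ Y
    · by_cases hf : false ∈ Y
      · rcases exists_top Y with he | ⟨k, hk, hlt, he⟩
        · rw [Sg_top h0 h1 hY he]
          nlinarith [sq_nonneg (2 * p - 1)]
        · rw [Sg_rec h0 h1 hY hk he]
          have h3 := ih k (by omega) (take_ne_nil hk) (length_take_bd hk)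
          have h4 := wt_drop_le h0 h1 hk hlt ht hf
          have h5 := Sg_pos h0 h1 (take_ne_nil hk)
          have h6 : wt p (Y.drop k) * Sg p (Y.take k) < 1 :=
            lt_of_le_of_lt (mul_le_mul_of_nonneg_right h4 h5.le) h3
          have h7 : p * (1 - p) ≤ 1 / 4 := by nlinarith [sq_nonneg (2 * p - 1)]
          nlinarith [mul_pos h0 hq]
      · have hc : Y.count (!true) = 0 := List.count_eq_zero_of_not_mem (by simpa using hf)
        rw [eq_replicate_of_count hc, Sg_replicate_true h0 h1]
        have h3 : 0 < p ^ Y.length := pow_pos h0 _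
        rw [mul_assoc, mul_div_cancel₀ _ hq.ne']
        nlinarith
    · have hc : Y.count (!false) = 0 := List.count_eq_zero_of_not_mem (by simpa using ht)
      rw [eq_replicate_of_count hc, Sg_replicate_false h0 h1]
      have h3 : 0 < (1 - p) ^ Y.length := pow_pos hq _
      rw [mul_comm p, mul_assoc, mul_div_cancel₀ _ h0.ne']
      nlinarith

/-- both letters: the border sum is smaller than `2` -/
theorem Sg_lt_two {p : ℝ} (h0 : 0 < p) (h1 : p < 1) {Y : List Bool} (ht : true ∈ Y)
    (hf : false ∈ Y) : Sg p Y < 2 := by
  have hY : Y ≠ [] := List.ne_nil_of_mem ht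
  rcases exists_top Y with he | ⟨k, hk, hlt, he⟩
  · rw [Sg_top h0 h1 hY he]
    norm_num
  · rw [Sg_rec h0 h1 hY hk he]
    have h3 := Sg_lt h0 h1 (take_ne_nil hk)
    have h4 := wt_drop_le h0 h1 hk hlt ht hf
    have h5 := Sg_pos h0 h1 (take_ne_nil hk)
    have h6 : wt p (Y.drop k) * Sg p (Y.take k) < 1 :=
      lt_of_le_of_lt (mul_le_mul_of_nonneg_right h4 h5.le) h3
    linarith

/-- in a word with exactly one tail, twice the unary border is at most the number of heads -/
theorem two_mul_le_of_one_tail {Z : List Bool} {m : ℕ} (hm : m ∈ bd Z)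
    (h1 : Z.count false = 1) (hmf : (Z.take m).count false = 0) :
    2 * m ≤ Z.count true := by
  have hadd := count_add Z
  by_contra hc
  have hlen : Z.length ≤ 2 * m := by omega
  -- the suffix of length `m` has no tail either
  have hd : (Z.drop (Z.length - m)).count false = 0 := by
    rw [← (mem_bd3.mp hm).2]
    exact hmf
  have h2 := count_split Z (Z.length - m) false
  have h3 : (Z.take (Z.length - m)).count false ≤ (Z.take m).count false :=
    count_le_of_le (by omega) false
  omega

/-- the gap between two tails: if a one-tail word `Z` is a border of a word with exactly one more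
tail, then its unary border is not longer than the number of additional heads -/
theorem run_le_of_one_tail {Y : List Bool} {k m : ℕ} (hk : k ∈ bd Y)
    (hm : m ∈ bd (Y.take k)) (hmf : (Y.take m).count false = 0)
    (hd : (Y.drop k).count false = 1) : m ≤ (Y.drop k).count true := by
  have hkle := bd_le hk
  have hmk : m ≤ k := by
    have := bd_le hm
    rwa [length_take_bd hk] at this
  have hmY : m ∈ bd Y := (bd_take hk hmk).mp hm
  have hadd := count_add (Y.drop k)
  rw [List.length_drop] at hadd
  by_contra hc
  -- then the period is at most `m`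
  have hper : Y.length - k ≤ m := by omega
  have h1 : (Y.drop (Y.length - m)).count false = 0 := by
    rw [← (mem_bd3.mp hmY).2]
    exact hmf
  have h2 : Y.drop k = (Y.drop (Y.length - m)).drop (k - (Y.length - m)) := by
    rw [List.drop_drop]
    congr 1
    omega
  have h3 : (Y.drop k).count false ≤ (Y.drop (Y.length - m)).count false := by
    rw [h2]
    exact (List.drop_sublist _ _).count_le _
  omega

/-- one tail: closed form of the border sum -/
theorem Sg_one_tail {p : ℝ} (h0 : 0 < p) (h1 : p < 1) {Z : List Bool} (hZ : Z.count false = 1) :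
    ∃ m : ℕ, 2 * m ≤ Z.count true ∧ (m ≠ 0 → m ∈ bd Z) ∧ (Z.take m).count false = 0 ∧
      (∀ k, k ∈ bd Z ↔ (k = Z.length ∨ (1 ≤ k ∧ k ≤ m))) ∧
      Sg p Z = 1 + p ^ (Z.count true - m) * (1 - p ^ m) := by
  have hfm : false ∈ Z := List.count_pos_iff.mp (by omega)
  have hne : Z ≠ [] := List.ne_nil_of_mem hfm
  rcases exists_top Z with he | ⟨m, hm, hlt, he⟩
  · refine ⟨0, by omega, by simp, by simp, ?_, ?_⟩
    · intro k
      constructor
      · intro hk
        left
        by_contra hc
        have : k ∈ (bd Z).erase Z.length := Finset.mem_erase.mpr ⟨hc, hk⟩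
        rw [he] at this
        simp at this
      · rintro (h | h)
        · rw [h]; exact bd_self hne
        · omega
    · rw [Sg_top h0 h1 hne he]
      simp
  · have hmf : (Z.take m).count false = 0 := by
      have := count_lt hm hlt hfm
      omega
    have hrep : Z.take m = List.replicate m true := by
      have := eq_replicate_of_count (l := Z.take m) (b := true) (by simpa using hmf)
      rwa [length_take_bd hm] at this
    have h2m := two_mul_le_of_one_tail hm hZ hmf
    refine ⟨m, h2m, fun _ => hm, hmf, ?_, ?_⟩
    · intro k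
      have hk2 : k ∈ (bd Z).erase Z.length ↔ (1 ≤ k ∧ k ≤ m) := by
        rw [he, hrep, bd_replicate, Finset.mem_Icc]
      rw [Finset.mem_erase] at hk2
      constructor
      · intro hk
        by_cases hkl : k = Z.length
        · exact Or.inl hkl
        · exact Or.inr (hk2.mp ⟨hkl, hk⟩)
      · rintro (h | h)
        · rw [h]; exact bd_self hne
        · exact (hk2.mpr h).2
    · rw [Sg_rec h0 h1 hne hm he, hrep, Sg_replicate_true h0 h1]
      have hcs := count_split Z m true
      have hcf := count_split Z m false
      have hct : (Z.take m).count true = m := by rw [hrep]; simp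
      have hw : wt p (Z.drop m) = p ^ (Z.count true - m) * (1 - p) := by
        rw [wt, show (Z.drop m).count true = Z.count true - m by omega,
          show (Z.drop m).count false = 1 by omega, pow_one]
      rw [hw]
      have hq : (1 - p) ≠ 0 := by linarith
      field_simp

end Coin
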