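import Pool.Agent.Lib.Coin.Borders2

/-!
# Coin race: bounds for the border sums (module M3, part 3)
-/

namespace Coin

open Finset

/-- two tails: the border sum is smaller than `1/p` -/
theorem Sg_lt_of_two_tails {p : ℝ} (h0 : 0 < p) (h1 : p < 1) {Y : List Bool}
    (hY2 : 2 ≤ Y.count false) : p * Sg p Y < 1 := by
  induction hn : Y.length using Nat.strong_induction_on generalizing Y with
  | _ n ih =>
    have hq : 0 < 1 - p := by linarith
    have hf : false ∈ Y := List.count_pos_iff.mp (by omega)
    have hY : Y ≠ [] := List.ne_nil_of_mem hf
    by_cases ht : true ∈ Y
    · rcases exists_top Y with he | ⟨k, hk, hlt, he⟩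
      · rw [Sg_top h0 h1 hY he]
        linarith
      · rw [Sg_rec h0 h1 hY hk he]
        have hZ := take_ne_nil hk
        have hw0 := wt_pos h0 h1 (Y.drop k)
        have hwpq := wt_drop_le h0 h1 hk hlt ht hf
        have hdt : 1 ≤ (Y.drop k).count true := List.count_pos_iff.mpr (mem_drop hk hlt ht)
        have hdf : 1 ≤ (Y.drop k).count false := List.count_pos_iff.mpr (mem_drop hk hlt hf)
        have hsplit := count_split Y k false
        suffices h : wt p (Y.drop k) * (p * Sg p (Y.take k)) < 1 - p by
          nlinarith
        rcases Nat.lt_or_ge ((Y.take k).count false) 2 with hz | hz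
        · rcases Nat.lt_or_ge 0 ((Y.take k).count false) with hz1 | hz0
          · -- exactly one tail in the border
            have hz2 : (Y.take k).count false = 1 := by omega
            obtain ⟨m, h2m, hmb, hmf, -, hS⟩ := Sg_one_tail h0 h1 hz2
            have hx0 : 0 < p ^ m := pow_pos h0 _
            have hx1 : p ^ m ≤ 1 := pow_le_one₀ h0.le h1.le
            have hc : p ^ ((Y.take k).count true - m) ≤ p ^ m :=
              pow_le_pow_of_le_one h0.le h1.le (by omega)
            have hc0 : 0 < p ^ ((Y.take k).count true - m) := pow_pos h0 _
            rw [hS]
            rcases Nat.lt_or_ge 1 ((Y.drop k).count false) with hj | hj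
            · -- two more tails
              have hw : wt p (Y.drop k) ≤ p * (1 - p) ^ 2 := by
                have b1 : p ^ (Y.drop k).count true ≤ p ^ 1 :=
                  pow_le_pow_of_le_one h0.le h1.le hdt
                have b2 : (1 - p) ^ (Y.drop k).count false ≤ (1 - p) ^ 2 :=
                  pow_le_pow_of_le_one hq.le (by linarith) hj
                rw [pow_one] at b1
                exact mul_le_mul b1 b2 (pow_nonneg hq.le _) h0.le
              have hS2 : 1 + p ^ ((Y.take k).count true - m) * (1 - p ^ m) ≤ 2 := by
                nlinarith
              have hS0 : 0 ≤ 1 + p ^ ((Y.take k).count true - m) * (1 - p ^ m) := by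
                nlinarith
              have h3 : wt p (Y.drop k) *
                  (p * (1 + p ^ ((Y.take k).count true - m) * (1 - p ^ m))) ≤
                  (p * (1 - p) ^ 2) * (p * 2) := by
                apply mul_le_mul hw _ (mul_nonneg h0.le hS0) (by positivity)
                exact mul_le_mul_of_nonneg_left hS2 h0.le
              refine lt_of_le_of_lt h3 ?_
              have : 2 * p ^ 2 * (1 - p) < 1 := by nlinarith [sq_nonneg (2 * p - 1), mul_pos h0 hq]
              nlinarith
            · -- one more tail
              have hj1 : (Y.drop k).count false = 1 := by omega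
              have hmi : m ≤ (Y.drop k).count true := by
                by_cases hm0 : m = 0
                · omega
                · have hmk : m ≤ k := by
                    have := bd_le (hmb hm0)
                    rwa [length_take_bd hk] at this
                  apply run_le_of_one_tail hk (hmb hm0) _ hj1
                  rwa [List.take_take, min_eq_left hmk] at hmf
              have hpi : p ^ (Y.drop k).count true ≤ p ^ m :=
                pow_le_pow_of_le_one h0.le h1.le hmi
              have hwt : wt p (Y.drop k) = p ^ (Y.drop k).count true * (1 - p) := by
                rw [wt, hj1, pow_one]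
              rw [hwt]
              set x := p ^ m with hx
              set y := p ^ ((Y.take k).count true - m) with hy
              set u := p ^ (Y.drop k).count true with hu
              have hu0 : 0 < u := pow_pos h0 _
              have h3 : 1 + y * (1 - x) ≤ 1 + x * (1 - x) := by nlinarith
              have h4 : u * (1 + y * (1 - x)) ≤ x * (1 + x * (1 - x)) := by
                apply mul_le_mul hpi h3 (by nlinarith) hx0.le
              have h5 : x * (1 + x * (1 - x)) ≤ 1 := by
                nlinarith [mul_nonneg (sub_nonneg.mpr hx1) (sub_nonneg.mpr hx1),
                  mul_nonneg (mul_nonneg (sub_nonneg.mpr hx1) (sub_nonneg.mpr hx1)) hx0.le]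
              have h6 : u * (1 + y * (1 - x)) * p < 1 := by nlinarith
              nlinarith
          · -- no tail in the border
            have hz2 : (Y.take k).count false = 0 := by omega
            have hrep : Y.take k = List.replicate k true := by
              have := eq_replicate_of_count (l := Y.take k) (b := true) (by simpa using hz2)
              rwa [length_take_bd hk] at this
            have hj : 2 ≤ (Y.drop k).count false := by omega
            have hw : wt p (Y.drop k) ≤ p * (1 - p) ^ 2 := by
              have b1 : p ^ (Y.drop k).count true ≤ p ^ 1 :=
                pow_le_pow_of_le_one h0.le h1.le hdt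
              have b2 : (1 - p) ^ (Y.drop k).count false ≤ (1 - p) ^ 2 :=
                pow_le_pow_of_le_one hq.le (by linarith) hj
              rw [pow_one] at b1
              exact mul_le_mul b1 b2 (pow_nonneg hq.le _) h0.le
            rw [hrep, Sg_replicate_true h0 h1]
            have hk0 : 0 < p ^ k := pow_pos h0 _
            have hk1 : p ^ k ≤ 1 := pow_le_one₀ h0.le h1.le
            have h3 : wt p (Y.drop k) * (p * ((1 - p ^ k) / (1 - p))) ≤
                (p * (1 - p) ^ 2) * (p * ((1 - p ^ k) / (1 - p))) := by
              apply mul_le_mul_of_nonneg_right hw
              exact mul_nonneg h0.le (div_nonneg (by linarith) hq.le)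
            refine lt_of_le_of_lt h3 ?_
            have h4 : (p * (1 - p) ^ 2) * (p * ((1 - p ^ k) / (1 - p))) =
                (1 - p) * (p * p * (1 - p ^ k)) := by
              field_simp
            rw [h4]
            have h5 : p * p * (1 - p ^ k) < 1 := by nlinarith
            nlinarith
        · have h3 := ih k (by omega) hz (length_take_bd hk)
          have h4 := Sg_pos h0 h1 hZ
          have h5 : wt p (Y.drop k) * (p * Sg p (Y.take k)) ≤ p * (1 - p) *
              (p * Sg p (Y.take k)) :=
            mul_le_mul_of_nonneg_right hwpq (mul_nonneg h0.le h4.le)
          have h6 : 0 < p * (1 - p) := mul_pos h0 hq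
          nlinarith
    · have hc : Y.count (!false) = 0 := List.count_eq_zero_of_not_mem (by simpa using ht)
      rw [eq_replicate_of_count hc, Sg_replicate_false h0 h1, mul_div_cancel₀ _ h0.ne']
      have h3 : 0 < (1 - p) ^ Y.length := pow_pos hq _
      linarith

/-- two heads: the border sum is smaller than `1/(1-p)` -/
theorem Sg_lt_of_two_heads {p : ℝ} (h0 : 0 < p) (h1 : p < 1) {Y : List Bool}
    (hY2 : 2 ≤ Y.count true) : (1 - p) * Sg p Y < 1 := by
  have h := Sg_lt_of_two_tails (p := 1 - p) (by linarith) (by linarith) (Y := Y.map not)
    (by rw [count_map_not]; exact hY2)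
  rwa [Sg_map_not, sub_sub_cancel] at h

end Coin
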