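import Pool.Agent.Lib.Coin.Borders3

/-!
# Coin race: border sums in terms of `kap`, contents (module M3, part 4)
-/

namespace Coin

open Finset

theorem kap_length (p : ℝ) (Y : List Bool) : kap p Y Y.length = 1 / wt p Y := by
  simp [kap]

theorem sum_kap_eq {p : ℝ} (h0 : 0 < p) (h1 : p < 1) (Y : List Bool) :
    ∑ k ∈ bd Y, kap p Y k = kap p Y Y.length * Sg p Y := by
  rw [kap_length, Sg, ← mul_assoc, one_div_mul_cancel (wt_pos h0 h1 Y).ne', one_mul]

/-- every word: `sum kap < kap_top / (p (1-p))` -/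
theorem sum_kap_lt {p : ℝ} (h0 : 0 < p) (h1 : p < 1) {Y : List Bool} (hY : Y ≠ []) :
    ∑ k ∈ bd Y, kap p Y k < kap p Y Y.length / (p * (1 - p)) := by
  have hq : 0 < 1 - p := by linarith
  rw [sum_kap_eq h0 h1, lt_div_iff₀ (mul_pos h0 hq)]
  have := Sg_lt h0 h1 hY
  have hk := kap_pos' h0 h1 Y Y.length
  nlinarith

/-- two tails: `sum kap < kap_top / p` -/
theorem sum_kap_lt_of_two_tails {p : ℝ} (h0 : 0 < p) (h1 : p < 1) {Y : List Bool}
    (hY2 : 2 ≤ Y.count false) : ∑ k ∈ bd Y, kap p Y k < kap p Y Y.length / p := by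
  rw [sum_kap_eq h0 h1, lt_div_iff₀ h0]
  have := Sg_lt_of_two_tails h0 h1 hY2
  have hk := kap_pos' h0 h1 Y Y.length
  nlinarith

/-- two heads: `sum kap < kap_top / (1-p)` -/
theorem sum_kap_lt_of_two_heads {p : ℝ} (h0 : 0 < p) (h1 : p < 1) {Y : List Bool}
    (hY2 : 2 ≤ Y.count true) : ∑ k ∈ bd Y, kap p Y k < kap p Y Y.length / (1 - p) := by
  rw [sum_kap_eq h0 h1, lt_div_iff₀ (by linarith : (0 : ℝ) < 1 - p)]
  have := Sg_lt_of_two_heads h0 h1 hY2
  have hk := kap_pos' h0 h1 Y Y.length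
  nlinarith

/-- both letters: `sum kap < 2 kap_top` -/
theorem sum_kap_lt_two {p : ℝ} (h0 : 0 < p) (h1 : p < 1) {Y : List Bool} (ht : true ∈ Y)
    (hf : false ∈ Y) : ∑ k ∈ bd Y, kap p Y k < 2 * kap p Y Y.length := by
  rw [sum_kap_eq h0 h1]
  have := Sg_lt_two h0 h1 ht hf
  have hk := kap_pos' h0 h1 Y Y.length
  nlinarith

/-! ### contents -/

theorem kap_eq_cont (p : ℝ) (A : List Bool) (k : ℕ) :
    kap p A k = 1 / (p ^ (cont (A.take k)).1 * (1 - p) ^ (cont (A.take k)).2) := rfl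

theorem cont_add {A : List Bool} {k : ℕ} (hk : k ∈ bd A) :
    (cont (A.take k)).1 + (cont (A.take k)).2 = k := by
  have := count_add (A.take k)
  rw [length_take_bd hk] at this
  exact this

theorem mem_bc {A : List Bool} {z : ℕ × ℕ} : z ∈ bc A ↔ ∃ k ∈ bd A, cont (A.take k) = z := by
  simp [bc]

theorem mem_bc_iff {A : List Bool} {z : ℕ × ℕ} :
    z ∈ bc A ↔ z.1 + z.2 ∈ bd A ∧ cont (A.take (z.1 + z.2)) = z := by
  rw [mem_bc]
  constructor
  · rintro ⟨k, hk, rfl⟩
    rw [cont_add hk]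
    exact ⟨hk, rfl⟩
  · rintro ⟨h1, h2⟩
    exact ⟨_, h1, h2⟩

/-- the sum over the borders as a sum over the contents -/
theorem sum_bd_eq_sum_bc (A : List Bool) (f : ℕ × ℕ → ℝ) :
    ∑ k ∈ bd A, f (cont (A.take k)) = ∑ z ∈ bc A, f z := by
  rw [bc, Finset.sum_image]
  intro k hk l hl h
  exact cont_inj hk hl h

theorem cont_self_mem {A : List Bool} (hA : A ≠ []) : cont A ∈ bc A :=
  mem_bc.mpr ⟨_, bd_self hA, by rw [List.take_length]⟩

/-- two contents of the same word are comparable -/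
theorem bc_chain {A : List Bool} {z z' : ℕ × ℕ} (hz : z ∈ bc A) (hz' : z' ∈ bc A)
    (h : z.1 + z.2 ≤ z'.1 + z'.2) : z.1 ≤ z'.1 ∧ z.2 ≤ z'.2 := by
  obtain ⟨k, hk, rfl⟩ := mem_bc.mp hz
  obtain ⟨l, hl, rfl⟩ := mem_bc.mp hz'
  rw [cont_add hk, cont_add hl] at h
  exact ⟨count_le_of_le h true, count_le_of_le h false⟩

/-- strictness in the heads -/
theorem bc_lt_fst {A : List Bool} {z z' : ℕ × ℕ} (hz : z ∈ bc A) (hz' : z' ∈ bc A)
    (h : z.1 + z.2 < z'.1 + z'.2) (h1 : 0 < z'.1) : z.1 < z'.1 := by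
  obtain ⟨k, hk, rfl⟩ := mem_bc.mp hz
  obtain ⟨l, hl, rfl⟩ := mem_bc.mp hz'
  rw [cont_add hk, cont_add hl] at h
  exact count_lt_of_lt hk hl h (List.count_pos_iff.mp h1)

/-- strictness in the tails -/
theorem bc_lt_snd {A : List Bool} {z z' : ℕ × ℕ} (hz : z ∈ bc A) (hz' : z' ∈ bc A)
    (h : z.1 + z.2 < z'.1 + z'.2) (h1 : 0 < z'.2) : z.2 < z'.2 := by
  obtain ⟨k, hk, rfl⟩ := mem_bc.mp hz
  obtain ⟨l, hl, rfl⟩ := mem_bc.mp hz'
  rw [cont_add hk, cont_add hl] at h
  exact count_lt_of_lt hk hl h (List.count_pos_iff.mp h1)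

/-- the run part: below a border of heads all shorter runs are borders -/
theorem bc_run_true {A : List Bool} {a j : ℕ} (h : (a, 0) ∈ bc A) (h1 : 1 ≤ j) (h2 : j ≤ a) :
    (j, 0) ∈ bc A := by
  rw [mem_bc_iff] at h
  simp only [add_zero] at h
  obtain ⟨hk, hc⟩ := h
  have hf : (A.take a).count false = 0 := by
    have := congrArg Prod.snd hc
    simpa [cont] using this
  have hrep : A.take a = List.replicate a true := by
    have := eq_replicate_of_count (l := A.take a) (b := true) (by simpa using hf)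
    rwa [length_take_bd hk] at this
  have hj : j ∈ bd A := by
    rw [← bd_take hk h2, hrep, bd_replicate]
    exact Finset.mem_Icc.mpr ⟨h1, h2⟩
  rw [mem_bc]
  refine ⟨j, hj, ?_⟩
  have : A.take j = List.replicate j true := by
    have h3 : A.take j = (A.take a).take j := by rw [List.take_take, min_eq_left h2]
    rw [h3, hrep, List.take_replicate, min_eq_left h2]
  rw [this]
  simp [cont, List.count_replicate]

theorem bc_map_not (A : List Bool) : bc (A.map not) = (bc A).image Prod.swap := by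
  ext z
  rw [mem_bc, Finset.mem_image]
  constructor
  · rintro ⟨k, hk, rfl⟩
    rw [bd_map_not] at hk
    refine ⟨cont (A.take k), mem_bc.mpr ⟨k, hk, rfl⟩, ?_⟩
    simp only [cont, ← List.map_take, count_map_not, Prod.swap_prod_mk]
    rfl
  · rintro ⟨y, hy, rfl⟩
    obtain ⟨k, hk, rfl⟩ := mem_bc.mp hy
    refine ⟨k, by rw [bd_map_not]; exact hk, ?_⟩
    simp only [cont, ← List.map_take, count_map_not, Prod.swap_prod_mk]
    rfl

theorem bc_run_false {A : List Bool} {a j : ℕ} (h : (0, a) ∈ bc A) (h1 : 1 ≤ j) (h2 : j ≤ a) :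
    (0, j) ∈ bc A := by
  have h3 : (a, 0) ∈ bc (A.map not) := by
    rw [bc_map_not, Finset.mem_image]
    exact ⟨(0, a), h, rfl⟩
  have h4 := bc_run_true h3 h1 h2
  rw [bc_map_not, Finset.mem_image] at h4
  obtain ⟨y, hy, hyz⟩ := h4
  have : y = (0, j) := by
    rw [Prod.ext_iff] at hyz
    simp only [Prod.fst_swap, Prod.snd_swap] at hyz
    exact Prod.ext hyz.2 hyz.1
  rwa [this] at hy

/-- the contents of a border of `B` -/
theorem bc_take {B : List Bool} {k : ℕ} (hk : k ∈ bd B) :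
    bc (B.take k) = (bc B).filter (fun z => z.1 + z.2 ≤ k) := by
  ext z
  rw [Finset.mem_filter, mem_bc_iff, mem_bc_iff]
  constructor
  · rintro ⟨h1, h2⟩
    have h3 : z.1 + z.2 ≤ k := by
      have := bd_le h1
      rwa [length_take_bd hk] at this
    rw [bd_take hk h3] at h1
    rw [List.take_take, min_eq_left h3] at h2
    exact ⟨⟨h1, h2⟩, h3⟩
  · rintro ⟨⟨h1, h2⟩, h3⟩
    rw [bd_take hk h3, List.take_take, min_eq_left h3]
    exact ⟨h1, h2⟩

/-- the first letter decides: not both kinds of unary borders -/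
theorem bc_not_both {A : List Bool} {i j : ℕ} (hi : 1 ≤ i) (hj : 1 ≤ j) (h1 : (i, 0) ∈ bc A)
    (h2 : (0, j) ∈ bc A) : False := by
  have a := bc_run_true h1 le_rfl hi
  have b := bc_run_false h2 le_rfl hj
  have := bc_chain a b (by simp)
  simp at this

end Coin
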