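import Pool.Agent.Lib.Coin.Deriv
import Pool.Agent.Lib.Coin.Borders4

/-!
# Coin race: the border sums of two patterns with comparable tops
-/

namespace Coin

open Finset

/-- `1 / P` of a content -/
noncomputable def kapc (p : ℝ) (z : ℕ × ℕ) : ℝ := 1 / (p ^ z.1 * (1 - p) ^ z.2)

theorem kapc_pos {p : ℝ} (h0 : 0 < p) (h1 : p < 1) (z : ℕ × ℕ) : 0 < kapc p z := by
  unfold kapc
  have : 0 < 1 - p := by linarith
  positivity

theorem kap_eq_kapc (p : ℝ) (A : List Bool) (k : ℕ) : kap p A k = kapc p (cont (A.take k)) := rfl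

theorem kapc_swap (p : ℝ) (z : ℕ × ℕ) : kapc (1 - p) z.swap = kapc p z := by
  unfold kapc
  simp only [Prod.fst_swap, Prod.snd_swap, sub_sub_cancel]
  rw [mul_comm]

theorem sum_bd_eq (p : ℝ) (A : List Bool) (W : ℕ → ℝ) :
    ∑ k ∈ bd A, kap p A k * W k = ∑ z ∈ bc A, kapc p z * W (z.1 + z.2) := by
  unfold bc
  rw [Finset.sum_image (fun k hk l hl h => cont_inj hk hl h)]
  refine Finset.sum_congr rfl (fun k hk => ?_)
  rw [cont_add hk, kap_eq_kapc]

/-- sum over all borders up to the length `k` -/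
theorem sum_le_Sg {p : ℝ} (h0 : 0 < p) (h1 : p < 1) {B : List Bool} {k : ℕ} (hk : k ∈ bd B)
    {D : Finset (ℕ × ℕ)} (hD : D ⊆ bc B) (hle : ∀ z ∈ D, z.1 + z.2 ≤ k) :
    ∑ z ∈ D, kapc p z ≤ Sg p (B.take k) * kapc p (cont (B.take k)) := by
  have e : Sg p (B.take k) * kapc p (cont (B.take k)) = ∑ z ∈ bc (B.take k), kapc p z := by
    have := sum_bd_eq p (B.take k) (fun _ => 1)
    simp only [mul_one] at this
    rw [← this, Sg]
    have hw := wt_pos h0 h1 (B.take k)
    unfold kapc
    show wt p (B.take k) * _ * (1 / wt p (B.take k)) = _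
    field_simp
  rw [e]
  refine Finset.sum_le_sum_of_subset_of_nonneg (fun z hz => ?_) (fun z _ _ => (kapc_pos h0 h1 z).le)
  obtain ⟨l, hl, hc⟩ := mem_bc.1 (hD hz)
  have hsz := cont_add hl
  rw [hc] at hsz
  have hlk : l ≤ k := by rw [← hsz]; exact hle z hz
  refine mem_bc.2 ⟨l, (bd_take hk hlk).2 hl, ?_⟩
  rw [List.take_take, min_eq_left hlk, hc]

theorem kapc_mono {p : ℝ} (h0 : 0 < p) (h1 : p < 1) {y x : ℕ × ℕ} (h : y.1 ≤ x.1) (h' : y.2 ≤ x.2) :
    kapc p y ≤ kapc p x := by
  have hq : 0 < 1 - p := by linarith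
  unfold kapc
  refine one_div_le_one_div_of_le (by positivity) ?_
  exact mul_le_mul (pow_le_pow_of_le_one h0.le h1.le h) (pow_le_pow_of_le_one hq.le (by linarith) h')
    (by positivity) (by positivity)

/-- key inequality: comparable tops, more heads in `x` -/
theorem key_heads {p : ℝ} (h0 : 0 < p) (h1 : p < 1) {A B : List Bool} {x y : ℕ × ℕ}
    (hx : x ∈ bc A) (hy : y ∈ bc B \ bc A)
    (htop : ∀ z ∈ bc B \ bc A, z.1 + z.2 ≤ y.1 + y.2)
    (hlt : y.1 < x.1) (hle : y.2 ≤ x.2)
    (hcard : x.2 = 1 → y.2 = 1 → (bc B \ bc A).card ≤ x.1 - y.1 + 1) :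
    ∑ z ∈ bc B \ bc A, kapc p z < kapc p x := by
  have hq : 0 < 1 - p := by linarith
  obtain ⟨hyB, hyA⟩ := Finset.mem_sdiff.1 hy
  obtain ⟨k, hk, hc⟩ := mem_bc.1 hyB
  have hsz := cont_add hk
  rw [hc] at hsz
  have hkap := kapc_pos h0 h1 y
  have hsum := sum_le_Sg h0 h1 hk (D := bc B \ bc A) Finset.sdiff_subset (by rw [← hsz]; exact htop)
  rw [hc] at hsum
  have hsucc : kapc p (y.1 + 1, y.2) * p = kapc p y := by
    unfold kapc; simp only; rw [pow_succ]; field_simp
  rcases Nat.lt_or_ge y.2 x.2 with h2 | h2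
  · -- both coordinates strict
    have hS := Sg_lt h0 h1 (take_ne_nil hk)
    have e : kapc p (y.1 + 1, y.2 + 1) * (p * (1 - p)) = kapc p y := by
      unfold kapc; simp only; rw [pow_succ, pow_succ]; field_simp
    have hm := kapc_mono h0 h1 (y := (y.1 + 1, y.2 + 1)) (x := x) hlt h2
    have hpos := kapc_pos h0 h1 (y.1 + 1, y.2 + 1)
    calc _ ≤ Sg p (B.take k) * kapc p y := hsum
      _ = (p * (1 - p) * Sg p (B.take k)) * kapc p (y.1 + 1, y.2 + 1) := by rw [← e]; ring
      _ < 1 * kapc p (y.1 + 1, y.2 + 1) := mul_lt_mul_of_pos_right hS hpos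
      _ ≤ kapc p x := by rw [one_mul]; exact hm
  have hxy : y.2 = x.2 := le_antisymm hle h2
  have hm := kapc_mono h0 h1 (y := (y.1 + 1, y.2)) (x := x) hlt hle
  have hpos := kapc_pos h0 h1 (y.1 + 1, y.2)
  have hcf : (B.take k).count false = y.2 := congrArg Prod.snd hc
  have hct : (B.take k).count true = y.1 := congrArg Prod.fst hc
  rcases Nat.lt_or_ge y.2 2 with h3 | h3
  · rcases Nat.eq_zero_or_pos y.2 with h4 | h4
    · -- impossible: pure heads
      exfalso
      apply hyA
      have hx0 : x = (x.1, 0) := by rw [← h4, hxy]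
      have hy0 : y = (y.1, 0) := by rw [← h4]
      rw [hy0]
      rw [hx0] at hx
      exact bc_run_true hx (by have := bd_pos hk; omega) hlt.le
    · -- one tail
      have hy1 : y.2 = 1 := by omega
      have hx1 : x.2 = 1 := by omega
      have hcd := hcard hx1 hy1
      rw [← Finset.add_sum_erase _ _ hy]
      have hrest : ∑ z ∈ (bc B \ bc A).erase y, kapc p z ≤ (x.1 - y.1 : ℕ) * (1 / p ^ y.1) := by
        have hcount : ((bc B \ bc A).erase y).card ≤ x.1 - y.1 := by
          rw [Finset.card_erase_of_mem hy]; omega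
        calc _ ≤ ∑ _z ∈ (bc B \ bc A).erase y, 1 / p ^ y.1 := by
              refine Finset.sum_le_sum (fun z hz => ?_)
              obtain ⟨hne, hz1⟩ := Finset.mem_erase.1 hz
              obtain ⟨l, hl, hcl⟩ := mem_bc.1 (Finset.mem_sdiff.1 hz1).1
              have hszl := cont_add hl
              rw [hcl] at hszl
              have hlk : l ≤ k := by rw [← hszl, ← hsz]; exact htop z hz1
              have hlk' : l < k := lt_of_le_of_ne hlk (fun h => hne (by rw [← hcl, h, hc]))
              have hf := count_lt_of_lt hl hk hlk' (b := false)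
                (List.count_pos_iff.1 (by rw [hcf]; omega))
              have hf0 : z.2 = 0 := by
                have : z.2 = (B.take l).count false := (congrArg Prod.snd hcl).symm
                omega
              have ht := count_le_of_le (A := B) hlk true
              have ht0 : z.1 ≤ y.1 := by
                have : z.1 = (B.take l).count true := (congrArg Prod.fst hcl).symm
                omega
              unfold kapc
              rw [hf0, pow_zero, mul_one]
              exact one_div_le_one_div_of_le (by positivity) (pow_le_pow_of_le_one h0.le h1.le ht0)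
          _ = ((bc B \ bc A).erase y).card * (1 / p ^ y.1) := by simp
          _ ≤ _ := by
              refine mul_le_mul_of_nonneg_right ?_ (by positivity)
              exact_mod_cast hcount
      have hn : 1 ≤ x.1 - y.1 := by omega
      obtain ⟨n, hn'⟩ : ∃ n, x.1 = y.1 + n := ⟨x.1 - y.1, by omega⟩
      rw [show x.1 - y.1 = n by omega] at hrest hn
      have hb : 1 + n * (1 / p - 1) ≤ (1 / p) ^ n := by
        have h5 := one_add_mul_le_pow (a := 1 / p - 1) (by
          have : 0 < 1 / p := by positivity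
          linarith) n
        simpa using h5
      have hkx : kapc p x = (1 / p) ^ n * (1 / p ^ y.1) * (1 / (1 - p)) := by
        unfold kapc; rw [hx1, hn', pow_add, pow_one, one_div_pow]; field_simp
      have hky : kapc p y = (1 / p ^ y.1) * (1 / (1 - p)) := by
        unfold kapc; rw [hy1, pow_one]; field_simp
      have hcpos : 0 < 1 / p ^ y.1 := by positivity
      have hstep : 1 / (1 - p) + n < (1 / p) ^ n * (1 / (1 - p)) := by
        have h6 : (1 : ℝ) ≤ n := by exact_mod_cast hn
        have h7 : n * (1 - p) < n * (1 / p - 1) := by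
          refine mul_lt_mul_of_pos_left ?_ (by linarith)
          rw [lt_sub_iff_add_lt, lt_div_iff₀ h0]
          nlinarith
        have h8 : 1 + n * (1 - p) < (1 / p) ^ n := by linarith
        have h9 : 0 < 1 / (1 - p) := by positivity
        calc 1 / (1 - p) + n = (1 + n * (1 - p)) * (1 / (1 - p)) := by field_simp
          _ < _ := mul_lt_mul_of_pos_right h8 h9
      rw [hkx, hky]
      calc _ ≤ 1 / p ^ y.1 * (1 / (1 - p)) + n * (1 / p ^ y.1) := by linarith [hrest]
        _ = (1 / (1 - p) + n) * (1 / p ^ y.1) := by ring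
        _ < (1 / p) ^ n * (1 / (1 - p)) * (1 / p ^ y.1) := mul_lt_mul_of_pos_right hstep hcpos
        _ = _ := by ring
  · have hS := Sg_lt_of_two_tails h0 h1 (Y := B.take k) (by omega)
    calc _ ≤ Sg p (B.take k) * kapc p y := hsum
      _ = (p * Sg p (B.take k)) * kapc p (y.1 + 1, y.2) := by rw [← hsucc]; ring
      _ < 1 * kapc p (y.1 + 1, y.2) := mul_lt_mul_of_pos_right hS hpos
      _ ≤ kapc p x := by rw [one_mul]; exact hm

theorem sdiff_map_not (A B : List Bool) :
    bc (B.map not) \ bc (A.map not) = (bc B \ bc A).image Prod.swap := by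
  rw [bc_map_not, bc_map_not]
  ext z
  simp only [Finset.mem_sdiff, Finset.mem_image]
  constructor
  · rintro ⟨⟨w, hw, rfl⟩, h2⟩
    exact ⟨w, ⟨hw, fun h => h2 ⟨w, h, rfl⟩⟩, rfl⟩
  · rintro ⟨w, ⟨hw, h2⟩, rfl⟩
    refine ⟨⟨w, hw, rfl⟩, ?_⟩
    rintro ⟨v, hv, hvw⟩
    have := Prod.swap_injective hvw
    exact h2 (this ▸ hv)

theorem sum_sdiff_swap (p : ℝ) (A B : List Bool) :
    ∑ z ∈ bc (B.map not) \ bc (A.map not), kapc (1 - p) z = ∑ z ∈ bc B \ bc A, kapc p z := by
  rw [sdiff_map_not, Finset.sum_image (fun x _ y _ h => Prod.swap_injective h)]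
  exact Finset.sum_congr rfl (fun z _ => kapc_swap p z)

/-- `x` is the top of the contents of `A` which are not contents of `B`, it is comparable with and
above all contents of `B` which are not contents of `A`; the one-tail and one-head windows are
excluded by a cardinality condition -/
structure Above (A B : List Bool) (x : ℕ × ℕ) : Prop where
  mem : x ∈ bc A \ bc B
  le : ∀ z ∈ bc B \ bc A, z.1 ≤ x.1 ∧ z.2 ≤ x.2
  tail : x.2 = 1 → ∀ z ∈ bc B \ bc A, z.2 = 1 → (bc B \ bc A).card ≤ x.1 - z.1 + 1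
  head : x.1 = 1 → ∀ z ∈ bc B \ bc A, z.1 = 1 → (bc B \ bc A).card ≤ x.2 - z.2 + 1

theorem Above.sum_lt {p : ℝ} (h0 : 0 < p) (h1 : p < 1) {A B : List Bool} {x : ℕ × ℕ}
    (h : Above A B x) : ∑ z ∈ bc B \ bc A, kapc p z < kapc p x := by
  rcases Finset.eq_empty_or_nonempty (bc B \ bc A) with he | hne
  · rw [he, Finset.sum_empty]; exact kapc_pos h0 h1 x
  obtain ⟨y, hy, htop⟩ := Finset.exists_max_image (bc B \ bc A) (fun z => z.1 + z.2) hne
  obtain ⟨hle1, hle2⟩ := h.le y hy
  have hx := (Finset.mem_sdiff.1 h.mem)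
  have hxy : y ≠ x := fun he => hx.2 (he ▸ (Finset.mem_sdiff.1 hy).1)
  rcases Nat.lt_or_ge y.1 x.1 with h3 | h3
  · exact key_heads h0 h1 hx.1 hy htop h3 hle2 (fun h4 h5 => h.tail h4 y hy h5)
  · have h4 : y.1 = x.1 := le_antisymm hle1 h3
    have h5 : y.2 < x.2 := by
      rcases Nat.lt_or_ge y.2 x.2 with h6 | h6
      · exact h6
      · exact absurd (Prod.ext h4 (le_antisymm hle2 h6)) hxy
    have hq0 : 0 < 1 - p := by linarith
    have key := key_heads (p := 1 - p) hq0 (by linarith) (A := A.map not) (B := B.map not)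
      (x := x.swap) (y := y.swap) (by rw [bc_map_not]; exact Finset.mem_image_of_mem _ hx.1)
      (by rw [sdiff_map_not]; exact Finset.mem_image_of_mem _ hy)
      (by
        rw [sdiff_map_not]
        intro z hz
        obtain ⟨w, hw, rfl⟩ := Finset.mem_image.1 hz
        have := htop w hw
        simp only [Prod.fst_swap, Prod.snd_swap]
        omega)
      h5 hle1
      (by
        intro h6 h7
        rw [sdiff_map_not, Finset.card_image_of_injective _ Prod.swap_injective]
        exact h.head h6 y hy h7)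
    rwa [sum_sdiff_swap, kapc_swap] at key

/-! ## positivity of the weights -/

/-- every time from `|A|` on is possible -/
theorem pm_pos {p : ℝ} {A : List Bool} (h0 : 0 < p) (h1 : p < 1) (hA : A ≠ []) {n : ℕ}
    (hn : A.length ≤ n) : 0 < pm p A n := by
  obtain ⟨r, rfl⟩ := Nat.exists_eq_add_of_le' hn
  rw [pm_eq_ew]
  obtain ⟨a, A', rfl⟩ := List.exists_cons_of_ne_nil hA
  set y : Bool := !a with hy
  have hfst : fst' (a :: A') (List.replicate r y ++ a :: A') = 1 := by
    unfold fst'
    rw [nocc_of_infix (List.suffix_append _ _).isInfix, nocc_of_not, sub_zero]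
    intro h
    obtain ⟨s, t, hst⟩ := h
    have hlen := congrArg List.length hst
    simp only [List.length_append, List.length_dropLast, List.length_replicate, List.length_cons]
      at hlen
    have hs : s.length < r := by omega
    have e1 : (s ++ a :: A' ++ t)[s.length]? = some a := by
      rw [List.append_assoc, List.getElem?_append_right (le_refl _)]
      simp
    rw [hst, List.getElem?_dropLast] at e1
    rw [List.getElem?_append_left (by simpa using hs)] at e1
    simp only [List.getElem?_replicate] at e1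
    split_ifs at e1
    · simp [hy] at e1
  have key : wt p (List.replicate r y ++ a :: A') ≤ ew p (r + (a :: A').length) (fst' (a :: A')) := by
    have h2 := ew_single p (List.replicate r y ++ a :: A')
      (fun l => if l = List.replicate r y ++ a :: A' then 1 else 0)
      (fun l _ hne => if_neg hne)
    rw [if_pos rfl, mul_one, List.length_append, List.length_replicate] at h2
    rw [← h2]
    refine ew_mono h0.le h1.le _ (fun l _ => ?_)
    split_ifs with h3
    · rw [h3, hfst]
    · exact fst'_nonneg _ _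
  exact lt_of_lt_of_le (wt_pos h0 h1 _) key

theorem Wk_pos {p : ℝ} {A B : List Bool} (h0 : 0 < p) (h1 : p < 1) (hA : A ≠ []) (hB : B ≠ [])
    (k : ℕ) : 0 < Wk (pm p A) (pm p B) (pm p B) k := by
  have ha := isProb_pm h0 h1 hA
  have hb := isProb_pm h0 h1 hB
  have hnn : ∀ n, 0 ≤ pm p B n * (conv (pm p A) (pm p B) (n + k) +
      conv (pm p A) (pm p B) (n + k - 1)) := fun n =>
    mul_nonneg (hb.nonneg n) (add_nonneg ((ha.conv hb).nonneg _) ((ha.conv hb).nonneg _))
  set N := A.length + B.length with hN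
  have hterm : 0 < pm p B N * (conv (pm p A) (pm p B) (N + k) +
      conv (pm p A) (pm p B) (N + k - 1)) := by
    refine mul_pos (pm_pos h0 h1 hB (by omega)) ?_
    refine add_pos_of_pos_of_nonneg ?_ ((ha.conv hb).nonneg _)
    have : pm p A A.length * pm p B (N + k - A.length) ≤ conv (pm p A) (pm p B) (N + k) := by
      unfold conv
      have hm : (A.length, N + k - A.length) ∈ antidiagonal (N + k) := by
        rw [Finset.HasAntidiagonal.mem_antidiagonal]; omega
      exact Finset.single_le_sum (f := fun x : ℕ × ℕ => pm p A x.1 * pm p B x.2)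
        (fun x _ => mul_nonneg (ha.nonneg _) (hb.nonneg _)) hm
    refine lt_of_lt_of_le (mul_pos (pm_pos h0 h1 hA le_rfl) (pm_pos h0 h1 hB (by omega))) this
  exact (summable_W ha hb hb k).tsum_pos hnn N hterm

/-- the race formula as a difference over the two difference sets of contents -/
theorem G_eq_sdiff {p : ℝ} {A B : List Bool} (h0 : 0 < p) (h1 : p < 1) (hA : A ≠ []) (hB : B ≠ []) :
    G p A B = (∑ z ∈ bc B \ bc A, kapc p z * Wk (pm p A) (pm p B) (pm p B) (z.1 + z.2))
      - ∑ z ∈ bc A \ bc B, kapc p z * Wk (pm p A) (pm p B) (pm p B) (z.1 + z.2) := by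
  rw [G_eq_sum h0 h1 hA hB, sum_bd_eq, sum_bd_eq]
  have := Finset.sum_sdiff_sub_sum_sdiff (s₁ := bc B) (s₂ := bc A)
    (f := fun z => kapc p z * Wk (pm p A) (pm p B) (pm p B) (z.1 + z.2))
  linarith

/-- equal border contents: the race is fair for every `p` -/
theorem G_eq_zero {p : ℝ} {A B : List Bool} (h0 : 0 < p) (h1 : p < 1) (hA : A ≠ []) (hB : B ≠ [])
    (h : bc A = bc B) : G p A B = 0 := by
  rw [G_eq_sdiff h0 h1 hA hB, h]
  simp

/-- M4: comparable tops, `B` wins for every `p` -/
theorem Above.G_neg {p : ℝ} {A B : List Bool} {x : ℕ × ℕ} (h : Above A B x) (h0 : 0 < p)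
    (h1 : p < 1) (hA : A ≠ []) (hB : B ≠ []) : G p A B < 0 := by
  have hx := Finset.mem_sdiff.1 h.mem
  have hsum := h.sum_lt h0 h1
  have hW := Wk_pos h0 h1 hA hB
  have hxA : x.1 + x.2 ≤ A.length := by
    obtain ⟨k, hk, rfl⟩ := mem_bc.1 hx.1
    rw [cont_add hk]; exact bd_le hk
  rw [G_eq_sdiff h0 h1 hA hB]
  set W := Wk (pm p A) (pm p B) (pm p B) with hWdef
  have e1 : kapc p x * W (x.1 + x.2) ≤ ∑ z ∈ bc A \ bc B, kapc p z * W (z.1 + z.2) :=
    Finset.single_le_sum (f := fun z => kapc p z * W (z.1 + z.2))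
      (fun z _ => mul_nonneg (kapc_pos h0 h1 z).le (hW _).le) h.mem
  have e2 : ∑ z ∈ bc B \ bc A, kapc p z * W (z.1 + z.2) ≤
      (∑ z ∈ bc B \ bc A, kapc p z) * W (x.1 + x.2) := by
    rw [Finset.sum_mul]
    refine Finset.sum_le_sum (fun z hz => ?_)
    refine mul_le_mul_of_nonneg_left ?_ (kapc_pos h0 h1 z).le
    have hz1 : 1 ≤ z.1 + z.2 := by
      obtain ⟨k, hk, rfl⟩ := mem_bc.1 (Finset.mem_sdiff.1 hz).1
      rw [cont_add hk]; exact bd_pos hk
    obtain ⟨hl1, hl2⟩ := h.le z hz
    exact Wk_pm_mono h0 h1 hA hB hz1 (by omega) hxA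
  have e3 := mul_lt_mul_of_pos_right hsum (hW (x.1 + x.2))
  linarith

end Coin
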