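import Pool.Agent.Lib.Coin.Words

/-!
# Coin race: the law of the waiting time, renewal identity
-/

namespace Coin

open Finset

/-- indicator of `A` occurs in `l` for the first time at the end of `l` -/
noncomputable def fst' (A l : List Bool) : ℝ := nocc A l.dropLast - nocc A l

theorem infix_concat {A l : List Bool} {x : Bool} :
    A <:+: l ++ [x] ↔ A <:+ l ++ [x] ∨ A <:+: l := List.infix_concat_iff

theorem fst'_concat (A l : List Bool) (x : Bool) : fst' A (l ++ [x]) = nocc A l - nocc A (l ++ [x]) := by
  simp [fst']

theorem fst'_nonneg (A l : List Bool) : 0 ≤ fst' A l := by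
  unfold fst'
  have := nocc_mono (A := A) (l := l.dropLast) (m := l) (List.dropLast_prefix l).isInfix
  linarith

/-- if `A` is no suffix of `l` then the first occurrence is not at the end of `l` -/
theorem fst'_of_not_suffix {A l : List Bool} (h : ¬ A <:+ l) : fst' A l = 0 := by
  rcases List.eq_nil_or_concat l with rfl | ⟨u, x, rfl⟩
  · simp [fst']
  · rw [List.concat_eq_append] at h ⊢
    rw [fst'_concat]
    by_cases h1 : A <:+: u
    · rw [nocc_of_infix h1, nocc_of_infix (infix_concat.2 (Or.inr h1))]; ring
    · rw [nocc_of_not h1, nocc_of_not (fun h2 => (infix_concat.1 h2).elim h h1)]; ring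

theorem fst'_le_one (A l : List Bool) : fst' A l ≤ 1 := by
  unfold fst'
  have := nocc_le_one A l.dropLast
  have := nocc_nonneg A l
  linarith

/-- removing the first letter -/
theorem fst'_cons_le {A l : List Bool} (x : Bool) (hl : A.length ≤ l.length) :
    fst' A (x :: l) ≤ fst' A l := by
  by_cases h : A <:+ (x :: l)
  · have hs : A <:+ l := by
      rcases List.suffix_cons_iff.1 h with h1 | h1
      · exfalso; rw [h1] at hl; simp at hl
      · exact h1
    by_cases h2 : A <:+: l.dropLast
    · have h3 : A <:+: (x :: l).dropLast := by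
        cases l with
        | nil => simpa using h2
        | cons y l =>
          rw [List.dropLast_cons_cons]
          exact h2.trans (List.suffix_cons _ _).isInfix
      unfold fst'
      rw [nocc_of_infix h3, nocc_of_infix h2, nocc_of_infix h.isInfix, nocc_of_infix hs.isInfix]
    · have : fst' A l = 1 := by
        unfold fst'; rw [nocc_of_not h2, nocc_of_infix hs.isInfix]; ring
      rw [this]; exact fst'_le_one _ _
  · rw [fst'_of_not_suffix h]; exact fst'_nonneg _ _

/-! ## survival function -/

theorem surv_zero (p : ℝ) {A : List Bool} (hA : A ≠ []) : surv p A 0 = 1 := by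
  unfold surv
  rw [ew_zero, nocc_of_not]
  simpa using hA

theorem surv_nonneg {p : ℝ} (h0 : 0 ≤ p) (h1 : p ≤ 1) (A : List Bool) (n : ℕ) : 0 ≤ surv p A n :=
  ew_nonneg h0 h1 n (fun l _ => nocc_nonneg A l)

theorem surv_le_one {p : ℝ} (h0 : 0 ≤ p) (h1 : p ≤ 1) (A : List Bool) (n : ℕ) : surv p A n ≤ 1 := by
  have := ew_mono h0 h1 n (f := nocc A) (g := fun _ => 1) (fun l _ => nocc_le_one A l)
  rwa [ew_const] at this

theorem pm_zero (p : ℝ) (A : List Bool) : pm p A 0 = 0 := by simp [pm]

theorem pm_succ (p : ℝ) (A : List Bool) (n : ℕ) : pm p A (n + 1) = surv p A n - surv p A (n + 1) := by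
  simp [pm]

theorem pm_eq_ew (p : ℝ) (A : List Bool) (n : ℕ) : pm p A n = ew p n (fst' A) := by
  cases n with
  | zero => rw [pm_zero, ew_zero]; simp [fst']
  | succ n =>
    rw [pm_succ]
    unfold surv
    rw [← ew_dropLast p n (nocc A), ← ew_sub]
    rfl

theorem pm_nonneg {p : ℝ} (h0 : 0 ≤ p) (h1 : p ≤ 1) (A : List Bool) (n : ℕ) : 0 ≤ pm p A n := by
  rw [pm_eq_ew]; exact ew_nonneg h0 h1 n (fun l _ => fst'_nonneg A l)

theorem surv_succ_le {p : ℝ} (h0 : 0 ≤ p) (h1 : p ≤ 1) (A : List Bool) (n : ℕ) :
    surv p A (n + 1) ≤ surv p A n := by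
  have := pm_nonneg h0 h1 A (n + 1)
  rw [pm_succ] at this
  linarith

theorem surv_anti {p : ℝ} (h0 : 0 ≤ p) (h1 : p ≤ 1) (A : List Bool) : Antitone (surv p A) :=
  antitone_nat_of_succ_le (surv_succ_le h0 h1 A)

theorem pm_of_lt (p : ℝ) {A : List Bool} {n : ℕ} (h : n < A.length) : pm p A n = 0 := by
  rw [pm_eq_ew, ew_congr p n (g := fun _ => 0), ew_const]
  intro l hl
  exact fst'_of_not_suffix (fun h1 => by have := h1.length_le; omega)

theorem pm_length (p : ℝ) {A : List Bool} (hA : A ≠ []) : pm p A A.length = wt p A := by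
  rw [pm_eq_ew, ew_single p A (fst' A)]
  · have h1 : ¬ A <:+: A.dropLast := fun h => by
      have := h.length_le
      have h3 := List.length_pos_iff.2 hA
      rw [List.length_dropLast] at this
      omega
    unfold fst'
    rw [nocc_of_not h1, nocc_of_infix List.infix_rfl]
    ring
  · intro l hl hne
    exact fst'_of_not_suffix (fun h => hne (h.eq_of_length hl.symm).symm)

theorem pm_succ_le {p : ℝ} (h0 : 0 ≤ p) (h1 : p ≤ 1) {A : List Bool} {n : ℕ} (h : A.length ≤ n) :
    pm p A (n + 1) ≤ pm p A n := by
  rw [pm_eq_ew, pm_eq_ew, ew_succ]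
  have e1 := ew_mono h0 h1 n (f := fun l => fst' A (true :: l)) (g := fst' A)
    (fun l hl => fst'_cons_le true (by omega))
  have e2 := ew_mono h0 h1 n (f := fun l => fst' A (false :: l)) (g := fst' A)
    (fun l hl => fst'_cons_le false (by omega))
  have := mul_le_mul_of_nonneg_left e1 h0
  have := mul_le_mul_of_nonneg_left e2 (by linarith : (0 : ℝ) ≤ 1 - p)
  linarith

theorem sum_pm (p : ℝ) {A : List Bool} (hA : A ≠ []) (n : ℕ) :
    ∑ m ∈ range (n + 1), pm p A m = 1 - surv p A n := by
  induction n with
  | zero => simp [pm_zero, surv_zero p hA]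
  | succ n ih => rw [Finset.sum_range_succ, ih, pm_succ]; ring

/-! ## new better than used, geometric tails -/

theorem surv_add_le {p : ℝ} (h0 : 0 ≤ p) (h1 : p ≤ 1) (A : List Bool) (m n : ℕ) :
    surv p A (m + n) ≤ surv p A m * surv p A n := by
  unfold surv
  rw [ew_append, ← ew_mul']
  refine ew_mono h0 h1 m (fun u _ => ?_)
  rw [← ew_mul]
  exact ew_mono h0 h1 n (fun v _ => nocc_append_le A u v)

theorem surv_length_le (p : ℝ) (A : List Bool) :
    surv p A A.length ≤ 1 - wt p A := by
  have key : ew p A.length (fun l => 1 - nocc A l) = wt p A * (1 - nocc A A) := by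
    refine ew_single p A _ (fun l hl hne => ?_)
    rw [nocc_of_not, sub_self]
    intro h
    exact hne (h.eq_of_length hl.symm).symm
  rw [ew_sub, ew_const, nocc_of_infix List.infix_rfl] at key
  unfold surv
  linarith

theorem surv_mul_le {p : ℝ} (h0 : 0 ≤ p) (h1 : p ≤ 1) (A : List Bool) (hA : A ≠ []) (n : ℕ) :
    surv p A (n * A.length) ≤ (1 - wt p A) ^ n := by
  induction n with
  | zero => simp [surv_zero p hA]
  | succ n ih =>
    rw [add_mul, one_mul, pow_succ]
    refine (surv_add_le h0 h1 A _ _).trans ?_
    have h2 := surv_length_le p A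
    have h3 := wt_le_one h0 h1 A
    exact mul_le_mul ih h2 (surv_nonneg h0 h1 A _) (pow_nonneg (by linarith) n)

theorem tendsto_surv {p : ℝ} (h0 : 0 < p) (h1 : p < 1) {A : List Bool} (hA : A ≠ []) :
    Filter.Tendsto (surv p A) Filter.atTop (nhds 0) := by
  have hw := wt_pos h0 h1 A
  have hw1 := wt_le_one h0.le h1.le A
  have hL := List.length_pos_iff.2 hA
  have hg : Filter.Tendsto (fun n : ℕ => (1 - wt p A) ^ n) Filter.atTop (nhds 0) :=
    tendsto_pow_atTop_nhds_zero_of_lt_one (by linarith) (by linarith)
  have hd : Filter.Tendsto (fun n : ℕ => n / A.length) Filter.atTop Filter.atTop :=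
    Nat.tendsto_div_const_atTop hL.ne'
  refine squeeze_zero (fun n => surv_nonneg h0.le h1.le A n) (fun n => ?_) (hg.comp hd)
  refine (surv_anti h0.le h1.le A (Nat.div_mul_le_self n A.length)).trans ?_
  exact surv_mul_le h0.le h1.le A hA _

theorem hasSum_pm {p : ℝ} (h0 : 0 < p) (h1 : p < 1) {A : List Bool} (hA : A ≠ []) :
    HasSum (pm p A) 1 := by
  rw [hasSum_iff_tendsto_nat_of_nonneg (fun n => pm_nonneg h0.le h1.le A n)]
  rw [← Filter.tendsto_add_atTop_iff_nat 1]
  have := (tendsto_surv h0 h1 hA).const_sub 1
  rw [sub_zero] at this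
  refine this.congr (fun n => (sum_pm p hA n).symm)

theorem summable_surv {p : ℝ} (h0 : 0 < p) (h1 : p < 1) {A : List Bool} (hA : A ≠ []) :
    Summable (surv p A) := by
  have hw := wt_pos h0 h1 A
  have hw1 := wt_le_one h0.le h1.le A
  have hL := List.length_pos_iff.2 hA
  have hnn : ∀ n, 0 ≤ surv p A n := surv_nonneg h0.le h1.le A
  refine summable_of_sum_range_le (c := A.length * (wt p A)⁻¹) hnn (fun n => ?_)
  -- compare with blocks
  have hblock : ∀ k : ℕ, ∑ i ∈ range (k * A.length), surv p A i ≤
      A.length * ∑ j ∈ range k, (1 - wt p A) ^ j := by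
    intro k
    induction k with
    | zero => simp
    | succ k ih =>
      rw [add_mul, one_mul, Finset.sum_range_add, Finset.sum_range_succ, mul_add]
      refine add_le_add ih ?_
      have : ∀ i ∈ range A.length, surv p A (k * A.length + i) ≤ (1 - wt p A) ^ k := fun i _ =>
        (surv_anti h0.le h1.le A (Nat.le_add_right _ i)).trans (surv_mul_le h0.le h1.le A hA k)
      calc _ ≤ ∑ _i ∈ range A.length, (1 - wt p A) ^ k := Finset.sum_le_sum this
        _ = _ := by simp
  have hn : n ≤ n * A.length := Nat.le_mul_of_pos_right n hL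
  calc ∑ i ∈ range n, surv p A i ≤ ∑ i ∈ range (n * A.length), surv p A i :=
        Finset.sum_le_sum_of_subset_of_nonneg (by
          intro i hi; rw [Finset.mem_range] at hi ⊢; omega) (fun i _ _ => hnn i)
    _ ≤ A.length * ∑ j ∈ range n, (1 - wt p A) ^ j := hblock n
    _ ≤ A.length * (wt p A)⁻¹ := by
        refine mul_le_mul_of_nonneg_left ?_ (by positivity)
        have := geom_sum_eq (x := 1 - wt p A) (by linarith) n
        rw [this, show 1 - wt p A - 1 = - wt p A by ring, div_neg, ← neg_div, neg_sub, ← one_div]
        refine div_le_div_of_nonneg_right ?_ hw.le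
        have : 0 ≤ (1 - wt p A) ^ n := pow_nonneg (by linarith) n
        linarith

/-! ## the renewal identity -/

theorem mem_bd {A : List Bool} {k : ℕ} :
    k ∈ bd A ↔ (1 ≤ k ∧ k ≤ A.length) ∧ A.take k = A.drop (A.length - k) := by
  simp [bd]

theorem length_mem_bd {A : List Bool} (hA : A ≠ []) : A.length ∈ bd A := by
  rw [mem_bd]
  have := List.length_pos_iff.2 hA
  simp
  omega

theorem dropLast_take' {A : List Bool} {j : ℕ} (h : j + 1 ≤ A.length) :
    (A.take (j + 1)).dropLast = A.take j := by
  rw [List.dropLast_eq_take, List.take_take, List.length_take]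
  congr 1
  omega

/-- a suffix of `u ++ v` which is at least as long as `v`: then `v` is a suffix of it -/
theorem suffix_aux {A u v : List Bool} (h : A <:+ u ++ v) (hv : v.length ≤ A.length) :
    v = A.drop (A.length - v.length) := by
  have h1 : v <:+ u ++ v := List.suffix_append u v
  have h2 : v <:+ A := List.suffix_of_suffix_length_le h1 h hv
  exact (List.suffix_iff_eq_drop.1 h2)

theorem kap_mul_pm {p : ℝ} (h0 : 0 < p) (h1 : p < 1) {A : List Bool} {j : ℕ} (hj : j + 1 ∈ bd A)
    (n : ℕ) : kap p A (j + 1) * pm p A (n + (j + 1)) =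
      ew p n (fun u => nocc A (u ++ A.take j) - nocc A (u ++ A.take (j + 1))) := by
  rw [mem_bd] at hj
  obtain ⟨⟨_, hle⟩, heq⟩ := hj
  rw [pm_eq_ew, ew_append, ← ew_mul]
  refine ew_congr p n (fun u _ => ?_)
  have hlen : (A.take (j + 1)).length = j + 1 := by simp; omega
  have hs := ew_single p (A.take (j + 1)) (fun v => fst' A (u ++ v)) (fun v hv hne => by
    refine fst'_of_not_suffix (fun h => hne ?_)
    have h3 := suffix_aux h (by rw [hv, hlen]; exact hle)
    rw [hv, hlen] at h3
    rw [h3, heq])
  rw [hlen] at hs
  rw [hs]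
  have hw := wt_pos h0 h1 (A.take (j + 1))
  unfold kap
  rw [← mul_assoc, one_div, inv_mul_cancel₀ hw.ne', one_mul]
  unfold fst'
  congr 2
  rw [List.dropLast_append_of_ne_nil]
  · rw [dropLast_take' hle]
  · intro h; rw [h] at hlen; simp at hlen

theorem renewal {p : ℝ} (h0 : 0 < p) (h1 : p < 1) (A : List Bool) (hA : A ≠ []) (n : ℕ) :
    ∑ k ∈ bd A, kap p A k * pm p A (n + k) = surv p A n := by
  have hL := List.length_pos_iff.2 hA
  have e1 : ∑ k ∈ bd A, kap p A k * pm p A (n + k) =
      ∑ j ∈ range A.length, ew p n (fun u => nocc A (u ++ A.take j) - nocc A (u ++ A.take (j + 1))) := by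
    have : ∑ j ∈ range A.length, ew p n (fun u => nocc A (u ++ A.take j) - nocc A (u ++ A.take (j + 1)))
        = ∑ j ∈ (range A.length).filter (fun j => j + 1 ∈ bd A),
          ew p n (fun u => nocc A (u ++ A.take j) - nocc A (u ++ A.take (j + 1))) := by
      rw [Finset.sum_filter]
      refine Finset.sum_congr rfl (fun j hj => ?_)
      rw [Finset.mem_range] at hj
      split_ifs with hb
      · rfl
      · rw [ew_congr p n (g := fun _ => 0), ew_const]
        intro u _
        have hlen : (A.take (j + 1)).length = j + 1 := by simp; omega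
        have h3 : ¬ A <:+ u ++ A.take (j + 1) := fun h => hb (by
          have h4 := suffix_aux h (by rw [hlen]; omega)
          rw [hlen] at h4
          rw [mem_bd]
          exact ⟨⟨by omega, by omega⟩, h4⟩)
        have h5 := fst'_of_not_suffix h3
        unfold fst' at h5
        rw [List.dropLast_append_of_ne_nil (by intro h; rw [h] at hlen; simp at hlen),
          dropLast_take' (by omega)] at h5
        exact h5
    rw [this]
    symm
    refine Finset.sum_bij (fun j _ => j + 1) ?_ ?_ ?_ ?_
    · intro j hj; exact (Finset.mem_filter.1 hj).2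
    · intro a _ b _ h; omega
    · intro k hk
      have := (mem_bd.1 hk).1
      refine ⟨k - 1, ?_, by omega⟩
      rw [Finset.mem_filter, Finset.mem_range]
      exact ⟨by omega, by rwa [Nat.sub_add_cancel this.1]⟩
    · intro j hj
      exact (kap_mul_pm h0 h1 (Finset.mem_filter.1 hj).2 n).symm
  rw [e1, ← ew_sum]
  unfold surv
  refine ew_congr p n (fun u _ => ?_)
  rw [Finset.sum_range_sub' (fun j => nocc A (u ++ A.take j))]
  rw [List.take_zero, List.append_nil, List.take_length, nocc_of_infix (A := A) (l := u ++ A)]
  · ring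
  · exact (List.suffix_append u A).isInfix

/-! ## straddling bound -/

/-- `A` straddles the cut of `u ++ v` with `j` letters in `v` -/
theorem nocc_straddle {A u v : List Bool} (h : A <:+: u ++ v) (hu : ¬ A <:+: u) (hv : ¬ A <:+: v) :
    ∃ j, 1 ≤ j ∧ j + 1 ≤ A.length ∧ A.take (A.length - j) <:+ u ∧ A.drop (A.length - j) <+: v := by
  obtain ⟨s, t, hst⟩ := h
  have hlen := congrArg List.length hst
  simp only [List.length_append] at hlen
  -- the block `A` begins inside `u`
  have h1 : s.length < u.length := by
    by_contra hc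
    push Not at hc
    apply hv
    have hsu : u <+: s := by
      have a1 : u <+: s ++ A ++ t := by rw [hst]; exact List.prefix_append u v
      have a2 : s <+: s ++ A ++ t := by rw [List.append_assoc]; exact List.prefix_append _ _
      exact List.prefix_of_prefix_length_le a1 a2 hc
    obtain ⟨r, rfl⟩ := hsu
    rw [List.append_assoc, List.append_assoc, List.append_cancel_left_eq] at hst
    exact ⟨r, t, by rw [← hst, List.append_assoc]⟩
  have h2 : u.length < s.length + A.length := by
    by_contra hc
    push Not at hc
    apply hu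
    have hsu : s ++ A <+: u := by
      have a1 : u <+: s ++ A ++ t := by rw [hst]; exact List.prefix_append u v
      have a2 : s ++ A <+: s ++ A ++ t := List.prefix_append _ _
      exact List.prefix_of_prefix_length_le a2 a1 (by rw [List.length_append]; exact hc)
    obtain ⟨r, rfl⟩ := hsu
    exact ⟨s, r, rfl⟩
  refine ⟨s.length + A.length - u.length, by omega, by omega, ?_, ?_⟩
  · rw [show A.length - (s.length + A.length - u.length) = u.length - s.length by omega]
    have e : u = (s ++ A ++ t).take u.length := by rw [hst]; simp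
    rw [e, List.append_assoc, List.take_append, List.take_of_length_le (by omega : s.length ≤ u.length),
      List.take_append, show u.length - s.length - A.length = 0 by omega, List.take_zero,
      List.append_nil]
    simp only [List.length_append, List.length_take]
    rw [show min (u.length - s.length) A.length = u.length - s.length by omega,
      show s.length + (u.length - s.length) - s.length = u.length - s.length by omega]
    exact List.suffix_append _ _
  · rw [show A.length - (s.length + A.length - u.length) = u.length - s.length by omega]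
    have e : v = (s ++ A ++ t).drop u.length := by rw [hst]; simp
    rw [e, List.append_assoc, List.drop_append, List.drop_of_length_le (by omega : s.length ≤ u.length),
      List.nil_append, List.drop_append, show u.length - s.length - A.length = 0 by omega,
      List.drop_zero]
    exact List.prefix_append _ _

end Coin
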