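import Pool.Agent.Lib.Coin.Renewal

/-!
# Coin race: union bound over the straddling positions, the abstract law of a pattern
-/

namespace Coin

open Finset

open Classical in
theorem ew_suffix_le {p : ℝ} (h0 : 0 ≤ p) (h1 : p ≤ 1) (A w : List Bool) (m : ℕ) :
    ew p m (fun u => if w <:+ u then nocc A (u.take (m - w.length)) else 0) ≤
      wt p w * surv p A (m - w.length) := by
  by_cases hm : w.length ≤ m
  · obtain ⟨r, rfl⟩ := Nat.exists_eq_add_of_le' hm
    rw [ew_append, Nat.add_sub_cancel]
    refine le_of_eq ?_
    unfold surv
    rw [← ew_mul]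
    refine ew_congr p r (fun x hx => ?_)
    rw [ew_single p w (fun y => if w <:+ x ++ y then nocc A ((x ++ y).take r) else 0)]
    · rw [if_pos (List.suffix_append x w), List.take_append_of_le_length (by omega),
        List.take_of_length_le (by omega)]
    · intro y hy hne
      rw [if_neg]
      intro h
      apply hne
      have h2 : y <:+ x ++ y := List.suffix_append x y
      have h3 : w <:+ y := List.suffix_of_suffix_length_le h h2 (by omega)
      exact (h3.eq_of_length hy.symm).symm
  · rw [ew_congr p m (g := fun _ => 0), ew_const]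
    · exact mul_nonneg (wt_nonneg h0 h1 w) (surv_nonneg h0 h1 A _)
    · intro u hu
      rw [if_neg]
      intro h
      have := h.length_le
      omega

open Classical in
theorem ew_head_le {p : ℝ} (h0 : 0 ≤ p) (h1 : p ≤ 1) (A w : List Bool) (n : ℕ) :
    ew p n (fun v => if w <+: v then nocc A (v.drop w.length) else 0) ≤
      wt p w * surv p A (n - w.length) := by
  by_cases hn : w.length ≤ n
  · obtain ⟨r, rfl⟩ := Nat.exists_eq_add_of_le hn
    rw [ew_append, Nat.add_sub_cancel_left]
    refine le_of_eq ?_
    rw [ew_single p w]
    · congr 1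
      unfold surv
      refine ew_congr p r (fun y _ => ?_)
      rw [if_pos (List.prefix_append w y), List.drop_left]
    · intro x hx hne
      rw [ew_congr p r (g := fun _ => 0), ew_const]
      intro y _
      rw [if_neg]
      intro h
      apply hne
      have h2 : x <+: x ++ y := List.prefix_append x y
      have h3 : w <+: x := List.prefix_of_prefix_length_le h h2 (by omega)
      exact (h3.eq_of_length hx.symm).symm
  · rw [ew_congr p n (g := fun _ => 0), ew_const]
    · exact mul_nonneg (wt_nonneg h0 h1 w) (surv_nonneg h0 h1 A _)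
    · intro v hv
      rw [if_neg]
      intro h
      have := h.length_le
      omega

open Classical in
theorem nocc_sub_le (A : List Bool) {m : ℕ} (u v : List Bool) :
    nocc A u * nocc A v - nocc A (u ++ v) ≤ ∑ j ∈ Icc 1 (A.length - 1),
      (if A.take (A.length - j) <:+ u then nocc A (u.take (m - (A.take (A.length - j)).length)) else 0)
      * (if A.drop (A.length - j) <+: v then nocc A (v.drop (A.drop (A.length - j)).length) else 0) := by
  have hnn : ∀ j ∈ Icc 1 (A.length - 1), 0 ≤
      (if A.take (A.length - j) <:+ u then nocc A (u.take (m - (A.take (A.length - j)).length)) else 0)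
      * (if A.drop (A.length - j) <+: v then nocc A (v.drop (A.drop (A.length - j)).length) else 0) := by
    intro j _
    refine mul_nonneg ?_ ?_
    · split_ifs
      · exact nocc_nonneg _ _
      · exact le_rfl
    · split_ifs
      · exact nocc_nonneg _ _
      · exact le_rfl
  by_cases hu : A <:+: u
  · rw [nocc_of_infix hu, zero_mul, nocc_of_infix (hu.trans (List.prefix_append u v).isInfix), sub_zero]
    exact Finset.sum_nonneg hnn
  by_cases hv : A <:+: v
  · rw [nocc_of_infix hv, mul_zero, nocc_of_infix (hv.trans (List.suffix_append u v).isInfix), sub_zero]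
    exact Finset.sum_nonneg hnn
  by_cases h : A <:+: u ++ v
  · rw [nocc_of_infix h, nocc_of_not hu, nocc_of_not hv, mul_one, sub_zero]
    obtain ⟨j, h1, h2, h3, h4⟩ := nocc_straddle h hu hv
    refine le_trans ?_ (Finset.single_le_sum hnn (Finset.mem_Icc.2 ⟨h1, (by omega : j ≤ A.length - 1)⟩))
    rw [if_pos h3, if_pos h4, nocc_of_not, nocc_of_not, mul_one]
    · exact fun hc => hv (hc.trans (List.drop_suffix _ _).isInfix)
    · exact fun hc => hu (hc.trans (List.take_prefix _ _).isInfix)
  · rw [nocc_of_not h, nocc_of_not hu, nocc_of_not hv]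
    have := Finset.sum_nonneg hnn
    linarith

theorem straddle {p : ℝ} (h0 : 0 ≤ p) (h1 : p ≤ 1) (A : List Bool) (m n : ℕ) :
    surv p A m * surv p A n - surv p A (m + n) ≤
      wt p A * ∑ j ∈ Icc 1 (A.length - 1), surv p A (m + j - A.length) * surv p A (n - j) := by
  classical
  have e1 : surv p A m * surv p A n - surv p A (m + n) =
      ew p m (fun u => ew p n (fun v => nocc A u * nocc A v - nocc A (u ++ v))) := by
    unfold surv
    rw [ew_append, ← ew_mul', ← ew_sub]
    refine ew_congr p m (fun u _ => ?_)
    rw [← ew_mul, ← ew_sub]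
  rw [e1]
  have e2 : ew p m (fun u => ew p n (fun v => nocc A u * nocc A v - nocc A (u ++ v))) ≤
      ew p m (fun u => ew p n (fun v => ∑ j ∈ Icc 1 (A.length - 1),
      (if A.take (A.length - j) <:+ u then nocc A (u.take (m - (A.take (A.length - j)).length)) else 0)
      * (if A.drop (A.length - j) <+: v then nocc A (v.drop (A.drop (A.length - j)).length) else 0))) :=
    ew_mono h0 h1 m (fun u _ => ew_mono h0 h1 n (fun v _ => nocc_sub_le A u v))
  refine e2.trans ?_
  have e3 : ew p m (fun u => ew p n (fun v => ∑ j ∈ Icc 1 (A.length - 1),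
      (if A.take (A.length - j) <:+ u then nocc A (u.take (m - (A.take (A.length - j)).length)) else 0)
      * (if A.drop (A.length - j) <+: v then nocc A (v.drop (A.drop (A.length - j)).length) else 0))) =
      ∑ j ∈ Icc 1 (A.length - 1),
      ew p m (fun u => if A.take (A.length - j) <:+ u then
        nocc A (u.take (m - (A.take (A.length - j)).length)) else 0)
      * ew p n (fun v => if A.drop (A.length - j) <+: v then
        nocc A (v.drop (A.drop (A.length - j)).length) else 0) := by
    have : ∀ u : List Bool, ew p n (fun v => ∑ j ∈ Icc 1 (A.length - 1),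
      (if A.take (A.length - j) <:+ u then nocc A (u.take (m - (A.take (A.length - j)).length)) else 0)
      * (if A.drop (A.length - j) <+: v then nocc A (v.drop (A.drop (A.length - j)).length) else 0)) =
      ∑ j ∈ Icc 1 (A.length - 1),
      (if A.take (A.length - j) <:+ u then nocc A (u.take (m - (A.take (A.length - j)).length)) else 0)
      * ew p n (fun v => if A.drop (A.length - j) <+: v then
        nocc A (v.drop (A.drop (A.length - j)).length) else 0) := by
      intro u
      rw [ew_sum]
      exact Finset.sum_congr rfl (fun j _ => ew_mul p _ n _)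
    simp_rw [this]
    rw [ew_sum]
    exact Finset.sum_congr rfl (fun j _ => ew_mul' p _ m _)
  rw [e3, Finset.mul_sum]
  refine Finset.sum_le_sum (fun j hj => ?_)
  rw [Finset.mem_Icc] at hj
  have hs := ew_suffix_le h0 h1 A (A.take (A.length - j)) m
  have ht := ew_head_le h0 h1 A (A.drop (A.length - j)) n
  have l1 : (A.take (A.length - j)).length = A.length - j := by simp
  have l2 : (A.drop (A.length - j)).length = j := by simp; omega
  have hnn : 0 ≤ ew p n (fun v => if A.drop (A.length - j) <+: v then
        nocc A (v.drop (A.drop (A.length - j)).length) else 0) := by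
    refine ew_nonneg h0 h1 n (fun v _ => ?_)
    split_ifs
    · exact nocc_nonneg _ _
    · exact le_rfl
  refine (mul_le_mul hs ht hnn (mul_nonneg (wt_nonneg h0 h1 _) (surv_nonneg h0 h1 A _))).trans ?_
  rw [l1, l2, show m - (A.length - j) = m + j - A.length by omega]
  have hw : wt p A = wt p (A.take (A.length - j)) * wt p (A.drop (A.length - j)) := by
    rw [← wt_append, List.take_append_drop]
  rw [hw]
  refine le_of_eq ?_
  ring

/-! ## the abstract law of a pattern -/

/-- the law of the waiting time of the pattern `A` -/
noncomputable def law (p : ℝ) (h0 : 0 < p) (h1 : p < 1) (A : List Bool) (hA : A ≠ []) : CLaw where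
  L := A.length
  a := pm p A
  K := bd A
  kap := kap p A
  Lpos := List.length_pos_iff.2 hA
  a_nonneg := pm_nonneg h0.le h1.le A
  a_sum := hasSum_pm h0 h1 hA
  a_zero := fun _ h => pm_of_lt p h
  a_pos := by rw [pm_length p hA]; exact wt_pos h0 h1 A
  a_anti := fun _ h => pm_succ_le h0.le h1.le h
  K_sub := fun _ h => (mem_bd.1 h).1
  L_mem := length_mem_bd hA
  kap_pos := fun _ _ => one_div_pos.2 (wt_pos h0 h1 _)
  kap_L := by
    rw [pm_length p hA]
    unfold kap
    rw [List.take_length]
    have := wt_pos h0 h1 A
    field_simp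
  renewal := fun n => by rw [renewal h0 h1 A hA n, sum_pm p hA n]; ring

theorem law_s (p : ℝ) (h0 : 0 < p) (h1 : p < 1) (A : List Bool) (hA : A ≠ []) (n : ℕ) :
    (law p h0 h1 A hA).s n = surv p A n := by
  unfold CLaw.s
  show 1 - ∑ m ∈ range (n + 1), pm p A m = _
  rw [sum_pm p hA n]; ring

theorem law_NBU (p : ℝ) (h0 : 0 < p) (h1 : p < 1) (A : List Bool) (hA : A ≠ []) :
    (law p h0 h1 A hA).NBU := fun m n => by
  simp only [law_s]
  exact surv_add_le h0.le h1.le A m n

theorem law_Straddle (p : ℝ) (h0 : 0 < p) (h1 : p < 1) (A : List Bool) (hA : A ≠ []) :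
    (law p h0 h1 A hA).Straddle := fun m n => by
  simp only [law_s]
  have := straddle h0.le h1.le A m n
  show _ ≤ pm p A A.length * ∑ j ∈ Icc 1 (A.length - 1), _
  rw [pm_length p hA]
  exact this

end Coin
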