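import Pool.Agent.Lib.Coin.Race
import Pool.Agent.Lib.Coin.Renewal
import Pool.Agent.Lib.Coin.Straddle

/-!
# Coin race: derivative of the race function, and the links to the words (module M2)
-/

namespace Coin

open Finset Filter

/-- the exact derivative of the race function -/
theorem hasDerivAt_Gs {K K' : Finset ℕ} {a b : ℝ → ℕ → ℝ} {kap kap' : ℝ → ℕ → ℝ} {p0 : ℝ}
    {da db : ℕ → ℝ}
    (hA : ∀ᶠ p in nhds p0, IsProb (a p) ∧ Ren K (kap p) (a p))
    (hB : ∀ᶠ p in nhds p0, IsProb (b p) ∧ Ren K' (kap' p) (b p))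
    (hka : ∀ k ∈ K, HasDerivAt (fun p => kap p k) (da k) p0)
    (hkb : ∀ k ∈ K', HasDerivAt (fun p => kap' p k) (db k) p0) :
    HasDerivAt (fun p => Gs (a p) (b p))
      (-(∑ k ∈ K, da k * Wk (a p0) (a p0) (b p0) k)
        + ∑ k ∈ K', db k * Wk (b p0) (b p0) (a p0) k) p0 := by
  obtain ⟨pA0, rA0⟩ := hA.self_of_nhds
  obtain ⟨pB0, rB0⟩ := hB.self_of_nhds
  -- convergence in `ℓ¹`
  have hl1 : ∀ {K : Finset ℕ} {a : ℝ → ℕ → ℝ} {kap : ℝ → ℕ → ℝ} {da : ℕ → ℝ},
      (∀ᶠ p in nhds p0, IsProb (a p) ∧ Ren K (kap p) (a p)) →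
      (∀ k ∈ K, HasDerivAt (fun p => kap p k) (da k) p0) →
      Tendsto (fun p => l1 (a p) (a p0)) (nhds p0) (nhds 0) := by
    intro K a kap da h1 h2
    obtain ⟨q0, r0⟩ := h1.self_of_nhds
    have hlim : Tendsto (fun p => 2 * ∑ k ∈ K, |kap p k - kap p0 k|) (nhds p0) (nhds 0) := by
      have : Tendsto (fun p => 2 * ∑ k ∈ K, |kap p k - kap p0 k|) (nhds p0)
          (nhds (2 * ∑ k ∈ K, |kap p0 k - kap p0 k|)) := by
        refine Tendsto.const_mul 2 (tendsto_finset_sum K (fun k hk => ?_))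
        exact (((h2 k hk).continuousAt.tendsto).sub tendsto_const_nhds).abs
      simpa using this
    refine squeeze_zero' (Eventually.of_forall (fun p => l1_nonneg _ _)) ?_ hlim
    filter_upwards [h1] with p hp
    exact l1_le hp.1 q0 hp.2 r0
  have la := hl1 hA hka
  have lb := hl1 hB hkb
  rw [hasDerivAt_iff_tendsto_slope]
  have key : ∀ᶠ p in nhdsWithin p0 {p0}ᶜ, slope (fun p => Gs (a p) (b p)) p0 p
      = -(∑ k ∈ K, slope (fun p => kap p k) p0 p * Wk (a p) (a p0) (b p) k)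
        + ∑ k ∈ K', slope (fun p => kap' p k) p0 p * Wk (b p) (b p0) (a p0) k := by
    have hA' := hA.filter_mono (nhdsWithin_le_nhds (s := {p0}ᶜ))
    have hB' := hB.filter_mono (nhdsWithin_le_nhds (s := {p0}ᶜ))
    filter_upwards [hA', hB', self_mem_nhdsWithin] with p ⟨pA, rA⟩ ⟨pB, rB⟩ hne
    have hne' : p - p0 ≠ 0 := sub_ne_zero.mpr hne
    have e1 := Gs_sub_Gs pA pA0 pB rA rA0
    have e2 := Gs_sub_Gs pB pB0 pA0 rB rB0
    rw [Gs_antisymm (b p0) (a p0), Gs_antisymm (b p) (a p0)] at e2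
    rw [← sum_sub_distrib] at e1 e2
    simp only [slope_def_field]
    have e3 : Gs (a p) (b p) - Gs (a p0) (b p0)
        = -(∑ k ∈ K, (kap p k * Wk (a p) (a p0) (b p) k - kap p0 k * Wk (a p) (a p0) (b p) k))
          + ∑ k ∈ K', (kap' p k * Wk (b p) (b p0) (a p0) k
            - kap' p0 k * Wk (b p) (b p0) (a p0) k) := by
      rw [← e1, ← e2]; ring
    rw [e3, add_div, neg_div, sum_div, sum_div]
    congr 1
    · congr 1
      exact sum_congr rfl (fun k _ => by ring)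
    · exact sum_congr rfl (fun k _ => by ring)
  refine Tendsto.congr' (EventuallyEq.symm key) ?_
  have wlim : ∀ k, Tendsto (fun p => Wk (a p) (a p0) (b p) k) (nhdsWithin p0 {p0}ᶜ)
      (nhds (Wk (a p0) (a p0) (b p0) k)) := by
    intro k
    rw [tendsto_iff_norm_sub_tendsto_zero]
    have hlim : Tendsto (fun p => 2 * l1 (a p) (a p0) + 2 * l1 (b p) (b p0))
        (nhdsWithin p0 {p0}ᶜ) (nhds 0) := by
      have := ((la.const_mul 2).add (lb.const_mul 2)).mono_left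
        (nhdsWithin_le_nhds (s := {p0}ᶜ))
      simpa using this
    refine squeeze_zero' (Eventually.of_forall (fun p => norm_nonneg _)) ?_ hlim
    have hA' := hA.filter_mono (nhdsWithin_le_nhds (s := {p0}ᶜ))
    have hB' := hB.filter_mono (nhdsWithin_le_nhds (s := {p0}ᶜ))
    filter_upwards [hA', hB'] with p ⟨pA, _⟩ ⟨pB, _⟩
    rw [Real.norm_eq_abs]
    exact Wk_diff_le pA pA0 pB pB0 k
  have wlim' : ∀ k, Tendsto (fun p => Wk (b p) (b p0) (a p0) k) (nhdsWithin p0 {p0}ᶜ)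
      (nhds (Wk (b p0) (b p0) (a p0) k)) := by
    intro k
    rw [tendsto_iff_norm_sub_tendsto_zero]
    have hlim : Tendsto (fun p => 2 * l1 (b p) (b p0) + 2 * l1 (a p0) (a p0))
        (nhdsWithin p0 {p0}ᶜ) (nhds 0) := by
      have h0 : l1 (a p0) (a p0) = 0 := by simp [l1]
      have := (lb.const_mul 2).mono_left (nhdsWithin_le_nhds (s := {p0}ᶜ))
      simpa [h0] using this
    refine squeeze_zero' (Eventually.of_forall (fun p => norm_nonneg _)) ?_ hlim
    have hB' := hB.filter_mono (nhdsWithin_le_nhds (s := {p0}ᶜ))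
    filter_upwards [hB'] with p ⟨pB, _⟩
    rw [Real.norm_eq_abs]
    exact Wk_diff_le pB pB0 pA0 pA0 k
  refine Tendsto.add (Tendsto.neg (tendsto_finset_sum K (fun k hk => ?_)))
    (tendsto_finset_sum K' (fun k hk => ?_))
  · exact (hasDerivAt_iff_tendsto_slope.mp (hka k hk)).mul (wlim k)
  · exact (hasDerivAt_iff_tendsto_slope.mp (hkb k hk)).mul (wlim' k)

/-! ## links to the words -/

theorem srv_pm (p : ℝ) {A : List Bool} (hA : A ≠ []) (n : ℕ) : srv (pm p A) n = surv p A n := by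
  unfold srv
  rw [sum_pm p hA]
  ring

theorem isProb_pm {p : ℝ} (h0 : 0 < p) (h1 : p < 1) {A : List Bool} (hA : A ≠ []) :
    IsProb (pm p A) :=
  ⟨pm_nonneg h0.le h1.le A, hasSum_pm h0 h1 hA, pm_zero p A⟩

theorem bd_bounds {A : List Bool} {k : ℕ} (hk : k ∈ bd A) : 1 ≤ k ∧ k ≤ A.length := by
  unfold bd at hk
  exact mem_Icc.mp (mem_filter.mp hk).1

theorem ren_pm {p : ℝ} (h0 : 0 < p) (h1 : p < 1) {A : List Bool} (hA : A ≠ []) :
    Ren (bd A) (kap p A) (pm p A) :=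
  ⟨fun _ hk => (bd_bounds hk).1, fun _ hk _ hm => pm_of_lt p (lt_of_lt_of_le hm (bd_bounds hk).2),
    fun n => by rw [renewal h0 h1 A hA n, srv_pm p hA]⟩

theorem G_eq_Gs (p : ℝ) {A B : List Bool} (hA : A ≠ []) (hB : B ≠ []) :
    G p A B = Gs (pm p A) (pm p B) := by
  unfold G Gs
  simp only [srv_pm p hA, srv_pm p hB]

/-- the race formula for words -/
theorem G_eq_sum {p : ℝ} (h0 : 0 < p) (h1 : p < 1) {A B : List Bool} (hA : A ≠ []) (hB : B ≠ []) :
    G p A B = -((∑ k ∈ bd A, kap p A k * Wk (pm p A) (pm p B) (pm p B) k)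
      - ∑ k ∈ bd B, kap p B k * Wk (pm p A) (pm p B) (pm p B) k) := by
  rw [G_eq_Gs p hA hB]
  exact Gs_eq (isProb_pm h0 h1 hA) (isProb_pm h0 h1 hB) (ren_pm h0 h1 hA) (ren_pm h0 h1 hB)

/-- the weights of the race formula are nondecreasing up to `|A|` -/
theorem Wk_pm_mono {p : ℝ} (h0 : 0 < p) (h1 : p < 1) {A B : List Bool} (hA : A ≠ []) (hB : B ≠ [])
    {j k : ℕ} (hj : 1 ≤ j) (hjk : j ≤ k) (hk : k ≤ A.length) :
    Wk (pm p A) (pm p B) (pm p B) j ≤ Wk (pm p A) (pm p B) (pm p B) k :=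
  Wk_mono (isProb_pm h0 h1 hA) (isProb_pm h0 h1 hB) (LA := A.length) (LB := B.length)
    (fun _ hn => pm_of_lt p hn) (fun _ hn => pm_of_lt p hn)
    (fun _ hn => pm_succ_le h0.le h1.le hn) hj hjk hk

/-- derivative of the weight `1 / (p^h (1-p)^t)` in logarithmic form:
`p (1-p) κ' = (t p - h (1-p)) κ` -/
theorem hasDerivAt_kap {p : ℝ} (h0 : 0 < p) (h1 : p < 1) (A : List Bool) (k : ℕ) :
    HasDerivAt (fun x => kap x A k)
      (kap p A k * (((A.take k).count false : ℝ) / (1 - p) - ((A.take k).count true : ℝ) / p)) p := by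
  set h := (A.take k).count true
  set t := (A.take k).count false
  have hp : p ≠ 0 := h0.ne'
  have hq : 1 - p ≠ 0 := by linarith
  have hd : HasDerivAt (fun x : ℝ => x ^ h * (1 - x) ^ t)
      ((h : ℝ) * p ^ (h - 1) * 1 * (1 - p) ^ t
        + p ^ h * ((t : ℝ) * (1 - p) ^ (t - 1) * (-1))) p := by
    have e1 : HasDerivAt (fun x : ℝ => x ^ h) ((h : ℝ) * p ^ (h - 1) * 1) p :=
      (hasDerivAt_id p).pow h
    have e2 : HasDerivAt (fun x : ℝ => (1 - x) ^ t) ((t : ℝ) * (1 - p) ^ (t - 1) * (-1)) p := by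
      have : HasDerivAt (fun x : ℝ => 1 - x) (-1) p := by
        have h := (hasDerivAt_const p (1 : ℝ)).sub (hasDerivAt_id p)
        rw [zero_sub] at h
        exact h
      exact this.pow t
    exact e1.mul e2
  have hne : p ^ h * (1 - p) ^ t ≠ 0 := mul_ne_zero (pow_ne_zero _ hp) (pow_ne_zero _ hq)
  have hinv := hd.inv hne
  have hfun : (fun x => kap x A k) = (fun x : ℝ => x ^ h * (1 - x) ^ t)⁻¹ := by
    funext x
    simp only [kap, wt, Pi.inv_apply, one_div]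
    rfl
  rw [hfun]
  refine hinv.congr_deriv ?_
  have e3 : (h : ℝ) * p ^ (h - 1) = (h : ℝ) * p ^ h / p := by
    rcases Nat.eq_zero_or_pos h with hh | hh
    · simp [hh]
    · rw [eq_div_iff hp, mul_assoc, ← pow_succ, Nat.sub_add_cancel hh]
  have e4 : (t : ℝ) * (1 - p) ^ (t - 1) = (t : ℝ) * (1 - p) ^ t / (1 - p) := by
    rcases Nat.eq_zero_or_pos t with hh | hh
    · simp [hh]
    · rw [eq_div_iff hq, mul_assoc, ← pow_succ, Nat.sub_add_cancel hh]
  rw [e3, e4]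
  have hk : kap p A k = 1 / (p ^ h * (1 - p) ^ t) := rfl
  rw [hk]
  field_simp
  ring

/-- the exact derivative of `G` in `p` -/
theorem hasDerivAt_G {p : ℝ} (h0 : 0 < p) (h1 : p < 1) {A B : List Bool} (hA : A ≠ [])
    (hB : B ≠ []) :
    HasDerivAt (fun x => G x A B)
      (-(∑ k ∈ bd A, kap p A k * (((A.take k).count false : ℝ) / (1 - p)
          - ((A.take k).count true : ℝ) / p) * Wk (pm p A) (pm p A) (pm p B) k)
        + ∑ k ∈ bd B, kap p B k * (((B.take k).count false : ℝ) / (1 - p)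
          - ((B.take k).count true : ℝ) / p) * Wk (pm p B) (pm p B) (pm p A) k) p := by
  have hev : ∀ᶠ x in nhds p, 0 < x ∧ x < 1 :=
    (eventually_gt_nhds h0).and (eventually_lt_nhds h1)
  have hfun : (fun x => G x A B) = fun x => Gs (pm x A) (pm x B) := by
    funext x
    exact G_eq_Gs x hA hB
  rw [hfun]
  exact hasDerivAt_Gs (a := fun x => pm x A) (b := fun x => pm x B)
    (kap := fun x => kap x A) (kap' := fun x => kap x B)
    (hev.mono (fun x hx => ⟨isProb_pm hx.1 hx.2 hA, ren_pm hx.1 hx.2 hA⟩))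
    (hev.mono (fun x hx => ⟨isProb_pm hx.1 hx.2 hB, ren_pm hx.1 hx.2 hB⟩))
    (fun k _ => hasDerivAt_kap h0 h1 A k) (fun k _ => hasDerivAt_kap h0 h1 B k)

/-- `Om_A` for words -/
theorem Om_pm {p : ℝ} (h0 : 0 < p) (h1 : p < 1) {A B : List Bool} (hA : A ≠ []) (hB : B ≠ []) :
    ∑ k ∈ bd A, kap p A k * Wk (pm p A) (pm p A) (pm p B) k
      = G p A B - Gs (conv (pm p A) (pm p A)) (pm p B) := by
  rw [G_eq_Gs p hA hB]
  exact Om_eq (isProb_pm h0 h1 hA) (isProb_pm h0 h1 hB) (ren_pm h0 h1 hA)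

theorem Om_pm_ge {p : ℝ} (h0 : 0 < p) (h1 : p < 1) {A B : List Bool} (hA : A ≠ []) (hB : B ≠ []) :
    1 + G p A B - (1 + G p A B) ^ 2 / 2
      ≤ G p A B - Gs (conv (pm p A) (pm p A)) (pm p B) := by
  rw [G_eq_Gs p hA hB]
  refine Om_ge (isProb_pm h0 h1 hA) (isProb_pm h0 h1 hB) (fun m n => ?_)
  simp only [srv_pm p hB]
  exact surv_add_le h0.le h1.le B m n

end Coin
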