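import Pool.Agent.Lib.Coin.Hazard
import Pool.Agent.Lib.Coin.Comparable

/-!
# Coin race: two laws with the same length and the same `P` at a tie (M5c), part 1
-/

namespace Coin

open Finset

/-- `P(Y - X = m)` for `m ≥ 0` -/
noncomputable def lg (x y : ℕ → ℝ) (m : ℕ) : ℝ := ∑' j, x j * y (j + m)

section lg

variable {a x y : ℕ → ℝ}

theorem summable_lg (hx : IsProb x) (hy : IsProb y) (m : ℕ) :
    Summable (fun j => x j * y (j + m)) :=
  Summable.of_nonneg_of_le (fun j => mul_nonneg (hx.nonneg j) (hy.nonneg _))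
    (fun j => mul_le_of_le_one_right (hx.nonneg j) (hy.le_one _)) hx.summable

theorem lg_nonneg (hx : IsProb x) (hy : IsProb y) (m : ℕ) : 0 ≤ lg x y m :=
  tsum_nonneg (fun j => mul_nonneg (hx.nonneg j) (hy.nonneg _))

theorem lg_le_one (hx : IsProb x) (hy : IsProb y) (m : ℕ) : lg x y m ≤ 1 := by
  rw [← hx.tsum]
  exact (summable_lg hx hy m).tsum_le_tsum
    (fun j => mul_le_of_le_one_right (hx.nonneg j) (hy.le_one _)) hx.summable

theorem tsum_mul_conv_lg (ha : IsProb a) (hx : IsProb x) (hy : IsProb y) {k : ℕ}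
    (h0 : ∀ i < k, a i = 0) :
    ∑' n, y n * conv a x (n + k) = ∑' i, a i * lg x y (i - k) := by
  set F : ℕ → ℕ → ℝ := fun n i => y n * (a i * (if i ≤ n + k then x (n + k - i) else 0)) with hF
  have hF0 : ∀ n i, 0 ≤ F n i := by
    intro n i
    simp only [hF]
    split_ifs
    · exact mul_nonneg (hy.nonneg _) (mul_nonneg (ha.nonneg _) (hx.nonneg _))
    · simp
  have hF1 : ∀ n i, F n i ≤ y n * a i := by
    intro n i
    simp only [hF]
    refine mul_le_mul_of_nonneg_left ?_ (hy.nonneg n)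
    refine mul_le_of_le_one_right (ha.nonneg i) ?_
    split_ifs
    · exact hx.le_one _
    · exact zero_le_one
  have hS : Summable (Function.uncurry F) := by
    refine Summable.of_nonneg_of_le (fun z => hF0 z.1 z.2) (fun z => hF1 z.1 z.2) ?_
    exact hy.summable.mul_of_nonneg ha.summable hy.nonneg ha.nonneg
  have h1 : ∀ n, y n * conv a x (n + k) = ∑' i, F n i := by
    intro n
    rw [conv_eq_range, tsum_eq_sum (s := range (n + k + 1))]
    · rw [mul_sum]
      refine sum_congr rfl (fun i hi => ?_)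
      have : i ≤ n + k := by have := mem_range.mp hi; omega
      simp only [hF, if_pos this]
    · intro i hi
      have : ¬ i ≤ n + k := by intro h; exact hi (mem_range.mpr (by omega))
      simp only [hF, if_neg this]; ring
  have h2 : ∀ i, ∑' n, F n i = a i * lg x y (i - k) := by
    intro i
    rcases lt_or_ge i k with hi | hi
    · rw [h0 i hi, zero_mul]
      have : (fun n => F n i) = fun _ => 0 := by
        funext n; simp only [hF, h0 i hi]; ring
      rw [this, tsum_zero]
    · have hs : Summable (fun n => F n i) :=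
        Summable.of_nonneg_of_le (fun n => hF0 n i) (fun n => hF1 n i)
          (hy.summable.mul_right (a i))
      rw [← hs.sum_add_tsum_nat_add (i - k)]
      have hz : ∑ n ∈ range (i - k), F n i = 0 := by
        refine sum_eq_zero (fun n hn => ?_)
        have : ¬ i ≤ n + k := by have := mem_range.mp hn; omega
        simp only [hF, if_neg this]; ring
      rw [hz, zero_add]
      unfold lg
      rw [← tsum_mul_left]
      refine tsum_congr (fun j => ?_)
      have h3 : i ≤ j + (i - k) + k := by omega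
      simp only [hF, if_pos h3]
      rw [show j + (i - k) + k - i = j by omega]; ring
  calc ∑' n, y n * conv a x (n + k) = ∑' n, ∑' i, F n i := tsum_congr h1
    _ = ∑' i, ∑' n, F n i := hS.tsum_comm.symm
    _ = _ := tsum_congr h2

theorem summable_mul_of_bdd (ha : IsProb a) {f : ℕ → ℝ} {C : ℝ} (h0 : ∀ n, 0 ≤ f n)
    (h1 : ∀ n, f n ≤ C) : Summable (fun n => a n * f n) :=
  Summable.of_nonneg_of_le (fun n => mul_nonneg (ha.nonneg n) (h0 n))
    (fun n => mul_le_mul_of_nonneg_left (h1 n) (ha.nonneg n)) (ha.summable.mul_right C)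

/-- the slot function `P(n + X - Y ∈ {k, k-1})` -/
noncomputable def slotF (x y : ℕ → ℝ) (k n : ℕ) : ℝ := lg x y (n - k) + lg x y (n - (k - 1))

theorem Wk_eq_slotF (ha : IsProb a) (hx : IsProb x) (hy : IsProb y) {k : ℕ} (hk : 1 ≤ k)
    (h0 : ∀ i < k, a i = 0) : Wk a x y k = ∑' n, a n * slotF x y k n := by
  have hc := ha.conv hx
  have hs : ∀ j, Summable (fun n => y n * conv a x (n + j)) := fun j =>
    Summable.of_nonneg_of_le (fun n => mul_nonneg (hy.nonneg n) (hc.nonneg _))
      (fun n => mul_le_of_le_one_right (hy.nonneg n) (hc.le_one _)) hy.summable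
  have hW : Wk a x y k = (∑' n, y n * conv a x (n + k)) + ∑' n, y n * conv a x (n + (k - 1)) := by
    unfold Wk
    rw [← (hs k).tsum_add (hs (k - 1))]
    refine tsum_congr (fun n => ?_)
    rw [show n + k - 1 = n + (k - 1) by omega]; ring
  rw [hW, tsum_mul_conv_lg ha hx hy h0, tsum_mul_conv_lg ha hx hy (k := k - 1)
    (fun i hi => h0 i (by omega))]
  have hsl : ∀ j, Summable (fun i => a i * lg x y (i - j)) := fun j =>
    summable_mul_of_bdd ha (fun _ => lg_nonneg hx hy _) (fun _ => lg_le_one hx hy _)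
  rw [← (hsl k).tsum_add (hsl (k - 1))]
  refine tsum_congr (fun n => ?_)
  unfold slotF
  ring

end lg

/-! ## summation by parts -/

/-- `Σ (a - b) F = Σ (s_a - s_b) (F(n+1) - F(n))` -/
theorem tsum_sub_mul_eq {a b F : ℕ → ℝ} {C : ℝ} (ha : IsProb a) (hb : IsProb b)
    (hF0 : ∀ n, 0 ≤ F n) (hF1 : ∀ n, F n ≤ C)
    (hD : Summable (fun n => |srv a n - srv b n|)) :
    (∑' n, a n * F n) - ∑' n, b n * F n = ∑' n, (srv a n - srv b n) * (F (n + 1) - F n) := by
  have hC : 0 ≤ C := (hF0 0).trans (hF1 0)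
  have hsa := summable_mul_of_bdd ha hF0 hF1
  have hsb := summable_mul_of_bdd hb hF0 hF1
  have hD' : Summable (fun n => srv a n - srv b n) := hD.of_abs
  have hFabs : ∀ n, |F n| ≤ C := fun n => by rw [abs_of_nonneg (hF0 n)]; exact hF1 n
  have hs1 : Summable (fun n => (srv a n - srv b n) * F (n + 1)) := by
    refine Summable.of_norm_bounded (g := fun n => |srv a n - srv b n| * C) (hD.mul_right C)
      (fun n => ?_)
    rw [Real.norm_eq_abs, abs_mul]
    exact mul_le_mul_of_nonneg_left (hFabs _) (abs_nonneg _)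
  have hs2 : Summable (fun n => (srv a n - srv b n) * F n) := by
    refine Summable.of_norm_bounded (g := fun n => |srv a n - srv b n| * C) (hD.mul_right C)
      (fun n => ?_)
    rw [Real.norm_eq_abs, abs_mul]
    exact mul_le_mul_of_nonneg_left (hFabs _) (abs_nonneg _)
  have e1 : ∑' n, (srv a n - srv b n) * (F (n + 1) - F n)
      = (∑' n, (srv a n - srv b n) * F (n + 1)) - ∑' n, (srv a n - srv b n) * F n := by
    rw [← hs1.tsum_sub hs2]
    exact tsum_congr (fun n => by ring)
  have hz : ∀ c : ℕ → ℝ, IsProb c → srv c 0 = 1 := fun c hc => by simp [srv, hc.zero]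
  have e2 : ∑' n, (srv a n - srv b n) * F n = ∑' n, (srv a (n + 1) - srv b (n + 1)) * F (n + 1) := by
    rw [hs2.tsum_eq_zero_add, hz a ha, hz b hb]
    ring_nf
  have hs3 : Summable (fun n => (srv a (n + 1) - srv b (n + 1)) * F (n + 1)) :=
    (summable_nat_add_iff (f := fun n => (srv a n - srv b n) * F n) 1).mpr hs2
  have e3 : (∑' n, a n * F n) - ∑' n, b n * F n = ∑' n, (a (n + 1) - b (n + 1)) * F (n + 1) := by
    rw [← hsa.tsum_sub hsb, (hsa.sub hsb).tsum_eq_zero_add, ha.zero, hb.zero]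
    simp only [zero_mul, sub_self, zero_add]
    exact tsum_congr (fun n => by ring)
  rw [e1, e2, e3, ← hs1.tsum_sub hs3]
  refine tsum_congr (fun n => ?_)
  have h1 : a (n + 1) = srv a n - srv a (n + 1) := by
    simp only [srv, sum_range_succ]; ring
  have h2 : b (n + 1) = srv b n - srv b (n + 1) := by
    simp only [srv, sum_range_succ]; ring
  rw [h1, h2]; ring

/-! ## the data -/

/-- two waiting time laws with the same length `L` and the same top probability `P`,
with hazards at most `h`, at a tie -/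
structure EqPair (a b : ℕ → ℝ) (L : ℕ) (P h : ℝ) : Prop where
  ha : IsProb a
  hb : IsProb b
  Lpos : 1 ≤ L
  a0 : ∀ n < L, a n = 0
  b0 : ∀ n < L, b n = 0
  aL : a L = P
  bL : b L = P
  aanti : ∀ n, L ≤ n → a (n + 1) ≤ a n
  banti : ∀ n, L ≤ n → b (n + 1) ≤ b n
  nbuA : ∀ m n, srv a (m + n) ≤ srv a m * srv a n
  nbuB : ∀ m n, srv b (m + n) ≤ srv b m * srv b n
  hazA : ∀ n, (1 - h) * srv a n ≤ srv a (n + 1)
  hazB : ∀ n, (1 - h) * srv b n ≤ srv b (n + 1)
  topA : ∀ n, a (n + L) ≤ P * srv a n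
  topB : ∀ n, b (n + L) ≤ P * srv b n
  h0 : 0 ≤ h
  h1 : h < 1
  tie : Gs a b = 0
  sumD : Summable (fun n => |srv a n - srv b n|)

namespace EqPair

variable {a b : ℕ → ℝ} {L : ℕ} {P h : ℝ}

theorem symm (E : EqPair a b L P h) : EqPair b a L P h where
  ha := E.hb
  hb := E.ha
  Lpos := E.Lpos
  a0 := E.b0
  b0 := E.a0
  aL := E.bL
  bL := E.aL
  aanti := E.banti
  banti := E.aanti
  nbuA := E.nbuB
  nbuB := E.nbuA
  hazA := E.hazB
  hazB := E.hazA
  topA := E.topB
  topB := E.topA
  h0 := E.h0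
  h1 := E.h1
  tie := by rw [Gs_antisymm, E.tie, neg_zero]
  sumD := by
    have := E.sumD
    refine this.congr (fun n => ?_)
    rw [abs_sub_comm]

theorem P_nonneg (E : EqPair a b L P h) : 0 ≤ P := by rw [← E.aL]; exact E.ha.nonneg _

theorem P_le_one (E : EqPair a b L P h) : P ≤ 1 := by rw [← E.aL]; exact E.ha.le_one _

/-- `a n ≤ P` for every `n` -/
theorem a_le (E : EqPair a b L P h) (n : ℕ) : a n ≤ P := by
  rcases lt_or_ge n L with hn | hn
  · rw [E.a0 n hn]; exact E.P_nonneg
  · induction n, hn using Nat.le_induction with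
    | base => rw [E.aL]
    | succ n hn ih => exact (E.aanti n hn).trans (ih)

theorem b_le (E : EqPair a b L P h) (n : ℕ) : b n ≤ P := E.symm.a_le n

theorem a_antitone (E : EqPair a b L P h) {m n : ℕ} (hm : L ≤ m) (hmn : m ≤ n) : a n ≤ a m := by
  induction n, hmn using Nat.le_induction with
  | base => exact le_rfl
  | succ n hn ih => exact (E.aanti n (hm.trans hn)).trans ih

theorem b_antitone (E : EqPair a b L P h) {m n : ℕ} (hm : L ≤ m) (hmn : m ≤ n) : b n ≤ b m :=
  E.symm.a_antitone hm hmn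

theorem srv_succ_le (E : EqPair a b L P h) (n : ℕ) : srv a (n + 1) ≤ srv a n := by
  have := E.ha.nonneg (n + 1)
  simp only [srv, sum_range_succ] at *
  linarith

theorem srv_anti (E : EqPair a b L P h) : Antitone (srv a) :=
  antitone_nat_of_succ_le E.srv_succ_le

/-- `Σ a s_a ≤ 1/2` -/
theorem sum_self (E : EqPair a b L P h) : ∑' n, a n * srv a n ≤ 1 / 2 := by
  have h1 := E.ha.tsum_mul_tl_add E.ha
  have h2 : ∑' n, a n * srv a n ≤ ∑' n, a n * tl a n := by
    refine (E.ha.summable_mul_srv E.ha).tsum_le_tsum (fun n => ?_) (E.ha.summable_mul_tl E.ha)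
    refine mul_le_mul_of_nonneg_left ?_ (E.ha.nonneg n)
    have := tl_succ a n; have := E.ha.nonneg n; rw [srv_eq_tl]; linarith
  linarith

/-- `Σ b s_a ≤ 1/2` at a tie -/
theorem sum_cross (E : EqPair a b L P h) : ∑' n, b n * srv a n ≤ 1 / 2 := by
  have h1 := E.ha.tsum_mul_tl_add E.hb
  have h2 : ∑' n, a n * srv b n ≤ ∑' n, a n * tl b n := by
    refine (E.ha.summable_mul_srv E.hb).tsum_le_tsum (fun n => ?_) (E.ha.summable_mul_tl E.hb)
    refine mul_le_mul_of_nonneg_left ?_ (E.ha.nonneg n)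
    have := tl_succ b n; have := E.hb.nonneg n; rw [srv_eq_tl]; linarith
  have h3 := E.tie
  unfold Gs at h3
  linarith

/-- iterated hazard: `s(n - k) ≤ θ^k s(n)` with `θ = 1/(1-h)` -/
theorem haz_iter (E : EqPair a b L P h) (n k : ℕ) :
    srv a (n - k) ≤ (1 / (1 - h)) ^ k * srv a n := by
  have hpos : 0 < 1 - h := by linarith [E.h1]
  have key := Haz.iter_sub E.h0 E.h1.le (s := srv a) E.hazA E.ha.srv_nonneg n k
  rw [one_div, inv_pow, ← div_eq_inv_mul, le_div_iff₀ (pow_pos hpos k), mul_comm]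
  exact key

end EqPair

end Coin
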