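import Pool.Agent.Lib.Coin.Eq1

/-!
# Coin race: two laws with the same length and the same `P` at a tie (M5c), part 2: the slots
-/

namespace Coin

open Finset

theorem tsum_telescope {f : ℕ → ℝ} (hf : Summable f) : ∑' n, (f n - f (n + 1)) = f 0 := by
  have h1 : Summable (fun n => f (n + 1)) := (summable_nat_add_iff 1).mpr hf
  rw [hf.tsum_sub h1, hf.tsum_eq_zero_add]; ring

theorem tsum_shift_eq {f : ℕ → ℝ} (hf : Summable f) {L : ℕ} (h0 : ∀ j < L, f j = 0) :
    ∑' n, f n = ∑' n, f (n + L) := by
  rw [← hf.sum_add_tsum_nat_add L, sum_eq_zero (fun i hi => h0 i (mem_range.mp hi)), zero_add]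

section lg2

variable {x y : ℕ → ℝ} {L : ℕ} {P : ℝ}

theorem lg_anti (hx : IsProb x) (hy : IsProb y) (x0 : ∀ n < L, x n = 0)
    (yanti : ∀ n, L ≤ n → y (n + 1) ≤ y n) (m : ℕ) : lg x y (m + 1) ≤ lg x y m := by
  refine (summable_lg hx hy (m + 1)).tsum_le_tsum (fun j => ?_) (summable_lg hx hy m)
  rcases lt_or_ge j L with hj | hj
  · rw [x0 j hj]; simp
  · exact mul_le_mul_of_nonneg_left (yanti (j + m) (by omega)) (hx.nonneg j)

theorem lg_sub_le (hx : IsProb x) (hy : IsProb y) (x0 : ∀ n < L, x n = 0)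
    (yanti : ∀ n, L ≤ n → y (n + 1) ≤ y n) (hP : ∀ n, x n ≤ P) (m : ℕ) :
    lg x y m - lg x y (m + 1) ≤ P * y (L + m) := by
  have hs := (summable_lg hx hy m).sub (summable_lg hx hy (m + 1))
  have e1 : lg x y m - lg x y (m + 1) = ∑' j, (x j * y (j + m) - x j * y (j + (m + 1))) := by
    unfold lg
    rw [(summable_lg hx hy m).tsum_sub (summable_lg hx hy (m + 1))]
  have e2 : ∑' j, (x j * y (j + m) - x j * y (j + (m + 1)))
      = ∑' j, (x (j + L) * y (j + L + m) - x (j + L) * y (j + L + (m + 1))) :=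
    tsum_shift_eq hs (fun j hj => by rw [x0 j hj]; ring)
  have hy' : Summable (fun j => y (j + (L + m))) := (summable_nat_add_iff (L + m)).mpr hy.summable
  have e3 := tsum_telescope hy'
  have hs3 : Summable (fun j => y (j + (L + m)) - y (j + 1 + (L + m))) :=
    hy'.sub ((summable_nat_add_iff (f := fun j => y (j + (L + m))) 1).mpr hy')
  rw [e1, e2]
  have e4 : ∑' j, (x (j + L) * y (j + L + m) - x (j + L) * y (j + L + (m + 1)))
      ≤ ∑' j, P * (y (j + (L + m)) - y (j + 1 + (L + m))) := by
    refine ((summable_nat_add_iff (f := fun j => x j * y (j + m) - x j * y (j + (m + 1))) L).mpr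
      hs).tsum_le_tsum (fun j => ?_) (hs3.mul_left P)
    have e5 : y (j + L + (m + 1)) = y (j + 1 + (L + m)) := by congr 1; omega
    have e6 : y (j + L + m) = y (j + (L + m)) := by rw [add_assoc]
    rw [e5, e6, ← mul_sub]
    refine mul_le_mul_of_nonneg_right (hP _) ?_
    have := yanti (j + (L + m)) (by omega)
    rw [show j + 1 + (L + m) = j + (L + m) + 1 by omega]; linarith
  refine e4.trans ?_
  rw [tsum_mul_left, e3]
  simp

theorem slotF_step (hx : IsProb x) (hy : IsProb y) (x0 : ∀ n < L, x n = 0)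
    (yanti : ∀ n, L ≤ n → y (n + 1) ≤ y n) (hP : ∀ n, x n ≤ P) {k n : ℕ} (hk : 1 ≤ k)
    (hkn : k ≤ n) :
    |slotF x y k (n + 1) - slotF x y k n| ≤ P * y (L + (n - k)) + P * y (L + (n - (k - 1))) := by
  have h1 := lg_sub_le hx hy x0 yanti hP (n - k)
  have h2 := lg_sub_le hx hy x0 yanti hP (n - (k - 1))
  have h3 := lg_anti hx hy x0 yanti (n - k)
  have h4 := lg_anti hx hy x0 yanti (n - (k - 1))
  unfold slotF
  rw [show n + 1 - k = n - k + 1 by omega, show n + 1 - (k - 1) = n - (k - 1) + 1 by omega, abs_le]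
  constructor <;> linarith

theorem slotF_nonneg (hx : IsProb x) (hy : IsProb y) (k n : ℕ) : 0 ≤ slotF x y k n :=
  add_nonneg (lg_nonneg hx hy _) (lg_nonneg hx hy _)

theorem slotF_le_two (hx : IsProb x) (hy : IsProb y) (k n : ℕ) : slotF x y k n ≤ 2 := by
  have := lg_le_one hx hy (n - k)
  have := lg_le_one hx hy (n - (k - 1))
  unfold slotF; linarith

end lg2

theorem Wk_comm (a b c : ℕ → ℝ) (k : ℕ) : Wk a b c k = Wk b a c k := by
  unfold Wk; rw [conv_comm a b]

namespace EqPair

variable {a b : ℕ → ℝ} {L : ℕ} {P h : ℝ}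

theorem D_zero (E : EqPair a b L P h) {n : ℕ} (hn : n < L) : srv a n - srv b n = 0 := by
  unfold srv
  rw [sum_eq_zero (fun m hm => E.a0 m (by have := mem_range.mp hm; omega)),
    sum_eq_zero (fun m hm => E.b0 m (by have := mem_range.mp hm; omega))]
  ring

theorem theta_pos (E : EqPair a b L P h) : 0 < 1 / (1 - h) := by
  have : 0 < 1 - h := by linarith [E.h1]
  positivity

theorem one_le_theta (E : EqPair a b L P h) : 1 ≤ 1 / (1 - h) := by
  have : 0 < 1 - h := by linarith [E.h1]
  rw [le_div_iff₀ this]; linarith [E.h0]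

theorem summable_D_mul (E : EqPair a b L P h) {f : ℕ → ℝ} (h0 : ∀ n, 0 ≤ f n)
    (h1 : ∀ n, f n ≤ 1) : Summable (fun n => |srv a n - srv b n| * f n) :=
  Summable.of_nonneg_of_le (fun n => mul_nonneg (abs_nonneg _) (h0 n))
    (fun n => mul_le_of_le_one_right (abs_nonneg _) (h1 n)) E.sumD

/-- first slot -/
theorem slotA (E : EqPair a b L P h) {k : ℕ} (hk : 1 ≤ k) (hkL : k ≤ L) :
    |Wk a a b k - Wk a b b k|
      ≤ 2 * P ^ 2 * (1 / (1 - h)) ^ k * ∑' n, |srv a n - srv b n| * srv b n := by
  have hP0 := E.P_nonneg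
  rw [Wk_comm a b b, Wk_eq_slotF E.ha E.ha E.hb hk (fun i hi => E.a0 i (by omega)),
    Wk_eq_slotF E.hb E.ha E.hb hk (fun i hi => E.b0 i (by omega)),
    tsum_sub_mul_eq E.ha E.hb (slotF_nonneg E.ha E.hb k) (slotF_le_two E.ha E.hb k) E.sumD]
  have hbd : ∀ n, |(srv a n - srv b n) * (slotF a b k (n + 1) - slotF a b k n)|
      ≤ 2 * P ^ 2 * (1 / (1 - h)) ^ k * (|srv a n - srv b n| * srv b n) := by
    intro n
    rcases lt_or_ge n L with hn | hn
    · rw [E.D_zero hn]; simp
    · rw [abs_mul]
      have e1 := slotF_step E.ha E.hb E.a0 E.banti E.a_le hk (hkL.trans hn)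
      have e2 := E.topB (n - k)
      have e3 := E.topB (n - (k - 1))
      have e4 : srv b (n - (k - 1)) ≤ srv b (n - k) := E.symm.srv_anti (by omega)
      have e5 := E.symm.haz_iter n k
      rw [add_comm (n - k) L] at e2
      rw [add_comm (n - (k - 1)) L] at e3
      have e6 : |slotF a b k (n + 1) - slotF a b k n|
          ≤ 2 * P ^ 2 * (1 / (1 - h)) ^ k * srv b n := by
        calc _ ≤ P * b (L + (n - k)) + P * b (L + (n - (k - 1))) := e1
          _ ≤ P * (P * srv b (n - k)) + P * (P * srv b (n - k)) := by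
              refine add_le_add (mul_le_mul_of_nonneg_left e2 hP0)
                (mul_le_mul_of_nonneg_left (e3.trans (mul_le_mul_of_nonneg_left e4 hP0)) hP0)
          _ = 2 * P ^ 2 * srv b (n - k) := by ring
          _ ≤ 2 * P ^ 2 * ((1 / (1 - h)) ^ k * srv b n) :=
              mul_le_mul_of_nonneg_left e5 (by positivity)
          _ = _ := by ring
      calc _ ≤ |srv a n - srv b n| * (2 * P ^ 2 * (1 / (1 - h)) ^ k * srv b n) :=
            mul_le_mul_of_nonneg_left e6 (abs_nonneg _)
        _ = _ := by ring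
  have hsum : Summable (fun n => 2 * P ^ 2 * (1 / (1 - h)) ^ k * (|srv a n - srv b n| * srv b n)) :=
    (E.summable_D_mul E.hb.srv_nonneg E.hb.srv_le_one).mul_left _
  have hsum' := Summable.of_nonneg_of_le (fun n => abs_nonneg _) hbd hsum
  refine (abs_tsum_le_aux hsum').trans ?_
  rw [← tsum_mul_left]
  exact hsum'.tsum_le_tsum hbd hsum

/-- the derivative of the convolution -/
theorem conv_step (E : EqPair a b L P h) (m : ℕ) :
    conv a b (m + 1) - conv a b m = conv (fun i => a (i + 1) - a i) b m := by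
  have h1 : conv (fun i => a (i + 1)) b m = conv a b (m + 1) :=
    conv_shift (fun m hm => by
      have : m = 0 := by omega
      rw [this]; exact E.ha.zero) m
  rw [← h1]
  unfold conv
  rw [← sum_sub_distrib]
  exact sum_congr rfl (fun x _ => by ring)

/-- the absolute differences of the law -/
theorem abs_step_le (E : EqPair a b L P h) (i : ℕ) :
    |a (i + 1) - a i| = (if i + 1 = L then P else 0) + (if L ≤ i then a i - a (i + 1) else 0) := by
  rcases lt_trichotomy (i + 1) L with hi | hi | hi
  · rw [E.a0 _ hi, E.a0 i (by omega), if_neg (by omega), if_neg (by omega)]; simp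
  · rw [if_pos hi, if_neg (by omega), E.a0 i (by omega), hi, E.aL, sub_zero, add_zero,
      abs_of_nonneg E.P_nonneg]
  · rw [if_neg (by omega), if_pos (by omega), zero_add, abs_sub_comm, abs_of_nonneg]
    linarith [E.aanti i (by omega)]

theorem step_le (E : EqPair a b L P h) (i : ℕ) :
    a (i + 1) - a i ≤ if i + 1 = L then P else 0 := by
  rcases lt_trichotomy (i + 1) L with hi | hi | hi
  · rw [E.a0 _ hi, E.a0 i (by omega), if_neg (by omega)]; simp
  · rw [if_pos hi, E.a0 i (by omega), hi, E.aL, sub_zero]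
  · rw [if_neg (by omega)]
    linarith [E.aanti i (by omega)]

theorem le_step (E : EqPair a b L P h) (i : ℕ) :
    -(if L ≤ i then a i - a (i + 1) else 0) ≤ a (i + 1) - a i := by
  rcases lt_trichotomy (i + 1) L with hi | hi | hi
  · rw [E.a0 _ hi, E.a0 i (by omega), if_neg (by omega)]; simp
  · rw [if_neg (by omega), E.a0 i (by omega), hi, E.aL]; simpa using E.P_nonneg
  · rw [if_pos (by omega)]; linarith

theorem summable_down (E : EqPair a b L P h) :
    Summable (fun i => if L ≤ i then a i - a (i + 1) else 0) := by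
  have h1 : Summable (fun i => a i + a (i + 1)) :=
    E.ha.summable.add ((summable_nat_add_iff (f := a) 1).mpr E.ha.summable)
  refine Summable.of_nonneg_of_le (fun i => ?_) (fun i => ?_) h1
  · split_ifs with h
    · linarith [E.aanti i h]
    · exact le_rfl
  · have := E.ha.nonneg i
    have := E.ha.nonneg (i + 1)
    split_ifs <;> linarith

theorem tsum_down (E : EqPair a b L P h) :
    ∑' i, (if L ≤ i then a i - a (i + 1) else 0) = P := by
  rw [tsum_shift_eq E.summable_down (L := L) (fun j hj => if_neg (by omega))]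
  have h1 : (fun n => if L ≤ n + L then a (n + L) - a (n + L + 1) else 0)
      = fun n => a (n + L) - a (n + 1 + L) := by
    funext n
    rw [if_pos (by omega), show n + L + 1 = n + 1 + L by omega]
  rw [h1, tsum_telescope (f := fun n => a (n + L)) ((summable_nat_add_iff L).mpr E.ha.summable)]
  simpa using E.aL

theorem summable_step (E : EqPair a b L P h) : Summable (fun i => |a (i + 1) - a i|) := by
  have h1 : Summable (fun i => a (i + 1)) := (summable_nat_add_iff 1).mpr E.ha.summable
  exact (h1.sub E.ha.summable).abs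

theorem tsum_step (E : EqPair a b L P h) : ∑' i, |a (i + 1) - a i| = 2 * P := by
  have h1 : ∀ i, |a (i + 1) - a i|
      = (if i = L - 1 then P else 0) + (if L ≤ i then a i - a (i + 1) else 0) := by
    intro i
    rw [E.abs_step_le]
    congr 1
    have := E.Lpos
    by_cases h : i + 1 = L
    · rw [if_pos h, if_pos (by omega)]
    · rw [if_neg h, if_neg (by omega)]
  have h2 : Summable (fun i => if i = L - 1 then P else 0) :=
    (hasSum_ite_eq (L - 1) P).summable
  rw [tsum_congr h1, h2.tsum_add E.summable_down, E.tsum_down, tsum_ite_eq]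
  ring

/-- `|e(m+1) - e(m)| ≤ P²` -/
theorem conv_step_abs (E : EqPair a b L P h) (m : ℕ) :
    |conv a b (m + 1) - conv a b m| ≤ P ^ 2 := by
  have hP0 := E.P_nonneg
  have hup : ∀ f : ℕ → ℝ, (∀ i, 0 ≤ f i) → Summable f → ∑' i, f i ≤ P →
      conv f b m ≤ P ^ 2 := by
    intro f hf0 hfs hf1
    rw [conv_eq_range]
    calc ∑ i ∈ range (m + 1), f i * b (m - i) ≤ ∑ i ∈ range (m + 1), f i * P :=
          sum_le_sum (fun i _ => mul_le_mul_of_nonneg_left (E.b_le _) (hf0 i))
      _ = (∑ i ∈ range (m + 1), f i) * P := by rw [sum_mul]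
      _ ≤ (∑' i, f i) * P :=
          mul_le_mul_of_nonneg_right (hfs.sum_le_tsum _ (fun i _ => hf0 i)) hP0
      _ ≤ P * P := mul_le_mul_of_nonneg_right hf1 hP0
      _ = P ^ 2 := by ring
  rw [E.conv_step, abs_le]
  constructor
  · have h1 := hup (fun i => if L ≤ i then a i - a (i + 1) else 0) (fun i => by
        split_ifs with h
        · linarith [E.aanti i h]
        · exact le_rfl) E.summable_down E.tsum_down.le
    have h2 : -conv (fun i => if L ≤ i then a i - a (i + 1) else 0) b m
        ≤ conv (fun i => a (i + 1) - a i) b m := by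
      unfold conv
      rw [← sum_neg_distrib]
      refine sum_le_sum (fun x _ => ?_)
      rw [← neg_mul]
      exact mul_le_mul_of_nonneg_right (E.le_step _) (E.hb.nonneg _)
    linarith
  · have h3 : (fun i => if i + 1 = L then P else 0) = fun i => if i = L - 1 then P else 0 := by
      funext i
      have := E.Lpos
      by_cases h : i + 1 = L
      · rw [if_pos h, if_pos (by omega)]
      · rw [if_neg h, if_neg (by omega)]
    have h1 := hup (fun i => if i + 1 = L then P else 0) (fun i => by
        split_ifs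
        · exact hP0
        · exact le_rfl) (by rw [h3]; exact (hasSum_ite_eq (L - 1) P).summable)
        (by rw [h3, tsum_ite_eq])
    have h2 : conv (fun i => a (i + 1) - a i) b m
        ≤ conv (fun i => if i + 1 = L then P else 0) b m := by
      unfold conv
      exact sum_le_sum (fun x _ => mul_le_mul_of_nonneg_right (E.step_le _) (E.hb.nonneg _))
    linarith

/-- third slot -/
theorem slotN (E : EqPair a b L P h) {k : ℕ} (hk : 1 ≤ k) :
    |Wk a b a k - Wk a b b k| ≤ 2 * P ^ 2 * ∑' n, |srv a n - srv b n| := by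
  have hc := E.ha.conv E.hb
  set F : ℕ → ℝ := fun n => conv a b (n + k) + conv a b (n + k - 1) with hF
  have hF0 : ∀ n, 0 ≤ F n := fun n => add_nonneg (hc.nonneg _) (hc.nonneg _)
  have hF2 : ∀ n, F n ≤ 2 := fun n => by
    have := hc.le_one (n + k); have := hc.le_one (n + k - 1); simp only [hF]; linarith
  have e := tsum_sub_mul_eq E.ha E.hb hF0 hF2 E.sumD
  have e' : Wk a b a k - Wk a b b k = ∑' n, (srv a n - srv b n) * (F (n + 1) - F n) := e
  rw [e']
  have hbd : ∀ n, |(srv a n - srv b n) * (F (n + 1) - F n)| ≤ 2 * P ^ 2 * |srv a n - srv b n| := by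
    intro n
    rw [abs_mul]
    have e1 := E.conv_step_abs (n + k)
    have e2 := E.conv_step_abs (n + k - 1)
    rw [show n + k - 1 + 1 = n + k by omega] at e2
    have e3 : |F (n + 1) - F n| ≤ 2 * P ^ 2 := by
      have : F (n + 1) - F n = (conv a b (n + k + 1) - conv a b (n + k))
          + (conv a b (n + k) - conv a b (n + k - 1)) := by
        simp only [hF]
        rw [show n + 1 + k = n + k + 1 by omega, show n + k + 1 - 1 = n + k by omega]
        ring
      rw [this]
      refine (abs_add_le _ _).trans ?_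
      linarith
    calc _ ≤ |srv a n - srv b n| * (2 * P ^ 2) := mul_le_mul_of_nonneg_left e3 (abs_nonneg _)
      _ = _ := by ring
  have hsum := E.sumD.mul_left (2 * P ^ 2)
  have hsum' := Summable.of_nonneg_of_le (fun n => abs_nonneg _) hbd hsum
  refine (abs_tsum_le_aux hsum').trans ?_
  rw [← tsum_mul_left]
  exact hsum'.tsum_le_tsum hbd hsum

/-- the weights of `B` -/
theorem slotB (E : EqPair a b L P h) {k : ℕ} (hk : 1 ≤ k) (hkL : k ≤ L) :
    |Wk b b a k - Wk a b b k|
      ≤ 2 * P ^ 2 * (1 / (1 - h)) ^ k * (∑' n, |srv a n - srv b n| * srv a n)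
        + 2 * P ^ 2 * ∑' n, |srv a n - srv b n| := by
  have e1 := E.symm.slotA hk hkL
  have e2 := E.slotN hk
  have e3 : ∀ n, |srv b n - srv a n| = |srv a n - srv b n| := fun n => abs_sub_comm _ _
  simp only [e3] at e1
  rw [Wk_comm b a a] at e1
  have : Wk b b a k - Wk a b b k = (Wk b b a k - Wk a b a k) + (Wk a b a k - Wk a b b k) := by ring
  rw [this]
  exact (abs_add_le _ _).trans (add_le_add e1 e2)

end EqPair

end Coin
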