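import Pool.Agent.Lib.Coin.Eq2

/-!
# Coin race: two laws with the same length and the same `P` at a tie (M5c), part 3:
the difference of the survival functions and the weights
-/

namespace Coin

open Finset

theorem tsum_conv_le {x y f g r : ℕ → ℝ} {J : ℕ} (x0 : ∀ m < J, x m = 0)
    (hx : ∀ i, 0 ≤ x i) (hy : ∀ i, 0 ≤ y i) (hf : ∀ i, 0 ≤ f i)
    (_g0 : ∀ i, 0 ≤ g i) (_r0 : ∀ i, 0 ≤ r i) (gs : Summable g) (rs : Summable r)
    (hle : ∀ i l, x (i + J) * y l * f (i + l) ≤ g i * r l) :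
    Summable (fun n => conv x y (n + J) * f n) ∧
      ∑' n, conv x y (n + J) * f n ≤ (∑' i, g i) * ∑' l, r l := by
  have hng : Summable (fun n => ‖g n‖) := gs.norm
  have hnr : Summable (fun n => ‖r n‖) := rs.norm
  have hprod := tsum_mul_tsum_eq_tsum_sum_antidiagonal_of_summable_norm hng hnr
  have hsc : Summable (fun n => ∑ z ∈ antidiagonal n, g z.1 * r z.2) :=
    (summable_norm_sum_mul_antidiagonal_of_summable_norm hng hnr).of_norm
  have hle' : ∀ n, conv x y (n + J) * f n ≤ ∑ z ∈ antidiagonal n, g z.1 * r z.2 := by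
    intro n
    rw [← conv_shift x0]
    unfold conv
    rw [sum_mul]
    refine sum_le_sum (fun z hz => ?_)
    have hz' : z.1 + z.2 = n := mem_antidiagonal.mp hz
    have := hle z.1 z.2
    rwa [hz'] at this
  have hnn : ∀ n, 0 ≤ conv x y (n + J) * f n := fun n =>
    mul_nonneg (conv_nonneg hx hy _) (hf n)
  have hs := Summable.of_nonneg_of_le hnn hle' hsc
  refine ⟨hs, ?_⟩
  rw [hprod]
  exact hs.tsum_le_tsum hle' hsc

/-- `P(A + X > n) = P(X > n) + (s_A * x)(n)` -/
theorem srv_conv (a x : ℕ → ℝ) (n : ℕ) :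
    srv (conv a x) n = srv x n + conv (srv a) x n := by
  have h1 : (1 - PowerSeries.X : PowerSeries ℝ) * PowerSeries.mk (srv (conv a x))
      = (1 - PowerSeries.X) * (PowerSeries.mk (srv x)
        + PowerSeries.mk (srv a) * PowerSeries.mk x) := by
    have h2 := ps_eq (conv a x)
    rw [mk_conv] at h2
    have h3 := ps_eq a
    have h4 := ps_eq x
    have h5 : (1 - PowerSeries.X : PowerSeries ℝ) * PowerSeries.mk (srv (conv a x))
        = 1 - PowerSeries.mk a * PowerSeries.mk x := by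
      rw [h2]; ring
    have h6 : (1 - PowerSeries.X : PowerSeries ℝ) * PowerSeries.mk (srv x)
        = 1 - PowerSeries.mk x := by
      rw [h4]; ring
    have h7 : (1 - PowerSeries.X : PowerSeries ℝ) * PowerSeries.mk (srv a)
        = 1 - PowerSeries.mk a := by
      rw [h3]; ring
    rw [h5, mul_add, ← mul_assoc, h7, h6]; ring
  have hne : (1 - PowerSeries.X : PowerSeries ℝ) ≠ 0 := by
    intro h
    have := congrArg (PowerSeries.coeff 0) h
    simp at this
  have h4 := mul_left_cancel₀ hne h1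
  have := congrArg (PowerSeries.coeff n) h4
  simpa [coeff_ps_mul] using this

/-- `∑ κ_k W_k(a, x; b) = Gs x b - Gs (a * x) b` -/
theorem Om_eq_gen {K : Finset ℕ} {kap a x b : ℕ → ℝ} (ha : IsProb a) (hx : IsProb x)
    (hb : IsProb b) (ra : Ren K kap a) :
    ∑ k ∈ K, kap k * Wk a x b k = Gs x b - Gs (conv a x) b := by
  have hax := ha.conv hx
  have h1 : HasSum (fun n => b n * (srv (conv a x) n + tl (conv a x) n)
      - b n * (srv x n + tl x n)) ((1 - Gs (conv a x) b) - (1 - Gs x b)) :=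
    (hasSum_one_sub hax hb).sub (hasSum_one_sub hx hb)
  have h2 : HasSum (fun n => ∑ k ∈ K, kap k * (b n * (conv a x (n + k) + conv a x (n + k - 1))))
      (∑ k ∈ K, kap k * Wk a x b k) :=
    hasSum_sum (fun k _ => (hasSum_W ha hx hb k).mul_left (kap k))
  have h3 : (fun n => b n * (srv (conv a x) n + tl (conv a x) n) - b n * (srv x n + tl x n))
      = (fun n => ∑ k ∈ K, kap k * (b n * (conv a x (n + k) + conv a x (n + k - 1)))) := by
    funext n
    rcases Nat.eq_zero_or_pos n with hn | hn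
    · subst hn
      simp [hb.zero]
    · have e1 := srv_conv a x n
      have e2 := srv_conv a x (n - 1)
      rw [ra.conv_srv] at e1 e2
      have e3 : ∀ k ∈ K, kap k * (b n * (conv a x (n + k) + conv a x (n + k - 1)))
          = b n * (kap k * conv a x (n + k)) + b n * (kap k * conv a x (n - 1 + k)) := by
        intro k hk
        rw [show n - 1 + k = n + k - 1 by omega]; ring
      rw [sum_congr rfl e3, sum_add_distrib, ← mul_sum, ← mul_sum, tl_eq_srv hn, tl_eq_srv hn]
      linear_combination b n * e1 + b n * e2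
  rw [h3] at h1
  have := h1.unique h2
  linarith

theorem tsum_conv_bar_le_gen {a x b : ℕ → ℝ} (ha : IsProb a) (hx : IsProb x) (hb : IsProb b)
    (h : ∀ m n, srv b (m + n) ≤ srv b m * srv b n) :
    ∑' n, conv a x n * (srv b n + tl b n)
      ≤ (∑' n, a n * (srv b n + tl b n)) * (∑' n, x n * (srv b n + tl b n)) / 2 := by
  set T : ℕ → ℝ := fun n => srv b n + tl b n with hT
  have hT0 : ∀ n, 0 ≤ T n := fun n => add_nonneg (hb.srv_nonneg n) (hb.tl_nonneg n)
  have hT2 : ∀ n, T n ≤ 2 := fun n => by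
    have := hb.srv_le_one n; have := hb.tl_le_one n; simp only [hT]; linarith
  have hsa := summable_mul_of_bdd ha hT0 hT2
  have hsx := summable_mul_of_bdd hx hT0 hT2
  have := (tsum_conv_le (x := a) (y := x) (f := T) (g := fun n => a n * T n / 2)
    (r := fun n => x n * T n) (J := 0) (fun m hm => absurd hm (Nat.not_lt_zero m)) ha.nonneg
    hx.nonneg hT0 (fun i => div_nonneg (mul_nonneg (ha.nonneg i) (hT0 i)) two_pos.le)
    (fun i => mul_nonneg (hx.nonneg i) (hT0 i)) (hsa.div_const 2) hsx (fun i l => by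
      have h1 := NBU_bar hb h i l
      have h2 : 0 ≤ a i * x l := mul_nonneg (ha.nonneg _) (hx.nonneg _)
      calc a (i + 0) * x l * T (i + l) = a i * x l * T (i + l) := by rw [add_zero]
        _ ≤ a i * x l * (T i * T l / 2) := mul_le_mul_of_nonneg_left h1 h2
        _ = _ := by ring)).2
  simp only [add_zero] at this
  refine this.trans (le_of_eq ?_)
  rw [tsum_div_const]; ring

namespace EqPair

variable {a b : ℕ → ℝ} {L : ℕ} {P h : ℝ}

theorem sum_e_srv (E : EqPair a b L P h) {J : ℕ} (hJ : J ≤ L) :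
    Summable (fun n => conv a b (n + J) * srv a n) ∧
      ∑' n, conv a b (n + J) * srv a n ≤ (1 / (1 - h)) ^ J / 4 := by
  have hθ := E.theta_pos
  have hs : Summable (fun n => a n * srv a n) := E.ha.summable_mul_srv E.ha
  have hs' : Summable (fun n => a (n + J) * srv a (n + J)) :=
    (summable_nat_add_iff (f := fun n => a n * srv a n) J).mpr hs
  have hsh : ∑' n, a (n + J) * srv a (n + J) = ∑' n, a n * srv a n :=
    (tsum_shift_eq hs (L := J) (fun j hj => by rw [E.a0 j (by omega)]; ring)).symm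
  obtain ⟨h1, h2⟩ := tsum_conv_le (x := a) (y := b) (f := srv a)
    (g := fun i => (1 / (1 - h)) ^ J * (a (i + J) * srv a (i + J)))
    (r := fun l => b l * srv a l) (J := J) (fun m hm => E.a0 m (by omega)) E.ha.nonneg E.hb.nonneg
    E.ha.srv_nonneg
    (fun i => mul_nonneg (by positivity) (mul_nonneg (E.ha.nonneg _) (E.ha.srv_nonneg _)))
    (fun i => mul_nonneg (E.hb.nonneg _) (E.ha.srv_nonneg _)) (hs'.mul_left _)
    (E.hb.summable_mul_srv E.ha) (fun i l => by
      have e1 := E.nbuA i l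
      have e2 := E.haz_iter (i + J) J
      rw [Nat.add_sub_cancel] at e2
      have e3 : 0 ≤ a (i + J) * b l := mul_nonneg (E.ha.nonneg _) (E.hb.nonneg _)
      have e4 := E.ha.srv_nonneg l
      calc a (i + J) * b l * srv a (i + l)
          ≤ a (i + J) * b l * ((1 / (1 - h)) ^ J * srv a (i + J) * srv a l) :=
            mul_le_mul_of_nonneg_left (e1.trans (mul_le_mul_of_nonneg_right e2 e4)) e3
        _ = _ := by ring)
  refine ⟨h1, h2.trans ?_⟩
  rw [tsum_mul_left, hsh]
  have h3 := E.sum_self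
  have h4 := E.sum_cross
  have h5 : 0 ≤ ∑' n, a n * srv a n :=
    tsum_nonneg (fun n => mul_nonneg (E.ha.nonneg _) (E.ha.srv_nonneg _))
  have h6 : 0 ≤ ∑' n, b n * srv a n :=
    tsum_nonneg (fun n => mul_nonneg (E.hb.nonneg _) (E.ha.srv_nonneg _))
  have h7 : (∑' n, a n * srv a n) * ∑' n, b n * srv a n ≤ 1 / 2 * (1 / 2) :=
    mul_le_mul h3 h4 h6 (by norm_num)
  calc _ = (1 / (1 - h)) ^ J * ((∑' n, a n * srv a n) * ∑' n, b n * srv a n) := by ring
    _ ≤ (1 / (1 - h)) ^ J * (1 / 2 * (1 / 2)) := mul_le_mul_of_nonneg_left h7 (by positivity)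
    _ = _ := by ring

theorem sum_e_srvB (E : EqPair a b L P h) {J : ℕ} (hJ : J ≤ L) :
    Summable (fun n => conv a b (n + J) * srv b n) ∧
      ∑' n, conv a b (n + J) * srv b n ≤ (1 / (1 - h)) ^ J / 4 := by
  have := E.symm.sum_e_srv hJ
  rwa [conv_comm b a] at this

theorem sum_e (E : EqPair a b L P h) (J : ℕ) :
    Summable (fun n => conv a b (n + J) * 1) ∧ ∑' n, conv a b (n + J) * 1 ≤ 1 := by
  have hc := E.ha.conv E.hb
  simp only [mul_one]
  refine ⟨(summable_nat_add_iff J).mpr hc.summable, ?_⟩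
  have h1 := hc.summable.sum_add_tsum_nat_add J
  have h2 : 0 ≤ ∑ i ∈ range J, conv a b i := sum_nonneg (fun i _ => hc.nonneg i)
  rw [hc.tsum] at h1
  linarith

/-- the variation of the convolution -/
noncomputable def V (a b : ℕ → ℝ) (m : ℕ) : ℝ := conv (fun i => |a (i + 1) - a i|) b m

theorem V_nonneg (E : EqPair a b L P h) (m : ℕ) : 0 ≤ V a b m :=
  conv_nonneg (fun _ => abs_nonneg _) E.hb.nonneg m

theorem V_sum (E : EqPair a b L P h) {i : ℕ} (hi : i + 1 ≤ L) {f : ℕ → ℝ} (f0 : ∀ n, 0 ≤ f n)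
    (f1 : ∀ n, f n ≤ 1) (fanti : Antitone f) {c : ℝ} (hc : ∑' l, b l * f l ≤ c) :
    Summable (fun n => V a b (n + i) * f n) ∧ ∑' n, V a b (n + i) * f n ≤ 2 * P * c := by
  have hx0 : ∀ m < i, |a (m + 1) - a m| = 0 := by
    intro m hm
    rw [E.a0 (m + 1) (by omega), E.a0 m (by omega)]; simp
  have hs := E.summable_step
  have hs' : Summable (fun n => |a (n + i + 1) - a (n + i)|) :=
    (summable_nat_add_iff (f := fun n => |a (n + 1) - a n|) i).mpr hs
  have hsh : ∑' n, |a (n + i + 1) - a (n + i)| = 2 * P := by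
    rw [← E.tsum_step]
    exact (tsum_shift_eq hs hx0).symm
  have hsb := summable_mul_of_bdd E.hb f0 f1
  obtain ⟨h1, h2⟩ := tsum_conv_le (x := fun i => |a (i + 1) - a i|) (y := b) (f := f)
    (g := fun j => |a (j + i + 1) - a (j + i)|) (r := fun l => b l * f l) (J := i) hx0
    (fun _ => abs_nonneg _) E.hb.nonneg f0 (fun _ => abs_nonneg _)
    (fun l => mul_nonneg (E.hb.nonneg l) (f0 l)) hs' hsb (fun j l => by
      have e1 : f (j + l) ≤ f l := fanti (by omega)
      have e2 : 0 ≤ |a (j + i + 1) - a (j + i)| * b l := mul_nonneg (abs_nonneg _) (E.hb.nonneg _)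
      calc _ ≤ |a (j + i + 1) - a (j + i)| * b l * f l := mul_le_mul_of_nonneg_left e1 e2
        _ = _ := by ring)
  refine ⟨h1, h2.trans ?_⟩
  rw [hsh]
  exact mul_le_mul_of_nonneg_left hc (by have := E.P_nonneg; linarith)

theorem abs_conv_sub_le (E : EqPair a b L P h) (n : ℕ) {l J : ℕ} (hlJ : l ≤ J) :
    |conv a b (n + J) - conv a b (n + l)| ≤ ∑ i ∈ Ico l J, V a b (n + i) := by
  induction J, hlJ using Nat.le_induction with
  | base => simp
  | succ J hlJ ih =>
    rw [sum_Ico_succ_top hlJ]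
    have e1 : conv a b (n + (J + 1)) - conv a b (n + l)
        = (conv a b (n + J) - conv a b (n + l)) + (conv a b (n + J + 1) - conv a b (n + J)) := by
      rw [show n + (J + 1) = n + J + 1 by omega]; ring
    rw [e1]
    refine (abs_add_le _ _).trans (add_le_add ih ?_)
    rw [E.conv_step]
    unfold V conv
    refine (abs_sum_le_sum_abs _ _).trans (sum_le_sum (fun x _ => ?_))
    rw [abs_mul, abs_of_nonneg (E.hb.nonneg _)]

/-! ## the weights -/

theorem w_mono (E : EqPair a b L P h) {j k : ℕ} (hj : 1 ≤ j) (hjk : j ≤ k) (hk : k ≤ L) :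
    Wk a b b j ≤ Wk a b b k :=
  Wk_mono E.ha E.hb E.a0 E.b0 E.banti hj hjk hk

theorem w_step (E : EqPair a b L P h) {k : ℕ} (hk : 1 ≤ k) (hkL : k + 1 ≤ L) :
    Wk a b b (k + 1) - Wk a b b k ≤ P ^ 2 * (1 / (1 - h)) ^ (k + 1) := by
  have hP0 := E.P_nonneg
  have hθ := E.theta_pos
  rw [Wk_eq_slotF E.ha E.hb E.hb (by omega) (fun i hi => E.a0 i (by omega)),
    Wk_eq_slotF E.ha E.hb E.hb hk (fun i hi => E.a0 i (by omega))]
  have hs1 := summable_mul_of_bdd E.ha (slotF_nonneg E.hb E.hb (k + 1)) (slotF_le_two E.hb E.hb _)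
  have hs2 := summable_mul_of_bdd E.ha (slotF_nonneg E.hb E.hb k) (slotF_le_two E.hb E.hb _)
  rw [← hs1.tsum_sub hs2]
  have hsb := (E.ha.summable_mul_srv E.hb).mul_left (2 * P ^ 2 * (1 / (1 - h)) ^ (k + 1))
  have h1 : ∑' n, (a n * slotF b b (k + 1) n - a n * slotF b b k n)
      ≤ ∑' n, 2 * P ^ 2 * (1 / (1 - h)) ^ (k + 1) * (a n * srv b n) := by
    refine (hs1.sub hs2).tsum_le_tsum (fun n => ?_) hsb
    rcases lt_or_ge n L with hn | hn
    · rw [E.a0 n hn]; simp
    · obtain ⟨m, rfl⟩ : ∃ m, n = m + (k + 1) := ⟨n - (k + 1), by omega⟩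
      have e1 := lg_sub_le E.hb E.hb E.b0 E.banti E.b_le m
      have e2 := lg_sub_le E.hb E.hb E.b0 E.banti E.b_le (m + 1)
      have e3 := E.topB m
      have e4 := E.topB (m + 1)
      have e5 : srv b (m + 1) ≤ srv b m := E.symm.srv_anti (by omega)
      have e6 := E.symm.haz_iter (m + (k + 1)) (k + 1)
      rw [Nat.add_sub_cancel] at e6
      rw [add_comm m L] at e3
      rw [add_comm (m + 1) L] at e4
      have e7 : slotF b b (k + 1) (m + (k + 1)) - slotF b b k (m + (k + 1))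
          = (lg b b m - lg b b (m + 1)) + (lg b b (m + 1) - lg b b (m + 1 + 1)) := by
        unfold slotF
        rw [show m + (k + 1) - (k + 1) = m by omega, show m + (k + 1) - (k + 1 - 1) = m + 1 by omega,
          show m + (k + 1) - k = m + 1 by omega, show m + (k + 1) - (k - 1) = m + 1 + 1 by omega]
        ring
      have e8 : slotF b b (k + 1) (m + (k + 1)) - slotF b b k (m + (k + 1))
          ≤ 2 * P ^ 2 * (1 / (1 - h)) ^ (k + 1) * srv b (m + (k + 1)) := by
        rw [e7]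
        calc _ ≤ P * b (L + m) + P * b (L + (m + 1)) := add_le_add e1 e2
          _ ≤ P * (P * srv b m) + P * (P * srv b m) :=
              add_le_add (mul_le_mul_of_nonneg_left e3 hP0)
                (mul_le_mul_of_nonneg_left (e4.trans (mul_le_mul_of_nonneg_left e5 hP0)) hP0)
          _ = 2 * P ^ 2 * srv b m := by ring
          _ ≤ 2 * P ^ 2 * ((1 / (1 - h)) ^ (k + 1) * srv b (m + (k + 1))) :=
              mul_le_mul_of_nonneg_left e6 (by positivity)
          _ = _ := by ring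
      calc _ = a (m + (k + 1)) * (slotF b b (k + 1) (m + (k + 1)) - slotF b b k (m + (k + 1))) := by
            ring
        _ ≤ a (m + (k + 1)) * (2 * P ^ 2 * (1 / (1 - h)) ^ (k + 1) * srv b (m + (k + 1))) :=
            mul_le_mul_of_nonneg_left e8 (E.ha.nonneg _)
        _ = _ := by ring
  refine h1.trans ?_
  rw [tsum_mul_left]
  calc _ ≤ 2 * P ^ 2 * (1 / (1 - h)) ^ (k + 1) * (1 / 2) :=
        mul_le_mul_of_nonneg_left E.symm.sum_cross (by positivity)
    _ = _ := by ring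

theorem w_sub_le (E : EqPair a b L P h) {k J : ℕ} (hk : 1 ≤ k) (hkJ : k ≤ J) (hJ : J ≤ L) :
    Wk a b b J - Wk a b b k ≤ ((J - k : ℕ) : ℝ) * (P ^ 2 * (1 / (1 - h)) ^ J) := by
  induction J, hkJ using Nat.le_induction with
  | base => simp
  | succ J hkJ ih =>
    have h1 := ih (by omega)
    have h2 := E.w_step (k := J) (by omega) hJ
    have hθ := E.one_le_theta
    have h3 : (1 / (1 - h)) ^ J ≤ (1 / (1 - h)) ^ (J + 1) := pow_le_pow_right₀ hθ (by omega)
    have h4 : ((J - k : ℕ) : ℝ) * (P ^ 2 * (1 / (1 - h)) ^ J)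
        ≤ ((J - k : ℕ) : ℝ) * (P ^ 2 * (1 / (1 - h)) ^ (J + 1)) :=
      mul_le_mul_of_nonneg_left (mul_le_mul_of_nonneg_left h3 (by positivity)) (by positivity)
    rw [show J + 1 - k = (J - k) + 1 by omega]
    push_cast
    linarith

theorem w_nonneg (E : EqPair a b L P h) (k : ℕ) : 0 ≤ Wk a b b k :=
  Wk_nonneg E.ha E.hb E.hb k

/-- lower bound for the top weight -/
theorem half_le (E : EqPair a b L P h) {K : Finset ℕ} {kap : ℕ → ℝ} (ra : Ren K kap a) :
    1 / 2 ≤ ∑ k ∈ K, kap k * Wk a b b k := by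
  have hc := E.ha.conv E.hb
  rw [Om_eq_gen E.ha E.hb E.hb ra, Gs_self, Gs_antisymm (conv a b) b]
  have h1 := one_sub_Gs E.hb hc
  have h2 := tsum_conv_bar_le_gen E.ha E.hb E.hb E.nbuB
  have h3 := one_sub_Gs E.hb E.ha
  have h4 := one_sub_Gs E.hb E.hb
  rw [Gs_antisymm b a, E.tie] at h3
  rw [Gs_self] at h4
  rw [← h1, ← h3, ← h4] at h2
  linarith

theorem half_le_top (E : EqPair a b L P h) {K : Finset ℕ} {kap : ℕ → ℝ} (ra : Ren K kap a)
    (hk0 : ∀ k ∈ K, 0 ≤ kap k) (hK : ∀ k ∈ K, k ≤ L) :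
    1 / 2 ≤ (∑ k ∈ K, kap k) * Wk a b b L := by
  refine (E.half_le ra).trans ?_
  rw [sum_mul]
  exact sum_le_sum (fun k hk => mul_le_mul_of_nonneg_left
    (E.w_mono (ra.pos k hk) (hK k hk) le_rfl) (hk0 k hk))

theorem abs_conv_sub_le' (E : EqPair a b L P h) (n l r : ℕ) :
    |conv a b (n + r) - conv a b (n + l)| ≤ ∑ i ∈ Ico (min l r) (max l r), V a b (n + i) := by
  rcases le_total l r with hl | hl
  · rw [min_eq_left hl, max_eq_right hl]
    exact E.abs_conv_sub_le n hl
  · rw [min_eq_right hl, max_eq_left hl, abs_sub_comm]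
    exact E.abs_conv_sub_le n hl

theorem abs_w_sub_le (E : EqPair a b L P h) {k r J : ℕ} (hk : 1 ≤ k) (hr : 1 ≤ r) (hkJ : k ≤ J)
    (hrJ : r ≤ J) (hJ : J ≤ L) :
    |Wk a b b r - Wk a b b k| ≤ |(k : ℝ) - r| * (P ^ 2 * (1 / (1 - h)) ^ J) := by
  have hθ := E.one_le_theta
  have key : ∀ k r : ℕ, 1 ≤ k → k ≤ r → r ≤ J →
      |Wk a b b r - Wk a b b k| ≤ |(k : ℝ) - r| * (P ^ 2 * (1 / (1 - h)) ^ J) := by
    intro k r hk hkr hr
    have h1 := E.w_sub_le hk hkr (hr.trans hJ)
    have h2 := E.w_mono hk hkr (hr.trans hJ)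
    have h3 : (1 / (1 - h)) ^ r ≤ (1 / (1 - h)) ^ J := pow_le_pow_right₀ hθ hr
    have h4 : |(k : ℝ) - r| = ((r - k : ℕ) : ℝ) := by
      rw [Nat.cast_sub hkr, abs_sub_comm, abs_of_nonneg]
      have : (k : ℝ) ≤ r := by exact_mod_cast hkr
      linarith
    rw [abs_of_nonneg (by linarith), h4]
    refine h1.trans ?_
    exact mul_le_mul_of_nonneg_left (mul_le_mul_of_nonneg_left h3 (by positivity)) (by positivity)
  rcases le_total k r with h | h
  · exact key k r hk h hrJ
  · rw [abs_sub_comm, abs_sub_comm (k : ℝ)]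
    exact key r k hr h hkJ

end EqPair

/-! ## the difference of the survival functions -/

/-- the difference of the survival functions is a signed combination of shifts of the convolution,
and the corresponding combination of the weights vanishes (tie); `r` is a reference size -/
structure EqDiff {ι : Type*} (a b : ℕ → ℝ) (L : ℕ) (S : Finset ι) (c : ι → ℝ) (l : ι → ℕ)
    (r J : ℕ) : Prop where
  pos : ∀ z ∈ S, 1 ≤ l z
  le : ∀ z ∈ S, l z ≤ J
  one : 1 ≤ r
  rJ : r ≤ J
  JL : J ≤ L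
  dif : ∀ n, srv a n - srv b n = ∑ z ∈ S, c z * conv a b (n + l z)
  tie : ∑ z ∈ S, c z * Wk a b b (l z) = 0

namespace EqDiff

variable {ι : Type*} {a b : ℕ → ℝ} {L : ℕ} {P h : ℝ} {S : Finset ι} {c : ι → ℝ} {l : ι → ℕ}
  {r J : ℕ}

/-- the spread around the reference size `r` -/
def spread (S : Finset ι) (c : ι → ℝ) (l : ι → ℕ) (r : ℕ) : ℝ :=
  ∑ z ∈ S, |c z| * |(l z : ℝ) - r|

theorem spread_nonneg (S : Finset ι) (c : ι → ℝ) (l : ι → ℕ) (r : ℕ) : 0 ≤ spread S c l r :=
  sum_nonneg (fun _ _ => mul_nonneg (abs_nonneg _) (abs_nonneg _))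

theorem D_le (Q : EqDiff a b L S c l r J) (E : EqPair a b L P h) (n : ℕ) :
    |srv a n - srv b n| ≤ |∑ z ∈ S, c z| * conv a b (n + r)
      + ∑ z ∈ S, |c z| * ∑ i ∈ Ico (min (l z) r) (max (l z) r), EqPair.V a b (n + i) := by
  have hc := (E.ha.conv E.hb).nonneg (n + r)
  have e1 : srv a n - srv b n = (∑ z ∈ S, c z) * conv a b (n + r)
      - ∑ z ∈ S, c z * (conv a b (n + r) - conv a b (n + l z)) := by
    rw [Q.dif, sum_mul, ← sum_sub_distrib]
    exact sum_congr rfl (fun z _ => by ring)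
  rw [e1]
  refine (abs_sub _ _).trans (add_le_add ?_ ?_)
  · rw [abs_mul, abs_of_nonneg hc]
  · refine (abs_sum_le_sum_abs _ _).trans (sum_le_sum (fun z hz => ?_))
    rw [abs_mul]
    exact mul_le_mul_of_nonneg_left (E.abs_conv_sub_le' n (l z) r) (abs_nonneg _)

/-- the tie bounds the total mass of the combination -/
theorem mass_le (Q : EqDiff a b L S c l r J) (E : EqPair a b L P h) :
    |∑ z ∈ S, c z| * Wk a b b r ≤ spread S c l r * (P ^ 2 * (1 / (1 - h)) ^ J) := by
  have hw := E.w_nonneg r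
  have e1 : (∑ z ∈ S, c z) * Wk a b b r = ∑ z ∈ S, c z * (Wk a b b r - Wk a b b (l z)) := by
    have := Q.tie
    rw [sum_mul]
    calc ∑ z ∈ S, c z * Wk a b b r = ∑ z ∈ S, c z * Wk a b b r
          - ∑ z ∈ S, c z * Wk a b b (l z) := by rw [this]; ring
      _ = _ := by
        rw [← sum_sub_distrib]
        exact sum_congr rfl (fun z _ => by ring)
  have e2 : |∑ z ∈ S, c z| * Wk a b b r = |(∑ z ∈ S, c z) * Wk a b b r| := by
    rw [abs_mul, abs_of_nonneg hw]
  rw [e2, e1]
  unfold spread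
  rw [sum_mul]
  refine (abs_sum_le_sum_abs _ _).trans (sum_le_sum (fun z hz => ?_))
  rw [abs_mul, mul_assoc]
  exact mul_le_mul_of_nonneg_left
    (E.abs_w_sub_le (Q.pos z hz) Q.one (Q.le z hz) Q.rJ Q.JL) (abs_nonneg _)

/-- general bound for the sums of the difference -/
theorem sum_D_le (Q : EqDiff a b L S c l r J) (E : EqPair a b L P h) {f : ℕ → ℝ}
    (f0 : ∀ n, 0 ≤ f n) (f1 : ∀ n, f n ≤ 1) (fanti : Antitone f) {C R : ℝ}
    (hC : ∑' j, b j * f j ≤ C) (hs : Summable (fun n => conv a b (n + r) * f n))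
    (hR : ∑' n, conv a b (n + r) * f n ≤ R) {rel : ℝ}
    (hrel : |∑ z ∈ S, c z| ≤ spread S c l r * rel) (hR0 : 0 ≤ R) :
    ∑' n, |srv a n - srv b n| * f n ≤ spread S c l r * (2 * P * C + rel * R) := by
  have hJL := Q.JL
  have hrJ := Q.rJ
  have hi : ∀ z ∈ S, ∀ i ∈ Ico (min (l z) r) (max (l z) r), i + 1 ≤ L := by
    intro z hz i hi
    have h1 := (mem_Ico.mp hi).2
    have h2 := Q.le z hz
    have h3 : max (l z) r ≤ J := max_le h2 hrJ
    omega
  have hV : ∀ z ∈ S, ∀ i ∈ Ico (min (l z) r) (max (l z) r),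
      Summable (fun n => EqPair.V a b (n + i) * f n) :=
    fun z hz i hi' => (E.V_sum (i := i) (hi z hz i hi') f0 f1 fanti hC).1
  have hV2 : ∀ z ∈ S, ∀ i ∈ Ico (min (l z) r) (max (l z) r),
      ∑' n, EqPair.V a b (n + i) * f n ≤ 2 * P * C :=
    fun z hz i hi' => (E.V_sum (i := i) (hi z hz i hi') f0 f1 fanti hC).2
  have hbig : Summable (fun n => |∑ z ∈ S, c z| * (conv a b (n + r) * f n)
      + ∑ z ∈ S, |c z| * ∑ i ∈ Ico (min (l z) r) (max (l z) r), EqPair.V a b (n + i) * f n) :=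
    (hs.mul_left _).add (summable_sum (fun z hz =>
      (summable_sum (fun i hi => hV z hz i hi)).mul_left _))
  have hle : ∀ n, |srv a n - srv b n| * f n ≤ |∑ z ∈ S, c z| * (conv a b (n + r) * f n)
      + ∑ z ∈ S, |c z| * ∑ i ∈ Ico (min (l z) r) (max (l z) r), EqPair.V a b (n + i) * f n := by
    intro n
    have e := mul_le_mul_of_nonneg_right (Q.D_le E n) (f0 n)
    refine e.trans (le_of_eq ?_)
    rw [add_mul, sum_mul, mul_assoc]
    congr 1
    refine sum_congr rfl (fun z _ => ?_)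
    rw [mul_assoc, sum_mul]
  have h1 := (E.summable_D_mul f0 f1).tsum_le_tsum hle hbig
  refine h1.trans ?_
  rw [(hs.mul_left _).tsum_add (summable_sum (fun z hz =>
      (summable_sum (fun i hi => hV z hz i hi)).mul_left _)), tsum_mul_left]
  have h2 : ∑' n, ∑ z ∈ S, |c z| * ∑ i ∈ Ico (min (l z) r) (max (l z) r), EqPair.V a b (n + i) * f n
      = ∑ z ∈ S, |c z| * ∑ i ∈ Ico (min (l z) r) (max (l z) r),
        ∑' n, EqPair.V a b (n + i) * f n := by
    rw [Summable.tsum_finsetSum (fun z hz => (summable_sum (fun i hi => hV z hz i hi)).mul_left _)]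
    refine sum_congr rfl (fun z hz => ?_)
    rw [tsum_mul_left, Summable.tsum_finsetSum (fun i hi => hV z hz i hi)]
  rw [h2]
  have h3 : ∑ z ∈ S, |c z| * ∑ i ∈ Ico (min (l z) r) (max (l z) r),
      ∑' n, EqPair.V a b (n + i) * f n ≤ spread S c l r * (2 * P * C) := by
    unfold spread
    rw [sum_mul]
    refine sum_le_sum (fun z hz => ?_)
    rw [mul_assoc]
    refine mul_le_mul_of_nonneg_left ?_ (abs_nonneg _)
    have hcard : ((Ico (min (l z) r) (max (l z) r)).card : ℝ) = |(l z : ℝ) - r| := by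
      rw [Nat.card_Ico]
      rcases le_total (l z) r with hl | hl
      · rw [min_eq_left hl, max_eq_right hl, Nat.cast_sub hl, abs_sub_comm, abs_of_nonneg]
        have : (l z : ℝ) ≤ r := by exact_mod_cast hl
        linarith
      · rw [min_eq_right hl, max_eq_left hl, Nat.cast_sub hl, abs_of_nonneg]
        have : (r : ℝ) ≤ l z := by exact_mod_cast hl
        linarith
    calc _ ≤ ∑ i ∈ Ico (min (l z) r) (max (l z) r), 2 * P * C :=
          sum_le_sum (fun i hi => hV2 z hz i hi)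
      _ = _ := by rw [sum_const, nsmul_eq_mul, hcard]
  have h4 : |∑ z ∈ S, c z| * ∑' n, conv a b (n + r) * f n ≤ spread S c l r * rel * R := by
    have h5 : |∑ z ∈ S, c z| * ∑' n, conv a b (n + r) * f n ≤ |∑ z ∈ S, c z| * R :=
      mul_le_mul_of_nonneg_left hR (abs_nonneg _)
    exact h5.trans (mul_le_mul_of_nonneg_right hrel hR0)
  calc _ ≤ spread S c l r * rel * R + spread S c l r * (2 * P * C) := add_le_add h4 h3
    _ = _ := by ring

theorem sum_D_srv_le (Q : EqDiff a b L S c l r J) (E : EqPair a b L P h) {rel : ℝ}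
    (hrel : |∑ z ∈ S, c z| ≤ spread S c l r * rel) :
    ∑' n, |srv a n - srv b n| * srv a n
      ≤ spread S c l r * (P + rel * ((1 / (1 - h)) ^ r / 4)) := by
  have hJL := Q.JL
  have hrJ := Q.rJ
  have hθ := E.theta_pos
  have := Q.sum_D_le E E.ha.srv_nonneg E.ha.srv_le_one E.srv_anti (C := 1 / 2) E.sum_cross
    (E.sum_e_srv (by omega : r ≤ L)).1 (E.sum_e_srv (by omega : r ≤ L)).2 hrel (by positivity)
  refine this.trans (le_of_eq ?_)
  ring

theorem sum_D_srvB_le (Q : EqDiff a b L S c l r J) (E : EqPair a b L P h) {rel : ℝ}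
    (hrel : |∑ z ∈ S, c z| ≤ spread S c l r * rel) :
    ∑' n, |srv a n - srv b n| * srv b n
      ≤ spread S c l r * (P + rel * ((1 / (1 - h)) ^ r / 4)) := by
  have hJL := Q.JL
  have hrJ := Q.rJ
  have hθ := E.theta_pos
  have := Q.sum_D_le E E.hb.srv_nonneg E.hb.srv_le_one E.symm.srv_anti (C := 1 / 2)
    E.symm.sum_self (E.sum_e_srvB (by omega : r ≤ L)).1 (E.sum_e_srvB (by omega : r ≤ L)).2 hrel
    (by positivity)
  refine this.trans (le_of_eq ?_)
  ring

theorem sum_D_one_le (Q : EqDiff a b L S c l r J) (E : EqPair a b L P h) {rel : ℝ}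
    (hrel : |∑ z ∈ S, c z| ≤ spread S c l r * rel) :
    ∑' n, |srv a n - srv b n| ≤ spread S c l r * (2 * P + rel) := by
  have := Q.sum_D_le E (f := fun _ => 1) (fun _ => zero_le_one) (fun _ => le_rfl)
    (fun _ _ _ => le_rfl) (C := 1) (by simp [E.hb.tsum]) (E.sum_e r).1 (E.sum_e r).2 hrel
    zero_le_one
  simp only [mul_one] at this
  exact this

end EqDiff

end Coin
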