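import Pool.Agent.Lib.Coin.Eq3

/-!
# Coin race: two laws with the same length and the same `P` at a tie (M5c), part 4:
the third slot through the autocorrelation, and the total error
-/

namespace Coin

open Finset

/-- two sided autocorrelation -/
noncomputable def acz (e : ℕ → ℝ) (m : ℤ) : ℝ := lg e e m.natAbs

theorem acz_neg (e : ℕ → ℝ) (m : ℤ) : acz e (-m) = acz e m := by
  unfold acz; rw [Int.natAbs_neg]

theorem tsum_shift_mul {e : ℕ → ℝ} (he : IsProb e) {l j : ℕ} (h0 : ∀ m < min l j, e m = 0) :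
    ∑' n, e (n + l) * e (n + j) = acz e ((j : ℤ) - l) := by
  have key : ∀ l j : ℕ, l ≤ j → (∀ m < l, e m = 0) →
      ∑' n, e (n + l) * e (n + j) = lg e e (j - l) := by
    intro l j hlj hz
    unfold lg
    rw [tsum_shift_eq (summable_lg he he (j - l)) (L := l) (fun m hm => by rw [hz m hm, zero_mul])]
    refine tsum_congr (fun n => ?_)
    rw [show n + l + (j - l) = n + j by omega]
  rcases le_total l j with h | h
  · rw [min_eq_left h] at h0
    rw [key l j h h0]
    unfold acz
    congr 1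
    omega
  · rw [min_eq_right h] at h0
    have e1 : ∑' n, e (n + l) * e (n + j) = ∑' n, e (n + j) * e (n + l) :=
      tsum_congr (fun n => mul_comm _ _)
    rw [e1, key j l h h0]
    unfold acz
    congr 1
    omega

theorem summable_shift_mul {e : ℕ → ℝ} (he : IsProb e) (l j : ℕ) :
    Summable (fun n => e (n + l) * e (n + j)) :=
  Summable.of_nonneg_of_le (fun n => mul_nonneg (he.nonneg _) (he.nonneg _))
    (fun n => mul_le_of_le_one_right (he.nonneg _) (he.le_one _))
    ((summable_nat_add_iff l).mpr he.summable)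

/-- second differences of the autocorrelation -/
theorem acz_second {e : ℕ → ℝ} (he : IsProb e) {v s : ℝ}
    (hv : ∀ n, |e (n + 1) - e n| ≤ s) (hsum : Summable (fun n => |e (n + 1) - e n|))
    (htot : ∑' n, |e (n + 1) - e n| ≤ v) (m : ℤ) :
    |acz e (m + 1) - 2 * acz e m + acz e (m - 1)| ≤ v * s := by
  have hs0 : 0 ≤ s := (abs_nonneg _).trans (hv 0)
  have key : ∀ j : ℕ, |acz e ((j : ℤ) + 1) - 2 * acz e j + acz e ((j : ℤ) - 1)| ≤ v * s := by
    intro j
    have h00 := summable_shift_mul he 0 j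
    have h11 := summable_shift_mul he 1 (j + 1)
    have h10 := summable_shift_mul he 1 j
    have h01 := summable_shift_mul he 0 (j + 1)
    have z0 : ∀ m < 0, e m = 0 := fun m hm => absurd hm (Nat.not_lt_zero m)
    have z1 : ∀ m < 1, e m = 0 := fun m hm => by
      have : m = 0 := by omega
      rw [this]; exact he.zero
    have c00 := tsum_shift_mul he (l := 0) (j := j) (by rw [Nat.zero_min]; exact z0)
    have c11 := tsum_shift_mul he (l := 1) (j := j + 1)
      (fun m hm => z1 m (lt_of_lt_of_le hm (min_le_left _ _)))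
    have c10 := tsum_shift_mul he (l := 1) (j := j)
      (fun m hm => z1 m (lt_of_lt_of_le hm (min_le_left _ _)))
    have c01 := tsum_shift_mul he (l := 0) (j := j + 1) (by rw [Nat.zero_min]; exact z0)
    have e1 : ∑' n, (e (n + 1) - e n) * (e (n + j + 1) - e (n + j))
        = -(acz e ((j : ℤ) + 1) - 2 * acz e j + acz e ((j : ℤ) - 1)) := by
      have : ∀ n, (e (n + 1) - e n) * (e (n + j + 1) - e (n + j))
          = (e (n + 1) * e (n + (j + 1)) - e (n + 1) * e (n + j))
            - (e (n + 0) * e (n + (j + 1)) - e (n + 0) * e (n + j)) := by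
        intro n
        rw [show n + j + 1 = n + (j + 1) by omega, add_zero]; ring
      rw [tsum_congr this, (h11.sub h10).tsum_sub (h01.sub h00), h11.tsum_sub h10,
        h01.tsum_sub h00, c00, c11, c10, c01]
      push_cast
      have a1 : ((j : ℤ) + 1 - 1) = j := by ring
      have a2 : ((j : ℤ) + 1 - 0) = j + 1 := by ring
      have a3 : ((j : ℤ) - 0) = j := by ring
      rw [a1, a2, a3]; ring
    have hbd : ∀ n, |(e (n + 1) - e n) * (e (n + j + 1) - e (n + j))| ≤ |e (n + 1) - e n| * s :=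
      fun n => by
        rw [abs_mul]
        exact mul_le_mul_of_nonneg_left (hv _) (abs_nonneg _)
    have hss := Summable.of_nonneg_of_le (fun n => abs_nonneg _) hbd (hsum.mul_right s)
    have h1 := (abs_tsum_le_aux hss).trans (hss.tsum_le_tsum hbd (hsum.mul_right s))
    rw [e1, abs_neg, tsum_mul_right] at h1
    exact h1.trans (mul_le_mul_of_nonneg_right htot hs0)
  rcases Int.natAbs_eq m with h | h
  · rw [h]; exact key _
  · have h1 := key m.natAbs
    have a1 : acz e (m + 1) = acz e ((m.natAbs : ℤ) - 1) := by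
      rw [← acz_neg]; congr 1; omega
    have a2 : acz e m = acz e (m.natAbs : ℤ) := by
      rw [← acz_neg]; congr 1; omega
    have a3 : acz e (m - 1) = acz e ((m.natAbs : ℤ) + 1) := by
      rw [← acz_neg]; congr 1; omega
    rw [a1, a2, a3]
    have : acz e ((m.natAbs : ℤ) - 1) - 2 * acz e (m.natAbs : ℤ) + acz e ((m.natAbs : ℤ) + 1)
        = acz e ((m.natAbs : ℤ) + 1) - 2 * acz e (m.natAbs : ℤ) + acz e ((m.natAbs : ℤ) - 1) := by
      ring
    rw [this]; exact h1

/-- the test function of the third slot -/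
noncomputable def psiz (e : ℕ → ℝ) (k : ℤ) (z : ℤ) : ℝ := acz e (k + 1 - z) - acz e (k - 1 - z)

theorem psiz_self (e : ℕ → ℝ) (k : ℤ) : psiz e k k = 0 := by
  unfold psiz
  have a1 : k + 1 - k = 1 := by ring
  have a2 : k - 1 - k = -1 := by ring
  rw [a1, a2, acz_neg, sub_self]

theorem psiz_step {e : ℕ → ℝ} (he : IsProb e) {v s : ℝ}
    (hv : ∀ n, |e (n + 1) - e n| ≤ s) (hsum : Summable (fun n => |e (n + 1) - e n|))
    (htot : ∑' n, |e (n + 1) - e n| ≤ v) (k z : ℤ) :
    |psiz e k (z + 1) - psiz e k z| ≤ 2 * (v * s) := by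
  have h1 := acz_second he hv hsum htot (k - z)
  have h2 := acz_second he hv hsum htot (k - z - 1)
  have e1 : psiz e k (z + 1) - psiz e k z
      = -(acz e (k - z + 1) - 2 * acz e (k - z) + acz e (k - z - 1))
        - (acz e (k - z - 1 + 1) - 2 * acz e (k - z - 1) + acz e (k - z - 1 - 1)) := by
    unfold psiz
    have a1 : k + 1 - (z + 1) = k - z := by ring
    have a2 : k - 1 - (z + 1) = k - z - 1 - 1 := by ring
    have a3 : k + 1 - z = k - z + 1 := by ring
    have a4 : k - 1 - z = k - z - 1 := by ring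
    have a5 : k - z - 1 + 1 = k - z := by ring
    rw [a1, a2, a3, a4, a5]; ring
  rw [e1]
  refine (abs_sub _ _).trans ?_
  rw [abs_neg]
  linarith

theorem psiz_lip {e : ℕ → ℝ} (he : IsProb e) {v s : ℝ}
    (hv : ∀ n, |e (n + 1) - e n| ≤ s) (hsum : Summable (fun n => |e (n + 1) - e n|))
    (htot : ∑' n, |e (n + 1) - e n| ≤ v) (k z z' : ℤ) :
    |psiz e k z - psiz e k z'| ≤ |(z : ℝ) - z'| * (2 * (v * s)) := by
  have key : ∀ (z : ℤ) (d : ℕ), |psiz e k (z + d) - psiz e k z| ≤ d * (2 * (v * s)) := by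
    intro z d
    induction d with
    | zero => simp
    | succ d ih =>
      have h1 := psiz_step he hv hsum htot k (z + d)
      have e1 : psiz e k (z + (d + 1 : ℕ)) - psiz e k z
          = (psiz e k (z + d + 1) - psiz e k (z + d)) + (psiz e k (z + d) - psiz e k z) := by
        push_cast
        rw [← add_assoc]; ring
      rw [e1]
      refine (abs_add_le _ _).trans ?_
      push_cast
      linarith
  rcases le_total z' z with h | h
  · obtain ⟨d, hd⟩ := Int.eq_ofNat_of_zero_le (sub_nonneg.mpr h)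
    have hz : z = z' + d := by omega
    have h1 := key z' d
    rw [← hz] at h1
    have h2 : |(z : ℝ) - z'| = d := by
      rw [hz]; push_cast
      rw [add_sub_cancel_left, abs_of_nonneg (Nat.cast_nonneg _)]
    rw [h2]; exact h1
  · obtain ⟨d, hd⟩ := Int.eq_ofNat_of_zero_le (sub_nonneg.mpr h)
    have hz : z' = z + d := by omega
    have h1 := key z d
    rw [← hz] at h1
    have h2 : |(z : ℝ) - z'| = d := by
      rw [hz]; push_cast
      rw [sub_add_cancel_left, abs_neg, abs_of_nonneg (Nat.cast_nonneg _)]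
    rw [h2, abs_sub_comm]; exact h1

namespace EqPair

variable {a b : ℕ → ℝ} {L : ℕ} {P h : ℝ}

theorem conv_van (E : EqPair a b L P h) {m : ℕ} (hm : m < L) : conv a b m = 0 := by
  rw [conv_eq_range]
  refine sum_eq_zero (fun i hi => ?_)
  rw [E.a0 i (by have := mem_range.mp hi; omega), zero_mul]

theorem summable_conv_step (E : EqPair a b L P h) :
    Summable (fun n => |conv a b (n + 1) - conv a b n|) := by
  have hc := E.ha.conv E.hb
  have h1 : Summable (fun n => conv a b (n + 1)) := (summable_nat_add_iff 1).mpr hc.summable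
  exact (h1.sub hc.summable).abs

theorem tsum_conv_step (E : EqPair a b L P h) :
    ∑' n, |conv a b (n + 1) - conv a b n| ≤ 2 * P := by
  have h1 := E.V_sum (i := 0) (by have := E.Lpos; omega) (f := fun _ => 1)
    (fun _ => zero_le_one) (fun _ => le_rfl) (fun _ _ _ => le_rfl) (c := 1)
    (by simp [E.hb.tsum])
  simp only [mul_one, add_zero] at h1
  refine (E.summable_conv_step.tsum_le_tsum (fun n => ?_) h1.1).trans h1.2
  rw [E.conv_step]
  unfold V conv
  refine (abs_sum_le_sum_abs _ _).trans (sum_le_sum (fun x _ => ?_))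
  rw [abs_mul, abs_of_nonneg (E.hb.nonneg _)]

end EqPair

namespace EqDiff

variable {ι : Type*} {a b : ℕ → ℝ} {L : ℕ} {P h : ℝ} {S : Finset ι} {c : ι → ℝ} {l : ι → ℕ}
  {r J : ℕ}

/-- the third slot as a signed combination -/
theorem slotN_eq (Q : EqDiff a b L S c l r J) (E : EqPair a b L P h) {k : ℕ} (hk : 1 ≤ k)
    (hkL : k ≤ L) :
    Wk a b a k - Wk a b b k = ∑ z ∈ S, c z * psiz (conv a b) k (l z) := by
  have hc := E.ha.conv E.hb
  have hJL := Q.JL
  set F : ℕ → ℝ := fun n => conv a b (n + k) + conv a b (n + k - 1) with hF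
  have hF0 : ∀ n, 0 ≤ F n := fun n => add_nonneg (hc.nonneg _) (hc.nonneg _)
  have hF2 : ∀ n, F n ≤ 2 := fun n => by
    have := hc.le_one (n + k); have := hc.le_one (n + k - 1); simp only [hF]; linarith
  have e : Wk a b a k - Wk a b b k = ∑' n, (srv a n - srv b n) * (F (n + 1) - F n) :=
    tsum_sub_mul_eq E.ha E.hb hF0 hF2 E.sumD
  have hz : ∀ z ∈ S, HasSum (fun n => c z * (conv a b (n + l z) * conv a b (n + (k + 1))
      - conv a b (n + l z) * conv a b (n + (k - 1)))) (c z * psiz (conv a b) k (l z)) := by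
    intro z hz
    have hl := Q.le z hz
    have s1 := summable_shift_mul hc (l z) (k + 1)
    have s2 := summable_shift_mul hc (l z) (k - 1)
    have t1 := tsum_shift_mul hc (l := l z) (j := k + 1)
      (fun m hm => E.conv_van (by have := min_le_left (l z) (k + 1); omega))
    have t2 := tsum_shift_mul hc (l := l z) (j := k - 1)
      (fun m hm => E.conv_van (by have := min_le_left (l z) (k - 1); omega))
    have h1 := (s1.hasSum.sub s2.hasSum).mul_left (c z)
    rw [t1, t2] at h1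
    have a1 : (((k + 1 : ℕ) : ℤ) - (l z : ℤ)) = (k : ℤ) + 1 - l z := by push_cast; ring
    have a2 : (((k - 1 : ℕ) : ℤ) - (l z : ℤ)) = (k : ℤ) - 1 - l z := by
      rw [Nat.cast_sub hk]; push_cast; ring
    rw [a1, a2] at h1
    exact h1
  have h2 := hasSum_sum hz
  rw [e, ← h2.tsum_eq]
  refine tsum_congr (fun n => ?_)
  rw [Q.dif, sum_mul]
  refine sum_congr rfl (fun z _ => ?_)
  simp only [hF]
  rw [show n + 1 + k = n + (k + 1) by omega, show n + (k + 1) - 1 = n + k by omega,
    show n + k - 1 = n + (k - 1) by omega]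
  ring

/-- third slot, second order form -/
theorem slotN_le (Q : EqDiff a b L S c l r J) (E : EqPair a b L P h) {k : ℕ} (hk : 1 ≤ k)
    (hkL : k ≤ L) {rel : ℝ} (hrel : |∑ z ∈ S, c z| ≤ spread S c l r * rel) :
    |Wk a b a k - Wk a b b k| ≤ spread S c l r * (4 * P ^ 3 * (1 + rel * L)) := by
  have hc := E.ha.conv E.hb
  have hP0 := E.P_nonneg
  have hlip := psiz_lip hc E.conv_step_abs E.summable_conv_step E.tsum_conv_step k
  rw [Q.slotN_eq E hk hkL]
  have e1 : ∑ z ∈ S, c z * psiz (conv a b) k (l z) = (∑ z ∈ S, c z) * psiz (conv a b) k r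
      + ∑ z ∈ S, c z * (psiz (conv a b) k (l z) - psiz (conv a b) k r) := by
    rw [sum_mul, ← sum_add_distrib]
    exact sum_congr rfl (fun z _ => by ring)
  rw [e1]
  refine (abs_add_le _ _).trans ?_
  have hr : |psiz (conv a b) k r| ≤ L * (4 * P ^ 3) := by
    have h1 := hlip r k
    rw [psiz_self, sub_zero] at h1
    refine h1.trans ?_
    have h2 : |((r : ℤ) : ℝ) - ((k : ℤ) : ℝ)| ≤ L := by
      have h3 := Q.rJ
      have h4 := Q.JL
      have h5 : (r : ℝ) ≤ L := by exact_mod_cast h3.trans h4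
      have h6 : (k : ℝ) ≤ L := by exact_mod_cast hkL
      have h7 : (0 : ℝ) ≤ r := Nat.cast_nonneg r
      have h8 : (0 : ℝ) ≤ k := Nat.cast_nonneg k
      rw [abs_le]
      constructor <;> push_cast <;> linarith
    calc |((r : ℤ) : ℝ) - ((k : ℤ) : ℝ)| * (2 * (2 * P * P ^ 2))
        ≤ L * (2 * (2 * P * P ^ 2)) := mul_le_mul_of_nonneg_right h2 (by positivity)
      _ = _ := by ring
  have h1 : |(∑ z ∈ S, c z) * psiz (conv a b) k r| ≤ spread S c l r * rel * (L * (4 * P ^ 3)) := by
    rw [abs_mul]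
    exact mul_le_mul hrel hr (abs_nonneg _) ((abs_nonneg _).trans hrel)
  have h2 : |∑ z ∈ S, c z * (psiz (conv a b) k (l z) - psiz (conv a b) k r)|
      ≤ spread S c l r * (4 * P ^ 3) := by
    unfold spread
    rw [sum_mul]
    refine (abs_sum_le_sum_abs _ _).trans (sum_le_sum (fun z _ => ?_))
    rw [abs_mul, mul_assoc]
    refine mul_le_mul_of_nonneg_left ?_ (abs_nonneg _)
    have := hlip (l z) r
    push_cast at this
    refine this.trans (le_of_eq (by ring))
  calc _ ≤ spread S c l r * rel * (L * (4 * P ^ 3)) + spread S c l r * (4 * P ^ 3) :=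
        add_le_add h1 h2
    _ = _ := by ring

/-- total error of the derivative at a tie -/
theorem total (Q : EqDiff a b L S c l r J) (E : EqPair a b L P h) {KA KB : Finset ℕ}
    {gA gB : ℕ → ℝ} (hKA : ∀ k ∈ KA, 1 ≤ k ∧ k ≤ L) (hKB : ∀ k ∈ KB, 1 ≤ k ∧ k ≤ L)
    {GA GB rel : ℝ} (hGA : ∑ k ∈ KA, |gA k| ≤ GA) (hGB : ∑ k ∈ KB, |gB k| ≤ GB)
    (hrel : |∑ z ∈ S, c z| ≤ spread S c l r * rel) (hrel0 : 0 ≤ rel) :
    |((∑ k ∈ KA, gA k * Wk a a b k) - ∑ k ∈ KB, gB k * Wk b b a k)
      - ((∑ k ∈ KA, gA k * Wk a b b k) - ∑ k ∈ KB, gB k * Wk a b b k)|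
      ≤ spread S c l r * (2 * P ^ 2 * (1 / (1 - h)) ^ L * (GA + GB)
          * (P + rel * ((1 / (1 - h)) ^ r / 4)) + GB * (4 * P ^ 3 * (1 + rel * L))) := by
  have hP0 := E.P_nonneg
  have hθ := E.one_le_theta
  have hθ0 := E.theta_pos
  have hsp := spread_nonneg S c l r
  have yA := Q.sum_D_srv_le E hrel
  have yB := Q.sum_D_srvB_le E hrel
  set Y := spread S c l r * (P + rel * ((1 / (1 - h)) ^ r / 4)) with hY
  have hY0 : 0 ≤ Y := by rw [hY]; positivity
  have bA : ∀ k ∈ KA, |Wk a a b k - Wk a b b k| ≤ 2 * P ^ 2 * (1 / (1 - h)) ^ L * Y := by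
    intro k hk
    obtain ⟨h1, h2⟩ := hKA k hk
    have h3 : (1 / (1 - h)) ^ k ≤ (1 / (1 - h)) ^ L := pow_le_pow_right₀ hθ h2
    calc _ ≤ 2 * P ^ 2 * (1 / (1 - h)) ^ k * ∑' n, |srv a n - srv b n| * srv b n := E.slotA h1 h2
      _ ≤ 2 * P ^ 2 * (1 / (1 - h)) ^ k * Y := mul_le_mul_of_nonneg_left yB (by positivity)
      _ ≤ _ := by
        refine mul_le_mul_of_nonneg_right ?_ hY0
        exact mul_le_mul_of_nonneg_left h3 (by positivity)
  have bB : ∀ k ∈ KB, |Wk b b a k - Wk a b b k| ≤ 2 * P ^ 2 * (1 / (1 - h)) ^ L * Y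
      + spread S c l r * (4 * P ^ 3 * (1 + rel * L)) := by
    intro k hk
    obtain ⟨h1, h2⟩ := hKB k hk
    have h3 : (1 / (1 - h)) ^ k ≤ (1 / (1 - h)) ^ L := pow_le_pow_right₀ hθ h2
    have e1 := E.symm.slotA h1 h2
    have e3 : ∀ n, |srv b n - srv a n| = |srv a n - srv b n| := fun n => abs_sub_comm _ _
    simp only [e3] at e1
    rw [Wk_comm b a a] at e1
    have e4 : |Wk b b a k - Wk a b a k| ≤ 2 * P ^ 2 * (1 / (1 - h)) ^ L * Y :=
      calc _ ≤ 2 * P ^ 2 * (1 / (1 - h)) ^ k * ∑' n, |srv a n - srv b n| * srv a n := e1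
        _ ≤ 2 * P ^ 2 * (1 / (1 - h)) ^ k * Y := mul_le_mul_of_nonneg_left yA (by positivity)
        _ ≤ _ := by
          refine mul_le_mul_of_nonneg_right ?_ hY0
          exact mul_le_mul_of_nonneg_left h3 (by positivity)
    have e5 := Q.slotN_le E h1 h2 hrel
    have : Wk b b a k - Wk a b b k = (Wk b b a k - Wk a b a k) + (Wk a b a k - Wk a b b k) := by
      ring
    rw [this]
    exact (abs_add_le _ _).trans (add_le_add e4 e5)
  have e1 : ((∑ k ∈ KA, gA k * Wk a a b k) - ∑ k ∈ KB, gB k * Wk b b a k)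
      - ((∑ k ∈ KA, gA k * Wk a b b k) - ∑ k ∈ KB, gB k * Wk a b b k)
      = (∑ k ∈ KA, gA k * (Wk a a b k - Wk a b b k))
        - ∑ k ∈ KB, gB k * (Wk b b a k - Wk a b b k) := by
    simp only [mul_sub, sum_sub_distrib]
    ring
  rw [e1]
  refine (abs_sub _ _).trans ?_
  have f1 : |∑ k ∈ KA, gA k * (Wk a a b k - Wk a b b k)|
      ≤ GA * (2 * P ^ 2 * (1 / (1 - h)) ^ L * Y) := by
    refine (abs_sum_le_sum_abs _ _).trans ?_
    calc ∑ k ∈ KA, |gA k * (Wk a a b k - Wk a b b k)|
        ≤ ∑ k ∈ KA, |gA k| * (2 * P ^ 2 * (1 / (1 - h)) ^ L * Y) := by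
          refine sum_le_sum (fun k hk => ?_)
          rw [abs_mul]
          exact mul_le_mul_of_nonneg_left (bA k hk) (abs_nonneg _)
      _ = (∑ k ∈ KA, |gA k|) * (2 * P ^ 2 * (1 / (1 - h)) ^ L * Y) := by rw [sum_mul]
      _ ≤ _ := mul_le_mul_of_nonneg_right hGA (by positivity)
  have f2 : |∑ k ∈ KB, gB k * (Wk b b a k - Wk a b b k)|
      ≤ GB * (2 * P ^ 2 * (1 / (1 - h)) ^ L * Y
        + spread S c l r * (4 * P ^ 3 * (1 + rel * L))) := by
    refine (abs_sum_le_sum_abs _ _).trans ?_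
    calc ∑ k ∈ KB, |gB k * (Wk b b a k - Wk a b b k)|
        ≤ ∑ k ∈ KB, |gB k| * (2 * P ^ 2 * (1 / (1 - h)) ^ L * Y
          + spread S c l r * (4 * P ^ 3 * (1 + rel * L))) := by
          refine sum_le_sum (fun k hk => ?_)
          rw [abs_mul]
          exact mul_le_mul_of_nonneg_left (bB k hk) (abs_nonneg _)
      _ = (∑ k ∈ KB, |gB k|) * (2 * P ^ 2 * (1 / (1 - h)) ^ L * Y
          + spread S c l r * (4 * P ^ 3 * (1 + rel * L))) := by rw [sum_mul]
      _ ≤ _ := mul_le_mul_of_nonneg_right hGB (by positivity)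
  calc _ ≤ GA * (2 * P ^ 2 * (1 / (1 - h)) ^ L * Y)
      + GB * (2 * P ^ 2 * (1 / (1 - h)) ^ L * Y
        + spread S c l r * (4 * P ^ 3 * (1 + rel * L))) := add_le_add f1 f2
    _ = _ := by rw [hY]; ring

end EqDiff

end Coin
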