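import Pool.Agent.Lib.Coin.EqMain

/-!
# Coin race: equal contents, the content with four heads and two tails
-/

namespace Coin

open Finset

variable {p : ℝ} {A B : List Bool}

theorem p2q_le (h0 : 0 < p) (_h1 : p < 1) : p ^ 2 * (1 - p) ≤ 4 / 27 := by
  nlinarith [mul_nonneg (by linarith : (0 : ℝ) ≤ 3 * p + 1) (sq_nonneg (3 * p - 2))]

theorem P42_le (h0 : 0 < p) (h1 : p < 1) : p ^ 4 * (1 - p) ^ 2 ≤ 16 / 729 := by
  have h := p2q_le h0 h1
  have h2 : 0 ≤ p ^ 2 * (1 - p) := mul_nonneg (by positivity) (by linarith)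
  calc p ^ 4 * (1 - p) ^ 2 = (p ^ 2 * (1 - p)) * (p ^ 2 * (1 - p)) := by ring
    _ ≤ 4 / 27 * (4 / 27) := mul_le_mul h h h2 (by norm_num)
    _ = _ := by norm_num

theorem abs42_le (h0 : 0 < p) (h1 : p < 1) : p ^ 2 * (1 - p) * |4 - 6 * p| ≤ 31 / 200 := by
  have hq : 0 < 1 - p := by linarith
  rcases abs_cases (4 - 6 * p) with ⟨h, _⟩ | ⟨h, _⟩
  · rw [h]
    nlinarith [mul_nonneg (mul_pos h0 hq).le (sq_nonneg (p - 2 / 5)), sq_nonneg (p ^ 2 - 5 / 6 * p + 7 / 40),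
      sq_nonneg (p - 2 / 5), mul_pos h0 hq]
  · rw [h]
    nlinarith [mul_nonneg (mul_pos h0 hq).le (sq_nonneg (p - 7 / 8)), sq_nonneg (p ^ 2 - 5 / 6 * p),
      sq_nonneg (p - 7 / 8), mul_pos h0 hq, mul_pos (mul_pos h0 hq) h0]

theorem Pabs42_le (h0 : 0 < p) (h1 : p < 1) :
    p ^ 4 * (1 - p) ^ 2 * |4 - 6 * p| ≤ 23 / 1000 := by
  have h := p2q_le h0 h1
  have h2 := abs42_le h0 h1
  have h3 : 0 ≤ p ^ 2 * (1 - p) * |4 - 6 * p| :=
    mul_nonneg (mul_nonneg (by positivity) (by linarith)) (abs_nonneg _)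
  calc p ^ 4 * (1 - p) ^ 2 * |4 - 6 * p|
      = (p ^ 2 * (1 - p)) * (p ^ 2 * (1 - p) * |4 - 6 * p|) := by ring
    _ ≤ 4 / 27 * (31 / 200) := mul_le_mul h h2 h3 (by norm_num)
    _ ≤ _ := by norm_num

/-! ## all different borders of the same size -/

/-- a hazard bound for words with both letters -/
theorem haz_min (h0 : 0 < p) (h1 : p < 1) (ht : 1 ≤ A.count true) (hf : 1 ≤ A.count false) :
    wt p A ≤ min p (1 - p) * (1 - min p (1 - p)) ^ (A.length - 1) := by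
  have hq : 0 < 1 - p := by linarith
  have hlen := List.count_true_add_count_false A
  unfold wt
  set h := A.count true
  set t := A.count false
  rw [← hlen]
  rcases le_total p (1 - p) with hp | hp
  · rw [min_eq_left hp]
    obtain ⟨k, hk⟩ : ∃ k, h = k + 1 := ⟨h - 1, by omega⟩
    rw [hk, show k + 1 + t - 1 = k + t by omega, pow_succ, pow_add]
    have : p ^ k ≤ (1 - p) ^ k := pow_le_pow_left₀ h0.le hp k
    calc p ^ k * p * (1 - p) ^ t = p * (p ^ k * (1 - p) ^ t) := by ring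
      _ ≤ p * ((1 - p) ^ k * (1 - p) ^ t) := by
        refine mul_le_mul_of_nonneg_left ?_ h0.le
        exact mul_le_mul_of_nonneg_right this (by positivity)
  · rw [min_eq_right hp, sub_sub_cancel]
    obtain ⟨k, hk⟩ : ∃ k, t = k + 1 := ⟨t - 1, by omega⟩
    rw [hk, show h + (k + 1) - 1 = h + k by omega, pow_succ, pow_add]
    have : (1 - p) ^ k ≤ p ^ k := pow_le_pow_left₀ hq.le hp k
    calc p ^ h * ((1 - p) ^ k * (1 - p)) = (1 - p) * (p ^ h * (1 - p) ^ k) := by ring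
      _ ≤ (1 - p) * (p ^ h * p ^ k) := by
        refine mul_le_mul_of_nonneg_left ?_ hq.le
        exact mul_le_mul_of_nonneg_left this (by positivity)

theorem same_size_eq {x : ℕ × ℕ} (hx : IsTop A B x)
    (hsz : ∀ z ∈ bc A \ bc B, z.1 + z.2 = x.1 + x.2) : bc A \ bc B = {x} := by
  ext z
  rw [mem_singleton]
  constructor
  · intro hz
    exact eq_of_size (mem_sdiff.1 hz).1 (mem_sdiff.1 hx.mem).1 (hsz z hz)
  · rintro rfl; exact hx.mem

/-- equal contents, all different borders of the same size -/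
theorem up_of_same_size (h0 : 0 < p) (h1 : p < 1) (hA : A ≠ []) (hB : B ≠ [])
    (hcont : cont A = cont B) (hG : G p A B = 0) {x y : ℕ × ℕ} (hx : IsTop A B x)
    (hy : IsTop B A y) (h1' : y.1 < x.1) (h2' : x.2 < y.2)
    (hsz : ∀ z ∈ symD A B, z.1 + z.2 = x.1 + x.2) :
    ∃ d > 0, HasDerivAt (fun x => G x A B) d p := by
  have hq : 0 < 1 - p := by linarith
  have hxm := mem_sdiff.1 hx.mem
  have hym := mem_sdiff.1 hy.mem
  have hxs := bc_size hxm.1
  have hlen := length_eq_of_cont hcont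
  have hys : y.1 + y.2 = x.1 + x.2 := hsz y (mem_symD.2 (Or.inr hym))
  have hdA := same_size_eq hx (fun z hz => hsz z (mem_symD.2 (Or.inl (mem_sdiff.1 hz))))
  have hdB := same_size_eq hy (fun z hz => by
    rw [hys]; exact hsz z (mem_symD.2 (Or.inr (mem_sdiff.1 hz))))
  have hwx := wgt_pos h0 h1 hA hB (x.1 + x.2)
  have hPpos := wt_pos h0 h1 A
  have htie := tie_eq h0 h1 hA hB hG
  rw [hdA, hdB, sum_singleton, sum_singleton, hys] at htie
  have ct : 1 ≤ A.count true := by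
    have := (le_cont hA hxm.1).1
    have e : (cont A).1 = A.count true := rfl
    omega
  have cf : 1 ≤ A.count false := by
    have h3 := (le_cont hB hym.1).2
    rw [← hcont] at h3
    have e : (cont A).2 = A.count false := rfl
    omega
  have hmin1 : min p (1 - p) < 1 := lt_of_le_of_lt (min_le_left _ _) h1
  have hmin0 : 0 ≤ min p (1 - p) := le_min h0.le hq.le
  refine up_of_eq (h := min p (1 - p)) h0 h1 hA hB hcont hG hmin0 hmin1
    (haz_min h0 h1 ct cf) (r := x.1 + x.2) (J := x.1 + x.2) hxs.1 le_rfl hxs.2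
    (fun z hz => (hsz z hz).le) le_rfl le_rfl (om := wgt p A B (x.1 + x.2) / wt p A)
    (by positivity) (by rw [mul_div_cancel₀ _ hPpos.ne']) (sg := 0)
    (T := kapc p x * wgt p A B (x.1 + x.2)) (M0 := dl p x - dl p y) ?_ ?_ ?_ ?_
  · rw [zero_mul]
    refine le_of_eq (sum_eq_zero (fun z hz => ?_))
    rw [hsz z hz, sub_self, abs_zero, mul_zero]
  · rw [hdA, hdB, sum_singleton, sum_singleton, hys]
    have : kapc p y * (dl p y * wgt p A B (x.1 + x.2))
        = dl p y * (kapc p y * wgt p A B (x.1 + x.2)) := by ring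
    rw [this, ← htie]
    exact le_of_eq (by ring)
  · exact mul_pos (kapc_pos h0 h1 x) hwx
  · rw [zero_mul, zero_mul]
    have e1 : (y.1 : ℝ) + 1 ≤ x.1 := by exact_mod_cast h1'
    have e2 : (x.2 : ℝ) + 1 ≤ y.2 := by exact_mod_cast h2'
    unfold dl
    nlinarith

/-! ## the two pairs of content `(4, 2)` -/

theorem wt_cont (p : ℝ) (A : List Bool) : wt p A = p ^ (cont A).1 * (1 - p) ^ (cont A).2 := rfl

theorem len_cont (A : List Bool) : A.length = (cont A).1 + (cont A).2 :=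
  (List.count_true_add_count_false A).symm

theorem haz42 (h0 : 0 < p) (h1 : p < 1) (hcA : cont A = (4, 2)) :
    wt p A ≤ 1 / 40 * (1 - 1 / 40) ^ (A.length - 1) := by
  rw [wt_cont, len_cont, hcA]
  have := P42_le h0 h1
  refine le_trans this ?_
  norm_num

theorem small42 (h0 : 0 < p) (h1 : p < 1) :
    p ^ 2 * (1 - p) ^ 3 ≤ 1 / 20 ∧ p ^ 3 * (1 - p) ^ 3 ≤ 1 / 64 ∧ p ^ 5 * (1 - p) ≤ 1 / 10 ∧
      p ^ 4 * (1 - p) ≤ 1 / 12 ∧ p ^ 3 * (1 - p) ≤ 27 / 256 := by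
  have hq : 0 < 1 - p := by linarith
  have a := p2q_le h0 h1
  refine ⟨?_, ?_, ?_, ?_, ?_⟩
  · nlinarith [mul_nonneg (mul_pos h0 hq).le (sq_nonneg (p - 2 / 5)),
      mul_nonneg (mul_pos (mul_pos h0 hq) hq).le (sq_nonneg (5 * p - 2)),
      mul_nonneg (pow_pos hq 2).le (sq_nonneg (5 * p - 2)), sq_nonneg (5 * p - 2)]
  · have a : p * (1 - p) ≤ 1 / 4 := by nlinarith [sq_nonneg (2 * p - 1)]
    calc p ^ 3 * (1 - p) ^ 3 = (p * (1 - p)) ^ 3 := by ring
      _ ≤ (1 / 4) ^ 3 := pow_le_pow_left₀ (mul_pos h0 hq).le a 3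
      _ = _ := by norm_num
  · nlinarith [mul_nonneg (pow_pos h0 4).le (sq_nonneg (6 * p - 5)), pow_pos h0 4,
      mul_nonneg (pow_pos h0 2).le (sq_nonneg (6 * p - 5)), pow_le_one₀ (n := 3) h0.le h1.le,
      mul_nonneg (pow_pos h0 3).le (sq_nonneg (6 * p - 5)), sq_nonneg (6 * p - 5),
      mul_nonneg h0.le (sq_nonneg (6 * p - 5))]
  · nlinarith [mul_nonneg (pow_pos h0 3).le (sq_nonneg (5 * p - 4)), pow_pos h0 3,
      mul_nonneg (pow_pos h0 2).le (sq_nonneg (5 * p - 4)), sq_nonneg (5 * p - 4),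
      mul_nonneg h0.le (sq_nonneg (5 * p - 4))]
  · nlinarith [mul_nonneg (pow_pos h0 2).le (sq_nonneg (4 * p - 3)), pow_pos h0 2,
      sq_nonneg (4 * p - 3), mul_nonneg h0.le (sq_nonneg (4 * p - 3))]

theorem num42 {P a : ℝ} (hP0 : 0 ≤ P) (hP : P ≤ 16 / 729) (ha0 : 0 ≤ a) (hPa : P * a ≤ 23 / 1000) :
    P * (2 * (1 / (1 - 1 / 40)) ^ 6 * (a + 1 / 8 + (a + 1 / 8))
        * (1 + (1 / (1 - 1 / 40)) ^ 4 / (4 * (8 / 25)))
      + 4 * (a + 1 / 8) * (1 + P * 6 * (1 / (1 - 1 / 40)) ^ 2 / (8 / 25))) ≤ 3 / 8 := by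
  have e6 : (1 / (1 - 1 / 40) : ℝ) ^ 6 ≤ 1165 / 1000 := by norm_num
  have e4 : (1 / (1 - 1 / 40) : ℝ) ^ 4 ≤ 111 / 100 := by norm_num
  have e2 : (1 / (1 - 1 / 40) : ℝ) ^ 2 ≤ 106 / 100 := by norm_num
  have f1 : 2 * (1 / (1 - 1 / 40) : ℝ) ^ 6 * (a + 1 / 8 + (a + 1 / 8))
        * (1 + (1 / (1 - 1 / 40)) ^ 4 / (4 * (8 / 25)))
      ≤ 2 * (1165 / 1000) * (a + 1 / 8 + (a + 1 / 8)) * (1 + 111 / 100 / (4 * (8 / 25))) := by
    gcongr
  have f2 : 4 * (a + 1 / 8) * (1 + P * 6 * (1 / (1 - 1 / 40)) ^ 2 / (8 / 25))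
      ≤ 4 * (a + 1 / 8) * (1 + 16 / 729 * 6 * (106 / 100) / (8 / 25)) := by
    gcongr
  have f3 := mul_le_mul_of_nonneg_left (add_le_add f1 f2) hP0
  refine f3.trans ?_
  nlinarith

theorem wtsum (h0 : 0 < p) (h1 : p < 1) (hP : wt p A = p ^ 4 * (1 - p) ^ 2) :
    wt p A * (1 / p) = p ^ 3 * (1 - p) ^ 2 ∧ wt p A * (1 / p ^ 2) = p ^ 2 * (1 - p) ^ 2 ∧
      wt p A * (1 / (1 - p)) = p ^ 4 * (1 - p) ∧ wt p A * (1 / (p ^ 1 * (1 - p) ^ 1)) = p ^ 3 * (1 - p) ∧
      wt p A * (1 / (p ^ 4 * (1 - p) ^ 2)) = 1 := by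
  have hp : p ≠ 0 := h0.ne'
  have hq' : 1 - p ≠ 0 := by linarith
  rw [hP]
  refine ⟨?_, ?_, ?_, ?_, ?_⟩ <;> field_simp

/-- first pair -/
theorem eq42U (h0 : 0 < p) (h1 : p < 1) (hA : A ≠ []) (hB : B ≠ []) (hcA : cont A = (4, 2))
    (hcB : cont B = (4, 2)) (hbA : bc A = {(1, 0), (2, 0), (4, 2)})
    (hbB : bc B = {(0, 1), (4, 2)}) (hG : G p A B = 0) :
    ∃ d > 0, HasDerivAt (fun x => G x A B) d p := by
  have hq : 0 < 1 - p := by linarith
  have hcont : cont A = cont B := by rw [hcA, hcB]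
  have hP : wt p A = p ^ 4 * (1 - p) ^ 2 := by rw [wt_cont, hcA]
  have hlen : A.length = 6 := by rw [len_cont, hcA]; rfl
  have hPle : wt p A ≤ 16 / 729 := by rw [hP]; exact P42_le h0 h1
  have hPa : wt p A * |4 - 6 * p| ≤ 23 / 1000 := by rw [hP]; exact Pabs42_le h0 h1
  have hPpos := wt_pos h0 h1 A
  have hdA : bc A \ bc B = {(1, 0), (2, 0)} := by rw [hbA, hbB]; decide
  have hdB : bc B \ bc A = {(0, 1)} := by rw [hbA, hbB]; decide
  have hsD : symD A B = {(1, 0), (2, 0), (0, 1)} := by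
    unfold symD; rw [hdA, hdB]; decide
  have hw1 := wgt_pos h0 h1 hA hB 1
  have hmono : wgt p A B 1 ≤ wgt p A B 2 := wgt_mono h0 h1 hA hB le_rfl (by norm_num) (by omega)
  have htie := tie_eq h0 h1 hA hB hG
  rw [hdA, hdB, sum_pair (by decide), sum_singleton] at htie
  have k10 : kapc p (1, 0) = 1 / p := by unfold kapc; simp
  have k20 : kapc p (2, 0) = 1 / p ^ 2 := by unfold kapc; simp
  have k01 : kapc p (0, 1) = 1 / (1 - p) := by unfold kapc; simp
  have k42 : kapc p (4, 2) = 1 / (p ^ 4 * (1 - p) ^ 2) := rfl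
  rw [k10, k20, k01] at htie
  simp only [add_zero, zero_add] at htie
  have hp : p ≠ 0 := h0.ne'
  have hq' : 1 - p ≠ 0 := hq.ne'
  obtain ⟨s1, s2, s3, s4, s5⟩ := small42 h0 h1
  obtain ⟨v1, v2, v3, v4, v5⟩ := wtsum h0 h1 hP
  set a := |4 - 6 * p| with ha
  have ha0 : 0 ≤ a := abs_nonneg _
  have d42 : |dl p (4, 2)| = a := by
    rw [ha]; unfold dl; congr 1; push_cast; ring
  have d10 : dl p (1, 0) = 1 - p := by unfold dl; push_cast; ring
  have d20 : dl p (2, 0) = 2 * (1 - p) := by unfold dl; push_cast; ring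
  have d01 : dl p (0, 1) = -p := by unfold dl; push_cast; ring
  set w1 := wgt p A B 1 with hw1d
  set w2 := wgt p A B 2 with hw2d
  set T := 1 / p * w1 + 1 / p ^ 2 * w2 with hT
  have hw2 : 0 < w2 := lt_of_lt_of_le hw1 hmono
  have hT0 : 0 < T := by positivity
  have hom : wt p A * (8 / 25) ≤ w1 := by
    refine wgt_ge (h := 1 / 40) h0 h1 hA hB hcont (by norm_num) (by norm_num) (haz42 h0 h1 hcA) hG
      (S := 13 / 12) (by norm_num) (Or.inr ?_) (m := 1) le_rfl le_rfl (by omega) ?_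
    · rw [hbB, sum_pair (by decide), k01, k42, mul_add, v3, v5]
      linarith
    · rw [hlen]
      have : ((6 - 1 : ℕ) : ℝ) * (wt p A * (1 / (1 - 1 / 40)) ^ 6)
          ≤ ((6 - 1 : ℕ) : ℝ) * (16 / 729 * (1 / (1 - 1 / 40)) ^ 6) := by gcongr
      refine le_trans ?_ (sub_le_sub_left this _)
      norm_num
  refine up_of_eq (h := 1 / 40) h0 h1 hA hB hcont hG (by norm_num) (by norm_num)
    (haz42 h0 h1 hcA) (r := 1) (J := 2) le_rfl (by norm_num) (by omega) ?_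
    (lA := a + 1 / 8) (lB := a + 1 / 8) ?_ ?_ (om := 8 / 25) (by norm_num) hom
    (sg := 1 / ((1 + p) * (wt p A * (8 / 25)))) (T := T) (M0 := 2 / (1 + p)) ?_ ?_ hT0 ?_
  · intro z hz
    rw [hsD] at hz
    simp only [mem_insert, mem_singleton] at hz
    rcases hz with rfl | rfl | rfl <;> norm_num
  · rw [hbA, sum_insert (by decide), sum_pair (by decide), k10, k20, k42, d42, d10, d20,
      abs_of_pos hq, abs_of_pos (by linarith : 0 < 2 * (1 - p))]
    have e : wt p A * (1 / p * (1 - p) + (1 / p ^ 2 * (2 * (1 - p)) + 1 / (p ^ 4 * (1 - p) ^ 2) * a))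
        = (wt p A * (1 / p)) * (1 - p) + (wt p A * (1 / p ^ 2)) * (2 * (1 - p))
          + (wt p A * (1 / (p ^ 4 * (1 - p) ^ 2))) * a := by ring
    rw [e, v1, v2, v5]
    have e2 : p ^ 3 * (1 - p) ^ 2 * (1 - p) = p ^ 3 * (1 - p) ^ 3 := by ring
    have e3 : p ^ 2 * (1 - p) ^ 2 * (2 * (1 - p)) = 2 * (p ^ 2 * (1 - p) ^ 3) := by ring
    rw [e2, e3]
    linarith
  · rw [hbB, sum_pair (by decide), k01, k42, d42, d01, abs_neg, abs_of_pos h0]
    have e : wt p A * (1 / (1 - p) * p + 1 / (p ^ 4 * (1 - p) ^ 2) * a)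
        = (wt p A * (1 / (1 - p))) * p + (wt p A * (1 / (p ^ 4 * (1 - p) ^ 2))) * a := by ring
    rw [e, v3, v5]
    have e2 : p ^ 4 * (1 - p) * p = p ^ 5 * (1 - p) := by ring
    rw [e2]
    linarith
  · rw [hsD, sum_insert (by decide), sum_pair (by decide), k10, k20, k01]
    have e : 1 / p * |((1 + 0 : ℕ) : ℝ) - (1 : ℕ)| + (1 / p ^ 2 * |((2 + 0 : ℕ) : ℝ) - (1 : ℕ)|
        + 1 / (1 - p) * |((0 + 1 : ℕ) : ℝ) - (1 : ℕ)|) = 1 / p ^ 2 := by norm_num
    rw [e, div_mul_eq_mul_div, one_mul, le_div_iff₀ (by positivity)]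
    have hT1 : (1 + p) / p ^ 2 * w1 ≤ T := by
      have : T = (1 + p) / p ^ 2 * w1 + 1 / p ^ 2 * (w2 - w1) := by
        rw [hT]; field_simp; ring
      rw [this]
      have : 0 ≤ 1 / p ^ 2 * (w2 - w1) := mul_nonneg (by positivity) (by linarith)
      linarith
    calc 1 / p ^ 2 * ((1 + p) * (wt p A * (8 / 25))) = (1 + p) / p ^ 2 * (wt p A * (8 / 25)) := by
          ring
      _ ≤ (1 + p) / p ^ 2 * w1 := mul_le_mul_of_nonneg_left hom (by positivity)
      _ ≤ T := hT1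
  · rw [hdA, hdB, sum_pair (by decide), sum_singleton, k10, k20, k01, d10, d20, d01]
    simp only [add_zero, zero_add]
    have e1 : 1 / (1 - p) * (-p * w1) = -p * (1 / (1 - p) * w1) := by ring
    rw [e1, ← htie]
    have e2 : 1 / p * ((1 - p) * w1) + 1 / p ^ 2 * (2 * (1 - p) * w2) - -p * T
        - 2 / (1 + p) * T = (1 - p) / (p * (1 + p)) * (w2 - w1) := by
      rw [hT]; field_simp; ring
    have e3 : 0 ≤ (1 - p) / (p * (1 + p)) * (w2 - w1) := mul_nonneg (by positivity) (by linarith)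
    linarith
  · rw [hlen]
    have h2 := num42 hPpos.le hPle ha0 hPa
    have e4 : (1 / (1 - 1 / 40) : ℝ) ^ (2 + 1) ≤ (1 / (1 - 1 / 40)) ^ 4 := by norm_num
    have e5 : 1 / ((1 + p) * (wt p A * (8 / 25))) * wt p A ^ 2 = 25 / 8 / (1 + p) * wt p A := by
      field_simp
    push_cast
    have h3 : wt p A * (2 * (1 / (1 - 1 / 40)) ^ 6 * (a + 1 / 8 + (a + 1 / 8))
        * (1 + (1 / (1 - 1 / 40)) ^ (2 + 1) / (4 * (8 / 25)))
      + 4 * (a + 1 / 8) * (1 + wt p A * 6 * (1 / (1 - 1 / 40)) ^ 2 / (8 / 25))) ≤ 3 / 8 := by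
      refine le_trans ?_ h2
      gcongr
    have h1p : 0 < 1 + p := by linarith
    calc _ = 25 / 8 / (1 + p) * (wt p A * (2 * (1 / (1 - 1 / 40)) ^ 6 * (a + 1 / 8 + (a + 1 / 8))
        * (1 + (1 / (1 - 1 / 40)) ^ (2 + 1) / (4 * (8 / 25)))
      + 4 * (a + 1 / 8) * (1 + wt p A * 6 * (1 / (1 - 1 / 40)) ^ 2 / (8 / 25)))) := by
          rw [e5]; ring
      _ ≤ 25 / 8 / (1 + p) * (3 / 8) := mul_le_mul_of_nonneg_left h3 (by positivity)
      _ < 2 / (1 + p) := by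
          rw [div_mul_eq_mul_div, div_lt_div_iff_of_pos_right h1p]; norm_num

/-- second pair -/
theorem eq42V (h0 : 0 < p) (h1 : p < 1) (hA : A ≠ []) (hB : B ≠ []) (hcA : cont A = (4, 2))
    (hcB : cont B = (4, 2)) (hbA : bc A = {(1, 0), (2, 0), (4, 2)})
    (hbB : bc B = {(1, 1), (4, 2)}) (hG : G p A B = 0) :
    ∃ d > 0, HasDerivAt (fun x => G x A B) d p := by
  have hq : 0 < 1 - p := by linarith
  have hcont : cont A = cont B := by rw [hcA, hcB]
  have hP : wt p A = p ^ 4 * (1 - p) ^ 2 := by rw [wt_cont, hcA]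
  have hlen : A.length = 6 := by rw [len_cont, hcA]; rfl
  have hPle : wt p A ≤ 16 / 729 := by rw [hP]; exact P42_le h0 h1
  have hPa : wt p A * |4 - 6 * p| ≤ 23 / 1000 := by rw [hP]; exact Pabs42_le h0 h1
  have hPpos := wt_pos h0 h1 A
  have hdA : bc A \ bc B = {(1, 0), (2, 0)} := by rw [hbA, hbB]; decide
  have hdB : bc B \ bc A = {(1, 1)} := by rw [hbA, hbB]; decide
  have hsD : symD A B = {(1, 0), (2, 0), (1, 1)} := by
    unfold symD; rw [hdA, hdB]; decide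
  have hw1 := wgt_pos h0 h1 hA hB 1
  have hmono : wgt p A B 1 ≤ wgt p A B 2 := wgt_mono h0 h1 hA hB le_rfl (by norm_num) (by omega)
  have htie := tie_eq h0 h1 hA hB hG
  rw [hdA, hdB, sum_pair (by decide), sum_singleton] at htie
  have k10 : kapc p (1, 0) = 1 / p := by unfold kapc; simp
  have k20 : kapc p (2, 0) = 1 / p ^ 2 := by unfold kapc; simp
  have k11 : kapc p (1, 1) = 1 / (p ^ 1 * (1 - p) ^ 1) := rfl
  have k42 : kapc p (4, 2) = 1 / (p ^ 4 * (1 - p) ^ 2) := rfl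
  rw [k10, k20] at htie
  simp only [add_zero] at htie
  have e11 : 1 + 1 = 2 := rfl
  rw [e11] at htie
  have hp : p ≠ 0 := h0.ne'
  have hq' : 1 - p ≠ 0 := hq.ne'
  obtain ⟨s1, s2, s3, s4, s5⟩ := small42 h0 h1
  obtain ⟨v1, v2, v3, v4, v5⟩ := wtsum h0 h1 hP
  set a := |4 - 6 * p| with ha
  have ha0 : 0 ≤ a := abs_nonneg _
  have d42 : |dl p (4, 2)| = a := by
    rw [ha]; unfold dl; congr 1; push_cast; ring
  have d10 : dl p (1, 0) = 1 - p := by unfold dl; push_cast; ring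
  have d20 : dl p (2, 0) = 2 * (1 - p) := by unfold dl; push_cast; ring
  have d11 : dl p (1, 1) = 1 - 2 * p := by unfold dl; push_cast; ring
  set w1 := wgt p A B 1 with hw1d
  set w2 := wgt p A B 2 with hw2d
  set T := 1 / p * w1 + 1 / p ^ 2 * w2 with hT
  have hw2 : 0 < w2 := lt_of_lt_of_le hw1 hmono
  have hT0 : 0 < T := by positivity
  have hom : wt p A * (8 / 25) ≤ w1 := by
    refine wgt_ge (h := 1 / 40) h0 h1 hA hB hcont (by norm_num) (by norm_num) (haz42 h0 h1 hcA) hG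
      (S := 283 / 256) (by norm_num) (Or.inr ?_) (m := 1) le_rfl le_rfl (by omega) ?_
    · rw [hbB, sum_pair (by decide), k11, k42, mul_add, v4, v5]
      linarith
    · rw [hlen]
      have : ((6 - 1 : ℕ) : ℝ) * (wt p A * (1 / (1 - 1 / 40)) ^ 6)
          ≤ ((6 - 1 : ℕ) : ℝ) * (16 / 729 * (1 / (1 - 1 / 40)) ^ 6) := by gcongr
      refine le_trans ?_ (sub_le_sub_left this _)
      norm_num
  refine up_of_eq (h := 1 / 40) h0 h1 hA hB hcont hG (by norm_num) (by norm_num)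
    (haz42 h0 h1 hcA) (r := 2) (J := 2) (by norm_num) le_rfl (by omega) ?_
    (lA := a + 1 / 8) (lB := a + 1 / 8) ?_ ?_ (om := 8 / 25) (by norm_num) (hom.trans hmono)
    (sg := p / ((1 + p) * (wt p A * (8 / 25)))) (T := T) (M0 := 2 / (1 + p) - (1 - p)) ?_ ?_ hT0 ?_
  · intro z hz
    rw [hsD] at hz
    simp only [mem_insert, mem_singleton] at hz
    rcases hz with rfl | rfl | rfl <;> norm_num
  · rw [hbA, sum_insert (by decide), sum_pair (by decide), k10, k20, k42, d42, d10, d20,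
      abs_of_pos hq, abs_of_pos (by linarith : 0 < 2 * (1 - p))]
    have e : wt p A * (1 / p * (1 - p) + (1 / p ^ 2 * (2 * (1 - p)) + 1 / (p ^ 4 * (1 - p) ^ 2) * a))
        = (wt p A * (1 / p)) * (1 - p) + (wt p A * (1 / p ^ 2)) * (2 * (1 - p))
          + (wt p A * (1 / (p ^ 4 * (1 - p) ^ 2))) * a := by ring
    rw [e, v1, v2, v5]
    have e2 : p ^ 3 * (1 - p) ^ 2 * (1 - p) = p ^ 3 * (1 - p) ^ 3 := by ring
    have e3 : p ^ 2 * (1 - p) ^ 2 * (2 * (1 - p)) = 2 * (p ^ 2 * (1 - p) ^ 3) := by ring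
    rw [e2, e3]
    linarith
  · rw [hbB, sum_pair (by decide), k11, k42, d42, d11]
    have hab : |1 - 2 * p| ≤ 1 := by rw [abs_le]; constructor <;> linarith
    have e : wt p A * (1 / (p ^ 1 * (1 - p) ^ 1) * |1 - 2 * p| + 1 / (p ^ 4 * (1 - p) ^ 2) * a)
        = (wt p A * (1 / (p ^ 1 * (1 - p) ^ 1))) * |1 - 2 * p|
          + (wt p A * (1 / (p ^ 4 * (1 - p) ^ 2))) * a := by ring
    rw [e, v4, v5]
    have e2 : p ^ 3 * (1 - p) * |1 - 2 * p| ≤ p ^ 3 * (1 - p) * 1 :=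
      mul_le_mul_of_nonneg_left hab (by positivity)
    linarith
  · rw [hsD, sum_insert (by decide), sum_pair (by decide), k10, k20, k11]
    have e : 1 / p * |((1 + 0 : ℕ) : ℝ) - (2 : ℕ)| + (1 / p ^ 2 * |((2 + 0 : ℕ) : ℝ) - (2 : ℕ)|
        + 1 / (p ^ 1 * (1 - p) ^ 1) * |((1 + 1 : ℕ) : ℝ) - (2 : ℕ)|) = 1 / p := by norm_num
    rw [e, div_mul_eq_mul_div, le_div_iff₀ (by positivity)]
    have hT1 : (1 + p) / p ^ 2 * w1 ≤ T := by
      have : T = (1 + p) / p ^ 2 * w1 + 1 / p ^ 2 * (w2 - w1) := by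
        rw [hT]; field_simp; ring
      rw [this]
      have : 0 ≤ 1 / p ^ 2 * (w2 - w1) := mul_nonneg (by positivity) (by linarith)
      linarith
    calc 1 / p * ((1 + p) * (wt p A * (8 / 25)))
        = p * ((1 + p) / p ^ 2 * (wt p A * (8 / 25))) := by field_simp
      _ ≤ p * ((1 + p) / p ^ 2 * w1) := by gcongr
      _ ≤ p * T := mul_le_mul_of_nonneg_left hT1 h0.le
  · rw [hdA, hdB, sum_pair (by decide), sum_singleton, k10, k20, d10, d20, d11]
    simp only [add_zero]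
    rw [e11]
    have e1 : kapc p (1, 1) * ((1 - 2 * p) * w2) = (1 - 2 * p) * (kapc p (1, 1) * w2) := by ring
    rw [e1, ← htie]
    have e2 : 1 / p * ((1 - p) * w1) + 1 / p ^ 2 * (2 * (1 - p) * w2) - (1 - 2 * p) * T
        - (2 / (1 + p) - (1 - p)) * T = (1 - p) / (p * (1 + p)) * (w2 - w1) := by
      rw [hT]; field_simp; ring
    have e3 : 0 ≤ (1 - p) / (p * (1 + p)) * (w2 - w1) := mul_nonneg (by positivity) (by linarith)
    linarith
  · rw [hlen]
    have h2 := num42 hPpos.le hPle ha0 hPa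
    have e5 : p / ((1 + p) * (wt p A * (8 / 25))) * wt p A ^ 2 = 25 / 8 * p / (1 + p) * wt p A := by
      field_simp
    push_cast
    have h1p : 0 < 1 + p := by linarith
    have e6 : 2 / (1 + p) - (1 - p) = (1 + p ^ 2) / (1 + p) := by field_simp; ring
    rw [e6]
    calc _ = 25 / 8 * p / (1 + p) * (wt p A * (2 * (1 / (1 - 1 / 40)) ^ 6
        * (a + 1 / 8 + (a + 1 / 8)) * (1 + (1 / (1 - 1 / 40)) ^ 4 / (4 * (8 / 25)))
      + 4 * (a + 1 / 8) * (1 + wt p A * 6 * (1 / (1 - 1 / 40)) ^ 2 / (8 / 25)))) := by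
          rw [e5]; ring
      _ ≤ 25 / 8 * p / (1 + p) * (3 / 8) := mul_le_mul_of_nonneg_left h2 (by positivity)
      _ < (1 + p ^ 2) / (1 + p) := by
          rw [div_mul_eq_mul_div, div_lt_div_iff_of_pos_right h1p]
          nlinarith [sq_nonneg (p - 1 / 2)]

/-! ## enumeration of the words with four heads and two tails -/

/-- all words of length `n` -/
def allWords : ℕ → List (List Bool)
  | 0 => [[]]
  | n + 1 => (allWords n).flatMap (fun w => [true :: w, false :: w])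

theorem mem_allWords : ∀ {n : ℕ} {A : List Bool}, A.length = n → A ∈ allWords n
  | 0, A, h => by rw [List.length_eq_zero_iff.1 h]; simp [allWords]
  | n + 1, [], h => by simp at h
  | n + 1, b :: A, h => by
    simp only [allWords, List.mem_flatMap]
    refine ⟨A, mem_allWords (by simpa using h), ?_⟩
    cases b <;> simp

theorem bc42_cases : ∀ A ∈ allWords 6, cont A = (4, 2) →
    bc A = {(4, 2)} ∨ bc A = {(1, 0), (4, 2)} ∨ bc A = {(2, 1), (4, 2)} ∨
      bc A = {(1, 0), (2, 0), (4, 2)} ∨ bc A = {(1, 1), (4, 2)} ∨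
      bc A = {(1, 0), (2, 1), (4, 2)} ∨ bc A = {(0, 1), (4, 2)} := by
  decide +kernel

/-- no incomparable tops -/
def NoInc (SA SB : Finset (ℕ × ℕ)) : Prop :=
  ∀ x ∈ SA \ SB, (∀ z ∈ SA \ SB, z.1 + z.2 ≤ x.1 + x.2) →
    ∀ y ∈ SB \ SA, (∀ z ∈ SB \ SA, z.1 + z.2 ≤ y.1 + y.2) → ¬(y.1 < x.1 ∧ x.2 < y.2)

instance (SA SB : Finset (ℕ × ℕ)) : Decidable (NoInc SA SB) := by
  unfold NoInc; infer_instance

theorem NoInc.false {x y : ℕ × ℕ} (h : NoInc (bc A) (bc B)) (hx : IsTop A B x) (hy : IsTop B A y)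
    (h1' : y.1 < x.1) (h2' : x.2 < y.2) : False :=
  h x hx.mem hx.max y hy.mem hy.max ⟨h1', h2'⟩

theorem same_size_of {SA SB : Finset (ℕ × ℕ)} (hA' : bc A = SA) (hB' : bc B = SB) {n : ℕ}
    (h : ∀ z ∈ (SA \ SB) ∪ (SB \ SA), z.1 + z.2 = n) {x : ℕ × ℕ} (hx : IsTop A B x) :
    ∀ z ∈ symD A B, z.1 + z.2 = x.1 + x.2 := by
  have hx1 : x.1 + x.2 = n := h x (by rw [← hA', ← hB']; exact mem_union_left _ hx.mem)
  intro z hz
  rw [hx1]
  refine h z ?_
  unfold symD at hz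
  rwa [hA', hB'] at hz

theorem eq42 (hA : A ≠ []) (hB : B ≠ []) (hcA : cont A = (4, 2)) (hcB : cont B = (4, 2))
    {x y : ℕ × ℕ} (hx : IsTop A B x) (hy : IsTop B A y) (h1' : y.1 < x.1) (h2' : x.2 < y.2) :
    UpAtTies A B := by
  intro p h0 h1 hG
  have lA : A.length = 6 := by rw [len_cont, hcA]; rfl
  have lB : B.length = 6 := by rw [len_cont, hcB]; rfl
  have hcont : cont A = cont B := by rw [hcA, hcB]
  have no : NoInc (bc A) (bc B) → ∃ d > 0, HasDerivAt (fun x => G x A B) d p :=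
    fun h => (h.false hx hy h1' h2').elim
  rcases bc42_cases A (mem_allWords lA) hcA with hA' | hA' | hA' | hA' | hA' | hA' | hA' <;>
  rcases bc42_cases B (mem_allWords lB) hcB with hB' | hB' | hB' | hB' | hB' | hB' | hB' <;>
  first
    | exact no (by rw [hA', hB']; decide)
    | exact eq42U h0 h1 hA hB hcA hcB hA' hB' hG
    | exact eq42V h0 h1 hA hB hcA hcB hA' hB' hG
    | exact up_of_same_size h0 h1 hA hB hcont hG hx hy h1' h2'
        (same_size_of hA' hB' (n := 1) (by decide) hx)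

end Coin
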