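import Pool.Agent.Lib.Coin.Eq4
import Pool.Agent.Lib.Coin.Assembly

/-!
# Coin race: equal contents, incomparable cancelled tops (M5c), part 5: the criterion for words
-/

namespace Coin

open Finset

/-- linear form `z₁ (1-p) - z₂ p` of a content -/
noncomputable def dl (p : ℝ) (z : ℕ × ℕ) : ℝ := z.1 * (1 - p) - z.2 * p

/-- the contents of exactly one of the two words -/
def symD (A B : List Bool) : Finset (ℕ × ℕ) := (bc A \ bc B) ∪ (bc B \ bc A)

/-- signed weights -/
noncomputable def sgc (p : ℝ) (A : List Bool) (z : ℕ × ℕ) : ℝ :=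
  if z ∈ bc A then kapc p z else -kapc p z

/-- the weights `P(A + B - B' ∈ {k, k-1})` of the race formula -/
noncomputable def wgt (p : ℝ) (A B : List Bool) (k : ℕ) : ℝ := Wk (pm p A) (pm p B) (pm p B) k

theorem sum_bd_eq_gen (A : List Bool) (f : ℕ × ℕ → ℕ → ℝ) :
    ∑ k ∈ bd A, f (cont (A.take k)) k = ∑ z ∈ bc A, f z (z.1 + z.2) := by
  unfold bc
  rw [Finset.sum_image (fun k hk l hl h => cont_inj hk hl h)]
  refine Finset.sum_congr rfl (fun k hk => ?_)
  rw [cont_add hk]

theorem abs_sgc {p : ℝ} (h0 : 0 < p) (h1 : p < 1) (A : List Bool) (z : ℕ × ℕ) :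
    |sgc p A z| = kapc p z := by
  unfold sgc
  have := kapc_pos h0 h1 z
  split_ifs
  · exact abs_of_pos this
  · rw [abs_neg]; exact abs_of_pos this

theorem sum_symD {p : ℝ} {A B : List Bool} (f : ℕ × ℕ → ℝ) :
    ∑ z ∈ symD A B, sgc p A z * f z
      = (∑ z ∈ bc A \ bc B, kapc p z * f z) - ∑ z ∈ bc B \ bc A, kapc p z * f z := by
  unfold symD
  rw [sum_union]
  · rw [sub_eq_add_neg, ← sum_neg_distrib]
    congr 1
    · refine sum_congr rfl (fun z hz => ?_)
      rw [sgc, if_pos (mem_sdiff.mp hz).1]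
    · refine sum_congr rfl (fun z hz => ?_)
      rw [sgc, if_neg (mem_sdiff.mp hz).2]; ring
  · rw [disjoint_left]
    intro z hz hz'
    exact (mem_sdiff.mp hz').2 (mem_sdiff.mp hz).1

theorem sum_bc_sub (A B : List Bool) (f : ℕ × ℕ → ℝ) :
    (∑ z ∈ bc A, f z) - ∑ z ∈ bc B, f z
      = (∑ z ∈ bc A \ bc B, f z) - ∑ z ∈ bc B \ bc A, f z := by
  have := Finset.sum_sdiff_sub_sum_sdiff (s₁ := bc A) (s₂ := bc B) (f := f)
  linarith

section words

variable {p h : ℝ} {A B : List Bool}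

theorem summable_abs_D (h0 : 0 < p) (h1 : p < 1) (hA : A ≠ []) (hB : B ≠ []) :
    Summable (fun n => |srv (pm p A) n - srv (pm p B) n|) := by
  have hc := (isProb_pm h0 h1 hA).conv (isProb_pm h0 h1 hB)
  have hs : ∀ k : ℕ, Summable (fun n => conv (pm p A) (pm p B) (n + k)) := fun k =>
    (summable_nat_add_iff k).mpr hc.summable
  have h2 : (fun n => srv (pm p A) n - srv (pm p B) n)
      = fun n => (∑ k ∈ bd A, kap p A k * conv (pm p A) (pm p B) (n + k))
        - ∑ k ∈ bd B, kap p B k * conv (pm p A) (pm p B) (n + k) := by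
    funext n
    exact srv_sub_srv_ren (ren_pm h0 h1 hA) (ren_pm h0 h1 hB) n
  have h3 : Summable (fun n => srv (pm p A) n - srv (pm p B) n) := by
    rw [h2]
    exact (summable_sum (fun k _ => (hs k).mul_left _)).sub
      (summable_sum (fun k _ => (hs k).mul_left _))
  exact h3.abs

theorem wt_eq_of_cont (hcont : cont A = cont B) : wt p A = wt p B := by
  unfold wt
  have h1 : A.count true = B.count true := congrArg Prod.fst hcont
  have h2 : A.count false = B.count false := congrArg Prod.snd hcont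
  rw [h1, h2]

theorem length_eq_of_cont (hcont : cont A = cont B) : A.length = B.length := by
  have h1 : A.count true = B.count true := congrArg Prod.fst hcont
  have h2 : A.count false = B.count false := congrArg Prod.snd hcont
  rw [← List.count_true_add_count_false A, ← List.count_true_add_count_false B, h1, h2]

theorem eqPair_pm (h0 : 0 < p) (h1 : p < 1) (hA : A ≠ []) (hB : B ≠ []) (hcont : cont A = cont B)
    (hh0 : 0 ≤ h) (hh1 : h < 1) (hP : wt p A ≤ h * (1 - h) ^ (A.length - 1))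
    (hG : G p A B = 0) : EqPair (pm p A) (pm p B) A.length (wt p A) h := by
  have hlen := length_eq_of_cont hcont
  have hwt : wt p A = wt p B := wt_eq_of_cont hcont
  have hPB : wt p B ≤ h * (1 - h) ^ (B.length - 1) := by rw [← hwt, ← hlen]; exact hP
  exact {
    ha := isProb_pm h0 h1 hA
    hb := isProb_pm h0 h1 hB
    Lpos := List.length_pos_iff.2 hA
    a0 := fun n hn => pm_of_lt p hn
    b0 := fun n hn => pm_of_lt p (by rw [← hlen]; exact hn)
    aL := pm_length p hA
    bL := by rw [hlen, hwt]; exact pm_length p hB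
    aanti := fun n hn => pm_succ_le h0.le h1.le hn
    banti := fun n hn => pm_succ_le h0.le h1.le (by rw [← hlen]; exact hn)
    nbuA := fun m n => by simp only [srv_pm p hA]; exact surv_add_le h0.le h1.le A m n
    nbuB := fun m n => by simp only [srv_pm p hB]; exact surv_add_le h0.le h1.le B m n
    hazA := haz_srv h0.le h1.le hA hh0 hh1.le hP
    hazB := haz_srv h0.le h1.le hB hh0 hh1.le hPB
    topA := fun n => by
      have := pm_le h0.le h1.le hA (n + A.length)
      rwa [Nat.add_sub_cancel, ← srv_pm p hA] at this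
    topB := fun n => by
      have := pm_le h0.le h1.le hB (n + A.length)
      rwa [hlen, Nat.add_sub_cancel, ← srv_pm p hB, ← hwt, ← hlen] at this
    h0 := hh0
    h1 := hh1
    tie := by rw [← G_eq_Gs p hA hB]; exact hG
    sumD := summable_abs_D h0 h1 hA hB }

theorem bc_size {z : ℕ × ℕ} (hz : z ∈ bc A) : 1 ≤ z.1 + z.2 ∧ z.1 + z.2 ≤ A.length := by
  obtain ⟨k, hk, rfl⟩ := mem_bc.1 hz
  rw [cont_add hk]
  exact ⟨bd_pos hk, bd_le hk⟩

theorem mem_symD {z : ℕ × ℕ} : z ∈ symD A B ↔ (z ∈ bc A ∧ z ∉ bc B) ∨ (z ∈ bc B ∧ z ∉ bc A) := by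
  unfold symD
  rw [mem_union, mem_sdiff, mem_sdiff]

theorem eqDiff_pm (h0 : 0 < p) (h1 : p < 1) (hA : A ≠ []) (hB : B ≠ [])
    (hG : G p A B = 0) {r J : ℕ} (hr : 1 ≤ r) (hrJ : r ≤ J) (hJL : J ≤ A.length)
    (hJ : ∀ z ∈ symD A B, z.1 + z.2 ≤ J) :
    EqDiff (pm p A) (pm p B) A.length (symD A B) (sgc p A) (fun z => z.1 + z.2) r J where
  pos := fun z hz => by
    rcases mem_symD.1 hz with h | h
    · exact (bc_size h.1).1
    · exact (bc_size h.1).1
  le := hJ
  one := hr
  rJ := hrJ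
  JL := hJL
  dif := fun n => by
    rw [sum_symD, ← sum_bc_sub A B
      (fun z => kapc p z * conv (pm p A) (pm p B) (n + (z.1 + z.2))),
      srv_sub_srv_ren (ren_pm h0 h1 hA) (ren_pm h0 h1 hB) n,
      sum_bd_eq p A (fun k => conv (pm p A) (pm p B) (n + k)),
      sum_bd_eq p B (fun k => conv (pm p A) (pm p B) (n + k))]
  tie := by
    rw [sum_symD]
    have := G_eq_sdiff h0 h1 hA hB
    rw [hG] at this
    linarith

/-- the total mass of the weights at a tie -/
theorem tie_eq (h0 : 0 < p) (h1 : p < 1) (hA : A ≠ []) (hB : B ≠ []) (hG : G p A B = 0) :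
    ∑ z ∈ bc A \ bc B, kapc p z * wgt p A B (z.1 + z.2)
      = ∑ z ∈ bc B \ bc A, kapc p z * wgt p A B (z.1 + z.2) := by
  have := G_eq_sdiff h0 h1 hA hB
  rw [hG] at this
  unfold wgt
  linarith

/-- lower bound for all weights: `S` bounds `P(A)` times the sum of the border weights of `A` or
of `B` -/
theorem wgt_ge (h0 : 0 < p) (h1 : p < 1) (hA : A ≠ []) (hB : B ≠ []) (hcont : cont A = cont B)
    (hh0 : 0 ≤ h) (hh1 : h < 1) (hP : wt p A ≤ h * (1 - h) ^ (A.length - 1))
    (hG : G p A B = 0) {S om : ℝ} (hS0 : 0 < S)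
    (hS : wt p A * ∑ z ∈ bc A, kapc p z ≤ S ∨ wt p A * ∑ z ∈ bc B, kapc p z ≤ S) {k m : ℕ}
    (hm : 1 ≤ m) (hmk : m ≤ k) (hkL : k ≤ A.length)
    (hom : om ≤ 1 / (2 * S) - ((A.length - m : ℕ) : ℝ) * (wt p A * (1 / (1 - h)) ^ A.length)) :
    wt p A * om ≤ wgt p A B k := by
  have E := eqPair_pm h0 h1 hA hB hcont hh0 hh1 hP hG
  have hw := wt_pos h0 h1 A
  have hlen := length_eq_of_cont hcont
  have hk1 : 1 ≤ k := hm.trans hmk
  have hwL : 1 / (2 * S) * wt p A ≤ Wk (pm p A) (pm p B) (pm p B) A.length := by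
    have hWL := E.w_nonneg A.length
    have key : ∀ K : ℝ, 1 / 2 ≤ K * Wk (pm p A) (pm p B) (pm p B) A.length → wt p A * K ≤ S →
        1 / (2 * S) * wt p A ≤ Wk (pm p A) (pm p B) (pm p B) A.length := by
      intro K h2 h3
      have h4 : wt p A * (1 / 2) ≤ wt p A * K * Wk (pm p A) (pm p B) (pm p B) A.length := by
        rw [mul_assoc]; exact mul_le_mul_of_nonneg_left h2 hw.le
      have h5 := h4.trans (mul_le_mul_of_nonneg_right h3 hWL)
      rw [div_mul_eq_mul_div, one_mul, div_le_iff₀ (by positivity)]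
      linarith
    rcases hS with hS | hS
    · refine key _ ?_ hS
      have h2 := E.half_le_top (ren_pm h0 h1 hA)
        (fun k _ => (one_div_pos.2 (wt_pos h0 h1 (A.take k))).le) (fun k hk => (bd_bounds hk).2)
      have h3 : ∑ k ∈ bd A, kap p A k = ∑ z ∈ bc A, kapc p z := by
        have := sum_bd_eq p A (fun _ => 1)
        simpa only [mul_one] using this
      rwa [h3] at h2
    · refine key _ ?_ hS
      have h2 := E.half_le (ren_pm h0 h1 hA)
      have h3 := G_eq_sum h0 h1 hA hB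
      rw [hG] at h3
      have h4 : 1 / 2 ≤ ∑ k ∈ bd B, kap p B k * Wk (pm p A) (pm p B) (pm p B) k := by linarith
      refine h4.trans ?_
      rw [sum_bd_eq, sum_mul]
      refine sum_le_sum (fun z hz => ?_)
      have h5 := bc_size hz
      rw [← hlen] at h5
      exact mul_le_mul_of_nonneg_left (E.w_mono h5.1 h5.2 le_rfl) (kapc_pos h0 h1 z).le
  have h2 := E.w_sub_le hk1 hkL le_rfl
  have h3 : ((A.length - k : ℕ) : ℝ) * (wt p A ^ 2 * (1 / (1 - h)) ^ A.length)
      ≤ ((A.length - m : ℕ) : ℝ) * (wt p A ^ 2 * (1 / (1 - h)) ^ A.length) := by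
    have hθ := E.theta_pos
    refine mul_le_mul_of_nonneg_right ?_ (by positivity)
    exact_mod_cast Nat.sub_le_sub_left hmk _
  have h4 := mul_le_mul_of_nonneg_left hom hw.le
  unfold wgt
  have h5 : wt p A * (1 / (2 * S) - ((A.length - m : ℕ) : ℝ) * (wt p A * (1 / (1 - h)) ^ A.length))
      = 1 / (2 * S) * wt p A
        - ((A.length - m : ℕ) : ℝ) * (wt p A ^ 2 * (1 / (1 - h)) ^ A.length) := by ring
  rw [h5] at h4
  linarith

/-- criterion for the sign of the derivative at a tie of two words with equal contents -/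
theorem up_of_eq (h0 : 0 < p) (h1 : p < 1) (hA : A ≠ []) (hB : B ≠ []) (hcont : cont A = cont B)
    (hG : G p A B = 0) (hh0 : 0 ≤ h) (hh1 : h < 1)
    (hP : wt p A ≤ h * (1 - h) ^ (A.length - 1)) {r J : ℕ} (hr : 1 ≤ r) (hrJ : r ≤ J)
    (hJL : J ≤ A.length) (hJ : ∀ z ∈ symD A B, z.1 + z.2 ≤ J) {lA lB om sg M0 T : ℝ}
    (hlA : wt p A * ∑ z ∈ bc A, kapc p z * |dl p z| ≤ lA)
    (hlB : wt p A * ∑ z ∈ bc B, kapc p z * |dl p z| ≤ lB)
    (hom0 : 0 < om) (hom : wt p A * om ≤ wgt p A B r)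
    (hsg : ∑ z ∈ symD A B, kapc p z * |((z.1 + z.2 : ℕ) : ℝ) - r| ≤ sg * T)
    (hM : M0 * T ≤ (∑ z ∈ bc A \ bc B, kapc p z * (dl p z * wgt p A B (z.1 + z.2)))
      - ∑ z ∈ bc B \ bc A, kapc p z * (dl p z * wgt p A B (z.1 + z.2)))
    (hT0 : 0 < T)
    (hnum : sg * (wt p A) ^ 2 * (2 * (1 / (1 - h)) ^ A.length * (lA + lB)
        * (1 + (1 / (1 - h)) ^ (J + r) / (4 * om))
      + 4 * lB * (1 + wt p A * A.length * (1 / (1 - h)) ^ J / om)) < M0) :
    ∃ d > 0, HasDerivAt (fun x => G x A B) d p := by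
  have E := eqPair_pm h0 h1 hA hB hcont hh0 hh1 hP hG
  have Q := eqDiff_pm h0 h1 hA hB hG hr hrJ hJL hJ
  have hw := wt_pos h0 h1 A
  have hθ := E.theta_pos
  have hlen := length_eq_of_cont hcont
  have hq : 0 < 1 - p := by linarith
  set P := wt p A with hPdef
  set θ := 1 / (1 - h) with hθdef
  set sp := EqDiff.spread (symD A B) (sgc p A) (fun z => z.1 + z.2) r with hsp
  have hspe : sp = ∑ z ∈ symD A B, kapc p z * |((z.1 + z.2 : ℕ) : ℝ) - r| := by
    rw [hsp]
    unfold EqDiff.spread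
    exact sum_congr rfl (fun z _ => by rw [abs_sgc h0 h1])
  have hsp0 : 0 ≤ sp := EqDiff.spread_nonneg _ _ _ _
  have hspT : sp ≤ sg * T := by rw [hspe]; exact hsg
  -- relative mass
  have hrel : |∑ z ∈ symD A B, sgc p A z| ≤ sp * (P * θ ^ J / om) := by
    have h2 := Q.mass_le E
    have h3 : |∑ z ∈ symD A B, sgc p A z| * (P * om) ≤ sp * (P ^ 2 * θ ^ J) :=
      (mul_le_mul_of_nonneg_left hom (abs_nonneg _)).trans h2
    have h4 : |∑ z ∈ symD A B, sgc p A z| ≤ sp * (P ^ 2 * θ ^ J) / (P * om) := by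
      rw [le_div_iff₀ (by positivity)]; exact h3
    refine h4.trans (le_of_eq ?_)
    field_simp
  have hrel0 : 0 ≤ P * θ ^ J / om := by positivity
  -- the derivative
  have hder := hasDerivAt_G h0 h1 hA hB
  set gA : ℕ → ℝ := fun k => kap p A k * dl p (cont (A.take k)) with hgA
  set gB : ℕ → ℝ := fun k => kap p B k * dl p (cont (B.take k)) with hgB
  have hab : ∀ (C : List Bool) (k : ℕ), |kap p C k * dl p (cont (C.take k))|
      = kapc p (cont (C.take k)) * |dl p (cont (C.take k))| := by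
    intro C k
    rw [abs_mul, kap_eq_kapc, abs_of_pos (kapc_pos h0 h1 _)]
  have hGA : ∑ k ∈ bd A, |gA k| ≤ lA / P := by
    rw [le_div_iff₀ hw, mul_comm]
    refine le_trans (le_of_eq ?_) hlA
    congr 1
    rw [← sum_bd_eq_gen A (fun z _ => kapc p z * |dl p z|)]
    exact sum_congr rfl (fun k _ => hab A k)
  have hGB : ∑ k ∈ bd B, |gB k| ≤ lB / P := by
    rw [le_div_iff₀ hw, mul_comm]
    refine le_trans (le_of_eq ?_) hlB
    congr 1
    rw [← sum_bd_eq_gen B (fun z _ => kapc p z * |dl p z|)]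
    exact sum_congr rfl (fun k _ => hab B k)
  have htot := Q.total E (KA := bd A) (KB := bd B) (gA := gA) (gB := gB)
    (fun k hk => bd_bounds hk) (fun k hk => by rw [hlen]; exact bd_bounds hk) hGA hGB hrel hrel0
  set X := (∑ k ∈ bd A, gA k * Wk (pm p A) (pm p A) (pm p B) k)
    - ∑ k ∈ bd B, gB k * Wk (pm p B) (pm p B) (pm p A) k with hX
  have hmain : (∑ k ∈ bd A, gA k * Wk (pm p A) (pm p B) (pm p B) k)
      - (∑ k ∈ bd B, gB k * Wk (pm p A) (pm p B) (pm p B) k)
      = (∑ z ∈ bc A \ bc B, kapc p z * (dl p z * wgt p A B (z.1 + z.2)))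
      - ∑ z ∈ bc B \ bc A, kapc p z * (dl p z * wgt p A B (z.1 + z.2)) := by
    rw [← sum_bc_sub A B (fun z => kapc p z * (dl p z * wgt p A B (z.1 + z.2))),
      ← sum_bd_eq_gen A (fun z k => kapc p z * (dl p z * wgt p A B k)),
      ← sum_bd_eq_gen B (fun z k => kapc p z * (dl p z * wgt p A B k))]
    congr 1
    · refine sum_congr rfl (fun k _ => ?_)
      simp only [hgA]
      rw [kap_eq_kapc]
      unfold wgt
      ring
    · refine sum_congr rfl (fun k _ => ?_)
      simp only [hgB]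
      rw [kap_eq_kapc]
      unfold wgt
      ring
  rw [hmain] at htot
  have hE : sp * (2 * P ^ 2 * θ ^ A.length * (lA / P + lB / P)
          * (P + P * θ ^ J / om * (θ ^ r / 4)) + lB / P * (4 * P ^ 3 * (1 + P * θ ^ J / om * A.length)))
      < M0 * T := by
    have e1 : sp * (2 * P ^ 2 * θ ^ A.length * (lA / P + lB / P)
          * (P + P * θ ^ J / om * (θ ^ r / 4)) + lB / P * (4 * P ^ 3 * (1 + P * θ ^ J / om * A.length)))
        = sp * (P ^ 2 * (2 * θ ^ A.length * (lA + lB) * (1 + θ ^ (J + r) / (4 * om))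
          + 4 * lB * (1 + P * A.length * θ ^ J / om))) := by
      rw [pow_add]
      field_simp
    have hlA0 : 0 ≤ lA := le_trans (mul_nonneg hw.le (sum_nonneg (fun z _ =>
      mul_nonneg (kapc_pos h0 h1 z).le (abs_nonneg _)))) hlA
    have hlB0 : 0 ≤ lB := le_trans (mul_nonneg hw.le (sum_nonneg (fun z _ =>
      mul_nonneg (kapc_pos h0 h1 z).le (abs_nonneg _)))) hlB
    rw [e1]
    calc _ ≤ sg * T * (P ^ 2 * (2 * θ ^ A.length * (lA + lB) * (1 + θ ^ (J + r) / (4 * om))
          + 4 * lB * (1 + P * A.length * θ ^ J / om))) :=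
          mul_le_mul_of_nonneg_right hspT (by positivity)
      _ = (sg * P ^ 2 * (2 * θ ^ A.length * (lA + lB) * (1 + θ ^ (J + r) / (4 * om))
          + 4 * lB * (1 + P * A.length * θ ^ J / om))) * T := by ring
      _ < M0 * T := mul_lt_mul_of_pos_right hnum hT0
  have hXpos : 0 < X := by
    have h2 := (abs_le.mp htot).1
    linarith
  refine ⟨X / (p * (1 - p)), div_pos hXpos (mul_pos h0 hq), ?_⟩
  convert hder using 1
  have hp : p ≠ 0 := h0.ne'
  have hq' : 1 - p ≠ 0 := hq.ne'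
  have hterm : ∀ (C : List Bool) (k : ℕ) (W : ℝ),
      kap p C k * (((C.take k).count false : ℝ) / (1 - p) - ((C.take k).count true : ℝ) / p) * W
        = -(kap p C k * dl p (cont (C.take k)) * W / (p * (1 - p))) := by
    intro C k W
    unfold dl cont
    simp only
    field_simp
    ring
  simp only [hterm]
  rw [hX, sum_neg_distrib, sum_neg_distrib, ← sum_div, ← sum_div]
  ring

end words

end Coin
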