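import Pool.Agent.Lib.Coin.EqMain

/-!
# Coin race: equal contents (M5c), the criterion with explicit constants
-/

namespace Coin

open Finset

variable {p : ℝ} {A B : List Bool}

/-- criterion with explicit constants -/
theorem up_of_alpha (h0 : 0 < p) (h1 : p < 1) (hA : A ≠ []) (hB : B ≠ [])
    (hcont : cont A = cont B) (hG : G p A B = 0) (hne : (bc A \ bc B).Nonempty)
    {r J : ℕ} (hr : 1 ≤ r) (hrJ : r ≤ J) (hJL : J ≤ A.length)
    (hJ : ∀ z ∈ symD A B, z.1 + z.2 ≤ J) {kappa Th Th' S om Lam al : ℝ}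
    (hk0 : 0 ≤ kappa) (hk : 1 ≤ kappa * (1 - kappa * ((A.length : ℝ) - 1) * wt p A))
    (hTh0 : 0 ≤ Th) (hTh : 1 ≤ Th * (1 - kappa * A.length * wt p A))
    (hTh' : (J + r ≤ A.length ∧ Th ≤ Th') ∨ Th ^ 2 ≤ Th') (hS0 : 0 < S)
    (hS : wt p A * ∑ z ∈ bc A, kapc p z ≤ S ∨ wt p A * ∑ z ∈ bc B, kapc p z ≤ S)
    (hom0 : 0 < om) (hom : om ≤ 1 / (2 * S) - ((A.length : ℝ) - 1) * wt p A * Th)
    (hLA : wt p A * ∑ z ∈ bc A, kapc p z * |dl p z| ≤ Lam)
    (hLB : wt p A * ∑ z ∈ bc B, kapc p z * |dl p z| ≤ Lam)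
    (hal : 4 * wt p A * Lam * (Th * (1 + Th' / (4 * om)) + 1 + A.length * wt p A * Th / om)
      ≤ al * om)
    (hmain : al * ∑ z ∈ symD A B, kapc p z * (wgt p A B (z.1 + z.2)
        * |((z.1 + z.2 : ℕ) : ℝ) - r|)
      < (∑ z ∈ bc A \ bc B, kapc p z * (dl p z * wgt p A B (z.1 + z.2)))
        - ∑ z ∈ bc B \ bc A, kapc p z * (dl p z * wgt p A B (z.1 + z.2))) :
    ∃ d > 0, HasDerivAt (fun x => G x A B) d p := by
  have hq : 0 < 1 - p := by linarith
  have hw := wt_pos h0 h1 A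
  have hlen := length_eq_of_cont hcont
  have hL1 : 1 ≤ A.length := List.length_pos_iff.2 hA
  have hL1' : (1 : ℝ) ≤ A.length := by exact_mod_cast hL1
  set P := wt p A with hPdef
  set L := A.length with hLdef
  -- the hazard
  have hkL : 0 < 1 - kappa * L * P := by
    by_contra hc
    push Not at hc
    have := mul_nonpos_of_nonneg_of_nonpos hTh0 hc
    linarith
  have hkP0 : 0 ≤ kappa * P := mul_nonneg hk0 hw.le
  have hkP1 : kappa * P < 1 := by
    have : kappa * P * 1 ≤ kappa * P * L := mul_le_mul_of_nonneg_left hL1' hkP0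
    nlinarith
  have hbern : ∀ n : ℕ, 1 - n * (kappa * P) ≤ (1 - kappa * P) ^ n := by
    intro n
    have := one_add_mul_le_pow (a := -(kappa * P)) (by linarith) n
    have e : (1 + -(kappa * P)) ^ n = (1 - kappa * P) ^ n := by ring
    rw [e] at this
    linarith
  have hP : P ≤ kappa * P * (1 - kappa * P) ^ (L - 1) := by
    have h2 := hbern (L - 1)
    rw [Nat.cast_sub hL1, Nat.cast_one] at h2
    calc P ≤ P * (kappa * (1 - kappa * ((L : ℝ) - 1) * P)) := by nlinarith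
      _ = kappa * P * (1 - ((L : ℝ) - 1) * (kappa * P)) := by ring
      _ ≤ _ := mul_le_mul_of_nonneg_left h2 hkP0
  set θ := 1 / (1 - kappa * P) with hθ
  have hθ1 : 1 ≤ θ := by
    rw [hθ, le_div_iff₀ (by linarith)]; linarith
  have hθL : θ ^ L ≤ Th := by
    have h2 := hbern L
    rw [hθ, one_div, inv_pow, inv_le_comm₀ (pow_pos (by linarith) _) (by nlinarith)]
    have h3 : Th⁻¹ ≤ 1 - kappa * L * P := by
      have hThpos : 0 < Th := by
        rcases lt_or_eq_of_le hTh0 with h | h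
        · exact h
        · rw [← h] at hTh; linarith
      rw [inv_le_iff_one_le_mul₀' hThpos]; exact hTh
    refine h3.trans ?_
    calc 1 - kappa * L * P = 1 - L * (kappa * P) := by ring
      _ ≤ _ := h2
  have hTh1 : 1 ≤ Th := (one_le_pow₀ hθ1).trans hθL
  have hθJ : θ ^ J ≤ Th := (pow_le_pow_right₀ hθ1 hJL).trans hθL
  have hθJr : θ ^ (J + r) ≤ Th' := by
    rcases hTh' with ⟨h2, h3⟩ | h2
    · exact (pow_le_pow_right₀ hθ1 h2).trans (hθL.trans h3)
    · refine le_trans ?_ h2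
      rw [pow_add, pow_two]
      exact mul_le_mul hθJ ((pow_le_pow_right₀ hθ1 (hrJ.trans hJL)).trans hθL) (by positivity) hTh0
  have hTh'0 : 0 ≤ Th' := (pow_nonneg (zero_le_one.trans hθ1) _).trans hθJr
  -- weights
  have hwg : ∀ k, 1 ≤ k → k ≤ L → P * om ≤ wgt p A B k := by
    intro k hk1 hkL'
    refine wgt_ge h0 h1 hA hB hcont hkP0 hkP1 hP hG hS0 hS (m := 1) le_rfl hk1 hkL' ?_
    refine hom.trans ?_
    rw [Nat.cast_sub hL1, Nat.cast_one]
    have : ((L : ℝ) - 1) * (P * θ ^ L) ≤ ((L : ℝ) - 1) * P * Th := by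
      rw [mul_assoc]
      exact mul_le_mul_of_nonneg_left (mul_le_mul_of_nonneg_left hθL hw.le) (by linarith)
    linarith
  set T := ∑ z ∈ bc A \ bc B, kapc p z * wgt p A B (z.1 + z.2) with hT
  have hT0 : 0 < T := sum_pos (fun z _ => mul_pos (kapc_pos h0 h1 z) (wgt_pos h0 h1 hA hB _)) hne
  set main := (∑ z ∈ bc A \ bc B, kapc p z * (dl p z * wgt p A B (z.1 + z.2)))
        - ∑ z ∈ bc B \ bc A, kapc p z * (dl p z * wgt p A B (z.1 + z.2)) with hmaind
  set sp := ∑ z ∈ symD A B, kapc p z * |((z.1 + z.2 : ℕ) : ℝ) - r| with hsp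
  have hsp0 : 0 ≤ sp := sum_nonneg (fun z _ => mul_nonneg (kapc_pos h0 h1 z).le (abs_nonneg _))
  have hspw : P * om * sp ≤ ∑ z ∈ symD A B, kapc p z * (wgt p A B (z.1 + z.2)
        * |((z.1 + z.2 : ℕ) : ℝ) - r|) := by
    rw [hsp, mul_sum]
    refine sum_le_sum (fun z hz => ?_)
    have hzs : 1 ≤ z.1 + z.2 ∧ z.1 + z.2 ≤ L := by
      rcases mem_symD.1 hz with h | h
      · exact bc_size h.1
      · rw [hlen]; exact bc_size h.1
    have h2 := hwg _ hzs.1 hzs.2
    have h3 := kapc_pos h0 h1 z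
    calc P * om * (kapc p z * |((z.1 + z.2 : ℕ) : ℝ) - r|)
        = kapc p z * (P * om * |((z.1 + z.2 : ℕ) : ℝ) - r|) := by ring
      _ ≤ _ := mul_le_mul_of_nonneg_left (mul_le_mul_of_nonneg_right h2 (abs_nonneg _)) h3.le
  have hLam0 : 0 ≤ Lam := le_trans (mul_nonneg hw.le (sum_nonneg (fun z _ =>
    mul_nonneg (kapc_pos h0 h1 z).le (abs_nonneg _)))) hLA
  refine up_of_eq h0 h1 hA hB hcont hG hkP0 hkP1 hP hr hrJ hJL hJ hLA hLB hom0
    (hwg r hr (hrJ.trans hJL)) (sg := sp / T) (T := T) (M0 := main / T)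
    (by rw [div_mul_cancel₀ _ hT0.ne']) (by rw [div_mul_cancel₀ _ hT0.ne']) hT0 ?_
  rw [div_mul_eq_mul_div, div_mul_eq_mul_div, div_lt_div_iff_of_pos_right hT0]
  have hb : 2 * θ ^ L * (Lam + Lam) * (1 + θ ^ (J + r) / (4 * om))
      + 4 * Lam * (1 + P * L * θ ^ J / om)
      ≤ 4 * Lam * (Th * (1 + Th' / (4 * om)) + 1 + L * P * Th / om) := by
    have b1 : θ ^ L * (1 + θ ^ (J + r) / (4 * om)) ≤ Th * (1 + Th' / (4 * om)) := by
      refine mul_le_mul hθL ?_ (by positivity) hTh0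
      gcongr
    have b2 : P * L * θ ^ J / om ≤ L * P * Th / om := by
      rw [mul_comm P]
      gcongr
    calc _ = 4 * Lam * (θ ^ L * (1 + θ ^ (J + r) / (4 * om))
          + (1 + P * L * θ ^ J / om)) := by ring
      _ ≤ 4 * Lam * (Th * (1 + Th' / (4 * om)) + (1 + L * P * Th / om)) := by gcongr
      _ = _ := by ring
  calc sp * P ^ 2 * (2 * θ ^ L * (Lam + Lam) * (1 + θ ^ (J + r) / (4 * om))
      + 4 * Lam * (1 + P * L * θ ^ J / om))
      ≤ sp * P ^ 2 * (4 * Lam * (Th * (1 + Th' / (4 * om)) + 1 + L * P * Th / om)) :=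
        mul_le_mul_of_nonneg_left hb (by positivity)
    _ = sp * P * (4 * P * Lam * (Th * (1 + Th' / (4 * om)) + 1 + L * P * Th / om)) := by ring
    _ ≤ sp * P * (al * om) := mul_le_mul_of_nonneg_left hal (by positivity)
    _ = al * (P * om * sp) := by ring
    _ ≤ al * ∑ z ∈ symD A B, kapc p z * (wgt p A B (z.1 + z.2)
        * |((z.1 + z.2 : ℕ) : ℝ) - r|) := by
        refine mul_le_mul_of_nonneg_left hspw ?_
        by_contra hc
        push Not at hc
        have e1 : 0 ≤ 4 * P * Lam * (Th * (1 + Th' / (4 * om)) + 1 + L * P * Th / om) := by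
          positivity
        have := mul_neg_of_neg_of_pos hc hom0
        linarith
    _ < main := hmain

end Coin
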