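import Pool.Agent.Lib.Coin.EqStruct2

/-!
# Coin race: equal contents (M5c), class G: border sums, content (4, 4)
-/

namespace Coin

open Finset

variable {p : ℝ} {A B : List Bool}

theorem LamG (h0 : 0 < p) (h1 : p < 1) (ht : 2 ≤ A.count true) (hf : 2 ≤ A.count false) :
    wt p A * ∑ z ∈ bc A, kapc p z * |dl p z|
      ≤ (1 + 4 / 3 * (p * (1 - p))) * |dl p (cont A)| + 7 / 3 * (p * (1 - p)) := by
  have h2 := Lam_le_gen h0 h1 (A := A)
  have h3 := Sg_le_multi h0 h1 ht hf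
  have h4 := lamH_le_multi h0 h1 ht hf
  have h5 := lamT_le_multi h0 h1 ht hf
  have h6 := mul_le_mul_of_nonneg_right h3 (abs_nonneg (dl p (cont A)))
  linarith

theorem ClN_take_run {M : ℕ} {C : List Bool} (h : (M, 0) ∈ bc C) :
    C.take M = List.replicate M true := by
  obtain ⟨hk, hc⟩ := mem_bc_iff.1 h
  simp only [add_zero] at hk hc
  have hf : (C.take M).count (!true) = 0 := congrArg Prod.snd hc
  have := eq_replicate_of_count hf
  rwa [length_take_bd hk] at this

theorem pq_le_quarter (p : ℝ) : p * (1 - p) ≤ 1 / 4 := by nlinarith [sq_nonneg (2 * p - 1)]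

/-- in the content `(4, 4)` the top is the largest proper border -/
theorem G44_top (hcont : cont A = cont B) (h4 : cont A = (4, 4)) {x y : ℕ × ℕ}
    (hx : IsTop A B x) (hy : IsTop B A y) (h1 : y.1 < x.1) (h2 : x.2 < y.2) (hx2 : 2 ≤ x.1)
    (hy2 : 2 ≤ y.2) {c : ℕ × ℕ} (hc : c ∈ bc A) (hcl : c.1 + c.2 < A.length)
    (hxc : x.1 + x.2 ≤ c.1 + c.2) : c = x ∧ x.1 = 2 ∧ x.2 ≤ 1 := by
  have hxm := mem_sdiff.1 hx.mem
  have hym := mem_sdiff.1 hy.mem
  have a1 : A.count true = 4 := congrArg Prod.fst h4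
  have a2 : A.count false = 4 := congrArg Prod.snd h4
  have hlA := count_add A
  have hd := dichotomy hcont hxm.1 hym.1 h1 h2
  rw [a1, a2] at hd
  have hx1 : x.1 = 2 := by omega
  have hy1 : y.2 = 2 := by omega
  refine ⟨?_, hx1, by omega⟩
  have hch := bc_chain hxm.1 hc hxc
  by_cases heq : x.1 + x.2 = c.1 + c.2
  · exact Prod.ext (by omega) (by omega)
  · exfalso
    have hlt : x.1 + x.2 < c.1 + c.2 := by omega
    have hcB : c ∈ bc B := by
      by_contra hcB
      have := hx.max c (mem_sdiff.2 ⟨hc, hcB⟩)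
      omega
    have c1 := bc_lt_fst hxm.1 hc hlt (by omega)
    have hA : A ≠ [] := by
      rintro rfl
      simp at a1
    have hself := cont_self_mem hA
    have hls : (cont A).1 + (cont A).2 = A.length := count_add A
    have c2 := bc_lt_fst hc hself (by omega) (by rw [h4]; norm_num)
    have c3 := bc_lt_snd hc hself (by omega) (by rw [h4]; norm_num)
    rw [h4] at c2 c3
    simp only at c2 c3
    have c4 : y.1 + y.2 < c.1 + c.2 := by
      by_contra hcon
      have := (bc_chain hcB hym.1 (by omega)).1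
      omega
    have c5 := bc_lt_snd hym.1 hcB c4 (by
      have := (bc_chain hym.1 hcB c4.le).2
      omega)
    have e1 : c.1 = 3 := by omega
    have e2 : c.2 = 3 := by omega
    have t1 := cont_take hc
    have t2 := cont_take hcB
    have f1 : (A.take (c.1 + c.2)).count true = c.1 := congrArg Prod.fst t1
    have f2 : (A.take (c.1 + c.2)).count false = c.2 := congrArg Prod.snd t1
    have hd2 := dichotomy (A := A.take (c.1 + c.2)) (B := B.take (c.1 + c.2)) (by rw [t1, t2])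
      ((mem_bc_take hc).2 ⟨hxm.1, hxc⟩) ((mem_bc_take hcB).2 ⟨hym.1, c4.le⟩) h1 h2
    rw [f1, f2] at hd2
    omega

theorem G44_A (h0 : 0 < p) (h1 : p < 1) (hcont : cont A = cont B) (h4 : cont A = (4, 4))
    {x y : ℕ × ℕ} (hx : IsTop A B x) (hy : IsTop B A y) (hxy1 : y.1 < x.1) (hxy2 : x.2 < y.2)
    (hx2 : 2 ≤ x.1) (hy2 : 2 ≤ y.2) :
    Sg p A ≤ 13 / 12 ∧ wt p A * ∑ z ∈ bc A, kapc p z * |dl p z|
      ≤ |dl p (cont A)| + 16 / 3 * (p * (1 - p)) ^ 2 := by
  have hq : 0 < 1 - p := by linarith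
  have hxm := mem_sdiff.1 hx.mem
  have hym := mem_sdiff.1 hy.mem
  have a1 : A.count true = 4 := congrArg Prod.fst h4
  have a2 : A.count false = 4 := congrArg Prod.snd h4
  have hlA := count_add A
  have hA : A ≠ [] := by
    rintro rfl
    simp at a1
  have hd := dichotomy hcont hxm.1 hym.1 hxy1 hxy2
  rw [a1, a2] at hd
  obtain ⟨c, hc, hcl, hxc, hle, he⟩ := exists_top_bc hxm.1 (by omega)
  obtain ⟨rfl, g1, g2⟩ := G44_top hcont h4 hx hy hxy1 hxy2 hx2 hy2 hc hcl hxc
  have hpq0 : 0 < p * (1 - p) := mul_pos h0 hq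
  have hS : Sg p A - 1 ≤ 4 / 3 * (p * (1 - p)) ^ 2 := by
    have hk := (mem_bc_iff.1 hc).1
    rw [Sg_rec h0 h1 hA hk he, wt_drop_eq hc, a1, a2, g1]
    have hct := cont_take hc
    rcases Nat.lt_or_ge c.2 1 with hc0 | hc1
    · have hz : c = (2, 0) := Prod.ext g1 (by show c.2 = 0; omega)
      rw [hz] at hc ⊢
      have hrun := ClN_take_run hc
      simp only [add_zero] at hrun ⊢
      rw [hrun, Sg_replicate_true h0 h1]
      have e : 1 + p ^ (4 - 2) * (1 - p) ^ (4 - 0) * ((1 - p ^ 2) / (1 - p)) - 1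
          = (p * (1 - p)) ^ 2 * ((1 - p) * (1 - p ^ 2)) := by
        field_simp
        ring
      rw [e]
      have b1 : (1 - p) * (1 - p ^ 2) ≤ 1 := by nlinarith [sq_nonneg p]
      nlinarith [sq_nonneg (p * (1 - p))]
    · have hz : c.2 = 1 := by omega
      have t1 : (A.take (c.1 + c.2)).count true = c.1 := congrArg Prod.fst hct
      have t2 : (A.take (c.1 + c.2)).count false = c.2 := congrArg Prod.snd hct
      have hSc : Sg p (A.take (c.1 + c.2)) ≤ 4 / 3 :=
        Sg_le_four_thirds h0 h1 (List.count_pos_iff.1 (by omega)) (List.count_pos_iff.1 (by omega))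
      have hSc0 := Sg_pos h0 h1 (take_ne_nil hk)
      rw [g1, hz] at hSc hSc0
      rw [hz]
      have e1 : p ^ (4 - 2) * (1 - p) ^ (4 - 1) ≤ (p * (1 - p)) ^ 2 := by
        have : p ^ (4 - 2) * (1 - p) ^ (4 - 1) = (p * (1 - p)) ^ 2 * (1 - p) := by ring
        rw [this]
        exact mul_le_of_le_one_right (by positivity) (by linarith)
      have e2 := mul_le_mul e1 hSc hSc0.le (by positivity)
      linarith
  have hx4 := pq_le_quarter p
  have hsq : (p * (1 - p)) ^ 2 ≤ 1 / 16 := by nlinarith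
  refine ⟨by linarith, ?_⟩
  have hD : ∀ z ∈ bc A, z ≠ cont A → |dl p z| ≤ 4 := by
    intro z hz hne
    obtain ⟨z1, z2⟩ := hle z hz hne
    have z1' : (z.1 : ℝ) ≤ 2 := by exact_mod_cast (by omega : z.1 ≤ 2)
    have z2' : (z.2 : ℝ) ≤ 1 := by exact_mod_cast (by omega : z.2 ≤ 1)
    have n1 : (0 : ℝ) ≤ z.1 := Nat.cast_nonneg _
    have n2 : (0 : ℝ) ≤ z.2 := Nat.cast_nonneg _
    refine (abs_dl_le h0 h1 z).trans (max_le ?_ ?_) <;> nlinarith
  have h2 := Lam_le_D h0 h1 hA hD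
  linarith

theorem dl_swap (p : ℝ) (z : ℕ × ℕ) : dl (1 - p) z.swap = -dl p z := by
  unfold dl
  simp only [Prod.fst_swap, Prod.snd_swap]
  ring

theorem sum_abs_dl_map_not (p : ℝ) (B : List Bool) :
    ∑ z ∈ bc (B.map not), kapc (1 - p) z * |dl (1 - p) z| = ∑ z ∈ bc B, kapc p z * |dl p z| := by
  rw [bc_map_not, sum_image (fun a _ b _ hab => Prod.swap_injective hab)]
  refine sum_congr rfl (fun z _ => ?_)
  rw [kapc_swap, dl_swap, abs_neg]

theorem cont_map_not (A : List Bool) : cont (A.map not) = (cont A).swap := by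
  unfold cont
  rw [count_map_not, count_map_not]
  rfl

/-- content `(4, 4)`, tops `(2, ·)`, `(·, 2)` -/
theorem G44 (h0 : 0 < p) (h1 : p < 1) (hcont : cont A = cont B) (h4 : cont A = (4, 4))
    {x y : ℕ × ℕ} (hx : IsTop A B x) (hy : IsTop B A y) (hxy1 : y.1 < x.1) (hxy2 : x.2 < y.2)
    (hx2 : 2 ≤ x.1) (hy2 : 2 ≤ y.2) :
    Sg p A ≤ 13 / 12
      ∧ wt p A * ∑ z ∈ bc A, kapc p z * |dl p z| ≤ |dl p (cont A)| + 16 / 3 * (p * (1 - p)) ^ 2
      ∧ wt p B * ∑ z ∈ bc B, kapc p z * |dl p z| ≤ |dl p (cont B)| + 16 / 3 * (p * (1 - p)) ^ 2 := by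
  obtain ⟨a, b⟩ := G44_A h0 h1 hcont h4 hx hy hxy1 hxy2 hx2 hy2
  refine ⟨a, b, ?_⟩
  have h := (G44_A (p := 1 - p) (A := B.map not) (B := A.map not) (by linarith) (by linarith)
    (by rw [cont_map_not, cont_map_not, hcont]) (by rw [cont_map_not, ← hcont, h4]; rfl)
    hy.map_not hx.map_not (by simpa using hxy2) (by simpa using hxy1) (by simpa using hy2)
    (by simpa using hx2)).2
  rw [sum_abs_dl_map_not, wt_map_not, cont_map_not, dl_swap, abs_neg, sub_sub_cancel,
    mul_comm (1 - p)] at h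
  exact h

end Coin
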