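import Pool.Agent.Lib.Coin.Lam3

/-!
# Coin race: `lamH ≤ (7/6) p q` for words with at least two of both letters
-/

namespace Coin

open Finset

theorem run_le_of_one_head {Y : List Bool} {k m : ℕ} (hk : k ∈ bd Y)
    (hm : m ∈ bd (Y.take k)) (hmf : (Y.take m).count true = 0)
    (hd : (Y.drop k).count true = 1) : m ≤ (Y.drop k).count false := by
  have h := run_le_of_one_tail (Y := Y.map not) (k := k) (m := m)
    (by rw [bd_map_not]; exact hk) (by rw [← List.map_take, bd_map_not]; exact hm)
    (by rw [← List.map_take, count_map_not]; exact hmf)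
    (by rw [← List.map_drop, count_map_not]; exact hd)
  rwa [← List.map_drop, count_map_not] at h

theorem ineqA {z : ℝ} (h0 : 0 ≤ z) (h1 : z ≤ 1) : z * (1 + 2 * (z * (1 - z))) ≤ 7 / 6 := by
  nlinarith [mul_nonneg h0 (sq_nonneg (z - 1)), mul_nonneg (sub_nonneg.mpr h1) (sq_nonneg (z - 6 / 7)),
    mul_nonneg h0 (sq_nonneg (z - 6 / 7)), sq_nonneg (z - 6 / 7)]

theorem ineqB {p : ℝ} (h0 : 0 < p) (h1 : p < 1) :
    (1 - p) * (1 + 4 / 3 * (p * (1 - p))) + 7 / 6 * (p * (1 - p)) ≤ 7 / 6 := by
  nlinarith [mul_nonneg (sub_nonneg.mpr h1.le) (sq_nonneg (1 - 81 / 20 * p)),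
    mul_nonneg h0.le (sq_nonneg (1 - 15 / 2 * p)), pow_pos h0 3]

theorem run_term_le {p : ℝ} (h0 : 0 < p) (h1 : p < 1) {n : ℕ} (hn : 1 ≤ n) :
    ((n : ℝ) + 2) * p ^ n * (1 - p) ≤ 9 / 8 := by
  have h := pow_mul_le_one h0 h1 n
  have hp : 0 < p ^ n := pow_pos h0 n
  have hpn : p ^ n ≤ p := by
    calc p ^ n ≤ p ^ 1 := pow_le_pow_of_le_one h0.le h1.le hn
      _ = p := pow_one p
  have e : ((n : ℝ) + 2) * p ^ n * (1 - p) = p ^ n * (1 + n * (1 - p)) + p ^ n * (1 - 2 * p) := by
    ring
  rw [e]
  rcases le_total (1 - 2 * p) 0 with h2 | h2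
  · have : p ^ n * (1 - 2 * p) ≤ 0 := mul_nonpos_of_nonneg_of_nonpos hp.le h2
    linarith
  · have : p ^ n * (1 - 2 * p) ≤ p * (1 - 2 * p) := mul_le_mul_of_nonneg_right hpn h2
    nlinarith [sq_nonneg (4 * p - 1)]

/-- at least two of both letters: `lamH ≤ (7/6) p q` -/
theorem lamH_le_multi {p : ℝ} (h0 : 0 < p) (h1 : p < 1) {Y : List Bool} (ht : 2 ≤ Y.count true)
    (hf : 2 ≤ Y.count false) : lamH p Y ≤ 7 / 6 * (p * (1 - p)) := by
  induction hn : Y.length using Nat.strong_induction_on generalizing Y with
  | _ n ih =>
    have hq : 0 < 1 - p := by linarith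
    have hq1 : 1 - p ≤ 1 := by linarith
    have ht' : true ∈ Y := List.count_pos_iff.mp (by omega)
    have hf' : false ∈ Y := List.count_pos_iff.mp (by omega)
    have hY : Y ≠ [] := List.ne_nil_of_mem ht'
    have hpq : 0 < p * (1 - p) := mul_pos h0 hq
    rcases exists_top Y with he | ⟨k, hk, hlt, he⟩
    · rw [lamH_top p hY he]
      linarith
    · by_cases hz : (Y.take k).count false = 0
      · -- top border a run of heads
        obtain ⟨i, j, -, hj, -, hi1, -, -, -, hL⟩ := run_true h0 h1 hk hlt he hf' hz
        rw [hL]
        obtain ⟨i', rfl⟩ : ∃ i', i = i' + 1 := ⟨i - 1, by omega⟩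
        have hy0 : 0 < p ^ k := pow_pos h0 k
        have hy1 : p ^ k ≤ 1 := pow_le_one₀ h0.le h1.le
        have a1 := pow_mul_le_one h0 h1 i'
        have a2 : (1 - p) ^ j ≤ 1 - p := by
          calc (1 - p) ^ j ≤ (1 - p) ^ 1 := pow_le_pow_of_le_one hq.le hq1 (by omega)
            _ = 1 - p := pow_one _
        have hk0 : (0 : ℝ) ≤ k := Nat.cast_nonneg k
        have hi0 : (0 : ℝ) ≤ i' := Nat.cast_nonneg i'
        have b1 : ((((i' + 1 : ℕ) : ℝ)) * (1 - p) + p) * (1 - p ^ k) - k * (1 - p) * p ^ k ≤
            1 + i' * (1 - p) := by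
          push_cast
          have e1 : (((i' : ℝ) + 1) * (1 - p) + p) = 1 + i' * (1 - p) := by ring
          rw [e1]
          have e2 : 0 ≤ k * (1 - p) * p ^ k := by positivity
          have e3 : 0 ≤ (1 + i' * (1 - p)) * p ^ k := by positivity
          nlinarith
        have b2 : p ^ (i' + 1) * (1 - p) ^ j *
            (((((i' + 1 : ℕ) : ℝ)) * (1 - p) + p) * (1 - p ^ k) - k * (1 - p) * p ^ k) ≤
            p ^ (i' + 1) * (1 - p) ^ j * (1 + i' * (1 - p)) :=
          mul_le_mul_of_nonneg_left b1 (by positivity)
        refine b2.trans ?_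
        have e4 : p ^ (i' + 1) * (1 - p) ^ j * (1 + i' * (1 - p)) =
            p * (1 - p) ^ j * (p ^ i' * (1 + i' * (1 - p))) := by ring
        rw [e4]
        have b3 : 0 ≤ p * (1 - p) ^ j := by positivity
        have b4 : p * (1 - p) ^ j ≤ p * (1 - p) := mul_le_mul_of_nonneg_left a2 h0.le
        nlinarith
      · by_cases hz2 : (Y.take k).count true = 0
        · -- top border a run of tails
          obtain ⟨i, j, hi, -, hkj, hj1, -, -, -, hL⟩ := run_false h0 h1 hk hlt he ht' hz2
          rw [hL]
          obtain ⟨i', rfl⟩ : ∃ i', i = i' + 1 := ⟨i - 1, by omega⟩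
          have hy0 : 0 < (1 - p) ^ k := pow_pos hq k
          have hy1 : (1 - p) ^ k ≤ 1 := pow_le_one₀ hq.le hq1
          have a1 : (1 - p) ^ j ≤ (1 - p) ^ k := pow_le_pow_of_le_one hq.le hq1 hkj
          have a2 : (1 - p) ^ j ≤ 1 - p := by
            calc (1 - p) ^ j ≤ (1 - p) ^ 1 := pow_le_pow_of_le_one hq.le hq1 hj1
              _ = 1 - p := pow_one _
          have a3 := x_one_sub_le ((1 - p) ^ k)
          have a4 : 0 ≤ (1 - p) ^ j := by positivity
          have e : (((i' + 1 : ℕ) : ℝ) + 1) * p ^ (i' + 1) * (1 - p) ^ (j + 1) *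
              (1 - (1 - p) ^ k) =
              p * (1 - p) * (((i' : ℝ) + 2) * p ^ i' * ((1 - p) ^ j * (1 - (1 - p) ^ k))) := by
            push_cast
            ring
          rw [e, mul_comm (7 / 6 : ℝ)]
          apply mul_le_mul_of_nonneg_left _ hpq.le
          by_cases hi0 : i' = 0
          · subst hi0
            simp only [Nat.cast_zero, pow_zero, zero_add, mul_one]
            nlinarith
          · have b1 := run_term_le h0 h1 (n := i') (by omega)
            have b2 : (1 - p) ^ j * (1 - (1 - p) ^ k) ≤ 1 - p := by nlinarith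
            have b3 : 0 ≤ ((i' : ℝ) + 2) * p ^ i' := by positivity
            have b4 : ((i' : ℝ) + 2) * p ^ i' * ((1 - p) ^ j * (1 - (1 - p) ^ k)) ≤
                ((i' : ℝ) + 2) * p ^ i' * (1 - p) := mul_le_mul_of_nonneg_left b2 b3
            linarith
        · -- both letters in the top border
          have hdt : 1 ≤ (Y.drop k).count true := List.count_pos_iff.mpr (mem_drop hk hlt ht')
          have hdf : 1 ≤ (Y.drop k).count false := List.count_pos_iff.mpr (mem_drop hk hlt hf')
          have hS43 := Sg_le_four_thirds h0 h1 (mem_of_count_ne hz2) (mem_of_count_ne hz)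
          have hS0 := Sg_pos h0 h1 (take_ne_nil hk)
          have hL0 := lamH_nonneg h0 h1 (Y.take k)
          rw [lamH_rec p hY hk he, wt]
          obtain ⟨i, hi⟩ : ∃ i, (Y.drop k).count true = i + 1 := ⟨_, (Nat.sub_add_cancel hdt).symm⟩
          obtain ⟨j, hj⟩ : ∃ j, (Y.drop k).count false = j + 1 := ⟨_, (Nat.sub_add_cancel hdf).symm⟩
          rw [hi, hj]
          set S := Sg p (Y.take k) with hSdef
          set Λ := lamH p (Y.take k) with hΛdef
          have e : p ^ (i + 1) * (1 - p) ^ (j + 1) * ((1 - p) * ((i + 1 : ℕ) : ℝ) * S + Λ) =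
              p * (1 - p) * ((1 - p) ^ j * ((((i : ℝ) + 1) * p ^ i * (1 - p)) * S + p ^ i * Λ)) := by
            push_cast
            ring
          rw [e, mul_comm (7 / 6 : ℝ)]
          apply mul_le_mul_of_nonneg_left _ hpq.le
          have hqj0 : 0 < (1 - p) ^ j := pow_pos hq j
          have hqj1 : (1 - p) ^ j ≤ 1 := pow_le_one₀ hq.le hq1
          -- a general bound for `Λ`
          have hcases : (Y.take k).count false = 1 ∨ (Y.take k).count true = 1 ∨
              (2 ≤ (Y.take k).count true ∧ 2 ≤ (Y.take k).count false) := by omega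
          have hpq4 := x_one_sub_le p
          by_cases hi0 : i = 0
          · subst hi0
            simp only [Nat.cast_zero, zero_add, pow_zero, one_mul]
            rcases hcases with hc | hc | ⟨hc1, hc2⟩
            · -- one tail
              obtain ⟨m, i', hmi, hcnt, hS, hL, hb⟩ := one_tail_data h0 h1 hc
              rw [← hSdef] at hS
              rw [← hΛdef] at hL
              by_cases hm0 : m = 0
              · subst hm0
                have hS1 : S = 1 := by rw [hS]; simp
                have hL1 : Λ = 0 := by rw [hL]; simp [hfun]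
                rw [hS1, hL1]
                nlinarith
              · by_cases hj0 : j = 0
                · subst hj0
                  have hm1 : m ≤ 1 := by
                    obtain ⟨hb1, hb2⟩ := hb hm0
                    have hmk : m ≤ k := by
                      have := bd_le hb1
                      rwa [length_take_bd hk] at this
                    rw [List.take_take, min_eq_left hmk] at hb2
                    have := run_le_of_one_tail hk hb1 hb2 (by omega)
                    omega
                  have hm : m = 1 := by omega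
                  subst hm
                  obtain ⟨n', rfl⟩ : ∃ n', i' = n' + 1 := ⟨i' - 1, by omega⟩
                  have hL' : Λ = p * (1 - p) * (((n' : ℝ) + 1) * p ^ n' * (1 - p)) := by
                    rw [hL]
                    simp only [hfun]
                    push_cast
                    ring
                  have hS' : S ≤ 1 + p * (1 - p) := by
                    rw [hS, pow_one]
                    have : p ^ (n' + 1) ≤ p := by
                      calc p ^ (n' + 1) ≤ p ^ 1 := pow_le_pow_of_le_one h0.le h1.le (by omega)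
                        _ = p := pow_one p
                    nlinarith
                  simp only [pow_zero, one_mul]
                  by_cases hn0 : n' = 0
                  · subst hn0
                    simp only [Nat.cast_zero, zero_add, pow_zero, one_mul] at hL'
                    rw [hL']
                    have hA := ineqA hq.le hq1
                    nlinarith
                  · have hh := pow_gap_le_half h0 (m := n') (by omega)
                    have hL2 : Λ ≤ p * (1 - p) * (1 / 2) := by
                      rw [hL']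
                      exact mul_le_mul_of_nonneg_left hh hpq.le
                    have h3 : (1 - p) * S ≤ (1 - p) * (1 + p * (1 - p)) :=
                      mul_le_mul_of_nonneg_left hS' hq.le
                    have h4 : (1 - p) * (1 + p * (1 - p)) + p * (1 - p) * (1 / 2) ≤ 7 / 6 := by
                      nlinarith [mul_pos h0 hq, mul_pos h0 (mul_pos hq hq)]
                    linarith
                · -- two more tails
                  have hS' : S ≤ 1 + p := by
                    rw [hS]
                    have a1 : p ^ i' ≤ p := by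
                      calc p ^ i' ≤ p ^ 1 := pow_le_pow_of_le_one h0.le h1.le (by omega)
                        _ = p := pow_one p
                    have a2 : 0 < p ^ m := pow_pos h0 m
                    have a3 : 0 < p ^ i' := pow_pos h0 i'
                    nlinarith
                  have hL' := lamH_le_one_tail h0 h1 hc
                  rw [← hΛdef] at hL'
                  have hqj : (1 - p) ^ j ≤ 1 - p := by
                    calc (1 - p) ^ j ≤ (1 - p) ^ 1 := pow_le_pow_of_le_one hq.le hq1 (by omega)
                      _ = 1 - p := pow_one _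
                  have b1 : (1 - p) * S + Λ ≤ (1 - p) * (1 + p) + (1 + 2 * p) / 8 := by nlinarith
                  have b2 : 0 ≤ (1 - p) * S + Λ := by positivity
                  have b3 : (1 - p) ^ j * ((1 - p) * S + Λ) ≤
                      (1 - p) * ((1 - p) * (1 + p) + (1 + 2 * p) / 8) :=
                    mul_le_mul hqj b1 b2 hq.le
                  nlinarith [mul_pos h0 h0, mul_pos hpq h0]
            · -- one head
              obtain ⟨m, j', hmj, hcnt, hS, hL, hb⟩ := one_head_data h0 h1 hc
              rw [← hSdef] at hS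
              rw [← hΛdef] at hL
              have hy0 : 0 < (1 - p) ^ m := pow_pos hq m
              have hy1 : (1 - p) ^ m ≤ 1 := pow_le_one₀ hq.le hq1
              have hj'0 : 0 < (1 - p) ^ j' := pow_pos hq j'
              have e2 : (1 - p) ^ j * ((1 - p) * S + Λ) =
                  (1 - p) ^ (j + 1) * (1 + 2 * ((1 - p) ^ j' * (1 - (1 - p) ^ m))) := by
                rw [hS, hL]
                ring
              rw [e2]
              have hmj1 : m ≤ j + 1 := by
                by_cases hm0 : m = 0
                · omega
                · obtain ⟨hb1, hb2⟩ := hb hm0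
                  have hmk : m ≤ k := by
                    have := bd_le hb1
                    rwa [length_take_bd hk] at this
                  rw [List.take_take, min_eq_left hmk] at hb2
                  have := run_le_of_one_head hk hb1 hb2 (by omega)
                  omega
              have a1 : (1 - p) ^ (j + 1) ≤ (1 - p) ^ m := pow_le_pow_of_le_one hq.le hq1 hmj1
              have a2 : (1 - p) ^ j' ≤ (1 - p) ^ m := pow_le_pow_of_le_one hq.le hq1 hmj
              have a3 : (1 - p) ^ j' * (1 - (1 - p) ^ m) ≤ (1 - p) ^ m * (1 - (1 - p) ^ m) :=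
                mul_le_mul_of_nonneg_right a2 (by linarith)
              have a4 : 0 ≤ (1 - p) ^ j' * (1 - (1 - p) ^ m) :=
                mul_nonneg hj'0.le (by linarith)
              calc (1 - p) ^ (j + 1) * (1 + 2 * ((1 - p) ^ j' * (1 - (1 - p) ^ m)))
                  ≤ (1 - p) ^ m * (1 + 2 * ((1 - p) ^ m * (1 - (1 - p) ^ m))) :=
                    mul_le_mul a1 (by linarith) (by linarith) hy0.le
                _ ≤ 7 / 6 := ineqA hy0.le hy1
            · -- both letters at least twice
              have hL' := ih k (by omega) hc1 hc2 (length_take_bd hk)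
              rw [← hΛdef] at hL'
              have hS' := Sg_le_multi h0 h1 hc1 hc2
              rw [← hSdef] at hS'
              have b1 : (1 - p) * S + Λ ≤ 7 / 6 := by
                have := ineqB h0 h1
                nlinarith
              have b2 : 0 ≤ (1 - p) * S + Λ := by positivity
              nlinarith
          · -- at least two heads lost
            have hh := pow_gap_le_half h0 (p := p) (m := i) (by omega)
            have hpi0 : 0 < p ^ i := pow_pos h0 i
            have hpi1 : p ^ i ≤ 1 := pow_le_one₀ h0.le h1.le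
            have hΛ : Λ ≤ 3 / 8 := by
              rcases hcases with hc | hc | ⟨hc1, hc2⟩
              · have := lamH_le_one_tail h0 h1 hc
                rw [← hΛdef] at this
                linarith
              · have := lamH_le_one_head h0 h1 hc
                rw [← hΛdef] at this
                linarith
              · have := ih k (by omega) hc1 hc2 (length_take_bd hk)
                rw [← hΛdef] at this
                nlinarith
            have b1 : (((i : ℝ) + 1) * p ^ i * (1 - p)) * S ≤ 1 / 2 * (4 / 3) :=
              mul_le_mul hh hS43 hS0.le (by norm_num)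
            have b2 : p ^ i * Λ ≤ 1 * (3 / 8) := mul_le_mul hpi1 hΛ hL0 zero_le_one
            have b3 : 0 ≤ (((i : ℝ) + 1) * p ^ i * (1 - p)) * S + p ^ i * Λ := by positivity
            nlinarith

/-- every word with both letters: `lamH ≤ 3/8` -/
theorem lamH_le {p : ℝ} (h0 : 0 < p) (h1 : p < 1) {Y : List Bool} (ht : true ∈ Y)
    (hf : false ∈ Y) : lamH p Y ≤ 3 / 8 := by
  have h2 : 1 ≤ Y.count true := List.count_pos_iff.mpr ht
  have h3 : 1 ≤ Y.count false := List.count_pos_iff.mpr hf
  have hcases : Y.count false = 1 ∨ Y.count true = 1 ∨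
      (2 ≤ Y.count true ∧ 2 ≤ Y.count false) := by omega
  rcases hcases with hc | hc | ⟨hc1, hc2⟩
  · have := lamH_le_one_tail h0 h1 hc
    linarith
  · have := lamH_le_one_head h0 h1 hc
    linarith
  · have := lamH_le_multi h0 h1 hc1 hc2
    have := x_one_sub_le p
    nlinarith

theorem lamT_eq (p : ℝ) (Y : List Bool) : lamT p Y = lamH (1 - p) (Y.map not) := by
  rw [lamH_map_not, sub_sub_cancel]

/-- every word with both letters: `lamT ≤ 3/8` -/
theorem lamT_le {p : ℝ} (h0 : 0 < p) (h1 : p < 1) {Y : List Bool} (ht : true ∈ Y)
    (hf : false ∈ Y) : lamT p Y ≤ 3 / 8 := by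
  rw [lamT_eq]
  exact lamH_le (by linarith) (by linarith) (by simpa using hf) (by simpa using ht)

theorem lamT_le_multi {p : ℝ} (h0 : 0 < p) (h1 : p < 1) {Y : List Bool} (ht : 2 ≤ Y.count true)
    (hf : 2 ≤ Y.count false) : lamT p Y ≤ 7 / 6 * (p * (1 - p)) := by
  rw [lamT_eq]
  have := lamH_le_multi (p := 1 - p) (by linarith) (by linarith) (Y := Y.map not)
    (by rw [count_map_not]; exact hf) (by rw [count_map_not]; exact ht)
  rw [sub_sub_cancel] at this
  linarith

theorem lamT_le_one_head {p : ℝ} (h0 : 0 < p) (h1 : p < 1) {Z : List Bool}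
    (hZ : Z.count true = 1) : lamT p Z ≤ (3 - 2 * p) / 8 := by
  rw [lamT_eq]
  have := lamH_le_one_tail (p := 1 - p) (by linarith) (by linarith) (Z := Z.map not)
    (by rw [count_map_not]; exact hZ)
  linarith

theorem lamT_le_one_tail {p : ℝ} (h0 : 0 < p) (h1 : p < 1) {Z : List Bool}
    (hZ : Z.count false = 1) : lamT p Z ≤ p / 4 := by
  rw [lamT_eq]
  have := lamH_le_one_head (p := 1 - p) (by linarith) (by linarith) (Z := Z.map not)
    (by rw [count_map_not]; exact hZ)
  linarith

/-- the incomparable pair: `A` has at least two heads, `B` at least two tails -/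
theorem lamH_add_lamT_le {p : ℝ} (h0 : 0 < p) (h1 : p < 1) {A B : List Bool}
    (hA2 : 2 ≤ A.count true) (hA1 : 1 ≤ A.count false) (hB1 : 1 ≤ B.count true)
    (hB2 : 2 ≤ B.count false) : lamH p A + lamT p B ≤ 7 / 12 := by
  have hpq := x_one_sub_le p
  have hA : A.count false = 1 ∨ 2 ≤ A.count false := by omega
  have hB : B.count true = 1 ∨ 2 ≤ B.count true := by omega
  rcases hA with hA | hA <;> rcases hB with hB | hB
  · have a := lamH_le_one_tail h0 h1 hA
    have b := lamT_le_one_head h0 h1 hB
    linarith
  · have a := lamH_le_one_tail h0 h1 hA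
    have b := lamT_le_multi h0 h1 hB hB2
    nlinarith [sq_nonneg (p - 17 / 28)]
  · have a := lamH_le_multi h0 h1 hA2 hA
    have b := lamT_le_one_head h0 h1 hB
    nlinarith [sq_nonneg (p - 11 / 28)]
  · have a := lamH_le_multi h0 h1 hA2 hA
    have b := lamT_le_multi h0 h1 hB hB2
    linarith

end Coin
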