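import Pool.Agent.Lib.Coin.Unary
import Pool.Agent.Lib.Coin.Lam4

/-!
# Coin race: runs of heads against words with at least two tails (module M5b)
-/

namespace Coin

open Finset

/-- `(1 - q)^a (1 + a q + a (a+1) q² / 2 + a (a+1) (a+2) q³ / 6) ≤ 1` -/
theorem pow_mul_cubic_le_one {p : ℝ} (h0 : 0 < p) (h1 : p < 1) (a : ℕ) :
    p ^ a * (1 + a * (1 - p) + a * (a + 1) / 2 * (1 - p) ^ 2
      + a * (a + 1) * (a + 2) / 6 * (1 - p) ^ 3) ≤ 1 := by
  induction a with
  | zero => simp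
  | succ a ih =>
    refine le_trans ?_ ih
    rw [pow_succ, mul_assoc]
    refine mul_le_mul_of_nonneg_left ?_ (pow_nonneg h0.le _)
    push_cast
    have hq : 0 ≤ 1 - p := by linarith
    have h3 : 0 ≤ ((a : ℝ) + 1) * (a + 2) * (a + 3) / 6 * (1 - p) ^ 4 := by positivity
    have e : p * (1 + ((a : ℝ) + 1) * (1 - p) + (a + 1) * (a + 1 + 1) / 2 * (1 - p) ^ 2
      + (a + 1) * (a + 1 + 1) * (a + 1 + 2) / 6 * (1 - p) ^ 3)
      = 1 + a * (1 - p) + a * (a + 1) / 2 * (1 - p) ^ 2
      + a * (a + 1) * (a + 2) / 6 * (1 - p) ^ 3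
      - ((a : ℝ) + 1) * (a + 2) * (a + 3) / 6 * (1 - p) ^ 4 := by ring
    rw [e]
    linarith

theorem real_unary_aux {t q : ℝ} (ht : 0 ≤ t) (hq : 0 ≤ q) :
    (2 + t - 2 * q) * (t + q - 13 / 8)
      < 5 / 8 * (1 + t + t * (t + q) / 2 + t * (t + q) * (t + 2 * q) / 6) := by
  have hA : 0 < 31 / 8 + t / 4 - 11 / 16 * t ^ 2 + 5 / 48 * t ^ 3 := by
    nlinarith [sq_nonneg (t - 4.24), mul_nonneg ht (sq_nonneg (t - 4.24)), sq_nonneg t]
  rcases le_total t (13 / 5) with h | h
  · nlinarith [sq_nonneg (4 * q - 21 / 4 + 21 / 16 * t), mul_nonneg ht hq,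
      mul_nonneg (mul_nonneg ht hq) hq, mul_nonneg (mul_nonneg ht hq) ht, sq_nonneg t,
      mul_nonneg ht (sub_nonneg.2 h), mul_nonneg ht (sq_nonneg t)]
  · have hB : 0 ≤ -(21 / 4) + 21 / 16 * t + 5 / 16 * t ^ 2 := by nlinarith
    nlinarith [mul_nonneg hq hB, mul_nonneg (sq_nonneg q) ht]

/-- the real inequality for runs of heads -/
theorem real_unary {p : ℝ} (h0 : 0 < p) (h1 : p < 1) {a : ℕ} (ha : 2 ≤ a) :
    p ^ a * (2 + ((a : ℝ) - 2) * (1 - p)) * (((a : ℝ) + 1) * (1 - p) - 13 / 8) < 5 / 8 := by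
  set q := 1 - p with hqd
  have hq : 0 < q := by linarith
  have hX := pow_mul_cubic_le_one h0 h1 a
  rw [← hqd] at hX
  have hXp : 0 < p ^ a := pow_pos h0 a
  have haR : (2 : ℝ) ≤ a := by exact_mod_cast ha
  have key := real_unary_aux (t := a * q) (q := q) (by positivity) hq.le
  have e1 : (1 + (a : ℝ) * q + a * q * (a * q + q) / 2 + a * q * (a * q + q) * (a * q + 2 * q) / 6)
      = 1 + a * q + a * (a + 1) / 2 * q ^ 2 + a * (a + 1) * (a + 2) / 6 * q ^ 3 := by ring
  rw [e1] at key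
  have e2 : (2 + (a : ℝ) * q - 2 * q) * (a * q + q - 13 / 8)
      = (2 + ((a : ℝ) - 2) * q) * (((a : ℝ) + 1) * q - 13 / 8) := by ring
  rw [e2] at key
  have := mul_lt_mul_of_pos_left key hXp
  calc p ^ a * (2 + ((a : ℝ) - 2) * q) * (((a : ℝ) + 1) * q - 13 / 8)
      = p ^ a * ((2 + ((a : ℝ) - 2) * q) * (((a : ℝ) + 1) * q - 13 / 8)) := by ring
    _ < p ^ a * (5 / 8 * (1 + a * q + a * (a + 1) / 2 * q ^ 2
        + a * (a + 1) * (a + 2) / 6 * q ^ 3)) := this
    _ = 5 / 8 * (p ^ a * (1 + a * q + a * (a + 1) / 2 * q ^ 2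
        + a * (a + 1) * (a + 2) / 6 * q ^ 3)) := by ring
    _ ≤ 5 / 8 := by linarith


/-! ## mirror image -/

theorem G_neg (p : ℝ) (A B : List Bool) : G p A B = - G p B A := by unfold G; ring

/-- the mirror image of `UpAtTies` -/
theorem UpAtTies.mirror {A B : List Bool} (h : UpAtTies (B.map not) (A.map not)) :
    UpAtTies A B := by
  intro p h0 h1 hG
  have e : G (1 - p) (B.map not) (A.map not) = 0 := by
    rw [G_map_not, sub_sub_cancel, G_neg, hG, neg_zero]
  obtain ⟨d, hd, hder⟩ := h (1 - p) (by linarith) (by linarith) e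
  refine ⟨d, hd, ?_⟩
  have h2 : HasDerivAt (fun x : ℝ => 1 - x) (-1) p := by
    have h := (hasDerivAt_const p (1 : ℝ)).sub (hasDerivAt_id p)
    rw [zero_sub] at h
    exact h
  have h3 := (hder.comp p h2).neg
  have h4 : (fun x => G x A B) = -((fun x => G x (B.map not) (A.map not)) ∘ fun x => 1 - x) := by
    funext x
    simp only [Pi.neg_apply, Function.comp]
    rw [G_map_not, sub_sub_cancel, G_neg]
  rw [h4]
  refine h3.congr_deriv ?_
  ring

/-- the run `T^a` -/
def tt (a : ℕ) : List Bool := List.replicate a false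

theorem tt_map_not (a : ℕ) : (tt a).map not = hh a := by simp [tt, hh]

theorem hh_map_not (a : ℕ) : (hh a).map not = tt a := by simp [tt, hh]

theorem tt_ne {a : ℕ} (ha : 1 ≤ a) : tt a ≠ [] := by
  unfold tt
  rw [Ne, List.replicate_eq_nil_iff]
  omega

theorem count_true_tt (a : ℕ) : (tt a).count true = 0 := by simp [tt, List.count_replicate]

theorem count_false_tt (a : ℕ) : (tt a).count false = a := by simp [tt]

theorem lossT_eq (p : ℝ) (A : List Bool) (b : ℕ → ℝ) :
    lossT p A b = lossH (1 - p) (A.map not) b := by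
  have : pm (1 - p) (A.map not) = pm p A := by
    funext n; rw [pm_map_not, sub_sub_cancel]
  simp only [lossT, lossH, bd_map_not, kap_map_not, count_map_not, ← List.map_take,
    sub_sub_cancel, Bool.not_true, this]

theorem Om_map_not (p : ℝ) (A : List Bool) (b : ℕ → ℝ) :
    Om (1 - p) (A.map not) b = Om p A b := by
  have : pm (1 - p) (A.map not) = pm p A := by
    funext n; rw [pm_map_not, sub_sub_cancel]
  simp only [Om, bd_map_not, kap_map_not, sub_sub_cancel, this]

theorem lossT_tt_le {p : ℝ} (h0 : 0 < p) (h1 : p < 1) {a : ℕ} (ha : 1 ≤ a) {b : ℕ → ℝ}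
    (hb : IsProb b) : lossT p (tt a) b ≤ (1 - p) * Om p (tt a) b := by
  rw [lossT_eq, ← Om_map_not p (tt a), tt_map_not]
  exact lossH_hh_le (by linarith) (by linarith) ha hb

theorem lossH_one (p : ℝ) (b : ℕ → ℝ) : lossH p (hh 1) b = 0 := by
  unfold lossH
  rw [bd_hh]
  simp [hh]

theorem lossT_one (p : ℝ) (b : ℕ → ℝ) : lossT p (tt 1) b = 0 := by
  rw [lossT_eq, tt_map_not, lossH_one]

/-- excess for a single head -/
theorem Om_le_single {p : ℝ} (h0 : 0 < p) (h1 : p < 1) {B : List Bool} (hB : B ≠ [])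
    (hG : G p (hh 1) B = 0) : Om p B (pm p (hh 1)) ≤ (1 + p / (2 - p)) / 2 := by
  have hs : Strad 0 (srv (pm p (hh 1))) := by
    intro m n
    have hne := hh_ne (le_refl 1)
    rw [srv_pm p hne, srv_pm p hne, srv_pm p hne]
    have := strad_hh_aux h0 h1 (le_refl 1) m n
    simpa using this
  have hz := haz_hh h0 h1 (le_refl 1)
  rw [pow_one] at hz
  have := Om_le_of h0 h1 (hh_ne (le_refl 1)) hB hG h0.le h1 le_rfl zero_le_one hz hs
  refine this.trans (le_of_eq ?_)
  have : 2 - p ≠ 0 := by linarith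
  field_simp
  ring

/-- **two runs of different letters** -/
theorem up_run_run {a d : ℕ} (ha : 1 ≤ a) (hd : 1 ≤ d) (had : a = 1 ∨ 2 ≤ d) :
    UpAtTies (hh a) (tt d) := by
  intro p h0 h1 hG
  have pA := isProb_pm h0 h1 (hh_ne ha)
  have pB := isProb_pm h0 h1 (tt_ne hd)
  have hG' : G p (tt d) (hh a) = 0 := by rw [G_neg, hG, neg_zero]
  have o1 := Om_le_one h0 h1 (hh_ne ha) (tt_ne hd) hG
  have o2 := Om_le_one h0 h1 (tt_ne hd) (hh_ne ha) hG'
  have q0 : 0 < 1 - p := by linarith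
  have l2 := lossT_tt_le h0 h1 hd pA
  have hdR : (1 : ℝ) ≤ d := by exact_mod_cast hd
  have haR : (1 : ℝ) ≤ a := by exact_mod_cast ha
  have hct : ((tt d).count true : ℝ) = 0 := by rw [count_true_tt]; simp
  have hcf : ((hh a).count false : ℝ) = 0 := by rw [count_false_hh]; simp
  rcases Nat.eq_or_lt_of_le ha with ha1 | ha2
  · subst ha1
    have l1 : lossH p (hh 1) (pm p (tt d)) ≤ 0 * Om p (hh 1) (pm p (tt d)) := by
      rw [lossH_one, zero_mul]
    rcases Nat.eq_or_lt_of_le hd with hd1 | hd2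
    · subst hd1
      have l3 : lossT p (tt 1) (pm p (hh 1)) ≤ 0 * Om p (tt 1) (pm p (hh 1)) := by
        rw [lossT_one, zero_mul]
      refine up_of_four h0 h1 (hh_ne ha) (tt_ne hd) hG (eA := 1) (eB := 1) l1 l3
        (by linarith) (by linarith) ?_
      rw [hct, hcf, count_true_hh, count_false_tt]
      rw [max_eq_left (by push_cast; linarith), max_eq_left (by push_cast; linarith)]
      push_cast
      linarith
    · have hd2R : (2 : ℝ) ≤ d := by exact_mod_cast hd2
      have o3 := Om_le_single h0 h1 (tt_ne hd) hG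
      refine up_of_four h0 h1 (hh_ne ha) (tt_ne hd) hG (eA := p / (2 - p)) (eB := 1) l1 l2
        o3 (by linarith) ?_
      rw [hct, hcf, count_true_hh, count_false_tt]
      have hx : p / (2 - p) ≤ p := div_le_self h0.le (by linarith)
      have hx0 : 0 ≤ p / (2 - p) := div_nonneg h0.le (by linarith)
      have hdp : 0 < (d : ℝ) * p := by positivity
      rw [max_eq_left (b := 0 - (((1 : ℕ) : ℝ) * (1 - p) - 0 * p)) (by push_cast; linarith)]
      rcases le_total ((0 : ℝ) * (1 - p) - d * p + (1 - p)) 0 with hc | hc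
      · rw [max_eq_left hc]
        push_cast
        linarith
      · rw [max_eq_right hc]
        have h5 : p / (2 - p) * (0 * (1 - p) - d * p + (1 - p)) ≤ p * 1 := by
          refine mul_le_mul hx ?_ hc h0.le
          nlinarith
        push_cast
        nlinarith
  · have hd2 : 2 ≤ d := by omega
    have ha2R : (2 : ℝ) ≤ a := by exact_mod_cast ha2
    have hd2R : (2 : ℝ) ≤ d := by exact_mod_cast hd2
    have l1 := lossH_hh_le h0 h1 ha pB
    refine up_of_four h0 h1 (hh_ne ha) (tt_ne hd) hG (eA := 1) (eB := 1) l1 l2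
      (by linarith) (by linarith) ?_
    rw [hct, hcf, count_true_hh, count_false_tt]
    have h6 : 2 * (1 - p) ≤ a * (1 - p) := by nlinarith
    have h7 : 2 * p ≤ d * p := by nlinarith
    rcases le_total ((0 : ℝ) * (1 - p) - d * p + (1 - p)) 0 with hc | hc
    · rw [max_eq_left hc]
      rcases le_total (p - ((a : ℝ) * (1 - p) - 0 * p)) 0 with hc2 | hc2
      · rw [max_eq_left hc2]; linarith
      · rw [max_eq_right hc2]; linarith
    · rw [max_eq_right hc]
      rcases le_total (p - ((a : ℝ) * (1 - p) - 0 * p)) 0 with hc2 | hc2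
      · rw [max_eq_left hc2]; linarith
      · exfalso; linarith

/-- all pairs of runs of different letters -/
theorem up_run_run' {a d : ℕ} (ha : 1 ≤ a) (hd : 1 ≤ d) : UpAtTies (hh a) (tt d) := by
  by_cases h : a = 1 ∨ 2 ≤ d
  · exact up_run_run ha hd h
  · push Not at h
    have hd1 : d = 1 := by omega
    refine UpAtTies.mirror ?_
    rw [tt_map_not, hh_map_not]
    exact up_run_run hd ha (Or.inl hd1)

/-! ## a run of heads against a word with both letters and at least two tails -/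

/-- excess for a run of heads -/
theorem Om_le_hh {p : ℝ} (h0 : 0 < p) (h1 : p < 1) {a : ℕ} (ha : 2 ≤ a) {B : List Bool}
    (hB : B ≠ []) (hG : G p (hh a) B = 0) :
    Om p B (pm p (hh a)) ≤ (1 + p ^ a * (2 + ((a : ℝ) - 2) * (1 - p))) / 2 := by
  have haR : (2 : ℝ) ≤ a := by exact_mod_cast ha
  have hX : 0 < p ^ a := pow_pos h0 a
  have hX1 : p ^ a < 1 := pow_lt_one₀ h0.le h1 (by omega)
  have hq : 0 < 1 - p := by linarith
  have hs := strad_hh h0 h1 ha
  have hz := haz_hh h0 h1 (show 1 ≤ a by omega)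
  have he0 : 0 ≤ p ^ a * (1 + ((a : ℝ) - 2) * (1 - p)) := by
    refine mul_nonneg hX.le ?_
    nlinarith
  have he1 : p ^ a * (1 + ((a : ℝ) - 2) * (1 - p)) ≤ 1 := by
    refine le_trans (mul_le_mul_of_nonneg_left ?_ hX.le) (pow_mul_le_one h0 h1 a)
    nlinarith
  have key := Om_le_of h0 h1 (hh_ne (show 1 ≤ a by omega)) hB hG hX.le hX1 he0 he1 hz hs
  refine key.trans ?_
  set X := p ^ a
  set e := X * (1 + ((a : ℝ) - 2) * (1 - p)) with he
  have h2X : 0 < 2 - X := by linarith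
  have e1 : (2 - 2 * X) / (2 - X) = 1 - X / (2 - X) := by field_simp; ring
  have e2 : X / (2 - X) ≤ X := div_le_self hX.le (by linarith)
  have e3 : 0 ≤ X / (2 - X) := div_nonneg hX.le h2X.le
  have e4 : X * (2 + ((a : ℝ) - 2) * (1 - p)) = e + X := by rw [he]; ring
  rw [e1, e4]
  nlinarith [mul_nonneg he0 e3]

/-- a run of heads against a word `B` with `1 ≤ c < a` heads and `d ≥ 2` tails; the data of `B`
enter only through `lB` and `eB` -/
theorem up_run_of {p : ℝ} (h0 : 0 < p) (h1 : p < 1) {a : ℕ} {B : List Bool} (hB : B ≠ [])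
    (ha : 2 ≤ a) (hc : B.count true + 1 ≤ a) (hd : 2 ≤ B.count false)
    (hG : G p (hh a) B = 0) {lB eB : ℝ}
    (h2 : lossT p B (pm p (hh a)) ≤ lB * Om p B (pm p (hh a)))
    (h3 : lB ≤ 3 / 8 + 1 / 2 * (((a : ℝ) - B.count true - 1) * (1 - p)))
    (h4 : Om p (hh a) (pm p B) ≤ (1 + eB) / 2)
    (h5 : a * (1 - p) < p → eB ≤ 5 / 8) :
    ∃ d : ℝ, 0 < d ∧ HasDerivAt (fun x => G x (hh a) B) d p := by
  have ha1 : 1 ≤ a := by omega
  have pB := isProb_pm h0 h1 hB
  have l1 := lossH_hh_le h0 h1 ha1 pB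
  have o1 := Om_le_hh h0 h1 ha hB hG
  refine up_of_four h0 h1 (hh_ne ha1) hB hG l1 h2 o1 h4 ?_
  have hcf : ((hh a).count false : ℝ) = 0 := by rw [count_false_hh]; simp
  rw [hcf, count_true_hh]
  set c : ℝ := (B.count true : ℝ) with hcd
  set d : ℝ := (B.count false : ℝ) with hdd
  have hcR : c + 1 ≤ a := by rw [hcd]; exact_mod_cast hc
  have hdR : 2 ≤ d := by rw [hdd]; exact_mod_cast hd
  have haR : (2 : ℝ) ≤ a := by exact_mod_cast ha
  have hq : 0 < 1 - p := by linarith
  have hs : 0 ≤ ((a : ℝ) - c - 1) * (1 - p) := mul_nonneg (by linarith) hq.le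
  have hdp : 2 * p ≤ d * p := by nlinarith
  have hX : 0 < p ^ a := pow_pos h0 a
  have hE0 : 0 ≤ p ^ a * (2 + ((a : ℝ) - 2) * (1 - p)) := by
    refine mul_nonneg hX.le ?_
    nlinarith
  rcases le_total (p - ((a : ℝ) * (1 - p) - 0 * p)) 0 with hc2 | hc2
  · rw [max_eq_left hc2, mul_zero, add_zero]
    rcases le_total (c * (1 - p) - d * p + lB) 0 with hc3 | hc3
    · rw [max_eq_left hc3, mul_zero, add_zero]
      nlinarith
    · rw [max_eq_right hc3]
      have hr := real_unary h0 h1 ha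
      have hle : c * (1 - p) - d * p + lB ≤ ((a : ℝ) + 1) * (1 - p) - 13 / 8 := by nlinarith
      have := mul_le_mul_of_nonneg_left hle hE0
      nlinarith
  · rw [max_eq_right hc2]
    have hlt : a * (1 - p) ≤ p := by linarith
    have hneg : c * (1 - p) - d * p + lB ≤ 0 := by
      -- `p ≥ a q`, `c ≤ a - 1`
      have h7 : c * (1 - p) ≤ ((a : ℝ) - 1) * (1 - p) := by nlinarith
      have h8 : (1 - p) * 3 ≤ 1 := by nlinarith
      nlinarith
    rw [max_eq_left hneg, mul_zero, add_zero]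
    rcases eq_or_lt_of_le hlt with h9 | h9
    · have : p - ((a : ℝ) * (1 - p) - 0 * p) = 0 := by linarith
      rw [this, mul_zero, add_zero]
      nlinarith
    · have h10 := h5 h9
      have h11 : eB * (p - ((a : ℝ) * (1 - p) - 0 * p)) ≤ 5 / 8 * (p - ((a : ℝ) * (1 - p) - 0 * p)) :=
        mul_le_mul_of_nonneg_right h10 hc2
      nlinarith

end Coin
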