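import Pool.Agent.Lib.Coin.EqNAsm
import Pool.Agent.Lib.Coin.EqG44
import Pool.Agent.Lib.Coin.IncUnary

/-!
# Coin race: equal contents, incomparable cancelled tops (M5c): assembly
-/

namespace Coin

open Finset

variable {A B : List Bool}

/-- class N: a run of heads against a border with one tail -/
theorem ClN.upAtTies {M y1 : ℕ} (C : ClN A B M y1) : UpAtTies A B := by
  have h2M := C.two_M_le
  have h2t := C.two_le_t
  have hy := C.lt
  have hcnt := cont_eq_iff.1 C.cont_eq
  rcases Nat.lt_or_ge M 2 with hM | hM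
  · -- equal sizes
    intro p h0 h1 hG
    have hM1 : M = 1 := by omega
    subst hM1
    have hy0 : y1 = 0 := by omega
    subst hy0
    refine up_of_same_size h0 h1 C.neA C.neB C.cont_eq hG C.hx C.hy (by norm_num) (by norm_num) ?_
    intro z hz
    rcases mem_symD.1 hz with ⟨h3, h4⟩ | ⟨h3, h4⟩
    · have h5 := C.hx.max z (mem_sdiff.2 ⟨h3, h4⟩)
      have h6 := (bc_size h3).1
      simp only at h5 ⊢
      omega
    · have h5 := C.hy.max z (mem_sdiff.2 ⟨h3, h4⟩)
      have h6 := (bc_size h3).1
      simp only at h5 ⊢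
      omega
  · by_cases hL : 7 ≤ A.count true + A.count false
    · intro p h0 h1 hG
      exact C.up_num hM h0 h1 hL hG
    · have e1 : A.count true = 4 := by omega
      have e2 : A.count false = 2 := by omega
      have hcA : cont A = (4, 2) := Prod.ext e1 e2
      exact eq42 C.neA C.neB hcA (by rw [← C.cont_eq]; exact hcA) C.hx C.hy (by simpa using hy)
        (by norm_num)

/-- **M5c**, reduced to the tops with at least two heads and two tails -/
theorem incEq_of_G (hG : ∀ A B : List Bool, A ≠ [] → B ≠ [] → cont A = cont B →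
    ∀ x y : ℕ × ℕ, IsTop A B x → IsTop B A y → y.1 < x.1 → x.2 < y.2 → 2 ≤ x.1 → 2 ≤ y.2 →
      UpAtTies A B) : IncEq := by
  intro A B hA hB hcont x y hx hy h1 h2
  rcases Nat.lt_or_ge y.2 2 with hy2 | hy2
  · -- `y = (y1, 1)`, `x = (M, 0)`
    have ex : x = (x.1, 0) := Prod.ext rfl (by show x.2 = 0; omega)
    have ey : y = (y.1, 1) := Prod.ext rfl (by show y.2 = 1; omega)
    rw [ex] at hx
    rw [ey] at hy
    exact ClN.upAtTies (M := x.1) (y1 := y.1) ⟨hcont, hx, hy, h1⟩
  · rcases Nat.lt_or_ge x.1 2 with hx2 | hx2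
    · -- `x = (1, x2)`, `y = (0, N)`
      have ex : x = (1, x.2) := Prod.ext (by show x.1 = 1; omega) rfl
      have ey : y = (0, y.2) := Prod.ext (by show y.1 = 0; omega) rfl
      refine UpAtTies.mirror ?_
      have hx' := hx.map_not
      have hy' := hy.map_not
      rw [ex] at hx'
      rw [ey] at hy'
      exact ClN.upAtTies (M := y.2) (y1 := x.2)
        ⟨by rw [cont_map_not, cont_map_not, hcont], hy', hx', h2⟩
    · exact hG A B hA hB hcont x y hx hy h1 h2 hx2 hy2

end Coin
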