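import Pool.Agent.Lib.Coin.EqMain

/-!
# Coin race: equal contents (M5c), the general classes: the distance sum is small against the
main term
-/

namespace Coin

open Finset

variable {p : ℝ} {A B : List Bool}

theorem count_take_top {C : List Bool} {x : ℕ × ℕ} (hx : x ∈ bc C) :
    (C.take (x.1 + x.2)).count true = x.1 ∧ (C.take (x.1 + x.2)).count false = x.2 := by
  obtain ⟨k, hk, hc⟩ := mem_bc.1 hx
  have hsz := cont_add hk
  rw [hc] at hsz
  rw [hsz]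
  exact ⟨congrArg Prod.fst hc, congrArg Prod.snd hc⟩

/-- weighted heads lost -/
theorem lost_heads_w (h0 : 0 < p) (h1 : p < 1) (hA : A ≠ []) (hB : B ≠ []) {C : List Bool}
    (hC : C.length = A.length) {x : ℕ × ℕ} {D : Finset (ℕ × ℕ)} (hxD : x ∈ D) (hD : D ⊆ bc C)
    (hmax : ∀ z ∈ D, z.1 + z.2 ≤ x.1 + x.2) :
    (1 - p) * ∑ z ∈ D, kapc p z * (wgt p A B (z.1 + z.2) * ((x.1 : ℝ) - z.1))
      ≤ lamH p (C.take (x.1 + x.2)) * ∑ z ∈ D, kapc p z * wgt p A B (z.1 + z.2) := by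
  have hq : 0 < 1 - p := by linarith
  have hxs := bc_size (hD hxD)
  set w := wgt p A B with hw
  have hwx := wgt_pos h0 h1 hA hB (x.1 + x.2)
  have h2 := heads_lost_le h0 h1 (hD hxD) hD hmax
  have h3 : kapc p x * w (x.1 + x.2) ≤ ∑ z ∈ D, kapc p z * w (z.1 + z.2) :=
    single_le_sum (f := fun z => kapc p z * w (z.1 + z.2))
      (fun z _ => mul_nonneg (kapc_pos h0 h1 z).le (wgt_pos h0 h1 hA hB _).le) hxD
  have h4 : ∑ z ∈ D, kapc p z * (w (z.1 + z.2) * ((x.1 : ℝ) - z.1))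
      ≤ (∑ z ∈ D, kapc p z * ((x.1 : ℝ) - z.1)) * w (x.1 + x.2) := by
    rw [sum_mul]
    refine sum_le_sum (fun z hz => ?_)
    have hzs := bc_size (hD hz)
    obtain ⟨c1, c2⟩ := bc_chain (hD hz) (hD hxD) (hmax z hz)
    have c1' : (z.1 : ℝ) ≤ x.1 := by exact_mod_cast c1
    have hwz : w (z.1 + z.2) ≤ w (x.1 + x.2) :=
      wgt_mono h0 h1 hA hB hzs.1 (hmax z hz) (by rw [← hC]; exact hxs.2)
    have hk := kapc_pos h0 h1 z
    calc kapc p z * (w (z.1 + z.2) * ((x.1 : ℝ) - z.1))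
        = kapc p z * ((x.1 : ℝ) - z.1) * w (z.1 + z.2) := by ring
      _ ≤ _ := mul_le_mul_of_nonneg_left hwz (mul_nonneg hk.le (by linarith))
  calc (1 - p) * ∑ z ∈ D, kapc p z * (w (z.1 + z.2) * ((x.1 : ℝ) - z.1))
      ≤ (1 - p) * ((∑ z ∈ D, kapc p z * ((x.1 : ℝ) - z.1)) * w (x.1 + x.2)) :=
        mul_le_mul_of_nonneg_left h4 hq.le
    _ = ((1 - p) * ∑ z ∈ D, kapc p z * ((x.1 : ℝ) - z.1)) * w (x.1 + x.2) := by ring
    _ ≤ kapc p x * lamH p (C.take (x.1 + x.2)) * w (x.1 + x.2) :=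
        mul_le_mul_of_nonneg_right h2 hwx.le
    _ = lamH p (C.take (x.1 + x.2)) * (kapc p x * w (x.1 + x.2)) := by ring
    _ ≤ _ := mul_le_mul_of_nonneg_left h3 (lamH_nonneg h0 h1 _)

theorem lamT_nonneg (h0 : 0 < p) (h1 : p < 1) (Y : List Bool) : 0 ≤ lamT p Y := by
  rw [lamT_eq]; exact lamH_nonneg (by linarith) (by linarith) _

/-- weighted tails lost -/
theorem lost_tails_w (h0 : 0 < p) (h1 : p < 1) (hA : A ≠ []) (hB : B ≠ []) {C : List Bool}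
    (hC : C.length = A.length) {x : ℕ × ℕ} {D : Finset (ℕ × ℕ)} (hxD : x ∈ D) (hD : D ⊆ bc C)
    (hmax : ∀ z ∈ D, z.1 + z.2 ≤ x.1 + x.2) :
    p * ∑ z ∈ D, kapc p z * (wgt p A B (z.1 + z.2) * ((x.2 : ℝ) - z.2))
      ≤ lamT p (C.take (x.1 + x.2)) * ∑ z ∈ D, kapc p z * wgt p A B (z.1 + z.2) := by
  have hxs := bc_size (hD hxD)
  set w := wgt p A B with hw
  have hwx := wgt_pos h0 h1 hA hB (x.1 + x.2)
  have h2 := tails_lost_le h0 h1 (hD hxD) hD hmax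
  have h3 : kapc p x * w (x.1 + x.2) ≤ ∑ z ∈ D, kapc p z * w (z.1 + z.2) :=
    single_le_sum (f := fun z => kapc p z * w (z.1 + z.2))
      (fun z _ => mul_nonneg (kapc_pos h0 h1 z).le (wgt_pos h0 h1 hA hB _).le) hxD
  have h4 : ∑ z ∈ D, kapc p z * (w (z.1 + z.2) * ((x.2 : ℝ) - z.2))
      ≤ (∑ z ∈ D, kapc p z * ((x.2 : ℝ) - z.2)) * w (x.1 + x.2) := by
    rw [sum_mul]
    refine sum_le_sum (fun z hz => ?_)
    have hzs := bc_size (hD hz)
    obtain ⟨c1, c2⟩ := bc_chain (hD hz) (hD hxD) (hmax z hz)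
    have c1' : (z.2 : ℝ) ≤ x.2 := by exact_mod_cast c2
    have hwz : w (z.1 + z.2) ≤ w (x.1 + x.2) :=
      wgt_mono h0 h1 hA hB hzs.1 (hmax z hz) (by rw [← hC]; exact hxs.2)
    have hk := kapc_pos h0 h1 z
    calc kapc p z * (w (z.1 + z.2) * ((x.2 : ℝ) - z.2))
        = kapc p z * ((x.2 : ℝ) - z.2) * w (z.1 + z.2) := by ring
      _ ≤ _ := mul_le_mul_of_nonneg_left hwz (mul_nonneg hk.le (by linarith))
  calc p * ∑ z ∈ D, kapc p z * (w (z.1 + z.2) * ((x.2 : ℝ) - z.2))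
      ≤ p * ((∑ z ∈ D, kapc p z * ((x.2 : ℝ) - z.2)) * w (x.1 + x.2)) :=
        mul_le_mul_of_nonneg_left h4 h0.le
    _ = (p * ∑ z ∈ D, kapc p z * ((x.2 : ℝ) - z.2)) * w (x.1 + x.2) := by ring
    _ ≤ kapc p x * lamT p (C.take (x.1 + x.2)) * w (x.1 + x.2) :=
        mul_le_mul_of_nonneg_right h2 hwx.le
    _ = lamT p (C.take (x.1 + x.2)) * (kapc p x * w (x.1 + x.2)) := by ring
    _ ≤ _ := mul_le_mul_of_nonneg_left h3 (lamT_nonneg h0 h1 _)

/-- the distance sum of a chain below its top -/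
theorem dist_le (h0 : 0 < p) (h1 : p < 1) (hA : A ≠ []) (hB : B ≠ []) {C : List Bool}
    (hC : C.length = A.length) {x : ℕ × ℕ} {D : Finset (ℕ × ℕ)} (hxD : x ∈ D) (hD : D ⊆ bc C)
    (hmax : ∀ z ∈ D, z.1 + z.2 ≤ x.1 + x.2) (r : ℕ) :
    ∑ z ∈ D, kapc p z * (wgt p A B (z.1 + z.2) * |((z.1 + z.2 : ℕ) : ℝ) - r|)
      ≤ (|((x.1 + x.2 : ℕ) : ℝ) - r| + lamH p (C.take (x.1 + x.2)) / (1 - p)
          + lamT p (C.take (x.1 + x.2)) / p)
        * ∑ z ∈ D, kapc p z * wgt p A B (z.1 + z.2) := by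
  have hq : 0 < 1 - p := by linarith
  have h2 := lost_heads_w h0 h1 hA hB hC hxD hD hmax
  have h3 := lost_tails_w h0 h1 hA hB hC hxD hD hmax
  set w := wgt p A B with hw
  set T := ∑ z ∈ D, kapc p z * w (z.1 + z.2) with hT
  have e2 : ∑ z ∈ D, kapc p z * (w (z.1 + z.2) * ((x.1 : ℝ) - z.1))
      ≤ lamH p (C.take (x.1 + x.2)) / (1 - p) * T := by
    rw [div_mul_eq_mul_div, le_div_iff₀ hq, mul_comm]; exact h2
  have e3 : ∑ z ∈ D, kapc p z * (w (z.1 + z.2) * ((x.2 : ℝ) - z.2))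
      ≤ lamT p (C.take (x.1 + x.2)) / p * T := by
    rw [div_mul_eq_mul_div, le_div_iff₀ h0, mul_comm]; exact h3
  have e4 : ∑ z ∈ D, kapc p z * (w (z.1 + z.2) * |((z.1 + z.2 : ℕ) : ℝ) - r|)
      ≤ |((x.1 + x.2 : ℕ) : ℝ) - r| * T
        + (∑ z ∈ D, kapc p z * (w (z.1 + z.2) * ((x.1 : ℝ) - z.1)))
        + ∑ z ∈ D, kapc p z * (w (z.1 + z.2) * ((x.2 : ℝ) - z.2)) := by
    rw [hT, mul_sum, ← sum_add_distrib, ← sum_add_distrib]
    refine sum_le_sum (fun z hz => ?_)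
    obtain ⟨c1, c2⟩ := bc_chain (hD hz) (hD hxD) (hmax z hz)
    have c1' : (z.1 : ℝ) ≤ x.1 := by exact_mod_cast c1
    have c2' : (z.2 : ℝ) ≤ x.2 := by exact_mod_cast c2
    have hk := kapc_pos h0 h1 z
    have hwz := wgt_pos h0 h1 hA hB (z.1 + z.2)
    have habs : |((z.1 + z.2 : ℕ) : ℝ) - r| ≤ |((x.1 + x.2 : ℕ) : ℝ) - r|
        + ((x.1 : ℝ) - z.1) + ((x.2 : ℝ) - z.2) := by
      have e : ((z.1 + z.2 : ℕ) : ℝ) - r = (((x.1 + x.2 : ℕ) : ℝ) - r)
          - (((x.1 : ℝ) - z.1) + ((x.2 : ℝ) - z.2)) := by push_cast; ring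
      rw [e]
      refine (abs_sub _ _).trans ?_
      rw [abs_of_nonneg (by linarith : 0 ≤ ((x.1 : ℝ) - z.1) + ((x.2 : ℝ) - z.2))]
      linarith
    calc kapc p z * (w (z.1 + z.2) * |((z.1 + z.2 : ℕ) : ℝ) - r|)
        ≤ kapc p z * (w (z.1 + z.2) * (|((x.1 + x.2 : ℕ) : ℝ) - r|
            + ((x.1 : ℝ) - z.1) + ((x.2 : ℝ) - z.2))) := by gcongr
      _ = _ := by ring
  linarith

/-- the distance sum of a run of heads -/
theorem dist_run_le (h0 : 0 < p) (h1 : p < 1) (hA : A ≠ []) (hB : B ≠ []) {x : ℕ × ℕ}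
    (hx : IsTop A B x) (h2 : x.2 = 0) :
    (1 - p) * ∑ z ∈ bc A \ bc B, kapc p z * (wgt p A B (z.1 + z.2) * |((z.1 + z.2 : ℕ) : ℝ) - x.1|)
      ≤ p * ∑ z ∈ bc A \ bc B, kapc p z * wgt p A B (z.1 + z.2) ∧
    ((x.1 : ℝ) * (1 - p) - p) * ∑ z ∈ bc A \ bc B, kapc p z * wgt p A B (z.1 + z.2)
      ≤ ∑ z ∈ bc A \ bc B, kapc p z * (dl p z * wgt p A B (z.1 + z.2)) := by
  have hq : 0 < 1 - p := by linarith
  obtain ⟨m, hm, hD, -⟩ := sdiff_run hx h2
  have h3 := mainA_run h0 h1 hA hB hx hm hD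
  have hxm := mem_sdiff.1 hx.mem
  set w := wgt p A B with hw
  set T := ∑ z ∈ bc A \ bc B, kapc p z * w (z.1 + z.2) with hT
  have hT0 : 0 ≤ T := sum_nonneg (fun z _ => mul_nonneg (kapc_pos h0 h1 z).le
    (wgt_pos h0 h1 hA hB _).le)
  have hpn : p ^ (x.1 - m) < 1 := pow_lt_one₀ h0.le h1 (by omega)
  have hloss : 0 ≤ ((x.1 - m : ℕ) : ℝ) * (1 - p) * p ^ (x.1 - m) / (1 - p ^ (x.1 - m)) :=
    div_nonneg (by positivity) (by linarith)
  have h4 : ((x.1 : ℝ) * (1 - p) - p) * T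
      ≤ ∑ z ∈ bc A \ bc B, kapc p z * (dl p z * w (z.1 + z.2)) := by
    refine le_trans (mul_le_mul_of_nonneg_right ?_ hT0) h3
    linarith
  refine ⟨?_, h4⟩
  have e1 : (1 - p) * ∑ z ∈ bc A \ bc B, kapc p z * (w (z.1 + z.2)
        * |((z.1 + z.2 : ℕ) : ℝ) - x.1|)
      = (x.1 : ℝ) * (1 - p) * T - ∑ z ∈ bc A \ bc B, kapc p z * (dl p z * w (z.1 + z.2)) := by
    rw [hT, mul_sum, mul_sum, ← sum_sub_distrib]
    refine sum_congr rfl (fun z hz => ?_)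
    have hzm := mem_sdiff.1 hz
    obtain ⟨c1, c2⟩ := bc_chain hzm.1 hxm.1 (hx.max z hz)
    have hz2 : z.2 = 0 := by omega
    have c1' : (z.1 : ℝ) ≤ x.1 := by exact_mod_cast c1
    rw [abs_of_nonpos (by rw [hz2, add_zero]; linarith)]
    unfold dl
    rw [hz2]
    push_cast
    ring
  rw [e1]
  linarith

/-- both tops mixed -/
theorem eq_GG {al : ℝ} (h0 : 0 < p) (h1 : p < 1) (hA : A ≠ []) (hB : B ≠ [])
    (hcont : cont A = cont B) (hG : G p A B = 0) {x y : ℕ × ℕ} (hx : IsTop A B x)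
    (hy : IsTop B A y) (hyx1 : y.1 < x.1) (hxy2 : x.2 < y.2) (hx1 : 2 ≤ x.1) (hx2 : 1 ≤ x.2)
    (hy1 : 1 ≤ y.1) (hy2 : 2 ≤ y.2) (hal0 : 0 ≤ al) (hal : al ≤ 11 / 20 * (p * (1 - p))) :
    al * ∑ z ∈ symD A B, kapc p z * (wgt p A B (z.1 + z.2)
        * |((z.1 + z.2 : ℕ) : ℝ) - (x.1 + x.2 : ℕ)|)
      < (∑ z ∈ bc A \ bc B, kapc p z * (dl p z * wgt p A B (z.1 + z.2)))
        - ∑ z ∈ bc B \ bc A, kapc p z * (dl p z * wgt p A B (z.1 + z.2)) := by
  have hq : 0 < 1 - p := by linarith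
  have hlen := length_eq_of_cont hcont
  have hxm := mem_sdiff.1 hx.mem
  have hym := mem_sdiff.1 hy.mem
  obtain ⟨cx1, cx2⟩ := count_take_top hxm.1
  obtain ⟨cy1, cy2⟩ := count_take_top hym.1
  have mA := mainA_ge h0 h1 hA hB hx
  have mB := mainB_le h0 h1 hA hB hlen hy
  have dA := dist_le h0 h1 hA hB rfl hx.mem sdiff_subset hx.max (x.1 + x.2)
  have dB := dist_le h0 h1 hA hB hlen.symm hy.mem sdiff_subset hy.max (x.1 + x.2)
  have htie := tie_eq h0 h1 hA hB hG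
  rw [← htie] at mB dB
  set X := A.take (x.1 + x.2) with hX
  set Y := B.take (y.1 + y.2) with hY
  set T := ∑ z ∈ bc A \ bc B, kapc p z * wgt p A B (z.1 + z.2) with hT
  have hT0 : 0 < T := sum_pos (fun z _ => mul_pos (kapc_pos h0 h1 z) (wgt_pos h0 h1 hA hB _))
    ⟨x, hx.mem⟩
  have a1 := lamH_le h0 h1 (Y := X) (List.count_pos_iff.1 (by omega))
    (List.count_pos_iff.1 (by omega))
  have a2 := lamT_le h0 h1 (Y := X) (List.count_pos_iff.1 (by omega))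
    (List.count_pos_iff.1 (by omega))
  have a3 := lamH_le h0 h1 (Y := Y) (List.count_pos_iff.1 (by omega))
    (List.count_pos_iff.1 (by omega))
  have a4 := lamT_le h0 h1 (Y := Y) (List.count_pos_iff.1 (by omega))
    (List.count_pos_iff.1 (by omega))
  have a5 := lamH_add_lamT_le h0 h1 (A := X) (B := Y) (by omega) (by omega) (by omega) (by omega)
  have nX := lamH_nonneg h0 h1 X
  have nX' := lamT_nonneg h0 h1 X
  have nY := lamH_nonneg h0 h1 Y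
  have nY' := lamT_nonneg h0 h1 Y
  have hsplit : ∑ z ∈ symD A B, kapc p z * (wgt p A B (z.1 + z.2)
        * |((z.1 + z.2 : ℕ) : ℝ) - (x.1 + x.2 : ℕ)|)
      = (∑ z ∈ bc A \ bc B, kapc p z * (wgt p A B (z.1 + z.2)
        * |((z.1 + z.2 : ℕ) : ℝ) - (x.1 + x.2 : ℕ)|))
      + ∑ z ∈ bc B \ bc A, kapc p z * (wgt p A B (z.1 + z.2)
        * |((z.1 + z.2 : ℕ) : ℝ) - (x.1 + x.2 : ℕ)|) := by
    unfold symD
    rw [sum_union]
    rw [disjoint_left]
    intro z hz hz'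
    exact (mem_sdiff.mp hz').2 (mem_sdiff.mp hz).1
  rw [hsplit]
  rw [sub_self, abs_zero, zero_add] at dA
  set a : ℝ := (x.1 : ℝ) - y.1 with ha
  set b : ℝ := (y.2 : ℝ) - x.2 with hb
  have ha1 : 1 ≤ a := by
    have : (y.1 : ℝ) + 1 ≤ x.1 := by exact_mod_cast hyx1
    rw [ha]; linarith
  have hb1 : 1 ≤ b := by
    have : (x.2 : ℝ) + 1 ≤ y.2 := by exact_mod_cast hxy2
    rw [hb]; linarith
  have eab : |((y.1 + y.2 : ℕ) : ℝ) - (x.1 + x.2 : ℕ)| = |b - a| := by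
    congr 1; rw [ha, hb]; push_cast; ring
  rw [eab] at dB
  have hdl : dl p x - dl p y = (1 - p) * a + p * b := by
    unfold dl; rw [ha, hb]; ring
  -- total
  set D1 := ∑ z ∈ bc A \ bc B, kapc p z * (wgt p A B (z.1 + z.2)
        * |((z.1 + z.2 : ℕ) : ℝ) - (x.1 + x.2 : ℕ)|) with hD1
  set D2 := ∑ z ∈ bc B \ bc A, kapc p z * (wgt p A B (z.1 + z.2)
        * |((z.1 + z.2 : ℕ) : ℝ) - (x.1 + x.2 : ℕ)|) with hD2
  have hD10 : 0 ≤ D1 := sum_nonneg (fun z _ => mul_nonneg (kapc_pos h0 h1 z).le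
    (mul_nonneg (wgt_pos h0 h1 hA hB _).le (abs_nonneg _)))
  have hD20 : 0 ≤ D2 := sum_nonneg (fun z _ => mul_nonneg (kapc_pos h0 h1 z).le
    (mul_nonneg (wgt_pos h0 h1 hA hB _).le (abs_nonneg _)))
  have b1 : p * (1 - p) * (D1 + D2) ≤ (p * (1 - p) * |b - a| + 3 / 4) * T := by
    have c1 : p * (1 - p) * D1 ≤ p * (1 - p) * ((lamH p X / (1 - p) + lamT p X / p) * T) :=
      mul_le_mul_of_nonneg_left dA (by positivity)
    have c2 : p * (1 - p) * D2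
        ≤ p * (1 - p) * ((|b - a| + lamH p Y / (1 - p) + lamT p Y / p) * T) :=
      mul_le_mul_of_nonneg_left dB (by positivity)
    have c3 : p * (1 - p) * ((lamH p X / (1 - p) + lamT p X / p) * T)
        = (p * lamH p X + (1 - p) * lamT p X) * T := by
      field_simp
    have c4 : p * (1 - p) * ((|b - a| + lamH p Y / (1 - p) + lamT p Y / p) * T)
        = (p * (1 - p) * |b - a| + (p * lamH p Y + (1 - p) * lamT p Y)) * T := by
      field_simp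
      ring
    have c5 : p * lamH p X + (1 - p) * lamT p X ≤ 3 / 8 := by nlinarith
    have c6 : p * lamH p Y + (1 - p) * lamT p Y ≤ 3 / 8 := by nlinarith
    have c7 : (p * lamH p X + (1 - p) * lamT p X) * T ≤ 3 / 8 * T :=
      mul_le_mul_of_nonneg_right c5 hT0.le
    have c8 : (p * lamH p Y + (1 - p) * lamT p Y) * T ≤ 3 / 8 * T :=
      mul_le_mul_of_nonneg_right c6 hT0.le
    rw [c3] at c1
    rw [c4] at c2
    nlinarith
  have b2 : al * (D1 + D2) ≤ 11 / 20 * ((p * (1 - p) * |b - a| + 3 / 4) * T) := by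
    calc al * (D1 + D2) ≤ 11 / 20 * (p * (1 - p)) * (D1 + D2) :=
          mul_le_mul_of_nonneg_right hal (by linarith)
      _ = 11 / 20 * (p * (1 - p) * (D1 + D2)) := by ring
      _ ≤ _ := by linarith
  have b3 : 11 / 20 * (p * (1 - p) * |b - a|) + 1 ≤ (1 - p) * a + p * b := by
    have hpq : p * (1 - p) ≤ 1 - p := by nlinarith
    have hpq' : p * (1 - p) ≤ p := by nlinarith
    rcases abs_cases (b - a) with ⟨h, h'⟩ | ⟨h, h'⟩
    · rw [h]
      have : p * (1 - p) * (b - a) ≤ p * (b - a) := mul_le_mul_of_nonneg_right hpq' h'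
      nlinarith
    · rw [h]
      have : p * (1 - p) * (-(b - a)) ≤ (1 - p) * (-(b - a)) :=
        mul_le_mul_of_nonneg_right hpq (by linarith)
      nlinarith
  have b4 : 11 / 20 * ((p * (1 - p) * |b - a| + 3 / 4) * T)
      < ((1 - p) * a + p * b - (lamH p X + lamT p Y)) * T := by
    rw [← mul_assoc]
    refine mul_lt_mul_of_pos_right ?_ hT0
    linarith
  have b5 : ((1 - p) * a + p * b - (lamH p X + lamT p Y)) * T
      ≤ (∑ z ∈ bc A \ bc B, kapc p z * (dl p z * wgt p A B (z.1 + z.2)))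
        - ∑ z ∈ bc B \ bc A, kapc p z * (dl p z * wgt p A B (z.1 + z.2)) := by
    rw [← hdl]
    calc _ = (dl p x - lamH p X) * T - (dl p y + lamT p Y) * T := by ring
      _ ≤ _ := by linarith
  linarith

/-- the top of `A` a run of heads, the top of `B` mixed -/
theorem eq_UG {al : ℝ} (h0 : 0 < p) (h1 : p < 1) (hA : A ≠ []) (hB : B ≠ [])
    (hcont : cont A = cont B) (hG : G p A B = 0) {x y : ℕ × ℕ} (hx : IsTop A B x)
    (hy : IsTop B A y) (hyx1 : y.1 < x.1) (hx2 : x.2 = 0)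
    (hy1 : 1 ≤ y.1) (hy2 : 2 ≤ y.2) (hal0 : 0 ≤ al) (hal : al ≤ 11 / 20 * (p * (1 - p))) :
    al * ∑ z ∈ symD A B, kapc p z * (wgt p A B (z.1 + z.2)
        * |((z.1 + z.2 : ℕ) : ℝ) - x.1|)
      < (∑ z ∈ bc A \ bc B, kapc p z * (dl p z * wgt p A B (z.1 + z.2)))
        - ∑ z ∈ bc B \ bc A, kapc p z * (dl p z * wgt p A B (z.1 + z.2)) := by
  have hq : 0 < 1 - p := by linarith
  have hlen := length_eq_of_cont hcont
  have hxm := mem_sdiff.1 hx.mem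
  have hym := mem_sdiff.1 hy.mem
  obtain ⟨cy1, cy2⟩ := count_take_top hym.1
  obtain ⟨dA, mA⟩ := dist_run_le h0 h1 hA hB hx hx2
  have mB := mainB_le h0 h1 hA hB hlen hy
  have dB := dist_le h0 h1 hA hB hlen.symm hy.mem sdiff_subset hy.max x.1
  have htie := tie_eq h0 h1 hA hB hG
  rw [← htie] at mB dB
  set Y := B.take (y.1 + y.2) with hY
  set T := ∑ z ∈ bc A \ bc B, kapc p z * wgt p A B (z.1 + z.2) with hT
  have hT0 : 0 < T := sum_pos (fun z _ => mul_pos (kapc_pos h0 h1 z) (wgt_pos h0 h1 hA hB _))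
    ⟨x, hx.mem⟩
  have nY := lamH_nonneg h0 h1 Y
  have nY' := lamT_nonneg h0 h1 Y
  have hsplit : ∑ z ∈ symD A B, kapc p z * (wgt p A B (z.1 + z.2)
        * |((z.1 + z.2 : ℕ) : ℝ) - x.1|)
      = (∑ z ∈ bc A \ bc B, kapc p z * (wgt p A B (z.1 + z.2)
        * |((z.1 + z.2 : ℕ) : ℝ) - x.1|))
      + ∑ z ∈ bc B \ bc A, kapc p z * (wgt p A B (z.1 + z.2)
        * |((z.1 + z.2 : ℕ) : ℝ) - x.1|) := by
    unfold symD
    rw [sum_union]
    rw [disjoint_left]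
    intro z hz hz'
    exact (mem_sdiff.mp hz').2 (mem_sdiff.mp hz).1
  rw [hsplit]
  set a : ℝ := (x.1 : ℝ) - y.1 with ha
  set b : ℝ := (y.2 : ℝ) with hb
  have ha1 : 1 ≤ a := by
    have : (y.1 : ℝ) + 1 ≤ x.1 := by exact_mod_cast hyx1
    rw [ha]; linarith
  have hb1 : 2 ≤ b := by rw [hb]; exact_mod_cast hy2
  have eab : |((y.1 + y.2 : ℕ) : ℝ) - x.1| = |b - a| := by
    congr 1; rw [ha, hb]; push_cast; ring
  rw [eab] at dB
  set D1 := ∑ z ∈ bc A \ bc B, kapc p z * (wgt p A B (z.1 + z.2)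
        * |((z.1 + z.2 : ℕ) : ℝ) - x.1|) with hD1
  set D2 := ∑ z ∈ bc B \ bc A, kapc p z * (wgt p A B (z.1 + z.2)
        * |((z.1 + z.2 : ℕ) : ℝ) - x.1|) with hD2
  have hD10 : 0 ≤ D1 := sum_nonneg (fun z _ => mul_nonneg (kapc_pos h0 h1 z).le
    (mul_nonneg (wgt_pos h0 h1 hA hB _).le (abs_nonneg _)))
  have hD20 : 0 ≤ D2 := sum_nonneg (fun z _ => mul_nonneg (kapc_pos h0 h1 z).le
    (mul_nonneg (wgt_pos h0 h1 hA hB _).le (abs_nonneg _)))
  have b1 : p * (1 - p) * (D1 + D2)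
      ≤ (p ^ 2 + (p * (1 - p) * |b - a| + (p * lamH p Y + (1 - p) * lamT p Y))) * T := by
    have c1 : p * (1 - p) * D1 ≤ p ^ 2 * T := by
      calc p * (1 - p) * D1 = p * ((1 - p) * D1) := by ring
        _ ≤ p * (p * T) := mul_le_mul_of_nonneg_left dA h0.le
        _ = _ := by ring
    have c2 : p * (1 - p) * D2
        ≤ p * (1 - p) * ((|b - a| + lamH p Y / (1 - p) + lamT p Y / p) * T) :=
      mul_le_mul_of_nonneg_left dB (by positivity)
    have c4 : p * (1 - p) * ((|b - a| + lamH p Y / (1 - p) + lamT p Y / p) * T)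
        = (p * (1 - p) * |b - a| + (p * lamH p Y + (1 - p) * lamT p Y)) * T := by
      field_simp
      ring
    rw [c4] at c2
    calc _ = p * (1 - p) * D1 + p * (1 - p) * D2 := by ring
      _ ≤ p ^ 2 * T + (p * (1 - p) * |b - a| + (p * lamH p Y + (1 - p) * lamT p Y)) * T :=
          add_le_add c1 c2
      _ = _ := by ring
  have b2 : al * (D1 + D2) ≤ 11 / 20 * ((p ^ 2 + (p * (1 - p) * |b - a|
      + (p * lamH p Y + (1 - p) * lamT p Y))) * T) := by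
    calc al * (D1 + D2) ≤ 11 / 20 * (p * (1 - p)) * (D1 + D2) :=
          mul_le_mul_of_nonneg_right hal (by linarith)
      _ = 11 / 20 * (p * (1 - p) * (D1 + D2)) := by ring
      _ ≤ _ := by linarith
  have b3 : 11 / 20 * (p * (1 - p) * |b - a|) + (1 - 11 / 20 * (p * (1 - p)))
      ≤ (1 - p) * a + p * (b - 1) := by
    have hpq : p * (1 - p) ≤ 1 - p := by nlinarith
    have hpq' : p * (1 - p) ≤ p := by nlinarith
    rcases abs_cases (b - a) with ⟨h, h'⟩ | ⟨h, h'⟩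
    · rw [h]
      -- a = 1 + s, b = 2 + t
      have e1 : 11 / 20 * (p * (1 - p) * (b - a)) + (1 - 11 / 20 * (p * (1 - p)))
          = 1 + 11 / 20 * (p * (1 - p)) * (b - 2) - 11 / 20 * (p * (1 - p)) * (a - 1) := by ring
      have e2 : (1 - p) * a + p * (b - 1) = 1 + (1 - p) * (a - 1) + p * (b - 2) := by ring
      rw [e1, e2]
      have f1 : 11 / 20 * (p * (1 - p)) * (b - 2) ≤ p * (b - 2) :=
        mul_le_mul_of_nonneg_right (by nlinarith) (by linarith)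
      have f2 : 0 ≤ 11 / 20 * (p * (1 - p)) * (a - 1) :=
        mul_nonneg (by positivity) (by linarith)
      have f3 : 0 ≤ (1 - p) * (a - 1) := mul_nonneg hq.le (by linarith)
      linarith
    · rw [h]
      have e1 : 11 / 20 * (p * (1 - p) * -(b - a)) + (1 - 11 / 20 * (p * (1 - p)))
          = 1 - 11 / 20 * (p * (1 - p)) * (b - 2) + 11 / 20 * (p * (1 - p)) * (a - 1)
            - 11 / 10 * (p * (1 - p)) := by ring
      have e2 : (1 - p) * a + p * (b - 1) = 1 + (1 - p) * (a - 1) + p * (b - 2) := by ring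
      rw [e1, e2]
      have f1 : 11 / 20 * (p * (1 - p)) * (a - 1) ≤ (1 - p) * (a - 1) :=
        mul_le_mul_of_nonneg_right (by nlinarith) (by linarith)
      have f2 : 0 ≤ 11 / 20 * (p * (1 - p)) * (b - 2) :=
        mul_nonneg (by positivity) (by linarith)
      have f3 : 0 ≤ p * (b - 2) := mul_nonneg h0.le (by linarith)
      have f4 : 0 ≤ 11 / 10 * (p * (1 - p)) := by positivity
      linarith
  have bnum : 11 / 20 * (p ^ 2 + (p * lamH p Y + (1 - p) * lamT p Y)) + lamT p Y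
      < 1 - 11 / 20 * (p * (1 - p)) := by
    have hyt : Y.count true = 1 ∨ 2 ≤ Y.count true := by omega
    rcases hyt with h | h
    · have l1 := lamH_le_one_head h0 h1 h
      have l2 := lamT_le_one_head h0 h1 h
      nlinarith [mul_nonneg h0.le (sub_nonneg.2 l1), mul_nonneg hq.le (sub_nonneg.2 l2),
        mul_pos h0 hq]
    · have l1 := lamH_le_multi h0 h1 h (by omega : 2 ≤ Y.count false)
      have l2 := lamT_le_multi h0 h1 h (by omega : 2 ≤ Y.count false)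
      nlinarith [mul_nonneg h0.le (sub_nonneg.2 l1), mul_nonneg hq.le (sub_nonneg.2 l2),
        mul_pos h0 hq, sq_nonneg (p - 13 / 20)]
  have b4 : 11 / 20 * ((p ^ 2 + (p * (1 - p) * |b - a|
      + (p * lamH p Y + (1 - p) * lamT p Y))) * T)
      < ((1 - p) * a + p * (b - 1) - lamT p Y) * T := by
    rw [← mul_assoc]
    refine mul_lt_mul_of_pos_right ?_ hT0
    linarith
  have b5 : ((1 - p) * a + p * (b - 1) - lamT p Y) * T
      ≤ (∑ z ∈ bc A \ bc B, kapc p z * (dl p z * wgt p A B (z.1 + z.2)))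
        - ∑ z ∈ bc B \ bc A, kapc p z * (dl p z * wgt p A B (z.1 + z.2)) := by
    have e1 : ((1 - p) * a + p * (b - 1) - lamT p Y) * T
        = ((x.1 : ℝ) * (1 - p) - p) * T - (dl p y + lamT p Y) * T := by
      unfold dl; rw [ha, hb]; ring
    rw [e1]
    linarith
  linarith

/-- both tops runs -/
theorem eq_UU {al : ℝ} (h0 : 0 < p) (h1 : p < 1) (hA : A ≠ []) (hB : B ≠ [])
    {x y : ℕ × ℕ} (hx : IsTop A B x)
    (hy : IsTop B A y) (hx2 : x.2 = 0) (hy1 : y.1 = 0) (hal1 : al ≤ p) (hal2 : al ≤ 1 - p) :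
    al * ∑ z ∈ symD A B, kapc p z * (wgt p A B (z.1 + z.2)
        * |((z.1 + z.2 : ℕ) : ℝ) - (1 : ℕ)|)
      < (∑ z ∈ bc A \ bc B, kapc p z * (dl p z * wgt p A B (z.1 + z.2)))
        - ∑ z ∈ bc B \ bc A, kapc p z * (dl p z * wgt p A B (z.1 + z.2)) := by
  have hq : 0 < 1 - p := by linarith
  have hsplit : ∑ z ∈ symD A B, kapc p z * (wgt p A B (z.1 + z.2)
        * |((z.1 + z.2 : ℕ) : ℝ) - (1 : ℕ)|)
      = (∑ z ∈ bc A \ bc B, kapc p z * (wgt p A B (z.1 + z.2)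
        * |((z.1 + z.2 : ℕ) : ℝ) - (1 : ℕ)|))
      + ∑ z ∈ bc B \ bc A, kapc p z * (wgt p A B (z.1 + z.2)
        * |((z.1 + z.2 : ℕ) : ℝ) - (1 : ℕ)|) := by
    unfold symD
    rw [sum_union]
    rw [disjoint_left]
    intro z hz hz'
    exact (mem_sdiff.mp hz').2 (mem_sdiff.mp hz).1
  rw [hsplit, mul_add, mul_sum, mul_sum]
  have sA : ∑ z ∈ bc A \ bc B, al * (kapc p z * (wgt p A B (z.1 + z.2)
        * |((z.1 + z.2 : ℕ) : ℝ) - (1 : ℕ)|))
      < ∑ z ∈ bc A \ bc B, kapc p z * (dl p z * wgt p A B (z.1 + z.2)) := by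
    refine sum_lt_sum_of_nonempty ⟨x, hx.mem⟩ (fun z hz => ?_)
    have hzm := mem_sdiff.1 hz
    obtain ⟨c1, c2⟩ := bc_chain hzm.1 (mem_sdiff.1 hx.mem).1 (hx.max z hz)
    have hz2 : z.2 = 0 := by omega
    have hzs := (bc_size hzm.1).1
    have hk := kapc_pos h0 h1 z
    have hw := wgt_pos h0 h1 hA hB (z.1 + z.2)
    have hz1 : (1 : ℝ) ≤ z.1 := by exact_mod_cast (by omega : 1 ≤ z.1)
    have e1 : |((z.1 + z.2 : ℕ) : ℝ) - (1 : ℕ)| = (z.1 : ℝ) - 1 := by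
      rw [hz2]; push_cast
      rw [add_zero, abs_of_nonneg (by linarith)]
    have e2 : dl p z = z.1 * (1 - p) := by unfold dl; rw [hz2]; push_cast; ring
    rw [e1, e2]
    have e3 : al * ((z.1 : ℝ) - 1) < z.1 * (1 - p) := by
      have : al * ((z.1 : ℝ) - 1) ≤ (1 - p) * ((z.1 : ℝ) - 1) :=
        mul_le_mul_of_nonneg_right hal2 (by linarith)
      nlinarith
    calc al * (kapc p z * (wgt p A B (z.1 + z.2) * ((z.1 : ℝ) - 1)))
        = (kapc p z * wgt p A B (z.1 + z.2)) * (al * ((z.1 : ℝ) - 1)) := by ring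
      _ < (kapc p z * wgt p A B (z.1 + z.2)) * (z.1 * (1 - p)) :=
          mul_lt_mul_of_pos_left e3 (mul_pos hk hw)
      _ = _ := by ring
  have sB : ∑ z ∈ bc B \ bc A, al * (kapc p z * (wgt p A B (z.1 + z.2)
        * |((z.1 + z.2 : ℕ) : ℝ) - (1 : ℕ)|))
      ≤ -∑ z ∈ bc B \ bc A, kapc p z * (dl p z * wgt p A B (z.1 + z.2)) := by
    rw [← sum_neg_distrib]
    refine sum_le_sum (fun z hz => ?_)
    have hzm := mem_sdiff.1 hz
    obtain ⟨c1, c2⟩ := bc_chain hzm.1 (mem_sdiff.1 hy.mem).1 (hy.max z hz)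
    have hz2 : z.1 = 0 := by omega
    have hzs := (bc_size hzm.1).1
    have hk := kapc_pos h0 h1 z
    have hw := wgt_pos h0 h1 hA hB (z.1 + z.2)
    have hz1 : (1 : ℝ) ≤ z.2 := by exact_mod_cast (by omega : 1 ≤ z.2)
    have e1 : |((z.1 + z.2 : ℕ) : ℝ) - (1 : ℕ)| = (z.2 : ℝ) - 1 := by
      rw [hz2]; push_cast
      rw [zero_add, abs_of_nonneg (by linarith)]
    have e2 : dl p z = -(z.2 * p) := by unfold dl; rw [hz2]; push_cast; ring
    rw [e1, e2]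
    have e3 : al * ((z.2 : ℝ) - 1) ≤ z.2 * p := by
      have : al * ((z.2 : ℝ) - 1) ≤ p * ((z.2 : ℝ) - 1) :=
        mul_le_mul_of_nonneg_right hal1 (by linarith)
      nlinarith
    calc al * (kapc p z * (wgt p A B (z.1 + z.2) * ((z.2 : ℝ) - 1)))
        = (kapc p z * wgt p A B (z.1 + z.2)) * (al * ((z.2 : ℝ) - 1)) := by ring
      _ ≤ (kapc p z * wgt p A B (z.1 + z.2)) * (z.2 * p) :=
          mul_le_mul_of_nonneg_left e3 (mul_pos hk hw).le
      _ = _ := by ring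
  linarith

end Coin
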