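import Pool.Agent.Lib.Coin.Lam2

/-!
# Coin race: numbers for the incomparable case with equal contents

`L p^h q^t` and `p^h q^t |h q - t p|` for `h, t ≥ 4`, and the induction `len_mul_le`.
-/

namespace Coin

/-- `x ^ m ≤ a ^ m exp (m (x / a - 1))` -/
theorem pow_le_exp {x a : ℝ} (hx : 0 ≤ x) (ha : 0 < a) (m : ℕ) :
    x ^ m ≤ a ^ m * Real.exp (m * (x / a - 1)) := by
  have h1 : x ≤ a * Real.exp (x / a - 1) := by
    have h2 := Real.add_one_le_exp (x / a - 1)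
    have h3 : x = a * (x / a) := by field_simp
    calc x = a * (x / a) := h3
      _ ≤ a * Real.exp (x / a - 1) := mul_le_mul_of_nonneg_left (by linarith) ha.le
  calc x ^ m ≤ (a * Real.exp (x / a - 1)) ^ m := pow_le_pow_left₀ hx h1 m
    _ = a ^ m * Real.exp (m * (x / a - 1)) := by
      rw [mul_pow, ← Real.exp_nat_mul]

/-- bound of a product of powers by its value at a point where the linear form is nonpositive -/
theorem sup2 {x y a b : ℝ} {m n : ℕ} (hx : 0 ≤ x) (hy : 0 ≤ y) (ha : 0 < a) (hb : 0 < b)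
    (h : m * (x / a - 1) + n * (y / b - 1) ≤ 0) : x ^ m * y ^ n ≤ a ^ m * b ^ n := by
  have h1 := pow_le_exp hx ha m
  have h2 := pow_le_exp hy hb n
  have ha' : 0 < a ^ m := pow_pos ha m
  have hb' : 0 < b ^ n := pow_pos hb n
  calc x ^ m * y ^ n
      ≤ (a ^ m * Real.exp (m * (x / a - 1))) * (b ^ n * Real.exp (n * (y / b - 1))) :=
        mul_le_mul h1 h2 (pow_nonneg hy n) (by positivity)
    _ = (a ^ m * b ^ n) * Real.exp (m * (x / a - 1) + n * (y / b - 1)) := by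
        rw [Real.exp_add]; ring
    _ ≤ (a ^ m * b ^ n) * 1 :=
        mul_le_mul_of_nonneg_left (Real.exp_le_one_iff.2 h) (by positivity)
    _ = a ^ m * b ^ n := mul_one _

/-- the same with a third factor -/
theorem sup3 {x y z a b c : ℝ} {m n : ℕ} (hx : 0 ≤ x) (hy : 0 ≤ y) (hz : 0 ≤ z) (ha : 0 < a)
    (hb : 0 < b) (hc : 0 < c) (h : m * (x / a - 1) + n * (y / b - 1) + (z / c - 1) ≤ 0) :
    x ^ m * y ^ n * z ≤ a ^ m * b ^ n * c := by
  have h1 := pow_le_exp hx ha m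
  have h2 := pow_le_exp hy hb n
  have h3 := pow_le_exp hz hc 1
  have ha' : 0 < a ^ m := pow_pos ha m
  have hb' : 0 < b ^ n := pow_pos hb n
  have h12 : x ^ m * y ^ n
      ≤ (a ^ m * Real.exp (m * (x / a - 1))) * (b ^ n * Real.exp (n * (y / b - 1))) :=
    mul_le_mul h1 h2 (pow_nonneg hy n) (by positivity)
  have h3' : z ≤ c * Real.exp (z / c - 1) := by simpa using h3
  calc x ^ m * y ^ n * z
      ≤ (a ^ m * Real.exp (m * (x / a - 1))) * (b ^ n * Real.exp (n * (y / b - 1)))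
          * (c * Real.exp (z / c - 1)) := mul_le_mul h12 h3' hz (by positivity)
    _ = (a ^ m * b ^ n * c) * Real.exp (m * (x / a - 1) + n * (y / b - 1) + (z / c - 1)) := by
        rw [Real.exp_add, Real.exp_add]; ring
    _ ≤ (a ^ m * b ^ n * c) * 1 :=
        mul_le_mul_of_nonneg_left (Real.exp_le_one_iff.2 h) (by positivity)
    _ = a ^ m * b ^ n * c := mul_one _

/-- one step of the induction in the first exponent -/
theorem len_step (c : ℝ) (hc0 : 0 ≤ c) (hc1 : c ≤ 1) {h t : ℕ} (hh : 2 ≤ h) (ht : 2 ≤ t) {C : ℝ}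
    (H : ∀ x y : ℝ, 0 < x → 0 < y → x + y = 1 → ((h : ℝ) + t - c) * (x ^ h * y ^ t) ≤ C)
    {x y : ℝ} (hx : 0 < x) (hy : 0 < y) (hxy : x + y = 1) :
    (((h + 1 : ℕ) : ℝ) + t - c) * (x ^ (h + 1) * y ^ t) ≤ C := by
  have hh' : (2 : ℝ) ≤ h := by exact_mod_cast hh
  have ht' : (2 : ℝ) ≤ t := by exact_mod_cast ht
  have hP : 0 < x ^ h * y ^ t := by positivity
  set L : ℝ := (h : ℝ) + t - c with hL
  have hL0 : 0 < L := by rw [hL]; linarith
  have hcast : (((h + 1 : ℕ) : ℝ) + t - c) = L + 1 := by rw [hL]; push_cast; ring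
  rw [hcast]
  by_cases hc : (L + 1) * x ≤ L
  · calc (L + 1) * (x ^ (h + 1) * y ^ t) = ((L + 1) * x) * (x ^ h * y ^ t) := by ring
      _ ≤ L * (x ^ h * y ^ t) := mul_le_mul_of_nonneg_right hc hP.le
      _ ≤ C := H x y hx hy hxy
  · push Not at hc
    set a : ℝ := L / (L + 1) with ha
    set b : ℝ := 1 / (L + 1) with hb
    have ha0 : 0 < a := by rw [ha]; positivity
    have hb0 : 0 < b := by rw [hb]; positivity
    have hab : a + b = 1 := by rw [ha, hb]; field_simp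
    have key : x ^ (h + 1) * y ^ t ≤ a ^ (h + 1) * b ^ t := by
      apply sup2 hx.le hy.le ha0 hb0
      have hy' : y = 1 - x := by linarith
      have e1 : x / a - 1 = ((L + 1) * x - L) / L := by
        rw [ha]; field_simp
      have e2 : y / b - 1 = -((L + 1) * x - L) := by
        rw [hb, hy']; field_simp; ring
      rw [e1, e2]
      have hw : 0 < (L + 1) * x - L := by linarith
      have h5 : ((h + 1 : ℕ) : ℝ) ≤ t * L := by
        push_cast
        have : t * L = t * ((h : ℝ) + t - c) := by rw [hL]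
        rw [this]
        nlinarith
      have h6 : ((h + 1 : ℕ) : ℝ) * (((L + 1) * x - L) / L) ≤ t * ((L + 1) * x - L) := by
        rw [mul_div_assoc', div_le_iff₀ hL0]
        calc ((h + 1 : ℕ) : ℝ) * ((L + 1) * x - L) ≤ (t * L) * ((L + 1) * x - L) :=
              mul_le_mul_of_nonneg_right h5 hw.le
          _ = t * ((L + 1) * x - L) * L := by ring
      linarith
    have hL1 : (L + 1) * a = L := by rw [ha]; field_simp
    calc (L + 1) * (x ^ (h + 1) * y ^ t) ≤ (L + 1) * (a ^ (h + 1) * b ^ t) :=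
          mul_le_mul_of_nonneg_left key (by linarith)
      _ = ((L + 1) * a) * (a ^ h * b ^ t) := by ring
      _ = L * (a ^ h * b ^ t) := by rw [hL1]
      _ ≤ C := H a b ha0 hb0 hab

/-- symmetric form of `len_mul_le` -/
theorem len_mul_le_symm (c : ℝ) (hc0 : 0 ≤ c) (hc1 : c ≤ 1) {h0 t0 : ℕ} (hh : 2 ≤ h0)
    (ht : 2 ≤ t0) {C : ℝ}
    (H : ∀ x y : ℝ, 0 < x → 0 < y → x + y = 1 → ((h0 : ℝ) + t0 - c) * (x ^ h0 * y ^ t0) ≤ C)
    (i j : ℕ) : ∀ x y : ℝ, 0 < x → 0 < y → x + y = 1 →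
      (((h0 + i : ℕ) : ℝ) + ((t0 + j : ℕ) : ℝ) - c) * (x ^ (h0 + i) * y ^ (t0 + j)) ≤ C := by
  have H1 : ∀ i : ℕ, ∀ x y : ℝ, 0 < x → 0 < y → x + y = 1 →
      (((h0 + i : ℕ) : ℝ) + (t0 : ℝ) - c) * (x ^ (h0 + i) * y ^ t0) ≤ C := by
    intro i
    induction i with
    | zero => simpa using H
    | succ i ih =>
      intro x y hx hy hxy
      exact len_step c hc0 hc1 (by omega) ht ih hx hy hxy
  induction j with
  | zero => simpa using H1 i
  | succ j ih =>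
    intro x y hx hy hxy
    have := len_step (h := t0 + j) (t := h0 + i) c hc0 hc1 (by omega) (by omega) (C := C)
      (fun x y hx hy hxy => by
        have := ih y x hy hx (by linarith)
        calc (((t0 + j : ℕ) : ℝ) + ((h0 + i : ℕ) : ℝ) - c) * (x ^ (t0 + j) * y ^ (h0 + i))
            = (((h0 + i : ℕ) : ℝ) + ((t0 + j : ℕ) : ℝ) - c) * (y ^ (h0 + i) * x ^ (t0 + j)) := by
              ring
          _ ≤ C := this) hy hx (by linarith)
    calc (((h0 + i : ℕ) : ℝ) + ((t0 + (j + 1) : ℕ) : ℝ) - c) * (x ^ (h0 + i) * y ^ (t0 + (j + 1)))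
        = (((t0 + j + 1 : ℕ) : ℝ) + ((h0 + i : ℕ) : ℝ) - c) * (y ^ (t0 + j + 1) * x ^ (h0 + i)) := by
          rw [show t0 + (j + 1) = t0 + j + 1 by ring]; ring
      _ ≤ C := this

/-- `(L - c) p^h q^t` is nonincreasing in `h` and `t`, as a supremum over `p` -/
theorem len_mul_le (c : ℝ) (hc0 : 0 ≤ c) (hc1 : c ≤ 1) {h0 t0 : ℕ} (hh : 2 ≤ h0)
    (ht : 2 ≤ t0) {C : ℝ}
    (H : ∀ p : ℝ, 0 < p → p < 1 → ((h0 : ℝ) + t0 - c) * (p ^ h0 * (1 - p) ^ t0) ≤ C)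
    {h t : ℕ} (hh' : h0 ≤ h) (ht' : t0 ≤ t) {p : ℝ} (hp0 : 0 < p) (hp1 : p < 1) :
    ((h : ℝ) + t - c) * (p ^ h * (1 - p) ^ t) ≤ C := by
  obtain ⟨i, rfl⟩ := Nat.exists_eq_add_of_le hh'
  obtain ⟨j, rfl⟩ := Nat.exists_eq_add_of_le ht'
  exact len_mul_le_symm c hc0 hc1 hh ht
    (fun x y hx hy hxy => by
      have : y = 1 - x := by linarith
      rw [this]; exact H x hx (by linarith)) i j p (1 - p) hp0 (by linarith) (by ring)

/-- `(L - c) p^h q^t` for `h, t ≥ 4`, `L ≥ 9` -/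
theorem numG_len_aux (c : ℝ) (hc0 : 0 ≤ c) (hc1 : c ≤ 1) {p : ℝ} (h0 : 0 < p) (h1 : p < 1)
    {h t : ℕ} (hh : 4 ≤ h) (ht : 4 ≤ t) (hL : 9 ≤ h + t) :
    ((h : ℝ) + t - c) * (p ^ h * (1 - p) ^ t) ≤ (9 - c) * ((5 / 9) ^ 5 * (4 / 9) ^ 4) := by
  have b1 : ∀ x y : ℝ, 0 < x → 0 < y → x + y = 1 → x ^ 5 * y ^ 4 ≤ (5 / 9) ^ 5 * (4 / 9) ^ 4 := by
    intro x y hx hy hxy
    apply sup2 hx.le hy.le (by norm_num) (by norm_num)
    have : y = 1 - x := by linarith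
    rw [this]
    norm_num
    linarith
  by_cases h5 : 5 ≤ h
  · refine len_mul_le c hc0 hc1 (h0 := 5) (t0 := 4) (by norm_num) (by norm_num) ?_ h5 ht h0 h1
    intro p hp0 hp1
    have e : ((5 : ℕ) : ℝ) + ((4 : ℕ) : ℝ) - c = 9 - c := by push_cast; ring
    rw [e]
    exact mul_le_mul_of_nonneg_left (b1 p (1 - p) hp0 (by linarith) (by ring)) (by linarith)
  · have h4 : h = 4 := by omega
    refine len_mul_le c hc0 hc1 (h0 := 4) (t0 := 5) (by norm_num) (by norm_num) ?_ hh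
      (by omega) h0 h1
    intro p hp0 hp1
    have e : ((4 : ℕ) : ℝ) + ((5 : ℕ) : ℝ) - c = 9 - c := by push_cast; ring
    rw [e]
    have := b1 (1 - p) p (by linarith) hp0 (by ring)
    exact mul_le_mul_of_nonneg_left (by linarith [mul_comm (p ^ 4) ((1 - p) ^ 5)]) (by linarith)

/-- `L p^h q^t ≤ .0186` and `(L - 1) p^h q^t ≤ .01653` for `h, t ≥ 4`, `L ≥ 9` -/
theorem numG_len {p : ℝ} (h0 : 0 < p) (h1 : p < 1) {h t : ℕ} (hh : 4 ≤ h) (ht : 4 ≤ t)
    (hL : 9 ≤ h + t) :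
    ((h : ℝ) + t) * (p ^ h * (1 - p) ^ t) ≤ 186 / 10000 ∧
      ((h : ℝ) + t - 1) * (p ^ h * (1 - p) ^ t) ≤ 1653 / 100000 := by
  have a0 := numG_len_aux 0 le_rfl zero_le_one h0 h1 hh ht hL
  have a1 := numG_len_aux 1 zero_le_one le_rfl h0 h1 hh ht hL
  rw [sub_zero, sub_zero] at a0
  constructor
  · refine a0.trans (by norm_num)
  · refine a1.trans (by norm_num)

/-- core numbers, `(h, t) = (5, 4)` -/
theorem numG_core {x y : ℝ} (hx : 0 < x) (hy : 0 < y) (hxy : x + y = 1) :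
    x ^ 4 * y ^ 3 * ((1 + 4 / 3 * (x * y)) * max |5 * y - 4 * x| 1 + 7 / 3 * (x * y))
      ≤ 174 / 10000 := by
  have hy' : y = 1 - x := by linarith
  have hxy4 : x * y ≤ 1 / 4 := by rw [hy']; nlinarith [sq_nonneg (x - 1 / 2)]
  have hP : 0 < x ^ 4 * y ^ 3 := by positivity
  have hxy0 : 0 < x * y := mul_pos hx hy
  have red : ∀ m : ℝ, 0 ≤ m → x ^ 4 * y ^ 3 * ((1 + 4 / 3 * (x * y)) * m + 7 / 3 * (x * y))
      ≤ x ^ 4 * y ^ 3 * (4 / 3 * m + 7 / 12) := by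
    intro m hm
    refine mul_le_mul_of_nonneg_left ?_ hP.le
    nlinarith
  rcases le_total |5 * y - 4 * x| 1 with hc | hc
  · rw [max_eq_right hc]
    refine (red 1 zero_le_one).trans ?_
    have h1 : x ^ 4 * y ^ 3 ≤ (4 / 7) ^ 4 * (3 / 7) ^ 3 := by
      apply sup2 hx.le hy.le (by norm_num) (by norm_num)
      rw [hy']; norm_num; linarith
    calc x ^ 4 * y ^ 3 * (4 / 3 * 1 + 7 / 12)
        ≤ ((4 / 7) ^ 4 * (3 / 7) ^ 3) * (4 / 3 * 1 + 7 / 12) :=
          mul_le_mul_of_nonneg_right h1 (by norm_num)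
      _ ≤ 174 / 10000 := by norm_num
  · rw [max_eq_left hc]
    rcases le_total 0 (5 * y - 4 * x) with hs | hs
    · rw [abs_of_nonneg hs] at hc ⊢
      refine (red _ hs).trans ?_
      have h1 : x ^ 4 * y ^ 3 * (4 / 3 * (5 * y - 4 * x) + 7 / 12)
          ≤ (2 / 5) ^ 4 * (61 / 100) ^ 3 * (246 / 100) := by
        apply sup3 hx.le hy.le (by linarith) (by norm_num) (by norm_num) (by norm_num)
        rw [hy'] at hc ⊢
        push_cast
        have : x ≤ 4 / 9 := by linarith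
        linarith
      exact h1.trans (by norm_num)
    · rw [abs_of_nonpos hs] at hc ⊢
      refine (red _ (by linarith)).trans ?_
      have h1 : x ^ 4 * y ^ 3 * (4 / 3 * (-(5 * y - 4 * x)) + 7 / 12)
          ≤ (72 / 100) ^ 4 * (29 / 100) ^ 3 * (25 / 10) := by
        apply sup3 hx.le hy.le (by linarith) (by norm_num) (by norm_num) (by norm_num)
        rw [hy'] at hc ⊢
        push_cast
        have : x < 1 := by linarith
        linarith
      exact h1.trans (by norm_num)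

/-- removal of the extra exponents -/
theorem numG_red {p q l : ℝ} (hp : 0 < p) (hq : 0 < q) (hpq : p + q = 1) (i j : ℕ)
    (hl : 1 ≤ l) : p ^ i * q ^ j * (l + i * q + j * p) ≤ l := by
  have hp1 : p < 1 := by linarith
  have hq1 : q < 1 := by linarith
  have e1 := pow_mul_le_one hp hp1 i
  have e2 := pow_mul_le_one hq hq1 j
  rw [show 1 - p = q by linarith] at e1
  rw [show 1 - q = p by linarith] at e2
  have hpi : 0 < p ^ i := pow_pos hp i
  have hqj : 0 < q ^ j := pow_pos hq j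
  have hpi1 : p ^ i ≤ 1 := pow_le_one₀ hp.le hp1.le
  have hi : (0 : ℝ) ≤ i := Nat.cast_nonneg i
  have hj : (0 : ℝ) ≤ j := Nat.cast_nonneg j
  have f1 : p ^ i * (l + i * q) ≤ l := by
    have : p ^ i * (l + i * q) ≤ l * (p ^ i * (1 + i * q)) := by
      have h1 : l + i * q ≤ l * (1 + i * q) := by nlinarith [mul_nonneg hi hq.le]
      calc p ^ i * (l + i * q) ≤ p ^ i * (l * (1 + i * q)) := mul_le_mul_of_nonneg_left h1 hpi.le
        _ = l * (p ^ i * (1 + i * q)) := by ring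
    calc p ^ i * (l + i * q) ≤ l * (p ^ i * (1 + i * q)) := this
      _ ≤ l * 1 := mul_le_mul_of_nonneg_left e1 (by linarith)
      _ = l := mul_one l
  have f2 : q ^ j * (l + j * p) ≤ l := by
    have : q ^ j * (l + j * p) ≤ l * (q ^ j * (1 + j * p)) := by
      have h1 : l + j * p ≤ l * (1 + j * p) := by nlinarith [mul_nonneg hj hp.le]
      calc q ^ j * (l + j * p) ≤ q ^ j * (l * (1 + j * p)) := mul_le_mul_of_nonneg_left h1 hqj.le
        _ = l * (q ^ j * (1 + j * p)) := by ring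
    calc q ^ j * (l + j * p) ≤ l * (q ^ j * (1 + j * p)) := this
      _ ≤ l * 1 := mul_le_mul_of_nonneg_left e2 (by linarith)
      _ = l := mul_one l
  calc p ^ i * q ^ j * (l + i * q + j * p)
      = q ^ j * (p ^ i * (l + i * q) + p ^ i * (j * p)) := by ring
    _ ≤ q ^ j * (l + 1 * (j * p)) := by
        refine mul_le_mul_of_nonneg_left (add_le_add f1 ?_) hqj.le
        exact mul_le_mul_of_nonneg_right hpi1 (mul_nonneg hj hp.le)
    _ = q ^ j * (l + j * p) := by ring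
    _ ≤ l := f2

/-- the bound with base exponents `(h1 + 1, t1 + 1)` -/
theorem numG_lift {p q C : ℝ} (hp : 0 < p) (hq : 0 < q) (hpq : p + q = 1) {h1 t1 : ℕ}
    (core : p ^ h1 * q ^ t1 * ((1 + 4 / 3 * (p * q)) *
      max |((h1 : ℝ) + 1) * q - ((t1 : ℝ) + 1) * p| 1 + 7 / 3 * (p * q)) ≤ C) (i j : ℕ) :
    p ^ (h1 + 1 + i) * q ^ (t1 + 1 + j) * ((1 + 4 / 3 * (p * q)) *
      |((h1 + 1 + i : ℕ) : ℝ) * q - ((t1 + 1 + j : ℕ) : ℝ) * p| + 7 / 3 * (p * q))
      ≤ C * (p * q) := by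
  have hp1 : p < 1 := by linarith
  have hq1 : q < 1 := by linarith
  set l : ℝ := max |((h1 : ℝ) + 1) * q - ((t1 : ℝ) + 1) * p| 1 with hl
  have hl1 : 1 ≤ l := le_max_right _ _
  have hi : (0 : ℝ) ≤ i := Nat.cast_nonneg i
  have hj : (0 : ℝ) ≤ j := Nat.cast_nonneg j
  have habs : |((h1 + 1 + i : ℕ) : ℝ) * q - ((t1 + 1 + j : ℕ) : ℝ) * p| ≤ l + i * q + j * p := by
    have e : ((h1 + 1 + i : ℕ) : ℝ) * q - ((t1 + 1 + j : ℕ) : ℝ) * p
        = (((h1 : ℝ) + 1) * q - ((t1 : ℝ) + 1) * p) + (i * q - j * p) := by push_cast; ring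
    rw [e]
    have a1 : |((h1 : ℝ) + 1) * q - ((t1 : ℝ) + 1) * p| ≤ l := le_max_left _ _
    have a2 : |(i : ℝ) * q - j * p| ≤ i * q + j * p := by
      rw [abs_le]; constructor <;> nlinarith [mul_nonneg hi hq.le, mul_nonneg hj hp.le]
    calc |(((h1 : ℝ) + 1) * q - ((t1 : ℝ) + 1) * p) + (i * q - j * p)|
        ≤ |((h1 : ℝ) + 1) * q - ((t1 : ℝ) + 1) * p| + |(i : ℝ) * q - j * p| := abs_add_le _ _
      _ ≤ l + (i * q + j * p) := add_le_add a1 a2
      _ = l + i * q + j * p := by ring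
  have hred := numG_red hp hq hpq i j hl1
  have hpq0 : 0 < p * q := mul_pos hp hq
  have hpi1 : p ^ i * q ^ j ≤ 1 :=
    mul_le_one₀ (pow_le_one₀ hp.le hp1.le) (pow_nonneg hq.le j) (pow_le_one₀ hq.le hq1.le)
  have hpi0 : 0 < p ^ i * q ^ j := by positivity
  have hB : 0 < 1 + 4 / 3 * (p * q) := by positivity
  have hK : 0 < p ^ h1 * q ^ t1 := by positivity
  have step : p ^ i * q ^ j * ((1 + 4 / 3 * (p * q)) *
      |((h1 + 1 + i : ℕ) : ℝ) * q - ((t1 + 1 + j : ℕ) : ℝ) * p| + 7 / 3 * (p * q))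
      ≤ (1 + 4 / 3 * (p * q)) * l + 7 / 3 * (p * q) := by
    have s1 : p ^ i * q ^ j * |((h1 + 1 + i : ℕ) : ℝ) * q - ((t1 + 1 + j : ℕ) : ℝ) * p| ≤ l :=
      (mul_le_mul_of_nonneg_left habs hpi0.le).trans hred
    have s2 : p ^ i * q ^ j * (7 / 3 * (p * q)) ≤ 1 * (7 / 3 * (p * q)) :=
      mul_le_mul_of_nonneg_right hpi1 (by positivity)
    calc p ^ i * q ^ j * ((1 + 4 / 3 * (p * q)) *
          |((h1 + 1 + i : ℕ) : ℝ) * q - ((t1 + 1 + j : ℕ) : ℝ) * p| + 7 / 3 * (p * q))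
        = (1 + 4 / 3 * (p * q)) *
          (p ^ i * q ^ j * |((h1 + 1 + i : ℕ) : ℝ) * q - ((t1 + 1 + j : ℕ) : ℝ) * p|)
          + p ^ i * q ^ j * (7 / 3 * (p * q)) := by ring
      _ ≤ (1 + 4 / 3 * (p * q)) * l + 1 * (7 / 3 * (p * q)) :=
          add_le_add (mul_le_mul_of_nonneg_left s1 hB.le) s2
      _ = (1 + 4 / 3 * (p * q)) * l + 7 / 3 * (p * q) := by ring
  calc p ^ (h1 + 1 + i) * q ^ (t1 + 1 + j) * ((1 + 4 / 3 * (p * q)) *
        |((h1 + 1 + i : ℕ) : ℝ) * q - ((t1 + 1 + j : ℕ) : ℝ) * p| + 7 / 3 * (p * q))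
      = (p * q) * (p ^ h1 * q ^ t1 * (p ^ i * q ^ j * ((1 + 4 / 3 * (p * q)) *
        |((h1 + 1 + i : ℕ) : ℝ) * q - ((t1 + 1 + j : ℕ) : ℝ) * p| + 7 / 3 * (p * q)))) := by
        rw [pow_add, pow_succ, pow_add, pow_succ]; ring
    _ ≤ (p * q) * (p ^ h1 * q ^ t1 * ((1 + 4 / 3 * (p * q)) * l + 7 / 3 * (p * q))) :=
        mul_le_mul_of_nonneg_left (mul_le_mul_of_nonneg_left step hK.le) hpq0.le
    _ ≤ (p * q) * C := mul_le_mul_of_nonneg_left core hpq0.le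
    _ = C * (p * q) := by ring

/-- `p^h q^t ((1 + 4/3 p q) |h q - t p| + 7/3 p q) ≤ .0174 p q` for `h, t ≥ 4`, `L ≥ 9` -/
theorem numG_lam {p : ℝ} (h0 : 0 < p) (h1 : p < 1) {h t : ℕ} (hh : 4 ≤ h) (ht : 4 ≤ t)
    (hL : 9 ≤ h + t) :
    p ^ h * (1 - p) ^ t * ((1 + 4 / 3 * (p * (1 - p))) * |(h : ℝ) * (1 - p) - t * p|
      + 7 / 3 * (p * (1 - p))) ≤ 174 / 10000 * (p * (1 - p)) := by
  have hq0 : 0 < 1 - p := by linarith
  by_cases h5 : 5 ≤ h
  · obtain ⟨i, rfl⟩ := Nat.exists_eq_add_of_le h5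
    obtain ⟨j, rfl⟩ := Nat.exists_eq_add_of_le ht
    refine numG_lift (h1 := 4) (t1 := 3) h0 hq0 (by ring) ?_ i j
    have := numG_core h0 hq0 (by ring)
    have e : (((4 : ℕ) : ℝ) + 1) * (1 - p) - (((3 : ℕ) : ℝ) + 1) * p
        = 5 * (1 - p) - 4 * p := by push_cast; ring
    rw [e]; exact this
  · have ht5 : 5 ≤ t := by omega
    obtain ⟨i, rfl⟩ := Nat.exists_eq_add_of_le hh
    obtain ⟨j, rfl⟩ := Nat.exists_eq_add_of_le ht5
    refine numG_lift (h1 := 3) (t1 := 4) h0 hq0 (by ring) ?_ i j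
    have := numG_core hq0 h0 (by ring)
    have e : (((3 : ℕ) : ℝ) + 1) * (1 - p) - (((4 : ℕ) : ℝ) + 1) * p
        = -(5 * p - 4 * (1 - p)) := by push_cast; ring
    rw [e, abs_neg]
    calc p ^ 3 * (1 - p) ^ 4 * ((1 + 4 / 3 * (p * (1 - p))) * max |5 * p - 4 * (1 - p)| 1
          + 7 / 3 * (p * (1 - p)))
        = (1 - p) ^ 4 * p ^ 3 * ((1 + 4 / 3 * ((1 - p) * p)) * max |5 * p - 4 * (1 - p)| 1
          + 7 / 3 * ((1 - p) * p)) := by ring
      _ ≤ 174 / 10000 := this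

/-- half of `numG_44` -/
theorem numG_44_aux {x y : ℝ} (hx : 0 < x) (hy : 0 < y) (hxy : x + y = 1) (hle : x ≤ y) :
    x ^ 3 * y ^ 3 * (4 * (y - x) + 1 / 3) ≤ 218 / 10000 := by
  have hy' : y = 1 - x := by linarith
  have h1 : x ^ 3 * y ^ 3 * (4 * (y - x) + 1 / 3)
      ≤ (33 / 100) ^ 3 * (69 / 100) ^ 3 * (175 / 100) := by
    apply sup3 hx.le hy.le (by linarith) (by norm_num) (by norm_num) (by norm_num)
    have : x ≤ 1 / 2 := by linarith
    rw [hy']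
    push_cast
    linarith
  exact h1.trans (by norm_num)

/-- contents `(4, 4)` -/
theorem numG_44 {p : ℝ} (h0 : 0 < p) (h1 : p < 1) :
    p ^ 4 * (1 - p) ^ 4 * (4 * |(1 - p) - p| + 16 / 3 * (p * (1 - p)) ^ 2)
      ≤ 218 / 10000 * (p * (1 - p)) := by
  have hq0 : 0 < 1 - p := by linarith
  have hpq : 0 < p * (1 - p) := mul_pos h0 hq0
  have hpq4 : p * (1 - p) ≤ 1 / 4 := by nlinarith [sq_nonneg (p - 1 / 2)]
  have hsq : 16 / 3 * (p * (1 - p)) ^ 2 ≤ 1 / 3 := by nlinarith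
  have core : p ^ 3 * (1 - p) ^ 3 * (4 * |(1 - p) - p| + 1 / 3) ≤ 218 / 10000 := by
    rcases le_total p (1 - p) with hc | hc
    · rw [abs_of_nonneg (by linarith)]
      exact numG_44_aux h0 hq0 (by ring) hc
    · rw [abs_of_nonpos (by linarith)]
      have := numG_44_aux hq0 h0 (by ring) hc
      calc p ^ 3 * (1 - p) ^ 3 * (4 * -((1 - p) - p) + 1 / 3)
          = (1 - p) ^ 3 * p ^ 3 * (4 * (p - (1 - p)) + 1 / 3) := by ring
        _ ≤ 218 / 10000 := this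
  have hK : 0 < p ^ 3 * (1 - p) ^ 3 := by positivity
  calc p ^ 4 * (1 - p) ^ 4 * (4 * |(1 - p) - p| + 16 / 3 * (p * (1 - p)) ^ 2)
      = (p * (1 - p)) * (p ^ 3 * (1 - p) ^ 3 * (4 * |(1 - p) - p|
          + 16 / 3 * (p * (1 - p)) ^ 2)) := by ring
    _ ≤ (p * (1 - p)) * (p ^ 3 * (1 - p) ^ 3 * (4 * |(1 - p) - p| + 1 / 3)) := by
        refine mul_le_mul_of_nonneg_left (mul_le_mul_of_nonneg_left ?_ hK.le) hpq.le
        linarith
    _ ≤ (p * (1 - p)) * (218 / 10000) := mul_le_mul_of_nonneg_left core hpq.le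
    _ = 218 / 10000 * (p * (1 - p)) := by ring

end Coin
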