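import Pool.Agent.Lib.Coin.EqG
import Pool.Agent.Lib.Coin.Eq6
import Pool.Agent.Lib.Coin.EqNumG
import Pool.Agent.Lib.Coin.EqG44
import Pool.Agent.Lib.Coin.Eq42
import Pool.Agent.Lib.Coin.IncUnary

/-!
# Coin race: equal contents (M5c), assembly of the classes with long tops
-/

namespace Coin

open Finset

variable {p : ℝ} {A B : List Bool}

/-- the numerical part, `al = 11/20 p q` -/
theorem up_G_num (h0 : 0 < p) (h1 : p < 1) (hA : A ≠ []) (hB : B ≠ [])
    (hcont : cont A = cont B) (hG : G p A B = 0) {x y : ℕ × ℕ} (hx : IsTop A B x)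
    (hy : IsTop B A y) (hh : 4 ≤ A.count true) (ht : 4 ≤ A.count false)
    {r : ℕ} (hr : 1 ≤ r) (hrJ : r ≤ max (x.1 + x.2) (y.1 + y.2))
    (h44 : A.length = 8 → x.1 + x.2 ≤ 3 ∧ y.1 + y.2 ≤ 3)
    (hLA : wt p A * ∑ z ∈ bc A, kapc p z * |dl p z|
      ≤ (1 + 4 / 3 * (p * (1 - p))) * |dl p (cont A)| + 7 / 3 * (p * (1 - p)))
    (hLB : wt p B * ∑ z ∈ bc B, kapc p z * |dl p z|
      ≤ (1 + 4 / 3 * (p * (1 - p))) * |dl p (cont B)| + 7 / 3 * (p * (1 - p)))
    (h44' : A.length = 8 → Sg p A ≤ 13 / 12 ∧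
      wt p A * ∑ z ∈ bc A, kapc p z * |dl p z| ≤ |dl p (cont A)| + 16 / 3 * (p * (1 - p)) ^ 2 ∧
      wt p B * ∑ z ∈ bc B, kapc p z * |dl p z| ≤ |dl p (cont B)| + 16 / 3 * (p * (1 - p)) ^ 2)
    (hmain : 11 / 20 * (p * (1 - p)) * ∑ z ∈ symD A B, kapc p z * (wgt p A B (z.1 + z.2)
        * |((z.1 + z.2 : ℕ) : ℝ) - r|)
      < (∑ z ∈ bc A \ bc B, kapc p z * (dl p z * wgt p A B (z.1 + z.2)))
        - ∑ z ∈ bc B \ bc A, kapc p z * (dl p z * wgt p A B (z.1 + z.2))) :
    ∃ d > 0, HasDerivAt (fun x => G x A B) d p := by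
  have hq : 0 < 1 - p := by linarith
  have hw := wt_pos h0 h1 A
  have hX : 0 < p * (1 - p) := mul_pos h0 hq
  have hlen := length_eq_of_cont hcont
  have hwe : wt p B = wt p A := by rw [wt_cont, wt_cont p A, hcont]
  have hsz := count_add A
  have hcnt := cont_eq_iff.1 hcont
  rw [hwe] at hLB h44'
  rw [← hcont] at hLB h44'
  have hdl : dl p (cont A) = (A.count true : ℝ) * (1 - p) - A.count false * p := rfl
  have hPe : wt p A = p ^ (A.count true) * (1 - p) ^ (A.count false) := rfl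
  have hLr : (A.length : ℝ) = (A.count true : ℝ) + A.count false := by
    rw [← hsz]; push_cast; ring
  have hxs := bc_size (mem_sdiff.1 hx.mem).1
  have hys := bc_size (mem_sdiff.1 hy.mem).1
  have hJL : max (x.1 + x.2) (y.1 + y.2) ≤ A.length := max_le hxs.2 (by rw [hlen]; exact hys.2)
  have hJ : ∀ z ∈ symD A B, z.1 + z.2 ≤ max (x.1 + x.2) (y.1 + y.2) := by
    intro z hz
    rcases mem_symD.1 hz with h | h
    · exact (hx.max z (mem_sdiff.2 h)).trans (le_max_left _ _)
    · exact (hy.max z (mem_sdiff.2 h)).trans (le_max_right _ _)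
  by_cases hL : A.length = 8
  · -- content (4, 4)
    obtain ⟨s1, s2⟩ := h44 hL
    obtain ⟨hS, hA44, hB44⟩ := h44' hL
    have eh : A.count true = 4 := by omega
    have et : A.count false = 4 := by omega
    have hL8 : (A.length : ℝ) = 8 := by rw [hL]; norm_num
    rw [eh, et] at hPe hdl
    have hX4 : p * (1 - p) ≤ 1 / 4 := by nlinarith [sq_nonneg (2 * p - 1)]
    have hP : wt p A ≤ 1 / 256 := by
      rw [hPe, ← mul_pow]
      calc (p * (1 - p)) ^ 4 ≤ (1 / 4) ^ 4 := pow_le_pow_left₀ hX.le hX4 4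
        _ = 1 / 256 := by norm_num
    have hN := numG_44 h0 h1
    rw [← hPe] at hN
    have hl : |dl p (cont A)| = 4 * |(1 - p) - p| := by
      rw [hdl]
      rw [show ((4 : ℕ) : ℝ) * (1 - p) - (4 : ℕ) * p = 4 * ((1 - p) - p) by push_cast; ring,
        abs_mul, abs_of_pos (by norm_num : (0 : ℝ) < 4)]
    rw [hl] at hA44 hB44
    set Lam := 4 * |(1 - p) - p| + 16 / 3 * (p * (1 - p)) ^ 2 with hLam
    have hLam0 : 0 ≤ Lam := by positivity
    refine up_of_alpha h0 h1 hA hB hcont hG ⟨x, hx.mem⟩ hr hrJ hJL hJ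
      (kappa := 103 / 100) (Th := 1034 / 1000) (Th' := 1034 / 1000) (S := 13 / 12)
      (om := 433 / 1000) (Lam := Lam) (al := 11 / 20 * (p * (1 - p)))
      (by norm_num) ?_ (by norm_num) ?_ (Or.inl ⟨?_, le_rfl⟩) (by norm_num) (Or.inl ?_)
      (by norm_num) ?_ hA44 hB44 ?_ hmain
    · rw [hL8]; linarith
    · rw [hL8]; linarith
    · have : max (x.1 + x.2) (y.1 + y.2) ≤ 3 := max_le s1 s2
      omega
    · rw [wt_mul_sum_bc]; exact hS
    · rw [hL8]
      norm_num
      linarith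
    · rw [hL8]
      have e1 : (1034 / 1000 : ℝ) * (1 + 1034 / 1000 / (4 * (433 / 1000))) + 1
          + 8 * wt p A * (1034 / 1000) / (433 / 1000) ≤ 273 / 100 := by
        norm_num
        linarith
      calc 4 * wt p A * Lam * ((1034 / 1000 : ℝ) * (1 + 1034 / 1000 / (4 * (433 / 1000))) + 1
          + 8 * wt p A * (1034 / 1000) / (433 / 1000))
          ≤ 4 * wt p A * Lam * (273 / 100) := mul_le_mul_of_nonneg_left e1 (by positivity)
        _ = 273 / 25 * (wt p A * Lam) := by ring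
        _ ≤ 273 / 25 * (218 / 10000 * (p * (1 - p))) := mul_le_mul_of_nonneg_left hN (by norm_num)
        _ ≤ 11 / 20 * (p * (1 - p)) * (433 / 1000) := by nlinarith
  · have h9 : 9 ≤ A.count true + A.count false := by omega
    obtain ⟨n1, n2⟩ := numG_len h0 h1 hh ht h9
    have hN := numG_lam h0 h1 hh ht h9
    rw [← hPe, ← hLr] at n1 n2
    rw [← hPe, ← hdl] at hN
    have hS : Sg p A ≤ 4 / 3 :=
      Sg_le_four_thirds h0 h1 (List.count_pos_iff.1 (by omega)) (List.count_pos_iff.1 (by omega))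
    set Lam := (1 + 4 / 3 * (p * (1 - p))) * |dl p (cont A)| + 7 / 3 * (p * (1 - p)) with hLam
    have hLam0 : 0 ≤ Lam := by positivity
    refine up_of_alpha h0 h1 hA hB hcont hG ⟨x, hx.mem⟩ hr hrJ hJL hJ
      (kappa := 51 / 50) (Th := 51 / 50) (Th' := (51 / 50) ^ 2) (S := 4 / 3)
      (om := 358 / 1000) (Lam := Lam) (al := 11 / 20 * (p * (1 - p)))
      (by norm_num) ?_ (by norm_num) ?_ (Or.inr le_rfl) (by norm_num) (Or.inl ?_)
      (by norm_num) ?_ hLA hLB ?_ hmain
    · linarith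
    · linarith
    · rw [wt_mul_sum_bc]; exact hS
    · norm_num
      linarith
    · have e1 : (51 / 50 : ℝ) * (1 + (51 / 50) ^ 2 / (4 * (358 / 1000))) + 1
          + A.length * wt p A * (51 / 50) / (358 / 1000) ≤ 2815 / 1000 := by
        norm_num
        linarith
      calc 4 * wt p A * Lam * ((51 / 50 : ℝ) * (1 + (51 / 50) ^ 2 / (4 * (358 / 1000))) + 1
          + A.length * wt p A * (51 / 50) / (358 / 1000))
          ≤ 4 * wt p A * Lam * (2815 / 1000) := mul_le_mul_of_nonneg_left e1 (by positivity)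
        _ = 2815 / 250 * (wt p A * Lam) := by ring
        _ ≤ 2815 / 250 * (174 / 10000 * (p * (1 - p))) :=
            mul_le_mul_of_nonneg_left hN (by norm_num)
        _ ≤ 11 / 20 * (p * (1 - p)) * (358 / 1000) := by nlinarith

/-- content `(4,4)` with short proper borders -/
theorem Lam44 (h0 : 0 < p) (h1 : p < 1) (hh : A.count true = 4) (ht : A.count false = 4)
    (hb : ∀ z ∈ bc A, z ≠ cont A → z.1 ≤ 2 ∧ z.2 ≤ 2) :
    Sg p A ≤ 13 / 12 ∧
      wt p A * ∑ z ∈ bc A, kapc p z * |dl p z|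
        ≤ |dl p (cont A)| + 16 / 3 * (p * (1 - p)) ^ 2 := by
  have hq : 0 < 1 - p := by linarith
  have hX : 0 < p * (1 - p) := mul_pos h0 hq
  have ht' : true ∈ A := List.count_pos_iff.mp (by omega)
  have hf' : false ∈ A := List.count_pos_iff.mp (by omega)
  have hA : A ≠ [] := List.ne_nil_of_mem ht'
  have hX4 : p * (1 - p) ≤ 1 / 4 := by nlinarith [sq_nonneg (2 * p - 1)]
  have hXX : 0 ≤ (p * (1 - p)) ^ 2 := by positivity
  have hS : Sg p A ≤ 1 + 4 / 3 * (p * (1 - p)) ^ 2 := by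
    rcases exists_top A with he | ⟨k, hk, hlt, he⟩
    · rw [Sg_top h0 h1 hA he]
      linarith
    · have hz : cont (A.take k) ∈ bc A := mem_bc.2 ⟨k, hk, rfl⟩
      have hzk := cont_add hk
      have hne : cont (A.take k) ≠ cont A := by
        intro h
        have e1 := cont_add (bd_self hA)
        rw [List.take_length, ← h, hzk] at e1
        omega
      obtain ⟨b1, b2⟩ := hb _ hz hne
      have b1' : (A.take k).count true ≤ 2 := b1
      have b2' : (A.take k).count false ≤ 2 := b2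
      have s1 := count_split A k true
      have s2 := count_split A k false
      by_cases hzf : (A.take k).count false = 0
      · obtain ⟨i, j, hi, hj, -, -, -, -, hSg, -⟩ := run_true h0 h1 hk hlt he hf' hzf
        rw [hSg]
        have g1 : p ^ i ≤ p ^ 2 := pow_le_pow_of_le_one h0.le h1.le (by omega)
        have g2 : (1 - p) ^ j ≤ (1 - p) ^ 2 :=
          pow_le_pow_of_le_one hq.le (by linarith) (by omega)
        have g3 : 0 ≤ p ^ k := by positivity
        have g4 : p ^ i * (1 - p) ^ j ≤ p ^ 2 * (1 - p) ^ 2 :=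
          mul_le_mul g1 g2 (by positivity) (by positivity)
        have g5 : p ^ i * (1 - p) ^ j * (1 - p ^ k) ≤ p ^ i * (1 - p) ^ j :=
          mul_le_of_le_one_right (by positivity) (by linarith)
        rw [mul_pow] at hXX ⊢
        linarith
      · by_cases hzt : (A.take k).count true = 0
        · obtain ⟨i, j, hi, hj, -, -, hkj, -, hSg, -⟩ := run_false h0 h1 hk hlt he ht' hzt
          rw [hSg]
          have g1 : p ^ i ≤ p ^ 2 := pow_le_pow_of_le_one h0.le h1.le (by omega)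
          have g2 : (1 - p) ^ j ≤ (1 - p) ^ 2 :=
            pow_le_pow_of_le_one hq.le (by linarith) (by omega)
          have g3 : 0 ≤ (1 - p) ^ k := by positivity
          have g4 : p ^ i * (1 - p) ^ j ≤ p ^ 2 * (1 - p) ^ 2 :=
            mul_le_mul g1 g2 (by positivity) (by positivity)
          have g5 : p ^ i * (1 - p) ^ j * (1 - (1 - p) ^ k) ≤ p ^ i * (1 - p) ^ j :=
            mul_le_of_le_one_right (by positivity) (by linarith)
          rw [mul_pow] at hXX ⊢
          linarith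
        · have hS43 := Sg_le_four_thirds h0 h1 (mem_of_count_ne hzt) (mem_of_count_ne hzf)
          have hS0 := Sg_pos h0 h1 (take_ne_nil hk)
          rw [Sg_rec h0 h1 hA hk he]
          have g1 : p ^ ((A.drop k).count true) ≤ p ^ 2 :=
            pow_le_pow_of_le_one h0.le h1.le (by omega)
          have g2 : (1 - p) ^ ((A.drop k).count false) ≤ (1 - p) ^ 2 :=
            pow_le_pow_of_le_one hq.le (by linarith) (by omega)
          have g4 : wt p (A.drop k) ≤ p ^ 2 * (1 - p) ^ 2 :=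
            mul_le_mul g1 g2 (by positivity) (by positivity)
          have g5 := mul_le_mul g4 hS43 hS0.le (by positivity)
          rw [mul_pow]
          linarith
  have hD : ∀ z ∈ bc A, z ≠ cont A → |dl p z| ≤ 2 := by
    intro z hz hne
    obtain ⟨b1, b2⟩ := hb z hz hne
    refine (abs_dl_le h0 h1 z).trans (max_le ?_ ?_)
    · have : (z.1 : ℝ) ≤ 2 := by exact_mod_cast b1
      nlinarith
    · have : (z.2 : ℝ) ≤ 2 := by exact_mod_cast b2
      nlinarith
  have h2 := Lam_le_D h0 h1 hA hD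
  constructor
  · nlinarith
  · linarith

/-- in content `(4,4)` all proper borders are short -/
theorem short44 (hcont : cont A = cont B) {x y : ℕ × ℕ} (hx : IsTop A B x)
    (hy : IsTop B A y) (hyx1 : y.1 < x.1) (hxy2 : x.2 < y.2) (hx1 : 2 ≤ x.1) (hy2 : 2 ≤ y.2)
    (hh : A.count true = 4) (ht : A.count false = 4) :
    (x.1 = 2 ∧ x.2 ≤ 1 ∧ y.1 ≤ 1 ∧ y.2 = 2) ∧
      (∀ z ∈ bc A, z ≠ cont A → z.1 ≤ 2 ∧ z.2 ≤ 2) ∧
      (∀ z ∈ bc B, z ≠ cont B → z.1 ≤ 2 ∧ z.2 ≤ 2) := by
  have hxA := (mem_sdiff.1 hx.mem).1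
  have hxB := (mem_sdiff.1 hx.mem).2
  have hyB := (mem_sdiff.1 hy.mem).1
  have hyA := (mem_sdiff.1 hy.mem).2
  have hd := dichotomy hcont hxA hyB hyx1 hxy2
  have hcnt := cont_eq_iff.1 hcont
  have hlen := length_eq_of_cont hcont
  have hsz := count_add A
  have c : x.1 = 2 ∧ x.2 ≤ 1 ∧ y.1 ≤ 1 ∧ y.2 = 2 := by omega
  obtain ⟨c1, c2, c3, c4⟩ := c
  have common : ∀ z, z ∈ bc A → z ∈ bc B → z ≠ cont A → z.1 ≤ 2 ∧ z.2 ≤ 2 := by
    intro z hzA hzB hne
    by_cases hxz : z.1 + z.2 ≤ x.1 + x.2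
    · have := bc_chain hzA hxA hxz
      omega
    by_cases hyz : z.1 + z.2 ≤ y.1 + y.2
    · have := bc_chain hzB hyB hyz
      omega
    exfalso
    have e1 := bc_chain hxA hzA (by omega)
    have e2 := bc_chain hyB hzB (by omega)
    have e3 := bc_lt_fst hxA hzA (by omega) (by omega)
    have e4 := bc_lt_snd hyB hzB (by omega) (by omega)
    have hA : A ≠ [] := by
      intro h
      rw [h] at hh
      simp at hh
    have hlt : z.1 + z.2 < A.length := by
      refine lt_of_le_of_ne (bc_size hzA).2 (fun h => hne ?_)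
      have h3 := cont_take hzA
      rw [h, List.take_length] at h3
      exact h3.symm
    have hca := cont_self_mem hA
    have hcl : (cont A).1 + (cont A).2 = A.length := hsz
    have ca1 : (cont A).1 = 4 := hh
    have ca2 : (cont A).2 = 4 := ht
    have e5 := bc_lt_fst hzA hca (by omega) (by omega)
    have e6 := bc_lt_snd hzA hca (by omega) (by omega)
    obtain ⟨g1, g2, g3⟩ := bc_sub_period hzB (by omega)
    rw [← hcnt.1, ← hcnt.2, hh, ht] at g1
    have ez : (2 * z.1 - 4, 2 * z.2 - 4) = ((2, 2) : ℕ × ℕ) := by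
      have : z.1 = 3 := by omega
      have : z.2 = 3 := by omega
      exact Prod.ext (by show 2 * z.1 - 4 = 2; omega) (by show 2 * z.2 - 4 = 2; omega)
    rw [ez] at g1
    have := bc_lt_snd hyB g1 (by simp only; omega) (by simp only; omega)
    simp only at this
    omega
  refine ⟨⟨c1, c2, c3, c4⟩, ?_, ?_⟩
  · intro z hz hne
    by_cases hzB : z ∈ bc B
    · exact common z hz hzB hne
    · have := bc_chain hz hxA (hx.max z (mem_sdiff.2 ⟨hz, hzB⟩))
      omega
  · intro z hz hne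
    by_cases hzA : z ∈ bc A
    · exact common z hzA hz (by rw [hcont]; exact hne)
    · have := bc_chain hz hyB (hy.max z (mem_sdiff.2 ⟨hz, hzA⟩))
      omega

/-- the counts are at least four -/
theorem four_le_counts (hcont : cont A = cont B) {x y : ℕ × ℕ} (hx : IsTop A B x)
    (hy : IsTop B A y) (hyx1 : y.1 < x.1) (hxy2 : x.2 < y.2) (hx1 : 2 ≤ x.1) (hy2 : 2 ≤ y.2) :
    4 ≤ A.count true ∧ 4 ≤ A.count false := by
  have hd := dichotomy hcont (mem_sdiff.1 hx.mem).1 (mem_sdiff.1 hy.mem).1 hyx1 hxy2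
  omega

/-- from the main inequality with `al = 11/20 p q` -/
theorem up_G_main (h0 : 0 < p) (h1 : p < 1) (hA : A ≠ []) (hB : B ≠ [])
    (hcont : cont A = cont B) (hG : G p A B = 0) {x y : ℕ × ℕ} (hx : IsTop A B x)
    (hy : IsTop B A y) (hyx1 : y.1 < x.1) (hxy2 : x.2 < y.2) (hx1 : 2 ≤ x.1) (hy2 : 2 ≤ y.2)
    {r : ℕ} (hr : 1 ≤ r) (hrJ : r ≤ max (x.1 + x.2) (y.1 + y.2))
    (hmain : 11 / 20 * (p * (1 - p)) * ∑ z ∈ symD A B, kapc p z * (wgt p A B (z.1 + z.2)
        * |((z.1 + z.2 : ℕ) : ℝ) - r|)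
      < (∑ z ∈ bc A \ bc B, kapc p z * (dl p z * wgt p A B (z.1 + z.2)))
        - ∑ z ∈ bc B \ bc A, kapc p z * (dl p z * wgt p A B (z.1 + z.2))) :
    ∃ d > 0, HasDerivAt (fun x => G x A B) d p := by
  obtain ⟨f1, f2⟩ := four_le_counts hcont hx hy hyx1 hxy2 hx1 hy2
  have hcnt := cont_eq_iff.1 hcont
  have hsz := count_add A
  refine up_G_num h0 h1 hA hB hcont hG hx hy f1 f2 hr hrJ ?_ (LamG h0 h1 (by omega) (by omega))
    (LamG h0 h1 (by omega) (by omega)) ?_ hmain
  · intro h8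
    obtain ⟨⟨c1, c2, c3, c4⟩, -, -⟩ := short44 hcont hx hy hyx1 hxy2 hx1 hy2 (by omega) (by omega)
    omega
  · intro h8
    have e1 : A.count true = 4 := by omega
    have e2 : A.count false = 4 := by omega
    obtain ⟨-, sA, sB⟩ := short44 hcont hx hy hyx1 hxy2 hx1 hy2 e1 e2
    have a := Lam44 h0 h1 e1 e2 sA
    have b := Lam44 h0 h1 (A := B) (by omega) (by omega) sB
    exact ⟨a.1, a.2, b.2⟩

/-- classes with `y.1 ≥ 1` or `x.2 = 0` -/
theorem up_G_aux (hA : A ≠ []) (hB : B ≠ []) (hcont : cont A = cont B) {x y : ℕ × ℕ}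
    (hx : IsTop A B x) (hy : IsTop B A y) (hyx1 : y.1 < x.1) (hxy2 : x.2 < y.2) (hx1 : 2 ≤ x.1)
    (hy2 : 2 ≤ y.2) (hc : 1 ≤ y.1 ∨ x.2 = 0) : UpAtTies A B := by
  intro p h0 h1 hG
  have hq : 0 < 1 - p := by linarith
  have hX : 0 < p * (1 - p) := mul_pos h0 hq
  by_cases hx2 : x.2 = 0
  · by_cases hy1 : y.1 = 0
    · have hm := eq_UU (al := 11 / 20 * (p * (1 - p))) h0 h1 hA hB hx hy hx2 hy1
        (by nlinarith) (by nlinarith)
      exact up_G_main h0 h1 hA hB hcont hG hx hy hyx1 hxy2 hx1 hy2 (r := 1) le_rfl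
        (le_max_of_le_left (by omega)) hm
    · have hm := eq_UG (al := 11 / 20 * (p * (1 - p))) h0 h1 hA hB hcont hG hx hy hyx1 hx2
        (by omega) hy2 (by positivity) le_rfl
      exact up_G_main h0 h1 hA hB hcont hG hx hy hyx1 hxy2 hx1 hy2 (r := x.1) (by omega)
        (le_max_of_le_left (by omega)) hm
  · have hm := eq_GG (al := 11 / 20 * (p * (1 - p))) h0 h1 hA hB hcont hG hx hy hyx1 hxy2 hx1
      (by omega) (by omega) hy2 (by positivity) le_rfl
    exact up_G_main h0 h1 hA hB hcont hG hx hy hyx1 hxy2 hx1 hy2 (r := x.1 + x.2) (by omega)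
      (le_max_left _ _) hm

/-- equal contents, both tops have at least two of their own letter -/
theorem up_G (hA : A ≠ []) (hB : B ≠ []) (hcont : cont A = cont B) {x y : ℕ × ℕ}
    (hx : IsTop A B x) (hy : IsTop B A y) (hyx1 : y.1 < x.1) (hxy2 : x.2 < y.2) (hx1 : 2 ≤ x.1)
    (hy2 : 2 ≤ y.2) : UpAtTies A B := by
  by_cases hc : 1 ≤ y.1 ∨ x.2 = 0
  · exact up_G_aux hA hB hcont hx hy hyx1 hxy2 hx1 hy2 hc
  · push Not at hc
    refine UpAtTies.mirror ?_
    have hcont' : cont (B.map not) = cont (A.map not) := by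
      obtain ⟨e1, e2⟩ := cont_eq_iff.1 hcont
      rw [cont_eq_iff, count_map_not, count_map_not, count_map_not, count_map_not]
      exact ⟨e2.symm, e1.symm⟩
    refine up_G_aux (x := y.swap) (y := x.swap) (by simpa using hB) (by simpa using hA) hcont'
      hy.map_not hx.map_not hxy2 hyx1 hy2 hx1 (Or.inr ?_)
    show y.1 = 0
    omega

end Coin
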