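import Pool.Agent.Lib.Coin.Eq5
import Pool.Agent.Lib.Coin.Lam4

/-!
# Coin race: equal contents (M5c), the main term
-/

namespace Coin

open Finset

variable {p : ℝ} {A B : List Bool}

theorem wgt_pos (h0 : 0 < p) (h1 : p < 1) (hA : A ≠ []) (hB : B ≠ []) (k : ℕ) :
    0 < wgt p A B k := Wk_pos h0 h1 hA hB k

theorem wgt_mono (h0 : 0 < p) (h1 : p < 1) (hA : A ≠ []) (hB : B ≠ []) {j k : ℕ} (hj : 1 ≤ j)
    (hjk : j ≤ k) (hk : k ≤ A.length) : wgt p A B j ≤ wgt p A B k :=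
  Wk_pm_mono h0 h1 hA hB hj hjk hk

/-- sum of the heads lost below a border -/
theorem heads_lost_le (h0 : 0 < p) (h1 : p < 1) {C : List Bool} {x : ℕ × ℕ} (hx : x ∈ bc C)
    {D : Finset (ℕ × ℕ)} (hD : D ⊆ bc C) (hle : ∀ z ∈ D, z.1 + z.2 ≤ x.1 + x.2) :
    (1 - p) * ∑ z ∈ D, kapc p z * ((x.1 : ℝ) - z.1)
      ≤ kapc p x * lamH p (C.take (x.1 + x.2)) := by
  obtain ⟨k, hk, hc⟩ := mem_bc.1 hx
  have hsz := cont_add hk
  rw [hc] at hsz
  have hq : 0 < 1 - p := by linarith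
  set X := C.take (x.1 + x.2) with hX
  have hXc : cont X = x := by rw [hX, hsz, hc]
  have hw : kapc p x * wt p X = 1 := by
    have := wt_pos h0 h1 X
    have e : kapc p x = 1 / wt p X := by rw [← hXc]; rfl
    rw [e]; field_simp
  have hsub : ∀ z ∈ D, z ∈ bc X := by
    intro z hz
    obtain ⟨l, hl, hcl⟩ := mem_bc.1 (hD hz)
    have h2 := cont_add hl
    rw [hcl] at h2
    have hlk : l ≤ k := by rw [← h2, ← hsz]; exact hle z hz
    refine mem_bc.2 ⟨l, ?_, ?_⟩
    · rw [hX, hsz]; exact (bd_take hk hlk).2 hl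
    · rw [hX, hsz, List.take_take, min_eq_left hlk, hcl]
  have hXt : (X.count true : ℝ) = x.1 := by
    have : X.count true = x.1 := congrArg Prod.fst hXc
    rw [this]
  have e1 : kapc p x * lamH p X = (1 - p) * ∑ z ∈ bc X, kapc p z * ((x.1 : ℝ) - z.1) := by
    unfold lamH
    rw [hXt, ← sum_bd_eq_gen X (fun z _ => kapc p z * ((x.1 : ℝ) - z.1))]
    calc _ = (kapc p x * wt p X) * ((1 - p) * ∑ k ∈ bd X, kap p X k *
          ((x.1 : ℝ) - ((X.take k).count true : ℝ))) := by ring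
      _ = _ := by rw [hw, one_mul]; rfl
  rw [e1]
  refine mul_le_mul_of_nonneg_left ?_ hq.le
  refine sum_le_sum_of_subset_of_nonneg hsub (fun z hz _ => ?_)
  refine mul_nonneg (kapc_pos h0 h1 z).le ?_
  obtain ⟨l, hl, rfl⟩ := mem_bc.1 hz
  have h3 : (cont (X.take l)).1 ≤ X.count true := (List.take_sublist l X).count_le true
  have h4 : ((cont (X.take l)).1 : ℝ) ≤ X.count true := by exact_mod_cast h3
  rw [hXt] at h4
  linarith

/-- sum of the tails lost below a border -/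
theorem tails_lost_le (h0 : 0 < p) (h1 : p < 1) {C : List Bool} {x : ℕ × ℕ} (hx : x ∈ bc C)
    {D : Finset (ℕ × ℕ)} (hD : D ⊆ bc C) (hle : ∀ z ∈ D, z.1 + z.2 ≤ x.1 + x.2) :
    p * ∑ z ∈ D, kapc p z * ((x.2 : ℝ) - z.2)
      ≤ kapc p x * lamT p (C.take (x.1 + x.2)) := by
  have hq : 0 < 1 - p := by linarith
  have h := heads_lost_le (p := 1 - p) hq (by linarith) (C := C.map not) (x := x.swap)
    (by rw [bc_map_not]; exact mem_image_of_mem _ hx) (D := D.image Prod.swap)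
    (by rw [bc_map_not]; exact image_subset_image hD)
    (by
      intro z hz
      obtain ⟨w, hw, rfl⟩ := mem_image.1 hz
      have := hle w hw
      simp only [Prod.fst_swap, Prod.snd_swap]
      omega)
  rw [sum_image (fun a _ b _ hab => Prod.swap_injective hab), kapc_swap, ← List.map_take,
    lamH_map_not, sub_sub_cancel] at h
  simp only [Prod.fst_swap, Prod.snd_swap, kapc_swap] at h
  rwa [add_comm x.2 x.1] at h

/-- main term of `A` -/
theorem mainA_ge (h0 : 0 < p) (h1 : p < 1) (hA : A ≠ []) (hB : B ≠ []) {x : ℕ × ℕ}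
    (hx : IsTop A B x) :
    (dl p x - lamH p (A.take (x.1 + x.2))) * ∑ z ∈ bc A \ bc B, kapc p z * wgt p A B (z.1 + z.2)
      ≤ ∑ z ∈ bc A \ bc B, kapc p z * (dl p z * wgt p A B (z.1 + z.2)) := by
  have hxm := mem_sdiff.1 hx.mem
  have hq : 0 < 1 - p := by linarith
  have hxs := bc_size hxm.1
  set w := wgt p A B with hw
  have hwx := wgt_pos h0 h1 hA hB (x.1 + x.2)
  have h2 := heads_lost_le h0 h1 hxm.1 (D := bc A \ bc B) sdiff_subset hx.max
  have h3 : kapc p x * w (x.1 + x.2) ≤ ∑ z ∈ bc A \ bc B, kapc p z * w (z.1 + z.2) :=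
    single_le_sum (f := fun z => kapc p z * w (z.1 + z.2))
      (fun z _ => mul_nonneg (kapc_pos h0 h1 z).le (wgt_pos h0 h1 hA hB _).le) hx.mem
  have hlam : 0 ≤ lamH p (A.take (x.1 + x.2)) := by
    unfold lamH
    refine mul_nonneg hq.le (mul_nonneg (wt_pos h0 h1 _).le (sum_nonneg (fun k _ => ?_)))
    refine mul_nonneg (one_div_pos.2 (wt_pos h0 h1 _)).le ?_
    have : (((A.take (x.1 + x.2)).take k).count true : ℝ) ≤ (A.take (x.1 + x.2)).count true := by
      exact_mod_cast (List.take_sublist k _).count_le true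
    linarith
  have h4 : ∀ z ∈ bc A \ bc B, kapc p z * (dl p x * w (z.1 + z.2))
      - kapc p z * (dl p z * w (z.1 + z.2))
      ≤ (1 - p) * (kapc p z * ((x.1 : ℝ) - z.1)) * w (x.1 + x.2) := by
    intro z hz
    have hzm := mem_sdiff.1 hz
    obtain ⟨c1, c2⟩ := bc_chain hzm.1 hxm.1 (hx.max z hz)
    have hzs := bc_size hzm.1
    have hwz : w (z.1 + z.2) ≤ w (x.1 + x.2) :=
      wgt_mono h0 h1 hA hB hzs.1 (hx.max z hz) hxs.2
    have hwz0 := wgt_pos h0 h1 hA hB (z.1 + z.2)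
    have hk := kapc_pos h0 h1 z
    have c1' : (z.1 : ℝ) ≤ x.1 := by exact_mod_cast c1
    have c2' : (z.2 : ℝ) ≤ x.2 := by exact_mod_cast c2
    have e1 : dl p x - dl p z ≤ (1 - p) * ((x.1 : ℝ) - z.1) := by
      unfold dl; nlinarith
    calc kapc p z * (dl p x * w (z.1 + z.2)) - kapc p z * (dl p z * w (z.1 + z.2))
        = kapc p z * w (z.1 + z.2) * (dl p x - dl p z) := by ring
      _ ≤ kapc p z * w (z.1 + z.2) * ((1 - p) * ((x.1 : ℝ) - z.1)) :=
          mul_le_mul_of_nonneg_left e1 (mul_nonneg hk.le hwz0.le)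
      _ = (1 - p) * (kapc p z * ((x.1 : ℝ) - z.1)) * w (z.1 + z.2) := by ring
      _ ≤ _ := mul_le_mul_of_nonneg_left hwz (mul_nonneg hq.le (mul_nonneg hk.le (by linarith)))
  have h5 := sum_le_sum h4
  rw [sum_sub_distrib, ← sum_mul, ← mul_sum] at h5
  have h6 : ∑ z ∈ bc A \ bc B, kapc p z * (dl p x * w (z.1 + z.2))
      = dl p x * ∑ z ∈ bc A \ bc B, kapc p z * w (z.1 + z.2) := by
    rw [mul_sum]; exact sum_congr rfl (fun z _ => by ring)
  rw [h6] at h5
  have h7 : (1 - p) * (∑ z ∈ bc A \ bc B, kapc p z * ((x.1 : ℝ) - z.1)) * w (x.1 + x.2)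
      ≤ lamH p (A.take (x.1 + x.2)) * ∑ z ∈ bc A \ bc B, kapc p z * w (z.1 + z.2) := by
    calc _ ≤ kapc p x * lamH p (A.take (x.1 + x.2)) * w (x.1 + x.2) :=
          mul_le_mul_of_nonneg_right h2 hwx.le
      _ = lamH p (A.take (x.1 + x.2)) * (kapc p x * w (x.1 + x.2)) := by ring
      _ ≤ _ := mul_le_mul_of_nonneg_left h3 hlam
  linarith

/-- main term of `B` -/
theorem mainB_le (h0 : 0 < p) (h1 : p < 1) (hA : A ≠ []) (hB : B ≠ [])
    (hlen : A.length = B.length) {y : ℕ × ℕ} (hy : IsTop B A y) :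
    ∑ z ∈ bc B \ bc A, kapc p z * (dl p z * wgt p A B (z.1 + z.2))
      ≤ (dl p y + lamT p (B.take (y.1 + y.2)))
        * ∑ z ∈ bc B \ bc A, kapc p z * wgt p A B (z.1 + z.2) := by
  have hym := mem_sdiff.1 hy.mem
  have hq : 0 < 1 - p := by linarith
  have hys := bc_size hym.1
  set w := wgt p A B with hw
  have hwy := wgt_pos h0 h1 hA hB (y.1 + y.2)
  have h2 := tails_lost_le h0 h1 hym.1 (D := bc B \ bc A) sdiff_subset hy.max
  have h3 : kapc p y * w (y.1 + y.2) ≤ ∑ z ∈ bc B \ bc A, kapc p z * w (z.1 + z.2) :=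
    single_le_sum (f := fun z => kapc p z * w (z.1 + z.2))
      (fun z _ => mul_nonneg (kapc_pos h0 h1 z).le (wgt_pos h0 h1 hA hB _).le) hy.mem
  have hlam : 0 ≤ lamT p (B.take (y.1 + y.2)) := by
    unfold lamT
    refine mul_nonneg h0.le (mul_nonneg (wt_pos h0 h1 _).le (sum_nonneg (fun k _ => ?_)))
    refine mul_nonneg (one_div_pos.2 (wt_pos h0 h1 _)).le ?_
    have : (((B.take (y.1 + y.2)).take k).count false : ℝ) ≤ (B.take (y.1 + y.2)).count false := by
      exact_mod_cast (List.take_sublist k _).count_le false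
    linarith
  have h4 : ∀ z ∈ bc B \ bc A, kapc p z * (dl p z * w (z.1 + z.2))
      - kapc p z * (dl p y * w (z.1 + z.2))
      ≤ p * (kapc p z * ((y.2 : ℝ) - z.2)) * w (y.1 + y.2) := by
    intro z hz
    have hzm := mem_sdiff.1 hz
    obtain ⟨c1, c2⟩ := bc_chain hzm.1 hym.1 (hy.max z hz)
    have hzs := bc_size hzm.1
    have hwz : w (z.1 + z.2) ≤ w (y.1 + y.2) :=
      wgt_mono h0 h1 hA hB hzs.1 (hy.max z hz) (by rw [hlen]; exact hys.2)
    have hwz0 := wgt_pos h0 h1 hA hB (z.1 + z.2)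
    have hk := kapc_pos h0 h1 z
    have c1' : (z.1 : ℝ) ≤ y.1 := by exact_mod_cast c1
    have c2' : (z.2 : ℝ) ≤ y.2 := by exact_mod_cast c2
    have e1 : dl p z - dl p y ≤ p * ((y.2 : ℝ) - z.2) := by
      unfold dl; nlinarith
    calc kapc p z * (dl p z * w (z.1 + z.2)) - kapc p z * (dl p y * w (z.1 + z.2))
        = kapc p z * w (z.1 + z.2) * (dl p z - dl p y) := by ring
      _ ≤ kapc p z * w (z.1 + z.2) * (p * ((y.2 : ℝ) - z.2)) :=
          mul_le_mul_of_nonneg_left e1 (mul_nonneg hk.le hwz0.le)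
      _ = p * (kapc p z * ((y.2 : ℝ) - z.2)) * w (z.1 + z.2) := by ring
      _ ≤ _ := mul_le_mul_of_nonneg_left hwz (mul_nonneg h0.le (mul_nonneg hk.le (by linarith)))
  have h5 := sum_le_sum h4
  rw [sum_sub_distrib, ← sum_mul, ← mul_sum] at h5
  have h6 : ∑ z ∈ bc B \ bc A, kapc p z * (dl p y * w (z.1 + z.2))
      = dl p y * ∑ z ∈ bc B \ bc A, kapc p z * w (z.1 + z.2) := by
    rw [mul_sum]; exact sum_congr rfl (fun z _ => by ring)
  rw [h6] at h5
  have h7 : p * (∑ z ∈ bc B \ bc A, kapc p z * ((y.2 : ℝ) - z.2)) * w (y.1 + y.2)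
      ≤ lamT p (B.take (y.1 + y.2)) * ∑ z ∈ bc B \ bc A, kapc p z * w (z.1 + z.2) := by
    calc _ ≤ kapc p y * lamT p (B.take (y.1 + y.2)) * w (y.1 + y.2) :=
          mul_le_mul_of_nonneg_right h2 hwy.le
      _ = lamT p (B.take (y.1 + y.2)) * (kapc p y * w (y.1 + y.2)) := by ring
      _ ≤ _ := mul_le_mul_of_nonneg_left h3 hlam
  linarith

/-! ## runs -/

/-- the different borders of `A` are runs of heads if the top one is -/
theorem sdiff_run {x : ℕ × ℕ} (hx : IsTop A B x) (h2 : x.2 = 0) :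
    ∃ m, m < x.1 ∧ bc A \ bc B = (Ioc m x.1).image (fun k => (k, 0)) ∧
      (∀ k, 1 ≤ k → k ≤ m → (k, 0) ∈ bc B) := by
  classical
  have hxm := mem_sdiff.1 hx.mem
  have hx0 : x = (x.1, 0) := Prod.ext rfl h2
  have hxA : (x.1, 0) ∈ bc A := by rw [← hx0]; exact hxm.1
  have hxB : (x.1, 0) ∉ bc B := by rw [← hx0]; exact hxm.2
  -- the longest run of `B` below
  set S := (Icc 1 x.1).filter (fun k => (k, 0) ∉ bc B) with hS
  have hne : S.Nonempty := ⟨x.1, by
    rw [hS, mem_filter, mem_Icc]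
    have := (bc_size hxA).1
    exact ⟨⟨by omega, le_rfl⟩, hxB⟩⟩
  set n := S.min' hne with hn
  have hnS : n ∈ S := S.min'_mem hne
  rw [hS, mem_filter, mem_Icc] at hnS
  have hmin : ∀ k, 1 ≤ k → k < n → (k, 0) ∈ bc B := by
    intro k hk1 hkn
    by_contra hc
    have : n ≤ k := S.min'_le k (by rw [hS, mem_filter, mem_Icc]; exact ⟨⟨hk1, by omega⟩, hc⟩)
    omega
  refine ⟨n - 1, by omega, ?_, fun k hk1 hk2 => hmin k hk1 (by omega)⟩
  ext z
  rw [mem_sdiff, mem_image]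
  constructor
  · rintro ⟨hzA, hzB⟩
    obtain ⟨c1, c2⟩ := bc_chain hzA hxm.1 (hx.max z (mem_sdiff.2 ⟨hzA, hzB⟩))
    have hz0 : z = (z.1, 0) := Prod.ext rfl (by omega)
    have hz1 := (bc_size hzA).1
    refine ⟨z.1, ?_, hz0.symm⟩
    rw [mem_Ioc]
    refine ⟨?_, c1⟩
    by_contra hc
    exact hzB (by rw [hz0]; exact hmin z.1 (by omega) (by omega))
  · rintro ⟨k, hk, rfl⟩
    rw [mem_Ioc] at hk
    refine ⟨bc_run_true hxA (by omega) hk.2, fun hc => ?_⟩
    exact hnS.2 (bc_run_true hc (by omega) (by omega))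

/-- Chebyshev for the geometric weights: `u (j+1) ≤ p u j` implies that the mean index is at most
the one of the geometric weights -/
theorem cheb_geom {u : ℕ → ℝ} (h0 : 0 < p) {n : ℕ} (hu : ∀ j, j + 1 < n → u (j + 1) ≤ p * u j) :
    (∑ j ∈ range n, (j : ℝ) * u j) * ∑ j ∈ range n, p ^ j
      ≤ (∑ j ∈ range n, (j : ℝ) * p ^ j) * ∑ j ∈ range n, u j := by
  have hmono : ∀ i j, i ≤ j → j < n → u j * p ^ i ≤ u i * p ^ j := by
    intro i j hij
    induction j, hij using Nat.le_induction with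
    | base => intro _; exact le_rfl
    | succ j hij ih =>
      intro hj
      have h1 := ih (by omega)
      have h2 := hu j hj
      calc u (j + 1) * p ^ i ≤ p * u j * p ^ i := mul_le_mul_of_nonneg_right h2 (by positivity)
        _ = p * (u j * p ^ i) := by ring
        _ ≤ p * (u i * p ^ j) := mul_le_mul_of_nonneg_left h1 h0.le
        _ = _ := by ring
  have key : ∀ i ∈ range n, ∀ j ∈ range n,
      ((i : ℝ) - j) * (u i * p ^ j - u j * p ^ i) ≤ 0 := by
    intro i hi j hj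
    have hi' := mem_range.mp hi
    have hj' := mem_range.mp hj
    rcases le_total i j with h | h
    · have h1 := hmono i j h hj'
      have h2 : (i : ℝ) ≤ j := by exact_mod_cast h
      exact mul_nonpos_of_nonpos_of_nonneg (by linarith) (by linarith)
    · have h1 := hmono j i h hi'
      have h2 : (j : ℝ) ≤ i := by exact_mod_cast h
      exact mul_nonpos_of_nonneg_of_nonpos (by linarith) (by linarith)
  have e1 : ∑ i ∈ range n, ∑ j ∈ range n, ((i : ℝ) - j) * (u i * p ^ j - u j * p ^ i)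
      = 2 * ((∑ j ∈ range n, (j : ℝ) * u j) * (∑ j ∈ range n, p ^ j)
        - (∑ j ∈ range n, (j : ℝ) * p ^ j) * ∑ j ∈ range n, u j) := by
    have f1 : ∑ i ∈ range n, ∑ j ∈ range n, (i : ℝ) * u i * p ^ j
        = (∑ j ∈ range n, (j : ℝ) * u j) * ∑ j ∈ range n, p ^ j := by rw [sum_mul_sum]
    have f2 : ∑ i ∈ range n, ∑ j ∈ range n, (i : ℝ) * p ^ i * u j
        = (∑ j ∈ range n, (j : ℝ) * p ^ j) * ∑ j ∈ range n, u j := by rw [sum_mul_sum]
    have f3 : ∑ i ∈ range n, ∑ j ∈ range n, (j : ℝ) * u j * p ^ i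
        = (∑ j ∈ range n, (j : ℝ) * u j) * ∑ j ∈ range n, p ^ j := by rw [sum_comm, f1]
    have f4 : ∑ i ∈ range n, ∑ j ∈ range n, (j : ℝ) * p ^ j * u i
        = (∑ j ∈ range n, (j : ℝ) * p ^ j) * ∑ j ∈ range n, u j := by rw [sum_comm, f2]
    have f5 : ∑ i ∈ range n, ∑ j ∈ range n, ((i : ℝ) - j) * (u i * p ^ j - u j * p ^ i)
        = ((∑ i ∈ range n, ∑ j ∈ range n, (i : ℝ) * u i * p ^ j)
          - ∑ i ∈ range n, ∑ j ∈ range n, (i : ℝ) * p ^ i * u j)
        - ((∑ i ∈ range n, ∑ j ∈ range n, (j : ℝ) * p ^ j * u i)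
          - ∑ i ∈ range n, ∑ j ∈ range n, (j : ℝ) * u j * p ^ i) := by
      simp only [← sum_sub_distrib]
      exact sum_congr rfl (fun i _ => sum_congr rfl (fun j _ => by ring))
    rw [f5, f1, f2, f3, f4]; ring
  have h2 : ∑ i ∈ range n, ∑ j ∈ range n, ((i : ℝ) - j) * (u i * p ^ j - u j * p ^ i) ≤ 0 :=
    sum_nonpos (fun i hi => sum_nonpos (fun j hj => key i hi j hj))
  rw [e1] at h2
  linarith

theorem geom_sum_mul_q (p : ℝ) (n : ℕ) : (1 - p) * ∑ j ∈ range n, p ^ j = 1 - p ^ n := by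
  induction n with
  | zero => simp
  | succ n ih => rw [sum_range_succ, mul_add, ih, pow_succ]; ring

theorem geom_sum_index (p : ℝ) (n : ℕ) :
    (1 - p) ^ 2 * ∑ j ∈ range n, (j : ℝ) * p ^ j
      = p * (1 - p ^ n) - n * (1 - p) * p ^ n := by
  induction n with
  | zero => simp
  | succ n ih => rw [sum_range_succ, mul_add, ih, pow_succ]; push_cast; ring

/-- the mean loss of a run: `q Σ j u_j ≤ (p - n q p^n / (1 - p^n)) Σ u_j` -/
theorem run_loss {u : ℕ → ℝ} (h0 : 0 < p) (h1 : p < 1) {n : ℕ} (hn : 1 ≤ n)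
    (hu : ∀ j, j + 1 < n → u (j + 1) ≤ p * u j) :
    (1 - p) * ∑ j ∈ range n, (j : ℝ) * u j
      ≤ (p - n * (1 - p) * p ^ n / (1 - p ^ n)) * ∑ j ∈ range n, u j := by
  have hq : 0 < 1 - p := by linarith
  have hpn : 0 < 1 - p ^ n := by
    have : p ^ n < 1 := pow_lt_one₀ h0.le h1 (by omega)
    linarith
  have h2 := cheb_geom h0 hu
  have e1 := geom_sum_mul_q p n
  have e2 := geom_sum_index p n
  have h3 : (1 - p) * (∑ j ∈ range n, (j : ℝ) * u j) * (1 - p ^ n)
      ≤ (p * (1 - p ^ n) - n * (1 - p) * p ^ n) * ∑ j ∈ range n, u j := by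
    rw [← e2, ← e1]
    calc (1 - p) * (∑ j ∈ range n, (j : ℝ) * u j) * ((1 - p) * ∑ j ∈ range n, p ^ j)
        = (1 - p) ^ 2 * ((∑ j ∈ range n, (j : ℝ) * u j) * ∑ j ∈ range n, p ^ j) := by ring
      _ ≤ (1 - p) ^ 2 * ((∑ j ∈ range n, (j : ℝ) * p ^ j) * ∑ j ∈ range n, u j) :=
          mul_le_mul_of_nonneg_left h2 (by positivity)
      _ = _ := by ring
  have e3 : (p - n * (1 - p) * p ^ n / (1 - p ^ n)) * ∑ j ∈ range n, u j
      = (p * (1 - p ^ n) - n * (1 - p) * p ^ n) * (∑ j ∈ range n, u j) / (1 - p ^ n) := by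
    field_simp
  rw [e3, le_div_iff₀ hpn]
  exact h3

/-- main term of `A` if the top different border is a run of heads: `m` is the largest run of
heads that both words have as a border -/
theorem mainA_run (h0 : 0 < p) (h1 : p < 1) (hA : A ≠ []) (hB : B ≠ []) {x : ℕ × ℕ}
    (hx : IsTop A B x) {m : ℕ} (hm : m < x.1)
    (hD : bc A \ bc B = (Ioc m x.1).image (fun k => (k, 0))) :
    ((x.1 : ℝ) * (1 - p) - (p - ((x.1 - m : ℕ) : ℝ) * (1 - p) * p ^ (x.1 - m)
        / (1 - p ^ (x.1 - m)))) * ∑ z ∈ bc A \ bc B, kapc p z * wgt p A B (z.1 + z.2)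
      ≤ ∑ z ∈ bc A \ bc B, kapc p z * (dl p z * wgt p A B (z.1 + z.2)) := by
  have hq : 0 < 1 - p := by linarith
  have hxm := mem_sdiff.1 hx.mem
  have hxs := bc_size hxm.1
  set w := wgt p A B with hw
  set M := x.1 with hM
  have hinj : Function.Injective (fun k : ℕ => ((k, 0) : ℕ × ℕ)) := fun a b hab => (Prod.ext_iff.1 hab).1
  have hre : ∀ f : ℕ → ℝ, ∑ k ∈ Ioc m M, f k = ∑ j ∈ range (M - m), f (M - j) := by
    intro f
    refine (sum_bij (fun j _ => M - j) ?_ ?_ ?_ ?_).symm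
    · intro j hj
      have := mem_range.mp hj
      rw [mem_Ioc]; omega
    · intro i hi j hj hij
      have := mem_range.mp hi
      have := mem_range.mp hj
      omega
    · intro k hk
      rw [mem_Ioc] at hk
      exact ⟨M - k, mem_range.mpr (by omega), by omega⟩
    · intro j hj; rfl
  rw [hD, sum_image (fun a _ b _ hab => hinj hab), sum_image (fun a _ b _ hab => hinj hab)]
  simp only [add_zero]
  set u : ℕ → ℝ := fun j => kapc p (M - j, 0) * w (M - j) with hu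
  have hloss := run_loss h0 h1 (n := M - m) (by omega) (u := u) (fun j hj => by
    simp only [hu]
    have e1 : kapc p (M - (j + 1), 0) = p * kapc p (M - j, 0) := by
      unfold kapc
      simp only [pow_zero, mul_one]
      rw [show M - j = M - (j + 1) + 1 by omega, pow_succ]
      field_simp
    have e2 : w (M - (j + 1)) ≤ w (M - j) :=
      wgt_mono h0 h1 hA hB (by omega) (by omega) (by omega)
    rw [e1, mul_assoc]
    refine mul_le_mul_of_nonneg_left ?_ h0.le
    exact mul_le_mul_of_nonneg_left e2 (kapc_pos h0 h1 _).le)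
  rw [hre (fun k => kapc p (k, 0) * w k), hre (fun k => kapc p (k, 0) * (dl p (k, 0) * w k))]
  have e3 : ∑ j ∈ range (M - m), kapc p (M - j, 0) * (dl p (M - j, 0) * w (M - j))
      = (M : ℝ) * (1 - p) * (∑ j ∈ range (M - m), u j)
        - (1 - p) * ∑ j ∈ range (M - m), (j : ℝ) * u j := by
    rw [mul_sum, mul_sum, ← sum_sub_distrib]
    refine sum_congr rfl (fun j hj => ?_)
    have hj' := mem_range.mp hj
    simp only [hu]
    unfold dl
    simp only
    rw [Nat.cast_sub (by omega : j ≤ M)]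
    push_cast
    ring
  rw [e3]
  linarith

end Coin
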