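import Pool.Agent.Lib.Coin.EqStruct2

/-!
# Coin race: equal contents (M5c), a run of heads against a border with one tail: border sums
-/

namespace Coin

open Finset

variable {p : ℝ} {A B : List Bool}

/-- class N: the tops are `(M, 0)` and `(y1, 1)`, `y1 < M` -/
structure ClN (A B : List Bool) (M y1 : ℕ) : Prop where
  cont_eq : cont A = cont B
  hx : IsTop A B (M, 0)
  hy : IsTop B A (y1, 1)
  lt : y1 < M

namespace ClN

variable {M y1 : ℕ}

theorem xA (C : ClN A B M y1) : (M, 0) ∈ bc A := (mem_sdiff.1 C.hx.mem).1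

theorem xB (C : ClN A B M y1) : (M, 0) ∉ bc B := (mem_sdiff.1 C.hx.mem).2

theorem yB (C : ClN A B M y1) : (y1, 1) ∈ bc B := (mem_sdiff.1 C.hy.mem).1

theorem yA (C : ClN A B M y1) : (y1, 1) ∉ bc A := (mem_sdiff.1 C.hy.mem).2

theorem neA (C : ClN A B M y1) : A ≠ [] := by
  intro h
  have := bc_size C.xA
  rw [h] at this
  simp only [List.length_nil] at this
  have := C.lt
  omega

theorem neB (C : ClN A B M y1) : B ≠ [] := by
  intro h
  have := bc_size C.yB
  rw [h] at this
  simp only [List.length_nil] at this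
  omega

theorem len_eq (C : ClN A B M y1) : A.length = B.length := length_eq_of_cont C.cont_eq

theorem two_le_t (C : ClN A B M y1) : 2 ≤ A.count false := by
  have hne : (y1, 1) ≠ cont B := by
    intro h
    apply C.yA
    rw [h, ← C.cont_eq]
    exact cont_self_mem C.neA
  have h1 := bc_size C.yB
  have hB := cont_self_mem C.neB
  have hsz : (cont B).1 + (cont B).2 = B.length := count_add B
  have hlt : (y1, 1).1 + (y1, 1).2 < (cont B).1 + (cont B).2 := by
    rw [hsz]
    refine lt_of_le_of_ne h1.2 (fun h => hne ?_)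
    have h3 := cont_take C.yB
    rw [h, List.take_length] at h3
    exact h3.symm
  have h2 := bc_chain C.yB hB hlt.le
  have h3 : 1 ≤ (cont B).2 := h2.2
  have h4 := bc_lt_snd C.yB hB hlt (by omega)
  have h5 : 1 < (cont B).2 := h4
  rw [← C.cont_eq] at h5
  exact h5

theorem two_M_le (C : ClN A B M y1) : 2 * M ≤ A.count true :=
  run_two_mul C.xA (by have := C.two_le_t; omega)

theorem M_lt (C : ClN A B M y1) : M + 2 ≤ A.length := by
  have h1 := C.two_M_le
  have h2 := C.two_le_t
  have h3 := count_add A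
  omega

/-- a common proper border longer than the tops -/
theorem compl (C : ClN A B M y1) {c : ℕ × ℕ} (hcA : c ∈ bc A) (hcB : c ∈ bc B)
    (hlt : c.1 + c.2 < A.length) (hM : M < c.1 + c.2) :
    M + 1 ≤ A.count true - c.1 ∧ 2 ≤ A.count false - c.2 ∧ 2 ≤ c.2 :=
  compl_N C.lt A.length A B rfl C.cont_eq C.xA C.xB C.yB c hcA hcB hlt hM

end ClN

theorem pq_le (p : ℝ) : p * (1 - p) ≤ 1 / 4 := by nlinarith [sq_nonneg (2 * p - 1)]

/-- the contribution of a common proper border -/
theorem common_bound (h0 : 0 < p) (h1 : p < 1) {C : List Bool} {c : ℕ × ℕ} (hc : c ∈ bc C)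
    (hC : C ≠ []) (he : (bd C).erase C.length = bd (C.take (c.1 + c.2))) {M : ℕ}
    (m1 : M + 1 ≤ C.count true - c.1) (m2 : 2 ≤ C.count false - c.2) (c1 : 1 ≤ c.1)
    (c2 : 1 ≤ c.2) :
    Sg p C - 1 ≤ p ^ M * (1 - p) * (4 / 3 * (p * (1 - p))) := by
  have hq : 0 < 1 - p := by linarith
  have hk := (mem_bc_iff.1 hc).1
  have ht := cont_take hc
  have t1 : (C.take (c.1 + c.2)).count true = c.1 := congrArg Prod.fst ht
  have t2 : (C.take (c.1 + c.2)).count false = c.2 := congrArg Prod.snd ht
  have hS : Sg p (C.take (c.1 + c.2)) ≤ 4 / 3 :=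
    Sg_le_four_thirds h0 h1 (List.count_pos_iff.1 (by omega)) (List.count_pos_iff.1 (by omega))
  have hS0 := Sg_pos h0 h1 (take_ne_nil hk)
  rw [Sg_rec h0 h1 hC hk he, wt_drop_eq hc]
  have g1 : p ^ (C.count true - c.1) ≤ p ^ (M + 1) := pow_le_pow_of_le_one h0.le h1.le m1
  have g2 : (1 - p) ^ (C.count false - c.2) ≤ (1 - p) ^ 2 :=
    pow_le_pow_of_le_one hq.le (by linarith) m2
  have g3 : p ^ (C.count true - c.1) * (1 - p) ^ (C.count false - c.2)
      ≤ p ^ (M + 1) * (1 - p) ^ 2 := mul_le_mul g1 g2 (by positivity) (by positivity)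
  have g4 := mul_le_mul g3 hS hS0.le (by positivity)
  calc 1 + p ^ (C.count true - c.1) * (1 - p) ^ (C.count false - c.2)
        * Sg p (C.take (c.1 + c.2)) - 1
      = p ^ (C.count true - c.1) * (1 - p) ^ (C.count false - c.2)
        * Sg p (C.take (c.1 + c.2)) := by ring
    _ ≤ p ^ (M + 1) * (1 - p) ^ 2 * (4 / 3) := g4
    _ = _ := by rw [pow_succ]; ring

namespace ClN

variable {M y1 : ℕ}

theorem take_run {C : List Bool} (h : (M, 0) ∈ bc C) : C.take M = List.replicate M true := by
  obtain ⟨hk, hc⟩ := mem_bc_iff.1 h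
  simp only [add_zero] at hk hc
  have hf : (C.take M).count (!true) = 0 := congrArg Prod.snd hc
  have := eq_replicate_of_count hf
  rwa [length_take_bd hk] at this

/-- border sums of `A` -/
theorem boundA (C : ClN A B M y1) (hM2 : 2 ≤ M) (h0 : 0 < p) (h1 : p < 1) :
    Sg p A - 1 ≤ p ^ M * (1 - p) * (1 - p ^ M) ∧
      wt p A * ∑ z ∈ bc A, kapc p z * |dl p z| ≤ |dl p (cont A)|
        + 5 / 8 * (p ^ M * (1 - p)) * max ((A.count true : ℝ) * (1 - p)) (A.count false * p) := by
  have hq : 0 < 1 - p := by linarith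
  have hM := C.M_lt
  have hM0 : 1 ≤ M := by have := C.lt; omega
  have h2M := C.two_M_le
  have h2t := C.two_le_t
  obtain ⟨c, hc, hcl, hxc, hle, he⟩ := exists_top_bc C.xA (by simp only; omega)
  simp only [add_zero] at hxc
  set mx := max ((A.count true : ℝ) * (1 - p)) (A.count false * p) with hmx
  have hmx1 : (A.count true : ℝ) * (1 - p) ≤ mx := le_max_left _ _
  have hmx0 : 0 ≤ mx := le_trans (by positivity) hmx1
  have hz0 : 0 < p ^ M * (1 - p) := by positivity
  have hS1 := one_le_Sg h0 h1 C.neA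
  have hpM : p ^ M ≤ p := by
    calc p ^ M ≤ p ^ 1 := pow_le_pow_of_le_one h0.le h1.le hM0
      _ = p := pow_one p
  by_cases hcM : c.1 + c.2 = M
  · -- top proper border `(M, 0)`
    have hch := bc_chain C.xA hc (by simp only [add_zero]; omega)
    have hc1 : c = (M, 0) := by
      have e1 : M ≤ c.1 := hch.1
      refine Prod.ext ?_ ?_
      · show c.1 = M
        omega
      · show c.2 = 0
        omega
    rw [hc1] at hle he hc
    simp only [add_zero] at he
    have hS : Sg p A - 1 ≤ p ^ M * (1 - p) * (1 - p ^ M) := by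
      have hk : M ∈ bd A := by
        have := (mem_bc_iff.1 hc).1
        simpa using this
      rw [Sg_rec h0 h1 C.neA hk he]
      have hw := wt_drop_eq (p := p) hc
      simp only [add_zero, Nat.sub_zero] at hw
      rw [hw, take_run hc, Sg_replicate_true h0 h1]
      have g1 : p ^ (A.count true - M) ≤ p ^ M := pow_le_pow_of_le_one h0.le h1.le (by omega)
      have g2 : (1 - p) ^ (A.count false) ≤ (1 - p) ^ 2 :=
        pow_le_pow_of_le_one hq.le (by linarith) h2t
      have g3 : p ^ (A.count true - M) * (1 - p) ^ A.count false ≤ p ^ M * (1 - p) ^ 2 :=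
        mul_le_mul g1 g2 (by positivity) (by positivity)
      have g4 : 0 ≤ (1 - p ^ M) / (1 - p) := div_nonneg (by linarith) hq.le
      calc 1 + p ^ (A.count true - M) * (1 - p) ^ A.count false * ((1 - p ^ M) / (1 - p)) - 1
          = p ^ (A.count true - M) * (1 - p) ^ A.count false * ((1 - p ^ M) / (1 - p)) := by ring
        _ ≤ p ^ M * (1 - p) ^ 2 * ((1 - p ^ M) / (1 - p)) := mul_le_mul_of_nonneg_right g3 g4
        _ = p ^ M * (1 - p) * (1 - p ^ M) := by field_simp
    refine ⟨hS, ?_⟩
    have hD : ∀ z ∈ bc A, z ≠ cont A → |dl p z| ≤ (M : ℝ) * (1 - p) := by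
      intro z hz hne
      obtain ⟨z1, z2⟩ := hle z hz hne
      have z1' : z.1 ≤ M := z1
      have z2' : z.2 = 0 := by have : z.2 ≤ 0 := z2; omega
      have e : dl p z = (z.1 : ℝ) * (1 - p) := by unfold dl; rw [z2']; simp
      rw [e, abs_of_nonneg (by positivity)]
      exact mul_le_mul_of_nonneg_right (by exact_mod_cast z1') hq.le
    have h2 := Lam_le_D h0 h1 C.neA hD
    have h3 : (M : ℝ) * (1 - p) ≤ 1 / 2 * mx := by
      have : (2 * M : ℝ) ≤ A.count true := by exact_mod_cast h2M
      nlinarith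
    have h4 : Sg p A - 1 ≤ p ^ M * (1 - p) := by
      refine hS.trans (mul_le_of_le_one_right hz0.le ?_)
      have := pow_pos h0 M; linarith
    have h5 : (Sg p A - 1) * ((M : ℝ) * (1 - p)) ≤ p ^ M * (1 - p) * (1 / 2 * mx) :=
      mul_le_mul h4 h3 (by positivity) hz0.le
    have h6 : 0 ≤ p ^ M * (1 - p) * mx := by positivity
    linarith
  · have hcM' : M < c.1 + c.2 := by omega
    have hcB : c ∈ bc B := by
      by_contra hcB
      have := C.hx.max c (mem_sdiff.2 ⟨hc, hcB⟩)
      simp only [add_zero] at this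
      omega
    obtain ⟨m1, m2, m3⟩ := C.compl hc hcB hcl hcM'
    have hch := bc_chain C.xA hc (by simp only [add_zero]; omega)
    have e1 : M ≤ c.1 := hch.1
    have hS := common_bound h0 h1 hc C.neA he m1 m2 (by omega) (by omega)
    have hS' : Sg p A - 1 ≤ p ^ M * (1 - p) * (1 - p ^ M) := by
      refine hS.trans (mul_le_mul_of_nonneg_left ?_ hz0.le)
      have : p ^ M ≤ p ^ 2 := pow_le_pow_of_le_one h0.le h1.le hM2
      nlinarith
    refine ⟨hS', ?_⟩
    have hD : ∀ z ∈ bc A, z ≠ cont A → |dl p z| ≤ mx := fun z hz _ =>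
      abs_dl_le_of_le h0 h1 (n := (A.count true, A.count false)) (bc_le_self hz).1
        (bc_le_self hz).2
    have h2 := Lam_le_D h0 h1 C.neA hD
    have h3 : Sg p A - 1 ≤ p ^ M * (1 - p) * (5 / 8) := by
      refine hS.trans (mul_le_mul_of_nonneg_left ?_ hz0.le)
      have := pq_le p; linarith
    have h5 := mul_le_mul_of_nonneg_right h3 hmx0
    linarith

/-- border sums of `B` -/
theorem boundB (C : ClN A B M y1) (h0 : 0 < p) (h1 : p < 1) :
    wt p B * ∑ z ∈ bc B, kapc p z * |dl p z| ≤ |dl p (cont A)|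
        + 5 / 8 * (p ^ M * (1 - p)) * max ((A.count true : ℝ) * (1 - p)) (A.count false * p) := by
  have hq : 0 < 1 - p := by linarith
  have hM := C.M_lt
  have hy := C.lt
  have h2M := C.two_M_le
  have h2t := C.two_le_t
  have hcnt := cont_eq_iff.1 C.cont_eq
  have hlen := C.len_eq
  obtain ⟨c, hc, hcl, hxc, hle, he⟩ := exists_top_bc C.yB (by simp only; omega)
  simp only at hxc
  rw [hcnt.1] at h2M
  rw [hcnt.2] at h2t
  rw [hcnt.1, hcnt.2]
  set mx := max ((B.count true : ℝ) * (1 - p)) (B.count false * p) with hmx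
  have hmx1 : (B.count true : ℝ) * (1 - p) ≤ mx := le_max_left _ _
  have hmx2 : (B.count false : ℝ) * p ≤ mx := le_max_right _ _
  have hmx0 : 0 ≤ mx := le_trans (by positivity) hmx1
  have hz0 : 0 < p ^ M * (1 - p) := by positivity
  have hS1 := one_le_Sg h0 h1 C.neB
  rw [C.cont_eq]
  by_cases hcM : c.1 + c.2 = y1 + 1
  · have hch := bc_chain C.yB hc (by simp only; omega)
    have hc1 : c = (y1, 1) := by
      have e1 : y1 ≤ c.1 := hch.1
      have e2 : 1 ≤ c.2 := hch.2
      refine Prod.ext ?_ ?_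
      · show c.1 = y1
        omega
      · show c.2 = 1
        omega
    rw [hc1] at hle he hc
    simp only at he
    have hk : y1 + 1 ∈ bd B := (mem_bc_iff.1 hc).1
    have hct : cont (B.take (y1 + 1)) = (y1, 1) := (mem_bc_iff.1 hc).2
    have hone : (B.take (y1 + 1)).count false = 1 := congrArg Prod.snd hct
    have hSy : Sg p (B.take (y1 + 1)) ≤ 5 / 4 := by
      obtain ⟨m, hm, -, -, -, hS⟩ := Sg_one_tail h0 h1 hone
      rw [hS]
      have g1 : p ^ ((B.take (y1 + 1)).count true - m) ≤ p ^ m :=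
        pow_le_pow_of_le_one h0.le h1.le (by omega)
      have g2 : p ^ m ≤ 1 := pow_le_one₀ h0.le h1.le
      have g3 : p ^ ((B.take (y1 + 1)).count true - m) * (1 - p ^ m) ≤ p ^ m * (1 - p ^ m) :=
        mul_le_mul_of_nonneg_right g1 (by linarith)
      nlinarith [sq_nonneg (2 * p ^ m - 1)]
    have hSy0 := Sg_pos h0 h1 (take_ne_nil hk)
    have hS : Sg p B - 1 ≤ 5 / 4 * (p ^ M * (1 - p)) := by
      rw [Sg_rec h0 h1 C.neB hk he]
      have hw := wt_drop_eq (p := p) hc
      simp only at hw
      rw [hw]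
      have g1 : p ^ (B.count true - y1) ≤ p ^ M :=
        pow_le_pow_of_le_one h0.le h1.le (by omega)
      have g2 : (1 - p) ^ (B.count false - 1) ≤ (1 - p) ^ 1 :=
        pow_le_pow_of_le_one hq.le (by linarith) (by omega)
      rw [pow_one] at g2
      have g3 : p ^ (B.count true - y1) * (1 - p) ^ (B.count false - 1) ≤ p ^ M * (1 - p) :=
        mul_le_mul g1 g2 (by positivity) (by positivity)
      have g4 := mul_le_mul g3 hSy hSy0.le (by positivity)
      linarith
    have hD : ∀ z ∈ bc B, z ≠ cont B → |dl p z| ≤ 1 / 2 * mx := by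
      intro z hz hne
      obtain ⟨z1, z2⟩ := hle z hz hne
      refine (abs_dl_le h0 h1 z).trans (max_le ?_ ?_)
      · have : (2 * z.1 : ℝ) ≤ B.count true := by
          have : 2 * z.1 ≤ B.count true := by
            have : z.1 ≤ y1 := z1
            omega
          exact_mod_cast this
        nlinarith
      · have : (2 * z.2 : ℝ) ≤ B.count false := by
          have : 2 * z.2 ≤ B.count false := by
            have : z.2 ≤ 1 := z2
            omega
          exact_mod_cast this
        nlinarith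
    have h2 := Lam_le_D h0 h1 C.neB hD
    have h5 : (Sg p B - 1) * (1 / 2 * mx) ≤ 5 / 4 * (p ^ M * (1 - p)) * (1 / 2 * mx) :=
      mul_le_mul_of_nonneg_right hS (by positivity)
    linarith
  · have hcA : c ∈ bc A := by
      by_contra hcA
      have := C.hy.max c (mem_sdiff.2 ⟨hc, hcA⟩)
      simp only at this
      omega
    have hch := bc_chain C.yB hc (by simp only; omega)
    have e2 : 1 ≤ c.2 := hch.2
    have hcM' : M < c.1 + c.2 := by
      by_contra hcon
      have := (bc_chain hcA C.xA (by simp only [add_zero]; omega)).2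
      have : c.2 ≤ 0 := this
      omega
    obtain ⟨m1, m2, m3⟩ := C.compl hcA hc (by rw [hlen]; exact hcl) hcM'
    rw [hcnt.1] at m1
    rw [hcnt.2] at m2
    have e1 : M ≤ c.1 := (bc_chain C.xA hcA (by simp only [add_zero]; omega)).1
    have hS := common_bound h0 h1 hc C.neB he m1 m2 (by omega) (by omega)
    have hD : ∀ z ∈ bc B, z ≠ cont B → |dl p z| ≤ mx := fun z hz _ =>
      abs_dl_le_of_le h0 h1 (n := (B.count true, B.count false)) (bc_le_self hz).1
        (bc_le_self hz).2
    have h2 := Lam_le_D h0 h1 C.neB hD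
    have h3 : Sg p B - 1 ≤ p ^ M * (1 - p) * (5 / 8) := by
      refine hS.trans (mul_le_mul_of_nonneg_left ?_ hz0.le)
      have := pq_le p; linarith
    have h5 := mul_le_mul_of_nonneg_right h3 hmx0
    linarith

end ClN

end Coin
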