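import Pool.Agent.Lib.Coin.WE9
import Pool.Agent.Lib.Coin.Eq5

/-!
# Coin race: a criterion for two words with the same content (long words)
-/

namespace Coin.WE

open Finset Filter

/-- the bound for the differences of the logarithmic derivatives of the weights -/
noncomputable def Kc (lam t T E : ℝ) : ℝ :=
  E * (1 + (lam + t) / (1 - 4 * lam - 3 * t))
    + ((lam + t) * (4 * lam * E + 3 * T) / (1 - 4 * lam - 3 * t) + lam * E + T)
      / (1 - 4 * lam - 3 * t)

/-- general constants: one step -/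
theorem wz_step {p : ℝ} {A B : List Bool} (h0 : 0 < p) (h1 : p < 1) (hA : A ≠ []) (hB : B ≠ [])
    (hc : cont A = cont B) {t T : ℝ} (hsA : ∑ j ∈ pb A, tj p A j ≤ t)
    (hsB : ∑ j ∈ pb B, tj p B j ≤ t) (hTA : ∑ j ∈ pb A, tj p A j * |ej p A j| ≤ T)
    (hTB : ∑ j ∈ pb B, tj p B j * |ej p B j| ≤ T)
    (hkk : 0 < 1 - 4 * (A.length * wt p A) - 3 * t)
    {k : ℤ} (hk1 : 1 ≤ k) (hk2 : k + 1 ≤ A.length) (hW : 0 < wz A B p k)
    (hmono : wz A B p k ≤ wz A B p (k + 1)) :
    |(p * (1 - p)) * (wz' A B p (k + 1) * wz A B p k - wz' A B p k * wz A B p (k + 1))|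
      ≤ wt p A * Kc (A.length * wt p A) t T |eps p (cont A)| * (wz A B p k * wz A B p (k + 1)) := by
  have hL := length_eq_of_cont hc
  have hP0 := wt_pos h0 h1 A
  have hKA : ∀ j ∈ pb A, 1 ≤ j ∧ j + 1 ≤ A.length := fun j hj => pb_bounds hj
  have hKB : ∀ j ∈ pb B, 1 ≤ j ∧ j + 1 ≤ A.length := fun j hj => by
    rw [hL]; exact pb_bounds hj
  have htA : ∀ j ∈ pb A, 0 ≤ tj p A j := fun j _ => tj_nonneg h0 h1 A j
  have htB : ∀ j ∈ pb B, 0 ≤ tj p B j := fun j _ => tj_nonneg h0 h1 B j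
  have ht0 : 0 ≤ t := le_trans (sum_nonneg htA) hsA
  have hT0 : 0 ≤ T := le_trans (sum_nonneg (fun j hj => mul_nonneg (htA j hj) (abs_nonneg _))) hTA
  obtain ⟨M1, hM1, hX1, hb1, hd1⟩ := (sys_W h0 h1 hA hB hc).max_arg hP0.le hKA hKB htA htB
    (t := t) (T := 0) (DY := 0) le_rfl (fun _ _ _ => by simp) hsA hsB (by simp) (by simp)
    hk1 hk2
  set w := wz A B p k with hw
  set P := wt p A with hP
  have hDdef : dz A B p k = wz A B p (k + 1) - w := rfl
  set D := dz A B p k with hD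
  have hD0 : 0 ≤ D := by rw [hDdef]; linarith
  set lam : ℝ := A.length * P with hlamdef
  have hlam0 : 0 ≤ lam := mul_nonneg (Nat.cast_nonneg _) hP0.le
  rw [abs_of_pos hW] at hb1
  have hPw : 0 < P * w := mul_pos hP0 hW
  set kk := 1 - 4 * lam - 3 * t with hkkdef
  have hM1a : M1 ≤ P * w / kk := by
    rw [le_div_iff₀ hkk]
    linarith
  set E := |eps p (cont A)| with hE
  have hE0 : 0 ≤ E := abs_nonneg _
  have hDup : D ≤ P * w * (1 + (lam + t) / kk) := by
    have e2 : |D - P * w| ≤ lam * (M1 + |0| * 0) + t * M1 + 0 * 0 := hd1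
    simp only [abs_zero, mul_zero, add_zero] at e2
    have e3 := (le_abs_self _).trans e2
    have e4 : (lam + t) * M1 ≤ (lam + t) * (P * w / kk) :=
      mul_le_mul_of_nonneg_left hM1a (by linarith)
    have e5 : P * w * (1 + (lam + t) / kk) = P * w + (lam + t) * (P * w / kk) := by ring
    rw [e5]
    linarith
  set s : ℝ := p * (1 - p) with hs
  set φ : ℝ := s * wz' A B p k / w with hφ
  obtain ⟨M2, hM2, hX2, hb2, hd2⟩ := (sys_G (φ := φ) h0 h1 hA hB hc).max_arg hP0.le hKA hKB htA htB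
    (t := t) (T := T) (DY := M1) hM1 hX1 hsA hsB hTA hTB hk1 hk2
  have hG0 : gz A B p φ k = 0 := by
    unfold gz
    rw [← hs, ← hw, hφ]
    field_simp
    ring
  rw [hG0, abs_zero, mul_zero, zero_add] at hb2
  have hM2a : M2 ≤ (4 * lam * E + 3 * T) * M1 / kk := by
    rw [le_div_iff₀ hkk]
    exact hb2
  have hd2' : |gz A B p φ (k + 1) - gz A B p φ k - eps p (cont A) * D - P * gz A B p φ k|
      ≤ lam * (M2 + E * M1) + t * M2 + T * M1 := hd2
  rw [hG0, mul_zero, sub_zero, sub_zero] at hd2'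
  set Q := (lam + t) * (4 * lam * E + 3 * T) / kk + lam * E + T with hQ
  have hQ0 : 0 ≤ Q := by
    have : 0 ≤ (lam + t) * (4 * lam * E + 3 * T) / kk := by positivity
    have : 0 ≤ lam * E := mul_nonneg hlam0 hE0
    rw [hQ]; linarith
  have hfin : lam * (M2 + E * M1) + t * M2 + T * M1 ≤ Q / kk * (P * w) := by
    have e1 : (lam + t) * M2 ≤ (lam + t) * ((4 * lam * E + 3 * T) * M1 / kk) :=
      mul_le_mul_of_nonneg_left hM2a (by linarith)
    have e2 : lam * (M2 + E * M1) + t * M2 + T * M1 ≤ Q * M1 := by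
      rw [hQ]
      have : (lam + t) * ((4 * lam * E + 3 * T) * M1 / kk)
        = (lam + t) * (4 * lam * E + 3 * T) / kk * M1 := by ring
      nlinarith
    have e3 : Q * M1 ≤ Q * (P * w / kk) := mul_le_mul_of_nonneg_left hM1a hQ0
    have e4 : Q * (P * w / kk) = Q / kk * (P * w) := by ring
    linarith
  have h4 : gz A B p φ (k + 1) = s * wz' A B p (k + 1) - φ * wz A B p (k + 1) := rfl
  have h6 : φ * w = s * wz' A B p k := by
    rw [hφ]; field_simp
  have h7 : s * (wz' A B p (k + 1) * w - wz' A B p k * wz A B p (k + 1))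
      = ((gz A B p φ (k + 1) - eps p (cont A) * D) + eps p (cont A) * D) * w := by
    have : φ * wz A B p (k + 1) * w = s * wz' A B p k * wz A B p (k + 1) := by
      rw [← h6]; ring
    rw [h4]
    linear_combination this
  rw [h7, abs_mul, abs_of_pos hW]
  have h8 : |(gz A B p φ (k + 1) - eps p (cont A) * D) + eps p (cont A) * D|
      ≤ Q / kk * (P * w) + E * (P * w * (1 + (lam + t) / kk)) := by
    refine (abs_add_le _ _).trans (add_le_add (hd2'.trans hfin) ?_)
    rw [abs_mul, abs_of_nonneg hD0]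
    exact mul_le_mul_of_nonneg_left hDup hE0
  have h9 : Q / kk * (P * w) + E * (P * w * (1 + (lam + t) / kk)) = P * Kc lam t T E * w := by
    unfold Kc
    rw [← hkkdef, ← hQ]
    ring
  rw [h9] at h8
  have hK0 : 0 ≤ Kc lam t T E := by
    unfold Kc
    rw [← hkkdef, ← hQ]
    positivity
  have h10 : P * Kc lam t T E * w * w ≤ P * Kc lam t T E * w * wz A B p (k + 1) :=
    mul_le_mul_of_nonneg_left hmono (by positivity)
  calc _ ≤ P * Kc lam t T E * w * w := mul_le_mul_of_nonneg_right h8 hW.le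
    _ ≤ P * Kc lam t T E * w * wz A B p (k + 1) := h10
    _ = _ := by ring

theorem hasDerivAt_kapc {p : ℝ} (h0 : 0 < p) (h1 : p < 1) (z : ℕ × ℕ) :
    HasDerivAt (fun x => kapc x z) (-(eps p z * kapc p z) / (p * (1 - p))) p := by
  set A : List Bool := List.replicate z.1 true ++ List.replicate z.2 false with hA
  have hc : cont A = z := by
    rw [hA]
    simp [cont, List.count_append, List.count_replicate]
  have h := hasDerivAt_kap_eps h0 h1 A A.length
  have e1 : ∀ x, kap x A A.length = kapc x z := by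
    intro x
    rw [kap_eq_kapc, List.take_length, hc]
  have e2 : (fun x => kap x A A.length) = fun x => kapc x z := funext e1
  rw [e2, e1, List.take_length, hc] at h
  exact h

/-- the logarithmic derivative of the weights -/
noncomputable def phi (A B : List Bool) (p : ℝ) (k : ℕ) : ℝ :=
  (p * (1 - p)) * wz' A B p k / wz A B p k

theorem phi_diff {p : ℝ} {A B : List Bool} (h0 : 0 < p) (h1 : p < 1) (hA : A ≠ []) (hB : B ≠ [])
    (hc : cont A = cont B) {t T : ℝ} (hsA : ∑ j ∈ pb A, tj p A j ≤ t)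
    (hsB : ∑ j ∈ pb B, tj p B j ≤ t) (hTA : ∑ j ∈ pb A, tj p A j * |ej p A j| ≤ T)
    (hTB : ∑ j ∈ pb B, tj p B j * |ej p B j| ≤ T)
    (hkk : 0 < 1 - 4 * (A.length * wt p A) - 3 * t) {j k : ℕ} (hj : 1 ≤ j) (hjk : j ≤ k)
    (hk : k ≤ A.length) :
    |phi A B p k - phi A B p j|
      ≤ (k - j) * (wt p A * Kc (A.length * wt p A) t T |eps p (cont A)|) := by
  induction k, hjk using Nat.le_induction with
  | base => simp
  | succ n hn ih =>
    have h2 := ih (by omega)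
    have hwn : 0 < wz A B p (n : ℕ) := by
      rw [← Wk_eq_wz h0 h1 hA hB (by omega)]; exact Wk_pos h0 h1 hA hB _
    have hwn1 : 0 < wz A B p ((n : ℤ) + 1) := by
      have : ((n : ℤ) + 1) = ((n + 1 : ℕ) : ℤ) := by push_cast; ring
      rw [this, ← Wk_eq_wz h0 h1 hA hB (by omega)]; exact Wk_pos h0 h1 hA hB _
    have hmono : wz A B p (n : ℕ) ≤ wz A B p ((n : ℤ) + 1) := by
      have : ((n : ℤ) + 1) = ((n + 1 : ℕ) : ℤ) := by push_cast; ring
      rw [this, ← Wk_eq_wz h0 h1 hA hB (by omega), ← Wk_eq_wz h0 h1 hA hB (by omega)]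
      exact Wk_pm_mono h0 h1 hA hB (by omega) (by omega) hk
    have h3 := wz_step h0 h1 hA hB hc hsA hsB hTA hTB hkk (k := (n : ℤ)) (by omega) (by omega)
      hwn hmono
    set K := wt p A * Kc (A.length * wt p A) t T |eps p (cont A)| with hK
    have h4 : |phi A B p (n + 1) - phi A B p n| ≤ K := by
      have e : phi A B p (n + 1) - phi A B p n
          = ((p * (1 - p)) * (wz' A B p ((n : ℤ) + 1) * wz A B p n
            - wz' A B p n * wz A B p ((n : ℤ) + 1))) / (wz A B p n * wz A B p ((n : ℤ) + 1)) := by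
        unfold phi
        push_cast
        field_simp
      rw [e, abs_div, abs_of_pos (mul_pos hwn hwn1), div_le_iff₀ (mul_pos hwn hwn1)]
      exact h3
    have h5 := abs_sub_le (phi A B p (n + 1)) (phi A B p n) (phi A B p j)
    push_cast
    linarith

/-- **criterion** for equal contents -/
theorem eq_crit {p : ℝ} {A B : List Bool} (h0 : 0 < p) (h1 : p < 1) (hA : A ≠ []) (hB : B ≠ [])
    (hc : cont A = cont B) (htie : G p A B = 0) {t T R M0 K : ℝ}
    (hsA : ∑ j ∈ pb A, tj p A j ≤ t)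
    (hsB : ∑ j ∈ pb B, tj p B j ≤ t) (hTA : ∑ j ∈ pb A, tj p A j * |ej p A j| ≤ T)
    (hTB : ∑ j ∈ pb B, tj p B j * |ej p B j| ≤ T)
    (hkk : 0 < 1 - 4 * (A.length * wt p A) - 3 * t)
    (hne : (bc A \ bc B).Nonempty)
    (hR : ∀ z ∈ bc A \ bc B, ∀ z' ∈ bc B \ bc A,
      |((z.1 + z.2 : ℕ) : ℝ) - ((z'.1 + z'.2 : ℕ) : ℝ)| ≤ R)
    (hM : M0 * ∑ z ∈ bc A \ bc B, kapc p z * wgt p A B (z.1 + z.2)
      ≤ (∑ z ∈ bc A \ bc B, kapc p z * (dl p z * wgt p A B (z.1 + z.2)))
        - ∑ z ∈ bc B \ bc A, kapc p z * (dl p z * wgt p A B (z.1 + z.2)))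
    (hK : Kc (A.length * wt p A) t T |eps p (cont A)| ≤ K) (hfin : R * (wt p A * K) < M0) :
    ∃ d : ℝ, 0 < d ∧ HasDerivAt (fun x => G x A B) d p := by
  have hpq : 0 < p * (1 - p) := mul_pos h0 (by linarith)
  have hP0 := wt_pos h0 h1 A
  have hL := length_eq_of_cont hc
  -- sizes
  have hszA : ∀ z ∈ bc A \ bc B, 1 ≤ z.1 + z.2 ∧ z.1 + z.2 ≤ A.length := by
    intro z hz
    obtain ⟨k, hk, rfl⟩ := mem_bc.1 (Finset.mem_sdiff.1 hz).1
    rw [cont_add hk]; exact ⟨bd_pos hk, bd_le hk⟩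
  have hszB : ∀ z ∈ bc B \ bc A, 1 ≤ z.1 + z.2 ∧ z.1 + z.2 ≤ A.length := by
    intro z hz
    obtain ⟨k, hk, rfl⟩ := mem_bc.1 (Finset.mem_sdiff.1 hz).1
    rw [cont_add hk, hL]; exact ⟨bd_pos hk, bd_le hk⟩
  -- the race function
  set FA : ℝ → ℝ := fun x => ∑ z ∈ bc A \ bc B, kapc x z * wz A B x ((z.1 + z.2 : ℕ) : ℤ) with hFA
  set FB : ℝ → ℝ := fun x => ∑ z ∈ bc B \ bc A, kapc x z * wz A B x ((z.1 + z.2 : ℕ) : ℤ) with hFB
  have hG : ∀ x : ℝ, 0 < x → x < 1 → G x A B = FB x - FA x := by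
    intro x x0 x1
    rw [G_eq_sdiff x0 x1 hA hB]
    simp only [hFA, hFB]
    congr 1
    · exact Finset.sum_congr rfl (fun z hz => by
        rw [Wk_eq_wz x0 x1 hA hB (hszB z hz).1])
    · exact Finset.sum_congr rfl (fun z hz => by
        rw [Wk_eq_wz x0 x1 hA hB (hszA z hz).1])
  -- derivatives
  set dA : ℝ := ∑ z ∈ bc A \ bc B, (-(eps p z * kapc p z) / (p * (1 - p))
      * wz A B p ((z.1 + z.2 : ℕ) : ℤ) + kapc p z * wz' A B p ((z.1 + z.2 : ℕ) : ℤ)) with hdA
  set dB : ℝ := ∑ z ∈ bc B \ bc A, (-(eps p z * kapc p z) / (p * (1 - p))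
      * wz A B p ((z.1 + z.2 : ℕ) : ℤ) + kapc p z * wz' A B p ((z.1 + z.2 : ℕ) : ℤ)) with hdB
  have hDA : HasDerivAt FA dA p := by
    exact HasDerivAt.fun_sum (u := bc A \ bc B)
      (A := fun z x => kapc x z * wz A B x ((z.1 + z.2 : ℕ) : ℤ))
      (A' := fun z => -(eps p z * kapc p z) / (p * (1 - p))
      * wz A B p ((z.1 + z.2 : ℕ) : ℤ) + kapc p z * wz' A B p ((z.1 + z.2 : ℕ) : ℤ)) (x := p)
      (fun z _ => (hasDerivAt_kapc h0 h1 z).mul (hasDerivAt_wz h0 h1 hA hB _))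
  have hDB : HasDerivAt FB dB p := by
    exact HasDerivAt.fun_sum (u := bc B \ bc A)
      (A := fun z x => kapc x z * wz A B x ((z.1 + z.2 : ℕ) : ℤ))
      (A' := fun z => -(eps p z * kapc p z) / (p * (1 - p))
      * wz A B p ((z.1 + z.2 : ℕ) : ℤ) + kapc p z * wz' A B p ((z.1 + z.2 : ℕ) : ℤ)) (x := p)
      (fun z _ => (hasDerivAt_kapc h0 h1 z).mul (hasDerivAt_wz h0 h1 hA hB _))
  have hev : ∀ᶠ x in nhds p, 0 < x ∧ x < 1 :=
    (eventually_gt_nhds h0).and (eventually_lt_nhds h1)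
  have hDG : HasDerivAt (fun x => G x A B) (dB - dA) p :=
    (hDB.sub hDA).congr_of_eventuallyEq (hev.mono (fun x hx => hG x hx.1 hx.2))
  refine ⟨dB - dA, ?_, hDG⟩
  -- positivity
  have htie' : FA p = FB p := by
    have := hG p h0 h1
    rw [htie] at this
    linarith
  -- rewriting in terms of `phi`
  have hrew : ∀ z : ℕ × ℕ, 1 ≤ z.1 + z.2 →
      (p * (1 - p)) * (-(eps p z * kapc p z) / (p * (1 - p))
      * wz A B p ((z.1 + z.2 : ℕ) : ℤ) + kapc p z * wz' A B p ((z.1 + z.2 : ℕ) : ℤ))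
      = kapc p z * wz A B p ((z.1 + z.2 : ℕ) : ℤ) * phi A B p (z.1 + z.2)
        - kapc p z * (dl p z * wz A B p ((z.1 + z.2 : ℕ) : ℤ)) := by
    intro z hz
    have hw : 0 < wz A B p ((z.1 + z.2 : ℕ) : ℤ) := by
      rw [← Wk_eq_wz h0 h1 hA hB hz]; exact Wk_pos h0 h1 hA hB _
    have he : eps p z = dl p z := by unfold eps dl; ring
    rw [deriv_aux hpq.ne', he]
    unfold phi
    field_simp
  set cA : ℕ × ℕ → ℝ := fun z => kapc p z * wz A B p ((z.1 + z.2 : ℕ) : ℤ) with hcA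
  have hcpos : ∀ z : ℕ × ℕ, 1 ≤ z.1 + z.2 → 0 < cA z := by
    intro z hz
    have hw : 0 < wz A B p ((z.1 + z.2 : ℕ) : ℤ) := by
      rw [← Wk_eq_wz h0 h1 hA hB hz]; exact Wk_pos h0 h1 hA hB _
    exact mul_pos (kapc_pos h0 h1 z) hw
  have e1 : (p * (1 - p)) * dA = (∑ z ∈ bc A \ bc B, cA z * phi A B p (z.1 + z.2))
      - ∑ z ∈ bc A \ bc B, kapc p z * (dl p z * wgt p A B (z.1 + z.2)) := by
    rw [hdA, Finset.mul_sum, ← Finset.sum_sub_distrib]
    refine Finset.sum_congr rfl (fun z hz => ?_)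
    rw [hrew z (hszA z hz).1]
    unfold wgt
    rw [Wk_eq_wz h0 h1 hA hB (hszA z hz).1]
  have e2 : (p * (1 - p)) * dB = (∑ z ∈ bc B \ bc A, cA z * phi A B p (z.1 + z.2))
      - ∑ z ∈ bc B \ bc A, kapc p z * (dl p z * wgt p A B (z.1 + z.2)) := by
    rw [hdB, Finset.mul_sum, ← Finset.sum_sub_distrib]
    refine Finset.sum_congr rfl (fun z hz => ?_)
    rw [hrew z (hszB z hz).1]
    unfold wgt
    rw [Wk_eq_wz h0 h1 hA hB (hszB z hz).1]
  set T0 := FA p with hT0
  have hT0a : T0 = ∑ z ∈ bc A \ bc B, cA z := rfl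
  have hT0b : T0 = ∑ z ∈ bc B \ bc A, cA z := htie'
  have hT0pos : 0 < T0 := by
    rw [hT0a]
    exact Finset.sum_pos (fun z hz => hcpos z (hszA z hz).1) hne
  have hM' : M0 * T0 ≤ (∑ z ∈ bc A \ bc B, kapc p z * (dl p z * wgt p A B (z.1 + z.2)))
        - ∑ z ∈ bc B \ bc A, kapc p z * (dl p z * wgt p A B (z.1 + z.2)) := by
    have : T0 = ∑ z ∈ bc A \ bc B, kapc p z * wgt p A B (z.1 + z.2) := by
      rw [hT0a]
      refine Finset.sum_congr rfl (fun z hz => ?_)
      simp only [hcA]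
      unfold wgt
      rw [Wk_eq_wz h0 h1 hA hB (hszA z hz).1]
    rw [this]; exact hM
  set P := wt p A with hP
  set K0 := Kc (A.length * P) t T |eps p (cont A)| with hK0
  -- difference of the averages of `phi`
  have hphi : ∀ z ∈ bc A \ bc B, ∀ z' ∈ bc B \ bc A,
      |phi A B p (z.1 + z.2) - phi A B p (z'.1 + z'.2)| ≤ R * (P * K) := by
    intro z hz z' hz'
    obtain ⟨a1, a2⟩ := hszA z hz
    obtain ⟨b1, b2⟩ := hszB z' hz'
    have hr := hR z hz z' hz'
    have hK1 : P * K0 ≤ P * K := mul_le_mul_of_nonneg_left hK hP0.le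
    rcases le_total (z.1 + z.2) (z'.1 + z'.2) with h | h
    · have h2 := phi_diff h0 h1 hA hB hc hsA hsB hTA hTB hkk a1 h b2
      rw [abs_sub_comm]
      have h3 : (0 : ℝ) ≤ ((z'.1 + z'.2 : ℕ) : ℝ) - ((z.1 + z.2 : ℕ) : ℝ) := by
        rw [sub_nonneg]; exact_mod_cast h
      rw [abs_sub_comm, abs_of_nonneg h3] at hr
      have h4 : 0 ≤ P * K0 := by
        by_contra hcon
        push Not at hcon
        have h5 := phi_diff h0 h1 hA hB hc hsA hsB hTA hTB hkk (j := 1) (k := 2) le_rfl (by norm_num)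
        by_cases hL2 : 2 ≤ A.length
        · have h6 := (abs_nonneg _).trans (h5 hL2)
          push_cast at h6
          linarith
        · have h7 : z.1 + z.2 = z'.1 + z'.2 := by omega
          have h8 : 0 ≤ Kc (A.length * P) t T |eps p (cont A)| := by
            have ht0 : 0 ≤ t := le_trans (sum_nonneg (fun j _ => tj_nonneg h0 h1 A j)) hsA
            have hT0' : 0 ≤ T := le_trans (sum_nonneg
              (fun j _ => mul_nonneg (tj_nonneg h0 h1 A j) (abs_nonneg _))) hTA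
            unfold Kc
            have : 0 ≤ A.length * P := mul_nonneg (Nat.cast_nonneg _) hP0.le
            positivity
          have := mul_nonneg hP0.le h8
          linarith
      calc _ ≤ _ := h2
        _ ≤ (((z'.1 + z'.2 : ℕ) : ℝ) - ((z.1 + z.2 : ℕ) : ℝ)) * (P * K) :=
            mul_le_mul_of_nonneg_left hK1 h3
        _ ≤ R * (P * K) := mul_le_mul_of_nonneg_right hr (h4.trans hK1)
    · have h2 := phi_diff h0 h1 hA hB hc hsA hsB hTA hTB hkk b1 h a2
      have h3 : (0 : ℝ) ≤ ((z.1 + z.2 : ℕ) : ℝ) - ((z'.1 + z'.2 : ℕ) : ℝ) := by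
        rw [sub_nonneg]; exact_mod_cast h
      rw [abs_of_nonneg h3] at hr
      have h4 : 0 ≤ P * K0 := by
        have h8 : 0 ≤ Kc (A.length * P) t T |eps p (cont A)| := by
          have ht0 : 0 ≤ t := le_trans (sum_nonneg (fun j _ => tj_nonneg h0 h1 A j)) hsA
          have hT0' : 0 ≤ T := le_trans (sum_nonneg
            (fun j _ => mul_nonneg (tj_nonneg h0 h1 A j) (abs_nonneg _))) hTA
          unfold Kc
          have : 0 ≤ A.length * P := mul_nonneg (Nat.cast_nonneg _) hP0.le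
          positivity
        exact mul_nonneg hP0.le h8
      calc _ ≤ _ := h2
        _ ≤ (((z.1 + z.2 : ℕ) : ℝ) - ((z'.1 + z'.2 : ℕ) : ℝ)) * (P * K) :=
            mul_le_mul_of_nonneg_left hK1 h3
        _ ≤ R * (P * K) := mul_le_mul_of_nonneg_right hr (h4.trans hK1)
  set SA := ∑ z ∈ bc A \ bc B, cA z * phi A B p (z.1 + z.2) with hSA
  set SB := ∑ z ∈ bc B \ bc A, cA z * phi A B p (z.1 + z.2) with hSB
  have hdiff : SA - SB ≤ R * (P * K) * T0 := by
    have e3 : (SA - SB) * T0 = ∑ z ∈ bc A \ bc B, ∑ z' ∈ bc B \ bc A,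
        cA z * cA z' * (phi A B p (z.1 + z.2) - phi A B p (z'.1 + z'.2)) := by
      have e4 : SA * T0 = ∑ z ∈ bc A \ bc B, ∑ z' ∈ bc B \ bc A,
          cA z * phi A B p (z.1 + z.2) * cA z' := by
        rw [hT0b, hSA, Finset.sum_mul_sum]
      have e5 : T0 * SB = ∑ z ∈ bc A \ bc B, ∑ z' ∈ bc B \ bc A,
          cA z * (cA z' * phi A B p (z'.1 + z'.2)) := by
        rw [hT0a, hSB, Finset.sum_mul_sum]
      rw [sub_mul, e4, mul_comm SB T0, e5, ← Finset.sum_sub_distrib]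
      refine Finset.sum_congr rfl (fun z _ => ?_)
      rw [← Finset.sum_sub_distrib]
      exact Finset.sum_congr rfl (fun z' _ => by ring)
    have e6 : (SA - SB) * T0 ≤ R * (P * K) * T0 * T0 := by
      have e7 : R * (P * K) * T0 * T0 = ∑ z ∈ bc A \ bc B, ∑ z' ∈ bc B \ bc A,
          cA z * cA z' * (R * (P * K)) := by
        have e8 : T0 * T0 = ∑ z ∈ bc A \ bc B, ∑ z' ∈ bc B \ bc A, cA z * cA z' := by
          nth_rewrite 1 [hT0a]
          rw [hT0b, Finset.sum_mul_sum]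
        rw [mul_assoc, e8, Finset.mul_sum]
        refine Finset.sum_congr rfl (fun z _ => ?_)
        rw [Finset.mul_sum]
        exact Finset.sum_congr rfl (fun z' _ => by ring)
      rw [e3, e7]
      refine Finset.sum_le_sum (fun z hz => Finset.sum_le_sum (fun z' hz' => ?_))
      refine mul_le_mul_of_nonneg_left ((le_abs_self _).trans (hphi z hz z' hz')) ?_
      exact mul_nonneg (hcpos z (hszA z hz).1).le (hcpos z' (hszB z' hz').1).le
    exact le_of_mul_le_mul_right e6 hT0pos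
  have hmain : 0 < (p * (1 - p)) * (dB - dA) := by
    have e9 : (p * (1 - p)) * (dB - dA) = ((∑ z ∈ bc A \ bc B,
        kapc p z * (dl p z * wgt p A B (z.1 + z.2)))
        - ∑ z ∈ bc B \ bc A, kapc p z * (dl p z * wgt p A B (z.1 + z.2))) - (SA - SB) := by
      rw [mul_sub, e1, e2]; ring
    rw [e9]
    have e10 : R * (P * K) * T0 < M0 * T0 := mul_lt_mul_of_pos_right hfin hT0pos
    linarith
  exact (mul_pos_iff_of_pos_left hpq).1 hmain

end Coin.WE
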