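import Pool.Agent.Lib.Coin.EqN1
import Pool.Agent.Lib.Coin.WEcrit

/-!
# Coin race: equal contents (M5c), a run of heads against a border with one tail: reduction to
real inequalities
-/

namespace Coin

open Finset

variable {p : ℝ} {A B : List Bool}

theorem eps_eq_dl (p : ℝ) (z : ℕ × ℕ) : WE.eps p z = dl p z := by
  unfold WE.eps dl; ring

theorem max_nonneg_left {a b : ℝ} (ha : 0 ≤ a) : 0 ≤ max a b := ha.trans (le_max_left _ _)

theorem sum_tj_ej_le_mx (h0 : 0 < p) (h1 : p < 1) (hA : A ≠ []) :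
    ∑ j ∈ WE.pb A, WE.tj p A j * |WE.ej p A j|
      ≤ (Sg p A - 1) * max ((A.count true : ℝ) * (1 - p)) (A.count false * p) := by
  have hq : 0 < 1 - p := by linarith
  rw [← WE.sum_tj h0 h1 hA, sum_mul]
  refine sum_le_sum (fun j _ => mul_le_mul_of_nonneg_left ?_ (WE.tj_nonneg h0 h1 A j))
  have a1 : ((A.take j).count true : ℝ) ≤ A.count true := by
    exact_mod_cast (List.take_sublist j A).count_le true
  have a2 : ((A.take j).count false : ℝ) ≤ A.count false := by
    exact_mod_cast (List.take_sublist j A).count_le false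
  have b1 : (0 : ℝ) ≤ (A.take j).count true := Nat.cast_nonneg _
  have b2 : (0 : ℝ) ≤ (A.take j).count false := Nat.cast_nonneg _
  have e : WE.ej p A j = ((A.count true : ℝ) - (A.take j).count true) * (1 - p)
      - ((A.count false : ℝ) - (A.take j).count false) * p := by
    unfold WE.ej WE.eps cont
    ring
  have c1 : 0 ≤ ((A.count true : ℝ) - (A.take j).count true) * (1 - p) :=
    mul_nonneg (by linarith) hq.le
  have c2 : 0 ≤ ((A.count false : ℝ) - (A.take j).count false) * p :=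
    mul_nonneg (by linarith) h0.le
  have d1 : ((A.count true : ℝ) - (A.take j).count true) * (1 - p)
      ≤ max ((A.count true : ℝ) * (1 - p)) (A.count false * p) :=
    (mul_le_mul_of_nonneg_right (by linarith) hq.le).trans (le_max_left _ _)
  have d2 : ((A.count false : ℝ) - (A.take j).count false) * p
      ≤ max ((A.count true : ℝ) * (1 - p)) (A.count false * p) :=
    (mul_le_mul_of_nonneg_right (by linarith) h0.le).trans (le_max_right _ _)
  rw [e, abs_le]
  constructor <;> linarith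

namespace ClN

variable {M y1 : ℕ}

/-- border sum of `B` -/
theorem boundB' (C : ClN A B M y1) (h0 : 0 < p) (h1 : p < 1) :
    Sg p B - 1 ≤ 4 / 3 * (p ^ (M + 1) * (1 - p)) := by
  have hq : 0 < 1 - p := by linarith
  have hM := C.M_lt
  have hy := C.lt
  have h2M := C.two_M_le
  have h2t := C.two_le_t
  have hcnt := cont_eq_iff.1 C.cont_eq
  have hlen := C.len_eq
  obtain ⟨c, hc, hcl, hxc, hle, he⟩ := exists_top_bc C.yB (by simp only; omega)
  simp only at hxc
  rw [hcnt.1] at h2M
  rw [hcnt.2] at h2t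
  have hz0 : 0 < p ^ (M + 1) * (1 - p) := by positivity
  by_cases hcM : c.1 + c.2 = y1 + 1
  · have hch := bc_chain C.yB hc (by simp only; omega)
    have hc1 : c = (y1, 1) := by
      have e1 : y1 ≤ c.1 := hch.1
      have e2 : 1 ≤ c.2 := hch.2
      refine Prod.ext ?_ ?_
      · show c.1 = y1
        omega
      · show c.2 = 1
        omega
    rw [hc1] at he hc
    simp only at he
    have hk : y1 + 1 ∈ bd B := (mem_bc_iff.1 hc).1
    have hct : cont (B.take (y1 + 1)) = (y1, 1) := (mem_bc_iff.1 hc).2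
    have hone : (B.take (y1 + 1)).count false = 1 := congrArg Prod.snd hct
    have hSy : Sg p (B.take (y1 + 1)) ≤ 5 / 4 := by
      obtain ⟨m, hm, -, -, -, hS⟩ := Sg_one_tail h0 h1 hone
      rw [hS]
      have g1 : p ^ ((B.take (y1 + 1)).count true - m) ≤ p ^ m :=
        pow_le_pow_of_le_one h0.le h1.le (by omega)
      have g2 : p ^ m ≤ 1 := pow_le_one₀ h0.le h1.le
      have g3 : p ^ ((B.take (y1 + 1)).count true - m) * (1 - p ^ m) ≤ p ^ m * (1 - p ^ m) :=
        mul_le_mul_of_nonneg_right g1 (by linarith)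
      nlinarith [sq_nonneg (2 * p ^ m - 1)]
    have hSy0 := Sg_pos h0 h1 (take_ne_nil hk)
    rw [Sg_rec h0 h1 C.neB hk he]
    have hw := wt_drop_eq (p := p) hc
    simp only at hw
    rw [hw]
    have g1 : p ^ (B.count true - y1) ≤ p ^ (M + 1) :=
      pow_le_pow_of_le_one h0.le h1.le (by omega)
    have g2 : (1 - p) ^ (B.count false - 1) ≤ (1 - p) ^ 1 :=
      pow_le_pow_of_le_one hq.le (by linarith) (by omega)
    rw [pow_one] at g2
    have g3 : p ^ (B.count true - y1) * (1 - p) ^ (B.count false - 1) ≤ p ^ (M + 1) * (1 - p) :=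
      mul_le_mul g1 g2 (by positivity) (by positivity)
    have g4 := mul_le_mul g3 hSy hSy0.le (by positivity)
    linarith
  · have hcA : c ∈ bc A := by
      by_contra hcA
      have := C.hy.max c (mem_sdiff.2 ⟨hc, hcA⟩)
      simp only at this
      omega
    have hch := bc_chain C.yB hc (by simp only; omega)
    have e2 : 1 ≤ c.2 := hch.2
    have hcM' : M < c.1 + c.2 := by
      by_contra hcon
      have := (bc_chain hcA C.xA (by simp only [add_zero]; omega)).2
      have : c.2 ≤ 0 := this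
      omega
    obtain ⟨m1, m2, m3⟩ := C.compl hcA hc (by rw [hlen]; exact hcl) hcM'
    rw [hcnt.1] at m1
    rw [hcnt.2] at m2
    have e1 : M ≤ c.1 := (bc_chain C.xA hcA (by simp only [add_zero]; omega)).1
    have hS := common_bound h0 h1 hc C.neB he m1 m2 (by omega) (by omega)
    refine hS.trans ?_
    have e3 : p ^ M * (1 - p) * (4 / 3 * (p * (1 - p)))
        = 4 / 3 * (p ^ (M + 1) * (1 - p)) * (1 - p) := by rw [pow_succ]; ring
    rw [e3]
    exact mul_le_of_le_one_right (by positivity) (by linarith)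

/-- the different borders of `B` -/
theorem sdiffB (C : ClN A B M y1) : bc B \ bc A = {(y1, 1)} := by
  have hy := C.lt
  ext z
  rw [mem_singleton]
  constructor
  · intro hz
    have hzm := mem_sdiff.1 hz
    have hmax := C.hy.max z hz
    have hch := bc_chain hzm.1 C.yB hmax
    have c1 : z.1 ≤ y1 := hch.1
    have c2 : z.2 ≤ 1 := hch.2
    simp only at hmax
    by_cases hlt : z.1 + z.2 < y1 + 1
    · exfalso
      have h3 : z.2 < 1 := bc_lt_snd hzm.1 C.yB hlt Nat.one_pos
      have h4 : z = (z.1, 0) := Prod.ext rfl (by omega)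
      have h5 := (bc_size hzm.1).1
      apply hzm.2
      rw [h4]
      exact bc_run_true C.xA (by omega) (by omega)
    · exact Prod.ext (by show z.1 = y1; omega) (by show z.2 = 1; omega)
  · rintro rfl
    exact C.hy.mem

/-- the real inequality which remains -/
theorem up (C : ClN A B M y1) (hM2 : 2 ≤ M) (h0 : 0 < p) (h1 : p < 1) (htie : G p A B = 0)
    {t K : ℝ} (ht1 : p ^ M * (1 - p) * (1 - p ^ M) ≤ t) (ht2 : 4 / 3 * (p ^ (M + 1) * (1 - p)) ≤ t)
    (hkk : 0 < 1 - 4 * (A.length * wt p A) - 3 * t)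
    (hK : WE.Kc (A.length * wt p A) t
      (t * max ((A.count true : ℝ) * (1 - p)) (A.count false * p)) |dl p (cont A)| ≤ K)
    (hfin : ((M : ℝ) - 1) * (wt p A * K) < (1 - p) + p ^ M) :
    ∃ d : ℝ, 0 < d ∧ HasDerivAt (fun x => G x A B) d p := by
  have hq : 0 < 1 - p := by linarith
  have hA := C.neA
  have hB := C.neB
  have hy := C.lt
  have hcnt := cont_eq_iff.1 C.cont_eq
  set mx := max ((A.count true : ℝ) * (1 - p)) (A.count false * p) with hmx
  have hmx0 : 0 ≤ mx := max_nonneg_left (by positivity)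
  have hSA := (C.boundA hM2 h0 h1).1
  have hSB := C.boundB' h0 h1
  obtain ⟨m, hm, hD, -⟩ := sdiff_run C.hx rfl
  simp only at hm hD
  refine WE.eq_crit h0 h1 hA hB C.cont_eq htie (t := t) (T := t * mx) (R := (M : ℝ) - 1)
    (M0 := (1 - p) + p ^ M) (K := K) ?_ ?_ ?_ ?_ hkk ⟨_, C.hx.mem⟩ ?_ ?_ ?_ hfin
  · rw [WE.sum_tj h0 h1 hA]; linarith
  · rw [WE.sum_tj h0 h1 hB]; linarith
  · refine (sum_tj_ej_le_mx h0 h1 hA).trans ?_
    exact mul_le_mul_of_nonneg_right (by linarith) hmx0
  · refine (sum_tj_ej_le_mx h0 h1 hB).trans ?_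
    rw [← hcnt.1, ← hcnt.2]
    exact mul_le_mul_of_nonneg_right (by linarith) hmx0
  · intro z hz z' hz'
    rw [C.sdiffB, mem_singleton] at hz'
    rw [hD, mem_image] at hz
    obtain ⟨k, hk, rfl⟩ := hz
    rw [mem_Ioc] at hk
    rw [hz']
    simp only [add_zero]
    have a1 : (1 : ℝ) ≤ k := by exact_mod_cast (by omega : 1 ≤ k)
    have a2 : (k : ℝ) ≤ M := by exact_mod_cast hk.2
    have a3 : (1 : ℝ) ≤ ((y1 + 1 : ℕ) : ℝ) := by exact_mod_cast (by omega : 1 ≤ y1 + 1)
    have a4 : ((y1 + 1 : ℕ) : ℝ) ≤ M := by exact_mod_cast (by omega : y1 + 1 ≤ M)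
    rw [abs_le]
    constructor <;> linarith
  · have hrun := mainA_run h0 h1 hA hB C.hx hm hD
    have htie' := tie_eq h0 h1 hA hB htie
    rw [C.sdiffB, sum_singleton] at htie'
    rw [C.sdiffB, sum_singleton]
    set T := ∑ z ∈ bc A \ bc B, kapc p z * wgt p A B (z.1 + z.2) with hT
    have hT0 : 0 ≤ T := sum_nonneg (fun z _ => mul_nonneg (kapc_pos h0 h1 z).le
      (wgt_pos h0 h1 hA hB _).le)
    have e1 : kapc p (y1, 1) * (dl p (y1, 1) * wgt p A B ((y1, 1).1 + (y1, 1).2))
        = dl p (y1, 1) * T := by rw [htie']; ring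
    rw [e1]
    have e2 : dl p (y1, 1) = (y1 : ℝ) * (1 - p) - p := by unfold dl; push_cast; ring
    rw [e2]
    set n := M - m with hn
    have hn1 : 1 ≤ n := by omega
    have hpn : 0 < 1 - p ^ n := by
      have : p ^ n < 1 := pow_lt_one₀ h0.le h1 (by omega)
      linarith
    have hbern : 1 - p ^ n ≤ n * (1 - p) := by
      have h3 := one_add_mul_le_pow (a := -(1 - p)) (by linarith) n
      have h4 : (1 + -(1 - p)) = p := by ring
      rw [h4] at h3
      linarith
    have e3 : p ^ M ≤ (n : ℝ) * (1 - p) * p ^ n / (1 - p ^ n) := by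
      rw [le_div_iff₀ hpn]
      have h5 : p ^ M ≤ p ^ n := pow_le_pow_of_le_one h0.le h1.le (by omega)
      have h6 : 0 ≤ p ^ n := by positivity
      calc p ^ M * (1 - p ^ n) ≤ p ^ n * (n * (1 - p)) :=
            mul_le_mul h5 hbern hpn.le h6
        _ = _ := by ring
    have e4 : (y1 : ℝ) + 1 ≤ M := by exact_mod_cast hy
    have e5 : (1 - p) + p ^ M ≤ ((M : ℝ) * (1 - p) - (p - (n : ℝ) * (1 - p) * p ^ n
        / (1 - p ^ n))) - ((y1 : ℝ) * (1 - p) - p) := by
      have : (1 - p) ≤ ((M : ℝ) - y1) * (1 - p) := by nlinarith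
      linarith
    have e6 := mul_le_mul_of_nonneg_right e5 hT0
    rw [sub_mul] at e6
    have hrun' : ((M : ℝ) * (1 - p) - (p - (n : ℝ) * (1 - p) * p ^ n / (1 - p ^ n))) * T
        ≤ ∑ z ∈ bc A \ bc B, kapc p z * (dl p z * wgt p A B (z.1 + z.2)) := hrun
    linarith
  · rw [eps_eq_dl]; exact hK

end ClN

end Coin
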