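import Pool.Agent.Lib.Coin.EqNumG

/-!
# Coin race: numbers for the class of a run of heads against a top with one tail
-/

namespace Coin

/-- `L p^h q^t` for `h ≥ 4`, `t ≥ 2`, `L ≥ 7` -/
theorem numN_len {p : ℝ} (h0 : 0 < p) (h1 : p < 1) {M h t : ℕ} (hM : 2 ≤ M) (hh : 2 * M ≤ h)
    (ht : 2 ≤ t) (hL : 7 ≤ h + t) : ((h : ℝ) + t) * (p ^ h * (1 - p) ^ t) ≤ 1063 / 10000 := by
  have b1 : ∀ p : ℝ, 0 < p → p < 1 →
      (((5 : ℕ) : ℝ) + ((2 : ℕ) : ℝ) - 0) * (p ^ 5 * (1 - p) ^ 2) ≤ 1063 / 10000 := by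
    intro p h0 h1
    have hb : p ^ 5 * (1 - p) ^ 2 ≤ (5 / 7) ^ 5 * (2 / 7) ^ 2 := by
      apply sup2 h0.le (by linarith) (by norm_num) (by norm_num)
      norm_num
      linarith
    calc (((5 : ℕ) : ℝ) + ((2 : ℕ) : ℝ) - 0) * (p ^ 5 * (1 - p) ^ 2)
        = 7 * (p ^ 5 * (1 - p) ^ 2) := by push_cast; ring
      _ ≤ 7 * ((5 / 7) ^ 5 * (2 / 7) ^ 2) := mul_le_mul_of_nonneg_left hb (by norm_num)
      _ ≤ 1063 / 10000 := by norm_num
  have b2 : ∀ p : ℝ, 0 < p → p < 1 →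
      (((4 : ℕ) : ℝ) + ((3 : ℕ) : ℝ) - 0) * (p ^ 4 * (1 - p) ^ 3) ≤ 1063 / 10000 := by
    intro p h0 h1
    have hb : p ^ 4 * (1 - p) ^ 3 ≤ (4 / 7) ^ 4 * (3 / 7) ^ 3 := by
      apply sup2 h0.le (by linarith) (by norm_num) (by norm_num)
      norm_num
      linarith
    calc (((4 : ℕ) : ℝ) + ((3 : ℕ) : ℝ) - 0) * (p ^ 4 * (1 - p) ^ 3)
        = 7 * (p ^ 4 * (1 - p) ^ 3) := by push_cast; ring
      _ ≤ 7 * ((4 / 7) ^ 4 * (3 / 7) ^ 3) := mul_le_mul_of_nonneg_left hb (by norm_num)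
      _ ≤ 1063 / 10000 := by norm_num
  by_cases h5 : 5 ≤ h
  · have := len_mul_le 0 le_rfl zero_le_one (h0 := 5) (t0 := 2) (by norm_num) (by norm_num) b1
      h5 ht h0 h1
    simpa using this
  · have := len_mul_le 0 le_rfl zero_le_one (h0 := 4) (t0 := 3) (by norm_num) (by norm_num) b2
      (h := h) (t := t) (by omega) (by omega) h0 h1
    simpa using this

/-- `L p^h q^t` for `h ≥ 6`, `t ≥ 2` -/
theorem numN_len3 {p : ℝ} (h0 : 0 < p) (h1 : p < 1) {M h t : ℕ} (hM : 3 ≤ M) (hh : 2 * M ≤ h)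
    (ht : 2 ≤ t) : ((h : ℝ) + t) * (p ^ h * (1 - p) ^ t) ≤ 89 / 1000 := by
  have b1 : ∀ p : ℝ, 0 < p → p < 1 →
      (((6 : ℕ) : ℝ) + ((2 : ℕ) : ℝ) - 0) * (p ^ 6 * (1 - p) ^ 2) ≤ 89 / 1000 := by
    intro p h0 h1
    have hb : p ^ 6 * (1 - p) ^ 2 ≤ (3 / 4) ^ 6 * (1 / 4) ^ 2 := by
      apply sup2 h0.le (by linarith) (by norm_num) (by norm_num)
      norm_num
      linarith
    calc (((6 : ℕ) : ℝ) + ((2 : ℕ) : ℝ) - 0) * (p ^ 6 * (1 - p) ^ 2)
        = 8 * (p ^ 6 * (1 - p) ^ 2) := by push_cast; ring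
      _ ≤ 8 * ((3 / 4) ^ 6 * (1 / 4) ^ 2) := mul_le_mul_of_nonneg_left hb (by norm_num)
      _ ≤ 89 / 1000 := by norm_num
  have := len_mul_le 0 le_rfl zero_le_one (h0 := 6) (t0 := 2) (by norm_num) (by norm_num) b1
    (h := h) (t := t) (by omega) ht h0 h1
  simpa using this

/-- removal of the exponents beyond `(2M, 2)` -/
theorem numN_red {p l w : ℝ} (h0 : 0 < p) (h1 : p < 1) {M h t : ℕ} (hh : 2 * M ≤ h) (ht : 2 ≤ t)
    (hl : 1 ≤ l) (hw : w ≤ l + ((h : ℝ) - 2 * M) * (1 - p) + ((t : ℝ) - 2) * p) :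
    p ^ h * (1 - p) ^ t * w ≤ (p ^ M * (1 - p)) ^ 2 * l := by
  have hq0 : 0 < 1 - p := by linarith
  obtain ⟨i, rfl⟩ := Nat.exists_eq_add_of_le hh
  obtain ⟨j, rfl⟩ := Nat.exists_eq_add_of_le ht
  have hred := numG_red h0 hq0 (by ring) i j hl
  have e1 : (((2 * M + i : ℕ) : ℝ) - 2 * M) = i := by push_cast; ring
  have e2 : (((2 + j : ℕ) : ℝ) - 2) = j := by push_cast; ring
  rw [e1, e2] at hw
  have hK : 0 < (p ^ M * (1 - p)) ^ 2 := by positivity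
  have hij : 0 < p ^ i * (1 - p) ^ j := by positivity
  calc p ^ (2 * M + i) * (1 - p) ^ (2 + j) * w
      = (p ^ M * (1 - p)) ^ 2 * (p ^ i * (1 - p) ^ j * w) := by
        rw [pow_add, pow_add, pow_mul']; ring
    _ ≤ (p ^ M * (1 - p)) ^ 2 * (p ^ i * (1 - p) ^ j * (l + i * (1 - p) + j * p)) :=
        mul_le_mul_of_nonneg_left (mul_le_mul_of_nonneg_left hw hij.le) hK.le
    _ ≤ (p ^ M * (1 - p)) ^ 2 * l := mul_le_mul_of_nonneg_left hred hK.le

/-- `p^h q^t |h q - t p| ≤ (p^M q)^2 max |2 M q - 2 p| 1` -/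
theorem numN_lam {p : ℝ} (h0 : 0 < p) (h1 : p < 1) {M h t : ℕ} (hh : 2 * M ≤ h) (ht : 2 ≤ t) :
    p ^ h * (1 - p) ^ t * |(h : ℝ) * (1 - p) - t * p|
      ≤ (p ^ M * (1 - p)) ^ 2 * max |2 * M * (1 - p) - 2 * p| 1 := by
  have hq0 : 0 < 1 - p := by linarith
  refine numN_red h0 h1 hh ht (le_max_right _ _) ?_
  have hh' : (2 : ℝ) * M ≤ h := by exact_mod_cast hh
  have ht' : (2 : ℝ) ≤ t := by exact_mod_cast ht
  have a1 : |2 * (M : ℝ) * (1 - p) - 2 * p| ≤ max |2 * M * (1 - p) - 2 * p| 1 := le_max_left _ _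
  have a2 : |((h : ℝ) - 2 * M) * (1 - p) - ((t : ℝ) - 2) * p|
      ≤ ((h : ℝ) - 2 * M) * (1 - p) + ((t : ℝ) - 2) * p := by
    have b1 : 0 ≤ ((h : ℝ) - 2 * M) * (1 - p) := mul_nonneg (by linarith) hq0.le
    have b2 : 0 ≤ ((t : ℝ) - 2) * p := mul_nonneg (by linarith) h0.le
    rw [abs_le]; constructor <;> linarith
  have e : (h : ℝ) * (1 - p) - t * p = (2 * (M : ℝ) * (1 - p) - 2 * p)
      + (((h : ℝ) - 2 * M) * (1 - p) - ((t : ℝ) - 2) * p) := by ring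
  rw [e]
  calc |(2 * (M : ℝ) * (1 - p) - 2 * p) + (((h : ℝ) - 2 * M) * (1 - p) - ((t : ℝ) - 2) * p)|
      ≤ |2 * (M : ℝ) * (1 - p) - 2 * p| + |((h : ℝ) - 2 * M) * (1 - p) - ((t : ℝ) - 2) * p| :=
        abs_add_le _ _
    _ ≤ _ := by linarith

/-- `p^h q^t max (h q) (t p) ≤ (p^M q)^2 max (max (2 M q) (2 p)) 1` -/
theorem numN_max {p : ℝ} (h0 : 0 < p) (h1 : p < 1) {M h t : ℕ} (hh : 2 * M ≤ h) (ht : 2 ≤ t) :
    p ^ h * (1 - p) ^ t * max ((h : ℝ) * (1 - p)) (t * p)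
      ≤ (p ^ M * (1 - p)) ^ 2 * max (max (2 * M * (1 - p)) (2 * p)) 1 := by
  have hq0 : 0 < 1 - p := by linarith
  refine numN_red h0 h1 hh ht (le_max_right _ _) ?_
  have hh' : (2 : ℝ) * M ≤ h := by exact_mod_cast hh
  have ht' : (2 : ℝ) ≤ t := by exact_mod_cast ht
  have b1 : 0 ≤ ((h : ℝ) - 2 * M) * (1 - p) := mul_nonneg (by linarith) hq0.le
  have b2 : 0 ≤ ((t : ℝ) - 2) * p := mul_nonneg (by linarith) h0.le
  have a1 : 2 * (M : ℝ) * (1 - p) ≤ max (max (2 * M * (1 - p)) (2 * p)) 1 :=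
    (le_max_left _ _).trans (le_max_left _ _)
  have a2 : 2 * p ≤ max (max (2 * (M : ℝ) * (1 - p)) (2 * p)) 1 :=
    (le_max_right _ _).trans (le_max_left _ _)
  have e1 : (h : ℝ) * (1 - p) = 2 * (M : ℝ) * (1 - p) + ((h : ℝ) - 2 * M) * (1 - p) := by ring
  have e2 : (t : ℝ) * p = 2 * p + ((t : ℝ) - 2) * p := by ring
  apply max_le
  · linarith
  · linarith

/-- `p^(2M) ≤ exp (-2 M q)` -/
theorem numN_exp {p : ℝ} (h0 : 0 < p) (M : ℕ) :
    p ^ (2 * M) ≤ Real.exp (-(2 * (M * (1 - p)))) := by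
  have h : p ≤ Real.exp (-(1 - p)) := by
    have := Real.add_one_le_exp (-(1 - p))
    linarith
  calc p ^ (2 * M) ≤ (Real.exp (-(1 - p))) ^ (2 * M) := pow_le_pow_left₀ h0.le h _
    _ = Real.exp (-(2 * (M * (1 - p)))) := by
      rw [← Real.exp_nat_mul]
      congr 1
      push_cast
      ring

/-- `x exp (-x) ≤ 37/100` -/
theorem mul_exp_neg_le (x : ℝ) : x * Real.exp (-x) ≤ 37 / 100 := by
  have h1 := Real.add_one_le_exp (x - 1)
  have h2 : x ≤ Real.exp (x - 1) := by linarith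
  have h3 : x * Real.exp (-x) ≤ Real.exp (x - 1) * Real.exp (-x) :=
    mul_le_mul_of_nonneg_right h2 (Real.exp_pos _).le
  rw [← Real.exp_add, show x - 1 + -x = -1 by ring] at h3
  have h4 : Real.exp (-1) ≤ 37 / 100 := by
    rw [Real.exp_neg, inv_le_comm₀ (Real.exp_pos 1) (by norm_num)]
    have := Real.exp_one_gt_d9
    norm_num
    linarith
  exact h3.trans h4

/-- `2 s (1 - s) exp (-2 s) ≤ 231/1000` -/
theorem numN_s {s : ℝ} (hs : 0 ≤ s) (hs1 : s ≤ 1) :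
    2 * (s * (1 - s)) * Real.exp (-(2 * s)) ≤ 231 / 1000 := by
  have f1 := pow_le_exp hs (by norm_num : (0 : ℝ) < 293 / 1000) 1
  have f2 := pow_le_exp (by linarith : 0 ≤ 1 - s) (by norm_num : (0 : ℝ) < 707 / 1000) 1
  simp only [pow_one, Nat.cast_one, one_mul] at f1 f2
  have f3 : s * (1 - s) ≤ (293 / 1000 * Real.exp (s / (293 / 1000) - 1))
      * (707 / 1000 * Real.exp ((1 - s) / (707 / 1000) - 1)) :=
    mul_le_mul f1 f2 (by linarith) (by positivity)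
  have f4 : 2 * (s * (1 - s)) * Real.exp (-(2 * s))
      ≤ 2 * (293 / 1000 * (707 / 1000)) * Real.exp (s / (293 / 1000) - 1 +
        ((1 - s) / (707 / 1000) - 1) + -(2 * s)) := by
    rw [Real.exp_add, Real.exp_add]
    calc 2 * (s * (1 - s)) * Real.exp (-(2 * s))
        ≤ 2 * ((293 / 1000 * Real.exp (s / (293 / 1000) - 1))
          * (707 / 1000 * Real.exp ((1 - s) / (707 / 1000) - 1))) * Real.exp (-(2 * s)) :=
          mul_le_mul_of_nonneg_right (by linarith) (Real.exp_pos _).le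
      _ = _ := by ring
  have f5 : s / (293 / 1000) - 1 + ((1 - s) / (707 / 1000) - 1) + -(2 * s) ≤ -(5855 / 10000) := by
    linarith
  have f6 : Real.exp (-(5855 / 10000)) ≤ 5575 / 10000 := by
    rw [Real.exp_neg, inv_le_comm₀ (Real.exp_pos _) (by norm_num)]
    have := Real.sum_le_exp_of_nonneg (by norm_num : (0 : ℝ) ≤ 5855 / 10000) 5
    refine le_trans ?_ this
    norm_num [Finset.sum_range_succ, Nat.factorial]
  calc 2 * (s * (1 - s)) * Real.exp (-(2 * s))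
      ≤ 2 * (293 / 1000 * (707 / 1000)) * Real.exp (s / (293 / 1000) - 1 +
        ((1 - s) / (707 / 1000) - 1) + -(2 * s)) := f4
    _ ≤ 2 * (293 / 1000 * (707 / 1000)) * (5575 / 10000) :=
        mul_le_mul_of_nonneg_left ((Real.exp_le_exp.2 f5).trans f6) (by norm_num)
    _ ≤ 231 / 1000 := by norm_num

/-- `(M - 1) p^(2M) q max |2 M q - 2 p| 1 ≤ 231/1000` -/
theorem numN_sup1 {p : ℝ} (h0 : 0 < p) (h1 : p < 1) {M : ℕ} (hM : 1 ≤ M) :
    ((M : ℝ) - 1) * p ^ (2 * M) * (1 - p) * max |2 * M * (1 - p) - 2 * p| 1 ≤ 231 / 1000 := by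
  have hM' : (1 : ℝ) ≤ M := by exact_mod_cast hM
  have hq0 : 0 < 1 - p := by linarith
  set s : ℝ := M * (1 - p) with hs
  have hs0 : 0 < s := by rw [hs]; positivity
  have hE := numN_exp h0 M
  rw [← hs] at hE
  have hp0 : 0 < p ^ (2 * M) := pow_pos h0 _
  have hMq : 0 ≤ ((M : ℝ) - 1) * (1 - p) := mul_nonneg (by linarith) hq0.le
  have hMs : ((M : ℝ) - 1) * (1 - p) = s - (1 - p) := by rw [hs]; ring
  have hx := mul_exp_neg_le (2 * s)
  have hEp := Real.exp_pos (-(2 * s))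
  have red : ∀ m : ℝ, 0 ≤ m → ∀ R : ℝ, (((M : ℝ) - 1) * (1 - p)) * m * Real.exp (-(2 * s)) ≤ R →
      ((M : ℝ) - 1) * p ^ (2 * M) * (1 - p) * m ≤ R := by
    intro m hm R hR
    refine le_trans ?_ hR
    calc ((M : ℝ) - 1) * p ^ (2 * M) * (1 - p) * m = (((M : ℝ) - 1) * (1 - p)) * m * p ^ (2 * M) := by
          ring
      _ ≤ (((M : ℝ) - 1) * (1 - p)) * m * Real.exp (-(2 * s)) :=
          mul_le_mul_of_nonneg_left hE (mul_nonneg hMq hm)
  have habs : 2 * (M : ℝ) * (1 - p) - 2 * p = 2 * s - 2 * p := by rw [hs]; ring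
  rw [habs]
  rcases le_total |2 * s - 2 * p| 1 with hc | hc
  · rw [max_eq_right hc]
    refine red 1 zero_le_one _ ?_
    rw [hMs]
    calc (s - (1 - p)) * 1 * Real.exp (-(2 * s)) ≤ s * Real.exp (-(2 * s)) :=
          mul_le_mul_of_nonneg_right (by linarith) hEp.le
      _ = (2 * s * Real.exp (-(2 * s))) / 2 := by ring
      _ ≤ (37 / 100) / 2 := by linarith
      _ ≤ 231 / 1000 := by norm_num
  · rw [max_eq_left hc]
    rcases le_total 0 (2 * s - 2 * p) with hn | hn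
    · rw [abs_of_nonneg hn]
      refine red _ hn _ ?_
      rw [hMs]
      -- `(s - q)(s - p) ≤ (s - 1/2)^2`
      have g1 : (s - (1 - p)) * (2 * s - 2 * p) ≤ 2 * (s - 1 / 2) ^ 2 := by
        nlinarith [sq_nonneg (1 - 2 * p)]
      have hs2 : 0 ≤ s - 1 / 2 := by
        rw [hMs] at hMq
        linarith
      have g2 : (s - 1 / 2) * Real.exp (-(s - 1 / 2)) ≤ 37 / 100 := mul_exp_neg_le _
      have g3 : 0 ≤ (s - 1 / 2) * Real.exp (-(s - 1 / 2)) := mul_nonneg hs2 (Real.exp_pos _).le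
      have g4 : Real.exp (-(2 * s)) = Real.exp (-(s - 1 / 2)) * Real.exp (-(s - 1 / 2))
          * Real.exp (-1) := by
        rw [← Real.exp_add, ← Real.exp_add]; congr 1; ring
      have g5 : Real.exp (-1) ≤ 1 := by
        rw [Real.exp_le_one_iff]; norm_num
      calc (s - (1 - p)) * (2 * s - 2 * p) * Real.exp (-(2 * s))
          ≤ 2 * (s - 1 / 2) ^ 2 * Real.exp (-(2 * s)) := mul_le_mul_of_nonneg_right g1 hEp.le
        _ = (2 * (((s - 1 / 2) * Real.exp (-(s - 1 / 2))) * ((s - 1 / 2)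
              * Real.exp (-(s - 1 / 2))))) * Real.exp (-1) := by rw [g4]; ring
        _ ≤ (2 * ((37 / 100) * (37 / 100))) * Real.exp (-1) :=
            mul_le_mul_of_nonneg_right (mul_le_mul_of_nonneg_left
              (mul_le_mul g2 g2 g3 (by norm_num)) (by norm_num)) (Real.exp_pos _).le
        _ = (2 * (37 / 100)) * (37 / 100 * Real.exp (-1)) := by ring
        _ ≤ 231 / 1000 := by
            have g6 := mul_exp_neg_le 1
            linarith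
    · rw [abs_of_nonpos hn]
      refine red _ (by linarith) _ ?_
      have hs1 : s ≤ 1 := by linarith
      refine le_trans ?_ (numN_s hs0.le hs1)
      refine mul_le_mul_of_nonneg_right ?_ hEp.le
      rw [hMs]
      have hsq : 0 ≤ s - (1 - p) := by rw [← hMs]; exact hMq
      nlinarith

/-- `(M - 1) p^(2M) q max (max (2 M q) (2 p)) 1 ≤ 38/100` -/
theorem numN_sup2 {p : ℝ} (h0 : 0 < p) (h1 : p < 1) {M : ℕ} (hM : 1 ≤ M) :
    ((M : ℝ) - 1) * p ^ (2 * M) * (1 - p) * max (max (2 * M * (1 - p)) (2 * p)) 1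
      ≤ 38 / 100 := by
  have hM' : (1 : ℝ) ≤ M := by exact_mod_cast hM
  have hq0 : 0 < 1 - p := by linarith
  set s : ℝ := M * (1 - p) with hs
  have hs0 : 0 < s := by rw [hs]; positivity
  have hE := numN_exp h0 M
  rw [← hs] at hE
  have hMq : 0 ≤ ((M : ℝ) - 1) * (1 - p) := mul_nonneg (by linarith) hq0.le
  have hMs : ((M : ℝ) - 1) * (1 - p) ≤ s := by rw [hs]; nlinarith
  have hx := mul_exp_neg_le (2 * s)
  have hy := mul_exp_neg_le s
  have hEp := Real.exp_pos (-(2 * s))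
  have red : ∀ m : ℝ, 0 ≤ m → s * m * Real.exp (-(2 * s)) ≤ 38 / 100 →
      ((M : ℝ) - 1) * p ^ (2 * M) * (1 - p) * m ≤ 38 / 100 := by
    intro m hm hR
    refine le_trans ?_ hR
    calc ((M : ℝ) - 1) * p ^ (2 * M) * (1 - p) * m = (((M : ℝ) - 1) * (1 - p)) * m * p ^ (2 * M) := by
          ring
      _ ≤ (((M : ℝ) - 1) * (1 - p)) * m * Real.exp (-(2 * s)) :=
          mul_le_mul_of_nonneg_left hE (mul_nonneg hMq hm)
      _ ≤ s * m * Real.exp (-(2 * s)) :=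
          mul_le_mul_of_nonneg_right (mul_le_mul_of_nonneg_right hMs hm) hEp.le
  have e : 2 * (M : ℝ) * (1 - p) = 2 * s := by rw [hs]; ring
  rw [e]
  refine red _ (le_trans zero_le_one (le_max_right _ _)) ?_
  have k1 : s * (2 * s) * Real.exp (-(2 * s)) ≤ 38 / 100 := by
    have g3 : 0 ≤ s * Real.exp (-s) := by positivity
    have g4 : Real.exp (-(2 * s)) = Real.exp (-s) * Real.exp (-s) := by
      rw [← Real.exp_add]; congr 1; ring
    calc s * (2 * s) * Real.exp (-(2 * s)) = 2 * ((s * Real.exp (-s)) * (s * Real.exp (-s))) := by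
          rw [g4]; ring
      _ ≤ 2 * ((37 / 100) * (37 / 100)) := by
          have := mul_le_mul hy hy g3 (by norm_num)
          linarith
      _ ≤ 38 / 100 := by norm_num
  have k2 : s * (2 * p) * Real.exp (-(2 * s)) ≤ 38 / 100 := by
    calc s * (2 * p) * Real.exp (-(2 * s)) ≤ s * 2 * Real.exp (-(2 * s)) := by
          refine mul_le_mul_of_nonneg_right ?_ hEp.le
          nlinarith
      _ = 2 * s * Real.exp (-(2 * s)) := by ring
      _ ≤ 38 / 100 := by linarith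
  have k3 : s * 1 * Real.exp (-(2 * s)) ≤ 38 / 100 := by
    have : s * Real.exp (-(2 * s)) = (2 * s * Real.exp (-(2 * s))) / 2 := by ring
    rw [mul_one, this]
    linarith
  rcases max_choice (max (2 * s) (2 * p)) 1 with hc | hc
  · rw [hc]
    rcases max_choice (2 * s) (2 * p) with hd | hd
    · rw [hd]; exact k1
    · rw [hd]; exact k2
  · rw [hc]; exact k3

/-- `p^M q ≤ 4/27` for `M ≥ 2` -/
theorem numN_z2 {p : ℝ} (h0 : 0 < p) (h1 : p < 1) {M : ℕ} (hM : 2 ≤ M) :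
    p ^ M * (1 - p) ≤ 4 / 27 := by
  have hq0 : 0 < 1 - p := by linarith
  have a : p ^ M ≤ p ^ 2 := pow_le_pow_of_le_one h0.le h1.le hM
  have b : p ^ 2 * (1 - p) ^ 1 ≤ (2 / 3) ^ 2 * (1 / 3) ^ 1 := by
    apply sup2 h0.le hq0.le (by norm_num) (by norm_num)
    norm_num
    linarith
  calc p ^ M * (1 - p) ≤ p ^ 2 * (1 - p) := mul_le_mul_of_nonneg_right a hq0.le
    _ = p ^ 2 * (1 - p) ^ 1 := by ring
    _ ≤ (2 / 3) ^ 2 * (1 / 3) ^ 1 := b
    _ = 4 / 27 := by norm_num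

/-- `p^M q ≤ 27/256` for `M ≥ 3` -/
theorem numN_z3 {p : ℝ} (h0 : 0 < p) (h1 : p < 1) {M : ℕ} (hM : 3 ≤ M) :
    p ^ M * (1 - p) ≤ 27 / 256 := by
  have hq0 : 0 < 1 - p := by linarith
  have a : p ^ M ≤ p ^ 3 := pow_le_pow_of_le_one h0.le h1.le hM
  have b : p ^ 3 * (1 - p) ^ 1 ≤ (3 / 4) ^ 3 * (1 / 4) ^ 1 := by
    apply sup2 h0.le hq0.le (by norm_num) (by norm_num)
    norm_num
    linarith
  calc p ^ M * (1 - p) ≤ p ^ 3 * (1 - p) := mul_le_mul_of_nonneg_right a hq0.le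
    _ = p ^ 3 * (1 - p) ^ 1 := by ring
    _ ≤ (3 / 4) ^ 3 * (1 / 4) ^ 1 := b
    _ = 27 / 256 := by norm_num

/-- `p^(M+1) q ≤ 27/256` for `M ≥ 2` -/
theorem numN_y2 {p : ℝ} (h0 : 0 < p) (h1 : p < 1) {M : ℕ} (hM : 2 ≤ M) :
    p ^ (M + 1) * (1 - p) ≤ 27 / 256 := numN_z3 h0 h1 (by omega)

/-- `p^(M+1) q ≤ 256/3125` for `M ≥ 3` -/
theorem numN_y3 {p : ℝ} (h0 : 0 < p) (h1 : p < 1) {M : ℕ} (hM : 3 ≤ M) :
    p ^ (M + 1) * (1 - p) ≤ 256 / 3125 := by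
  have hq0 : 0 < 1 - p := by linarith
  have a : p ^ (M + 1) ≤ p ^ 4 := pow_le_pow_of_le_one h0.le h1.le (by omega)
  have b : p ^ 4 * (1 - p) ^ 1 ≤ (4 / 5) ^ 4 * (1 / 5) ^ 1 := by
    apply sup2 h0.le hq0.le (by norm_num) (by norm_num)
    norm_num
    linarith
  calc p ^ (M + 1) * (1 - p) ≤ p ^ 4 * (1 - p) := mul_le_mul_of_nonneg_right a hq0.le
    _ = p ^ 4 * (1 - p) ^ 1 := by ring
    _ ≤ (4 / 5) ^ 4 * (1 / 5) ^ 1 := b
    _ = 256 / 3125 := by norm_num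

end Coin
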