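import Pool.Agent.Lib.Coin.EqN2
import Pool.Agent.Lib.Coin.EqNumN
import Pool.Agent.Lib.Coin.Eq42

/-!
# Coin race: equal contents (M5c), class N: numbers
-/

namespace Coin

open Finset

variable {p : ℝ} {A B : List Bool}

/-- `Kc` is linear in `E` and `mx` -/
theorem eqN_Kc_le {lam lb t kb E mx : ℝ} (hl0 : 0 ≤ lam) (hl : lam ≤ lb) (ht : 0 ≤ t) (hk : 0 < kb)
    (hkb : kb ≤ 1 - 4 * lb - 3 * t) (hE : 0 ≤ E) (hm : 0 ≤ mx) :
    WE.Kc lam t (t * mx) E ≤ (1 + (lb + t) / kb + ((lb + t) * (4 * lb) / kb + lb) / kb) * E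
      + ((lb + t) * (3 * t) / kb + t) / kb * mx := by
  unfold WE.Kc
  set kk := 1 - 4 * lam - 3 * t with hkk
  have hkk0 : kb ≤ kk := by rw [hkk]; linarith
  have hlb0 : 0 ≤ lb := hl0.trans hl
  have a1 : (lam + t) / kk ≤ (lb + t) / kb :=
    div_le_div₀ (by linarith) (by linarith) hk hkk0
  have a2 : (lam + t) * (4 * lam * E + 3 * (t * mx)) / kk
      ≤ (lb + t) * (4 * lb * E + 3 * (t * mx)) / kb := by
    refine div_le_div₀ (by positivity) ?_ hk hkk0
    refine mul_le_mul (by linarith) ?_ (by positivity) (by linarith)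
    nlinarith
  have a3 : ((lam + t) * (4 * lam * E + 3 * (t * mx)) / kk + lam * E + t * mx) / kk
      ≤ ((lb + t) * (4 * lb * E + 3 * (t * mx)) / kb + lb * E + t * mx) / kb := by
    refine div_le_div₀ (by positivity) ?_ hk hkk0
    have := mul_le_mul_of_nonneg_right hl hE
    linarith
  have a4 := mul_le_mul_of_nonneg_left a1 hE
  have e : (1 + (lb + t) / kb + ((lb + t) * (4 * lb) / kb + lb) / kb) * E
      + ((lb + t) * (3 * t) / kb + t) / kb * mx
      = E * (1 + (lb + t) / kb)
        + ((lb + t) * (4 * lb * E + 3 * (t * mx)) / kb + lb * E + t * mx) / kb := by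
    field_simp
    ring
  rw [e]
  linarith

theorem len_mul_wt (A : List Bool) : (A.length : ℝ) * wt p A
    = ((A.count true : ℝ) + A.count false) * (p ^ A.count true * (1 - p) ^ A.count false) := by
  rw [← count_add A]
  push_cast
  rfl

theorem dl_cont (p : ℝ) (A : List Bool) :
    dl p (cont A) = (A.count true : ℝ) * (1 - p) - A.count false * p := rfl

namespace ClN

variable {M y1 : ℕ}

theorem up_num (C : ClN A B M y1) (hM2 : 2 ≤ M) (h0 : 0 < p) (h1 : p < 1)
    (hL : 7 ≤ A.count true + A.count false) (htie : G p A B = 0) :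
    ∃ d : ℝ, 0 < d ∧ HasDerivAt (fun x => G x A B) d p := by
  have hq : 0 < 1 - p := by linarith
  have h2M := C.two_M_le
  have h2t := C.two_le_t
  have hw := wt_pos h0 h1 A
  have hwt : wt p A = p ^ A.count true * (1 - p) ^ A.count false := rfl
  set E := |dl p (cont A)| with hE
  have hE0 : 0 ≤ E := abs_nonneg _
  set mx := max ((A.count true : ℝ) * (1 - p)) (A.count false * p) with hmx
  have hmx0 : 0 ≤ mx := max_nonneg_left (by positivity)
  have hEm : E ≤ mx := abs_dl_le h0 h1 (cont A)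
  have hlam0 : 0 ≤ (A.length : ℝ) * wt p A := by positivity
  have hnmax := numN_max h0 h1 h2M h2t
  have hnlam := numN_lam h0 h1 h2M h2t
  rw [← hwt, ← hmx] at hnmax
  rw [← hwt, ← dl_cont, ← hE] at hnlam
  have hz0 : 0 < p ^ M * (1 - p) := by positivity
  have hpM : p ^ M < 1 := pow_lt_one₀ h0.le h1 (by omega)
  have hpM0 : 0 < p ^ M := by positivity
  rcases Nat.lt_or_ge M 3 with hM3 | hM3
  · -- `M = 2`
    have hM : M = 2 := by omega
    have hlam : (A.length : ℝ) * wt p A ≤ 1063 / 10000 := by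
      rw [len_mul_wt]
      exact numN_len h0 h1 hM2 h2M h2t hL
    have hKc := eqN_Kc_le (lam := (A.length : ℝ) * wt p A) (lb := 1063 / 10000) (t := 9 / 64)
      (kb := 1529 / 10000) hlam0 hlam (by norm_num) (by norm_num) (by norm_num) hE0 hmx0
    refine C.up hM2 h0 h1 htie (t := 9 / 64) (K := 8 * E + 6 * mx) ?_ ?_ (by linarith) ?_ ?_
    · -- A
      rw [hM]
      have : p ^ 2 * (1 - p) * (1 - p ^ 2) = p ^ 2 * (1 - p) ^ 2 * (1 + p) := by ring
      rw [this]
      have h3 := pq_le p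
      have h4 : 0 < p * (1 - p) := mul_pos h0 hq
      have h5 : p ^ 2 * (1 - p) ^ 2 ≤ 1 / 16 := by nlinarith
      nlinarith
    · have := numN_y2 h0 h1 hM2
      linarith
    · refine hKc.trans ?_
      have e1 : (1 + (1063 / 10000 + 9 / 64) / (1529 / 10000) + ((1063 / 10000 + 9 / 64)
        * (4 * (1063 / 10000)) / (1529 / 10000) + 1063 / 10000) / (1529 / 10000) : ℝ) ≤ 8 := by
        norm_num
      have e2 : (((1063 / 10000 + 9 / 64) * (3 * (9 / 64)) / (1529 / 10000) + 9 / 64)
        / (1529 / 10000) : ℝ) ≤ 6 := by norm_num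
      exact add_le_add (mul_le_mul_of_nonneg_right e1 hE0) (mul_le_mul_of_nonneg_right e2 hmx0)
    · rw [hM] at hnmax ⊢
      have g : (p ^ 2 * (1 - p)) ^ 2 * max (max (2 * ((2 : ℕ) : ℝ) * (1 - p)) (2 * p)) 1
          ≤ 34 / 1000 := by
        have hs0 : 0 ≤ (p ^ 2 * (1 - p)) ^ 2 := by positivity
        rw [mul_max_of_nonneg _ _ hs0, mul_max_of_nonneg _ _ hs0]
        refine max_le (max_le ?_ ?_) ?_
        · have b : p ^ 4 * (1 - p) ^ 3 ≤ (4 / 7) ^ 4 * (3 / 7) ^ 3 := by
            apply sup2 h0.le hq.le (by norm_num) (by norm_num)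
            norm_num
            linarith
          have e : (p ^ 2 * (1 - p)) ^ 2 * (2 * ((2 : ℕ) : ℝ) * (1 - p))
              = 4 * (p ^ 4 * (1 - p) ^ 3) := by push_cast; ring
          rw [e]
          norm_num at b ⊢
          linarith
        · have b : p ^ 5 * (1 - p) ^ 2 ≤ (5 / 7) ^ 5 * (2 / 7) ^ 2 := by
            apply sup2 h0.le hq.le (by norm_num) (by norm_num)
            norm_num
            linarith
          have e : (p ^ 2 * (1 - p)) ^ 2 * (2 * p) = 2 * (p ^ 5 * (1 - p) ^ 2) := by ring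
          rw [e]
          norm_num at b ⊢
          linarith
        · have b := numN_z2 h0 h1 (le_refl 2)
          have b0 : 0 ≤ p ^ 2 * (1 - p) := by positivity
          nlinarith
      have hPm : wt p A * mx ≤ 34 / 1000 := hnmax.trans g
      have hPE : wt p A * E ≤ wt p A * mx := mul_le_mul_of_nonneg_left hEm hw.le
      push_cast
      have e3 : (2 - 1) * (wt p A * (8 * E + 6 * mx)) = 8 * (wt p A * E) + 6 * (wt p A * mx) := by
        ring
      rw [e3]
      nlinarith [sq_nonneg (2 * p - 1)]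
  · have hlam : (A.length : ℝ) * wt p A ≤ 89 / 1000 := by
      rw [len_mul_wt]
      exact numN_len3 h0 h1 hM3 h2M h2t
    have hKc := eqN_Kc_le (lam := (A.length : ℝ) * wt p A) (lb := 89 / 1000) (t := 1024 / 9375)
      (kb := 3163 / 10000) hlam0 hlam (by norm_num) (by norm_num) (by norm_num) hE0 hmx0
    refine C.up hM2 h0 h1 htie (t := 1024 / 9375) (K := 2614 / 1000 * E + 995 / 1000 * mx)
      ?_ ?_ (by linarith) ?_ ?_
    · have := numN_z3 h0 h1 hM3
      have h3 : p ^ M * (1 - p) * (1 - p ^ M) ≤ p ^ M * (1 - p) :=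
        mul_le_of_le_one_right hz0.le (by linarith)
      linarith
    · have := numN_y3 h0 h1 hM3
      linarith
    · refine hKc.trans ?_
      have e1 : (1 + (89 / 1000 + 1024 / 9375) / (3163 / 10000) + ((89 / 1000 + 1024 / 9375)
        * (4 * (89 / 1000)) / (3163 / 10000) + 89 / 1000) / (3163 / 10000) : ℝ)
          ≤ 2614 / 1000 := by
        norm_num
      have e2 : (((89 / 1000 + 1024 / 9375) * (3 * (1024 / 9375)) / (3163 / 10000)
        + 1024 / 9375) / (3163 / 10000) : ℝ) ≤ 995 / 1000 := by norm_num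
      exact add_le_add (mul_le_mul_of_nonneg_right e1 hE0) (mul_le_mul_of_nonneg_right e2 hmx0)
    · have s1 := numN_sup1 h0 h1 (by omega : 1 ≤ M)
      have s2 := numN_sup2 h0 h1 (by omega : 1 ≤ M)
      have hM1 : (0 : ℝ) ≤ (M : ℝ) - 1 := by
        have : (1 : ℝ) ≤ M := by exact_mod_cast (by omega : 1 ≤ M)
        linarith
      have g1 : ((M : ℝ) - 1) * (wt p A * E) ≤ 231 / 1000 * (1 - p) := by
        calc ((M : ℝ) - 1) * (wt p A * E)
            ≤ ((M : ℝ) - 1) * ((p ^ M * (1 - p)) ^ 2 * max |2 * M * (1 - p) - 2 * p| 1) :=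
              mul_le_mul_of_nonneg_left hnlam hM1
          _ = ((M : ℝ) - 1) * p ^ (2 * M) * (1 - p) * max |2 * M * (1 - p) - 2 * p| 1
              * (1 - p) := by rw [pow_mul']; ring
          _ ≤ _ := mul_le_mul_of_nonneg_right s1 hq.le
      have g2 : ((M : ℝ) - 1) * (wt p A * mx) ≤ 38 / 100 * (1 - p) := by
        calc ((M : ℝ) - 1) * (wt p A * mx)
            ≤ ((M : ℝ) - 1) * ((p ^ M * (1 - p)) ^ 2
              * max (max (2 * M * (1 - p)) (2 * p)) 1) := mul_le_mul_of_nonneg_left hnmax hM1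
          _ = ((M : ℝ) - 1) * p ^ (2 * M) * (1 - p) * max (max (2 * M * (1 - p)) (2 * p)) 1
              * (1 - p) := by rw [pow_mul']; ring
          _ ≤ _ := mul_le_mul_of_nonneg_right s2 hq.le
      have e3 : ((M : ℝ) - 1) * (wt p A * (2614 / 1000 * E + 995 / 1000 * mx))
          = 2614 / 1000 * (((M : ℝ) - 1) * (wt p A * E))
            + 995 / 1000 * (((M : ℝ) - 1) * (wt p A * mx)) := by ring
      rw [e3]
      linarith

end ClN

end Coin
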