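import Pool.Agent.Lib.Coin.EqMain

/-!
# Coin race: equal contents (M5c), structure of the borders
-/

namespace Coin

open Finset

/-! ## periodic counts -/

theorem count_take_add {A : List Bool} {k : ℕ} (hk : k ∈ bd A) {m : ℕ} (hm : m ≤ k) (b : Bool) :
    (A.take (A.length - k + m)).count b
      = (A.take (A.length - k)).count b + (A.take m).count b := by
  rw [List.take_add, List.count_append, ← (mem_bd3.1 hk).2, List.take_take, min_eq_left hm]

theorem count_period {A : List Bool} {k : ℕ} (hk : k ∈ bd A) (b : Bool) :
    (A.take (A.length - k)).count b + (A.take k).count b = A.count b := by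
  have h := count_take_add hk le_rfl b
  rw [Nat.sub_add_cancel (bd_le hk), List.take_length] at h
  omega

theorem mul_le_count {A : List Bool} {k : ℕ} (hk : k ∈ bd A) (b : Bool) (j : ℕ) :
    ∀ m : ℕ, j * (A.length - k) ≤ m → m ≤ A.length →
      j * (A.take (A.length - k)).count b ≤ (A.take m).count b := by
  have hkl := bd_le hk
  induction j with
  | zero => intro m _ _; simp
  | succ j ih =>
    intro m h1 h2
    have h3 : (j + 1) * (A.length - k) = j * (A.length - k) + (A.length - k) := by ring
    have h4 := ih (m - (A.length - k)) (by omega) (by omega)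
    have h5 := count_take_add hk (m := m - (A.length - k)) (by omega) b
    rw [show A.length - k + (m - (A.length - k)) = m by omega] at h5
    have h6 : (j + 1) * (A.take (A.length - k)).count b
      = j * (A.take (A.length - k)).count b + (A.take (A.length - k)).count b := by ring
    omega

theorem count_le_mul {A : List Bool} {k : ℕ} (hk : k ∈ bd A) (b : Bool) (j : ℕ) :
    ∀ m : ℕ, m ≤ j * (A.length - k) → m ≤ A.length →
      (A.take m).count b ≤ j * (A.take (A.length - k)).count b := by
  have hkl := bd_le hk
  induction j with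
  | zero =>
    intro m h1 _
    have : m = 0 := by omega
    subst this
    simp
  | succ j ih =>
    intro m h1 h2
    have h3 : (j + 1) * (A.length - k) = j * (A.length - k) + (A.length - k) := by ring
    have h6 : (j + 1) * (A.take (A.length - k)).count b
      = j * (A.take (A.length - k)).count b + (A.take (A.length - k)).count b := by ring
    by_cases hm : m ≤ A.length - k
    · have := count_le_of_le (A := A) hm b
      omega
    · have h4 := ih (m - (A.length - k)) (by omega) (by omega)
      have h5 := count_take_add hk (m := m - (A.length - k)) (by omega) b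
      rw [show A.length - k + (m - (A.length - k)) = m by omega] at h5
      omega

/-- numerical data of a border: `L` length, `n` content, `z` content of the border -/
structure PerData (L : ℕ) (n z : ℕ × ℕ) : Prop where
  size : n.1 + n.2 = L
  pos : 1 ≤ z.1 + z.2
  le1 : z.1 ≤ n.1
  le2 : z.2 ≤ n.2
  lo1 : ∀ j : ℕ, j * (L - (z.1 + z.2)) ≤ L → j * (n.1 - z.1) ≤ n.1
  lo2 : ∀ j : ℕ, j * (L - (z.1 + z.2)) ≤ L → j * (n.2 - z.2) ≤ n.2
  hi1 : ∀ j : ℕ, L ≤ j * (L - (z.1 + z.2)) → n.1 ≤ j * (n.1 - z.1)
  hi2 : ∀ j : ℕ, L ≤ j * (L - (z.1 + z.2)) → n.2 ≤ j * (n.2 - z.2)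
  mono1 : z.1 + z.2 ≤ L - (z.1 + z.2) → z.1 ≤ n.1 - z.1
  mono2 : z.1 + z.2 ≤ L - (z.1 + z.2) → z.2 ≤ n.2 - z.2

theorem perData {A : List Bool} {z : ℕ × ℕ} (hz : z ∈ bc A) :
    PerData A.length (A.count true, A.count false) z := by
  obtain ⟨hk, hc⟩ := mem_bc_iff.1 hz
  have hle := bd_le hk
  have c1 : (A.take (z.1 + z.2)).count true = z.1 := congrArg Prod.fst hc
  have c2 : (A.take (z.1 + z.2)).count false = z.2 := congrArg Prod.snd hc
  have p1 := count_period hk true
  have p2 := count_period hk false
  have e1 : (A.take (A.length - (z.1 + z.2))).count true = A.count true - z.1 := by omega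
  have e2 : (A.take (A.length - (z.1 + z.2))).count false = A.count false - z.2 := by omega
  refine ⟨count_add A, bd_pos hk, ?_, ?_, ?_, ?_, ?_, ?_, ?_, ?_⟩
  · show z.1 ≤ A.count true
    omega
  · show z.2 ≤ A.count false
    omega
  · intro j hj
    have := mul_le_count hk true j A.length hj le_rfl
    rwa [e1, List.take_length] at this
  · intro j hj
    have := mul_le_count hk false j A.length hj le_rfl
    rwa [e2, List.take_length] at this
  · intro j hj
    have := count_le_mul hk true j A.length hj le_rfl
    rwa [e1, List.take_length] at this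
  · intro j hj
    have := count_le_mul hk false j A.length hj le_rfl
    rwa [e2, List.take_length] at this
  · intro h
    have := count_le_of_le (A := A) h true
    rwa [e1, c1] at this
  · intro h
    have := count_le_of_le (A := A) h false
    rwa [e2, c2] at this

/-- the dichotomy: short borders, or both letters occur at least six times -/
theorem PerData.dichotomy {L : ℕ} {n x y : ℕ × ℕ} (X : PerData L n x) (Y : PerData L n y)
    (h1 : y.1 < x.1) (h2 : x.2 < y.2) :
    (2 * x.1 ≤ n.1 ∧ 2 * y.2 ≤ n.2) ∨ (6 ≤ n.1 ∧ 6 ≤ n.2) := by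
  have hs := X.size
  have x1 := X.le1
  have x2 := X.le2
  have y1 := Y.le1
  have y2 := Y.le2
  by_cases hk : 2 * (x.1 + x.2) ≤ L
  · have m1 := X.mono1 (by omega)
    have m2 := X.mono2 (by omega)
    by_cases hl : 2 * (y.1 + y.2) ≤ L
    · have n1 := Y.mono1 (by omega)
      have n2 := Y.mono2 (by omega)
      left
      omega
    · have n1 := Y.lo1 2 (by omega)
      omega
  · by_cases hl : 2 * (y.1 + y.2) ≤ L
    · have n2 := Y.mono2 (by omega)
      have m2 := X.lo2 2 (by omega)
      omega
    · right
      set π := L - (x.1 + x.2) with hπ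
      set σ := L - (y.1 + y.2) with hσ
      have hπ0 : 0 < π := by omega
      have hσ0 : 0 < σ := by omega
      set j := L / π with hj
      set i := L / σ with hi
      have a1 : j * π ≤ L := Nat.div_mul_le_self L π
      have a2 : L ≤ (j + 1) * π := by
        have h3 := Nat.lt_div_mul_add (a := L) hπ0
        rw [← hj] at h3
        have h4 : (j + 1) * π = j * π + π := by ring
        omega
      have b1 : i * σ ≤ L := Nat.div_mul_le_self L σ
      have b2 : L ≤ (i + 1) * σ := by
        have h3 := Nat.lt_div_mul_add (a := L) hσ0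
        rw [← hi] at h3
        have h4 : (i + 1) * σ = i * σ + σ := by ring
        omega
      have j2 : 2 ≤ j := (Nat.le_div_iff_mul_le hπ0).2 (by omega)
      have i2 : 2 ≤ i := (Nat.le_div_iff_mul_le hσ0).2 (by omega)
      have c1 := X.lo2 j a1
      have c2 := X.hi1 (j + 1) a2
      have d1 := Y.lo1 i b1
      have d2 := Y.hi2 (i + 1) b2
      set P1 := n.1 - x.1 with hP1
      set P2 := n.2 - x.2 with hP2
      set S1 := n.1 - y.1 with hS1
      set S2 := n.2 - y.2 with hS2
      have e1 : P1 + 1 ≤ S1 := by omega
      have e2 : S2 + 1 ≤ P2 := by omega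
      -- j ≤ i
      have f1 : j ≤ i := by
        by_contra hc
        have hc' : i + 1 ≤ j := by omega
        have g1 : (i + 1) * P2 ≤ j * P2 := Nat.mul_le_mul_right _ hc'
        have g2 : (i + 1) * S2 + (i + 1) ≤ (i + 1) * P2 := by
          calc (i + 1) * S2 + (i + 1) = (i + 1) * (S2 + 1) := by ring
            _ ≤ (i + 1) * P2 := Nat.mul_le_mul_left _ e2
        omega
      have f2 : i ≤ j := by
        by_contra hc
        have hc' : j + 1 ≤ i := by omega
        have g1 : (j + 1) * S1 ≤ i * S1 := Nat.mul_le_mul_right _ hc'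
        have g2 : (j + 1) * P1 + (j + 1) ≤ (j + 1) * S1 := by
          calc (j + 1) * P1 + (j + 1) = (j + 1) * (P1 + 1) := by ring
            _ ≤ (j + 1) * S1 := Nat.mul_le_mul_left _ e1
        omega
      have hij : i = j := le_antisymm f2 f1
      rw [hij] at d1 d2
      have g1 : (j + 1) * P1 + (j + 1) ≤ (j + 1) * S1 := by
        calc (j + 1) * P1 + (j + 1) = (j + 1) * (P1 + 1) := by ring
          _ ≤ (j + 1) * S1 := Nat.mul_le_mul_left _ e1
      have g2 : (j + 1) * S2 + (j + 1) ≤ (j + 1) * P2 := by
        calc (j + 1) * S2 + (j + 1) = (j + 1) * (S2 + 1) := by ring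
          _ ≤ (j + 1) * P2 := Nat.mul_le_mul_left _ e2
      have k1 : (j + 1) * S1 = j * S1 + S1 := by ring
      have k2 : (j + 1) * P2 = j * P2 + P2 := by ring
      have s3 : 3 ≤ S1 := by omega
      have p3 : 3 ≤ P2 := by omega
      constructor
      · calc 6 = 2 * 3 := by norm_num
          _ ≤ j * S1 := Nat.mul_le_mul j2 s3
          _ ≤ n.1 := d1
      · calc 6 = 2 * 3 := by norm_num
          _ ≤ j * P2 := Nat.mul_le_mul j2 p3
          _ ≤ n.2 := c1

theorem dichotomy {A B : List Bool} (hcont : cont A = cont B) {x y : ℕ × ℕ} (hx : x ∈ bc A)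
    (hy : y ∈ bc B) (h1 : y.1 < x.1) (h2 : x.2 < y.2) :
    (2 * x.1 ≤ A.count true ∧ 2 * y.2 ≤ A.count false)
      ∨ (6 ≤ A.count true ∧ 6 ≤ A.count false) := by
  have X := perData hx
  have Y := perData hy
  have e1 : A.count true = B.count true := congrArg Prod.fst hcont
  have e2 : A.count false = B.count false := congrArg Prod.snd hcont
  rw [← length_eq_of_cont hcont, ← e1, ← e2] at Y
  exact X.dichotomy Y h1 h2

theorem cont_eq_iff {A B : List Bool} : cont A = cont B ↔
    A.count true = B.count true ∧ A.count false = B.count false := by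
  unfold cont
  rw [Prod.mk.injEq]

theorem cont_take {A : List Bool} {z : ℕ × ℕ} (hz : z ∈ bc A) : cont (A.take (z.1 + z.2)) = z :=
  (mem_bc_iff.1 hz).2

theorem mem_bc_take {A : List Bool} {z w : ℕ × ℕ} (hz : z ∈ bc A) :
    w ∈ bc (A.take (z.1 + z.2)) ↔ w ∈ bc A ∧ w.1 + w.2 ≤ z.1 + z.2 := by
  rw [bc_take (mem_bc_iff.1 hz).1, mem_filter]

/-- a long border: the border shortened by the period is again a border -/
theorem bc_sub_period {A : List Bool} {z : ℕ × ℕ} (hz : z ∈ bc A)
    (h : A.length - (z.1 + z.2) < z.1 + z.2) :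
    (2 * z.1 - A.count true, 2 * z.2 - A.count false) ∈ bc A ∧
      A.count true ≤ 2 * z.1 ∧ A.count false ≤ 2 * z.2 := by
  obtain ⟨hk, hc⟩ := mem_bc_iff.1 hz
  have hle := bd_le hk
  set k := z.1 + z.2 with hkdef
  set m := k - (A.length - k) with hm
  have c1 : (A.take k).count true = z.1 := congrArg Prod.fst hc
  have c2 : (A.take k).count false = z.2 := congrArg Prod.snd hc
  have hmk : m ≤ k := Nat.sub_le _ _
  have hmem : m ∈ bd (A.take k) := by
    rw [mem_bd3, length_take_bd hk]
    refine ⟨⟨by omega, hmk⟩, ?_⟩
    rw [List.take_take, min_eq_left hmk, List.drop_take, show k - m = A.length - k by omega]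
    rw [← (mem_bd3.1 hk).2, List.take_take, min_eq_left (by omega)]
  have hmA : m ∈ bd A := (bd_take hk hmk).1 hmem
  have p1 := count_period hk true
  have p2 := count_period hk false
  have q1 := count_take_add hk hmk true
  have q2 := count_take_add hk hmk false
  rw [show A.length - k + m = k by omega] at q1 q2
  refine ⟨?_, by omega, by omega⟩
  rw [mem_bc]
  refine ⟨m, hmA, ?_⟩
  unfold cont
  exact Prod.ext (by show _ = 2 * z.1 - A.count true; omega)
    (by show _ = 2 * z.2 - A.count false; omega)

/-! ## class N : a run of heads against a border with one tail -/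

theorem run_two_mul {A : List Bool} {M : ℕ} (hx : (M, 0) ∈ bc A) (hf : 1 ≤ A.count false) :
    2 * M ≤ A.count true := by
  obtain ⟨hk, hc⟩ := mem_bc_iff.1 hx
  simp only [add_zero] at hk hc
  exact two_mul_le_run hk (List.count_pos_iff.1 hf) (congrArg Prod.snd hc)

/-- the part after a common proper border which is longer than the tops -/
theorem compl_N {M y1 : ℕ} (hy1 : y1 < M) : ∀ L : ℕ, ∀ A B : List Bool, A.length = L →
    cont A = cont B → (M, 0) ∈ bc A → (M, 0) ∉ bc B → (y1, 1) ∈ bc B →
    ∀ c : ℕ × ℕ, c ∈ bc A → c ∈ bc B → c.1 + c.2 < L → M < c.1 + c.2 →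
      M + 1 ≤ A.count true - c.1 ∧ 2 ≤ A.count false - c.2 ∧ 2 ≤ c.2 := by
  intro L
  induction L using Nat.strong_induction_on with
  | _ L ih =>
    intro A B hL hcont hxA hxB hyB c hcA hcB hcL hcM
    have hcnt := cont_eq_iff.1 hcont
    have e1 : M ≤ c.1 := (bc_chain hxA hcA (by simpa using hcM.le)).1
    have e2 : M < c.1 := bc_lt_fst hxA hcA (by simpa using hcM) (by omega)
    have e3 : 1 ≤ c.2 := (bc_chain hyB hcB (by simp only; omega)).2
    have e4 : 1 < c.2 := by
      have := bc_lt_snd hyB hcB (by simp only; omega) (by omega)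
      exact this
    have D := perData hcA
    by_cases hs : c.1 + c.2 ≤ A.length - (c.1 + c.2)
    · have m1 := D.mono1 hs
      have m2 := D.mono2 hs
      simp only at m1 m2
      omega
    · have hs' : A.length - (c.1 + c.2) < c.1 + c.2 := by omega
      obtain ⟨zA, g1, g2⟩ := bc_sub_period hcA hs'
      have hlen := length_eq_of_cont hcont
      obtain ⟨zB, g3, g4⟩ := bc_sub_period hcB (by rw [← hlen]; exact hs')
      rw [← hcnt.1, ← hcnt.2] at zB
      have d1 := D.le1
      have d2 := D.le2
      have d3 := D.size
      simp only at d1 d2 d3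
      set z : ℕ × ℕ := (2 * c.1 - A.count true, 2 * c.2 - A.count false) with hz
      have z1 : z.1 = 2 * c.1 - A.count true := rfl
      have z2 : z.2 = 2 * c.2 - A.count false := rfl
      by_cases hzM : M < z.1 + z.2
      · -- induction
        have hcA' := cont_take hcA
        have hcB' := cont_take hcB
        have f1 : (A.take (c.1 + c.2)).count true = c.1 := congrArg Prod.fst hcA'
        have f2 : (A.take (c.1 + c.2)).count false = c.2 := congrArg Prod.snd hcA'
        have := ih (c.1 + c.2) hcL (A.take (c.1 + c.2)) (B.take (c.1 + c.2))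
          (length_take_bd (mem_bc_iff.1 hcA).1) (by rw [hcA', hcB'])
          ((mem_bc_take hcA).2 ⟨hxA, by simpa using hcM.le⟩)
          (fun h => hxB ((mem_bc_take hcB).1 h).1)
          ((mem_bc_take hcB).2 ⟨hyB, by simp only; omega⟩) z
          ((mem_bc_take hcA).2 ⟨zA, by omega⟩) ((mem_bc_take hcB).2 ⟨zB, by omega⟩)
          (by omega) hzM
        rw [f1, f2] at this
        omega
      · have hne : z.1 + z.2 ≠ M := by
          intro h
          have c1 := bc_chain zA hxA (by simp only [add_zero]; omega)
          have : z = (M, 0) := by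
            refine Prod.ext ?_ ?_
            · show z.1 = M
              have h3 : z.2 ≤ 0 := c1.2
              omega
            · show z.2 = 0
              have h3 : z.2 ≤ 0 := c1.2
              omega
          rw [this] at zB
          exact hxB zB
        have c1 := bc_chain zA hxA (by simp only [add_zero]; omega)
        have c2 : z.1 ≤ M := c1.1
        have c3 : z.2 ≤ 0 := c1.2
        have hrun : 2 * M ≤ c.1 := by
          have hcA' := cont_take hcA
          have f1 : (A.take (c.1 + c.2)).count true = c.1 := congrArg Prod.fst hcA'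
          have f2 : (A.take (c.1 + c.2)).count false = c.2 := congrArg Prod.snd hcA'
          have := run_two_mul (A := A.take (c.1 + c.2)) (M := M)
            ((mem_bc_take hcA).2 ⟨hxA, by simpa using hcM.le⟩) (by omega)
          omega
        omega

end Coin
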