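import Pool.Agent.Lib.Coin.EqStruct

/-!
# Coin race: equal contents (M5c), border sums
-/

namespace Coin

open Finset

variable {p : ℝ} {A B : List Bool}

theorem wt_mul_sum_bc (A : List Bool) : wt p A * ∑ z ∈ bc A, kapc p z = Sg p A := by
  unfold Sg
  rw [← sum_bd_eq_sum_bc A (fun z => kapc p z)]
  rfl

theorem wt_mul_kapc_self (h0 : 0 < p) (h1 : p < 1) (A : List Bool) :
    wt p A * kapc p (cont A) = 1 := by
  have := wt_pos h0 h1 A
  unfold kapc wt cont
  unfold wt at this
  exact mul_one_div_cancel this.ne'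

theorem sum_erase_self (h0 : 0 < p) (h1 : p < 1) (hA : A ≠ []) :
    wt p A * ∑ z ∈ (bc A).erase (cont A), kapc p z = Sg p A - 1 := by
  rw [← wt_mul_sum_bc, ← Finset.add_sum_erase _ _ (cont_self_mem hA), mul_add,
    wt_mul_kapc_self h0 h1]
  ring

/-- weighted sum of `|dl|`, all proper borders have `|dl| ≤ D` -/
theorem Lam_le_D (h0 : 0 < p) (h1 : p < 1) (hA : A ≠ []) {D : ℝ}
    (hD : ∀ z ∈ bc A, z ≠ cont A → |dl p z| ≤ D) :
    wt p A * ∑ z ∈ bc A, kapc p z * |dl p z| ≤ |dl p (cont A)| + (Sg p A - 1) * D := by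
  have hw := wt_pos h0 h1 A
  rw [← Finset.add_sum_erase _ _ (cont_self_mem hA), mul_add, ← mul_assoc,
    wt_mul_kapc_self h0 h1, one_mul, ← sum_erase_self h0 h1 hA, mul_assoc, sum_mul]
  refine add_le_add le_rfl (mul_le_mul_of_nonneg_left ?_ hw.le)
  refine sum_le_sum (fun z hz => ?_)
  rw [mem_erase] at hz
  exact mul_le_mul_of_nonneg_left (hD z hz.2 hz.1) (kapc_pos h0 h1 z).le

theorem bc_le_self {z : ℕ × ℕ} (hz : z ∈ bc A) : z.1 ≤ A.count true ∧ z.2 ≤ A.count false := by
  have D := perData hz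
  exact ⟨D.le1, D.le2⟩

/-- weighted sum of `|dl|`, general bound -/
theorem Lam_le_gen (h0 : 0 < p) (h1 : p < 1) :
    wt p A * ∑ z ∈ bc A, kapc p z * |dl p z|
      ≤ Sg p A * |dl p (cont A)| + lamH p A + lamT p A := by
  have hw := wt_pos h0 h1 A
  have hq : 0 < 1 - p := by linarith
  have eH : lamH p A = wt p A * ∑ z ∈ bc A, kapc p z * ((1 - p) * ((A.count true : ℝ) - z.1)) := by
    unfold lamH
    rw [← sum_bd_eq_sum_bc A (fun z => kapc p z * ((1 - p) * ((A.count true : ℝ) - z.1)))]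
    rw [← mul_assoc, mul_comm (1 - p), mul_assoc, mul_sum]
    congr 1
    refine sum_congr rfl (fun k _ => ?_)
    rw [kap_eq_kapc]
    unfold cont
    ring
  have eT : lamT p A = wt p A * ∑ z ∈ bc A, kapc p z * (p * ((A.count false : ℝ) - z.2)) := by
    unfold lamT
    rw [← sum_bd_eq_sum_bc A (fun z => kapc p z * (p * ((A.count false : ℝ) - z.2)))]
    rw [← mul_assoc, mul_comm p, mul_assoc, mul_sum]
    congr 1
    refine sum_congr rfl (fun k _ => ?_)
    rw [kap_eq_kapc]
    unfold cont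
    ring
  rw [eH, eT, ← wt_mul_sum_bc, mul_assoc, ← mul_add, ← mul_add, sum_mul, ← sum_add_distrib,
    ← sum_add_distrib]
  refine mul_le_mul_of_nonneg_left (sum_le_sum (fun z hz => ?_)) hw.le
  rw [← mul_add, ← mul_add]
  refine mul_le_mul_of_nonneg_left ?_ (kapc_pos h0 h1 z).le
  obtain ⟨a1, a2⟩ := bc_le_self hz
  have a1' : (z.1 : ℝ) ≤ A.count true := by exact_mod_cast a1
  have a2' : (z.2 : ℝ) ≤ A.count false := by exact_mod_cast a2
  have e : dl p z = dl p (cont A) - (1 - p) * ((A.count true : ℝ) - z.1)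
      + p * ((A.count false : ℝ) - z.2) := by
    unfold dl cont
    ring
  have b1 : 0 ≤ (1 - p) * ((A.count true : ℝ) - z.1) := mul_nonneg hq.le (by linarith)
  have b2 : 0 ≤ p * ((A.count false : ℝ) - z.2) := mul_nonneg h0.le (by linarith)
  rw [e, abs_le]
  constructor
  · have := neg_abs_le (dl p (cont A)); linarith
  · have := le_abs_self (dl p (cont A)); linarith

theorem abs_dl_le (h0 : 0 < p) (h1 : p < 1) (z : ℕ × ℕ) :
    |dl p z| ≤ max ((z.1 : ℝ) * (1 - p)) (z.2 * p) := by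
  have hq : 0 < 1 - p := by linarith
  have a : 0 ≤ (z.1 : ℝ) * (1 - p) := by positivity
  have b : 0 ≤ (z.2 : ℝ) * p := by positivity
  unfold dl
  rw [abs_le]
  constructor
  · have := le_max_right ((z.1 : ℝ) * (1 - p)) (z.2 * p); linarith
  · have := le_max_left ((z.1 : ℝ) * (1 - p)) (z.2 * p); linarith

theorem abs_dl_le_of_le (h0 : 0 < p) (h1 : p < 1) {z n : ℕ × ℕ} (hz1 : z.1 ≤ n.1)
    (hz2 : z.2 ≤ n.2) : |dl p z| ≤ max ((n.1 : ℝ) * (1 - p)) (n.2 * p) := by
  refine (abs_dl_le h0 h1 z).trans (max_le_max ?_ ?_)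
  · exact mul_le_mul_of_nonneg_right (by exact_mod_cast hz1) (by linarith)
  · exact mul_le_mul_of_nonneg_right (by exact_mod_cast hz2) h0.le

theorem wt_drop_eq {z : ℕ × ℕ} (hz : z ∈ bc A) :
    wt p (A.drop (z.1 + z.2)) = p ^ (A.count true - z.1) * (1 - p) ^ (A.count false - z.2) := by
  have hc := cont_take hz
  have c1 : (A.take (z.1 + z.2)).count true = z.1 := congrArg Prod.fst hc
  have c2 : (A.take (z.1 + z.2)).count false = z.2 := congrArg Prod.snd hc
  have s1 := count_split A (z.1 + z.2) true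
  have s2 := count_split A (z.1 + z.2) false
  unfold wt
  congr 2
  · omega
  · omega

/-- the largest proper border, if there is a proper one -/
theorem exists_top_bc {x : ℕ × ℕ} (hx : x ∈ bc A) (hlt : x.1 + x.2 < A.length) :
    ∃ c ∈ bc A, c.1 + c.2 < A.length ∧ x.1 + x.2 ≤ c.1 + c.2 ∧
      (∀ z ∈ bc A, z ≠ cont A → z.1 ≤ c.1 ∧ z.2 ≤ c.2) ∧
      (bd A).erase A.length = bd (A.take (c.1 + c.2)) := by
  have hxk := (mem_bc_iff.1 hx).1
  rcases exists_top A with he | ⟨k, hk, hkl, he⟩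
  · exfalso
    have : x.1 + x.2 ∈ (bd A).erase A.length := mem_erase.2 ⟨hlt.ne, hxk⟩
    rw [he] at this
    simp at this
  · have hca := cont_add hk
    refine ⟨cont (A.take k), mem_bc.2 ⟨k, hk, rfl⟩, by rw [hca]; exact hkl, ?_, ?_, by
      rw [hca]; exact he⟩
    · rw [hca]
      have : x.1 + x.2 ∈ (bd A).erase A.length := mem_erase.2 ⟨hlt.ne, hxk⟩
      rw [he] at this
      have := bd_le this
      rwa [length_take_bd hk] at this
    · intro z hz hne
      have hzk := (mem_bc_iff.1 hz).1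
      have hzl : z.1 + z.2 ≠ A.length := by
        intro h
        apply hne
        have := cont_take hz
        rw [h, List.take_length] at this
        exact this.symm
      have h2 : z.1 + z.2 ∈ (bd A).erase A.length := mem_erase.2 ⟨hzl, hzk⟩
      rw [he] at h2
      have h3 := bd_le h2
      rw [length_take_bd hk] at h3
      exact bc_chain hz (mem_bc.2 ⟨k, hk, rfl⟩) (by rw [hca]; exact h3)

end Coin
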