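import Pool.Agent.Lib.Coin.Deriv

/-!
# Coin race: hazard bounds, losses at the lower borders, upper bound for `Om`
-/

namespace Coin

open Finset

/-! ## the hazard lemma -/

open Classical in
theorem fst'_le {A : List Bool} (hA : A ≠ []) (l : List Bool) :
    fst' A l ≤ if A <:+ l then nocc A (l.take (l.length - A.length)) else 0 := by
  split_ifs with h
  · unfold fst'
    have h1 := nocc_nonneg A l
    have hL := List.length_pos_iff.2 hA
    have h2 : l.take (l.length - A.length) <:+: l.dropLast := by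
      rw [List.dropLast_eq_take]
      exact (List.take_prefix_take_left (by omega)).isInfix
    have := nocc_mono (A := A) h2
    linarith
  · exact (fst'_of_not_suffix h).le

theorem pm_le {p : ℝ} (h0 : 0 ≤ p) (h1 : p ≤ 1) {A : List Bool} (hA : A ≠ []) (n : ℕ) :
    pm p A n ≤ wt p A * surv p A (n - A.length) := by
  classical
  rw [pm_eq_ew]
  refine le_trans (ew_mono h0 h1 n (fun l hl => ?_)) (ew_suffix_le h0 h1 A A n)
  have := fst'_le hA l
  rw [hl] at this
  convert this

/-- if `P(A) ≤ h (1 - h)^(L - 1)` then all hazards are at most `h` -/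
theorem hazard {p h : ℝ} (h0 : 0 ≤ p) (h1 : p ≤ 1) {A : List Bool} (hA : A ≠ []) (hh0 : 0 ≤ h)
    (hh1 : h ≤ 1) (hP : wt p A ≤ h * (1 - h) ^ (A.length - 1)) (n : ℕ) :
    (1 - h) * surv p A n ≤ surv p A (n + 1) := by
  induction n using Nat.strong_induction_on with
  | _ n ih =>
    have hs := surv_nonneg h0 h1 A n
    have hit : ∀ j ≤ n, (1 - h) ^ j * surv p A (n - j) ≤ surv p A n := by
      intro j
      induction j with
      | zero => intro _; simp
      | succ j ihj =>
        intro hj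
        have e := ih (n - (j + 1)) (by omega)
        rw [show n - (j + 1) + 1 = n - j by omega] at e
        calc (1 - h) ^ (j + 1) * surv p A (n - (j + 1))
            = (1 - h) ^ j * ((1 - h) * surv p A (n - (j + 1))) := by ring
          _ ≤ (1 - h) ^ j * surv p A (n - j) :=
              mul_le_mul_of_nonneg_left e (pow_nonneg (by linarith) _)
          _ ≤ _ := ihj (by omega)
    rcases lt_or_ge (n + 1) A.length with hlt | hge
    · have e := pm_of_lt p hlt
      rw [pm_succ] at e
      nlinarith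
    · have e1 := pm_le h0 h1 hA (n + 1)
      rw [pm_succ] at e1
      have hL := List.length_pos_iff.2 hA
      have e2 := hit (A.length - 1) (by omega)
      rw [show n - (A.length - 1) = n + 1 - A.length by omega] at e2
      have e3 : wt p A * surv p A (n + 1 - A.length)
          ≤ h * ((1 - h) ^ (A.length - 1) * surv p A (n + 1 - A.length)) := by
        rw [← mul_assoc]
        exact mul_le_mul_of_nonneg_right hP (surv_nonneg h0 h1 A _)
      have e4 := mul_le_mul_of_nonneg_left e2 hh0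
      linarith

/-- hazards bounded by `h`, abstract form -/
def Haz (h : ℝ) (s : ℕ → ℝ) : Prop := ∀ n, (1 - h) * s n ≤ s (n + 1)

theorem Haz.iter {h : ℝ} (hh1 : h ≤ 1) {s : ℕ → ℝ} (hs : Haz h s) (n k : ℕ) :
    (1 - h) ^ k * s n ≤ s (n + k) := by
  induction k with
  | zero => simp
  | succ k ih =>
    calc (1 - h) ^ (k + 1) * s n = (1 - h) * ((1 - h) ^ k * s n) := by ring
      _ ≤ (1 - h) * s (n + k) := mul_le_mul_of_nonneg_left ih (by linarith)
      _ ≤ s (n + (k + 1)) := hs (n + k)

theorem Haz.iter_sub {h : ℝ} (hh0 : 0 ≤ h) (hh1 : h ≤ 1) {s : ℕ → ℝ} (hs : Haz h s)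
    (hnn : ∀ n, 0 ≤ s n) (n k : ℕ) : (1 - h) ^ k * s (n - k) ≤ s n := by
  rcases le_total k n with hk | hk
  · have := hs.iter hh1 (n - k) k
    rwa [Nat.sub_add_cancel hk] at this
  · have e := hs.iter hh1 0 n
    rw [zero_add] at e
    rw [Nat.sub_eq_zero_of_le hk]
    refine le_trans (mul_le_mul_of_nonneg_right ?_ (hnn 0)) e
    exact pow_le_pow_of_le_one (by linarith) (by linarith) hk

theorem haz_surv {p h : ℝ} (h0 : 0 ≤ p) (h1 : p ≤ 1) {A : List Bool} (hA : A ≠ []) (hh0 : 0 ≤ h)
    (hh1 : h ≤ 1) (hP : wt p A ≤ h * (1 - h) ^ (A.length - 1)) : Haz h (surv p A) :=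
  hazard h0 h1 hA hh0 hh1 hP

theorem haz_srv {p h : ℝ} (h0 : 0 ≤ p) (h1 : p ≤ 1) {A : List Bool} (hA : A ≠ []) (hh0 : 0 ≤ h)
    (hh1 : h ≤ 1) (hP : wt p A ≤ h * (1 - h) ^ (A.length - 1)) : Haz h (srv (pm p A)) := by
  intro n
  rw [srv_pm p hA, srv_pm p hA]
  exact hazard h0 h1 hA hh0 hh1 hP n

/-! ## losses at the lower borders -/

/-- `κ_k P(τ = n + k) ≤ P(rest) P(τ > n + k - L)` -/
theorem kap_mul_pm_le {p : ℝ} (h0 : 0 < p) (h1 : p < 1) {A : List Bool} (hA : A ≠ []) (k n : ℕ) :
    kap p A k * pm p A (n + k) ≤ wt p (A.drop k) * surv p A (n + k - A.length) := by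
  have hw := wt_pos h0 h1 (A.take k)
  have e := pm_le h0.le h1.le hA (n + k)
  have e2 : wt p A = wt p (A.take k) * wt p (A.drop k) := by
    rw [← wt_append, List.take_append_drop]
  have e3 := mul_le_mul_of_nonneg_left e (one_div_pos.2 hw).le
  unfold kap
  refine e3.trans (le_of_eq ?_)
  rw [e2]
  field_simp

/-- with the hazard bound: `(1-h)^(L-k) κ_k P(τ = n + k) ≤ P(rest) P(τ > n)` -/
theorem kap_mul_pm_le_haz {p h : ℝ} (h0 : 0 < p) (h1 : p < 1) {A : List Bool} (hA : A ≠ [])
    (hh0 : 0 ≤ h) (hh1 : h ≤ 1) (hP : wt p A ≤ h * (1 - h) ^ (A.length - 1)) {k : ℕ}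
    (hk : k ≤ A.length) (n : ℕ) :
    (1 - h) ^ (A.length - k) * (kap p A k * pm p A (n + k)) ≤ wt p (A.drop k) * surv p A n := by
  have hz := haz_surv h0.le h1.le hA hh0 hh1 hP
  have e1 := kap_mul_pm_le h0 h1 hA k n
  have e2 := hz.iter_sub hh0 hh1 (surv_nonneg h0.le h1.le A) n (A.length - k)
  rw [show n - (A.length - k) = n + k - A.length by omega] at e2
  have hw := wt_nonneg h0.le h1.le (A.drop k)
  calc (1 - h) ^ (A.length - k) * (kap p A k * pm p A (n + k))
      ≤ (1 - h) ^ (A.length - k) * (wt p (A.drop k) * surv p A (n + k - A.length)) :=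
        mul_le_mul_of_nonneg_left e1 (pow_nonneg (by linarith) _)
    _ = wt p (A.drop k) * ((1 - h) ^ (A.length - k) * surv p A (n + k - A.length)) := by ring
    _ ≤ _ := mul_le_mul_of_nonneg_left e2 hw

theorem conv_mono_left {f g b : ℕ → ℝ} (hfg : ∀ n, f n ≤ g n) (hb : ∀ n, 0 ≤ b n) (n : ℕ) :
    conv f b n ≤ conv g b n :=
  sum_le_sum (fun _ _ => mul_le_mul_of_nonneg_right (hfg _) (hb _))

theorem conv_const_mul (c : ℝ) (f b : ℕ → ℝ) (n : ℕ) :
    conv (fun i => c * f i) b n = c * conv f b n := by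
  unfold conv
  rw [mul_sum]
  exact sum_congr rfl (fun _ _ => by ring)

/-- a pointwise bound of `κ_k a_{n+k}` by the survival function gives a bound of the weight of the
border `k` by the sum of all weights -/
theorem Wk_le_of {K : Finset ℕ} {kap a a' b : ℕ → ℝ} (ha : IsProb a) (ha' : IsProb a')
    (hb : IsProb b) (ra : Ren K kap a) {k : ℕ} (hk : k ∈ K) {c C : ℝ}
    (h : ∀ n, c * (kap k * a (n + k)) ≤ C * srv a n) :
    c * (kap k * Wk a a' b k) ≤ C * ∑ j ∈ K, kap j * Wk a a' b j := by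
  have key : ∀ n, c * (kap k * conv a a' (n + k)) ≤ C * ∑ j ∈ K, kap j * conv a a' (n + j) := by
    intro n
    have e := conv_mono_left h ha'.nonneg n
    rw [conv_const_mul, conv_const_mul, conv_const_mul C (srv a), ra.conv_srv,
      conv_shift (ra.van k hk)] at e
    exact e
  have h1 : HasSum (fun n => c * (kap k * (b n * (conv a a' (n + k) + conv a a' (n + k - 1)))))
      (c * (kap k * Wk a a' b k)) := ((hasSum_W ha ha' hb k).mul_left (kap k)).mul_left c
  have h2 : HasSum (fun n => C * ∑ j ∈ K, kap j * (b n * (conv a a' (n + j)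
      + conv a a' (n + j - 1)))) (C * ∑ j ∈ K, kap j * Wk a a' b j) :=
    (hasSum_sum (fun j _ => (hasSum_W ha ha' hb j).mul_left (kap j))).mul_left C
  refine hasSum_le (fun n => ?_) h1 h2
  rcases Nat.eq_zero_or_pos n with hn | hn
  · subst hn
    simp [hb.zero]
  · have e1 := mul_le_mul_of_nonneg_left (key n) (hb.nonneg n)
    have e2 := mul_le_mul_of_nonneg_left (key (n - 1)) (hb.nonneg n)
    have e3 : C * ∑ j ∈ K, kap j * (b n * (conv a a' (n + j) + conv a a' (n + j - 1)))
        = b n * (C * ∑ j ∈ K, kap j * conv a a' (n + j))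
          + b n * (C * ∑ j ∈ K, kap j * conv a a' (n - 1 + j)) := by
      rw [← mul_add, ← mul_add, ← sum_add_distrib, mul_left_comm, mul_sum (a := b n)]
      congr 1
      refine sum_congr rfl (fun j hj => ?_)
      rw [show n - 1 + j = n + j - 1 by omega]
      ring
    rw [e3]
    rw [show n - 1 + k = n + k - 1 by omega] at e2
    calc c * (kap k * (b n * (conv a a' (n + k) + conv a a' (n + k - 1))))
        = b n * (c * (kap k * conv a a' (n + k))) + b n * (c * (kap k * conv a a' (n + k - 1))) := by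
          ring
      _ ≤ _ := add_le_add e1 e2

/-- loss at the border `k`: `(1-h)^(L-k) κ_k W_k ≤ P(rest) Om` -/
theorem kap_mul_Wk_le {p h : ℝ} (h0 : 0 < p) (h1 : p < 1) {A : List Bool} (hA : A ≠ [])
    (hh0 : 0 ≤ h) (hh1 : h ≤ 1) (hP : wt p A ≤ h * (1 - h) ^ (A.length - 1)) {a' b : ℕ → ℝ}
    (ha' : IsProb a') (hb : IsProb b) {k : ℕ} (hk : k ∈ bd A) :
    (1 - h) ^ (A.length - k) * (kap p A k * Wk (pm p A) a' b k)
      ≤ wt p (A.drop k) * ∑ j ∈ bd A, kap p A j * Wk (pm p A) a' b j := by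
  refine Wk_le_of (isProb_pm h0 h1 hA) ha' hb (ren_pm h0 h1 hA) hk (fun n => ?_)
  rw [srv_pm p hA]
  exact kap_mul_pm_le_haz h0 h1 hA hh0 hh1 hP (bd_bounds hk).2 n

/-! ## straddling -/

/-- almost multiplicative survival function, abstract form -/
def Strad (e : ℝ) (s : ℕ → ℝ) : Prop := ∀ m n, s m * s n - s (m + n) ≤ e * (s m * s n)

theorem strad_surv {p h : ℝ} (h0 : 0 ≤ p) (h1 : p ≤ 1) {A : List Bool} (hA : A ≠ []) (hh0 : 0 ≤ h)
    (hh1 : h < 1) (hP : wt p A ≤ h * (1 - h) ^ (A.length - 1)) :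
    Strad ((A.length - 1 : ℕ) * (h / (1 - h))) (surv p A) := by
  intro m n
  have hz := haz_surv h0 h1 hA hh0 hh1.le hP
  have hnn := surv_nonneg h0 h1 A
  have hL := List.length_pos_iff.2 hA
  have h1h : 0 < 1 - h := by linarith
  refine (straddle h0 h1 A m n).trans ?_
  have key : ∀ j ∈ Icc 1 (A.length - 1), wt p A * (surv p A (m + j - A.length) * surv p A (n - j))
      ≤ h / (1 - h) * (surv p A m * surv p A n) := by
    intro j hj
    rw [mem_Icc] at hj
    have e1 := hz.iter_sub hh0 hh1.le hnn m (A.length - j)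
    rw [show m - (A.length - j) = m + j - A.length by omega] at e1
    have e2 := hz.iter_sub hh0 hh1.le hnn n j
    have e3 : ((1 - h) ^ (A.length - j) * surv p A (m + j - A.length))
        * ((1 - h) ^ j * surv p A (n - j)) ≤ surv p A m * surv p A n :=
      mul_le_mul e1 e2 (mul_nonneg (pow_nonneg h1h.le _) (hnn _)) (hnn _)
    have e4 : ((1 - h) ^ (A.length - j) * surv p A (m + j - A.length))
        * ((1 - h) ^ j * surv p A (n - j))
        = (1 - h) ^ A.length * (surv p A (m + j - A.length) * surv p A (n - j)) := by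
      rw [show A.length = (A.length - j) + j by omega, pow_add]
      simp only [Nat.sub_add_cancel (show j ≤ A.length by omega)]
      ring
    rw [e4] at e3
    have hX : 0 ≤ surv p A (m + j - A.length) * surv p A (n - j) := mul_nonneg (hnn _) (hnn _)
    have e5 : (1 - h) ^ A.length = (1 - h) ^ (A.length - 1) * (1 - h) := by
      rw [← pow_succ, Nat.sub_add_cancel hL]
    calc wt p A * (surv p A (m + j - A.length) * surv p A (n - j))
        ≤ (h * (1 - h) ^ (A.length - 1)) * (surv p A (m + j - A.length) * surv p A (n - j)) :=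
          mul_le_mul_of_nonneg_right hP hX
      _ = h / (1 - h) * ((1 - h) ^ A.length
            * (surv p A (m + j - A.length) * surv p A (n - j))) := by
          rw [e5]; field_simp
      _ ≤ _ := mul_le_mul_of_nonneg_left e3 (div_nonneg hh0 h1h.le)
  rw [mul_sum]
  refine (sum_le_sum key).trans (le_of_eq ?_)
  rw [sum_const, Nat.card_Icc, nsmul_eq_mul, show A.length - 1 + 1 - 1 = A.length - 1 by omega]
  ring

theorem strad_srv {p h : ℝ} (h0 : 0 ≤ p) (h1 : p ≤ 1) {A : List Bool} (hA : A ≠ []) (hh0 : 0 ≤ h)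
    (hh1 : h < 1) (hP : wt p A ≤ h * (1 - h) ^ (A.length - 1)) :
    Strad ((A.length - 1 : ℕ) * (h / (1 - h))) (srv (pm p A)) := by
  intro m n
  simp only [srv_pm p hA]
  exact strad_surv h0 h1 hA hh0 hh1 hP m n

end Coin
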