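import Pool.Agent.Lib.Coin.WinBd2

/-!
# Coin race, one-tail window, `c q ≥ p`: the numeric certificate of the chain lemma

The numbers `HiDat` and the inequalities `HiOK` between them; no words and no sequences occur.
-/

namespace Coin

open Finset

/-- the numbers of the certificate; all of them are upper bounds -/
structure HiDat where
  s : ℝ
  t : ℝ
  th : ℝ
  A : ℝ
  Aa : ℝ
  qa : ℝ
  MP : ℝ
  M1 : ℝ
  PA : ℝ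
  K : ℝ
  K2 : ℝ
  Qp : ℝ
  Qn : ℝ
  R : ℝ
  N : ℝ
  U : ℝ

namespace HiDat

variable (d : HiDat)

/-- base term of the reflection -/
def b : ℝ := d.PA * d.s + d.M1 * (d.U + d.N)

def w1 : ℝ := d.Aa * d.s + d.qa * d.N

def D1 (m : ℕ) : ℝ := d.b + (2 * m + 1) * (d.qa * d.U)

def D2 (m : ℕ) : ℝ := d.b + (2 * m + 1) * d.w1

/-- `-ds_n ≤ w0 + (2n+1) w1` for `n < c` -/
def w0 (m : ℕ) : ℝ := d.PA * (d.s + d.t) + d.M1 * (d.U + d.N) + d.MP * d.D1 m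

/-- `ds_n ≤ W` for `n < c` -/
def W (m c : ℕ) : ℝ :=
  d.PA * (d.s + d.t) + d.M1 * (d.U + d.N) + d.MP * d.D2 m + (2 * c - 1) * (d.qa * d.U)

/-- constant part of the bound of `-e_i` -/
def B (m : ℕ) : ℝ := d.A + d.Qp * d.s + d.Qn * d.t + d.K * (d.U + d.w0 m) + d.w1 * (d.K + d.K2)

/-- slope of the bound of `-e_i`; `A0 = q p^c`, `z = c - m'` -/
def C (A0 z : ℝ) : ℝ := d.A * d.s + A0 * (d.N + d.b + z * (d.qa * d.U)) + 2 * d.K * d.w1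

/-- bound of `f_x` -/
noncomputable def Sx (m : ℕ) (A0 z x : ℝ) : ℝ :=
  x * d.B m + d.C A0 z * (x * (z + 1) - x * (x + 1) / 2)

/-- bound of `f_(x+z+1)` -/
noncomputable def S (m : ℕ) (A0 z x : ℝ) : ℝ :=
  d.Sx m A0 z x + (z + 1) * d.B m + d.C A0 z * ((z - x) * (z + 1 - x) / 2)
    + A0 * d.U * (x * (x + 1) / 2)

/-- the final expression -/
noncomputable def Fin (p : ℝ) (m c m' : ℕ) (z x : ℝ) : ℝ :=
  (1 - x * d.s) * ((z + 1) - d.S m ((1 - p) * p ^ c) z x / (1 - (x + z + 1) * d.s))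
    - (p ^ c * (1 + (z + 1 - x) * d.s) + d.K * d.t / (1 - p))
      * ((m' : ℝ) - 1 + d.S m ((1 - p) * p ^ c) z x / (1 - (x + z + 1) * d.s))
    + d.Sx m ((1 - p) * p ^ c) z x
    - p ^ c * (z + 1 - x) * (d.N + d.b + (z + 1 - x) * (d.qa * d.U))
    - d.R * d.s
    - (d.K * (d.U + d.w0 m) + d.w1 * ((2 * (z + 1 - x) + 1) * d.K + d.K2)) / (1 - p)

end HiDat

/-- the certificate at `x = a + 1 - l`, `z = c - m'`, `A0 = (1-p) p^c` -/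
structure HiOKx (p : ℝ) (a m c m' x : ℕ) (d : HiDat) : Prop where
  th0 : 0 ≤ d.th
  hth : ((c : ℝ) - 1) * ((1 - p) * p ^ c) + Kc p c m'
      + ((2 * (c : ℝ) - 1) * ((1 - p) * p ^ a) + MP p a m) - 1 ≤ d.th * (1 - Kc p c m')
  hs0 : 0 < 1 - ((c - m' : ℕ) : ℝ) * ((1 - p) * p ^ c) - d.th * Kc p c m'
  hs : (1 - p) * p ^ c
    ≤ d.s * (1 - ((c - m' : ℕ) : ℝ) * ((1 - p) * p ^ c) - d.th * Kc p c m')
  ht : d.th * d.s ≤ d.t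
  hA : -psi p c ≤ d.A
  hAa : -psi p a ≤ d.Aa
  hqa : (1 - p) * p ^ a ≤ d.qa
  hMP : MP p a m ≤ d.MP
  hM1 : (1 - p) * p ^ a * ∑ j ∈ Icc 1 m, (1 / p ^ j - 1) ≤ d.M1
  hPA : ∑ j ∈ Icc 1 m, |psi p (a - j)| ≤ d.PA
  hK : Kc p c m' ≤ d.K
  hK2 : ∑ i ∈ range m', 2 * (i : ℝ) * ((1 - p) * p ^ (c - m' + i) - (1 - p) * p ^ c) ≤ d.K2
  hQp : ∑ i ∈ range m', max (psi p (c - m' + i) - psi p c) 0 ≤ d.Qp
  hQn : ∑ i ∈ range m', max (-(psi p (c - m' + i) - psi p c)) 0 ≤ d.Qn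
  hR : R1 p c m' ≤ d.R
  hN : 0 < d.N
  hU : 0 < d.U
  hN1 : d.A * (1 + ((c - m' : ℕ) : ℝ) * d.s)
      + (1 - p) * p ^ c * (((c - m' : ℕ) : ℝ) * d.N + ((c - m' : ℕ) : ℝ) * d.b
        + ((c - m' : ℕ) : ℝ) ^ 2 * (d.qa * d.U))
      + d.Qp * d.s + d.Qn * d.t + d.K * (d.U + d.w0 m)
      + d.w1 * ((2 * ((c - m' : ℕ) : ℝ) + 1) * d.K + d.K2) < d.N
  hN2 : d.A + (1 - p) * p ^ c * (((a : ℝ) + m' - 1) * d.U) + d.Qp * d.s + d.Qn * d.t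
      + d.K * (d.U + d.w0 m) + d.w1 * (d.K + d.K2) < d.N
  hU1 : (1 - p) * p ^ c * (((c - m' : ℕ) : ℝ) * d.U + ((c - m' : ℕ) : ℝ) * d.b
        + ((c - m' : ℕ) : ℝ) ^ 2 * d.w1)
      + d.Qn * d.s + d.Qp * d.t + d.K * (d.N + d.W m c) < d.U
  hU2 : (1 - p) * p ^ c * (((a : ℝ) + m' - 1) * d.N) + d.Qn * d.s + d.Qp * d.t
      + d.K * (d.N + d.W m c) < d.U
  hG0 : ((x : ℝ) + ((c - m' : ℕ) : ℝ) + 1) * d.s < 1
  hG : d.S m ((1 - p) * p ^ c) ((c - m' : ℕ) : ℝ) x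
      ≤ (((c - m' : ℕ) : ℝ) + 1) * (1 - ((x : ℝ) + ((c - m' : ℕ) : ℝ) + 1) * d.s)
  hRed : d.B m + (1 - p) * p ^ c * (((a : ℝ) - ((c - m' : ℕ) : ℝ) - 1) * d.U)
      + ((1 - p) * p ^ c + d.K * d.t) * (d.S m ((1 - p) * p ^ c) ((c - m' : ℕ) : ℝ) x
        / (1 - ((x : ℝ) + ((c - m' : ℕ) : ℝ) + 1) * d.s))
      ≤ 1 - (((c - m' : ℕ) : ℝ) + 1) * d.s
        - ((a : ℝ) - ((c - m' : ℕ) : ℝ) - 1) * ((1 - p) * p ^ c + d.K * d.t)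
  hF : 0 < d.Fin p m c m' ((c - m' : ℕ) : ℝ) x

end Coin
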