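import Pool.Agent.Lib.Coin.Hazard

/-!
# Coin race: additive losses and additive straddling (module M5a)

With `P = wt p A`, `L = |A|` and `u = L P`:

* `κ_k W_k ≤ P(rest) (Om + u (1 + G))`, hence `≤ P(rest) (1 + 2 u) Om` at a tie,
* `Om_B ≤ 1/2 + (L - 1/2) P (1 + u)² / 2` at a tie.
-/

namespace Coin

open Finset

/-! ## decrease of the survival function -/

theorem surv_step {p : ℝ} (h0 : 0 ≤ p) (h1 : p ≤ 1) {A : List Bool} (hA : A ≠ []) (n : ℕ) :
    surv p A n ≤ surv p A (n + 1) + wt p A := by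
  have e1 := pm_le h0 h1 hA (n + 1)
  rw [pm_succ] at e1
  have e2 := surv_le_one h0 h1 A (n + 1 - A.length)
  have e3 := mul_le_mul_of_nonneg_left e2 (wt_nonneg h0 h1 A)
  linarith

theorem surv_sub_le {p : ℝ} (h0 : 0 ≤ p) (h1 : p ≤ 1) {A : List Bool} (hA : A ≠ []) (n l : ℕ) :
    surv p A (n - l) ≤ surv p A n + l * wt p A := by
  have hw := wt_nonneg h0 h1 A
  induction l with
  | zero => simp
  | succ l ih =>
    have e1 : surv p A (n - (l + 1)) ≤ surv p A (n - l) + wt p A := by
      rcases Nat.eq_zero_or_pos (n - l) with h | h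
      · rw [h, show n - (l + 1) = 0 by omega]; linarith
      · have := surv_step h0 h1 hA (n - (l + 1))
        rwa [show n - (l + 1) + 1 = n - l by omega] at this
    push_cast
    linarith

/-! ## losses -/

/-- a pointwise bound with an additive constant -/
theorem Wk_le_add {K : Finset ℕ} {kap a a' b : ℕ → ℝ} (ha : IsProb a) (ha' : IsProb a')
    (hb : IsProb b) (ra : Ren K kap a) {k : ℕ} (hk : k ∈ K) {C D : ℝ}
    (h : ∀ n, kap k * a (n + k) ≤ C * srv a n + D) :
    kap k * Wk a a' b k ≤ C * (∑ j ∈ K, kap j * Wk a a' b j) + D * (1 + Gs a' b) := by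
  have key : ∀ n, kap k * conv a a' (n + k)
      ≤ C * (∑ j ∈ K, kap j * conv a a' (n + j)) + D * (1 - srv a' n) := by
    intro n
    have e := conv_mono_left h ha'.nonneg n
    rw [conv_const_mul, conv_shift (ra.van k hk)] at e
    refine e.trans (le_of_eq ?_)
    have e2 : conv (fun i => C * srv a i + D) a' n
        = C * conv (srv a) a' n + D * conv (fun _ => 1) a' n := by
      unfold conv
      rw [mul_sum, mul_sum, ← sum_add_distrib]
      exact sum_congr rfl (fun _ _ => by ring)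
    have e3 : conv (fun _ => (1 : ℝ)) a' n = 1 - srv a' n := by
      rw [conv_comm, conv_eq_range]
      simp [srv]
    rw [e2, e3, ra.conv_srv]
  have h1 : HasSum (fun n => kap k * (b n * (conv a a' (n + k) + conv a a' (n + k - 1))))
      (kap k * Wk a a' b k) := (hasSum_W ha ha' hb k).mul_left (kap k)
  have h2 : HasSum (fun n => C * ∑ j ∈ K, kap j * (b n * (conv a a' (n + j)
      + conv a a' (n + j - 1)))) (C * ∑ j ∈ K, kap j * Wk a a' b j) :=
    (hasSum_sum (fun j _ => (hasSum_W ha ha' hb j).mul_left (kap j))).mul_left C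
  have h3 : HasSum (fun n => D * (2 * b n - b n * (srv a' n + tl a' n)))
      (D * (2 * 1 - (1 - Gs a' b))) :=
    ((hb.hasSum.mul_left 2).sub (hasSum_one_sub ha' hb)).mul_left D
  have h4 := hasSum_le (fun n => ?_) h1 (h2.add h3)
  · refine h4.trans (le_of_eq ?_)
    ring
  rcases Nat.eq_zero_or_pos n with hn | hn
  · subst hn
    simp [hb.zero]
  · have e1 := mul_le_mul_of_nonneg_left (key n) (hb.nonneg n)
    have e2 := mul_le_mul_of_nonneg_left (key (n - 1)) (hb.nonneg n)
    rw [← tl_eq_srv hn] at e2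
    have e3 : C * ∑ j ∈ K, kap j * (b n * (conv a a' (n + j) + conv a a' (n + j - 1)))
        = b n * (C * ∑ j ∈ K, kap j * conv a a' (n + j))
          + b n * (C * ∑ j ∈ K, kap j * conv a a' (n - 1 + j)) := by
      rw [← mul_add, ← mul_add, ← sum_add_distrib, mul_left_comm, mul_sum (a := b n)]
      congr 1
      refine sum_congr rfl (fun j hj => ?_)
      rw [show n - 1 + j = n + j - 1 by omega]
      ring
    rw [e3]
    rw [show n - 1 + k = n + k - 1 by omega] at e2
    calc kap k * (b n * (conv a a' (n + k) + conv a a' (n + k - 1)))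
        = b n * (kap k * conv a a' (n + k)) + b n * (kap k * conv a a' (n + k - 1)) := by ring
      _ ≤ _ := by linarith

/-- loss at the border `k`, additive form -/
theorem kap_mul_Wk_le_add {p : ℝ} (h0 : 0 < p) (h1 : p < 1) {A : List Bool} (hA : A ≠ [])
    {a' b : ℕ → ℝ} (ha' : IsProb a') (hb : IsProb b) {k : ℕ} (hk : k ∈ bd A) :
    kap p A k * Wk (pm p A) a' b k
      ≤ wt p (A.drop k) * (∑ j ∈ bd A, kap p A j * Wk (pm p A) a' b j)
        + wt p (A.drop k) * (A.length * wt p A) * (1 + Gs a' b) := by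
  refine Wk_le_add (isProb_pm h0 h1 hA) ha' hb (ren_pm h0 h1 hA) hk (fun n => ?_)
  rw [srv_pm p hA]
  have hk2 := (bd_bounds hk).2
  have e1 := kap_mul_pm_le h0 h1 hA k n
  rw [show n + k - A.length = n - (A.length - k) by omega] at e1
  have e2 := surv_sub_le h0.le h1.le hA n (A.length - k)
  have hw := wt_nonneg h0.le h1.le (A.drop k)
  have hP := wt_nonneg h0.le h1.le A
  have e3 : (((A.length - k : ℕ) : ℝ)) * wt p A ≤ A.length * wt p A := by
    refine mul_le_mul_of_nonneg_right ?_ hP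
    exact_mod_cast Nat.sub_le _ _
  have e4 := mul_le_mul_of_nonneg_left (e2.trans (add_le_add le_rfl e3)) hw
  linarith

/-- loss at the border `k` at a tie -/
theorem kap_mul_Wk_le_tie {p : ℝ} (h0 : 0 < p) (h1 : p < 1) {A B : List Bool} (hA : A ≠ [])
    (hB : B ≠ []) (hG : G p A B = 0) {k : ℕ} (hk : k ∈ bd A) :
    kap p A k * Wk (pm p A) (pm p A) (pm p B) k
      ≤ wt p (A.drop k) * ((1 + 2 * (A.length * wt p A))
        * ∑ j ∈ bd A, kap p A j * Wk (pm p A) (pm p A) (pm p B) j) := by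
  have e1 := kap_mul_Wk_le_add h0 h1 hA (isProb_pm h0 h1 hA) (isProb_pm h0 h1 hB) hk
  rw [G_eq_Gs p hA hB] at hG
  rw [hG] at e1
  have e2 : 1 / 2 ≤ ∑ j ∈ bd A, kap p A j * Wk (pm p A) (pm p A) (pm p B) j := by
    rw [Om_pm h0 h1 hA hB]
    have := Om_pm_ge h0 h1 hA hB
    rw [G_eq_Gs p hA hB, hG] at this
    rw [G_eq_Gs p hA hB, hG]
    linarith
  set O := ∑ j ∈ bd A, kap p A j * Wk (pm p A) (pm p A) (pm p B) j
  have hw := wt_nonneg h0.le h1.le (A.drop k)
  have hP := wt_nonneg h0.le h1.le A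
  have hL : (0 : ℝ) ≤ A.length := Nat.cast_nonneg _
  have e3 := mul_le_mul_of_nonneg_left e2 (mul_nonneg hw (mul_nonneg hL hP))
  linarith

/-! ## straddling -/

theorem sum_lin (α β P l : ℝ) (N : ℕ) :
    ∑ j ∈ Icc 1 N, (α + (l - j) * P) * (β + j * P)
      = N * (α * β) + α * P * (N * (N + 1) / 2) + β * P * (l * N - N * (N + 1) / 2)
        + P ^ 2 * (l * (N * (N + 1) / 2) - N * (N + 1) * (2 * N + 1) / 6) := by
  induction N with
  | zero => simp
  | succ N ih =>
    rw [sum_Icc_succ_top (by omega), ih]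
    push_cast
    ring

/-- additive straddle bound -/
theorem straddle_add {p : ℝ} (h0 : 0 ≤ p) (h1 : p ≤ 1) {A : List Bool} (hA : A ≠ []) (m n : ℕ) :
    surv p A m * surv p A n - surv p A (m + n)
      ≤ (A.length - 1) * wt p A * ((surv p A m + A.length * wt p A / 2)
        * (surv p A n + A.length * wt p A / 2)) := by
  have hL := List.length_pos_iff.2 hA
  have hP := wt_nonneg h0 h1 A
  have hnn := surv_nonneg h0 h1 A
  set L : ℝ := (A.length : ℝ) with hLdef
  have hL1 : (1 : ℝ) ≤ L := by rw [hLdef]; exact_mod_cast hL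
  have hN : ((A.length - 1 : ℕ) : ℝ) = L - 1 := by rw [Nat.cast_sub hL]; simp [hLdef]
  have e1 := straddle h0 h1 A m n
  have e2 : ∑ j ∈ Icc 1 (A.length - 1), surv p A (m + j - A.length) * surv p A (n - j)
      ≤ ∑ j ∈ Icc 1 (A.length - 1), (surv p A m + (L - j) * wt p A) * (surv p A n + j * wt p A) := by
    refine sum_le_sum (fun j hj => ?_)
    rw [mem_Icc] at hj
    have f1 := surv_sub_le h0 h1 hA m (A.length - j)
    rw [show m - (A.length - j) = m + j - A.length by omega,
      Nat.cast_sub (show j ≤ A.length by omega), ← hLdef] at f1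
    have f2 := surv_sub_le h0 h1 hA n j
    exact mul_le_mul f1 f2 (hnn _) (le_trans (hnn _) f1)
  rw [sum_lin, hN] at e2
  have e3 := mul_le_mul_of_nonneg_left e2 hP
  refine e1.trans (e3.trans ?_)
  have hLL : 0 ≤ (L - 1) * (L - 2) := by
    rcases Nat.lt_or_ge A.length 2 with h | h
    · have : L = 1 := by
        rw [hLdef]; exact_mod_cast (show A.length = 1 by omega)
      rw [this]; norm_num
    · have : (2 : ℝ) ≤ L := by rw [hLdef]; exact_mod_cast h
      exact mul_nonneg (by linarith) (by linarith)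
  have e4 : 0 ≤ wt p A * (wt p A ^ 2 * (L * ((L - 1) * (L - 2)) / 12)) :=
    mul_nonneg hP (mul_nonneg (sq_nonneg _) (div_nonneg (mul_nonneg (by linarith) hLL)
      (by norm_num)))
  nlinarith

/-- `P(B > x) + P(B ≥ x)` is almost supermultiplicative, additive form -/
theorem bar_ge_add {b : ℕ → ℝ} (hb : IsProb b) {P L u : ℝ} (hP : 0 ≤ P) (hL : 1 ≤ L)
    (hu : u = L * P)
    (hs : ∀ m n, srv b m * srv b n - srv b (m + n)
      ≤ (L - 1) * P * ((srv b m + u / 2) * (srv b n + u / 2)))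
    (hpm : ∀ n, b n ≤ P * (srv b n + u)) (m n : ℕ) :
    (srv b m + tl b m) * (srv b n + tl b n) / 2
      - (L - 1 / 2) * P * ((srv b m + tl b m + u) * (srv b n + tl b n + u)) / 2
      ≤ srv b (m + n) + tl b (m + n) := by
  have hu0 : 0 ≤ u := by rw [hu]; exact mul_nonneg (by linarith) hP
  have hT0 : ∀ n, 0 ≤ srv b n + tl b n := fun n => add_nonneg (hb.srv_nonneg n) (hb.tl_nonneg n)
  have hsz : srv b 0 + tl b 0 = 2 := by simp [srv, tl, hb.zero]; norm_num
  have hE : 0 ≤ (L - 1 / 2) * P * ((srv b m + tl b m + u) * (srv b n + tl b n + u)) / 2 :=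
    div_nonneg (mul_nonneg (mul_nonneg (by linarith) hP)
      (mul_nonneg (by linarith [hT0 m]) (by linarith [hT0 n]))) (by norm_num)
  rcases Nat.eq_zero_or_pos m with hm | hm
  · subst hm
    rw [hsz, zero_add] at *
    linarith
  rcases Nat.eq_zero_or_pos n with hn | hn
  · subst hn
    rw [hsz, add_zero] at *
    linarith
  have q1 := tl_succ b m
  have q2 := tl_succ b n
  rw [← srv_eq_tl] at q1 q2
  have p1 := hpm m
  have p2 := hpm n
  have a1 := hs m n
  have a2 := hs (m - 1) n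
  have a3 := hs m (n - 1)
  rw [show m - 1 + n = m + n - 1 by omega] at a2
  rw [show m + (n - 1) = m + n - 1 by omega] at a3
  rw [← tl_eq_srv hm, ← tl_eq_srv (show 1 ≤ m + n by omega)] at a2
  rw [← tl_eq_srv hn, ← tl_eq_srv (show 1 ≤ m + n by omega)] at a3
  have c1 := hb.srv_nonneg m
  have c2 := hb.srv_nonneg n
  have b1 := hb.nonneg m
  have b2 := hb.nonneg n
  set α := srv b m
  set β := srv b n
  set x := b m
  set y := b n
  rw [q1, q2]
  rw [q1] at a2
  rw [q2] at a3
  -- tie part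
  have t1 : x * (y + 2 * β) ≤ P * (α + u) * (y + 2 * β) := mul_le_mul_of_nonneg_right p1 (by linarith)
  have t2 : y * (x + 2 * α) ≤ P * (β + u) * (x + 2 * α) := mul_le_mul_of_nonneg_right p2 (by linarith)
  have hLP : 0 ≤ (L - 1) * P := mul_nonneg (by linarith) hP
  have k1 : 0 ≤ (L - 1) * P * (x * y) := mul_nonneg hLP (mul_nonneg b1 b2)
  have k2 : 0 ≤ (L - 1) * P * (x * (β + u / 2)) := mul_nonneg hLP (mul_nonneg b1 (by linarith))
  have k3 : 0 ≤ (L - 1) * P * (y * (α + u / 2)) := mul_nonneg hLP (mul_nonneg b2 (by linarith))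
  have k4 : 0 ≤ P * (x * y) := mul_nonneg hP (mul_nonneg b1 b2)
  have k5 : 0 ≤ P * (x * β) := mul_nonneg hP (mul_nonneg b1 c2)
  have k6 : 0 ≤ P * (y * α) := mul_nonneg hP (mul_nonneg b2 c1)
  have k7 : 0 ≤ P * (u * x) := mul_nonneg hP (mul_nonneg hu0 b1)
  have k8 : 0 ≤ P * (u * y) := mul_nonneg hP (mul_nonneg hu0 b2)
  have k9 : 0 ≤ P * u ^ 2 := mul_nonneg hP (sq_nonneg u)
  nlinarith

/-- upper bound for `Om_A`, additive form -/
theorem Om_le_add {a b : ℕ → ℝ} (ha : IsProb a) (hb : IsProb b) {c u : ℝ}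
    (h : ∀ m n, (srv b m + tl b m) * (srv b n + tl b n) / 2
      - c * ((srv b m + tl b m + u) * (srv b n + tl b n + u)) / 2 ≤ srv b (m + n) + tl b (m + n)) :
    Gs a b - Gs (conv a a) b
      ≤ 1 + Gs a b - (1 + Gs a b) ^ 2 / 2 + c * (1 + Gs a b + u) ^ 2 / 2 := by
  have haa := ha.conv ha
  have e1 := one_sub_Gs hb haa
  have e2 := one_sub_Gs hb ha
  rw [Gs_antisymm b (conv a a)] at e1
  rw [Gs_antisymm b a] at e2
  set T : ℕ → ℝ := fun n => srv b n + tl b n with hT
  have hT0 : ∀ n, 0 ≤ T n := fun n => add_nonneg (hb.srv_nonneg n) (hb.tl_nonneg n)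
  have hT2 : ∀ n, T n ≤ 2 := fun n => by
    have := hb.srv_le_one n; have := hb.tl_le_one n; simp only [hT]; linarith
  have hsa : Summable (fun n => a n * T n) :=
    Summable.of_nonneg_of_le (fun n => mul_nonneg (ha.nonneg n) (hT0 n))
      (fun n => mul_le_mul_of_nonneg_left (hT2 n) (ha.nonneg n)) (ha.summable.mul_right 2)
  have hsu : Summable (fun n => a n * (T n + u)) := by
    have := hsa.add (ha.summable.mul_right u)
    exact this.congr (fun n => by ring)
  have hna : Summable (fun n => ‖a n * T n‖) := hsa.norm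
  have hnu : Summable (fun n => ‖a n * (T n + u)‖) := hsu.norm
  have hprod := tsum_mul_tsum_eq_tsum_sum_antidiagonal_of_summable_norm hna hna
  have hprodu := tsum_mul_tsum_eq_tsum_sum_antidiagonal_of_summable_norm hnu hnu
  have hsc : Summable (fun n => ∑ x ∈ antidiagonal n, a x.1 * T x.1 * (a x.2 * T x.2)) :=
    (summable_norm_sum_mul_antidiagonal_of_summable_norm hna hna).of_norm
  have hscu : Summable (fun n => ∑ x ∈ antidiagonal n,
      a x.1 * (T x.1 + u) * (a x.2 * (T x.2 + u))) :=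
    (summable_norm_sum_mul_antidiagonal_of_summable_norm hnu hnu).of_norm
  have hsl : Summable (fun n => conv a a n * T n) :=
    Summable.of_nonneg_of_le (fun n => mul_nonneg (haa.nonneg n) (hT0 n))
      (fun n => mul_le_mul_of_nonneg_left (hT2 n) (haa.nonneg n)) (haa.summable.mul_right 2)
  have key : ∑' n, ((1 / 2) * (∑ x ∈ antidiagonal n, a x.1 * T x.1 * (a x.2 * T x.2))
      - c / 2 * ∑ x ∈ antidiagonal n, a x.1 * (T x.1 + u) * (a x.2 * (T x.2 + u)))
      ≤ ∑' n, conv a a n * T n := by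
    refine ((hsc.mul_left _).sub (hscu.mul_left _)).tsum_le_tsum (fun n => ?_) hsl
    unfold conv
    rw [sum_mul, mul_sum, mul_sum, ← sum_sub_distrib]
    refine sum_le_sum (fun x hx => ?_)
    have hx' : x.1 + x.2 = n := mem_antidiagonal.mp hx
    have h1 := h x.1 x.2
    rw [hx'] at h1
    have h2 : 0 ≤ a x.1 * a x.2 := mul_nonneg (ha.nonneg _) (ha.nonneg _)
    calc 1 / 2 * (a x.1 * T x.1 * (a x.2 * T x.2))
          - c / 2 * (a x.1 * (T x.1 + u) * (a x.2 * (T x.2 + u)))
        = a x.1 * a x.2 * (T x.1 * T x.2 / 2 - c * ((T x.1 + u) * (T x.2 + u)) / 2) := by ring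
      _ ≤ a x.1 * a x.2 * T n := mul_le_mul_of_nonneg_left h1 h2
  rw [(hsc.mul_left _).tsum_sub (hscu.mul_left _), tsum_mul_left, tsum_mul_left, ← hprod,
    ← hprodu, ← e1] at key
  have hTu : ∑' n, a n * (T n + u) = 1 + Gs a b + u := by
    have : ∑' n, a n * (T n + u) = (∑' n, a n * T n) + ∑' n, a n * u := by
      rw [← hsa.tsum_add (ha.summable.mul_right u)]
      exact tsum_congr (fun n => by ring)
    rw [this, tsum_mul_right, ha.tsum, one_mul, ← e2]
    ring
  rw [hTu, ← e2] at key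
  nlinarith

/-- excess of `A`: `L` is the length and `P` the weight of the word `A` -/
noncomputable def exc (p : ℝ) (A : List Bool) : ℝ :=
  ((A.length : ℝ) - 1 / 2) * wt p A * (1 + A.length * wt p A) ^ 2

theorem exc_nonneg {p : ℝ} (h0 : 0 ≤ p) (h1 : p ≤ 1) {A : List Bool} (hA : A ≠ []) :
    0 ≤ exc p A := by
  have hLr : (1 : ℝ) ≤ A.length := by exact_mod_cast List.length_pos_iff.2 hA
  exact mul_nonneg (mul_nonneg (by linarith) (wt_nonneg h0 h1 A)) (sq_nonneg _)

/-- upper bound for `Om_B` at a tie, the excess is controlled by the word `A` -/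
theorem Om_pm_le_exc {p : ℝ} (h0 : 0 < p) (h1 : p < 1) {A B : List Bool} (hA : A ≠ [])
    (hB : B ≠ []) (hG : G p A B = 0) :
    ∑ k ∈ bd B, kap p B k * Wk (pm p B) (pm p B) (pm p A) k ≤ 1 / 2 + exc p A / 2 := by
  have pA := isProb_pm h0 h1 hA
  have pB := isProb_pm h0 h1 hB
  have hP := wt_nonneg h0.le h1.le A
  have hLr : (1 : ℝ) ≤ A.length := by exact_mod_cast List.length_pos_iff.2 hA
  rw [Om_pm h0 h1 hB hA, G_eq_Gs p hB hA]
  have hG' : Gs (pm p B) (pm p A) = 0 := by
    rw [G_eq_Gs p hA hB, Gs_antisymm] at hG; linarith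
  have hpm : ∀ n, pm p A n ≤ wt p A * (srv (pm p A) n + A.length * wt p A) := by
    intro n
    have e1 := pm_le h0.le h1.le hA n
    have e2 := mul_le_mul_of_nonneg_left (surv_sub_le h0.le h1.le hA n A.length) hP
    rw [srv_pm p hA]
    exact e1.trans e2
  have hs : ∀ m n, srv (pm p A) m * srv (pm p A) n - srv (pm p A) (m + n)
      ≤ ((A.length : ℝ) - 1) * wt p A * ((srv (pm p A) m + A.length * wt p A / 2)
        * (srv (pm p A) n + A.length * wt p A / 2)) := by
    intro m n
    simp only [srv_pm p hA]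
    exact straddle_add h0.le h1.le hA m n
  have hbar := bar_ge_add pA hP hLr rfl hs hpm
  have hle := Om_le_add pB pA hbar
  rw [hG'] at hle
  rw [hG']
  unfold exc
  linarith

end Coin
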