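import Pool.Agent.Lib.Coin.Lam2

/-!
# Coin race: the real inequality for the excess (module M5a)

`(L - 1/2) P (1 + L P)² ((a-1) q - (b+1) p + 3/8) < 5/12` for `P = p^a q^b`, `L = a + b`,
`a ≥ 2`, `b ≥ 1`.
-/

namespace Coin

open Finset

/-- quartic Taylor polynomial of the exponential function -/
noncomputable def E4 (x : ℝ) : ℝ := 1 + x + x ^ 2 / 2 + x ^ 3 / 6 + x ^ 4 / 24

theorem E4_le_exp {x : ℝ} (hx : 0 ≤ x) : E4 x ≤ Real.exp x := by
  have h := Real.sum_le_exp_of_nonneg hx 5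
  simp only [sum_range_succ, sum_range_zero, Nat.factorial] at h
  unfold E4
  norm_num at h
  linarith

theorem E4_pos {x : ℝ} (hx : 0 ≤ x) : 0 < E4 x := by
  unfold E4; positivity

/-- `p^a ≤ exp (- a q (1 + q/2))` -/
theorem pow_le_exp_neg {p : ℝ} (h0 : 0 < p) (h1 : p < 1) (a : ℕ) :
    p ^ a * Real.exp (a * (1 - p) * (1 + (1 - p) / 2)) ≤ 1 := by
  have h := one_sub_le_log h0 h1
  have hlog : (1 - p) * (1 + (1 - p) / 2) ≤ -Real.log p := by
    have h2 : (1 - p) * (2 / (1 + p)) ≤ -Real.log p := by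
      rw [mul_div_assoc', div_le_iff₀ (by linarith)]
      linarith
    refine le_trans (mul_le_mul_of_nonneg_left ?_ (by linarith)) h2
    rw [le_div_iff₀ (by linarith)]
    nlinarith [sq_nonneg (1 - p)]
  have e1 : p ^ a = Real.exp (a * Real.log p) := by
    rw [← Real.log_pow, Real.exp_log (pow_pos h0 a)]
  rw [e1, ← Real.exp_add, Real.exp_le_one_iff]
  have := mul_le_mul_of_nonneg_left hlog (Nat.cast_nonneg (α := ℝ) a)
  linarith

theorem polyA {s : ℝ} (hs : 0 ≤ s) :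
    (2 + s) * (E4 (2 + s) + (2 + s)) ^ 2 * ((2 + s) - 13 / 8) < 5 / 12 * E4 (2 + s) ^ 3 := by
  have key : 12 * (5 / 12 * E4 (2 + s) ^ 3)
      - 12 * ((2 + s) * (E4 (2 + s) + (2 + s)) ^ 2 * ((2 + s) - 13 / 8))
      = 986 + 2317 / 2 * s + 2557 / 6 * s ^ 2 + 4118 / 27 * s ^ 3 + 5765 / 24 * s ^ 4
        + 228 * s ^ 5 + 4465 / 36 * s ^ 6 + 2113 / 48 * s ^ 7 + 343 / 32 * s ^ 8
        + 2077 / 1152 * s ^ 9 + 77 / 384 * s ^ 10 + 5 / 384 * s ^ 11 + 5 / 13824 * s ^ 12 := by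
    unfold E4; ring
  have : 0 < 12 * (5 / 12 * E4 (2 + s) ^ 3)
      - 12 * ((2 + s) * (E4 (2 + s) + (2 + s)) ^ 2 * ((2 + s) - 13 / 8)) := by
    rw [key]; positivity
  linarith

theorem polyB {r : ℝ} (h0 : 0 ≤ r) (h1 : r ≤ 1) :
    7 / 6 * (1 + r) * (4 / 3 * (1 + r) - 13 / 8) * (E4 (1 + r) + 1 + (1 + r) / 2) ^ 2
      < 5 / 12 * (1 + (1 + r) ^ 2 / 6) * E4 (1 + r) ^ 3 := by
  have key : 5 / 12 * (1 + (1 + r) ^ 2 / 6) * E4 (1 + r) ^ 3
      - 7 / 6 * (1 + r) * (4 / 3 * (1 + r) - 13 / 8) * (E4 (1 + r) + 1 + (1 + r) / 2) ^ 2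
      = (15610063 / 995328 + 9371563 / 497664 * r - 1950845 / 995328 * r ^ 2
        - 1928137 / 248832 * r ^ 3) + (73831 / 995328 * r ^ 4 + 2833819 / 497664 * r ^ 5
        + 1880341 / 331776 * r ^ 6 + 135553 / 41472 * r ^ 7 + 435847 / 331776 * r ^ 8
        + 194921 / 497664 * r ^ 9 + 87257 / 995328 * r ^ 10 + 3595 / 248832 * r ^ 11
        + 1685 / 995328 * r ^ 12 + 65 / 497664 * r ^ 13 + 5 / 995328 * r ^ 14) := by
    unfold E4; ring
  have h2 : r ^ 2 ≤ 1 := pow_le_one₀ h0 h1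
  have h3 : r ^ 3 ≤ 1 := pow_le_one₀ h0 h1
  have e1 : 0 < 15610063 / 995328 + 9371563 / 497664 * r - 1950845 / 995328 * r ^ 2
        - 1928137 / 248832 * r ^ 3 := by linarith
  have e2 : 0 ≤ 73831 / 995328 * r ^ 4 + 2833819 / 497664 * r ^ 5
        + 1880341 / 331776 * r ^ 6 + 135553 / 41472 * r ^ 7 + 435847 / 331776 * r ^ 8
        + 194921 / 497664 * r ^ 9 + 87257 / 995328 * r ^ 10 + 3595 / 248832 * r ^ 11
        + 1685 / 995328 * r ^ 12 + 65 / 497664 * r ^ 13 + 5 / 995328 * r ^ 14 := by positivity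
  linarith

/-- the core: `(t + q/2) z (1 + (t+q) z)² (t + q - 13/8) < 5/12` -/
theorem coreJ {t q z : ℝ} (hq0 : 0 < q) (hq1 : q < 1) (hqt : 3 * q ≤ t) (hz0 : 0 < z)
    (hz : z * Real.exp (t * (1 + q / 2)) ≤ 1) :
    (t + q / 2) * z * (1 + (t + q) * z) ^ 2 * (t + q - 13 / 8) < 5 / 12 := by
  have ht0 : 0 < t := by linarith
  rcases le_or_gt (t + q - 13 / 8) 0 with hV | hV
  · have : (t + q / 2) * z * (1 + (t + q) * z) ^ 2 * (t + q - 13 / 8) ≤ 0 :=
      mul_nonpos_of_nonneg_of_nonpos (by positivity) hV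
    linarith
  rcases le_or_gt 2 t with ht | ht
  · -- large `t`
    set x := t * (1 + q / 2) with hx
    have hx2 : 2 ≤ x := by rw [hx]; nlinarith
    have hxt : t + q ≤ x := by rw [hx]; nlinarith
    have hE := E4_le_exp (show 0 ≤ x by linarith)
    have hEp := E4_pos (show 0 ≤ x by linarith)
    have hzE : z ≤ 1 / E4 x := by
      rw [le_div_iff₀ hEp]
      exact (mul_le_mul_of_nonneg_left hE hz0.le).trans hz
    have hA := polyA (show 0 ≤ x - 2 by linarith)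
    rw [show 2 + (x - 2) = x by ring] at hA
    calc (t + q / 2) * z * (1 + (t + q) * z) ^ 2 * (t + q - 13 / 8)
        ≤ x * (1 / E4 x) * (1 + x * (1 / E4 x)) ^ 2 * (x - 13 / 8) := by
          have h1 : t + q / 2 ≤ x := by linarith
          have h2 : t + q - 13 / 8 ≤ x - 13 / 8 := by linarith
          gcongr
      _ = x * (E4 x + x) ^ 2 * (x - 13 / 8) / E4 x ^ 3 := by
          field_simp
      _ < 5 / 12 := by
          rw [div_lt_iff₀ (pow_pos hEp 3)]
          exact hA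
  · -- small `t`
    have hE := E4_le_exp ht0.le
    have hEp := E4_pos ht0.le
    have hD : 1 + t * q / 2 ≤ Real.exp (t * q / 2) := by
      have := Real.add_one_le_exp (t * q / 2)
      linarith
    have hDp : 0 < 1 + t * q / 2 := by positivity
    have hzE : z ≤ 1 / (E4 t * (1 + t * q / 2)) := by
      rw [le_div_iff₀ (by positivity)]
      refine (mul_le_mul_of_nonneg_left ?_ hz0.le).trans hz
      rw [show t * (1 + q / 2) = t + t * q / 2 by ring, Real.exp_add]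
      exact mul_le_mul hE hD hDp.le (Real.exp_pos _).le
    have hB := polyB (show 0 ≤ t - 1 by linarith) (by linarith)
    rw [show 1 + (t - 1) = t by ring] at hB
    have hU : (t + q) * z ≤ (1 + t / 2) / E4 t := by
      refine (mul_le_mul_of_nonneg_left hzE (by positivity)).trans ?_
      rw [mul_one_div, div_le_div_iff₀ (by positivity) hEp]
      have : t + q ≤ (1 + t / 2) * (1 + t * q / 2) := by
        nlinarith [mul_nonneg (show 0 ≤ 1 - t / 2 by linarith) (show 0 ≤ 1 - q by linarith),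
          mul_nonneg (mul_nonneg ht0.le ht0.le) hq0.le]
      calc (t + q) * E4 t ≤ (1 + t / 2) * (1 + t * q / 2) * E4 t :=
            mul_le_mul_of_nonneg_right this hEp.le
        _ = (1 + t / 2) * (E4 t * (1 + t * q / 2)) := by ring
    have hW : (t + q / 2) * z * (t + q - 13 / 8)
        ≤ 7 / 6 * t * (4 / 3 * t - 13 / 8) / (1 + t ^ 2 / 6) / E4 t := by
      have hVq : (t + q - 13 / 8) / (1 + t * q / 2) ≤ (4 / 3 * t - 13 / 8) / (1 + t ^ 2 / 6) := by
        rw [div_le_div_iff₀ hDp (by positivity)]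
        nlinarith [mul_nonneg (show 0 ≤ t / 3 - q by linarith)
          (show 0 ≤ 1 - t ^ 2 / 2 + 13 * t / 16 by nlinarith)]
      have h1 : (t + q / 2) * z * (t + q - 13 / 8)
          ≤ (7 / 6 * t) * (1 / (E4 t * (1 + t * q / 2))) * (t + q - 13 / 8) := by
        have : t + q / 2 ≤ 7 / 6 * t := by linarith
        gcongr
      refine h1.trans ?_
      have h2 : (7 / 6 * t) * (1 / (E4 t * (1 + t * q / 2))) * (t + q - 13 / 8)
          = (7 / 6 * t) * ((t + q - 13 / 8) / (1 + t * q / 2)) / E4 t := by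
        field_simp
      rw [h2, mul_div_assoc (7 / 6 * t) (4 / 3 * t - 13 / 8)]
      gcongr
    have hV2 : 0 < 4 / 3 * t - 13 / 8 := by linarith
    calc (t + q / 2) * z * (1 + (t + q) * z) ^ 2 * (t + q - 13 / 8)
        = (t + q / 2) * z * (t + q - 13 / 8) * (1 + (t + q) * z) ^ 2 := by ring
      _ ≤ (7 / 6 * t * (4 / 3 * t - 13 / 8) / (1 + t ^ 2 / 6) / E4 t)
          * (1 + (1 + t / 2) / E4 t) ^ 2 := by
          have : 0 ≤ (t + q) * z := by positivity
          gcongr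
      _ = 7 / 6 * t * (4 / 3 * t - 13 / 8) * (E4 t + 1 + t / 2) ^ 2
          / ((1 + t ^ 2 / 6) * E4 t ^ 3) := by
          field_simp
          ring
      _ < 5 / 12 := by
          rw [div_lt_iff₀ (by positivity)]
          linarith

/-- left side of the inequality -/
noncomputable def Jf (p : ℝ) (a b : ℕ) : ℝ :=
  ((a : ℝ) + b - 1 / 2) * (p ^ a * (1 - p) ^ b) * (1 + ((a : ℝ) + b) * (p ^ a * (1 - p) ^ b)) ^ 2
    * (((a : ℝ) - 1) * (1 - p) - ((b : ℝ) + 1) * p + 3 / 8)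

theorem Jf_two_one {p : ℝ} (h0 : 0 < p) (h1 : p < 1) : Jf p 2 1 < 5 / 12 := by
  unfold Jf
  norm_num
  rcases le_or_gt (1 - p - 2 * p + 3 / 8) 0 with hV | hV
  · have : 5 / 2 * (p ^ 2 * (1 - p)) * (1 + 3 * (p ^ 2 * (1 - p))) ^ 2
        * (1 - p - 2 * p + 3 / 8) ≤ 0 := by
      refine mul_nonpos_of_nonneg_of_nonpos ?_ hV
      have : 0 ≤ 1 - p := by linarith
      positivity
    linarith
  · have hq : 0 ≤ 1 - p := by linarith
    have e1 : p * (1 - p) ≤ 1 / 4 := by nlinarith [sq_nonneg (2 * p - 1)]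
    have e2 : p * (1 - p - 2 * p + 3 / 8) ≤ 1 / 6 := by nlinarith [sq_nonneg (p - 11 / 48)]
    have e3 : 3 * (p ^ 2 * (1 - p)) ≤ 3 / 8 := by nlinarith
    have e4 : 0 ≤ 3 * (p ^ 2 * (1 - p)) := by positivity
    have e5 : (1 + 3 * (p ^ 2 * (1 - p))) ^ 2 ≤ 2 := by nlinarith
    have e6 : 5 / 2 * (p ^ 2 * (1 - p)) * (1 - p - 2 * p + 3 / 8) ≤ 5 / 2 * (1 / 4 * (1 / 6)) := by
      have : 5 / 2 * (p ^ 2 * (1 - p)) * (1 - p - 2 * p + 3 / 8)
          = 5 / 2 * ((p * (1 - p)) * (p * (1 - p - 2 * p + 3 / 8))) := by ring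
      rw [this]
      have h3 : 0 ≤ p * (1 - p - 2 * p + 3 / 8) := by positivity
      gcongr
    have e7 : 0 ≤ 5 / 2 * (p ^ 2 * (1 - p)) * (1 - p - 2 * p + 3 / 8) := by positivity
    calc _ = 5 / 2 * (p ^ 2 * (1 - p)) * (1 - p - 2 * p + 3 / 8)
            * (1 + 3 * (p ^ 2 * (1 - p))) ^ 2 := by ring
      _ ≤ 5 / 2 * (1 / 4 * (1 / 6)) * 2 := by gcongr
      _ < 5 / 12 := by norm_num

theorem Jf_one {p : ℝ} (h0 : 0 < p) (h1 : p < 1) {a : ℕ} (ha : 2 ≤ a) : Jf p a 1 < 5 / 12 := by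
  rcases Nat.eq_or_lt_of_le ha with h | h
  · rw [← h]; exact Jf_two_one h0 h1
  · have ha3 : (3 : ℝ) ≤ a := by exact_mod_cast h
    have hc := coreJ (t := a * (1 - p)) (q := 1 - p) (z := p ^ a) (by linarith) (by linarith)
      (by nlinarith) (pow_pos h0 a) (pow_le_exp_neg h0 h1 a)
    refine lt_of_eq_of_lt ?_ hc
    unfold Jf
    rw [pow_one, Nat.cast_one]
    ring

/-- **the real inequality** -/
theorem Jf_lt {p : ℝ} (h0 : 0 < p) (h1 : p < 1) {a : ℕ} (ha : 2 ≤ a) {b : ℕ} (hb : 1 ≤ b) :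
    Jf p a b < 5 / 12 := by
  induction b, hb using Nat.le_induction with
  | base => exact Jf_one h0 h1 ha
  | succ b hb ih =>
    have hq : 0 < 1 - p := by linarith
    have ha2 : (2 : ℝ) ≤ a := by exact_mod_cast ha
    have hb1 : (1 : ℝ) ≤ b := by exact_mod_cast hb
    have hP : 0 < p ^ a * (1 - p) ^ b := mul_pos (pow_pos h0 a) (pow_pos hq b)
    have hP' : p ^ a * (1 - p) ^ (b + 1) = (p ^ a * (1 - p) ^ b) * (1 - p) := by rw [pow_succ]; ring
    unfold Jf at ih ⊢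
    rw [hP']
    push_cast
    set P := p ^ a * (1 - p) ^ b with hPdef
    rcases le_or_gt (((a : ℝ) - 1) * (1 - p) - ((b : ℝ) + 1 + 1) * p + 3 / 8) 0 with hV | hV
    · have : ((a : ℝ) + (b + 1) - 1 / 2) * (P * (1 - p)) * (1 + ((a : ℝ) + (b + 1)) * (P * (1 - p))) ^ 2
        * (((a : ℝ) - 1) * (1 - p) - ((b : ℝ) + 1 + 1) * p + 3 / 8) ≤ 0 := by
        refine mul_nonpos_of_nonneg_of_nonpos ?_ hV
        have : 0 ≤ (a : ℝ) + (b + 1) - 1 / 2 := by linarith
        positivity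
      linarith
    rcases le_or_gt 1 (p * ((a : ℝ) + b + 1 / 2)) with hp | hp
    · -- the ratio is at most one
      refine lt_of_le_of_lt ?_ ih
      have e1 : ((a : ℝ) + (b + 1) - 1 / 2) * (P * (1 - p)) ≤ ((a : ℝ) + b - 1 / 2) * P := by
        have : ((a : ℝ) + (b + 1) - 1 / 2) * (1 - p) ≤ (a : ℝ) + b - 1 / 2 := by nlinarith
        nlinarith [mul_le_mul_of_nonneg_right this hP.le]
      have e2 : ((a : ℝ) + (b + 1)) * (P * (1 - p)) ≤ ((a : ℝ) + b) * P := by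
        have : ((a : ℝ) + (b + 1)) * (1 - p) ≤ (a : ℝ) + b := by nlinarith
        nlinarith [mul_le_mul_of_nonneg_right this hP.le]
      have e3 : ((a : ℝ) - 1) * (1 - p) - ((b : ℝ) + 1 + 1) * p + 3 / 8
          ≤ ((a : ℝ) - 1) * (1 - p) - ((b : ℝ) + 1) * p + 3 / 8 := by linarith
      have e4 : 0 ≤ (a : ℝ) + (b + 1) - 1 / 2 := by linarith
      have e5 : 0 ≤ (a : ℝ) + b - 1 / 2 := by linarith
      gcongr
    · -- `p` is tiny
      have hpa : P * (1 - p) ≤ p ^ a := by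
        have e : (1 - p) ^ b * (1 - p) ≤ 1 := by
          rw [← pow_succ]; exact pow_le_one₀ hq.le (by linarith)
        calc P * (1 - p) = p ^ a * ((1 - p) ^ b * (1 - p)) := by rw [hPdef]; ring
          _ ≤ p ^ a * 1 := mul_le_mul_of_nonneg_left e (pow_pos h0 a).le
          _ = p ^ a := mul_one _
      have e4 : 0 ≤ (a : ℝ) + (b + 1) - 1 / 2 := by linarith
      obtain ⟨n, rfl⟩ : ∃ n, a = n + 2 := ⟨a - 2, by omega⟩
      have hpow : p ^ (n + 2) = p ^ n * p * p := by ring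
      have hpn : p ^ n ≤ 1 := pow_le_one₀ h0.le h1.le
      have hpn0 : 0 < p ^ n := pow_pos h0 n
      push_cast at *
      have f1 : ((n : ℝ) + 2 + (b + 1) - 1 / 2) * (P * (1 - p)) ≤ p ^ n * p := by
        calc ((n : ℝ) + 2 + (b + 1) - 1 / 2) * (P * (1 - p))
            ≤ ((n : ℝ) + 2 + (b + 1) - 1 / 2) * (p ^ n * p * p) := by
              rw [← hpow]; exact mul_le_mul_of_nonneg_left hpa e4
          _ = p ^ n * p * (p * ((n : ℝ) + 2 + b + 1 / 2)) := by ring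
          _ ≤ p ^ n * p * 1 := mul_le_mul_of_nonneg_left hp.le (by positivity)
          _ = p ^ n * p := mul_one _
      have hnp : (n : ℝ) ≥ 0 := Nat.cast_nonneg n
      have hp27 : p ≤ 2 / 7 := by nlinarith
      have f2 : ((n : ℝ) + 2 + (b + 1)) * (P * (1 - p)) ≤ p * (8 / 7) * p ^ n := by
        have : ((n : ℝ) + 2 + (b + 1)) * (P * (1 - p))
            = ((n : ℝ) + 2 + (b + 1) - 1 / 2) * (P * (1 - p)) + 1 / 2 * (P * (1 - p)) := by ring
        rw [this]
        have g : 1 / 2 * (P * (1 - p)) ≤ 1 / 2 * (p ^ n * p * (2 / 7)) := by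
          have : P * (1 - p) ≤ p ^ n * p * p := by rw [← hpow]; exact hpa
          have h2 : p ^ n * p * p ≤ p ^ n * p * (2 / 7) := by gcongr
          linarith
        nlinarith
      rcases Nat.eq_zero_or_pos n with hn | hn
      · subst hn
        norm_num at *
        have g1 : 0 ≤ ((b : ℝ) + 1) * (P * (1 - p)) := by positivity
        have g2 : (1 + ((2 : ℝ) + (b + 1)) * (P * (1 - p))) ^ 2 ≤ 2 := by
          have g3 : ((2 : ℝ) + (b + 1)) * (P * (1 - p)) ≤ 16 / 49 := by linarith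
          have g4 : 0 ≤ ((2 : ℝ) + (b + 1)) * (P * (1 - p)) := by positivity
          nlinarith
        have hbb : (1 : ℝ) ≤ b := by exact_mod_cast hb
        have g5 : 1 - p - ((b : ℝ) + 1 + 1) * p + 3 / 8 ≤ 11 / 8 - 4 * p := by
          nlinarith [mul_le_mul_of_nonneg_right hbb h0.le]
        calc _ ≤ p * 2 * (11 / 8 - 4 * p) := by
              have : 0 ≤ (2 : ℝ) + (b + 1) - 1 / 2 := by linarith
              gcongr
          _ < 5 / 12 := by nlinarith [sq_nonneg (p - 11 / 64)]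
      · obtain ⟨m, rfl⟩ : ∃ m, n = m + 1 := ⟨n - 1, by omega⟩
        have hm0 : (0 : ℝ) ≤ m := Nat.cast_nonneg m
        push_cast at *
        have hpm : p ^ (m + 1) ≤ p := by
          rw [pow_succ]
          exact mul_le_of_le_one_left h0.le (pow_le_one₀ h0.le h1.le)
        have hp29 : p ≤ 2 / 9 := by nlinarith
        have g3 : ((m : ℝ) + 1 + 2 + (b + 1)) * (P * (1 - p)) ≤ 1 / 8 := by
          refine f2.trans ?_
          have : p * (8 / 7) * p ^ (m + 1) ≤ p * (8 / 7) * p := by gcongr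
          nlinarith
        have g4 : 0 ≤ ((m : ℝ) + 1 + 2 + (b + 1)) * (P * (1 - p)) := by positivity
        have g2 : (1 + ((m : ℝ) + 1 + 2 + (b + 1)) * (P * (1 - p))) ^ 2 ≤ 3 / 2 := by nlinarith
        have f3 : ((m : ℝ) + 1 + 2 + (b + 1) - 1 / 2) * (P * (1 - p)) ≤ p * p := by
          refine f1.trans ?_
          gcongr
        have g5 : ((m : ℝ) + 1 + 2 - 1) * (1 - p) - ((b : ℝ) + 1 + 1) * p + 3 / 8
            ≤ (m : ℝ) + 1 + 2 + b + 1 / 2 := by nlinarith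
        calc _ ≤ (p * p) * (3 / 2) * ((m : ℝ) + 1 + 2 + b + 1 / 2) := by
              gcongr
          _ = 3 / 2 * p * (p * ((m : ℝ) + 1 + 2 + b + 1 / 2)) := by ring
          _ ≤ 3 / 2 * p * 1 := by gcongr
          _ < 5 / 12 := by linarith

end Coin
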