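import Pool.Agent.Lib.Coin.IncRed2
import Pool.Agent.Lib.Coin.Loss
import Pool.Agent.Lib.Coin.RealJ
import Pool.Agent.Lib.Coin.Lam4

/-!
# Coin race: incomparable words which contain both letters (module M5a)
-/

namespace Coin

open Finset

/-! ## the shorter word -/

theorem wt_mul_kap {p : ℝ} (h0 : 0 < p) (h1 : p < 1) (A : List Bool) (k : ℕ) :
    wt p A * kap p A k = wt p (A.drop k) := by
  have hw := wt_pos h0 h1 (A.take k)
  have e2 : wt p A = wt p (A.take k) * wt p (A.drop k) := by
    rw [← wt_append, List.take_append_drop]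
  unfold kap
  rw [e2]
  field_simp

/-- every word at a tie: loss of heads -/
theorem lossH_le_tie {p : ℝ} (h0 : 0 < p) (h1 : p < 1) {A B : List Bool} (hA : A ≠ [])
    (hB : B ≠ []) (hG : G p A B = 0) :
    lossH p A (pm p B) ≤ (1 + 2 * (A.length * wt p A)) * lamH p A * Om p A (pm p B) := by
  have hq : 0 ≤ 1 - p := by linarith
  have e : (1 + 2 * (A.length * wt p A)) * lamH p A * Om p A (pm p B)
      = (1 - p) * ∑ k ∈ bd A, ((A.count true : ℝ) - ((A.take k).count true : ℝ)) *
        (wt p (A.drop k) * ((1 + 2 * (A.length * wt p A)) * Om p A (pm p B))) := by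
    unfold lamH
    rw [mul_sum, mul_sum, mul_sum, mul_sum, sum_mul]
    refine sum_congr rfl (fun k _ => ?_)
    rw [← wt_mul_kap h0 h1 A k]
    ring
  rw [e]
  unfold lossH
  refine mul_le_mul_of_nonneg_left (sum_le_sum (fun k hk => ?_)) hq
  have hc : (0 : ℝ) ≤ (A.count true : ℝ) - ((A.take k).count true : ℝ) := by
    have := count_take_le A k true
    rw [sub_nonneg]; exact_mod_cast this
  have h2 := mul_le_mul_of_nonneg_left (kap_mul_Wk_le_tie h0 h1 hA hB hG hk) hc
  calc kap p A k * ((A.count true : ℝ) - ((A.take k).count true : ℝ))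
        * Wk (pm p A) (pm p A) (pm p B) k
      = ((A.count true : ℝ) - ((A.take k).count true : ℝ))
        * (kap p A k * Wk (pm p A) (pm p A) (pm p B) k) := by ring
    _ ≤ _ := h2

/-- every word at a tie: loss of tails -/
theorem lossT_le_tie {p : ℝ} (h0 : 0 < p) (h1 : p < 1) {A B : List Bool} (hA : A ≠ [])
    (hB : B ≠ []) (hG : G p A B = 0) :
    lossT p A (pm p B) ≤ (1 + 2 * (A.length * wt p A)) * lamT p A * Om p A (pm p B) := by
  have e : (1 + 2 * (A.length * wt p A)) * lamT p A * Om p A (pm p B)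
      = p * ∑ k ∈ bd A, ((A.count false : ℝ) - ((A.take k).count false : ℝ)) *
        (wt p (A.drop k) * ((1 + 2 * (A.length * wt p A)) * Om p A (pm p B))) := by
    unfold lamT
    rw [mul_sum, mul_sum, mul_sum, mul_sum, sum_mul]
    refine sum_congr rfl (fun k _ => ?_)
    rw [← wt_mul_kap h0 h1 A k]
    ring
  rw [e]
  unfold lossT
  refine mul_le_mul_of_nonneg_left (sum_le_sum (fun k hk => ?_)) h0.le
  have hc : (0 : ℝ) ≤ (A.count false : ℝ) - ((A.take k).count false : ℝ) := by
    have := count_take_le A k false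
    rw [sub_nonneg]; exact_mod_cast this
  have h2 := mul_le_mul_of_nonneg_left (kap_mul_Wk_le_tie h0 h1 hA hB hG hk) hc
  calc kap p A k * ((A.count false : ℝ) - ((A.take k).count false : ℝ))
        * Wk (pm p A) (pm p A) (pm p B) k
      = ((A.count false : ℝ) - ((A.take k).count false : ℝ))
        * (kap p A k * Wk (pm p A) (pm p A) (pm p B) k) := by ring
    _ ≤ _ := h2

theorem nat_mul_pow_le {r : ℝ} (h0 : 0 < r) (_h1 : r < 1) (n : ℕ) : n * r ^ n * (1 - r) ≤ r := by
  rcases Nat.eq_zero_or_pos n with h | h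
  · subst h; simp; exact h0.le
  · obtain ⟨m, rfl⟩ : ∃ m, n = m + 1 := ⟨n - 1, by omega⟩
    have e := pow_mul_le_one' h0.le m
    have e2 := pow_pos h0 m
    have e3 : r ^ (m + 1) = r ^ m * r := pow_succ _ _
    rw [e3]
    push_cast
    have e4 : r ^ m * ((m + 1) * (1 - r)) ≤ 1 := by nlinarith
    nlinarith [mul_le_mul_of_nonneg_left e4 h0.le]

/-- `L P ≤ (5/4) q` for words with a head and at least two tails -/
theorem len_mul_wt_le {p : ℝ} (h0 : 0 < p) (h1 : p < 1) {c d : ℕ} (hc : 1 ≤ c) (hd : 2 ≤ d) :
    ((c : ℝ) + d) * (p ^ c * (1 - p) ^ d) ≤ 5 / 4 * (1 - p) := by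
  obtain ⟨e, rfl⟩ : ∃ e, d = e + 1 := ⟨d - 1, by omega⟩
  have he : 1 ≤ e := by omega
  have hq : 0 < 1 - p := by linarith
  have hpc := pow_pos h0 c
  have hqe := pow_pos hq e
  have h2 : (1 - p) ^ e ≤ 1 - p := by
    calc (1 - p) ^ e ≤ (1 - p) ^ 1 := pow_le_pow_of_le_one hq.le (by linarith) he
      _ = 1 - p := pow_one _
  have h3 : p ^ c ≤ p := by
    calc p ^ c ≤ p ^ 1 := pow_le_pow_of_le_one h0.le h1.le hc
      _ = p := pow_one _
  have k1 : (c : ℝ) * p ^ c * (1 - p) ^ e ≤ p :=
    (mul_le_mul_of_nonneg_left h2 (by positivity)).trans (nat_mul_pow_le h0 h1 c)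
  have k2 : (e : ℝ) * (1 - p) ^ e * p ^ c ≤ 1 - p := by
    refine (mul_le_mul_of_nonneg_left h3 (by positivity)).trans ?_
    have := nat_mul_pow_le hq (by linarith : 1 - p < 1) e
    rwa [sub_sub_cancel] at this
  have k3 : p ^ c * (1 - p) ^ e ≤ 1 / 4 := by
    have : p ^ c * (1 - p) ^ e ≤ p * (1 - p) := mul_le_mul h3 h2 hqe.le h0.le
    nlinarith [sq_nonneg (2 * p - 1)]
  push_cast
  have : ((c : ℝ) + (e + 1)) * (p ^ c * (1 - p) ^ (e + 1))
      = ((c : ℝ) * p ^ c * (1 - p) ^ e + (e : ℝ) * (1 - p) ^ e * p ^ c + p ^ c * (1 - p) ^ e)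
        * (1 - p) := by
    rw [pow_succ]; ring
  rw [this]
  exact mul_le_mul_of_nonneg_right (by linarith) hq.le

/-! ## the four numbers -/

theorem four_numbers {x y lA lB eA eB r s : ℝ} (hr : 0 ≤ r) (hs : 0 ≤ s) (h1 : lA ≤ 3 / 8 + s)
    (h2 : lB ≤ 3 / 8 + r) (h3 : lA + lB ≤ 7 / 12 + r + s) (h4 : 1 + r + s ≤ x - y)
    (hA : 0 ≤ eA) (hB : 0 ≤ eB) (h5 : eA * (x - 5 / 8) < 5 / 12) (h6 : eB * (-y - 5 / 8) < 5 / 12) :
    lA + lB + eA * max 0 (y + lB) + eB * max 0 (lA - x) < x - y := by
  have k1 : y + lB ≤ x - 5 / 8 := by linarith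
  have k2 : lA - x ≤ -y - 5 / 8 := by linarith
  rcases le_or_gt (y + lB) 0 with m1 | m1
  · rw [max_eq_left m1, mul_zero]
    rcases le_or_gt (lA - x) 0 with m2 | m2
    · rw [max_eq_left m2, mul_zero]; linarith
    · rw [max_eq_right m2.le]
      have := mul_le_mul_of_nonneg_left k2 hB
      linarith
  · rw [max_eq_right m1.le]
    have k3 := mul_le_mul_of_nonneg_left k1 hA
    rcases le_or_gt (lA - x) 0 with m2 | m2
    · rw [max_eq_left m2, mul_zero]; linarith
    · exfalso; linarith

theorem exc_mul {p : ℝ} (A : List Bool) :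
    exc p A * (((A.count true : ℝ) * (1 - p) - (A.count false : ℝ) * p) - 5 / 8)
      = Jf p (A.count true) (A.count false) := by
  have hL : (A.length : ℝ) = (A.count true : ℝ) + A.count false := by
    have := count_add A
    exact_mod_cast this.symm
  unfold exc Jf wt
  rw [hL]
  ring

theorem exc_mul' {p : ℝ} (A : List Bool) :
    exc p A * (-((A.count true : ℝ) * (1 - p) - (A.count false : ℝ) * p) - 5 / 8)
      = Jf (1 - p) (A.count false) (A.count true) := by
  have hL : (A.length : ℝ) = (A.count true : ℝ) + A.count false := by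
    have := count_add A
    exact_mod_cast this.symm
  unfold exc Jf wt
  rw [hL, sub_sub_cancel]
  ring

/-- **M5a**: incomparable words with both letters -/
theorem inc_mixed {A B : List Bool} (hc : 1 ≤ B.count true) (hb : 1 ≤ A.count false)
    (hac : B.count true < A.count true) (hbd : A.count false < B.count false) :
    UpAtTies A B := by
  intro p h0 h1 hG
  have hA : A ≠ [] := by rintro rfl; simp at hac
  have hB : B ≠ [] := by rintro rfl; simp at hbd
  have hGB : G p B A = 0 := by
    rw [G_eq_Gs p hA hB, Gs_antisymm] at hG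
    rw [G_eq_Gs p hB hA]; linarith
  have hq : 0 < 1 - p := by linarith
  have hAt : true ∈ A := List.count_pos_iff.mp (by omega)
  have hAf : false ∈ A := List.count_pos_iff.mp (by omega)
  have hBt : true ∈ B := List.count_pos_iff.mp (by omega)
  have hBf : false ∈ B := List.count_pos_iff.mp (by omega)
  have lH := lamH_le h0 h1 hAt hAf
  have lT := lamT_le h0 h1 hBt hBf
  have lHT := lamH_add_lamT_le h0 h1 (A := A) (B := B) (by omega) hb hc (by omega)
  have lH0 := lamH_nonneg h0 h1 A
  have lT0 : 0 ≤ lamT p B := by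
    rw [lamT_eq]; exact lamH_nonneg (by linarith) (by linarith) _
  have eA := exc_nonneg h0.le h1.le hA
  have eB := exc_nonneg h0.le h1.le hB
  have jA := Jf_lt h0 h1 (a := A.count true) (b := A.count false) (by omega) hb
  have jB := Jf_lt (p := 1 - p) (by linarith) (by linarith) (a := B.count false)
    (b := B.count true) (by omega) hc
  rw [← exc_mul] at jA
  rw [← exc_mul'] at jB
  have oB := Om_pm_le_exc h0 h1 hA hB hG
  have oA := Om_pm_le_exc h0 h1 hB hA hGB
  have oB' : Om p B (pm p A) ≤ (1 + exc p A) / 2 := by unfold Om; linarith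
  have oA' : Om p A (pm p B) ≤ (1 + exc p B) / 2 := by unfold Om; linarith
  have hLA : A.length = A.count true + A.count false := (count_add A).symm
  have hLB : B.length = B.count true + B.count false := (count_add B).symm
  have c1 : (B.count true : ℝ) + 1 ≤ A.count true := by exact_mod_cast hac
  have c2 : (A.count false : ℝ) + 1 ≤ B.count false := by exact_mod_cast hbd
  have hxy : ((A.count true : ℝ) * (1 - p) - (A.count false : ℝ) * p)
      - ((B.count true : ℝ) * (1 - p) - (B.count false : ℝ) * p)
      = ((A.count true : ℝ) - B.count true) * (1 - p) + ((B.count false : ℝ) - A.count false) * p :=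
    by ring
  rcases lt_trichotomy B.length A.length with hL | hL | hL
  · -- `B` is shorter
    have hu : (B.length : ℝ) * wt p B ≤ 5 / 4 * (1 - p) := by
      rw [hLB]; push_cast; exact len_mul_wt_le h0 h1 hc (by omega)
    have hP : 0 ≤ (B.length : ℝ) * wt p B :=
      mul_nonneg (Nat.cast_nonneg _) (wt_nonneg h0.le h1.le B)
    have hr : 2 * (B.length * wt p B) * lamT p B ≤ 1 - p := by
      have := mul_le_mul hu lT lT0 (by linarith)
      nlinarith
    have c3 : (B.count true : ℝ) + B.count false + 1 ≤ A.count true + A.count false := by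
      have : B.count true + B.count false + 1 ≤ A.count true + A.count false := by omega
      exact_mod_cast this
    have c4 : 1 + (1 - p) ≤ ((A.count true : ℝ) - B.count true) * (1 - p)
        + ((B.count false : ℝ) - A.count false) * p := by
      nlinarith
    refine up_of_four h0 h1 hA hB hG (lossH_le h0 h1 hA hB hL.le) (lossT_le_tie h0 h1 hB hA hGB)
      oB' oA' ?_
    rw [← hxy]
    refine four_numbers (r := 1 - p) (s := 0) hq.le le_rfl (by linarith) (by linarith)
      (by linarith) (by rw [hxy]; linarith) eA eB jA jB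
  · -- equal lengths
    have c4 : 1 ≤ ((A.count true : ℝ) - B.count true) * (1 - p)
        + ((B.count false : ℝ) - A.count false) * p := by
      nlinarith
    refine up_of_four h0 h1 hA hB hG (lossH_le h0 h1 hA hB hL.le) (lossT_le h0 h1 hB hA hL.ge)
      oB' oA' ?_
    rw [← hxy]
    refine four_numbers (r := 0) (s := 0) le_rfl le_rfl (by linarith) (by linarith)
      (by linarith) (by rw [hxy]; linarith) eA eB jA jB
  · -- `A` is shorter
    have hu : (A.length : ℝ) * wt p A ≤ 5 / 4 * p := by
      have := len_mul_wt_le (p := 1 - p) (by linarith) (by linarith) (c := A.count false)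
        (d := A.count true) hb (by omega)
      rw [sub_sub_cancel] at this
      rw [hLA]; push_cast; unfold wt; linarith
    have hP : 0 ≤ (A.length : ℝ) * wt p A :=
      mul_nonneg (Nat.cast_nonneg _) (wt_nonneg h0.le h1.le A)
    have hr : 2 * (A.length * wt p A) * lamH p A ≤ p := by
      have := mul_le_mul hu lH lH0 (by linarith)
      nlinarith
    have c3 : (A.count true : ℝ) + A.count false + 1 ≤ B.count true + B.count false := by
      have : A.count true + A.count false + 1 ≤ B.count true + B.count false := by omega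
      exact_mod_cast this
    have c4 : 1 + p ≤ ((A.count true : ℝ) - B.count true) * (1 - p)
        + ((B.count false : ℝ) - A.count false) * p := by
      nlinarith
    refine up_of_four h0 h1 hA hB hG (lossH_le_tie h0 h1 hA hB hG) (lossT_le h0 h1 hB hA hL.le)
      oB' oA' ?_
    rw [← hxy]
    refine four_numbers (r := 0) (s := p) le_rfl h0.le (by linarith) (by linarith)
      (by linarith) (by rw [hxy]; linarith) eA eB jA jB

end Coin
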