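import Pool.Agent.Lib.Coin.EqFinal
import Pool.Agent.Lib.Coin.EqGAsm

/-!
# Coin race: equal contents, incomparable cancelled tops (M5c)
-/

namespace Coin

/-- **M5c** -/
theorem incEq : IncEq :=
  incEq_of_G (fun _ _ hA hB hcont _ _ hx hy h1 h2 hx2 hy2 =>
    up_G hA hB hcont hx hy h1 h2 hx2 hy2)

end Coin
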