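import Pool.Agent.Lib.Coin.IncUnary
import Pool.Agent.Lib.Coin.Inc

/-!
# Coin race: incomparable contents, reduced to one thin case
-/

namespace Coin

open Finset

theorem len_mul_le_q {q : ℝ} (hq : 0 < q) {c : ℕ} (h3 : q ≤ 1 / 3) (hc : ((c : ℝ) + 2) * q ≤ 1) :
    ∀ e : ℕ, ((c : ℝ) + (e + 2 : ℕ)) * q ^ (e + 2) ≤ q := by
  intro e
  induction e with
  | zero =>
    push_cast
    have := mul_le_mul_of_nonneg_right hc hq.le
    nlinarith
  | succ e ih =>
    refine le_trans ?_ ih
    have h4 : q ^ (e + 1 + 2) = q ^ (e + 2) * q := by rw [← pow_succ]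
    rw [h4]
    push_cast
    have h5 : ((c : ℝ) + (e + 1 + 2)) * q ≤ (c : ℝ) + (e + 2) := by
      have h6 : 0 ≤ (c : ℝ) + (e + 1 + 2) := by positivity
      have h7 := mul_le_mul_of_nonneg_left h3 h6
      have h8 : (0 : ℝ) ≤ (c : ℝ) := Nat.cast_nonneg c
      have h9 : (0 : ℝ) ≤ (e : ℝ) := Nat.cast_nonneg e
      linarith
    have := mul_le_mul_of_nonneg_right h5 (pow_nonneg hq.le (e + 2))
    nlinarith

theorem exc_le_of_small {p : ℝ} (h0 : 0 < p) (h1 : p < 1) {B : List Bool}
    (hd : 2 ≤ B.count false) (h3 : 1 - p ≤ 1 / 3)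
    (hc : ((B.count true : ℝ) + 2) * (1 - p) ≤ 1) : exc p B ≤ 5 / 8 := by
  have hq : 0 < 1 - p := by linarith
  obtain ⟨e, he⟩ : ∃ e, B.count false = e + 2 := ⟨B.count false - 2, by omega⟩
  have hL : (B.length : ℝ) = (B.count true : ℝ) + B.count false := by
    have := count_add B
    exact_mod_cast this.symm
  have key : (B.length : ℝ) * wt p B ≤ 1 - p := by
    have h4 := len_mul_le_q hq h3 hc e
    rw [hL, he]
    unfold wt
    rw [he]
    have h5 : p ^ B.count true ≤ 1 := pow_le_one₀ h0.le h1.le
    have h6 : 0 ≤ ((B.count true : ℝ) + (e + 2 : ℕ)) * (1 - p) ^ (e + 2) := by positivity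
    have h7 := mul_le_mul_of_nonneg_right h5 h6
    calc ((B.count true : ℝ) + (e + 2 : ℕ)) * (p ^ B.count true * (1 - p) ^ (e + 2))
        = p ^ B.count true * (((B.count true : ℝ) + (e + 2 : ℕ)) * (1 - p) ^ (e + 2)) := by ring
      _ ≤ 1 * (((B.count true : ℝ) + (e + 2 : ℕ)) * (1 - p) ^ (e + 2)) := h7
      _ ≤ 1 - p := by linarith
  have hw := wt_nonneg h0.le h1.le B
  set X := (B.length : ℝ) * wt p B with hX
  have hX0 : 0 ≤ X := mul_nonneg (Nat.cast_nonneg _) hw
  have hX3 : X ≤ 1 / 3 := by linarith
  have hle : exc p B ≤ X * (1 + X) ^ 2 := by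
    unfold exc
    have : ((B.length : ℝ) - 1 / 2) * wt p B ≤ X := by rw [hX]; nlinarith
    exact mul_le_mul_of_nonneg_right this (sq_nonneg _)
  refine hle.trans ?_
  have h8 : (1 + X) ^ 2 ≤ (4 / 3) ^ 2 := by
    refine pow_le_pow_left₀ (by linarith) (by linarith) 2
  have := mul_le_mul hX3 h8 (sq_nonneg _) (by norm_num)
  norm_num at this ⊢
  linarith

/-- a run of heads against a word with both letters and at least two tails -/
theorem up_run_mixed {a : ℕ} {B : List Bool} (hc0 : 1 ≤ B.count true) (hc : B.count true < a)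
    (hd : 2 ≤ B.count false) : UpAtTies (hh a) B := by
  intro p h0 h1 hG
  have ha : 2 ≤ a := by omega
  have hA := hh_ne (show 1 ≤ a by omega)
  have hB : B ≠ [] := by rintro rfl; simp at hd
  have hGB : G p B (hh a) = 0 := by rw [G_neg, hG, neg_zero]
  have hBt : true ∈ B := List.count_pos_iff.mp (by omega)
  have hBf : false ∈ B := List.count_pos_iff.mp (by omega)
  have lT := lamT_le h0 h1 hBt hBf
  have lT0 : 0 ≤ lamT p B := by
    rw [lamT_eq]; exact lamH_nonneg (by linarith) (by linarith) _
  have oA := Om_pm_le_exc h0 h1 hB hA hGB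
  have oA' : Om p (hh a) (pm p B) ≤ (1 + exc p B) / 2 := by unfold Om; linarith
  have hq : 0 < 1 - p := by linarith
  have haR : (2 : ℝ) ≤ a := by exact_mod_cast ha
  have hcR : (B.count true : ℝ) + 1 ≤ a := by exact_mod_cast hc
  have h5 : a * (1 - p) < p → exc p B ≤ 5 / 8 := by
    intro h
    refine exc_le_of_small h0 h1 hd ?_ ?_
    · nlinarith
    · nlinarith
  have hLB : B.length = B.count true + B.count false := (count_add B).symm
  rcases Nat.lt_or_ge B.length a with hL | hL
  · -- `B` is shorter
    have hu : (B.length : ℝ) * wt p B ≤ 5 / 4 * (1 - p) := by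
      rw [hLB]; push_cast; exact len_mul_wt_le h0 h1 hc0 hd
    have hP : 0 ≤ (B.length : ℝ) * wt p B :=
      mul_nonneg (Nat.cast_nonneg _) (wt_nonneg h0.le h1.le B)
    have hr : 2 * (B.length * wt p B) * lamT p B ≤ 1 - p := by
      have := mul_le_mul hu lT lT0 (by linarith)
      nlinarith
    have c3 : (B.count true : ℝ) + B.count false + 1 ≤ a := by
      have : B.count true + B.count false + 1 ≤ a := by omega
      exact_mod_cast this
    have c4 : (2 : ℝ) ≤ B.count false := by exact_mod_cast hd
    refine up_run_of h0 h1 hB ha hc hd hG (lossT_le_tie h0 h1 hB hA hGB) ?_ oA' h5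
    nlinarith
  · refine up_run_of h0 h1 hB ha hc hd hG (lossT_le h0 h1 hB hA (by rw [hh_length]; exact hL)) ?_
      oA' h5
    have : 0 ≤ ((a : ℝ) - B.count true - 1) * (1 - p) := mul_nonneg (by linarith) hq.le
    linarith

/-- the thin case: a run of heads against a word with one tail -/
def Thin : Prop := ∀ (a : ℕ) (B : List Bool), B.count false = 1 → 1 ≤ B.count true →
  B.count true < a → UpAtTies (hh a) B

theorem eq_hh {A : List Bool} (h : A.count false = 0) : A = hh A.length := by
  unfold hh
  exact eq_replicate_of_count (b := true) (by simpa using h)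

/-- unary `A` -/
theorem inc_unary (hT : Thin) {A B : List Bool} (hA : A ≠ []) (hB : B ≠ [])
    (hac : B.count true < A.count true) (hb : A.count false = 0)
    (hbd : A.count false < B.count false) : UpAtTies A B := by
  have e := eq_hh hb
  have hlen : A.count true = A.length := by
    have := count_add A; omega
  rw [e]
  rw [hlen] at hac
  rcases Nat.eq_zero_or_pos (B.count true) with h | h
  · have e2 : B = tt B.length := by
      unfold tt
      exact eq_replicate_of_count (b := false) (by simpa using h)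
    rw [e2]
    exact up_run_run' (List.length_pos_iff.2 hA) (List.length_pos_iff.2 hB)
  · rcases Nat.lt_or_ge (B.count false) 2 with h2 | h2
    · exact hT A.length B (by omega) h hac
    · exact up_run_mixed h hac h2

/-- **M5a + M5b up to the thin case** -/
theorem incFull_of_thin (hT : Thin) : IncFull := by
  intro A B hA hB hac hbd
  rcases Nat.eq_zero_or_pos (A.count false) with hb | hb
  · exact inc_unary hT hA hB hac hb hbd
  rcases Nat.eq_zero_or_pos (B.count true) with hc | hc
  · refine UpAtTies.mirror ?_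
    have hA' : A.map not ≠ [] := by simpa using hA
    have hB' : B.map not ≠ [] := by simpa using hB
    refine inc_unary hT hB' hA' ?_ ?_ ?_
    · rw [count_map_not, count_map_not]; exact hbd
    · rw [count_map_not]; exact hc
    · rw [count_map_not, count_map_not]; exact hac
  · exact inc_mixed hc hb hac hbd

end Coin
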