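import Pool.Agent.Lib.Coin.Borders4

/-!
# Coin race: the weighted border sums `lamH`, `lamT` (module M3, part 5)
-/

namespace Coin

open Finset

/-- `(1-p) * sum over the borders Z of P(Y)/P(Z) * (heads lost)` -/
noncomputable def lamH (p : ℝ) (Y : List Bool) : ℝ :=
  (1 - p) * (wt p Y * ∑ k ∈ bd Y, kap p Y k * ((Y.count true : ℝ) - ((Y.take k).count true : ℝ)))

/-- `p * sum over the borders Z of P(Y)/P(Z) * (tails lost)` -/
noncomputable def lamT (p : ℝ) (Y : List Bool) : ℝ :=
  p * (wt p Y * ∑ k ∈ bd Y, kap p Y k * ((Y.count false : ℝ) - ((Y.take k).count false : ℝ)))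

theorem lamH_map_not (p : ℝ) (Y : List Bool) : lamH p (Y.map not) = lamT (1 - p) Y := by
  simp only [lamH, lamT, wt_map_not, bd_map_not, kap_map_not, count_map_not, ← List.map_take,
    Bool.not_true]

theorem lamT_map_not (p : ℝ) (Y : List Bool) : lamT p (Y.map not) = lamH (1 - p) Y := by
  simp only [lamH, lamT, wt_map_not, bd_map_not, kap_map_not, count_map_not, ← List.map_take,
    Bool.not_false, sub_sub_cancel]

theorem lamH_erase (p : ℝ) {Y : List Bool} (hY : Y ≠ []) :
    lamH p Y = (1 - p) * (wt p Y * ∑ k ∈ (bd Y).erase Y.length,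
      kap p Y k * ((Y.count true : ℝ) - ((Y.take k).count true : ℝ))) := by
  rw [lamH, ← Finset.add_sum_erase _ _ (bd_self hY), List.take_length, sub_self, mul_zero,
    zero_add]

theorem lamH_top (p : ℝ) {Y : List Bool} (hY : Y ≠ []) (he : (bd Y).erase Y.length = ∅) :
    lamH p Y = 0 := by
  rw [lamH_erase p hY, he]
  simp

/-- the recursion over the largest proper border -/
theorem lamH_rec (p : ℝ) {Y : List Bool} (hY : Y ≠ []) {k : ℕ}
    (hk : k ∈ bd Y) (he : (bd Y).erase Y.length = bd (Y.take k)) :
    lamH p Y = wt p (Y.drop k) *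
      ((1 - p) * ((Y.drop k).count true : ℝ) * Sg p (Y.take k) + lamH p (Y.take k)) := by
  rw [lamH_erase p hY, he, Sg, lamH]
  have hs : ∑ l ∈ bd (Y.take k), kap p Y l * ((Y.count true : ℝ) - ((Y.take l).count true : ℝ)) =
      ((Y.drop k).count true : ℝ) * ∑ l ∈ bd (Y.take k), kap p (Y.take k) l +
      ∑ l ∈ bd (Y.take k), kap p (Y.take k) l *
        (((Y.take k).count true : ℝ) - (((Y.take k).take l).count true : ℝ)) := by
    rw [Finset.mul_sum, ← Finset.sum_add_distrib]
    apply Finset.sum_congr rfl
    intro l hl
    have h1 : l ≤ k := by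
      have := bd_le hl
      rwa [length_take_bd hk] at this
    rw [kap_take p h1, List.take_take, min_eq_left h1, count_split Y k true]
    push_cast
    ring
  rw [hs, wt_take_drop p Y k]
  ring

theorem lamH_nonneg {p : ℝ} (h0 : 0 < p) (h1 : p < 1) (Y : List Bool) : 0 ≤ lamH p Y := by
  refine mul_nonneg (by linarith) (mul_nonneg (wt_pos h0 h1 Y).le (Finset.sum_nonneg ?_))
  intro k _
  refine mul_nonneg (kap_pos' h0 h1 Y k).le ?_
  rw [sub_nonneg, Nat.cast_le]
  exact (List.take_sublist _ _).count_le _

theorem lamH_replicate_false (p : ℝ) (n : ℕ) : lamH p (List.replicate n false) = 0 := by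
  rw [lamH]
  have : ∀ k ∈ bd (List.replicate n false), kap p (List.replicate n false) k *
      (((List.replicate n false).count true : ℝ) -
        (((List.replicate n false).take k).count true : ℝ)) = 0 := by
    intro k _
    simp [List.take_replicate, List.count_replicate]
  rw [Finset.sum_eq_zero this]
  ring

theorem lamH_replicate_true {p : ℝ} (h0 : 0 < p) (h1 : p < 1) (n : ℕ) :
    (1 - p) * lamH p (List.replicate n true) = p * (1 - p ^ n) - n * (1 - p) * p ^ n := by
  have hq : (1 - p) ≠ 0 := by linarith
  induction n with
  | zero => simp [lamH]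
  | succ n ih =>
    have hY : List.replicate (n + 1) true ≠ [] := by simp
    by_cases hn : n = 0
    · subst hn
      rw [lamH_top p hY (by rw [bd_replicate]; simp)]
      simp
      ring
    · have hk : n ∈ bd (List.replicate (n + 1) true) := by
        rw [bd_replicate, Finset.mem_Icc]
        omega
      have htk : (List.replicate (n + 1) true).take n = List.replicate n true := by
        rw [List.take_replicate, min_eq_left (by omega)]
      have hdk : (List.replicate (n + 1) true).drop n = List.replicate 1 true := by
        rw [List.drop_replicate]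
        congr 1
        omega
      rw [lamH_rec p hY hk, htk, hdk, Sg_replicate_true h0 h1, wt_replicate_true]
      · have e : (1 - p) * (p ^ 1 * ((1 - p) * ((List.count true (List.replicate 1 true) : ℕ) : ℝ) *
            ((1 - p ^ n) / (1 - p)) + lamH p (List.replicate n true))) =
            p * ((1 - p) * (1 - p ^ n)) + p * ((1 - p) * lamH p (List.replicate n true)) := by
          simp
          field_simp
        rw [e, ih]
        push_cast
        ring
      · rw [htk, bd_replicate, bd_replicate, List.length_replicate]
        ext l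
        rw [Finset.mem_erase, Finset.mem_Icc, Finset.mem_Icc]
        omega

/-- a unary border: twice its length is at most the number of its letters -/
theorem two_mul_le_run {Z : List Bool} {m : ℕ} (hm : m ∈ bd Z) (hf : false ∈ Z)
    (hmf : (Z.take m).count false = 0) : 2 * m ≤ Z.count true := by
  have hd : (Z.drop (Z.length - m)).count false = 0 := by
    rw [← (mem_bd3.mp hm).2]
    exact hmf
  have hmle := bd_le hm
  have hcf : 1 ≤ Z.count false := List.count_pos_iff.mpr hf
  have h2 := count_split Z (Z.length - m) false
  have hlen : 2 * m < Z.length := by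
    by_contra hc
    have h3 : (Z.take (Z.length - m)).count false ≤ (Z.take m).count false :=
      count_le_of_le (by omega) false
    omega
  have h4 := count_split Z m true
  have h5 := count_add (Z.take m)
  rw [length_take_bd hm] at h5
  have h6 : Z.drop (Z.length - m) = (Z.drop m).drop (Z.length - m - m) := by
    rw [List.drop_drop]
    congr 1
    omega
  have h7 : (Z.drop (Z.length - m)).count true ≤ (Z.drop m).count true := by
    rw [h6]
    exact (List.drop_sublist _ _).count_le _
  have h8 := count_add (Z.drop (Z.length - m))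
  rw [List.length_drop] at h8
  omega

/-- top border a run of heads -/
theorem run_true {p : ℝ} (h0 : 0 < p) (h1 : p < 1) {Y : List Bool} {k : ℕ} (hk : k ∈ bd Y)
    (hlt : k < Y.length) (he : (bd Y).erase Y.length = bd (Y.take k)) (hf : false ∈ Y)
    (hz : (Y.take k).count false = 0) :
    ∃ i j : ℕ, i = (Y.drop k).count true ∧ Y.count false = j + 1 ∧ k ≤ i ∧ 1 ≤ i ∧
      Y.count true = k + i ∧ (Y.drop k).count false = j + 1 ∧
      Sg p Y = 1 + p ^ i * (1 - p) ^ j * (1 - p ^ k) ∧
      lamH p Y = p ^ i * (1 - p) ^ j * ((i * (1 - p) + p) * (1 - p ^ k) - k * (1 - p) * p ^ k) := by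
  have hY : Y ≠ [] := List.ne_nil_of_mem hf
  have hrep : Y.take k = List.replicate k true := by
    have := eq_replicate_of_count (l := Y.take k) (b := true) (by simpa using hz)
    rwa [length_take_bd hk] at this
  have hct : (Y.take k).count true = k := by rw [hrep]; simp
  have h2 := two_mul_le_run hk hf hz
  have hs := count_split Y k true
  have hsf := count_split Y k false
  have hcf : 1 ≤ Y.count false := List.count_pos_iff.mpr hf
  have hkpos := bd_pos hk
  have hq : (1 - p) ≠ 0 := by linarith
  refine ⟨(Y.drop k).count true, Y.count false - 1, rfl, by omega, by omega, by omega, by omega,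
    by omega, ?_, ?_⟩
  · rw [Sg_rec h0 h1 hY hk he, hrep, Sg_replicate_true h0 h1, wt,
      show (Y.drop k).count false = (Y.count false - 1) + 1 by omega, pow_succ]
    field_simp
  · rw [lamH_rec p hY hk he, hrep, Sg_replicate_true h0 h1, wt,
      show (Y.drop k).count false = (Y.count false - 1) + 1 by omega, pow_succ]
    have e := lamH_replicate_true h0 h1 k
    have e2 : p ^ (Y.drop k).count true * ((1 - p) ^ (Y.count false - 1) * (1 - p)) *
        ((1 - p) * ((Y.drop k).count true : ℝ) * ((1 - p ^ k) / (1 - p)) +
          lamH p (List.replicate k true)) =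
        p ^ (Y.drop k).count true * (1 - p) ^ (Y.count false - 1) *
        ((1 - p) * ((Y.drop k).count true : ℝ) * (1 - p ^ k) +
          (1 - p) * lamH p (List.replicate k true)) := by
      field_simp
    rw [e2, e]
    ring

/-- top border a run of tails -/
theorem run_false {p : ℝ} (h0 : 0 < p) (h1 : p < 1) {Y : List Bool} {k : ℕ} (hk : k ∈ bd Y)
    (hlt : k < Y.length) (he : (bd Y).erase Y.length = bd (Y.take k)) (ht : true ∈ Y)
    (hz : (Y.take k).count true = 0) :
    ∃ i j : ℕ, Y.count true = i + 1 ∧ j = (Y.drop k).count false ∧ k ≤ j ∧ 1 ≤ j ∧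
      Y.count false = k + j ∧ (Y.drop k).count true = i + 1 ∧
      Sg p Y = 1 + p ^ i * (1 - p) ^ j * (1 - (1 - p) ^ k) ∧
      lamH p Y = (i + 1) * p ^ i * (1 - p) ^ (j + 1) * (1 - (1 - p) ^ k) := by
  have hY : Y ≠ [] := List.ne_nil_of_mem ht
  have hrep : Y.take k = List.replicate k false := by
    have := eq_replicate_of_count (l := Y.take k) (b := false) (by simpa using hz)
    rwa [length_take_bd hk] at this
  have hcf : (Y.take k).count false = k := by rw [hrep]; simp
  have h2 : 2 * k ≤ Y.count false := by
    have hk' : k ∈ bd (Y.map not) := by rw [bd_map_not]; exact hk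
    have := two_mul_le_run hk' (by simpa using ht)
      (by rw [← List.map_take, count_map_not]; simpa using hz)
    rw [count_map_not] at this
    simpa using this
  have hs := count_split Y k true
  have hsf := count_split Y k false
  have hct : 1 ≤ Y.count true := List.count_pos_iff.mpr ht
  have hkpos := bd_pos hk
  refine ⟨Y.count true - 1, (Y.drop k).count false, by omega, rfl, by omega, by omega, by omega,
    by omega, ?_, ?_⟩
  · rw [Sg_rec h0 h1 hY hk he, hrep, Sg_replicate_false h0 h1, wt,
      show (Y.drop k).count true = (Y.count true - 1) + 1 by omega, pow_succ]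
    field_simp
  · rw [lamH_rec p hY hk he, hrep, Sg_replicate_false h0 h1, lamH_replicate_false, wt,
      show (Y.drop k).count true = (Y.count true - 1) + 1 by omega, pow_succ]
    push_cast
    rw [pow_succ]
    field_simp
    ring

end Coin
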