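import Pool.Agent.Lib.Coin.Hazard
import Pool.Agent.Lib.Coin.Lam
import Pool.Agent.Lib.Coin.Assembly

/-!
# Coin race: the incomparable case is reduced to one real inequality (module M5a)
-/

namespace Coin

open Finset

/-! ## upper bound for `Om` -/

/-- `P(B > x) + P(B ≥ x)` is almost supermultiplicative -/
theorem bar_ge {b : ℕ → ℝ} (hb : IsProb b) {h e : ℝ} (hh0 : 0 ≤ h) (hh1 : h < 1) (he0 : 0 ≤ e)
    (he1 : e ≤ 1) (hz : Haz h (srv b)) (hs : Strad e (srv b)) (m n : ℕ) :
    (1 - e) * ((2 - 2 * h) / (2 - h)) * ((srv b m + tl b m) * (srv b n + tl b n)) / 2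
      ≤ srv b (m + n) + tl b (m + n) := by
  have hδ0 : 0 ≤ (2 - 2 * h) / (2 - h) := div_nonneg (by linarith) (by linarith)
  have hδ1 : (2 - 2 * h) / (2 - h) ≤ 1 := by
    rw [div_le_one (by linarith)]; linarith
  have hc0 : 0 ≤ (1 - e) * ((2 - 2 * h) / (2 - h)) := mul_nonneg (by linarith) hδ0
  have hc1 : (1 - e) * ((2 - 2 * h) / (2 - h)) ≤ 1 := by
    have := mul_le_mul (show 1 - e ≤ 1 by linarith) hδ1 hδ0 zero_le_one
    linarith
  have hT0 : ∀ n, 0 ≤ srv b n + tl b n := fun n => add_nonneg (hb.srv_nonneg n) (hb.tl_nonneg n)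
  have hsz : srv b 0 + tl b 0 = 2 := by simp [srv, tl, hb.zero]; norm_num
  rcases Nat.eq_zero_or_pos m with hm | hm
  · subst hm
    rw [hsz, zero_add]
    have := mul_le_mul_of_nonneg_right hc1 (hT0 n)
    linarith
  rcases Nat.eq_zero_or_pos n with hn | hn
  · subst hn
    rw [hsz, add_zero]
    have := mul_le_mul_of_nonneg_right hc1 (hT0 m)
    linarith
  rw [tl_eq_srv hm, tl_eq_srv hn, tl_eq_srv (show 1 ≤ m + n by omega)]
  have a1 := hs m n
  have a2 := hs (m - 1) n
  have a3 := hs m (n - 1)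
  rw [show m - 1 + n = m + n - 1 by omega] at a2
  rw [show m + (n - 1) = m + n - 1 by omega] at a3
  have b1 := hz (m - 1)
  have b2 := hz (n - 1)
  rw [Nat.sub_add_cancel hm] at b1
  rw [Nat.sub_add_cancel hn] at b2
  have c1 := hb.srv_nonneg m
  have c2 := hb.srv_nonneg n
  have c3 := hb.srv_nonneg (m - 1)
  have c4 := hb.srv_nonneg (n - 1)
  set α := srv b m
  set α' := srv b (m - 1)
  set β := srv b n
  set β' := srv b (n - 1)
  -- the algebraic core
  have core : (2 - 2 * h) / (2 - h) * ((α + α') * (β + β')) / 2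
      ≤ α * β + (α' * β + α * β') / 2 := by
    rw [div_mul_eq_mul_div, div_div, div_le_iff₀ (by linarith)]
    have d1 : (1 - h) * (α' * β') ≤ α * β' := by
      have := mul_le_mul_of_nonneg_right b1 c4; linarith
    have d2 : (1 - h) * (α' * β') ≤ α' * β := by
      have := mul_le_mul_of_nonneg_left b2 c3; linarith
    have d3 : (1 - h) * (α * β') ≤ α * β := by
      have := mul_le_mul_of_nonneg_left b2 c1; linarith
    have d4 : (1 - h) * (α' * β) ≤ α * β := by
      have := mul_le_mul_of_nonneg_right b1 c2; linarith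
    nlinarith
  have f1 : (1 - e) * (α * β) ≤ srv b (m + n) := by linarith
  have f2 : (1 - e) * ((α' * β + α * β') / 2) ≤ srv b (m + n - 1) := by linarith
  have f3 := mul_le_mul_of_nonneg_left core (show 0 ≤ 1 - e by linarith)
  calc (1 - e) * ((2 - 2 * h) / (2 - h)) * ((α + α') * (β + β')) / 2
      = (1 - e) * ((2 - 2 * h) / (2 - h) * ((α + α') * (β + β')) / 2) := by ring
    _ ≤ (1 - e) * (α * β + (α' * β + α * β') / 2) := f3
    _ = (1 - e) * (α * β) + (1 - e) * ((α' * β + α * β') / 2) := by ring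
    _ ≤ _ := add_le_add f1 f2

/-- lower bound for `P(B > A + A') + P(B ≥ A + A')` -/
theorem tsum_conv_bar_ge {a b : ℕ → ℝ} (ha : IsProb a) (hb : IsProb b) {c : ℝ}
    (h : ∀ m n, c * ((srv b m + tl b m) * (srv b n + tl b n)) / 2 ≤ srv b (m + n) + tl b (m + n)) :
    c * (∑' n, a n * (srv b n + tl b n)) ^ 2 / 2 ≤ ∑' n, conv a a n * (srv b n + tl b n) := by
  set T : ℕ → ℝ := fun n => srv b n + tl b n with hT
  have hT0 : ∀ n, 0 ≤ T n := fun n => add_nonneg (hb.srv_nonneg n) (hb.tl_nonneg n)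
  have hT2 : ∀ n, T n ≤ 2 := fun n => by
    have := hb.srv_le_one n; have := hb.tl_le_one n; simp only [hT]; linarith
  have hsa : Summable (fun n => a n * T n) :=
    Summable.of_nonneg_of_le (fun n => mul_nonneg (ha.nonneg n) (hT0 n))
      (fun n => mul_le_mul_of_nonneg_left (hT2 n) (ha.nonneg n)) (ha.summable.mul_right 2)
  have hna : Summable (fun n => ‖a n * T n‖) := hsa.norm
  have hprod := tsum_mul_tsum_eq_tsum_sum_antidiagonal_of_summable_norm hna hna
  have hsc : Summable (fun n => ∑ x ∈ antidiagonal n, a x.1 * T x.1 * (a x.2 * T x.2)) :=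
    (summable_norm_sum_mul_antidiagonal_of_summable_norm hna hna).of_norm
  have haa := ha.conv ha
  have hsl : Summable (fun n => conv a a n * T n) :=
    Summable.of_nonneg_of_le (fun n => mul_nonneg (haa.nonneg n) (hT0 n))
      (fun n => mul_le_mul_of_nonneg_left (hT2 n) (haa.nonneg n)) (haa.summable.mul_right 2)
  have key : ∑' n, c * (∑ x ∈ antidiagonal n, a x.1 * T x.1 * (a x.2 * T x.2)) / 2
      ≤ ∑' n, conv a a n * T n := by
    refine ((hsc.mul_left c).div_const 2).tsum_le_tsum (fun n => ?_) hsl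
    unfold conv
    rw [sum_mul, mul_sum, sum_div]
    refine sum_le_sum (fun x hx => ?_)
    have hx' : x.1 + x.2 = n := mem_antidiagonal.mp hx
    have h1 := h x.1 x.2
    rw [hx'] at h1
    have h2 : 0 ≤ a x.1 * a x.2 := mul_nonneg (ha.nonneg _) (ha.nonneg _)
    calc c * (a x.1 * T x.1 * (a x.2 * T x.2)) / 2
        = a x.1 * a x.2 * (c * (T x.1 * T x.2) / 2) := by ring
      _ ≤ a x.1 * a x.2 * T n := mul_le_mul_of_nonneg_left h1 h2
  rw [tsum_div_const, tsum_mul_left, ← hprod] at key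
  calc _ = c * ((∑' n, a n * T n) * ∑' n, a n * T n) / 2 := by ring
    _ ≤ _ := key

/-- upper bound for `Om_A` -/
theorem Om_le {a b : ℕ → ℝ} (ha : IsProb a) (hb : IsProb b) {c : ℝ}
    (h : ∀ m n, c * ((srv b m + tl b m) * (srv b n + tl b n)) / 2 ≤ srv b (m + n) + tl b (m + n)) :
    Gs a b - Gs (conv a a) b ≤ 1 + Gs a b - c * (1 + Gs a b) ^ 2 / 2 := by
  have h1 := tsum_conv_bar_ge ha hb h
  have haa := ha.conv ha
  have e1 := one_sub_Gs hb haa
  have e2 := one_sub_Gs hb ha
  rw [Gs_antisymm b (conv a a)] at e1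
  rw [Gs_antisymm b a] at e2
  rw [← e1, ← e2] at h1
  nlinarith

/-- trivial upper bound for `Om_A` -/
theorem Om_le_trivial {a b : ℕ → ℝ} (ha : IsProb a) (hb : IsProb b) :
    Gs a b - Gs (conv a a) b ≤ 1 + Gs a b := by
  have haa := ha.conv ha
  have e1 := one_sub_Gs hb haa
  rw [Gs_antisymm b (conv a a)] at e1
  have : 0 ≤ ∑' n, conv a a n * (srv b n + tl b n) :=
    tsum_nonneg (fun n => mul_nonneg (haa.nonneg n) (add_nonneg (hb.srv_nonneg n) (hb.tl_nonneg n)))
  linarith

/-! ## words -/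

/-- admissible hazard bound -/
structure HazOK (p : ℝ) (A : List Bool) (h : ℝ) : Prop where
  nonneg : 0 ≤ h
  lt_one : h < 1
  le : wt p A ≤ h * (1 - h) ^ (A.length - 1)

/-- admissible excess: `e ≥ min (1, (L - 1/2) h / (1 - h))` -/
def ExcOK (p : ℝ) (A : List Bool) (e : ℝ) : Prop :=
  1 ≤ e ∨ ∃ h, HazOK p A h ∧ ((A.length : ℝ) - 1 / 2) * (h / (1 - h)) ≤ e

/-- weighted loss of heads at the lower borders -/
noncomputable def LH (p h : ℝ) (A : List Bool) : ℝ :=
  (1 - p) * ∑ k ∈ bd A, ((A.count true : ℝ) - ((A.take k).count true : ℝ)) *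
    (wt p (A.drop k) / (1 - h) ^ (A.length - k))

/-- weighted loss of tails at the lower borders -/
noncomputable def LT (p h : ℝ) (A : List Bool) : ℝ :=
  p * ∑ k ∈ bd A, ((A.count false : ℝ) - ((A.take k).count false : ℝ)) *
    (wt p (A.drop k) / (1 - h) ^ (A.length - k))

theorem ExcOK.nonneg {p : ℝ} {A : List Bool} (hA : A ≠ []) {e : ℝ} (h : ExcOK p A e) : 0 ≤ e := by
  rcases h with h | ⟨h, h1, h2⟩
  · linarith
  · refine le_trans (mul_nonneg ?_ (div_nonneg h1.nonneg (by linarith [h1.lt_one]))) h2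
    have : (1 : ℝ) ≤ A.length := by exact_mod_cast List.length_pos_iff.2 hA
    linarith

/-- upper bound for `Om_B`, the excess is controlled by the word `A` -/
theorem Om_pm_le {p : ℝ} (h0 : 0 < p) (h1 : p < 1) {A B : List Bool} (hA : A ≠ []) (hB : B ≠ [])
    (hG : G p A B = 0) {e : ℝ} (he : ExcOK p A e) :
    ∑ k ∈ bd B, kap p B k * Wk (pm p B) (pm p B) (pm p A) k ≤ 1 / 2 + e / 2 := by
  have pA := isProb_pm h0 h1 hA
  have pB := isProb_pm h0 h1 hB
  rw [Om_pm h0 h1 hB hA, G_eq_Gs p hB hA]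
  have hG' : Gs (pm p B) (pm p A) = 0 := by
    rw [G_eq_Gs p hA hB, Gs_antisymm] at hG; linarith
  have htriv := Om_le_trivial pB pA
  rcases he with he | ⟨h, hh, hle⟩
  · linarith
  rcases le_total 1 e with he | he
  · linarith
  have hLr : (1 : ℝ) ≤ A.length := by exact_mod_cast List.length_pos_iff.2 hA
  have hx0 : 0 ≤ h / (1 - h) := div_nonneg hh.nonneg (by linarith [hh.lt_one])
  set e1 : ℝ := (A.length - 1 : ℕ) * (h / (1 - h)) with he1
  have hL1 : ((A.length - 1 : ℕ) : ℝ) = (A.length : ℝ) - 1 := by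
    rw [Nat.cast_sub (List.length_pos_iff.2 hA)]; simp
  have he10 : 0 ≤ e1 := mul_nonneg (Nat.cast_nonneg _) hx0
  have he1e : e1 + 1 / 2 * (h / (1 - h)) ≤ e := by
    rw [he1, hL1]; linarith
  have he11 : e1 ≤ 1 := by linarith
  have hz := haz_srv h0.le h1.le hA hh.nonneg hh.lt_one.le hh.le
  have hs := strad_srv h0.le h1.le hA hh.nonneg hh.lt_one hh.le
  have hbar := bar_ge pA hh.nonneg hh.lt_one he10 he11 hz hs
  have hle := Om_le pB pA hbar
  rw [hG'] at hle
  have hδ : 1 - 1 / 2 * (h / (1 - h)) ≤ (2 - 2 * h) / (2 - h) := by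
    have h1h : 0 < 1 - h := by linarith [hh.lt_one]
    have h2h : 0 < 2 - h := by linarith
    rw [show 1 - 1 / 2 * (h / (1 - h)) = (2 - 3 * h) / (2 * (1 - h)) by field_simp; ring,
      div_le_div_iff₀ (by linarith) h2h]
    nlinarith [sq_nonneg h, hh.nonneg]
  have hδ0 : 0 ≤ 1 - e1 := by linarith
  have hmul := mul_le_mul_of_nonneg_left hδ hδ0
  have : 1 - e ≤ (1 - e1) * ((2 - 2 * h) / (2 - h)) := by
    refine le_trans ?_ hmul
    nlinarith [mul_nonneg he10 hx0]
  rw [hG']
  linarith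

theorem Om_pm_half {p : ℝ} (h0 : 0 < p) (h1 : p < 1) {A B : List Bool} (hA : A ≠ []) (hB : B ≠ [])
    (hG : G p A B = 0) : 1 / 2 ≤ ∑ k ∈ bd A, kap p A k * Wk (pm p A) (pm p A) (pm p B) k := by
  rw [Om_pm h0 h1 hA hB]
  have := Om_pm_ge h0 h1 hA hB
  rw [hG] at this
  rw [hG]
  linarith

theorem count_take_le (A : List Bool) (k : ℕ) (x : Bool) : (A.take k).count x ≤ A.count x :=
  (List.take_sublist k A).count_le x

/-- lower bound of the `A` part of the derivative -/
theorem partA_ge {p h : ℝ} (h0 : 0 < p) (h1 : p < 1) {A : List Bool} (hA : A ≠ [])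
    (hh : HazOK p A h) {b : ℕ → ℝ} (hb : IsProb b) :
    ((A.count true : ℝ) * (1 - p) - (A.count false : ℝ) * p - LH p h A)
      * (∑ k ∈ bd A, kap p A k * Wk (pm p A) (pm p A) b k)
      ≤ p * (1 - p) * -(∑ k ∈ bd A, kap p A k * (((A.take k).count false : ℝ) / (1 - p)
          - ((A.take k).count true : ℝ) / p) * Wk (pm p A) (pm p A) b k) := by
  have pA := isProb_pm h0 h1 hA
  have hq : 0 < 1 - p := by linarith
  have h1h : 0 < 1 - h := by linarith [hh.lt_one]
  set O := ∑ k ∈ bd A, kap p A k * Wk (pm p A) (pm p A) b k with hO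
  have e1 : LH p h A * O = ∑ k ∈ bd A, (1 - p) * (((A.count true : ℝ)
      - ((A.take k).count true : ℝ)) * (wt p (A.drop k) * O / (1 - h) ^ (A.length - k))) := by
    rw [LH, mul_assoc, sum_mul, mul_sum]
    exact sum_congr rfl (fun k _ => by ring)
  have e2 : p * (1 - p) * -(∑ k ∈ bd A, kap p A k * (((A.take k).count false : ℝ) / (1 - p)
          - ((A.take k).count true : ℝ) / p) * Wk (pm p A) (pm p A) b k)
      = ∑ k ∈ bd A, ((1 - p) * ((A.take k).count true : ℝ) - p * ((A.take k).count false : ℝ))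
        * (kap p A k * Wk (pm p A) (pm p A) b k) := by
    rw [← sum_neg_distrib, mul_sum]
    refine sum_congr rfl (fun k _ => ?_)
    field_simp
    ring
  have e3 : ((A.count true : ℝ) * (1 - p) - (A.count false : ℝ) * p) * O
      = ∑ k ∈ bd A, ((A.count true : ℝ) * (1 - p) - (A.count false : ℝ) * p)
        * (kap p A k * Wk (pm p A) (pm p A) b k) := by rw [hO, mul_sum]
  rw [sub_mul, e1, e2, e3, ← sum_sub_distrib]
  refine sum_le_sum (fun k hk => ?_)
  have hw := kap_mul_Wk_le h0 h1 hA hh.nonneg hh.lt_one.le hh.le pA hb hk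
  have hpow : 0 < (1 - h) ^ (A.length - k) := pow_pos h1h _
  have hw2 : kap p A k * Wk (pm p A) (pm p A) b k
      ≤ wt p (A.drop k) * O / (1 - h) ^ (A.length - k) := by
    rw [le_div_iff₀ hpow, mul_comm]; exact hw
  have hc : (0 : ℝ) ≤ (A.count true : ℝ) - ((A.take k).count true : ℝ) := by
    have := count_take_le A k true
    rw [sub_nonneg]; exact_mod_cast this
  have hc2 : (0 : ℝ) ≤ (A.count false : ℝ) - ((A.take k).count false : ℝ) := by
    have := count_take_le A k false
    rw [sub_nonneg]; exact_mod_cast this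
  have hnn : 0 ≤ kap p A k * Wk (pm p A) (pm p A) b k :=
    mul_nonneg (one_div_nonneg.2 (wt_nonneg h0.le h1.le _)) (Wk_nonneg pA pA hb k)
  have m1 := mul_le_mul_of_nonneg_left hw2 (mul_nonneg hq.le hc)
  have m2 := mul_nonneg (mul_nonneg h0.le hc2) hnn
  nlinarith

/-- the mirror image of `partA_ge` -/
theorem partB_ge {p h : ℝ} (h0 : 0 < p) (h1 : p < 1) {B : List Bool} (hB : B ≠ [])
    (hh : HazOK p B h) {a : ℕ → ℝ} (ha : IsProb a) :
    -(((B.count true : ℝ) * (1 - p) - (B.count false : ℝ) * p + LT p h B)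
      * (∑ k ∈ bd B, kap p B k * Wk (pm p B) (pm p B) a k))
      ≤ p * (1 - p) * (∑ k ∈ bd B, kap p B k * (((B.take k).count false : ℝ) / (1 - p)
          - ((B.take k).count true : ℝ) / p) * Wk (pm p B) (pm p B) a k) := by
  have pB := isProb_pm h0 h1 hB
  have hq : 0 < 1 - p := by linarith
  have h1h : 0 < 1 - h := by linarith [hh.lt_one]
  set O := ∑ k ∈ bd B, kap p B k * Wk (pm p B) (pm p B) a k with hO
  have e1 : LT p h B * O = ∑ k ∈ bd B, p * (((B.count false : ℝ)
      - ((B.take k).count false : ℝ)) * (wt p (B.drop k) * O / (1 - h) ^ (B.length - k))) := by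
    rw [LT, mul_assoc, sum_mul, mul_sum]
    exact sum_congr rfl (fun k _ => by ring)
  have e2 : p * (1 - p) * (∑ k ∈ bd B, kap p B k * (((B.take k).count false : ℝ) / (1 - p)
          - ((B.take k).count true : ℝ) / p) * Wk (pm p B) (pm p B) a k)
      = ∑ k ∈ bd B, (p * ((B.take k).count false : ℝ) - (1 - p) * ((B.take k).count true : ℝ))
        * (kap p B k * Wk (pm p B) (pm p B) a k) := by
    rw [mul_sum]
    refine sum_congr rfl (fun k _ => ?_)
    field_simp
  have e3 : ((B.count true : ℝ) * (1 - p) - (B.count false : ℝ) * p) * O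
      = ∑ k ∈ bd B, ((B.count true : ℝ) * (1 - p) - (B.count false : ℝ) * p)
        * (kap p B k * Wk (pm p B) (pm p B) a k) := by rw [hO, mul_sum]
  rw [add_mul, e1, e2, e3, ← sum_add_distrib, ← sum_neg_distrib]
  refine sum_le_sum (fun k hk => ?_)
  have hw := kap_mul_Wk_le h0 h1 hB hh.nonneg hh.lt_one.le hh.le pB ha hk
  have hpow : 0 < (1 - h) ^ (B.length - k) := pow_pos h1h _
  have hw2 : kap p B k * Wk (pm p B) (pm p B) a k
      ≤ wt p (B.drop k) * O / (1 - h) ^ (B.length - k) := by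
    rw [le_div_iff₀ hpow, mul_comm]; exact hw
  have hc : (0 : ℝ) ≤ (B.count true : ℝ) - ((B.take k).count true : ℝ) := by
    have := count_take_le B k true
    rw [sub_nonneg]; exact_mod_cast this
  have hc2 : (0 : ℝ) ≤ (B.count false : ℝ) - ((B.take k).count false : ℝ) := by
    have := count_take_le B k false
    rw [sub_nonneg]; exact_mod_cast this
  have hnn : 0 ≤ kap p B k * Wk (pm p B) (pm p B) a k :=
    mul_nonneg (one_div_nonneg.2 (wt_nonneg h0.le h1.le _)) (Wk_nonneg pB pB ha k)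
  have m1 := mul_le_mul_of_nonneg_left hw2 (mul_nonneg h0.le hc2)
  have m2 := mul_nonneg (mul_nonneg hq.le hc) hnn
  nlinarith

/-! ## the real inequality -/

/-- **the target**: the real inequality for `(A, B, p)` -/
def NumI (p : ℝ) (A B : List Bool) : Prop :=
  ∃ hA hB e : ℝ, HazOK p A hA ∧ HazOK p B hB ∧ ExcOK p A e ∧
    LH p hA A + LT p hB B
      + max 0 ((B.count true : ℝ) * (1 - p) - (B.count false : ℝ) * p + LT p hB B) * e
      < ((A.count true : ℝ) - B.count true) * (1 - p) + ((B.count false : ℝ) - A.count false) * p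

theorem HazOK.map_not {p h : ℝ} {A : List Bool} (hh : HazOK (1 - p) (A.map not) h) :
    HazOK p A h := by
  refine ⟨hh.nonneg, hh.lt_one, ?_⟩
  have := hh.le
  rwa [wt_map_not, sub_sub_cancel, List.length_map] at this

theorem ExcOK.map_not {p e : ℝ} {A : List Bool} (hh : ExcOK (1 - p) (A.map not) e) :
    ExcOK p A e := by
  rcases hh with h | ⟨h, h1, h2⟩
  · exact Or.inl h
  · refine Or.inr ⟨h, h1.map_not, ?_⟩
    rwa [List.length_map] at h2

theorem LH_map_not (p h : ℝ) (A : List Bool) : LH (1 - p) h (A.map not) = LT p h A := by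
  simp only [LH, LT, bd_map_not, count_map_not, ← List.map_take, ← List.map_drop, wt_map_not,
    sub_sub_cancel, List.length_map, Bool.not_true]

theorem LT_map_not (p h : ℝ) (A : List Bool) : LT (1 - p) h (A.map not) = LH p h A := by
  simp only [LH, LT, bd_map_not, count_map_not, ← List.map_take, ← List.map_drop, wt_map_not,
    sub_sub_cancel, List.length_map, Bool.not_false]

/-- the mirror image of the real inequality -/
theorem NumI.map_not {p : ℝ} {A B : List Bool} (h : NumI (1 - p) (B.map not) (A.map not)) :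
    ∃ hA hB e : ℝ, HazOK p A hA ∧ HazOK p B hB ∧ ExcOK p B e ∧
    LH p hA A + LT p hB B
      + max 0 (-((A.count true : ℝ) * (1 - p) - (A.count false : ℝ) * p - LH p hA A)) * e
      < ((A.count true : ℝ) - B.count true) * (1 - p) + ((B.count false : ℝ) - A.count false) * p := by
  obtain ⟨hB, hA, e, h1, h2, h3, h4⟩ := h
  refine ⟨hA, hB, e, h2.map_not, h1.map_not, h3.map_not, ?_⟩
  rw [LH_map_not, LT_map_not] at h4
  simp only [count_map_not, sub_sub_cancel, Bool.not_true, Bool.not_false] at h4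
  have e1 : (A.count false : ℝ) * p - (A.count true : ℝ) * (1 - p) + LH p hA A
      = -((A.count true : ℝ) * (1 - p) - (A.count false : ℝ) * p - LH p hA A) := by ring
  rw [e1] at h4
  linarith

/-- **reduction**: the real inequality and its mirror image give a positive derivative at a tie -/
theorem up_of_NumI {p : ℝ} (h0 : 0 < p) (h1 : p < 1) {A B : List Bool} (hA : A ≠ []) (hB : B ≠ [])
    (hG : G p A B = 0) (n1 : NumI p A B) (n2 : NumI (1 - p) (B.map not) (A.map not)) :
    ∃ d : ℝ, 0 < d ∧ HasDerivAt (fun x => G x A B) d p := by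
  refine ⟨_, ?_, hasDerivAt_G h0 h1 hA hB⟩
  have pA := isProb_pm h0 h1 hA
  have pB := isProb_pm h0 h1 hB
  have hGB : G p B A = 0 := by
    rw [G_eq_Gs p hA hB, Gs_antisymm] at hG
    rw [G_eq_Gs p hB hA]; linarith
  have oA := Om_pm_half h0 h1 hA hB hG
  have oB := Om_pm_half h0 h1 hB hA hGB
  obtain ⟨hA1, hB1, e1, a1, a2, a3, a4⟩ := n1
  obtain ⟨hA2, hB2, e2, b1, b2, b3, b4⟩ := n2.map_not
  have xB := Om_pm_le h0 h1 hA hB hG a3
  have xA := Om_pm_le h0 h1 hB hA hGB b3
  have e10 := a3.nonneg hA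
  have e20 := b3.nonneg hB
  have pA1 := partA_ge h0 h1 hA a1 pB
  have pA2 := partA_ge h0 h1 hA b1 pB
  have pB1 := partB_ge h0 h1 hB a2 pA
  set OA := ∑ k ∈ bd A, kap p A k * Wk (pm p A) (pm p A) (pm p B) k
  set OB := ∑ k ∈ bd B, kap p B k * Wk (pm p B) (pm p B) (pm p A) k
  set DA := -(∑ k ∈ bd A, kap p A k * (((A.take k).count false : ℝ) / (1 - p)
          - ((A.take k).count true : ℝ) / p) * Wk (pm p A) (pm p A) (pm p B) k)
  set DB := ∑ k ∈ bd B, kap p B k * (((B.take k).count false : ℝ) / (1 - p)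
          - ((B.take k).count true : ℝ) / p) * Wk (pm p B) (pm p B) (pm p A) k
  set u := (A.count true : ℝ) * (1 - p) - (A.count false : ℝ) * p - LH p hA1 A with hu
  set u2 := (A.count true : ℝ) * (1 - p) - (A.count false : ℝ) * p - LH p hA2 A with hu2
  set v := (B.count true : ℝ) * (1 - p) - (B.count false : ℝ) * p + LT p hB1 B with hv
  have pB2 := partB_ge h0 h1 hB b2 pA
  set v2 := (B.count true : ℝ) * (1 - p) - (B.count false : ℝ) * p + LT p hB2 B with hv2
  have a4' : max 0 v * e1 < u - v := by rw [hu, hv]; linarith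
  have b4' : max 0 (-u2) * e2 < u2 - v2 := by rw [hu2, hv2]; linarith
  have hpq : 0 < p * (1 - p) := mul_pos h0 (by linarith)
  have main : 0 < p * (1 - p) * (DA + DB) := by
    rcases lt_or_ge 0 v with hv0 | hv0
    · rw [max_eq_right hv0.le] at a4'
      have hu0 : 0 < u := by nlinarith [mul_nonneg hv0.le e10]
      have s1 := mul_le_mul_of_nonneg_left oA hu0.le
      have s2 := mul_le_mul_of_nonneg_left xB hv0.le
      nlinarith
    · have huv : 0 < u - v := by
        rw [max_eq_left hv0, zero_mul] at a4'; exact a4'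
      rcases lt_or_ge u2 0 with hu20 | hu20
      · rw [max_eq_right (by linarith)] at b4'
        have hv20 : v2 < 0 := by nlinarith [mul_nonneg (neg_nonneg.2 hu20.le) e20]
        have s1 := mul_le_mul_of_nonneg_left xA (neg_nonneg.2 hu20.le)
        have s2 := mul_le_mul_of_nonneg_left oB (neg_nonneg.2 hv20.le)
        nlinarith
      · rcases lt_or_ge u 0 with hu0 | hu0
        · -- `v < u < 0 ≤ u2`
          have s1 := mul_nonneg hu20 (le_trans (by norm_num : (0 : ℝ) ≤ 1 / 2) oA)
          have s2 := mul_le_mul_of_nonneg_left oB (neg_nonneg.2 hv0)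
          nlinarith
        · have s1 := mul_le_mul_of_nonneg_left oA hu0
          have s2 := mul_le_mul_of_nonneg_left oB (neg_nonneg.2 hv0)
          nlinarith
  exact (mul_pos_iff_of_pos_left hpq).1 main

end Coin
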