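import Pool.Agent.Lib.Coin.IncRed

/-!
# Coin race: the incomparable case, reduction with four numbers; the longer word (module M5a)
-/

namespace Coin

open Finset

/-! ## monotonicity of the weights `W(a, a'; b)` for the longer word -/

/-- `P(B - A = m)` -/
noncomputable def lag2 (a b : ℕ → ℝ) (m : ℕ) : ℝ := ∑' j, a j * b (j + m)

theorem summable_lag2 {a b : ℕ → ℝ} (ha : IsProb a) (hb : IsProb b) (m : ℕ) :
    Summable (fun j => a j * b (j + m)) :=
  Summable.of_nonneg_of_le (fun j => mul_nonneg (ha.nonneg j) (hb.nonneg _))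
    (fun j => mul_le_of_le_one_right (ha.nonneg j) (hb.le_one _)) ha.summable

theorem lag2_nonneg {a b : ℕ → ℝ} (ha : IsProb a) (hb : IsProb b) (m : ℕ) : 0 ≤ lag2 a b m :=
  tsum_nonneg (fun j => mul_nonneg (ha.nonneg j) (hb.nonneg _))

theorem lag2_le_one {a b : ℕ → ℝ} (ha : IsProb a) (hb : IsProb b) (m : ℕ) : lag2 a b m ≤ 1 := by
  rw [← ha.tsum]
  exact (summable_lag2 ha hb m).tsum_le_tsum
    (fun j => mul_le_of_le_one_right (ha.nonneg j) (hb.le_one _)) ha.summable

theorem lag2_anti {a b : ℕ → ℝ} (ha : IsProb a) (hb : IsProb b) {LA LB : ℕ} (hL : LB ≤ LA)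
    (h0 : ∀ n < LA, a n = 0) (hba : ∀ n, LB ≤ n → b (n + 1) ≤ b n) (m : ℕ) :
    lag2 a b (m + 1) ≤ lag2 a b m := by
  refine (summable_lag2 ha hb (m + 1)).tsum_le_tsum (fun j => ?_) (summable_lag2 ha hb m)
  rcases lt_or_ge j LA with hj | hj
  · rw [h0 j hj]; simp
  · exact mul_le_mul_of_nonneg_left (hba (j + m) (by omega)) (ha.nonneg j)

theorem lag2_antitone {a b : ℕ → ℝ} (ha : IsProb a) (hb : IsProb b) {LA LB : ℕ} (hL : LB ≤ LA)
    (h0 : ∀ n < LA, a n = 0) (hba : ∀ n, LB ≤ n → b (n + 1) ≤ b n) : Antitone (lag2 a b) :=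
  antitone_nat_of_succ_le (lag2_anti ha hb hL h0 hba)

theorem tsum_mul_conv_eq2 {a a' b : ℕ → ℝ} (ha : IsProb a) (ha' : IsProb a') (hb : IsProb b)
    {k : ℕ} (h0 : ∀ i < k, a i = 0) :
    ∑' n, b n * conv a a' (n + k) = ∑' i, a i * lag2 a' b (i - k) := by
  set F : ℕ → ℕ → ℝ := fun n i => b n * (a i * (if i ≤ n + k then a' (n + k - i) else 0)) with hF
  have hF0 : ∀ n i, 0 ≤ F n i := by
    intro n i
    simp only [hF]
    split_ifs
    · exact mul_nonneg (hb.nonneg _) (mul_nonneg (ha.nonneg _) (ha'.nonneg _))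
    · simp
  have hF1 : ∀ n i, F n i ≤ b n * a i := by
    intro n i
    simp only [hF]
    refine mul_le_mul_of_nonneg_left ?_ (hb.nonneg n)
    refine mul_le_of_le_one_right (ha.nonneg i) ?_
    split_ifs
    · exact ha'.le_one _
    · exact zero_le_one
  have hS : Summable (Function.uncurry F) := by
    refine Summable.of_nonneg_of_le (fun x => hF0 x.1 x.2) (fun x => hF1 x.1 x.2) ?_
    exact hb.summable.mul_of_nonneg ha.summable hb.nonneg ha.nonneg
  have h1 : ∀ n, b n * conv a a' (n + k) = ∑' i, F n i := by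
    intro n
    rw [conv_eq_range, tsum_eq_sum (s := range (n + k + 1))]
    · rw [mul_sum]
      refine sum_congr rfl (fun i hi => ?_)
      have : i ≤ n + k := by have := mem_range.mp hi; omega
      simp only [hF, if_pos this]
    · intro i hi
      have : ¬ i ≤ n + k := by intro h; exact hi (mem_range.mpr (by omega))
      simp only [hF, if_neg this]; ring
  have h2 : ∀ i, ∑' n, F n i = a i * lag2 a' b (i - k) := by
    intro i
    rcases lt_or_ge i k with hi | hi
    · rw [h0 i hi, zero_mul]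
      have : (fun n => F n i) = fun _ => 0 := by
        funext n; simp only [hF, h0 i hi]; ring
      rw [this, tsum_zero]
    · have hs : Summable (fun n => F n i) :=
        Summable.of_nonneg_of_le (fun n => hF0 n i) (fun n => hF1 n i)
          (hb.summable.mul_right (a i))
      rw [← hs.sum_add_tsum_nat_add (i - k)]
      have hz : ∑ n ∈ range (i - k), F n i = 0 := by
        refine sum_eq_zero (fun n hn => ?_)
        have : ¬ i ≤ n + k := by have := mem_range.mp hn; omega
        simp only [hF, if_neg this]; ring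
      rw [hz, zero_add]
      unfold lag2
      rw [← tsum_mul_left]
      refine tsum_congr (fun j => ?_)
      have h3 : i ≤ j + (i - k) + k := by omega
      simp only [hF, if_pos h3]
      rw [show j + (i - k) + k - i = j by omega]; ring
  calc ∑' n, b n * conv a a' (n + k) = ∑' n, ∑' i, F n i := tsum_congr h1
    _ = ∑' i, ∑' n, F n i := hS.tsum_comm.symm
    _ = _ := tsum_congr h2

/-- the weights `Wk a a b k` are nondecreasing for `k ≤ |A|` if `|B| ≤ |A|` -/
theorem Wk_mono2_step {a b : ℕ → ℝ} (ha : IsProb a) (hb : IsProb b) {LA LB : ℕ} (hL : LB ≤ LA)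
    (ha0 : ∀ n < LA, a n = 0) (hba : ∀ n, LB ≤ n → b (n + 1) ≤ b n) {k : ℕ} (hk : 1 ≤ k)
    (hkL : k + 1 ≤ LA) : Wk a a b k ≤ Wk a a b (k + 1) := by
  have hc := ha.conv ha
  have hs : ∀ j, Summable (fun n => b n * conv a a (n + j)) := fun j =>
    Summable.of_nonneg_of_le (fun n => mul_nonneg (hb.nonneg n) (hc.nonneg _))
      (fun n => mul_le_of_le_one_right (hb.nonneg n) (hc.le_one _)) hb.summable
  have hW : ∀ j, 1 ≤ j → Wk a a b j = (∑' n, b n * conv a a (n + j))
      + ∑' n, b n * conv a a (n + (j - 1)) := by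
    intro j hj
    unfold Wk
    rw [← (hs j).tsum_add (hs (j - 1))]
    refine tsum_congr (fun n => ?_)
    rw [show n + j - 1 = n + (j - 1) by omega]; ring
  rw [hW k hk, hW (k + 1) (by omega), show k + 1 - 1 = k by omega,
    tsum_mul_conv_eq2 ha ha hb (k := k + 1) (fun i hi => ha0 i (by omega)),
    tsum_mul_conv_eq2 ha ha hb (k := k) (fun i hi => ha0 i (by omega)),
    tsum_mul_conv_eq2 ha ha hb (k := k - 1) (fun i hi => ha0 i (by omega))]
  have hsl : ∀ j, Summable (fun i => a i * lag2 a b (i - j)) := fun j =>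
    Summable.of_nonneg_of_le (fun i => mul_nonneg (ha.nonneg i) (lag2_nonneg ha hb _))
      (fun i => mul_le_of_le_one_right (ha.nonneg i) (lag2_le_one ha hb _)) ha.summable
  have : ∑' i, a i * lag2 a b (i - (k - 1)) ≤ ∑' i, a i * lag2 a b (i - (k + 1)) := by
    refine (hsl _).tsum_le_tsum (fun i => ?_) (hsl _)
    exact mul_le_mul_of_nonneg_left (lag2_antitone ha hb hL ha0 hba (by omega)) (ha.nonneg i)
  linarith

theorem Wk_mono2 {a b : ℕ → ℝ} (ha : IsProb a) (hb : IsProb b) {LA LB : ℕ} (hL : LB ≤ LA)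
    (ha0 : ∀ n < LA, a n = 0) (hba : ∀ n, LB ≤ n → b (n + 1) ≤ b n) {j k : ℕ} (hj : 1 ≤ j)
    (hjk : j ≤ k) (hkL : k ≤ LA) : Wk a a b j ≤ Wk a a b k := by
  induction k, hjk using Nat.le_induction with
  | base => exact le_rfl
  | succ k hjk ih =>
    exact (ih (by omega)).trans (Wk_mono2_step ha hb hL ha0 hba (by omega) hkL)

theorem Wk_pm_mono2 {p : ℝ} (h0 : 0 < p) (h1 : p < 1) {A B : List Bool} (hA : A ≠ []) (hB : B ≠ [])
    (hL : B.length ≤ A.length) {j k : ℕ} (hj : 1 ≤ j) (hjk : j ≤ k) (hk : k ≤ A.length) :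
    Wk (pm p A) (pm p A) (pm p B) j ≤ Wk (pm p A) (pm p A) (pm p B) k :=
  Wk_mono2 (isProb_pm h0 h1 hA) (isProb_pm h0 h1 hB) hL
    (fun _ hn => pm_of_lt p hn) (fun _ hn => pm_succ_le h0.le h1.le hn) hj hjk hk

/-! ## the losses -/

/-- loss of heads at the lower borders of `A` -/
noncomputable def lossH (p : ℝ) (A : List Bool) (b : ℕ → ℝ) : ℝ :=
  (1 - p) * ∑ k ∈ bd A, kap p A k * ((A.count true : ℝ) - ((A.take k).count true : ℝ)) *
    Wk (pm p A) (pm p A) b k

/-- loss of tails at the lower borders of `A` -/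
noncomputable def lossT (p : ℝ) (A : List Bool) (b : ℕ → ℝ) : ℝ :=
  p * ∑ k ∈ bd A, kap p A k * ((A.count false : ℝ) - ((A.take k).count false : ℝ)) *
    Wk (pm p A) (pm p A) b k

/-- `Om_A` -/
noncomputable def Om (p : ℝ) (A : List Bool) (b : ℕ → ℝ) : ℝ :=
  ∑ k ∈ bd A, kap p A k * Wk (pm p A) (pm p A) b k

theorem kap_nonneg' {p : ℝ} (h0 : 0 < p) (h1 : p < 1) (A : List Bool) (k : ℕ) : 0 ≤ kap p A k :=
  one_div_nonneg.2 (wt_nonneg h0.le h1.le _)

/-- the top border alone -/
theorem top_le_Om {p : ℝ} (h0 : 0 < p) (h1 : p < 1) {A : List Bool} (hA : A ≠ []) {b : ℕ → ℝ}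
    (hb : IsProb b) : Wk (pm p A) (pm p A) b A.length ≤ wt p A * Om p A b := by
  have pA := isProb_pm h0 h1 hA
  have hw := wt_pos h0 h1 A
  have hk := length_mem_bd hA
  have h2 : kap p A A.length * Wk (pm p A) (pm p A) b A.length ≤ Om p A b :=
    single_le_sum (f := fun k => kap p A k * Wk (pm p A) (pm p A) b k)
      (fun k _ => mul_nonneg (kap_nonneg' h0 h1 A k) (Wk_nonneg pA pA hb k)) hk
  have h3 : kap p A A.length = 1 / wt p A := by unfold kap; rw [List.take_length]
  rw [h3] at h2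
  have := mul_le_mul_of_nonneg_left h2 hw.le
  rwa [← mul_assoc, mul_one_div_cancel hw.ne', one_mul] at this

/-- **the longer word**: the loss is at most `lamH` times `Om` -/
theorem lossH_le {p : ℝ} (h0 : 0 < p) (h1 : p < 1) {A B : List Bool} (hA : A ≠ []) (hB : B ≠ [])
    (hL : B.length ≤ A.length) : lossH p A (pm p B) ≤ lamH p A * Om p A (pm p B) := by
  have pA := isProb_pm h0 h1 hA
  have pB := isProb_pm h0 h1 hB
  have hq : 0 ≤ 1 - p := by linarith
  unfold lossH lamH
  rw [mul_assoc]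
  refine mul_le_mul_of_nonneg_left ?_ hq
  rw [mul_right_comm, mul_comm (wt p A * Om p A (pm p B))]
  have htop := top_le_Om h0 h1 hA pB
  rw [sum_mul]
  have key : ∀ k ∈ bd A, kap p A k * ((A.count true : ℝ) - ((A.take k).count true : ℝ)) *
      Wk (pm p A) (pm p A) (pm p B) k
      ≤ kap p A k * ((A.count true : ℝ) - ((A.take k).count true : ℝ)) *
        (wt p A * Om p A (pm p B)) := by
    intro k hk
    have hb := bd_bounds hk
    have hc : (0 : ℝ) ≤ (A.count true : ℝ) - ((A.take k).count true : ℝ) := by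
      have := count_take_le A k true
      rw [sub_nonneg]; exact_mod_cast this
    refine mul_le_mul_of_nonneg_left ?_ (mul_nonneg (kap_nonneg' h0 h1 A k) hc)
    exact (Wk_pm_mono2 h0 h1 hA hB hL hb.1 hb.2 le_rfl).trans htop
  exact sum_le_sum key

/-- the mirror image -/
theorem lossT_le {p : ℝ} (h0 : 0 < p) (h1 : p < 1) {A B : List Bool} (hA : A ≠ []) (hB : B ≠ [])
    (hL : B.length ≤ A.length) : lossT p A (pm p B) ≤ lamT p A * Om p A (pm p B) := by
  have pA := isProb_pm h0 h1 hA
  have pB := isProb_pm h0 h1 hB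
  unfold lossT lamT
  rw [mul_assoc]
  refine mul_le_mul_of_nonneg_left ?_ h0.le
  rw [mul_right_comm, mul_comm (wt p A * Om p A (pm p B))]
  have htop := top_le_Om h0 h1 hA pB
  rw [sum_mul]
  have key : ∀ k ∈ bd A, kap p A k * ((A.count false : ℝ) - ((A.take k).count false : ℝ)) *
      Wk (pm p A) (pm p A) (pm p B) k
      ≤ kap p A k * ((A.count false : ℝ) - ((A.take k).count false : ℝ)) *
        (wt p A * Om p A (pm p B)) := by
    intro k hk
    have hb := bd_bounds hk
    have hc : (0 : ℝ) ≤ (A.count false : ℝ) - ((A.take k).count false : ℝ) := by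
      have := count_take_le A k false
      rw [sub_nonneg]; exact_mod_cast this
    refine mul_le_mul_of_nonneg_left ?_ (mul_nonneg (kap_nonneg' h0 h1 A k) hc)
    exact (Wk_pm_mono2 h0 h1 hA hB hL hb.1 hb.2 le_rfl).trans htop
  exact sum_le_sum key

/-! ## the reduction with four numbers -/

theorem partA_ge2 {p : ℝ} (h0 : 0 < p) (h1 : p < 1) {A : List Bool} (hA : A ≠ [])
    {b : ℕ → ℝ} (hb : IsProb b) {l : ℝ} (hl : lossH p A b ≤ l * Om p A b) :
    ((A.count true : ℝ) * (1 - p) - (A.count false : ℝ) * p - l) * Om p A b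
      ≤ p * (1 - p) * -(∑ k ∈ bd A, kap p A k * (((A.take k).count false : ℝ) / (1 - p)
          - ((A.take k).count true : ℝ) / p) * Wk (pm p A) (pm p A) b k) := by
  have pA := isProb_pm h0 h1 hA
  have hq : 0 < 1 - p := by linarith
  have e2 : p * (1 - p) * -(∑ k ∈ bd A, kap p A k * (((A.take k).count false : ℝ) / (1 - p)
          - ((A.take k).count true : ℝ) / p) * Wk (pm p A) (pm p A) b k)
      = ∑ k ∈ bd A, ((1 - p) * ((A.take k).count true : ℝ) - p * ((A.take k).count false : ℝ))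
        * (kap p A k * Wk (pm p A) (pm p A) b k) := by
    rw [← sum_neg_distrib, mul_sum]
    refine sum_congr rfl (fun k _ => ?_)
    field_simp
    ring
  have e3 : ((A.count true : ℝ) * (1 - p) - (A.count false : ℝ) * p) * Om p A b
      = ∑ k ∈ bd A, ((A.count true : ℝ) * (1 - p) - (A.count false : ℝ) * p)
        * (kap p A k * Wk (pm p A) (pm p A) b k) := by rw [Om, mul_sum]
  have e4 : ((A.count true : ℝ) * (1 - p) - (A.count false : ℝ) * p) * Om p A b - lossH p A b
      ≤ ∑ k ∈ bd A, ((1 - p) * ((A.take k).count true : ℝ) - p * ((A.take k).count false : ℝ))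
        * (kap p A k * Wk (pm p A) (pm p A) b k) := by
    rw [e3, lossH, mul_sum, ← sum_sub_distrib]
    refine sum_le_sum (fun k hk => ?_)
    have hc2 : (0 : ℝ) ≤ (A.count false : ℝ) - ((A.take k).count false : ℝ) := by
      have := count_take_le A k false
      rw [sub_nonneg]; exact_mod_cast this
    have hnn : 0 ≤ kap p A k * Wk (pm p A) (pm p A) b k :=
      mul_nonneg (kap_nonneg' h0 h1 A k) (Wk_nonneg pA pA hb k)
    have m2 := mul_nonneg (mul_nonneg h0.le hc2) hnn
    nlinarith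
  rw [e2]
  linarith

theorem partB_ge2 {p : ℝ} (h0 : 0 < p) (h1 : p < 1) {B : List Bool} (hB : B ≠ [])
    {a : ℕ → ℝ} (ha : IsProb a) {l : ℝ} (hl : lossT p B a ≤ l * Om p B a) :
    -(((B.count true : ℝ) * (1 - p) - (B.count false : ℝ) * p + l) * Om p B a)
      ≤ p * (1 - p) * (∑ k ∈ bd B, kap p B k * (((B.take k).count false : ℝ) / (1 - p)
          - ((B.take k).count true : ℝ) / p) * Wk (pm p B) (pm p B) a k) := by
  have pB := isProb_pm h0 h1 hB
  have hq : 0 < 1 - p := by linarith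
  have e2 : p * (1 - p) * (∑ k ∈ bd B, kap p B k * (((B.take k).count false : ℝ) / (1 - p)
          - ((B.take k).count true : ℝ) / p) * Wk (pm p B) (pm p B) a k)
      = ∑ k ∈ bd B, (p * ((B.take k).count false : ℝ) - (1 - p) * ((B.take k).count true : ℝ))
        * (kap p B k * Wk (pm p B) (pm p B) a k) := by
    rw [mul_sum]
    refine sum_congr rfl (fun k _ => ?_)
    field_simp
  have e3 : -(((B.count true : ℝ) * (1 - p) - (B.count false : ℝ) * p) * Om p B a)
      = ∑ k ∈ bd B, -(((B.count true : ℝ) * (1 - p) - (B.count false : ℝ) * p)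
        * (kap p B k * Wk (pm p B) (pm p B) a k)) := by rw [Om, mul_sum, sum_neg_distrib]
  have e4 : -(((B.count true : ℝ) * (1 - p) - (B.count false : ℝ) * p) * Om p B a) - lossT p B a
      ≤ ∑ k ∈ bd B, (p * ((B.take k).count false : ℝ) - (1 - p) * ((B.take k).count true : ℝ))
        * (kap p B k * Wk (pm p B) (pm p B) a k) := by
    rw [e3, lossT, mul_sum, ← sum_sub_distrib]
    refine sum_le_sum (fun k hk => ?_)
    have hc : (0 : ℝ) ≤ (B.count true : ℝ) - ((B.take k).count true : ℝ) := by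
      have := count_take_le B k true
      rw [sub_nonneg]; exact_mod_cast this
    have hnn : 0 ≤ kap p B k * Wk (pm p B) (pm p B) a k :=
      mul_nonneg (kap_nonneg' h0 h1 B k) (Wk_nonneg pB pB ha k)
    have m2 := mul_nonneg (mul_nonneg hq.le hc) hnn
    nlinarith
  rw [e2]
  linarith

/-- **reduction with four numbers** -/
theorem up_of_four {p : ℝ} (h0 : 0 < p) (h1 : p < 1) {A B : List Bool} (hA : A ≠ []) (hB : B ≠ [])
    (hG : G p A B = 0) {lA lB eA eB : ℝ}
    (h2 : lossH p A (pm p B) ≤ lA * Om p A (pm p B))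
    (h3 : lossT p B (pm p A) ≤ lB * Om p B (pm p A))
    (h4 : Om p B (pm p A) ≤ (1 + eA) / 2) (h5 : Om p A (pm p B) ≤ (1 + eB) / 2)
    (h6 : lA + lB
      + eA * max 0 ((B.count true : ℝ) * (1 - p) - (B.count false : ℝ) * p + lB)
      + eB * max 0 (lA - ((A.count true : ℝ) * (1 - p) - (A.count false : ℝ) * p))
      < ((A.count true : ℝ) - B.count true) * (1 - p) + ((B.count false : ℝ) - A.count false) * p) :
    ∃ d : ℝ, 0 < d ∧ HasDerivAt (fun x => G x A B) d p := by
  refine ⟨_, ?_, hasDerivAt_G h0 h1 hA hB⟩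
  have pA := isProb_pm h0 h1 hA
  have pB := isProb_pm h0 h1 hB
  have hGB : G p B A = 0 := by
    rw [G_eq_Gs p hA hB, Gs_antisymm] at hG
    rw [G_eq_Gs p hB hA]; linarith
  have oA : 1 / 2 ≤ Om p A (pm p B) := Om_pm_half h0 h1 hA hB hG
  have oB : 1 / 2 ≤ Om p B (pm p A) := Om_pm_half h0 h1 hB hA hGB
  have q1 := partA_ge2 h0 h1 hA pB h2
  have q2 := partB_ge2 h0 h1 hB pA h3
  set OA := Om p A (pm p B)
  set OB := Om p B (pm p A)
  set DA := -(∑ k ∈ bd A, kap p A k * (((A.take k).count false : ℝ) / (1 - p)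
          - ((A.take k).count true : ℝ) / p) * Wk (pm p A) (pm p A) (pm p B) k)
  set DB := ∑ k ∈ bd B, kap p B k * (((B.take k).count false : ℝ) / (1 - p)
          - ((B.take k).count true : ℝ) / p) * Wk (pm p B) (pm p B) (pm p A) k
  set x := (A.count true : ℝ) * (1 - p) - (A.count false : ℝ) * p with hx
  set y := (B.count true : ℝ) * (1 - p) - (B.count false : ℝ) * p with hy
  have h6' : lA + lB + eA * max 0 (y + lB) + eB * max 0 (lA - x) < x - y := by
    rw [hx, hy]
    rw [hx, hy] at h6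
    linarith
  have e1 : 0 ≤ eA := by linarith
  have e2 : 0 ≤ eB := by linarith
  have hpq : 0 < p * (1 - p) := mul_pos h0 (by linarith)
  have m1 : 0 ≤ eA * max 0 (y + lB) := mul_nonneg e1 (le_max_left _ _)
  have m2 : 0 ≤ eB * max 0 (lA - x) := mul_nonneg e2 (le_max_left _ _)
  have main : 0 < p * (1 - p) * (DA + DB) := by
    rcases lt_or_ge 0 (y + lB) with hv0 | hv0
    · rw [max_eq_right hv0.le] at h6' m1
      have hu0 : 0 < x - lA := by linarith
      have s1 := mul_le_mul_of_nonneg_left oA hu0.le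
      have s2 := mul_le_mul_of_nonneg_left h4 hv0.le
      nlinarith
    · rcases lt_or_ge (x - lA) 0 with hu0 | hu0
      · rw [max_eq_right (by linarith : 0 ≤ lA - x)] at h6' m2
        have s1 := mul_le_mul_of_nonneg_left h5 (by linarith : 0 ≤ lA - x)
        have s2 := mul_le_mul_of_nonneg_left oB (neg_nonneg.2 hv0)
        nlinarith
      · have s1 := mul_le_mul_of_nonneg_left oA hu0
        have s2 := mul_le_mul_of_nonneg_left oB (neg_nonneg.2 hv0)
        nlinarith
  exact (mul_pos_iff_of_pos_left hpq).1 main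

end Coin
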