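import Mathlib

/-!
# Fixed point interval bounds evaluated by the kernel

Scale `10^6`. `Up x n` is `x * 10^6 ≤ n`, `Lw n x` is `n ≤ x * 10^6` with natural numbers `n`.
All operations are operations on natural numbers, with truncated subtraction.
-/

namespace Coin.IB

/-- upper bound -/
def Up (x : ℝ) (n : ℕ) : Prop := x * 1000000 ≤ (n : ℝ)

/-- lower bound -/
def Lw (n : ℕ) (x : ℝ) : Prop := (n : ℝ) ≤ x * 1000000

/-- product rounded up -/
def mU (a b : ℕ) : ℕ := (a * b + 999999) / 1000000

/-- product rounded down -/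
def mL (a b : ℕ) : ℕ := a * b / 1000000

/-- quotient rounded up -/
def dU (a b : ℕ) : ℕ := (a * 1000000 + (b - 1)) / b

/-- division by a natural number, rounded up -/
def hf (a n : ℕ) : ℕ := (a + (n - 1)) / n

theorem le_ceilDiv (a n : ℕ) (hn : 0 < n) : (a : ℝ) / n ≤ (((a + (n - 1)) / n : ℕ) : ℝ) := by
  rw [div_le_iff₀ (by exact_mod_cast hn)]
  have h : a ≤ (a + (n - 1)) / n * n := by
    have h1 := Nat.div_add_mod (a + (n - 1)) n
    have h2 := Nat.mod_lt (a + (n - 1)) hn
    have h3 : (a + (n - 1)) / n * n = n * ((a + (n - 1)) / n) := Nat.mul_comm _ _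
    omega
  exact_mod_cast h

theorem floorDiv_le (a n : ℕ) (hn : 0 < n) : ((a / n : ℕ) : ℝ) ≤ (a : ℝ) / n := by
  rw [le_div_iff₀ (by exact_mod_cast hn)]
  exact_mod_cast Nat.div_mul_le_self a n

theorem sub_cast_ge (a b : ℕ) : (a : ℝ) - b ≤ ((a - b : ℕ) : ℝ) := by
  rw [sub_le_iff_le_add]
  have : a ≤ (a - b) + b := by omega
  exact_mod_cast this

namespace Up

variable {x y : ℝ} {a b : ℕ}

theorem mono (h : Up x a) (hab : a ≤ b) : Up x b := by
  unfold Up at *
  have : (a : ℝ) ≤ b := by exact_mod_cast hab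
  linarith

theorem le_trans (hxy : x ≤ y) (h : Up y a) : Up x a := by
  unfold Up at *
  nlinarith

theorem add (h1 : Up x a) (h2 : Up y b) : Up (x + y) (a + b) := by
  unfold Up at *
  push_cast
  linarith

theorem sub (h1 : Up x a) (h2 : Lw b y) : Up (x - y) (a - b) := by
  unfold Up Lw at *
  have := sub_cast_ge a b
  linarith

theorem sub1 (h1 : Up x a) (h2 : Lw b y) : Up (max 0 (x - y)) (a - b) := by
  have h3 := h1.sub h2
  unfold Up at *
  rcases le_total 0 (x - y) with h | h
  · rwa [max_eq_right h]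
  · rw [max_eq_left h, zero_mul]
    positivity

/-- product; only the second factor has to be nonnegative -/
theorem mul (hy : 0 ≤ y) (h1 : Up x a) (h2 : Up y b) : Up (x * y) (mU a b) := by
  unfold Up at *
  have e : mU a b = (a * b + (1000000 - 1)) / 1000000 := rfl
  rw [e]
  have h3 := le_ceilDiv (a * b) 1000000 (by norm_num)
  refine _root_.le_trans ?_ h3
  push_cast
  have h4 : x * 1000000 * (y * 1000000) ≤ (a : ℝ) * b :=
    mul_le_mul h1 h2 (by positivity) (by positivity)
  rw [le_div_iff₀ (by norm_num)]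
  linarith

theorem div (h1 : Up x a) (h2 : Lw b y) (hb : 0 < b) : Up (x / y) (dU a b) := by
  unfold Up Lw at *
  have e : dU a b = (a * 1000000 + (b - 1)) / b := rfl
  rw [e]
  refine _root_.le_trans ?_ (le_ceilDiv (a * 1000000) b hb)
  have hb' : (0 : ℝ) < b := by exact_mod_cast hb
  have hy : 0 < y := by nlinarith
  push_cast
  rw [div_mul_eq_mul_div, div_le_div_iff₀ hy hb']
  have ha : (0 : ℝ) ≤ a := by positivity
  nlinarith

theorem half (h1 : Up x a) {n : ℕ} (hn : 0 < n) : Up (x / n) (hf a n) := by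
  unfold Up at *
  have e : hf a n = (a + (n - 1)) / n := rfl
  rw [e]
  refine _root_.le_trans ?_ (le_ceilDiv a n hn)
  have hn' : (0 : ℝ) < n := by exact_mod_cast hn
  rw [div_mul_eq_mul_div]
  exact div_le_div_of_nonneg_right h1 hn'.le

theorem smul (h1 : Up x a) (n : ℕ) : Up (n * x) (n * a) := by
  unfold Up at *
  push_cast
  have hn' : (0 : ℝ) ≤ n := by positivity
  nlinarith

theorem max (h1 : Up x a) (h2 : Up y b) : Up (max x y) (max a b) := by
  unfold Up at *
  rcases le_total x y with h | h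
  · rw [max_eq_right h]
    exact _root_.le_trans h2 (by exact_mod_cast le_max_right _ _)
  · rw [max_eq_left h]
    exact _root_.le_trans h1 (by exact_mod_cast le_max_left _ _)

theorem min (h1 : Up x a) (h2 : Up x b) : Up x (min a b) := by
  rcases le_total a b with h | h
  · rwa [min_eq_left h]
  · rwa [min_eq_right h]

theorem nat (n : ℕ) : Up n (n * 1000000) := by
  unfold Up
  push_cast
  exact le_rfl

theorem one : Up 1 1000000 := by
  unfold Up; norm_num

theorem two : Up 2 2000000 := by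
  unfold Up; norm_num

end Up

namespace Lw

variable {x y : ℝ} {a b : ℕ}

theorem nonneg (h : Lw a x) : 0 ≤ x := by
  unfold Lw at h
  have : (0 : ℝ) ≤ a := by positivity
  nlinarith

theorem le_trans (h : Lw a x) (hxy : x ≤ y) : Lw a y := by
  unfold Lw at *
  nlinarith

theorem add (h1 : Lw a x) (h2 : Lw b y) : Lw (a + b) (x + y) := by
  unfold Lw at *
  push_cast
  linarith

theorem zero (h : 0 ≤ x) : Lw 0 x := by
  unfold Lw
  push_cast
  positivity

/-- truncated subtraction when the difference is nonnegative -/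
theorem sub (h1 : Lw a x) (h2 : Up y b) (hxy : 0 ≤ x - y) : Lw (a - b) (x - y) := by
  unfold Lw Up at *
  rcases le_total b a with h | h
  · push_cast [h]
    linarith
  · rw [Nat.sub_eq_zero_of_le h]
    push_cast
    nlinarith

/-- truncated subtraction, sign from the numbers -/
theorem sub' (h1 : Lw a x) (h2 : Up y b) (h : 0 < a - b) : Lw (a - b) (x - y) := by
  unfold Lw Up at *
  have h3 : b ≤ a := by omega
  push_cast [h3]
  linarith

theorem sub1 (h1 : Lw a x) (h2 : Up y b) : Lw (a - b) (max 0 (x - y)) := by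
  rcases le_total b a with h | h
  · unfold Lw Up at *
    push_cast [h]
    have : x - y ≤ max 0 (x - y) := le_max_right _ _
    nlinarith
  · rw [Nat.sub_eq_zero_of_le h]
    exact zero (le_max_left _ _)

theorem mul (h1 : Lw a x) (h2 : Lw b y) : Lw (mL a b) (x * y) := by
  have hx := h1.nonneg
  unfold Lw at *
  have e : mL a b = a * b / 1000000 := rfl
  rw [e]
  refine _root_.le_trans (floorDiv_le (a * b) 1000000 (by norm_num)) ?_
  push_cast
  have h4 : (a : ℝ) * b ≤ x * 1000000 * (y * 1000000) :=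
    mul_le_mul h1 h2 (by positivity) (by positivity)
  rw [div_le_iff₀ (by norm_num)]
  linarith

theorem half (h1 : Lw a x) {n : ℕ} (hn : 0 < n) : Lw (a / n) (x / n) := by
  unfold Lw at *
  refine _root_.le_trans (floorDiv_le a n hn) ?_
  have hn' : (0 : ℝ) < n := by exact_mod_cast hn
  rw [div_mul_eq_mul_div]
  exact div_le_div_of_nonneg_right h1 hn'.le

theorem one : Lw 1000000 1 := by
  unfold Lw; norm_num

theorem two : Lw 2000000 2 := by
  unfold Lw; norm_num

/-- comparison -/
theorem lt_of (h1 : Up x a) (h2 : Lw b y) (h : a < b) : x < y := by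
  unfold Up Lw at *
  have : (a : ℝ) < b := by exact_mod_cast h
  nlinarith

theorem le_of (h1 : Up x a) (h2 : Lw b y) (h : a ≤ b) : x ≤ y := by
  unfold Up Lw at *
  have : (a : ℝ) ≤ b := by exact_mod_cast h
  nlinarith

theorem pos (h : Lw a x) (ha : 0 < a) : 0 < x := by
  unfold Lw at h
  have : (0 : ℝ) < a := by exact_mod_cast ha
  nlinarith

end Lw

/-! ### the exponential -/

/-- square rounded down, scale `10^9` -/
def sqL (x : ℕ) : ℕ := x * x / 1000000000

/-- square rounded up, scale `10^9` -/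
def sqU (x : ℕ) : ℕ := (x * x + 999999999) / 1000000000

/-- lower bound of `exp (-u)`, `u = n / (64 * 10^6)`, scale `10^9` -/
def eL0 (n : ℕ) : ℕ :=
  let l := n * 125 / 8
  let h := (n * 125 + 7) / 8
  let h2 := h * h
  let l2 := l * l
  (1000000000 + l2 / 2000000000) - (h + (h2 * h + 5999999999999999999) / 6000000000000000000
    + (5 * h2 * h2 + 95999999999999999999999999999) / 96000000000000000000000000000)

/-- upper bound of `exp (-u)`, `u = n / (64 * 10^6)`, scale `10^9` -/
def eU0 (n : ℕ) : ℕ :=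
  let l := n * 125 / 8
  let h := (n * 125 + 7) / 8
  let h2 := h * h
  let l2 := l * l
  (1000000000 + (h2 + 1999999999) / 2000000000
    + (5 * h2 * h2 + 95999999999999999999999999999) / 96000000000000000000000000000)
    - (l + l2 * l / 6000000000000000000)

/-- lower bound of `exp (-n / 10^6)`, scale `10^6` -/
def eL (n : ℕ) : ℕ := sqL (sqL (sqL (sqL (sqL (sqL (eL0 n)))))) / 1000

/-- upper bound of `exp (-n / 10^6)`, scale `10^6` -/
def eU (n : ℕ) : ℕ := (sqU (sqU (sqU (sqU (sqU (sqU (eU0 n)))))) + 999) / 1000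

theorem exp_poly {u : ℝ} (h0 : 0 ≤ u) (h1 : u ≤ 1) :
    1 - u + u ^ 2 / 2 - u ^ 3 / 6 - 5 / 96 * u ^ 4 ≤ Real.exp (-u)
      ∧ Real.exp (-u) ≤ 1 - u + u ^ 2 / 2 - u ^ 3 / 6 + 5 / 96 * u ^ 4 := by
  have h := Real.exp_bound (x := -u) (by rw [abs_neg, abs_of_nonneg h0]; exact h1) (n := 4)
    (by norm_num)
  rw [abs_neg, abs_of_nonneg h0] at h
  have e : ∑ m ∈ Finset.range 4, (-u) ^ m / (m.factorial : ℝ)
      = 1 - u + u ^ 2 / 2 - u ^ 3 / 6 := by
    simp only [Finset.sum_range_succ, Finset.sum_range_zero, Nat.factorial]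
    norm_num
    ring
  rw [e] at h
  have e2 : ((Nat.succ 4 : ℕ) : ℝ) / (((4 : ℕ).factorial : ℝ) * (4 : ℕ)) = 5 / 96 := by
    norm_num [Nat.factorial]
  rw [e2] at h
  have h3 := abs_le.mp h
  constructor <;> nlinarith [h3.1, h3.2]

/-- `u * 10^9` between `l` and `h` -/
theorem u_bounds (n : ℕ) :
    ((n * 125 / 8 : ℕ) : ℝ) ≤ (n : ℝ) / 64000000 * 1000000000
      ∧ (n : ℝ) / 64000000 * 1000000000 ≤ (((n * 125 + 7) / 8 : ℕ) : ℝ) := by
  constructor
  · refine (floorDiv_le (n * 125) 8 (by norm_num)).trans (le_of_eq ?_)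
    push_cast
    ring
  · refine (le_of_eq ?_).trans (le_ceilDiv (n * 125) 8 (by norm_num))
    push_cast
    ring

theorem eL0_le (n : ℕ) (hn : n ≤ 64000000) :
    (eL0 n : ℝ) ≤ Real.exp (-((n : ℝ) / 64000000)) * 1000000000 := by
  set u : ℝ := (n : ℝ) / 64000000 with hu
  have hu0 : 0 ≤ u := by positivity
  have hu1 : u ≤ 1 := by
    rw [hu, div_le_one (by norm_num)]
    exact_mod_cast hn
  obtain ⟨hl, hh⟩ := u_bounds n
  rw [← hu] at hl hh
  have hp := (exp_poly hu0 hu1).1
  have hexp := Real.exp_pos (-u)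
  unfold eL0
  simp only
  set l := n * 125 / 8
  set h := (n * 125 + 7) / 8
  -- the pieces
  have a1 : ((l * l / 2000000000 : ℕ) : ℝ) ≤ u ^ 2 / 2 * 1000000000 := by
    refine (floorDiv_le (l * l) 2000000000 (by norm_num)).trans ?_
    push_cast
    rw [div_le_iff₀ (by norm_num)]
    have : (l : ℝ) * l ≤ u * 1000000000 * (u * 1000000000) :=
      mul_le_mul hl hl (by positivity) (by positivity)
    nlinarith
  have a2 : u ^ 3 / 6 * 1000000000
      ≤ (((h * h * h + 5999999999999999999) / 6000000000000000000 : ℕ) : ℝ) := by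
    refine le_trans ?_ (le_ceilDiv (h * h * h) 6000000000000000000 (by norm_num))
    push_cast
    rw [le_div_iff₀ (by norm_num)]
    have : u * 1000000000 * (u * 1000000000) * (u * 1000000000) ≤ (h : ℝ) * h * h :=
      mul_le_mul (mul_le_mul hh hh (by positivity) (by positivity)) hh (by positivity)
        (by positivity)
    nlinarith
  have a3 : 5 / 96 * u ^ 4 * 1000000000
      ≤ (((5 * (h * h) * (h * h) + 95999999999999999999999999999)
        / 96000000000000000000000000000 : ℕ) : ℝ) := by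
    refine le_trans ?_ (le_ceilDiv (5 * (h * h) * (h * h)) 96000000000000000000000000000
      (by norm_num))
    push_cast
    rw [le_div_iff₀ (by norm_num)]
    have h2 : u * 1000000000 * (u * 1000000000) ≤ (h : ℝ) * h :=
      mul_le_mul hh hh (by positivity) (by positivity)
    have : u * 1000000000 * (u * 1000000000) * (u * 1000000000 * (u * 1000000000))
        ≤ (h : ℝ) * h * ((h : ℝ) * h) := mul_le_mul h2 h2 (by positivity) (by positivity)
    nlinarith
  set A1 := l * l / 2000000000
  set A2 := (h * h * h + 5999999999999999999) / 6000000000000000000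
  set A3 := (5 * (h * h) * (h * h) + 95999999999999999999999999999)
        / 96000000000000000000000000000
  rcases le_total (h + A2 + A3) (1000000000 + A1) with hle | hle
  · push_cast [hle]
    nlinarith
  · rw [Nat.sub_eq_zero_of_le hle]
    push_cast
    positivity

theorem eU0_ge (n : ℕ) (hn : n ≤ 64000000) :
    Real.exp (-((n : ℝ) / 64000000)) * 1000000000 ≤ (eU0 n : ℝ) := by
  set u : ℝ := (n : ℝ) / 64000000 with hu
  have hu0 : 0 ≤ u := by positivity
  have hu1 : u ≤ 1 := by
    rw [hu, div_le_one (by norm_num)]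
    exact_mod_cast hn
  obtain ⟨hl, hh⟩ := u_bounds n
  rw [← hu] at hl hh
  have hp := (exp_poly hu0 hu1).2
  unfold eU0
  simp only
  set l := n * 125 / 8
  set h := (n * 125 + 7) / 8
  have a1 : u ^ 2 / 2 * 1000000000 ≤ (((h * h + 1999999999) / 2000000000 : ℕ) : ℝ) := by
    refine le_trans ?_ (le_ceilDiv (h * h) 2000000000 (by norm_num))
    push_cast
    rw [le_div_iff₀ (by norm_num)]
    have : u * 1000000000 * (u * 1000000000) ≤ (h : ℝ) * h :=
      mul_le_mul hh hh (by positivity) (by positivity)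
    nlinarith
  have a2 : ((l * l * l / 6000000000000000000 : ℕ) : ℝ) ≤ u ^ 3 / 6 * 1000000000 := by
    refine (floorDiv_le (l * l * l) 6000000000000000000 (by norm_num)).trans ?_
    push_cast
    rw [div_le_iff₀ (by norm_num)]
    have : (l : ℝ) * l * l ≤ u * 1000000000 * (u * 1000000000) * (u * 1000000000) :=
      mul_le_mul (mul_le_mul hl hl (by positivity) (by positivity)) hl (by positivity)
        (by positivity)
    nlinarith
  have a3 : 5 / 96 * u ^ 4 * 1000000000
      ≤ (((5 * (h * h) * (h * h) + 95999999999999999999999999999)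
        / 96000000000000000000000000000 : ℕ) : ℝ) := by
    refine le_trans ?_ (le_ceilDiv (5 * (h * h) * (h * h)) 96000000000000000000000000000
      (by norm_num))
    push_cast
    rw [le_div_iff₀ (by norm_num)]
    have h2 : u * 1000000000 * (u * 1000000000) ≤ (h : ℝ) * h :=
      mul_le_mul hh hh (by positivity) (by positivity)
    have : u * 1000000000 * (u * 1000000000) * (u * 1000000000 * (u * 1000000000))
        ≤ (h : ℝ) * h * ((h : ℝ) * h) := mul_le_mul h2 h2 (by positivity) (by positivity)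
    nlinarith
  set A1 := (h * h + 1999999999) / 2000000000
  set A2 := l * l * l / 6000000000000000000
  set A3 := (5 * (h * h) * (h * h) + 95999999999999999999999999999)
        / 96000000000000000000000000000
  refine le_trans ?_ (sub_cast_ge _ _)
  push_cast
  nlinarith

theorem sqL_le {x : ℕ} {v : ℝ} (h : (x : ℝ) ≤ v * 1000000000) (hv : 0 ≤ v) :
    (sqL x : ℝ) ≤ v ^ 2 * 1000000000 := by
  unfold sqL
  refine (floorDiv_le (x * x) 1000000000 (by norm_num)).trans ?_
  push_cast
  rw [div_le_iff₀ (by norm_num)]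
  have : (x : ℝ) * x ≤ v * 1000000000 * (v * 1000000000) :=
    mul_le_mul h h (by positivity) (by positivity)
  nlinarith

theorem sqU_ge {x : ℕ} {v : ℝ} (h : v * 1000000000 ≤ (x : ℝ)) (hv : 0 ≤ v) :
    v ^ 2 * 1000000000 ≤ (sqU x : ℝ) := by
  unfold sqU
  refine le_trans ?_ (le_ceilDiv (x * x) 1000000000 (by norm_num))
  push_cast
  rw [le_div_iff₀ (by norm_num)]
  have : v * 1000000000 * (v * 1000000000) ≤ (x : ℝ) * x :=
    mul_le_mul h h (by positivity) (by positivity)
  nlinarith

theorem exp64 (n : ℕ) :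
    ((((((Real.exp (-((n : ℝ) / 64000000)) ^ 2) ^ 2) ^ 2) ^ 2) ^ 2) ^ 2)
      = Real.exp (-((n : ℝ) / 1000000)) := by
  rw [← pow_mul, ← pow_mul, ← pow_mul, ← pow_mul, ← pow_mul, ← Real.exp_nat_mul]
  congr 1
  push_cast
  ring

theorem eL_le (n : ℕ) (hn : n ≤ 64000000) : Lw (eL n) (Real.exp (-((n : ℝ) / 1000000))) := by
  unfold Lw eL
  have h0 := eL0_le n hn
  have p0 := (Real.exp_pos (-((n : ℝ) / 64000000))).le
  have h1 := sqL_le h0 p0
  have h2 := sqL_le h1 (by positivity)
  have h3 := sqL_le h2 (by positivity)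
  have h4 := sqL_le h3 (by positivity)
  have h5 := sqL_le h4 (by positivity)
  have h6 := sqL_le h5 (by positivity)
  rw [exp64] at h6
  refine (floorDiv_le _ 1000 (by norm_num)).trans ?_
  push_cast
  rw [div_le_iff₀ (by norm_num)]
  linarith

theorem eU_ge (n : ℕ) (hn : n ≤ 64000000) : Up (Real.exp (-((n : ℝ) / 1000000))) (eU n) := by
  unfold Up eU
  have h0 := eU0_ge n hn
  have p0 := (Real.exp_pos (-((n : ℝ) / 64000000))).le
  have h1 := sqU_ge h0 p0
  have h2 := sqU_ge h1 (by positivity)
  have h3 := sqU_ge h2 (by positivity)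
  have h4 := sqU_ge h3 (by positivity)
  have h5 := sqU_ge h4 (by positivity)
  have h6 := sqU_ge h5 (by positivity)
  rw [exp64] at h6
  refine le_trans ?_ (le_ceilDiv _ 1000 (by norm_num))
  push_cast
  rw [le_div_iff₀ (by norm_num)]
  linarith

/-- `exp (-y)` from below -/
theorem Lw_exp {y : ℝ} {n : ℕ} (h : Up y n) (hn : n ≤ 64000000) : Lw (eL n) (Real.exp (-y)) := by
  refine (eL_le n hn).le_trans (Real.exp_le_exp.mpr ?_)
  unfold Up at h
  rw [neg_le_neg_iff, le_div_iff₀ (by norm_num)]
  exact h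

/-- `exp (-y)` from above -/
theorem Up_exp {y : ℝ} {n : ℕ} (h : Lw n y) (hn : n ≤ 64000000) : Up (Real.exp (-y)) (eU n) := by
  refine Up.le_trans (Real.exp_le_exp.mpr ?_) (eU_ge n hn)
  unfold Lw at h
  rw [neg_le_neg_iff, div_le_iff₀ (by norm_num)]
  exact h

/-! ### boxes -/

/-- membership of a point in a box -/
def MemB : List ℝ → List (ℕ × ℕ) → Prop
  | [], [] => True
  | x :: xs, b :: bs => Lw b.1 x ∧ Up x b.2 ∧ MemB xs bs
  | _, _ => False

/-- lower half in the coordinate `j` -/
def loH : ℕ → List (ℕ × ℕ) → List (ℕ × ℕ)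
  | _, [] => []
  | 0, b :: bs => (b.1, (b.1 + b.2) / 2) :: bs
  | j + 1, b :: bs => b :: loH j bs

/-- upper half in the coordinate `j` -/
def hiH : ℕ → List (ℕ × ℕ) → List (ℕ × ℕ)
  | _, [] => []
  | 0, b :: bs => ((b.1 + b.2) / 2, b.2) :: bs
  | j + 1, b :: bs => b :: hiH j bs

theorem MemB.split {xs : List ℝ} {bs : List (ℕ × ℕ)} (h : MemB xs bs) (j : ℕ) :
    MemB xs (loH j bs) ∨ MemB xs (hiH j bs) := by
  induction xs generalizing bs j with
  | nil =>
    cases bs with
    | nil => left; cases j <;> exact h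
    | cons b bs => exact h.elim
  | cons x xs ih =>
    cases bs with
    | nil => exact h.elim
    | cons b bs =>
      obtain ⟨h1, h2, h3⟩ := h
      cases j with
      | zero =>
        rcases le_total (x * 1000000) (((b.1 + b.2) / 2 : ℕ) : ℝ) with hx | hx
        · exact Or.inl ⟨h1, hx, h3⟩
        · exact Or.inr ⟨hx, h2, h3⟩
      | succ j =>
        rcases ih h3 j with h4 | h4
        · exact Or.inl ⟨h1, h2, h4⟩
        · exact Or.inr ⟨h1, h2, h4⟩

/-- index of the widest weighted side: `i` the current index, `j`, `w` the best so far -/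
def wid : List ℕ → List (ℕ × ℕ) → ℕ → ℕ → ℕ → ℕ
  | v :: vs, b :: bs, i, j, w =>
    bif Nat.blt w (v * (b.2 - b.1)) then wid vs bs (i + 1) i (v * (b.2 - b.1))
    else wid vs bs (i + 1) j w
  | _, _, _, j, _ => j

/-- bisection -/
def cover (chk : List (ℕ × ℕ) → Bool) (ws : List ℕ) : ℕ → List (ℕ × ℕ) → Bool
  | 0, b => chk b
  | n + 1, b => chk b ||
    (cover chk ws n (loH (wid ws b 0 0 0) b) && cover chk ws n (hiH (wid ws b 0 0 0) b))

theorem cover_sound {chk : List (ℕ × ℕ) → Bool} {ws : List ℕ} {P : List ℝ → Prop}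
    (hchk : ∀ b, chk b = true → ∀ x, MemB x b → P x) (n : ℕ) (b : List (ℕ × ℕ))
    (h : cover chk ws n b = true) (x : List ℝ) (hx : MemB x b) : P x := by
  induction n generalizing b with
  | zero => exact hchk b h x hx
  | succ n ih =>
    unfold cover at h
    rw [Bool.or_eq_true, Bool.and_eq_true] at h
    rcases h with h | ⟨h1, h2⟩
    · exact hchk b h x hx
    · rcases hx.split (wid ws b 0 0 0) with h3 | h3
      · exact ih _ h1 h3
      · exact ih _ h2 h3

/-! ### elimination of suprema -/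

/-- `v ≤ F v`, `F` monotone and sublinear on multiples of `w`, `F w < w` imply `v ≤ w` -/
theorem elimF {ι : Type*} [Fintype ι] (v w : ι → ℝ) (F : ι → (ι → ℝ) → ℝ)
    (hw : ∀ i, 0 < w i) (hv : ∀ i, v i ≤ F i v)
    (hmono : ∀ i (u u' : ι → ℝ), (∀ j, u j ≤ u' j) → F i u ≤ F i u')
    (hsub : ∀ i (t : ℝ), 1 ≤ t → F i (fun j => t * w j) ≤ t * F i w)
    (hlt : ∀ i, F i w < w i) (i : ι) : v i ≤ w i := by
  classical
  obtain ⟨i0, -, hmax⟩ := Finset.exists_max_image (Finset.univ : Finset ι)
    (fun i => v i / w i) ⟨i, Finset.mem_univ i⟩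
  set r := v i0 / w i0 with hr
  have hle : ∀ j, v j ≤ r * w j := fun j => by
    have := hmax j (Finset.mem_univ j)
    rw [div_le_iff₀ (hw j)] at this
    exact this
  have hr1 : r ≤ 1 := by
    by_contra hcon
    rw [not_le] at hcon
    have h0 : v i0 = r * w i0 := by rw [hr, div_mul_cancel₀ _ (hw i0).ne']
    have h1 := hv i0
    have h2 := hmono i0 v (fun j => r * w j) hle
    have h3 := hsub i0 r hcon.le
    have h4 := hlt i0
    nlinarith
  have := hle i
  have h5 := hw i
  nlinarith

end Coin.IB
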