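import Pool.Agent.Lib.Coin.Race

/-!
# Coin race: the lag form of the weights (module M6)

`w_k = ∑_i c_i b_{|B| + (|A| - k) + i}` with the same nonnegative weights `c_i` for all `k ≤ |A|`.
-/

namespace Coin

open Finset

/-- the weights of the lag form: `c = α * β`, smoothed, where `α_u = a_{LA + u}`,
`β_v = b_{LB + v}` -/
noncomputable def cs (a b : ℕ → ℝ) (LA LB : ℕ) (i : ℕ) : ℝ :=
  conv a b (LA + LB + i) + (if i = 0 then 0 else conv a b (LA + LB + (i - 1)))

theorem cs_nonneg {a b : ℕ → ℝ} (ha : IsProb a) (hb : IsProb b) (LA LB i : ℕ) :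
    0 ≤ cs a b LA LB i := by
  unfold cs
  have h := (ha.conv hb).nonneg
  split_ifs
  · simpa using h _
  · exact add_nonneg (h _) (h _)

theorem cs_zero {a b : ℕ → ℝ} {LA LB : ℕ} (ha0 : ∀ n < LA, a n = 0) (hb0 : ∀ n < LB, b n = 0) :
    cs a b LA LB 0 = a LA * b LB := by
  unfold cs
  rw [if_pos rfl, add_zero, add_zero]
  have h1 := conv_shift (a := a) (b := b) ha0 LB
  rw [show LB + LA = LA + LB by ring] at h1
  rw [← h1, conv_comm]
  have h2 := conv_shift (a := b) (b := fun i => a (i + LA)) hb0 0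
  rw [zero_add] at h2
  rw [← h2]
  simp [conv, mul_comm]

/-- `conv a b` vanishes below `LA + LB` -/
theorem conv_eq_zero {a b : ℕ → ℝ} {LA LB : ℕ} (ha0 : ∀ n < LA, a n = 0)
    (hb0 : ∀ n < LB, b n = 0) {m : ℕ} (hm : m < LA + LB) : conv a b m = 0 := by
  unfold conv
  refine sum_eq_zero (fun x hx => ?_)
  have hx' : x.1 + x.2 = m := mem_antidiagonal.mp hx
  rcases lt_or_ge x.1 LA with h | h
  · rw [ha0 _ h, zero_mul]
  · rw [hb0 _ (by omega), mul_zero]

theorem summable_cs {a b : ℕ → ℝ} (ha : IsProb a) (hb : IsProb b) (LA LB : ℕ) :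
    Summable (cs a b LA LB) := by
  have hc := (ha.conv hb).summable
  have h1 : Summable (fun i => conv a b (LA + LB + i)) := by
    have := (summable_nat_add_iff (f := conv a b) (LA + LB)).mpr hc
    refine this.congr (fun i => ?_)
    rw [add_comm]
  have h2 : Summable (fun i => if i = 0 then (0 : ℝ) else conv a b (LA + LB + (i - 1))) := by
    rw [← summable_nat_add_iff 1]
    refine h1.congr (fun i => ?_)
    simp
  exact h1.add h2

/-- one half of the lag form -/
theorem tsum_lag_aux {a b : ℕ → ℝ} (ha : IsProb a) (hb : IsProb b) {LA LB : ℕ}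
    (ha0 : ∀ n < LA, a n = 0) (hb0 : ∀ n < LB, b n = 0) {k : ℕ} (hk : k ≤ LA) :
    ∑' n, b n * conv a b (n + k) = ∑' i, conv a b (LA + LB + i) * b (LB + (LA - k) + i) := by
  have hc := ha.conv hb
  have hs : Summable (fun n => b n * conv a b (n + k)) :=
    Summable.of_nonneg_of_le (fun n => mul_nonneg (hb.nonneg n) (hc.nonneg _))
      (fun n => mul_le_of_le_one_right (hb.nonneg n) (hc.le_one _)) hb.summable
  rw [← hs.sum_add_tsum_nat_add (LA + LB - k)]
  have h0 : ∑ n ∈ range (LA + LB - k), b n * conv a b (n + k) = 0 := by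
    refine sum_eq_zero (fun n hn => ?_)
    have hn' := mem_range.mp hn
    rw [conv_eq_zero ha0 hb0 (by omega), mul_zero]
  rw [h0, zero_add]
  refine tsum_congr (fun i => ?_)
  rw [show i + (LA + LB - k) + k = LA + LB + i by omega,
    show i + (LA + LB - k) = LB + (LA - k) + i by omega, mul_comm]

/-- **lag form** of the weights -/
theorem Wk_lag {a b : ℕ → ℝ} (ha : IsProb a) (hb : IsProb b) {LA LB : ℕ}
    (ha0 : ∀ n < LA, a n = 0) (hb0 : ∀ n < LB, b n = 0) {k : ℕ} (hk1 : 1 ≤ k) (hk : k ≤ LA) :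
    Wk a b b k = ∑' i, cs a b LA LB i * b (LB + (LA - k) + i) := by
  have hc := ha.conv hb
  have hs : ∀ j, Summable (fun n => b n * conv a b (n + j)) := fun j =>
    Summable.of_nonneg_of_le (fun n => mul_nonneg (hb.nonneg n) (hc.nonneg _))
      (fun n => mul_le_of_le_one_right (hb.nonneg n) (hc.le_one _)) hb.summable
  have hW : Wk a b b k = (∑' n, b n * conv a b (n + k))
      + ∑' n, b n * conv a b (n + (k - 1)) := by
    unfold Wk
    rw [← (hs k).tsum_add (hs (k - 1))]
    refine tsum_congr (fun n => ?_)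
    rw [show n + k - 1 = n + (k - 1) by omega]; ring
  rw [hW, tsum_lag_aux ha hb ha0 hb0 hk, tsum_lag_aux ha hb ha0 hb0 (k := k - 1) (by omega)]
  have hcc : Summable (fun i => conv a b (LA + LB + i)) := by
    have := (summable_nat_add_iff (f := conv a b) (LA + LB)).mpr hc.summable
    refine this.congr (fun i => ?_)
    rw [add_comm]
  have hs1 : ∀ j, Summable (fun i => conv a b (LA + LB + i) * b (j + i)) := fun j =>
    Summable.of_nonneg_of_le (fun n => mul_nonneg (hc.nonneg _) (hb.nonneg _))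
      (fun n => mul_le_of_le_one_right (hc.nonneg _) (hb.le_one _)) hcc
  set F : ℕ → ℝ := fun i => (if i = 0 then 0 else conv a b (LA + LB + (i - 1)))
    * b (LB + (LA - k) + i) with hF
  have hF1 : ∀ i, F (i + 1) = conv a b (LA + LB + i) * b (LB + (LA - (k - 1)) + i) := by
    intro i
    simp only [hF, Nat.add_sub_cancel, Nat.add_eq_zero_iff, one_ne_zero, and_false, if_false]
    rw [show LB + (LA - k) + (i + 1) = LB + (LA - (k - 1)) + i by omega]
  have hFs : Summable F := by
    rw [← summable_nat_add_iff 1]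
    exact (hs1 _).congr (fun i => (hF1 i).symm)
  have e2 : ∑' i, conv a b (LA + LB + i) * b (LB + (LA - (k - 1)) + i) = ∑' i, F i := by
    rw [hFs.tsum_eq_zero_add]
    have : F 0 = 0 := by simp [hF]
    rw [this, zero_add]
    exact tsum_congr (fun i => (hF1 i).symm)
  rw [e2, ← (hs1 _).tsum_add hFs]
  refine tsum_congr (fun i => ?_)
  simp only [hF, cs]
  ring

end Coin
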