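import Pool.Agent.Lib.Coin.Lam

/-!
# Coin race: real inequalities for the weighted border sums
-/

namespace Coin

open Finset

/-- `p^n (1 + n q) ≤ 1` -/
theorem pow_mul_le_one {p : ℝ} (h0 : 0 < p) (h1 : p < 1) (n : ℕ) :
    p ^ n * (1 + n * (1 - p)) ≤ 1 := by
  induction n with
  | zero => simp
  | succ n ih =>
    have hp : 0 < p ^ n := pow_pos h0 n
    have hn : (0 : ℝ) ≤ n := Nat.cast_nonneg n
    have h2 : p * (1 + ((n : ℝ) + 1) * (1 - p)) ≤ 1 + n * (1 - p) := by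
      have : 1 + (n : ℝ) * (1 - p) - p * (1 + ((n : ℝ) + 1) * (1 - p)) =
          (1 - p) ^ 2 * (n + 1) := by ring
      nlinarith [mul_nonneg (sq_nonneg (1 - p)) (by linarith : (0 : ℝ) ≤ (n : ℝ) + 1)]
    push_cast
    calc p ^ (n + 1) * (1 + ((n : ℝ) + 1) * (1 - p))
        = p ^ n * (p * (1 + ((n : ℝ) + 1) * (1 - p))) := by ring
      _ ≤ p ^ n * (1 + n * (1 - p)) := mul_le_mul_of_nonneg_left h2 hp.le
      _ ≤ 1 := ih

/-- `r^m (1 + m (1 - r)) ≤ 1` -/
theorem pow_mul_le_one' {r : ℝ} (hr : 0 ≤ r) (m : ℕ) : r ^ m * (1 + m * (1 - r)) ≤ 1 := by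
  induction m with
  | zero => simp
  | succ m ih =>
    have hp : 0 ≤ r ^ m := pow_nonneg hr m
    have hm : (0 : ℝ) ≤ m := Nat.cast_nonneg m
    have h2 : r * (1 + ((m : ℝ) + 1) * (1 - r)) ≤ 1 + m * (1 - r) := by
      have : 1 + (m : ℝ) * (1 - r) - r * (1 + ((m : ℝ) + 1) * (1 - r)) =
          (1 - r) ^ 2 * (m + 1) := by ring
      nlinarith [mul_nonneg (sq_nonneg (1 - r)) (by linarith : (0 : ℝ) ≤ (m : ℝ) + 1)]
    push_cast
    calc r ^ (m + 1) * (1 + ((m : ℝ) + 1) * (1 - r))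
        = r ^ m * (r * (1 + ((m : ℝ) + 1) * (1 - r))) := by ring
      _ ≤ r ^ m * (1 + m * (1 - r)) := mul_le_mul_of_nonneg_left h2 hp
      _ ≤ 1 := ih

/-- `(m+1) p^m (1-p) ≤ 1/2` for `m ≥ 1` -/
theorem pow_gap_le_half {p : ℝ} (h0 : 0 < p) {m : ℕ} (hm : 1 ≤ m) :
    (m + 1) * p ^ m * (1 - p) ≤ 1 / 2 := by
  have hm0 : (0 : ℝ) < m := by exact_mod_cast hm
  have hm1 : (0 : ℝ) < (m : ℝ) + 1 := by linarith
  -- `s = m/(m+1)`, `p = r s`
  set s : ℝ := m / (m + 1) with hs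
  have hs0 : 0 < s := div_pos hm0 hm1
  set r : ℝ := p / s with hr
  have hr0 : 0 < r := div_pos h0 hs0
  have hp : p = r * s := by rw [hr]; field_simp
  have h1 := pow_mul_le_one' hr0.le m
  have hsm : (m + 1) * s = m := by rw [hs]; field_simp
  have h2 : ((m : ℝ) + 1) * (1 - p) = 1 + m * (1 - r) := by
    rw [hp]
    have : ((m : ℝ) + 1) * (1 - r * s) = (m + 1) - r * ((m + 1) * s) := by ring
    rw [this, hsm]
    ring
  have h3 : (m + 1) * p ^ m * (1 - p) = s ^ m * (r ^ m * (1 + m * (1 - r))) := by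
    calc (m + 1) * p ^ m * (1 - p) = p ^ m * (((m : ℝ) + 1) * (1 - p)) := by ring
      _ = (r * s) ^ m * (1 + m * (1 - r)) := by rw [h2, ← hp]
      _ = s ^ m * (r ^ m * (1 + m * (1 - r))) := by rw [mul_pow]; ring
  have h4 : s ^ m ≤ 1 / 2 := by
    have hb : 1 + (m : ℝ) * (1 / m) ≤ (1 + 1 / (m : ℝ)) ^ m :=
      one_add_mul_le_pow (by
        have : (0 : ℝ) ≤ 1 / m := by positivity
        linarith) m
    have h5 : (2 : ℝ) ≤ (1 + 1 / (m : ℝ)) ^ m := by
      have : (m : ℝ) * (1 / m) = 1 := by field_simp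
      linarith
    have h6 : s ^ m * (1 + 1 / (m : ℝ)) ^ m = 1 := by
      rw [← mul_pow]
      have : s * (1 + 1 / (m : ℝ)) = 1 := by
        rw [hs]
        field_simp
      rw [this, one_pow]
    have h7 : 0 < s ^ m := pow_pos hs0 m
    nlinarith
  rw [h3]
  have h5 : 0 < s ^ m := pow_pos hs0 m
  nlinarith

/-- the one-tail function: `h i = p^i ((i q + p)(1 - y) - m q y)`, `y = p^m` -/
noncomputable def hfun (p : ℝ) (m i : ℕ) : ℝ :=
  p ^ i * ((i * (1 - p) + p) * (1 - p ^ m) - m * (1 - p) * p ^ m)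

theorem hfun_succ (p : ℝ) (m i : ℕ) :
    hfun p m (i + 1) - hfun p m i = p ^ i * (1 - p) ^ 2 * (m * p ^ m - i * (1 - p ^ m)) := by
  simp only [hfun]
  push_cast
  ring

/-- large `y`: `h i ≤ y (1-y)` -/
theorem hfun_le_of_large {p : ℝ} (h0 : 0 < p) (h1 : p < 1) {m : ℕ} :
    ∀ i, m ≤ i → 1 ≤ 2 * p ^ m → hfun p m i ≤ p ^ m * (1 - p ^ m) := by
  intro i hi hy
  have hq : 0 < 1 - p := by linarith
  have hy0 : 0 < p ^ m := pow_pos h0 m
  have hy1 : p ^ m ≤ 1 := pow_le_one₀ h0.le h1.le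
  induction i, hi using Nat.le_induction with
  | base =>
    simp only [hfun]
    have hm : (0 : ℝ) ≤ m := Nat.cast_nonneg m
    have e : ((m : ℝ) * (1 - p) + p) * (1 - p ^ m) - m * (1 - p) * p ^ m =
        p * (1 - p ^ m) + m * (1 - p) * (1 - 2 * p ^ m) := by ring
    rw [e]
    apply mul_le_mul_of_nonneg_left _ hy0.le
    have : m * (1 - p) * (1 - 2 * p ^ m) ≤ 0 :=
      mul_nonpos_of_nonneg_of_nonpos (mul_nonneg hm hq.le) (by linarith)
    nlinarith
  | succ i hi ih =>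
    by_cases hc : (i : ℝ) * (1 - p ^ m) ≤ m * p ^ m
    · simp only [hfun]
      push_cast
      have e : (((i : ℝ) + 1) * (1 - p) + p) * (1 - p ^ m) - m * (1 - p) * p ^ m =
          (1 - p ^ m) + (1 - p) * (i * (1 - p ^ m) - m * p ^ m) := by ring
      rw [e]
      have h2 : (1 - p) * (i * (1 - p ^ m) - m * p ^ m) ≤ 0 :=
        mul_nonpos_of_nonneg_of_nonpos hq.le (by linarith)
      have h3 : p ^ (i + 1) ≤ p ^ m := pow_le_pow_of_le_one h0.le h1.le (by omega)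
      have h4 : 0 < p ^ (i + 1) := pow_pos h0 _
      calc p ^ (i + 1) * ((1 - p ^ m) + (1 - p) * (i * (1 - p ^ m) - m * p ^ m))
          ≤ p ^ (i + 1) * (1 - p ^ m) := mul_le_mul_of_nonneg_left (by linarith) h4.le
        _ ≤ p ^ m * (1 - p ^ m) := mul_le_mul_of_nonneg_right h3 (by linarith)
    · have h2 := hfun_succ p m i
      have h3 : p ^ i * (1 - p) ^ 2 * (m * p ^ m - i * (1 - p ^ m)) ≤ 0 :=
        mul_nonpos_of_nonneg_of_nonpos (by positivity) (by linarith)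
      linarith

/-- small `y`: decreasing in `i` -/
theorem hfun_le_of_small {p : ℝ} (h0 : 0 < p) (h1 : p < 1) {m : ℕ} :
    ∀ i, m ≤ i → 2 * p ^ m ≤ 1 → hfun p m i ≤ hfun p m m := by
  intro i hi hy
  have hy0 : 0 < p ^ m := pow_pos h0 m
  induction i, hi using Nat.le_induction with
  | base => exact le_rfl
  | succ i hi ih =>
    have h2 := hfun_succ p m i
    have hmi : (m : ℝ) ≤ i := by exact_mod_cast hi
    have h3 : p ^ i * (1 - p) ^ 2 * (m * p ^ m - i * (1 - p ^ m)) ≤ 0 := by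
      apply mul_nonpos_of_nonneg_of_nonpos (by positivity)
      nlinarith
    linarith

/-- `q ≤ (1+p)/2 * log (1/p)` -/
theorem one_sub_le_log {p : ℝ} (h0 : 0 < p) (h1 : p < 1) :
    1 - p ≤ (1 + p) / 2 * (-Real.log p) := by
  have hx : 0 ≤ (1 - p) / p := div_nonneg (by linarith) h0.le
  have h := Real.le_log_one_add_of_nonneg hx
  have e1 : 1 + (1 - p) / p = p⁻¹ := by field_simp; ring
  have e2 : 2 * ((1 - p) / p) / ((1 - p) / p + 2) = 2 * (1 - p) / (1 + p) := by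
    have h3 : (1 - p) / p + 2 = (1 + p) / p := by field_simp; ring
    have h4 : 1 + p ≠ 0 := by linarith
    rw [h3]
    field_simp
  rw [e1, e2, Real.log_inv, div_le_iff₀ (by linarith)] at h
  linarith

theorem log_four_bounds : 1 ≤ Real.log 4 ∧ Real.log 4 ≤ 3 / 2 := by
  have e : Real.log 4 = 2 * Real.log 2 := by
    rw [show (4 : ℝ) = 2 ^ 2 by norm_num, Real.log_pow]
    norm_num
  have h1 := Real.log_two_gt_d9
  have h2 := Real.log_two_lt_d9
  constructor <;> rw [e] <;> norm_num at * <;> linarith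

/-- the diagonal value -/
theorem hfun_diag_le {p : ℝ} (h0 : 0 < p) (h1 : p < 1) {m : ℕ} (hy : 2 * p ^ m ≤ 1) :
    hfun p m m ≤ (1 + 2 * p) / 8 := by
  have hy0 : 0 < p ^ m := pow_pos h0 m
  have hL : (m : ℝ) * (1 - p) ≤ (1 + p) / 2 * (-Real.log (p ^ m)) := by
    rw [Real.log_pow]
    have := one_sub_le_log h0 h1
    have hm : (0 : ℝ) ≤ m := Nat.cast_nonneg m
    nlinarith
  have hT : -Real.log (p ^ m) ≤ Real.log 4 + 1 / (4 * p ^ m) - 1 := by
    have h := Real.log_le_sub_one_of_pos (show 0 < 1 / (4 * p ^ m) by positivity)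
    rw [one_div, Real.log_inv, Real.log_mul (by norm_num) hy0.ne'] at h
    rw [one_div]
    linarith
  obtain ⟨hl1, hl2⟩ := log_four_bounds
  set y := p ^ m with hydef
  set L := -Real.log y with hLdef
  set c := Real.log 4 with hc
  have e : hfun p m m = y * (p * (1 - y) + m * (1 - p) * (1 - 2 * y)) := by
    simp only [hfun, ← hydef]
    ring
  rw [e]
  have hyT : y * L ≤ (c - 1) * y + 1 / 4 := by
    have := mul_le_mul_of_nonneg_left hT hy0.le
    have e2 : y * (c + 1 / (4 * y) - 1) = (c - 1) * y + 1 / 4 := by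
      field_simp
      ring
    linarith
  have h3 : y * (m * (1 - p)) ≤ (1 + p) / 2 * ((c - 1) * y + 1 / 4) := by
    have := mul_le_mul_of_nonneg_left hL hy0.le
    have h4 : (1 + p) / 2 * (y * L) ≤ (1 + p) / 2 * ((c - 1) * y + 1 / 4) :=
      mul_le_mul_of_nonneg_left hyT (by linarith)
    nlinarith
  have h5 : y * (m * (1 - p)) * (1 - 2 * y) ≤
      (1 + p) / 2 * ((c - 1) * y + 1 / 4) * (1 - 2 * y) :=
    mul_le_mul_of_nonneg_right h3 (by linarith)
  -- `(1 - 2y)(1/4 + (c-1) y) = 1/4 - s`, `s = (3/2 - c) y + 2 (c-1) y^2 ≥ 0`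
  have h6 : (1 + p) / 2 * ((c - 1) * y + 1 / 4) * (1 - 2 * y) ≤
      (1 + p) / 8 - p * ((3 / 2 - c) * y + 2 * (c - 1) * y ^ 2) := by
    have hs : 0 ≤ (3 / 2 - c) * y + 2 * (c - 1) * y ^ 2 := by
      have := mul_nonneg (sub_nonneg.mpr hl2) hy0.le
      have := mul_nonneg (sub_nonneg.mpr hl1) (sq_nonneg y)
      nlinarith
    have e3 : (1 + p) / 2 * ((c - 1) * y + 1 / 4) * (1 - 2 * y) =
        (1 + p) / 8 - (1 + p) / 2 * ((3 / 2 - c) * y + 2 * (c - 1) * y ^ 2) := by ring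
    rw [e3]
    nlinarith
  have h7 : (c - 1 / 2) * (y - 2 * y ^ 2) ≤ 1 / 8 := by
    have h8 : y - 2 * y ^ 2 ≤ 1 / 8 := by nlinarith [sq_nonneg (4 * y - 1)]
    have h9 : 0 ≤ y - 2 * y ^ 2 := by nlinarith
    nlinarith
  have h10 : p * ((c - 1 / 2) * (y - 2 * y ^ 2)) ≤ p * (1 / 8) :=
    mul_le_mul_of_nonneg_left h7 h0.le
  nlinarith

/-- the one-tail function is at most `(1+2p)/8` -/
theorem hfun_le {p : ℝ} (h0 : 0 < p) (h1 : p < 1) {m i : ℕ} (hmi : m ≤ i) :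
    hfun p m i ≤ (1 + 2 * p) / 8 := by
  by_cases hm : m = 0
  · subst hm
    simp only [hfun, pow_zero, sub_self, mul_zero, Nat.cast_zero, zero_mul]
    linarith
  rcases le_total (2 * p ^ m) 1 with hy | hy
  · exact (hfun_le_of_small h0 h1 i hmi hy).trans (hfun_diag_le h0 h1 hy)
  · have h2 := hfun_le_of_large h0 h1 i hmi hy
    have h3 : p ^ m ≤ p := by
      calc p ^ m ≤ p ^ 1 := pow_le_pow_of_le_one h0.le h1.le (by omega)
        _ = p := pow_one p
    nlinarith [sq_nonneg (2 * p ^ m - 1)]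

end Coin
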