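import Pool.Agent.Lib.Coin.Lam2

/-!
# Coin race: bounds for `Sg`, `lamH`, `lamT` of a word
-/

namespace Coin

open Finset

theorem x_one_sub_le (x : ℝ) : x * (1 - x) ≤ 1 / 4 := by nlinarith [sq_nonneg (2 * x - 1)]

/-- one tail -/
theorem one_tail_data {p : ℝ} (h0 : 0 < p) (h1 : p < 1) {Z : List Bool} (hZ : Z.count false = 1) :
    ∃ m i : ℕ, m ≤ i ∧ Z.count true = m + i ∧ Sg p Z = 1 + p ^ i * (1 - p ^ m) ∧
      lamH p Z = hfun p m i ∧ (m ≠ 0 → m ∈ bd Z ∧ (Z.take m).count false = 0) := by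
  have hf : false ∈ Z := List.count_pos_iff.mp (by omega)
  have hne : Z ≠ [] := List.ne_nil_of_mem hf
  rcases exists_top Z with he | ⟨k, hk, hlt, he⟩
  · refine ⟨0, Z.count true, Nat.zero_le _, by omega, ?_, ?_, by simp⟩
    · rw [Sg_top h0 h1 hne he]
      simp
    · rw [lamH_top p hne he]
      simp [hfun]
  · have hz : (Z.take k).count false = 0 := by
      have := count_lt hk hlt hf
      omega
    obtain ⟨i, j, -, hj, hki, -, hci, -, hS, hL⟩ := run_true h0 h1 hk hlt he hf hz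
    have hj0 : j = 0 := by omega
    subst hj0
    refine ⟨k, i, hki, hci, ?_, ?_, fun _ => ⟨hk, hz⟩⟩
    · rw [hS]; ring
    · rw [hL, hfun]; ring

/-- one head -/
theorem one_head_data {p : ℝ} (h0 : 0 < p) (h1 : p < 1) {Z : List Bool} (hZ : Z.count true = 1) :
    ∃ m j : ℕ, m ≤ j ∧ Z.count false = m + j ∧ Sg p Z = 1 + (1 - p) ^ j * (1 - (1 - p) ^ m) ∧
      lamH p Z = (1 - p) * ((1 - p) ^ j * (1 - (1 - p) ^ m)) ∧
      (m ≠ 0 → m ∈ bd Z ∧ (Z.take m).count true = 0) := by
  have ht : true ∈ Z := List.count_pos_iff.mp (by omega)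
  have hne : Z ≠ [] := List.ne_nil_of_mem ht
  rcases exists_top Z with he | ⟨k, hk, hlt, he⟩
  · refine ⟨0, Z.count false, Nat.zero_le _, by omega, ?_, ?_, by simp⟩
    · rw [Sg_top h0 h1 hne he]
      simp
    · rw [lamH_top p hne he]
      simp
  · have hz : (Z.take k).count true = 0 := by
      have := count_lt hk hlt ht
      omega
    obtain ⟨i, j, hi, -, hkj, -, hcj, -, hS, hL⟩ := run_false h0 h1 hk hlt he ht hz
    have hi0 : i = 0 := by omega
    subst hi0
    refine ⟨k, j, hkj, hcj, ?_, ?_, fun _ => ⟨hk, hz⟩⟩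
    · rw [hS]; ring
    · rw [hL]; push_cast; ring

theorem mem_of_count_ne {Y : List Bool} {k : ℕ} {b : Bool} (h : (Y.take k).count b ≠ 0) :
    b ∈ Y.take k := List.count_pos_iff.mp (Nat.pos_of_ne_zero h)

/-- every word with both letters has `Sg ≤ 4/3` -/
theorem Sg_le_four_thirds {p : ℝ} (h0 : 0 < p) (h1 : p < 1) {Y : List Bool} (ht : true ∈ Y)
    (hf : false ∈ Y) : Sg p Y ≤ 4 / 3 := by
  induction hn : Y.length using Nat.strong_induction_on generalizing Y with
  | _ n ih =>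
    have hq : 0 < 1 - p := by linarith
    have hY : Y ≠ [] := List.ne_nil_of_mem ht
    rcases exists_top Y with he | ⟨k, hk, hlt, he⟩
    · rw [Sg_top h0 h1 hY he]
      norm_num
    · by_cases hz : (Y.take k).count false = 0
      · obtain ⟨i, j, -, -, hki, -, -, -, hS, -⟩ := run_true h0 h1 hk hlt he hf hz
        rw [hS]
        have hy0 : 0 < p ^ k := pow_pos h0 k
        have hy1 : p ^ k ≤ 1 := pow_le_one₀ h0.le h1.le
        have a1 : p ^ i ≤ p ^ k := pow_le_pow_of_le_one h0.le h1.le hki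
        have a2 : (1 - p) ^ j ≤ 1 := pow_le_one₀ hq.le (by linarith)
        have a3 : p ^ i * (1 - p) ^ j ≤ p ^ k * 1 :=
          mul_le_mul a1 a2 (pow_nonneg hq.le _) hy0.le
        have a4 := x_one_sub_le (p ^ k)
        nlinarith
      · by_cases hz2 : (Y.take k).count true = 0
        · obtain ⟨i, j, -, -, hkj, -, -, -, hS, -⟩ := run_false h0 h1 hk hlt he ht hz2
          rw [hS]
          have hy0 : 0 < (1 - p) ^ k := pow_pos hq k
          have hy1 : (1 - p) ^ k ≤ 1 := pow_le_one₀ hq.le (by linarith)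
          have a1 : (1 - p) ^ j ≤ (1 - p) ^ k := pow_le_pow_of_le_one hq.le (by linarith) hkj
          have a2 : p ^ i ≤ 1 := pow_le_one₀ h0.le h1.le
          have a3 : p ^ i * (1 - p) ^ j ≤ 1 * (1 - p) ^ k :=
            mul_le_mul a2 a1 (pow_nonneg hq.le _) zero_le_one
          have a4 := x_one_sub_le ((1 - p) ^ k)
          nlinarith
        · rw [Sg_rec h0 h1 hY hk he]
          have h3 := ih k (by omega) (mem_of_count_ne hz2) (mem_of_count_ne hz) (length_take_bd hk)
          have h4 := wt_drop_le h0 h1 hk hlt ht hf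
          have h5 := Sg_pos h0 h1 (take_ne_nil hk)
          have h6 := x_one_sub_le p
          have h7 := wt_pos h0 h1 (Y.drop k)
          nlinarith

/-- at least two of both letters -/
theorem Sg_le_multi {p : ℝ} (h0 : 0 < p) (h1 : p < 1) {Y : List Bool} (ht : 2 ≤ Y.count true)
    (hf : 2 ≤ Y.count false) : Sg p Y ≤ 1 + 4 / 3 * (p * (1 - p)) := by
  have hq : 0 < 1 - p := by linarith
  have ht' : true ∈ Y := List.count_pos_iff.mp (by omega)
  have hf' : false ∈ Y := List.count_pos_iff.mp (by omega)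
  have hY : Y ≠ [] := List.ne_nil_of_mem ht'
  have hpq : 0 < p * (1 - p) := mul_pos h0 hq
  rcases exists_top Y with he | ⟨k, hk, hlt, he⟩
  · rw [Sg_top h0 h1 hY he]
    linarith
  · by_cases hz : (Y.take k).count false = 0
    · obtain ⟨i, j, -, hj, -, hi1, -, -, hS, -⟩ := run_true h0 h1 hk hlt he hf' hz
      rw [hS]
      have hy0 : 0 < p ^ k := pow_pos h0 k
      have a1 : p ^ i ≤ p := by
        calc p ^ i ≤ p ^ 1 := pow_le_pow_of_le_one h0.le h1.le hi1
          _ = p := pow_one p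
      have a2 : (1 - p) ^ j ≤ 1 - p := by
        calc (1 - p) ^ j ≤ (1 - p) ^ 1 := pow_le_pow_of_le_one hq.le (by linarith) (by omega)
          _ = 1 - p := pow_one _
      have a3 : p ^ i * (1 - p) ^ j ≤ p * (1 - p) := mul_le_mul a1 a2 (pow_nonneg hq.le _) h0.le
      have a5 : 0 ≤ p ^ i * (1 - p) ^ j := by positivity
      nlinarith
    · by_cases hz2 : (Y.take k).count true = 0
      · obtain ⟨i, j, hi, -, -, hj1, -, -, hS, -⟩ := run_false h0 h1 hk hlt he ht' hz2
        rw [hS]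
        have hy0 : 0 < (1 - p) ^ k := pow_pos hq k
        have a1 : p ^ i ≤ p := by
          calc p ^ i ≤ p ^ 1 := pow_le_pow_of_le_one h0.le h1.le (by omega)
            _ = p := pow_one p
        have a2 : (1 - p) ^ j ≤ 1 - p := by
          calc (1 - p) ^ j ≤ (1 - p) ^ 1 := pow_le_pow_of_le_one hq.le (by linarith) hj1
            _ = 1 - p := pow_one _
        have a3 : p ^ i * (1 - p) ^ j ≤ p * (1 - p) := mul_le_mul a1 a2 (pow_nonneg hq.le _) h0.le
        have a5 : 0 ≤ p ^ i * (1 - p) ^ j := by positivity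
        nlinarith
      · rw [Sg_rec h0 h1 hY hk he]
        have h3 := Sg_le_four_thirds h0 h1 (mem_of_count_ne hz2) (mem_of_count_ne hz)
        have h4 := wt_drop_le h0 h1 hk hlt ht' hf'
        have h5 := Sg_pos h0 h1 (take_ne_nil hk)
        have h7 := wt_pos h0 h1 (Y.drop k)
        nlinarith

/-- one tail: `lamH ≤ (1+2p)/8` -/
theorem lamH_le_one_tail {p : ℝ} (h0 : 0 < p) (h1 : p < 1) {Z : List Bool}
    (hZ : Z.count false = 1) : lamH p Z ≤ (1 + 2 * p) / 8 := by
  obtain ⟨m, i, hmi, -, -, hL, -⟩ := one_tail_data h0 h1 hZ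
  rw [hL]
  exact hfun_le h0 h1 hmi

/-- one head: `lamH ≤ (1-p)/4` -/
theorem lamH_le_one_head {p : ℝ} (h0 : 0 < p) (h1 : p < 1) {Z : List Bool}
    (hZ : Z.count true = 1) : lamH p Z ≤ (1 - p) / 4 := by
  obtain ⟨m, j, hmj, -, -, hL, -⟩ := one_head_data h0 h1 hZ
  have hq : 0 < 1 - p := by linarith
  rw [hL]
  have hy1 : (1 - p) ^ m ≤ 1 := pow_le_one₀ hq.le (by linarith)
  have a1 : (1 - p) ^ j ≤ (1 - p) ^ m := pow_le_pow_of_le_one hq.le (by linarith) hmj
  have a4 := x_one_sub_le ((1 - p) ^ m)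
  have a5 : (1 - p) ^ j * (1 - (1 - p) ^ m) ≤ 1 / 4 := by nlinarith
  nlinarith

end Coin
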