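import Pool.Agent.Lib.Coin.Defs

/-!
# Coin race: the abstract race of two waiting time laws (module M2)

Sequences `a, b : ℕ → ℝ` are the point probabilities of two independent waiting times.
-/

namespace Coin

open Finset

/-- `P(τ ≥ n)` -/
noncomputable def tl (a : ℕ → ℝ) (n : ℕ) : ℝ := 1 - ∑ m ∈ range n, a m

/-- `P(τ > n)` -/
noncomputable def srv (a : ℕ → ℝ) (n : ℕ) : ℝ := 1 - ∑ m ∈ range (n + 1), a m

/-- convolution: the law of the sum of two independent times -/
noncomputable def conv (a b : ℕ → ℝ) (n : ℕ) : ℝ := ∑ x ∈ antidiagonal n, a x.1 * b x.2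

/-- `P(A < B) - P(A > B)` -/
noncomputable def Gs (a b : ℕ → ℝ) : ℝ := (∑' n, a n * srv b n) - ∑' n, b n * srv a n

/-- `P(A + A' - B ∈ {k, k - 1})` -/
noncomputable def Wk (a a' b : ℕ → ℝ) (k : ℕ) : ℝ :=
  ∑' n, b n * (conv a a' (n + k) + conv a a' (n + k - 1))

/-- probability sequence on the positive integers -/
structure IsProb (a : ℕ → ℝ) : Prop where
  nonneg : ∀ n, 0 ≤ a n
  hasSum : HasSum a 1
  zero : a 0 = 0

/-- renewal identity with border set `K` and weights `kap` -/
structure Ren (K : Finset ℕ) (kap a : ℕ → ℝ) : Prop where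
  pos : ∀ k ∈ K, 1 ≤ k
  van : ∀ k ∈ K, ∀ m < k, a m = 0
  eq : ∀ n, ∑ k ∈ K, kap k * a (n + k) = srv a n

theorem srv_eq_tl (a : ℕ → ℝ) (n : ℕ) : srv a n = tl a (n + 1) := rfl

theorem tl_succ (a : ℕ → ℝ) (n : ℕ) : tl a n = a n + tl a (n + 1) := by
  simp only [tl, sum_range_succ]; ring

theorem tl_zero (a : ℕ → ℝ) : tl a 0 = 1 := by simp [tl]

theorem tl_eq_srv {a : ℕ → ℝ} {n : ℕ} (hn : 1 ≤ n) : tl a n = srv a (n - 1) := by
  rw [srv_eq_tl, Nat.sub_add_cancel hn]

namespace IsProb

variable {a b : ℕ → ℝ}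

theorem summable (ha : IsProb a) : Summable a := ha.hasSum.summable

theorem tsum (ha : IsProb a) : ∑' n, a n = 1 := ha.hasSum.tsum_eq

theorem sum_le (ha : IsProb a) (n : ℕ) : ∑ m ∈ range n, a m ≤ 1 := by
  rw [← ha.tsum]
  exact ha.summable.sum_le_tsum _ (fun i _ => ha.nonneg i)

theorem le_one (ha : IsProb a) (n : ℕ) : a n ≤ 1 := by
  rw [← ha.tsum]
  exact ha.summable.le_tsum n (fun i _ => ha.nonneg i)

theorem tl_nonneg (ha : IsProb a) (n : ℕ) : 0 ≤ tl a n := by
  have := ha.sum_le n
  unfold tl; linarith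

theorem tl_le_one (ha : IsProb a) (n : ℕ) : tl a n ≤ 1 := by
  have : 0 ≤ ∑ m ∈ range n, a m := sum_nonneg (fun i _ => ha.nonneg i)
  unfold tl; linarith

theorem srv_nonneg (ha : IsProb a) (n : ℕ) : 0 ≤ srv a n := ha.tl_nonneg (n + 1)

theorem srv_le_one (ha : IsProb a) (n : ℕ) : srv a n ≤ 1 := ha.tl_le_one (n + 1)

theorem tendsto_tl (ha : IsProb a) : Filter.Tendsto (tl a) Filter.atTop (nhds 0) := by
  have h := ha.hasSum.tendsto_sum_nat
  have h2 : Filter.Tendsto (fun n => 1 - ∑ m ∈ range n, a m) Filter.atTop (nhds (1 - 1)) :=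
    Filter.Tendsto.sub tendsto_const_nhds h
  rw [sub_self] at h2
  exact h2

theorem summable_mul_tl (ha : IsProb a) (hb : IsProb b) : Summable (fun n => a n * tl b n) :=
  Summable.of_nonneg_of_le (fun n => mul_nonneg (ha.nonneg n) (hb.tl_nonneg n))
    (fun n => mul_le_of_le_one_right (ha.nonneg n) (hb.tl_le_one n)) ha.summable

theorem summable_mul_srv (ha : IsProb a) (hb : IsProb b) : Summable (fun n => a n * srv b n) :=
  Summable.of_nonneg_of_le (fun n => mul_nonneg (ha.nonneg n) (hb.srv_nonneg n))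
    (fun n => mul_le_of_le_one_right (ha.nonneg n) (hb.srv_le_one n)) ha.summable

/-- telescoping: `P(A ≤ B) + P(B < A) = 1` -/
theorem tsum_mul_tl_add (ha : IsProb a) (hb : IsProb b) :
    (∑' n, a n * tl b n) + ∑' n, b n * srv a n = 1 := by
  have hs : HasSum (fun n => a n * tl b n + b n * srv a n)
      ((∑' n, a n * tl b n) + ∑' n, b n * srv a n) :=
    (ha.summable_mul_tl hb).hasSum.add (hb.summable_mul_srv ha).hasSum
  have ht := hs.tendsto_sum_nat
  have hsum : ∀ n, ∑ i ∈ range n, (a i * tl b i + b i * srv a i) = 1 - tl a n * tl b n := by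
    intro n
    induction n with
    | zero => simp [tl_zero]
    | succ n ih =>
      rw [sum_range_succ, ih, srv_eq_tl]
      have h1 := tl_succ a n
      have h2 := tl_succ b n
      rw [h1, h2]; ring
  have ht2 : Filter.Tendsto (fun n => ∑ i ∈ range n, (a i * tl b i + b i * srv a i))
      Filter.atTop (nhds (1 - 0 * 0)) := by
    simp only [hsum]
    exact Filter.Tendsto.sub tendsto_const_nhds (ha.tendsto_tl.mul hb.tendsto_tl)
  have := tendsto_nhds_unique ht ht2
  simpa using this

end IsProb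

/-- `1 - Gs a b = ∑ b_n (P(A > n) + P(A ≥ n))` -/
theorem one_sub_Gs {a b : ℕ → ℝ} (ha : IsProb a) (hb : IsProb b) :
    1 - Gs a b = ∑' n, b n * (srv a n + tl a n) := by
  have h1 := hb.tsum_mul_tl_add ha
  have h2 : ∑' n, b n * (srv a n + tl a n) = (∑' n, b n * srv a n) + ∑' n, b n * tl a n := by
    rw [← (hb.summable_mul_srv ha).tsum_add (hb.summable_mul_tl ha)]
    exact tsum_congr (fun n => by ring)
  rw [h2]
  unfold Gs
  linarith

theorem Gs_antisymm (a b : ℕ → ℝ) : Gs a b = - Gs b a := by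
  unfold Gs; ring

theorem Gs_self (a : ℕ → ℝ) : Gs a a = 0 := by
  unfold Gs; ring

/-! ## power series identities -/

section PS

open PowerSeries

theorem ps_eq (a : ℕ → ℝ) :
    (PowerSeries.mk a) = 1 - (1 - X) * PowerSeries.mk (srv a) := by
  ext n
  cases n with
  | zero => simp [srv, sub_mul, coeff_zero_eq_constantCoeff]
  | succ n =>
    simp only [coeff_mk, map_sub, sub_mul, one_mul, coeff_one, Nat.add_eq_zero_iff, one_ne_zero,
      and_false, if_false, coeff_succ_X_mul, coeff_mk]
    simp only [srv, sum_range_succ]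
    ring

theorem coeff_ps_mul (a b : ℕ → ℝ) (n : ℕ) :
    coeff n (PowerSeries.mk a * PowerSeries.mk b) = conv a b n := by
  rw [coeff_mul]
  simp [conv]

theorem mk_conv (a b : ℕ → ℝ) :
    PowerSeries.mk (conv a b) = PowerSeries.mk a * PowerSeries.mk b := by
  ext n
  rw [coeff_ps_mul, coeff_mk]

/-- `s_A - s_B = s_A * b - s_B * a` -/
theorem srv_sub_srv (a b : ℕ → ℝ) (n : ℕ) :
    srv a n - srv b n = conv (srv a) b n - conv (srv b) a n := by
  have h : PowerSeries.mk (srv a) - PowerSeries.mk (srv b)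
      = PowerSeries.mk (srv a) * PowerSeries.mk b - PowerSeries.mk (srv b) * PowerSeries.mk a := by
    rw [ps_eq a, ps_eq b]; ring
  have := congrArg (coeff n) h
  simpa [coeff_ps_mul] using this

/-- the survival function of a sum: `P(A + A' > n) = P(A > n) + (s_A * a)(n)` -/
theorem srv_conv_self (a : ℕ → ℝ) (n : ℕ) :
    srv (conv a a) n = srv a n + conv (srv a) a n := by
  have h1 : (1 - X : PowerSeries ℝ) * PowerSeries.mk (srv (conv a a))
      = (1 - X) * (PowerSeries.mk (srv a) + PowerSeries.mk (srv a) * PowerSeries.mk a) := by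
    have h2 := ps_eq (conv a a)
    rw [mk_conv] at h2
    have h3 := ps_eq a
    calc (1 - X : PowerSeries ℝ) * PowerSeries.mk (srv (conv a a))
        = 1 - PowerSeries.mk a * PowerSeries.mk a := by rw [h2]; ring
      _ = (1 - PowerSeries.mk a) * (1 + PowerSeries.mk a) := by ring
      _ = ((1 - X) * PowerSeries.mk (srv a)) * (1 + PowerSeries.mk a) := by
          congr 1
          rw [h3]; ring
      _ = _ := by ring
  have hne : (1 - X : PowerSeries ℝ) ≠ 0 := by
    intro h
    have := congrArg (coeff 0) h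
    simp at this
  have h4 := mul_left_cancel₀ hne h1
  have := congrArg (coeff n) h4
  simpa [coeff_ps_mul] using this

end PS

theorem conv_eq_range (a b : ℕ → ℝ) (n : ℕ) :
    conv a b n = ∑ i ∈ range (n + 1), a i * b (n - i) := by
  unfold conv
  rw [Finset.Nat.sum_antidiagonal_eq_sum_range_succ_mk]

theorem conv_comm (a b : ℕ → ℝ) : conv a b = conv b a := by
  funext n
  have h : PowerSeries.mk a * PowerSeries.mk b = PowerSeries.mk b * PowerSeries.mk a :=
    mul_comm _ _
  have := congrArg (PowerSeries.coeff n) h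
  rwa [coeff_ps_mul, coeff_ps_mul] at this

theorem conv_shift {a b : ℕ → ℝ} {k : ℕ} (h : ∀ m < k, a m = 0) (n : ℕ) :
    conv (fun i => a (i + k)) b n = conv a b (n + k) := by
  rw [conv_eq_range, conv_eq_range, show n + k + 1 = k + (n + 1) by ring,
    sum_range_add _ k (n + 1)]
  have h0 : ∑ x ∈ range k, a x * b (n + k - x) = 0 :=
    sum_eq_zero (fun x hx => by rw [h x (mem_range.mp hx), zero_mul])
  rw [h0, zero_add]
  refine sum_congr rfl (fun i _ => ?_)
  rw [show k + i = i + k by ring, show n + k - (i + k) = n - i by omega]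

/-- `(s_A * b)(n) = ∑ κ_k (a * b)(n + k)` -/
theorem Ren.conv_srv {K : Finset ℕ} {kap a : ℕ → ℝ} (h : Ren K kap a) (b : ℕ → ℝ) (n : ℕ) :
    conv (srv a) b n = ∑ k ∈ K, kap k * conv a b (n + k) := by
  have h1 : conv (srv a) b n = ∑ x ∈ antidiagonal n, ∑ k ∈ K, kap k * (a (x.1 + k) * b x.2) := by
    unfold conv
    refine sum_congr rfl (fun x _ => ?_)
    rw [← h.eq, sum_mul]
    exact sum_congr rfl (fun k _ => by ring)
  rw [h1, sum_comm]
  refine sum_congr rfl (fun k hk => ?_)
  rw [← conv_shift (h.van k hk), ← mul_sum]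
  rfl

/-- the difference of two survival functions -/
theorem srv_sub_srv_ren {K K' : Finset ℕ} {kap kap' a b : ℕ → ℝ} (ha : Ren K kap a)
    (hb : Ren K' kap' b) (n : ℕ) :
    srv a n - srv b n = (∑ k ∈ K, kap k * conv a b (n + k))
      - ∑ k ∈ K', kap' k * conv a b (n + k) := by
  rw [srv_sub_srv, ha.conv_srv, hb.conv_srv, conv_comm b a]

/-! ## the race formula -/

theorem conv_nonneg {a b : ℕ → ℝ} (ha : ∀ n, 0 ≤ a n) (hb : ∀ n, 0 ≤ b n) (n : ℕ) :
    0 ≤ conv a b n := sum_nonneg (fun _ _ => mul_nonneg (ha _) (hb _))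

theorem IsProb.conv {a b : ℕ → ℝ} (ha : IsProb a) (hb : IsProb b) : IsProb (conv a b) := by
  have hna : Summable (fun n => ‖a n‖) := ha.summable.norm
  have hnb : Summable (fun n => ‖b n‖) := hb.summable.norm
  refine ⟨conv_nonneg ha.nonneg hb.nonneg, ?_, ?_⟩
  · have hs : Summable (Coin.conv a b) :=
      (summable_norm_sum_mul_antidiagonal_of_summable_norm hna hnb).of_norm
    have h := tsum_mul_tsum_eq_tsum_sum_antidiagonal_of_summable_norm hna hnb
    rw [ha.tsum, hb.tsum, one_mul] at h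
    have h2 : HasSum (Coin.conv a b) (∑' n, Coin.conv a b n) := hs.hasSum
    have h3 : ∑' n, Coin.conv a b n = 1 := by rw [h]; rfl
    rwa [h3] at h2
  · simp [Coin.conv, ha.zero]

theorem summable_W {a a' b : ℕ → ℝ} (ha : IsProb a) (ha' : IsProb a') (hb : IsProb b) (k : ℕ) :
    Summable (fun n => b n * (conv a a' (n + k) + conv a a' (n + k - 1))) := by
  have hc := ha.conv ha'
  refine Summable.of_nonneg_of_le
    (fun n => mul_nonneg (hb.nonneg n) (add_nonneg (hc.nonneg _) (hc.nonneg _)))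
    (fun n => mul_le_mul_of_nonneg_left (add_le_add (hc.le_one _) (hc.le_one _)) (hb.nonneg n))
    (hb.summable.mul_right (1 + 1))

theorem hasSum_W {a a' b : ℕ → ℝ} (ha : IsProb a) (ha' : IsProb a') (hb : IsProb b) (k : ℕ) :
    HasSum (fun n => b n * (conv a a' (n + k) + conv a a' (n + k - 1))) (Wk a a' b k) :=
  (summable_W ha ha' hb k).hasSum

theorem Wk_nonneg {a a' b : ℕ → ℝ} (ha : IsProb a) (ha' : IsProb a') (hb : IsProb b) (k : ℕ) :
    0 ≤ Wk a a' b k := by
  have hc := ha.conv ha'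
  exact tsum_nonneg
    (fun n => mul_nonneg (hb.nonneg n) (add_nonneg (hc.nonneg _) (hc.nonneg _)))

theorem hasSum_one_sub {a b : ℕ → ℝ} (ha : IsProb a) (hb : IsProb b) :
    HasSum (fun n => b n * (srv a n + tl a n)) (1 - Gs a b) := by
  rw [one_sub_Gs ha hb]
  refine Summable.hasSum ?_
  have := (hb.summable_mul_srv ha).add (hb.summable_mul_tl ha)
  refine this.congr (fun n => ?_)
  ring

/-- the two point form of the race formula -/
theorem Gs_sub_Gs {K K' : Finset ℕ} {kap kap' a a' b : ℕ → ℝ} (ha : IsProb a) (ha' : IsProb a')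
    (hb : IsProb b) (ra : Ren K kap a) (ra' : Ren K' kap' a') :
    Gs a' b - Gs a b = (∑ k ∈ K, kap k * Wk a a' b k) - ∑ k ∈ K', kap' k * Wk a a' b k := by
  have h1 : HasSum (fun n => b n * (srv a n + tl a n) - b n * (srv a' n + tl a' n))
      ((1 - Gs a b) - (1 - Gs a' b)) := (hasSum_one_sub ha hb).sub (hasSum_one_sub ha' hb)
  have h2 : HasSum (fun n => (∑ k ∈ K, kap k *
        (b n * (conv a a' (n + k) + conv a a' (n + k - 1))))
        - ∑ k ∈ K', kap' k * (b n * (conv a a' (n + k) + conv a a' (n + k - 1))))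
      ((∑ k ∈ K, kap k * Wk a a' b k) - ∑ k ∈ K', kap' k * Wk a a' b k) :=
    (hasSum_sum (fun k _ => (hasSum_W ha ha' hb k).mul_left (kap k))).sub
      (hasSum_sum (fun k _ => (hasSum_W ha ha' hb k).mul_left (kap' k)))
  have h3 : (fun n => b n * (srv a n + tl a n) - b n * (srv a' n + tl a' n))
      = (fun n => (∑ k ∈ K, kap k * (b n * (conv a a' (n + k) + conv a a' (n + k - 1))))
        - ∑ k ∈ K', kap' k * (b n * (conv a a' (n + k) + conv a a' (n + k - 1)))) := by
    funext n
    rcases Nat.eq_zero_or_pos n with hn | hn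
    · subst hn
      simp [hb.zero]
    · have e1 := srv_sub_srv_ren ra ra' n
      have e2 := srv_sub_srv_ren ra ra' (n - 1)
      have e3 : ∀ k ∈ K, kap k * (b n * (conv a a' (n + k) + conv a a' (n + k - 1)))
          = b n * (kap k * conv a a' (n + k)) + b n * (kap k * conv a a' (n - 1 + k)) := by
        intro k hk
        rw [show n - 1 + k = n + k - 1 by omega]; ring
      have e4 : ∀ k ∈ K', kap' k * (b n * (conv a a' (n + k) + conv a a' (n + k - 1)))
          = b n * (kap' k * conv a a' (n + k)) + b n * (kap' k * conv a a' (n - 1 + k)) := by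
        intro k hk
        rw [show n - 1 + k = n + k - 1 by omega]; ring
      rw [sum_congr rfl e3, sum_congr rfl e4, sum_add_distrib, sum_add_distrib, ← mul_sum,
        ← mul_sum, ← mul_sum, ← mul_sum, tl_eq_srv hn, tl_eq_srv hn]
      linear_combination b n * e1 + b n * e2
  rw [h3] at h1
  have := h1.unique h2
  linarith

/-- the race formula -/
theorem Gs_eq {K K' : Finset ℕ} {kap kap' a b : ℕ → ℝ} (ha : IsProb a) (hb : IsProb b)
    (ra : Ren K kap a) (rb : Ren K' kap' b) :
    Gs a b = -((∑ k ∈ K, kap k * Wk a b b k) - ∑ k ∈ K', kap' k * Wk a b b k) := by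
  have := Gs_sub_Gs ha hb hb ra rb
  rw [Gs_self] at this
  linarith

/-- the race formula with the other weights -/
theorem Gs_eq' {K K' : Finset ℕ} {kap kap' a b : ℕ → ℝ} (ha : IsProb a) (hb : IsProb b)
    (ra : Ren K kap a) (rb : Ren K' kap' b) :
    Gs a b = -((∑ k ∈ K, kap k * Wk a b a k) - ∑ k ∈ K', kap' k * Wk a b a k) := by
  have := Gs_sub_Gs ha hb ha ra rb
  rw [Gs_self, Gs_antisymm b a] at this
  linarith

/-- `∑ κ_k W_k(a, a; b) = P-difference`; this is the quantity `Om_A` -/
theorem Om_eq {K : Finset ℕ} {kap a b : ℕ → ℝ} (ha : IsProb a) (hb : IsProb b)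
    (ra : Ren K kap a) :
    ∑ k ∈ K, kap k * Wk a a b k = Gs a b - Gs (conv a a) b := by
  have haa := ha.conv ha
  have h1 : HasSum (fun n => b n * (srv (conv a a) n + tl (conv a a) n)
      - b n * (srv a n + tl a n)) ((1 - Gs (conv a a) b) - (1 - Gs a b)) :=
    (hasSum_one_sub haa hb).sub (hasSum_one_sub ha hb)
  have h2 : HasSum (fun n => ∑ k ∈ K, kap k * (b n * (conv a a (n + k) + conv a a (n + k - 1))))
      (∑ k ∈ K, kap k * Wk a a b k) :=
    hasSum_sum (fun k _ => (hasSum_W ha ha hb k).mul_left (kap k))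
  have h3 : (fun n => b n * (srv (conv a a) n + tl (conv a a) n) - b n * (srv a n + tl a n))
      = (fun n => ∑ k ∈ K, kap k * (b n * (conv a a (n + k) + conv a a (n + k - 1)))) := by
    funext n
    rcases Nat.eq_zero_or_pos n with hn | hn
    · subst hn
      simp [hb.zero]
    · have e1 := srv_conv_self a n
      have e2 := srv_conv_self a (n - 1)
      rw [ra.conv_srv] at e1 e2
      have e3 : ∀ k ∈ K, kap k * (b n * (conv a a (n + k) + conv a a (n + k - 1)))
          = b n * (kap k * conv a a (n + k)) + b n * (kap k * conv a a (n - 1 + k)) := by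
        intro k hk
        rw [show n - 1 + k = n + k - 1 by omega]; ring
      rw [sum_congr rfl e3, sum_add_distrib, ← mul_sum, ← mul_sum, tl_eq_srv hn, tl_eq_srv hn]
      linear_combination b n * e1 + b n * e2
  rw [h3] at h1
  have := h1.unique h2
  linarith

/-! ## monotonicity of the weights -/

/-- `P(B' - B'' = m)` -/
noncomputable def lag (b : ℕ → ℝ) (m : ℕ) : ℝ := ∑' j, b j * b (j + m)

theorem summable_lag {b : ℕ → ℝ} (hb : IsProb b) (m : ℕ) : Summable (fun j => b j * b (j + m)) :=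
  Summable.of_nonneg_of_le (fun j => mul_nonneg (hb.nonneg j) (hb.nonneg _))
    (fun j => mul_le_of_le_one_right (hb.nonneg j) (hb.le_one _)) hb.summable

theorem lag_nonneg {b : ℕ → ℝ} (hb : IsProb b) (m : ℕ) : 0 ≤ lag b m :=
  tsum_nonneg (fun j => mul_nonneg (hb.nonneg j) (hb.nonneg _))

theorem lag_le_one {b : ℕ → ℝ} (hb : IsProb b) (m : ℕ) : lag b m ≤ 1 := by
  rw [← hb.tsum]
  exact (summable_lag hb m).tsum_le_tsum
    (fun j => mul_le_of_le_one_right (hb.nonneg j) (hb.le_one _)) hb.summable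

theorem lag_anti {b : ℕ → ℝ} (hb : IsProb b) {L : ℕ} (h0 : ∀ n < L, b n = 0)
    (ha : ∀ n, L ≤ n → b (n + 1) ≤ b n) (m : ℕ) : lag b (m + 1) ≤ lag b m := by
  refine (summable_lag hb (m + 1)).tsum_le_tsum (fun j => ?_) (summable_lag hb m)
  rcases lt_or_ge j L with hj | hj
  · rw [h0 j hj]; simp
  · exact mul_le_mul_of_nonneg_left (ha (j + m) (by omega)) (hb.nonneg j)

theorem lag_antitone {b : ℕ → ℝ} (hb : IsProb b) {L : ℕ} (h0 : ∀ n < L, b n = 0)
    (ha : ∀ n, L ≤ n → b (n + 1) ≤ b n) : Antitone (lag b) :=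
  antitone_nat_of_succ_le (lag_anti hb h0 ha)

theorem tsum_mul_conv_eq {a b : ℕ → ℝ} (ha : IsProb a) (hb : IsProb b) {k : ℕ}
    (h0 : ∀ i < k, a i = 0) :
    ∑' n, b n * conv a b (n + k) = ∑' i, a i * lag b (i - k) := by
  set F : ℕ → ℕ → ℝ := fun n i => b n * (a i * (if i ≤ n + k then b (n + k - i) else 0)) with hF
  have hF0 : ∀ n i, 0 ≤ F n i := by
    intro n i
    simp only [hF]
    split_ifs
    · exact mul_nonneg (hb.nonneg _) (mul_nonneg (ha.nonneg _) (hb.nonneg _))
    · simp
  have hF1 : ∀ n i, F n i ≤ b n * a i := by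
    intro n i
    simp only [hF]
    refine mul_le_mul_of_nonneg_left ?_ (hb.nonneg n)
    refine mul_le_of_le_one_right (ha.nonneg i) ?_
    split_ifs
    · exact hb.le_one _
    · exact zero_le_one
  have hS : Summable (Function.uncurry F) := by
    refine Summable.of_nonneg_of_le (fun x => hF0 x.1 x.2) (fun x => hF1 x.1 x.2) ?_
    exact hb.summable.mul_of_nonneg ha.summable hb.nonneg ha.nonneg
  have h1 : ∀ n, b n * conv a b (n + k) = ∑' i, F n i := by
    intro n
    rw [conv_eq_range, tsum_eq_sum (s := range (n + k + 1))]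
    · rw [mul_sum]
      refine sum_congr rfl (fun i hi => ?_)
      have : i ≤ n + k := by have := mem_range.mp hi; omega
      simp only [hF, if_pos this]
    · intro i hi
      have : ¬ i ≤ n + k := by intro h; exact hi (mem_range.mpr (by omega))
      simp only [hF, if_neg this]; ring
  have h2 : ∀ i, ∑' n, F n i = a i * lag b (i - k) := by
    intro i
    rcases lt_or_ge i k with hi | hi
    · rw [h0 i hi, zero_mul]
      have : (fun n => F n i) = fun _ => 0 := by
        funext n; simp only [hF, h0 i hi]; ring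
      rw [this, tsum_zero]
    · have hs : Summable (fun n => F n i) :=
        Summable.of_nonneg_of_le (fun n => hF0 n i) (fun n => hF1 n i)
          (hb.summable.mul_right (a i))
      rw [← hs.sum_add_tsum_nat_add (i - k)]
      have hz : ∑ n ∈ range (i - k), F n i = 0 := by
        refine sum_eq_zero (fun n hn => ?_)
        have : ¬ i ≤ n + k := by have := mem_range.mp hn; omega
        simp only [hF, if_neg this]; ring
      rw [hz, zero_add]
      unfold lag
      rw [← tsum_mul_left]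
      refine tsum_congr (fun j => ?_)
      have h3 : i ≤ j + (i - k) + k := by omega
      simp only [hF, if_pos h3]
      rw [show j + (i - k) + k - i = j by omega]; ring
  calc ∑' n, b n * conv a b (n + k) = ∑' n, ∑' i, F n i := tsum_congr h1
    _ = ∑' i, ∑' n, F n i := hS.tsum_comm.symm
    _ = _ := tsum_congr h2

/-- the weights `w_k = Wk a b b k` are nondecreasing for `k ≤ |A|` -/
theorem Wk_mono_step {a b : ℕ → ℝ} (ha : IsProb a) (hb : IsProb b) {LA LB : ℕ}
    (ha0 : ∀ n < LA, a n = 0) (hb0 : ∀ n < LB, b n = 0)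
    (hba : ∀ n, LB ≤ n → b (n + 1) ≤ b n) {k : ℕ} (hk : 1 ≤ k) (hkL : k + 1 ≤ LA) :
    Wk a b b k ≤ Wk a b b (k + 1) := by
  have hc := ha.conv hb
  have hs : ∀ j, Summable (fun n => b n * conv a b (n + j)) := fun j =>
    Summable.of_nonneg_of_le (fun n => mul_nonneg (hb.nonneg n) (hc.nonneg _))
      (fun n => mul_le_of_le_one_right (hb.nonneg n) (hc.le_one _)) hb.summable
  have hW : ∀ j, 1 ≤ j → Wk a b b j = (∑' n, b n * conv a b (n + j))
      + ∑' n, b n * conv a b (n + (j - 1)) := by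
    intro j hj
    unfold Wk
    rw [← (hs j).tsum_add (hs (j - 1))]
    refine tsum_congr (fun n => ?_)
    rw [show n + j - 1 = n + (j - 1) by omega]; ring
  rw [hW k hk, hW (k + 1) (by omega), show k + 1 - 1 = k by omega,
    tsum_mul_conv_eq ha hb (k := k + 1) (fun i hi => ha0 i (by omega)),
    tsum_mul_conv_eq ha hb (k := k) (fun i hi => ha0 i (by omega)),
    tsum_mul_conv_eq ha hb (k := k - 1) (fun i hi => ha0 i (by omega))]
  have hsl : ∀ j, Summable (fun i => a i * lag b (i - j)) := fun j =>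
    Summable.of_nonneg_of_le (fun i => mul_nonneg (ha.nonneg i) (lag_nonneg hb _))
      (fun i => mul_le_of_le_one_right (ha.nonneg i) (lag_le_one hb _)) ha.summable
  have : ∑' i, a i * lag b (i - (k - 1)) ≤ ∑' i, a i * lag b (i - (k + 1)) := by
    refine (hsl _).tsum_le_tsum (fun i => ?_) (hsl _)
    exact mul_le_mul_of_nonneg_left (lag_antitone hb hb0 hba (by omega)) (ha.nonneg i)
  linarith

theorem Wk_mono {a b : ℕ → ℝ} (ha : IsProb a) (hb : IsProb b) {LA LB : ℕ}
    (ha0 : ∀ n < LA, a n = 0) (hb0 : ∀ n < LB, b n = 0)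
    (hba : ∀ n, LB ≤ n → b (n + 1) ≤ b n) {j k : ℕ} (hj : 1 ≤ j) (hjk : j ≤ k) (hkL : k ≤ LA) :
    Wk a b b j ≤ Wk a b b k := by
  induction k, hjk using Nat.le_induction with
  | base => exact le_rfl
  | succ k hjk ih =>
    exact (ih (by omega)).trans (Wk_mono_step ha hb ha0 hb0 hba (by omega) hkL)

/-! ## new better than used: lower bound for `Om` -/

/-- `P(B > x) + P(B ≥ x)` is submultiplicative up to the factor two -/
theorem NBU_bar {b : ℕ → ℝ} (hb : IsProb b) (h : ∀ m n, srv b (m + n) ≤ srv b m * srv b n)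
    (m n : ℕ) :
    srv b (m + n) + tl b (m + n) ≤ (srv b m + tl b m) * (srv b n + tl b n) / 2 := by
  have hsm := hb.srv_nonneg m
  have hsn := hb.srv_nonneg n
  have htm : srv b m ≤ tl b m := by
    have := tl_succ b m; have := hb.nonneg m; rw [srv_eq_tl]; linarith
  have htn : srv b n ≤ tl b n := by
    have := tl_succ b n; have := hb.nonneg n; rw [srv_eq_tl]; linarith
  have h1 : tl b (m + n) ≤ tl b m * srv b n ∨ (m = 0 ∧ tl b (m + n) = tl b n) := by
    rcases Nat.eq_zero_or_pos m with hm | hm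
    · right; subst hm; simp
    · left
      rw [tl_eq_srv (by omega), tl_eq_srv hm, show m + n - 1 = (m - 1) + n by omega]
      exact h _ _
  have h2 : tl b (m + n) ≤ srv b m * tl b n ∨ (n = 0 ∧ tl b (m + n) = tl b m) := by
    rcases Nat.eq_zero_or_pos n with hn | hn
    · right; subst hn; simp
    · left
      rw [tl_eq_srv (by omega), tl_eq_srv hn, show m + n - 1 = m + (n - 1) by omega]
      exact h _ _
  have h3 := h m n
  have h4 : srv b m * srv b n ≤ tl b m * tl b n :=
    mul_le_mul htm htn hsn (hb.tl_nonneg m)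
  have hs0 : srv b 0 ≤ 1 := hb.srv_le_one 0
  have hsz : srv b 0 = 1 := by
    simp [srv, hb.zero]
  rcases h1 with h1 | ⟨hm, h1⟩
  · rcases h2 with h2 | ⟨hn, h2⟩
    · nlinarith
    · subst hn
      simp only [add_zero] at *
      rw [hsz, tl_zero]; linarith
  · subst hm
    simp only [zero_add] at *
    rw [hsz, tl_zero]; linarith

/-- `P(B > A + A') + P(B ≥ A + A') ≤ (P(B > A) + P(B ≥ A))² / 2` -/
theorem tsum_conv_bar_le {a b : ℕ → ℝ} (ha : IsProb a) (hb : IsProb b)
    (h : ∀ m n, srv b (m + n) ≤ srv b m * srv b n) :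
    ∑' n, conv a a n * (srv b n + tl b n) ≤ (∑' n, a n * (srv b n + tl b n)) ^ 2 / 2 := by
  set T : ℕ → ℝ := fun n => srv b n + tl b n with hT
  have hT0 : ∀ n, 0 ≤ T n := fun n => add_nonneg (hb.srv_nonneg n) (hb.tl_nonneg n)
  have hT2 : ∀ n, T n ≤ 2 := fun n => by
    have := hb.srv_le_one n; have := hb.tl_le_one n; simp only [hT]; linarith
  have hsa : Summable (fun n => a n * T n) :=
    Summable.of_nonneg_of_le (fun n => mul_nonneg (ha.nonneg n) (hT0 n))
      (fun n => mul_le_mul_of_nonneg_left (hT2 n) (ha.nonneg n)) (ha.summable.mul_right 2)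
  have hna : Summable (fun n => ‖a n * T n‖) := hsa.norm
  have hprod := tsum_mul_tsum_eq_tsum_sum_antidiagonal_of_summable_norm hna hna
  have hsc : Summable (fun n => ∑ x ∈ antidiagonal n, a x.1 * T x.1 * (a x.2 * T x.2)) :=
    (summable_norm_sum_mul_antidiagonal_of_summable_norm hna hna).of_norm
  have haa := ha.conv ha
  have hsl : Summable (fun n => conv a a n * T n) :=
    Summable.of_nonneg_of_le (fun n => mul_nonneg (haa.nonneg n) (hT0 n))
      (fun n => mul_le_mul_of_nonneg_left (hT2 n) (haa.nonneg n)) (haa.summable.mul_right 2)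
  have key : ∑' n, conv a a n * T n
      ≤ ∑' n, (∑ x ∈ antidiagonal n, a x.1 * T x.1 * (a x.2 * T x.2)) / 2 := by
    refine hsl.tsum_le_tsum (fun n => ?_) (hsc.div_const 2)
    unfold conv
    rw [sum_mul, sum_div]
    refine sum_le_sum (fun x hx => ?_)
    have hx' : x.1 + x.2 = n := mem_antidiagonal.mp hx
    have h1 := NBU_bar hb h x.1 x.2
    rw [hx'] at h1
    have h2 : 0 ≤ a x.1 * a x.2 := mul_nonneg (ha.nonneg _) (ha.nonneg _)
    calc a x.1 * a x.2 * T n ≤ a x.1 * a x.2 * (T x.1 * T x.2 / 2) :=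
          mul_le_mul_of_nonneg_left h1 h2
      _ = a x.1 * T x.1 * (a x.2 * T x.2) / 2 := by ring
  rw [tsum_div_const, ← hprod] at key
  calc ∑' n, conv a a n * T n ≤ _ := key
    _ = _ := by ring

/-- NBU lower bound: `Om_A = Gs a b - Gs (a * a) b ≥ 1 + Gs a b - (1 + Gs a b)² / 2` -/
theorem Om_ge {a b : ℕ → ℝ} (ha : IsProb a) (hb : IsProb b)
    (h : ∀ m n, srv b (m + n) ≤ srv b m * srv b n) :
    1 + Gs a b - (1 + Gs a b) ^ 2 / 2 ≤ Gs a b - Gs (conv a a) b := by
  have h1 := tsum_conv_bar_le ha hb h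
  have haa := ha.conv ha
  have e1 := one_sub_Gs hb haa
  have e2 := one_sub_Gs hb ha
  rw [Gs_antisymm b (conv a a)] at e1
  rw [Gs_antisymm b a] at e2
  rw [← e1, ← e2] at h1
  nlinarith

/-! ## the derivative -/

theorem abs_tsum_le_aux {f : ℕ → ℝ} (h : Summable (fun n => |f n|)) :
    |∑' n, f n| ≤ ∑' n, |f n| := by
  have h' : Summable (fun n => ‖f n‖) := by simpa only [Real.norm_eq_abs] using h
  have := norm_tsum_le_tsum_norm h'
  simpa only [Real.norm_eq_abs] using this

/-- the `ℓ¹` distance -/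
noncomputable def l1 (a c : ℕ → ℝ) : ℝ := ∑' n, |a n - c n|

theorem summable_l1 {a c : ℕ → ℝ} (ha : IsProb a) (hc : IsProb c) :
    Summable (fun n => |a n - c n|) :=
  (ha.summable.sub hc.summable).abs

theorem l1_nonneg (a c : ℕ → ℝ) : 0 ≤ l1 a c := tsum_nonneg (fun _ => abs_nonneg _)

theorem l1_le {K : Finset ℕ} {kap kap' a c : ℕ → ℝ} (ha : IsProb a) (hc : IsProb c)
    (ra : Ren K kap a) (rc : Ren K kap' c) : l1 a c ≤ 2 * ∑ k ∈ K, |kap k - kap' k| := by
  have hac := ha.conv hc
  have hd : ∀ n, srv a n - srv c n = ∑ k ∈ K, (kap k - kap' k) * conv a c (n + k) := by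
    intro n
    rw [srv_sub_srv_ren ra rc, ← sum_sub_distrib]
    exact sum_congr rfl (fun k _ => by ring)
  have hb : ∀ n, |srv a n - srv c n| ≤ ∑ k ∈ K, |kap k - kap' k| * conv a c (n + k) := by
    intro n
    rw [hd]
    refine (abs_sum_le_sum_abs _ _).trans (sum_le_sum (fun k _ => ?_))
    rw [abs_mul, abs_of_nonneg (hac.nonneg _)]
  have hsk : ∀ k, Summable (fun n => conv a c (n + k)) := fun k =>
    (summable_nat_add_iff k).mpr hac.summable
  have hsb : Summable (fun n => ∑ k ∈ K, |kap k - kap' k| * conv a c (n + k)) :=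
    summable_sum (fun k _ => (hsk k).mul_left _)
  have hss : Summable (fun n => |srv a n - srv c n|) :=
    Summable.of_nonneg_of_le (fun _ => abs_nonneg _) hb hsb
  have htail : ∀ k, ∑' n, conv a c (n + k) ≤ 1 := by
    intro k
    have h := hac.summable.sum_add_tsum_nat_add k
    rw [hac.tsum] at h
    have : 0 ≤ ∑ n ∈ range k, conv a c n := sum_nonneg (fun _ _ => hac.nonneg _)
    linarith
  have hS : ∑' n, |srv a n - srv c n| ≤ ∑ k ∈ K, |kap k - kap' k| := by
    refine (hss.tsum_le_tsum hb hsb).trans ?_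
    rw [Summable.tsum_finsetSum (fun k _ => (hsk k).mul_left _)]
    refine sum_le_sum (fun k _ => ?_)
    rw [tsum_mul_left]
    exact mul_le_of_le_one_right (abs_nonneg _) (htail k)
  have hs1 : Summable (fun n => |a (n + 1) - c (n + 1)|) :=
    (summable_nat_add_iff (f := fun n => |a n - c n|) 1).mpr (summable_l1 ha hc)
  have hss1 : Summable (fun n => |srv a (n + 1) - srv c (n + 1)|) :=
    (summable_nat_add_iff (f := fun n => |srv a n - srv c n|) 1).mpr hss
  have e0 : l1 a c = ∑' n, |a (n + 1) - c (n + 1)| := by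
    unfold l1
    rw [(summable_l1 ha hc).tsum_eq_zero_add]
    simp [ha.zero, hc.zero]
  have e1 : ∑' n, |a (n + 1) - c (n + 1)|
      ≤ ∑' n, (|srv a n - srv c n| + |srv a (n + 1) - srv c (n + 1)|) := by
    refine hs1.tsum_le_tsum (fun n => ?_) (hss.add hss1)
    have h1 : a (n + 1) = srv a n - srv a (n + 1) := by
      simp only [srv, sum_range_succ]; ring
    have h2 : c (n + 1) = srv c n - srv c (n + 1) := by
      simp only [srv, sum_range_succ]; ring
    rw [h1, h2, show srv a n - srv a (n + 1) - (srv c n - srv c (n + 1))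
      = (srv a n - srv c n) - (srv a (n + 1) - srv c (n + 1)) by ring]
    exact abs_sub _ _
  rw [hss.tsum_add hss1] at e1
  have e2 : ∑' n, |srv a (n + 1) - srv c (n + 1)| ≤ ∑' n, |srv a n - srv c n| := by
    rw [hss.tsum_eq_zero_add]
    have := abs_nonneg (srv a 0 - srv c 0)
    linarith
  rw [e0]
  linarith

theorem conv_diff_le {a c : ℕ → ℝ} (ha : IsProb a) (hc : IsProb c) (m : ℕ) :
    |conv a c m - conv c c m| ≤ l1 a c := by
  have e : conv a c m - conv c c m = ∑ i ∈ range (m + 1), (a i - c i) * c (m - i) := by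
    rw [conv_eq_range, conv_eq_range, ← sum_sub_distrib]
    exact sum_congr rfl (fun i _ => by ring)
  rw [e]
  refine (abs_sum_le_sum_abs _ _).trans ?_
  have h1 : ∀ i ∈ range (m + 1), |(a i - c i) * c (m - i)| ≤ |a i - c i| := by
    intro i _
    rw [abs_mul, abs_of_nonneg (hc.nonneg _)]
    exact mul_le_of_le_one_right (abs_nonneg _) (hc.le_one _)
  refine (sum_le_sum h1).trans ?_
  exact (summable_l1 ha hc).sum_le_tsum _ (fun i _ => abs_nonneg _)

theorem Wk_diff_le {a c b b' : ℕ → ℝ} (ha : IsProb a) (hc : IsProb c) (hb : IsProb b)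
    (hb' : IsProb b') (k : ℕ) :
    |Wk a c b k - Wk c c b' k| ≤ 2 * l1 a c + 2 * l1 b b' := by
  have h1 : |Wk a c b k - Wk c c b k| ≤ 2 * l1 a c := by
    have hs := (hasSum_W ha hc hb k).sub (hasSum_W hc hc hb k)
    rw [← hs.tsum_eq]
    have hb1 : ∀ n, |b n * (conv a c (n + k) + conv a c (n + k - 1))
        - b n * (conv c c (n + k) + conv c c (n + k - 1))| ≤ b n * (2 * l1 a c) := by
      intro n
      rw [← mul_sub, abs_mul, abs_of_nonneg (hb.nonneg n)]
      refine mul_le_mul_of_nonneg_left ?_ (hb.nonneg n)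
      have e1 := conv_diff_le ha hc (n + k)
      have e2 := conv_diff_le ha hc (n + k - 1)
      rw [show conv a c (n + k) + conv a c (n + k - 1) - (conv c c (n + k) + conv c c (n + k - 1))
        = (conv a c (n + k) - conv c c (n + k)) + (conv a c (n + k - 1) - conv c c (n + k - 1))
        by ring]
      refine (abs_add_le _ _).trans ?_
      linarith
    have hsum : Summable (fun n => b n * (2 * l1 a c)) := hb.summable.mul_right _
    have hsa : Summable (fun n => |b n * (conv a c (n + k) + conv a c (n + k - 1))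
        - b n * (conv c c (n + k) + conv c c (n + k - 1))|) :=
      Summable.of_nonneg_of_le (fun _ => abs_nonneg _) hb1 hsum
    refine (abs_tsum_le_aux hsa).trans ?_
    refine (hsa.tsum_le_tsum hb1 hsum).trans ?_
    rw [tsum_mul_right, hb.tsum, one_mul]
  have h2 : |Wk c c b k - Wk c c b' k| ≤ 2 * l1 b b' := by
    have hcc := hc.conv hc
    have hs := (hasSum_W hc hc hb k).sub (hasSum_W hc hc hb' k)
    rw [← hs.tsum_eq]
    have hb1 : ∀ n, |b n * (conv c c (n + k) + conv c c (n + k - 1))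
        - b' n * (conv c c (n + k) + conv c c (n + k - 1))| ≤ |b n - b' n| * 2 := by
      intro n
      rw [← sub_mul, abs_mul]
      refine mul_le_mul_of_nonneg_left ?_ (abs_nonneg _)
      rw [abs_of_nonneg (add_nonneg (hcc.nonneg _) (hcc.nonneg _))]
      have := hcc.le_one (n + k)
      have := hcc.le_one (n + k - 1)
      linarith
    have hsum : Summable (fun n => |b n - b' n| * 2) := (summable_l1 hb hb').mul_right _
    have hsa : Summable (fun n => |b n * (conv c c (n + k) + conv c c (n + k - 1))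
        - b' n * (conv c c (n + k) + conv c c (n + k - 1))|) :=
      Summable.of_nonneg_of_le (fun _ => abs_nonneg _) hb1 hsum
    refine (abs_tsum_le_aux hsa).trans ?_
    refine (hsa.tsum_le_tsum hb1 hsum).trans ?_
    rw [tsum_mul_right]
    unfold l1
    linarith
  calc |Wk a c b k - Wk c c b' k|
      = |(Wk a c b k - Wk c c b k) + (Wk c c b k - Wk c c b' k)| := by ring_nf
    _ ≤ |Wk a c b k - Wk c c b k| + |Wk c c b k - Wk c c b' k| := abs_add_le _ _
    _ ≤ _ := by linarith

end Coin
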