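import Pool.Agent.Lib.Coin.IncRed2

/-!
# Coin race: runs of heads, `A = H^a` (module M5b)
-/

namespace Coin

open Finset

/-- the word `H^a` -/
def hh (a : ℕ) : List Bool := List.replicate a true

theorem hh_ne {a : ℕ} (ha : 1 ≤ a) : hh a ≠ [] := by
  unfold hh
  rw [Ne, List.replicate_eq_nil_iff]
  omega

theorem hh_length (a : ℕ) : (hh a).length = a := by simp [hh]

theorem hh_take {a k : ℕ} (hk : k ≤ a) : (hh a).take k = hh k := by
  simp [hh, List.take_replicate, hk]

theorem hh_drop (a k : ℕ) : (hh a).drop k = hh (a - k) := by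
  simp [hh]

theorem wt_hh (p : ℝ) (a : ℕ) : wt p (hh a) = p ^ a := wt_replicate_true p a

theorem bd_hh (a : ℕ) : bd (hh a) = Icc 1 a := bd_replicate a true

theorem kap_hh (p : ℝ) {a k : ℕ} (hk : k ≤ a) : kap p (hh a) k = 1 / p ^ k := by
  unfold kap; rw [hh_take hk, wt_hh]

theorem count_true_hh (a : ℕ) : (hh a).count true = a := by simp [hh]

theorem count_false_hh (a : ℕ) : (hh a).count false = 0 := by simp [hh, List.count_replicate]

/-- `P(R_n ≥ a - t, τ > n)` where `R_n` is the current run -/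
noncomputable def sg (p : ℝ) (a n t : ℕ) : ℝ :=
  ∑ k ∈ range t, pm p (hh a) (n + (k + 1)) / p ^ (k + 1)

theorem sg_zero (p : ℝ) (a n : ℕ) : sg p a n 0 = 0 := by simp [sg]

theorem sg_succ (p : ℝ) (a n t : ℕ) :
    sg p a n (t + 1) = sg p a n t + pm p (hh a) (n + (t + 1)) / p ^ (t + 1) := by
  simp [sg, sum_range_succ]

theorem sum_Icc_range (a : ℕ) (f : ℕ → ℝ) : ∑ k ∈ Icc 1 a, f k = ∑ k ∈ range a, f (k + 1) := by
  rw [Finset.range_eq_Ico, Finset.sum_Ico_add' f 0 a 1]
  refine sum_congr ?_ (fun _ _ => rfl)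
  ext x
  simp only [mem_Icc, mem_Ico]
  omega

theorem sg_top {p : ℝ} (h0 : 0 < p) (h1 : p < 1) {a : ℕ} (ha : 1 ≤ a) (n : ℕ) :
    sg p a n a = surv p (hh a) n := by
  rw [← renewal h0 h1 (hh a) (hh_ne ha) n, bd_hh, sum_Icc_range]
  unfold sg
  refine sum_congr rfl (fun k hk => ?_)
  rw [mem_range] at hk
  rw [kap_hh p (by omega : k + 1 ≤ a)]
  ring

/-- shift in time: `P(R_{n+1} ≥ j) = p (P(R_n ≥ j - 1) - P(R_n = a - 1))` -/
theorem sg_shift {p : ℝ} (h0 : 0 < p) (a n t : ℕ) :
    sg p a (n + 1) t = p * (sg p a n (t + 1) - sg p a n 1) := by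
  induction t with
  | zero => simp [sg_zero]
  | succ t ih =>
    rw [sg_succ p a (n + 1) t, ih, sg_succ p a n (t + 1)]
    have e : n + 1 + (t + 1) = n + (t + 1 + 1) := by ring
    rw [e]
    have hp : p ≠ 0 := h0.ne'
    field_simp
    ring

theorem sg_nonneg {p : ℝ} (h0 : 0 < p) (h1 : p < 1) (a n t : ℕ) : 0 ≤ sg p a n t :=
  sum_nonneg (fun _ _ => div_nonneg (pm_nonneg h0.le h1.le _ _) (pow_nonneg h0.le _))

/-- **key bound**: `P(R_n ≥ j, τ > n) ≤ p^j P(τ > n)` -/
theorem sg_le {p : ℝ} (h0 : 0 < p) (h1 : p < 1) {a : ℕ} (ha : 1 ≤ a) (n : ℕ) :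
    ∀ t ≤ a, sg p a n t ≤ p ^ (a - t) * surv p (hh a) n := by
  induction n with
  | zero =>
    intro t ht
    rcases Nat.lt_or_ge t a with h | h
    · have : sg p a 0 t = 0 := by
        refine sum_eq_zero (fun k hk => ?_)
        rw [mem_range] at hk
        rw [pm_of_lt p (by rw [hh_length]; omega), zero_div]
      rw [this]
      exact mul_nonneg (pow_nonneg h0.le _) (surv_nonneg h0.le h1.le _ _)
    · have : t = a := by omega
      subst this
      rw [sg_top h0 h1 ha]
      simp
  | succ n ih =>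
    intro t ht
    rcases Nat.lt_or_ge t a with h | h
    · rw [sg_shift h0]
      have e1 := ih (t + 1) (by omega)
      have e2 : surv p (hh a) (n + 1) = surv p (hh a) n - p * sg p a n 1 := by
        have h3 := pm_succ p (hh a) n
        have h4 : sg p a n 1 = pm p (hh a) (n + 1) / p := by simp [sg]
        rw [h4, mul_div_cancel₀ _ h0.ne']
        linarith
      rw [e2]
      have e3 : p ^ (a - t) = p * p ^ (a - (t + 1)) := by
        rw [← pow_succ']; congr 1; omega
      rw [e3]
      have e4 : 0 ≤ sg p a n 1 := sg_nonneg h0 h1 a n 1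
      have e5 : p ^ (a - (t + 1)) ≤ 1 := pow_le_one₀ h0.le h1.le
      have e6 : 0 ≤ p ^ (a - (t + 1)) := pow_nonneg h0.le _
      have e7 : p * p ^ (a - (t + 1)) ≤ 1 := by nlinarith
      have e8 : p ^ (a - (t + 1)) * p * sg p a n 1 ≤ sg p a n 1 := by nlinarith
      nlinarith
    · have : t = a := by omega
      subst this
      rw [sg_top h0 h1 ha]
      simp

/-- hazards are at most `p^a` -/
theorem haz_hh {p : ℝ} (h0 : 0 < p) (h1 : p < 1) {a : ℕ} (ha : 1 ≤ a) :
    Haz (p ^ a) (srv (pm p (hh a))) := by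
  intro n
  rw [srv_pm p (hh_ne ha), srv_pm p (hh_ne ha)]
  have e1 := sg_le h0 h1 ha n 1 ha
  have e2 : sg p a n 1 = pm p (hh a) (n + 1) / p := by simp [sg]
  have e3 := pm_succ p (hh a) n
  rw [e2, div_le_iff₀ h0] at e1
  have e4 : p ^ a = p ^ (a - 1) * p := by
    rw [← pow_succ]; congr 1; omega
  rw [e4]
  linarith

/-- `P(m < τ ≤ m + t) ≤ p^a (1 + (t - 1) q) P(τ > m)` for `1 ≤ t ≤ a` -/
theorem sum_pm_hh_le {p : ℝ} (h0 : 0 < p) (h1 : p < 1) {a : ℕ} (ha : 1 ≤ a) (m : ℕ) (t : ℕ)
    (ht : t + 1 ≤ a) :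
    ∑ k ∈ range (t + 1), pm p (hh a) (m + (k + 1)) - p ^ (t + 1) * sg p a m (t + 1)
      ≤ t * ((1 - p) * (p ^ a * surv p (hh a) m)) := by
  induction t with
  | zero =>
    have : sg p a m 1 = pm p (hh a) (m + 1) / p := by simp [sg]
    simp only [zero_add, range_one, sum_singleton, pow_one, Nat.cast_zero, zero_mul]
    rw [this, mul_div_cancel₀ _ h0.ne', sub_self]
  | succ t ih =>
    have e1 := ih (by omega)
    rw [sum_range_succ, sg_succ p a m (t + 1)]
    have hp : p ^ (t + 1 + 1) ≠ 0 := pow_ne_zero _ h0.ne'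
    have e2 : p ^ (t + 1 + 1) * (sg p a m (t + 1) + pm p (hh a) (m + (t + 1 + 1)) / p ^ (t + 1 + 1))
        = p * (p ^ (t + 1) * sg p a m (t + 1)) + pm p (hh a) (m + (t + 1 + 1)) := by
      rw [mul_add, mul_div_cancel₀ _ hp, pow_succ p (t + 1)]
      ring
    rw [e2]
    have e3 := sg_le h0 h1 ha m (t + 1) (by omega)
    have e4 : p ^ a = p ^ (t + 1) * p ^ (a - (t + 1)) := by
      rw [← pow_add]; congr 1; omega
    have e5 : p ^ (t + 1) * sg p a m (t + 1) ≤ p ^ a * surv p (hh a) m := by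
      rw [e4, mul_assoc]
      exact mul_le_mul_of_nonneg_left e3 (pow_nonneg h0.le _)
    push_cast
    have hq : 0 ≤ 1 - p := by linarith
    nlinarith [mul_le_mul_of_nonneg_left e5 hq]

/-! ## the straddling bound -/

theorem hh_prefix_aux (y : List Bool) : ∀ (x : List Bool) (a : ℕ), hh a <+: x ++ y →
    hh a <+: hh x.length ++ y
  | [], a, h => by simpa [hh] using h
  | b :: x, 0, _ => by simp [hh]
  | b :: x, a + 1, h => by
    have h' : true :: hh a <+: b :: (x ++ y) := h
    rw [List.cons_prefix_cons] at h'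
    show true :: hh a <+: true :: (hh x.length ++ y)
    rw [List.cons_prefix_cons]
    exact ⟨rfl, hh_prefix_aux y x a h'.2⟩

theorem hh_infix_aux (y : List Bool) (a : ℕ) : ∀ x : List Bool, hh a <:+: x ++ y →
    hh a <:+: hh x.length ++ y
  | [], h => by simpa [hh] using h
  | b :: x, h => by
    rw [List.cons_append, List.infix_cons_iff] at h
    show hh a <:+: true :: (hh x.length ++ y)
    rw [List.infix_cons_iff]
    rcases h with h | h
    · left
      exact hh_prefix_aux y (b :: x) a h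
    · right
      exact hh_infix_aux y a x h

theorem nocc_hh_le (a : ℕ) (x y : List Bool) : nocc (hh a) (hh x.length ++ y) ≤ nocc (hh a) (x ++ y) := by
  by_cases h : hh a <:+: x ++ y
  · rw [nocc_of_infix h, nocc_of_infix (hh_infix_aux y a x h)]
  · rw [nocc_of_not h]; exact nocc_le_one _ _

open Classical in
/-- `P(v begins with H^k, no A in v) ≤ p^k P(no A)` -/
theorem ew_head_hh_le {p : ℝ} (h0 : 0 ≤ p) (h1 : p ≤ 1) (a k n : ℕ) :
    ew p n (fun v => if hh k <+: v then nocc (hh a) v else 0) ≤ p ^ k * surv p (hh a) n := by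
  by_cases hn : k ≤ n
  · obtain ⟨r, rfl⟩ := Nat.exists_eq_add_of_le hn
    have e1 : ew p (k + r) (fun v => if hh k <+: v then nocc (hh a) v else 0)
        = p ^ k * ew p r (fun y => nocc (hh a) (hh k ++ y)) := by
      rw [ew_append]
      have hs := ew_single p (hh k) (fun u => ew p r (fun v =>
        if hh k <+: u ++ v then nocc (hh a) (u ++ v) else 0)) (fun x hx hne => by
          show ew p r (fun v => if hh k <+: x ++ v then nocc (hh a) (x ++ v) else 0) = 0
          rw [ew_congr p r (g := fun _ => 0), ew_const]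
          intro y _
          rw [if_neg]
          intro h
          apply hne
          have h2 : x <+: x ++ y := List.prefix_append x y
          have h3 : hh k <+: x := List.prefix_of_prefix_length_le h h2 (by omega)
          exact (h3.eq_of_length hx.symm).symm)
      rw [hh_length] at hs
      rw [hs, wt_hh]
      congr 1
      refine ew_congr p r (fun y _ => ?_)
      rw [if_pos (List.prefix_append _ _)]
    rw [e1]
    refine mul_le_mul_of_nonneg_left ?_ (pow_nonneg h0 _)
    unfold surv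
    rw [ew_append]
    have e2 : ew p r (fun y => nocc (hh a) (hh k ++ y))
        = ew p k (fun _ => ew p r (fun y => nocc (hh a) (hh k ++ y))) := (ew_const p _ k).symm
    rw [e2]
    refine ew_mono h0 h1 k (fun x hx => ew_mono h0 h1 r (fun y _ => ?_))
    rw [← hx]
    exact nocc_hh_le a x y
  · rw [ew_congr p n (g := fun _ => 0), ew_const]
    · exact mul_nonneg (pow_nonneg h0 _) (surv_nonneg h0 h1 _ _)
    · intro v hv
      rw [if_neg]
      intro h
      have := h.length_le
      rw [hh_length] at this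
      omega

open Classical in
theorem nocc_sub_hh_le (a : ℕ) (u v : List Bool) :
    nocc (hh a) u * nocc (hh a) v - nocc (hh a) (u ++ v) ≤ ∑ k ∈ range (a - 1),
      (nocc (hh a) (u ++ hh k) - nocc (hh a) (u ++ hh (k + 1)))
      * (if hh (k + 1) <+: v then nocc (hh a) v else 0) := by
  have hmono : ∀ k, nocc (hh a) (u ++ hh (k + 1)) ≤ nocc (hh a) (u ++ hh k) := by
    intro k
    refine nocc_mono ?_
    refine ⟨[], [true], ?_⟩
    simp [hh, List.replicate_succ']
  have hnn : ∀ k ∈ range (a - 1), 0 ≤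
      (nocc (hh a) (u ++ hh k) - nocc (hh a) (u ++ hh (k + 1)))
      * (if hh (k + 1) <+: v then nocc (hh a) v else 0) := by
    intro k _
    refine mul_nonneg (by linarith [hmono k]) ?_
    split_ifs
    · exact nocc_nonneg _ _
    · exact le_rfl
  have hsum := Finset.sum_nonneg hnn
  have hsingle : ∀ k < a - 1, (nocc (hh a) (u ++ hh k) - nocc (hh a) (u ++ hh (k + 1)))
      * (if hh (k + 1) <+: v then nocc (hh a) v else 0) ≤ ∑ k ∈ range (a - 1),
      (nocc (hh a) (u ++ hh k) - nocc (hh a) (u ++ hh (k + 1)))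
      * (if hh (k + 1) <+: v then nocc (hh a) v else 0) := fun k hk =>
    Finset.single_le_sum hnn (Finset.mem_range.2 hk)
  generalize (∑ k ∈ range (a - 1),
      (nocc (hh a) (u ++ hh k) - nocc (hh a) (u ++ hh (k + 1)))
      * (if hh (k + 1) <+: v then nocc (hh a) v else 0)) = R at hsum hsingle ⊢
  by_cases hu : hh a <:+: u
  · rw [nocc_of_infix hu, zero_mul, nocc_of_infix (hu.trans (List.prefix_append u v).isInfix),
      sub_zero]
    exact hsum
  by_cases hv : hh a <:+: v
  · rw [nocc_of_infix hv, mul_zero, nocc_of_infix (hv.trans (List.suffix_append u v).isInfix),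
      sub_zero]
    exact hsum
  by_cases h : hh a <:+: u ++ v
  · rw [nocc_of_infix h, nocc_of_not hu, nocc_of_not hv, mul_one, sub_zero]
    obtain ⟨j, h1, h2, h3, h4⟩ := nocc_straddle h hu hv
    rw [hh_length] at h2 h3 h4
    rw [hh_take (by omega)] at h3
    rw [hh_drop, show a - (a - j) = j by omega] at h4
    -- the minimal number of heads
    have hex : ∃ k, hh a <:+: u ++ hh k := ⟨a, (List.suffix_append u (hh a)).isInfix⟩
    have hj : hh a <:+: u ++ hh j := by
      obtain ⟨w, rfl⟩ := h3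
      refine ⟨w, [], ?_⟩
      rw [List.append_nil, List.append_assoc]
      congr 1
      simp only [hh]
      rw [← List.replicate_add]
      congr 1
      omega
    set k := Nat.find hex with hk
    have hk1 : hh a <:+: u ++ hh k := Nat.find_spec hex
    have hkj : k ≤ j := Nat.find_min' hex hj
    have hk0 : k ≠ 0 := by
      intro h0
      rw [h0] at hk1
      apply hu
      simpa [hh] using hk1
    have hk2 : ¬ hh a <:+: u ++ hh (k - 1) := Nat.find_min hex (by omega)
    have hkv : hh k <+: v := by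
      refine List.IsPrefix.trans ?_ h4
      refine ⟨hh (j - k), ?_⟩
      simp only [hh]
      rw [← List.replicate_add]
      congr 1
      omega
    have hfin := hsingle (k - 1) (by omega)
    rw [Nat.sub_add_cancel (by omega), nocc_of_not hk2, nocc_of_infix hk1, if_pos hkv,
      nocc_of_not hv] at hfin
    linarith
  · rw [nocc_of_not hu, nocc_of_not hv, nocc_of_not h]
    linarith

theorem strad_hh_aux {p : ℝ} (h0 : 0 < p) (h1 : p < 1) {a : ℕ} (ha : 1 ≤ a) (m n : ℕ) :
    surv p (hh a) m * surv p (hh a) n - surv p (hh a) (m + n) ≤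
      (∑ k ∈ range (a - 1), pm p (hh a) (m + (k + 1))) * surv p (hh a) n := by
  classical
  have e1 : surv p (hh a) m * surv p (hh a) n - surv p (hh a) (m + n) =
      ew p m (fun u => ew p n (fun v => nocc (hh a) u * nocc (hh a) v - nocc (hh a) (u ++ v))) := by
    unfold surv
    rw [ew_append, ← ew_mul', ← ew_sub]
    refine ew_congr p m (fun u _ => ?_)
    rw [← ew_mul, ← ew_sub]
  rw [e1]
  have e2 : ew p m (fun u => ew p n (fun v => nocc (hh a) u * nocc (hh a) v
      - nocc (hh a) (u ++ v))) ≤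
      ew p m (fun u => ew p n (fun v => ∑ k ∈ range (a - 1),
      (nocc (hh a) (u ++ hh k) - nocc (hh a) (u ++ hh (k + 1)))
      * (if hh (k + 1) <+: v then nocc (hh a) v else 0))) :=
    ew_mono h0.le h1.le m (fun u _ => ew_mono h0.le h1.le n (fun v _ => nocc_sub_hh_le a u v))
  refine e2.trans ?_
  have e3 : ew p m (fun u => ew p n (fun v => ∑ k ∈ range (a - 1),
      (nocc (hh a) (u ++ hh k) - nocc (hh a) (u ++ hh (k + 1)))
      * (if hh (k + 1) <+: v then nocc (hh a) v else 0))) =
      ∑ k ∈ range (a - 1),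
      ew p m (fun u => nocc (hh a) (u ++ hh k) - nocc (hh a) (u ++ hh (k + 1)))
      * ew p n (fun v => if hh (k + 1) <+: v then nocc (hh a) v else 0) := by
    have : ∀ u : List Bool, ew p n (fun v => ∑ k ∈ range (a - 1),
      (nocc (hh a) (u ++ hh k) - nocc (hh a) (u ++ hh (k + 1)))
      * (if hh (k + 1) <+: v then nocc (hh a) v else 0)) =
      ∑ k ∈ range (a - 1),
      (nocc (hh a) (u ++ hh k) - nocc (hh a) (u ++ hh (k + 1)))
      * ew p n (fun v => if hh (k + 1) <+: v then nocc (hh a) v else 0) := by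
      intro u
      rw [ew_sum]
      exact Finset.sum_congr rfl (fun j _ => ew_mul p _ n _)
    simp_rw [this]
    rw [ew_sum]
    exact Finset.sum_congr rfl (fun j _ => ew_mul' p _ m _)
  rw [e3, Finset.sum_mul]
  refine Finset.sum_le_sum (fun k hk => ?_)
  rw [mem_range] at hk
  have e4 : ew p m (fun u => nocc (hh a) (u ++ hh k) - nocc (hh a) (u ++ hh (k + 1)))
      = pm p (hh a) (m + (k + 1)) / p ^ (k + 1) := by
    have hb : k + 1 ∈ bd (hh a) := by rw [bd_hh, mem_Icc]; omega
    have := kap_mul_pm h0 h1 hb m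
    rw [hh_take (by omega), hh_take (by omega), kap_hh p (by omega : k + 1 ≤ a)] at this
    rw [← this]
    ring
  rw [e4]
  have e5 := ew_head_hh_le h0.le h1.le a (k + 1) n
  have e6 : 0 ≤ pm p (hh a) (m + (k + 1)) / p ^ (k + 1) :=
    div_nonneg (pm_nonneg h0.le h1.le _ _) (pow_nonneg h0.le _)
  refine (mul_le_mul_of_nonneg_left e5 e6).trans (le_of_eq ?_)
  have : p ^ (k + 1) ≠ 0 := pow_ne_zero _ h0.ne'
  field_simp

/-- straddling for runs: `s m s n - s (m + n) ≤ p^a (1 + (a - 2) q) s m s n` -/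
theorem strad_hh {p : ℝ} (h0 : 0 < p) (h1 : p < 1) {a : ℕ} (ha : 2 ≤ a) :
    Strad (p ^ a * (1 + ((a : ℝ) - 2) * (1 - p))) (srv (pm p (hh a))) := by
  intro m n
  have hne := hh_ne (show 1 ≤ a by omega)
  rw [srv_pm p hne, srv_pm p hne, srv_pm p hne]
  refine (strad_hh_aux h0 h1 (by omega) m n).trans ?_
  have e1 := sum_pm_hh_le h0 h1 (show 1 ≤ a by omega) m (a - 2) (by omega)
  rw [show a - 2 + 1 = a - 1 by omega] at e1
  have e2 := sg_le h0 h1 (show 1 ≤ a by omega) m (a - 1) (by omega)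
  rw [show a - (a - 1) = 1 by omega, pow_one] at e2
  have e3 : p ^ (a - 1) * sg p a m (a - 1) ≤ p ^ a * surv p (hh a) m := by
    have : p ^ a = p ^ (a - 1) * p := by rw [← pow_succ]; congr 1; omega
    rw [this, mul_assoc]
    exact mul_le_mul_of_nonneg_left e2 (pow_nonneg h0.le _)
  have e4 : ((a - 2 : ℕ) : ℝ) = (a : ℝ) - 2 := by
    rw [Nat.cast_sub ha]; simp
  rw [e4] at e1
  have e5 : ∑ k ∈ range (a - 1), pm p (hh a) (m + (k + 1))
      ≤ p ^ a * (1 + ((a : ℝ) - 2) * (1 - p)) * surv p (hh a) m := by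
    have : p ^ a * (1 + ((a : ℝ) - 2) * (1 - p)) * surv p (hh a) m
        = p ^ a * surv p (hh a) m + ((a : ℝ) - 2) * ((1 - p) * (p ^ a * surv p (hh a) m)) := by ring
    rw [this]
    linarith
  have e6 := mul_le_mul_of_nonneg_right e5 (surv_nonneg h0.le h1.le (hh a) n)
  linarith

/-! ## the loss -/

/-- pointwise bounds of weighted sums of `κ_k a_{n+k}` give bounds of weighted sums of `W_k` -/
theorem Wk_sum_le_of {K : Finset ℕ} {kap a a' b : ℕ → ℝ} (ha : IsProb a) (ha' : IsProb a')
    (hb : IsProb b) (ra : Ren K kap a) {c : ℕ → ℝ} {C : ℝ}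
    (h : ∀ n, ∑ k ∈ K, c k * (kap k * a (n + k)) ≤ C * srv a n) :
    ∑ k ∈ K, c k * (kap k * Wk a a' b k) ≤ C * ∑ j ∈ K, kap j * Wk a a' b j := by
  have key : ∀ n, ∑ k ∈ K, c k * (kap k * conv a a' (n + k))
      ≤ C * ∑ j ∈ K, kap j * conv a a' (n + j) := by
    intro n
    have e := conv_mono_left h ha'.nonneg n
    rw [conv_const_mul C (srv a), ra.conv_srv] at e
    refine le_trans (le_of_eq ?_) e
    unfold conv
    simp_rw [sum_mul]
    rw [sum_comm]
    refine sum_congr rfl (fun k hk => ?_)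
    have e2 := conv_shift (b := a') (ra.van k hk) n
    unfold conv at e2
    rw [← e2, mul_sum, mul_sum]
    exact sum_congr rfl (fun x _ => by ring)
  have h1 : HasSum (fun n => ∑ k ∈ K, c k * (kap k * (b n * (conv a a' (n + k)
      + conv a a' (n + k - 1))))) (∑ k ∈ K, c k * (kap k * Wk a a' b k)) :=
    hasSum_sum (fun k _ => ((hasSum_W ha ha' hb k).mul_left (kap k)).mul_left (c k))
  have h2 : HasSum (fun n => C * ∑ j ∈ K, kap j * (b n * (conv a a' (n + j)
      + conv a a' (n + j - 1)))) (C * ∑ j ∈ K, kap j * Wk a a' b j) :=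
    (hasSum_sum (fun j _ => (hasSum_W ha ha' hb j).mul_left (kap j))).mul_left C
  refine hasSum_le (fun n => ?_) h1 h2
  rcases Nat.eq_zero_or_pos n with hn | hn
  · subst hn
    simp [hb.zero]
  · have e1 := mul_le_mul_of_nonneg_left (key n) (hb.nonneg n)
    have e2 := mul_le_mul_of_nonneg_left (key (n - 1)) (hb.nonneg n)
    have e3 : C * ∑ j ∈ K, kap j * (b n * (conv a a' (n + j) + conv a a' (n + j - 1)))
        = b n * (C * ∑ j ∈ K, kap j * conv a a' (n + j))
          + b n * (C * ∑ j ∈ K, kap j * conv a a' (n - 1 + j)) := by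
      rw [← mul_add, ← mul_add, ← sum_add_distrib, mul_left_comm, mul_sum (a := b n)]
      congr 1
      refine sum_congr rfl (fun j hj => ?_)
      rw [show n - 1 + j = n + j - 1 by omega]
      ring
    have e4 : ∑ k ∈ K, c k * (kap k * (b n * (conv a a' (n + k) + conv a a' (n + k - 1))))
        = b n * (∑ k ∈ K, c k * (kap k * conv a a' (n + k)))
          + b n * (∑ k ∈ K, c k * (kap k * conv a a' (n - 1 + k))) := by
      rw [← mul_add, ← sum_add_distrib, mul_sum]
      refine sum_congr rfl (fun j hj => ?_)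
      rw [show n - 1 + j = n + j - 1 by omega]
      ring
    rw [e3, e4]
    exact add_le_add e1 e2

/-- sum over the run lengths: `∑ κ_k (a - k) a_{n+k} ≤ (p / q) P(τ > n)` -/
theorem run_sum_le {p : ℝ} (h0 : 0 < p) (h1 : p < 1) {a : ℕ} (ha : 1 ≤ a) (n : ℕ) :
    (1 - p) * ∑ k ∈ range a, ((a : ℝ) - (k + 1)) * (pm p (hh a) (n + (k + 1)) / p ^ (k + 1))
      ≤ p * surv p (hh a) n := by
  have hq : 0 ≤ 1 - p := by linarith
  have hs := surv_nonneg h0.le h1.le (hh a) n
  -- partial sums
  have key : ∀ t ≤ a, ∑ k ∈ range t, ((t : ℝ) - (k + 1)) * (pm p (hh a) (n + (k + 1)) / p ^ (k + 1))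
      = ∑ j ∈ range t, sg p a n j := by
    intro t
    induction t with
    | zero => simp
    | succ t ih =>
      intro ht
      rw [sum_range_succ (fun j => sg p a n j), ← ih (by omega), sum_range_succ]
      have e1 : ∑ k ∈ range t, (((t + 1 : ℕ) : ℝ) - (k + 1)) *
          (pm p (hh a) (n + (k + 1)) / p ^ (k + 1))
          = ∑ k ∈ range t, ((t : ℝ) - (k + 1)) * (pm p (hh a) (n + (k + 1)) / p ^ (k + 1))
            + sg p a n t := by
        unfold sg
        rw [← sum_add_distrib]
        refine sum_congr rfl (fun k _ => ?_)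
        push_cast
        ring
      rw [e1]
      push_cast
      ring
  rw [key a le_rfl]
  have e2 : ∀ t ≤ a, (1 - p) * ∑ j ∈ range t, sg p a n j
      ≤ (p ^ (a - t + 1) - p ^ (a + 1)) * surv p (hh a) n := by
    intro t
    induction t with
    | zero => intro _; simp
    | succ t ih =>
      intro ht
      rw [sum_range_succ, mul_add]
      have e3 := ih (by omega)
      have e4 := mul_le_mul_of_nonneg_left (sg_le h0 h1 ha n t (by omega)) hq
      have e5 : p ^ (a - t) = p ^ (a - (t + 1) + 1) := by congr 1; omega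
      have e6 : p ^ (a - t + 1) = p * p ^ (a - t) := by rw [pow_succ']
      have e7 : (p ^ (a - (t + 1) + 1) - p ^ (a + 1)) * surv p (hh a) n
          = (p ^ (a - t + 1) - p ^ (a + 1)) * surv p (hh a) n
            + (1 - p) * (p ^ (a - t) * surv p (hh a) n) := by
        rw [← e5, e6]; ring
      rw [e7]
      exact add_le_add e3 e4
  have e8 := e2 a le_rfl
  rw [show a - a + 1 = 1 by omega, pow_one] at e8
  have e9 : 0 ≤ p ^ (a + 1) * surv p (hh a) n := mul_nonneg (pow_nonneg h0.le _) hs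
  linarith

/-- **the loss of a run of heads is at most `p`** -/
theorem lossH_hh_le {p : ℝ} (h0 : 0 < p) (h1 : p < 1) {a : ℕ} (ha : 1 ≤ a) {b : ℕ → ℝ}
    (hb : IsProb b) : lossH p (hh a) b ≤ p * Om p (hh a) b := by
  have pA := isProb_pm h0 h1 (hh_ne ha)
  have key := Wk_sum_le_of pA pA hb (ren_pm h0 h1 (hh_ne ha))
    (c := fun k => (1 - p) * (((hh a).count true : ℝ) - (((hh a).take k).count true : ℝ)))
    (C := p) (fun n => ?_)
  · refine le_trans (le_of_eq ?_) key
    unfold lossH
    rw [mul_sum]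
    exact sum_congr rfl (fun k _ => by ring)
  · rw [srv_pm p (hh_ne ha), bd_hh, sum_Icc_range]
    refine le_trans (le_of_eq ?_) (run_sum_le h0 h1 ha n)
    rw [mul_sum]
    refine sum_congr rfl (fun k hk => ?_)
    rw [mem_range] at hk
    rw [kap_hh p (by omega : k + 1 ≤ a), hh_take (by omega : k + 1 ≤ a), count_true_hh,
      count_true_hh]
    push_cast
    ring

/-! ## the excess -/

/-- general excess bound from hazard and straddling bounds of the law of `A` -/
theorem Om_le_of {p : ℝ} (h0 : 0 < p) (h1 : p < 1) {A B : List Bool} (hA : A ≠ []) (hB : B ≠ [])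
    (hG : G p A B = 0) {h e : ℝ} (hh0 : 0 ≤ h) (hh1 : h < 1) (he0 : 0 ≤ e) (he1 : e ≤ 1)
    (hz : Haz h (srv (pm p A))) (hs : Strad e (srv (pm p A))) :
    Om p B (pm p A) ≤ 1 - (1 - e) * ((2 - 2 * h) / (2 - h)) / 2 := by
  have pA := isProb_pm h0 h1 hA
  have pB := isProb_pm h0 h1 hB
  unfold Om
  rw [Om_pm h0 h1 hB hA, G_eq_Gs p hB hA]
  have hG' : Gs (pm p B) (pm p A) = 0 := by
    rw [G_eq_Gs p hA hB, Gs_antisymm] at hG; linarith
  have hbar := bar_ge pA hh0 hh1 he0 he1 hz hs
  have hle := Om_le pB pA hbar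
  rw [hG'] at hle ⊢
  linarith

theorem Om_le_one {p : ℝ} (h0 : 0 < p) (h1 : p < 1) {A B : List Bool} (hA : A ≠ []) (hB : B ≠ [])
    (hG : G p A B = 0) : Om p B (pm p A) ≤ 1 := by
  have pA := isProb_pm h0 h1 hA
  have pB := isProb_pm h0 h1 hB
  unfold Om
  rw [Om_pm h0 h1 hB hA, G_eq_Gs p hB hA]
  have hG' : Gs (pm p B) (pm p A) = 0 := by
    rw [G_eq_Gs p hA hB, Gs_antisymm] at hG; linarith
  have htriv := Om_le_trivial pB pA
  rw [hG'] at htriv ⊢
  linarith

end Coin
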