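import Pool.Agent.Lib.Coin.Eq3
import Pool.Agent.Lib.Coin.Unary
import Pool.Agent.Lib.Coin.Lam2

/-!
# Coin race: the thin case, upper bound for `Om_B` in the mean and the tie information
-/

namespace Coin

open Finset

/-! ## upper bound for `Om_B` with the tie correction in the mean -/

theorem tsum_conv_ge_of {b f g h : ℕ → ℝ} (hb : IsProb b) (hf0 : ∀ n, 0 ≤ f n)
    (hf1 : ∀ n, f n ≤ 1) (hg0 : ∀ n, 0 ≤ g n) (hg1 : ∀ n, g n ≤ 1) (hh0 : ∀ n, 0 ≤ h n)
    (hh1 : ∀ n, h n ≤ 1) {c : ℝ}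
    (hc : ∀ m n, c * (b m * f m * (b n * g n)) ≤ b m * b n * h (m + n)) :
    c * ((∑' n, b n * f n) * ∑' n, b n * g n) ≤ ∑' n, conv b b n * h n := by
  have hsf := summable_mul_of_bdd hb hf0 hf1
  have hsg := summable_mul_of_bdd hb hg0 hg1
  have hnf : Summable (fun n => ‖b n * f n‖) := hsf.norm
  have hng : Summable (fun n => ‖b n * g n‖) := hsg.norm
  have hprod := tsum_mul_tsum_eq_tsum_sum_antidiagonal_of_summable_norm hnf hng
  have hsc : Summable (fun n => ∑ x ∈ antidiagonal n, b x.1 * f x.1 * (b x.2 * g x.2)) :=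
    (summable_norm_sum_mul_antidiagonal_of_summable_norm hnf hng).of_norm
  have hbb := hb.conv hb
  have hsl := summable_mul_of_bdd hbb hh0 hh1
  have key : ∑' n, c * (∑ x ∈ antidiagonal n, b x.1 * f x.1 * (b x.2 * g x.2))
      ≤ ∑' n, conv b b n * h n := by
    refine (hsc.mul_left c).tsum_le_tsum (fun n => ?_) hsl
    unfold conv
    rw [sum_mul, mul_sum]
    refine sum_le_sum (fun x hx => ?_)
    have hx' : x.1 + x.2 = n := mem_antidiagonal.mp hx
    have h1 := hc x.1 x.2
    rw [hx'] at h1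
    exact h1
  rw [tsum_mul_left, ← hprod] at key
  exact key

/-- abstract form: `b` the law of `B`, `a` the law of `A` -/
theorem Gs_conv_ge_mean {a b : ℕ → ℝ} (ha : IsProb a) (hb : IsProb b) {e P : ℝ} (he1 : e ≤ 1)
    (hs : Strad e (srv a)) (hP : ∀ n, b n ≤ P) (hG : Gs b a = 0) :
    (1 - e) * ((1 - P) / 2) ≤ 1 + Gs (conv b b) a := by
  have hbb := hb.conv hb
  -- the two means
  have E0 := hb.summable_mul_srv ha
  have E1 := hb.summable_mul_tl ha
  have hsum : (∑' n, b n * srv a n) + ∑' n, b n * tl a n = 1 := by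
    have h1 := one_sub_Gs ha hb
    rw [Gs_antisymm a b, hG] at h1
    rw [← E0.tsum_add E1]
    have h2 : (fun n => b n * srv a n + b n * tl a n) = fun n => b n * (srv a n + tl a n) := by
      funext n; ring
    rw [h2, ← h1]; norm_num
  have hdiff : ∑' n, b n * tl a n ≤ (∑' n, b n * srv a n) + P := by
    have h1 : ∀ n, b n * tl a n ≤ b n * srv a n + P * a n := by
      intro n
      rw [tl_succ a n, ← srv_eq_tl]
      have := mul_le_mul_of_nonneg_right (hP n) (ha.nonneg n)
      linarith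
    have h2 := E1.tsum_le_tsum h1 (E0.add (ha.summable.mul_left P))
    rw [E0.tsum_add (ha.summable.mul_left P), tsum_mul_left, ha.tsum, mul_one] at h2
    exact h2
  have hE0 : 0 ≤ ∑' n, b n * srv a n :=
    tsum_nonneg (fun n => mul_nonneg (hb.nonneg n) (ha.srv_nonneg n))
  -- the two products
  have k1 := tsum_conv_ge_of hb (f := srv a) (g := srv a) (h := srv a) (c := 1 - e)
    ha.srv_nonneg ha.srv_le_one ha.srv_nonneg ha.srv_le_one ha.srv_nonneg ha.srv_le_one
    (fun m n => by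
      have h1 := hs m n
      have h2 : (1 - e) * (srv a m * srv a n) ≤ srv a (m + n) := by linarith
      have h3 := mul_le_mul_of_nonneg_left h2 (mul_nonneg (hb.nonneg m) (hb.nonneg n))
      calc _ = b m * b n * ((1 - e) * (srv a m * srv a n)) := by ring
        _ ≤ _ := h3)
  have k2 := tsum_conv_ge_of hb (f := srv a) (g := tl a) (h := tl a) (c := 1 - e)
    ha.srv_nonneg ha.srv_le_one ha.tl_nonneg ha.tl_le_one ha.tl_nonneg ha.tl_le_one
    (fun m n => by
      rcases Nat.eq_zero_or_pos n with hn | hn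
      · subst hn
        simp [hb.zero]
      · rw [tl_eq_srv hn, tl_eq_srv (show 1 ≤ m + n by omega), show m + n - 1 = m + (n - 1) by omega]
        have h1 := hs m (n - 1)
        have h2 : (1 - e) * (srv a m * srv a (n - 1)) ≤ srv a (m + (n - 1)) := by linarith
        have h3 := mul_le_mul_of_nonneg_left h2 (mul_nonneg (hb.nonneg m) (hb.nonneg n))
        calc _ = b m * b n * ((1 - e) * (srv a m * srv a (n - 1))) := by ring
          _ ≤ _ := h3)
  have k3 := one_sub_Gs ha hbb
  rw [Gs_antisymm a (conv b b)] at k3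
  have k4 : ∑' n, conv b b n * (srv a n + tl a n)
      = (∑' n, conv b b n * srv a n) + ∑' n, conv b b n * tl a n := by
    rw [← (hbb.summable_mul_srv ha).tsum_add (hbb.summable_mul_tl ha)]
    exact tsum_congr (fun n => by ring)
  rw [k4] at k3
  have k5 : (1 - e) * (∑' n, b n * srv a n) ≤ 1 + Gs (conv b b) a := by
    have : (1 - e) * ((∑' n, b n * srv a n) * ∑' n, b n * srv a n)
        + (1 - e) * ((∑' n, b n * srv a n) * ∑' n, b n * tl a n)
        = (1 - e) * (∑' n, b n * srv a n) := by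
      rw [← mul_add, ← mul_add, hsum, mul_one]
    linarith
  refine le_trans (mul_le_mul_of_nonneg_left ?_ (by linarith)) k5
  linarith

/-- **upper bound for `Om_B`**: the tie correction `P(A = B) ≤ P(B)` in the mean -/
theorem Om_le_mean {p : ℝ} (h0 : 0 < p) (h1 : p < 1) {A B : List Bool} (hA : A ≠ []) (hB : B ≠ [])
    (hG : G p A B = 0) {e : ℝ} (he0 : 0 ≤ e) (he1 : e ≤ 1) (hs : Strad e (srv (pm p A))) :
    Om p B (pm p A) ≤ (1 + e + wt p B) / 2 := by
  have pA := isProb_pm h0 h1 hA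
  have pB := isProb_pm h0 h1 hB
  unfold Om
  rw [Om_pm h0 h1 hB hA, G_eq_Gs p hB hA]
  have hG' : Gs (pm p B) (pm p A) = 0 := by
    rw [G_eq_Gs p hA hB, Gs_antisymm] at hG; linarith
  have hP : ∀ n, pm p B n ≤ wt p B := by
    intro n
    rcases lt_or_ge n B.length with hn | hn
    · rw [pm_of_lt p hn]; exact wt_nonneg h0.le h1.le B
    · rw [← pm_length p hB]
      induction n, hn using Nat.le_induction with
      | base => exact le_rfl
      | succ n hn ih => exact (pm_succ_le h0.le h1.le hn).trans ih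
  have key := Gs_conv_ge_mean pA pB he1 hs hP hG'
  rw [hG']
  have hw := wt_nonneg h0.le h1.le B
  have : 0 ≤ e * wt p B := mul_nonneg he0 hw
  linarith

theorem Om_le_mean_hh {p : ℝ} (h0 : 0 < p) (h1 : p < 1) {a : ℕ} (ha : 2 ≤ a) {B : List Bool}
    (hB : B ≠ []) (hG : G p (hh a) B = 0) :
    Om p B (pm p (hh a)) ≤ (1 + p ^ a * (1 + ((a : ℝ) - 2) * (1 - p)) + wt p B) / 2 := by
  have haR : (2 : ℝ) ≤ a := by exact_mod_cast ha
  have hX : 0 < p ^ a := pow_pos h0 a
  have hq : 0 < 1 - p := by linarith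
  have he0 : 0 ≤ p ^ a * (1 + ((a : ℝ) - 2) * (1 - p)) := by
    refine mul_nonneg hX.le ?_
    nlinarith
  have he1 : p ^ a * (1 + ((a : ℝ) - 2) * (1 - p)) ≤ 1 := by
    refine le_trans (mul_le_mul_of_nonneg_left ?_ hX.le) (pow_mul_le_one h0 h1 a)
    nlinarith
  exact Om_le_mean h0 h1 (hh_ne (by omega)) hB hG he0 he1 (strad_hh h0 h1 ha)

/-! ## the weights `w_k = Wk a b b k` grow slowly -/

theorem lag_sub_le {b : ℕ → ℝ} (hb : IsProb b) {L : ℕ} (h0 : ∀ n < L, b n = 0)
    (ha : ∀ n, L ≤ n → b (n + 1) ≤ b n) (m : ℕ) : lag b m - lag b (m + 1) ≤ b L ^ 2 := by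
  have hmono : ∀ i j, L ≤ i → i ≤ j → b j ≤ b i := by
    intro i j hi hij
    induction j, hij using Nat.le_induction with
    | base => exact le_rfl
    | succ j hij ih => exact (ha j (by omega)).trans ih
  unfold lag
  rw [← (summable_lag hb m).tsum_sub (summable_lag hb (m + 1))]
  have hterm : ∀ n, 0 ≤ b n * b (n + m) - b n * b (n + (m + 1)) := by
    intro n
    rcases lt_or_ge n L with hn | hn
    · rw [h0 n hn]; simp
    · rw [← mul_sub]
      refine mul_nonneg (hb.nonneg n) ?_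
      have := ha (n + m) (by omega)
      rw [show n + (m + 1) = n + m + 1 by ring]
      linarith
  refine Real.tsum_le_of_sum_range_le hterm (fun N => ?_)
  have key : ∀ N, ∑ n ∈ range N, (b n * b (n + m) - b n * b (n + (m + 1)))
      ≤ b L * (b (L + m) - b (max N L + m)) := by
    intro N
    induction N with
    | zero => simp
    | succ N ih =>
      rw [sum_range_succ]
      rcases lt_or_ge N L with hN | hN
      · rw [h0 N hN]
        rw [max_eq_right (by omega : N ≤ L)] at ih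
        rw [max_eq_right (by omega : N + 1 ≤ L)]
        simpa using ih
      · rw [max_eq_left (by omega : L ≤ N)] at ih
        rw [max_eq_left (by omega : L ≤ N + 1)]
        have h1 : b N ≤ b L := hmono L N le_rfl hN
        have h2 := ha (N + m) (by omega)
        have h3 : (b N) * (b (N + m) - b (N + m + 1)) ≤ b L * (b (N + m) - b (N + m + 1)) :=
          mul_le_mul_of_nonneg_right h1 (by linarith)
        rw [show N + (m + 1) = N + m + 1 by ring, show N + 1 + m = N + m + 1 by ring]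
        linarith
  refine (key N).trans ?_
  have h1 : b (L + m) ≤ b L := hmono L (L + m) le_rfl (by omega)
  have h2 := hb.nonneg (max N L + m)
  have h3 := hb.nonneg L
  have h4 : b L * (b (L + m) - b (max N L + m)) ≤ b L * b L :=
    mul_le_mul_of_nonneg_left (by linarith) h3
  linarith [sq (b L)]

theorem Wk_step_le {a b : ℕ → ℝ} (ha : IsProb a) (hb : IsProb b) {LA LB : ℕ}
    (ha0 : ∀ n < LA, a n = 0) (hb0 : ∀ n < LB, b n = 0)
    (hba : ∀ n, LB ≤ n → b (n + 1) ≤ b n) {k : ℕ} (hk : 1 ≤ k) (hkL : k + 1 ≤ LA) :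
    Wk a b b (k + 1) ≤ Wk a b b k + 2 * b LB ^ 2 := by
  have hc := ha.conv hb
  have hs : ∀ j, Summable (fun n => b n * conv a b (n + j)) := fun j =>
    Summable.of_nonneg_of_le (fun n => mul_nonneg (hb.nonneg n) (hc.nonneg _))
      (fun n => mul_le_of_le_one_right (hb.nonneg n) (hc.le_one _)) hb.summable
  have hW : ∀ j, 1 ≤ j → Wk a b b j = (∑' n, b n * conv a b (n + j))
      + ∑' n, b n * conv a b (n + (j - 1)) := by
    intro j hj
    unfold Wk
    rw [← (hs j).tsum_add (hs (j - 1))]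
    refine tsum_congr (fun n => ?_)
    rw [show n + j - 1 = n + (j - 1) by omega]; ring
  rw [hW k hk, hW (k + 1) (by omega), show k + 1 - 1 = k by omega,
    tsum_mul_conv_eq ha hb (k := k + 1) (fun i hi => ha0 i (by omega)),
    tsum_mul_conv_eq ha hb (k := k) (fun i hi => ha0 i (by omega)),
    tsum_mul_conv_eq ha hb (k := k - 1) (fun i hi => ha0 i (by omega))]
  have hsl : ∀ j, Summable (fun i => a i * lag b (i - j)) := fun j =>
    Summable.of_nonneg_of_le (fun i => mul_nonneg (ha.nonneg i) (lag_nonneg hb _))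
      (fun i => mul_le_of_le_one_right (ha.nonneg i) (lag_le_one hb _)) ha.summable
  have h1 : ∑' i, a i * lag b (i - (k + 1))
      ≤ ∑' i, (a i * lag b (i - (k - 1)) + 2 * b LB ^ 2 * a i) := by
    refine (hsl _).tsum_le_tsum (fun i => ?_) ((hsl _).add (ha.summable.mul_left _))
    rcases lt_or_ge i LA with hi | hi
    · rw [ha0 i hi]; simp
    · have e1 := lag_sub_le hb hb0 hba (i - (k + 1))
      have e2 := lag_sub_le hb hb0 hba (i - (k + 1) + 1)
      rw [show i - (k + 1) + 1 + 1 = i - (k - 1) by omega] at e2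
      have e3 := mul_le_mul_of_nonneg_left
        (show lag b (i - (k + 1)) ≤ lag b (i - (k - 1)) + 2 * b LB ^ 2 by linarith) (ha.nonneg i)
      linarith
  rw [(hsl _).tsum_add (ha.summable.mul_left _), tsum_mul_left, ha.tsum, mul_one] at h1
  linarith

theorem Wk_le_add_mul {a b : ℕ → ℝ} (ha : IsProb a) (hb : IsProb b) {LA LB : ℕ}
    (ha0 : ∀ n < LA, a n = 0) (hb0 : ∀ n < LB, b n = 0)
    (hba : ∀ n, LB ≤ n → b (n + 1) ≤ b n) {k l : ℕ} (hk : 1 ≤ k) (hkl : k ≤ l) (hl : l ≤ LA) :
    Wk a b b l ≤ Wk a b b k + ((l : ℝ) - k) * (2 * b LB ^ 2) := by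
  induction l, hkl using Nat.le_induction with
  | base => simp
  | succ l hkl ih =>
    have h1 := ih (by omega)
    have h2 := Wk_step_le ha hb ha0 hb0 hba (k := l) (by omega) hl
    push_cast
    linarith

/-- lower bound for the sum of the weights of `B` -/
theorem half_le_sum {K : Finset ℕ} {kap a b : ℕ → ℝ} (ha : IsProb a) (hb : IsProb b)
    (rb : Ren K kap b) (h : ∀ m n, srv b (m + n) ≤ srv b m * srv b n) (hG : Gs a b = 0) :
    1 / 2 ≤ ∑ k ∈ K, kap k * Wk a b b k := by
  have e : ∀ k, Wk a b b k = Wk b a b k := by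
    intro k
    unfold Wk
    rw [conv_comm]
  simp_rw [e]
  have hc := ha.conv hb
  rw [Om_eq_gen hb ha hb rb, hG, conv_comm b a]
  have h1 := one_sub_Gs hb hc
  have h2 := tsum_conv_bar_le_gen ha hb hb h
  have h3 := one_sub_Gs hb ha
  have h4 := one_sub_Gs hb hb
  rw [Gs_antisymm b a, hG] at h3
  rw [Gs_self] at h4
  rw [← h1, ← h3, ← h4, Gs_antisymm b (conv a b)] at h2
  linarith

/-! ## the tie information -/

theorem sum_inv_pow {p : ℝ} (h0 : 0 < p) (n : ℕ) :
    (1 - p) * ∑ k ∈ Icc 1 n, 1 / p ^ k = 1 / p ^ n - 1 := by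
  induction n with
  | zero => simp
  | succ n ih =>
    rw [sum_Icc_succ_top (by omega), mul_add, ih]
    have : p ^ (n + 1) ≠ 0 := pow_ne_zero _ h0.ne'
    have h2 : p ^ n ≠ 0 := pow_ne_zero _ h0.ne'
    rw [pow_succ]
    field_simp
    ring

/-- **tie information**: a run `H^a` against a word with one tail and `c < a` heads -/
theorem thin_tie {p : ℝ} (h0 : 0 < p) (h1 : p < 1) {a m : ℕ} {B : List Bool}
    (hB : B.count false = 1) (hc : B.count true < a) (hm : m ≤ B.count true)
    (hbd : ∀ k, k ∈ bd B ↔ (k = B.length ∨ (1 ≤ k ∧ k ≤ m)))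
    (hcf : ∀ k ∈ (bd B).erase B.length, k ≤ m ∧ (B.take k).count true = k ∧
        (B.take k).count false = 0)
    (hG : G p (hh a) B = 0) :
    p ^ (B.count true - m) ≤ (1 / p ^ (a - B.count true) - 1)
      * (1 + 4 * ((a : ℝ) - B.count true - 1) * wt p B
        * (1 + (p ^ (B.count true - m) - p ^ B.count true))) := by
  have hne : B ≠ [] := by rintro rfl; simp at hB
  have hA : hh a ≠ [] := hh_ne (by omega)
  have pA := isProb_pm h0 h1 hA
  have pB := isProb_pm h0 h1 hne
  have hq : 0 < 1 - p := by linarith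
  set c := B.count true with hcdef
  have hlen : B.length = c + 1 := by
    have := count_add B; omega
  have hwt : wt p B = (1 - p) * p ^ c := by
    unfold wt
    rw [hB, ← hcdef]; ring
  have hP : 0 < wt p B := by rw [hwt]; exact mul_pos hq (pow_pos h0 c)
  set w : ℕ → ℝ := fun k => Wk (pm p (hh a)) (pm p B) (pm p B) k with hw
  have hw0 : ∀ k, 0 ≤ w k := fun k => Wk_nonneg pA pB pB k
  have wmono : ∀ j k, 1 ≤ j → j ≤ k → k ≤ a → w j ≤ w k := by
    intro j k hj hjk hk
    exact Wk_pm_mono h0 h1 hA hne hj hjk (by rw [hh_length]; exact hk)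
  -- the borders of `B`
  have hbdB : bd B = insert (c + 1) (Icc 1 m) := by
    ext k
    rw [hbd, mem_insert, mem_Icc, hlen]
  have hnot : c + 1 ∉ Icc 1 m := by rw [mem_Icc]; omega
  have hkapB : ∀ k ∈ Icc 1 m, kap p B k = 1 / p ^ k := by
    intro k hk
    have hk' : k ∈ (bd B).erase B.length := by
      rw [mem_erase, hbdB, hlen]
      rw [mem_Icc] at hk
      exact ⟨by omega, mem_insert_of_mem (mem_Icc.2 hk)⟩
    obtain ⟨-, e1, e2⟩ := hcf k hk'
    unfold kap wt
    rw [e1, e2]; simp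
  have hkapL : kap p B (c + 1) = 1 / wt p B := by
    unfold kap
    rw [← hlen, List.take_length]
  -- the tie
  have hsumB : ∑ k ∈ bd B, kap p B k * w k
      = 1 / wt p B * w (c + 1) + ∑ k ∈ Icc 1 m, 1 / p ^ k * w k := by
    rw [hbdB, sum_insert hnot, hkapL]
    congr 1
    exact sum_congr rfl (fun k hk => by rw [hkapB k hk])
  have hsumA : ∑ k ∈ bd (hh a), kap p (hh a) k * w k = ∑ k ∈ Icc 1 a, 1 / p ^ k * w k := by
    rw [bd_hh]
    exact sum_congr rfl (fun k hk => by rw [kap_hh p (mem_Icc.1 hk).2])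
  have htie : ∑ k ∈ Icc 1 a, 1 / p ^ k * w k
      = 1 / wt p B * w (c + 1) + ∑ k ∈ Icc 1 m, 1 / p ^ k * w k := by
    have h := G_eq_sum h0 h1 hA hne
    rw [hG] at h
    rw [← hsumA, ← hsumB]
    linarith
  -- lower bound for `w (c+1)`
  have hlow : 1 / 2 * wt p B ≤ (1 + (p ^ (c - m) - p ^ c)) * w (c + 1) := by
    have h2 := half_le_sum pA pB (ren_pm h0 h1 hne)
      (fun i j => by rw [srv_pm p hne, srv_pm p hne, srv_pm p hne]; exact surv_add_le h0.le h1.le B i j)
      (by rw [← G_eq_Gs p hA hne]; exact hG)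
    have h3 : ∑ k ∈ bd B, kap p B k * Wk (pm p (hh a)) (pm p B) (pm p B) k
        ≤ 1 / wt p B * w (c + 1) + (∑ k ∈ Icc 1 m, 1 / p ^ k) * w (c + 1) := by
      have := hsumB
      simp only [hw] at this
      rw [this]
      refine add_le_add le_rfl ?_
      rw [sum_mul]
      refine sum_le_sum (fun k hk => ?_)
      rw [mem_Icc] at hk
      exact mul_le_mul_of_nonneg_left (wmono k (c + 1) hk.1 (by omega) (by omega))
        (by positivity)
    have h4 := h2.trans h3
    have h5 : wt p B * (∑ k ∈ Icc 1 m, 1 / p ^ k) = p ^ (c - m) - p ^ c := by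
      rw [hwt, mul_assoc, mul_comm (p ^ c), ← mul_assoc, sum_inv_pow h0]
      have : p ^ c = p ^ (c - m) * p ^ m := by rw [← pow_add]; congr 1; omega
      have hpm : p ^ m ≠ 0 := pow_ne_zero _ h0.ne'
      rw [this]
      field_simp
    have h6 := mul_le_mul_of_nonneg_left h4 hP.le
    have h7 : wt p B * (1 / wt p B * w (c + 1) + (∑ k ∈ Icc 1 m, 1 / p ^ k) * w (c + 1))
        = (1 + (p ^ (c - m) - p ^ c)) * w (c + 1) := by
      rw [← h5]
      field_simp
    rw [h7] at h6
    linarith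
  -- the increments
  have hup : w a ≤ w (c + 1) + ((a : ℝ) - (c + 1)) * (2 * wt p B ^ 2) := by
    have := Wk_le_add_mul pA pB (LA := a) (LB := c + 1) (k := c + 1) (l := a)
      (fun n hn => pm_of_lt p (by rw [hh_length]; exact hn))
      (fun n hn => pm_of_lt p (by rw [hlen]; exact hn))
      (fun n hn => pm_succ_le h0.le h1.le (by rw [hlen]; exact hn)) (by omega) (by omega) le_rfl
    rw [← hlen, pm_length p hne, hlen] at this
    push_cast at this
    exact this
  -- the main inequality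
  have hmain : p ^ (c - m) * w (c + 1) ≤ (1 / p ^ (a - c) - 1) * w a := by
    have e1 : ∑ k ∈ Icc 1 a, 1 / p ^ k * w k = ∑ k ∈ Icc 1 m, 1 / p ^ k * w k
        + ∑ k ∈ Ioc m (c + 1), 1 / p ^ k * w k + ∑ k ∈ Ioc (c + 1) a, 1 / p ^ k * w k := by
      have f1 : Icc 1 a = Ioc 0 a := by ext k; simp only [mem_Icc, mem_Ioc]; omega
      have f2 : Icc 1 m = Ioc 0 m := by ext k; simp only [mem_Icc, mem_Ioc]; omega
      rw [f1, f2, sum_Ioc_consecutive _ (by omega) (by omega),
        sum_Ioc_consecutive _ (by omega) (by omega)]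
    have e2 : ∑ k ∈ Ioc m (c + 1), 1 / p ^ k * w k ≤ (∑ k ∈ Ioc m (c + 1), 1 / p ^ k) * w (c + 1) := by
      rw [sum_mul]
      refine sum_le_sum (fun k hk => ?_)
      rw [mem_Ioc] at hk
      exact mul_le_mul_of_nonneg_left (wmono k (c + 1) (by omega) (by omega) (by omega))
        (by positivity)
    have e3 : ∑ k ∈ Ioc (c + 1) a, 1 / p ^ k * w k ≤ (∑ k ∈ Ioc (c + 1) a, 1 / p ^ k) * w a := by
      rw [sum_mul]
      refine sum_le_sum (fun k hk => ?_)
      rw [mem_Ioc] at hk
      exact mul_le_mul_of_nonneg_left (wmono k a (by omega) (by omega) le_rfl)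
        (by positivity)
    have g1 : ∀ i j : ℕ, i ≤ j → (1 - p) * ∑ k ∈ Ioc i j, 1 / p ^ k = 1 / p ^ j - 1 / p ^ i := by
      intro i j hij
      have f1 : Icc 1 j = Ioc 0 j := by ext k; simp only [mem_Icc, mem_Ioc]; omega
      have f2 : Icc 1 i = Ioc 0 i := by ext k; simp only [mem_Icc, mem_Ioc]; omega
      have s1 := sum_inv_pow h0 j
      have s2 := sum_inv_pow h0 i
      rw [f1, ← sum_Ioc_consecutive (fun k => 1 / p ^ k) (show 0 ≤ i by omega) hij, mul_add] at s1
      rw [f2] at s2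
      linarith
    have g2 := g1 m (c + 1) (by omega)
    have g3 := g1 (c + 1) a (by omega)
    have e4 : 1 / wt p B * w (c + 1) ≤ (∑ k ∈ Ioc m (c + 1), 1 / p ^ k) * w (c + 1)
        + (∑ k ∈ Ioc (c + 1) a, 1 / p ^ k) * w a := by
      linarith
    have e5 := mul_le_mul_of_nonneg_left e4 hq.le
    rw [mul_add, ← mul_assoc, ← mul_assoc, ← mul_assoc, g2, g3] at e5
    have e6 : (1 - p) * (1 / wt p B) = 1 / p ^ c := by
      rw [hwt]
      field_simp
    rw [e6] at e5
    have e7 := mul_le_mul_of_nonneg_left e5 (pow_nonneg h0.le c)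
    have e8 : p ^ c * (1 / p ^ c * w (c + 1)) = w (c + 1) := by
      have : p ^ c ≠ 0 := pow_ne_zero _ h0.ne'
      field_simp
    have e9 : p ^ c * ((1 / p ^ (c + 1) - 1 / p ^ m) * w (c + 1)
        + (1 / p ^ a - 1 / p ^ (c + 1)) * w a)
        = (1 / p - p ^ (c - m)) * w (c + 1) + (1 / p ^ (a - c) - 1 / p) * w a := by
      have i1 : p ^ c = p ^ (c - m) * p ^ m := by rw [← pow_add]; congr 1; omega
      have i2 : p ^ a = p ^ (a - c) * p ^ c := by rw [← pow_add]; congr 1; omega
      have hpm : p ^ m ≠ 0 := pow_ne_zero _ h0.ne'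
      have hpc : p ^ c ≠ 0 := pow_ne_zero _ h0.ne'
      have hpa : p ^ (a - c) ≠ 0 := pow_ne_zero _ h0.ne'
      have hpcm : p ^ (c - m) ≠ 0 := pow_ne_zero _ h0.ne'
      have j1 : p ^ c * (1 / p ^ (c + 1)) = 1 / p := by
        rw [pow_succ]; field_simp
      have j2 : p ^ c * (1 / p ^ m) = p ^ (c - m) := by
        rw [i1]; field_simp
      have j3 : p ^ c * (1 / p ^ a) = 1 / p ^ (a - c) := by
        rw [i2]; field_simp
      calc p ^ c * ((1 / p ^ (c + 1) - 1 / p ^ m) * w (c + 1)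
        + (1 / p ^ a - 1 / p ^ (c + 1)) * w a)
          = (p ^ c * (1 / p ^ (c + 1)) - p ^ c * (1 / p ^ m)) * w (c + 1)
            + (p ^ c * (1 / p ^ a) - p ^ c * (1 / p ^ (c + 1))) * w a := by ring
        _ = _ := by rw [j1, j2, j3]
    rw [e8, e9] at e7
    have hwa : w (c + 1) ≤ w a := wmono (c + 1) a (by omega) (by omega) le_rfl
    have hp1 : 0 ≤ 1 / p - 1 := by
      rw [sub_nonneg, le_div_iff₀ h0]; linarith
    have := mul_le_mul_of_nonneg_left hwa hp1
    linarith
  -- conclusion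
  set X := 1 / p ^ (a - c) - 1 with hX
  set ρ := p ^ (c - m) - p ^ c with hρ
  set P := wt p B with hPdef
  set s := ((a : ℝ) - (c + 1)) with hs
  have hX0 : 0 ≤ X := by
    rw [hX, sub_nonneg, le_div_iff₀ (pow_pos h0 _), one_mul]
    exact pow_le_one₀ h0.le h1.le
  have hρ0 : 0 ≤ ρ := by
    rw [hρ, sub_nonneg]
    exact pow_le_pow_of_le_one h0.le h1.le (by omega)
  have hs0 : 0 ≤ s := by
    rw [hs]
    have : (c : ℝ) + 1 ≤ a := by exact_mod_cast hc
    linarith
  have hwpos : 0 < w (c + 1) := by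
    by_contra hneg
    have hz : w (c + 1) = 0 := le_antisymm (not_lt.1 hneg) (hw0 _)
    rw [hz, mul_zero] at hlow
    linarith
  -- `2 P^2 s ≤ 4 s P (1 + ρ) w`
  have k1 : s * (2 * P ^ 2) ≤ 4 * s * P * (1 + ρ) * w (c + 1) := by
    have := mul_le_mul_of_nonneg_left hlow (mul_nonneg (mul_nonneg (by norm_num : (0:ℝ) ≤ 4) hs0) hP.le)
    nlinarith
  have k2 : w a ≤ (1 + 4 * s * P * (1 + ρ)) * w (c + 1) := by linarith
  have k3 := mul_le_mul_of_nonneg_left k2 hX0
  have k4 : p ^ (c - m) * w (c + 1) ≤ X * (1 + 4 * s * P * (1 + ρ)) * w (c + 1) := by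
    linarith
  have k5 := le_of_mul_le_mul_right k4 hwpos
  have k6 : (a : ℝ) - c - 1 = s := by rw [hs]; ring
  rw [k6]
  exact k5

end Coin
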