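import Pool.Agent.Lib.Coin.Inc

/-!
# Coin race: lower bound of the straddling probability

`s(m) s(n) - s(m+n) = ∑_{j ≤ n} b_{m+j} ∑_{r ∈ bd, r > j} κ_r b_{n-j+r}`, hence a lower bound for
`Om_A` by the shorter word `B`.
-/

namespace Coin

open Finset

/-- reflection identity for the survival function -/
theorem straddle_reflect {b : ℕ → ℝ} (hb : IsProb b) (m n : ℕ) :
    (∑ j ∈ range n, b (m + 1 + j) * srv b (n - 1 - j))
      - ∑ i ∈ range n, b (i + 1) * srv b (m + n - 1 - i)
      = srv b m * srv b n - srv b (m + n) := by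
  have hs : ∀ i, b (i + 1) = srv b i - srv b (i + 1) := by
    intro i
    simp only [srv, sum_range_succ]
    ring
  have h1 : ∑ j ∈ range n, b (m + 1 + j) * srv b (n - 1 - j)
      = ∑ j ∈ range n, (srv b (m + n - 1 - j) - srv b (m + n - j)) * srv b j := by
    rw [← sum_range_reflect]
    refine sum_congr rfl (fun j hj => ?_)
    have hj' := mem_range.mp hj
    rw [show m + 1 + (n - 1 - j) = (m + n - 1 - j) + 1 by omega, hs,
      show m + n - 1 - j + 1 = m + n - j by omega, show n - 1 - (n - 1 - j) = j by omega]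
  rw [h1, ← sum_sub_distrib]
  have h2 : ∀ j ∈ range n, (srv b (m + n - 1 - j) - srv b (m + n - j)) * srv b j
      - b (j + 1) * srv b (m + n - 1 - j)
      = srv b (j + 1) * srv b (m + n - (j + 1)) - srv b j * srv b (m + n - j) := by
    intro j hj
    rw [hs j, show m + n - (j + 1) = m + n - 1 - j by omega]
    ring
  rw [sum_congr rfl h2, sum_range_sub (fun j => srv b j * srv b (m + n - j))]
  have h0 : srv b 0 = 1 := by simp [srv, hb.zero]
  rw [h0, Nat.sub_zero, one_mul, show m + n - n = m by omega]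
  ring

/-- lower bound of the straddling probability -/
theorem straddle_lower {K : Finset ℕ} {kap b : ℕ → ℝ} (hb : IsProb b) (rb : Ren K kap b) {L : ℕ}
    (hLK : L ∈ K) (hK : ∀ r ∈ K, r ≤ L) (hkap : ∀ r ∈ K, 0 ≤ kap r) (hb0 : ∀ i < L, b i = 0)
    (m n : ℕ) (hn : L ≤ n + 1) :
    kap L * ∑ j ∈ Icc 1 (L - 1), b (m + j) * b (n - j + L)
      ≤ srv b m * srv b n - srv b (m + n) := by
  have hL1 : 1 ≤ L := rb.pos L hLK
  rw [← straddle_reflect hb m n]
  -- both sums by the renewal identity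
  have e1 : ∑ j ∈ range n, b (m + 1 + j) * srv b (n - 1 - j)
      = ∑ r ∈ K, kap r * ∑ j ∈ range n, b (m + 1 + j) * b (n - 1 - j + r) := by
    simp only [← rb.eq, mul_sum]
    rw [sum_comm]
    exact sum_congr rfl (fun r _ => sum_congr rfl (fun j _ => by ring))
  have e2 : ∑ i ∈ range n, b (i + 1) * srv b (m + n - 1 - i)
      = ∑ r ∈ K, kap r * ∑ i ∈ range n, b (i + 1) * b (m + n - 1 - i + r) := by
    simp only [← rb.eq, mul_sum]
    rw [sum_comm]
    exact sum_congr rfl (fun r _ => sum_congr rfl (fun j _ => by ring))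
  rw [e1, e2, ← sum_sub_distrib]
  -- one term
  have e3 : ∀ r ∈ K, (∑ j ∈ range n, b (m + 1 + j) * b (n - 1 - j + r))
      - ∑ i ∈ range n, b (i + 1) * b (m + n - 1 - i + r)
      = ∑ j ∈ range (min n (r - 1)), b (m + 1 + j) * b (n - 1 - j + r) := by
    intro r hr
    have hrL := hK r hr
    have hr1 := rb.pos r hr
    have f1 : ∑ i ∈ range n, b (i + 1) * b (m + n - 1 - i + r)
        = ∑ j ∈ Ico (min n (r - 1)) n, b (m + 1 + j) * b (n - 1 - j + r) := by
      have g1 : ∑ i ∈ range n, b (i + 1) * b (m + n - 1 - i + r)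
          = ∑ i ∈ Ico (min n (r - 1)) n, b (i + 1) * b (m + n - 1 - i + r) := by
        rw [range_eq_Ico]
        rw [← sum_Ico_consecutive _ (Nat.zero_le _) (min_le_left n (r - 1))]
        have : ∑ i ∈ Ico 0 (min n (r - 1)), b (i + 1) * b (m + n - 1 - i + r) = 0 := by
          refine sum_eq_zero (fun i hi => ?_)
          have hi' := mem_Ico.mp hi
          have : i < r - 1 := lt_of_lt_of_le hi'.2 (min_le_right _ _)
          rw [hb0 (i + 1) (by omega), zero_mul]
        rw [this, zero_add]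
      rw [g1]
      rcases le_total n (r - 1) with h | h
      · rw [min_eq_left h]; simp
      · rw [min_eq_right h]
        rw [sum_Ico_eq_sum_range, sum_Ico_eq_sum_range]
        rw [← sum_range_reflect]
        refine sum_congr rfl (fun j hj => ?_)
        have hj' := mem_range.mp hj
        rw [mul_comm]
        congr 2 <;> omega
    rw [f1, range_eq_Ico, range_eq_Ico,
      ← sum_Ico_consecutive (f := fun j => b (m + 1 + j) * b (n - 1 - j + r))
        (Nat.zero_le _) (min_le_left n (r - 1))]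
    ring
  have e4 : ∀ r ∈ K, kap r * (∑ j ∈ range n, b (m + 1 + j) * b (n - 1 - j + r))
      - kap r * ∑ i ∈ range n, b (i + 1) * b (m + n - 1 - i + r)
      = kap r * ∑ j ∈ range (min n (r - 1)), b (m + 1 + j) * b (n - 1 - j + r) := by
    intro r hr
    rw [← mul_sub, e3 r hr]
  rw [sum_congr rfl e4]
  have e5 : kap L * ∑ j ∈ Icc 1 (L - 1), b (m + j) * b (n - j + L)
      = kap L * ∑ j ∈ range (min n (L - 1)), b (m + 1 + j) * b (n - 1 - j + L) := by
    congr 1
    rw [min_eq_right (by omega), range_eq_Ico,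
      sum_Ico_eq_sum_range (fun j => b (m + 1 + j) * b (n - 1 - j + L)) 0 (L - 1)]
    rw [show Icc 1 (L - 1) = Ico 1 L by ext x; simp only [mem_Icc, mem_Ico]; omega,
      sum_Ico_eq_sum_range]
    refine sum_congr rfl (fun j _ => ?_)
    congr 2 <;> omega
  rw [e5]
  exact single_le_sum
    (f := fun r => kap r * ∑ j ∈ range (min n (r - 1)), b (m + 1 + j) * b (n - 1 - j + r))
    (fun r hr => mul_nonneg (hkap r hr) (sum_nonneg (fun j _ => mul_nonneg (hb.nonneg _)
      (hb.nonneg _)))) hLK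

/-- `P(B > x) + P(B ≥ x)`: upper bound at the sum of two large arguments -/
theorem bar_le_sub {K : Finset ℕ} {kap b : ℕ → ℝ} (hb : IsProb b) (rb : Ren K kap b) {L : ℕ}
    (hLK : L ∈ K) (hK : ∀ r ∈ K, r ≤ L) (hkap : ∀ r ∈ K, 0 ≤ kap r) (hb0 : ∀ i < L, b i = 0)
    (hanti : ∀ n, L ≤ n → b (n + 1) ≤ b n) {m n : ℕ} (hm : L ≤ m) (hn : L ≤ n) :
    srv b (m + n) + tl b (m + n) ≤ (srv b m + tl b m) * (srv b n + tl b n) / 2
      - 2 * ((L : ℝ) - 1) * kap L * (b (m + L - 1) * b (n + L - 1)) := by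
  have hL1 : 1 ≤ L := rb.pos L hLK
  have hkL := hkap L hLK
  have hmono : ∀ i j, L ≤ i → i ≤ j → b j ≤ b i := by
    intro i j hi hij
    induction j, hij using Nat.le_induction with
    | base => exact le_rfl
    | succ j hij ih => exact (hanti j (by omega)).trans ih
  have hLr : (((Icc 1 (L - 1)).card : ℕ) : ℝ) = (L : ℝ) - 1 := by
    rw [Nat.card_Icc, Nat.add_sub_cancel, Nat.cast_sub hL1, Nat.cast_one]
  -- the three straddling sums
  have key : ∀ m' n', L ≤ m' + 1 → L ≤ n' + 1 → m' ≤ m → n' ≤ n →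
      ((L : ℝ) - 1) * kap L * (b (m + L - 1) * b (n + L - 1))
        ≤ srv b m' * srv b n' - srv b (m' + n') := by
    intro m' n' hm' hn' hmm hnn
    refine le_trans ?_ (straddle_lower hb rb hLK hK hkap hb0 m' n' hn')
    have : ∑ j ∈ Icc 1 (L - 1), b (m + L - 1) * b (n + L - 1)
        ≤ ∑ j ∈ Icc 1 (L - 1), b (m' + j) * b (n' - j + L) := by
      refine sum_le_sum (fun j hj => ?_)
      rw [mem_Icc] at hj
      exact mul_le_mul (hmono _ _ (by omega) (by omega)) (hmono _ _ (by omega) (by omega))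
        (hb.nonneg _) (hb.nonneg _)
    rw [sum_const, nsmul_eq_mul, hLr] at this
    calc ((L : ℝ) - 1) * kap L * (b (m + L - 1) * b (n + L - 1))
        = kap L * (((L : ℝ) - 1) * (b (m + L - 1) * b (n + L - 1))) := by ring
      _ ≤ _ := mul_le_mul_of_nonneg_left this hkL
  have k1 := key m n (by omega) (by omega) le_rfl le_rfl
  have k2 := key (m - 1) n (by omega) (by omega) (by omega) le_rfl
  have k3 := key m (n - 1) (by omega) (by omega) le_rfl (by omega)
  rw [show m - 1 + n = m + n - 1 by omega] at k2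
  rw [show m + (n - 1) = m + n - 1 by omega] at k3
  rw [← tl_eq_srv (show 1 ≤ m by omega), ← tl_eq_srv (show 1 ≤ m + n by omega)] at k2
  rw [← tl_eq_srv (show 1 ≤ n by omega), ← tl_eq_srv (show 1 ≤ m + n by omega)] at k3
  have hsm := hb.srv_nonneg m
  have hsn := hb.srv_nonneg n
  have htm : srv b m ≤ tl b m := by
    have := tl_succ b m; have := hb.nonneg m; rw [srv_eq_tl]; linarith
  have htn : srv b n ≤ tl b n := by
    have := tl_succ b n; have := hb.nonneg n; rw [srv_eq_tl]; linarith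
  have h4 : srv b m * srv b n ≤ tl b m * tl b n :=
    mul_le_mul htm htn hsn (hb.tl_nonneg m)
  nlinarith

/-- lower bound of `Om_A`, abstract form -/
theorem Om_ge_add {a b β : ℕ → ℝ} (ha : IsProb a) (hb : IsProb b) {L : ℕ} {c : ℝ}
    (ha0 : ∀ n < L, a n = 0) (hβ0 : ∀ n, 0 ≤ β n) (hβ1 : ∀ n, β n ≤ 1)
    (h : ∀ m n, L ≤ m → L ≤ n → srv b (m + n) + tl b (m + n)
      ≤ (srv b m + tl b m) * (srv b n + tl b n) / 2 - c * (β m * β n)) :
    1 + Gs a b - (1 + Gs a b) ^ 2 / 2 + c * (∑' n, a n * β n) ^ 2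
      ≤ Gs a b - Gs (conv a a) b := by
  have haa := ha.conv ha
  have e1 := one_sub_Gs hb haa
  have e2 := one_sub_Gs hb ha
  rw [Gs_antisymm b (conv a a)] at e1
  rw [Gs_antisymm b a] at e2
  set T : ℕ → ℝ := fun n => srv b n + tl b n with hT
  have hT0 : ∀ n, 0 ≤ T n := fun n => add_nonneg (hb.srv_nonneg n) (hb.tl_nonneg n)
  have hT2 : ∀ n, T n ≤ 2 := fun n => by
    have := hb.srv_le_one n; have := hb.tl_le_one n; simp only [hT]; linarith
  have hsa : Summable (fun n => a n * T n) :=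
    Summable.of_nonneg_of_le (fun n => mul_nonneg (ha.nonneg n) (hT0 n))
      (fun n => mul_le_mul_of_nonneg_left (hT2 n) (ha.nonneg n)) (ha.summable.mul_right 2)
  have hsb : Summable (fun n => a n * β n) :=
    Summable.of_nonneg_of_le (fun n => mul_nonneg (ha.nonneg n) (hβ0 n))
      (fun n => mul_le_mul_of_nonneg_left (hβ1 n) (ha.nonneg n)) (ha.summable.mul_right 1)
  have hna : Summable (fun n => ‖a n * T n‖) := hsa.norm
  have hnb : Summable (fun n => ‖a n * β n‖) := hsb.norm
  have hprod := tsum_mul_tsum_eq_tsum_sum_antidiagonal_of_summable_norm hna hna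
  have hprodb := tsum_mul_tsum_eq_tsum_sum_antidiagonal_of_summable_norm hnb hnb
  have hsc : Summable (fun n => ∑ x ∈ antidiagonal n, a x.1 * T x.1 * (a x.2 * T x.2)) :=
    (summable_norm_sum_mul_antidiagonal_of_summable_norm hna hna).of_norm
  have hscb : Summable (fun n => ∑ x ∈ antidiagonal n, a x.1 * β x.1 * (a x.2 * β x.2)) :=
    (summable_norm_sum_mul_antidiagonal_of_summable_norm hnb hnb).of_norm
  have hsl : Summable (fun n => conv a a n * T n) :=
    Summable.of_nonneg_of_le (fun n => mul_nonneg (haa.nonneg n) (hT0 n))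
      (fun n => mul_le_mul_of_nonneg_left (hT2 n) (haa.nonneg n)) (haa.summable.mul_right 2)
  have key : ∑' n, conv a a n * T n
      ≤ ∑' n, ((1 / 2) * (∑ x ∈ antidiagonal n, a x.1 * T x.1 * (a x.2 * T x.2))
        - c * ∑ x ∈ antidiagonal n, a x.1 * β x.1 * (a x.2 * β x.2)) := by
    refine hsl.tsum_le_tsum (fun n => ?_) ((hsc.mul_left _).sub (hscb.mul_left _))
    unfold conv
    rw [sum_mul, mul_sum, mul_sum, ← sum_sub_distrib]
    refine sum_le_sum (fun x hx => ?_)
    have hx' : x.1 + x.2 = n := mem_antidiagonal.mp hx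
    rcases lt_or_ge x.1 L with h1 | h1
    · rw [ha0 _ h1]; simp
    rcases lt_or_ge x.2 L with h2 | h2
    · rw [ha0 _ h2]; simp
    have h3 := h x.1 x.2 h1 h2
    rw [hx'] at h3
    have h4 : 0 ≤ a x.1 * a x.2 := mul_nonneg (ha.nonneg _) (ha.nonneg _)
    calc a x.1 * a x.2 * T n
        ≤ a x.1 * a x.2 * (T x.1 * T x.2 / 2 - c * (β x.1 * β x.2)) :=
          mul_le_mul_of_nonneg_left h3 h4
      _ = 1 / 2 * (a x.1 * T x.1 * (a x.2 * T x.2)) - c * (a x.1 * β x.1 * (a x.2 * β x.2)) := by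
          ring
  rw [(hsc.mul_left _).tsum_sub (hscb.mul_left _), tsum_mul_left, tsum_mul_left, ← hprod,
    ← hprodb, ← e1, ← e2] at key
  nlinarith

/-- weight of the proper borders relative to the word -/
noncomputable def rhoB (p : ℝ) (B : List Bool) : ℝ :=
  ∑ k ∈ (bd B).erase B.length, wt p (B.drop k)

/-- the gain of `Om_A` from the straddling of `B` -/
noncomputable def gain (p : ℝ) (B : List Bool) : ℝ :=
  ((B.length : ℝ) - 1) * wt p B * (max 0 (1 - rhoB p B * (1 + 2 * (B.length * wt p B)))) ^ 2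

theorem rhoB_nonneg {p : ℝ} (h0 : 0 ≤ p) (h1 : p ≤ 1) (B : List Bool) : 0 ≤ rhoB p B :=
  sum_nonneg (fun _ _ => wt_nonneg h0 h1 _)

/-- renewal at the top border -/
theorem pm_top_ge {p : ℝ} (h0 : 0 < p) (h1 : p < 1) {B : List Bool} (hB : B ≠ []) {n : ℕ}
    (hn : 1 ≤ n) :
    wt p B * (tl (pm p B) n - rhoB p B * (tl (pm p B) n + B.length * wt p B))
      ≤ pm p B (n + B.length - 1) := by
  have hP := wt_pos h0 h1 B
  have hLpos := List.length_pos_iff.2 hB
  have hren := renewal h0 h1 B hB (n - 1)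
  have htl : tl (pm p B) n = surv p B (n - 1) := by rw [tl_eq_srv hn, srv_pm p hB]
  rw [htl]
  rw [← Finset.add_sum_erase _ _ (length_mem_bd hB)] at hren
  have hkL : kap p B B.length = 1 / wt p B := by unfold kap; rw [List.take_length]
  rw [hkL, show n - 1 + B.length = n + B.length - 1 by omega] at hren
  have hsum : ∑ k ∈ (bd B).erase B.length, kap p B k * pm p B (n - 1 + k)
      ≤ rhoB p B * (surv p B (n - 1) + B.length * wt p B) := by
    unfold rhoB
    rw [sum_mul]
    refine sum_le_sum (fun k hk => ?_)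
    have hk' := Finset.mem_of_mem_erase hk
    have hk2 := (bd_bounds hk').2
    have e1 := kap_mul_pm_le h0 h1 hB k (n - 1)
    rw [show n - 1 + k - B.length = (n - 1) - (B.length - k) by omega] at e1
    refine e1.trans (mul_le_mul_of_nonneg_left ?_ (wt_nonneg h0.le h1.le _))
    refine (surv_sub_le h0.le h1.le hB (n - 1) (B.length - k)).trans ?_
    have : (((B.length - k : ℕ) : ℝ)) * wt p B ≤ B.length * wt p B := by
      refine mul_le_mul_of_nonneg_right ?_ hP.le
      exact_mod_cast Nat.sub_le _ _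
    linarith
  have h2 : 1 / wt p B * pm p B (n + B.length - 1)
      = surv p B (n - 1) - ∑ k ∈ (bd B).erase B.length, kap p B k * pm p B (n - 1 + k) := by
    linarith
  have h3 : pm p B (n + B.length - 1)
      = wt p B * (surv p B (n - 1)
        - ∑ k ∈ (bd B).erase B.length, kap p B k * pm p B (n - 1 + k)) := by
    rw [← h2]; field_simp
  rw [h3]
  exact mul_le_mul_of_nonneg_left (by linarith) hP.le

/-- mean of `b (A + L - 1)` -/
theorem mean_top_ge {p : ℝ} (h0 : 0 < p) (h1 : p < 1) {A B : List Bool} (hA : A ≠ []) (hB : B ≠ [])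
    (hG : G p A B = 0) :
    wt p B * ((1 - rhoB p B * (1 + 2 * (B.length * wt p B))) / 2)
      ≤ ∑' n, pm p A n * pm p B (n + B.length - 1) := by
  have pA := isProb_pm h0 h1 hA
  have pB := isProb_pm h0 h1 hB
  have hP := wt_pos h0 h1 B
  have hρ := rhoB_nonneg h0.le h1.le B
  set u : ℝ := B.length * wt p B with hu
  have hu0 : 0 ≤ u := mul_nonneg (Nat.cast_nonneg _) hP.le
  have hsum : Summable (fun n => pm p A n * pm p B (n + B.length - 1)) :=
    Summable.of_nonneg_of_le (fun n => mul_nonneg (pA.nonneg n) (pB.nonneg _))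
      (fun n => mul_le_of_le_one_right (pA.nonneg n) (pB.le_one _)) pA.summable
  have hRHS : 0 ≤ ∑' n, pm p A n * pm p B (n + B.length - 1) :=
    tsum_nonneg (fun n => mul_nonneg (pA.nonneg n) (pB.nonneg _))
  rcases le_or_gt 1 (rhoB p B) with hρ1 | hρ1
  · refine le_trans ?_ hRHS
    refine mul_nonpos_of_nonneg_of_nonpos hP.le ?_
    nlinarith [mul_nonneg hρ hu0]
  -- pointwise
  have pt : ∀ n, pm p A n * (wt p B * (tl (pm p B) n - rhoB p B * (tl (pm p B) n + u)))
      ≤ pm p A n * pm p B (n + B.length - 1) := by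
    intro n
    rcases Nat.eq_zero_or_pos n with hn | hn
    · subst hn
      rw [pA.zero]; simp
    · exact mul_le_mul_of_nonneg_left (pm_top_ge h0 h1 hB hn) (pA.nonneg n)
  have hst := pA.summable_mul_tl pB
  have hs1 : Summable (fun n => pm p A n * (wt p B * (tl (pm p B) n
      - rhoB p B * (tl (pm p B) n + u)))) := by
    have := (hst.mul_left (wt p B * (1 - rhoB p B))).sub
      (pA.summable.mul_left (wt p B * (rhoB p B * u)))
    exact this.congr (fun n => by ring)
  have h2 := hs1.tsum_le_tsum pt hsum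
  have h3 : ∑' n, pm p A n * (wt p B * (tl (pm p B) n - rhoB p B * (tl (pm p B) n + u)))
      = wt p B * (1 - rhoB p B) * (∑' n, pm p A n * tl (pm p B) n)
        - wt p B * (rhoB p B * u) := by
    have e : ∀ n, pm p A n * (wt p B * (tl (pm p B) n - rhoB p B * (tl (pm p B) n + u)))
        = wt p B * (1 - rhoB p B) * (pm p A n * tl (pm p B) n)
          - wt p B * (rhoB p B * u) * pm p A n := fun n => by ring
    rw [tsum_congr e, (hst.mul_left _).tsum_sub (pA.summable.mul_left _), tsum_mul_left,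
      tsum_mul_left, pA.tsum, mul_one]
  have h4 : 1 / 2 ≤ ∑' n, pm p A n * tl (pm p B) n := by
    have e1 := one_sub_Gs pB pA
    have hG' : Gs (pm p B) (pm p A) = 0 := by
      rw [G_eq_Gs p hA hB, Gs_antisymm] at hG; linarith
    rw [hG'] at e1
    have e2 : ∑' n, pm p A n * (srv (pm p B) n + tl (pm p B) n)
        ≤ ∑' n, 2 * (pm p A n * tl (pm p B) n) := by
      have hs2 : Summable (fun n => pm p A n * (srv (pm p B) n + tl (pm p B) n)) := by
        have := (pA.summable_mul_srv pB).add hst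
        exact this.congr (fun n => by ring)
      refine hs2.tsum_le_tsum (fun n => ?_) (hst.mul_left 2)
      have htn : srv (pm p B) n ≤ tl (pm p B) n := by
        have := tl_succ (pm p B) n; have := pB.nonneg n; rw [srv_eq_tl]; linarith
      nlinarith [pA.nonneg n]
    rw [tsum_mul_left] at e2
    linarith
  rw [h3] at h2
  refine le_trans ?_ h2
  have h5 : 0 ≤ wt p B * (1 - rhoB p B) := mul_nonneg hP.le (by linarith)
  have h6 := mul_le_mul_of_nonneg_left h4 h5
  linarith

/-- **lower bound of `Om_A`** at a tie for `|B| ≤ |A|` -/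
theorem Om_ge_gain {p : ℝ} (h0 : 0 < p) (h1 : p < 1) {A B : List Bool} (hA : A ≠ []) (hB : B ≠ [])
    (hL : B.length ≤ A.length) (hG : G p A B = 0) :
    (1 + gain p B) / 2 ≤ Om p A (pm p B) := by
  have pA := isProb_pm h0 h1 hA
  have pB := isProb_pm h0 h1 hB
  have hP := wt_pos h0 h1 B
  have hLpos := List.length_pos_iff.2 hB
  have hkL : kap p B B.length = 1 / wt p B := by unfold kap; rw [List.take_length]
  have hbar : ∀ m n, B.length ≤ m → B.length ≤ n → srv (pm p B) (m + n) + tl (pm p B) (m + n)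
      ≤ (srv (pm p B) m + tl (pm p B) m) * (srv (pm p B) n + tl (pm p B) n) / 2
        - 2 * ((B.length : ℝ) - 1) * kap p B B.length
          * (pm p B (m + B.length - 1) * pm p B (n + B.length - 1)) := by
    intro m n hm hn
    exact bar_le_sub pB (ren_pm h0 h1 hB) (length_mem_bd hB) (fun r hr => (bd_bounds hr).2)
      (fun r _ => kap_nonneg' h0 h1 B r) (fun i hi => pm_of_lt p hi)
      (fun i hi => pm_succ_le h0.le h1.le hi) hm hn
  have hO := Om_ge_add (β := fun n => pm p B (n + B.length - 1)) pA pB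
    (fun n hn => pm_of_lt p (lt_of_lt_of_le hn hL)) (fun n => pB.nonneg _)
    (fun n => pB.le_one _) hbar
  have hG' : Gs (pm p A) (pm p B) = 0 := by rwa [G_eq_Gs p hA hB] at hG
  have hOm : Om p A (pm p B) = Gs (pm p A) (pm p B) - Gs (conv (pm p A) (pm p A)) (pm p B) := by
    unfold Om
    rw [Om_pm h0 h1 hA hB, G_eq_Gs p hA hB]
  rw [hOm]
  rw [hG'] at hO ⊢
  have hmean := mean_top_ge h0 h1 hA hB hG
  set M := ∑' n, pm p A n * pm p B (n + B.length - 1) with hM
  have hM0 : 0 ≤ M := tsum_nonneg (fun n => mul_nonneg (pA.nonneg n) (pB.nonneg _))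
  set t := 1 - rhoB p B * (1 + 2 * (B.length * wt p B)) with ht
  have hLr : (0 : ℝ) ≤ (B.length : ℝ) - 1 := by
    have : (1 : ℝ) ≤ B.length := by exact_mod_cast hLpos
    linarith
  have hMt : wt p B * (max 0 t / 2) ≤ M := by
    rcases le_total 0 t with h | h
    · rw [max_eq_right h]; exact hmean
    · rw [max_eq_left h]; simpa using hM0
  have hsq : (wt p B * (max 0 t / 2)) ^ 2 ≤ M ^ 2 :=
    pow_le_pow_left₀ (mul_nonneg hP.le (div_nonneg (le_max_left _ _) (by norm_num))) hMt 2
  have hcoef : 0 ≤ 2 * ((B.length : ℝ) - 1) * kap p B B.length :=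
    mul_nonneg (mul_nonneg (by norm_num) hLr) (kap_nonneg' h0 h1 B _)
  have h3 := mul_le_mul_of_nonneg_left hsq hcoef
  have h4 : 2 * ((B.length : ℝ) - 1) * kap p B B.length * (wt p B * (max 0 t / 2)) ^ 2
      = gain p B / 2 := by
    rw [hkL]
    unfold gain
    rw [← ht]
    field_simp
  rw [h4] at h3
  linarith

/-- the part of the proper borders in `Om_B` at a tie -/
theorem R0_le {p : ℝ} (h0 : 0 < p) (h1 : p < 1) {A B : List Bool} (hA : A ≠ []) (hB : B ≠ [])
    (hG : G p A B = 0) :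
    ∑ k ∈ (bd B).erase B.length, kap p B k * Wk (pm p B) (pm p B) (pm p A) k
      ≤ rhoB p B * (1 + 2 * (B.length * wt p B)) * Om p B (pm p A) := by
  have hGB : G p B A = 0 := by
    rw [G_eq_Gs p hA hB, Gs_antisymm] at hG
    rw [G_eq_Gs p hB hA]; linarith
  unfold rhoB
  rw [sum_mul, sum_mul]
  refine sum_le_sum (fun k hk => ?_)
  have := kap_mul_Wk_le_tie h0 h1 hB hA hGB (Finset.mem_of_mem_erase hk)
  rw [mul_assoc]
  exact this

theorem R0_nonneg {p : ℝ} (h0 : 0 < p) (h1 : p < 1) {A B : List Bool} (hA : A ≠ []) (hB : B ≠ []) :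
    0 ≤ ∑ k ∈ (bd B).erase B.length, kap p B k * Wk (pm p B) (pm p B) (pm p A) k :=
  sum_nonneg (fun k _ => mul_nonneg (kap_nonneg' h0 h1 B k)
    (Wk_nonneg (isProb_pm h0 h1 hB) (isProb_pm h0 h1 hB) (isProb_pm h0 h1 hA) k))

/-- `Om_B` is the top term plus the part of the proper borders -/
theorem Om_eq_top {p : ℝ} {B : List Bool} (hB : B ≠ []) (a : ℕ → ℝ) :
    Om p B a = kap p B B.length * Wk (pm p B) (pm p B) a B.length
      + ∑ k ∈ (bd B).erase B.length, kap p B k * Wk (pm p B) (pm p B) a k := by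
  unfold Om
  rw [← Finset.add_sum_erase _ _ (length_mem_bd hB)]

end Coin
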