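import Pool.Agent.Lib.Coin.ThinB

/-!
# Coin race: the one-tail word in the thin case
-/

namespace Coin

open Finset

/-- `Sg = 1 + rhoB` -/
theorem Sg_eq_rhoB {p : ℝ} (h0 : 0 < p) (h1 : p < 1) {B : List Bool} (hB : B ≠ []) :
    Sg p B = 1 + rhoB p B := by
  unfold Sg rhoB
  rw [mul_sum, ← Finset.add_sum_erase _ _ (length_mem_bd hB)]
  congr 1
  · rw [wt_mul_kap h0 h1, List.drop_length]
    simp [wt]
  · exact sum_congr rfl (fun k _ => wt_mul_kap h0 h1 B k)

/-- data of a word with exactly one tail -/
theorem thin_bd {p : ℝ} (h0 : 0 < p) (h1 : p < 1) {B : List Bool} (hB : B.count false = 1) :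
    ∃ m : ℕ, 2 * m ≤ B.count true ∧
      (∀ k, k ∈ bd B ↔ (k = B.length ∨ (1 ≤ k ∧ k ≤ m))) ∧
      (∀ k ∈ (bd B).erase B.length, k ≤ m ∧ (B.take k).count true = k ∧
        (B.take k).count false = 0) ∧
      rhoB p B = p ^ (B.count true - m) - p ^ B.count true := by
  have hne : B ≠ [] := by rintro rfl; simp at hB
  obtain ⟨m, hm, -, hmf, hbd, hSg⟩ := Sg_one_tail h0 h1 hB
  refine ⟨m, hm, hbd, ?_, ?_⟩
  · intro k hk
    have hk1 := (Finset.mem_erase.mp hk).1
    have hk2 := (hbd k).mp (Finset.mem_erase.mp hk).2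
    have hkm : 1 ≤ k ∧ k ≤ m := by
      rcases hk2 with h | h
      · exact absurd h hk1
      · exact h
    have hlen : B.length = B.count true + B.count false := (count_add B).symm
    have hcf : (B.take k).count false = 0 := by
      have e : B.take k = (B.take m).take k := by
        rw [List.take_take, min_eq_left hkm.2]
      rw [e]
      have := (List.take_sublist k (B.take m)).count_le false
      omega
    refine ⟨hkm.2, ?_, hcf⟩
    have h2 := count_add (B.take k)
    have h3 : (B.take k).length = k := by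
      rw [List.length_take]; omega
    omega
  · have := Sg_eq_rhoB h0 h1 hne
    have h2 : p ^ (B.count true - m) * (1 - p ^ m)
        = p ^ (B.count true - m) - p ^ B.count true := by
      rw [mul_sub, mul_one, ← pow_add, Nat.sub_add_cancel (by omega)]
    linarith

/-- the `B` part of the derivative for a word with one tail -/
theorem partB_thin {p : ℝ} (h0 : 0 < p) (h1 : p < 1) {B : List Bool} (hB : B.count false = 1)
    {m : ℕ} (hm : ∀ k ∈ (bd B).erase B.length, k ≤ m ∧ (B.take k).count true = k ∧
        (B.take k).count false = 0) {a : ℕ → ℝ} (ha : IsProb a) :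
    (p - (1 - p) * B.count true)
        * (Om p B a - ∑ k ∈ (bd B).erase B.length, kap p B k * Wk (pm p B) (pm p B) a k)
      - (1 - p) * m * ∑ k ∈ (bd B).erase B.length, kap p B k * Wk (pm p B) (pm p B) a k
      ≤ p * (1 - p) * (∑ k ∈ bd B, kap p B k * (((B.take k).count false : ℝ) / (1 - p)
          - ((B.take k).count true : ℝ) / p) * Wk (pm p B) (pm p B) a k) := by
  have hne : B ≠ [] := by rintro rfl; simp at hB
  have pB := isProb_pm h0 h1 hne
  have hq : 0 < 1 - p := by linarith
  rw [Om_eq_top hne, add_sub_cancel_right, ← Finset.add_sum_erase _ _ (length_mem_bd hne),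
    List.take_length, hB, mul_add]
  have e1 : p * (1 - p) * (kap p B B.length * (((1 : ℕ) : ℝ) / (1 - p)
      - (B.count true : ℝ) / p) * Wk (pm p B) (pm p B) a B.length)
      = (p - (1 - p) * B.count true)
        * (kap p B B.length * Wk (pm p B) (pm p B) a B.length) := by
    push_cast
    field_simp
  rw [e1]
  have e2 : -((1 - p) * m * ∑ k ∈ (bd B).erase B.length, kap p B k * Wk (pm p B) (pm p B) a k)
      ≤ p * (1 - p) * ∑ k ∈ (bd B).erase B.length, kap p B k *
        (((B.take k).count false : ℝ) / (1 - p)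
          - ((B.take k).count true : ℝ) / p) * Wk (pm p B) (pm p B) a k := by
    rw [mul_sum, mul_sum, ← sum_neg_distrib]
    refine sum_le_sum (fun k hk => ?_)
    obtain ⟨hk1, hk2, hk3⟩ := hm k hk
    rw [hk2, hk3]
    have hX : 0 ≤ kap p B k * Wk (pm p B) (pm p B) a k :=
      mul_nonneg (kap_nonneg' h0 h1 B k) (Wk_nonneg pB pB ha k)
    have e3 : p * (1 - p) * (kap p B k * (((0 : ℕ) : ℝ) / (1 - p) - (k : ℝ) / p)
        * Wk (pm p B) (pm p B) a k)
        = -((1 - p) * k * (kap p B k * Wk (pm p B) (pm p B) a k)) := by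
      push_cast
      field_simp
      ring
    rw [e3]
    have hkm : (k : ℝ) ≤ m := by exact_mod_cast hk1
    have h2 : (1 - p) * k * (kap p B k * Wk (pm p B) (pm p B) a k)
        ≤ (1 - p) * m * (kap p B k * Wk (pm p B) (pm p B) a k) :=
      mul_le_mul_of_nonneg_right (mul_le_mul_of_nonneg_left hkm hq.le) hX
    linarith
  linarith

end Coin
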