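import Pool.Agent.Lib.Coin.ThinC
import Pool.Agent.Lib.Coin.EqMain
import Pool.Agent.Lib.Coin.IncFull

/-!
# Coin race: the thin case, lower bound of the derivative
-/

namespace Coin

open Finset

/-- Chebyshev bound for the loss of the run of heads -/
theorem lossH_hh_cheb {p : ℝ} (h0 : 0 < p) (h1 : p < 1) {a : ℕ} (ha : 1 ≤ a) {B : List Bool}
    (hB : B ≠ []) (hL : B.length ≤ a) :
    lossH p (hh a) (pm p B)
      ≤ (p - a * (1 - p) * p ^ a / (1 - p ^ a)) * Om p (hh a) (pm p B) := by
  have hne := hh_ne ha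
  set W : ℕ → ℝ := fun k => Wk (pm p (hh a)) (pm p (hh a)) (pm p B) k with hW
  set u : ℕ → ℝ := fun j => 1 / p ^ (a - j) * W (a - j) with hu
  have hre : ∀ f : ℕ → ℝ, ∑ k ∈ Icc 1 a, f k = ∑ j ∈ range a, f (a - j) := by
    intro f
    rw [sum_Icc_range, ← sum_range_reflect]
    refine sum_congr rfl (fun j hj => ?_)
    have := mem_range.mp hj
    rw [show a - 1 - j + 1 = a - j by omega]
  have hOm : Om p (hh a) (pm p B) = ∑ j ∈ range a, u j := by
    unfold Om
    rw [bd_hh, hre]
    refine sum_congr rfl (fun j hj => ?_)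
    rw [kap_hh p (Nat.sub_le a j)]
  have hLoss : lossH p (hh a) (pm p B) = (1 - p) * ∑ j ∈ range a, (j : ℝ) * u j := by
    unfold lossH
    rw [bd_hh, hre]
    congr 1
    refine sum_congr rfl (fun j hj => ?_)
    have hj' := mem_range.mp hj
    rw [kap_hh p (Nat.sub_le a j), hh_take (Nat.sub_le a j), count_true_hh, count_true_hh,
      Nat.cast_sub hj'.le]
    simp only [hu, hW]
    ring
  have hmono : ∀ j, j + 1 < a → u (j + 1) ≤ p * u j := by
    intro j hj
    simp only [hu]
    have h2 : W (a - (j + 1)) ≤ W (a - j) :=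
      Wk_pm_mono2 h0 h1 hne hB (by rw [hh_length]; exact hL) (by omega) (by omega)
        (by rw [hh_length]; omega)
    have h3 : p ^ (a - j) = p ^ (a - (j + 1)) * p := by
      rw [← pow_succ]; congr 1; omega
    have h4 : 0 < p ^ (a - (j + 1)) := pow_pos h0 _
    calc 1 / p ^ (a - (j + 1)) * W (a - (j + 1)) ≤ 1 / p ^ (a - (j + 1)) * W (a - j) :=
          mul_le_mul_of_nonneg_left h2 (by positivity)
      _ = p * (1 / p ^ (a - j) * W (a - j)) := by rw [h3]; field_simp
  rw [hLoss, hOm]
  exact run_loss h0 h1 ha hmono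

/-- the proper border part of `Om_B` -/
noncomputable def R0 (p : ℝ) (B : List Bool) (a : ℕ → ℝ) : ℝ :=
  ∑ k ∈ (bd B).erase B.length, kap p B k * Wk (pm p B) (pm p B) a k

/-- the thin case: the derivative is positive as soon as one explicit combination is -/
theorem up_of_thin {p : ℝ} (h0 : 0 < p) (h1 : p < 1) {a : ℕ} {B : List Bool}
    (hB : B.count false = 1) (hca : B.count true < a) {m : ℕ}
    (hm : ∀ k ∈ (bd B).erase B.length, k ≤ m ∧ (B.take k).count true = k ∧
        (B.take k).count false = 0)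
    (hpos : 0 < (a * (1 - p) / (1 - p ^ a) - p) * Om p (hh a) (pm p B)
      - ((1 - p) * B.count true - p) * Om p B (pm p (hh a))
      + ((1 - p) * (B.count true - m) - p) * R0 p B (pm p (hh a))) :
    ∃ d : ℝ, 0 < d ∧ HasDerivAt (fun x => G x (hh a) B) d p := by
  have hBne : B ≠ [] := by rintro rfl; simp at hB
  have ha : 1 ≤ a := by omega
  have hA := hh_ne ha
  have hL : B.length ≤ a := by rw [← count_add B]; omega
  have pA := isProb_pm h0 h1 hA
  have pB := isProb_pm h0 h1 hBne
  have hq : 0 < 1 - p := by linarith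
  refine ⟨_, ?_, hasDerivAt_G h0 h1 hA hBne⟩
  have e1 := partA_ge2 h0 h1 hA pB (lossH_hh_cheb h0 h1 ha hBne hL)
  have e2 := partB_thin h0 h1 hB hm pA
  rw [count_true_hh, count_false_hh] at e1
  have hpa : 0 < 1 - p ^ a := by
    have : p ^ a < 1 := pow_lt_one₀ h0.le h1 (by omega)
    linarith
  have e3 : (a : ℝ) * (1 - p) - ((0 : ℕ) : ℝ) * p - (p - a * (1 - p) * p ^ a / (1 - p ^ a))
      = a * (1 - p) / (1 - p ^ a) - p := by
    push_cast
    field_simp
    ring
  rw [e3] at e1
  unfold R0 at hpos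
  set OA := Om p (hh a) (pm p B)
  set OB := Om p B (pm p (hh a))
  set RR := ∑ k ∈ (bd B).erase B.length, kap p B k * Wk (pm p B) (pm p B) (pm p (hh a)) k
  have hpq : 0 < p * (1 - p) := mul_pos h0 hq
  have main : 0 < p * (1 - p) * (-(∑ k ∈ bd (hh a), kap p (hh a) k *
        ((((hh a).take k).count false : ℝ) / (1 - p) - (((hh a).take k).count true : ℝ) / p)
          * Wk (pm p (hh a)) (pm p (hh a)) (pm p B) k)
        + ∑ k ∈ bd B, kap p B k * (((B.take k).count false : ℝ) / (1 - p)
          - ((B.take k).count true : ℝ) / p) * Wk (pm p B) (pm p B) (pm p (hh a)) k) := by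
    rw [mul_add]
    have e4 : (p - (1 - p) * (B.count true : ℝ)) * (OB - RR) - (1 - p) * m * RR
        = -((1 - p) * B.count true - p) * OB + ((1 - p) * (B.count true - m) - p) * RR := by
      ring
    rw [e4] at e2
    linarith
  exact (mul_pos_iff_of_pos_left hpq).1 main

end Coin
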