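import Pool.Agent.Lib.Coin.ThinD

/-!
# Coin race: the thin case, assembly
-/

namespace Coin

open Finset

/-- the real inequality of the thin case -/
def ThinReal : Prop := ∀ (p : ℝ) (a c m : ℕ) (OA OB R : ℝ), 0 < p → p < 1 → 1 ≤ c → c < a →
  2 * m ≤ c →
  p ^ (c - m) ≤ (1 / p ^ (a - c) - 1) * (1 + 4 * ((a : ℝ) - c - 1) * ((1 - p) * p ^ c)
    * (1 + (p ^ (c - m) - p ^ c))) →
  (1 + c * ((1 - p) * p ^ c) * (max 0 (1 - (p ^ (c - m) - p ^ c)
    * (1 + 2 * ((c + 1) * ((1 - p) * p ^ c))))) ^ 2) / 2 ≤ OA →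
  OA ≤ 1 → 1 / 2 ≤ OB → OB ≤ 1 →
  OB ≤ (1 + p ^ a * (1 + ((a : ℝ) - 2) * (1 - p)) + (1 - p) * p ^ c) / 2 →
  0 ≤ R → R ≤ (p ^ (c - m) - p ^ c) * (1 + 2 * ((c + 1) * ((1 - p) * p ^ c))) * OB →
  0 < (a * (1 - p) / (1 - p ^ a) - p) * OA - ((1 - p) * c - p) * OB
    + ((1 - p) * (c - m) - p) * R

/-- the thin case from the real inequality and the two analytic facts -/
theorem thin_of_real (hreal : ThinReal)
    (h3 : ∀ (p : ℝ) (a : ℕ) (B : List Bool), 0 < p → p < 1 → 2 ≤ a → B ≠ [] →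
      G p (hh a) B = 0 →
      Om p B (pm p (hh a)) ≤ (1 + p ^ a * (1 + ((a : ℝ) - 2) * (1 - p)) + wt p B) / 2)
    (h5 : ∀ (p : ℝ) (a m : ℕ) (B : List Bool), 0 < p → p < 1 → B.count false = 1 →
      1 ≤ B.count true → B.count true < a → 2 * m ≤ B.count true →
      (∀ k, k ∈ bd B ↔ (k = B.length ∨ (1 ≤ k ∧ k ≤ m))) → G p (hh a) B = 0 →
      p ^ (B.count true - m) ≤ (1 / p ^ (a - B.count true) - 1)
        * (1 + 4 * ((a : ℝ) - B.count true - 1) * wt p B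
          * (1 + (p ^ (B.count true - m) - p ^ B.count true)))) : Thin := by
  intro a B hB hc hca p h0 h1 hG
  have hBne : B ≠ [] := by rintro rfl; simp at hB
  have ha : 1 ≤ a := by omega
  have hA := hh_ne ha
  have hLB : B.length = B.count true + 1 := by rw [← count_add B, hB]
  have hL : B.length ≤ (hh a).length := by rw [hh_length]; omega
  have hGB : G p B (hh a) = 0 := by
    rw [G_eq_Gs p hA hBne, Gs_antisymm] at hG
    rw [G_eq_Gs p hBne hA]; linarith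
  obtain ⟨m, hm2, hbd, hm, hρ⟩ := thin_bd h0 h1 hB
  have hwt : wt p B = (1 - p) * p ^ B.count true := by
    unfold wt; rw [hB, pow_one]; ring
  have hlen : (B.length : ℝ) = (B.count true : ℝ) + 1 := by rw [hLB]; push_cast; ring
  refine up_of_thin h0 h1 hB hca hm ?_
  have hOA := Om_ge_gain h0 h1 hA hBne hL hG
  have hR := R0_le h0 h1 hA hBne hG
  have hR0 := R0_nonneg h0 h1 hA hBne
  have hOB : 1 / 2 ≤ Om p B (pm p (hh a)) := Om_pm_half h0 h1 hBne hA hGB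
  have hOA1 : Om p (hh a) (pm p B) ≤ 1 := Om_le_one h0 h1 hBne hA hGB
  have hOB1 : Om p B (pm p (hh a)) ≤ 1 := Om_le_one h0 h1 hA hBne hG
  have h3' := h3 p a B h0 h1 (by omega) hBne hG
  have h5' := h5 p a m B h0 h1 hB hc hca hm2 hbd hG
  rw [hwt] at h3' h5'
  unfold gain at hOA
  rw [hρ, hwt, hlen, add_sub_cancel_right] at hOA
  rw [hρ, hwt, hlen] at hR
  exact hreal p a (B.count true) m _ _ _ h0 h1 hc hca hm2 h5' hOA hOA1 hOB hOB1 h3' hR0 hR

end Coin
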