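import Pool.Agent.Lib.Coin.Lam2

/-!
# Coin race: the thin case, the real inequality for `c q ≤ p`
-/

namespace Coin

/-- `(1 - p^a) (2 + (a-1) q) ≤ 2 a q` -/
theorem one_sub_pow_mul_le {p : ℝ} (h0 : 0 < p) (h1 : p < 1) (a : ℕ) :
    (1 - p ^ a) * (2 + ((a : ℝ) - 1) * (1 - p)) ≤ 2 * a * (1 - p) := by
  induction a with
  | zero => simp
  | succ a ih =>
    have h := pow_mul_le_one h0 h1 a
    have e : 2 * ((a + 1 : ℕ) : ℝ) * (1 - p)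
        - (1 - p ^ (a + 1)) * (2 + (((a + 1 : ℕ) : ℝ) - 1) * (1 - p))
        = (2 * a * (1 - p) - (1 - p ^ a) * (2 + ((a : ℝ) - 1) * (1 - p)))
          + (1 - p) * (1 - p ^ a * (1 + a * (1 - p))) := by
      push_cast
      ring
    have h2 : 0 ≤ (1 - p) * (1 - p ^ a * (1 + a * (1 - p))) :=
      mul_nonneg (by linarith) (by linarith)
    linarith

/-- `φ = a q / (1 - p^a) - p ≥ (a+1) q / 2` -/
theorem phi_ge {p : ℝ} (h0 : 0 < p) (h1 : p < 1) {a : ℕ} (ha : 1 ≤ a) :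
    ((a : ℝ) + 1) * (1 - p) / 2 ≤ a * (1 - p) / (1 - p ^ a) - p := by
  have h := one_sub_pow_mul_le h0 h1 a
  have hX : 0 < 1 - p ^ a := by
    have := pow_lt_one₀ h0.le h1 (by omega : a ≠ 0)
    linarith
  rw [le_sub_iff_add_le, le_div_iff₀ hX]
  linarith

/-- `(p^(c-m) - p^c) (1 + 2 (c+1) q p^c) ≤ 1 / 2` -/
theorem rho_mul_le {p : ℝ} (h0 : 0 < p) (h1 : p < 1) {c m : ℕ} (hc : 1 ≤ c) (hm : 2 * m ≤ c) :
    (p ^ (c - m) - p ^ c) * (1 + 2 * (((c : ℝ) + 1) * ((1 - p) * p ^ c))) ≤ 1 / 2 := by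
  have hρ0 : 0 ≤ p ^ (c - m) - p ^ c := by
    rw [sub_nonneg]
    exact pow_le_pow_of_le_one h0.le h1.le (by omega)
  have hρ : p ^ (c - m) - p ^ c ≤ 1 / 4 := by
    have h2 : (p ^ (c - m)) ^ 2 ≤ p ^ c := by
      rw [← pow_mul]
      exact pow_le_pow_of_le_one h0.le h1.le (by omega)
    nlinarith [sq_nonneg (p ^ (c - m) - 1 / 2)]
  have hu : ((c : ℝ) + 1) * ((1 - p) * p ^ c) ≤ 1 / 2 := by
    have := pow_gap_le_half h0 hc
    linarith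
  have hu0 : 0 ≤ ((c : ℝ) + 1) * ((1 - p) * p ^ c) := by
    have : 0 ≤ 1 - p := by linarith
    positivity
  nlinarith

/-- **the real inequality of the thin case for `c q ≤ p`** -/
theorem thin_real_low {p : ℝ} (h0 : 0 < p) (h1 : p < 1) {a c m : ℕ} (hc : 1 ≤ c) (hca : c < a)
    (hm : 2 * m ≤ c) (hcp : (c : ℝ) * (1 - p) ≤ p) {OA OB R0 : ℝ} (hA : 1 / 2 ≤ OA)
    (hB : 1 / 2 ≤ OB) (hB1 : OB ≤ 1)
    (hR : R0 ≤ (p ^ (c - m) - p ^ c) * (1 + 2 * (((c : ℝ) + 1) * ((1 - p) * p ^ c))) * OB) :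
    0 < (a * (1 - p) / (1 - p ^ a) - p) * OA - (c * (1 - p) - p) * OB
      + (((c : ℝ) - m) * (1 - p) - p) * R0 := by
  have hq : 0 < 1 - p := by linarith
  have hφ := phi_ge h0 h1 (show 1 ≤ a by omega)
  have hk := rho_mul_le h0 h1 hc hm
  have haR : (c : ℝ) + 1 ≤ a := by exact_mod_cast hca
  have hmR : 2 * (m : ℝ) ≤ c := by exact_mod_cast hm
  have hm0 : (0 : ℝ) ≤ m := Nat.cast_nonneg m
  set φ := (a : ℝ) * (1 - p) / (1 - p ^ a) - p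
  set k := (p ^ (c - m) - p ^ c) * (1 + 2 * (((c : ℝ) + 1) * ((1 - p) * p ^ c)))
  -- `R0 ≤ OB / 2`
  have hR2 : R0 ≤ 1 / 2 * OB := hR.trans (mul_le_mul_of_nonneg_right hk (by linarith))
  have hV : ((c : ℝ) - m) * (1 - p) - p ≤ 0 := by nlinarith
  have h2 : (((c : ℝ) - m) * (1 - p) - p) * (1 / 2 * OB) ≤ (((c : ℝ) - m) * (1 - p) - p) * R0 :=
    mul_le_mul_of_nonpos_left hR2 hV
  have h3 : ((a : ℝ) + 1) * (1 - p) / 2 * (1 / 2) ≤ φ * OA := by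
    have : 0 ≤ ((a : ℝ) + 1) * (1 - p) / 2 := by positivity
    exact mul_le_mul hφ hA (by norm_num) (this.trans hφ)
  have h4 : (m : ℝ) * (1 - p) * OB ≤ m * (1 - p) * 1 :=
    mul_le_mul_of_nonneg_left hB1 (by positivity)
  have h5 : 0 ≤ (p - c * (1 - p)) * OB := mul_nonneg (by linarith) (by linarith)
  nlinarith

end Coin
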