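import Pool.Agent.Lib.Coin.ThinR0
import Pool.Agent.Lib.Coin.ThinR1

/-!
# Coin race: the real inequality of the thin case for `q c > p`, `q (c - m) ≥ p`
-/

namespace Coin

open Finset

theorem neg_log_ge {p : ℝ} (h0 : 0 < p) (h1 : p < 1) :
    (1 - p) + (1 - p) ^ 2 / 2 ≤ -Real.log p := by
  have habs : |1 - p| < 1 := by rw [abs_of_pos (by linarith)]; linarith
  have hs := Real.hasSum_pow_div_log_of_abs_lt_one habs
  have e : (1 : ℝ) - (1 - p) = p := by ring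
  rw [e] at hs
  have h := sum_le_hasSum (range 2) (fun i _ => by
    have : 0 ≤ (1 - p) ^ (i + 1) := pow_nonneg (by linarith) _
    positivity) hs
  simp only [sum_range_succ, sum_range_zero] at h
  norm_num at h
  linarith

theorem pow_eq_exp_neg {p : ℝ} (h0 : 0 < p) (h1 : p < 1) (c : ℕ) :
    ∃ t : ℝ, p ^ c = Real.exp (-t) ∧ (1 - p) * c * (1 + (1 - p) / 2) ≤ t := by
  refine ⟨c * (-Real.log p), ?_, ?_⟩
  · rw [show -((c : ℝ) * (-Real.log p)) = c * Real.log p by ring, Real.exp_nat_mul,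
      Real.exp_log h0]
  · have := neg_log_ge h0 h1
    have hc : (0 : ℝ) ≤ c := Nat.cast_nonneg c
    nlinarith [mul_le_mul_of_nonneg_left this hc]

theorem exp_ge_four {x : ℝ} (hx : 0 ≤ x) :
    1 + x + x ^ 2 / 2 + x ^ 3 / 6 + x ^ 4 / 24 ≤ Real.exp x := by
  have h := Real.sum_le_exp_of_nonneg hx 5
  simp only [sum_range_succ, sum_range_zero, Nat.factorial] at h
  norm_num at h
  linarith

theorem exp_ge_three {x : ℝ} (hx : 0 ≤ x) :
    1 + x + x ^ 2 / 2 + x ^ 3 / 6 ≤ Real.exp x := by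
  have h := exp_ge_four hx
  have : 0 ≤ x ^ 4 / 24 := by positivity
  linarith

theorem n2_quartic (t : ℝ) :
    0 < 74777 / 13824 - 16 / 3 * t - 32065 / 2304 * t ^ 2 + 15299 / 1728 * t ^ 3
      + 132853 / 4608 * t ^ 4 ∨ t < 0 := by
  by_cases ht : t < 0
  · exact Or.inr ht
  · left
    rw [not_lt] at ht
    nlinarith [sq_nonneg (t - 2 / 5), sq_nonneg (t ^ 2 - 1 / 6),
      mul_nonneg ht (sq_nonneg (t - 2 / 5)), sq_nonneg (t ^ 2 + t / 5 - 1 / 4)]

theorem n2_poly {s : ℝ} (hs : 1 ≤ s) :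
    0 < (1 + s + s ^ 2 / 2 + s ^ 3 / 6 + s ^ 4 / 24) ^ 3
      + (1 + s + s ^ 2 / 2 + s ^ 3 / 6 + s ^ 4 / 24) ^ 2
      - (1 + s + s ^ 2 / 2 + s ^ 3 / 6 + s ^ 4 / 24) * (16 * s ^ 2 - 5 * s)
      + (16 * s ^ 2 - 8 * s) := by
  obtain ⟨t, ht, rfl⟩ : ∃ t : ℝ, 0 ≤ t ∧ s = 1 + t := ⟨s - 1, by linarith, by ring⟩
  have key : (1 + (1 + t) + (1 + t) ^ 2 / 2 + (1 + t) ^ 3 / 6 + (1 + t) ^ 4 / 24) ^ 3
      + (1 + (1 + t) + (1 + t) ^ 2 / 2 + (1 + t) ^ 3 / 6 + (1 + t) ^ 4 / 24) ^ 2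
      - (1 + (1 + t) + (1 + t) ^ 2 / 2 + (1 + t) ^ 3 / 6 + (1 + t) ^ 4 / 24)
        * (16 * (1 + t) ^ 2 - 5 * (1 + t))
      + (16 * (1 + t) ^ 2 - 8 * (1 + t))
      = (74777 / 13824 - 16 / 3 * t - 32065 / 2304 * t ^ 2 + 15299 / 1728 * t ^ 3
      + 132853 / 4608 * t ^ 4) + (3281 / 144 * t ^ 5 + 12449 / 1152 * t ^ 6 + 1019 / 288 * t ^ 7
        + 3917 / 4608 * t ^ 8 + 67 / 432 * t ^ 9 + 47 / 2304 * t ^ 10 + 1 / 576 * t ^ 11
        + 1 / 13824 * t ^ 12) := by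
    ring
  rw [key]
  have := (n2_quartic t).resolve_right (not_lt.2 ht)
  positivity

/-- the numeric inequality for `q c ≥ 2` -/
theorem n2_high {τ : ℝ} (hτ : 2 ≤ τ) :
    4 * (1 - Real.exp (-τ / 2)) * (τ * (τ - 1)) * Real.exp (-τ) + Real.exp (-τ) * (3 / 2 * τ)
      < 1 + Real.exp (-τ / 2) := by
  obtain ⟨s, rfl⟩ : ∃ s : ℝ, τ = 2 * s := ⟨τ / 2, by ring⟩
  have hs : 1 ≤ s := by linarith
  have e1 : -(2 * s) / 2 = -s := by ring
  have e2 : Real.exp (-(2 * s)) = Real.exp (-s) ^ 2 := by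
    rw [← Real.exp_nat_mul]; congr 1; push_cast; ring
  rw [e1, e2]
  have hX := exp_ge_four (by linarith : (0 : ℝ) ≤ s)
  have hp := n2_poly hs
  have hXv : Real.exp s * Real.exp (-s) = 1 := by rw [← Real.exp_add]; simp
  have hv : 0 < Real.exp (-s) := Real.exp_pos _
  have hs0 : 0 ≤ s := by linarith
  set X := Real.exp s with hXd
  set v := Real.exp (-s) with hvd
  set Q := 1 + s + s ^ 2 / 2 + s ^ 3 / 6 + s ^ 4 / 24 with hQ
  have hQ2 : 1 + s + s ^ 2 / 2 ≤ Q := by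
    rw [hQ]; nlinarith [pow_nonneg hs0 3, pow_nonneg hs0 4]
  have hQ3 : 16 * s ^ 2 - 5 * s ≤ 3 * Q ^ 2 + 2 * Q := by
    nlinarith [sq_nonneg s, mul_nonneg hs0 hs0, pow_nonneg hs0 3, pow_nonneg hs0 4]
  have hQp : 0 < Q := by nlinarith
  have hg : 0 < X ^ 3 + X ^ 2 - X * (16 * s ^ 2 - 5 * s) + (16 * s ^ 2 - 8 * s) := by
    have h1 : X ^ 3 + X ^ 2 - X * (16 * s ^ 2 - 5 * s) + (16 * s ^ 2 - 8 * s)
      = (Q ^ 3 + Q ^ 2 - Q * (16 * s ^ 2 - 5 * s) + (16 * s ^ 2 - 8 * s))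
        + (X - Q) * (X ^ 2 + X * Q + Q ^ 2 + X + Q - (16 * s ^ 2 - 5 * s)) := by ring
    have h2 : 0 ≤ X ^ 2 + X * Q + Q ^ 2 + X + Q - (16 * s ^ 2 - 5 * s) := by nlinarith
    have h3 := mul_nonneg (sub_nonneg.2 hX) h2
    linarith
  have h4 := mul_pos hg (pow_pos hv 3)
  have e3 : (X ^ 3 + X ^ 2 - X * (16 * s ^ 2 - 5 * s) + (16 * s ^ 2 - 8 * s)) * v ^ 3
      = (X * v) ^ 3 + (X * v) ^ 2 * v - (X * v) * v ^ 2 * (16 * s ^ 2 - 5 * s)
        + (16 * s ^ 2 - 8 * s) * v ^ 3 := by ring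
  rw [e3, hXv] at h4
  nlinarith

theorem n2_low_poly {p L : ℝ} (hp : 1 / 2 ≤ p) (h1 : p ≤ 1) (hL : p ≤ L) (hL2 : L ≤ 2) :
    5 / 2 * p < (1 + L * (3 - p) / 4 + (L * (3 - p) / 4) ^ 2 / 2) ^ 2
      - (L * (L - p) - p) * (1 + L * (3 - p) / 4 + (L * (3 - p) / 4) ^ 2 / 2) := by
  have hq : 0 ≤ 1 - p := by linarith
  have hLL : 0 ≤ 2 - L := by linarith
  have hLp : 0 ≤ L - p := by linarith
  have hpp : 0 ≤ p - 1 / 2 := by linarith
  obtain ⟨h, hh⟩ : ∃ h, h = L * (3 - p) / 4 := ⟨_, rfl⟩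
  rw [← hh]
  have e : L * p = 3 * L - 4 * h := by rw [hh]; ring
  have e2 : L * (L - p) - p = L ^ 2 - 3 * L + 4 * h - p := by nlinarith
  rw [e2]
  have hhL : L / 2 ≤ h := by rw [hh]; nlinarith
  have hhL2 : h ≤ 5 / 8 * L := by rw [hh]; nlinarith
  nlinarith [mul_nonneg hLL (by linarith : 0 ≤ h - L / 2), mul_nonneg hLp hLL,
    sq_nonneg (h - 1), sq_nonneg (L - h), mul_nonneg hLL hLL]

/-- **second numeric inequality** -/
theorem thin_n2 {p : ℝ} (h0 : 0 < p) (h1 : p < 1) {c : ℕ} (hhi : p < (1 - p) * c)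
    (hq2 : 1 - p < 1 / 2) {y : ℝ} (hy0 : 0 ≤ y) (hy1 : y ≤ 1) (hy : p ^ c ≤ y ^ 2) :
    4 * (1 - y) * (((1 - p) * c) * ((1 - p) * c - p)) * p ^ c
      + p ^ c * (5 / 2 * (1 - 2 * (1 - p)) + max ((1 - p) * c - p - 1) 0
        + (1 - p) * ((1 - p) * c - p))
      < 1 + y * ((1 - p) * ((1 - p) * c) + p ^ 2) := by
  obtain ⟨τ, hw, hτ⟩ := pow_eq_exp_neg h0 h1 c
  have hq : 0 < 1 - p := by linarith
  rw [hw] at hy ⊢
  have hv2 : Real.exp (-τ) = Real.exp (-τ / 2) ^ 2 := by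
    rw [← Real.exp_nat_mul]; congr 1; push_cast; ring
  have hvy : Real.exp (-τ / 2) ≤ y := by
    rw [hv2] at hy
    exact (pow_le_pow_iff_left₀ (Real.exp_pos _).le hy0 two_ne_zero).1 hy
  set L : ℝ := (1 - p) * c with hL
  have hL0 : 0 < L := h0.trans hhi
  have hτ0 : L ≤ τ := by nlinarith
  have hv := Real.exp_pos (-τ / 2)
  have hv1 : Real.exp (-τ / 2) < 1 := by
    rw [Real.exp_lt_one_iff]; linarith
  have hE : 0 ≤ L - p := by linarith
  -- replace `y` by `v`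
  have r1 : 4 * (1 - y) * (L * (L - p)) * Real.exp (-τ)
      ≤ 4 * (1 - Real.exp (-τ / 2)) * (L * (L - p)) * Real.exp (-τ) := by
    have : 0 ≤ L * (L - p) * Real.exp (-τ) := by positivity
    nlinarith
  have r2 : Real.exp (-τ / 2) * ((1 - p) * L + p ^ 2) ≤ y * ((1 - p) * L + p ^ 2) :=
    mul_le_mul_of_nonneg_right hvy (by positivity)
  refine lt_of_le_of_lt (add_le_add r1 le_rfl) (lt_of_lt_of_le ?_ (add_le_add le_rfl r2))
  rcases le_or_gt 2 L with h2 | h2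
  · -- `L ≥ 2`
    have hE1 : L - p ≤ τ - 1 := by nlinarith
    have hh := n2_high (τ := τ) (by linarith)
    have hw0 := Real.exp_pos (-τ)
    have s1 : 4 * (1 - Real.exp (-τ / 2)) * (L * (L - p)) * Real.exp (-τ)
        ≤ 4 * (1 - Real.exp (-τ / 2)) * (τ * (τ - 1)) * Real.exp (-τ) := by
      have : L * (L - p) ≤ τ * (τ - 1) := mul_le_mul hτ0 hE1 hE (by linarith)
      have h4 : 0 ≤ 4 * (1 - Real.exp (-τ / 2)) := by linarith
      exact mul_le_mul_of_nonneg_right (mul_le_mul_of_nonneg_left this h4) hw0.le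
    have s2 : 5 / 2 * (1 - 2 * (1 - p)) + max (L - p - 1) 0 + (1 - p) * (L - p)
        ≤ 3 / 2 * τ := by
      have m1 : max (L - p - 1) 0 ≤ τ - 2 := max_le (by linarith) (by linarith)
      have m2 : (1 - p) * (L - p) ≤ 1 / 2 * (τ - 1) := mul_le_mul hq2.le hE1 hE (by norm_num)
      linarith
    have s3 : 1 ≤ (1 - p) * L + p ^ 2 := by nlinarith
    have s4 : Real.exp (-τ / 2) ≤ Real.exp (-τ / 2) * ((1 - p) * L + p ^ 2) :=
      le_mul_of_one_le_right hv.le s3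
    have s5 := mul_le_mul_of_nonneg_left s2 hw0.le
    linarith
  · -- `L < 2`
    have m1 : max (L - p - 1) 0 ≤ 1 - p := max_le (by linarith) hq.le
    have m2 : (1 - p) * (L - p) ≤ (1 - p) * (3 / 2) :=
      mul_le_mul_of_nonneg_left (by linarith) hq.le
    have m3 : 5 / 2 * (1 - 2 * (1 - p)) + max (L - p - 1) 0 + (1 - p) * (L - p) ≤ 5 / 2 * p := by
      linarith
    have m4 : p ≤ (1 - p) * L + p ^ 2 := by nlinarith
    have hpoly := n2_low_poly (p := p) (L := L) (by linarith) h1.le hhi.le h2.le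
    have hZ : 1 + L * (3 - p) / 4 + (L * (3 - p) / 4) ^ 2 / 2 ≤ Real.exp (τ / 2) := by
      have hh0 : 0 ≤ L * (3 - p) / 4 := by
        have : 0 ≤ L * (3 - p) := mul_nonneg hL0.le (by linarith)
        linarith
      have e1 := Real.quadratic_le_exp_of_nonneg hh0
      have e2 : Real.exp (L * (3 - p) / 4) ≤ Real.exp (τ / 2) := by
        rw [Real.exp_le_exp]
        linarith
      exact e1.trans e2
    have hXv : Real.exp (τ / 2) * Real.exp (-τ / 2) = 1 := by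
      rw [← Real.exp_add]
      rw [show τ / 2 + -τ / 2 = 0 by ring, Real.exp_zero]
    rw [hv2]
    set v := Real.exp (-τ / 2)
    set X := Real.exp (τ / 2)
    set Z := 1 + L * (3 - p) / 4 + (L * (3 - p) / 4) ^ 2 / 2
    have hE2 : L - p < 3 / 2 := by linarith
    have hZ1 : 1 + L / 2 ≤ Z := by
      have : L / 2 ≤ L * (3 - p) / 4 := by nlinarith
      have : 0 ≤ (L * (3 - p) / 4) ^ 2 / 2 := by positivity
      simp only [Z]; linarith
    -- the inequality for `X`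
    have hX : 5 / 2 * p < X ^ 2 - (L * (L - p) - p) * X := by
      have h3 : X ^ 2 - (L * (L - p) - p) * X
          = (Z ^ 2 - (L * (L - p) - p) * Z) + (X - Z) * (X + Z - (L * (L - p) - p)) := by ring
      have h4 : 0 ≤ X + Z - (L * (L - p) - p) := by nlinarith
      have h5 := mul_nonneg (sub_nonneg.2 hZ) h4
      linarith
    have h6 := mul_lt_mul_of_pos_right hX (pow_pos hv 2)
    have e3 : (X ^ 2 - (L * (L - p) - p) * X) * v ^ 2
        = (X * v) ^ 2 - (L * (L - p) - p) * (X * v) * v := by ring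
    rw [e3, hXv] at h6
    have k1 : 4 * (1 - v) * (L * (L - p)) * v ^ 2 ≤ L * (L - p) * v := by
      have : 4 * (1 - v) * v ≤ 1 := by nlinarith [sq_nonneg (2 * v - 1)]
      have h7 : 0 ≤ L * (L - p) * v := by positivity
      nlinarith
    have k2 := mul_le_mul_of_nonneg_left m3 (pow_pos hv 2).le
    have k3 := mul_le_mul_of_nonneg_left m4 hv.le
    nlinarith

/-- **first numeric inequality** -/
theorem thin_n1 {p : ℝ} (h0 : 0 < p) (h1 : p < 1) {c : ℕ} (hc : 1 ≤ c)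
    (hhi : p < (1 - p) * c) :
    p ^ c * (((1 - p) * c) * ((1 - p) * c - p) + 1 / 2 * max ((1 - p) * c - p - 1) 0)
      < 1 / 2 := by
  obtain ⟨τ, hw, hτ⟩ := pow_eq_exp_neg h0 h1 c
  have hq : 0 < 1 - p := by linarith
  have hc1 : (1 : ℝ) ≤ c := by exact_mod_cast hc
  rw [hw]
  set L : ℝ := (1 - p) * c with hL
  have hL0 : 0 < L := h0.trans hhi
  have hLq : 1 - p ≤ L := by rw [hL]; nlinarith
  have hτ0 : L ≤ τ := by nlinarith
  have hE : 0 ≤ L - p := by linarith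
  have hXv : Real.exp τ * Real.exp (-τ) = 1 := by
    rw [← Real.exp_add, add_neg_cancel, Real.exp_zero]
  have hw0 := Real.exp_pos (-τ)
  suffices h : L * (L - p) + 1 / 2 * max (L - p - 1) 0 < 1 / 2 * Real.exp τ by
    have := mul_lt_mul_of_pos_left h hw0
    nlinarith
  rcases le_or_gt 2 L with h2 | h2
  · have hE1 : L - p ≤ τ - 1 := by nlinarith
    have m1 : max (L - p - 1) 0 ≤ τ - 2 := max_le (by linarith) (by linarith)
    have m2 : L * (L - p) ≤ τ * (τ - 1) := mul_le_mul hτ0 hE1 hE (by linarith)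
    have hX := exp_ge_four (by linarith : (0 : ℝ) ≤ τ)
    have : 0 < 3 / 2 + τ - 3 / 4 * τ ^ 2 + τ ^ 3 / 12 + τ ^ 4 / 48 := by
      nlinarith [sq_nonneg (τ - 5 / 2), sq_nonneg (τ ^ 2 - 6), sq_nonneg (τ ^ 2 - 5 / 2 * τ),
        mul_nonneg (by linarith : (0 : ℝ) ≤ τ) (sq_nonneg (τ - 5 / 2))]
    linarith
  · have m1 : max (L - p - 1) 0 ≤ 1 - p := max_le (by linarith) hq.le
    have hX := exp_ge_three (x := L * (1 + (1 - p) / 2)) (by positivity)
    have hX2 : Real.exp (L * (1 + (1 - p) / 2)) ≤ Real.exp τ := by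
      rw [Real.exp_le_exp]; linarith
    obtain ⟨q, hqd⟩ : ∃ q, q = 1 - p := ⟨_, rfl⟩
    have hp : p = 1 - q := by linarith
    rw [← hqd] at hX hX2 m1 hq hLq
    rw [hp] at hE m1 hhi ⊢
    have hq1 : q < 1 := by linarith
    have key : 2 * (L * (L - (1 - q)) + q / 2) < 1 + L * (1 + q / 2) + (L * (1 + q / 2)) ^ 2 / 2
        + (L * (1 + q / 2)) ^ 3 / 6 := by
      nlinarith [sq_nonneg (L - 1), mul_nonneg hL0.le hq.le, mul_nonneg hq.le hq.le,
        mul_nonneg (mul_nonneg hL0.le hq.le) hL0.le, pow_pos hL0 3,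
        mul_nonneg (mul_nonneg hL0.le hq.le) (by linarith : 0 ≤ 2 - L),
        mul_nonneg (mul_nonneg hL0.le hL0.le) (by linarith : 0 ≤ 2 - L),
        mul_nonneg (pow_pos hL0 3).le hq.le]
    linarith

theorem thin_aux1 {K y : ℝ} (hK : K ≤ 1) (hy : 0 ≤ y) : (K - y) * (1 + y) ≤ K := by
  nlinarith [mul_nonneg hy hy, mul_nonneg hy (by linarith : 0 ≤ 1 - K)]

/-- abstract assembly, `D ≥ 1/2` -/
theorem thin_aux2 {p L D w P th M : ℝ} (hL0 : 0 < L) (hE : 0 < L - p)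
    (hLq : 0 ≤ L - (1 - p)) (hq : 0 < 1 - p) (hw : 0 < w) (hP : 0 < P)
    (hP1 : P ≤ 1) (hth : th ≤ 1 / 2) (hM1 : L - p - 1 ≤ M) (hM0 : 0 ≤ M)
    (hn1 : w * (L * (L - p) + 1 / 2 * M) < 1 / 2) (hD2 : 1 / 2 ≤ D) :
    0 < D * (1 + w * P * (1 - (L - p)) + L * w * (1 - 2 * th))
      + w * (P * ((1 - p) * L + p ^ 2) + (1 - P) * (L - p) * (L - (1 - p))
        - 2 * th * L * (L - p)) := by
  have hLEw : 0 < w * (L * (L - p)) := by positivity
  have hwM : w * M < 1 - 2 * (w * (L * (L - p))) := by linarith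
  have a1 : w * P * (L - p - 1) ≤ w * P * M := mul_le_mul_of_nonneg_left hM1 (by positivity)
  have a2 : w * P * M ≤ w * 1 * M :=
    mul_le_mul_of_nonneg_right (mul_le_mul_of_nonneg_left hP1 hw.le) hM0
  have hPM : 1 - w * M ≤ 1 + w * P * (1 - (L - p)) := by linarith
  have hLw : 0 ≤ L * w * (1 - 2 * th) := mul_nonneg (by positivity) (by linarith)
  have hthE : 2 * th * (L * (L - p)) ≤ 1 * (L * (L - p)) :=
    mul_le_mul_of_nonneg_right (by linarith) (by positivity)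
  have b1 : 0 ≤ P * ((1 - p) * L + p ^ 2) := by positivity
  have b2 : 0 ≤ (1 - P) * (L - p) * (L - (1 - p)) :=
    mul_nonneg (mul_nonneg (by linarith) hE.le) hLq
  have c1 : D * (1 - w * M) ≤ D * (1 + w * P * (1 - (L - p)) + L * w * (1 - 2 * th)) :=
    mul_le_mul_of_nonneg_left (by linarith) (by linarith)
  have c2 : 1 / 2 * (1 - w * M) ≤ D * (1 - w * M) :=
    mul_le_mul_of_nonneg_right hD2 (by linarith)
  have c3 : w * (-(L * (L - p))) ≤ w * (P * ((1 - p) * L + p ^ 2)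
      + (1 - P) * (L - p) * (L - (1 - p)) - 2 * th * L * (L - p)) :=
    mul_le_mul_of_nonneg_left (by linarith) hw.le
  linarith

/-- abstract assembly, `D < 1/2` -/
theorem thin_aux3 {p L D w s y P th M T : ℝ} (hL0 : 0 < L) (hE : 0 < L - p)
    (hLq : 0 ≤ L - (1 - p)) (hq : 0 < 1 - p) (hw : 0 < w) (hs : 0 < s) (hsy : w = s * y)
    (hP : 0 < P) (hP1 : P ≤ 1) (hth : th ≤ 1 / 2) (hth2 : th ≤ 2 * (s - w))
    (hρ0 : 0 ≤ s - w) (hρ1 : s - w ≤ 1 / 4) (hM1 : L - p - 1 ≤ M) (hM0 : 0 ≤ M)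
    (hn1 : w * (L * (L - p) + 1 / 2 * M) < 1 / 2) (hDq : 1 - p ≤ D) (hD2 : D < 1 / 2)
    (hbern : 1 - D ≤ P) (hT0 : 0 ≤ T) (hTP : P * T = 1 - P)
    (htie : s ≤ T * (1 + 4 * (D - (1 - p)) * w * (1 + (s - w))))
    (hn2 : 4 * (1 - y) * (L * (L - p)) * w + w * (5 / 2 * (1 - 2 * (1 - p)) + M
      + (1 - p) * (L - p)) < 1 + y * ((1 - p) * L + p ^ 2)) :
    0 < D * (1 + w * P * (1 - (L - p)) + L * w * (1 - 2 * th))
      + w * (P * ((1 - p) * L + p ^ 2) + (1 - P) * (L - p) * (L - (1 - p))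
        - 2 * th * L * (L - p)) := by
  have hLEw : 0 < w * (L * (L - p)) := by positivity
  have hwM : w * M < 1 - 2 * (w * (L * (L - p))) := by linarith
  have a1 : w * P * (L - p - 1) ≤ w * P * M := mul_le_mul_of_nonneg_left hM1 (by positivity)
  have a2 : w * P * M ≤ w * 1 * M :=
    mul_le_mul_of_nonneg_right (mul_le_mul_of_nonneg_left hP1 hw.le) hM0
  have hPM : 1 - w * M ≤ 1 + w * P * (1 - (L - p)) := by linarith
  have hLw : 0 ≤ L * w * (1 - 2 * th) := mul_nonneg (by positivity) (by linarith)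
  obtain ⟨y0, hy0⟩ : ∃ y0, y0 = 5 / 2 * (1 - 2 * (1 - p)) * w := ⟨_, rfl⟩
  have hy00 : 0 ≤ y0 := by
    rw [hy0]; exact mul_nonneg (by linarith) hw.le
  have d1 : s ≤ T * (1 + y0) := by
    refine htie.trans (mul_le_mul_of_nonneg_left ?_ hT0)
    have e0 : 4 * (D - (1 - p)) * w ≤ 4 * (1 / 2 - (1 - p)) * w :=
      mul_le_mul_of_nonneg_right (by linarith) hw.le
    have e2 : 0 ≤ 4 * (1 / 2 - (1 - p)) * w := mul_nonneg (by linarith) hw.le
    have e1 : 4 * (D - (1 - p)) * w * (1 + (s - w)) ≤ 4 * (1 / 2 - (1 - p)) * w * (5 / 4) :=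
      mul_le_mul e0 (by linarith) (by linarith) e2
    rw [hy0]; linarith
  obtain ⟨K1, hK1⟩ : ∃ K1, K1 = 1 - w * M - w * ((1 - p) * (L - p)) := ⟨_, rfl⟩
  have hqE : w * ((1 - p) * (L - p)) ≤ w * (L * (L - p)) :=
    mul_le_mul_of_nonneg_left (mul_le_mul_of_nonneg_right (by linarith) hE.le) hw.le
  have hqE0 : 0 ≤ w * ((1 - p) * (L - p)) := by positivity
  have hwM0 := mul_nonneg hw.le hM0
  have hK0 : 0 ≤ K1 := by rw [hK1]; linarith
  have hK11 : K1 ≤ 1 := by rw [hK1]; linarith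
  have d2 : s * (K1 - y0) ≤ T * K1 := by
    have f1 : s * K1 ≤ T * (1 + y0) * K1 := mul_le_mul_of_nonneg_right d1 hK0
    have f2 : s * ((K1 - y0) * (1 + y0)) ≤ s * K1 :=
      mul_le_mul_of_nonneg_left (thin_aux1 hK11 hy00) hs.le
    have f3 : (s * (K1 - y0)) * (1 + y0) ≤ (T * K1) * (1 + y0) := by linarith
    exact le_of_mul_le_mul_right f3 (by linarith)
  have g1 : 2 * th * (w * (L * (L - p))) ≤ 4 * (s - w) * (w * (L * (L - p))) :=
    mul_le_mul_of_nonneg_right (by linarith) hLEw.le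
  have g2 : 0 < s * (1 + y * ((1 - p) * L + p ^ 2)
      - (4 * (1 - y) * (L * (L - p)) * w + w * (5 / 2 * (1 - 2 * (1 - p)) + M
        + (1 - p) * (L - p)))) := mul_pos hs (by linarith)
  have g3 : s * (1 + y * ((1 - p) * L + p ^ 2)
      - (4 * (1 - y) * (L * (L - p)) * w + w * (5 / 2 * (1 - 2 * (1 - p)) + M
        + (1 - p) * (L - p))))
      = s * (K1 - y0) + (s * y) * ((1 - p) * L + p ^ 2)
        - 4 * (s - s * y) * (w * (L * (L - p))) := by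
    rw [hK1, hy0]; ring
  rw [g3, ← hsy] at g2
  have d3 : 0 < s * (K1 - y0) + w * ((1 - p) * L + p ^ 2) - 2 * th * (w * (L * (L - p))) := by
    linarith
  have k0 : 2 * th * (w * (L * (L - p))) ≤ 1 * (w * (L * (L - p))) :=
    mul_le_mul_of_nonneg_right (by linarith) hLEw.le
  have k1 : T * K1 ≤ T * ((1 + w * P * (1 - (L - p)) + L * w * (1 - 2 * th))
      + w * (L - p) * (L - (1 - p)) - 2 * th * (w * (L * (L - p)))) := by
    apply mul_le_mul_of_nonneg_left _ hT0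
    rw [hK1]
    linarith
  have k2 : (1 - P) * (1 + w * P * (1 - (L - p)) + L * w * (1 - 2 * th))
      ≤ D * (1 + w * P * (1 - (L - p)) + L * w * (1 - 2 * th)) :=
    mul_le_mul_of_nonneg_right (by linarith) (by linarith)
  have k3 : 0 < P * (T * K1 + w * ((1 - p) * L + p ^ 2) - 2 * th * (w * (L * (L - p)))) :=
    mul_pos hP (by linarith)
  have k4 : P * (T * ((1 + w * P * (1 - (L - p)) + L * w * (1 - 2 * th))
      + w * (L - p) * (L - (1 - p)) - 2 * th * (w * (L * (L - p))))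
      + w * ((1 - p) * L + p ^ 2) - 2 * th * (w * (L * (L - p))))
      = (1 - P) * (1 + w * P * (1 - (L - p)) + L * w * (1 - 2 * th))
        + w * (P * ((1 - p) * L + p ^ 2) + (1 - P) * (L - p) * (L - (1 - p))
          - 2 * th * L * (L - p)) := by
    calc _ = (P * T) * ((1 + w * P * (1 - (L - p)) + L * w * (1 - 2 * th))
        + w * (L - p) * (L - (1 - p)) - 2 * th * (w * (L * (L - p))))
        + P * (w * ((1 - p) * L + p ^ 2)) - P * (2 * th * (w * (L * (L - p)))) := by ring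
      _ = _ := by rw [hTP]; ring
  have k5 : P * (T * K1 + w * ((1 - p) * L + p ^ 2) - 2 * th * (w * (L * (L - p))))
      ≤ P * (T * ((1 + w * P * (1 - (L - p)) + L * w * (1 - 2 * th))
      + w * (L - p) * (L - (1 - p)) - 2 * th * (w * (L * (L - p))))
      + w * ((1 - p) * L + p ^ 2) - 2 * th * (w * (L * (L - p)))) :=
    mul_le_mul_of_nonneg_left (by linarith) hP.le
  rw [k4] at k5
  linarith

/-- **the real inequality for `q c > p`, `q (c - m) ≥ p`** -/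
theorem thinReal_V {p : ℝ} (h0 : 0 < p) (h1 : p < 1) {a c m : ℕ} (hc : 1 ≤ c) (hca : c < a)
    (hm : 2 * m ≤ c) (hhi : p < (1 - p) * c) (hV : p ≤ (1 - p) * ((c : ℝ) - m))
    {OA OB R : ℝ}
    (htie : p ^ (c - m) ≤ (1 / p ^ (a - c) - 1) * (1 + 4 * ((a : ℝ) - c - 1) * ((1 - p) * p ^ c)
      * (1 + (p ^ (c - m) - p ^ c))))
    (hOA : (1 + c * ((1 - p) * p ^ c) * (max 0 (1 - (p ^ (c - m) - p ^ c)
      * (1 + 2 * ((c + 1) * ((1 - p) * p ^ c))))) ^ 2) / 2 ≤ OA)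
    (hOB : OB ≤ (1 + p ^ a * (1 + ((a : ℝ) - 2) * (1 - p)) + (1 - p) * p ^ c) / 2)
    (hR0 : 0 ≤ R) :
    0 < (a * (1 - p) / (1 - p ^ a) - p) * OA - ((1 - p) * c - p) * OB
      + ((1 - p) * (c - m) - p) * R := by
  have hq : 0 < 1 - p := by linarith
  have hw : 0 < p ^ c := pow_pos h0 c
  have hs : 0 < p ^ (c - m) := pow_pos h0 _
  have hy : 0 < p ^ m := pow_pos h0 _
  have hy1 : p ^ m ≤ 1 := pow_le_one₀ h0.le h1.le
  have hsy : p ^ c = p ^ (c - m) * p ^ m := by rw [← pow_add]; congr 1; omega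
  have hsy2 : p ^ (c - m) ≤ p ^ m := pow_le_pow_of_le_one h0.le h1.le (by omega)
  have hu1 : ((c : ℝ) + 1) * ((1 - p) * p ^ c) ≤ 1 / 2 := by
    have := pow_gap_le_half h0 hc
    linarith
  have hu0 : 0 ≤ ((c : ℝ) + 1) * ((1 - p) * p ^ c) := by positivity
  have hth := rho_mul_le h0 h1 hc hm
  have hρ0 : 0 ≤ p ^ (c - m) - p ^ c := by
    rw [sub_nonneg]; exact pow_le_pow_of_le_one h0.le h1.le (by omega)
  have hρ1 : p ^ (c - m) - p ^ c ≤ 1 / 4 := by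
    rw [hsy]; nlinarith [sq_nonneg (2 * p ^ m - 1)]
  have hth0 : 0 ≤ (p ^ (c - m) - p ^ c) * (1 + 2 * (((c : ℝ) + 1) * ((1 - p) * p ^ c))) := by
    positivity
  have hth2 : (p ^ (c - m) - p ^ c) * (1 + 2 * (((c : ℝ) + 1) * ((1 - p) * p ^ c)))
      ≤ 2 * (p ^ (c - m) - p ^ c) := by nlinarith
  have hcore := thin_core h0 h1 hc hca hhi hth0 hth hOA hOB
  have hVR : 0 ≤ ((1 - p) * ((c : ℝ) - m) - p) * R := mul_nonneg (by linarith) hR0
  have hn1 := thin_n1 h0 h1 hc hhi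
  have hP : 0 < p ^ (a - c) := pow_pos h0 _
  have hP1 : p ^ (a - c) ≤ 1 := pow_le_one₀ h0.le h1.le
  have hca' : (c : ℝ) + 1 ≤ a := by exact_mod_cast hca
  have hc1 : (1 : ℝ) ≤ c := by exact_mod_cast hc
  have hbern : 1 - ((a : ℝ) - c) * (1 - p) ≤ p ^ (a - c) := by
    have := one_add_mul_le_pow (a := p - 1) (by linarith) (a - c)
    rw [Nat.cast_sub hca.le] at this
    have e : 1 + (p - 1) = p := by ring
    rw [e] at this
    linarith
  have hL0 : 0 < (1 - p) * (c : ℝ) := h0.trans hhi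
  have hLq : 0 ≤ (1 - p) * (c : ℝ) - (1 - p) := by nlinarith
  refine add_pos_of_pos_of_nonneg ?_ hVR
  refine (mul_pos_iff_of_pos_left (by norm_num : (0 : ℝ) < 2)).1 (lt_of_lt_of_le ?_ hcore)
  rcases le_or_gt (1 / 2) (((a : ℝ) - c) * (1 - p)) with hD2 | hD2
  · exact thin_aux2 hL0 (by linarith) hLq hq hw hP hP1 hth (le_max_left _ 0) (le_max_right _ _)
      hn1 hD2
  · have hDq : 1 - p ≤ ((a : ℝ) - c) * (1 - p) := by nlinarith
    refine thin_aux3 (s := p ^ (c - m)) (y := p ^ m) (T := 1 / p ^ (a - c) - 1) hL0 (by linarith)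
      hLq hq hw hs hsy hP hP1 hth hth2 hρ0 hρ1 (le_max_left _ 0) (le_max_right _ _) hn1 hDq hD2
      hbern ?_ ?_ ?_ ?_
    · rw [sub_nonneg, le_div_iff₀ hP]; linarith
    · field_simp
    · refine htie.trans (le_of_eq ?_)
      ring
    · exact thin_n2 h0 h1 hhi (by linarith) hy.le hy1
        (by rw [hsy, sq]; exact mul_le_mul_of_nonneg_right hsy2 hy.le)

end Coin
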