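import Pool.Agent.Lib.Coin.ThinFin
import Pool.Agent.Lib.Coin.ThinR3

/-!
# Coin race: `IncFull`
-/

namespace Coin

theorem thinRealV : ThinRealV := by
  intro p a c m OA OB R h0 h1 hc hca hm htie hOA _ _ _ hOBe hR0 _ hhi hV
  exact thinReal_V h0 h1 hc hca hm hhi hV htie hOA hOBe hR0

/-- **M5a, M5b: the full incomparable case** -/
theorem incFull : IncFull := incFull_of_V thinRealV

end Coin
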