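import Pool.Agent.Lib.Coin.ThinE
import Pool.Agent.Lib.Coin.ThinR1
import Pool.Agent.Lib.Coin.RealJ

/-!
# Coin race: the real inequality of the thin case for `q (c - m) < p < q c`
-/

namespace Coin

open Finset

/-- a sharper upper bound of `1 - p^a` -/
theorem one_sub_pow_sharp {p : ℝ} (h0 : 0 < p) (h1 : p < 1) {a : ℕ} (ha : 1 ≤ a)
    (h4 : (a : ℝ) * (1 - p) ≤ 4) :
    (1 - p ^ a) * (1 + ((a : ℝ) - 1) * (1 - p) / 2 + ((a : ℝ) ^ 2 - 1) * (1 - p) ^ 2 / 16)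
      ≤ a * (1 - p) := by
  induction a, ha using Nat.le_induction with
  | base => simp
  | succ a ha ih =>
    have hq : 0 < 1 - p := by linarith
    obtain ⟨q, rfl⟩ : ∃ q, p = 1 - q := ⟨1 - p, by ring⟩
    have ha1 : (1 : ℝ) ≤ a := by exact_mod_cast ha
    have ih' := ih (by
      push_cast at h4
      nlinarith)
    rw [sub_sub_cancel] at *
    push_cast at h4
    have hD1 : 1 ≤ 1 + ((a : ℝ) - 1) * q / 2 + ((a : ℝ) ^ 2 - 1) * q ^ 2 / 16 := by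
      have e1 : 0 ≤ ((a : ℝ) - 1) * q := mul_nonneg (by linarith) hq.le
      have e2 : 0 ≤ ((a : ℝ) ^ 2 - 1) * q ^ 2 := mul_nonneg (by nlinarith) (sq_nonneg q)
      linarith
    have hD2 : 0 ≤ 1 + (a : ℝ) * q / 2 + ((a : ℝ) ^ 2 + 2 * a) * q ^ 2 / 16 := by positivity
    have e1 : 1 - (1 - q) ^ (a + 1) = q + (1 - q) * (1 - (1 - q) ^ a) := by rw [pow_succ]; ring
    have key : (a + 1 : ℝ) * (1 + ((a : ℝ) - 1) * q / 2 + ((a : ℝ) ^ 2 - 1) * q ^ 2 / 16)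
        - ((1 + ((a : ℝ) - 1) * q / 2 + ((a : ℝ) ^ 2 - 1) * q ^ 2 / 16) + (1 - q) * a)
          * (1 + (a : ℝ) * q / 2 + ((a : ℝ) ^ 2 + 2 * a) * q ^ 2 / 16)
        = (1 / 256) * (a * (a + 1) * q ^ 2 * (16 + 24 * q - (a - 1) * (a + 2) * q ^ 2)) := by
      ring
    have hpos : 0 ≤ 16 + 24 * q - ((a : ℝ) - 1) * (a + 2) * q ^ 2 := by
      have e3 : (a : ℝ) * q ≤ 4 := by nlinarith
      have e4 : 0 ≤ (a : ℝ) * q := by positivity
      nlinarith [mul_nonneg e4 (by linarith : (0 : ℝ) ≤ 4 - a * q), sq_nonneg q]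
    have key2 : ((1 + ((a : ℝ) - 1) * q / 2 + ((a : ℝ) ^ 2 - 1) * q ^ 2 / 16) + (1 - q) * a)
          * (1 + (a : ℝ) * q / 2 + ((a : ℝ) ^ 2 + 2 * a) * q ^ 2 / 16)
        ≤ (a + 1 : ℝ) * (1 + ((a : ℝ) - 1) * q / 2 + ((a : ℝ) ^ 2 - 1) * q ^ 2 / 16) := by
      have : 0 ≤ (1 / 256) * ((a : ℝ) * (a + 1) * q ^ 2
          * (16 + 24 * q - (a - 1) * (a + 2) * q ^ 2)) := by positivity
      linarith
    set D := 1 + ((a : ℝ) - 1) * q / 2 + ((a : ℝ) ^ 2 - 1) * q ^ 2 / 16 with hD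
    set D' := 1 + (a : ℝ) * q / 2 + ((a : ℝ) ^ 2 + 2 * a) * q ^ 2 / 16 with hD'
    have e5 : 1 + (((a + 1 : ℕ) : ℝ) - 1) * q / 2 + (((a + 1 : ℕ) : ℝ) ^ 2 - 1) * q ^ 2 / 16
        = D' := by
      rw [hD']; push_cast; ring
    rw [e5, e1]
    push_cast
    -- multiply by `D`
    have hDpos : 0 < D := by linarith
    refine le_of_mul_le_mul_left ?_ hDpos
    have h6 : D * (q + (1 - q) * (1 - (1 - q) ^ a)) ≤ q * (D + (1 - q) * a) := by
      have := mul_le_mul_of_nonneg_left ih' h0.le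
      nlinarith
    calc D * ((q + (1 - q) * (1 - (1 - q) ^ a)) * D')
        = (D * (q + (1 - q) * (1 - (1 - q) ^ a))) * D' := by ring
      _ ≤ (q * (D + (1 - q) * a)) * D' := mul_le_mul_of_nonneg_right h6 hD2
      _ = q * ((D + (1 - q) * a) * D') := by ring
      _ ≤ q * ((a + 1) * D) := mul_le_mul_of_nonneg_left key2 hq.le
      _ = D * ((a + 1) * q) := by ring

/-- a sharper lower bound of `φ` -/
theorem phi_ge_sharp {p : ℝ} (h0 : 0 < p) (h1 : p < 1) {a : ℕ} (ha : 1 ≤ a)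
    (h4 : (a : ℝ) * (1 - p) ≤ 4) :
    ((a : ℝ) + 1) * (1 - p) / 2 + ((a : ℝ) ^ 2 - 1) * (1 - p) ^ 2 / 16
      ≤ a * (1 - p) / (1 - p ^ a) - p := by
  have h := one_sub_pow_sharp h0 h1 ha h4
  have hX : 0 < 1 - p ^ a := by
    have := pow_lt_one₀ h0.le h1 (by omega : a ≠ 0)
    linarith
  rw [le_sub_iff_add_le, le_div_iff₀ hX]
  linarith

/-- the tie forces `(a - c) q ≥ 1/5` if `q < 1/5` -/
theorem nu_ge {p : ℝ} {a c m : ℕ} (h0 : 0 < p) (h1 : p < 1) (hca : c < a) (hm : 2 * m ≤ c)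
    (htie : p ^ (c - m) ≤ (1 / p ^ (a - c) - 1) * (1 + 4 * ((a : ℝ) - c - 1)
      * ((1 - p) * p ^ c) * (1 + (p ^ (c - m) - p ^ c))))
    (hC : p < (1 - p) * c) (hV : (1 - p) * (c - m) < p) (hq5 : 1 - p < 1 / 5) :
    1 / 5 ≤ ((a : ℝ) - c) * (1 - p) := by
  by_contra hcon
  rw [not_le] at hcon
  have hq : 0 < 1 - p := by linarith
  have hca' : (c : ℝ) + 1 ≤ a := by exact_mod_cast hca
  have hcm : ((c - m : ℕ) : ℝ) = (c : ℝ) - m := by
    rw [Nat.cast_sub (by omega)]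
  -- lower bound of `p^(c-m)`
  have hx : 3678 / 10000 ≤ p ^ (c - m) := by
    have e1 : p ^ (c - m) = Real.exp (((c - m : ℕ) : ℝ) * Real.log p) := by
      rw [← Real.log_pow, Real.exp_log (pow_pos h0 _)]
    have e2 : -1 ≤ ((c - m : ℕ) : ℝ) * Real.log p := by
      have h3 := Real.one_sub_inv_le_log_of_pos h0
      have h4 : 1 - p⁻¹ = -((1 - p) / p) := by field_simp; ring
      rw [h4] at h3
      have h5 : ((c - m : ℕ) : ℝ) * -((1 - p) / p) ≤ ((c - m : ℕ) : ℝ) * Real.log p :=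
        mul_le_mul_of_nonneg_left h3 (Nat.cast_nonneg _)
      have h6 : -1 ≤ ((c - m : ℕ) : ℝ) * -((1 - p) / p) := by
        rw [hcm]
        have : ((c : ℝ) - m) * ((1 - p) / p) ≤ 1 := by
          rw [mul_div_assoc', div_le_one h0]; linarith
        linarith
      linarith
    have e3 : Real.exp (-1) ≤ p ^ (c - m) := by
      rw [e1]; exact Real.exp_le_exp.mpr e2
    have e4 : 3678 / 10000 ≤ Real.exp (-1) := by
      rw [Real.exp_neg]
      have h7 := Real.exp_one_lt_d9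
      have h8 : 0 < Real.exp 1 := Real.exp_pos 1
      rw [← one_div, le_div_iff₀ h8]
      linarith
    linarith
  -- upper bound of `p^c`
  have hw : p ^ c ≤ 4536 / 10000 := by
    have h2 := pow_le_exp_neg h0 h1 c
    have h3 : Real.exp (4 / 5) ≤ Real.exp (c * (1 - p) * (1 + (1 - p) / 2)) := by
      apply Real.exp_le_exp.mpr
      nlinarith
    have h4 := E4_le_exp (show (0 : ℝ) ≤ 4 / 5 by norm_num)
    have h5 : (22053 / 10000 : ℝ) ≤ E4 (4 / 5) := by unfold E4; norm_num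
    have hw0 : 0 < p ^ c := pow_pos h0 c
    have h6 : p ^ c * (22053 / 10000) ≤ 1 := by
      refine le_trans (mul_le_mul_of_nonneg_left ?_ hw0.le) h2
      linarith
    linarith
  have hw0 : 0 < p ^ c := pow_pos h0 c
  -- `p^(a-c) ≥ 4/5`
  have hn : ((a - c : ℕ) : ℝ) = (a : ℝ) - c := by
    rw [Nat.cast_sub (by omega)]
  have hpn : 4 / 5 ≤ p ^ (a - c) := by
    have h2 := one_add_mul_le_pow (show (-2 : ℝ) ≤ p - 1 by linarith) (a - c)
    rw [hn] at h2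
    have e : (1 + (p - 1)) = p := by ring
    rw [e] at h2
    linarith
  have hinv : 1 / p ^ (a - c) - 1 ≤ 1 / 4 := by
    have : 1 / p ^ (a - c) ≤ 5 / 4 := by
      rw [div_le_iff₀ (by linarith)]; linarith
    linarith
  have hρ : p ^ (c - m) - p ^ c ≤ 1 / 4 := by
    have h2 : (p ^ (c - m)) ^ 2 ≤ p ^ c := by
      rw [← pow_mul]
      exact pow_le_pow_of_le_one h0.le h1.le (by omega)
    nlinarith [sq_nonneg (p ^ (c - m) - 1 / 2)]
  have hρ0 : 0 ≤ p ^ (c - m) - p ^ c := by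
    rw [sub_nonneg]
    exact pow_le_pow_of_le_one h0.le h1.le (by omega)
  have hfac : 1 + 4 * ((a : ℝ) - c - 1) * ((1 - p) * p ^ c) * (1 + (p ^ (c - m) - p ^ c))
      ≤ 1 + p ^ c := by
    have e1 : 0 ≤ ((a : ℝ) - c - 1) * (1 - p) := mul_nonneg (by linarith) hq.le
    have e2 : ((a : ℝ) - c - 1) * (1 - p) ≤ 1 / 5 := by nlinarith
    have e3 : ((a : ℝ) - c - 1) * (1 - p) * (1 + (p ^ (c - m) - p ^ c)) ≤ 1 / 5 * (5 / 4) :=
      mul_le_mul e2 (by linarith) (by linarith) (by norm_num)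
    have e4 := mul_le_mul_of_nonneg_left e3 hw0.le
    nlinarith
  have hfac0 : 0 ≤ 1 + 4 * ((a : ℝ) - c - 1) * ((1 - p) * p ^ c)
      * (1 + (p ^ (c - m) - p ^ c)) := by
    have e1 : 0 ≤ ((a : ℝ) - c - 1) := by linarith
    positivity
  have hfin : p ^ (c - m) ≤ 1 / 4 * (1 + p ^ c) :=
    htie.trans (mul_le_mul hinv hfac hfac0 (by norm_num))
  linarith

/-- `e^(-1/5) ≤ .8188` -/
theorem exp_fifth_le : Real.exp (-(1 / 5)) ≤ 8188 / 10000 := by
  rw [Real.exp_neg, ← one_div, div_le_iff₀ (Real.exp_pos _)]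
  have h4 := E4_le_exp (show (0 : ℝ) ≤ 1 / 5 by norm_num)
  have h5 : (12214 / 10000 : ℝ) ≤ E4 (1 / 5) := by unfold E4; norm_num
  linarith

/-- the polynomial inequality for `q < 1/5` -/
theorem polyNegB {C : ℝ} (hC : 4 / 5 ≤ C) (hC2 : C ≤ 2) :
    98256 / 100000 + 8188 / 10000 * C
      ≤ (101 / 100 - 32 / 100 * C)
        * (1 + C + C ^ 2 / 2 + C ^ 3 / 6 + C ^ 4 / 24 + C ^ 5 / 120) := by
  obtain ⟨s, rfl⟩ : ∃ s, C = 4 / 5 + s := ⟨C - 4 / 5, by ring⟩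
  have hs0 : 0 ≤ s := by linarith
  have hs1 : s ≤ 6 / 5 := by linarith
  have h2 : s ^ 3 ≤ 6 / 5 * s ^ 2 := by
    have := mul_le_mul_of_nonneg_right hs1 (pow_nonneg hs0 2)
    nlinarith
  have e2 : s ^ 2 ≤ 36 / 25 := by nlinarith
  have e3 : s ^ 3 ≤ 1728 / 1000 := by nlinarith
  have e4 : s ^ 4 ≤ 20736 / 10000 := by nlinarith [pow_nonneg hs0 3]
  have e5 : s ^ 5 ≤ 24884 / 10000 := by nlinarith [pow_nonneg hs0 4]
  have h4 : s ^ 4 ≤ 1728 / 1000 * s := by nlinarith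
  have h5 : s ^ 5 ≤ 20736 / 10000 * s := by nlinarith
  have h6 : s ^ 6 ≤ 24884 / 10000 * s := by nlinarith
  have key : (101 / 100 - 32 / 100 * (4 / 5 + s))
        * (1 + (4 / 5 + s) + (4 / 5 + s) ^ 2 / 2 + (4 / 5 + s) ^ 3 / 6 + (4 / 5 + s) ^ 4 / 24
          + (4 / 5 + s) ^ 5 / 120) - (98256 / 100000 + 8188 / 10000 * (4 / 5 + s))
      = 940981 / 23437500 + 339487 / 2343750 * s + 45091 / 375000 * s ^ 2
        - 2161 / 25000 * s ^ 3 - 3391 / 60000 * s ^ 4 - 1063 / 60000 * s ^ 5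
        - 1 / 375 * s ^ 6 := by ring
  have h7 : 0 ≤ s ^ 2 := sq_nonneg s
  linarith

/-- the polynomial inequality for `1/5 ≤ q` -/
theorem polyNegC {C : ℝ} (hC : 2 / 3 ≤ C) (hC2 : C ≤ 8 / 5) :
    84 / 100 + 8 / 10 * C ≤ (94 / 100 - 35 / 100 * C) * E4 (11 / 10 * C) := by
  unfold E4
  obtain ⟨u, rfl⟩ : ∃ u, C = 8 / 5 - u := ⟨8 / 5 - C, by ring⟩
  have hu0 : 0 ≤ u := by linarith
  have hu1 : u ≤ 14 / 15 := by linarith
  have key : (94 / 100 - 35 / 100 * (8 / 5 - u))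
        * (1 + (11 / 10 * (8 / 5 - u)) + (11 / 10 * (8 / 5 - u)) ^ 2 / 2
          + (11 / 10 * (8 / 5 - u)) ^ 3 / 6 + (11 / 10 * (8 / 5 - u)) ^ 4 / 24)
        - (84 / 100 + 8 / 10 * (8 / 5 - u))
      = 284101 / 19531250 + 6857153 / 11718750 * u - 19089697 / 18750000 * u ^ 2
        + 424831 / 625000 * u ^ 3 - 2293313 / 12000000 * u ^ 4
        + 102487 / 4800000 * u ^ 5 := by ring
  have e2 : u ^ 2 ≤ 196 / 225 := by nlinarith
  have e3 : u ^ 3 ≤ 814 / 1000 := by nlinarith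
  have h4 : u ^ 4 ≤ 814 / 1000 * u := by nlinarith
  have h5 : 0 ≤ u ^ 5 := pow_nonneg hu0 5
  have h6 : 0 ≤ u * (u - 3 / 4) ^ 2 := mul_nonneg hu0 (sq_nonneg _)
  nlinarith

/-- `e + P` is small, `q < 1/5` -/
theorem eP_smallB {p : ℝ} {a c : ℕ} (h0 : 0 < p) (h1 : p < 1)
    (hC : p < (1 - p) * c) (hC2 : (1 - p) * c ≤ 2 * p) (hq5 : 1 - p < 1 / 5)
    (hν : 1 / 5 ≤ ((a : ℝ) - c) * (1 - p)) :
    p ^ a * (1 + ((a : ℝ) - 2) * (1 - p)) + (1 - p) * p ^ c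
      ≤ 101 / 100 - 32 / 100 * ((1 - p) * c) - 1 / 4 * (1 - p) := by
  have hq : 0 < 1 - p := by linarith
  have hZ := pow_le_exp_neg h0 h1 a
  have hW := pow_le_exp_neg h0 h1 c
  have hZ0 : 0 < p ^ a := pow_pos h0 a
  have hW0 : 0 < p ^ c := pow_pos h0 c
  set q : ℝ := 1 - p with hqd
  set C : ℝ := q * c with hCd
  set t : ℝ := q * a with htd
  have hC45 : 4 / 5 ≤ C := by linarith
  have ht : C + 1 / 5 ≤ t := by rw [htd, hCd]; linarith
  have eZ : (a : ℝ) * q * (1 + q / 2) = t * (1 + q / 2) := by rw [htd]; ring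
  have eW : (c : ℝ) * q * (1 + q / 2) = C * (1 + q / 2) := by rw [hCd]; ring
  rw [eZ] at hZ
  rw [eW] at hW
  set Y : ℝ := Real.exp (-(C * (1 + q / 2))) with hY
  have hY0 : 0 < Y := Real.exp_pos _
  have hWY : p ^ c ≤ Y := by
    rw [hY, Real.exp_neg, ← one_div, le_div_iff₀ (Real.exp_pos _)]; exact hW
  have hZt : p ^ a ≤ Real.exp (-(t * (1 + q / 2))) := by
    rw [Real.exp_neg, ← one_div, le_div_iff₀ (Real.exp_pos _)]; exact hZ
  -- `e ≤ (1 + t0 - 2 q) e^{-1/5} Y`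
  have h3 : 1 + ((a : ℝ) - 2) * q ≤ (6 / 5 + C - 2 * q) * Real.exp (t - (C + 1 / 5)) := by
    have h4 := Real.add_one_le_exp (t - (C + 1 / 5))
    have h5 : 1 + ((a : ℝ) - 2) * q = 1 + t - 2 * q := by rw [htd]; ring
    rw [h5]
    have h6 : 1 ≤ 6 / 5 + C - 2 * q := by linarith
    calc 1 + t - 2 * q ≤ (6 / 5 + C - 2 * q) * (t - (C + 1 / 5) + 1) := by
          nlinarith [mul_nonneg (by linarith : (0 : ℝ) ≤ 6 / 5 + C - 2 * q - 1)
            (by linarith : (0 : ℝ) ≤ t - (C + 1 / 5))]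
      _ ≤ _ := mul_le_mul_of_nonneg_left h4 (by linarith)
  have h30 : 0 ≤ 6 / 5 + C - 2 * q := by linarith
  have he : p ^ a * (1 + ((a : ℝ) - 2) * q) ≤ (6 / 5 + C - 2 * q) * (8188 / 10000) * Y := by
    calc p ^ a * (1 + ((a : ℝ) - 2) * q)
        ≤ p ^ a * ((6 / 5 + C - 2 * q) * Real.exp (t - (C + 1 / 5))) :=
          mul_le_mul_of_nonneg_left h3 hZ0.le
      _ ≤ Real.exp (-(t * (1 + q / 2)))
            * ((6 / 5 + C - 2 * q) * Real.exp (t - (C + 1 / 5))) :=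
          mul_le_mul_of_nonneg_right hZt (mul_nonneg h30 (Real.exp_pos _).le)
      _ = (6 / 5 + C - 2 * q) * Real.exp (-(t * (1 + q / 2)) + (t - (C + 1 / 5))) := by
          rw [Real.exp_add]; ring
      _ ≤ (6 / 5 + C - 2 * q) * Real.exp (-(1 / 5) + -(C * (1 + q / 2))) := by
          refine mul_le_mul_of_nonneg_left (Real.exp_le_exp.mpr ?_) h30
          nlinarith
      _ = (6 / 5 + C - 2 * q) * Real.exp (-(1 / 5)) * Y := by
          rw [Real.exp_add]; ring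
      _ ≤ (6 / 5 + C - 2 * q) * (8188 / 10000) * Y :=
          mul_le_mul_of_nonneg_right (mul_le_mul_of_nonneg_left exp_fifth_le h30) hY0.le
  have h7 : p ^ a * (1 + ((a : ℝ) - 2) * q) + q * p ^ c
      ≤ (98256 / 100000 + 8188 / 10000 * C) * Y := by
    have h8 := mul_le_mul_of_nonneg_left hWY hq.le
    have h9 : 0 ≤ q * Y := mul_nonneg hq.le hY0.le
    nlinarith
  -- `Y E5 (1 + C q/2) ≤ 1`
  set E5 : ℝ := 1 + C + C ^ 2 / 2 + C ^ 3 / 6 + C ^ 4 / 24 + C ^ 5 / 120 with hE5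
  have hC0 : 0 ≤ C := by linarith
  have hE : E5 ≤ Real.exp C := by
    have h := Real.sum_le_exp_of_nonneg hC0 6
    simp only [sum_range_succ, sum_range_zero, Nat.factorial] at h
    norm_num at h
    rw [hE5]
    linarith
  have hE0 : 0 < E5 := by rw [hE5]; positivity
  have hYE : Y * (E5 * (1 + C * q / 2)) ≤ 1 := by
    have h8 : E5 * (1 + C * q / 2) ≤ Real.exp (C * (1 + q / 2)) := by
      have e1 : C * (1 + q / 2) = C + C * q / 2 := by ring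
      rw [e1, Real.exp_add]
      refine mul_le_mul hE ?_ (by positivity) (Real.exp_pos _).le
      have := Real.add_one_le_exp (C * q / 2)
      linarith
    have h9 : Y * Real.exp (C * (1 + q / 2)) = 1 := by
      rw [hY, ← Real.exp_add]; simp
    calc Y * (E5 * (1 + C * q / 2)) ≤ Y * Real.exp (C * (1 + q / 2)) :=
          mul_le_mul_of_nonneg_left h8 hY0.le
      _ = 1 := h9
  have hpoly := polyNegB hC45 (by linarith : C ≤ 2)
  rw [← hE5] at hpoly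
  have hK : 0 ≤ 101 / 100 - 32 / 100 * C - 1 / 4 * q := by linarith
  have h10 : (101 / 100 - 32 / 100 * C)
      ≤ (101 / 100 - 32 / 100 * C - 1 / 4 * q) * (1 + C * q / 2) := by
    have h11 : 0 ≤ -16 / 100 * C ^ 2 + 48 / 100 * C - 1 / 4 := by nlinarith
    have h12 := mul_nonneg hq.le h11
    have h13 : 0 ≤ C * q * (1 / 5 - q) := mul_nonneg (mul_nonneg hC0 hq.le) (by linarith)
    nlinarith
  calc p ^ a * (1 + ((a : ℝ) - 2) * q) + q * p ^ c
      ≤ (98256 / 100000 + 8188 / 10000 * C) * Y := h7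
    _ ≤ ((101 / 100 - 32 / 100 * C) * E5) * Y := mul_le_mul_of_nonneg_right hpoly hY0.le
    _ = (101 / 100 - 32 / 100 * C) * (E5 * Y) := by ring
    _ ≤ (101 / 100 - 32 / 100 * C - 1 / 4 * q) * (1 + C * q / 2) * (E5 * Y) :=
        mul_le_mul_of_nonneg_right h10 (mul_nonneg hE0.le hY0.le)
    _ = (101 / 100 - 32 / 100 * C - 1 / 4 * q) * (Y * (E5 * (1 + C * q / 2))) := by ring
    _ ≤ (101 / 100 - 32 / 100 * C - 1 / 4 * q) * 1 := mul_le_mul_of_nonneg_left hYE hK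
    _ = _ := by ring

/-- `e + P` is small, `q ≥ 1/5` -/
theorem eP_smallC {p : ℝ} {a c : ℕ} (h0 : 0 < p) (h1 : p < 1) (hc : 2 ≤ c) (hca : c < a)
    (hC : p < (1 - p) * c) (hC2 : (1 - p) * c ≤ 2 * p) (hq5 : 1 / 5 ≤ 1 - p) :
    p ^ a * (1 + ((a : ℝ) - 2) * (1 - p)) + (1 - p) * p ^ c
      ≤ 94 / 100 - 35 / 100 * ((1 - p) * c) := by
  have hq : 0 < 1 - p := by linarith
  have hW := pow_le_exp_neg h0 h1 c
  have hW0 : 0 < p ^ c := pow_pos h0 c
  have hc2 : (2 : ℝ) ≤ c := by exact_mod_cast hc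
  have hca' : (c : ℝ) + 1 ≤ a := by exact_mod_cast hca
  -- `e ≤ (1 + (c-1) q) p p^c`
  have he : p ^ a * (1 + ((a : ℝ) - 2) * (1 - p)) ≤ p ^ c * (p * (1 + ((c : ℝ) - 1) * (1 - p))) := by
    obtain ⟨k, rfl⟩ : ∃ k, a = c + 1 + k := ⟨a - c - 1, by omega⟩
    have h2 := pow_mul_le_one h0 h1 k
    have hk0 : (0 : ℝ) ≤ k := Nat.cast_nonneg k
    have h3 : 1 + (((c + 1 + k : ℕ) : ℝ) - 2) * (1 - p)
        ≤ (1 + ((c : ℝ) - 1) * (1 - p)) * (1 + k * (1 - p)) := by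
      push_cast
      have : 0 ≤ ((c : ℝ) - 1) * (1 - p) * (k * (1 - p)) :=
        mul_nonneg (mul_nonneg (by linarith) hq.le) (mul_nonneg hk0 hq.le)
      nlinarith
    have h4 : 0 ≤ 1 + ((c : ℝ) - 1) * (1 - p) := by
      have : 0 ≤ ((c : ℝ) - 1) * (1 - p) := mul_nonneg (by linarith) hq.le
      linarith
    calc p ^ (c + 1 + k) * (1 + (((c + 1 + k : ℕ) : ℝ) - 2) * (1 - p))
        ≤ p ^ (c + 1 + k) * ((1 + ((c : ℝ) - 1) * (1 - p)) * (1 + k * (1 - p))) :=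
          mul_le_mul_of_nonneg_left h3 (pow_pos h0 _).le
      _ = p ^ c * (p * (1 + ((c : ℝ) - 1) * (1 - p))) * (p ^ k * (1 + k * (1 - p))) := by
          rw [pow_add, pow_succ]; ring
      _ ≤ p ^ c * (p * (1 + ((c : ℝ) - 1) * (1 - p))) * 1 :=
          mul_le_mul_of_nonneg_left h2 (by positivity)
      _ = _ := by ring
  set q : ℝ := 1 - p with hqd
  set C : ℝ := q * c with hCd
  have hCq : 2 * q ≤ C := by rw [hCd]; nlinarith
  have hC23 : 2 / 3 ≤ C := by linarith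
  have hC85 : C ≤ 8 / 5 := by linarith
  have hpq : p = 1 - q := by rw [hqd]; ring
  have h5 : p ^ a * (1 + ((a : ℝ) - 2) * q) + q * p ^ c ≤ p ^ c * (84 / 100 + 8 / 10 * C) := by
    have e1 : p * (1 + ((c : ℝ) - 1) * q) + q = 1 - q + q ^ 2 + C * (1 - q) := by
      rw [hCd, hpq]; ring
    have h6 : 1 - q + q ^ 2 + C * (1 - q) ≤ 84 / 100 + 8 / 10 * C := by
      have hq2 : q ≤ 1 / 2 := by linarith
      nlinarith [mul_nonneg (by linarith : (0 : ℝ) ≤ q - 1 / 5) (by linarith : (0 : ℝ) ≤ 4 / 5 - q),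
        mul_nonneg (by linarith : (0 : ℝ) ≤ C) (by linarith : (0 : ℝ) ≤ q - 1 / 5)]
    have h7 := mul_le_mul_of_nonneg_left h6 hW0.le
    rw [← e1] at h7
    nlinarith
  have hpoly := polyNegC hC23 hC85
  have hE := E4_le_exp (show (0 : ℝ) ≤ 11 / 10 * C by linarith)
  have hWE : p ^ c * E4 (11 / 10 * C) ≤ 1 := by
    refine le_trans (mul_le_mul_of_nonneg_left (hE.trans (Real.exp_le_exp.mpr ?_)) hW0.le) hW
    have e1 : (c : ℝ) * q * (1 + q / 2) = C * (1 + q / 2) := by rw [hCd]; ring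
    rw [e1]
    nlinarith
  have hK : 0 ≤ 94 / 100 - 35 / 100 * C := by linarith
  calc p ^ a * (1 + ((a : ℝ) - 2) * q) + q * p ^ c
      ≤ p ^ c * (84 / 100 + 8 / 10 * C) := h5
    _ ≤ p ^ c * ((94 / 100 - 35 / 100 * C) * E4 (11 / 10 * C)) :=
        mul_le_mul_of_nonneg_left hpoly hW0.le
    _ = (94 / 100 - 35 / 100 * C) * (p ^ c * E4 (11 / 10 * C)) := by ring
    _ ≤ (94 / 100 - 35 / 100 * C) * 1 := mul_le_mul_of_nonneg_left hWE hK
    _ = _ := by ring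

/-- the real inequality for `q (c - m) < p < q c` -/
theorem thinReal_neg {p : ℝ} {a c m : ℕ} {OA OB R : ℝ} (h0 : 0 < p) (h1 : p < 1)
    (hca : c < a) (hm : 2 * m ≤ c)
    (htie : p ^ (c - m) ≤ (1 / p ^ (a - c) - 1) * (1 + 4 * ((a : ℝ) - c - 1)
      * ((1 - p) * p ^ c) * (1 + (p ^ (c - m) - p ^ c))))
    (hOA : 1 / 2 ≤ OA) (hOB : 1 / 2 ≤ OB) (hOB1 : OB ≤ 1)
    (hOBe : OB ≤ (1 + p ^ a * (1 + ((a : ℝ) - 2) * (1 - p)) + (1 - p) * p ^ c) / 2)
    (hR : R ≤ (p ^ (c - m) - p ^ c) * (1 + 2 * ((c + 1) * ((1 - p) * p ^ c))) * OB)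
    (hC : p < (1 - p) * c) (hV : (1 - p) * (c - m) < p) :
    0 < (a * (1 - p) / (1 - p ^ a) - p) * OA - ((1 - p) * c - p) * OB
      + ((1 - p) * (c - m) - p) * R := by
  have hq : 0 < 1 - p := by linarith
  have hm1 : 1 ≤ m := by
    by_contra hcon
    have : m = 0 := by omega
    subst this
    simp only [Nat.cast_zero, sub_zero] at hV
    linarith
  have hc2 : 2 ≤ c := by omega
  have hk := rho_mul_le h0 h1 (by omega : 1 ≤ c) hm
  have hm' : 2 * (m : ℝ) ≤ c := by exact_mod_cast hm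
  have hca' : (c : ℝ) + 1 ≤ a := by exact_mod_cast hca
  have hc2' : (2 : ℝ) ≤ c := by exact_mod_cast hc2
  have hC2 : (1 - p) * c ≤ 2 * p := by
    have : (1 - p) * (c / 2) ≤ (1 - p) * (c - m) :=
      mul_le_mul_of_nonneg_left (by linarith) hq.le
    linarith
  have hφ1 := phi_ge h0 h1 (show 1 ≤ a by omega)
  have hR2 : R ≤ 1 / 2 * OB := hR.trans (mul_le_mul_of_nonneg_right hk (by linarith))
  -- the last term
  have h2 : -((p - ((1 - p) * c - p)) / 2) * (1 / 2 * OB) ≤ ((1 - p) * (c - m) - p) * R := by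
    have e1 : ((1 - p) * (c - m) - p) * (1 / 2 * OB) ≤ ((1 - p) * (c - m) - p) * R :=
      mul_le_mul_of_nonpos_left hR2 (by linarith)
    have e2 : -((p - ((1 - p) * c - p)) / 2) ≤ (1 - p) * (c - m) - p := by
      have : (1 - p) * (c / 2) ≤ (1 - p) * (c - m) :=
        mul_le_mul_of_nonneg_left (by linarith) hq.le
      linarith
    exact (mul_le_mul_of_nonneg_right e2 (by linarith)).trans e1
  set φ : ℝ := a * (1 - p) / (1 - p ^ a) - p with hφd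
  have hφ0 : 0 ≤ φ := le_trans (by positivity) hφ1
  have h3 : φ / 2 ≤ φ * OA := by nlinarith
  -- it suffices to bound `φ`
  suffices hmain : (3 * ((1 - p) * c) - 2 + 2 * (1 - p)) / 2 * OB < φ by
    nlinarith
  have hco : 0 ≤ 3 * ((1 - p) * c) - 2 + 2 * (1 - p) := by nlinarith
  rcases le_or_gt ((a : ℝ) * (1 - p)) 4 with h4 | h4
  swap
  · -- `a q > 4`
    have h5 : (3 * ((1 - p) * c) - 2 + 2 * (1 - p)) / 2 * OB ≤ 2 * p * 1 := by
      refine mul_le_mul (by linarith) hOB1 (by linarith) (by linarith)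
    nlinarith
  have hφ := phi_ge_sharp h0 h1 (show 1 ≤ a by omega) h4
  rw [← hφd] at hφ
  rcases lt_or_ge (1 - p) (1 / 5) with hq5 | hq5
  · have hν := nu_ge h0 h1 hca hm htie hC hV hq5
    have hS := eP_smallB (a := a) h0 h1 hC hC2 hq5 hν
    have h5 : (3 * ((1 - p) * c) - 2 + 2 * (1 - p)) / 2 * OB
        ≤ (3 * ((1 - p) * c) - 2 + 2 * (1 - p)) / 2
          * ((1 + (101 / 100 - 32 / 100 * ((1 - p) * c) - 1 / 4 * (1 - p))) / 2) :=
      mul_le_mul_of_nonneg_left (by linarith) (by linarith)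
    refine lt_of_le_of_lt h5 (lt_of_lt_of_le ?_ hφ)
    set q : ℝ := 1 - p with hqd
    set C : ℝ := q * c with hCd
    have ht : C + 1 / 5 ≤ a * q := by rw [hCd]; linarith
    have e1 : ((a : ℝ) + 1) * q / 2 + ((a : ℝ) ^ 2 - 1) * q ^ 2 / 16
        = ((a * q) + q) / 2 + ((a * q) ^ 2 - q ^ 2) / 16 := by ring
    rw [e1]
    have hC0 : 0 ≤ C := by linarith
    have e2 : (C + 1 / 5) ^ 2 ≤ (a * q) ^ 2 := pow_le_pow_left₀ (by linarith) ht 2
    have e3 : 0 ≤ (1 / 5 - q) * (C - 457 / 242) ^ 2 :=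
      mul_nonneg (by linarith) (sq_nonneg _)
    have e4 : 0 ≤ q * (C - 1073 / 605) ^ 2 := mul_nonneg hq.le (sq_nonneg _)
    nlinarith [sq_nonneg q]
  · have hS := eP_smallC h0 h1 hc2 hca hC hC2 hq5
    have h5 : (3 * ((1 - p) * c) - 2 + 2 * (1 - p)) / 2 * OB
        ≤ (3 * ((1 - p) * c) - 2 + 2 * (1 - p)) / 2
          * ((1 + (94 / 100 - 35 / 100 * ((1 - p) * c))) / 2) :=
      mul_le_mul_of_nonneg_left (by linarith) (by linarith)
    refine lt_of_le_of_lt h5 (lt_of_lt_of_le ?_ hφ)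
    set q : ℝ := 1 - p with hqd
    set C : ℝ := q * c with hCd
    have ht : C + q ≤ a * q := by rw [hCd]; nlinarith
    have e1 : ((a : ℝ) + 1) * q / 2 + ((a : ℝ) ^ 2 - 1) * q ^ 2 / 16
        = ((a * q) + q) / 2 + ((a * q) ^ 2 - q ^ 2) / 16 := by ring
    rw [e1]
    have hC0 : 0 ≤ C := by linarith
    have e2 : (C + q) ^ 2 ≤ (a * q) ^ 2 := pow_le_pow_left₀ (by linarith) ht 2
    have e3 : 0 ≤ C * (q - 1 / 5) := mul_nonneg hC0 (by linarith)
    nlinarith [sq_nonneg (C - 107 / 65)]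

end Coin
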