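import Pool.Agent.Lib.Coin.ThinA
import Pool.Agent.Lib.Coin.ThinE
import Pool.Agent.Lib.Coin.ThinR1
import Pool.Agent.Lib.Coin.ThinRneg
import Pool.Agent.Lib.Coin.IncFull

/-!
# Coin race: the thin case and `IncFull`
-/

namespace Coin

open Finset

/-- the real inequality of the thin case for `p < q c`, `p ≤ q (c - m)` -/
def ThinRealV : Prop := ∀ (p : ℝ) (a c m : ℕ) (OA OB R : ℝ), 0 < p → p < 1 → 1 ≤ c → c < a →
  2 * m ≤ c →
  p ^ (c - m) ≤ (1 / p ^ (a - c) - 1) * (1 + 4 * ((a : ℝ) - c - 1) * ((1 - p) * p ^ c)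
    * (1 + (p ^ (c - m) - p ^ c))) →
  (1 + c * ((1 - p) * p ^ c) * (max 0 (1 - (p ^ (c - m) - p ^ c)
    * (1 + 2 * ((c + 1) * ((1 - p) * p ^ c))))) ^ 2) / 2 ≤ OA →
  OA ≤ 1 → 1 / 2 ≤ OB → OB ≤ 1 →
  OB ≤ (1 + p ^ a * (1 + ((a : ℝ) - 2) * (1 - p)) + (1 - p) * p ^ c) / 2 →
  0 ≤ R → R ≤ (p ^ (c - m) - p ^ c) * (1 + 2 * ((c + 1) * ((1 - p) * p ^ c))) * OB →
  p < (1 - p) * c → p ≤ (1 - p) * (c - m) →
  0 < (a * (1 - p) / (1 - p ^ a) - p) * OA - ((1 - p) * c - p) * OB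
    + ((1 - p) * (c - m) - p) * R

theorem thinReal_of_V (hV : ThinRealV) : ThinReal := by
  intro p a c m OA OB R h0 h1 hc hca hm htie hOA hOA1 hOB hOB1 hOBe hR0 hR
  have hOA2 : 1 / 2 ≤ OA := by
    refine le_trans ?_ hOA
    have hq : 0 < 1 - p := by linarith
    have : 0 ≤ (c : ℝ) * ((1 - p) * p ^ c) * (max 0 (1 - (p ^ (c - m) - p ^ c)
      * (1 + 2 * ((c + 1) * ((1 - p) * p ^ c))))) ^ 2 := by positivity
    linarith
  rcases le_or_gt ((1 - p) * (c : ℝ)) p with h | h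
  · have h2 := thin_real_low h0 h1 hc hca hm (by linarith) hOA2 hOB hOB1 hR
    have e1 : (1 - p) * (c : ℝ) = c * (1 - p) := mul_comm _ _
    have e2 : (1 - p) * ((c : ℝ) - m) = (c - m) * (1 - p) := mul_comm _ _
    rw [e1, e2]
    exact h2
  · rcases le_or_gt p ((1 - p) * ((c : ℝ) - m)) with h3 | h3
    · exact hV p a c m OA OB R h0 h1 hc hca hm htie hOA hOA1 hOB hOB1 hOBe hR0 hR h h3
    · exact thinReal_neg h0 h1 hca hm htie hOA2 hOB hOB1 hOBe hR h h3

theorem thin_of_V (hV : ThinRealV) : Thin := by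
  refine thin_of_real (thinReal_of_V hV) ?_ ?_
  · intro p a B h0 h1 ha hB hG
    exact Om_le_mean_hh h0 h1 ha hB hG
  · intro p a m B h0 h1 hB hc hca hm hbd hG
    obtain ⟨m', hm', hbd', hcf', -⟩ := thin_bd h0 h1 hB
    have hlen : B.length = B.count true + B.count false := (count_add B).symm
    have hmm : m = m' := by
      rcases lt_trichotomy m m' with h | h | h
      · exfalso
        have h2 := (hbd' m').mpr (Or.inr ⟨by omega, le_rfl⟩)
        rcases (hbd m').mp h2 with h3 | h3 <;> omega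
      · exact h
      · exfalso
        have h2 := (hbd m).mpr (Or.inr ⟨by omega, le_rfl⟩)
        rcases (hbd' m).mp h2 with h3 | h3 <;> omega
    subst hmm
    exact thin_tie h0 h1 hB hca (by omega) hbd hcf' hG

theorem incFull_of_V (hV : ThinRealV) : IncFull := incFull_of_thin (thin_of_V hV)

end Coin
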