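import Pool.Agent.Lib.Coin.ThinE

/-!
# Coin race: the real inequality of the thin case for `q c > p`, common part and `m = 0`

Letters: `L = q c`, `D = q (a - c)`, `w = p ^ c`, `P = p ^ (a - c)`.
-/

namespace Coin

open Finset

/-- lower bound of `a q / (1 - p^a) - p` -/
theorem phi_ge' {p : ℝ} (h0 : 0 < p) (h1 : p < 1) {a : ℕ} (ha : 1 ≤ a) :
    (a : ℝ) * (1 - p) * (1 + p ^ a) - p ≤ a * (1 - p) / (1 - p ^ a) - p := by
  have hpa : 0 < 1 - p ^ a := by
    have : p ^ a < 1 := pow_lt_one₀ h0.le h1 (by omega)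
    linarith
  have hA : 0 < p ^ a := pow_pos h0 a
  have hx : 0 ≤ (a : ℝ) * (1 - p) := mul_nonneg (Nat.cast_nonneg a) (by linarith)
  have : (a : ℝ) * (1 - p) * (1 + p ^ a) ≤ a * (1 - p) / (1 - p ^ a) := by
    rw [le_div_iff₀ hpa]
    nlinarith [mul_nonneg hx (mul_pos hA hA).le]
  linarith

/-- the common lower bound for `q c > p`, `q (c - m) ≥ p` -/
theorem thin_core {p : ℝ} (h0 : 0 < p) (h1 : p < 1) {a c : ℕ} (hc : 1 ≤ c) (hca : c < a)
    (hhi : p < (1 - p) * c) {OA OB th : ℝ} (hth0 : 0 ≤ th) (hth : th ≤ 1 / 2)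
    (hOA : (1 + c * ((1 - p) * p ^ c) * (max 0 (1 - th)) ^ 2) / 2 ≤ OA)
    (hOB : OB ≤ (1 + p ^ a * (1 + ((a : ℝ) - 2) * (1 - p)) + (1 - p) * p ^ c) / 2) :
    ((a : ℝ) - c) * (1 - p) * (1 + p ^ c * p ^ (a - c) * (1 - ((1 - p) * c - p))
        + (1 - p) * c * p ^ c * (1 - 2 * th))
      + p ^ c * (p ^ (a - c) * ((1 - p) * ((1 - p) * c) + p ^ 2)
        + (1 - p ^ (a - c)) * ((1 - p) * c - p) * ((1 - p) * c - (1 - p))
        - 2 * th * ((1 - p) * c) * ((1 - p) * c - p))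
      ≤ 2 * ((a * (1 - p) / (1 - p ^ a) - p) * OA - ((1 - p) * c - p) * OB) := by
  have hq : 0 < 1 - p := by linarith
  have hφ := phi_ge' h0 h1 (a := a) (by omega)
  have hA : p ^ a = p ^ c * p ^ (a - c) := by rw [← pow_add]; congr 1; omega
  have hw : 0 < p ^ c := pow_pos h0 c
  have hP : 0 < p ^ (a - c) := pow_pos h0 _
  have hP1 : p ^ (a - c) ≤ 1 := pow_le_one₀ h0.le h1.le
  have hca' : (c : ℝ) + 1 ≤ a := by exact_mod_cast hca
  have hc1 : (1 : ℝ) ≤ c := by exact_mod_cast hc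
  rw [hA] at hφ hOB ⊢
  set w := p ^ c with hwd
  set P := p ^ (a - c) with hPd
  set L : ℝ := (1 - p) * c with hL
  set D : ℝ := ((a : ℝ) - c) * (1 - p) with hD
  have hD0 : 0 ≤ D := mul_nonneg (by linarith) hq.le
  have hL0 : 0 < L := by rw [hL]; positivity
  have ha : (a : ℝ) * (1 - p) = L + D := by rw [hL, hD]; ring
  have hmax : max 0 (1 - th) = 1 - th := max_eq_right (by linarith)
  rw [hmax] at hOA
  have hsq : 1 - 2 * th ≤ (1 - th) ^ 2 := by nlinarith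
  have hOA' : (1 + L * w * (1 - 2 * th)) / 2 ≤ OA := by
    refine le_trans ?_ hOA
    have : L * w * (1 - 2 * th) ≤ L * w * (1 - th) ^ 2 :=
      mul_le_mul_of_nonneg_left hsq (by positivity)
    have e : (c : ℝ) * ((1 - p) * w) * (1 - th) ^ 2 = L * w * (1 - th) ^ 2 := by rw [hL]; ring
    rw [e]; linarith
  have hOB' : OB ≤ (1 + w * P * (1 + L + D - 2 * (1 - p)) + (1 - p) * w) / 2 := by
    refine hOB.trans (le_of_eq ?_)
    have : ((a : ℝ) - 2) * (1 - p) = L + D - 2 * (1 - p) := by rw [← ha]; ring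
    rw [this]; ring
  rw [ha] at hφ ⊢
  set φ := (L + D) / (1 - w * P) - p
  have hφ0 : 0 ≤ (L + D) * (1 + w * P) - p := by
    have : 0 ≤ (L + D) * (w * P) := by positivity
    nlinarith
  have hOA0 : 0 ≤ (1 + L * w * (1 - 2 * th)) / 2 := by
    have : 0 ≤ L * w * (1 - 2 * th) := mul_nonneg (by positivity) (by linarith)
    linarith
  have h1' : ((L + D) * (1 + w * P) - p) * ((1 + L * w * (1 - 2 * th)) / 2) ≤ φ * OA :=
    mul_le_mul hφ hOA' hOA0 (hφ0.trans hφ)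
  have h2' : (L - p) * OB
      ≤ (L - p) * ((1 + w * P * (1 + L + D - 2 * (1 - p)) + (1 - p) * w) / 2) :=
    mul_le_mul_of_nonneg_left hOB' (by linarith)
  have h3' : 0 ≤ (L + D) * (w * P) * (L * w * (1 - 2 * th)) :=
    mul_nonneg (by positivity) (mul_nonneg (by positivity) (by linarith))
  nlinarith

/-- the real inequality for `q c > p`, `m = 0` -/
theorem thinReal_m0 {p : ℝ} (h0 : 0 < p) (h1 : p < 1) {a c : ℕ} (hc : 1 ≤ c) (hca : c < a)
    (hhi : p < (1 - p) * c) {OA OB R : ℝ}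
    (hOA : (1 + c * ((1 - p) * p ^ c) * (max 0 (1 - (p ^ (c - 0) - p ^ c)
      * (1 + 2 * ((c + 1) * ((1 - p) * p ^ c))))) ^ 2) / 2 ≤ OA)
    (hOB : OB ≤ (1 + p ^ a * (1 + ((a : ℝ) - 2) * (1 - p)) + (1 - p) * p ^ c) / 2)
    (hR0 : 0 ≤ R) :
    0 < (a * (1 - p) / (1 - p ^ a) - p) * OA - ((1 - p) * c - p) * OB
      + ((1 - p) * (c - (0 : ℕ)) - p) * R := by
  have hq : 0 < 1 - p := by linarith
  have e0 : (p ^ (c - 0) - p ^ c) * (1 + 2 * (((c : ℝ) + 1) * ((1 - p) * p ^ c))) = 0 := by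
    rw [Nat.sub_zero, sub_self, zero_mul]
  rw [e0] at hOA
  have h := thin_core h0 h1 hc hca hhi le_rfl (by norm_num : (0 : ℝ) ≤ 1 / 2) hOA hOB
  have hw : 0 < p ^ c := pow_pos h0 c
  have hP : 0 < p ^ (a - c) := pow_pos h0 _
  have hP1 : p ^ (a - c) ≤ 1 := pow_le_one₀ h0.le h1.le
  have hca' : (c : ℝ) + 1 ≤ a := by exact_mod_cast hca
  have hc1 : (1 : ℝ) ≤ c := by exact_mod_cast hc
  have hV : 0 ≤ ((1 - p) * (c - (0 : ℕ)) - p) * R := by
    apply mul_nonneg _ hR0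
    push_cast; linarith
  set w := p ^ c
  set P := p ^ (a - c)
  set L : ℝ := (1 - p) * c with hL
  set D : ℝ := ((a : ℝ) - c) * (1 - p) with hD
  have hD0 : 0 < D := mul_pos (by linarith) hq
  have hL0 : 0 < L := by rw [hL]; positivity
  have hLq : 0 ≤ L - (1 - p) := by rw [hL]; nlinarith
  have hw1 : w ≤ 1 := pow_le_one₀ h0.le h1.le
  -- first brace
  have t1 : 0 < D * (1 + w * P * (1 - (L - p)) + L * w * (1 - 2 * 0)) := by
    apply mul_pos hD0
    have : w * P ≤ w := by nlinarith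
    nlinarith [mul_nonneg hw.le hL0.le, mul_pos hw hP, mul_nonneg (mul_pos hw hP).le hL0.le,
      mul_le_mul_of_nonneg_right this hL0.le]
  have t2 : 0 ≤ w * (P * ((1 - p) * L + p ^ 2) + (1 - P) * (L - p) * (L - (1 - p))
      - 2 * 0 * L * (L - p)) := by
    apply mul_nonneg hw.le
    have a1 : 0 ≤ P * ((1 - p) * L + p ^ 2) := by positivity
    have a2 : 0 ≤ (1 - P) * (L - p) * (L - (1 - p)) :=
      mul_nonneg (mul_nonneg (by linarith) (by linarith)) hLq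
    linarith
  have h5 := lt_of_lt_of_le (add_pos_of_pos_of_nonneg t1 t2) h
  have h6 := (mul_pos_iff_of_pos_left (by norm_num : (0 : ℝ) < 2)).1 h5
  exact add_pos_of_pos_of_nonneg h6 hV

end Coin
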