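import Pool.Agent.Lib.Coin.Deriv

/-!
# Coin race: the weights on all integers and two exact linear recurrences

`WZ a b k = P(A + B - B' ∈ {k, k - 1})` for `k : ℤ`.
* `WZ_F1`: renewal identity in the subtracted slot.
* `WZ_R`: renewal identity in the slot of `A` and the symmetry of `B - B'` (reflection `k ↦ 1 - k`).
-/

namespace Coin

open Finset

/-- extension by zero to the integers -/
noncomputable def zx (a : ℕ → ℝ) (n : ℤ) : ℝ := if 0 ≤ n then a n.toNat else 0

/-- `P(C - B = k)` -/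
noncomputable def cr (c b : ℕ → ℝ) (k : ℤ) : ℝ := ∑' n : ℕ, b n * zx c (n + k)

/-- `P(A + B - B' = k)` -/
noncomputable def FZ (a b : ℕ → ℝ) (k : ℤ) : ℝ := cr (conv a b) b k

/-- `P(A + B - B' ∈ {k, k - 1})` -/
noncomputable def WZ (a b : ℕ → ℝ) (k : ℤ) : ℝ := FZ a b k + FZ a b (k - 1)

theorem zx_natCast (a : ℕ → ℝ) (n : ℕ) : zx a (n : ℤ) = a n := by simp [zx]

theorem zx_neg (a : ℕ → ℝ) {n : ℤ} (h : n < 0) : zx a n = 0 := by simp [zx, not_le.2 h]

theorem zx_of_nonneg (a : ℕ → ℝ) {n : ℤ} (h : 0 ≤ n) : zx a n = a n.toNat := by simp [zx, h]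

theorem zx_nonneg {a : ℕ → ℝ} (ha : ∀ n, 0 ≤ a n) (n : ℤ) : 0 ≤ zx a n := by
  unfold zx; split_ifs
  · exact ha _
  · exact le_rfl

theorem zx_le_one {a : ℕ → ℝ} (ha : ∀ n, a n ≤ 1) (n : ℤ) : zx a n ≤ 1 := by
  unfold zx; split_ifs
  · exact ha _
  · exact zero_le_one

/-- `∑_n zx a (n + k)` converges -/
theorem summable_zx {a : ℕ → ℝ} (ha : IsProb a) (k : ℤ) : Summable (fun n : ℕ => zx a (n + k)) := by
  rcases le_or_gt 0 k with hk | hk
  · have : (fun n : ℕ => zx a (n + k)) = fun n : ℕ => a (n + k.toNat) := by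
      funext n
      rw [zx_of_nonneg a (by omega)]
      congr 1
      omega
    rw [this]
    exact (summable_nat_add_iff (f := a) k.toNat).mpr ha.summable
  · rw [← summable_nat_add_iff (f := fun n : ℕ => zx a (n + k)) (-k).toNat]
    have : (fun n : ℕ => zx a (((n + (-k).toNat : ℕ) : ℤ) + k)) = a := by
      funext n
      rw [zx_of_nonneg a (by push_cast; omega)]
      congr 1
      push_cast
      omega
    rw [this]
    exact ha.summable

theorem summable_cr {c b : ℕ → ℝ} (hc : IsProb c) (hb : IsProb b) (k : ℤ) :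
    Summable (fun n : ℕ => b n * zx c (n + k)) :=
  Summable.of_nonneg_of_le (fun n => mul_nonneg (hb.nonneg n) (zx_nonneg hc.nonneg _))
    (fun n => mul_le_of_le_one_left (zx_nonneg hc.nonneg _) (hb.le_one n)) (summable_zx hc k)

theorem cr_nonneg {c b : ℕ → ℝ} (hc : IsProb c) (hb : IsProb b) (k : ℤ) : 0 ≤ cr c b k :=
  tsum_nonneg (fun n => mul_nonneg (hb.nonneg n) (zx_nonneg hc.nonneg _))

theorem cr_le_one {c b : ℕ → ℝ} (hc : IsProb c) (hb : IsProb b) (k : ℤ) : cr c b k ≤ 1 := by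
  rw [← hb.tsum]
  exact (summable_cr hc hb k).tsum_le_tsum
    (fun n => mul_le_of_le_one_right (hb.nonneg n) (zx_le_one hc.le_one _)) hb.summable

/-- shift of the summation index -/
theorem cr_shift {c b : ℕ → ℝ} (hc : IsProb c) (hb : IsProb b) {j : ℕ} (h0 : ∀ m < j, b m = 0)
    (k : ℤ) : cr c b (k - j) = ∑' n : ℕ, b (n + j) * zx c (n + k) := by
  unfold cr
  rw [← (summable_cr hc hb (k - j)).sum_add_tsum_nat_add j]
  have h1 : ∑ i ∈ range j, b i * zx c (i + (k - j)) = 0 :=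
    sum_eq_zero (fun i hi => by rw [h0 i (mem_range.mp hi), zero_mul])
  rw [h1, zero_add]
  refine tsum_congr (fun n => ?_)
  rw [show ((n + j : ℕ) : ℤ) + (k - j) = n + k by push_cast; ring]

/-- the renewal identity in the subtracted slot, summed form -/
theorem cr_renewal {c b : ℕ → ℝ} {K : Finset ℕ} {kap : ℕ → ℝ} (hc : IsProb c) (hb : IsProb b)
    (rb : Ren K kap b) (k : ℤ) :
    ∑ j ∈ K, kap j * cr c b (k - j) = ∑' n : ℕ, srv b n * zx c (n + k) := by
  have hs : ∀ j, Summable (fun n : ℕ => b (n + j) * zx c (n + k)) := fun j =>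
    Summable.of_nonneg_of_le (fun n => mul_nonneg (hb.nonneg _) (zx_nonneg hc.nonneg _))
      (fun n => mul_le_of_le_one_left (zx_nonneg hc.nonneg _) (hb.le_one _)) (summable_zx hc k)
  have h1 : ∀ j ∈ K, kap j * cr c b (k - j) = ∑' n : ℕ, kap j * (b (n + j) * zx c (n + k)) := by
    intro j hj
    rw [cr_shift hc hb (rb.van j hj), tsum_mul_left]
  rw [sum_congr rfl h1, ← Summable.tsum_finsetSum (fun j _ => (hs j).mul_left (kap j))]
  refine tsum_congr (fun n => ?_)
  rw [← rb.eq, sum_mul]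
  exact sum_congr rfl (fun j _ => by ring)

/-- the renewal identity in the subtracted slot -/
theorem cr_F1 {c b : ℕ → ℝ} {K : Finset ℕ} {kap : ℕ → ℝ} (hc : IsProb c) (hb : IsProb b)
    (rb : Ren K kap b) {k : ℤ} (hk : zx c k = 0) :
    cr c b k = ∑ j ∈ K, kap j * (cr c b (k + 1 - j) - cr c b (k - j)) := by
  have hss : ∀ k : ℤ, Summable (fun n : ℕ => srv b n * zx c (n + k)) := fun k =>
    Summable.of_nonneg_of_le (fun n => mul_nonneg (hb.srv_nonneg _) (zx_nonneg hc.nonneg _))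
      (fun n => mul_le_of_le_one_left (zx_nonneg hc.nonneg _) (hb.srv_le_one _)) (summable_zx hc k)
  have e1 := cr_renewal hc hb rb (k + 1)
  have e2 := cr_renewal hc hb rb k
  have e3 : ∑ j ∈ K, kap j * (cr c b (k + 1 - j) - cr c b (k - j))
      = ∑ j ∈ K, kap j * cr c b (k + 1 - j) - ∑ j ∈ K, kap j * cr c b (k - j) := by
    rw [← sum_sub_distrib]
    exact sum_congr rfl (fun j _ => by ring)
  rw [e3, e1, e2, (hss k).tsum_eq_zero_add]
  have h0 : zx c ((0 : ℕ) + k) = 0 := by simpa using hk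
  rw [h0, mul_zero, zero_add]
  have hs1 : Summable (fun n : ℕ => srv b (n + 1) * zx c (((n + 1 : ℕ) : ℤ) + k)) :=
    (summable_nat_add_iff (f := fun n : ℕ => srv b n * zx c (n + k)) 1).mpr (hss k)
  rw [← (hss (k + 1)).tsum_sub hs1]
  unfold cr
  rw [(summable_cr hc hb k).tsum_eq_zero_add, hb.zero, zero_mul, zero_add]
  refine tsum_congr (fun n => ?_)
  rw [show ((n + 1 : ℕ) : ℤ) + k = n + (k + 1) by push_cast; ring]
  have : b (n + 1) = srv b n - srv b (n + 1) := by
    simp only [srv, sum_range_succ]; ring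
  rw [this]; ring

theorem zx_conv (a b : ℕ → ℝ) (N : ℤ) : zx (conv a b) N = ∑' i : ℕ, a i * zx b (N - i) := by
  rcases lt_or_ge N 0 with h | h
  · rw [zx_neg _ h]
    symm
    rw [← tsum_zero (α := ℝ) (β := ℕ)]
    refine tsum_congr (fun i => ?_)
    rw [zx_neg b (by omega), mul_zero]
  · obtain ⟨n, rfl⟩ := Int.eq_ofNat_of_zero_le h
    rw [zx_natCast, conv_eq_range, tsum_eq_sum (s := range (n + 1))]
    · refine sum_congr rfl (fun i hi => ?_)
      have : i ≤ n := by have := mem_range.mp hi; omega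
      rw [zx_of_nonneg b (by omega)]
      congr 2
      omega
    · intro i hi
      have : n < i := by
        by_contra h2
        exact hi (mem_range.mpr (by omega))
      rw [zx_neg b (by omega), mul_zero]

/-- `FZ` as a mixture over the law of `A` -/
theorem FZ_eq {a b : ℕ → ℝ} (ha : IsProb a) (hb : IsProb b) (n : ℤ) :
    FZ a b n = ∑' i : ℕ, a i * cr b b (n - i) := by
  set F : ℕ → ℕ → ℝ := fun m i => b m * (a i * zx b (m + n - i)) with hF
  have hF0 : ∀ m i, 0 ≤ F m i := fun m i =>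
    mul_nonneg (hb.nonneg _) (mul_nonneg (ha.nonneg _) (zx_nonneg hb.nonneg _))
  have hF1 : ∀ m i, F m i ≤ b m * a i := fun m i =>
    mul_le_mul_of_nonneg_left (mul_le_of_le_one_right (ha.nonneg _) (zx_le_one hb.le_one _))
      (hb.nonneg _)
  have hS : Summable (Function.uncurry F) := by
    refine Summable.of_nonneg_of_le (fun x => hF0 x.1 x.2) (fun x => hF1 x.1 x.2) ?_
    exact hb.summable.mul_of_nonneg ha.summable hb.nonneg ha.nonneg
  have h1 : ∀ m : ℕ, b m * zx (conv a b) (m + n) = ∑' i, F m i := by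
    intro m
    rw [zx_conv, ← tsum_mul_left]
  have h2 : ∀ i : ℕ, a i * cr b b (n - i) = ∑' m, F m i := by
    intro i
    unfold cr
    rw [← tsum_mul_left]
    refine tsum_congr (fun m => ?_)
    simp only [hF]
    rw [show (m : ℤ) + (n - i) = m + n - i by ring]; ring
  unfold FZ cr
  calc ∑' m : ℕ, b m * zx (conv a b) (m + n) = ∑' m, ∑' i, F m i := tsum_congr h1
    _ = ∑' i, ∑' m, F m i := hS.tsum_comm.symm
    _ = _ := (tsum_congr h2).symm

theorem cr_symm {b : ℕ → ℝ} (hb : IsProb b) (k : ℤ) : cr b b (-k) = cr b b k := by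
  have key : ∀ n : ℕ, cr b b (-(n : ℤ)) = cr b b n := by
    intro n
    have hs := summable_cr hb hb (-(n : ℤ))
    unfold cr
    rw [← hs.sum_add_tsum_nat_add n]
    have h1 : ∑ i ∈ range n, b i * zx b (i + -(n : ℤ)) = 0 :=
      sum_eq_zero (fun i hi => by
        rw [zx_neg b (by have := mem_range.mp hi; omega), mul_zero])
    rw [h1, zero_add]
    refine tsum_congr (fun m => ?_)
    rw [show ((m + n : ℕ) : ℤ) + -(n : ℤ) = (m : ℤ) by push_cast; ring, zx_natCast,
      show (m : ℤ) + n = ((m + n : ℕ) : ℤ) by push_cast; ring, zx_natCast, mul_comm]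
  obtain ⟨n, rfl | rfl⟩ := k.eq_nat_or_neg
  · exact key n
  · rw [neg_neg]; exact (key n).symm

/-- the renewal identity in the slot of `A` -/
theorem FZ_F2 {a b : ℕ → ℝ} {K : Finset ℕ} {kap : ℕ → ℝ} (ha : IsProb a) (hb : IsProb b)
    (ra : Ren K kap a) (hsa : Summable (srv a)) (n : ℤ) :
    cr b b n = FZ a b n + ∑ j ∈ K, kap j * (FZ a b (n + j) - FZ a b (n + j - 1)) := by
  have hy0 : ∀ k, 0 ≤ cr b b k := cr_nonneg hb hb
  have hy1 : ∀ k, cr b b k ≤ 1 := cr_le_one hb hb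
  have hsum : ∀ (x : ℕ → ℝ), (∀ i, 0 ≤ x i) → Summable x → ∀ N : ℤ,
      Summable (fun i : ℕ => x i * cr b b (N - i)) := fun x hx hxs N =>
    Summable.of_nonneg_of_le (fun i => mul_nonneg (hx i) (hy0 _))
      (fun i => mul_le_of_le_one_right (hx i) (hy1 _)) hxs
  -- shifts
  have shift : ∀ (j : ℕ), (∀ m < j, a m = 0) →
      FZ a b (n + j) = ∑' i : ℕ, a (i + j) * cr b b (n - i) := by
    intro j hj
    rw [FZ_eq ha hb, ← (hsum a ha.nonneg ha.summable (n + j)).sum_add_tsum_nat_add j]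
    have h1 : ∑ i ∈ range j, a i * cr b b (n + j - i) = 0 :=
      sum_eq_zero (fun i hi => by rw [hj i (mem_range.mp hi), zero_mul])
    rw [h1, zero_add]
    refine tsum_congr (fun i => ?_)
    rw [show n + (j : ℤ) - ((i + j : ℕ) : ℤ) = n - i by push_cast; ring]
  have hsh : ∀ j, Summable (fun i : ℕ => a (i + j) * cr b b (n - i)) := fun j =>
    hsum (fun i => a (i + j)) (fun i => ha.nonneg _)
      ((summable_nat_add_iff (f := a) j).mpr ha.summable) n
  have e1 : ∑ j ∈ K, kap j * FZ a b (n + j) = ∑' i : ℕ, srv a i * cr b b (n - i) := by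
    have h1 : ∀ j ∈ K, kap j * FZ a b (n + j)
        = ∑' i : ℕ, kap j * (a (i + j) * cr b b (n - i)) := by
      intro j hj
      rw [shift j (ra.van j hj), tsum_mul_left]
    rw [sum_congr rfl h1, ← Summable.tsum_finsetSum (fun j _ => (hsh j).mul_left (kap j))]
    refine tsum_congr (fun i => ?_)
    rw [← ra.eq, sum_mul]
    exact sum_congr rfl (fun j _ => by ring)
  have e2 : ∑ j ∈ K, kap j * FZ a b (n + j - 1)
      = ∑' i : ℕ, srv a i * cr b b (n - ((i + 1 : ℕ) : ℤ)) := by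
    have h1 : ∀ j ∈ K, kap j * FZ a b (n + j - 1)
        = ∑' i : ℕ, kap j * (a (i + (j - 1)) * cr b b (n - i)) := by
      intro j hj
      have hj1 := ra.pos j hj
      have := shift (j - 1) (fun m hm => ra.van j hj m (by omega))
      rw [show n + (((j - 1 : ℕ)) : ℤ) = n + j - 1 by omega] at this
      rw [this, tsum_mul_left]
    rw [sum_congr rfl h1,
      ← Summable.tsum_finsetSum (fun j _ => (hsh (j - 1)).mul_left (kap j))]
    have h2 : Summable (fun i : ℕ => ∑ j ∈ K, kap j * (a (i + (j - 1)) * cr b b (n - i))) :=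
      summable_sum (fun j _ => (hsh (j - 1)).mul_left (kap j))
    rw [h2.tsum_eq_zero_add]
    have h3 : ∑ j ∈ K, kap j * (a (0 + (j - 1)) * cr b b (n - ((0 : ℕ) : ℤ))) = 0 := by
      refine sum_eq_zero (fun j hj => ?_)
      have := ra.pos j hj
      rw [ra.van j hj (0 + (j - 1)) (by omega)]; ring
    rw [h3, zero_add]
    refine tsum_congr (fun i => ?_)
    rw [← ra.eq, sum_mul]
    refine sum_congr rfl (fun j hj => ?_)
    have := ra.pos j hj
    rw [show i + 1 + (j - 1) = i + j by omega]; ring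
  have e3 : ∑ j ∈ K, kap j * (FZ a b (n + j) - FZ a b (n + j - 1))
      = ∑ j ∈ K, kap j * FZ a b (n + j) - ∑ j ∈ K, kap j * FZ a b (n + j - 1) := by
    rw [← sum_sub_distrib]
    exact sum_congr rfl (fun j _ => by ring)
  have hs0 := hsum (srv a) ha.srv_nonneg hsa n
  have hs1 : Summable (fun i : ℕ => srv a (i + 1) * cr b b (n - ((i + 1 : ℕ) : ℤ))) :=
    (summable_nat_add_iff (f := fun i : ℕ => srv a i * cr b b (n - i)) 1).mpr hs0
  have hs2 : Summable (fun i : ℕ => srv a i * cr b b (n - ((i + 1 : ℕ) : ℤ))) := by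
    have := hsum (srv a) ha.srv_nonneg hsa (n - 1)
    refine this.congr (fun i => ?_)
    rw [show n - 1 - (i : ℤ) = n - ((i + 1 : ℕ) : ℤ) by push_cast; ring]
  have hz : srv a 0 = 1 := by simp [srv, ha.zero]
  rw [e3, e1, e2, hs0.tsum_eq_zero_add, FZ_eq ha hb,
    (hsum a ha.nonneg ha.summable n).tsum_eq_zero_add, ha.zero, zero_mul, zero_add, hz, one_mul,
    add_sub_assoc, ← hs1.tsum_sub hs2]
  have hs3 : Summable (fun i : ℕ => a (i + 1) * cr b b (n - ((i + 1 : ℕ) : ℤ))) :=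
    (summable_nat_add_iff (f := fun i : ℕ => a i * cr b b (n - i)) 1).mpr
      (hsum a ha.nonneg ha.summable n)
  have e4 : ∑' i : ℕ, (srv a (i + 1) * cr b b (n - ((i + 1 : ℕ) : ℤ))
      - srv a i * cr b b (n - ((i + 1 : ℕ) : ℤ)))
      = - ∑' i : ℕ, a (i + 1) * cr b b (n - ((i + 1 : ℕ) : ℤ)) := by
    rw [← tsum_neg]
    refine tsum_congr (fun i => ?_)
    have : a (i + 1) = srv a i - srv a (i + 1) := by
      simp only [srv, sum_range_succ]; ring
    rw [this]; ring
  rw [e4]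
  simp

/-! ## the weights -/

theorem Wk_eq_WZ {a b : ℕ → ℝ} (ha : IsProb a) (hb : IsProb b) {k : ℕ} (hk : 1 ≤ k) :
    Wk a b b k = WZ a b k := by
  have hc := ha.conv hb
  unfold Wk WZ FZ cr
  rw [← (summable_cr hc hb k).tsum_add (summable_cr hc hb (k - 1))]
  refine tsum_congr (fun n => ?_)
  rw [show (n : ℤ) + k = ((n + k : ℕ) : ℤ) by push_cast; ring, zx_natCast,
    show (n : ℤ) + (k - 1) = ((n + k - 1 : ℕ) : ℤ) by omega, zx_natCast]
  ring

theorem zx_conv_eq_zero {a b : ℕ → ℝ} {LA LB : ℕ} (ha0 : ∀ n < LA, a n = 0)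
    (hb0 : ∀ n < LB, b n = 0) {k : ℤ} (hk : k < LA + LB) : zx (conv a b) k = 0 := by
  rcases lt_or_ge k 0 with h | h
  · exact zx_neg _ h
  · rw [zx_of_nonneg _ h]
    unfold conv
    refine sum_eq_zero (fun x hx => ?_)
    have hx' : x.1 + x.2 = k.toNat := mem_antidiagonal.mp hx
    rcases lt_or_ge x.1 LA with h2 | h2
    · rw [ha0 _ h2, zero_mul]
    · rw [hb0 _ (by omega), mul_zero]

/-- **first recurrence**: the renewal identity in the subtracted slot -/
theorem WZ_F1 {a b : ℕ → ℝ} {K : Finset ℕ} {kap : ℕ → ℝ} (ha : IsProb a) (hb : IsProb b)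
    (rb : Ren K kap b) {LA LB : ℕ} (ha0 : ∀ n < LA, a n = 0) (hb0 : ∀ n < LB, b n = 0)
    {k : ℤ} (hk : k < LA + LB) :
    WZ a b k = ∑ j ∈ K, kap j * (WZ a b (k - j + 1) - WZ a b (k - j)) := by
  have hc := ha.conv hb
  have e1 := cr_F1 hc hb rb (zx_conv_eq_zero ha0 hb0 hk)
  have e2 := cr_F1 hc hb rb (zx_conv_eq_zero ha0 hb0 (k := k - 1) (by omega))
  unfold WZ FZ
  rw [e1, e2, ← sum_add_distrib]
  refine sum_congr rfl (fun j _ => ?_)
  rw [show k - 1 + 1 - (j : ℤ) = k - j by ring, show k + 1 - (j : ℤ) = k - j + 1 by ring,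
    show k - 1 - (j : ℤ) = k - j - 1 by ring, show k - (j : ℤ) + 1 - 1 = k - j by ring]
  ring

/-- **second recurrence**: the renewal identity in the slot of `A` and the reflection -/
theorem WZ_R {a b : ℕ → ℝ} {K : Finset ℕ} {kap : ℕ → ℝ} (ha : IsProb a) (hb : IsProb b)
    (ra : Ren K kap a) (hsa : Summable (srv a)) (n : ℤ) :
    WZ a b n - WZ a b (1 - n) + ∑ j ∈ K, kap j * ((WZ a b (n + j - 1 + 1) - WZ a b (n + j - 1))
      - (WZ a b (j - n + 1) - WZ a b (j - n))) = 0 := by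
  have e1 := FZ_F2 ha hb ra hsa n
  have e2 := FZ_F2 ha hb ra hsa (n - 1)
  have e3 := FZ_F2 ha hb ra hsa (-n)
  have e4 := FZ_F2 ha hb ra hsa (1 - n)
  have s1 := cr_symm hb n
  have s2 := cr_symm hb (n - 1)
  rw [show -(n - 1) = 1 - n by ring] at s2
  unfold WZ
  have h : ∑ j ∈ K, kap j * ((FZ a b (n + j - 1 + 1) + FZ a b (n + j - 1 + 1 - 1)
      - (FZ a b (n + j - 1) + FZ a b (n + j - 1 - 1)))
      - (FZ a b (j - n + 1) + FZ a b (j - n + 1 - 1) - (FZ a b (j - n) + FZ a b (j - n - 1))))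
      = (∑ j ∈ K, kap j * (FZ a b (n + j) - FZ a b (n + j - 1))
        + ∑ j ∈ K, kap j * (FZ a b (n - 1 + j) - FZ a b (n - 1 + j - 1)))
        - (∑ j ∈ K, kap j * (FZ a b (-n + j) - FZ a b (-n + j - 1))
        + ∑ j ∈ K, kap j * (FZ a b (1 - n + j) - FZ a b (1 - n + j - 1))) := by
    rw [← sum_add_distrib, ← sum_add_distrib, ← sum_sub_distrib]
    refine sum_congr rfl (fun j _ => ?_)
    rw [show n + (j : ℤ) - 1 + 1 = n + j by ring, show n - 1 + (j : ℤ) = n + j - 1 by ring,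
      show (j : ℤ) - n + 1 = 1 - n + j by ring, show -n + (j : ℤ) = j - n by ring,
      show 1 - n + (j : ℤ) - 1 = j - n by ring]
    ring
  rw [h]
  rw [show (1 : ℤ) - n - 1 = -n by ring]
  linarith

end Coin
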