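import Pool.Agent.Lib.Coin.WE1
import Mathlib.Analysis.Calculus.SmoothSeries

/-!
# Coin race: the weights are differentiable in `p`
-/

namespace Coin

open Finset Filter

/-- nonnegative with logarithmic derivative at most `N / (p (1 - p))` on `(0, 1)` -/
def Good (N : ℕ) (f : ℝ → ℝ) : Prop :=
  ∀ p : ℝ, 0 < p → p < 1 → 0 ≤ f p ∧ DifferentiableAt ℝ f p ∧ |deriv f p| ≤ N * f p / (p * (1 - p))

theorem Good.mono {N M : ℕ} {f : ℝ → ℝ} (h : Good N f) (hNM : N ≤ M) : Good M f := by
  intro p h0 h1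
  obtain ⟨a, b, c⟩ := h p h0 h1
  refine ⟨a, b, c.trans ?_⟩
  have h2 : 0 < p * (1 - p) := mul_pos h0 (by linarith)
  have h3 : (N : ℝ) ≤ M := by exact_mod_cast hNM
  exact div_le_div_of_nonneg_right (mul_le_mul_of_nonneg_right h3 a) h2.le

theorem good_const {c : ℝ} (hc : 0 ≤ c) : Good 0 (fun _ => c) := by
  intro p _ _
  refine ⟨hc, differentiableAt_const c, ?_⟩
  simp

theorem Good.add {N : ℕ} {f g : ℝ → ℝ} (hf : Good N f) (hg : Good N g) :
    Good N (fun p => f p + g p) := by
  intro p h0 h1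
  obtain ⟨a, b, c⟩ := hf p h0 h1
  obtain ⟨a', b', c'⟩ := hg p h0 h1
  refine ⟨add_nonneg a a', b.add b', ?_⟩
  have hd : deriv (fun p => f p + g p) p = deriv f p + deriv g p := (b.hasDerivAt.add b'.hasDerivAt).deriv
  rw [hd]
  refine (abs_add_le _ _).trans ((add_le_add c c').trans (le_of_eq ?_))
  ring

theorem Good.mul {N M : ℕ} {f g : ℝ → ℝ} (hf : Good N f) (hg : Good M g) :
    Good (N + M) (fun p => f p * g p) := by
  intro p h0 h1
  obtain ⟨a, b, c⟩ := hf p h0 h1
  obtain ⟨a', b', c'⟩ := hg p h0 h1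
  refine ⟨mul_nonneg a a', b.mul b', ?_⟩
  have hd : deriv (fun p => f p * g p) p = deriv f p * g p + f p * deriv g p :=
    (b.hasDerivAt.mul b'.hasDerivAt).deriv
  rw [hd]
  refine (abs_add_le _ _).trans ?_
  rw [abs_mul, abs_mul, abs_of_nonneg a, abs_of_nonneg a']
  have e1 := mul_le_mul_of_nonneg_right c a'
  have e2 := mul_le_mul_of_nonneg_left c' a
  refine (add_le_add e1 e2).trans (le_of_eq ?_)
  push_cast
  ring

theorem good_sum {ι : Type*} {N : ℕ} (s : Finset ι) {f : ι → ℝ → ℝ} (h : ∀ i ∈ s, Good N (f i)) :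
    Good N (fun p => ∑ i ∈ s, f i p) := by
  classical
  induction s using Finset.induction_on with
  | empty =>
    have : (fun p : ℝ => ∑ i ∈ (∅ : Finset ι), f i p) = fun _ => (0 : ℝ) := by
      funext p; simp
    rw [this]
    exact (good_const le_rfl).mono (Nat.zero_le N)
  | insert a s ha ih =>
    have : (fun p : ℝ => ∑ i ∈ insert a s, f i p) = fun p => f a p + ∑ i ∈ s, f i p := by
      funext p; rw [sum_insert ha]
    rw [this]
    exact (h a (mem_insert_self a s)).add (ih (fun i hi => h i (mem_insert_of_mem hi)))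

theorem good_ew : ∀ (n : ℕ) {F : List Bool → ℝ}, (∀ l, 0 ≤ F l) → Good n (fun p => ew p n F)
  | 0, F, hF => by
    have : (fun p : ℝ => ew p 0 F) = fun _ => F [] := rfl
    rw [this]
    exact good_const (hF _)
  | n + 1, F, hF => by
    intro p h0 h1
    obtain ⟨a, b, c⟩ := good_ew n (F := fun l => F (true :: l)) (fun l => hF _) p h0 h1
    obtain ⟨a', b', c'⟩ := good_ew n (F := fun l => F (false :: l)) (fun l => hF _) p h0 h1
    have hq : 0 < 1 - p := by linarith
    have hpq : 0 < p * (1 - p) := mul_pos h0 hq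
    have hfun : (fun p : ℝ => ew p (n + 1) F) = fun p =>
        p * ew p n (fun l => F (true :: l)) + (1 - p) * ew p n (fun l => F (false :: l)) := by
      funext x; rw [ew_succ]
    have hq' : HasDerivAt (fun x : ℝ => 1 - x) (-1) p := by
      have h := (hasDerivAt_const p (1 : ℝ)).sub (hasDerivAt_id p)
      rw [zero_sub] at h
      exact h
    have hd := ((hasDerivAt_id p).mul b.hasDerivAt).add (hq'.mul b'.hasDerivAt)
    have hd' : HasDerivAt (fun p : ℝ => ew p (n + 1) F)
        (1 * ew p n (fun l => F (true :: l)) + id p * deriv (fun p => ew p n (fun l => F (true :: l))) p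
        + (-1 * ew p n (fun l => F (false :: l))
          + (1 - p) * deriv (fun p => ew p n (fun l => F (false :: l))) p)) p := by
      rw [hfun]; exact hd
    refine ⟨?_, hd'.differentiableAt, ?_⟩
    · rw [hfun]
      exact add_nonneg (mul_nonneg h0.le a) (mul_nonneg hq.le a')
    · rw [hd'.deriv]
      have hval : ew p (n + 1) F = p * ew p n (fun l => F (true :: l))
        + (1 - p) * ew p n (fun l => F (false :: l)) := ew_succ p n F
      set u := ew p n (fun l => F (true :: l)) with hu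
      set v := ew p n (fun l => F (false :: l)) with hv
      set u' := deriv (fun p => ew p n (fun l => F (true :: l))) p
      set v' := deriv (fun p => ew p n (fun l => F (false :: l))) p
      change |u'| ≤ n * u / (p * (1 - p)) at c
      change |v'| ≤ n * v / (p * (1 - p)) at c'
      change 0 ≤ u at a
      change 0 ≤ v at a'
      change |1 * u + p * u' + (-1 * v + (1 - p) * v')| ≤ _
      change _ ≤ ((n + 1 : ℕ) : ℝ) * ew p (n + 1) F / (p * (1 - p))
      rw [hval]
      have e1 : |1 * u + p * u' + (-1 * v + (1 - p) * v')| ≤ u + v + p * |u'| + (1 - p) * |v'| := by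
        have t1 : |1 * u + p * u'| ≤ u + p * |u'| := by
          refine (abs_add_le _ _).trans ?_
          rw [one_mul, abs_of_nonneg a, abs_mul, abs_of_pos h0]
        have t2 : |-1 * v + (1 - p) * v'| ≤ v + (1 - p) * |v'| := by
          refine (abs_add_le _ _).trans ?_
          rw [abs_mul, abs_neg, abs_one, one_mul, abs_of_nonneg a', abs_mul, abs_of_pos hq]
        have := abs_add_le (1 * u + p * u') (-1 * v + (1 - p) * v')
        linarith
      have e2 := mul_le_mul_of_nonneg_left c h0.le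
      have e3 := mul_le_mul_of_nonneg_left c' hq.le
      have e4 : u + v ≤ (p * u + (1 - p) * v) / (p * (1 - p)) := by
        rw [le_div_iff₀ hpq]
        have : (u + v) * (p * (1 - p)) ≤ p * u + (1 - p) * v := by
          have h5 : 0 ≤ p * u * p := by positivity
          have h6 : 0 ≤ (1 - p) * v * (1 - p) := by positivity
          nlinarith
        exact this
      have e5 : ((n + 1 : ℕ) : ℝ) * (p * u + (1 - p) * v) / (p * (1 - p))
          = (p * u + (1 - p) * v) / (p * (1 - p)) + (p * (n * u / (p * (1 - p)))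
            + (1 - p) * (n * v / (p * (1 - p)))) := by
        push_cast
        ring
      rw [e5]
      linarith

theorem good_pm (A : List Bool) (n : ℕ) : Good n (fun p => pm p A n) := by
  have : (fun p : ℝ => pm p A n) = fun p => ew p n (fst' A) := by
    funext p; exact pm_eq_ew p A n
  rw [this]
  exact good_ew n (fst'_nonneg A)

theorem good_conv (A B : List Bool) (m : ℕ) : Good m (fun p => conv (pm p A) (pm p B) m) := by
  unfold conv
  refine good_sum _ (fun x hx => ?_)
  have hx' : x.1 + x.2 = m := mem_antidiagonal.mp hx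
  exact ((good_pm A x.1).mul (good_pm B x.2)).mono (le_of_eq hx')

theorem good_zx (A B : List Bool) (k : ℤ) : Good k.toNat (fun p => zx (conv (pm p A) (pm p B)) k) := by
  rcases lt_or_ge k 0 with h | h
  · have : (fun p : ℝ => zx (conv (pm p A) (pm p B)) k) = fun _ => (0 : ℝ) := by
      funext p; exact zx_neg _ h
    rw [this]
    exact (good_const le_rfl).mono (Nat.zero_le _)
  · have : (fun p : ℝ => zx (conv (pm p A) (pm p B)) k)
        = fun p => conv (pm p A) (pm p B) k.toNat := by
      funext p; exact zx_of_nonneg _ h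
    rw [this]
    exact good_conv A B _

/-- geometric bound for the point probabilities, uniform on compact intervals -/
theorem pm_le_geom {p1 p2 : ℝ} (h0 : 0 < p1) (h12 : p1 ≤ p2) (h1 : p2 < 1) {A : List Bool}
    (hA : A ≠ []) : ∃ C s : ℝ, 0 ≤ C ∧ 0 < s ∧ s < 1 ∧
      ∀ p ∈ Set.Icc p1 p2, ∀ n, pm p A n ≤ C * s ^ n := by
  set w0 : ℝ := p1 ^ A.count true * (1 - p2) ^ A.count false with hw0
  have hw0p : 0 < w0 := mul_pos (pow_pos h0 _) (pow_pos (by linarith) _)
  have hw : ∀ p ∈ Set.Icc p1 p2, w0 ≤ wt p A := by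
    intro p hp
    unfold wt
    exact mul_le_mul (pow_le_pow_left₀ h0.le hp.1 _)
      (pow_le_pow_left₀ (by linarith) (by linarith [hp.2]) _) (pow_nonneg (by linarith) _)
      (pow_nonneg (h0.le.trans hp.1) _)
  have hL : A.length ≠ 0 := (List.length_pos_iff.2 hA).ne'
  set L := A.length with hLdef
  -- a number `r` in `(0,1)` with `1 - w0 ≤ r`
  set r : ℝ := max (1 - w0) (1 / 2) with hr
  have hr0 : 0 < r := lt_of_lt_of_le (by norm_num) (le_max_right _ _)
  have hr1 : r < 1 := max_lt (by linarith) (by norm_num)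
  set s : ℝ := r ^ ((L : ℝ)⁻¹) with hs
  have hs0 : 0 < s := Real.rpow_pos_of_pos hr0 _
  have hs1 : s < 1 := Real.rpow_lt_one hr0.le hr1 (inv_pos.2 (by exact_mod_cast Nat.pos_of_ne_zero hL))
  have hsL : s ^ L = r := Real.rpow_inv_natCast_pow hr0.le hL
  refine ⟨(s ^ L)⁻¹, s, by positivity, hs0, hs1, ?_⟩
  intro p hp n
  have hp0 : 0 < p := h0.trans_le hp.1
  have hp1 : p < 1 := hp.2.trans_lt h1
  rcases Nat.eq_zero_or_pos n with hn | hn
  · subst hn
    rw [pm_zero]; positivity
  · have e1 : pm p A n ≤ surv p A (n - 1) := by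
      obtain ⟨m, rfl⟩ : ∃ m, n = m + 1 := ⟨n - 1, by omega⟩
      rw [pm_succ]
      have := surv_nonneg hp0.le hp1.le A (m + 1)
      simpa using this
    have e2 : surv p A (n - 1) ≤ surv p A ((n - 1) / L * L) :=
      surv_anti hp0.le hp1.le A (Nat.div_mul_le_self _ _)
    have e3 : surv p A ((n - 1) / L * L) ≤ (1 - wt p A) ^ ((n - 1) / L) :=
      surv_mul_le hp0.le hp1.le A hA _
    have e4 : (1 - wt p A) ^ ((n - 1) / L) ≤ r ^ ((n - 1) / L) := by
      refine pow_le_pow_left₀ ?_ ?_ _
      · have := wt_le_one hp0.le hp1.le A; linarith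
      · have := hw p hp
        exact le_trans (by linarith) (le_max_left _ _)
    have e5 : r ^ ((n - 1) / L) ≤ (s ^ L)⁻¹ * s ^ n := by
      rw [← hsL, ← pow_mul, ← div_eq_inv_mul, le_div_iff₀ (by positivity), ← pow_add]
      refine pow_le_pow_of_le_one hs0.le hs1.le ?_
      have := Nat.lt_mul_div_succ (n - 1) (Nat.pos_of_ne_zero hL)
      have h6 : L * ((n - 1) / L + 1) = L * ((n - 1) / L) + L := by ring
      omega
    linarith

/-- the weights are differentiable in `p` -/
theorem differentiableAt_FZ {p : ℝ} (h0 : 0 < p) (h1 : p < 1) {A B : List Bool} (hA : A ≠ [])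
    (hB : B ≠ []) (k : ℤ) : DifferentiableAt ℝ (fun x => FZ (pm x A) (pm x B) k) p := by
  set p1 : ℝ := p / 2 with hp1
  set p2 : ℝ := (p + 1) / 2 with hp2
  obtain ⟨C, s, hC, hs0, hs1, hpm⟩ := pm_le_geom (p1 := p1) (p2 := p2) (by positivity)
    (by rw [hp1, hp2]; linarith) (by rw [hp2]; linarith) hB
  set g : ℕ → ℝ → ℝ := fun n x => pm x B n * zx (conv (pm x A) (pm x B)) (n + k) with hg
  have hgood : ∀ n : ℕ, Good (2 * n + k.natAbs) (g n) := fun n =>
    ((good_pm B n).mul (good_zx A B (n + k))).mono (by omega)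
  set t : Set ℝ := Set.Ioo p1 p2 with ht
  have htop : ∀ y ∈ t, 0 < y ∧ y < 1 := by
    intro y hy
    have a := hy.1
    have b := hy.2
    rw [hp1] at a
    rw [hp2] at b
    exact ⟨by linarith, by linarith⟩
  set m0 : ℝ := p1 * (1 - p2) with hm0
  have hm0p : 0 < m0 := mul_pos (by positivity) (by rw [hp2]; linarith)
  set u : ℕ → ℝ := fun n => ((2 * n + k.natAbs : ℕ) : ℝ) * (C * s ^ n) / m0 with hu
  have hsu : Summable u := by
    have hn : ‖s‖ < 1 := by rw [Real.norm_of_nonneg hs0.le]; exact hs1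
    have t1 : Summable (fun n : ℕ => (n : ℝ) ^ 1 * s ^ n) := summable_pow_mul_geometric_of_norm_lt_one 1 hn
    have t2 : Summable (fun n : ℕ => (n : ℝ) ^ 0 * s ^ n) := summable_pow_mul_geometric_of_norm_lt_one 0 hn
    refine ((t1.mul_left (2 * C / m0)).add (t2.mul_left (k.natAbs * C / m0))).congr (fun n => ?_)
    simp only [hu]
    push_cast
    ring
  have hzx : ∀ y ∈ t, ∀ n : ℕ, 0 ≤ zx (conv (pm y A) (pm y B)) (n + k)
      ∧ zx (conv (pm y A) (pm y B)) (n + k) ≤ 1 := by
    intro y hy n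
    obtain ⟨a, b⟩ := htop y hy
    have hc := (isProb_pm a b hA).conv (isProb_pm a b hB)
    exact ⟨zx_nonneg hc.nonneg _, zx_le_one hc.le_one _⟩
  have hg' : ∀ n : ℕ, ∀ y ∈ t, ‖deriv (g n) y‖ ≤ u n := by
    intro n y hy
    obtain ⟨a, b⟩ := htop y hy
    obtain ⟨_, _, c⟩ := hgood n y a b
    rw [Real.norm_eq_abs]
    refine c.trans ?_
    have e1 : g n y ≤ C * s ^ n := by
      have e2 := hpm y ⟨hy.1.le, hy.2.le⟩ n
      have e3 := hzx y hy n
      have e4 := pm_nonneg a.le b.le B n
      calc g n y ≤ pm y B n * 1 := mul_le_mul_of_nonneg_left e3.2 e4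
        _ ≤ _ := by rw [mul_one]; exact e2
    have e5 : m0 ≤ y * (1 - y) :=
      mul_le_mul hy.1.le (by linarith [hy.2]) (by rw [hp2]; linarith) a.le
    have e6 : 0 ≤ C * s ^ n := by positivity
    exact div_le_div₀ (mul_nonneg (Nat.cast_nonneg _) e6)
      (mul_le_mul_of_nonneg_left e1 (Nat.cast_nonneg _)) hm0p e5
  have hpt : p ∈ t := ⟨by rw [hp1]; linarith, by rw [hp2]; linarith⟩
  have hsum0 : Summable (fun n => g n p) :=
    summable_cr ((isProb_pm h0 h1 hA).conv (isProb_pm h0 h1 hB)) (isProb_pm h0 h1 hB) k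
  have hmain := hasDerivAt_tsum_of_isPreconnected (𝕜 := ℝ) (g := g) (g' := fun n y => deriv (g n) y)
    (t := t) (y₀ := p) (y := p) hsu isOpen_Ioo isPreconnected_Ioo
    (fun n y hy => ((hgood n y (htop y hy).1 (htop y hy).2).2.1).hasDerivAt) hg' hpt hsum0 hpt
  exact hmain.differentiableAt

theorem differentiableAt_WZ {p : ℝ} (h0 : 0 < p) (h1 : p < 1) {A B : List Bool} (hA : A ≠ [])
    (hB : B ≠ []) (k : ℤ) : DifferentiableAt ℝ (fun x => WZ (pm x A) (pm x B) k) p :=
  (differentiableAt_FZ h0 h1 hA hB k).add (differentiableAt_FZ h0 h1 hA hB (k - 1))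

end Coin
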