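import Mathlib

/-!
# Coin race: the maximum argument for the two recurrences (pure real numbers)
-/

namespace Coin

open Finset

/-- the linear system; `V` values, `X` corrected increments, `Y` given data -/
structure Sys (L : ℕ) (P e : ℝ) (KA KB : Finset ℕ) (tA tB eA eB : ℕ → ℝ) (V X Y : ℤ → ℝ) :
    Prop where
  incr : ∀ m : ℤ, 1 - L ≤ m → m ≤ 2 * L - 1 → V (m + 1) - V m = X m + e * Y m
  F : ∀ k : ℤ, 1 ≤ k → k ≤ 2 * L - 1 → P * V k
    = X (k - L) + ∑ j ∈ KB, tB j * (X (k - j) + eB j * Y (k - j))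
  R : ∀ n : ℤ, 1 ≤ n → n ≤ L → P * (V n - V (1 - n)) + (X (n + L - 1) - X (L - n))
    + ∑ j ∈ KA, tA j * ((X (n + j - 1) - X (j - n)) + eA j * (Y (n + j - 1) - Y (j - n))) = 0

/-- the maximum argument -/
theorem Sys.max_arg {L : ℕ} {P e : ℝ} {KA KB : Finset ℕ} {tA tB eA eB : ℕ → ℝ} {V X Y : ℤ → ℝ}
    (S : Sys L P e KA KB tA tB eA eB V X Y) (hP : 0 ≤ P)
    (hKA : ∀ j ∈ KA, 1 ≤ j ∧ j + 1 ≤ L) (hKB : ∀ j ∈ KB, 1 ≤ j ∧ j + 1 ≤ L)
    (htA : ∀ j ∈ KA, 0 ≤ tA j) (htB : ∀ j ∈ KB, 0 ≤ tB j) {t T DY : ℝ} (hDY : 0 ≤ DY)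
    (hY : ∀ m : ℤ, 1 - L ≤ m → m ≤ 2 * L - 1 → |Y m| ≤ DY)
    (hsA : ∑ j ∈ KA, tA j ≤ t) (hsB : ∑ j ∈ KB, tB j ≤ t)
    (hTA : ∑ j ∈ KA, tA j * |eA j| ≤ T) (hTB : ∑ j ∈ KB, tB j * |eB j| ≤ T)
    {k0 : ℤ} (hk1 : 1 ≤ k0) (hk2 : k0 + 1 ≤ L) :
    ∃ M : ℝ, 0 ≤ M ∧ (∀ m : ℤ, 1 - L ≤ m → m ≤ 2 * L - 1 → |X m| ≤ M)
      ∧ M * (1 - 4 * (L * P) - 3 * t) ≤ P * |V k0| + (4 * (L * P) * |e| + 3 * T) * DY
      ∧ |X k0 - P * V k0| ≤ (L * P) * (M + |e| * DY) + t * M + T * DY := by
  classical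
  have hL : (2 : ℤ) ≤ L := by omega
  obtain ⟨ms, hms, hmax⟩ := Finset.exists_max_image (Finset.Icc (1 - (L : ℤ)) (2 * L - 1))
    (fun m => |X m|) ⟨1, by rw [Finset.mem_Icc]; omega⟩
  rw [Finset.mem_Icc] at hms
  set M := |X ms| with hM
  have hM0 : 0 ≤ M := abs_nonneg _
  have hX : ∀ m : ℤ, 1 - L ≤ m → m ≤ 2 * L - 1 → |X m| ≤ M := fun m h1 h2 =>
    hmax m (by rw [Finset.mem_Icc]; exact ⟨h1, h2⟩)
  set Q := M + |e| * DY with hQ
  have hQ0 : 0 ≤ Q := add_nonneg hM0 (mul_nonneg (abs_nonneg _) hDY)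
  -- increments
  have hinc : ∀ m : ℤ, 1 - L ≤ m → m ≤ 2 * L - 1 → |V (m + 1) - V m| ≤ Q := by
    intro m h1 h2
    rw [S.incr m h1 h2]
    refine (abs_add_le _ _).trans (add_le_add (hX m h1 h2) ?_)
    rw [abs_mul]
    exact mul_le_mul_of_nonneg_left (hY m h1 h2) (abs_nonneg _)
  have hup : ∀ (d : ℕ) (k : ℤ), 1 - L ≤ k → k + d ≤ 2 * L → |V (k + d) - V k| ≤ d * Q := by
    intro d
    induction d with
    | zero => intro k _ _; simp
    | succ d ih =>
      intro k h1 h2
      push_cast at h2 ⊢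
      have e1 := ih k h1 (by omega)
      have e2 := hinc (k + d) (by omega) (by omega)
      rw [show k + ((d : ℤ) + 1) = k + d + 1 by ring]
      have := abs_sub_le (V (k + d + 1)) (V (k + d)) (V k)
      linarith
  have hdist : ∀ (N : ℕ) (k k' : ℤ), 1 - L ≤ k → k ≤ 2 * L → 1 - L ≤ k' → k' ≤ 2 * L →
      |k - k'| ≤ N → |V k - V k'| ≤ N * Q := by
    intro N k k' h1 h2 h3 h4 h5
    rw [abs_le] at h5
    rcases le_total k' k with h | h
    · obtain ⟨d, hd⟩ := Int.eq_ofNat_of_zero_le (sub_nonneg.2 h)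
      have e1 := hup d k' h3 (by omega)
      rw [show k' + (d : ℤ) = k by omega] at e1
      have : (d : ℝ) ≤ N := by
        have : (d : ℤ) ≤ N := by omega
        exact_mod_cast this
      exact e1.trans (mul_le_mul_of_nonneg_right this hQ0)
    · obtain ⟨d, hd⟩ := Int.eq_ofNat_of_zero_le (sub_nonneg.2 h)
      have e1 := hup d k h1 (by omega)
      rw [show k + (d : ℤ) = k' by omega, abs_sub_comm] at e1
      have : (d : ℝ) ≤ N := by
        have : (d : ℤ) ≤ N := by omega
        exact_mod_cast this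
      exact e1.trans (mul_le_mul_of_nonneg_right this hQ0)
  -- the border sums
  have hBs : ∀ k : ℤ, 1 ≤ k → k ≤ 2 * L - 1 →
      |∑ j ∈ KB, tB j * (X (k - j) + eB j * Y (k - j))| ≤ t * M + T * DY := by
    intro k h1 h2
    refine (abs_sum_le_sum_abs _ _).trans ?_
    have h3 : ∀ j ∈ KB, |tB j * (X (k - j) + eB j * Y (k - j))| ≤ tB j * M + tB j * |eB j| * DY := by
      intro j hj
      have hj' := hKB j hj
      have ht := htB j hj
      rw [abs_mul, abs_of_nonneg ht]
      have e1 := hX (k - j) (by omega) (by omega)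
      have e2 := hY (k - j) (by omega) (by omega)
      have e3 : |X (k - j) + eB j * Y (k - j)| ≤ M + |eB j| * DY := by
        refine (abs_add_le _ _).trans (add_le_add e1 ?_)
        rw [abs_mul]
        exact mul_le_mul_of_nonneg_left e2 (abs_nonneg _)
      have := mul_le_mul_of_nonneg_left e3 ht
      linarith
    refine (sum_le_sum h3).trans ?_
    rw [sum_add_distrib, ← sum_mul, ← sum_mul]
    exact add_le_add (mul_le_mul_of_nonneg_right hsB hM0) (mul_le_mul_of_nonneg_right hTB hDY)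
  have hAs : ∀ n : ℤ, 1 ≤ n → n ≤ L →
      |∑ j ∈ KA, tA j * ((X (n + j - 1) - X (j - n)) + eA j * (Y (n + j - 1) - Y (j - n)))|
        ≤ 2 * (t * M) + 2 * (T * DY) := by
    intro n h1 h2
    refine (abs_sum_le_sum_abs _ _).trans ?_
    have h3 : ∀ j ∈ KA, |tA j * ((X (n + j - 1) - X (j - n)) + eA j * (Y (n + j - 1) - Y (j - n)))|
        ≤ tA j * (2 * M) + tA j * |eA j| * (2 * DY) := by
      intro j hj
      have hj' := hKA j hj
      have ht := htA j hj
      rw [abs_mul, abs_of_nonneg ht]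
      have e1 := hX (n + j - 1) (by omega) (by omega)
      have e2 := hX (j - n) (by omega) (by omega)
      have e3 := hY (n + j - 1) (by omega) (by omega)
      have e4 := hY (j - n) (by omega) (by omega)
      have e5 : |(X (n + j - 1) - X (j - n)) + eA j * (Y (n + j - 1) - Y (j - n))|
          ≤ 2 * M + |eA j| * (2 * DY) := by
        refine (abs_add_le _ _).trans (add_le_add ?_ ?_)
        · refine (abs_sub _ _).trans ?_
          linarith
        · rw [abs_mul]
          refine mul_le_mul_of_nonneg_left ((abs_sub _ _).trans ?_) (abs_nonneg _)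
          linarith
      have := mul_le_mul_of_nonneg_left e5 ht
      linarith
    refine (sum_le_sum h3).trans ?_
    rw [sum_add_distrib, ← sum_mul, ← sum_mul]
    have e1 := mul_le_mul_of_nonneg_right hsA (by linarith : (0 : ℝ) ≤ 2 * M)
    have e2 := mul_le_mul_of_nonneg_right hTA (by linarith : (0 : ℝ) ≤ 2 * DY)
    linarith
  -- lower range
  have hlow : ∀ m : ℤ, 1 - L ≤ m → m ≤ L - 1 →
      |X m| ≤ P * |V k0| + 2 * (L * P) * Q + t * M + T * DY := by
    intro m h1 h2
    have e1 := S.F (m + L) (by omega) (by omega)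
    rw [show m + (L : ℤ) - L = m by ring] at e1
    have e2 := hBs (m + L) (by omega) (by omega)
    have e3 : X m = P * V k0 + P * (V (m + L) - V k0)
        - ∑ j ∈ KB, tB j * (X (m + L - j) + eB j * Y (m + L - j)) := by linarith
    have e4 := hdist (2 * L) (m + L) k0 (by omega) (by omega) (by omega) (by omega)
      (by rw [abs_le]; push_cast; constructor <;> omega)
    push_cast at e4
    rw [e3]
    have e5 := abs_sub (P * V k0 + P * (V (m + L) - V k0))
      (∑ j ∈ KB, tB j * (X (m + L - j) + eB j * Y (m + L - j)))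
    have e6 := abs_add_le (P * V k0) (P * (V (m + L) - V k0))
    rw [abs_mul, abs_mul, abs_of_nonneg hP] at e6
    have e7 := mul_le_mul_of_nonneg_left e4 hP
    have e8 : P * (2 * L * Q) = 2 * (L * P) * Q := by ring
    linarith
  have hlow0 : 0 ≤ 2 * (L * P) * Q + 2 * (t * M) + 2 * (T * DY) := by
    have h1 : 0 ≤ t := le_trans (sum_nonneg htA) hsA
    have h2 : 0 ≤ T := le_trans (sum_nonneg (fun j hj => mul_nonneg (htA j hj) (abs_nonneg _))) hTA
    positivity
  -- upper range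
  have hall : ∀ m : ℤ, 1 - L ≤ m → m ≤ 2 * L - 1 →
      |X m| ≤ P * |V k0| + 4 * (L * P) * Q + 3 * t * M + 3 * T * DY := by
    intro m h1 h2
    rcases lt_or_ge m L with h | h
    · have := hlow m h1 (by omega)
      linarith
    · have e1 := S.R (m - L + 1) (by omega) (by omega)
      have e2 := hAs (m - L + 1) (by omega) (by omega)
      have e3 := hlow (L - (m - L + 1)) (by omega) (by omega)
      have e4 := hdist (2 * L) (m - L + 1) (1 - (m - L + 1)) (by omega) (by omega) (by omega)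
        (by omega) (by rw [abs_le]; push_cast; constructor <;> omega)
      push_cast at e4
      rw [show m - (L : ℤ) + 1 + L - 1 = m by ring] at e1
      set Sg := ∑ j ∈ KA, tA j * ((X (m - L + 1 + j - 1) - X (j - (m - L + 1)))
        + eA j * (Y (m - L + 1 + j - 1) - Y (j - (m - L + 1)))) with hSg
      have e5 : X m = X (L - (m - L + 1)) - P * (V (m - L + 1) - V (1 - (m - L + 1))) - Sg := by
        linarith
      rw [e5]
      have e6 := abs_sub (X (L - (m - L + 1)) - P * (V (m - L + 1) - V (1 - (m - L + 1)))) Sg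
      have e7 := abs_sub (X (L - (m - L + 1))) (P * (V (m - L + 1) - V (1 - (m - L + 1))))
      rw [abs_mul, abs_of_nonneg hP] at e7
      have e8 := mul_le_mul_of_nonneg_left e4 hP
      have e9 : P * (2 * L * Q) = 2 * (L * P) * Q := by ring
      linarith
  refine ⟨M, hM0, hX, ?_, ?_⟩
  · have h1 := hall ms hms.1 hms.2
    rw [← hM] at h1
    have h2 : 4 * (L * P) * Q = 4 * (L * P) * M + 4 * (L * P) * |e| * DY := by rw [hQ]; ring
    linarith
  · have e1 := S.F (k0 + L) (by omega) (by omega)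
    rw [show k0 + (L : ℤ) - L = k0 by ring] at e1
    have e2 := hBs (k0 + L) (by omega) (by omega)
    have e4 := hdist L (k0 + L) k0 (by omega) (by omega) (by omega) (by omega)
      (by rw [show k0 + (L : ℤ) - k0 = L by ring]; simp)
    have e3 : X k0 - P * V k0 = P * (V (k0 + L) - V k0)
        - ∑ j ∈ KB, tB j * (X (k0 + L - j) + eB j * Y (k0 + L - j)) := by linarith
    rw [e3]
    have e5 := abs_sub (P * (V (k0 + L) - V k0))
      (∑ j ∈ KB, tB j * (X (k0 + L - j) + eB j * Y (k0 + L - j)))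
    rw [abs_mul, abs_of_nonneg hP] at e5
    have e7 := mul_le_mul_of_nonneg_left e4 hP
    have e8 : P * (L * Q) = (L * P) * Q := by ring
    linarith

end Coin
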