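import Pool.Agent.Lib.Coin.WE2
import Pool.Agent.Lib.Coin.WE3
import Pool.Agent.Lib.Coin.Comparable

/-!
# Coin race: two words with the same content, the weights and their derivatives satisfy the system
-/

namespace Coin.WE

open Finset Filter

/-- `p (1 - p) d/dp log` of the weight of a word with content `z` -/
noncomputable def eps (p : ℝ) (z : ℕ × ℕ) : ℝ := (1 - p) * z.1 - p * z.2

/-- `p (1 - p) κ' = - ε κ` -/
theorem hasDerivAt_kap_eps {p : ℝ} (h0 : 0 < p) (h1 : p < 1) (A : List Bool) (k : ℕ) :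
    HasDerivAt (fun x => kap x A k) (-(eps p (cont (A.take k)) * kap p A k) / (p * (1 - p))) p := by
  refine (hasDerivAt_kap h0 h1 A k).congr_deriv ?_
  have hq : 1 - p ≠ 0 := by linarith
  have hp : p ≠ 0 := h0.ne'
  unfold eps cont
  field_simp
  ring

theorem wt_eq_of_cont {A B : List Bool} (h : cont A = cont B) (p : ℝ) : wt p A = wt p B := by
  unfold cont at h
  rw [Prod.mk.injEq] at h
  unfold wt
  rw [h.1, h.2]

theorem length_eq_of_cont {A B : List Bool} (h : cont A = cont B) : A.length = B.length := by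
  unfold cont at h
  rw [Prod.mk.injEq] at h
  rw [← count_add A, ← count_add B, h.1, h.2]

theorem kap_length_mul {p : ℝ} (h0 : 0 < p) (h1 : p < 1) (A : List Bool) :
    wt p A * kap p A A.length = 1 := by
  rw [kap_length]
  have := wt_pos h0 h1 A
  field_simp

/-- split off the full word from a border sum -/
theorem sum_bd_split {p : ℝ} (h0 : 0 < p) (h1 : p < 1) {A : List Bool} (hA : A ≠ []) (f : ℕ → ℝ) :
    wt p A * ∑ j ∈ bd A, kap p A j * f j
      = f A.length + ∑ j ∈ (bd A).erase A.length, (wt p A * kap p A j) * f j := by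
  rw [← Finset.add_sum_erase _ _ (bd_self hA), mul_add, ← mul_assoc, kap_length_mul h0 h1, one_mul,
    mul_sum]
  congr 1
  exact sum_congr rfl (fun j _ => by ring)

theorem deriv_aux {s : ℝ} (hs : s ≠ 0) (e κ x y : ℝ) :
    s * (-(e * κ) / s * x + κ * y) = κ * (s * y - e * x) := by
  field_simp
  ring

section

variable {p : ℝ} {A B : List Bool}

/-- the weights -/
noncomputable def wz (A B : List Bool) (p : ℝ) (k : ℤ) : ℝ := WZ (pm p A) (pm p B) k

/-- the derivative of the weights -/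
noncomputable def wz' (A B : List Bool) (p : ℝ) (k : ℤ) : ℝ := deriv (fun x => wz A B x k) p

theorem hasDerivAt_wz (h0 : 0 < p) (h1 : p < 1) (hA : A ≠ []) (hB : B ≠ []) (k : ℤ) :
    HasDerivAt (fun x => wz A B x k) (wz' A B p k) p :=
  (differentiableAt_WZ h0 h1 hA hB k).hasDerivAt

theorem wz_F (h0 : 0 < p) (h1 : p < 1) (hA : A ≠ []) (hB : B ≠ []) {k : ℤ}
    (hk : k < A.length + B.length) :
    wz A B p k = ∑ j ∈ bd B, kap p B j * (wz A B p (k - j + 1) - wz A B p (k - j)) :=
  WZ_F1 (isProb_pm h0 h1 hA) (isProb_pm h0 h1 hB) (ren_pm h0 h1 hB) (LA := A.length)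
    (LB := B.length) (fun _ hn => pm_of_lt p hn) (fun _ hn => pm_of_lt p hn) hk

theorem wz_R (h0 : 0 < p) (h1 : p < 1) (hA : A ≠ []) (hB : B ≠ []) (n : ℤ) :
    wz A B p n - wz A B p (1 - n) + ∑ j ∈ bd A, kap p A j *
      ((wz A B p (n + j - 1 + 1) - wz A B p (n + j - 1)) - (wz A B p (j - n + 1) - wz A B p (j - n)))
      = 0 :=
  WZ_R (isProb_pm h0 h1 hA) (isProb_pm h0 h1 hB) (ren_pm h0 h1 hA)
    ((summable_surv h0 h1 hA).congr (fun n => (srv_pm p hA n).symm)) n

theorem wz_F' (h0 : 0 < p) (h1 : p < 1) (hA : A ≠ []) (hB : B ≠ []) {k : ℤ}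
    (hk : k < A.length + B.length) :
    (p * (1 - p)) * wz' A B p k = ∑ j ∈ bd B, kap p B j *
      ((p * (1 - p)) * (wz' A B p (k - j + 1) - wz' A B p (k - j))
        - eps p (cont (B.take j)) * (wz A B p (k - j + 1) - wz A B p (k - j))) := by
  have hpq : p * (1 - p) ≠ 0 := (mul_pos h0 (by linarith)).ne'
  have hev : ∀ᶠ x in nhds p, 0 < x ∧ x < 1 :=
    (eventually_gt_nhds h0).and (eventually_lt_nhds h1)
  have e1 := hasDerivAt_wz h0 h1 hA hB k
  have e2 : HasDerivAt (fun x => ∑ j ∈ bd B, kap x B j * (wz A B x (k - j + 1) - wz A B x (k - j)))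
      (∑ j ∈ bd B, (-(eps p (cont (B.take j)) * kap p B j) / (p * (1 - p))
        * (wz A B p (k - j + 1) - wz A B p (k - j))
        + kap p B j * (wz' A B p (k - j + 1) - wz' A B p (k - j)))) p := by
    have := HasDerivAt.fun_sum (u := bd B)
      (A := fun j x => kap x B j * (wz A B x (k - j + 1) - wz A B x (k - j)))
      (A' := fun j => -(eps p (cont (B.take j)) * kap p B j) / (p * (1 - p))
        * (wz A B p (k - j + 1) - wz A B p (k - j))
        + kap p B j * (wz' A B p (k - j + 1) - wz' A B p (k - j))) (x := p)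
      (fun j _ => (hasDerivAt_kap_eps h0 h1 B j).mul
        ((hasDerivAt_wz h0 h1 hA hB _).sub (hasDerivAt_wz h0 h1 hA hB _)))
    exact this
  have e3 : (fun x => wz A B x k) =ᶠ[nhds p] (fun x => ∑ j ∈ bd B, kap x B j
      * (wz A B x (k - j + 1) - wz A B x (k - j))) :=
    hev.mono (fun x hx => wz_F hx.1 hx.2 hA hB hk)
  have e4 := e1.unique (e2.congr_of_eventuallyEq e3)
  rw [e4, mul_sum]
  exact sum_congr rfl (fun j _ => deriv_aux hpq _ _ _ _)

theorem wz_R' (h0 : 0 < p) (h1 : p < 1) (hA : A ≠ []) (hB : B ≠ []) (n : ℤ) :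
    (p * (1 - p)) * (wz' A B p n - wz' A B p (1 - n)) + ∑ j ∈ bd A, kap p A j *
      ((p * (1 - p)) * ((wz' A B p (n + j - 1 + 1) - wz' A B p (n + j - 1))
        - (wz' A B p (j - n + 1) - wz' A B p (j - n)))
        - eps p (cont (A.take j)) * ((wz A B p (n + j - 1 + 1) - wz A B p (n + j - 1))
        - (wz A B p (j - n + 1) - wz A B p (j - n)))) = 0 := by
  have hpq : p * (1 - p) ≠ 0 := (mul_pos h0 (by linarith)).ne'
  have hev : ∀ᶠ x in nhds p, 0 < x ∧ x < 1 :=
    (eventually_gt_nhds h0).and (eventually_lt_nhds h1)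
  have e2 : HasDerivAt (fun x => wz A B x n - wz A B x (1 - n) + ∑ j ∈ bd A, kap x A j *
      ((wz A B x (n + j - 1 + 1) - wz A B x (n + j - 1))
        - (wz A B x (j - n + 1) - wz A B x (j - n))))
      ((wz' A B p n - wz' A B p (1 - n)) + ∑ j ∈ bd A,
        (-(eps p (cont (A.take j)) * kap p A j) / (p * (1 - p))
        * ((wz A B p (n + j - 1 + 1) - wz A B p (n + j - 1))
        - (wz A B p (j - n + 1) - wz A B p (j - n)))
        + kap p A j * ((wz' A B p (n + j - 1 + 1) - wz' A B p (n + j - 1))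
        - (wz' A B p (j - n + 1) - wz' A B p (j - n))))) p := by
    have := HasDerivAt.fun_sum (u := bd A)
      (A := fun j x => kap x A j * ((wz A B x (n + j - 1 + 1) - wz A B x (n + j - 1))
        - (wz A B x (j - n + 1) - wz A B x (j - n))))
      (A' := fun j => -(eps p (cont (A.take j)) * kap p A j) / (p * (1 - p))
        * ((wz A B p (n + j - 1 + 1) - wz A B p (n + j - 1))
        - (wz A B p (j - n + 1) - wz A B p (j - n)))
        + kap p A j * ((wz' A B p (n + j - 1 + 1) - wz' A B p (n + j - 1))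
        - (wz' A B p (j - n + 1) - wz' A B p (j - n)))) (x := p)
      (fun j _ => (hasDerivAt_kap_eps h0 h1 A j).mul
        (((hasDerivAt_wz h0 h1 hA hB _).sub (hasDerivAt_wz h0 h1 hA hB _)).sub
        ((hasDerivAt_wz h0 h1 hA hB _).sub (hasDerivAt_wz h0 h1 hA hB _))))
    exact ((hasDerivAt_wz h0 h1 hA hB _).sub (hasDerivAt_wz h0 h1 hA hB _)).add this
  have e3 : (fun x => wz A B x n - wz A B x (1 - n) + ∑ j ∈ bd A, kap x A j *
      ((wz A B x (n + j - 1 + 1) - wz A B x (n + j - 1))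
        - (wz A B x (j - n + 1) - wz A B x (j - n)))) =ᶠ[nhds p] (fun _ => (0 : ℝ)) :=
    hev.mono (fun x hx => wz_R hx.1 hx.2 hA hB n)
  have e4 := (e2.congr_of_eventuallyEq e3.symm).unique (hasDerivAt_const p (0 : ℝ))
  have e5 := congrArg (fun y => (p * (1 - p)) * y) e4
  beta_reduce at e5
  rw [mul_zero, mul_add, mul_sum] at e5
  rw [← e5]
  congr 1
  exact sum_congr rfl (fun j _ => (deriv_aux hpq _ _ _ _).symm)

end

end Coin.WE
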