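import Pool.Agent.Lib.Coin.WE4

/-!
# Coin race: two words with the same content, sharp bounds for the increments of the weights
and for their logarithmic derivatives
-/

namespace Coin.WE

open Finset

/-- increments of the weights -/
noncomputable def dz (A B : List Bool) (p : ℝ) (m : ℤ) : ℝ := wz A B p (m + 1) - wz A B p m

/-- corrected derivative -/
noncomputable def gz (A B : List Bool) (p φ : ℝ) (m : ℤ) : ℝ :=
  (p * (1 - p)) * wz' A B p m - φ * wz A B p m

/-- proper borders -/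
def pb (A : List Bool) : Finset ℕ := (bd A).erase A.length

/-- `P(A) κ_j` -/
noncomputable def tj (p : ℝ) (A : List Bool) (j : ℕ) : ℝ := wt p A * kap p A j

/-- `ε(A) - ε(A_j)` -/
noncomputable def ej (p : ℝ) (A : List Bool) (j : ℕ) : ℝ := eps p (cont A) - eps p (cont (A.take j))

theorem pb_bounds {A : List Bool} {j : ℕ} (hj : j ∈ pb A) : 1 ≤ j ∧ j + 1 ≤ A.length := by
  unfold pb at hj
  rw [Finset.mem_erase] at hj
  have := bd_bounds hj.2
  omega

theorem tj_nonneg {p : ℝ} (h0 : 0 < p) (h1 : p < 1) (A : List Bool) (j : ℕ) : 0 ≤ tj p A j :=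
  mul_nonneg (wt_pos h0 h1 A).le (kap_pos' h0 h1 A j).le

theorem split_bd {p : ℝ} (h0 : 0 < p) (h1 : p < 1) {A : List Bool} (hA : A ≠ []) (f : ℕ → ℝ) :
    wt p A * ∑ j ∈ bd A, kap p A j * f j = f A.length + ∑ j ∈ pb A, tj p A j * f j :=
  sum_bd_split h0 h1 hA f

theorem sys_W {p : ℝ} {A B : List Bool} (h0 : 0 < p) (h1 : p < 1) (hA : A ≠ []) (hB : B ≠ [])
    (hc : cont A = cont B) :
    Sys A.length (wt p A) 0 (pb A) (pb B) (tj p A) (tj p B) (fun _ => 0) (fun _ => 0)
      (wz A B p) (dz A B p) (fun _ => 0) := by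
  have hL := length_eq_of_cont hc
  have hP := wt_eq_of_cont hc p
  refine ⟨fun m _ _ => by simp [dz], ?_, ?_⟩
  · intro k hk1 hk2
    have e1 := wz_F h0 h1 hA hB (k := k) (by omega)
    have e2 := split_bd h0 h1 hB (fun j => dz A B p (k - j))
    have e3 : wz A B p k = ∑ j ∈ bd B, kap p B j * dz A B p (k - j) := e1
    rw [e3, hP, e2, hL]
    congr 1
    exact sum_congr rfl (fun j _ => by ring)
  · intro n hn1 hn2
    have e1 := wz_R h0 h1 hA hB n
    have e2 := split_bd h0 h1 hA (fun j => dz A B p (n + j - 1) - dz A B p (j - n))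
    have e3 : wz A B p n - wz A B p (1 - n)
        + ∑ j ∈ bd A, kap p A j * (dz A B p (n + j - 1) - dz A B p (j - n)) = 0 := e1
    have e4 := congrArg (fun y => wt p A * y) e3
    beta_reduce at e4
    rw [mul_zero, mul_add, e2] at e4
    rw [← e4, add_assoc]
    congr 1
    congr 1
    exact sum_congr rfl (fun j _ => by ring)

theorem sys_G {p φ : ℝ} {A B : List Bool} (h0 : 0 < p) (h1 : p < 1) (hA : A ≠ []) (hB : B ≠ [])
    (hc : cont A = cont B) :
    Sys A.length (wt p A) (eps p (cont A)) (pb A) (pb B) (tj p A) (tj p B) (ej p A) (ej p B)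
      (gz A B p φ) (fun m => gz A B p φ (m + 1) - gz A B p φ m - eps p (cont A) * dz A B p m)
      (dz A B p) := by
  have hL := length_eq_of_cont hc
  have hP := wt_eq_of_cont hc p
  refine ⟨fun m _ _ => by ring, ?_, ?_⟩
  · intro k hk1 hk2
    have e1 := wz_F h0 h1 hA hB (k := k) (by omega)
    have e1' := wz_F' h0 h1 hA hB (k := k) (by omega)
    have e2 := split_bd h0 h1 hB (fun j =>
      (gz A B p φ (k - j + 1) - gz A B p φ (k - j) - eps p (cont A) * dz A B p (k - j))
        + ej p B j * dz A B p (k - j))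
    have e3 : gz A B p φ k = ∑ j ∈ bd B, kap p B j *
        ((gz A B p φ (k - j + 1) - gz A B p φ (k - j) - eps p (cont A) * dz A B p (k - j))
        + ej p B j * dz A B p (k - j)) := by
      unfold gz
      rw [e1', e1, mul_sum, ← sum_sub_distrib]
      refine sum_congr rfl (fun j _ => ?_)
      unfold dz ej
      rw [hc]
      ring
    rw [e3, hP, e2, hL]
    have e4 : ej p B B.length = 0 := by
      unfold ej
      rw [List.take_length, sub_self]
    rw [e4]
    ring
  · intro n hn1 hn2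
    have e1 := wz_R h0 h1 hA hB n
    have e1' := wz_R' h0 h1 hA hB n
    have e2 := split_bd h0 h1 hA (fun j =>
      (((gz A B p φ (n + j - 1 + 1) - gz A B p φ (n + j - 1)
        - eps p (cont A) * dz A B p (n + j - 1))
        - (gz A B p φ (j - n + 1) - gz A B p φ (j - n) - eps p (cont A) * dz A B p (j - n)))
        + ej p A j * (dz A B p (n + j - 1) - dz A B p (j - n))))
    have e3 : (gz A B p φ n - gz A B p φ (1 - n)) + ∑ j ∈ bd A, kap p A j *
        (((gz A B p φ (n + j - 1 + 1) - gz A B p φ (n + j - 1)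
        - eps p (cont A) * dz A B p (n + j - 1))
        - (gz A B p φ (j - n + 1) - gz A B p φ (j - n) - eps p (cont A) * dz A B p (j - n)))
        + ej p A j * (dz A B p (n + j - 1) - dz A B p (j - n))) = 0 := by
      have e5 : ∑ j ∈ bd A, kap p A j *
        (((gz A B p φ (n + j - 1 + 1) - gz A B p φ (n + j - 1)
        - eps p (cont A) * dz A B p (n + j - 1))
        - (gz A B p φ (j - n + 1) - gz A B p φ (j - n) - eps p (cont A) * dz A B p (j - n)))
        + ej p A j * (dz A B p (n + j - 1) - dz A B p (j - n)))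
        = (∑ j ∈ bd A, kap p A j *
          ((p * (1 - p)) * ((wz' A B p (n + j - 1 + 1) - wz' A B p (n + j - 1))
            - (wz' A B p (j - n + 1) - wz' A B p (j - n)))
            - eps p (cont (A.take j)) * ((wz A B p (n + j - 1 + 1) - wz A B p (n + j - 1))
            - (wz A B p (j - n + 1) - wz A B p (j - n)))))
          - φ * ∑ j ∈ bd A, kap p A j * ((wz A B p (n + j - 1 + 1) - wz A B p (n + j - 1))
            - (wz A B p (j - n + 1) - wz A B p (j - n))) := by
        rw [mul_sum, ← sum_sub_distrib]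
        refine sum_congr rfl (fun j _ => ?_)
        unfold gz dz ej
        ring
      rw [e5]
      unfold gz
      linear_combination e1' - φ * e1
    have e4 := congrArg (fun y => wt p A * y) e3
    beta_reduce at e4
    rw [mul_zero, mul_add, e2] at e4
    have e6 : ej p A A.length = 0 := by
      unfold ej
      rw [List.take_length, sub_self]
    rw [e6] at e4
    rw [← e4]
    ring

/-- the sharp bounds for two words with the same content -/
theorem wz_bounds {p : ℝ} {A B : List Bool} (h0 : 0 < p) (h1 : p < 1) (hA : A ≠ []) (hB : B ≠ [])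
    (hc : cont A = cont B) (hsA : ∑ j ∈ pb A, tj p A j ≤ 1 / 11)
    (hsB : ∑ j ∈ pb B, tj p B j ≤ 1 / 11) (hTA : ∑ j ∈ pb A, tj p A j * |ej p A j| ≤ 1 / 4)
    (hTB : ∑ j ∈ pb B, tj p B j * |ej p B j| ≤ 1 / 4) (hlam : A.length * wt p A ≤ 1 / 15)
    (hlame : A.length * wt p A * |eps p (cont A)| ≤ 1 / 6)
    {k : ℤ} (hk1 : 1 ≤ k) (hk2 : k + 1 ≤ A.length) (hW : 0 < wz A B p k) :
    25 / 38 * (wt p A * wz A B p k) ≤ dz A B p k ∧ dz A B p k ≤ 51 / 38 * (wt p A * wz A B p k)
      ∧ (p * (1 - p)) * (wz' A B p (k + 1) * wz A B p k - wz' A B p k * wz A B p (k + 1))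
        ≤ (eps p (cont A) + 3) * (dz A B p k * wz A B p k) := by
  have hL := length_eq_of_cont hc
  have hP0 := wt_pos h0 h1 A
  have hKA : ∀ j ∈ pb A, 1 ≤ j ∧ j + 1 ≤ A.length := fun j hj => pb_bounds hj
  have hKB : ∀ j ∈ pb B, 1 ≤ j ∧ j + 1 ≤ A.length := fun j hj => by
    rw [hL]; exact pb_bounds hj
  have htA : ∀ j ∈ pb A, 0 ≤ tj p A j := fun j _ => tj_nonneg h0 h1 A j
  have htB : ∀ j ∈ pb B, 0 ≤ tj p B j := fun j _ => tj_nonneg h0 h1 B j
  obtain ⟨M1, hM1, hX1, hb1, hd1⟩ := (sys_W h0 h1 hA hB hc).max_arg hP0.le hKA hKB htA htB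
    (t := 1 / 11) (T := 0) (DY := 0) le_rfl (fun _ _ _ => by simp) hsA hsB (by simp) (by simp)
    hk1 hk2
  set w := wz A B p k with hw
  set P := wt p A with hP
  set D := dz A B p k with hD
  set lam : ℝ := A.length * P with hlamdef
  have hlam0 : 0 ≤ lam := mul_nonneg (Nat.cast_nonneg _) hP0.le
  rw [abs_of_pos hW] at hb1
  have hPw : 0 < P * w := mul_pos hP0 hW
  have hM1a : M1 ≤ 165 / 76 * (P * w) := by
    have : M1 * (76 / 165) ≤ M1 * (1 - 4 * lam - 3 * (1 / 11)) :=
      mul_le_mul_of_nonneg_left (by linarith) hM1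
    linarith
  have hd1' : |D - P * w| ≤ 26 / 76 * (P * w) := by
    have e1 : lam * M1 ≤ 1 / 15 * M1 := mul_le_mul_of_nonneg_right hlam hM1
    have e2 : |D - P * w| ≤ lam * (M1 + |0| * 0) + 1 / 11 * M1 + 0 * 0 := hd1
    simp only [abs_zero, mul_zero, add_zero] at e2
    linarith
  rw [abs_le] at hd1'
  have hDlow : 25 / 38 * (P * w) ≤ D := by linarith
  have hDup : D ≤ 51 / 38 * (P * w) := by linarith
  refine ⟨hDlow, hDup, ?_⟩
  set s : ℝ := p * (1 - p) with hs
  set φ : ℝ := s * wz' A B p k / w with hφ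
  obtain ⟨M2, hM2, hX2, hb2, hd2⟩ := (sys_G (φ := φ) h0 h1 hA hB hc).max_arg hP0.le hKA hKB htA htB
    (t := 1 / 11) (T := 1 / 4) (DY := M1) hM1 hX1 hsA hsB hTA hTB hk1 hk2
  have hG0 : gz A B p φ k = 0 := by
    unfold gz
    rw [← hs, ← hw, hφ]
    field_simp
    ring
  rw [hG0, abs_zero, mul_zero, zero_add] at hb2
  set E := |eps p (cont A)| with hE
  have hE0 : 0 ≤ E := abs_nonneg _
  have hM2a : M2 * (76 / 165) ≤ (4 * (1 / 6) + 3 * (1 / 4)) * M1 := by
    have e1 : M2 * (76 / 165) ≤ M2 * (1 - 4 * lam - 3 * (1 / 11)) :=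
      mul_le_mul_of_nonneg_left (by linarith) hM2
    have e2 : (4 * lam * E + 3 * (1 / 4)) * M1 ≤ (4 * (1 / 6) + 3 * (1 / 4)) * M1 :=
      mul_le_mul_of_nonneg_right (by linarith) hM1
    linarith
  have hd2' : |gz A B p φ (k + 1) - gz A B p φ k - eps p (cont A) * D - P * gz A B p φ k|
      ≤ lam * (M2 + E * M1) + 1 / 11 * M2 + 1 / 4 * M1 := hd2
  rw [hG0, mul_zero, sub_zero, sub_zero] at hd2'
  have hfin : lam * (M2 + E * M1) + 1 / 11 * M2 + 1 / 4 * M1 ≤ 3 * D := by
    have e1 : lam * M2 ≤ 1 / 15 * M2 := mul_le_mul_of_nonneg_right hlam hM2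
    have e2 : lam * E * M1 ≤ 1 / 6 * M1 := mul_le_mul_of_nonneg_right hlame hM1
    have e3 : lam * (M2 + E * M1) = lam * M2 + lam * E * M1 := by ring
    have e4 : M1 ≤ 165 / 76 * (38 / 25 * D) := by linarith
    linarith
  have h3 := (le_abs_self _).trans (hd2'.trans hfin)
  have h4 : gz A B p φ (k + 1) = s * wz' A B p (k + 1) - φ * wz A B p (k + 1) := rfl
  have h5 := mul_le_mul_of_nonneg_right h3 hW.le
  rw [h4] at h5
  have h6 : φ * w = s * wz' A B p k := by
    rw [hφ]; field_simp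
  have h7 : (s * wz' A B p (k + 1) - φ * wz A B p (k + 1) - eps p (cont A) * D) * w
      = s * (wz' A B p (k + 1) * w - wz' A B p k * wz A B p (k + 1))
        - eps p (cont A) * (D * w) := by
    have : φ * wz A B p (k + 1) * w = s * wz' A B p k * wz A B p (k + 1) := by
      rw [← h6]; ring
    linear_combination -this
  rw [h7] at h5
  linarith

end Coin.WE
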