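import Pool.Agent.Lib.Coin.WE5
import Pool.Agent.Lib.Coin.Lam4

/-!
# Coin race: border sums when the largest proper border loses at least five heads and one tail,
and the numbers for long words
-/

namespace Coin.WE

open Finset

/-! ## polynomial inequalities -/

theorem poly_a {p : ℝ} (h0 : 0 ≤ p) : p ^ 5 * (1 - p) ≤ 3125 / 46656 := by
  have hQ : 0 ≤ p ^ 4 + 2 / 3 * p ^ 3 + 5 / 12 * p ^ 2 + 25 / 108 * p + 125 / 1296 := by positivity
  have := mul_nonneg (sq_nonneg (p - 5 / 6)) hQ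
  linarith [show (p - 5 / 6) ^ 2 * (p ^ 4 + 2 / 3 * p ^ 3 + 5 / 12 * p ^ 2 + 25 / 108 * p
    + 125 / 1296) = 3125 / 46656 - p ^ 5 * (1 - p) by ring]

theorem poly_b {p : ℝ} (h0 : 0 ≤ p) (h1 : p ≤ 1) : p ^ 5 * (1 - p) ^ 2 ≤ 12500 / 823543 := by
  have hQ : 0 ≤ -p ^ 5 + 4 / 7 * p ^ 4 + 16 / 49 * p ^ 3 + 60 / 343 * p ^ 2 + 200 / 2401 * p
      + 500 / 16807 := by
    have e5 : p ^ 5 ≤ p ^ 4 := pow_le_pow_of_le_one h0 h1 (by norm_num)
    have e4 : p ^ 4 ≤ p ^ 3 := pow_le_pow_of_le_one h0 h1 (by norm_num)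
    have e3 : p ^ 4 ≤ p ^ 2 := pow_le_pow_of_le_one h0 h1 (by norm_num)
    have e0 : 0 ≤ p ^ 4 := by positivity
    linarith
  have := mul_nonneg (sq_nonneg (p - 5 / 7)) hQ
  linarith [show (p - 5 / 7) ^ 2 * (-p ^ 5 + 4 / 7 * p ^ 4 + 16 / 49 * p ^ 3 + 60 / 343 * p ^ 2
    + 200 / 2401 * p + 500 / 16807) = 12500 / 823543 - p ^ 5 * (1 - p) ^ 2 by ring]

/-- `p^x q^s (q x + p s)` is largest at `x = 5`, `s = 1` -/
theorem gxs_le {p : ℝ} (h0 : 0 < p) (h1 : p < 1) {x s : ℕ} (hx : 5 ≤ x) (hs : 1 ≤ s) :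
    p ^ x * (1 - p) ^ s * ((1 - p) * x + p * s) ≤ p ^ 5 * (1 - p) * ((1 - p) * 5 + p) := by
  have hq : 0 < 1 - p := by linarith
  have step1 : ∀ s : ℕ, 1 ≤ s → p ^ 5 * (1 - p) ^ s * ((1 - p) * 5 + p * s)
      ≤ p ^ 5 * (1 - p) * ((1 - p) * 5 + p) := by
    intro s hs
    induction s, hs using Nat.le_induction with
    | base => simp
    | succ n hn ih =>
      refine le_trans ?_ ih
      have hn' : (1 : ℝ) ≤ n := by exact_mod_cast hn
      have e1 : p ^ 5 * (1 - p) ^ (n + 1) * ((1 - p) * 5 + p * ((n + 1 : ℕ) : ℝ))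
          = p ^ 5 * (1 - p) ^ n * ((1 - p) * ((1 - p) * 5 + p * (n + 1))) := by
        push_cast; ring
      rw [e1]
      refine mul_le_mul_of_nonneg_left ?_ (by positivity)
      have e2 : 0 ≤ p * ((1 - p) * 4 + p * n) := by positivity
      nlinarith
  have step2 : ∀ x : ℕ, 5 ≤ x → p ^ x * (1 - p) ^ s * ((1 - p) * x + p * s)
      ≤ p ^ 5 * (1 - p) ^ s * ((1 - p) * 5 + p * s) := by
    intro x hx
    induction x, hx using Nat.le_induction with
    | base => norm_num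
    | succ n hn ih =>
      refine le_trans ?_ ih
      have hn' : (5 : ℝ) ≤ n := by exact_mod_cast hn
      have hs' : (1 : ℝ) ≤ s := by exact_mod_cast hs
      have e1 : p ^ (n + 1) * (1 - p) ^ s * ((1 - p) * ((n + 1 : ℕ) : ℝ) + p * s)
          = p ^ n * (1 - p) ^ s * (p * ((1 - p) * (n + 1) + p * s)) := by
        push_cast; ring
      rw [e1]
      refine mul_le_mul_of_nonneg_left ?_ (by positivity)
      have e2 : 0 ≤ (1 - p) * ((1 - p) * n) := by positivity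
      have e3 : 0 ≤ (1 - p) * (p * (s - 1)) := by
        have : 0 ≤ (s : ℝ) - 1 := by linarith
        positivity
      nlinarith
  exact (step2 x hx).trans (step1 s hs)

theorem pow_xs_le {p : ℝ} (h0 : 0 < p) (h1 : p < 1) {x s : ℕ} (hx : 5 ≤ x) (hs : 1 ≤ s) :
    p ^ x * (1 - p) ^ s ≤ p ^ 5 * (1 - p) := by
  have e1 : p ^ x ≤ p ^ 5 := pow_le_pow_of_le_one h0.le h1.le hx
  have e2 : (1 - p) ^ s ≤ (1 - p) ^ 1 := pow_le_pow_of_le_one (by linarith) (by linarith) hs
  rw [pow_one] at e2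
  exact mul_le_mul e1 e2 (pow_nonneg (by linarith) _) (by positivity)

/-! ## border sums -/

theorem sum_tj {p : ℝ} (h0 : 0 < p) (h1 : p < 1) {Y : List Bool} (hY : Y ≠ []) :
    ∑ j ∈ pb Y, tj p Y j = Sg p Y - 1 := by
  rw [Sg_eq h0 h1 hY, mul_sum]
  unfold pb tj
  ring

theorem sum_tj_le {p : ℝ} (h0 : 0 < p) (h1 : p < 1) {Y : List Bool} {k : ℕ} (hk : k ∈ bd Y)
    (he : (bd Y).erase Y.length = bd (Y.take k)) (ht : true ∈ Y.take k) (hf : false ∈ Y.take k)
    (hx : 5 ≤ (Y.drop k).count true) (hs : 1 ≤ (Y.drop k).count false) :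
    ∑ j ∈ pb Y, tj p Y j ≤ 1 / 11 := by
  have hY : Y ≠ [] := by
    rintro rfl
    simp at ht
  rw [sum_tj h0 h1 hY, Sg_rec h0 h1 hY hk he]
  have e1 := Sg_le_four_thirds h0 h1 ht hf
  have e2 : wt p (Y.drop k) ≤ 3125 / 46656 := (pow_xs_le h0 h1 hx hs).trans (poly_a h0.le)
  have e3 := wt_pos h0 h1 (Y.drop k)
  have e4 := Sg_pos h0 h1 (take_ne_nil hk)
  have e5 : wt p (Y.drop k) * Sg p (Y.take k) ≤ 3125 / 46656 * (4 / 3) :=
    mul_le_mul e2 e1 e4.le (by norm_num)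
  norm_num at e5 ⊢
  linarith

theorem lamT_rec (p : ℝ) {Y : List Bool} (hY : Y ≠ []) {k : ℕ}
    (hk : k ∈ bd Y) (he : (bd Y).erase Y.length = bd (Y.take k)) :
    lamT p Y = wt p (Y.drop k) *
      (p * ((Y.drop k).count false : ℝ) * Sg p (Y.take k) + lamT p (Y.take k)) := by
  have hY' : Y.map not ≠ [] := by simpa using hY
  have hk' : k ∈ bd (Y.map not) := by rw [bd_map_not]; exact hk
  have he' : (bd (Y.map not)).erase (Y.map not).length = bd ((Y.map not).take k) := by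
    rw [bd_map_not, List.length_map, ← List.map_take, bd_map_not]; exact he
  have := lamH_rec (1 - p) hY' hk' he'
  rw [lamT_eq, this, ← List.map_drop, ← List.map_take, count_map_not, Sg_map_not, wt_map_not,
    ← lamT_eq, sub_sub_cancel]
  simp

theorem sum_tj_ej_le {p : ℝ} (h0 : 0 < p) (h1 : p < 1) {Y : List Bool} (hY : Y ≠ []) :
    ∑ j ∈ pb Y, tj p Y j * |ej p Y j| ≤ lamH p Y + lamT p Y := by
  have hq : 0 < 1 - p := by linarith
  have e1 : lamH p Y = ∑ j ∈ bd Y, tj p Y j * ((1 - p) * ((Y.count true : ℝ)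
      - ((Y.take j).count true : ℝ))) := by
    unfold lamH tj
    rw [mul_sum, mul_sum]
    exact sum_congr rfl (fun j _ => by ring)
  have e2 : lamT p Y = ∑ j ∈ bd Y, tj p Y j * (p * ((Y.count false : ℝ)
      - ((Y.take j).count false : ℝ))) := by
    unfold lamT tj
    rw [mul_sum, mul_sum]
    exact sum_congr rfl (fun j _ => by ring)
  rw [e1, e2, ← sum_add_distrib]
  have hnn : ∀ j, 0 ≤ (Y.count true : ℝ) - ((Y.take j).count true : ℝ)
      ∧ 0 ≤ (Y.count false : ℝ) - ((Y.take j).count false : ℝ) := by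
    intro j
    constructor <;>
    · rw [sub_nonneg, Nat.cast_le]
      exact (List.take_sublist _ _).count_le _
  have h3 : ∀ j ∈ pb Y, tj p Y j * |ej p Y j| ≤ tj p Y j * ((1 - p) * ((Y.count true : ℝ)
      - ((Y.take j).count true : ℝ))) + tj p Y j * (p * ((Y.count false : ℝ)
      - ((Y.take j).count false : ℝ))) := by
    intro j _
    rw [← mul_add]
    refine mul_le_mul_of_nonneg_left ?_ (tj_nonneg h0 h1 Y j)
    obtain ⟨a, b⟩ := hnn j
    have a' := mul_nonneg hq.le a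
    have b' := mul_nonneg h0.le b
    have : ej p Y j = (1 - p) * ((Y.count true : ℝ) - ((Y.take j).count true : ℝ))
        - p * ((Y.count false : ℝ) - ((Y.take j).count false : ℝ)) := by
      unfold ej eps cont
      ring
    rw [this, abs_le]
    constructor <;> linarith
  refine (sum_le_sum h3).trans ?_
  refine sum_le_sum_of_subset_of_nonneg (Finset.erase_subset _ _) (fun j _ _ => ?_)
  obtain ⟨a, b⟩ := hnn j
  have := tj_nonneg h0 h1 Y j
  positivity

theorem sum_tj_ej_le' {p : ℝ} (h0 : 0 < p) (h1 : p < 1) {Y : List Bool} {k : ℕ} (hk : k ∈ bd Y)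
    (he : (bd Y).erase Y.length = bd (Y.take k)) (ht : true ∈ Y.take k) (hf : false ∈ Y.take k)
    (hx : 5 ≤ (Y.drop k).count true) (hs : 1 ≤ (Y.drop k).count false) :
    ∑ j ∈ pb Y, tj p Y j * |ej p Y j| ≤ 1 / 4 := by
  have hY : Y ≠ [] := by
    rintro rfl
    simp at ht
  have hq : 0 < 1 - p := by linarith
  refine (sum_tj_ej_le h0 h1 hY).trans ?_
  rw [lamH_rec p hY hk he, lamT_rec p hY hk he]
  have e1 := Sg_le_four_thirds h0 h1 ht hf
  have e3 := wt_pos h0 h1 (Y.drop k)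
  have e4 := Sg_pos h0 h1 (take_ne_nil hk)
  have e5 := lamH_le h0 h1 ht hf
  have e6 := lamT_le h0 h1 ht hf
  set x := (Y.drop k).count true with hxd
  set s := (Y.drop k).count false with hsd
  set w := wt p (Y.drop k) with hw
  have hwv : w = p ^ x * (1 - p) ^ s := rfl
  have e7 : w * ((1 - p) * x + p * s) ≤ p ^ 5 * (1 - p) * ((1 - p) * 5 + p) := by
    rw [hwv]; exact gxs_le h0 h1 hx hs
  have e8 : w ≤ 3125 / 46656 := (pow_xs_le h0 h1 hx hs).trans (poly_a h0.le)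
  have e9 := poly_a (p := p) h0.le
  have e10 := poly_b (p := p) h0.le h1.le
  have e11 : p ^ 5 * (1 - p) * ((1 - p) * 5 + p) = p ^ 5 * (1 - p) + 4 * (p ^ 5 * (1 - p) ^ 2) := by
    ring
  have hc : 0 ≤ w * ((1 - p) * x + p * s) := by positivity
  have e12 : w * ((1 - p) * x + p * s) * Sg p (Y.take k)
      ≤ (3125 / 46656 + 4 * (12500 / 823543)) * (4 / 3) :=
    mul_le_mul (by linarith) e1 e4.le (by norm_num)
  have e13 : w * (lamH p (Y.take k) + lamT p (Y.take k)) ≤ 3125 / 46656 * (3 / 4) := by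
    have a1 : lamH p (Y.take k) + lamT p (Y.take k) ≤ 3 / 4 := by linarith
    have a2 : w * (lamH p (Y.take k) + lamT p (Y.take k)) ≤ w * (3 / 4) :=
      mul_le_mul_of_nonneg_left a1 e3.le
    linarith
  have e14 : w * ((1 - p) * x * Sg p (Y.take k) + lamH p (Y.take k))
      + w * (p * s * Sg p (Y.take k) + lamT p (Y.take k))
      = w * ((1 - p) * x + p * s) * Sg p (Y.take k)
        + w * (lamH p (Y.take k) + lamT p (Y.take k)) := by ring
  rw [e14]
  norm_num at e12 e13 ⊢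
  linarith

/-! ## long words -/

theorem pow_le_exp {p : ℝ} (h0 : 0 ≤ p) (h : ℕ) : p ^ h ≤ Real.exp (-((1 - p) * h)) := by
  have h1 : p ≤ Real.exp (-(1 - p)) := by
    have := Real.add_one_le_exp (-(1 - p))
    linarith
  have h2 : p ^ h ≤ Real.exp (-(1 - p)) ^ h := pow_le_pow_left₀ h0 h1 h
  rw [← Real.exp_nat_mul] at h2
  refine h2.trans (le_of_eq ?_)
  congr 1
  ring

/-- `x² e^{-x} ≤ 4 e^{-2} < 0.5414` -/
theorem sq_exp_le {x : ℝ} (hx : 0 ≤ x) : x ^ 2 * Real.exp (-x) ≤ 5414 / 10000 := by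
  have h1 : x / 2 ≤ Real.exp (x / 2 - 1) := by
    have := Real.add_one_le_exp (x / 2 - 1); linarith
  have h2 : (x / 2) ^ 2 ≤ Real.exp (x / 2 - 1) ^ 2 := pow_le_pow_left₀ (by linarith) h1 2
  rw [← Real.exp_nat_mul] at h2
  have h3 : Real.exp (((2 : ℕ) : ℝ) * (x / 2 - 1)) * Real.exp (-x) = Real.exp (-2) := by
    rw [← Real.exp_add]; congr 1; push_cast; ring
  have h4 := mul_le_mul_of_nonneg_right h2 (Real.exp_pos (-x)).le
  rw [h3] at h4
  have h5 : Real.exp (-2) ≤ 13535 / 100000 := by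
    have e1 : Real.exp (-2) = (Real.exp 1)⁻¹ ^ 2 := by
      rw [← Real.exp_neg, ← Real.exp_nat_mul]; congr 1; norm_num
    have e2 := Real.exp_one_gt_d9
    have e3 : (Real.exp 1)⁻¹ ≤ 10 / 27.182818283 := by
      rw [inv_le_comm₀ (by positivity) (by norm_num)]
      norm_num
      linarith
    rw [e1]
    calc (Real.exp 1)⁻¹ ^ 2 ≤ (10 / 27.182818283) ^ 2 :=
          pow_le_pow_left₀ (by positivity) e3 2
      _ ≤ _ := by norm_num
  have h6 : (x / 2) ^ 2 * Real.exp (-x) = x ^ 2 * Real.exp (-x) / 4 := by ring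
  linarith

/-- `x³ e^{-x} ≤ 27 e^{-3} < 1.345` -/
theorem cube_exp_le {x : ℝ} (hx : 0 ≤ x) : x ^ 3 * Real.exp (-x) ≤ 1345 / 1000 := by
  have h1 : x / 3 ≤ Real.exp (x / 3 - 1) := by
    have := Real.add_one_le_exp (x / 3 - 1); linarith
  have h2 : (x / 3) ^ 3 ≤ Real.exp (x / 3 - 1) ^ 3 := pow_le_pow_left₀ (by linarith) h1 3
  rw [← Real.exp_nat_mul] at h2
  have h3 : Real.exp (((3 : ℕ) : ℝ) * (x / 3 - 1)) * Real.exp (-x) = Real.exp (-3) := by
    rw [← Real.exp_add]; congr 1; push_cast; ring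
  have h4 := mul_le_mul_of_nonneg_right h2 (Real.exp_pos (-x)).le
  rw [h3] at h4
  have h5 : Real.exp (-3) ≤ 49788 / 1000000 := by
    have e1 : Real.exp (-3) = (Real.exp 1)⁻¹ ^ 3 := by
      rw [← Real.exp_neg, ← Real.exp_nat_mul]; congr 1; norm_num
    have e2 := Real.exp_one_gt_d9
    have e3 : (Real.exp 1)⁻¹ ≤ 10 / 27.182818283 := by
      rw [inv_le_comm₀ (by positivity) (by norm_num)]
      norm_num
      linarith
    rw [e1]
    calc (Real.exp 1)⁻¹ ^ 3 ≤ (10 / 27.182818283) ^ 3 :=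
          pow_le_pow_left₀ (by positivity) e3 3
      _ ≤ _ := by norm_num
  have h6 : (x / 3) ^ 3 * Real.exp (-x) = x ^ 3 * Real.exp (-x) / 27 := by ring
  linarith

theorem ht_qt_le {q : ℝ} (h0 : 0 ≤ q) (h1 : q ≤ 1 / 3) (h : ℕ) {t : ℕ} (ht : 2 ≤ t) :
    ((h : ℝ) + t) * q ^ t ≤ (h + 2) * q ^ 2 ∧ ((h : ℝ) + t) * t * q ^ t ≤ (h + 2) * 2 * q ^ 2 := by
  induction t, ht using Nat.le_induction with
  | base => constructor <;> simp
  | succ n hn ih =>
    have hn' : (2 : ℝ) ≤ n := by exact_mod_cast hn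
    have hh : (0 : ℝ) ≤ h := Nat.cast_nonneg h
    obtain ⟨a, b⟩ := ih
    have hqn : 0 ≤ q ^ n := pow_nonneg h0 n
    constructor
    · refine le_trans ?_ a
      have e1 : ((h : ℝ) + ((n + 1 : ℕ) : ℝ)) * q ^ (n + 1) = q ^ n * (q * (h + n + 1)) := by
        push_cast; ring
      have e2 : ((h : ℝ) + n) * q ^ n = q ^ n * (h + n) := by ring
      rw [e1, e2]
      refine mul_le_mul_of_nonneg_left ?_ hqn
      have : q * (h + n + 1) ≤ 1 / 3 * (h + n + 1) :=
        mul_le_mul_of_nonneg_right h1 (by linarith)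
      linarith
    · refine le_trans ?_ b
      have e1 : ((h : ℝ) + ((n + 1 : ℕ) : ℝ)) * ((n + 1 : ℕ) : ℝ) * q ^ (n + 1)
          = q ^ n * (q * ((h + n + 1) * (n + 1))) := by
        push_cast; ring
      have e2 : ((h : ℝ) + n) * n * q ^ n = q ^ n * ((h + n) * n) := by ring
      rw [e1, e2]
      refine mul_le_mul_of_nonneg_left ?_ hqn
      have : q * ((h + n + 1) * (n + 1)) ≤ 1 / 3 * ((h + n + 1) * (n + 1)) :=
        mul_le_mul_of_nonneg_right h1 (by positivity)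
      nlinarith

/-- the main numbers: `(h + 2) p^h q² ≤ 0.065`, `(h + 2) p^h q² (q h) ≤ 0.1614` -/
theorem num_main {p : ℝ} (h0 : 0 < p) (h1 : p < 1) {h : ℕ} (hh : 10 ≤ h) :
    (h + 2) * (1 - p) ^ 2 * p ^ h ≤ 65 / 1000
      ∧ (h + 2) * (1 - p) ^ 2 * p ^ h * ((1 - p) * h) ≤ 1614 / 10000 := by
  have hq : 0 < 1 - p := by linarith
  have hh' : (10 : ℝ) ≤ h := by exact_mod_cast hh
  have e1 := pow_le_exp h0.le h
  set x := (1 - p) * h with hx
  have hx0 : 0 ≤ x := by positivity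
  have e2 := sq_exp_le hx0
  have e3 := cube_exp_le hx0
  have e4 : ((h : ℝ) + 2) * (1 - p) ^ 2 ≤ 12 / 100 * x ^ 2 := by
    have : ((h : ℝ) + 2) ≤ 12 / 100 * h ^ 2 := by nlinarith
    calc ((h : ℝ) + 2) * (1 - p) ^ 2 ≤ (12 / 100 * h ^ 2) * (1 - p) ^ 2 :=
          mul_le_mul_of_nonneg_right this (by positivity)
      _ = _ := by rw [hx]; ring
  have e5 : ((h : ℝ) + 2) * (1 - p) ^ 2 * p ^ h ≤ 12 / 100 * x ^ 2 * Real.exp (-x) :=
    mul_le_mul e4 e1 (by positivity) (by positivity)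
  constructor
  · nlinarith
  · have e6 := mul_le_mul_of_nonneg_right e5 hx0
    have e7 : 12 / 100 * x ^ 2 * Real.exp (-x) * x = 12 / 100 * (x ^ 3 * Real.exp (-x)) := by ring
    rw [e7] at e6
    linarith

theorem lam_le {p : ℝ} (h0 : 0 < p) (h1 : p < 1) (hp : 1 - p ≤ 1 / 3) {A : List Bool}
    (hh : 10 ≤ A.count true) (ht : 2 ≤ A.count false) :
    A.length * wt p A ≤ 1 / 15 ∧ A.length * wt p A * |eps p (cont A)| ≤ 1 / 6 := by
  have hq : 0 < 1 - p := by linarith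
  set h := A.count true with hhd
  set t := A.count false with htd
  have hL : (A.length : ℝ) = h + t := by
    rw [← count_add A]; push_cast; rfl
  have hwt : wt p A = p ^ h * (1 - p) ^ t := rfl
  obtain ⟨a, b⟩ := ht_qt_le hq.le hp h ht
  obtain ⟨c, d⟩ := num_main h0 h1 hh
  have hph : 0 < p ^ h := pow_pos h0 h
  have e1 : A.length * wt p A ≤ (h + 2) * (1 - p) ^ 2 * p ^ h := by
    rw [hL, hwt]
    calc ((h : ℝ) + t) * (p ^ h * (1 - p) ^ t) = ((h + t) * (1 - p) ^ t) * p ^ h := by ring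
      _ ≤ _ := mul_le_mul_of_nonneg_right a hph.le
  have hlam : 0 ≤ A.length * wt p A := mul_nonneg (Nat.cast_nonneg _) (wt_pos h0 h1 A).le
  refine ⟨by linarith, ?_⟩
  have heps : eps p (cont A) = (1 - p) * h - p * t := rfl
  have hx0 : 0 ≤ (1 - p) * h := by positivity
  have hy0 : 0 ≤ p * t := by positivity
  have e2 : A.length * wt p A * ((1 - p) * h) ≤ 1614 / 10000 :=
    (mul_le_mul_of_nonneg_right e1 hx0).trans d
  have e3 : A.length * wt p A * (p * t) ≤ 130 / 1000 := by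
    have e4 : A.length * wt p A * (p * t) ≤ A.length * wt p A * t := by
      refine mul_le_mul_of_nonneg_left ?_ hlam
      have : (0 : ℝ) ≤ t := Nat.cast_nonneg t
      nlinarith
    have e5 : A.length * wt p A * t ≤ 2 * ((h + 2) * (1 - p) ^ 2 * p ^ h) := by
      rw [hL, hwt]
      calc ((h : ℝ) + t) * (p ^ h * (1 - p) ^ t) * t = ((h + t) * t * (1 - p) ^ t) * p ^ h := by
            ring
        _ ≤ ((h + 2) * 2 * (1 - p) ^ 2) * p ^ h := mul_le_mul_of_nonneg_right b hph.le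
        _ = _ := by ring
    linarith
  rw [heps]
  rcases le_total 0 ((1 - p) * h - p * t) with hs | hs
  · rw [abs_of_nonneg hs]
    have : A.length * wt p A * ((1 - p) * h - p * t) ≤ A.length * wt p A * ((1 - p) * h) :=
      mul_le_mul_of_nonneg_left (by linarith) hlam
    linarith
  · rw [abs_of_nonpos hs]
    have : A.length * wt p A * -((1 - p) * h - p * t) ≤ A.length * wt p A * (p * t) :=
      mul_le_mul_of_nonneg_left (by linarith) hlam
    linarith

/-- the final real inequality -/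
theorem final_num {p : ℝ} (h0 : 0 < p) (h1 : p < 1) {A : List Bool}
    (hh : 10 ≤ A.count true) (ht : 2 ≤ A.count false) {U : ℝ}
    (hU : U = (1 - p) * A.count true + 1 + 2 * (1 - p)) :
    51 / 38 * wt p A * (U + p) / (1 - p) + 3 * (51 / 38 * wt p A * U) < 3 * (1 - p) := by
  have hq : 0 < 1 - p := by linarith
  set h := A.count true with hhd
  set t := A.count false with htd
  have hh' : (10 : ℝ) ≤ h := by exact_mod_cast hh
  have hwt : wt p A ≤ p ^ h * (1 - p) ^ 2 := by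
    have : wt p A = p ^ h * (1 - p) ^ t := rfl
    rw [this]
    exact mul_le_mul_of_nonneg_left (pow_le_pow_of_le_one hq.le (by linarith) ht) (by positivity)
  have e1 := pow_le_exp h0.le h
  set x := (1 - p) * h with hx
  have hx0 : 0 ≤ x := by positivity
  have hqx : 1 - p ≤ x / 10 := by rw [hx]; nlinarith
  have hU0 : 0 < U := by rw [hU]; positivity
  -- `e^{-x} ≤ 1 / (1 + x + x²/2)`
  have e2 : Real.exp (-x) * (1 + x + x ^ 2 / 2) ≤ 1 := by
    have := Real.quadratic_le_exp_of_nonneg hx0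
    have h3 : Real.exp (-x) * Real.exp x = 1 := by rw [← Real.exp_add]; simp
    have := mul_le_mul_of_nonneg_left this (Real.exp_pos (-x)).le
    linarith
  have e3 : p ^ h * (U + p + 3 * (1 - p) * U) ≤ 2 := by
    have a1 : U + p + 3 * (1 - p) * U ≤ 2 * (1 + x + x ^ 2 / 2) := by
      rw [hU]
      have b1 : (1 - p) * x ≤ x / 10 * x := mul_le_mul_of_nonneg_right hqx hx0
      have b2 : (1 - p) * (1 - p) ≤ x / 10 * (x / 10) := mul_le_mul hqx hqx hq.le (by linarith)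
      nlinarith
    have a2 : 0 ≤ U + p + 3 * (1 - p) * U := by positivity
    calc p ^ h * (U + p + 3 * (1 - p) * U) ≤ Real.exp (-x) * (2 * (1 + x + x ^ 2 / 2)) :=
          mul_le_mul e1 a1 a2 (Real.exp_pos _).le
      _ = 2 * (Real.exp (-x) * (1 + x + x ^ 2 / 2)) := by ring
      _ ≤ 2 := by linarith
  have hV : 0 ≤ (U + p) / (1 - p) + 3 * U := by positivity
  have e4 : wt p A * ((U + p) / (1 - p) + 3 * U)
      ≤ p ^ h * (1 - p) ^ 2 * ((U + p) / (1 - p) + 3 * U) := mul_le_mul_of_nonneg_right hwt hV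
  have e5 : p ^ h * (1 - p) ^ 2 * ((U + p) / (1 - p) + 3 * U)
      = (1 - p) * (p ^ h * (U + p + 3 * (1 - p) * U)) := by
    field_simp
  have e6 : (1 - p) * (p ^ h * (U + p + 3 * (1 - p) * U)) ≤ (1 - p) * 2 :=
    mul_le_mul_of_nonneg_left e3 hq.le
  have e7 : 51 / 38 * wt p A * (U + p) / (1 - p) + 3 * (51 / 38 * wt p A * U)
      = 51 / 38 * (wt p A * ((U + p) / (1 - p) + 3 * U)) := by ring
  rw [e7]
  linarith

end Coin.WE
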