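import Pool.Agent.Lib.Coin.WE6
import Pool.Agent.Lib.Coin.Assembly

/-!
# Coin race: the borders of the two words in the one-tail window with equal contents
-/

namespace Coin.WE

open Finset

/-- the unary borders of heads are an interval -/
theorem run_exists (A : List Bool) : ∃ m : ℕ, ∀ i : ℕ, (i, 0) ∈ bc A ↔ 1 ≤ i ∧ i ≤ m := by
  set S0 := (bc A).filter (fun z => z.2 = 0) with hS0
  refine ⟨S0.sup Prod.fst, fun i => ⟨fun h => ?_, fun h => ?_⟩⟩
  · constructor
    · obtain ⟨k, hk, hc⟩ := mem_bc.1 h
      have h1 := cont_add hk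
      rw [hc] at h1
      have := bd_pos hk
      simp only [add_zero] at h1
      omega
    · have : (i, 0) ∈ S0 := Finset.mem_filter.2 ⟨h, rfl⟩
      exact Finset.le_sup (f := Prod.fst) this
  · rcases S0.eq_empty_or_nonempty with he | hne
    · rw [he] at h
      simp at h
      omega
    · obtain ⟨z, hz, hz2⟩ := Finset.exists_mem_eq_sup S0 hne Prod.fst
      rw [hz2] at h
      obtain ⟨hz3, hz4⟩ := Finset.mem_filter.1 hz
      have : z = (z.1, 0) := Prod.ext rfl hz4
      rw [this] at hz3
      exact bc_run_true hz3 h.1 h.2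

/-- the part lost by a longer border, when a one-tail word is a border -/
theorem drop_count {A : List Bool} {l k m : ℕ} (hl : l ∈ bd A) (hk : k ∈ bd A) (hlk : l ≤ k)
    (hkL : k < A.length) (h1 : (A.take l).count false = 1)
    (hm : ∀ i, (i, 0) ∈ bc A → i ≤ m) :
    (A.take l).count true ≤ (A.drop k).count true + m ∧ 1 ≤ (A.drop k).count false := by
  have hlL := bd_le hl
  have hl3 := (mem_bd3.1 hl).2
  have hk3 := (mem_bd3.1 hk).2
  rcases Nat.lt_or_ge k (A.length - l + 1) with hcase | hcase
  · -- the whole border is contained in the rest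
    have e1 : A.drop (A.length - l) = (A.drop k).drop (A.length - l - k) := by
      rw [List.drop_drop]; congr 1; omega
    have e2 : ∀ b, (A.take l).count b ≤ (A.drop k).count b := by
      intro b
      rw [hl3, e1]
      exact (List.drop_sublist _ _).count_le _
    have e3 := e2 true
    have e4 := e2 false
    omega
  · -- overlap
    set r := l - (A.length - k) with hr
    have hr1 : 1 ≤ r := by omega
    have hrl : r < l := by omega
    -- `r` is a border
    have e1 : (A.take l).take r = (A.take l).drop (A.length - k) := by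
      rw [List.take_take, min_eq_left hrl.le, List.drop_take, ← hk3, List.take_take,
        min_eq_left (by omega)]
    have hrU : r ∈ bd (A.take l) := by
      rw [mem_bd3, length_take_bd hl]
      refine ⟨⟨hr1, hrl.le⟩, ?_⟩
      rw [e1]
      congr 1
      omega
    have hrA : r ∈ bd A := (bd_take hl hrl.le).1 hrU
    have e2 : ((A.take l).take r).count false < (A.take l).count false :=
      count_lt hrU (by rw [length_take_bd hl]; exact hrl)
        (List.count_pos_iff.1 (by omega))
    rw [List.take_take, min_eq_left hrl.le] at e2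
    have e3 : (A.take r).count false = 0 := by omega
    have e4 : (A.take r).count true = r := by
      have := count_add (A.take r)
      rw [length_take_bd hrA] at this
      omega
    have hrm : r ≤ m := by
      refine hm r (mem_bc.2 ⟨r, hrA, ?_⟩)
      unfold cont
      rw [e3, e4]
    have e5 : A.drop k = (A.take l).drop r := by
      rw [hl3, List.drop_drop]
      congr 1
      omega
    have e6 := count_split (A.take l) r true
    have e7 := count_split (A.take l) r false
    rw [List.take_take, min_eq_left hrl.le, ← e5] at e6 e7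
    omega

theorem win_borders {A B : List Bool} {x y : ℕ × ℕ} (hx : IsTop A B x) (hy : IsTop B A y)
    (hx2 : x.2 = 1) (hy2 : y.2 = 1)
    (hcard : x.1 - y.1 + 1 < (bc B \ bc A).card) :
    ∃ mA mB : ℕ, (∀ i : ℕ, (i, 0) ∈ bc A ↔ 1 ≤ i ∧ i ≤ mA) ∧ (∀ i : ℕ, (i, 0) ∈ bc B ↔ 1 ≤ i ∧ i ≤ mB)
      ∧ mA + (x.1 - y.1) < mB ∧ 2 * mB ≤ y.1 ∧ bc A \ bc B = {x}
      ∧ bc B \ bc A = insert y ((Finset.Ioc mA mB).image (fun i => (i, 0))) := by
  obtain ⟨mA, hmA⟩ := run_exists A
  obtain ⟨mB, hmB⟩ := run_exists B
  have hxm := Finset.mem_sdiff.1 hx.mem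
  have hym := Finset.mem_sdiff.1 hy.mem
  have hS : bc B \ bc A = insert y ((Finset.Ioc mA mB).image (fun i => (i, 0))) := by
    ext z
    rw [Finset.mem_insert, Finset.mem_image]
    constructor
    · intro hz
      have hzm := Finset.mem_sdiff.1 hz
      by_cases hzy : z = y
      · exact Or.inl hzy
      · right
        have h1 := hy.max z hz
        have h2 : z.1 + z.2 < y.1 + y.2 := by
          rcases Nat.lt_or_ge (z.1 + z.2) (y.1 + y.2) with h | h
          · exact h
          · exact absurd (eq_of_size hzm.1 hym.1 (le_antisymm h1 h)) hzy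
        have h3 := bc_lt_snd hzm.1 hym.1 h2 (by omega)
        have h4 : z = (z.1, 0) := Prod.ext rfl (by show z.2 = 0; omega)
        have h5 : (z.1, 0) ∈ bc B := h4 ▸ hzm.1
        have h6 : ¬ (z.1, 0) ∈ bc A := h4 ▸ hzm.2
        have h7 := (hmB z.1).1 h5
        have h8 : ¬ (1 ≤ z.1 ∧ z.1 ≤ mA) := fun h => h6 ((hmA z.1).2 h)
        exact ⟨z.1, Finset.mem_Ioc.2 ⟨by omega, h7.2⟩, h4.symm⟩
    · rintro (rfl | ⟨i, hi, rfl⟩)
      · exact hy.mem
      · rw [Finset.mem_Ioc] at hi
        rw [Finset.mem_sdiff]
        refine ⟨(hmB i).2 ⟨by omega, hi.2⟩, fun h => ?_⟩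
        have := (hmA i).1 h
        omega
  have hlt : mA + (x.1 - y.1) < mB := by
    rw [hS] at hcard
    have h1 := Finset.card_insert_le y ((Finset.Ioc mA mB).image (fun i : ℕ => (i, 0)))
    have h2 := Finset.card_image_le (s := Finset.Ioc mA mB) (f := fun i : ℕ => (i, (0 : ℕ)))
    rw [Nat.card_Ioc] at h2
    omega
  refine ⟨mA, mB, hmA, hmB, hlt, ?_, ?_, hS⟩
  · have hB1 : (mB, 0) ∈ bc B := (hmB mB).2 ⟨by omega, le_rfl⟩
    have h1 := mem_bc_iff.1 hB1
    have h2 := mem_bc_iff.1 hym.1
    simp only [add_zero] at h1
    have h3 : mB < y.1 + y.2 := by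
      by_contra hcon
      have := bc_chain hym.1 hB1 (by simp only [add_zero]; omega)
      simp only at this
      omega
    have h4 : mB ∈ bd (B.take (y.1 + y.2)) := (bd_take h2.1 h3.le).2 h1.1
    have h5 : (B.take (y.1 + y.2)).count false = 1 := by
      have := congrArg Prod.snd h2.2
      simpa [cont, hy2] using this
    have h6 : (B.take (y.1 + y.2)).count true = y.1 := by
      have := congrArg Prod.fst h2.2
      simpa [cont] using this
    have h7 : ((B.take (y.1 + y.2)).take mB).count false = 0 := by
      rw [List.take_take, min_eq_left h3.le]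
      have := congrArg Prod.snd h1.2
      simpa [cont] using this
    have := two_mul_le_of_one_tail h4 h5 h7
    omega
  · ext z
    rw [Finset.mem_singleton]
    constructor
    · intro hz
      have hzm := Finset.mem_sdiff.1 hz
      by_contra hzx
      have h1 := hx.max z hz
      have h2 : z.1 + z.2 < x.1 + x.2 := by
        rcases Nat.lt_or_ge (z.1 + z.2) (x.1 + x.2) with h | h
        · exact h
        · exact absurd (eq_of_size hzm.1 hxm.1 (le_antisymm h1 h)) hzx
      have h3 := bc_lt_snd hzm.1 hxm.1 h2 (by omega)
      have h4 : z = (z.1, 0) := Prod.ext rfl (by show z.2 = 0; omega)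
      have h5 : (z.1, 0) ∈ bc A := h4 ▸ hzm.1
      have h6 : ¬ (z.1, 0) ∈ bc B := h4 ▸ hzm.2
      have h7 := (hmA z.1).1 h5
      exact h6 ((hmB z.1).2 ⟨h7.1, by omega⟩)
    · rintro rfl
      exact hx.mem

/-- everything about the borders in the window with equal contents -/
theorem win_data {A B : List Bool} (hA : A ≠ []) (hB : B ≠ []) (hc : cont A = cont B)
    {x y : ℕ × ℕ} (hx : IsTop A B x) (hy : IsTop B A y)
    (hx2 : x.2 = 1) (hy2 : y.2 = 1) (hlt : y.1 < x.1)
    (hcard : x.1 - y.1 + 1 < (bc B \ bc A).card) :
    ∃ mA mB : ℕ, 2 ≤ mB ∧ 2 * mB ≤ y.1 ∧ mA < mB ∧ bc A \ bc B = {x}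
      ∧ bc B \ bc A = insert y ((Finset.Ioc mA mB).image (fun i => (i, 0)))
      ∧ x.1 + 1 < A.length ∧ 10 ≤ A.count true ∧ 2 ≤ A.count false
      ∧ (∃ k ∈ bd A, (bd A).erase A.length = bd (A.take k) ∧ true ∈ A.take k ∧ false ∈ A.take k
        ∧ 5 ≤ (A.drop k).count true ∧ 1 ≤ (A.drop k).count false)
      ∧ (∃ k ∈ bd B, (bd B).erase B.length = bd (B.take k) ∧ true ∈ B.take k ∧ false ∈ B.take k
        ∧ 5 ≤ (B.drop k).count true ∧ 1 ≤ (B.drop k).count false) := by
  obtain ⟨mA, mB, hmA, hmB, hm, h2m, hSA, hSB⟩ := win_borders hx hy hx2 hy2 hcard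
  have hxm := Finset.mem_sdiff.1 hx.mem
  have hym := Finset.mem_sdiff.1 hy.mem
  have hL := length_eq_of_cont hc
  obtain ⟨hxb, hxc⟩ := mem_bc_iff.1 hxm.1
  obtain ⟨hyb, hyc⟩ := mem_bc_iff.1 hym.1
  rw [hx2] at hxb hxc
  rw [hy2] at hyb hyc
  have hx1t : (A.take (x.1 + 1)).count true = x.1 := by
    have := congrArg Prod.fst hxc
    simpa [cont] using this
  have hx1f : (A.take (x.1 + 1)).count false = 1 := by
    have := congrArg Prod.snd hxc
    simpa [cont, hx2] using this
  have hy1t : (B.take (y.1 + 1)).count true = y.1 := by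
    have := congrArg Prod.fst hyc
    simpa [cont] using this
  have hy1f : (B.take (y.1 + 1)).count false = 1 := by
    have := congrArg Prod.snd hyc
    simpa [cont, hy2] using this
  have hxL : x.1 + 1 < A.length := by
    rcases Nat.lt_or_ge (x.1 + 1) A.length with h | h
    · exact h
    · exfalso
      have h1 : x.1 + 1 = A.length := le_antisymm (bd_le hxb) h
      rw [h1, List.take_length] at hxc
      rw [hc] at hxc
      exact hxm.2 (hxc ▸ cont_mem hB)
  have hyL : y.1 + 1 < B.length := by
    rw [← hL]; omega
  -- drops of `A`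
  have dropA : ∀ k ∈ bd A, x.1 + 1 ≤ k → k < A.length →
      5 ≤ (A.drop k).count true ∧ 1 ≤ (A.drop k).count false := by
    intro k hk h1 h2
    have := drop_count (m := mA) hxb hk h1 h2 hx1f (fun i hi => ((hmA i).1 hi).2)
    rw [hx1t] at this
    omega
  obtain ⟨dx1, dx2⟩ := dropA (x.1 + 1) hxb le_rfl hxL
  have cA1 := count_split A (x.1 + 1) true
  have cA2 := count_split A (x.1 + 1) false
  rw [hx1t] at cA1
  rw [hx1f] at cA2
  have hdx := drop_count (m := mA) hxb hxb le_rfl hxL hx1f (fun i hi => ((hmA i).1 hi).2)
  rw [hx1t] at hdx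
  have hcB1 : B.count true = A.count true := by
    have := congrArg Prod.fst hc
    simpa [cont] using this.symm
  have hcB2 : B.count false = A.count false := by
    have := congrArg Prod.snd hc
    simpa [cont] using this.symm
  refine ⟨mA, mB, by omega, h2m, by omega, hSA, hSB, hxL, by omega, by omega, ?_, ?_⟩
  · rcases exists_top A with he | ⟨k, hk, hkL, he⟩
    · exfalso
      have : x.1 + 1 ∈ (bd A).erase A.length := Finset.mem_erase.2 ⟨by omega, hxb⟩
      rw [he] at this
      simp at this
    · have h1 : x.1 + 1 ∈ bd (A.take k) := by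
        rw [← he]; exact Finset.mem_erase.2 ⟨by omega, hxb⟩
      have h2 : x.1 + 1 ≤ k := by
        have := bd_le h1
        rwa [length_take_bd hk] at this
      obtain ⟨d1, d2⟩ := dropA k hk h2 hkL
      refine ⟨k, hk, he, ?_, ?_, d1, d2⟩
      · have := count_le_of_le (A := A) h2 true
        exact List.count_pos_iff.1 (by omega)
      · have := count_le_of_le (A := A) h2 false
        exact List.count_pos_iff.1 (by omega)
  · rcases exists_top B with he | ⟨k, hk, hkL, he⟩
    · exfalso
      have : y.1 + 1 ∈ (bd B).erase B.length := Finset.mem_erase.2 ⟨by omega, hyb⟩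
      rw [he] at this
      simp at this
    · have h1 : y.1 + 1 ∈ bd (B.take k) := by
        rw [← he]; exact Finset.mem_erase.2 ⟨by omega, hyb⟩
      have h2 : y.1 + 1 ≤ k := by
        have := bd_le h1
        rwa [length_take_bd hk] at this
      have hcount : 5 ≤ (B.drop k).count true ∧ 1 ≤ (B.drop k).count false := by
        rcases Nat.eq_or_lt_of_le h2 with h3 | h3
        · rw [← h3]
          have c1 := count_split B (y.1 + 1) true
          have c2 := count_split B (y.1 + 1) false
          rw [hy1t] at c1
          rw [hy1f] at c2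
          omega
        · -- a longer border of `B` is a border of `A`
          set z := cont (B.take k) with hz
          have hzB : z ∈ bc B := mem_bc.2 ⟨k, hk, rfl⟩
          have hzs : z.1 + z.2 = k := cont_add hk
          have hzA : z ∈ bc A := by
            by_contra hcon
            have := hy.max z (Finset.mem_sdiff.2 ⟨hzB, hcon⟩)
            omega
          have hzx : x.1 + 1 < k := by
            by_contra hcon
            rcases Nat.eq_or_lt_of_le (not_lt.1 hcon) with h4 | h4
            · have : z = x := eq_of_size hzA hxm.1 (by omega)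
              exact hxm.2 (this ▸ hzB)
            · have h5 := bc_lt_snd hzA hxm.1 (by omega) (by omega)
              have h6 := bc_chain hym.1 hzB (by omega)
              omega
          obtain ⟨hkA, hkc⟩ := mem_bc_iff.1 hzA
          rw [hzs] at hkA hkc
          obtain ⟨d1, d2⟩ := dropA k hkA (by omega) (by rw [hL]; exact hkL)
          have c1 := count_split A k true
          have c2 := count_split A k false
          have c3 := count_split B k true
          have c4 := count_split B k false
          have e1 : (A.take k).count true = (B.take k).count true := by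
            have := congrArg Prod.fst hkc
            simpa [cont, hz] using this
          have e2 : (A.take k).count false = (B.take k).count false := by
            have := congrArg Prod.snd hkc
            simpa [cont, hz] using this
          omega
      refine ⟨k, hk, he, ?_, ?_, hcount.1, hcount.2⟩
      · have := count_le_of_le (A := B) h2 true
        exact List.count_pos_iff.1 (by omega)
      · have := count_le_of_le (A := B) h2 false
        exact List.count_pos_iff.1 (by omega)

end Coin.WE
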