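import Pool.Agent.Lib.Coin.WE7

/-!
# Coin race: the one-tail window inside two words with the same content (`WinEq`)
-/

namespace Coin.WE

open Finset Filter

/-! ## pure real lemmas -/

/-- logarithmic derivatives: chaining -/
theorem chain_log {s κ U c P : ℝ} {w w' : ℕ → ℝ} (hU : 0 ≤ U) (hκ : κ = c * P * U) {i l : ℕ}
    (hil : i ≤ l) (hw : ∀ k, i ≤ k → k ≤ l → 0 < w k)
    (hD : ∀ k, i ≤ k → k < l → 0 ≤ w (k + 1) - w k ∧ w (k + 1) - w k ≤ c * P * w k)
    (hd : ∀ k, i ≤ k → k < l →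
      s * (w' (k + 1) * w k - w' k * w (k + 1)) ≤ U * ((w (k + 1) - w k) * w k)) :
    s * (w' l * w i - w' i * w l) ≤ (l - i) * κ * (w l * w i) := by
  induction l, hil using Nat.le_induction with
  | base => simp
  | succ n hn ih =>
    have h1 := ih (fun k a b => hw k a (by omega)) (fun k a b => hD k a (by omega))
      (fun k a b => hd k a (by omega))
    have hwi := hw i le_rfl (by omega)
    have hwn := hw n hn (by omega)
    have hwn1 := hw (n + 1) (by omega) le_rfl
    obtain ⟨d1, d2⟩ := hD n hn (by omega)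
    have h2 := hd n hn (by omega)
    have hcP : 0 ≤ c * P := by
      by_contra hcon
      push Not at hcon
      have : c * P * w n < 0 := mul_neg_of_neg_of_pos hcon hwn
      linarith
    have hκ0 : 0 ≤ κ := by rw [hκ]; exact mul_nonneg hcP hU
    have h3 : U * ((w (n + 1) - w n) * w n) ≤ κ * (w n * w (n + 1)) := by
      have e1 : U * ((w (n + 1) - w n) * w n) ≤ U * ((c * P * w n) * w n) :=
        mul_le_mul_of_nonneg_left (mul_le_mul_of_nonneg_right d2 hwn.le) hU
      have e2 : U * ((c * P * w n) * w n) = κ * (w n * w n) := by rw [hκ]; ring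
      have e3 : κ * (w n * w n) ≤ κ * (w n * w (n + 1)) :=
        mul_le_mul_of_nonneg_left (mul_le_mul_of_nonneg_left (by linarith) hwn.le) hκ0
      linarith
    have e4 := mul_le_mul_of_nonneg_left (h2.trans h3) hwi.le
    have e5 := mul_le_mul_of_nonneg_left h1 hwn1.le
    have e6 : w n * (s * (w' (n + 1) * w i - w' i * w (n + 1)))
        ≤ w n * ((((n + 1 : ℕ) : ℝ) - i) * κ * (w (n + 1) * w i)) := by
      push_cast
      nlinarith
    exact le_of_mul_le_mul_left e6 hwn

/-- the quotient of two terms is decreasing -/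
theorem pair_neg {p α β wl wi wl' wi' D D' κ U cP : ℝ} {l i : ℕ} (h0 : 0 < p) (h1 : p < 1)
    (hα : 0 < α) (hβ : 0 < β) (hwl : 0 < wl) (hwi : 0 < wi) (hD0 : 0 ≤ D) (hD : D ≤ cP * wl)
    (hU : 0 ≤ U) (hκ : κ = cP * U) (hcP : 0 ≤ cP) (hli : i + 3 ≤ l)
    (e1 : (p * (1 - p)) * (wl' * wi - wi' * wl) ≤ (l - i) * κ * (wl * wi))
    (e2 : (p * (1 - p)) * (D' * wl - wl' * D) ≤ U * (D * wl))
    (hnum : cP * (U + p) / (1 - p) + 3 * (cP * U) < 3 * (1 - p)) :
    (-(l : ℝ) / p * (α * (wl + D / (1 - p)))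
        + α * (wl' + (D' * (1 - p) + D) / (1 - p) ^ 2)) * (β * wi)
      - (-(i : ℝ) / p * (β * wi) + β * wi') * (α * (wl + D / (1 - p))) < 0 := by
  have hq : 0 < 1 - p := by linarith
  set q := 1 - p with hqd
  set s := p * q with hs
  have hs0 : 0 < s := mul_pos h0 hq
  have hn : (3 : ℝ) ≤ (l : ℝ) - i := by
    have : ((i + 3 : ℕ) : ℝ) ≤ l := by exact_mod_cast hli
    push_cast at this
    linarith
  set n : ℝ := (l : ℝ) - i with hnd
  have hκ0 : 0 ≤ κ := by rw [hκ]; exact mul_nonneg hcP hU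
  -- second term
  have e3 : s * (D' * wi - wi' * D) ≤ (U + n * κ) * (D * wi) := by
    have a1 := mul_le_mul_of_nonneg_left e2 hwi.le
    have a2 := mul_le_mul_of_nonneg_left e1 hD0
    have a3 : wl * (s * (D' * wi - wi' * D)) ≤ wl * ((U + n * κ) * (D * wi)) := by nlinarith
    exact le_of_mul_le_mul_left a3 hwl
  -- the bracket
  set br := -(n * q) * (wl + D / q) * wi + s * (wl' * wi - wi' * wl)
    + (1 / q) * (s * (D' * wi - wi' * D)) + (p / q) * (D * wi) with hbr
  have key : s * ((-(l : ℝ) / p * (α * (wl + D / q)) + α * (wl' + (D' * q + D) / q ^ 2)) * (β * wi)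
      - (-(i : ℝ) / p * (β * wi) + β * wi') * (α * (wl + D / q))) = α * β * br := by
    rw [hbr, hs, hnd]
    field_simp
    ring
  have hbr1 : br ≤ wi * (-(n * (q - κ)) * (wl + D / q) + (U + p) * (D / q)) := by
    have a1 : (1 / q) * (s * (D' * wi - wi' * D)) ≤ (1 / q) * ((U + n * κ) * (D * wi)) :=
      mul_le_mul_of_nonneg_left e3 (by positivity)
    have a2 : -(n * q) * (wl + D / q) * wi + n * κ * (wl * wi)
        + (1 / q) * ((U + n * κ) * (D * wi)) + (p / q) * (D * wi)
        = wi * (-(n * (q - κ)) * (wl + D / q) + (U + p) * (D / q)) := by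
      field_simp
      ring
    rw [hbr]
    linarith
  have hqκ : 0 < q - κ := by
    have : 0 ≤ cP * (U + p) / q := by positivity
    rw [hκ]
    linarith
  have hbr2 : -(n * (q - κ)) * (wl + D / q) + (U + p) * (D / q) < 0 := by
    have a1 : D / q ≤ cP * wl / q := div_le_div_of_nonneg_right hD hq.le
    have a2 : 0 ≤ D / q := by positivity
    have a3 : (U + p) * (D / q) ≤ (U + p) * (cP * wl / q) :=
      mul_le_mul_of_nonneg_left a1 (by linarith)
    have a4 : (U + p) * (cP * wl / q) = (cP * (U + p) / q) * wl := by ring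
    have a5 : (cP * (U + p) / q) * wl < (3 * (q - κ)) * wl := by
      refine mul_lt_mul_of_pos_right ?_ hwl
      rw [hκ]; linarith
    have a6 : (3 * (q - κ)) * wl ≤ (n * (q - κ)) * (wl + D / q) :=
      mul_le_mul (mul_le_mul_of_nonneg_right hn hqκ.le) (by linarith) hwl.le (by positivity)
    linarith
  have hbr3 : br < 0 := lt_of_le_of_lt hbr1 (mul_neg_of_pos_of_neg hwi hbr2)
  have h5 : s * ((-(l : ℝ) / p * (α * (wl + D / q)) + α * (wl' + (D' * q + D) / q ^ 2)) * (β * wi)
      - (-(i : ℝ) / p * (β * wi) + β * wi') * (α * (wl + D / q))) < 0 := by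
    rw [key]
    exact mul_neg_of_pos_of_neg (mul_pos hα hβ) hbr3
  by_contra hcon
  push Not at hcon
  have := mul_nonneg hs0.le hcon
  linarith

theorem hasDerivAt_inv_pow {p : ℝ} (h0 : 0 < p) (l : ℕ) :
    HasDerivAt (fun x : ℝ => (x ^ l)⁻¹) (-(l : ℝ) / p * (p ^ l)⁻¹) p := by
  have hne : p ^ l ≠ 0 := (pow_pos h0 l).ne'
  have h := (hasDerivAt_pow l p).inv hne
  refine (h.congr_deriv ?_)
  rcases Nat.eq_zero_or_pos l with hl | hl
  · subst hl; simp
  · have e : p ^ l = p ^ (l - 1) * p := by rw [← pow_succ, Nat.sub_add_cancel hl]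
    have h2 : p ^ (l - 1) ≠ 0 := (pow_pos h0 _).ne'
    have h3 : p ≠ 0 := h0.ne'
    rw [e]
    field_simp

/-- a geometric sum -/
theorem sum_inv_pow_lt {p : ℝ} (h0 : 0 < p) (h1 : p < 1) (a : ℕ) {b : ℕ} (hab : a ≤ b) :
    ∑ i ∈ Ioc a b, (p ^ i)⁻¹ < (p ^ b * (1 - p))⁻¹ := by
  have hq : 0 < 1 - p := by linarith
  induction b, hab using Nat.le_induction with
  | base => simp only [Ioc_self, sum_empty]; positivity
  | succ n hn ih =>
    rw [← Finset.insert_Ioc_right_eq_Ioc_add_one (by omega : a ≤ n),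
      Finset.sum_insert (by simp)]
    have hpn : 0 < p ^ n := pow_pos h0 n
    have e : (p ^ (n + 1))⁻¹ + (p ^ n * (1 - p))⁻¹ = (p ^ (n + 1) * (1 - p))⁻¹ := by
      rw [pow_succ]
      field_simp
      ring
    linarith

end Coin.WE
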