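import Pool.Agent.Lib.Coin.WE8

/-!
# Coin race: `WinEq`
-/

namespace Coin.WE

open Finset Filter

section

variable {p : ℝ} {A B : List Bool}

theorem Wk_eq_wz (h0 : 0 < p) (h1 : p < 1) (hA : A ≠ []) (hB : B ≠ []) {k : ℕ} (hk : 1 ≤ k) :
    Wk (pm p A) (pm p B) (pm p B) k = wz A B p k :=
  Wk_eq_WZ (isProb_pm h0 h1 hA) (isProb_pm h0 h1 hB) hk

/-- the terms of the two sums -/
noncomputable def Xt (A B : List Bool) (l : ℕ) (p : ℝ) : ℝ :=
  (p ^ l)⁻¹ * (wz A B p l + (wz A B p (l + 1) - wz A B p l) / (1 - p))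

noncomputable def Yt (A B : List Bool) (i : ℕ) (p : ℝ) : ℝ := (p ^ i)⁻¹ * wz A B p i

noncomputable def Xt' (A B : List Bool) (l : ℕ) (p : ℝ) : ℝ :=
  -(l : ℝ) / p * ((p ^ l)⁻¹ * (wz A B p l + (wz A B p (l + 1) - wz A B p l) / (1 - p)))
    + (p ^ l)⁻¹ * (wz' A B p l + ((wz' A B p (l + 1) - wz' A B p l) * (1 - p)
      + (wz A B p (l + 1) - wz A B p l)) / (1 - p) ^ 2)

noncomputable def Yt' (A B : List Bool) (i : ℕ) (p : ℝ) : ℝ :=
  -(i : ℝ) / p * ((p ^ i)⁻¹ * wz A B p i) + (p ^ i)⁻¹ * wz' A B p i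

theorem hasDerivAt_Yt (h0 : 0 < p) (h1 : p < 1) (hA : A ≠ []) (hB : B ≠ []) (i : ℕ) :
    HasDerivAt (Yt A B i) (Yt' A B i p) p := by
  have h := (hasDerivAt_inv_pow h0 i).mul (hasDerivAt_wz h0 h1 hA hB i)
  refine HasDerivAt.congr_deriv h ?_
  unfold Yt'
  ring

theorem hasDerivAt_Xt (h0 : 0 < p) (h1 : p < 1) (hA : A ≠ []) (hB : B ≠ []) (l : ℕ) :
    HasDerivAt (Xt A B l) (Xt' A B l p) p := by
  have hq : (1 - p) ≠ 0 := by linarith
  have hq' : HasDerivAt (fun x : ℝ => 1 - x) (-1) p := by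
    have h := (hasDerivAt_const p (1 : ℝ)).sub (hasDerivAt_id p)
    rw [zero_sub] at h
    exact h
  have hw := hasDerivAt_wz h0 h1 hA hB l
  have hw1 := hasDerivAt_wz h0 h1 hA hB ((l : ℤ) + 1)
  have h := (hasDerivAt_inv_pow h0 l).mul (hw.add ((hw1.sub hw).div hq' hq))
  refine HasDerivAt.congr_deriv h ?_
  unfold Xt'
  simp only [Pi.add_apply, Pi.sub_apply, Pi.div_apply]
  ring

/-- telescoping of the `X` terms -/
theorem sum_Xt (h0 : 0 < p) (h1 : p < 1) {c a : ℕ} (hca : c ≤ a) :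
    ∑ l ∈ Ioc c a, Xt A B l p = (p ^ a * (1 - p))⁻¹ * wz A B p ((a + 1 : ℕ) : ℤ)
      - (p ^ c * (1 - p))⁻¹ * wz A B p ((c + 1 : ℕ) : ℤ) := by
  have hq : (1 - p) ≠ 0 := by linarith
  induction a, hca using Nat.le_induction with
  | base => simp
  | succ n hn ih =>
    rw [← Finset.insert_Ioc_right_eq_Ioc_add_one (by omega : c ≤ n), Finset.sum_insert (by simp), ih]
    unfold Xt
    have hpn : p ^ n ≠ 0 := (pow_pos h0 n).ne'
    have hp : p ≠ 0 := h0.ne'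
    push_cast
    rw [pow_succ]
    field_simp
    ring

/-- the race function in the window -/
theorem G_eq_XY (h0 : 0 < p) (h1 : p < 1) (hA : A ≠ []) (hB : B ≠ []) {x y : ℕ × ℕ}
    (hx2 : x.2 = 1) (hy2 : y.2 = 1) (hyx : y.1 ≤ x.1) {mA mB : ℕ} (hSA : bc A \ bc B = {x})
    (hSB : bc B \ bc A = insert y ((Finset.Ioc mA mB).image (fun i => (i, 0)))) :
    G p A B = ∑ i ∈ Ioc mA mB, Yt A B i p - ∑ l ∈ Ioc y.1 x.1, Xt A B l p := by
  rw [G_eq_sdiff h0 h1 hA hB, hSA, hSB, Finset.sum_singleton, Finset.sum_insert, Finset.sum_image]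
  · rw [sum_Xt h0 h1 hyx, hx2, hy2, Wk_eq_wz h0 h1 hA hB (by omega : 1 ≤ y.1 + 1),
      Wk_eq_wz h0 h1 hA hB (by omega : 1 ≤ x.1 + 1)]
    have e1 : ∑ i ∈ Ioc mA mB, kapc p (i, 0) * Wk (pm p A) (pm p B) (pm p B)
        (((i, 0) : ℕ × ℕ).1 + ((i, 0) : ℕ × ℕ).2) = ∑ i ∈ Ioc mA mB, Yt A B i p := by
      refine Finset.sum_congr rfl (fun i hi => ?_)
      rw [Finset.mem_Ioc] at hi
      simp only [add_zero]
      rw [Wk_eq_wz h0 h1 hA hB (by omega : 1 ≤ i)]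
      unfold kapc Yt
      simp
    rw [e1]
    unfold kapc
    rw [hx2, hy2]
    simp only [pow_one, one_div]
    ring
  · intro i _ j _ h
    simpa using h
  · intro h
    rw [Finset.mem_image] at h
    obtain ⟨i, _, hi⟩ := h
    rw [← hi] at hy2
    simp at hy2

end

end Coin.WE
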