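import Pool.Agent.Lib.Coin.Deriv
import Pool.Agent.Lib.Coin.Lag

/-!
# Coin race: the weights for all integer indices and their two linear recurrences (module M6)

`wz a b k = P(A + B' - B ∈ {k, k - 1})` for every integer `k`.
-/

namespace Coin

open Finset

/-- extension by zero to the integers -/
noncomputable def ext (f : ℕ → ℝ) (z : ℤ) : ℝ := if 0 ≤ z then f z.toNat else 0

theorem ext_coe (f : ℕ → ℝ) (n : ℕ) : ext f (n : ℤ) = f n := by simp [ext]

theorem ext_of_neg (f : ℕ → ℝ) {z : ℤ} (h : z < 0) : ext f z = 0 := by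
  simp [ext, not_le.mpr h]

theorem ext_nonneg {f : ℕ → ℝ} (hf : ∀ n, 0 ≤ f n) (z : ℤ) : 0 ≤ ext f z := by
  unfold ext; split_ifs
  · exact hf _
  · exact le_rfl

theorem ext_le_one {f : ℕ → ℝ} (hf : IsProb f) (z : ℤ) : ext f z ≤ 1 := by
  unfold ext; split_ifs
  · exact hf.le_one _
  · exact zero_le_one

/-- `ext f` vanishes below `L` -/
theorem ext_eq_zero {f : ℕ → ℝ} {L : ℕ} (h : ∀ n < L, f n = 0) {z : ℤ} (hz : z < L) :
    ext f z = 0 := by
  rcases lt_or_ge z 0 with h0 | h0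
  · exact ext_of_neg f h0
  · obtain ⟨n, rfl⟩ := Int.eq_ofNat_of_zero_le h0
    rw [ext_coe]; exact h n (by exact_mod_cast hz)

/-- `ext f` is nonincreasing from `L` on -/
theorem ext_anti {f : ℕ → ℝ} {L : ℕ} (h : ∀ n, L ≤ n → f (n + 1) ≤ f n) {z : ℤ} (hz : (L : ℤ) ≤ z) :
    ext f (z + 1) ≤ ext f z := by
  obtain ⟨n, rfl⟩ := Int.eq_ofNat_of_zero_le (le_trans (Int.natCast_nonneg L) hz)
  have : ((n : ℤ) + 1) = ((n + 1 : ℕ) : ℤ) := by push_cast; ring
  rw [this, ext_coe, ext_coe]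
  exact h n (by exact_mod_cast hz)

/-- sums over the integers against an extension are sums over the naturals -/
theorem tsum_ext_mul (f : ℕ → ℝ) (F : ℤ → ℝ) :
    ∑' x : ℤ, ext f x * F x = ∑' n : ℕ, f n * F n := by
  have hinj : Function.Injective (fun n : ℕ => (n : ℤ)) := Nat.cast_injective
  have hsup : Function.support (fun x : ℤ => ext f x * F x) ⊆ Set.range (fun n : ℕ => (n : ℤ)) := by
    intro x hx
    by_contra hcon
    apply hx
    rcases lt_or_ge x 0 with h | h
    · simp [ext_of_neg f h]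
    · obtain ⟨n, rfl⟩ := Int.eq_ofNat_of_zero_le h
      exact (hcon ⟨n, rfl⟩).elim
  rw [← hinj.tsum_eq hsup]
  exact tsum_congr (fun n => by simp [ext_coe])

/-- the renewal identity differenced, on the integers -/
theorem Ren.ext_diff {K : Finset ℕ} {kap a : ℕ → ℝ} (h : Ren K kap a) (ha : IsProb a) (z : ℤ) :
    ∑ j ∈ K, kap j * (ext a (z + j) - ext a (z + j - 1)) = (if z = 0 then 1 else 0) - ext a z := by
  rcases lt_trichotomy z 0 with hz | hz | hz
  · rw [if_neg hz.ne, ext_of_neg a hz, sub_zero]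
    refine sum_eq_zero (fun j hj => ?_)
    have h1 : ext a (z + j) = 0 := ext_eq_zero (h.van j hj) (by omega)
    have h2 : ext a (z + j - 1) = 0 := ext_eq_zero (h.van j hj) (by omega)
    rw [h1, h2]; simp
  · subst hz
    have h1 := h.eq 0
    simp only [zero_add] at h1
    have h2 : ∀ j ∈ K, kap j * (ext a ((0 : ℤ) + j) - ext a ((0 : ℤ) + j - 1)) = kap j * a j := by
      intro j hj
      have h3 : ext a ((0 : ℤ) + j - 1) = 0 := ext_eq_zero (h.van j hj) (by omega)
      rw [h3, zero_add, ext_coe, sub_zero]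
    rw [sum_congr rfl h2, h1]
    have h4 : ext a 0 = a 0 := ext_coe a 0
    rw [h4, ha.zero]
    simp [srv, ha.zero]
  · obtain ⟨n, rfl⟩ : ∃ n : ℕ, z = (n : ℤ) + 1 := ⟨(z - 1).toNat, by omega⟩
    have hne : ((n : ℤ) + 1 = 0) = False := by simp; omega
    rw [if_neg (by omega : ¬ ((n : ℤ) + 1 = 0)), zero_sub]
    have e1 : ((n : ℤ) + 1) = ((n + 1 : ℕ) : ℤ) := by push_cast; ring
    have h2 : ∀ j ∈ K, kap j * (ext a ((n : ℤ) + 1 + j) - ext a ((n : ℤ) + 1 + j - 1))
        = kap j * a (n + 1 + j) - kap j * a (n + j) := by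
      intro j hj
      have e2 : ((n : ℤ) + 1 + j) = ((n + 1 + j : ℕ) : ℤ) := by push_cast; ring
      have e3 : (((n + 1 + j : ℕ) : ℤ) - 1) = ((n + j : ℕ) : ℤ) := by push_cast; ring
      rw [e2, e3, ext_coe, ext_coe]; ring
    rw [sum_congr rfl h2, sum_sub_distrib, h.eq, h.eq, e1, ext_coe]
    simp only [srv, sum_range_succ]
    ring

/-- the same after a convolution -/
theorem Ren.ext_conv_diff {K : Finset ℕ} {kap a b : ℕ → ℝ} (h : Ren K kap a) (ha : IsProb a)
    (hb : IsProb b) (z : ℤ) :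
    ∑ j ∈ K, kap j * (ext (conv a b) (z + j) - ext (conv a b) (z + j - 1))
      = ext b z - ext (conv a b) z := by
  have hvan : ∀ j ∈ K, ∀ m < j, conv a b m = 0 := by
    intro j hj m hm
    have := conv_eq_zero (LB := 0) (h.van j hj) (b := b) (fun n hn => absurd hn (Nat.not_lt_zero _))
      (m := m) (by omega)
    exact this
  rcases lt_trichotomy z 0 with hz | hz | hz
  · rw [ext_of_neg b hz, ext_of_neg _ hz, sub_zero]
    refine sum_eq_zero (fun j hj => ?_)
    have h1 : ext (conv a b) (z + j) = 0 := ext_eq_zero (hvan j hj) (by omega)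
    have h2 : ext (conv a b) (z + j - 1) = 0 := ext_eq_zero (hvan j hj) (by omega)
    rw [h1, h2]; simp
  · subst hz
    have h1 := h.conv_srv b 0
    simp only [zero_add] at h1
    have h2 : ∀ j ∈ K, kap j * (ext (conv a b) ((0 : ℤ) + j) - ext (conv a b) ((0 : ℤ) + j - 1))
        = kap j * conv a b j := by
      intro j hj
      have h3 : ext (conv a b) ((0 : ℤ) + j - 1) = 0 := ext_eq_zero (hvan j hj) (by omega)
      rw [h3, zero_add, ext_coe, sub_zero]
    rw [sum_congr rfl h2, ← h1]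
    have h4 : ext b 0 = b 0 := ext_coe b 0
    have h5 : ext (conv a b) 0 = conv a b 0 := ext_coe _ 0
    rw [h4, h5]
    simp [conv, hb.zero]
  · obtain ⟨n, rfl⟩ : ∃ n : ℕ, z = (n : ℤ) + 1 := ⟨(z - 1).toNat, by omega⟩
    have e1 : ((n : ℤ) + 1) = ((n + 1 : ℕ) : ℤ) := by push_cast; ring
    have h2 : ∀ j ∈ K, kap j * (ext (conv a b) ((n : ℤ) + 1 + j)
          - ext (conv a b) ((n : ℤ) + 1 + j - 1))
        = kap j * conv a b (n + 1 + j) - kap j * conv a b (n + j) := by
      intro j hj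
      have e2 : ((n : ℤ) + 1 + j) = ((n + 1 + j : ℕ) : ℤ) := by push_cast; ring
      have e3 : (((n + 1 + j : ℕ) : ℤ) - 1) = ((n + j : ℕ) : ℤ) := by push_cast; ring
      rw [e2, e3, ext_coe, ext_coe]; ring
    rw [sum_congr rfl h2, sum_sub_distrib, ← h.conv_srv, ← h.conv_srv, e1, ext_coe, ext_coe]
    -- conv (srv a) b (n+1) - conv (srv a) b n = b (n+1) - conv a b (n+1)
    rw [conv_comm (srv a) b, conv_comm a b, conv_eq_range, conv_eq_range, conv_eq_range]
    rw [sum_range_succ _ (n + 1), sum_range_succ _ (n + 1)]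
    have h3 : ∀ i ∈ range (n + 1), b i * srv a (n + 1 - i) - b i * srv a (n - i)
        = - (b i * a (n + 1 - i)) := by
      intro i hi
      have hi' : i ≤ n := by have := mem_range.mp hi; omega
      rw [show n + 1 - i = (n - i) + 1 by omega]
      have : srv a (n - i + 1) = srv a (n - i) - a (n - i + 1) := by
        simp only [srv, sum_range_succ]; ring
      rw [this]; ring
    have h4 : (∑ i ∈ range (n + 1), b i * srv a (n + 1 - i))
        - ∑ i ∈ range (n + 1), b i * srv a (n - i)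
        = - ∑ i ∈ range (n + 1), b i * a (n + 1 - i) := by
      rw [← sum_sub_distrib, ← sum_neg_distrib]
      exact sum_congr rfl h3
    have h5 : srv a (n + 1 - (n + 1)) = 1 := by
      simp [srv, ha.zero]
    have h6 : a (n + 1 - (n + 1)) = 0 := by simp [ha.zero]
    rw [h5, h6]
    linarith

/-! ## the weights -/

/-- `P(A + B' - B = k)` -/
noncomputable def yz (a b : ℕ → ℝ) (k : ℤ) : ℝ := ∑' n : ℕ, b n * ext (conv a b) (n + k)

/-- `P(B' - B = k)` -/
noncomputable def gz (b : ℕ → ℝ) (k : ℤ) : ℝ := ∑' n : ℕ, b n * ext b (n + k)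

/-- `P(A + B' - B ∈ {k, k - 1})` -/
noncomputable def wz (a b : ℕ → ℝ) (k : ℤ) : ℝ := yz a b k + yz a b (k - 1)

theorem summable_mul_ext {b c : ℕ → ℝ} (hb : IsProb b) (hc : IsProb c) (k : ℤ) :
    Summable (fun n : ℕ => b n * ext c (n + k)) :=
  Summable.of_nonneg_of_le (fun n => mul_nonneg (hb.nonneg n) (ext_nonneg hc.nonneg _))
    (fun n => mul_le_of_le_one_right (hb.nonneg n) (ext_le_one hc _)) hb.summable

theorem yz_nonneg {a b : ℕ → ℝ} (ha : IsProb a) (hb : IsProb b) (k : ℤ) : 0 ≤ yz a b k :=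
  tsum_nonneg (fun n => mul_nonneg (hb.nonneg n) (ext_nonneg (ha.conv hb).nonneg _))

theorem wz_nonneg {a b : ℕ → ℝ} (ha : IsProb a) (hb : IsProb b) (k : ℤ) : 0 ≤ wz a b k :=
  add_nonneg (yz_nonneg ha hb k) (yz_nonneg ha hb _)

theorem gz_nonneg {b : ℕ → ℝ} (hb : IsProb b) (k : ℤ) : 0 ≤ gz b k :=
  tsum_nonneg (fun n => mul_nonneg (hb.nonneg n) (ext_nonneg hb.nonneg _))

/-- the correlation sum seen from the other slot -/
theorem tsum_ext_swap (b c : ℕ → ℝ) (k : ℤ) :
    ∑' n : ℕ, b n * ext c (n + k) = ∑' n : ℕ, c n * ext b (n - k) := by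
  rw [← tsum_ext_mul b (fun x => ext c (x + k)), ← tsum_ext_mul c (fun x => ext b (x - k))]
  rw [← (Equiv.addRight k).tsum_eq (fun x : ℤ => ext c x * ext b (x - k))]
  refine tsum_congr (fun x => ?_)
  simp only [Equiv.coe_addRight]
  rw [show x + k - k = x by ring]; ring

theorem yz_eq (a b : ℕ → ℝ) (k : ℤ) : yz a b k = ∑' n : ℕ, conv a b n * ext b (n - k) :=
  tsum_ext_swap b (conv a b) k

theorem gz_neg (b : ℕ → ℝ) (k : ℤ) : gz b (-k) = gz b k := by
  unfold gz
  rw [tsum_ext_swap b b k]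
  exact tsum_congr (fun n => by rw [← sub_eq_add_neg])

/-- the first recurrence, from the renewal identity in the slot `A` -/
theorem yz_ren {K : Finset ℕ} {kap a b : ℕ → ℝ} (h : Ren K kap a) (ha : IsProb a)
    (hb : IsProb b) (k : ℤ) :
    ∑ j ∈ K, kap j * (yz a b (k + j) - yz a b (k + j - 1)) = gz b k - yz a b k := by
  have hc := ha.conv hb
  have h1 : HasSum (fun n : ℕ => ∑ j ∈ K, kap j * (b n * ext (conv a b) (n + (k + j))
      - b n * ext (conv a b) (n + (k + j - 1))))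
      (∑ j ∈ K, kap j * (yz a b (k + j) - yz a b (k + j - 1))) :=
    hasSum_sum (fun j _ => (((summable_mul_ext hb hc _).hasSum.sub
      (summable_mul_ext hb hc _).hasSum).mul_left (kap j)))
  have h2 : HasSum (fun n : ℕ => b n * ext b (n + k) - b n * ext (conv a b) (n + k))
      (gz b k - yz a b k) :=
    (summable_mul_ext hb hb k).hasSum.sub (summable_mul_ext hb hc k).hasSum
  refine h1.unique ?_
  convert h2 using 1
  funext n
  rw [← mul_sub, ← h.ext_conv_diff ha hb ((n : ℤ) + k), mul_sum]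
  refine sum_congr rfl (fun j _ => ?_)
  rw [show (n : ℤ) + (k + j) = n + k + j by ring, show (n : ℤ) + (k + j - 1) = n + k + j - 1 by ring]
  ring

/-- the second recurrence, from the renewal identity in the subtracted slot -/
theorem yz_ren' {K : Finset ℕ} {kap a b : ℕ → ℝ} (h : Ren K kap b) (ha : IsProb a)
    (hb : IsProb b) (k : ℤ) :
    ∑ j ∈ K, kap j * (yz a b (k - j + 1) - yz a b (k - j)) = yz a b k - ext (conv a b) k := by
  have hc := ha.conv hb
  have h0 : ∀ k : ℤ, Summable (fun n : ℕ => conv a b n * ext b (n - k)) := fun k => by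
    have := summable_mul_ext hc hb (-k)
    exact this.congr (fun n => by rw [← sub_eq_add_neg])
  have h1 : HasSum (fun n : ℕ => ∑ j ∈ K, kap j * (conv a b n * ext b (n - (k - j + 1))
      - conv a b n * ext b (n - (k - j))))
      (∑ j ∈ K, kap j * (yz a b (k - j + 1) - yz a b (k - j))) := by
    refine hasSum_sum (fun j _ => ?_)
    rw [yz_eq, yz_eq]
    exact (((h0 _).hasSum.sub (h0 _).hasSum).mul_left (kap j))
  have h3 : HasSum (fun n : ℕ => conv a b n * (if ((n : ℤ) - k = 0) then (1 : ℝ) else 0))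
      (ext (conv a b) k) := by
    rcases lt_or_ge k 0 with hk | hk
    · rw [ext_of_neg _ hk]
      convert hasSum_zero using 1
      funext n
      rw [if_neg (by omega), mul_zero]
    · obtain ⟨m, rfl⟩ := Int.eq_ofNat_of_zero_le hk
      rw [ext_coe]
      convert hasSum_ite_eq m (conv a b m) using 1
      funext n
      by_cases hn : n = m
      · subst hn; simp
      · rw [if_neg (by omega), if_neg hn, mul_zero]
  have h2 : HasSum (fun n : ℕ => conv a b n * ext b (n - k)
      - conv a b n * (if ((n : ℤ) - k = 0) then (1 : ℝ) else 0))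
      (yz a b k - ext (conv a b) k) := by
    rw [yz_eq]
    exact (h0 k).hasSum.sub h3
  refine h1.unique ?_
  convert h2 using 1
  funext n
  have h4 := h.ext_diff hb ((n : ℤ) - k)
  have h5 : ∑ j ∈ K, kap j * (conv a b n * ext b (n - (k - j + 1)) - conv a b n * ext b (n - (k - j)))
      = - (conv a b n * ∑ j ∈ K, kap j * (ext b ((n : ℤ) - k + j) - ext b ((n : ℤ) - k + j - 1))) := by
    rw [mul_sum, ← sum_neg_distrib]
    refine sum_congr rfl (fun j _ => ?_)
    rw [show (n : ℤ) - (k - j + 1) = n - k + j - 1 by ring, show (n : ℤ) - (k - j) = n - k + j by ring]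
    ring
  rw [h5, h4]
  ring

/-- **(R)**: the reflection identity, general words -/
theorem wz_ren {K : Finset ℕ} {kap a b : ℕ → ℝ} (h : Ren K kap a) (ha : IsProb a)
    (hb : IsProb b) (k : ℤ) :
    wz a b k + ∑ j ∈ K, kap j * (wz a b (k + j) - wz a b (k + j - 1)) = gz b k + gz b (k - 1) := by
  have h1 := yz_ren h ha hb k
  have h2 := yz_ren h ha hb (k - 1)
  have h3 : ∑ j ∈ K, kap j * (wz a b (k + j) - wz a b (k + j - 1))
      = (∑ j ∈ K, kap j * (yz a b (k + j) - yz a b (k + j - 1)))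
        + ∑ j ∈ K, kap j * (yz a b (k - 1 + j) - yz a b (k - 1 + j - 1)) := by
    rw [← sum_add_distrib]
    refine sum_congr rfl (fun j _ => ?_)
    unfold wz
    rw [show k - 1 + (j : ℤ) = k + j - 1 by ring]
    ring
  rw [h3, h1, h2]
  unfold wz
  ring

/-- the symmetry of the right side of `wz_ren` -/
theorem gz_sym (b : ℕ → ℝ) (k : ℤ) : gz b (1 - k) + gz b (1 - k - 1) = gz b k + gz b (k - 1) := by
  rw [show (1 : ℤ) - k - 1 = -k by ring, gz_neg, show (1 : ℤ) - k = -(k - 1) by ring, gz_neg]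
  ring

/-- **(R)** in symmetric form -/
theorem wz_refl {K : Finset ℕ} {kap a b : ℕ → ℝ} (h : Ren K kap a) (ha : IsProb a)
    (hb : IsProb b) (k : ℤ) :
    wz a b k + ∑ j ∈ K, kap j * (wz a b (k + j) - wz a b (k + j - 1))
      = wz a b (1 - k) + ∑ j ∈ K, kap j * (wz a b (1 - k + j) - wz a b (1 - k + j - 1)) := by
  rw [wz_ren h ha hb k, wz_ren h ha hb (1 - k), gz_sym]

/-- **(F1)**: the recurrence from the subtracted slot, all integers -/
theorem wz_ren' {K : Finset ℕ} {kap a b : ℕ → ℝ} (h : Ren K kap b) (ha : IsProb a)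
    (hb : IsProb b) (k : ℤ) :
    ∑ j ∈ K, kap j * (wz a b (k - j + 1) - wz a b (k - j))
      = wz a b k - (ext (conv a b) k + ext (conv a b) (k - 1)) := by
  have h1 := yz_ren' h ha hb k
  have h2 := yz_ren' h ha hb (k - 1)
  have h3 : ∑ j ∈ K, kap j * (wz a b (k - j + 1) - wz a b (k - j))
      = (∑ j ∈ K, kap j * (yz a b (k - j + 1) - yz a b (k - j)))
        + ∑ j ∈ K, kap j * (yz a b (k - 1 - j + 1) - yz a b (k - 1 - j)) := by
    rw [← sum_add_distrib]
    refine sum_congr rfl (fun j _ => ?_)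
    unfold wz
    rw [show k - (j : ℤ) + 1 - 1 = k - j by ring, show k - 1 - (j : ℤ) + 1 = k - j by ring,
      show k - 1 - (j : ℤ) = k - j - 1 by ring]
    ring
  rw [h3, h1, h2]
  unfold wz
  ring

/-- **(F1)** below `|A| + |B|` -/
theorem wz_rec {K : Finset ℕ} {kap a b : ℕ → ℝ} (h : Ren K kap b) (ha : IsProb a)
    (hb : IsProb b) {LA LB : ℕ} (ha0 : ∀ n < LA, a n = 0) (hb0 : ∀ n < LB, b n = 0)
    {k : ℤ} (hk : k < LA + LB) :
    ∑ j ∈ K, kap j * (wz a b (k - j + 1) - wz a b (k - j)) = wz a b k := by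
  have hz : ∀ n < LA + LB, conv a b n = 0 := fun n hn => conv_eq_zero ha0 hb0 hn
  rw [wz_ren' h ha hb, ext_eq_zero hz (by push_cast; omega), ext_eq_zero hz (by push_cast; omega)]
  ring

/-- the integer weights agree with `Wk` -/
theorem wz_coe {a b : ℕ → ℝ} (ha : IsProb a) (hb : IsProb b) {k : ℕ} (hk : 1 ≤ k) :
    wz a b k = Wk a b b k := by
  have hc := ha.conv hb
  unfold wz yz Wk
  rw [← (summable_mul_ext hb hc _).tsum_add (summable_mul_ext hb hc _)]
  refine tsum_congr (fun n => ?_)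
  have e1 : ((n : ℤ) + k) = ((n + k : ℕ) : ℤ) := by push_cast; ring
  have e2 : ((n : ℤ) + ((k : ℤ) - 1)) = ((n + k - 1 : ℕ) : ℤ) := by
    have : 1 ≤ n + k := by omega
    push_cast [this]; ring
  rw [e1, e2, ext_coe, ext_coe]; ring

/-- the point weights are nondecreasing up to `|A|` -/
theorem yz_mono {a b : ℕ → ℝ} (ha : IsProb a) (hb : IsProb b) {LA LB : ℕ}
    (ha0 : ∀ n < LA, a n = 0) (hb0 : ∀ n < LB, b n = 0)
    (hba : ∀ n, LB ≤ n → b (n + 1) ≤ b n) {k : ℤ} (hk : k + 1 ≤ LA) :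
    yz a b k ≤ yz a b (k + 1) := by
  have hc := ha.conv hb
  have h0 : ∀ k : ℤ, Summable (fun n : ℕ => conv a b n * ext b (n - k)) := fun k => by
    have := summable_mul_ext hc hb (-k)
    exact this.congr (fun n => by rw [← sub_eq_add_neg])
  rw [yz_eq, yz_eq]
  refine (h0 _).tsum_le_tsum (fun n => ?_) (h0 _)
  rcases lt_or_ge n (LA + LB) with hn | hn
  · rw [conv_eq_zero ha0 hb0 hn]; simp
  · refine mul_le_mul_of_nonneg_left ?_ (hc.nonneg n)
    have := ext_anti (f := b) hba (z := (n : ℤ) - (k + 1)) (by push_cast at *; omega)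
    rwa [show (n : ℤ) - (k + 1) + 1 = n - k by ring] at this

/-- the weights are nondecreasing up to `|A|` -/
theorem wz_mono {a b : ℕ → ℝ} (ha : IsProb a) (hb : IsProb b) {LA LB : ℕ}
    (ha0 : ∀ n < LA, a n = 0) (hb0 : ∀ n < LB, b n = 0)
    (hba : ∀ n, LB ≤ n → b (n + 1) ≤ b n) {k : ℤ} (hk : k + 1 ≤ LA) :
    wz a b k ≤ wz a b (k + 1) := by
  have h1 := yz_mono ha hb ha0 hb0 hba hk
  have h2 := yz_mono ha hb ha0 hb0 hba (k := k - 1) (by omega)
  unfold wz
  rw [show k + 1 - 1 = k by ring]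
  rw [show k - 1 + 1 = k by ring] at h2
  linarith

/-- positivity of the weights up to `|A|` -/
theorem wz_pos {a b : ℕ → ℝ} (ha : IsProb a) (hb : IsProb b) {LA LB : ℕ}
    (hpa : 0 < a LA) (hpb : ∀ n, LB ≤ n → 0 < b n) {k : ℤ} (hk : k ≤ LA) : 0 < wz a b k := by
  have hc := ha.conv hb
  have h0 : ∀ k : ℤ, Summable (fun n : ℕ => conv a b n * ext b (n - k)) := fun k => by
    have := summable_mul_ext hc hb (-k)
    exact this.congr (fun n => by rw [← sub_eq_add_neg])
  have hy : 0 < yz a b k := by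
    rw [yz_eq]
    refine (h0 k).tsum_pos (fun n => mul_nonneg (hc.nonneg n) (ext_nonneg hb.nonneg _))
      (LA + LB) ?_
    refine mul_pos ?_ ?_
    · unfold conv
      exact sum_pos' (fun _ _ => mul_nonneg (ha.nonneg _) (hb.nonneg _))
        ⟨(LA, LB), mem_antidiagonal.mpr rfl, mul_pos hpa (hpb LB le_rfl)⟩
    · obtain ⟨m, hm⟩ : ∃ m : ℕ, ((LA + LB : ℕ) : ℤ) - k = m := ⟨(((LA + LB : ℕ) : ℤ) - k).toNat,
        by push_cast; omega⟩
      rw [hm, ext_coe]
      exact hpb m (by omega)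
  have := yz_nonneg ha hb (k - 1)
  unfold wz; linarith

end Coin
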