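import Pool.Agent.Lib.Coin.WinNorm

/-!
# Coin race, one-tail window: bounds of `g` and `d` over the closed system (K1a)-(K1e)
-/

namespace Coin

open Finset

/-- `K = Σ_(i<m') q (p^(z+i) - p^c)` -/
noncomputable def Kc (p : ℝ) (c m' : ℕ) : ℝ := p ^ (c - m') - p ^ c - (1 - p) * m' * p ^ c

/-- `MP = q p^a Σ_(j≤m) p^(-j)` -/
noncomputable def MP (p : ℝ) (a m : ℕ) : ℝ := p ^ (a - m) - p ^ a

/-- `R1 = Σ_(i<m') (m'-i) p^(z+i)` -/
noncomputable def R1 (p : ℝ) (c m' : ℕ) : ℝ := ∑ i ∈ range m', ((m' : ℝ) - i) * p ^ (c - m' + i)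

theorem geom_q (p : ℝ) (n : ℕ) : (1 - p) * ∑ i ∈ range n, p ^ i = 1 - p ^ n := by
  have := geom_sum_mul p n
  linarith

theorem sum_pow_shift (p : ℝ) (z n : ℕ) :
    ∑ i ∈ range n, (1 - p) * p ^ (z + i) = p ^ z - p ^ (z + n) := by
  have h := geom_q p n
  have : ∑ i ∈ range n, (1 - p) * p ^ (z + i) = p ^ z * ((1 - p) * ∑ i ∈ range n, p ^ i) := by
    rw [mul_sum, mul_sum]
    refine sum_congr rfl (fun i _ => ?_)
    rw [pow_add]; ring
  rw [this, h, pow_add]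
  ring

theorem sum_eps {p : ℝ} {c m' : ℕ} (hmc : m' ≤ c) :
    ∑ i ∈ range m', ((1 - p) * p ^ (c - m' + i) - (1 - p) * p ^ c) = Kc p c m' := by
  rw [sum_sub_distrib, sum_pow_shift, sum_const, card_range, nsmul_eq_mul,
    Nat.sub_add_cancel hmc]
  unfold Kc
  ring

theorem eps_nonneg {p : ℝ} (h0 : 0 < p) (h1 : p < 1) {c m' i : ℕ} (hmc : m' ≤ c) (hi : i < m') :
    0 ≤ (1 - p) * p ^ (c - m' + i) - (1 - p) * p ^ c := by
  have : p ^ c ≤ p ^ (c - m' + i) := pow_le_pow_of_le_one h0.le h1.le (by omega)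
  nlinarith

theorem Kc_nonneg {p : ℝ} (h0 : 0 < p) (h1 : p < 1) {c m' : ℕ} (hmc : m' ≤ c) :
    0 ≤ Kc p c m' := by
  rw [← sum_eps hmc]
  exact sum_nonneg (fun i hi => eps_nonneg h0 h1 hmc (mem_range.mp hi))

theorem sum_inv_eq {p : ℝ} (h0 : 0 < p) {a m : ℕ} (hma : m ≤ a) :
    (1 - p) * p ^ a * ∑ j ∈ Icc 1 m, 1 / p ^ j = MP p a m := by
  have h3 : ∑ i ∈ range m, (1 - p) * p ^ (a - m + i) = p ^ (a - m) - p ^ (a - m + m) :=
    sum_pow_shift p (a - m) m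
  rw [Nat.sub_add_cancel hma] at h3
  unfold MP
  rw [← h3, mul_sum]
  refine sum_bij' (fun j _ => m - j) (fun i _ => m - i) ?_ ?_ ?_ ?_ ?_
  · intro j hj; rw [mem_Icc] at hj; rw [mem_range]; omega
  · intro i hi; rw [mem_range] at hi; rw [mem_Icc]; omega
  · intro j hj; rw [mem_Icc] at hj; omega
  · intro i hi; rw [mem_range] at hi; omega
  · intro j hj
    rw [mem_Icc] at hj
    have : p ^ a = p ^ (a - m + (m - j)) * p ^ j := by rw [← pow_add]; congr 1; omega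
    rw [this]
    have : p ^ j ≠ 0 := pow_ne_zero _ h0.ne'
    field_simp

theorem MP_nonneg {p : ℝ} (h0 : 0 < p) (h1 : p < 1) (a m : ℕ) : 0 ≤ MP p a m := by
  unfold MP
  have : p ^ a ≤ p ^ (a - m) := pow_le_pow_of_le_one h0.le h1.le (by omega)
  linarith

/-- telescoping of `dd` -/
theorem sub_eq_sum_dd (g : ℤ → ℝ) (u : ℤ) (n : ℕ) :
    g u - g (u + n) = ∑ i ∈ range n, dd g (u + 1 + i) := by
  induction n with
  | zero => simp
  | succ n ih =>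
    rw [sum_range_succ, ← ih]
    unfold dd
    rw [show u + 1 + (n : ℤ) - 1 = u + n by ring, show u + 1 + (n : ℤ) = u + ((n + 1 : ℕ) : ℤ) by
      push_cast; ring]
    ring

theorem sub_le_mul {g : ℤ → ℝ} {s : ℝ} {u : ℤ} {n : ℕ}
    (h : ∀ x : ℤ, u + 1 ≤ x → x ≤ u + n → dd g x ≤ s) : g u - g (u + n) ≤ n * s := by
  rw [sub_eq_sum_dd]
  calc _ ≤ ∑ i ∈ range n, s := sum_le_sum (fun i hi => by
        rw [mem_range] at hi
        exact h _ (by omega) (by omega))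
    _ = n * s := by rw [sum_const, card_range, nsmul_eq_mul]

theorem sub_ge_mul {g : ℤ → ℝ} {s : ℝ} {u : ℤ} {n : ℕ}
    (h : ∀ x : ℤ, u + 1 ≤ x → x ≤ u + n → s ≤ dd g x) : n * s ≤ g u - g (u + n) := by
  rw [sub_eq_sum_dd]
  calc n * s = ∑ i ∈ range n, s := by rw [sum_const, card_range, nsmul_eq_mul]
    _ ≤ _ := sum_le_sum (fun i hi => by
        rw [mem_range] at hi
        exact h _ (by omega) (by omega))

/-- `g (-n) - 1 = Σ_(i<n) dd g (-i)` -/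
theorem neg_eq_sum {g : ℤ → ℝ} (n : ℕ) : g (-(n : ℤ)) - g 0 = ∑ i ∈ range n, dd g (-(i : ℤ)) := by
  induction n with
  | zero => simp
  | succ n ih =>
    rw [sum_range_succ, ← ih]
    unfold dd
    rw [show -((n + 1 : ℕ) : ℤ) = -(n : ℤ) - 1 by push_cast; ring]
    ring

/-- `x e^(-x) ≤ 3/8`, in the discrete form -/
theorem mul_pow_le (p : ℝ) (h0 : 0 < p) (n : ℕ) : n * (1 - p) * p ^ n ≤ 3 / 8 := by
  rcases le_or_gt 1 p with h1 | h1
  · have : n * (1 - p) * p ^ n ≤ 0 := by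
      have : 0 ≤ p ^ n := by positivity
      have : (n : ℝ) * (1 - p) ≤ 0 := mul_nonpos_of_nonneg_of_nonpos (by positivity) (by linarith)
      nlinarith
    linarith
  have hp : p ≤ Real.exp (-(1 - p)) := by
    have := Real.add_one_le_exp (-(1 - p))
    linarith
  have h2 : p ^ n ≤ Real.exp (-(n * (1 - p))) := by
    calc p ^ n ≤ (Real.exp (-(1 - p))) ^ n := pow_le_pow_left₀ h0.le hp n
      _ = Real.exp (-(n * (1 - p))) := by rw [← Real.exp_nat_mul]; congr 1; ring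
  set x := (n : ℝ) * (1 - p) with hx
  have hx0 : 0 ≤ x := mul_nonneg (by positivity) (by linarith)
  have h3 : x * Real.exp (-x) ≤ Real.exp (-1) := by
    have := Real.add_one_le_exp (x - 1)
    have h5 : x ≤ Real.exp (x - 1) := by linarith
    calc x * Real.exp (-x) ≤ Real.exp (x - 1) * Real.exp (-x) :=
          mul_le_mul_of_nonneg_right h5 (Real.exp_pos _).le
      _ = Real.exp (-1) := by rw [← Real.exp_add]; congr 1; ring
  have h4 : Real.exp (-1) ≤ 3 / 8 := by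
    rw [Real.exp_neg]
    have := Real.exp_one_gt_d9
    rw [inv_le_comm₀ (Real.exp_pos _) (by norm_num)]
    linarith
  calc x * p ^ n ≤ x * Real.exp (-x) := mul_le_mul_of_nonneg_left h2 hx0
    _ ≤ 3 / 8 := by linarith

/-- `2 z A0 + 2 K + MP ≤ 1` -/
theorem two_zA_le {p : ℝ} (h0 : 0 < p) (h1 : p < 1) {a m c m' : ℕ} (hca : c < a)
    (hw : a - c < m' - m) (h2 : 2 * m' ≤ c) :
    2 * ((c - m' : ℕ) : ℝ) * ((1 - p) * p ^ c) + 2 * Kc p c m' + MP p a m ≤ 1 := by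
  have hq : 0 < 1 - p := by linarith
  -- `u = p^m'`, `v = p^(z-m')`
  obtain ⟨n, hn⟩ : ∃ n, c = 2 * m' + n := ⟨c - 2 * m', by omega⟩
  have hM : MP p a m ≤ p ^ (c - m') - p ^ c := by
    unfold MP
    obtain ⟨k, hk⟩ : ∃ k, a = c + k := ⟨a - c, by omega⟩
    have e1 : p ^ (a - m) ≤ p ^ (a - m') := pow_le_pow_of_le_one h0.le h1.le (by omega)
    have e2 : p ^ (a - m') = p ^ (c - m') * p ^ k := by rw [← pow_add]; congr 1; omega
    have e3 : p ^ a = p ^ c * p ^ k := by rw [← pow_add]; congr 1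
    have e4 : p ^ k ≤ 1 := pow_le_one₀ h0.le h1.le
    have e5 : p ^ c ≤ p ^ (c - m') := pow_le_pow_of_le_one h0.le h1.le (by omega)
    nlinarith [pow_pos h0 k]
  unfold Kc
  set u := p ^ m' with hu
  set v := p ^ n with hv
  have hu0 : 0 < u := pow_pos h0 _
  have hv0 : 0 < v := pow_pos h0 _
  have hu1 : u ≤ 1 := pow_le_one₀ h0.le h1.le
  have hv1 : v ≤ 1 := pow_le_one₀ h0.le h1.le
  have hz : p ^ (c - m') = u * v := by rw [hu, hv, ← pow_add]; congr 1; omega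
  have hc : p ^ c = u ^ 2 * v := by rw [hu, hv, ← pow_mul, ← pow_add]; congr 1; omega
  have hzr : ((c - m' : ℕ) : ℝ) = m' + n := by
    rw [hn]
    have : 2 * m' + n - m' = m' + n := by omega
    rw [this]; push_cast; ring
  have hnv := mul_pow_le p h0 n
  rw [← hv] at hnv
  rw [hz, hc] at hM
  rw [hz, hc, hzr]
  have key : 2 * (n * (1 - p) * v) * u ^ 2 + 3 * (u * v - u ^ 2 * v) ≤ 1 := by
    have e1 : 2 * (n * (1 - p) * v) * u ^ 2 ≤ 3 / 4 * u ^ 2 := by nlinarith [sq_nonneg u]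
    have e2 : 3 * (u * v - u ^ 2 * v) ≤ 3 * (u - u ^ 2) := by
      have : 0 ≤ u - u ^ 2 := by nlinarith
      nlinarith
    nlinarith [sq_nonneg (3 / 2 * u - 1)]
  nlinarith

theorem Kc_le {p : ℝ} (h0 : 0 < p) (h1 : p < 1) {c m' : ℕ} (h2 : 2 * m' ≤ c) :
    Kc p c m' ≤ 1 / 4 := by
  have hq : 0 < 1 - p := by linarith
  unfold Kc
  set t := p ^ (c - m') with ht
  have ht0 : 0 < t := pow_pos h0 _
  have h3 : t * t ≤ p ^ c := by
    rw [ht, ← pow_add]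
    exact pow_le_pow_of_le_one h0.le h1.le (by omega)
  have h4 : 0 ≤ (1 - p) * m' * p ^ c := by positivity
  nlinarith [sq_nonneg (t - 1 / 2)]

namespace WSys

variable {p : ℝ} {a m c m' : ℕ} {g f : ℤ → ℝ}

/-- (K1a) -/
theorem dneg_le (h : WSys p a m c m' g f) (h0 : 0 < p) (h1 : p < 1) (n : ℕ) :
    dd g (-(n : ℤ)) ≤ dd g (n + 1) := by
  rw [h.eqR n]
  have := h.gam_nonneg n (by omega)
  have hq : 0 < 1 - p := by linarith
  have : 0 ≤ (1 - p) * p ^ a * Gam p a m g n := by positivity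
  linarith

/-- the supremum of `d` -/
theorem exists_sup (hca : c < a) (g : ℤ → ℝ) : ∃ s : ℝ,
    (∀ x : ℤ, 1 ≤ x → x ≤ a + c → dd g x ≤ s) ∧ ∃ x : ℤ, 1 ≤ x ∧ x ≤ a + c ∧ dd g x = s := by
  obtain ⟨x, hx, hm⟩ := Finset.exists_max_image (Finset.Icc (1 : ℤ) (a + c)) (dd g)
    ⟨1, by rw [Finset.mem_Icc]; omega⟩
  rw [Finset.mem_Icc] at hx
  exact ⟨dd g x, fun y h1 h2 => hm y (by rw [Finset.mem_Icc]; omega), x, hx.1, hx.2, rfl⟩

/-- upper bound of `d` on `[-(c-1), a+c]` -/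
theorem dd_le (h : WSys p a m c m' g f) (h0 : 0 < p) (h1 : p < 1) {s : ℝ}
    (hs : ∀ x : ℤ, 1 ≤ x → x ≤ a + c → dd g x ≤ s) {x : ℤ} (hx1 : 1 - (c : ℤ) ≤ x)
    (hx2 : x ≤ a + c) : dd g x ≤ s := by
  rcases le_or_gt 1 x with hx | hx
  · exact hs x hx hx2
  · obtain ⟨n, hn⟩ : ∃ n : ℕ, x = -(n : ℤ) := ⟨(-x).toNat, by omega⟩
    rw [hn]
    exact (h.dneg_le h0 h1 n).trans (hs _ (by omega) (by omega))

/-- (K1b) -/
theorem Gam_le (h : WSys p a m c m' g f) (h0 : 0 < p) (h1 : p < 1) (hca : c < a)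
    (hw : a - c < m' - m) (h2 : 2 * m' ≤ c) {s : ℝ}
    (hs : ∀ x : ℤ, 1 ≤ x → x ≤ a + c → dd g x ≤ s) {n : ℕ} (hn : n < c) :
    (1 - p) * p ^ a * Gam p a m g n ≤ ((2 * n + 1) * ((1 - p) * p ^ a) + MP p a m) * s := by
  have hq : 0 < 1 - p := by linarith
  have hP : 0 < (1 - p) * p ^ a := by positivity
  have e1 : g (a - n) - g (a + 1 + n) ≤ (2 * n + 1) * s := by
    have := sub_le_mul (g := g) (s := s) (u := (a : ℤ) - n) (n := 2 * n + 1)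
      (fun x hx1 hx2 => hs x (by omega) (by push_cast at hx2; omega))
    rw [show (a : ℤ) - n + ((2 * n + 1 : ℕ) : ℤ) = a + 1 + n by push_cast; ring] at this
    push_cast at this
    exact this
  have e2 : ∑ j ∈ Icc 1 m, 1 / p ^ j * (dd g (a + 1 - n - j) - dd g (a + 2 + n - j))
      ≤ ∑ j ∈ Icc 1 m, 1 / p ^ j * s := by
    refine sum_le_sum (fun j hj => ?_)
    rw [mem_Icc] at hj
    have h3 : dd g (a + 1 - n - j) ≤ s := h.dd_le h0 h1 hs (by omega) (by omega)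
    have h4 : 0 ≤ dd g (a + 2 + n - j) := h.mono _ (by omega)
    exact mul_le_mul_of_nonneg_left (by linarith) (by positivity)
  rw [← sum_mul] at e2
  have e3 := sum_inv_eq h0 (a := a) (m := m) (by omega)
  calc (1 - p) * p ^ a * Gam p a m g n
      ≤ (1 - p) * p ^ a * ((2 * n + 1) * s + (∑ j ∈ Icc 1 m, 1 / p ^ j) * s) := by
        refine mul_le_mul_of_nonneg_left ?_ hP.le
        unfold Gam
        linarith
    _ = ((2 * n + 1) * ((1 - p) * p ^ a) + ((1 - p) * p ^ a * ∑ j ∈ Icc 1 m, 1 / p ^ j)) * s := by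
        ring
    _ = _ := by rw [e3]

/-- `g` is nonincreasing on `x ≥ 0` -/
theorem g_anti (h : WSys p a m c m' g f) {x y : ℤ} (hx : 0 ≤ x) (hxy : x ≤ y) : g y ≤ g x := by
  obtain ⟨n, hn⟩ : ∃ n : ℕ, y = x + n := ⟨(y - x).toNat, by omega⟩
  have := sub_ge_mul (g := g) (s := 0) (u := x) (n := n)
    (fun t h1 h2 => h.mono t (by omega))
  rw [hn]
  linarith

theorem g_le_one (h : WSys p a m c m' g f) {x : ℤ} (hx : 0 ≤ x) : g x ≤ 1 := by
  have := h.g_anti le_rfl hx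
  rwa [h.g_zero] at this

/-- `g x ≥ 1 - x s` -/
theorem g_ge (h : WSys p a m c m' g f) {s : ℝ}
    (hs : ∀ x : ℤ, 1 ≤ x → x ≤ a + c → dd g x ≤ s) {n : ℕ} (hn : n ≤ a + c) :
    1 - n * s ≤ g n := by
  have := sub_le_mul (g := g) (s := s) (u := 0) (n := n)
    (fun x hx1 hx2 => hs x (by omega) (by omega))
  rw [h.g_zero, zero_add] at this
  linarith

/-- `g (-n) ≤ 1 + n s` -/
theorem gneg_le (h : WSys p a m c m' g f) (h0 : 0 < p) (h1 : p < 1) {s : ℝ}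
    (hs : ∀ x : ℤ, 1 ≤ x → x ≤ a + c → dd g x ≤ s) {n : ℕ} (hn : n ≤ c) :
    g (-(n : ℤ)) ≤ 1 + n * s := by
  have e := neg_eq_sum (g := g) n
  have : ∑ i ∈ range n, dd g (-(i : ℤ)) ≤ ∑ i ∈ range n, s := by
    refine sum_le_sum (fun i hi => ?_)
    rw [mem_range] at hi
    exact h.dd_le h0 h1 hs (by omega) (by omega)
  rw [sum_const, card_range, nsmul_eq_mul, ← e, h.g_zero] at this
  linarith

/-- `g y ≤ 1 + z s` for `y ≥ -z` -/
theorem g_le (h : WSys p a m c m' g f) (h0 : 0 < p) (h1 : p < 1) {s : ℝ}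
    (hs : ∀ x : ℤ, 1 ≤ x → x ≤ a + c → dd g x ≤ s) {x : ℤ} (hx : 1 ≤ x) (hxz : x ≤ (c - m' : ℕ) + 1) :
    g (x - 1 - (c - m' : ℕ)) ≤ 1 + (((c - m' : ℕ) : ℝ) + 1 - x) * s := by
  obtain ⟨n, hn⟩ : ∃ n : ℕ, x - 1 - (c - m' : ℕ) = -(n : ℤ) :=
    ⟨((c - m' : ℕ) + 1 - x).toNat, by omega⟩
  have h3 := h.gneg_le h0 h1 hs (n := n) (by omega)
  rw [hn]
  have : (n : ℝ) = ((c - m' : ℕ) : ℝ) + 1 - x := by
    have : (n : ℤ) = ((c - m' : ℕ) : ℤ) + 1 - x := by omega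
    exact_mod_cast this
  rw [← this]
  exact h3

/-- lower bound of `d` -/
theorem dd_ge (h : WSys p a m c m' g f) (h0 : 0 < p) (h1 : p < 1) (hmc : m' ≤ c) {s : ℝ}
    (hs : ∀ x : ℤ, 1 ≤ x → x ≤ a + c → dd g x ≤ s) {x : ℤ} (hx1 : 1 ≤ x) (hx2 : x ≤ a + c) :
    (1 - p) * p ^ c * g (x - 1 - (c - m' : ℕ)) - Kc p c m' * s ≤ dd g x := by
  rw [h.eqB x hx1, ← sum_eps hmc, sum_mul]
  refine sub_le_sub_left (sum_le_sum (fun i hi => ?_)) _
  rw [mem_range] at hi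
  exact mul_le_mul_of_nonneg_left (h.dd_le h0 h1 hs (by omega) (by omega))
    (eps_nonneg h0 h1 hmc hi)

/-- upper bound of `d` when all `d_(-n) ≥ -δ` -/
theorem dd_le_of (h : WSys p a m c m' g f) (h0 : 0 < p) (h1 : p < 1) (hmc : m' ≤ c) {δ : ℝ}
    (hδ0 : 0 ≤ δ) (hδ : ∀ n : ℕ, n < c → -δ ≤ dd g (-(n : ℤ))) {x : ℤ} (hx1 : 1 ≤ x) :
    dd g x ≤ (1 - p) * p ^ c * g (x - 1 - (c - m' : ℕ)) + Kc p c m' * δ := by
  rw [h.eqB x hx1, ← sum_eps hmc, sum_mul]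
  have : ∑ i ∈ range m', ((1 - p) * p ^ (c - m' + i) - (1 - p) * p ^ c) * (-δ)
      ≤ ∑ i ∈ range m', ((1 - p) * p ^ (c - m' + i) - (1 - p) * p ^ c) *
        dd g (x - 1 - (c - m' : ℕ) - i) := by
    refine sum_le_sum (fun i hi => ?_)
    rw [mem_range] at hi
    refine mul_le_mul_of_nonneg_left ?_ (eps_nonneg h0 h1 hmc hi)
    rcases le_or_gt 1 (x - 1 - (c - m' : ℕ) - i : ℤ) with hy | hy
    · have := h.mono _ hy
      linarith
    · obtain ⟨n, hn⟩ : ∃ n : ℕ, x - 1 - (c - m' : ℕ) - i = -(n : ℤ) :=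
        ⟨(-(x - 1 - (c - m' : ℕ) - i)).toNat, by omega⟩
      rw [hn]
      exact hδ n (by omega)
  simp only [mul_neg, sum_neg_distrib] at this
  linarith

/-- data of the `s`-bounds -/
theorem exists_delta (h : WSys p a m c m' g f) (hc : 0 < c) : ∃ δ : ℝ, 0 ≤ δ ∧
    (∀ n : ℕ, n < c → -δ ≤ dd g (-(n : ℤ))) ∧
    (δ = 0 ∨ ∃ n : ℕ, n < c ∧ dd g (-(n : ℤ)) = -δ) := by
  obtain ⟨n, hn, hm⟩ := Finset.exists_min_image (range c) (fun n : ℕ => dd g (-(n : ℤ)))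
    ⟨0, by rw [mem_range]; omega⟩
  rw [mem_range] at hn
  rcases le_or_gt 0 (dd g (-(n : ℤ))) with h3 | h3
  · exact ⟨0, le_rfl, fun k hk => by
      have := hm k (by rw [mem_range]; omega)
      linarith, Or.inl rfl⟩
  · exact ⟨-dd g (-(n : ℤ)), by linarith, fun k hk => by
      have := hm k (by rw [mem_range]; omega)
      linarith, Or.inr ⟨n, hn, by ring⟩⟩

/-- `MP ≤ p^z - p^c` -/
theorem _root_.Coin.MP_le (h0 : 0 < p) (h1 : p < 1) (hca : c < a)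
    (hw : a - c < m' - m) (h2 : 2 * m' ≤ c) : MP p a m ≤ p ^ (c - m') - p ^ c := by
  unfold MP
  obtain ⟨k, hk⟩ : ∃ k, a = c + k := ⟨a - c, by omega⟩
  have e1 : p ^ (a - m) ≤ p ^ (a - m') := pow_le_pow_of_le_one h0.le h1.le (by omega)
  have e2 : p ^ (a - m') = p ^ (c - m') * p ^ k := by rw [← pow_add]; congr 1; omega
  have e3 : p ^ a = p ^ c * p ^ k := by rw [← pow_add]; congr 1
  have e4 : p ^ k ≤ 1 := pow_le_one₀ h0.le h1.le
  have e5 : p ^ c ≤ p ^ (c - m') := pow_le_pow_of_le_one h0.le h1.le (by omega)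
  nlinarith [pow_pos h0 k]

theorem _root_.Coin.pz_sub_le (h0 : 0 < p) (h1 : p < 1) (h2 : 2 * m' ≤ c) :
    p ^ (c - m') - p ^ c ≤ 1 / 4 := by
  set t := p ^ (c - m') with ht
  have ht0 : 0 < t := pow_pos h0 _
  have h3 : t * t ≤ p ^ c := by
    rw [ht, ← pow_add]
    exact pow_le_pow_of_le_one h0.le h1.le (by omega)
  nlinarith [sq_nonneg (t - 1 / 2)]

/-- `τ = (2c-1) q p^a + MP ≤ 1` -/
theorem _root_.Coin.tau_le (h0 : 0 < p) (h1 : p < 1) (hca : c < a)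
    (hw : a - c < m' - m) (h2 : 2 * m' ≤ c) :
    (2 * (c : ℝ) - 1) * ((1 - p) * p ^ a) + MP p a m ≤ 1 := by
  have hq : 0 < 1 - p := by linarith
  have e1 := MP_le h0 h1 hca hw h2
  have e2 := pz_sub_le h0 h1 h2
  have e3 := mul_pow_le p h0 a
  have e4 : (c : ℝ) ≤ a := by exact_mod_cast hca.le
  have e5 : 0 ≤ (1 - p) * p ^ a := by positivity
  nlinarith

/-- (E) `s ≤ A0 (1 + z s) + K δ` -/
theorem s_le (h : WSys p a m c m' g f) (h0 : 0 < p) (h1 : p < 1) (hmc : m' ≤ c) {s δ : ℝ}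
    (hs : ∀ x : ℤ, 1 ≤ x → x ≤ a + c → dd g x ≤ s)
    (hat : ∃ x : ℤ, 1 ≤ x ∧ x ≤ a + c ∧ dd g x = s)
    (hδ0 : 0 ≤ δ) (hδ : ∀ n : ℕ, n < c → -δ ≤ dd g (-(n : ℤ))) :
    s ≤ (1 - p) * p ^ c * (1 + ((c - m' : ℕ) : ℝ) * s) + Kc p c m' * δ := by
  obtain ⟨x, hx1, hx2, hx⟩ := hat
  have hq : 0 < 1 - p := by linarith
  have hs0 : 0 ≤ s := by rw [← hx]; exact h.mono x hx1
  have h3 := h.dd_le_of h0 h1 hmc hδ0 hδ hx1
  rw [hx] at h3
  have h4 : g (x - 1 - (c - m' : ℕ)) ≤ 1 + ((c - m' : ℕ) : ℝ) * s := by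
    rcases le_or_gt x ((c - m' : ℕ) + 1) with hxz | hxz
    · refine (h.g_le h0 h1 hs hx1 hxz).trans ?_
      have : (1 : ℝ) ≤ x := by exact_mod_cast hx1
      nlinarith
    · have := h.g_le_one (x := x - 1 - (c - m' : ℕ)) (by omega)
      have : 0 ≤ ((c - m' : ℕ) : ℝ) * s := by positivity
      linarith
  have h5 := mul_le_mul_of_nonneg_left h4 (by positivity : 0 ≤ (1 - p) * p ^ c)
  linarith

/-- lower bound of `d_(-n)` through `d_(n+1)` -/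
theorem dneg_ge (h : WSys p a m c m' g f) (h0 : 0 < p) (h1 : p < 1) (hca : c < a)
    (hw : a - c < m' - m) (h2 : 2 * m' ≤ c) {s : ℝ}
    (hs : ∀ x : ℤ, 1 ≤ x → x ≤ a + c → dd g x ≤ s) {n : ℕ} (hn : n < c) :
    dd g (n + 1) - ((2 * n + 1) * ((1 - p) * p ^ a) + MP p a m) * s ≤ dd g (-(n : ℤ)) := by
  rw [h.eqR n]
  have := h.Gam_le h0 h1 hca hw h2 hs hn
  linarith

theorem s_nonneg (h : WSys p a m c m' g f) {s : ℝ}
    (hat : ∃ x : ℤ, 1 ≤ x ∧ x ≤ a + c ∧ dd g x = s) : 0 ≤ s := by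
  obtain ⟨x, hx1, hx2, hx⟩ := hat
  rw [← hx]
  exact h.mono x hx1

/-- (K1c) -/
theorem gneg_ge_one (h : WSys p a m c m' g f) (h0 : 0 < p) (h1 : p < 1) (hca : c < a)
    (hw : a - c < m' - m) (h2 : 2 * m' ≤ c) {j : ℕ} (hj : j ≤ c - m') : 1 ≤ g (-(j : ℤ)) := by
  have hq : 0 < 1 - p := by linarith
  obtain ⟨s, hs, hat⟩ := exists_sup (a := a) (c := c) hca g
  have hs0 := h.s_nonneg hat
  obtain ⟨δ, hδ0, hδ, hδa⟩ := h.exists_delta (by omega : 0 < c)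
  have hτ := tau_le h0 h1 hca hw h2
  have hK0 := Kc_nonneg h0 h1 (c := c) (m' := m') (by omega)
  have hM0 := MP_nonneg h0 h1 a m
  -- `δ ≤ s`
  have hδs : δ ≤ s := by
    rcases hδa with hd | ⟨n, hn, hd⟩
    · rw [hd]; exact hs0
    · have h3 := h.dneg_ge h0 h1 hca hw h2 hs hn
      have h4 := h.mono (n + 1) (by omega)
      have h5 : ((2 * (n : ℝ) + 1) * ((1 - p) * p ^ a) + MP p a m) ≤ 1 := by
        have : (n : ℝ) + 1 ≤ c := by exact_mod_cast hn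
        have hp : 0 ≤ (1 - p) * p ^ a := by positivity
        nlinarith
      rw [hd] at h3
      nlinarith
  have hE := h.s_le h0 h1 (by omega) hs hat hδ0 hδ
  have hN := two_zA_le h0 h1 hca hw h2
  set A0 := (1 - p) * p ^ c with hA0
  set K := Kc p c m'
  set M := MP p a m
  set z : ℝ := ((c - m' : ℕ) : ℝ) with hz
  have hA0p : 0 < A0 := by positivity
  have hz0 : 0 ≤ z := by positivity
  have hKA : (K + M + z * A0) * s ≤ A0 := by
    have : K * δ ≤ K * s := mul_le_mul_of_nonneg_left hδs hK0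
    nlinarith
  -- the minimum of `g (-j)`
  obtain ⟨j0, hj0, hmin⟩ := Finset.exists_min_image (range (c - m' + 1)) (fun n : ℕ => g (-(n : ℤ)))
    ⟨0, by rw [mem_range]; omega⟩
  rw [mem_range] at hj0
  suffices hG : 1 ≤ g (-(j0 : ℤ)) by
    exact hG.trans (hmin j (by rw [mem_range]; omega))
  set G0 := g (-(j0 : ℤ)) with hG0
  by_contra hlt
  rw [not_le] at hlt
  have hsum := neg_eq_sum (g := g) j0
  rw [h.g_zero, ← hG0] at hsum
  have hPA : (1 - p) * p ^ a ≤ A0 := by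
    have : p ^ a ≤ p ^ c := pow_le_pow_of_le_one h0.le h1.le (by omega)
    rw [hA0]
    exact mul_le_mul_of_nonneg_left this hq.le
  have hge : ∑ i ∈ range j0, (A0 * G0 - K * s - ((2 * i + 1) * ((1 - p) * p ^ a) + M) * s)
      ≤ ∑ i ∈ range j0, dd g (-(i : ℤ)) := by
    refine sum_le_sum (fun i hi => ?_)
    rw [mem_range] at hi
    have h3 := h.dneg_ge h0 h1 hca hw h2 hs (n := i) (by omega)
    have h4 := h.dd_ge h0 h1 (by omega) hs (x := (i : ℤ) + 1) (by omega) (by omega)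
    have h5 : G0 ≤ g ((i : ℤ) + 1 - 1 - (c - m' : ℕ)) := by
      have := hmin (c - m' - i) (by rw [mem_range]; omega)
      have e : (i : ℤ) + 1 - 1 - (c - m' : ℕ) = -((c - m' - i : ℕ) : ℤ) := by omega
      rw [e]
      exact this
    have h6 := mul_le_mul_of_nonneg_left h5 hA0p.le
    linarith
  have hsum2 : ∑ i ∈ range j0, (A0 * G0 - K * s - ((2 * i + 1) * ((1 - p) * p ^ a) + M) * s)
      = j0 * (A0 * G0 - K * s - M * s) - (j0 : ℝ) ^ 2 * ((1 - p) * p ^ a) * s := by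
    have : ∀ n : ℕ, ∑ i ∈ range n, (A0 * G0 - K * s - ((2 * i + 1) * ((1 - p) * p ^ a) + M) * s)
      = n * (A0 * G0 - K * s - M * s) - (n : ℝ) ^ 2 * ((1 - p) * p ^ a) * s := by
      intro n
      induction n with
      | zero => simp
      | succ n ih =>
        rw [sum_range_succ, ih]
        push_cast
        ring
    exact this j0
  rw [hsum2, ← hsum] at hge
  have hjz : (j0 : ℝ) ≤ z := by
    rw [hz]
    exact_mod_cast (by omega : j0 ≤ c - m')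
  have hj00 : (0 : ℝ) ≤ j0 := by positivity
  have h7 : (j0 : ℝ) ^ 2 * ((1 - p) * p ^ a) * s ≤ j0 * (z * A0) * s := by
    have : (j0 : ℝ) * ((1 - p) * p ^ a) ≤ z * A0 :=
      mul_le_mul hjz hPA (by positivity) hz0
    have := mul_le_mul_of_nonneg_left this hj00
    nlinarith
  have h8 : (j0 : ℝ) * ((K + M + z * A0) * s) ≤ j0 * A0 := mul_le_mul_of_nonneg_left hKA hj00
  have h9 : (j0 : ℝ) * A0 ≤ 1 / 2 := by
    have : (j0 : ℝ) * A0 ≤ z * A0 := mul_le_mul_of_nonneg_right hjz hA0p.le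
    nlinarith
  nlinarith

/-- (K1d) and the bound of `s` -/
theorem K1d (h : WSys p a m c m' g f) (h0 : 0 < p) (h1 : p < 1) (hca : c < a)
    (hw : a - c < m' - m) (h2 : 2 * m' ≤ c) {s : ℝ}
    (hs : ∀ x : ℤ, 1 ≤ x → x ≤ a + c → dd g x ≤ s)
    (hat : ∃ x : ℤ, 1 ≤ x ∧ x ≤ a + c ∧ dd g x = s) {θ : ℝ} (hθ0 : 0 ≤ θ)
    (hθ : ((c : ℝ) - 1) * ((1 - p) * p ^ c) + Kc p c m'
      + ((2 * (c : ℝ) - 1) * ((1 - p) * p ^ a) + MP p a m) - 1 ≤ θ * (1 - Kc p c m'))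
    {n : ℕ} (hn : n < c) : -(θ * s) ≤ dd g (-(n : ℤ)) := by
  have hq : 0 < 1 - p := by linarith
  have hs0 := h.s_nonneg hat
  obtain ⟨δ, hδ0, hδ, hδa⟩ := h.exists_delta (by omega : 0 < c)
  have hK0 := Kc_nonneg h0 h1 (c := c) (m' := m') (by omega)
  have hK1 := Kc_le h0 h1 h2
  have hE := h.s_le h0 h1 (by omega) hs hat hδ0 hδ
  suffices hds : δ ≤ θ * s by
    have := hδ n hn
    linarith
  rcases hδa with hd | ⟨k, hk, hd⟩
  · rw [hd]; positivity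
  have h3 := h.dneg_ge h0 h1 hca hw h2 hs hk
  have h4 := h.dd_ge h0 h1 (by omega) hs (x := (k : ℤ) + 1) (by omega) (by omega)
  have hp : 0 ≤ (1 - p) * p ^ a := by positivity
  have hkc : (k : ℝ) + 1 ≤ c := by exact_mod_cast hk
  have h5 : ((2 * (k : ℝ) + 1) * ((1 - p) * p ^ a) + MP p a m) * s
      ≤ ((2 * (c : ℝ) - 1) * ((1 - p) * p ^ a) + MP p a m) * s := by
    refine mul_le_mul_of_nonneg_right ?_ hs0
    nlinarith
  have h6 : 1 - (((c : ℝ) - 1) - ((c - m' : ℕ) : ℝ)) * s ≤ g ((k : ℤ) + 1 - 1 - (c - m' : ℕ)) := by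
    have hz1 : ((c - m' : ℕ) : ℝ) + 1 ≤ c := by exact_mod_cast (by omega : c - m' + 1 ≤ c)
    rcases le_or_gt k (c - m') with hkz | hkz
    · have := h.gneg_ge_one h0 h1 hca hw h2 (j := c - m' - k) (by omega)
      have e : (k : ℤ) + 1 - 1 - (c - m' : ℕ) = -((c - m' - k : ℕ) : ℤ) := by omega
      rw [e]
      nlinarith
    · obtain ⟨i, hi⟩ : ∃ i, k = c - m' + i := ⟨k - (c - m'), by omega⟩
      have h7 := h.g_ge hs (n := i) (by omega)
      have e : (k : ℤ) + 1 - 1 - (c - m' : ℕ) = (i : ℤ) := by omega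
      rw [e]
      have : ((c - m' : ℕ) : ℝ) + i + 1 ≤ c := by exact_mod_cast (by omega : c - m' + i + 1 ≤ c)
      nlinarith
  have h8 := mul_le_mul_of_nonneg_left h6 (by positivity : 0 ≤ (1 - p) * p ^ c)
  rw [hd] at h3
  have h9 : δ * (1 - Kc p c m') ≤ (((c : ℝ) - 1) * ((1 - p) * p ^ c) + Kc p c m'
      + ((2 * (c : ℝ) - 1) * ((1 - p) * p ^ a) + MP p a m) - 1) * s := by
    nlinarith
  have h10 := mul_le_mul_of_nonneg_right hθ hs0
  have h11 : 0 < 1 - Kc p c m' := by linarith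
  by_contra hcon
  rw [not_le] at hcon
  nlinarith

/-- (K1e): the bound of `s` -/
theorem K1_s (h : WSys p a m c m' g f) (h0 : 0 < p) (h1 : p < 1) (hca : c < a)
    (hw : a - c < m' - m) (h2 : 2 * m' ≤ c) {s : ℝ}
    (hs : ∀ x : ℤ, 1 ≤ x → x ≤ a + c → dd g x ≤ s)
    (hat : ∃ x : ℤ, 1 ≤ x ∧ x ≤ a + c ∧ dd g x = s) {θ : ℝ} (hθ0 : 0 ≤ θ)
    (hθ : ((c : ℝ) - 1) * ((1 - p) * p ^ c) + Kc p c m'
      + ((2 * (c : ℝ) - 1) * ((1 - p) * p ^ a) + MP p a m) - 1 ≤ θ * (1 - Kc p c m')) :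
    s * (1 - ((c - m' : ℕ) : ℝ) * ((1 - p) * p ^ c) - θ * Kc p c m') ≤ (1 - p) * p ^ c := by
  have hs0 := h.s_nonneg hat
  have := h.s_le h0 h1 (by omega) hs hat (δ := θ * s) (by positivity)
    (fun n hn => h.K1d h0 h1 hca hw h2 hs hat hθ0 hθ hn)
  nlinarith

/-- (K1e): zone I, `1 ≤ x ≤ z + 1` -/
theorem K1_zone (h : WSys p a m c m' g f) (h0 : 0 < p) (h1 : p < 1) (hca : c < a)
    (hw : a - c < m' - m) (h2 : 2 * m' ≤ c) {s : ℝ}
    (hs : ∀ x : ℤ, 1 ≤ x → x ≤ a + c → dd g x ≤ s)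
    (hat : ∃ x : ℤ, 1 ≤ x ∧ x ≤ a + c ∧ dd g x = s) {θ : ℝ} (hθ0 : 0 ≤ θ)
    (hθ : ((c : ℝ) - 1) * ((1 - p) * p ^ c) + Kc p c m'
      + ((2 * (c : ℝ) - 1) * ((1 - p) * p ^ a) + MP p a m) - 1 ≤ θ * (1 - Kc p c m'))
    {x : ℤ} (hx1 : 1 ≤ x) (hx2 : x ≤ (c - m' : ℕ) + 1) :
    dd g x ≤ (1 - p) * p ^ c * (1 + (((c - m' : ℕ) : ℝ) + 1 - x) * s) + Kc p c m' * (θ * s) := by
  have hq : 0 < 1 - p := by linarith
  have hs0 := h.s_nonneg hat
  have h3 := h.dd_le_of h0 h1 (by omega) (δ := θ * s) (by positivity)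
    (fun n hn => h.K1d h0 h1 hca hw h2 hs hat hθ0 hθ hn) hx1
  have h4 := mul_le_mul_of_nonneg_left (h.g_le h0 h1 hs hx1 hx2)
    (by positivity : 0 ≤ (1 - p) * p ^ c)
  linarith

/-- (K1e): zone II, `z + 1 ≤ x` -/
theorem K1_zone2 (h : WSys p a m c m' g f) (h0 : 0 < p) (h1 : p < 1) (hca : c < a)
    (hw : a - c < m' - m) (h2 : 2 * m' ≤ c) {s : ℝ}
    (hs : ∀ x : ℤ, 1 ≤ x → x ≤ a + c → dd g x ≤ s)
    (hat : ∃ x : ℤ, 1 ≤ x ∧ x ≤ a + c ∧ dd g x = s) {θ : ℝ} (hθ0 : 0 ≤ θ)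
    (hθ : ((c : ℝ) - 1) * ((1 - p) * p ^ c) + Kc p c m'
      + ((2 * (c : ℝ) - 1) * ((1 - p) * p ^ a) + MP p a m) - 1 ≤ θ * (1 - Kc p c m'))
    {x : ℤ} (hx1 : 1 ≤ x) :
    dd g x ≤ (1 - p) * p ^ c * g (x - 1 - (c - m' : ℕ)) + Kc p c m' * (θ * s) := by
  have hs0 := h.s_nonneg hat
  exact h.dd_le_of h0 h1 (by omega) (δ := θ * s) (by positivity)
    (fun n hn => h.K1d h0 h1 hca hw h2 hs hat hθ0 hθ hn) hx1

/-- no correction for `x ≥ c + 1` -/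
theorem K1_far (h : WSys p a m c m' g f) (h0 : 0 < p) (h1 : p < 1) (hmc : m' ≤ c)
    {x : ℤ} (hx1 : (c : ℤ) + 1 ≤ x) :
    dd g x ≤ (1 - p) * p ^ c * g (x - 1 - (c - m' : ℕ)) := by
  rw [h.eqB x (by omega)]
  have : 0 ≤ ∑ i ∈ range m', ((1 - p) * p ^ (c - m' + i) - (1 - p) * p ^ c) *
      dd g (x - 1 - (c - m' : ℕ) - i) := by
    refine sum_nonneg (fun i hi => ?_)
    rw [mem_range] at hi
    exact mul_nonneg (eps_nonneg h0 h1 hmc hi) (h.mono _ (by omega))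
  linarith

/-- the tie bound of `a - c` -/
theorem tie_le (h : WSys p a m c m' g f) (h0 : 0 < p) (h1 : p < 1) (hca : c < a)
    (hw : a - c < m' - m) (h2 : 2 * m' ≤ c) :
    1 - p ^ (a - c) * g ((a : ℤ) - c)
      ≤ ((m' : ℝ) - m) * (1 - p) * p ^ (a - m') * g ((a : ℤ) + 1 - m') := by
  have hq : 0 < 1 - p := by linarith
  have ht := h.tie
  have h3 : ∑ j ∈ Icc (m + 1) m', p ^ (a - j) * g ((a : ℤ) + 1 - j)
      ≤ ∑ j ∈ Icc (m + 1) m', p ^ (a - m') * g ((a : ℤ) + 1 - m') := by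
    refine sum_le_sum (fun j hj => ?_)
    rw [mem_Icc] at hj
    have e1 : p ^ (a - j) ≤ p ^ (a - m') := pow_le_pow_of_le_one h0.le h1.le (by omega)
    have e2 : g ((a : ℤ) + 1 - j) ≤ g ((a : ℤ) + 1 - m') := h.g_anti (by omega) (by omega)
    exact mul_le_mul e1 e2 (h.g_pos _ (by omega)).le (by positivity)
  rw [sum_const, Nat.card_Icc, nsmul_eq_mul] at h3
  have e3 : ((m' + 1 - (m + 1) : ℕ) : ℝ) = m' - m := by
    rw [Nat.cast_sub (by omega)]; push_cast; ring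
  rw [e3] at h3
  have h4 := mul_le_mul_of_nonneg_left h3 hq.le
  linarith

/-- the tie bound, closed form: `a - c ≤ (m'-m) p^(z+1) g_(a+1-m')` -/
theorem tie_del (h : WSys p a m c m' g f) (h0 : 0 < p) (h1 : p < 1) (hca : c < a)
    (hw : a - c < m' - m) (h2 : 2 * m' ≤ c) :
    (a : ℝ) - c ≤ ((m' : ℝ) - m) * p ^ (c - m' + 1) * g ((a : ℤ) + 1 - m') := by
  have hq : 0 < 1 - p := by linarith
  have h3 := h.tie_le h0 h1 hca hw h2
  obtain ⟨k, hk⟩ : ∃ k, a = c + (k + 1) := ⟨a - c - 1, by omega⟩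
  have e0 : a - c = k + 1 := by omega
  have h4 : g ((a : ℤ) - c) ≤ 1 := h.g_le_one (by omega)
  have h5 : 1 - p ^ (a - c) ≤ 1 - p ^ (a - c) * g ((a : ℤ) - c) := by
    have : 0 < p ^ (a - c) := pow_pos h0 _
    nlinarith
  have h6 : (1 - p) * (((k : ℝ) + 1) * p ^ k) ≤ 1 - p ^ (a - c) := by
    rw [e0, ← geom_q p (k + 1)]
    refine mul_le_mul_of_nonneg_left ?_ hq.le
    calc ((k : ℝ) + 1) * p ^ k = ∑ i ∈ range (k + 1), p ^ k := by
          rw [sum_const, card_range, nsmul_eq_mul]; push_cast; ring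
      _ ≤ _ := sum_le_sum (fun i hi => by
          rw [mem_range] at hi
          exact pow_le_pow_of_le_one h0.le h1.le (by omega))
  have e1 : p ^ (a - m') = p ^ (c - m' + 1) * p ^ k := by rw [← pow_add]; congr 1; omega
  have e2 : (a : ℝ) - c = k + 1 := by rw [hk]; push_cast; ring
  rw [e2]
  have hpk : 0 < p ^ k := pow_pos h0 _
  have h7 : (1 - p) * p ^ k * ((k : ℝ) + 1)
      ≤ (1 - p) * p ^ k * (((m' : ℝ) - m) * p ^ (c - m' + 1) * g ((a : ℤ) + 1 - m')) := by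
    rw [e1] at h3
    nlinarith
  exact le_of_mul_le_mul_left h7 (by positivity)

end WSys

end Coin
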