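import Pool.Agent.Lib.Coin.WinBd

/-!
# Coin race, one-tail window: the differentiated reflection, closed sums
-/

namespace Coin

open Finset

/-- the derivative of the reflection correction `s_n = q p^a Γ_n` -/
noncomputable def dS (p : ℝ) (a m : ℕ) (g f : ℤ → ℝ) (n : ℤ) : ℝ :=
  psi p a * (g (a - n) - g (a + 1 + n))
    + ∑ j ∈ Icc 1 m, psi p (a - j) * (dd g (a + 1 - n - j) - dd g (a + 2 + n - j))
    + (1 - p) * p ^ a * (f (a - n) - f (a + 1 + n))
    + ∑ j ∈ Icc 1 m, (1 - p) * p ^ (a - j) * (dd f (a + 1 - n - j) - dd f (a + 2 + n - j))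

theorem psi_shift {p : ℝ} (h0 : 0 < p) {a j : ℕ} (hj : j ≤ a) :
    psi p a * (1 / p ^ j) + (1 - p) * p ^ a * (1 / p ^ j) * j = psi p (a - j) := by
  have e : p ^ a = p ^ (a - j) * p ^ j := by rw [← pow_add]; congr 1; omega
  unfold psi
  rw [e]
  have : p ^ j ≠ 0 := pow_ne_zero _ h0.ne'
  push_cast [hj]
  field_simp
  ring

theorem pow_shift {p : ℝ} (h0 : 0 < p) {a j : ℕ} (hj : j ≤ a) :
    p ^ a * (1 / p ^ j) = p ^ (a - j) := by
  have e : p ^ a = p ^ (a - j) * p ^ j := by rw [← pow_add]; congr 1; omega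
  rw [e]
  have : p ^ j ≠ 0 := pow_ne_zero _ h0.ne'
  field_simp

/-! ### closed sums -/

theorem sum_psi_aux (p : ℝ) (z n : ℕ) :
    ∑ i ∈ range n, psi p (z + i) = ((z : ℝ) + n) * p ^ (z + n) - z * p ^ z := by
  induction n with
  | zero => simp
  | succ n ih =>
    rw [sum_range_succ, ih]
    unfold psi
    push_cast
    rw [show z + (n + 1) = (z + n) + 1 by ring, pow_succ]
    ring

theorem sum_psi {p : ℝ} {c m' : ℕ} (hmc : m' ≤ c) :
    ∑ i ∈ range m', (psi p (c - m' + i) - psi p c)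
      = (1 - p) * m' * (m' + 1) * p ^ c - ((c - m' : ℕ) : ℝ) * Kc p c m' := by
  rw [sum_sub_distrib, sum_psi_aux, sum_const, card_range, nsmul_eq_mul, Nat.sub_add_cancel hmc]
  unfold Kc psi
  obtain ⟨z, hz⟩ : ∃ z, c = z + m' := ⟨c - m', by omega⟩
  have e : c - m' = z := by omega
  have e2 : (c : ℝ) = z + m' := by rw [hz]; push_cast; ring
  rw [e, e2]
  ring

theorem R1_aux (p : ℝ) (z n : ℕ) :
    (1 - p) ^ 2 * ∑ i ∈ range n, ((n : ℝ) - i) * p ^ (z + i)
      = (1 - p) * n * p ^ z - p * (p ^ z - p ^ (z + n)) := by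
  induction n with
  | zero => simp
  | succ n ih =>
    rw [sum_range_succ]
    have e : ∑ i ∈ range n, (((n + 1 : ℕ) : ℝ) - i) * p ^ (z + i)
        = ∑ i ∈ range n, ((n : ℝ) - i) * p ^ (z + i) + ∑ i ∈ range n, p ^ (z + i) := by
      rw [← sum_add_distrib]
      refine sum_congr rfl (fun i _ => ?_)
      push_cast
      ring
    have e2 : (1 - p) * ∑ i ∈ range n, p ^ (z + i) = p ^ z - p ^ (z + n) := by
      rw [mul_sum]; exact sum_pow_shift p z n
    have e3 : (1 - p) ^ 2 * ∑ i ∈ range n, p ^ (z + i) = (1 - p) * (p ^ z - p ^ (z + n)) := by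
      rw [← e2]; ring
    rw [e, mul_add, mul_add, ih, e3]
    push_cast
    rw [show z + (n + 1) = (z + n) + 1 by ring, pow_succ]
    ring

theorem R1_eq {p : ℝ} {c m' : ℕ} (hmc : m' ≤ c) :
    (1 - p) ^ 2 * R1 p c m' = (1 - p) * m' * p ^ (c - m') - p * (p ^ (c - m') - p ^ c) := by
  have := R1_aux p (c - m') m'
  rw [Nat.sub_add_cancel hmc] at this
  exact this

theorem R1_nonneg {p : ℝ} (h0 : 0 < p) (c m' : ℕ) : 0 ≤ R1 p c m' := by
  unfold R1
  refine sum_nonneg (fun i hi => ?_)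
  rw [mem_range] at hi
  have : (i : ℝ) ≤ m' := by exact_mod_cast hi.le
  have : 0 ≤ (m' : ℝ) - i := by linarith
  positivity

theorem win_one_sub_pow_le {p : ℝ} (h0 : 0 < p) (h1 : p < 1) (j : ℕ) : 1 - p ^ j ≤ j * (1 - p) := by
  rw [← geom_q p j]
  have : ∑ i ∈ range j, p ^ i ≤ ∑ i ∈ range j, (1 : ℝ) :=
    sum_le_sum (fun i _ => pow_le_one₀ h0.le h1.le)
  rw [sum_const, card_range, nsmul_eq_mul, mul_one] at this
  have hq : 0 < 1 - p := by linarith
  nlinarith

theorem win_one_sub_pow_ge {p : ℝ} (h0 : 0 < p) (h1 : p < 1) (j : ℕ) :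
    j * (1 - p) * p ^ j ≤ 1 - p ^ j := by
  rw [← geom_q p j]
  have : ∑ i ∈ range j, p ^ j ≤ ∑ i ∈ range j, p ^ i :=
    sum_le_sum (fun i hi => by
      rw [mem_range] at hi
      exact pow_le_pow_of_le_one h0.le h1.le hi.le)
  rw [sum_const, card_range, nsmul_eq_mul] at this
  have hq : 0 < 1 - p := by linarith
  nlinarith

theorem psi_diff {p : ℝ} {c j : ℕ} (hj : j ≤ c) :
    psi p (c - j) - psi p c = p ^ (c - j) * ((1 - p ^ j) * (p - c * (1 - p)) + j * (1 - p)) := by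
  have e : p ^ c = p ^ (c - j) * p ^ j := by rw [← pow_add]; congr 1; omega
  unfold psi
  rw [e]
  push_cast [hj]
  ring

/-- all terms are nonnegative for `c q ≤ 1 + p` -/
theorem psi_diff_nonneg {p : ℝ} (h0 : 0 < p) (h1 : p < 1) {c j : ℕ} (hj : j ≤ c)
    (hc : c * (1 - p) ≤ 1 + p) : 0 ≤ psi p (c - j) - psi p c := by
  rw [psi_diff hj]
  have h2 := win_one_sub_pow_le h0 h1 j
  have h3 : p ^ j ≤ 1 := pow_le_one₀ h0.le h1.le
  have h4 : 0 ≤ (1 - p ^ j) * (p - c * (1 - p)) + j * (1 - p) := by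
    nlinarith
  exact mul_nonneg (pow_pos h0 _).le h4

/-- upper bound for `c q ≥ p` -/
theorem psi_diff_le {p : ℝ} (h0 : 0 < p) (h1 : p < 1) {c j : ℕ} (hj : j ≤ c)
    (hc : p ≤ c * (1 - p)) : psi p (c - j) - psi p c ≤ (1 - p) * (j * p ^ (c - j)) := by
  rw [psi_diff hj]
  have h3 : p ^ j ≤ 1 := pow_le_one₀ h0.le h1.le
  have h4 : (1 - p ^ j) * (p - c * (1 - p)) + j * (1 - p) ≤ j * (1 - p) := by
    nlinarith
  have := mul_le_mul_of_nonneg_left h4 (pow_pos h0 (c - j)).le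
  linarith

/-- lower bound for `c q ≥ p` -/
theorem psi_diff_ge {p : ℝ} (h0 : 0 < p) (h1 : p < 1) {c j : ℕ} (hj : j ≤ c) :
    -((c * (1 - p) - p) * (p ^ (c - j) - p ^ c)) ≤ psi p (c - j) - psi p c := by
  rw [psi_diff hj]
  have e : p ^ c = p ^ (c - j) * p ^ j := by rw [← pow_add]; congr 1; omega
  have hq : 0 < 1 - p := by linarith
  have : 0 ≤ p ^ (c - j) * (j * (1 - p)) := by positivity
  rw [e]
  nlinarith

/-- upper bound for `c q ≤ p` -/
theorem psi_diff_le' {p : ℝ} (h0 : 0 < p) (h1 : p < 1) {c j : ℕ} (hj : j ≤ c)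
    (hc : c * (1 - p) ≤ p) :
    psi p (c - j) - psi p c ≤ (1 + p - c * (1 - p)) * ((1 - p) * (j * p ^ (c - j))) := by
  rw [psi_diff hj]
  have h2 := win_one_sub_pow_le h0 h1 j
  have h4 : (1 - p ^ j) * (p - c * (1 - p)) + j * (1 - p)
      ≤ (1 + p - c * (1 - p)) * (j * (1 - p)) := by nlinarith
  have := mul_le_mul_of_nonneg_left h4 (pow_pos h0 (c - j)).le
  linarith

/-- sums over `i < m'` of terms in `j = m' - i` -/
theorem sum_psi_le {p : ℝ} (h0 : 0 < p) (h1 : p < 1) {c m' : ℕ} (hmc : m' ≤ c)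
    (hc : p ≤ c * (1 - p)) {u : ℕ → ℝ} {s : ℝ} (hs : 0 ≤ s)
    (hu : ∀ i, i < m' → u i ≤ s) (hu0 : ∀ i, i < m' → -s ≤ u i) :
    ∑ i ∈ range m', (psi p (c - m' + i) - psi p c) * u i
      ≤ ((1 - p) * R1 p c m' + (c * (1 - p) - p) * (Kc p c m' / (1 - p))) * s := by
  have hq : 0 < 1 - p := by linarith
  have hK : (c * (1 - p) - p) * (Kc p c m' / (1 - p))
      = ∑ i ∈ range m', (c * (1 - p) - p) * (p ^ (c - m' + i) - p ^ c) := by
    rw [← sum_eps hmc, ← mul_sum, sum_div]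
    congr 1
    refine sum_congr rfl (fun i _ => ?_)
    field_simp
  rw [hK]
  unfold R1
  rw [mul_sum, ← sum_add_distrib, sum_mul]
  refine sum_le_sum (fun i hi => ?_)
  rw [mem_range] at hi
  have e : c - m' + i = c - (m' - i) := by omega
  have e2 : ((m' - i : ℕ) : ℝ) = m' - i := by rw [Nat.cast_sub hi.le]
  have a1 := psi_diff_le h0 h1 (c := c) (j := m' - i) (by omega) hc
  have a2 := psi_diff_ge h0 h1 (c := c) (j := m' - i) (by omega)
  rw [← e, e2] at a1
  rw [← e] at a2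
  have b1 := hu i hi
  have b2 := hu0 i hi
  have c1 : 0 ≤ (1 - p) * (((m' : ℝ) - i) * p ^ (c - m' + i)) := by
    have : (i : ℝ) ≤ m' := by exact_mod_cast hi.le
    have : 0 ≤ (m' : ℝ) - i := by linarith
    positivity
  have c2 : 0 ≤ (c * (1 - p) - p) * (p ^ (c - m' + i) - p ^ c) := by
    have : p ^ c ≤ p ^ (c - m' + i) := pow_le_pow_of_le_one h0.le h1.le (by omega)
    exact mul_nonneg (by linarith) (by linarith)
  rcases le_or_gt 0 (psi p (c - m' + i) - psi p c) with hp | hp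
  · nlinarith
  · nlinarith

namespace WSys

variable {p : ℝ} {a m c m' : ℕ} {g f : ℤ → ℝ}

/-- the differentiated reflection in combined form -/
theorem dneg_f (h : WSys p a m c m' g f) (h0 : 0 < p) (hma : m ≤ a) (n : ℕ) :
    dd f (-(n : ℤ)) = dd f (n + 1) - dS p a m g f n := by
  rw [h.eqRd n]
  congr 1
  unfold Gam dGam dS
  rw [mul_add, mul_add]
  have e1 : psi p a * ∑ j ∈ Icc 1 m, 1 / p ^ j * (dd g (a + 1 - n - j) - dd g (a + 2 + n - j))
      + (1 - p) * p ^ a * ∑ j ∈ Icc 1 m, 1 / p ^ j * ((j : ℝ) *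
        (dd g (a + 1 - n - j) - dd g (a + 2 + n - j))
        + (dd f (a + 1 - n - j) - dd f (a + 2 + n - j)))
      = ∑ j ∈ Icc 1 m, psi p (a - j) * (dd g (a + 1 - n - j) - dd g (a + 2 + n - j))
        + ∑ j ∈ Icc 1 m, (1 - p) * p ^ (a - j) *
          (dd f (a + 1 - n - j) - dd f (a + 2 + n - j)) := by
    rw [mul_sum, mul_sum, ← sum_add_distrib, ← sum_add_distrib]
    refine sum_congr rfl (fun j hj => ?_)
    rw [mem_Icc] at hj
    rw [← psi_shift h0 (a := a) (j := j) (by omega), ← pow_shift h0 (a := a) (j := j) (by omega)]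
    ring
  linarith

/-- the bounds of `dS`, only the indices which occur -/
theorem dS_core (h : WSys p a m c m' g f) (h0 : 0 < p) (h1 : p < 1) (hca : c < a)
    (hw : a - c < m' - m) (h2 : 2 * m' ≤ c) {s t N U N' E : ℝ}
    (hs : ∀ x : ℤ, 1 ≤ x → x ≤ a + c → dd g x ≤ s)
    {n : ℕ} (hn : n < c)
    (hts : ∀ j : ℕ, 1 ≤ j → j ≤ m → dd g (a + 1 - n - j) ≤ s)
    (ht : ∀ j : ℕ, 1 ≤ j → j ≤ m → -t ≤ dd g (a + 1 - n - j))
    (hN : ∀ x : ℤ, 1 ≤ x → x ≤ a + c → -N ≤ dd f x)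
    (hU : ∀ x : ℤ, 1 ≤ x → x ≤ a + c → dd f x ≤ U)
    (hN' : ∀ j : ℕ, 1 ≤ j → j ≤ m → -N' ≤ dd f (a + 1 - n - j))
    (hE : ∀ j : ℕ, 1 ≤ j → j ≤ m → dd f (a + 1 - n - j) ≤ E) :
    -dS p a m g f n ≤ (2 * n + 1) * (max (-psi p a) 0 * s + (1 - p) * p ^ a * N)
        + ∑ j ∈ Icc 1 m, (max (psi p (a - j)) 0 * (s + t) + max (-psi p (a - j)) 0 * s)
        + MP p a m * (N' + U)
    ∧ dS p a m g f n ≤ (2 * n + 1) * (max (psi p a) 0 * s + (1 - p) * p ^ a * U)
        + ∑ j ∈ Icc 1 m, (max (psi p (a - j)) 0 * s + max (-psi p (a - j)) 0 * (s + t))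
        + MP p a m * (E + N) := by
  have hq : 0 < 1 - p := by linarith
  have hP : 0 < (1 - p) * p ^ a := by positivity
  have hs0 : 0 ≤ s := (h.mono 1 le_rfl).trans (hs 1 le_rfl (by omega))
  -- the four blocks
  have g1 : g (a - n) - g (a + 1 + n) ≤ (2 * n + 1) * s := by
    have := sub_le_mul (g := g) (s := s) (u := (a : ℤ) - n) (n := 2 * n + 1)
      (fun x hx1 hx2 => hs x (by omega) (by push_cast at hx2; omega))
    rw [show (a : ℤ) - n + ((2 * n + 1 : ℕ) : ℤ) = a + 1 + n by push_cast; ring] at this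
    push_cast at this
    exact this
  have g0 : 0 ≤ g (a - n) - g (a + 1 + n) := by
    have := h.g_anti (x := (a : ℤ) - n) (y := a + 1 + n) (by omega) (by omega)
    linarith
  have f1 : f (a - n) - f (a + 1 + n) ≤ (2 * n + 1) * U := by
    have := sub_le_mul (g := f) (s := U) (u := (a : ℤ) - n) (n := 2 * n + 1)
      (fun x hx1 hx2 => hU x (by omega) (by push_cast at hx2; omega))
    rw [show (a : ℤ) - n + ((2 * n + 1 : ℕ) : ℤ) = a + 1 + n by push_cast; ring] at this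
    push_cast at this
    exact this
  have f0 : -((2 * n + 1) * N) ≤ f (a - n) - f (a + 1 + n) := by
    have := sub_ge_mul (g := f) (s := -N) (u := (a : ℤ) - n) (n := 2 * n + 1)
      (fun x hx1 hx2 => hN x (by omega) (by push_cast at hx2; omega))
    rw [show (a : ℤ) - n + ((2 * n + 1 : ℕ) : ℤ) = a + 1 + n by push_cast; ring] at this
    push_cast at this
    linarith
  have hd : ∀ j, j ∈ Icc 1 m → -(s + t) ≤ dd g (a + 1 - n - j) - dd g (a + 2 + n - j)
      ∧ dd g (a + 1 - n - j) - dd g (a + 2 + n - j) ≤ s := by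
    intro j hj
    rw [mem_Icc] at hj
    have a1 : dd g (a + 1 - n - j) ≤ s := hts j hj.1 hj.2
    have a2 : 0 ≤ dd g (a + 2 + n - j) := h.mono _ (by omega)
    have a3 : dd g (a + 2 + n - j) ≤ s := hs _ (by omega) (by omega)
    have a4 : -t ≤ dd g (a + 1 - n - j) := ht j hj.1 hj.2
    constructor <;> linarith
  have he : ∀ j, j ∈ Icc 1 m → -(N' + U) ≤ dd f (a + 1 - n - j) - dd f (a + 2 + n - j)
      ∧ dd f (a + 1 - n - j) - dd f (a + 2 + n - j) ≤ E + N := by
    intro j hj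
    rw [mem_Icc] at hj
    have a1 : dd f (a + 1 - n - j) ≤ E := hE j hj.1 hj.2
    have a2 : -N ≤ dd f (a + 2 + n - j) := hN _ (by omega) (by omega)
    have a3 : dd f (a + 2 + n - j) ≤ U := hU _ (by omega) (by omega)
    have a4 : -N' ≤ dd f (a + 1 - n - j) := hN' j hj.1 hj.2
    constructor <;> linarith
  have hMP : ∀ v : ℝ, ∑ j ∈ Icc 1 m, (1 - p) * p ^ (a - j) * v = MP p a m * v := by
    intro v
    rw [← sum_mul, ← sum_inv_eq h0 (a := a) (m := m) (by omega), mul_sum]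
    congr 1
    refine sum_congr rfl (fun j hj => ?_)
    rw [mem_Icc] at hj
    rw [mul_assoc, pow_shift h0 (by omega)]
  have hpos : ∀ x : ℝ, 0 ≤ max x 0 := fun x => le_max_right _ _
  have hsplit : ∀ x : ℝ, x = max x 0 - max (-x) 0 := by
    intro x
    rcases le_total 0 x with hx | hx
    · rw [max_eq_left hx, max_eq_right (by linarith)]; ring
    · rw [max_eq_right hx, max_eq_left (by linarith)]; ring
  constructor
  · have b1 : -(psi p a * (g (a - n) - g (a + 1 + n))) ≤ (2 * n + 1) * (max (-psi p a) 0 * s) := by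
      have e := hsplit (psi p a)
      have h3 := hpos (psi p a)
      have h4 := hpos (-psi p a)
      calc -(psi p a * (g (a - n) - g (a + 1 + n)))
          = max (-psi p a) 0 * (g (a - n) - g (a + 1 + n))
            - max (psi p a) 0 * (g (a - n) - g (a + 1 + n)) := by
              rw [← sub_mul]
              have : max (-psi p a) 0 - max (psi p a) 0 = -psi p a := by linarith
              rw [this]; ring
        _ ≤ max (-psi p a) 0 * ((2 * n + 1) * s) := by
              have := mul_le_mul_of_nonneg_left g1 h4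
              have := mul_nonneg h3 g0
              linarith
        _ = _ := by ring
    have b2 : -∑ j ∈ Icc 1 m, psi p (a - j) * (dd g (a + 1 - n - j) - dd g (a + 2 + n - j))
        ≤ ∑ j ∈ Icc 1 m, (max (psi p (a - j)) 0 * (s + t) + max (-psi p (a - j)) 0 * s) := by
      rw [← sum_neg_distrib]
      refine sum_le_sum (fun j hj => ?_)
      have e := hsplit (psi p (a - j))
      have h3 := hpos (psi p (a - j))
      have h4 := hpos (-psi p (a - j))
      obtain ⟨d1, d2⟩ := hd j hj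
      have d3 := mul_le_mul_of_nonneg_left d1 h3
      have d4 := mul_le_mul_of_nonneg_left d2 h4
      calc -(psi p (a - j) * (dd g (a + 1 - n - j) - dd g (a + 2 + n - j)))
          = max (-psi p (a - j)) 0 * (dd g (a + 1 - n - j) - dd g (a + 2 + n - j))
            - max (psi p (a - j)) 0 * (dd g (a + 1 - n - j) - dd g (a + 2 + n - j)) := by
              rw [← sub_mul]
              have : max (-psi p (a - j)) 0 - max (psi p (a - j)) 0 = -psi p (a - j) := by linarith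
              rw [this]; ring
        _ ≤ _ := by linarith
    have b3 : -((1 - p) * p ^ a * (f (a - n) - f (a + 1 + n)))
        ≤ (2 * n + 1) * ((1 - p) * p ^ a * N) := by
      have := mul_le_mul_of_nonneg_left f0 hP.le
      linarith
    have b4 : -∑ j ∈ Icc 1 m, (1 - p) * p ^ (a - j) *
        (dd f (a + 1 - n - j) - dd f (a + 2 + n - j)) ≤ MP p a m * (N' + U) := by
      rw [← hMP, ← sum_neg_distrib]
      refine sum_le_sum (fun j hj => ?_)
      have := mul_le_mul_of_nonneg_left (he j hj).1 (by positivity : 0 ≤ (1 - p) * p ^ (a - j))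
      linarith
    unfold dS
    linarith
  · have b1 : psi p a * (g (a - n) - g (a + 1 + n)) ≤ (2 * n + 1) * (max (psi p a) 0 * s) := by
      have h3 := hpos (psi p a)
      have : psi p a ≤ max (psi p a) 0 := le_max_left _ _
      calc psi p a * (g (a - n) - g (a + 1 + n))
          ≤ max (psi p a) 0 * (g (a - n) - g (a + 1 + n)) := mul_le_mul_of_nonneg_right this g0
        _ ≤ max (psi p a) 0 * ((2 * n + 1) * s) := mul_le_mul_of_nonneg_left g1 h3
        _ = _ := by ring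
    have b2 : ∑ j ∈ Icc 1 m, psi p (a - j) * (dd g (a + 1 - n - j) - dd g (a + 2 + n - j))
        ≤ ∑ j ∈ Icc 1 m, (max (psi p (a - j)) 0 * s + max (-psi p (a - j)) 0 * (s + t)) := by
      refine sum_le_sum (fun j hj => ?_)
      have e := hsplit (psi p (a - j))
      have h3 := hpos (psi p (a - j))
      have h4 := hpos (-psi p (a - j))
      obtain ⟨d1, d2⟩ := hd j hj
      have d3 := mul_le_mul_of_nonneg_left d1 h4
      have d4 := mul_le_mul_of_nonneg_left d2 h3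
      calc psi p (a - j) * (dd g (a + 1 - n - j) - dd g (a + 2 + n - j))
          = max (psi p (a - j)) 0 * (dd g (a + 1 - n - j) - dd g (a + 2 + n - j))
            - max (-psi p (a - j)) 0 * (dd g (a + 1 - n - j) - dd g (a + 2 + n - j)) := by
              rw [← sub_mul, ← e]
        _ ≤ _ := by linarith
    have b3 : (1 - p) * p ^ a * (f (a - n) - f (a + 1 + n))
        ≤ (2 * n + 1) * ((1 - p) * p ^ a * U) := by
      have := mul_le_mul_of_nonneg_left f1 hP.le
      linarith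
    have b4 : ∑ j ∈ Icc 1 m, (1 - p) * p ^ (a - j) *
        (dd f (a + 1 - n - j) - dd f (a + 2 + n - j)) ≤ MP p a m * (E + N) := by
      rw [← hMP]
      refine sum_le_sum (fun j hj => ?_)
      exact mul_le_mul_of_nonneg_left (he j hj).2 (by positivity : 0 ≤ (1 - p) * p ^ (a - j))
    unfold dS
    linarith

/-- the bounds of `dS`, all `n < c` -/
theorem dS_bounds (h : WSys p a m c m' g f) (h0 : 0 < p) (h1 : p < 1) (hca : c < a)
    (hw : a - c < m' - m) (h2 : 2 * m' ≤ c) {s t N U N' E : ℝ}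
    (hs : ∀ x : ℤ, 1 ≤ x → x ≤ a + c → dd g x ≤ s)
    (ht0 : 0 ≤ t) (ht : ∀ n : ℕ, n < c → -t ≤ dd g (-(n : ℤ)))
    (hN : ∀ x : ℤ, 1 ≤ x → x ≤ a + c → -N ≤ dd f x)
    (hU : ∀ x : ℤ, 1 ≤ x → x ≤ a + c → dd f x ≤ U)
    (hN' : ∀ x : ℤ, 1 - (c : ℤ) ≤ x → x ≤ a + c → -N' ≤ dd f x)
    (hE : ∀ x : ℤ, 1 - (c : ℤ) ≤ x → x ≤ a + c → dd f x ≤ E)
    {n : ℕ} (hn : n < c) :
    -dS p a m g f n ≤ (2 * n + 1) * (max (-psi p a) 0 * s + (1 - p) * p ^ a * N)
        + ∑ j ∈ Icc 1 m, (max (psi p (a - j)) 0 * (s + t) + max (-psi p (a - j)) 0 * s)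
        + MP p a m * (N' + U)
    ∧ dS p a m g f n ≤ (2 * n + 1) * (max (psi p a) 0 * s + (1 - p) * p ^ a * U)
        + ∑ j ∈ Icc 1 m, (max (psi p (a - j)) 0 * s + max (-psi p (a - j)) 0 * (s + t))
        + MP p a m * (E + N) := by
  refine h.dS_core h0 h1 hca hw h2 hs hn
    (fun j hj1 hj2 => h.dd_le h0 h1 hs (by omega) (by omega)) (fun j hj1 hj2 => ?_) hN hU
    (fun j hj1 hj2 => hN' _ (by omega) (by omega)) (fun j hj1 hj2 => hE _ (by omega) (by omega))
  rcases le_or_gt 1 ((a : ℤ) + 1 - n - j) with hy | hy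
  · have := h.mono _ hy
    linarith
  · obtain ⟨k, hk⟩ : ∃ k : ℕ, (a : ℤ) + 1 - n - j = -(k : ℤ) :=
      ⟨(-((a : ℤ) + 1 - n - j)).toNat, by omega⟩
    rw [hk]
    exact ht k (by omega)

/-- the bounds of `dS` for `n < z`: only indices in `[1, a+c]` occur -/
theorem dS_bounds_z (h : WSys p a m c m' g f) (h0 : 0 < p) (h1 : p < 1) (hca : c < a)
    (hw : a - c < m' - m) (h2 : 2 * m' ≤ c) {s N U : ℝ}
    (hs : ∀ x : ℤ, 1 ≤ x → x ≤ a + c → dd g x ≤ s)
    (hN : ∀ x : ℤ, 1 ≤ x → x ≤ a + c → -N ≤ dd f x)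
    (hU : ∀ x : ℤ, 1 ≤ x → x ≤ a + c → dd f x ≤ U)
    {n : ℕ} (hn : n < c - m') :
    -dS p a m g f n ≤ (2 * n + 1) * (max (-psi p a) 0 * s + (1 - p) * p ^ a * N)
        + (∑ j ∈ Icc 1 m, |psi p (a - j)|) * s + MP p a m * (N + U)
    ∧ dS p a m g f n ≤ (2 * n + 1) * (max (psi p a) 0 * s + (1 - p) * p ^ a * U)
        + (∑ j ∈ Icc 1 m, |psi p (a - j)|) * s + MP p a m * (U + N) := by
  have h3 := h.dS_core h0 h1 hca hw h2 (t := 0) (N' := N) (E := U) hs (n := n) (by omega)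
    (fun j hj1 hj2 => hs _ (by omega) (by omega))
    (fun j hj1 hj2 => by
      have := h.mono ((a : ℤ) + 1 - n - j) (by omega)
      linarith)
    hN hU (fun j hj1 hj2 => hN _ (by omega) (by omega))
    (fun j hj1 hj2 => hU _ (by omega) (by omega))
  have e : ∀ x : ℝ, max x 0 + max (-x) 0 = |x| := by
    intro x
    rcases le_total 0 x with hx | hx
    · rw [max_eq_left hx, max_eq_right (by linarith), abs_of_nonneg hx, add_zero]
    · rw [max_eq_right hx, max_eq_left (by linarith), abs_of_nonpos hx, zero_add]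
  have e1 : ∑ j ∈ Icc 1 m, (max (psi p (a - j)) 0 * (s + 0) + max (-psi p (a - j)) 0 * s)
      = (∑ j ∈ Icc 1 m, |psi p (a - j)|) * s := by
    rw [sum_mul]
    refine sum_congr rfl (fun j _ => ?_)
    rw [← e]; ring
  have e2 : ∑ j ∈ Icc 1 m, (max (psi p (a - j)) 0 * s + max (-psi p (a - j)) 0 * (s + 0))
      = (∑ j ∈ Icc 1 m, |psi p (a - j)|) * s := by
    rw [sum_mul]
    refine sum_congr rfl (fun j _ => ?_)
    rw [← e]; ring
  rw [e1, e2] at h3
  exact h3

end WSys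

end Coin
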