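import Mathlib

/-!
# Coin race, one-tail window: elimination of the unknown suprema

If `v i ≤ ∑ j, A j * v j + b` (with coefficients that may depend on `i` and on a case) and a
positive vector `w` satisfies `∑ j, A j * w j + b ≤ w i`, then `v ≤ w`.
-/

namespace Coin.WN

open Finset

theorem elim {ι : Type*} [Fintype ι] (v w : ι → ℝ) (hw : ∀ i, 0 < w i)
    (h : ∀ i, v i ≤ w i ∨ ∃ (A : ι → ℝ) (b : ℝ), (∀ j, 0 ≤ A j) ∧ 0 < b ∧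
      v i ≤ ∑ j, A j * v j + b ∧ ∑ j, A j * w j + b ≤ w i) (i : ι) : v i ≤ w i := by
  classical
  obtain ⟨i0, -, hmax⟩ := Finset.exists_max_image (Finset.univ : Finset ι)
    (fun i => v i / w i) ⟨i, Finset.mem_univ i⟩
  set r := v i0 / w i0 with hr
  have hle : ∀ j, v j ≤ r * w j := fun j => by
    have := hmax j (Finset.mem_univ j)
    rw [div_le_iff₀ (hw j)] at this
    exact this
  have hr1 : r ≤ 1 := by
    by_contra hcon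
    push Not at hcon
    have h0 : v i0 = r * w i0 := by
      rw [hr, div_mul_cancel₀ _ (hw i0).ne']
    rcases h i0 with h1 | ⟨A, b, hA, hb, h1, h2⟩
    · have := hw i0
      nlinarith
    · have h3 : ∑ j, A j * v j ≤ r * ∑ j, A j * w j := by
        rw [Finset.mul_sum]
        refine Finset.sum_le_sum (fun j _ => ?_)
        have := mul_le_mul_of_nonneg_left (hle j) (hA j)
        linarith
      have h4 : r * (∑ j, A j * w j + b) ≤ r * w i0 :=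
        mul_le_mul_of_nonneg_left h2 (by linarith)
      nlinarith
  have := hle i
  have h5 := hw i
  nlinarith

/-- five unknowns -/
theorem elim5 {v1 v2 v3 v4 v5 w1 w2 w3 w4 w5 : ℝ} (hw1 : 0 < w1) (hw2 : 0 < w2) (hw3 : 0 < w3)
    (hw4 : 0 < w4) (hw5 : 0 < w5)
    (h1 : v1 ≤ w1 ∨ ∃ a1 a2 a3 a4 a5 b : ℝ, 0 ≤ a1 ∧ 0 ≤ a2 ∧ 0 ≤ a3 ∧ 0 ≤ a4 ∧ 0 ≤ a5 ∧ 0 < b ∧
      v1 ≤ a1 * v1 + a2 * v2 + a3 * v3 + a4 * v4 + a5 * v5 + b ∧
      a1 * w1 + a2 * w2 + a3 * w3 + a4 * w4 + a5 * w5 + b ≤ w1)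
    (h2 : v2 ≤ w2 ∨ ∃ a1 a2 a3 a4 a5 b : ℝ, 0 ≤ a1 ∧ 0 ≤ a2 ∧ 0 ≤ a3 ∧ 0 ≤ a4 ∧ 0 ≤ a5 ∧ 0 < b ∧
      v2 ≤ a1 * v1 + a2 * v2 + a3 * v3 + a4 * v4 + a5 * v5 + b ∧
      a1 * w1 + a2 * w2 + a3 * w3 + a4 * w4 + a5 * w5 + b ≤ w2)
    (h3 : v3 ≤ w3 ∨ ∃ a1 a2 a3 a4 a5 b : ℝ, 0 ≤ a1 ∧ 0 ≤ a2 ∧ 0 ≤ a3 ∧ 0 ≤ a4 ∧ 0 ≤ a5 ∧ 0 < b ∧
      v3 ≤ a1 * v1 + a2 * v2 + a3 * v3 + a4 * v4 + a5 * v5 + b ∧
      a1 * w1 + a2 * w2 + a3 * w3 + a4 * w4 + a5 * w5 + b ≤ w3)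
    (h4 : v4 ≤ w4 ∨ ∃ a1 a2 a3 a4 a5 b : ℝ, 0 ≤ a1 ∧ 0 ≤ a2 ∧ 0 ≤ a3 ∧ 0 ≤ a4 ∧ 0 ≤ a5 ∧ 0 < b ∧
      v4 ≤ a1 * v1 + a2 * v2 + a3 * v3 + a4 * v4 + a5 * v5 + b ∧
      a1 * w1 + a2 * w2 + a3 * w3 + a4 * w4 + a5 * w5 + b ≤ w4)
    (h5 : v5 ≤ w5 ∨ ∃ a1 a2 a3 a4 a5 b : ℝ, 0 ≤ a1 ∧ 0 ≤ a2 ∧ 0 ≤ a3 ∧ 0 ≤ a4 ∧ 0 ≤ a5 ∧ 0 < b ∧
      v5 ≤ a1 * v1 + a2 * v2 + a3 * v3 + a4 * v4 + a5 * v5 + b ∧
      a1 * w1 + a2 * w2 + a3 * w3 + a4 * w4 + a5 * w5 + b ≤ w5) :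
    v1 ≤ w1 ∧ v2 ≤ w2 ∧ v3 ≤ w3 ∧ v4 ≤ w4 ∧ v5 ≤ w5 := by
  have key := elim (ι := Fin 5) ![v1, v2, v3, v4, v5] ![w1, w2, w3, w4, w5]
    (fun i => by fin_cases i <;> simpa) (fun i => by
      fin_cases i
      · rcases h1 with h | ⟨a1, a2, a3, a4, a5, b, p1, p2, p3, p4, p5, pb, q1, q2⟩
        · exact Or.inl (by simpa using h)
        · refine Or.inr ⟨![a1, a2, a3, a4, a5], b, fun j => by fin_cases j <;> simpa, pb, ?_, ?_⟩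
          · simpa [Fin.sum_univ_five] using q1
          · simpa [Fin.sum_univ_five] using q2
      · rcases h2 with h | ⟨a1, a2, a3, a4, a5, b, p1, p2, p3, p4, p5, pb, q1, q2⟩
        · exact Or.inl (by simpa using h)
        · refine Or.inr ⟨![a1, a2, a3, a4, a5], b, fun j => by fin_cases j <;> simpa, pb, ?_, ?_⟩
          · simpa [Fin.sum_univ_five] using q1
          · simpa [Fin.sum_univ_five] using q2
      · rcases h3 with h | ⟨a1, a2, a3, a4, a5, b, p1, p2, p3, p4, p5, pb, q1, q2⟩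
        · exact Or.inl (by simpa using h)
        · refine Or.inr ⟨![a1, a2, a3, a4, a5], b, fun j => by fin_cases j <;> simpa, pb, ?_, ?_⟩
          · simpa [Fin.sum_univ_five] using q1
          · simpa [Fin.sum_univ_five] using q2
      · rcases h4 with h | ⟨a1, a2, a3, a4, a5, b, p1, p2, p3, p4, p5, pb, q1, q2⟩
        · exact Or.inl (by simpa using h)
        · refine Or.inr ⟨![a1, a2, a3, a4, a5], b, fun j => by fin_cases j <;> simpa, pb, ?_, ?_⟩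
          · simpa [Fin.sum_univ_five] using q1
          · simpa [Fin.sum_univ_five] using q2
      · rcases h5 with h | ⟨a1, a2, a3, a4, a5, b, p1, p2, p3, p4, p5, pb, q1, q2⟩
        · exact Or.inl (by simpa using h)
        · refine Or.inr ⟨![a1, a2, a3, a4, a5], b, fun j => by fin_cases j <;> simpa, pb, ?_, ?_⟩
          · simpa [Fin.sum_univ_five] using q1
          · simpa [Fin.sum_univ_five] using q2)
  exact ⟨by simpa using key 0, by simpa using key 1, by simpa using key 2, by simpa using key 3,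
    by simpa using key 4⟩

end Coin.WN
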