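import Pool.Agent.Lib.Coin.WE9

/-!
# Coin race: the one-tail window inside two words with the same content (module M6b)
-/

namespace Coin.WE

open Finset Filter

/-- at a tie in the window `1 - p < p ^ 3` -/
theorem tie_bound {p : ℝ} {A B : List Bool} (h0 : 0 < p) (h1 : p < 1) (hA : A ≠ []) (hB : B ≠ [])
    {a c mA mB : ℕ} (hca : c < a) (haL : a + 1 ≤ A.length) (hmB : 2 ≤ mB) (h2m : 2 * mB ≤ c)
    (hAB : mA < mB)
    (htie : ∑ i ∈ Ioc mA mB, Yt A B i p - ∑ l ∈ Ioc c a, Xt A B l p = 0) : 1 - p < p ^ 3 := by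
  have hq : 0 < 1 - p := by linarith
  have hmono : ∀ j k : ℕ, 1 ≤ j → j ≤ k → k ≤ A.length → wz A B p j ≤ wz A B p k := by
    intro j k hj hjk hk
    rw [← Wk_eq_wz h0 h1 hA hB hj, ← Wk_eq_wz h0 h1 hA hB (hj.trans hjk)]
    exact Wk_pm_mono h0 h1 hA hB hj hjk hk
  have hpos : 0 < wz A B p ((c + 1 : ℕ) : ℤ) := by
    rw [← Wk_eq_wz h0 h1 hA hB (by omega)]
    exact Wk_pos h0 h1 hA hB _
  set w0 := wz A B p ((c + 1 : ℕ) : ℤ) with hw0
  rw [sum_Xt h0 h1 hca.le, ← hw0] at htie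
  have e1 : ∑ i ∈ Ioc mA mB, Yt A B i p ≤ (∑ i ∈ Ioc mA mB, (p ^ i)⁻¹) * w0 := by
    rw [Finset.sum_mul]
    refine Finset.sum_le_sum (fun i hi => ?_)
    rw [Finset.mem_Ioc] at hi
    exact mul_le_mul_of_nonneg_left (hmono i (c + 1) (by omega) (by omega) (by omega))
      (by positivity)
  have e2 := mul_lt_mul_of_pos_right (sum_inv_pow_lt h0 h1 mA hAB.le) hpos
  have e3 : (p ^ a * (1 - p))⁻¹ * w0 ≤ (p ^ a * (1 - p))⁻¹ * wz A B p ((a + 1 : ℕ) : ℤ) :=
    mul_le_mul_of_nonneg_left (hmono (c + 1) (a + 1) (by omega) (by omega) haL) (by positivity)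
  have e4 : (p ^ (c + 1) * (1 - p))⁻¹ ≤ (p ^ a * (1 - p))⁻¹ := by
    refine inv_anti₀ (by positivity) (mul_le_mul_of_nonneg_right ?_ hq.le)
    exact pow_le_pow_of_le_one h0.le h1.le hca
  have e5 := mul_le_mul_of_nonneg_right e4 hpos.le
  have e6 : (p ^ (c + 1) * (1 - p))⁻¹ - (p ^ c * (1 - p))⁻¹ = (p ^ (c + 1))⁻¹ := by
    rw [pow_succ]
    field_simp
  have e7 : (p ^ (c + 1))⁻¹ * w0 < (p ^ mB * (1 - p))⁻¹ * w0 := by
    rw [← e6, sub_mul]
    linarith
  have e8 : (p ^ (c + 1))⁻¹ < (p ^ mB * (1 - p))⁻¹ := lt_of_mul_lt_mul_right e7 hpos.le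
  have e9 : p ^ mB * (1 - p) < p ^ (c + 1) :=
    (inv_lt_inv₀ (by positivity) (by positivity)).1 e8
  have e10 : p ^ (c + 1) ≤ p ^ mB * p ^ 3 := by
    rw [← pow_add]
    exact pow_le_pow_of_le_one h0.le h1.le (by omega)
  exact lt_of_mul_lt_mul_left (e9.trans_le e10) (pow_nonneg h0.le mB)

/-- **M6b** -/
theorem winEq_aux {p : ℝ} {A B : List Bool} (h0 : 0 < p) (h1 : p < 1) (hA : A ≠ []) (hB : B ≠ [])
    (hc : cont A = cont B) {x y : ℕ × ℕ} (hx : IsTop A B x) (hy : IsTop B A y)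
    (hx2 : x.2 = 1) (hy2 : y.2 = 1) (hlt : y.1 < x.1)
    (hcard : x.1 - y.1 + 1 < (bc B \ bc A).card) (htie : G p A B = 0) :
    ∃ d : ℝ, 0 < d ∧ HasDerivAt (fun x => G x A B) d p := by
  obtain ⟨mA, mB, hmB, h2m, hAB, hSA, hSB, hxL, hh, ht, ⟨kA, hkA, heA, htA, hfA, dA1, dA2⟩,
    ⟨kB, hkB, heB, htB, hfB, dB1, dB2⟩⟩ := win_data hA hB hc hx hy hx2 hy2 hlt hcard
  have hq : 0 < 1 - p := by linarith
  set c := y.1 with hcd
  set a := x.1 with had
  have hG : ∀ z : ℝ, 0 < z → z < 1 →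
      G z A B = ∑ i ∈ Ioc mA mB, Yt A B i z - ∑ l ∈ Ioc c a, Xt A B l z := fun z z0 z1 =>
    G_eq_XY z0 z1 hA hB hx2 hy2 hlt.le hSA hSB
  have htie' := htie
  rw [hG p h0 h1] at htie'
  have hp3 := tie_bound h0 h1 hA hB hlt hxL.le hmB h2m hAB htie'
  have hp : 1 - p ≤ 1 / 3 := by
    by_contra hcon
    push Not at hcon
    have h2 : p < 2 / 3 := by linarith
    have h3 : p ^ 3 ≤ (2 / 3) ^ 3 := pow_le_pow_left₀ h0.le h2.le 3
    norm_num at h3
    linarith
  obtain ⟨hlam, hlame⟩ := lam_le h0 h1 hp hh ht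
  have hsA := sum_tj_le h0 h1 hkA heA htA hfA dA1 dA2
  have hsB := sum_tj_le h0 h1 hkB heB htB hfB dB1 dB2
  have hTA := sum_tj_ej_le' h0 h1 hkA heA htA hfA dA1 dA2
  have hTB := sum_tj_ej_le' h0 h1 hkB heB htB hfB dB1 dB2
  -- the weights
  set w : ℕ → ℝ := fun k => wz A B p k with hw
  set w' : ℕ → ℝ := fun k => wz' A B p k with hw'
  have hwpos : ∀ k : ℕ, 1 ≤ k → 0 < w k := by
    intro k hk
    simp only [hw]
    rw [← Wk_eq_wz h0 h1 hA hB hk]
    exact Wk_pos h0 h1 hA hB _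
  set P := wt p A with hP
  have hP0 : 0 < P := wt_pos h0 h1 A
  set U : ℝ := (1 - p) * A.count true + 1 + 2 * (1 - p) with hU
  have hU0 : 0 ≤ U := by positivity
  have heps : eps p (cont A) + 3 ≤ U := by
    have h2 : (2 : ℝ) ≤ A.count false := by exact_mod_cast ht
    have h3 : eps p (cont A) = (1 - p) * A.count true - p * A.count false := rfl
    rw [h3, hU]
    nlinarith
  have hbd : ∀ k : ℕ, 1 ≤ k → k < A.length → 0 ≤ w (k + 1) - w k
      ∧ w (k + 1) - w k ≤ 51 / 38 * P * w k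
      ∧ (p * (1 - p)) * (w' (k + 1) * w k - w' k * w (k + 1)) ≤ U * ((w (k + 1) - w k) * w k) := by
    intro k hk1 hk2
    obtain ⟨b1, b2, b3⟩ := wz_bounds h0 h1 hA hB hc hsA hsB hTA hTB hlam hlame
      (k := (k : ℤ)) (by omega) (by omega) (hwpos k hk1)
    have hd : dz A B p k = w (k + 1) - w k := by
      unfold dz
      simp only [hw]
      push_cast
      ring
    have hw1 : w (k + 1) = wz A B p ((k : ℤ) + 1) := by
      simp only [hw]; push_cast; ring
    have hw1' : w' (k + 1) = wz' A B p ((k : ℤ) + 1) := by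
      simp only [hw']; push_cast; ring
    rw [hd] at b1 b2 b3
    have hwk : wz A B p k = w k := rfl
    have hwk' : wz' A B p k = w' k := rfl
    rw [hwk] at b1 b2 b3
    rw [hwk', ← hw1, ← hw1'] at b3
    have hPw : 0 < P * w k := mul_pos hP0 (hwpos k hk1)
    have hd0 : 0 ≤ w (k + 1) - w k := by linarith
    refine ⟨hd0, by linarith, b3.trans ?_⟩
    exact mul_le_mul_of_nonneg_right heps (mul_nonneg hd0 (hwpos k hk1).le)
  have hnum := final_num h0 h1 hh ht hU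
  rw [← hP] at hnum
  -- pairs
  have hpair : ∀ l ∈ Ioc c a, ∀ i ∈ Ioc mA mB,
      Xt' A B l p * Yt A B i p - Yt' A B i p * Xt A B l p < 0 := by
    intro l hl i hi
    rw [Finset.mem_Ioc] at hl hi
    have e1 : (p * (1 - p)) * (w' l * w i - w' i * w l) ≤ (l - i) * (51 / 38 * P * U) * (w l * w i) :=
      chain_log (s := p * (1 - p)) (κ := 51 / 38 * P * U) (U := U) (c := 51 / 38) (P := P)
        (w := w) (w' := w') hU0 rfl (by omega : i ≤ l)
        (fun k hk1 hk2 => hwpos k (by omega))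
        (fun k hk1 hk2 => ⟨(hbd k (by omega) (by omega)).1, (hbd k (by omega) (by omega)).2.1⟩)
        (fun k hk1 hk2 => (hbd k (by omega) (by omega)).2.2)
    obtain ⟨b1, b2, b3⟩ := hbd l (by omega) (by omega)
    have e2 : (p * (1 - p)) * ((w' (l + 1) - w' l) * w l - w' l * (w (l + 1) - w l))
        ≤ U * ((w (l + 1) - w l) * w l) := by
      have : (w' (l + 1) - w' l) * w l - w' l * (w (l + 1) - w l)
          = w' (l + 1) * w l - w' l * w (l + 1) := by ring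
      rw [this]; exact b3
    have key := pair_neg (α := (p ^ l)⁻¹) (β := (p ^ i)⁻¹) (wl := w l) (wi := w i) (wl' := w' l)
      (wi' := w' i) (D := w (l + 1) - w l) (D' := w' (l + 1) - w' l) (κ := 51 / 38 * P * U) (U := U)
      (cP := 51 / 38 * P) (l := l) (i := i) h0 h1 (by positivity) (by positivity)
      (hwpos l (by omega)) (hwpos i (by omega)) b1 b2 hU0 rfl (by positivity) (by omega) e1 e2 hnum
    have hXt : Xt A B l p = (p ^ l)⁻¹ * (w l + (w (l + 1) - w l) / (1 - p)) := by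
      unfold Xt
      simp only [hw]
      push_cast
      ring
    have hYt : Yt A B i p = (p ^ i)⁻¹ * w i := rfl
    have hXt' : Xt' A B l p = -(l : ℝ) / p * ((p ^ l)⁻¹ * (w l + (w (l + 1) - w l) / (1 - p)))
        + (p ^ l)⁻¹ * (w' l + ((w' (l + 1) - w' l) * (1 - p) + (w (l + 1) - w l)) / (1 - p) ^ 2) := by
      unfold Xt'
      simp only [hw, hw']
      push_cast
      ring
    have hYt' : Yt' A B i p = -(i : ℝ) / p * ((p ^ i)⁻¹ * w i) + (p ^ i)⁻¹ * w' i := rfl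
    rw [hXt, hYt, hXt', hYt']
    exact key
  -- sums
  set SX := ∑ l ∈ Ioc c a, Xt A B l p with hSX
  set SY := ∑ i ∈ Ioc mA mB, Yt A B i p with hSY
  set SX' := ∑ l ∈ Ioc c a, Xt' A B l p with hSX'
  set SY' := ∑ i ∈ Ioc mA mB, Yt' A B i p with hSY'
  have hSYpos : 0 < SY := by
    refine Finset.sum_pos (fun i hi => ?_) ⟨mB, by rw [Finset.mem_Ioc]; omega⟩
    rw [Finset.mem_Ioc] at hi
    exact mul_pos (by positivity) (hwpos i (by omega))
  have hneg : SX' * SY - SY' * SX < 0 := by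
    have e : SX' * SY - SY' * SX = ∑ l ∈ Ioc c a, ∑ i ∈ Ioc mA mB,
        (Xt' A B l p * Yt A B i p - Yt' A B i p * Xt A B l p) := by
      rw [hSX', hSY, hSY', hSX, Finset.sum_mul_sum, Finset.sum_mul_sum]
      rw [Finset.sum_comm (s := Ioc mA mB), ← Finset.sum_sub_distrib]
      exact Finset.sum_congr rfl (fun l _ => by rw [← Finset.sum_sub_distrib])
    rw [e]
    refine Finset.sum_neg (fun l hl => ?_) ⟨a, by rw [Finset.mem_Ioc]; omega⟩
    exact Finset.sum_neg (fun i hi => hpair l hl i hi) ⟨mB, by rw [Finset.mem_Ioc]; omega⟩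
  have hSXY : SX = SY := by linarith
  rw [hSXY] at hneg
  have hd : 0 < SY' - SX' := by
    by_contra hcon
    push Not at hcon
    have : 0 ≤ (SX' - SY') * SY := mul_nonneg (by linarith) hSYpos.le
    linarith
  refine ⟨SY' - SX', hd, ?_⟩
  have hev : ∀ᶠ z in nhds p, 0 < z ∧ z < 1 :=
    (eventually_gt_nhds h0).and (eventually_lt_nhds h1)
  have hder : HasDerivAt (fun z => ∑ i ∈ Ioc mA mB, Yt A B i z - ∑ l ∈ Ioc c a, Xt A B l z)
      (SY' - SX') p := by
    have d1 := HasDerivAt.fun_sum (u := Ioc mA mB) (A := fun i z => Yt A B i z)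
      (A' := fun i => Yt' A B i p) (x := p) (fun i _ => hasDerivAt_Yt h0 h1 hA hB i)
    have d2 := HasDerivAt.fun_sum (u := Ioc c a) (A := fun l z => Xt A B l z)
      (A' := fun l => Xt' A B l p) (x := p) (fun l _ => hasDerivAt_Xt h0 h1 hA hB l)
    exact d1.sub d2
  exact hder.congr_of_eventuallyEq (hev.mono (fun z hz => hG z hz.1 hz.2))

end Coin.WE

namespace Coin

/-- **M6b**: one-tail window inside two words with the same content -/
theorem winEq : WinEq := fun _ _ hA hB hc _ _ hx hy hx2 hy2 hlt hcard _ h0 h1 htie =>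
  WE.winEq_aux h0 h1 hA hB hc hx hy hx2 hy2 hlt hcard htie

end Coin
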