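import Pool.Agent.Lib.Coin.WinHi

/-!
# Coin race, one-tail window, `c q ≥ p`: the pair inequality from the certificate
-/

namespace Coin

open Finset

namespace WinHi3

variable {p : ℝ} {a m c m' : ℕ} {g f : ℤ → ℝ} {d : HiDat}

/-- `PP (t+1) - PP t = B + (z - t) C` -/
noncomputable def PP (B C z t : ℝ) : ℝ := t * B + C * (t * z - t * (t - 1) / 2)

theorem zone1 (k : HiB p a m c m' g d) (h : WSys p a m c m' g f) (h0 : 0 < p) (h1 : p < 1)
    (hca : c < a) (hw : a - c < m' - m) (h2 : 2 * m' ≤ c)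
    (hL : ∀ x : ℤ, 1 ≤ x → x ≤ a + c → -d.N ≤ dd f x)
    (hV : ∀ x : ℤ, 1 ≤ x → x ≤ a + c → dd f x ≤ d.U) {t : ℕ} (ht : t ≤ c - m') :
    -dd f ((t : ℤ) + 1)
      ≤ d.B m + (((c - m' : ℕ) : ℝ) - t) * d.C ((1 - p) * p ^ c) ((c - m' : ℕ) : ℝ) := by
  have hq : 0 < 1 - p := by linarith
  have hP : 0 < (1 - p) * p ^ c := by positivity
  have h3 := (k.zoneI h h0 h1 hca hw h2 hL hV (x := (t : ℤ) + 1) (n := c - m' - t) (by omega)
    (by omega)).1
  have hqa0 := k.qa_nonneg h0 h1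
  have hU0 := k.U0
  set z : ℝ := ((c - m' : ℕ) : ℝ) with hz
  have e : ((c - m' - t : ℕ) : ℝ) = z - t := by rw [hz, Nat.cast_sub ht]
  rw [e] at h3
  have htz : (t : ℝ) ≤ z := by rw [hz]; exact_mod_cast ht
  have ht0 : (0 : ℝ) ≤ t := by positivity
  have hz0 : 0 ≤ z := by linarith
  have h4 : (z - t) ^ 2 * (d.qa * d.U) ≤ (z - t) * (z * (d.qa * d.U)) := by
    have : 0 ≤ (z - t) * (t * (d.qa * d.U)) := mul_nonneg (by linarith) (by positivity)
    nlinarith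
  have h5 := mul_le_mul_of_nonneg_left h4 hP.le
  unfold HiDat.B HiDat.C
  linarith

theorem zone2 (k : HiB p a m c m' g d) (h : WSys p a m c m' g f) (h0 : 0 < p) (h1 : p < 1)
    (hca : c < a) (hw : a - c < m' - m) (h2 : 2 * m' ≤ c)
    (hL : ∀ x : ℤ, 1 ≤ x → x ≤ a + c → -d.N ≤ dd f x)
    (hV : ∀ x : ℤ, 1 ≤ x → x ≤ a + c → dd f x ≤ d.U) {y : ℕ} (hy : y ≤ a) :
    -dd f (((c - m' : ℕ) : ℤ) + 1 + y) ≤ d.B m + (1 - p) * p ^ c * (y * d.U) := by
  have h3 := (k.zoneII h h0 h1 hca hw h2 hL hV (x := ((c - m' : ℕ) : ℤ) + 1 + y) (y := y)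
    (by omega) rfl).1
  unfold HiDat.B
  linarith

theorem diff1 (k : HiB p a m c m' g d) (h : WSys p a m c m' g f) (h0 : 0 < p) (h1 : p < 1)
    (hca : c < a) (hw : a - c < m' - m) (h2 : 2 * m' ≤ c)
    (hL : ∀ x : ℤ, 1 ≤ x → x ≤ a + c → -d.N ≤ dd f x)
    (hV : ∀ x : ℤ, 1 ≤ x → x ≤ a + c → dd f x ≤ d.U) (x n : ℕ) (hn : x + n ≤ c - m' + 1) :
    f ((x + n : ℕ) : ℤ) - f x
      ≤ PP (d.B m) (d.C ((1 - p) * p ^ c) ((c - m' : ℕ) : ℝ)) ((c - m' : ℕ) : ℝ) ((x + n : ℕ) : ℝ)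
        - PP (d.B m) (d.C ((1 - p) * p ^ c) ((c - m' : ℕ) : ℝ)) ((c - m' : ℕ) : ℝ) x := by
  induction n with
  | zero => simp
  | succ n ih =>
    have h3 := ih (by omega)
    have h4 := zone1 k h h0 h1 hca hw h2 hL hV (t := x + n) (by omega)
    have e : dd f (((x + n : ℕ) : ℤ) + 1) = f ((x + n : ℕ) : ℤ) - f ((x + (n + 1) : ℕ) : ℤ) := by
      unfold dd
      rw [show ((x + n : ℕ) : ℤ) + 1 - 1 = ((x + n : ℕ) : ℤ) by ring,
        show ((x + n : ℕ) : ℤ) + 1 = ((x + (n + 1) : ℕ) : ℤ) by push_cast; ring]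
    rw [e] at h4
    have e2 : PP (d.B m) (d.C ((1 - p) * p ^ c) ((c - m' : ℕ) : ℝ)) ((c - m' : ℕ) : ℝ)
          ((x + (n + 1) : ℕ) : ℝ)
        = PP (d.B m) (d.C ((1 - p) * p ^ c) ((c - m' : ℕ) : ℝ)) ((c - m' : ℕ) : ℝ)
          ((x + n : ℕ) : ℝ)
          + (d.B m + (((c - m' : ℕ) : ℝ) - ((x + n : ℕ) : ℝ)) *
            d.C ((1 - p) * p ^ c) ((c - m' : ℕ) : ℝ)) := by
      unfold PP
      push_cast
      ring
    rw [e2]
    linarith

theorem diff2 (k : HiB p a m c m' g d) (h : WSys p a m c m' g f) (h0 : 0 < p) (h1 : p < 1)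
    (hca : c < a) (hw : a - c < m' - m) (h2 : 2 * m' ≤ c)
    (hL : ∀ x : ℤ, 1 ≤ x → x ≤ a + c → -d.N ≤ dd f x)
    (hV : ∀ x : ℤ, 1 ≤ x → x ≤ a + c → dd f x ≤ d.U) (y : ℕ) (hy : y ≤ a) :
    f (((c - m' + 1 : ℕ) : ℤ) + y) - f ((c - m' + 1 : ℕ) : ℤ)
      ≤ y * d.B m + (1 - p) * p ^ c * d.U * ((y : ℝ) * (y + 1) / 2) := by
  induction y with
  | zero => simp
  | succ y ih =>
    have h3 := ih (by omega)
    have h4 := zone2 k h h0 h1 hca hw h2 hL hV (y := y + 1) hy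
    have e : dd f (((c - m' : ℕ) : ℤ) + 1 + ((y + 1 : ℕ) : ℤ))
        = f (((c - m' + 1 : ℕ) : ℤ) + y) - f (((c - m' + 1 : ℕ) : ℤ) + ((y + 1 : ℕ) : ℤ)) := by
      unfold dd
      rw [show ((c - m' : ℕ) : ℤ) + 1 + ((y + 1 : ℕ) : ℤ) - 1 = ((c - m' + 1 : ℕ) : ℤ) + y by
          push_cast; ring,
        show ((c - m' : ℕ) : ℤ) + 1 + ((y + 1 : ℕ) : ℤ)
          = ((c - m' + 1 : ℕ) : ℤ) + ((y + 1 : ℕ) : ℤ) by push_cast; ring]
    rw [e] at h4
    push_cast at h3 h4 ⊢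
    linarith

/-- the final real inequality -/
theorem final {gx gX eta fx fX z m1 cc Sx S G G0 etab rem rb : ℝ}
    (hcc : cc = z + m1) (hm1 : 1 ≤ m1)
    (hG : G ≤ gx) (hG0 : 0 < G0) (hG0X : G0 ≤ gX) (hXx : gX ≤ gx) (heta0 : 0 ≤ eta)
    (heta : eta ≤ etab) (hS : 0 ≤ S) (hSG : S ≤ (z + 1) * G0) (hfx : fx ≤ Sx)
    (hfX : fX - fx ≤ S - Sx) (hrem : -rb ≤ rem)
    (hF : 0 < G * ((z + 1) - S / G0) - etab * (m1 - 1 + S / G0) + Sx - rb) :
    0 < (gx + eta) * (z + 1 - fX / gX) - cc * eta + fx + rem := by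
  have hgX : 0 < gX := lt_of_lt_of_le hG0 hG0X
  have hgx : 0 < gx := lt_of_lt_of_le hgX hXx
  -- `f_x - ρ f_X ≥ Sx - ρ S`
  have hρ : 1 ≤ (gx + eta) / gX := by
    rw [one_le_div hgX]
    linarith
  set ρ := (gx + eta) / gX with hρdef
  have e1 : (gx + eta) * (fX / gX) = ρ * fX := by rw [hρdef]; ring
  have e2 : Sx - ρ * S ≤ fx - ρ * fX := by
    have a1 : ρ * (fX - fx) ≤ ρ * (S - Sx) := mul_le_mul_of_nonneg_left hfX (by linarith)
    have a2 : (ρ - 1) * fx ≤ (ρ - 1) * Sx := mul_le_mul_of_nonneg_left hfx (by linarith)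
    linarith
  have e3 : ρ * S = (gx + eta) * (S / gX) := by rw [hρdef]; ring
  have e4 : S / gX ≤ S / G0 := div_le_div_of_nonneg_left hS hG0 hG0X
  have e5 : S / G0 ≤ z + 1 := by
    rw [div_le_iff₀ hG0]; exact hSG
  have e6 : G * ((z + 1) - S / G0) ≤ gx * ((z + 1) - S / gX) := by
    calc G * ((z + 1) - S / G0) ≤ gx * ((z + 1) - S / G0) :=
          mul_le_mul_of_nonneg_right hG (by linarith)
      _ ≤ gx * ((z + 1) - S / gX) := mul_le_mul_of_nonneg_left (by linarith) hgx.le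
  have e7 : eta * (m1 - 1 + S / gX) ≤ etab * (m1 - 1 + S / G0) := by
    have a1 : 0 ≤ S / G0 := div_nonneg hS hG0.le
    calc eta * (m1 - 1 + S / gX) ≤ eta * (m1 - 1 + S / G0) :=
          mul_le_mul_of_nonneg_left (by linarith) heta0
      _ ≤ etab * (m1 - 1 + S / G0) := mul_le_mul_of_nonneg_right heta (by linarith)
  have e8 : (gx + eta) * (z + 1 - fX / gX) - cc * eta + fx + rem
      = gx * (z + 1) - eta * (m1 - 1) + (fx - ρ * fX) + rem := by
    rw [hcc, mul_sub, e1]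
    ring
  rw [e8]
  have e9 : gx * (z + 1) - eta * (m1 - 1) - ρ * S
      = gx * ((z + 1) - S / gX) - eta * (m1 - 1 + S / gX) := by
    rw [e3]; ring
  linarith

end WinHi3

namespace WSys

variable {p : ℝ} {a m c m' : ℕ} {g f : ℤ → ℝ} {d : HiDat}

open WinHi3 in
/-- the chain lemma for `c q ≥ p` -/
theorem winP_hi (h : WSys p a m c m' g f) (h0 : 0 < p) (h1 : p < 1) (hca : c < a)
    (hw : a - c < m' - m) (h2 : 2 * m' ≤ c) (hk : p ≤ c * (1 - p)) {l k : ℕ} (hcl : c < l)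
    (hl : l ≤ a) (hmk : m < k) (hkm : k ≤ m') (ok : HiOKx p a m c m' (a + 1 - l) d) :
    WinP p a g f l k := by
  obtain ⟨x, hx⟩ : ∃ x : ℕ, x = a + 1 - l := ⟨_, rfl⟩
  rw [← hx] at ok
  have kb := ok.hib h h0 h1 hca hw h2 hk
  have hb := ok.bounds h h0 h1 hca hw h2 hk
  have hL := fun y h1 h2 => (hb y h1 h2).1
  have hV := fun y h1 h2 => (hb y h1 h2).2
  have hq : 0 < 1 - p := by linarith
  have hP : 0 < (1 - p) * p ^ c := by positivity
  have hs0 := kb.s0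
  have ht0 := kb.t0
  have hA0 := kb.A_nonneg
  have hK0 := kb.K_nonneg h0 h1 (by omega)
  have hK20 := kb.K2_nonneg h0 h1 (by omega)
  have hQp0 := kb.Qp_nonneg
  have hQn0 := kb.Qn_nonneg
  have hqa0 := kb.qa_nonneg h0 h1
  have hb0 := kb.b_nonneg h0 h1
  have hw10 := kb.w1_nonneg h0 h1
  have hw00 := kb.w0_nonneg h0 h1
  have hN0 := kb.N0
  have hU0 := kb.U0
  have hmc : m' ≤ c := by omega
  have hB0 : 0 ≤ d.B m := by unfold HiDat.B; positivity
  have hC0 : 0 ≤ d.C ((1 - p) * p ^ c) ((c - m' : ℕ) : ℝ) := by unfold HiDat.C; positivity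
  -- positions
  obtain ⟨j, hj⟩ : ∃ j : ℕ, l = k + (c - m') + 1 + j := ⟨l - (k + (c - m') + 1), by omega⟩
  have ex : (a : ℤ) + 1 - l = (x : ℤ) := by omega
  have hxz : x + 1 ≤ c - m' := by omega
  have eX0 : ((c - m' + 1 : ℕ) : ℤ) + (x : ℤ) = ((x + (c - m') + 1 : ℕ) : ℤ) := by
    push_cast; ring
  have eX : (a : ℤ) + 1 - k = ((x + (c - m') + 1 + j : ℕ) : ℤ) := by omega
  have hXa : x + (c - m') + 1 + j ≤ a := by omega
  -- the sums
  have d0 := diff1 kb h h0 h1 hca hw h2 hL hV 0 x (by omega)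
  have d1 := diff1 kb h h0 h1 hca hw h2 hL hV x (c - m' + 1 - x) (by omega)
  have d2 := diff2 kb h h0 h1 hca hw h2 hL hV x (by omega)
  rw [show x + (c - m' + 1 - x) = c - m' + 1 by omega] at d1
  rw [eX0] at d2
  have e00 : ((0 : ℕ) : ℤ) = 0 := rfl
  rw [zero_add, e00, h.f_zero, sub_zero] at d0
  set A0 := (1 - p) * p ^ c with hA0def
  set z : ℝ := ((c - m' : ℕ) : ℝ) with hzdef
  have hz0 : 0 ≤ z := by positivity
  have hxr : (x : ℝ) + 1 ≤ z := by rw [hzdef]; exact_mod_cast hxz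
  have hx0 : (1 : ℝ) ≤ x := by exact_mod_cast (by omega : 1 ≤ x)
  have hSx : f (x : ℤ) ≤ d.Sx m A0 z x := by
    refine d0.trans (le_of_eq ?_)
    unfold PP HiDat.Sx
    push_cast
    ring
  have hSX : f ((x + (c - m') + 1 : ℕ) : ℤ) - f (x : ℤ) ≤ d.S m A0 z x - d.Sx m A0 z x := by
    have e1 : ((c - m' + 1 : ℕ) : ℝ) = z + 1 := by push_cast; rfl
    rw [e1] at d1
    unfold HiDat.S
    unfold PP at d1
    linarith
  have hS0 : 0 ≤ d.S m A0 z x := by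
    unfold HiDat.S HiDat.Sx
    have a1 : 0 ≤ (x : ℝ) * (z + 1) - x * (x + 1) / 2 := by nlinarith
    have a2 : 0 ≤ (z - x) * (z + 1 - x) / 2 := by
      have : 0 ≤ (z - x) * (z + 1 - x) := mul_nonneg (by linarith) (by linarith)
      linarith
    positivity
  -- the values of `g`
  have hgx1 := h.g_ge (n := x) kb.hs (by omega)
  have hgX1 := h.g_ge (n := x + (c - m') + 1) kb.hs (by omega)
  have eXr : ((x + (c - m') + 1 : ℕ) : ℝ) = (x : ℝ) + z + 1 := by push_cast; rfl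
  rw [eXr] at hgX1
  have hG0 : 0 < 1 - ((x : ℝ) + z + 1) * d.s := by have := ok.hG0; linarith
  have hXx : g ((x + (c - m') + 1 : ℕ) : ℤ) ≤ g (x : ℤ) := h.g_anti (by omega) (by omega)
  -- reduction
  set X0 : ℤ := ((x + (c - m') + 1 : ℕ) : ℤ) with hX0
  have hgX0pos : 0 < g X0 := lt_of_lt_of_le hG0 hgX1
  have hSG0 : 0 ≤ d.S m A0 z x / (1 - ((x : ℝ) + z + 1) * d.s) := div_nonneg hS0 hG0.le
  set s2 := A0 + d.K * d.t with hs2
  have hs20 : 0 ≤ s2 := by positivity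
  have hdd2 : ∀ t : ℤ, ((c - m' : ℕ) : ℤ) + 1 < t → dd g t ≤ s2 := by
    intro t ht
    have h3 := h.dd_le_of h0 h1 hmc (δ := d.t) ht0 kb.ht (x := t) (by omega)
    have h4 := h.g_le_one (x := t - 1 - (c - m' : ℕ)) (by omega)
    have h5 := mul_le_mul_of_nonneg_left h4 hP.le
    have h6 := mul_le_mul_of_nonneg_right kb.hK ht0
    linarith
  have hee2 : ∀ t : ℤ, ((c - m' : ℕ) : ℤ) + 1 < t → t ≤ a →
      -dd f t ≤ d.B m + A0 * (((a : ℝ) - z - 1) * d.U) := by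
    intro t ht hta
    obtain ⟨y, hy⟩ : ∃ y : ℕ, t = ((c - m' : ℕ) : ℤ) + 1 + y :=
      ⟨(t - ((c - m' : ℕ) + 1)).toNat, by omega⟩
    have h3 := zone2 kb h h0 h1 hca hw h2 hL hV (y := y) (by omega)
    rw [hy]
    have hyr : (y : ℝ) ≤ (a : ℝ) - z - 1 := by
      have h4 : ((c - m' : ℕ) : ℝ) + 1 + y ≤ (a : ℝ) := by
        have : ((c - m' : ℕ) : ℤ) + 1 + y ≤ (a : ℤ) := by omega
        exact_mod_cast this
      rw [← hzdef] at h4
      linarith
    have h5 := mul_le_mul_of_nonneg_left (mul_le_mul_of_nonneg_right hyr hU0) hP.le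
    linarith
  set Nf := d.B m + A0 * (((a : ℝ) - z - 1) * d.U) with hNf
  have hGa : ∀ n : ℕ, x + (c - m') + 1 + n ≤ a →
      1 - (z + 1) * d.s - ((a : ℝ) - z - 1) * s2 ≤ g (X0 + n) := by
    intro n hn
    have b1 := h.g_ge (n := c - m' + 1) kb.hs (by omega)
    have b2 := sub_le_mul (g := g) (s := s2) (u := ((c - m' + 1 : ℕ) : ℤ)) (n := x + n)
      (fun t ht1 ht2 => hdd2 t (by push_cast at ht1; omega))
    rw [show ((c - m' + 1 : ℕ) : ℤ) + ((x + n : ℕ) : ℤ) = X0 + n by rw [hX0]; push_cast; ring]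
      at b2
    have e1 : ((c - m' + 1 : ℕ) : ℝ) = z + 1 := by push_cast; rfl
    rw [e1] at b1
    have b3 : ((x + n : ℕ) : ℝ) ≤ (a : ℝ) - z - 1 := by
      have : ((x + n : ℕ) : ℝ) + z + 1 ≤ (a : ℝ) := by
        rw [hzdef]
        exact_mod_cast (by omega : x + n + (c - m') + 1 ≤ a)
      linarith
    have b4 := mul_le_mul_of_nonneg_right b3 hs20
    linarith
  have hred := ok.hRed
  have hF0 : f X0 / g X0 ≤ d.S m A0 z x / (1 - ((x : ℝ) + z + 1) * d.s) := by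
    have a1 : f X0 ≤ d.S m A0 z x := by linarith
    calc f X0 / g X0 ≤ d.S m A0 z x / g X0 := div_le_div_of_nonneg_right a1 hgX0pos.le
      _ ≤ _ := div_le_div_of_nonneg_left hS0 hG0 hgX1
  have hquot : f (X0 + j) / g (X0 + j) ≤ f X0 / g X0 + j := by
    have hgXj : 0 < g (X0 + j) := h.g_pos _ (by omega)
    rw [div_le_iff₀ hgXj]
    have b1 := sub_ge_mul (g := f) (s := -Nf) (u := X0) (n := j)
      (fun t ht1 ht2 => by
        have := hee2 t (by omega) (by omega)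
        linarith)
    have b2 := sub_le_mul (g := g) (s := s2) (u := X0) (n := j)
      (fun t ht1 ht2 => hdd2 t (by omega))
    have b3 := hGa j (by omega)
    have b4 : g (X0 + j) ≤ g X0 := h.g_anti (by omega) (by omega)
    have hj0 : (0 : ℝ) ≤ j := by positivity
    have b5 : f X0 = f X0 / g X0 * g X0 := by field_simp
    set F0 := f X0 / g X0 with hF0def
    rcases le_or_gt 0 F0 with hF | hF
    · have c1 : F0 * (g X0 - g (X0 + j)) ≤ F0 * (j * s2) := mul_le_mul_of_nonneg_left b2 hF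
      have c2 : s2 * F0 ≤ s2 * (d.S m A0 z x / (1 - ((x : ℝ) + z + 1) * d.s)) :=
        mul_le_mul_of_nonneg_left hF0 hs20
      have c3 : (j : ℝ) * (Nf + s2 * F0) ≤ j * g (X0 + j) :=
        mul_le_mul_of_nonneg_left (by linarith) hj0
      linarith
    · have c1 : F0 * g X0 ≤ F0 * g (X0 + j) := mul_le_mul_of_nonpos_left b4 hF.le
      have c2 : 0 ≤ s2 * (d.S m A0 z x / (1 - ((x : ℝ) + z + 1) * d.s)) := by positivity
      have c3 : (j : ℝ) * Nf ≤ j * g (X0 + j) :=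
        mul_le_mul_of_nonneg_left (by linarith) hj0
      linarith
  -- the remainder
  obtain ⟨n, hn⟩ : ∃ n : ℕ, x + n = c - m' + 1 := ⟨c - m' + 1 - x, by omega⟩
  have hnr : (n : ℝ) = z + 1 - x := by
    have : (x : ℝ) + n = z + 1 := by rw [hzdef]; exact_mod_cast hn
    linarith
  have hy : (x : ℤ) - 1 - (c - m' : ℕ) = -(n : ℤ) := by omega
  have hrem : -(p ^ c * (z + 1 - x) * (d.N + d.b + (z + 1 - x) * (d.qa * d.U)) + d.R * d.s
      + (d.K * (d.U + d.w0 m) + d.w1 * ((2 * (z + 1 - x) + 1) * d.K + d.K2)) / (1 - p))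
      ≤ rem p c m' g f x := by
    unfold rem
    rw [hy]
    have r1 := (kb.fneg h h0 h1 hca hw h2 hL hV (n := n) (by omega)).1
    have r2 := kb.epsU h h0 h1 hca hw h2 hL hV (y := -(n : ℤ)) (n := n) (by omega) le_rfl
      (by omega)
    have r3 : ∑ i ∈ range m', ((m' : ℝ) - i) * p ^ (c - m' + i) * dd g (-(n : ℤ) - i)
        ≤ d.R * d.s := by
      refine le_trans ?_ (mul_le_mul_of_nonneg_right ok.hR hs0)
      unfold R1
      rw [sum_mul]
      refine sum_le_sum (fun i hi => ?_)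
      rw [mem_range] at hi
      have : (i : ℝ) ≤ m' := by exact_mod_cast hi.le
      have : 0 ≤ (m' : ℝ) - i := by linarith
      exact mul_le_mul_of_nonneg_left (h.dd_le h0 h1 kb.hs (by omega) (by omega))
        (by positivity)
    have r4 : ∑ i ∈ range m', (p ^ (c - m' + i) - p ^ c) * dd f (-(n : ℤ) - i)
        = (∑ i ∈ range m', ((1 - p) * p ^ (c - m' + i) - (1 - p) * p ^ c)
          * dd f (-(n : ℤ) - i)) / (1 - p) := by
      rw [sum_div]
      refine sum_congr rfl (fun i _ => ?_)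
      field_simp
    rw [r4]
    have r5 := div_le_div_of_nonneg_right r2 hq.le
    have r6 := mul_le_mul_of_nonneg_left r1 (pow_pos h0 c).le
    rw [hnr] at r5 r6
    have e1 : p ^ c * ((z + 1 - x) * d.N + (z + 1 - x) * d.b + (z + 1 - x) ^ 2 * (d.qa * d.U))
        = p ^ c * (z + 1 - x) * (d.N + d.b + (z + 1 - x) * (d.qa * d.U)) := by ring
    linarith
  -- `H`
  have hdx : dd g x ≤ A0 * (1 + (z + 1 - x) * d.s) + d.K * d.t := by
    have h3 := h.dd_le_of h0 h1 hmc (δ := d.t) ht0 kb.ht (x := (x : ℤ)) (by omega)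
    have h4 := h.g_le h0 h1 kb.hs (m' := m') (x := (x : ℤ)) (by omega) (by omega)
    have h5 := mul_le_mul_of_nonneg_left h4 hP.le
    have h6 := mul_le_mul_of_nonneg_right kb.hK ht0
    have e1 : ((x : ℤ) : ℝ) = (x : ℝ) := by norm_cast
    rw [e1, ← hzdef] at h5
    linarith
  have hgxpos : 0 < g (x : ℤ) := h.g_pos _ (by omega)
  have hdx0 : 0 ≤ dd g (x : ℤ) := h.mono _ (by omega)
  have hm1 : (1 : ℝ) ≤ m' := by exact_mod_cast (by omega : 1 ≤ m')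
  have hcz : (c : ℝ) = z + m' := by
    rw [hzdef]
    have : c = (c - m') + m' := by omega
    exact_mod_cast this
  have hfin := ok.hF
  unfold HiDat.Fin at hfin
  rw [← hA0def] at hfin
  have hmain := WinHi3.final (gx := g (x : ℤ)) (gX := g X0) (eta := dd g (x : ℤ) / (1 - p))
    (fx := f (x : ℤ)) (fX := f X0) (z := z) (m1 := (m' : ℝ)) (cc := (c : ℝ))
    (Sx := d.Sx m A0 z x) (S := d.S m A0 z x) (G := 1 - x * d.s)
    (G0 := 1 - ((x : ℝ) + z + 1) * d.s)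
    (etab := p ^ c * (1 + (z + 1 - x) * d.s) + d.K * d.t / (1 - p))
    (rem := rem p c m' g f x)
    (rb := p ^ c * (z + 1 - x) * (d.N + d.b + (z + 1 - x) * (d.qa * d.U)) + d.R * d.s
      + (d.K * (d.U + d.w0 m) + d.w1 * ((2 * (z + 1 - x) + 1) * d.K + d.K2)) / (1 - p))
    hcz hm1 hgx1 hG0 hgX1 hXx (div_nonneg hdx0 hq.le)
    (by
      rw [div_le_iff₀ hq]
      refine hdx.trans (le_of_eq ?_)
      rw [hA0def]
      field_simp)
    hS0 ok.hG hSx hSX hrem (by linarith)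
  refine h.winP_of_quot h1 hmc hl (by omega) ?_
  rw [ex, eX]
  have eXj : ((x + (c - m') + 1 + j : ℕ) : ℤ) = X0 + j := by rw [hX0]; push_cast; ring
  rw [eXj]
  have hlk : ((l : ℝ) - k) = z + 1 + j := by rw [hj]; push_cast; ring
  rw [hlk]
  have hH : hz p g (x : ℤ) = dd g (x : ℤ) / (1 - p) / g (x : ℤ) := by
    unfold hz
    rw [div_div]
  have hH0 : 0 ≤ hz p g (x : ℤ) := h.hz_nonneg h1 (by omega)
  have e1 := mul_le_mul_of_nonneg_left hquot (by linarith : 0 ≤ 1 + hz p g (x : ℤ))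
  have e2 : 0 < ((g (x : ℤ) + dd g (x : ℤ) / (1 - p)) * (z + 1 - f X0 / g X0)
      - c * (dd g (x : ℤ) / (1 - p)) + f (x : ℤ) + rem p c m' g f x) / g (x : ℤ) :=
    div_pos hmain hgxpos
  have e3 : ((g (x : ℤ) + dd g (x : ℤ) / (1 - p)) * (z + 1 - f X0 / g X0)
      - c * (dd g (x : ℤ) / (1 - p)) + f (x : ℤ) + rem p c m' g f x) / g (x : ℤ)
      = (1 + hz p g (x : ℤ)) * (z + 1 - f X0 / g X0) - c * hz p g (x : ℤ)
        + f (x : ℤ) / g (x : ℤ) + rem p c m' g f x / g (x : ℤ) := by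
    rw [hH]
    field_simp
  rw [e3] at e2
  linarith

end WSys

end Coin
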