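import Pool.Agent.Lib.Coin.WinLo3

/-!
# Coin race, one-tail window, `c q ≤ p`: the main inequality; `LoNum` implies `WinP`;
the tie forces `2 (a - c) < m' - m`
-/

namespace Coin

open Finset

namespace Dat

variable {p : ℝ} {a m c m' : ℕ} {g f : ℤ → ℝ} {s th M P P1 Mn Pn : ℝ}

/-- bound of `f_X - f_x` -/
theorem inc_le (D : Dat p a m c m' g f s th M P P1 Mn Pn) {x : ℕ} (hx1 : 1 ≤ x)
    (hx2 : x ≤ a - c) :
    f ((x : ℤ) + (c - m' : ℕ) + 1) - f x ≤ IncL p a m c m' s M P P1 Mn := by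
  have hw := D.hw
  have hca := D.hca
  have h2 := D.h2
  have h0 := D.h0
  have h1 := D.h1
  have hq : 0 < 1 - p := by linarith
  have hA : 0 < (1 - p) * p ^ c := by positivity
  have hpc := psi_nonneg h0 D.hl
  have hs0 := D.s0
  have hM := D.M0
  have hdel : ((a - c : ℕ) : ℝ) = (a : ℝ) - c := by rw [Nat.cast_sub hca.le]
  have hxd : (x : ℝ) ≤ (a : ℝ) - c := by rw [← hdel]; exact_mod_cast hx2
  have hx0 : (0 : ℝ) ≤ x := by positivity
  obtain ⟨n, hn⟩ : ∃ n, c - m' + 1 = x + n := ⟨c - m' + 1 - x, by omega⟩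
  have k1 := D.inc_near (n := n) (by omega)
  have k2 := D.inc_far (x := x) (by omega)
  have e1 : ((c - m' : ℕ) : ℤ) + 1 - n = x := by omega
  have e2 : ((c - m' : ℕ) : ℤ) + 1 + x = (x : ℤ) + (c - m' : ℕ) + 1 := by ring
  rw [e1] at k1
  rw [e2] at k2
  have e3 : ((c - m' : ℕ) : ℝ) + 1 = x + n := by exact_mod_cast hn
  have hnz : (n : ℝ) ≤ ((c - m' : ℕ) : ℝ) := by exact_mod_cast (by omega : n ≤ c - m')
  have hn0 : (0 : ℝ) ≤ n := by positivity
  have hP1b : 0 ≤ P1 + bet p a m c s M P := add_nonneg D.P10 D.bet_nonneg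
  have j1 : (P1 + bet p a m c s M P) * (n : ℝ) ^ 2 / 2
      ≤ (P1 + bet p a m c s M P) * ((c - m' : ℕ) : ℝ) ^ 2 / 2 := by
    have := mul_le_mul_of_nonneg_left (pow_le_pow_left₀ hn0 hnz 2) hP1b
    linarith
  have j2 : alp p c s M * (n : ℝ) ^ 3 / 3 ≤ alp p c s M * ((c - m' : ℕ) : ℝ) ^ 3 / 3 := by
    have := mul_le_mul_of_nonneg_left (pow_le_pow_left₀ hn0 hnz 3) D.alp_nonneg
    linarith
  have j3 := mul_le_mul_of_nonneg_left (add_le_add j1 j2) hA.le
  have j4 : (x : ℝ) * (x + 1) / 2 ≤ ((a : ℝ) - c) * ((a : ℝ) - c + 1) / 2 := by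
    have : (x : ℝ) * (x + 1) ≤ ((a : ℝ) - c) * ((a : ℝ) - c + 1) :=
      mul_le_mul hxd (by linarith) (by linarith) (by linarith)
    linarith
  have j5 := mul_le_mul_of_nonneg_left j4 (by positivity : 0 ≤ psi p c * s + (1 - p) * p ^ c * M)
  unfold IncL
  rw [e3]
  nlinarith

/-- bound of `rem` -/
theorem rem_ge (D : Dat p a m c m' g f s th M P P1 Mn Pn) {x : ℕ} (hx1 : 1 ≤ x)
    (hx2 : x ≤ a - c) : -RemL p a m c m' s M P P1 Mn ≤ rem p c m' g f x := by
  have hw := D.hw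
  have hca := D.hca
  have h2 := D.h2
  have h0 := D.h0
  have h1 := D.h1
  have hq : 0 < 1 - p := by linarith
  have hE : 0 < p ^ c := by positivity
  have hs0 := D.s0
  have hdel : ((a - c : ℕ) : ℝ) = (a : ℝ) - c := by rw [Nat.cast_sub hca.le]
  have hxd : (x : ℝ) ≤ (a : ℝ) - c := by rw [← hdel]; exact_mod_cast hx2
  obtain ⟨n, hn⟩ : ∃ n, c - m' + 1 = x + n := ⟨c - m' + 1 - x, by omega⟩
  have e3 : ((c - m' : ℕ) : ℝ) + 1 = x + n := by exact_mod_cast hn
  have hnz : (n : ℝ) ≤ ((c - m' : ℕ) : ℝ) := by exact_mod_cast (by omega : n ≤ c - m')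
  have hn0 : (0 : ℝ) ≤ n := by positivity
  unfold rem
  have e1 : (x : ℤ) - 1 - (c - m' : ℕ) = -(n : ℤ) := by omega
  rw [e1]
  -- the three parts
  have k1 : -(max (((c - m' : ℕ) : ℝ) * PhiL p a m c m' s M P P1 Mn)
      ((((c - m' : ℕ) : ℝ) + 1 - ((a : ℝ) - c)) * PhiL p a m c m' s M P P1 Mn)
      + ((c - m' : ℕ) : ℝ) ^ 2 * alp p c s M + ((c - m' : ℕ) : ℝ) * bet p a m c s M P)
      ≤ f (-(n : ℤ)) := by
    have a1 := D.f_neg_ge (n := n) (by omega)
    have a2 := D.f_le_Phi (n := n) (by omega)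
    have a3 : (n : ℝ) * PhiL p a m c m' s M P P1 Mn
        ≤ max (((c - m' : ℕ) : ℝ) * PhiL p a m c m' s M P P1 Mn)
      ((((c - m' : ℕ) : ℝ) + 1 - ((a : ℝ) - c)) * PhiL p a m c m' s M P P1 Mn) := by
      rcases le_or_gt 0 (PhiL p a m c m' s M P P1 Mn) with hP | hP
      · exact (mul_le_mul_of_nonneg_right hnz hP).trans (le_max_left _ _)
      · refine le_trans ?_ (le_max_right _ _)
        exact mul_le_mul_of_nonpos_right (by linarith) hP.le
    have a4 := mul_le_mul_of_nonneg_right (pow_le_pow_left₀ hn0 hnz 2) D.alp_nonneg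
    have a5 := mul_le_mul_of_nonneg_right hnz D.bet_nonneg
    linarith
  have k2 : ∑ i ∈ range m', ((m' : ℝ) - i) * p ^ (c - m' + i) * dd g (-(n : ℤ) - i)
      ≤ R1 p c m' * s := by
    unfold R1
    rw [sum_mul]
    refine sum_le_sum (fun i hi => ?_)
    rw [mem_range] at hi
    have : (i : ℝ) ≤ m' := by exact_mod_cast hi.le
    have hc : 0 ≤ ((m' : ℝ) - i) * p ^ (c - m' + i) := mul_nonneg (by linarith) (by positivity)
    exact mul_le_mul_of_nonneg_left (D.ddg_le (by omega) (by omega)) hc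
  have k3 : ∑ i ∈ range m', (p ^ (c - m' + i) - p ^ c) * dd f (-(n : ℤ) - i)
      ≤ Kc p c m' / (1 - p) * Mn := by
    rw [← sum_eps (by omega : m' ≤ c), sum_div, sum_mul]
    refine sum_le_sum (fun i hi => ?_)
    rw [mem_range] at hi
    have e : ((1 - p) * p ^ (c - m' + i) - (1 - p) * p ^ c) / (1 - p)
        = p ^ (c - m' + i) - p ^ c := by field_simp
    rw [e]
    have hc : 0 ≤ p ^ (c - m' + i) - p ^ c := by
      have : p ^ c ≤ p ^ (c - m' + i) := pow_le_pow_of_le_one h0.le h1.le (by omega)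
      linarith
    exact mul_le_mul_of_nonneg_left (D.hMn _ (by omega) (by omega)) hc
  have k4 := mul_le_mul_of_nonneg_left k1 hE.le
  unfold RemL
  linarith

/-- the main inequality for `x`, from `0 < FinL` -/
theorem main_pos (D : Dat p a m c m' g f s th M P P1 Mn Pn) (hG : 0 < 1 - ((a : ℝ) - m) * s)
    (hF : 0 < FinL p a m c m' s th M P P1 Mn) {x : ℕ} (hx1 : 1 ≤ x) (hx2 : x ≤ a - c) :
    0 < (1 + hz p g x) * (((c - m' : ℕ) : ℝ) + 1) - c * hz p g x
      + f x / g x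
      - (1 + hz p g x) *
        (f ((x : ℤ) + (c - m' : ℕ) + 1) / g ((x : ℤ) + (c - m' : ℕ) + 1))
      + rem p c m' g f x / g x := by
  have hw := D.hw
  have hca := D.hca
  have h2 := D.h2
  have h0 := D.h0
  have h1 := D.h1
  have hq : 0 < 1 - p := by linarith
  have hs0 := D.s0
  have hP10 := D.P10
  have hdel : ((a - c : ℕ) : ℝ) = (a : ℝ) - c := by rw [Nat.cast_sub hca.le]
  have hxd : (x : ℝ) ≤ (a : ℝ) - c := by rw [← hdel]; exact_mod_cast hx2
  have hd0 : (0 : ℝ) ≤ (a : ℝ) - c := by rw [← hdel]; positivity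
  have hx0 : (0 : ℝ) ≤ x := by positivity
  have hcz : (c : ℝ) = ((c - m' : ℕ) : ℝ) + m' := by
    rw [Nat.cast_sub (by omega)]; ring
  have hm1 : (1 : ℝ) ≤ m' := by exact_mod_cast (by omega : 1 ≤ m')
  -- `G2`, `G1`
  have hG2 : 0 < 1 - ((a : ℝ) - c + ((c - m' : ℕ) : ℝ) + 1) * s := by
    have : ((a : ℝ) - c + ((c - m' : ℕ) : ℝ) + 1) ≤ (a : ℝ) - m := by
      have : (m : ℝ) + 1 ≤ m' := by exact_mod_cast (by omega : m + 1 ≤ m')
      linarith
    have := mul_le_mul_of_nonneg_right this hs0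
    linarith
  have hG1 : 0 < 1 - ((a : ℝ) - c) * s := by
    have : 0 ≤ (((c - m' : ℕ) : ℝ) + 1) * s := by positivity
    nlinarith
  have hH := D.hz_le hx1 hx2 hG1
  have hH0 : 0 ≤ hz p g (x : ℤ) := D.sys.hz_nonneg h1 (by omega)
  have hinc := D.inc_le hx1 hx2
  have hrem := D.rem_ge hx1 hx2
  have hfx : f (x : ℤ) ≤ ((a : ℝ) - c) * P1 := by
    have := D.f_le (n := x) (by omega)
    have := mul_le_mul_of_nonneg_right hxd hP10
    linarith
  have hgx1 : g (x : ℤ) ≤ 1 := D.sys.g_le_one (by omega)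
  have hgx2 : 1 - ((a : ℝ) - c) * s ≤ g (x : ℤ) := by
    have := D.sys.g_ge D.hs (n := x) (by omega)
    have := mul_le_mul_of_nonneg_right hxd hs0
    linarith
  have hgX2 : 1 - ((a : ℝ) - c + ((c - m' : ℕ) : ℝ) + 1) * s
      ≤ g ((x : ℤ) + (c - m' : ℕ) + 1) := by
    have k := D.sys.g_ge D.hs (n := x + (c - m') + 1) (by omega)
    push_cast at k
    have : ((x : ℝ) + ((c - m' : ℕ) : ℝ) + 1) * s
        ≤ ((a : ℝ) - c + ((c - m' : ℕ) : ℝ) + 1) * s :=
      mul_le_mul_of_nonneg_right (by linarith) hs0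
    linarith
  have hgXx : g ((x : ℤ) + (c - m' : ℕ) + 1) ≤ g (x : ℤ) := D.sys.g_anti (by omega) (by omega)
  unfold FinL at hF
  set Hb := HbL p a c m' s th
  set INC := IncL p a m c m' s M P P1 Mn
  set RR := RemL p a m c m' s M P P1 Mn
  set G2 := 1 - ((a : ℝ) - c + ((c - m' : ℕ) : ℝ) + 1) * s
  set G1 := 1 - ((a : ℝ) - c) * s
  set H := hz p g (x : ℤ)
  set gx := g (x : ℤ)
  set gX := g ((x : ℤ) + (c - m' : ℕ) + 1)
  set fx := f (x : ℤ)
  set fX := f ((x : ℤ) + (c - m' : ℕ) + 1)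
  set δ := (a : ℝ) - c
  have hgx0 : 0 < gx := lt_of_lt_of_le hG1 hgx2
  have hgX0 : 0 < gX := lt_of_lt_of_le hG2 hgX2
  -- the quotient `r`
  set r := (1 + H) / gX with hr
  have hr1 : 1 ≤ r := by
    rw [hr, le_div_iff₀ hgX0]; linarith
  have hrb : r ≤ (1 + Hb) / G2 := by
    rw [hr]
    exact div_le_div₀ (by linarith) (by linarith) hG2 hgX2
  have hrx : 1 / gx ≤ r := by
    rw [hr, div_le_div_iff₀ hgx0 hgX0]
    nlinarith
  have e1 : (1 + H) * (fX / gX) = r * fX := by rw [hr]; field_simp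
  have e2 : fx / gx = (1 / gx) * fx := by ring
  have w1 : r * (fX - fx) ≤ max INC ((1 + Hb) * INC / G2) := by
    rcases le_or_gt 0 INC with hI | hI
    · refine le_trans ?_ (le_max_right _ _)
      have : (1 + Hb) * INC / G2 = (1 + Hb) / G2 * INC := by ring
      rw [this]
      calc r * (fX - fx) ≤ r * INC := mul_le_mul_of_nonneg_left hinc (by linarith)
        _ ≤ _ := mul_le_mul_of_nonneg_right hrb hI
    · refine le_trans ?_ (le_max_left _ _)
      nlinarith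
  have w2 : (r - 1 / gx) * fx ≤ δ * P1 * ((1 + Hb) / G2 - 1) := by
    have g1 : 1 ≤ 1 / gx := by rw [le_div_iff₀ hgx0]; linarith
    have hP : 0 ≤ δ * P1 := mul_nonneg hd0 hP10
    rcases le_or_gt fx 0 with hfx0 | hfx0
    · have : (r - 1 / gx) * fx ≤ 0 := mul_nonpos_of_nonneg_of_nonpos (by linarith) hfx0
      have : 0 ≤ δ * P1 * ((1 + Hb) / G2 - 1) := mul_nonneg hP (by linarith)
      linarith
    · calc (r - 1 / gx) * fx ≤ (r - 1 / gx) * (δ * P1) :=
            mul_le_mul_of_nonneg_left hfx (by linarith)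
        _ ≤ ((1 + Hb) / G2 - 1) * (δ * P1) := mul_le_mul_of_nonneg_right (by linarith) hP
        _ = _ := by ring
  have w3 : -(max RR (RR / G1)) ≤ rem p c m' g f x / gx := by
    rcases le_or_gt 0 RR with hR | hR
    · have k1 : -(RR / G1) ≤ -(RR / gx) := by
        have : RR / gx ≤ RR / G1 := div_le_div_of_nonneg_left hR hG1 hgx2
        linarith
      have k2 : -(RR / gx) ≤ rem p c m' g f x / gx := by
        rw [← neg_div]
        exact div_le_div_of_nonneg_right hrem hgx0.le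
      have := le_max_right RR (RR / G1)
      linarith
    · have k2 : -(RR / gx) ≤ rem p c m' g f x / gx := by
        rw [← neg_div]
        exact div_le_div_of_nonneg_right hrem hgx0.le
      have k3 : RR / gx ≤ RR := by
        rw [div_le_iff₀ hgx0]
        nlinarith
      have := le_max_left RR (RR / G1)
      linarith
  have w4 : (((c - m' : ℕ) : ℝ) + 1) - ((m' : ℝ) - 1) * Hb
      ≤ (1 + H) * (((c - m' : ℕ) : ℝ) + 1) - c * H := by
    have : ((m' : ℝ) - 1) * H ≤ ((m' : ℝ) - 1) * Hb :=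
      mul_le_mul_of_nonneg_left hH (by linarith)
    rw [hcz]
    linarith
  rw [e1, e2]
  have e3 : 1 / gx * fx - r * fX = -(r * (fX - fx)) - (r - 1 / gx) * fx := by ring
  linarith

end Dat

/-- `LoNum` implies all the pair inequalities -/
theorem winP_lo {p : ℝ} {a m c m' : ℕ} {g f : ℤ → ℝ} (h : WSys p a m c m' g f) (h0 : 0 < p)
    (h1 : p < 1) (hca : c < a) (hw : a - c < m' - m) (h2 : 2 * m' ≤ c) (hl : c * (1 - p) ≤ p)
    (hN : LoNum p a m c m') {l k : ℕ} (hcl : c < l) (hla : l ≤ a) (hmk : m < k) (hk : k ≤ m') :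
    WinP p a g f l k := by
  obtain ⟨th, hth0, hth, hall⟩ := hN
  obtain ⟨s, M, P, P1, Mn, Pn, D, U⟩ := exists_LoU h h0 h1 hca hw h2 hl hth0 hth
  obtain ⟨hG, ⟨p2, q0, q1, q2, q3⟩, hF⟩ := hall s M P P1 Mn Pn U
  obtain ⟨x, hx⟩ : ∃ x : ℕ, l + x = a + 1 := ⟨a + 1 - l, by omega⟩
  have ex : (a : ℤ) + 1 - l = x := by omega
  refine h.winP_of_main h1 hca hw h2 hcl hla hmk hk ?_ ?_
  · intro t ht1 ht2
    exact D.step_ok hG q0 q1 q2 q3 (by omega) ht2
  · rw [ex]
    exact D.main_pos hG hF (by omega) (by omega)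

end Coin
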