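import Pool.Agent.Lib.Coin.WinBd2

/-!
# Coin race, one-tail window: a tie forces `2 (a - c) < m' - m`
-/

namespace Coin

open Finset

/-- `1 + E - K ≥ 2 F` -/
theorem two_F_le {p : ℝ} (h0 : 0 < p) (h1 : p < 1) {c m' : ℕ} (h2 : 2 * m' ≤ c) :
    2 * p ^ (c - m') ≤ 1 + p ^ c - Kc p c m' := by
  obtain ⟨n, hn⟩ : ∃ n, c = 2 * m' + n := ⟨c - 2 * m', by omega⟩
  have hB := win_one_sub_pow_le h0 h1 m'
  unfold Kc
  set u := p ^ m' with hu
  set v := p ^ n with hv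
  have hu0 : 0 < u := pow_pos h0 _
  have hv0 : 0 < v := pow_pos h0 _
  have hu1 : u ≤ 1 := pow_le_one₀ h0.le h1.le
  have hv1 : v ≤ 1 := pow_le_one₀ h0.le h1.le
  have hz : p ^ (c - m') = u * v := by rw [hu, hv, ← pow_add]; congr 1; omega
  have hc : p ^ c = u ^ 2 * v := by rw [hu, hv, ← pow_mul, ← pow_add]; congr 1; omega
  rw [hz, hc]
  have k1 : (1 - u) * (u ^ 2 * v) ≤ m' * (1 - p) * (u ^ 2 * v) :=
    mul_le_mul_of_nonneg_right hB (by positivity)
  have k2 : 0 ≤ 1 - (1 - u) ^ 3 := by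
    have e : 1 - (1 - u) ^ 3 = u * (1 + (1 - u) + (1 - u) ^ 2) := by ring
    rw [e]
    have : 0 ≤ 1 - u := by linarith
    positivity
  have k3 : v * (1 - (1 - u) ^ 3) ≤ 1 * (1 - (1 - u) ^ 3) := mul_le_mul_of_nonneg_right hv1 k2
  have k4 : 0 ≤ (1 - u) ^ 3 := pow_nonneg (by linarith) 3
  nlinarith

namespace WSys

variable {p : ℝ} {a m c m' : ℕ} {g f : ℤ → ℝ}

/-- `s ≤ q` and `K s ≤ A0` for the supremum of `d` -/
theorem s_le_q (h : WSys p a m c m' g f) (h0 : 0 < p) (h1 : p < 1) (hca : c < a)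
    (hw : a - c < m' - m) (h2 : 2 * m' ≤ c) {s : ℝ}
    (hs : ∀ x : ℤ, 1 ≤ x → x ≤ a + c → dd g x ≤ s)
    (hat : ∃ x : ℤ, 1 ≤ x ∧ x ≤ a + c ∧ dd g x = s) :
    s ≤ 1 - p ∧ Kc p c m' * s ≤ (1 - p) * p ^ c := by
  have hq : 0 < 1 - p := by linarith
  have hs0 := h.s_nonneg hat
  have hτ := tau_le h0 h1 hca hw h2
  have hK0 := Kc_nonneg h0 h1 (c := c) (m' := m') (by omega)
  have hK1 := Kc_le h0 h1 h2
  have hM0 := MP_nonneg h0 h1 a m
  have hcA := mul_pow_le p h0 c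
  have hA : 0 < (1 - p) * p ^ c := by positivity
  have hN := two_zA_le h0 h1 hca hw h2
  have k := h.K1_s h0 h1 hca hw h2 hs hat (θ := 1) zero_le_one (by nlinarith)
  have hz := win_one_sub_pow_ge h0 h1 (c - m')
  have hEF : p ^ c ≤ p ^ (c - m') := pow_le_pow_of_le_one h0.le h1.le (by omega)
  set z : ℝ := ((c - m' : ℕ) : ℝ)
  have hz0 : 0 ≤ z := by positivity
  have hKd : Kc p c m' = p ^ (c - m') - p ^ c - (1 - p) * m' * p ^ c := rfl
  have b1 : p ^ c ≤ 1 - z * ((1 - p) * p ^ c) - 1 * Kc p c m' := by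
    rw [hKd]
    have : z * (1 - p) * p ^ c ≤ z * (1 - p) * p ^ (c - m') :=
      mul_le_mul_of_nonneg_left hEF (by positivity)
    have : 0 ≤ (1 - p) * m' * p ^ c := by positivity
    linarith
  have hE : 0 < p ^ c := pow_pos h0 _
  constructor
  · have b2 : s * p ^ c ≤ (1 - p) * p ^ c :=
      (mul_le_mul_of_nonneg_left b1 hs0).trans k
    exact le_of_mul_le_mul_right b2 hE
  · have b3 : Kc p c m' ≤ 1 - z * ((1 - p) * p ^ c) - 1 * Kc p c m' := by
      have : 0 ≤ z * ((1 - p) * p ^ c) := by positivity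
      linarith
    have := mul_le_mul_of_nonneg_left b3 hs0
    linarith

/-- the tie equation forces `2 (a - c) < m' - m` -/
theorem two_del_lt (h : WSys p a m c m' g f) (h0 : 0 < p) (h1 : p < 1) (hca : c < a)
    (hw : a - c < m' - m) (h2 : 2 * m' ≤ c) : 2 * (a - c) < m' - m := by
  have hq : 0 < 1 - p := by linarith
  obtain ⟨s, hs, hat⟩ := exists_sup (a := a) (c := c) hca g
  obtain ⟨hsq, hKs⟩ := h.s_le_q h0 h1 hca hw h2 hs hat
  have hK0 := Kc_nonneg h0 h1 (c := c) (m' := m') (by omega)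
  have hA : 0 < (1 - p) * p ^ c := by positivity
  obtain ⟨d, hd⟩ : ∃ d, a = c + (d + 1) := ⟨a - c - 1, by omega⟩
  have e0 : a - c = d + 1 := by omega
  have htie := h.tie_le h0 h1 hca hw h2
  rw [e0] at htie
  have eg : (a : ℤ) - c = ((d + 1 : ℕ) : ℤ) := by omega
  rw [eg] at htie
  set gd := g ((d + 1 : ℕ) : ℤ) with hgd
  have hgd1 : gd ≤ 1 := h.g_le_one (by omega)
  have hgd0 : 0 < gd := h.g_pos _ (by omega)
  set v := (1 - p) * gd + ((1 - p) * p ^ c - Kc p c m' * s) with hv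
  have hv0 : 0 ≤ v := by
    have : 0 < (1 - p) * gd := by positivity
    linarith
  -- telescoping
  have tel : ∀ n : ℕ, n ≤ d + 1 → n * (p ^ d * v) ≤ 1 - p ^ n * g (n : ℤ) := by
    intro n
    induction n with
    | zero =>
      intro _
      have := h.g_zero
      simp [this]
    | succ n ih =>
      intro hn
      have i1 := ih (by omega)
      have i2 := h.dd_ge h0 h1 (by omega : m' ≤ c) hs (x := ((n + 1 : ℕ) : ℤ)) (by omega)
        (by omega)
      have i3 := h.gneg_ge_one h0 h1 hca hw h2 (j := c - m' - n) (by omega)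
      have e1 : ((n + 1 : ℕ) : ℤ) - 1 - (c - m' : ℕ) = -((c - m' - n : ℕ) : ℤ) := by omega
      rw [e1] at i2
      have i4 := mul_le_mul_of_nonneg_left i3 hA.le
      have i5 : gd ≤ g ((n + 1 : ℕ) : ℤ) := h.g_anti (by omega) (by omega)
      have i6 : v ≤ g (n : ℤ) - p * g ((n + 1 : ℕ) : ℤ) := by
        have e2 : dd g ((n + 1 : ℕ) : ℤ) = g (n : ℤ) - g ((n + 1 : ℕ) : ℤ) := by
          unfold dd
          congr 2
          push_cast; ring
        rw [e2] at i2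
        have := mul_le_mul_of_nonneg_left i5 hq.le
        linarith
      have i7 : p ^ d ≤ p ^ n := pow_le_pow_of_le_one h0.le h1.le (by omega)
      have i8 : p ^ d * v ≤ p ^ n * (g (n : ℤ) - p * g ((n + 1 : ℕ) : ℤ)) :=
        mul_le_mul i7 i6 hv0 (by positivity)
      rw [pow_succ]
      push_cast at i1 i8 ⊢
      nlinarith
  have t1 := tel (d + 1) le_rfl
  have t2 := t1.trans htie
  have hgm : g ((a : ℤ) + 1 - m') ≤ gd := h.g_anti (by omega) (by omega)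
  have ep : p ^ (a - m') = p ^ d * (p * p ^ (c - m')) := by
    rw [← pow_succ', ← pow_add]; congr 1; omega
  rw [ep] at t2
  have hmm : (0 : ℝ) < (m' : ℝ) - m := by
    have : (m : ℝ) + 1 ≤ m' := by exact_mod_cast (by omega : m + 1 ≤ m')
    linarith
  have hpd : 0 < p ^ d := pow_pos h0 _
  set F := p ^ (c - m') with hF
  have hF0 : 0 < F := pow_pos h0 _
  have t3 : ((d + 1 : ℕ) : ℝ) * v ≤ ((m' : ℝ) - m) * (1 - p) * (p * F) * gd := by
    have k1 : ((m' : ℝ) - m) * (1 - p) * (p ^ d * (p * F)) * g ((a : ℤ) + 1 - m')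
        ≤ ((m' : ℝ) - m) * (1 - p) * (p ^ d * (p * F)) * gd :=
      mul_le_mul_of_nonneg_left hgm (by positivity)
    have k2 : p ^ d * (((d + 1 : ℕ) : ℝ) * v)
        ≤ p ^ d * (((m' : ℝ) - m) * (1 - p) * (p * F) * gd) := by
      linarith
    exact le_of_mul_le_mul_left k2 hpd
  -- divide by `gd`
  have t4 : ((d + 1 : ℕ) : ℝ) * ((1 - p) + ((1 - p) * p ^ c - Kc p c m' * s))
      ≤ ((m' : ℝ) - m) * (1 - p) * (p * F) := by
    have k1 : ((1 - p) + ((1 - p) * p ^ c - Kc p c m' * s)) * gd ≤ v := by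
      rw [hv]
      have : ((1 - p) * p ^ c - Kc p c m' * s) * gd ≤ ((1 - p) * p ^ c - Kc p c m' * s) * 1 :=
        mul_le_mul_of_nonneg_left hgd1 (by linarith)
      linarith
    have k2 := mul_le_mul_of_nonneg_left k1 (by positivity : (0 : ℝ) ≤ ((d + 1 : ℕ) : ℝ))
    have k3 : (((d + 1 : ℕ) : ℝ) * ((1 - p) + ((1 - p) * p ^ c - Kc p c m' * s))) * gd
        ≤ (((m' : ℝ) - m) * (1 - p) * (p * F)) * gd := by linarith
    exact le_of_mul_le_mul_right k3 hgd0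
  have hF2 := two_F_le h0 h1 h2
  rw [← hF] at hF2
  have t5 : ((d + 1 : ℕ) : ℝ) * (2 * F) ≤ ((m' : ℝ) - m) * (p * F) := by
    have k1 : (1 - p) * (2 * F) ≤ (1 - p) + ((1 - p) * p ^ c - Kc p c m' * s) := by
      have := mul_le_mul_of_nonneg_left hsq hK0
      have := mul_le_mul_of_nonneg_left hF2 hq.le
      linarith
    have k2 := mul_le_mul_of_nonneg_left k1 (by positivity : (0 : ℝ) ≤ ((d + 1 : ℕ) : ℝ))
    have k3 : (1 - p) * (((d + 1 : ℕ) : ℝ) * (2 * F)) ≤ (1 - p) * (((m' : ℝ) - m) * (p * F)) := by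
      linarith
    exact le_of_mul_le_mul_left k3 hq
  have t6 : ((d + 1 : ℕ) : ℝ) * 2 ≤ ((m' : ℝ) - m) * p := by
    have : F * (((d + 1 : ℕ) : ℝ) * 2) ≤ F * (((m' : ℝ) - m) * p) := by linarith
    exact le_of_mul_le_mul_left this hF0
  have t7 : ((d + 1 : ℕ) : ℝ) * 2 < (m' : ℝ) - m := by nlinarith
  have t8 : (((d + 1) * 2 + m : ℕ) : ℝ) < m' := by push_cast at t7 ⊢; linarith
  have t9 : (d + 1) * 2 + m < m' := by exact_mod_cast t8
  omega

end WSys

end Coin
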