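import Pool.Agent.Lib.Coin.WinReal
import Pool.Agent.Lib.Coin.WinLo4
import Pool.Agent.Lib.Coin.WinNT
import Pool.Agent.Lib.Coin.WinHi3

/-!
# Coin race, one-tail window, strict separation: assembly

`winFull_of_nums`: `WinFull` follows from the two numeric statements, `LoNum` for
`c (1 - p) ≤ p` and the certificate `HiOKx` for `p ≤ c (1 - p)`.
-/

namespace Coin

/-- the numeric statement of the range `c (1 - p) ≤ p` -/
def LoNumAll : Prop :=
  ∀ (p : ℝ) (a m c m' : ℕ), 0 < p → p < 1 → c * (1 - p) ≤ p → 2 * m' ≤ c → c < a →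
    2 * (a - c) < m' - m → LoNum p a m c m'

/-- the numeric statement of the range `p ≤ c (1 - p)` -/
def HiNumAll : Prop :=
  ∀ (p : ℝ) (a m c m' x : ℕ), 0 < p → p < 1 → p ≤ c * (1 - p) → 2 * m' ≤ c → c < a →
    2 * (a - c) < m' - m → 1 ≤ x → x ≤ a - c → ∃ d : HiDat, HiOKx p a m c m' x d

theorem winFull_of_nums (hlo : LoNumAll) (hhi : HiNumAll) : WinFull := by
  refine winFull_of_real ?_
  intro a c m m' p g f h0 h1 hca hw _ h2 h l k hcl hla hmk hkm
  have hw2 := h.two_del_lt h0 h1 hca hw h2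
  rcases le_total ((c : ℝ) * (1 - p)) p with hl | hl
  · exact winP_lo h h0 h1 hca hw h2 hl (hlo p a m c m' h0 h1 hl h2 hca hw2) hcl hla hmk hkm
  · obtain ⟨d, ok⟩ := hhi p a m c m' (a + 1 - l) h0 h1 hl h2 hca hw2 (by omega) (by omega)
    exact h.winP_hi h0 h1 hca hw h2 hl hcl hla hmk hkm ok

end Coin
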