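import Pool.Agent.Lib.Coin.WinHiPtB

/-!
# Coin race, one-tail window, `c q ≥ p`: facts about a point, part C

The order facts `Y0`, `nu0`, `nu6`, `nuxi`, `xide`, `ka0`, `hmu`, `mu2`, `E1`, `laY`, `laL`, `la1`,
`al1` of `Coin.WN.HPt`.
-/

namespace Coin.WN

section

variable {p : ℝ} {a m c m' x : ℕ}

theorem c_pos_of_six (hc : 6 ≤ c) : (0 : ℝ) < c := by
  have : 0 < c := by omega
  exact_mod_cast this

theorem pt_Y0 (h0 : 0 < p) (h1 : p < 1) (hc : 6 ≤ c) : 0 < (c : ℝ) * (-Real.log p) :=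
  mul_pos (c_pos_of_six hc) (neg_log_pos h0 h1)

theorem pt_nu0 (hc : 6 ≤ c) : (0 : ℝ) < 1 / c := by
  have := c_pos_of_six hc
  positivity

theorem pt_nu6 (hc : 6 ≤ c) : (1 : ℝ) / c ≤ 1 / 6 := by
  have h6 : (6 : ℝ) ≤ c := by exact_mod_cast hc
  exact one_div_le_one_div_of_le (by norm_num) h6

theorem pt_nuxi (hx : 1 ≤ x) : (1 : ℝ) / c ≤ x / c := by
  have h : (1 : ℝ) ≤ x := by exact_mod_cast hx
  gcongr

theorem pt_xide (hxa : x ≤ a - c) : (x : ℝ) / c ≤ ((a - c : ℕ) : ℝ) / c := by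
  have h : (x : ℝ) ≤ ((a - c : ℕ) : ℝ) := by exact_mod_cast hxa
  gcongr

theorem pt_ka0 : (0 : ℝ) ≤ m / c := by positivity

theorem pt_hmu (hd : 2 * (a - c) < m' - m) :
    2 * (((a - c : ℕ) : ℝ) / c) + (m : ℝ) / c + 1 / c ≤ (m' : ℝ) / c := by
  have h : 2 * (a - c) + m + 1 ≤ m' := by omega
  have h' : 2 * ((a - c : ℕ) : ℝ) + m + 1 ≤ m' := by exact_mod_cast h
  calc 2 * (((a - c : ℕ) : ℝ) / c) + (m : ℝ) / c + 1 / c
      = (2 * ((a - c : ℕ) : ℝ) + m + 1) / c := by ring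
    _ ≤ (m' : ℝ) / c := by gcongr

theorem pt_mu2 (hmc : 2 * m' ≤ c) (hc : 6 ≤ c) : (m' : ℝ) / c ≤ 1 / 2 := by
  have hc0 := c_pos_of_six hc
  have h : 2 * (m' : ℝ) ≤ c := by exact_mod_cast hmc
  rw [div_le_iff₀ hc0]
  linarith

theorem pt_E1 (h0 : 0 < p) : p ^ c = Real.exp (-((c : ℝ) * (-Real.log p))) :=
  pow_exp_neg h0 c

theorem pt_laY (h0 : 0 < p) (hc : 6 ≤ c) :
    (c : ℝ) * (1 - p) ≤ (c : ℝ) * (-Real.log p) := by
  have hc0 := c_pos_of_six hc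
  have h := Real.log_le_sub_one_of_pos h0
  exact mul_le_mul_of_nonneg_left (by linarith) hc0.le

/-- `y - y²/2 ≤ 1 - e^(-y)` -/
theorem sq_le_q (h0 : 0 < p) (h1 : p < 1) :
    (-Real.log p) - (-Real.log p) ^ 2 / 2 ≤ 1 - p := by
  have hy0 := neg_log_pos h0 h1
  have e0 : Real.exp (Real.log p) = p := Real.exp_log h0
  have h := Real.quadratic_le_exp_of_nonneg hy0.le
  have e1 : Real.exp (-Real.log p) = p⁻¹ := by rw [Real.exp_neg, e0]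
  rw [e1] at h
  generalize -Real.log p = y at *
  have hD : 0 < 1 + y + y ^ 2 / 2 := by positivity
  have h2 : p ≤ (1 + y + y ^ 2 / 2)⁻¹ := by
    rw [le_inv_comm₀ h0 hD]; exact h
  have h3 : (1 + y + y ^ 2 / 2)⁻¹ ≤ 1 - y + y ^ 2 / 2 := by
    rw [inv_le_iff_one_le_mul₀ hD]
    nlinarith [sq_nonneg (y ^ 2)]
  linarith

theorem pt_laL (h0 : 0 < p) (h1 : p < 1) (hc : 6 ≤ c) :
    (c : ℝ) * (-Real.log p) * (1 - (c : ℝ) * (-Real.log p) * (1 / (c : ℝ)) / 2)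
      ≤ (c : ℝ) * (1 - p) := by
  have hc0 := c_pos_of_six hc
  have h := mul_le_mul_of_nonneg_left (sq_le_q h0 h1) hc0.le
  have e2 : (c : ℝ) * (-Real.log p) * (1 - (c : ℝ) * (-Real.log p) * (1 / (c : ℝ)) / 2)
      = (c : ℝ) * ((-Real.log p) - (-Real.log p) ^ 2 / 2) := by
    field_simp
    ring
  rw [e2]
  exact h

theorem pt_la1 (hpq : p ≤ c * (1 - p)) (hc : 6 ≤ c) :
    1 ≤ (c : ℝ) * (1 - p) * (1 + 1 / (c : ℝ)) := by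
  have hc0 := c_pos_of_six hc
  have e1 : (c : ℝ) * (1 - p) * (1 + 1 / (c : ℝ)) = ((c : ℝ) + 1) * (1 - p) := by
    field_simp
  rw [e1]
  linarith

theorem pt_al1 (h0 : 0 < p) (hca : c < a) (hc : 6 ≤ c) :
    (c : ℝ) * ((1 - p) * p ^ a) = (c : ℝ) * (1 - p)
      * Real.exp (-((c : ℝ) * (-Real.log p) * (1 + ((a - c : ℕ) : ℝ) / c))) := by
  rw [Y_a hca hc, ← pow_exp_neg h0]
  ring

end

/-- the facts of part A, to be proved in `WinHiPtA` -/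
def PtAStatement : Prop := ∀ (p : ℝ) (a m c m' : ℕ), 0 < p → p < 1 → p ≤ c * (1 - p) → c < a →
  2 * m' ≤ c → 2 * (a - c) < m' - m → 6 ≤ c →
  Coin.MP p a m = Real.exp (-((c : ℝ) * (-Real.log p) * (1 + ((a - c : ℕ) : ℝ) / c)))
      * (Real.exp ((c : ℝ) * (-Real.log p) * ((m : ℝ) / c)) - 1) ∧
  (1 - p) * p ^ a * ∑ j ∈ Finset.Icc 1 m, (1 / p ^ j - 1)
    = Real.exp (-((c : ℝ) * (-Real.log p) * (1 + ((a - c : ℕ) : ℝ) / c)))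
      * (Real.exp ((c : ℝ) * (-Real.log p) * ((m : ℝ) / c)) - 1
        - (c : ℝ) * (1 - p) * ((m : ℝ) / c)) ∧
  Coin.Kc p c m' = p ^ c * (Real.exp ((c : ℝ) * (-Real.log p) * ((m' : ℝ) / c)) - 1
    - (c : ℝ) * (1 - p) * ((m' : ℝ) / c)) ∧
  (∑ i ∈ Finset.range m', 2 * (i : ℝ)
      * ((1 - p) * p ^ (c - m' + i) - (1 - p) * p ^ c)) / c ≤ (m' : ℝ) / c * Coin.Kc p c m' ∧
  ((c : ℝ) * (-Real.log p) ≤ 2 →
    (∑ i ∈ Finset.range m', max (Coin.psi p (c - m' + i) - Coin.psi p c) 0) / c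
      ≤ p ^ c * ((c : ℝ) * (1 - p) * ((m' : ℝ) / c) * (1 + 1 / (c : ℝ))
        - (1 - (m' : ℝ) / c) * (Real.exp ((c : ℝ) * (-Real.log p) * ((m' : ℝ) / c)) - 1))) ∧
  ((c : ℝ) * (-Real.log p) ≤ 2 →
    (∑ i ∈ Finset.range m', max (-(Coin.psi p (c - m' + i) - Coin.psi p c)) 0) / c ≤ 0) ∧
  (∑ i ∈ Finset.range m', max (Coin.psi p (c - m' + i) - Coin.psi p c) 0) / c
    ≤ (c : ℝ) * (1 - p) * (Coin.R1 p c m' / c ^ 2) ∧
  (∑ i ∈ Finset.range m', max (-(Coin.psi p (c - m' + i) - Coin.psi p c)) 0) / c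
    ≤ Coin.Kc p c m' ∧
  Coin.R1 p c m' / c ^ 2 ≤ p ^ c * ((m' : ℝ) / c * ((m' : ℝ) / c + 1 / (c : ℝ)) / 2
    + (Real.exp ((c : ℝ) * (-Real.log p) * ((m' : ℝ) / c)) - 1)
      * ((m' : ℝ) / c + 1 / (c : ℝ)) * (2 * ((m' : ℝ) / c) + 1 / (c : ℝ)) / 6)

theorem pt_ok_of (hA : PtAStatement) : PtStatement := by
  intro p a m c m' x h0 h1 hpq hca hmc hd hx hxa
  have hc := c_ge_six hmc hd hx hxa
  obtain ⟨a1, a2, a3, a4, a5, a6, a7, a8, a9⟩ := hA p a m c m' h0 h1 hpq hca hmc hd hc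
  exact {
    Y0 := pt_Y0 h0 h1 hc
    nu0 := pt_nu0 hc
    nu6 := pt_nu6 hc
    nuxi := pt_nuxi hx
    xide := pt_xide hxa
    ka0 := pt_ka0
    hmu := pt_hmu hd
    mu2 := pt_mu2 hmc hc
    E1 := pt_E1 h0
    laY := pt_laY h0 hc
    laL := pt_laL h0 h1 hc
    la1 := pt_la1 hpq hc
    la2 := pt_la2 h0 h1 hc
    la3 := pt_la3 h0 h1 hc
    A1 := pt_A1 hc
    A2 := pt_A2 h0 h1 hc
    Aa1 := pt_Aa1 h0 h1 hca hc
    Aa2 := pt_Aa2 h0 h1 hca hc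
    Aa3 := pt_Aa3 h0 h1 hca hc
    al1 := pt_al1 h0 hca hc
    MP1 := a1
    M11 := a2
    P1 := pt_P1 h0 h1 hca hmc hd hc
    K1 := a3
    K21 := a4
    Qp1 := a5
    Qn1 := a6
    Qp2 := a7
    Qn2 := a8
    R1 := a9 }

end Coin.WN
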