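import Pool.Agent.Lib.Coin.WinLoPrim
import Pool.Agent.Lib.Coin.WinHiPtC

/-!
# Coin race, one-tail window, `c q ≥ p`: facts about the true quantities, part A
-/

namespace Coin.WN

open Finset

theorem ptA_powinv {p : ℝ} (h0 : 0 < p) {c : ℕ} (hc : 0 < c) (n : ℕ) :
    Real.exp ((c : ℝ) * (-Real.log p) * ((n : ℝ) / c)) = 1 / p ^ n := by
  have hc' : (c : ℝ) ≠ 0 := by exact_mod_cast hc.ne'
  have e : (c : ℝ) * (-Real.log p) * ((n : ℝ) / c) = -(n * Real.log p) := by field_simp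
  rw [e, ← Real.log_pow, Real.exp_neg, Real.exp_log (pow_pos h0 _), one_div]

theorem ptA_powa {p : ℝ} (h0 : 0 < p) {a c : ℕ} (hc : 0 < c) (hca : c < a) :
    Real.exp (-((c : ℝ) * (-Real.log p) * (1 + ((a - c : ℕ) : ℝ) / c))) = p ^ a := by
  have hc' : (c : ℝ) ≠ 0 := by exact_mod_cast hc.ne'
  have e : -((c : ℝ) * (-Real.log p) * (1 + ((a - c : ℕ) : ℝ) / c)) = a * Real.log p := by
    rw [Nat.cast_sub hca.le]
    field_simp
    ring
  rw [e, ← Real.log_pow, Real.exp_log (pow_pos h0 _)]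

theorem ptA_MP1 {p : ℝ} (h0 : 0 < p) {a m c : ℕ} (hc : 0 < c) (hca : c < a) (hma : m ≤ a) :
    Coin.MP p a m = Real.exp (-((c : ℝ) * (-Real.log p) * (1 + ((a - c : ℕ) : ℝ) / c)))
      * (Real.exp ((c : ℝ) * (-Real.log p) * ((m : ℝ) / c)) - 1) := by
  rw [ptA_powinv h0 hc, ptA_powa h0 hc hca]
  unfold Coin.MP
  rw [Coin.pow_sub_eq h0 hma]
  ring

theorem ptA_geom {p : ℝ} (h0 : 0 < p) (m : ℕ) :
    (1 - p) * ∑ j ∈ Icc 1 m, 1 / p ^ j = 1 / p ^ m - 1 := by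
  induction m with
  | zero => simp
  | succ n ih =>
    rw [Finset.sum_Icc_succ_top (by omega), mul_add, ih]
    have hp : p ^ n ≠ 0 := (pow_pos h0 _).ne'
    have hp1 : p ≠ 0 := h0.ne'
    field_simp
    ring

theorem ptA_M11 {p : ℝ} (h0 : 0 < p) {a m c : ℕ} (hc : 0 < c) (hca : c < a) :
    (1 - p) * p ^ a * ∑ j ∈ Icc 1 m, (1 / p ^ j - 1)
      = Real.exp (-((c : ℝ) * (-Real.log p) * (1 + ((a - c : ℕ) : ℝ) / c)))
      * (Real.exp ((c : ℝ) * (-Real.log p) * ((m : ℝ) / c)) - 1 - c * (1 - p) * ((m : ℝ) / c)) := by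
  rw [ptA_powinv h0 hc, ptA_powa h0 hc hca, sum_sub_distrib, sum_const, Nat.card_Icc]
  have hc' : (c : ℝ) ≠ 0 := by exact_mod_cast hc.ne'
  have k := ptA_geom h0 m
  have e : (1 - p) * p ^ a * (∑ j ∈ Icc 1 m, 1 / p ^ j - (m + 1 - 1) • (1 : ℝ))
      = p ^ a * ((1 - p) * ∑ j ∈ Icc 1 m, 1 / p ^ j - (1 - p) * m) := by
    rw [Nat.add_sub_cancel, nsmul_eq_mul]
    ring
  rw [e, k]
  field_simp

theorem ptA_K1 {p : ℝ} (h0 : 0 < p) {c m' : ℕ} (hc : 0 < c) (hmc : m' ≤ c) :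
    Coin.Kc p c m' = p ^ c * (Real.exp ((c : ℝ) * (-Real.log p) * ((m' : ℝ) / c)) - 1
      - c * (1 - p) * ((m' : ℝ) / c)) := by
  have hc' : (c : ℝ) ≠ 0 := by exact_mod_cast hc.ne'
  rw [ptA_powinv h0 hc, Coin.Kc_prim h0 hmc]
  field_simp

/-- Chebyshev for a nonincreasing sequence -/
theorem ptA_cheb (n : ℕ) (F : ℕ → ℝ) (hF : ∀ i j, i ≤ j → j < n → F j ≤ F i)
    (h0 : 0 ≤ ∑ i ∈ range n, F i) :
    ∑ i ∈ range n, 2 * (i : ℝ) * F i ≤ n * ∑ i ∈ range n, F i := by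
  rcases Nat.eq_zero_or_pos n with hn | hn
  · subst hn; simp
  have hG : AntivaryOn (fun i : ℕ => 2 * (i : ℝ)) F (range n) := by
    intro i hi j hj hij
    have hj' : j < n := by simpa using hj
    by_contra hcon
    push Not at hcon
    have h2 : i < j := by
      have h3 : 2 * (i : ℝ) < 2 * (j : ℝ) := hcon
      have : (i : ℝ) < j := by linarith
      exact_mod_cast this
    exact absurd hij (not_lt.mpr (hF i j h2.le hj'))
  have k := hG.card_mul_sum_le_sum_mul_sum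
  rw [card_range] at k
  have e : ∑ i ∈ range n, 2 * (i : ℝ) = n * ((n : ℝ) - 1) := by
    clear k hG h0 hF
    induction n with
    | zero => simp
    | succ n ih =>
      rcases Nat.eq_zero_or_pos n with hn0 | hn0
      · subst hn0; simp
      · rw [sum_range_succ, ih hn0]; push_cast; ring
  rw [e] at k
  have hn' : (0 : ℝ) < n := by exact_mod_cast hn
  have k2 : ∑ i ∈ range n, 2 * (i : ℝ) * F i ≤ ((n : ℝ) - 1) * ∑ i ∈ range n, F i := by
    refine le_of_mul_le_mul_left ?_ hn'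
    linarith
  linarith

theorem ptA_K21 {p : ℝ} (h0 : 0 < p) (h1 : p < 1) {c m' : ℕ} (hc : 0 < c) (hmc : m' ≤ c) :
    (∑ i ∈ range m', 2 * (i : ℝ)
      * ((1 - p) * p ^ (c - m' + i) - (1 - p) * p ^ c)) / c ≤ (m' : ℝ) / c * Coin.Kc p c m' := by
  have hc0 : (0 : ℝ) < c := by exact_mod_cast hc
  have hK := Coin.Kc_nonneg h0 h1 (c := c) (m' := m') hmc
  have hs := Coin.sum_eps (p := p) hmc
  have k := ptA_cheb m' (fun i => (1 - p) * p ^ (c - m' + i) - (1 - p) * p ^ c)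
    (fun i j hij _ => by
      have : p ^ (c - m' + j) ≤ p ^ (c - m' + i) :=
        pow_le_pow_of_le_one h0.le h1.le (by omega)
      have := mul_le_mul_of_nonneg_left this (by linarith : (0 : ℝ) ≤ 1 - p)
      linarith) (by rw [hs]; exact hK)
  rw [hs] at k
  have e : (m' : ℝ) / c * Coin.Kc p c m' = m' * Coin.Kc p c m' / c := by ring
  rw [e]
  exact div_le_div_of_nonneg_right k hc0.le

/-- `ψ` decreases up to `c` when `(c+1) q ≤ 2` -/
theorem ptA_psi_anti {p : ℝ} (h0 : 0 < p) (h1 : p < 1) {c : ℕ} (h : ((c : ℝ) + 1) * (1 - p) ≤ 2)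
    (j : ℕ) (hj : j ≤ c) : Coin.psi p c ≤ Coin.psi p (c - j) := by
  induction j with
  | zero => simp
  | succ j ih =>
    refine (ih (by omega)).trans ?_
    obtain ⟨n, hn⟩ : ∃ n, c - j = n + 1 := ⟨c - j - 1, by omega⟩
    have hn2 : c - (j + 1) = n := by omega
    rw [hn, hn2]
    have hq : 0 < 1 - p := by linarith
    have hnc : (n : ℝ) + 2 ≤ c + 1 := by
      have : n + 1 ≤ c := by omega
      have : ((n + 1 : ℕ) : ℝ) ≤ c := by exact_mod_cast this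
      push_cast at this
      linarith
    have k : ((n : ℝ) + 2) * (1 - p) ≤ 2 := (mul_le_mul_of_nonneg_right hnc hq.le).trans h
    have e : Coin.psi p n - Coin.psi p (n + 1) = p ^ n * (1 - p) * (2 - ((n : ℝ) + 2) * (1 - p)) := by
      unfold Coin.psi
      push_cast
      ring
    have : 0 ≤ p ^ n * (1 - p) * (2 - ((n : ℝ) + 2) * (1 - p)) := by
      have := pow_pos h0 n
      have h3 : 0 ≤ 2 - ((n : ℝ) + 2) * (1 - p) := by linarith
      positivity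
    linarith

theorem ptA_c1 {p : ℝ} (h0 : 0 < p) (h1 : p < 1) {c : ℕ} (hc : 6 ≤ c)
    (hY : (c : ℝ) * (-Real.log p) ≤ 2) : ((c : ℝ) + 1) * (1 - p) ≤ 2 := by
  have hc0 : (6 : ℝ) ≤ c := by exact_mod_cast hc
  have k := lem_lo h0 h1 hc hY
  have hy0 := neg_log_pos h0 h1
  have hy1 : -Real.log p ≤ 1 / 3 := by nlinarith
  nlinarith

theorem ptA_psi_diff {p : ℝ} (h0 : 0 < p) {c j : ℕ} (hj : j ≤ c) :
    Coin.psi p (c - j) - Coin.psi p c
      = p ^ (c - j) * ((1 - p ^ j) * (1 - ((c : ℝ) + 1) * (1 - p)) + j * (1 - p)) := by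
  have e : p ^ c = p ^ (c - j) * p ^ j := by rw [← pow_add]; congr 1; omega
  unfold Coin.psi
  rw [e, Nat.cast_sub hj]
  ring

theorem ptA_Qp2 {p : ℝ} (h0 : 0 < p) (h1 : p < 1) {c m' : ℕ} (hc : 0 < c) (hmc : m' ≤ c)
    (hpq : p ≤ c * (1 - p)) :
    (∑ i ∈ range m', max (Coin.psi p (c - m' + i) - Coin.psi p c) 0) / c
      ≤ c * (1 - p) * (Coin.R1 p c m' / c ^ 2) := by
  have hc0 : (0 : ℝ) < c := by exact_mod_cast hc
  have hq : 0 < 1 - p := by linarith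
  have e : c * (1 - p) * (Coin.R1 p c m' / c ^ 2) = ((1 - p) * Coin.R1 p c m') / c := by
    field_simp
  rw [e]
  refine div_le_div_of_nonneg_right ?_ hc0.le
  unfold Coin.R1
  rw [mul_sum]
  refine sum_le_sum (fun i hi => ?_)
  rw [mem_range] at hi
  obtain ⟨j, hj⟩ : ∃ j, m' = i + j := ⟨m' - i, by omega⟩
  have e2 : c - m' + i = c - j := by omega
  have hp := pow_pos h0 (c - j)
  rw [e2, ptA_psi_diff h0 (by omega : j ≤ c)]
  have e3 : (m' : ℝ) - i = j := by rw [hj]; push_cast; ring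
  rw [e3]
  have hpj : p ^ j ≤ 1 := pow_le_one₀ h0.le h1.le
  refine max_le ?_ (by positivity)
  have : (1 - p ^ j) * (1 - ((c : ℝ) + 1) * (1 - p)) ≤ 0 :=
    mul_nonpos_of_nonneg_of_nonpos (by linarith) (by linarith)
  have := mul_le_mul_of_nonneg_left this hp.le
  linarith

theorem ptA_Qn2 {p : ℝ} (h0 : 0 < p) (h1 : p < 1) {c m' : ℕ} (hc : 0 < c) (hmc : m' ≤ c) :
    (∑ i ∈ range m', max (-(Coin.psi p (c - m' + i) - Coin.psi p c)) 0) / c
      ≤ Coin.Kc p c m' := by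
  have hc0 : (0 : ℝ) < c := by exact_mod_cast hc
  have hq : 0 < 1 - p := by linarith
  rw [div_le_iff₀ hc0, ← Coin.sum_eps (p := p) hmc, sum_mul]
  refine sum_le_sum (fun i hi => ?_)
  rw [mem_range] at hi
  obtain ⟨j, hj⟩ : ∃ j, m' = i + j := ⟨m' - i, by omega⟩
  have e2 : c - m' + i = c - j := by omega
  have hp := pow_pos h0 (c - j)
  rw [e2, ptA_psi_diff h0 (by omega : j ≤ c)]
  have e : p ^ c = p ^ (c - j) * p ^ j := by rw [← pow_add]; congr 1; omega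
  have hpj : p ^ j ≤ 1 := pow_le_one₀ h0.le h1.le
  have e4 : ((1 - p) * p ^ (c - j) - (1 - p) * p ^ c) * c
      = p ^ (c - j) * ((1 - p ^ j) * (c * (1 - p))) := by
    rw [e]; ring
  rw [e4]
  have h5 : 0 ≤ 1 - p ^ j := by linarith
  refine max_le ?_ (by positivity)
  have : 0 ≤ p ^ (c - j) * ((1 - p ^ j) * p + j * (1 - p)) := by positivity
  linarith

theorem ptA_sum_psi {p : ℝ} {c m' : ℕ} (hmc : m' ≤ c) :
    ∑ i ∈ range m', Coin.psi p (c - m' + i) = c * p ^ c - ((c - m' : ℕ) : ℝ) * p ^ (c - m') := by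
  have k : ∀ n : ℕ, n ≤ m' → ∑ i ∈ range n, Coin.psi p (c - m' + i)
      = ((c - m' + n : ℕ) : ℝ) * p ^ (c - m' + n) - ((c - m' : ℕ) : ℝ) * p ^ (c - m') := by
    intro n
    induction n with
    | zero => simp
    | succ n ih =>
      intro hn
      rw [sum_range_succ, ih (by omega)]
      unfold Coin.psi
      push_cast
      ring
  have := k m' le_rfl
  rw [show c - m' + m' = c by omega] at this
  exact this

theorem ptA_Qn1 {p : ℝ} (h0 : 0 < p) (h1 : p < 1) {c m' : ℕ} (hc : 6 ≤ c) (hmc : m' ≤ c)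
    (hY : (c : ℝ) * (-Real.log p) ≤ 2) :
    (∑ i ∈ range m', max (-(Coin.psi p (c - m' + i) - Coin.psi p c)) 0) / c ≤ 0 := by
  have h := ptA_c1 h0 h1 hc hY
  have : ∑ i ∈ range m', max (-(Coin.psi p (c - m' + i) - Coin.psi p c)) 0 = 0 := by
    refine sum_eq_zero (fun i hi => ?_)
    rw [mem_range] at hi
    have k := ptA_psi_anti h0 h1 h (m' - i) (by omega)
    rw [show c - (m' - i) = c - m' + i by omega] at k
    exact max_eq_right (by linarith)
  rw [this, zero_div]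

theorem ptA_Qp1 {p : ℝ} (h0 : 0 < p) (h1 : p < 1) {c m' : ℕ} (hc : 6 ≤ c) (hmc : m' ≤ c)
    (hY : (c : ℝ) * (-Real.log p) ≤ 2) :
    (∑ i ∈ range m', max (Coin.psi p (c - m' + i) - Coin.psi p c) 0) / c
      ≤ p ^ c * (c * (1 - p) * ((m' : ℝ) / c) * (1 + 1 / c)
        - (1 - (m' : ℝ) / c) * (Real.exp ((c : ℝ) * (-Real.log p) * ((m' : ℝ) / c)) - 1)) := by
  have h := ptA_c1 h0 h1 hc hY
  have hc0 : (0 : ℝ) < c := by exact_mod_cast (by omega : 0 < c)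
  have e : ∑ i ∈ range m', max (Coin.psi p (c - m' + i) - Coin.psi p c) 0
      = ∑ i ∈ range m', (Coin.psi p (c - m' + i) - Coin.psi p c) := by
    refine sum_congr rfl (fun i hi => ?_)
    rw [mem_range] at hi
    have k := ptA_psi_anti h0 h1 h (m' - i) (by omega)
    rw [show c - (m' - i) = c - m' + i by omega] at k
    exact max_eq_left (by linarith)
  rw [e, sum_sub_distrib, ptA_sum_psi hmc, sum_const, card_range, nsmul_eq_mul,
    ptA_powinv h0 (by omega), Coin.pow_sub_eq h0 hmc, Nat.cast_sub hmc]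
  unfold Coin.psi
  refine le_of_eq ?_
  have hp : p ^ m' ≠ 0 := (pow_pos h0 _).ne'
  field_simp
  ring

theorem ptA_R1 {p : ℝ} (h0 : 0 < p) (h1 : p < 1) {c m' : ℕ} (hc : 0 < c) (hmc : m' ≤ c) :
    Coin.R1 p c m' / c ^ 2 ≤ p ^ c * ((m' : ℝ) / c * ((m' : ℝ) / c + 1 / c) / 2
      + (Real.exp ((c : ℝ) * (-Real.log p) * ((m' : ℝ) / c)) - 1) * ((m' : ℝ) / c + 1 / c)
        * (2 * ((m' : ℝ) / c) + 1 / c) / 6) := by
  have hc0 : (0 : ℝ) < c := by exact_mod_cast hc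
  rw [ptA_powinv h0 hc]
  have k := Coin.R1_le_prim h0 h1 hmc
  have k2 := div_le_div_of_nonneg_right k (by positivity : (0 : ℝ) ≤ (c : ℝ) ^ 2)
  refine k2.trans (le_of_eq ?_)
  field_simp

/-- part A -/
theorem ptA_ok : PtAStatement := by
  intro p a m c m' h0 h1 hpq hca h2 hd hc
  have hc0 : 0 < c := by omega
  have hmc : m' ≤ c := by omega
  exact ⟨ptA_MP1 h0 hc0 hca (by omega), ptA_M11 h0 hc0 hca, ptA_K1 h0 hc0 hmc,
    ptA_K21 h0 h1 hc0 hmc, ptA_Qp1 h0 h1 hc hmc, ptA_Qn1 h0 h1 hc hmc, ptA_Qp2 h0 h1 hc0 hmc hpq,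
    ptA_Qn2 h0 h1 hc0 hmc, ptA_R1 h0 h1 hc0 hmc⟩

/-- the facts about the true quantities -/
theorem pt_ok : PtStatement := pt_ok_of ptA_ok

end Coin.WN
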