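import Pool.Agent.Lib.Coin.WinHiDef

/-!
# Coin race, one-tail window, `c q ≥ p`: the scaled inequalities give the certificate
-/

namespace Coin.WN

open Finset

namespace WinHiScale

variable {h : SH} {c m : ℕ}

theorem b_eq (hc : (0 : ℝ) < c) : (h.toDat c).b = h.b := by
  have : (c : ℝ) ≠ 0 := hc.ne'
  simp only [HiDat.b, SH.b, SH.toDat]
  field_simp

theorem w1_eq (hc : (0 : ℝ) < c) : (h.toDat c).w1 = h.w1 / c := by
  have : (c : ℝ) ≠ 0 := hc.ne'
  simp only [HiDat.w1, SH.w1, SH.toDat]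
  field_simp

theorem D1_eq (hc : (0 : ℝ) < c) : (h.toDat c).D1 m = h.D1 (m / c) (1 / c) := by
  have : (c : ℝ) ≠ 0 := hc.ne'
  simp only [HiDat.D1, SH.D1, b_eq hc]
  simp only [SH.toDat]
  field_simp

theorem D2_eq (hc : (0 : ℝ) < c) : (h.toDat c).D2 m = h.D2 (m / c) (1 / c) := by
  have : (c : ℝ) ≠ 0 := hc.ne'
  simp only [HiDat.D2, SH.D2, b_eq hc, w1_eq hc]
  field_simp

theorem w0_eq (hc : (0 : ℝ) < c) : (h.toDat c).w0 m = h.w0 (m / c) (1 / c) := by
  have : (c : ℝ) ≠ 0 := hc.ne'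
  simp only [HiDat.w0, SH.w0, D1_eq hc]
  simp only [SH.toDat]
  field_simp

theorem W_le (hc : (0 : ℝ) < c) (h1 : 0 ≤ h.al * h.U) :
    (h.toDat c).W m c ≤ h.W (m / c) (1 / c) := by
  have h0 : (c : ℝ) ≠ 0 := hc.ne'
  have e : (h.toDat c).W m c = h.W (m / c) (1 / c) - h.al * h.U / c := by
    simp only [HiDat.W, SH.W, D2_eq hc]
    simp only [SH.toDat]
    field_simp
    ring
  rw [e]
  have : 0 ≤ h.al * h.U / c := by positivity
  linarith

theorem B_eq (hc : (0 : ℝ) < c) : (h.toDat c).B m = h.B (m / c) (1 / c) := by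
  have : (c : ℝ) ≠ 0 := hc.ne'
  simp only [HiDat.B, SH.B, w0_eq hc, w1_eq hc]
  simp only [SH.toDat]
  field_simp

theorem C_eq (hc : (0 : ℝ) < c) (g te : ℝ) : (h.toDat c).C (g / c) (c * te) = h.C g te / c := by
  have : (c : ℝ) ≠ 0 := hc.ne'
  simp only [HiDat.C, SH.C, b_eq hc, w1_eq hc]
  simp only [SH.toDat]
  field_simp

theorem Sx_eq (hc : (0 : ℝ) < c) (g te x : ℝ) :
    (h.toDat c).Sx m (g / c) (c * te) x = c * h.Sx g te (1 / c) (x / c) (m / c) := by
  have : (c : ℝ) ≠ 0 := hc.ne'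
  simp only [HiDat.Sx, SH.Sx, B_eq hc, C_eq hc]
  field_simp

theorem S_eq (hc : (0 : ℝ) < c) (g te x : ℝ) :
    (h.toDat c).S m (g / c) (c * te) x = c * h.S g te (1 / c) (x / c) (m / c) := by
  have : (c : ℝ) ≠ 0 := hc.ne'
  simp only [HiDat.S, SH.S, B_eq hc, C_eq hc, Sx_eq hc]
  simp only [SH.toDat]
  field_simp

end WinHiScale

open WinHiScale in
/-- the scaled inequalities give the certificate `HiOKx` -/
theorem scale_ok : ScaleStatement := by
  intro p a m c m' x h h0 h1 hca h2 hw hx1 hx H K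
  have hcn : 6 ≤ c := by omega
  have hc : (0 : ℝ) < c := by exact_mod_cast (by omega : 0 < c)
  have hc0 : (c : ℝ) ≠ 0 := hc.ne'
  have hq : 0 < 1 - p := by linarith
  have hq0 : (1 - p : ℝ) ≠ 0 := hq.ne'
  have hz : ((c - m' : ℕ) : ℝ) = c * (1 - m' / c) := by
    rw [Nat.cast_sub (by omega)]
    field_simp
  have hA0 : (1 - p) * p ^ c = c * (1 - p) * p ^ c / c := by
    field_simp
  have hmu : (1 : ℝ) ≤ m' := by exact_mod_cast (by omega : 1 ≤ m')
  -- names
  obtain ⟨te, hte⟩ : ∃ te : ℝ, te = 1 - m' / c := ⟨_, rfl⟩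
  obtain ⟨g, hg⟩ : ∃ g : ℝ, g = c * (1 - p) * p ^ c := ⟨_, rfl⟩
  rw [← hte] at hz K
  have hte0 : 0 ≤ te := by
    rw [hte, sub_nonneg, div_le_one hc]
    exact_mod_cast (by omega : m' ≤ c)
  have hg0 : 0 ≤ g := by rw [hg]; positivity
  have hKc := Kc_nonneg h0 h1 (c := c) (m' := m') (by omega)
  have hK0 : 0 ≤ h.K := hKc.trans H.hK
  have s0 := K.s0
  have hth0 := K.th0
  have ht0 : 0 ≤ h.t := (mul_nonneg hth0 s0).trans K.ht
  have hUN : 0 ≤ h.al * h.U := mul_nonneg K.al0 K.U0.le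
  have hA0g : (1 - p) * p ^ c = g / c := by rw [hg]; exact hA0
  have hkk : h.th * Kc p c m' ≤ h.th * h.K := mul_le_mul_of_nonneg_left H.hK hth0
  -- windows
  have ham : (a : ℝ) + m' - 1 ≤ c * (1 + 3 / 2 * (m' / c - 1 / c)) := by
    have e : c * (1 + 3 / 2 * ((m' : ℝ) / c - 1 / c)) = c + 3 / 2 * (m' - 1) := by
      field_simp
    rw [e]
    have : 2 * (a : ℝ) + 1 ≤ 2 * c + m' := by exact_mod_cast (by omega : 2 * a + 1 ≤ 2 * c + m')
    linarith
  have haz : (a : ℝ) - c * te - 1 ≤ c * (3 / 2 * (m' / c - 1 / c)) := by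
    have e : c * (3 / 2 * ((m' : ℝ) / c - 1 / c)) = 3 / 2 * (m' - 1) := by
      field_simp
    have e2 : (c : ℝ) * te = c - m' := by rw [hte]; field_simp
    rw [e, e2]
    have : 2 * (a : ℝ) + 1 ≤ 2 * c + m' := by exact_mod_cast (by omega : 2 * a + 1 ≤ 2 * c + m')
    linarith
  have haz0 : 0 ≤ (a : ℝ) - c * te - 1 := by
    have e2 : (c : ℝ) * te = c - m' := by rw [hte]; field_simp
    rw [e2]
    have : (c : ℝ) ≤ a := by exact_mod_cast hca.le
    linarith
  have esx : ((x : ℝ) + c * te + 1) * (h.s / c) = (x / c + te + 1 / c) * h.s := by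
    field_simp
  have eS := S_eq (h := h) (m := m) hc g te x
  have eSx := Sx_eq (h := h) (m := m) hc g te x
  have eB := B_eq (h := h) (m := m) hc
  have eb := b_eq (h := h) hc
  have ew1 := w1_eq (h := h) hc
  have ew0 := w0_eq (h := h) (m := m) hc
  have hW := W_le (h := h) (m := m) hc hUN
  refine
    { th0 := hth0, hth := ?_, hs0 := ?_, hs := ?_, ht := ?_, hA := H.hA, hAa := H.hAa
      hqa := ?_, hMP := H.hMP, hM1 := H.hM1, hPA := ?_, hK := H.hK, hK2 := ?_, hQp := ?_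
      hQn := ?_, hR := ?_, hN := K.N0, hU := K.U0, hN1 := ?_, hN2 := ?_, hU1 := ?_, hU2 := ?_
      hG0 := ?_, hG := ?_, hRed := ?_, hF := ?_ }
  · -- hth
    have e := K.hth
    rw [← hg] at e
    show ((c : ℝ) - 1) * ((1 - p) * p ^ c) + Kc p c m'
      + ((2 * (c : ℝ) - 1) * ((1 - p) * p ^ a) + MP p a m) - 1 ≤ h.th * (1 - Kc p c m')
    have k1 : ((c : ℝ) - 1) * ((1 - p) * p ^ c) ≤ g := by
      rw [hg]
      have : 0 ≤ (1 - p) * p ^ c := by positivity
      linarith
    have k2 : (2 * (c : ℝ) - 1) * ((1 - p) * p ^ a) ≤ 2 * h.al := by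
      have : 0 ≤ (1 - p) * p ^ a := by positivity
      have := H.hal
      linarith
    have := H.hMP
    have := H.hK
    linarith
  · -- hs0
    have e := K.hs0
    rw [← hg] at e
    show 0 < 1 - ((c - m' : ℕ) : ℝ) * ((1 - p) * p ^ c) - h.th * Kc p c m'
    rw [hz, hA0g]
    have : c * te * (g / c) = te * g := by field_simp
    rw [this]
    linarith
  · -- hs
    have e := K.hs
    rw [← hg] at e
    show (1 - p) * p ^ c ≤ h.s / c * (1 - ((c - m' : ℕ) : ℝ) * ((1 - p) * p ^ c) - h.th * Kc p c m')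
    rw [hz, hA0g]
    have k1 : c * te * (g / c) = te * g := by field_simp
    rw [k1, div_mul_eq_mul_div]
    refine div_le_div_of_nonneg_right (e.trans ?_) hc.le
    exact mul_le_mul_of_nonneg_left (by linarith) s0
  · -- ht
    show h.th * (h.s / c) ≤ h.t / c
    rw [← mul_div_assoc]
    exact div_le_div_of_nonneg_right K.ht hc.le
  · -- hqa
    show (1 - p) * p ^ a ≤ h.al / c
    rw [le_div_iff₀ hc]
    have := H.hal
    linarith
  · have := H.hP
    rw [div_le_iff₀ hc] at this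
    show _ ≤ c * h.P
    linarith
  · have := H.hK2
    rw [div_le_iff₀ hc] at this
    show _ ≤ c * h.K2
    linarith
  · have := H.hQp
    rw [div_le_iff₀ hc] at this
    show _ ≤ c * h.Qp
    linarith
  · have := H.hQn
    rw [div_le_iff₀ hc] at this
    show _ ≤ c * h.Qn
    linarith
  · have := H.hR
    rw [div_le_iff₀ (by positivity)] at this
    show _ ≤ c ^ 2 * h.R
    linarith
  · -- hN1
    have e := K.hN1
    rw [← hg] at e
    rw [hz, hA0g, eb, ew1, ew0]
    refine lt_of_eq_of_lt ?_ e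
    simp only [SH.toDat]
    field_simp
  · -- hN2
    have e := K.hN2
    rw [← hg] at e
    rw [hA0g, ew1, ew0]
    refine lt_of_le_of_lt ?_ e
    simp only [SH.toDat]
    have k1 : g / c * (((a : ℝ) + m' - 1) * h.U)
        ≤ g * ((1 + 3 / 2 * (m' / c - 1 / c)) * h.U) := by
      have : g / c * (((a : ℝ) + m' - 1) * h.U)
          ≤ g / c * ((c * (1 + 3 / 2 * (m' / c - 1 / c))) * h.U) :=
        mul_le_mul_of_nonneg_left (mul_le_mul_of_nonneg_right ham K.U0.le) (by positivity)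
      refine this.trans (le_of_eq ?_)
      field_simp
    have k2 : h.w1 / c * (h.K + c * h.K2) = h.w1 * (1 / c * h.K + h.K2) := by
      field_simp
    have k3 : c * h.Qp * (h.s / c) = h.Qp * h.s := by field_simp
    have k4 : c * h.Qn * (h.t / c) = h.Qn * h.t := by field_simp
    rw [k2, k3, k4]
    linarith
  · -- hU1
    have e := K.hU1
    rw [← hg] at e
    rw [hz, hA0g, eb, ew1]
    refine lt_of_le_of_lt ?_ e
    simp only [SH.toDat] at hW ⊢
    have k1 : g / c * (c * te * h.U + c * te * h.b + (c * te) ^ 2 * (h.w1 / c))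
        = g * (te * h.U + te * h.b + te ^ 2 * h.w1) := by
      field_simp
    have k3 : c * h.Qn * (h.s / c) = h.Qn * h.s := by field_simp
    have k4 : c * h.Qp * (h.t / c) = h.Qp * h.t := by field_simp
    rw [k1, k3, k4]
    have := mul_le_mul_of_nonneg_left hW hK0
    linarith
  · -- hU2
    have e := K.hU2
    rw [← hg] at e
    rw [hA0g]
    refine lt_of_le_of_lt ?_ e
    simp only [SH.toDat] at hW ⊢
    have k1 : g / c * (((a : ℝ) + m' - 1) * h.N)
        ≤ g * ((1 + 3 / 2 * (m' / c - 1 / c)) * h.N) := by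
      have : g / c * (((a : ℝ) + m' - 1) * h.N)
          ≤ g / c * ((c * (1 + 3 / 2 * (m' / c - 1 / c))) * h.N) :=
        mul_le_mul_of_nonneg_left (mul_le_mul_of_nonneg_right ham K.N0.le) (by positivity)
      refine this.trans (le_of_eq ?_)
      field_simp
    have k3 : c * h.Qn * (h.s / c) = h.Qn * h.s := by field_simp
    have k4 : c * h.Qp * (h.t / c) = h.Qp * h.t := by field_simp
    rw [k3, k4]
    have := mul_le_mul_of_nonneg_left hW hK0
    linarith
  · -- hG0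
    rw [hz]
    show ((x : ℝ) + c * te + 1) * (h.s / c) < 1
    rw [esx]
    exact K.hG0
  · -- hG
    have e := K.hG
    rw [← hg] at e
    rw [hz, hA0g, eS]
    show _ ≤ (c * te + 1) * (1 - ((x : ℝ) + c * te + 1) * (h.s / c))
    rw [esx]
    have := mul_le_mul_of_nonneg_left e hc.le
    refine this.trans (le_of_eq ?_)
    field_simp
  · -- hRed
    have e := K.hRed
    rw [← hg] at e
    rw [hz, hA0g, eS, eB]
    show h.B (m / c) (1 / c) + g / c * (((a : ℝ) - c * te - 1) * h.U)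
      + (g / c + h.K * (h.t / c)) * (c * h.S g te (1 / c) (x / c) (m / c)
        / (1 - ((x : ℝ) + c * te + 1) * (h.s / c)))
      ≤ 1 - (c * te + 1) * (h.s / c)
        - ((a : ℝ) - c * te - 1) * (g / c + h.K * (h.t / c))
    rw [esx]
    obtain ⟨Q, hQ⟩ : ∃ Q : ℝ, Q = 1 - (x / c + te + 1 / c) * h.s := ⟨_, rfl⟩
    rw [← hQ] at e ⊢
    have k1 : (g / c + h.K * (h.t / c)) * (c * h.S g te (1 / c) (x / c) (m / c) / Q)
        = (g + h.K * h.t) * (h.S g te (1 / c) (x / c) (m / c) / Q) := by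
      field_simp
    have k2 : (c * te + 1) * (h.s / c) = (te + 1 / c) * h.s := by field_simp
    have k3 : g / c * (((a : ℝ) - c * te - 1) * h.U)
        ≤ g * (3 / 2 * (m' / c - 1 / c)) * h.U := by
      have : g / c * (((a : ℝ) - c * te - 1) * h.U)
          ≤ g / c * ((c * (3 / 2 * (m' / c - 1 / c))) * h.U) :=
        mul_le_mul_of_nonneg_left (mul_le_mul_of_nonneg_right haz K.U0.le) (by positivity)
      refine this.trans (le_of_eq ?_)
      field_simp
    have k4 : ((a : ℝ) - c * te - 1) * (g / c + h.K * (h.t / c))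
        ≤ 3 / 2 * (m' / c - 1 / c) * (g + h.K * h.t) := by
      have k0 : 0 ≤ g / c + h.K * (h.t / c) := by positivity
      refine (mul_le_mul_of_nonneg_right haz k0).trans (le_of_eq ?_)
      field_simp
    rw [k1, k2]
    linarith
  · -- hF
    have e := K.hF
    rw [← hg] at e
    have hF : (h.toDat c).Fin p m c m' ((c - m' : ℕ) : ℝ) x = c * (
        (1 - x / c * h.s)
        * ((te + 1 / c) - h.S g te (1 / c) (x / c) (m / c) / (1 - (x / c + te + 1 / c) * h.s))
      - (p ^ c * (1 + (te + 1 / c - x / c) * h.s) + h.K * h.t / (c * (1 - p)))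
        * ((m' / c - 1 / c) + h.S g te (1 / c) (x / c) (m / c)
          / (1 - (x / c + te + 1 / c) * h.s))
      + h.Sx g te (1 / c) (x / c) (m / c)
      - p ^ c * (te + 1 / c - x / c) * (h.N + h.b + (te + 1 / c - x / c) * (h.al * h.U))
      - h.R * h.s
      - (h.K * (h.U + h.w0 (m / c) (1 / c))
        + h.w1 * ((2 * (te + 1 / c - x / c) + 1 / c) * h.K + h.K2)) / (c * (1 - p))) := by
      unfold HiDat.Fin
      rw [hA0g, hz, eS, eSx, eb, ew1, ew0]
      simp only [SH.toDat]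
      rw [esx]
      obtain ⟨Q, hQ⟩ : ∃ Q : ℝ, Q = 1 - (x / c + te + 1 / c) * h.s := ⟨_, rfl⟩
      rw [← hQ]
      obtain ⟨T, hT⟩ : ∃ T : ℝ, T = h.S g te (1 / c) (x / c) (m / c) / Q := ⟨_, rfl⟩
      have eT : c * h.S g te (1 / c) (x / c) (m / c) / Q = c * T := by
        rw [hT]; ring
      rw [eT, ← hT]
      obtain ⟨V, hV⟩ : ∃ V : ℝ, V = h.Sx g te (1 / c) (x / c) (m / c) := ⟨_, rfl⟩
      rw [← hV]
      obtain ⟨w, hw⟩ : ∃ w : ℝ, w = h.w0 (m / c) (1 / c) := ⟨_, rfl⟩
      rw [← hw]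
      obtain ⟨E, hE⟩ : ∃ E : ℝ, E = p ^ c := ⟨_, rfl⟩
      rw [← hE]
      field_simp
    rw [hF]
    exact mul_pos hc e

end Coin.WN
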