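import Mathlib

/-!
# Coin race, one-tail window: numbers for the range `q c >= p`

Everything is expressed through `Y = - c log p`, so that `p ^ c = exp (-Y)`.
-/

namespace Coin.WN

open Real Finset

/-- partial sums bound `exp` from below -/
theorem exp_lower {x b : ℝ} (hx : 0 ≤ x) (n : ℕ)
    (h : b ≤ ∑ i ∈ range n, x ^ i / (i.factorial : ℝ)) : b ≤ exp x :=
  h.trans (Real.sum_le_exp_of_nonneg hx n)

/-- upper bounds of `exp (-x)` by a rational number -/
theorem exp_neg_le {x b : ℝ} (hx : 0 ≤ x) (hb : 0 < b) (n : ℕ)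
    (h : b⁻¹ ≤ ∑ i ∈ range n, x ^ i / (i.factorial : ℝ)) : exp (-x) ≤ b := by
  rw [exp_neg]
  exact inv_le_of_inv_le₀ hb (exp_lower hx n h)

example : exp (-(13 / 10 : ℝ)) ≤ 0.27254 := by
  apply exp_neg_le (by norm_num) (by norm_num) 10
  norm_num [Finset.sum_range_succ, Nat.factorial]

theorem pow_eq {p : ℝ} (h0 : 0 < p) (n : ℕ) : p ^ n = exp (-(n * (-log p))) := by
  have : -(n * (-log p)) = n * log p := by ring
  rw [this, ← Real.log_pow, Real.exp_log (pow_pos h0 n)]

/-- `x exp (-x)` decreases on `[1, oo)` -/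
theorem mul_exp_neg_le {x y : ℝ} (hx : 1 ≤ x) (hxy : x ≤ y) : y * exp (-y) ≤ x * exp (-x) := by
  have h1 : exp (-y) = exp (-x) * exp (-(y - x)) := by rw [← exp_add]; congr 1; ring
  have h2 : exp (-(y - x)) ≤ 1 / (1 + (y - x)) := by
    rw [exp_neg, one_div]
    apply inv_anti₀ (by linarith)
    have := add_one_le_exp (y - x)
    linarith
  have h3 : 0 < exp (-x) := exp_pos _
  rw [h1]
  have h4 : y * (1 / (1 + (y - x))) ≤ x := by
    rw [mul_one_div, div_le_iff₀ (by linarith)]
    nlinarith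
  have h5 : y * exp (-(y - x)) ≤ x := by
    refine le_trans (mul_le_mul_of_nonneg_left h2 (by linarith)) h4
  nlinarith

/-- `(x - 1) exp (-x)` increases up to `2` -/
theorem sub_mul_exp_neg_le {x y : ℝ} (hx : 1 ≤ x) (hxy : x ≤ y) (hy : y ≤ 2) :
    (x - 1) * exp (-x) ≤ (y - 1) * exp (-y) := by
  have h1 : exp (-x) = exp (-y) * exp (y - x) := by rw [← exp_add]; congr 1; ring
  rcases eq_or_lt_of_le hx with h | h
  · rw [← h]
    have : 0 ≤ (y - 1) * exp (-y) := mul_nonneg (by linarith) (exp_pos _).le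
    simpa using this
  · have h2 : exp (y - x) ≤ 1 / (1 - (y - x)) := by
      have h5 := one_sub_le_exp_neg (y - x)
      rw [exp_neg] at h5
      rw [le_one_div (exp_pos _) (by linarith), one_div]
      exact h5
    have h3 : 0 < exp (-y) := exp_pos _
    rw [h1]
    have h4 : (x - 1) * (1 / (1 - (y - x))) ≤ y - 1 := by
      rw [mul_one_div, div_le_iff₀ (by linarith)]
      nlinarith
    have h5 : (x - 1) * exp (y - x) ≤ y - 1 :=
      le_trans (mul_le_mul_of_nonneg_left h2 (by linarith)) h4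
    nlinarith

end Coin.WN
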