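import Pool.Agent.Lib.Coin.HiCert
import Pool.Agent.Lib.Coin.WinNum

/-!
# Coin race, one-tail window: the certificate in the tail `-c log p ≥ 4`
-/

namespace Coin.Tail

open Finset

/-! ### numbers -/

theorem exp_neg_four : Real.exp (-4) ≤ 0.01832 := by
  apply WN.exp_neg_le (by norm_num) (by norm_num) 20
  norm_num [Finset.sum_range_succ, Nat.factorial]

theorem exp_neg_two : Real.exp (-2) ≤ 0.1354 := by
  apply WN.exp_neg_le (by norm_num) (by norm_num) 14
  norm_num [Finset.sum_range_succ, Nat.factorial]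

section Pow

variable {p : ℝ}

theorem q_le (h0 : 0 < p) : 1 - p ≤ -Real.log p := by
  have := Real.log_le_sub_one_of_pos h0
  linarith

theorem pow_le4 (h0 : 0 < p) {n : ℕ} (hn : 4 ≤ n * (-Real.log p)) : p ^ n ≤ 0.01832 := by
  rw [WN.pow_eq h0]
  exact (Real.exp_le_exp.mpr (by linarith)).trans exp_neg_four

theorem pow_le2 (h0 : 0 < p) {n : ℕ} (hn : 2 ≤ n * (-Real.log p)) : p ^ n ≤ 0.1354 := by
  rw [WN.pow_eq h0]
  exact (Real.exp_le_exp.mpr (by linarith)).trans exp_neg_two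

theorem npow_le {y : ℝ} (h0 : 0 < p) {n : ℕ} (hy : 1 ≤ y) (hn : y ≤ n * (-Real.log p)) :
    n * (1 - p) * p ^ n ≤ y * Real.exp (-y) := by
  rw [WN.pow_eq h0]
  have h2 : (n : ℝ) * (1 - p) ≤ n * (-Real.log p) :=
    mul_le_mul_of_nonneg_left (q_le h0) (Nat.cast_nonneg n)
  calc (n : ℝ) * (1 - p) * Real.exp (-(n * (-Real.log p)))
      ≤ n * (-Real.log p) * Real.exp (-(n * (-Real.log p))) :=
        mul_le_mul_of_nonneg_right h2 (Real.exp_pos _).le
    _ ≤ _ := WN.mul_exp_neg_le hy hn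

theorem npow4 (h0 : 0 < p) {n : ℕ} (hn : 4 ≤ n * (-Real.log p)) :
    n * (1 - p) * p ^ n ≤ 0.0733 := by
  refine (npow_le h0 (by norm_num) hn).trans ?_
  have := exp_neg_four
  linarith

theorem npow2 (h0 : 0 < p) {n : ℕ} (hn : 2 ≤ n * (-Real.log p)) :
    n * (1 - p) * p ^ n ≤ 0.2708 := by
  refine (npow_le h0 (by norm_num) hn).trans ?_
  have := exp_neg_two
  linarith

theorem neg_psi4 (h0 : 0 < p) {n : ℕ} (hn : 4 ≤ n * (-Real.log p)) :
    -psi p n ≤ 0.0733 := by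
  have h2 := npow4 h0 hn
  have h3 : 0 < p ^ n * p := mul_pos (pow_pos h0 n) h0
  unfold psi
  nlinarith

theorem abs_psi4 (h0 : 0 < p) (h1 : p < 1) {n : ℕ} (hn : 4 ≤ n * (-Real.log p)) :
    |psi p n| ≤ 0.0733 := by
  have h2 := neg_psi4 h0 hn
  have h3 := pow_le4 h0 hn
  have h4 : 0 ≤ (n : ℝ) * (1 - p) * p ^ n :=
    mul_nonneg (mul_nonneg (Nat.cast_nonneg n) (by linarith)) (pow_pos h0 n).le
  have h5 : p ^ n * p ≤ p ^ n := mul_le_of_le_one_right (pow_pos h0 n).le h1.le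
  rw [abs_le]
  refine ⟨by linarith, ?_⟩
  unfold psi
  nlinarith

theorem abs_psi2 (h0 : 0 < p) (h1 : p < 1) {n : ℕ} (hn : 2 ≤ n * (-Real.log p)) :
    |psi p n| ≤ 0.2708 := by
  have h2 := npow2 h0 hn
  have h3 := pow_le2 h0 hn
  have h4 : 0 ≤ (n : ℝ) * (1 - p) * p ^ n :=
    mul_nonneg (mul_nonneg (Nat.cast_nonneg n) (by linarith)) (pow_pos h0 n).le
  have h5 : p ^ n * p ≤ p ^ n := mul_le_of_le_one_right (pow_pos h0 n).le h1.le
  have h6 : 0 < p ^ n * p := mul_pos (pow_pos h0 n) h0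
  rw [abs_le]
  unfold psi
  constructor <;> nlinarith

end Pow

/-! ### the numbers of the certificate -/

noncomputable def dat (p : ℝ) (c : ℕ) : HiDat where
  s := 0.0792 / c
  t := 0
  th := 0
  A := 0.0733
  Aa := 0.0733
  qa := 0.0733 / c
  MP := 0.1354
  M1 := 0.1354
  PA := 0.1354 * c
  K := min 0.1354 (0.0677 * (c * (1 - p)))
  K2 := c * min 0.1354 (0.0677 * (c * (1 - p)))
  Qp := 0.1721 * c
  Qn := 0.1721 * c
  R := 0.034 * c ^ 2
  N := 0.15
  U := 0.075

section Dat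

variable {p : ℝ} {c : ℕ}

theorem K_le : (dat p c).K ≤ 0.1354 := min_le_left _ _

theorem K_le' : (dat p c).K ≤ 0.0677 * (c * (1 - p)) := min_le_right _ _

theorem K_nonneg (h1 : p < 1) : 0 ≤ (dat p c).K :=
  le_min (by norm_num) (mul_nonneg (by norm_num)
    (mul_nonneg (Nat.cast_nonneg c) (by linarith)))

theorem K2_eq : (dat p c).K2 = c * (dat p c).K := rfl

theorem b_eq (hc : (0 : ℝ) < c) : (dat p c).b = 0.04118868 := by
  unfold HiDat.b dat
  simp only
  field_simp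
  norm_num

theorem w1_eq (hc : (0 : ℝ) < c) : (dat p c).w1 = 0.01680036 / c := by
  unfold HiDat.w1 dat
  simp only
  field_simp
  norm_num

theorem frac_le (hc : (0 : ℝ) < c) {k : ℝ} (hk : 0 ≤ k) {x : ℝ} (hx : x ≤ c) :
    x * (k / c) ≤ k := by
  rw [mul_div_assoc', div_le_iff₀ hc]
  nlinarith

theorem frac_eq (hc : (0 : ℝ) < c) (k : ℝ) : c * (k / c) = k := by
  field_simp

variable {m : ℕ}

theorem D1_le (hc : (0 : ℝ) < c) (hm : (2 * (m : ℝ) + 1) ≤ c) :
    (dat p c).D1 m ≤ 0.04668618 := by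
  unfold HiDat.D1
  rw [b_eq hc]
  have h2 : (dat p c).qa * (dat p c).U = 0.0054975 / c := by
    unfold dat
    simp only
    field_simp
    norm_num
  rw [h2]
  have := frac_le hc (k := 0.0054975) (by norm_num) hm
  linarith

theorem D2_le (hc : (0 : ℝ) < c) (hm : (2 * (m : ℝ) + 1) ≤ c) :
    (dat p c).D2 m ≤ 0.05798904 := by
  unfold HiDat.D2
  rw [b_eq hc, w1_eq hc]
  have := frac_le hc (k := 0.01680036) (by norm_num) hm
  linarith

theorem D1_nonneg (hc : (0 : ℝ) < c) : 0 ≤ (dat p c).D1 m := by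
  unfold HiDat.D1
  rw [b_eq hc]
  have h2 : (dat p c).qa * (dat p c).U = 0.0054975 / c := by
    unfold dat
    simp only
    field_simp
    norm_num
  rw [h2]
  positivity

theorem D2_nonneg (hc : (0 : ℝ) < c) : 0 ≤ (dat p c).D2 m := by
  unfold HiDat.D2
  rw [b_eq hc, w1_eq hc]
  positivity

theorem qU_eq (hc : (0 : ℝ) < c) : (dat p c).qa * (dat p c).U = 0.0054975 / c := by
  unfold dat
  simp only
  field_simp
  norm_num

theorem base_eq (hc : (0 : ℝ) < c) :
    (dat p c).PA * ((dat p c).s + (dat p c).t) + (dat p c).M1 * ((dat p c).U + (dat p c).N)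
      = 0.04118868 := by
  unfold dat
  simp only
  field_simp
  norm_num

theorem w0_le (hc : (0 : ℝ) < c) (hm : (2 * (m : ℝ) + 1) ≤ c) :
    (dat p c).w0 m ≤ 0.04751 := by
  unfold HiDat.w0
  rw [base_eq hc]
  have h2 := D1_le (p := p) hc hm
  have h3 : (dat p c).MP = 0.1354 := rfl
  rw [h3]
  linarith

theorem w0_nonneg (hc : (0 : ℝ) < c) : 0 ≤ (dat p c).w0 m := by
  unfold HiDat.w0
  rw [base_eq hc]
  have h2 := D1_nonneg (p := p) (m := m) hc
  have h3 : (dat p c).MP = 0.1354 := rfl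
  rw [h3]
  linarith

theorem W_le (hc : (0 : ℝ) < c) (hm : (2 * (m : ℝ) + 1) ≤ c) :
    (dat p c).W m c ≤ 0.06004 := by
  unfold HiDat.W
  rw [base_eq hc, qU_eq hc]
  have h2 := D2_le (p := p) hc hm
  have h3 : (dat p c).MP = 0.1354 := rfl
  rw [h3]
  have h4 : (2 * (c : ℝ) - 1) * (0.0054975 / c) ≤ 0.010995 := by
    have := frac_eq hc 0.0054975
    have h5 : (0 : ℝ) ≤ 0.0054975 / c := by positivity
    nlinarith
  linarith

theorem Qs_eq (hc : (0 : ℝ) < c) : (dat p c).Qp * (dat p c).s = 0.01363032 := by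
  unfold dat
  simp only
  field_simp
  norm_num

theorem Qs_eq' (hc : (0 : ℝ) < c) : (dat p c).Qn * (dat p c).s = 0.01363032 := by
  unfold dat
  simp only
  field_simp
  norm_num

/-- `K (U + w0)` -/
theorem KU_le (h1 : p < 1) (hc : (0 : ℝ) < c) (hm : (2 * (m : ℝ) + 1) ≤ c) :
    (dat p c).K * ((dat p c).U + (dat p c).w0 m) ≤ 0.016589 := by
  have h2 := K_le (p := p) (c := c)
  have h3 := K_nonneg (c := c) h1
  have h4 := w0_le (p := p) hc hm
  have h5 := w0_nonneg (p := p) (m := m) hc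
  have h6 : (dat p c).U = 0.075 := rfl
  rw [h6]
  calc (dat p c).K * (0.075 + (dat p c).w0 m) ≤ 0.1354 * (0.075 + 0.04751) := by
        apply mul_le_mul h2 (by linarith) (by linarith) (by norm_num)
    _ ≤ _ := by norm_num

/-- `w1 (y K + K2)` for `y ≤ 2c` -/
theorem wK_le (h1 : p < 1) (hc : (0 : ℝ) < c) {y : ℝ} (hy : y ≤ 2 * c) :
    (dat p c).w1 * (y * (dat p c).K + (dat p c).K2) ≤ 0.0504011 * (dat p c).K := by
  rw [w1_eq hc, K2_eq]
  have h3 := K_nonneg (c := c) h1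
  have h4 : (0.01680036 / (c : ℝ)) * (y * (dat p c).K + c * (dat p c).K)
      = ((y + c) * (0.01680036 / (c : ℝ))) * (dat p c).K := by ring
  rw [h4]
  refine mul_le_mul_of_nonneg_right ?_ h3
  rw [mul_div_assoc', div_le_iff₀ hc]
  nlinarith

theorem wK_nonneg (h1 : p < 1) (hc : (0 : ℝ) < c) {y : ℝ} (hy : 0 ≤ y) :
    0 ≤ (dat p c).w1 * (y * (dat p c).K + (dat p c).K2) := by
  rw [w1_eq hc, K2_eq]
  have h3 := K_nonneg (c := c) h1
  positivity

theorem B_le (h1 : p < 1) (hc : (1 : ℝ) ≤ c) (hm : (2 * (m : ℝ) + 1) ≤ c) :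
    (dat p c).B m ≤ 0.1104 := by
  have hc0 : (0 : ℝ) < c := by linarith
  unfold HiDat.B
  rw [Qs_eq hc0]
  have h2 := KU_le h1 hc0 hm
  have h3 : (dat p c).w1 * ((dat p c).K + (dat p c).K2) ≤ 0.0504011 * (dat p c).K := by
    have := wK_le (p := p) h1 hc0 (y := 1) (by linarith)
    rwa [one_mul] at this
  have h4 := K_le (p := p) (c := c)
  have h5 : (dat p c).A = 0.0733 := rfl
  have h6 : (dat p c).t = 0 := rfl
  rw [h5, h6, mul_zero]
  linarith

theorem B_nonneg (h1 : p < 1) (hc : (0 : ℝ) < c) : 0 ≤ (dat p c).B m := by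
  unfold HiDat.B
  rw [Qs_eq hc]
  have h2 : 0 ≤ (dat p c).K * ((dat p c).U + (dat p c).w0 m) := by
    have h3 := K_nonneg (c := c) h1
    have h5 := w0_nonneg (p := p) (m := m) hc
    have h6 : (dat p c).U = 0.075 := rfl
    rw [h6]
    positivity
  have h3 : 0 ≤ (dat p c).w1 * ((dat p c).K + (dat p c).K2) := by
    have := wK_nonneg (p := p) h1 hc (y := 1) (by norm_num)
    rwa [one_mul] at this
  have h5 : (dat p c).A = 0.0733 := rfl
  have h6 : (dat p c).t = 0 := rfl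
  rw [h5, h6, mul_zero]
  linarith

theorem C_le (h1 : p < 1) (hc : (0 : ℝ) < c) {A0 z : ℝ} (hA0 : c * A0 ≤ 0.0733)
    (hz : 0 ≤ z) (hzc : z ≤ c) : c * (dat p c).C A0 z ≤ 0.0248 := by
  unfold HiDat.C
  rw [b_eq hc, w1_eq hc, qU_eq hc]
  have h2 := K_le (p := p) (c := c)
  have h3 := K_nonneg (c := c) h1
  have h5 : (dat p c).A = 0.0733 := rfl
  have h6 : (dat p c).N = 0.15 := rfl
  have h7 : (dat p c).s = 0.0792 / c := rfl
  rw [h5, h6, h7]
  have h8 := frac_le hc (k := 0.0054975) (by norm_num) hzc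
  have h9 : 0 ≤ z * (0.0054975 / (c : ℝ)) := by positivity
  have e1 : (c : ℝ) * (0.0733 * (0.0792 / c) + A0 * (0.15 + 0.04118868 + z * (0.0054975 / c))
        + 2 * (dat p c).K * (0.01680036 / c))
      = 0.0733 * (c * (0.0792 / c)) + (c * A0) * (0.15 + 0.04118868 + z * (0.0054975 / c))
        + 2 * (dat p c).K * (c * (0.01680036 / c)) := by ring
  rw [e1, frac_eq hc, frac_eq hc]
  have h10 : (c * A0) * (0.15 + 0.04118868 + z * (0.0054975 / c))
      ≤ 0.0733 * (0.15 + 0.04118868 + 0.0054975) := by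
    apply mul_le_mul hA0 (by linarith) (by linarith) (by norm_num)
  linarith

theorem C_nonneg (h1 : p < 1) (hc : (0 : ℝ) < c) {A0 z : ℝ} (hA : 0 ≤ A0)
    (hz : 0 ≤ z) : 0 ≤ (dat p c).C A0 z := by
  unfold HiDat.C
  rw [b_eq hc, w1_eq hc, qU_eq hc]
  have h3 := K_nonneg (c := c) h1
  have h5 : (dat p c).A = 0.0733 := rfl
  have h6 : (dat p c).N = 0.15 := rfl
  have h7 : (dat p c).s = 0.0792 / c := rfl
  rw [h5, h6, h7]
  positivity

/-- closed form of `S` -/
theorem S_eq (d : HiDat) (m : ℕ) (A0 z x : ℝ) : d.S m A0 z x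
    = (x + z + 1) * d.B m + d.C A0 z * (z * (z + 1) / 2) + A0 * d.U * (x * (x + 1) / 2) := by
  unfold HiDat.S HiDat.Sx
  ring

theorem S_le (h1 : p < 1) (hc : (1 : ℝ) ≤ c) (hm : (2 * (m : ℝ) + 1) ≤ c) {A0 z x : ℝ}
    (hA : 0 ≤ A0) (hA0 : c * A0 ≤ 0.0733) (hz : 0 ≤ z) (hzc : z ≤ c) (hx : 0 ≤ x)
    (hxz : 2 * x ≤ z) : (dat p c).S m A0 z x ≤ 0.18 * (z + 1) := by
  have hc0 : (0 : ℝ) < c := by linarith
  rw [S_eq]
  have h2 := B_le h1 hc hm
  have h3 := B_nonneg (p := p) (m := m) h1 hc0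
  have h4 := C_le h1 hc0 hA0 hz hzc
  have h5 := C_nonneg h1 hc0 hA hz
  have h6 : (dat p c).U = 0.075 := rfl
  rw [h6]
  have h7 : (x + z + 1) * (dat p c).B m ≤ (1.5 * (z + 1)) * 0.1104 := by
    apply mul_le_mul (by linarith) h2 h3 (by linarith)
  have h8 : (dat p c).C A0 z * z ≤ 0.0248 := by
    calc (dat p c).C A0 z * z ≤ (dat p c).C A0 z * c := mul_le_mul_of_nonneg_left hzc h5
      _ ≤ 0.0248 := by linarith
  have h9 : (dat p c).C A0 z * (z * (z + 1) / 2) ≤ 0.0124 * (z + 1) := by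
    have : (dat p c).C A0 z * (z * (z + 1) / 2) = ((dat p c).C A0 z * z) * ((z + 1) / 2) := by ring
    rw [this]
    have := mul_le_mul_of_nonneg_right h8 (by linarith : (0 : ℝ) ≤ (z + 1) / 2)
    linarith
  have h10 : A0 * x ≤ 0.0733 := by
    calc A0 * x ≤ A0 * c := mul_le_mul_of_nonneg_left (by linarith) hA
      _ ≤ _ := by linarith
  have h11 : A0 * 0.075 * (x * (x + 1) / 2) ≤ 0.002 * (z + 1) := by
    have : A0 * 0.075 * (x * (x + 1) / 2) = (A0 * x) * ((x + 1) * 0.0375) := by ring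
    rw [this]
    have := mul_le_mul_of_nonneg_right h10 (by linarith : (0 : ℝ) ≤ (x + 1) * 0.0375)
    nlinarith
  linarith

end Dat

/-! ### the certificate -/

theorem hiOKx_tail {p : ℝ} {a m c m' x : ℕ} (h0 : 0 < p) (h1 : p < 1)
    (hY : 4 ≤ (c : ℝ) * (-Real.log p)) (h2 : 2 * m' ≤ c) (hca : c < a)
    (hw : 2 * (a - c) < m' - m) (hx1 : 1 ≤ x) (hx : x ≤ a - c) :
    HiOKx p a m c m' x (dat p c) := by
  -- the natural numbers
  have hq : 0 < 1 - p := by linarith
  set L : ℝ := -Real.log p with hL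
  have hL0 : 0 < L := by
    have := Real.log_neg h0 h1
    rw [hL]; linarith
  have hc6 : (6 : ℝ) ≤ c := by
    have : 6 ≤ c := by omega
    exact_mod_cast this
  have hc0 : (0 : ℝ) < c := by linarith
  have hm1 : (2 * (m : ℝ) + 1) ≤ c := by
    have : 2 * m + 1 ≤ c := by omega
    exact_mod_cast this
  have hm'c : 2 * (m' : ℝ) ≤ c := by exact_mod_cast h2
  have hcm : m' ≤ c := by omega
  set z : ℝ := ((c - m' : ℕ) : ℝ) with hz
  have hzeq : z = c - m' := by rw [hz]; push_cast [hcm]; ring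
  have hm'3 : (3 : ℝ) ≤ m' := by
    have : 3 ≤ m' := by omega
    exact_mod_cast this
  have hz0 : 0 ≤ z := by rw [hz]; positivity
  have hzc : z + 3 ≤ c := by linarith
  have hcz : (c : ℝ) ≤ 2 * z := by linarith
  have hxR1 : (1 : ℝ) ≤ x := by exact_mod_cast hx1
  have hxm : 2 * (x : ℝ) + 1 ≤ m' := by
    have : 2 * x + 1 ≤ m' := by omega
    exact_mod_cast this
  have hax : 2 * ((a : ℝ) - c) + 1 ≤ m' := by
    have h3 : 2 * a + 1 ≤ m' + 2 * c := by omega
    have h4 : 2 * (a : ℝ) + 1 ≤ m' + 2 * c := by exact_mod_cast h3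
    linarith
  have haR : (c : ℝ) + 1 ≤ a := by
    have : c + 1 ≤ a := by omega
    exact_mod_cast this
  -- powers
  have hzY : 2 ≤ ((c - m' : ℕ) : ℝ) * L := by
    rw [← hz]
    have := mul_le_mul_of_nonneg_right hcz hL0.le
    linarith
  have haY : 4 ≤ (a : ℝ) * L := by
    have := mul_le_mul_of_nonneg_right (by linarith : (c : ℝ) ≤ a) hL0.le
    linarith
  have hu := pow_le4 h0 hY
  have hv := pow_le2 h0 hzY
  have hu0 : 0 < p ^ c := pow_pos h0 c
  have hA0 : 0 ≤ (1 - p) * p ^ c := mul_nonneg hq.le hu0.le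
  have hcA : (c : ℝ) * ((1 - p) * p ^ c) ≤ 0.0733 := by
    have := npow4 h0 hY
    linarith
  have haA : (a : ℝ) * ((1 - p) * p ^ a) ≤ 0.0733 := by
    have := npow4 h0 haY
    linarith
  have hqa0 : 0 ≤ (1 - p) * p ^ a := mul_nonneg hq.le (pow_pos h0 a).le
  have hcqa : (c : ℝ) * ((1 - p) * p ^ a) ≤ 0.0733 := by
    have := mul_le_mul_of_nonneg_right (by linarith : (c : ℝ) ≤ a) hqa0
    linarith
  have hzA : z * ((1 - p) * p ^ c) ≤ 0.0733 := by
    have := mul_le_mul_of_nonneg_right (by linarith : z ≤ (c : ℝ)) hA0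
    linarith
  have hpow2 : ∀ n : ℕ, c - m' ≤ n → 2 ≤ (n : ℝ) * L := by
    intro n hn
    have h3 : ((c - m' : ℕ) : ℝ) ≤ n := by exact_mod_cast hn
    have := mul_le_mul_of_nonneg_right h3 hL0.le
    linarith
  -- the sums
  have hMPv : MP p a m ≤ 0.1354 := by
    have h3 : p ^ (a - m) ≤ 0.1354 := pow_le2 h0 (hpow2 _ (by omega))
    have h4 : 0 < p ^ a := pow_pos h0 a
    unfold MP
    linarith
  have heps0 : ∀ i ∈ range m', 0 ≤ (1 - p) * p ^ (c - m' + i) - (1 - p) * p ^ c :=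
    fun i hi => eps_nonneg h0 h1 hcm (mem_range.mp hi)
  have hKc0 := Kc_nonneg h0 h1 hcm
  have hKv : Kc p c m' ≤ 0.1354 := by
    unfold Kc
    have : 0 ≤ (1 - p) * m' * p ^ c := mul_nonneg (mul_nonneg hq.le (by positivity)) hu0.le
    linarith
  have hKq : Kc p c m' ≤ 0.0677 * (c * (1 - p)) := by
    rw [← sum_eps hcm]
    have h3 : ∀ i ∈ range m', (1 - p) * p ^ (c - m' + i) - (1 - p) * p ^ c
        ≤ 0.1354 * (1 - p) := by
      intro i hi
      have h4 : p ^ (c - m' + i) ≤ 0.1354 := pow_le2 h0 (hpow2 _ (by omega))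
      have h5 := mul_le_mul_of_nonneg_left h4 hq.le
      linarith
    refine (sum_le_sum h3).trans ?_
    rw [sum_const, card_range, nsmul_eq_mul]
    have := mul_le_mul_of_nonneg_right hm'c hq.le
    linarith
  have hKd : Kc p c m' ≤ (dat p c).K := le_min hKv hKq
  have hpsic : |psi p c| ≤ 0.0733 := abs_psi4 h0 h1 hY
  have hpsid : ∀ i ∈ range m', |psi p (c - m' + i) - psi p c| ≤ 0.3442 := by
    intro i hi
    have h3 : |psi p (c - m' + i)| ≤ 0.2708 := abs_psi2 h0 h1 (hpow2 _ (by omega))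
    have h4 := abs_sub (psi p (c - m' + i)) (psi p c)
    linarith
  have hQ : ∀ f : ℕ → ℝ, (∀ i ∈ range m', f i ≤ 0.3442) → ∑ i ∈ range m', f i ≤ 0.1721 * c := by
    intro f hf
    refine (sum_le_sum hf).trans ?_
    rw [sum_const, card_range, nsmul_eq_mul]
    linarith
  have hSle : (dat p c).S m ((1 - p) * p ^ c) z x ≤ 0.18 * (z + 1) :=
    S_le h1 (by linarith) hm1 hA0 hcA hz0 (by linarith) (by linarith) (by linarith)
  have hG0v : (x + z + 1) * (dat p c).s ≤ 0.0792 := by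
    have : (dat p c).s = 0.0792 / c := rfl
    rw [this]
    exact frac_le hc0 (by norm_num) (by linarith)
  have hs_eq : (dat p c).s = 0.0792 / c := rfl
  have hG0p : 0 < 1 - (x + z + 1) * (dat p c).s := by linarith
  have hG0z : (z + 1) * ((x + z + 1) * (dat p c).s) ≤ (z + 1) * 0.0792 :=
    mul_le_mul_of_nonneg_left hG0v (by linarith)
  have hSG : (dat p c).S m ((1 - p) * p ^ c) z x / (1 - (x + z + 1) * (dat p c).s)
      ≤ 0.196 * (z + 1) := by
    rw [div_le_iff₀ hG0p]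
    linarith
  have hKp : ∀ y : ℝ, 0 ≤ y → y * (dat p c).K / (1 - p) ≤ 0.0677 * y * c := by
    intro y hy
    rw [div_le_iff₀ hq]
    have := mul_le_mul_of_nonneg_left (K_le' (p := p) (c := c)) hy
    linarith
  have hB := B_le (m := m) h1 (by linarith : (1 : ℝ) ≤ c) hm1
  have hB0 := B_nonneg (m := m) h1 hc0
  have hC0 := C_nonneg h1 hc0 hA0 hz0
  have hN : (dat p c).N = 0.15 := rfl
  have hU : (dat p c).U = 0.075 := rfl
  have hA : (dat p c).A = 0.0733 := rfl
  have ht : (dat p c).t = 0 := rfl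
  have hKU := KU_le (m := m) h1 hc0 hm1
  have hKv2 := K_le (p := p) (c := c)
  have hKv0 := K_nonneg (c := c) h1
  have hW := W_le (p := p) (m := m) hc0 hm1
  have hKN : (dat p c).K * ((dat p c).N + (dat p c).W m c) ≤ 0.02844 := by
    rw [hN]
    calc (dat p c).K * (0.15 + (dat p c).W m c) ≤ (dat p c).K * 0.21004 :=
          mul_le_mul_of_nonneg_left (by linarith) hKv0
      _ ≤ 0.02844 := by linarith
  have hfz : z * (0.0054975 / (c : ℝ)) ≤ 0.0054975 := frac_le hc0 (by norm_num) (by linarith)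
  have hfw : z * (0.01680036 / (c : ℝ)) ≤ 0.01680036 := frac_le hc0 (by norm_num) (by linarith)
  have hfz0 : 0 ≤ z * (0.0054975 / (c : ℝ)) := by positivity
  have hfw0 : 0 ≤ z * (0.01680036 / (c : ℝ)) := by positivity
  have hfs : z * (0.0792 / (c : ℝ)) ≤ 0.0792 := frac_le hc0 (by norm_num) (by linarith)
  have hzA0 : 0 ≤ z * ((1 - p) * p ^ c) := mul_nonneg hz0 hA0
  have ham : (a : ℝ) + m' - 1 ≤ 1.75 * c := by linarith
  have hAam : (1 - p) * p ^ c * ((a : ℝ) + m' - 1) ≤ 0.128275 := by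
    have h3 := mul_le_mul_of_nonneg_left ham hA0
    linarith
  refine ⟨le_rfl, ?_, ?_, ?_, ?_, ?_, ?_, ?_, hMPv, ?_, ?_, hKd, ?_, ?_, ?_, ?_, ?_, ?_, ?_, ?_,
    ?_, ?_, ?_, ?_, ?_, ?_⟩
  · -- hth
    show ((c : ℝ) - 1) * ((1 - p) * p ^ c) + Kc p c m'
      + ((2 * (c : ℝ) - 1) * ((1 - p) * p ^ a) + MP p a m) - 1 ≤ 0 * (1 - Kc p c m')
    linarith
  · show 0 < 1 - z * ((1 - p) * p ^ c) - 0 * Kc p c m'
    linarith
  · show (1 - p) * p ^ c ≤ 0.0792 / c * (1 - z * ((1 - p) * p ^ c) - 0 * Kc p c m')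
    rw [div_mul_eq_mul_div, le_div_iff₀ hc0]
    linarith
  · show (0 : ℝ) * (dat p c).s ≤ 0
    linarith
  · show -psi p c ≤ 0.0733
    exact neg_psi4 h0 hY
  · show -psi p a ≤ 0.0733
    exact neg_psi4 h0 haY
  · show (1 - p) * p ^ a ≤ 0.0733 / c
    rw [le_div_iff₀ hc0]
    linarith
  · -- hM1
    show (1 - p) * p ^ a * ∑ j ∈ Icc 1 m, (1 / p ^ j - 1) ≤ 0.1354
    rw [← sum_inv_eq h0 (by omega : m ≤ a)] at hMPv
    refine le_trans (mul_le_mul_of_nonneg_left ?_ hqa0) hMPv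
    exact sum_le_sum (fun j _ => by linarith)
  · -- hPA
    show ∑ j ∈ Icc 1 m, |psi p (a - j)| ≤ 0.1354 * c
    have h3 : ∀ j ∈ Icc 1 m, |psi p (a - j)| ≤ 0.2708 := by
      intro j hj
      rw [mem_Icc] at hj
      exact abs_psi2 h0 h1 (hpow2 _ (by omega))
    refine (sum_le_sum h3).trans ?_
    rw [sum_const, Nat.card_Icc, nsmul_eq_mul]
    push_cast
    linarith
  · -- hK2
    rw [K2_eq]
    have h3 : ∀ i ∈ range m', 2 * (i : ℝ) * ((1 - p) * p ^ (c - m' + i) - (1 - p) * p ^ c)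
        ≤ c * ((1 - p) * p ^ (c - m' + i) - (1 - p) * p ^ c) := by
      intro i hi
      refine mul_le_mul_of_nonneg_right ?_ (heps0 i hi)
      have : (i : ℝ) ≤ m' := by exact_mod_cast (mem_range.mp hi).le
      linarith
    refine (sum_le_sum h3).trans ?_
    rw [← mul_sum, sum_eps hcm]
    exact mul_le_mul_of_nonneg_left hKd hc0.le
  · refine hQ _ (fun i hi => ?_)
    exact max_le ((le_abs_self _).trans (hpsid i hi)) (by norm_num)
  · refine hQ _ (fun i hi => ?_)
    exact max_le ((neg_le_abs _).trans (hpsid i hi)) (by norm_num)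
  · -- hR
    show R1 p c m' ≤ 0.034 * (c : ℝ) ^ 2
    unfold R1
    have h3 : ∀ i ∈ range m', ((m' : ℝ) - i) * p ^ (c - m' + i) ≤ m' * 0.1354 := by
      intro i hi
      have h4 : p ^ (c - m' + i) ≤ 0.1354 := pow_le2 h0 (hpow2 _ (by omega))
      have h5 : 0 < p ^ (c - m' + i) := pow_pos h0 _
      have h6 : (i : ℝ) ≤ m' := by exact_mod_cast (mem_range.mp hi).le
      have h7 : (0 : ℝ) ≤ i := Nat.cast_nonneg i
      exact mul_le_mul (by linarith) h4 h5.le (by linarith)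
    refine (sum_le_sum h3).trans ?_
    rw [sum_const, card_range, nsmul_eq_mul]
    have h8 : (m' : ℝ) * m' ≤ (c / 2) * (c / 2) :=
      mul_le_mul (by linarith) (by linarith) (by linarith) (by linarith)
    have h9 : (0 : ℝ) ≤ (c : ℝ) ^ 2 := sq_nonneg _
    linarith
  · rw [hN]; norm_num
  · rw [hU]; norm_num
  · -- hN1
    rw [ht, hA, hN, w1_eq hc0, b_eq hc0, qU_eq hc0, Qs_eq hc0, hs_eq]
    rw [← w1_eq (p := p) hc0]
    have h3 := wK_le (p := p) h1 hc0 (y := 2 * z + 1) (by linarith)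
    have h4 : (1 - p) * p ^ c * (z * 0.15 + z * 0.04118868 + z ^ 2 * (0.0054975 / (c : ℝ)))
        = z * ((1 - p) * p ^ c) * (0.15 + 0.04118868 + z * (0.0054975 / (c : ℝ))) := by ring
    rw [h4]
    have h5 : z * ((1 - p) * p ^ c) * (0.15 + 0.04118868 + z * (0.0054975 / (c : ℝ)))
        ≤ 0.0733 * (0.15 + 0.04118868 + 0.0054975) :=
      mul_le_mul hzA (by linarith) (by linarith) (by norm_num)
    rw [mul_zero]
    linarith
  · -- hN2
    rw [ht, hA, hN, Qs_eq hc0]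
    have h3 : (dat p c).w1 * ((dat p c).K + (dat p c).K2) ≤ 0.0504011 * (dat p c).K := by
      have := wK_le (p := p) h1 hc0 (y := 1) (by linarith)
      rwa [one_mul] at this
    rw [mul_zero, hU]
    rw [hU] at hKU
    linarith
  · -- hU1
    rw [ht, b_eq hc0, w1_eq hc0, Qs_eq' hc0, hU]
    have h4 : (1 - p) * p ^ c * (z * 0.075 + z * 0.04118868 + z ^ 2 * (0.01680036 / (c : ℝ)))
        = z * ((1 - p) * p ^ c) * (0.075 + 0.04118868 + z * (0.01680036 / (c : ℝ))) := by ring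
    rw [h4]
    have h5 : z * ((1 - p) * p ^ c) * (0.075 + 0.04118868 + z * (0.01680036 / (c : ℝ)))
        ≤ 0.0733 * (0.075 + 0.04118868 + 0.01680036) :=
      mul_le_mul hzA (by linarith) (by linarith) (by norm_num)
    rw [mul_zero]
    linarith
  · -- hU2
    rw [ht, Qs_eq' hc0, hU, mul_zero]
    rw [hN] at hKN ⊢
    linarith
  · linarith
  · -- hG
    linarith
  · -- hRed
    rw [ht, mul_zero, add_zero, hU]
    have h3 : (1 - p) * p ^ c * ((a : ℝ) - z - 1) ≤ 0.0733 := by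
      have := mul_le_mul_of_nonneg_left (by linarith : (a : ℝ) - z - 1 ≤ c) hA0
      linarith
    have h4 : (1 - p) * p ^ c * ((dat p c).S m ((1 - p) * p ^ c) z x
        / (1 - (x + z + 1) * (dat p c).s)) ≤ 0.0733 := by
      have h5 := mul_le_mul_of_nonneg_left (hSG.trans (by linarith :
        (0.196 : ℝ) * (z + 1) ≤ c)) hA0
      linarith
    have h5 : (z + 1) * (dat p c).s ≤ 0.0792 := by
      rw [hs_eq]
      exact frac_le hc0 (by norm_num) (by linarith)
    linarith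
  · -- hF
    unfold HiDat.Fin
    have hSx : 0 ≤ (dat p c).Sx m ((1 - p) * p ^ c) z x := by
      unfold HiDat.Sx
      have h3 : (0 : ℝ) ≤ x * (z + 1) - x * (x + 1) / 2 := by
        have := mul_nonneg (by linarith : (0 : ℝ) ≤ x)
          (by linarith : (0 : ℝ) ≤ (z + 1) - (x + 1) / 2)
        linarith
      have h4 := mul_nonneg hC0 h3
      have h5 := mul_nonneg (by linarith : (0 : ℝ) ≤ x) hB0
      linarith
    set SG : ℝ := (dat p c).S m ((1 - p) * p ^ c) z x / (1 - (x + z + 1) * (dat p c).s) with hSGd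
    rw [ht, mul_zero, zero_div, add_zero, b_eq hc0, qU_eq hc0, hN]
    have hxs : (x : ℝ) * (dat p c).s ≤ 0.0198 := by
      rw [hs_eq, mul_div_assoc', div_le_iff₀ hc0]
      linarith
    have hxs0 : 0 ≤ (x : ℝ) * (dat p c).s := by
      rw [hs_eq]; positivity
    have k1 : 0.9802 * (0.804 * (z + 1)) ≤ (1 - x * (dat p c).s) * (z + 1 - SG) :=
      mul_le_mul (by linarith) (by linarith) (by linarith) (by linarith)
    have k2 : p ^ c * (1 + (z + 1 - x) * (dat p c).s) * ((m' : ℝ) - 1 + SG)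
        ≤ 0.0198 * (1.196 * (z + 1)) := by
      have h3 : (z + 1 - x) * (dat p c).s ≤ 0.0792 := by
        rw [hs_eq]
        exact frac_le hc0 (by norm_num) (by linarith)
      have h4 : 0 ≤ (z + 1 - x) * (dat p c).s := by
        rw [hs_eq]
        exact mul_nonneg (by linarith) (by positivity)
      have h5 : p ^ c * (1 + (z + 1 - x) * (dat p c).s) ≤ 0.01832 * 1.0792 :=
        mul_le_mul hu (by linarith) (by linarith) (by norm_num)
      have h6 : 0 ≤ p ^ c * (1 + (z + 1 - x) * (dat p c).s) :=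
        mul_nonneg hu0.le (by linarith)
      have hSG0 : 0 ≤ SG := by
        rw [hSGd]
        refine div_nonneg ?_ hG0p.le
        rw [S_eq]
        have e1 := mul_nonneg (by linarith : (0 : ℝ) ≤ x + z + 1) hB0
        have e2 := mul_nonneg hC0 (by positivity : (0 : ℝ) ≤ z * (z + 1) / 2)
        have e3 : 0 ≤ (1 - p) * p ^ c * (dat p c).U * ((x : ℝ) * (x + 1) / 2) := by
          rw [hU]; positivity
        linarith
      calc p ^ c * (1 + (z + 1 - x) * (dat p c).s) * ((m' : ℝ) - 1 + SG)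
          ≤ (0.01832 * 1.0792) * (1.196 * (z + 1)) :=
            mul_le_mul h5 (by linarith) (by linarith) (by norm_num)
        _ ≤ _ := by
            refine mul_le_mul_of_nonneg_right (by norm_num) (by linarith)
    have k3 : p ^ c * (z + 1 - x) * (0.15 + 0.04118868 + (z + 1 - x) * (0.0054975 / c))
        ≤ 0.01832 * (z + 1) * 0.19668618 := by
      have h3 : (z + 1 - x) * (0.0054975 / (c : ℝ)) ≤ 0.0054975 :=
        frac_le hc0 (by norm_num) (by linarith)
      have h4 : 0 ≤ (z + 1 - x) * (0.0054975 / (c : ℝ)) :=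
        mul_nonneg (by linarith) (by positivity)
      have h5 : p ^ c * (z + 1 - x) ≤ 0.01832 * (z + 1) :=
        mul_le_mul hu (by linarith) (by linarith) (by norm_num)
      exact mul_le_mul h5 (by linarith) (by linarith) (by positivity)
    have k4 : (dat p c).R * (dat p c).s ≤ 0.0054 * z := by
      have : (dat p c).R = 0.034 * (c : ℝ) ^ 2 := rfl
      rw [this, hs_eq]
      have e : 0.034 * (c : ℝ) ^ 2 * (0.0792 / c) = 0.0026928 * c := by
        field_simp
        norm_num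
      rw [e]
      linarith
    have k5 : ((dat p c).K * ((dat p c).U + (dat p c).w0 m)
        + (dat p c).w1 * ((2 * (z + 1 - x) + 1) * (dat p c).K + (dat p c).K2)) / (1 - p)
        ≤ 0.025 * z := by
      have h3 := wK_le (p := p) h1 hc0 (y := 2 * (z + 1 - x) + 1) (by linarith)
      have h4 : (dat p c).K * ((dat p c).U + (dat p c).w0 m) ≤ 0.12251 * (dat p c).K := by
        rw [hU]
        have h5 := w0_le (p := p) (m := m) hc0 hm1
        have h6 := mul_le_mul_of_nonneg_left h5 hKv0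
        linarith
      have h5 : ((dat p c).K * ((dat p c).U + (dat p c).w0 m)
        + (dat p c).w1 * ((2 * (z + 1 - x) + 1) * (dat p c).K + (dat p c).K2)) / (1 - p)
          ≤ (0.1729111 * (dat p c).K) / (1 - p) :=
        div_le_div_of_nonneg_right (by linarith) hq.le
      have h6 := hKp 0.1729111 (by norm_num)
      linarith
    linarith

end Coin.Tail
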