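import Pool.Agent.Lib.Coin.WinHiChk

/-!
# Coin race, one-tail window, `c q ≥ p`: the certificate trees, checked by the kernel
-/

namespace Coin.WN

def t0 : T :=
  .s0 500 .p (.s1 250 (.s1 125 (.s2 83 (.l 101 58) .p) (.s2 83 (.s0 750 .p (.l 105 63)) (.l 140
  76))) (.s0 750 .p (.s2 83 (.s1 375 (.s0 875 .p (.s2 42 (.l 103 79) (.l 104 73))) (.s0 875 .p
  (.s2 42 (.s1 438 (.s3 110 (.l 121 105) (.l 92 71)) (.s0 938 .p (.s3 125 (.s2 21 (.s1 469 (.l 117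
  105) (.s0 969 .p (.s3 63 (.l 144 132) (.l 113 98)))) (.s1 469 (.l 115 99) (.l 148 132))) (.s2 21
  (.l 110 90) (.l 119 96))))) (.s1 438 (.l 120 95) (.s0 938 .p (.s3 136 (.s2 63 (.l 150 128) (.l
  148 122)) (.l 137 108))))))) (.s1 375 (.s2 125 (.l 138 93) (.l 128 81)) (.s0 875 .p (.s2 125
  (.s1 438 (.l 128 95) (.s2 104 (.s0 938 .p (.l 151 121)) (.s1 469 (.l 140 105) (.l 167 132))))
  (.s1 438 (.l 138 96) (.s2 146 (.s1 469 (.l 143 104) (.l 171 131)) (.l 178 133)))))))))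

def t1 : T :=
  .s1 250 (.s1 125 (.s2 83 (.l 154 70) .p) (.s2 83 (.l 164 92) (.l 156 81))) (.s1 375 (.s2 83 (.s1
  313 (.l 158 100) (.s2 42 (.l 152 109) (.l 156 105))) (.s1 313 (.l 180 104) (.l 190 123))) (.s2
  83 (.s2 42 (.s1 438 (.s3 110 (.s0 1050 (.l 137 112) (.s2 21 (.l 154 123) (.l 152 117))) (.l 150
  111)) (.s3 125 (.s0 1050 (.s2 21 (.s1 469 (.l 151 129) (.s3 63 (.s0 1025 (.l 164 147) (.s2 11
  (.l 175 155) (.l 169 147))) (.l 156 131))) (.s1 469 (.l 147 121) (.s3 73 (.l 183 158) (.l 160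
  132)))) (.s2 21 (.s1 469 (.s3 63 (.l 183 153) (.l 158 125)) (.s3 63 (.s0 1075 (.s2 11 (.s1 485
  (.l 169 145) (.l 191 167)) (.l 187 161)) (.s2 11 (.s1 485 (.l 185 157) (.s3 32 (.l 208 180) (.l
  187 157))) (.l 204 174))) (.l 191 158))) (.s1 469 (.l 177 143) (.s3 73 (.s0 1075 (.l 192 163)
  (.l 208 175)) (.l 195 158))))) (.s0 1050 (.s2 21 (.s3 188 (.l 146 117) (.l 134 103)) (.s1 469
  (.l 123 93) (.l 148 117))) (.s2 21 (.s3 188 (.s1 469 (.l 147 111) (.l 174 138)) (.s1 469 (.l 139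
  101) (.l 164 125))) (.s1 469 (.l 154 115) (.s3 182 (.l 181 142) (.l 171 130))))))) (.s1 438 (.s3
  120 (.l 174 132) (.l 161 116)) (.s3 136 (.s0 1050 (.s2 63 (.s1 469 (.l 145 115) (.l 178 148))
  (.l 182 148)) (.s2 63 (.s1 469 (.l 175 137) (.s3 89 (.l 212 174) (.l 196 156))) (.s1 469 (.l 177
  135) (.l 210 168)))) (.s0 1050 (.s2 63 (.l 158 123) (.l 165 127)) (.s1 469 (.l 168 124) (.s2 63
  (.l 186 144) (.l 191 146))))))) (.s1 438 (.s2 125 (.s1 407 (.l 166 113) (.l 175 126)) (.l 195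
  134)) (.s2 125 (.s0 1050 (.s2 104 (.s3 146 (.l 184 146) (.l 171 130)) (.s1 469 (.l 154 113) (.l
  181 139))) (.s3 146 (.s2 104 (.s1 469 (.l 179 134) (.l 211 165)) (.s1 469 (.l 181 132) (.l 212
  162))) (.s1 469 (.l 180 130) (.s2 104 (.l 197 149) (.l 203 152))))) (.s0 1050 (.s2 146 (.l 188
  141) (.l 191 140)) (.s1 469 (.l 195 139) (.s2 146 (.l 213 160) (.l 215 158))))))))

def t2 : T :=
  .s1 250 (.s1 125 (.s2 83 (.s1 63 (.l 209 85) (.l 204 92)) .p) (.s2 83 (.s1 188 (.l 203 101) (.l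
  205 114)) (.l 205 106))) (.s1 375 (.s2 83 (.s1 313 (.s2 42 (.l 191 118) (.l 200 118)) (.s2 42
  (.s3 94 (.l 204 142) (.l 185 122)) (.s1 344 (.l 193 121) (.l 198 131)))) (.s1 313 (.l 231 133)
  (.s2 125 (.l 220 140) (.l 209 128)))) (.s2 83 (.s1 438 (.s2 42 (.s3 110 (.s0 1150 (.s1 407 (.l
  170 126) (.l 186 146)) (.s1 407 (.l 192 140) (.s2 21 (.l 196 151) (.l 193 144)))) (.s1 407 (.l
  179 124) (.s0 1150 (.l 162 117) (.l 183 131)))) (.s3 120 (.s1 407 (.l 205 144) (.l 217 162))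
  (.s1 407 (.l 193 130) (.l 203 145)))) (.s2 42 (.s3 125 (.s0 1150 (.s2 21 (.s1 469 (.s3 63 (.l
  212 175) (.l 185 144)) (.s3 63 (.s0 1125 (.s1 485 (.l 207 174) (.s2 11 (.s3 32 (.l 225 193) (.l
  203 169)) (.l 217 183))) (.s1 485 (.l 222 185) (.s2 11 (.s3 32 (.s0 1138 (.l 226 193) (.l 232
  197)) (.l 216 179)) (.l 230 193)))) (.s0 1125 (.l 199 162) (.l 213 173)))) (.s1 469 (.l 204 163)
  (.s3 73 (.s0 1125 (.s2 32 (.l 215 179) (.l 211 173)) (.s1 485 (.l 213 172) (.l 233 193))) (.s0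
  1125 (.l 201 161) (.l 216 173))))) (.s2 21 (.s1 469 (.s3 63 (.s0 1175 (.l 214 173) (.l 225 181))
  (.l 209 161)) (.s3 63 (.s0 1175 (.s1 485 (.s2 11 (.l 227 188) (.l 220 179)) (.s2 11 (.s3 32 (.s0
  1163 (.l 240 203) (.l 246 208)) (.l 230 189)) (.l 244 204))) (.s1 485 (.s3 32 (.l 245 202) (.l
  226 181)) (.s2 11 (.s3 32 (.s0 1188 (.l 252 212) (.l 258 216)) (.l 241 197)) (.s3 37 (.l 256
  212) (.l 240 195))))) (.s0 1175 (.s1 485 (.l 205 162) (.l 223 180)) (.s1 485 (.l 216 169) (.l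
  235 189))))) (.s1 469 (.s3 73 (.l 226 178) (.l 212 161)) (.s3 73 (.s0 1175 (.s1 485 (.l 223 179)
  (.s2 32 (.l 239 197) (.l 235 191))) (.s1 485 (.l 234 187) (.s2 32 (.l 251 205) (.l 247 199))))
  (.s0 1175 (.l 228 181) (.l 239 189)))))) (.s0 1150 (.s1 469 (.s2 21 (.l 174 131) (.l 179 133))
  (.s3 188 (.s2 21 (.s0 1125 (.l 184 144) (.l 197 154)) (.l 210 164)) (.s2 21 (.l 192 146) (.l 199
  150)))) (.s1 469 (.s2 21 (.l 196 146) (.l 201 148)) (.s3 188 (.s2 21 (.s0 1175 (.l 210 163) (.l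
  221 171)) (.s0 1175 (.l 215 166) (.l 226 174))) (.s2 21 (.s0 1175 (.l 197 148) (.l 209 157)) (.l
  222 167)))))) (.s3 136 (.s0 1150 (.s1 469 (.s2 63 (.l 202 157) (.l 201 152)) (.s2 63 (.s3 89
  (.s0 1125 (.l 216 175) (.l 231 187)) (.l 226 179)) (.s0 1125 (.l 215 170) (.l 228 180)))) (.s1
  469 (.s2 63 (.l 224 172) (.l 223 168)) (.s2 63 (.s3 89 (.s0 1175 (.l 244 196) (.s1 485 (.l 231
  180) (.l 252 202))) (.s0 1175 (.l 229 179) (.l 240 187))) (.s0 1175 (.s3 100 (.l 241 190) (.l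
  230 177)) (.s3 100 (.l 252 198) (.l 241 185)))))) (.s0 1150 (.s1 469 (.l 194 143) (.s2 63 (.s3
  183 (.l 214 165) (.l 205 154)) (.s3 177 (.l 219 167) (.l 212 158)))) (.s1 469 (.l 215 157) (.s2
  63 (.s3 183 (.l 237 181) (.l 229 171)) (.s3 177 (.l 242 184) (.l 233 173)))))))) (.s1 438 (.s2
  125 (.s1 407 (.l 214 144) (.s0 1150 (.l 189 133) (.l 210 147))) (.s1 407 (.l 225 146) (.l 231
  158))) (.s2 125 (.s0 1150 (.s1 469 (.s3 138 (.l 214 159) (.l 204 147)) (.s3 146 (.s2 104 (.s0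
  1125 (.l 216 168) (.l 228 176)) (.l 238 182)) (.s2 104 (.l 223 168) (.l 228 170)))) (.s1 469
  (.s3 138 (.l 234 173) (.l 224 161)) (.s3 146 (.s2 104 (.s0 1175 (.l 239 184) (.l 250 192)) (.s0
  1175 (.l 239 180) (.l 249 187))) (.s2 104 (.s0 1175 (.l 225 167) (.l 235 174)) (.s0 1175 (.l 231
  170) (.l 241 177)))))) (.s0 1150 (.s1 469 (.l 217 155) (.s2 146 (.s0 1125 (.l 217 161) (.l 229
  170)) (.l 239 175))) (.s1 469 (.l 236 168) (.s2 146 (.s0 1175 (.l 240 178) (.l 249 184)) (.l 259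
  189))))))))

def t3 : T :=
  .s1 250 (.s1 125 (.s2 83 (.s1 63 (.l 259 104) (.l 251 111)) .p) (.s2 83 (.s1 188 (.l 247 121)
  (.s2 42 (.l 229 124) (.l 236 123))) (.l 240 122))) (.s1 375 (.s2 83 (.s1 313 (.s2 42 (.s3 78 (.l
  234 142) (.l 221 130)) (.l 240 140)) (.s2 42 (.s3 94 (.s1 344 (.l 225 144) (.l 230 156)) (.l 224
  146)) (.s1 344 (.l 231 142) (.l 235 153)))) (.s1 313 (.s2 125 (.l 249 140) .p) (.s2 125 (.s1 344
  (.l 239 142) (.l 243 152)) (.l 240 145)))) (.s2 83 (.s1 438 (.s2 42 (.s3 110 (.s0 1250 (.s1 407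
  (.l 212 152) (.s2 21 (.l 214 163) (.l 210 155))) (.s1 407 (.l 228 161) (.s2 21 (.l 227 170) (.l
  227 166)))) (.s1 407 (.l 216 147) (.s0 1250 (.l 200 142) (.l 214 151)))) (.s3 120 (.s1 407 (.l
  242 168) (.s0 1250 (.l 221 161) (.l 238 171))) (.s1 407 (.l 229 153) (.s0 1250 (.l 208 145) (.l
  224 154))))) (.s2 42 (.s3 125 (.s0 1250 (.s1 469 (.s2 21 (.s3 63 (.s0 1225 (.l 235 188) (.l 243
  193)) (.l 229 175)) (.s3 73 (.l 245 191) (.l 231 174))) (.s2 21 (.s3 63 (.s0 1225 (.s1 485 (.s3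
  32 (.l 256 210) (.l 236 188)) (.s2 11 (.s3 32 (.s0 1213 (.s1 493 (.l 250 207) (.l 262 219)) (.l
  268 223)) (.l 251 204)) (.s3 37 (.l 267 220) (.l 251 203)))) (.s1 485 (.s3 32 (.l 265 216) (.l
  246 195)) (.s2 11 (.s3 32 (.s0 1238 (.s1 493 (.l 260 214) (.l 272 226)) (.s1 493 (.l 263 215)
  (.l 276 229))) (.l 261 211)) (.s3 37 (.l 276 227) (.l 260 209))))) (.s0 1225 (.s1 485 (.l 226
  176) (.l 246 197)) (.s1 485 (.l 236 183) (.l 256 204)))) (.s3 73 (.s0 1225 (.s1 485 (.l 244 194)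
  (.s2 32 (.l 261 212) (.l 257 207))) (.s1 485 (.l 253 200) (.s2 32 (.l 270 219) (.l 266 213))))
  (.s0 1225 (.s1 485 (.l 228 175) (.l 247 195)) (.s1 485 (.l 237 181) (.l 256 201)))))) (.s1 469
  (.s2 21 (.s3 63 (.s0 1275 (.l 251 198) (.l 258 202)) (.l 244 185)) (.s3 73 (.l 261 202) (.l 245
  183))) (.s2 21 (.s3 63 (.s0 1275 (.s1 485 (.s2 11 (.l 266 215) (.l 258 205)) (.s2 11 (.s3 32
  (.s0 1263 (.s1 493 (.l 268 219) (.l 280 231)) (.s1 493 (.l 272 221) (.l 284 234))) (.l 271 218))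
  (.s3 37 (.l 284 232) (.l 269 215)))) (.s1 485 (.s2 11 (.l 273 219) (.l 266 210)) (.s2 11 (.s3 32
  (.s0 1288 (.s1 493 (.l 275 223) (.l 289 237)) (.s1 493 (.l 278 225) (.l 291 238))) (.l 278 223))
  (.s3 37 (.l 291 236) (.l 278 221))))) (.s0 1275 (.s1 485 (.l 245 189) (.l 264 209)) (.s1 485 (.l
  251 193) (.s3 94 (.l 272 214) (.l 261 202))))) (.s3 73 (.s0 1275 (.s1 485 (.l 262 206) (.s2 32
  (.l 278 224) (.l 274 218))) (.s1 485 (.l 269 211) (.s2 32 (.l 287 230) (.l 283 224)))) (.s0 1275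
  (.s1 485 (.l 245 187) (.l 264 206)) (.s1 485 (.l 252 191) (.l 272 212))))))) (.s0 1250 (.s1 469
  (.s3 180 (.l 226 168) (.l 217 157)) (.s3 188 (.s2 21 (.s0 1225 (.l 231 178) (.s1 485 (.l 222
  167) (.l 238 183))) (.s0 1225 (.l 236 181) (.l 245 187))) (.s2 21 (.s0 1225 (.l 219 164) (.l 228
  170)) (.s0 1225 (.l 225 167) (.l 234 173))))) (.s1 469 (.s3 180 (.l 241 178) (.l 232 167)) (.s3
  188 (.s2 21 (.s0 1275 (.s1 485 (.l 229 171) (.l 246 188)) (.s1 485 (.l 237 176) (.l 254 194)))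
  (.s0 1275 (.l 253 192) (.l 260 197))) (.s2 21 (.s0 1275 (.l 237 176) (.l 244 181)) (.s0 1275 (.l
  241 178) (.l 249 183))))))) (.s3 136 (.s0 1250 (.s1 469 (.s2 63 (.l 243 185) (.l 240 179)) (.s2
  63 (.s3 89 (.s0 1225 (.s1 485 (.l 241 187) (.l 262 209)) (.s1 485 (.l 251 194) (.l 271 215)))
  (.s0 1225 (.l 250 194) (.l 258 199))) (.s0 1225 (.s3 100 (.l 261 204) (.l 250 191)) (.s3 100 (.l
  269 209) (.l 258 196))))) (.s1 469 (.s2 63 (.s3 89 (.l 257 194) (.l 245 180)) (.l 254 188)) (.s2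
  63 (.s3 89 (.s0 1275 (.s1 485 (.l 257 198) (.l 280 221)) (.s1 485 (.l 265 203) (.l 286 225)))
  (.s0 1275 (.l 267 205) (.l 273 209))) (.s0 1275 (.s3 100 (.l 278 215) (.l 267 202)) (.s3 100 (.l
  284 219) (.l 272 205)))))) (.s0 1250 (.s1 469 (.s2 63 (.l 223 161) (.l 226 162)) (.s2 63 (.s3
  183 (.s0 1225 (.l 238 180) (.l 246 185)) (.s0 1225 (.l 229 169) (.l 238 175))) (.s3 177 (.s0
  1225 (.l 242 181) (.l 251 188)) (.l 253 187)))) (.s1 469 (.s2 63 (.l 236 169) (.l 239 170)) (.s2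
  63 (.s3 183 (.s0 1275 (.l 255 191) (.l 261 195)) (.s0 1275 (.l 246 181) (.l 252 184))) (.s3 177
  (.s0 1275 (.l 257 191) (.l 264 196)) (.l 266 196)))))))) (.s1 438 (.s2 125 (.s1 407 (.l 249 166)
  (.s0 1250 (.l 228 159) (.l 243 168))) (.s1 407 (.l 258 165) (.l 263 178))) (.s2 125 (.s0 1250
  (.s1 469 (.s3 138 (.s2 104 (.l 241 176) (.l 240 172)) (.l 240 171)) (.s3 146 (.s2 104 (.s0 1225
  (.s1 485 (.l 239 178) (.l 256 196)) (.s1 485 (.l 246 183) (.l 264 201))) (.s0 1225 (.l 258 194)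
  (.l 265 198))) (.s2 104 (.s0 1225 (.l 245 181) (.l 253 187)) (.s0 1225 (.l 249 183) (.l 257
  188))))) (.s1 469 (.s3 138 (.s2 104 (.l 254 184) (.l 252 179)) (.l 253 180)) (.s3 146 (.s2 104
  (.s0 1275 (.s3 115 (.l 274 208) (.l 267 199)) (.s1 485 (.l 259 191) (.l 278 210))) (.s0 1275 (.l
  273 204) (.l 279 207))) (.s2 104 (.s0 1275 (.l 260 191) (.l 265 194)) (.s0 1275 (.l 263 192) (.l
  269 196)))))) (.s0 1250 (.s1 469 (.l 251 177) (.s2 146 (.s0 1225 (.l 257 189) (.s3 156 (.l 265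
  195) (.l 259 187))) (.s0 1225 (.l 258 186) (.l 264 190)))) (.s1 469 (.l 261 183) (.s2 146 (.s0
  1275 (.s3 156 (.l 271 198) (.l 265 191)) (.s3 156 (.l 276 201) (.l 270 194))) (.s0 1275 (.l 270
  194) (.l 276 198)))))))))

def t4 : T :=
  .s1 250 (.s1 125 (.s2 83 (.s1 63 (.s2 42 (.l 277 109) .p) (.s2 42 (.l 266 115) .p)) .p) (.s2 83
  (.s1 188 (.s2 42 (.l 261 125) (.l 266 123)) (.s2 42 (.l 259 137) (.l 264 135))) (.l 262 131)))
  (.s1 375 (.s2 83 (.s1 313 (.s2 42 (.s3 78 (.l 263 156) (.l 249 144)) (.l 267 152)) (.s2 42 (.s3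
  94 (.s1 344 (.l 253 158) (.l 258 171)) (.l 251 160)) (.s1 344 (.l 256 154) (.l 260 166)))) (.s1
  313 (.s2 125 (.l 273 151) .p) (.s2 125 (.s1 344 (.l 262 153) (.l 266 164)) (.l 260 155)))) (.s2
  83 (.s1 438 (.s2 42 (.s3 110 (.s1 407 (.s0 1350 (.l 242 169) (.l 254 175)) (.s0 1350 (.s3 55 (.l
  250 186) (.l 236 170)) (.s3 55 (.l 262 193) (.l 247 175)))) (.s1 407 (.l 241 161) (.s3 165 (.l
  248 175) (.l 240 166)))) (.s3 120 (.s1 407 (.l 267 181) (.s0 1350 (.l 251 179) (.l 261 184)))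
  (.s1 407 (.l 252 165) (.l 257 178)))) (.s2 42 (.s3 125 (.s0 1350 (.s1 469 (.s3 63 (.s2 21 (.s0
  1325 (.l 263 205) (.l 269 208)) (.l 272 208)) (.s2 21 (.l 256 192) (.l 259 193))) (.s2 21 (.s3
  63 (.s0 1325 (.s1 485 (.s3 32 (.l 286 229) (.l 268 209)) (.s2 11 (.s3 32 (.s0 1313 (.s1 493 (.l
  283 228) (.l 295 241)) (.l 300 245)) (.l 286 228)) (.s3 37 (.l 297 240) (.l 283 224)))) (.s1 485
  (.s3 32 (.l 291 232) (.l 274 213)) (.s2 11 (.s3 32 (.s0 1338 (.l 303 246) (.l 304 246)) (.l 290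
  230)) (.s3 37 (.l 303 243) (.l 289 228))))) (.s0 1325 (.s1 485 (.l 258 197) (.l 278 218)) (.s1
  485 (.l 263 200) (.l 284 222)))) (.s3 73 (.s0 1325 (.s1 485 (.l 276 215) (.s2 32 (.l 292 233)
  (.l 288 227))) (.s1 485 (.l 280 217) (.s2 32 (.l 298 237) (.l 293 230)))) (.s0 1325 (.s1 485 (.l
  258 195) (.l 278 215)) (.s1 485 (.l 264 198) (.l 282 217)))))) (.s1 469 (.s3 63 (.s2 21 (.s0
  1375 (.l 272 209) (.l 275 210)) (.l 280 212)) (.s2 21 (.l 265 197) (.l 267 197))) (.s2 21 (.s3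
  63 (.s0 1375 (.s1 485 (.s2 11 (.l 288 227) (.l 282 219)) (.s2 11 (.s3 32 (.s0 1363 (.l 307 248)
  (.l 308 248)) (.l 295 233)) (.l 307 245))) (.s1 485 (.l 299 235) (.s2 11 (.s3 32 (.l 320 258)
  (.l 299 235)) (.l 311 247)))) (.s0 1375 (.s1 485 (.l 267 202) (.l 289 225)) (.s1 485 (.l 271
  204) (.l 293 226)))) (.s3 73 (.s0 1375 (.s1 485 (.l 285 220) (.s2 32 (.l 303 240) (.l 298 233)))
  (.s1 485 (.l 288 221) (.s2 32 (.l 307 242) (.l 301 234)))) (.s1 485 (.l 282 212) (.l 303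
  234)))))) (.s1 469 (.s0 1350 (.s3 180 (.l 252 184) (.l 243 173)) (.s3 180 (.l 260 188) (.l 251
  177))) (.s0 1350 (.s3 188 (.s2 21 (.s1 485 (.l 258 192) (.s0 1325 (.l 260 197) (.l 265 200)))
  (.s0 1325 (.l 266 200) (.l 271 203))) (.s2 21 (.s1 485 (.l 246 178) (.l 263 195)) (.s1 485 (.l
  249 179) (.l 266 196)))) (.s3 188 (.s2 21 (.s1 485 (.l 266 196) (.l 285 216)) (.s1 485 (.l 268
  196) (.l 288 216))) (.s2 21 (.s1 485 (.l 255 183) (.l 272 200)) (.l 277 203)))))) (.s3 136 (.s0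
  1350 (.s1 469 (.s2 63 (.s3 89 (.l 268 201) (.l 256 186)) (.l 265 194)) (.s2 63 (.s3 89 (.s0 1325
  (.s1 485 (.l 270 206) (.l 292 229)) (.s1 485 (.l 275 209) (.l 297 232))) (.s0 1325 (.l 279 213)
  (.l 284 216))) (.s0 1325 (.s3 100 (.l 289 222) (.l 278 209)) (.s3 100 (.l 294 225) (.l 282
  211))))) (.s1 469 (.s2 63 (.l 276 205) (.l 272 197)) (.s2 63 (.s3 89 (.s0 1375 (.s1 485 (.l 279
  211) (.l 302 234)) (.s1 485 (.l 282 212) (.l 305 236))) (.s1 485 (.l 280 207) (.l 300 228)))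
  (.s3 100 (.s0 1375 (.l 298 227) (.l 300 227)) (.l 301 226))))) (.s1 469 (.s0 1350 (.s2 63 (.l
  247 176) (.l 250 176)) (.l 263 186)) (.s0 1350 (.s2 63 (.s3 183 (.s1 485 (.l 262 191) (.l 279
  209)) (.l 274 201)) (.s3 177 (.l 285 212) (.l 277 203))) (.s2 63 (.s3 183 (.l 290 215) (.l 281
  205)) (.s3 177 (.l 292 215) (.l 284 206)))))))) (.s1 438 (.s2 125 (.s1 407 (.l 271 177) (.s0
  1350 (.l 255 174) (.l 264 179))) (.s1 407 (.l 277 175) (.l 283 189))) (.s2 125 (.s0 1350 (.s1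
  469 (.s3 138 (.s2 104 (.l 263 189) (.l 261 184)) (.l 262 185)) (.s3 146 (.s2 104 (.s0 1325 (.s1
  485 (.l 264 194) (.l 283 213)) (.s1 485 (.l 269 197) (.l 287 215))) (.s0 1325 (.l 283 209) (.l
  287 211))) (.s2 104 (.s1 485 (.l 266 191) (.l 283 208)) (.s1 485 (.l 269 191) (.l 287 210)))))
  (.s1 469 (.s3 138 (.l 278 199) (.l 268 187)) (.s3 146 (.s2 104 (.s1 485 (.l 286 210) (.l 306
  230)) (.l 306 226)) (.s2 104 (.s3 177 (.l 292 213) (.l 287 207)) (.l 295 214))))) (.s0 1350 (.s1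
  469 (.l 270 188) (.s2 146 (.s0 1325 (.l 281 204) (.l 285 206)) (.s1 485 (.l 275 193) (.l 292
  210)))) (.s1 469 (.l 275 190) (.s2 146 (.s1 485 (.l 282 199) (.l 299 217)) (.l 300 214))))))))

def t5 : T :=
  .s1 250 (.s1 125 (.s2 83 (.s1 63 (.l 309 118) (.l 298 126)) .p) (.s2 83 (.s1 188 (.l 293 137)
  (.s2 42 (.l 277 143) (.l 280 140))) (.l 273 133))) (.s1 375 (.s2 83 (.s1 313 (.s2 42 (.s3 78 (.l
  280 161) (.l 266 150)) (.l 282 157)) (.s3 94 (.s2 42 (.l 289 187) (.l 288 180)) (.s2 42 (.l 268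
  167) (.l 278 170)))) (.s1 313 (.l 299 163) (.s2 125 (.l 291 175) (.l 270 158)))) (.s2 83 (.s1
  438 (.s3 110 (.s2 42 (.s1 407 (.l 282 195) (.s3 55 (.l 292 215) (.l 274 195))) (.s1 407 (.l 280
  186) (.l 288 203))) (.s2 42 (.s1 407 (.l 257 168) (.l 262 181)) (.s1 407 (.l 267 172) (.l 272
  185)))) (.s2 42 (.s3 125 (.s0 1450 (.s1 469 (.s3 63 (.s2 21 (.l 294 225) (.l 285 213)) (.l 280
  207)) (.s2 21 (.s3 63 (.s0 1425 (.s1 485 (.l 301 235) (.s2 11 (.s3 32 (.l 322 258) (.l 302 236))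
  (.l 314 248))) (.s1 485 (.l 303 235) (.s2 11 (.s3 32 (.l 324 258) (.l 304 236)) (.l 316 249))))
  (.s1 485 (.l 288 217) (.s0 1425 (.l 295 227) (.l 297 227)))) (.s3 73 (.s0 1425 (.s1 485 (.l 291
  222) (.l 315 247)) (.s1 485 (.l 294 223) (.l 318 248))) (.s1 485 (.l 286 213) (.l 308 236)))))
  (.s1 469 (.s3 63 (.s2 21 (.l 295 223) (.l 288 213)) (.l 283 206)) (.s2 21 (.s3 63 (.s1 485 (.l
  319 249) (.s0 1475 (.s3 32 (.l 330 262) (.l 312 242)) (.s2 11 (.l 325 256) (.l 317 246)))) (.s1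
  485 (.l 290 216) (.l 312 239))) (.s3 73 (.s1 485 (.l 309 235) (.s0 1475 (.l 318 247) (.l 318
  245))) (.l 313 237))))) (.s1 469 (.s3 180 (.s2 21 (.l 277 199) (.l 280 200)) (.l 277 196)) (.s3
  188 (.s2 21 (.s0 1450 (.s1 485 (.l 272 198) (.l 289 216)) (.l 295 218)) (.s0 1450 (.l 296 220)
  (.l 297 218))) (.s2 21 (.s0 1450 (.l 279 203) (.l 283 204)) (.s0 1450 (.l 282 204) (.l 286
  205)))))) (.s3 136 (.s0 1450 (.s1 469 (.s2 63 (.l 280 205) (.l 275 197)) (.s2 63 (.s3 89 (.s1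
  485 (.l 299 225) (.l 323 250)) (.l 307 231)) (.s3 100 (.l 318 242) (.l 305 227)))) (.s1 469 (.s2
  63 (.l 282 204) (.l 277 196)) (.s2 63 (.s3 89 (.s1 485 (.l 301 224) (.l 324 248)) (.l 308 229))
  (.s3 100 (.l 318 239) (.l 306 225))))) (.s1 469 (.s2 63 (.l 280 198) (.l 281 197)) (.s0 1450
  (.s2 63 (.s3 183 (.l 294 216) (.l 286 206)) (.s3 177 (.l 295 215) (.l 288 207))) (.s2 63 (.l 295
  214) (.l 297 214))))))) (.s1 438 (.s2 125 (.s1 407 (.l 283 181) (.s3 130 (.l 289 196) (.l 280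
  186))) (.s1 407 (.l 287 178) (.l 292 191))) (.s2 125 (.s1 469 (.s3 138 (.s0 1450 (.l 281 199)
  (.l 283 198)) (.s2 104 (.l 283 197) (.l 286 198))) (.s3 146 (.s0 1450 (.s2 104 (.s1 485 (.l 290
  210) (.l 309 230)) (.l 308 226)) (.s2 104 (.l 313 231) (.l 308 223))) (.s0 1450 (.s2 104 (.l 296
  214) (.l 298 214)) (.s2 104 (.l 297 212) (.l 299 212))))) (.s1 469 (.s2 146 (.l 292 202) (.l 295
  201)) (.s0 1450 (.s2 146 (.l 305 220) (.l 302 214)) (.s2 146 (.l 304 216) (.l 302 212))))))))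

def t6 : T :=
  .s1 250 (.s1 125 (.s2 83 (.s1 63 (.l 316 117) (.l 305 125)) .p) (.s2 83 (.s1 188 (.l 299 136)
  (.l 297 150)) (.l 277 132))) (.s1 375 (.s2 83 (.s1 313 (.s3 78 (.l 301 170) (.l 285 157)) (.s3
  94 (.s2 42 (.l 296 187) (.l 293 178)) (.s2 42 (.l 275 166) (.l 284 169)))) (.s1 313 (.l 301 160)
  (.s2 125 (.l 294 173) (.l 273 156)))) (.s2 83 (.s1 438 (.s3 110 (.s2 42 (.s1 407 (.l 290 195)
  (.s3 55 (.l 299 215) (.l 281 194))) (.s1 407 (.l 286 184) (.l 293 201))) (.s2 42 (.s1 407 (.l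
  264 168) (.l 269 181)) (.l 291 193))) (.s2 42 (.s3 125 (.s0 1550 (.s1 469 (.s3 63 (.l 306 230)
  (.l 282 203)) (.s2 21 (.s3 63 (.s1 485 (.l 319 246) (.s0 1525 (.l 330 259) (.l 331 258))) (.l
  315 238)) (.s3 73 (.s1 485 (.l 308 232) (.l 333 258)) (.l 311 232)))) (.s1 469 (.s3 63 (.l 304
  226) (.l 281 199)) (.s2 21 (.s3 63 (.s1 485 (.l 316 240) (.l 344 269)) (.l 312 233)) (.s3 73 (.l
  332 254) (.l 309 228))))) (.s1 469 (.s3 180 (.l 285 201) (.l 278 193)) (.s3 188 (.s2 21 (.l 317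
  235) (.l 318 235)) (.s2 21 (.l 304 220) (.l 305 220))))) (.s3 136 (.s1 469 (.s2 63 (.l 302 219)
  (.l 296 210)) (.s0 1550 (.s2 63 (.s3 89 (.l 325 246) (.l 307 226)) (.l 316 234)) (.s2 63 (.l 321
  240) (.l 312 228)))) (.s1 469 (.l 286 198) (.s2 63 (.s3 183 (.l 317 231) (.l 307 220)) (.l 316
  229)))))) (.s1 438 (.s2 125 (.s1 407 (.l 286 178) (.l 292 193)) (.l 308 197)) (.s2 125 (.s1 469
  (.s3 138 (.l 300 211) (.l 289 198)) (.s3 146 (.s2 104 (.s0 1550 (.l 311 227) (.l 307 221)) (.l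
  328 239)) (.s2 104 (.l 316 227) (.l 317 226)))) (.s1 469 (.l 301 204) (.s2 146 (.l 323 231) (.l
  320 226)))))))

def t7 : T :=
  .s1 250 (.s1 125 (.s1 63 (.s2 83 (.l 320 115) .p) (.s2 83 (.l 310 123) .p)) (.s1 188 (.s2 83 (.l
  305 135) .p) (.s2 83 (.l 304 150) (.l 271 126)))) (.s1 375 (.s2 83 (.s1 313 (.s3 78 (.l 311 173)
  (.l 293 159)) (.s3 94 (.s2 42 (.l 317 198) (.l 305 183)) (.l 298 180))) (.s1 313 (.l 296 155)
  (.l 304 179))) (.s2 83 (.s0 1700 (.s1 438 (.s3 110 (.s2 42 (.s1 407 (.l 290 189) (.l 299 208))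
  (.l 306 204)) (.s2 42 (.l 282 184) (.l 289 186))) (.s2 42 (.s3 125 (.s1 469 (.s3 63 (.l 321 239)
  (.l 293 208)) (.s0 1650 (.s2 21 (.s3 63 (.l 342 265) (.l 308 227)) (.l 327 247)) (.s2 21 (.s3 63
  (.l 334 255) (.l 302 219)) (.l 320 238)))) (.s1 469 (.l 279 191) (.s3 188 (.l 314 228) (.l 304
  216)))) (.s3 136 (.s1 469 (.l 301 214) (.s2 63 (.l 338 254) (.l 327 240))) (.s1 469 (.l 278 188)
  (.l 312 223))))) (.s1 438 (.s3 110 (.s2 42 (.l 309 208) (.l 297 191)) (.l 285 182)) (.s2 42 (.s3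
  125 (.s1 469 (.l 306 221) (.s2 21 (.s3 63 (.l 348 267) (.l 311 226)) (.l 331 247))) (.s1 469 (.l
  269 179) (.l 299 210))) (.s3 136 (.s1 469 (.l 292 200) (.l 325 239)) (.l 299 207))))) (.s1 438
  (.s2 125 (.l 315 208) (.l 309 198)) (.s2 125 (.s0 1700 (.s1 469 (.l 295 201) (.s3 146 (.l 328
  239) (.l 310 218))) (.l 308 217)) (.s0 1700 (.s1 469 (.l 290 192) (.l 311 218)) (.l 300
  205))))))

def t8 : T :=
  .s1 250 (.s1 125 (.l 306 114) (.s1 188 (.l 285 118) (.l 286 133))) (.s1 375 (.s2 83 (.s1 313 (.l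
  284 146) (.l 296 174)) (.l 301 166)) (.s2 83 (.s1 438 (.s3 110 (.l 322 221) (.l 283 179)) (.s2
  42 (.s3 125 (.s0 1900 (.s1 469 (.l 295 205) (.l 332 249)) (.l 312 226)) (.l 302 212)) (.s3 136
  (.l 335 248) (.l 297 206)))) (.s1 438 (.l 293 183) (.s2 125 (.l 310 219) (.l 302 207)))))

def t9 : T :=
  .s0 2250 (.s1 250 (.s1 125 (.l 280 100) (.l 288 138)) (.s2 83 (.s1 375 (.l 314 199) (.s0 2125
  (.s2 42 (.s1 438 (.l 302 213) (.s3 125 (.s0 2063 (.l 364 290) (.l 343 267)) (.l 318 242))) (.s1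
  438 (.l 287 196) (.l 349 274))) (.s1 438 (.l 290 198) (.s2 42 (.l 345 271) (.l 312 235))))) (.s1
  375 (.l 298 184) (.s1 438 (.l 310 223) (.s2 125 (.l 373 300) (.l 367 292)))))) (.s1 250 (.l 274
  117) (.s1 375 (.l 281 167) (.s2 83 (.s0 2375 (.s1 438 (.l 265 172) (.l 319 244)) (.l 295 214))
  (.l 320 242))))

def t10 : T :=
  .s1 250 (.l 233 92) (.s0 2750 (.s1 375 (.l 233 124) (.l 317 240)) (.l 269 182))

def t11 : T :=
  .s0 3500 (.s1 250 (.l 153 46) (.l 242 165)) (.l 151 81)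

theorem c0 : chk t0 ⟨0, 1000000, 0, 500000, 0, 166667, 0, 250000⟩ = true := by
  decide +kernel

theorem c1 : chk t1 ⟨1000000, 1100000, 0, 500000, 0, 166667, 0, 250000⟩ = true := by
  decide +kernel

theorem c2 : chk t2 ⟨1100000, 1200000, 0, 500000, 0, 166667, 0, 250000⟩ = true := by
  decide +kernel

theorem c3 : chk t3 ⟨1200000, 1300000, 0, 500000, 0, 166667, 0, 250000⟩ = true := by
  decide +kernel

theorem c4 : chk t4 ⟨1300000, 1400000, 0, 500000, 0, 166667, 0, 250000⟩ = true := by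
  decide +kernel

theorem c5 : chk t5 ⟨1400000, 1500000, 0, 500000, 0, 166667, 0, 250000⟩ = true := by
  decide +kernel

theorem c6 : chk t6 ⟨1500000, 1600000, 0, 500000, 0, 166667, 0, 250000⟩ = true := by
  decide +kernel

theorem c7 : chk t7 ⟨1600000, 1800000, 0, 500000, 0, 166667, 0, 250000⟩ = true := by
  decide +kernel

theorem c8 : chk t8 ⟨1800000, 2000000, 0, 500000, 0, 166667, 0, 250000⟩ = true := by
  decide +kernel

theorem c9 : chk t9 ⟨2000000, 2500000, 0, 500000, 0, 166667, 0, 250000⟩ = true := by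
  decide +kernel

theorem c10 : chk t10 ⟨2500000, 3000000, 0, 500000, 0, 166667, 0, 250000⟩ = true := by
  decide +kernel

theorem c11 : chk t11 ⟨3000000, 4000000, 0, 500000, 0, 166667, 0, 250000⟩ = true := by
  decide +kernel

end Coin.WN
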