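import Pool.Agent.Lib.Coin.WinHiLeaf
import Pool.Agent.Lib.Coin.WinHiTree
import Pool.Agent.Lib.Coin.WinHiScale
import Pool.Agent.Lib.Coin.WinHiPtA5
import Pool.Agent.Lib.Coin.WinHiTail
import Pool.Agent.Lib.Coin.WinFullAsm

/-!
# Coin race, one-tail window, `c q ≥ p`: the certificate exists
-/

namespace Coin.WN

open Real

section tree

variable {Y m n x de ka la E A Aa al MP M1 P K K2 Qp Qn R : ℝ}
  (H : HPt Y m n x de ka la E A Aa al MP M1 P K K2 Qp Qn R)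

include H

/-- a pruned box contains no point -/
theorem prune_false {b : Bx} (I : Inb b Y m n x) (h : prune b = true) : False := by
  have hn := H.nuxi
  have hx : vv (mx b.x1 b.n1) ≤ x := by
    rw [mx_eq]
    rcases le_total b.x1 b.n1 with h | h
    · rw [max_eq_right h]; linarith [I.n1]
    · rw [max_eq_left h]; exact I.x1
  simp only [prune, Bool.or_eq_true, Bool.and_eq_true, Nat.blt_eq, Nat.ble_eq] at h
  rcases h with (h | h) | ⟨h1, h2⟩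
  · have := vv_lt h
    linarith [I.n1, I.x2]
  · have h3 := vv_lt h
    rw [vv_add, vv_two_mul] at h3
    linarith [I.n1, I.m2, H.hmu, H.ka0, H.xide]
  · have hY1 : vv b.Y2 ≤ 1 := by
      have := vv_le h1
      rwa [vv_one] at this
    have hY := H.Y0
    have h4 := H.la1
    have h5 := H.la2 (by linarith [I.Y2])
    have h6 := vv_lt h2
    rw [vv_one, vv_add] at h6
    have h7 := vv_sub_ge 1000000 (b.Y2 / 2)
    rw [vv_one] at h7
    have h8 := vv_half_dn b.Y2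
    have u1 : UB (Y * (1 - Y / 2)) (mu b.Y2 (1000000 - b.Y2 / 2)) := by
      have u2 : UB (vv b.Y2 * (1 - vv b.Y2 / 2)) (mu b.Y2 (1000000 - b.Y2 / 2)) :=
        (UB.self _).mul ⟨by linarith, by linarith⟩
      refine u2.mono (mul_nonneg hY.le (by linarith [I.Y2])) ?_
      have := I.Y2
      nlinarith
    have u2 := (u1.mul (⟨H.nu0.le, I.n2⟩ : UB n b.n2)).2
    linarith [I.Y2]

/-- soundness of the certificate tree -/
theorem chk_sound (hY4 : Y ≤ 4) : ∀ (t : T) (b : Bx), Inb b Y m n x → chk t b = true →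
    ∃ h : SH, SOK la E m n x ka (1 - m) h ∧ (A ≤ h.A ∧ Aa ≤ h.Aa ∧ al ≤ h.al ∧ MP ≤ h.MP
      ∧ M1 ≤ h.M1 ∧ P ≤ h.P ∧ K ≤ h.K ∧ K2 ≤ h.K2 ∧ Qp ≤ h.Qp ∧ Qn ≤ h.Qn ∧ R ≤ h.R)
  | .l N U, b, I, hc => by
    have I2 := Inb.tight H I
    exact ⟨(⟨tight b, N * 1000, U * 1000⟩ : Lf).sh, leaf_ok H I2 hY4 hc, leaf_hat H I2 hY4 hc⟩
  | .p, b, I, hc => (prune_false H I hc).elim
  | .s0 v l r, ⟨Y1, Y2, m1, m2, n1, n2, x1, x2⟩, I, hc => by
    simp only [chk, Bool.and_eq_true] at hc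
    rcases le_total Y (vv (v * 1000)) with h | h
    · exact chk_sound hY4 l ⟨Y1, v * 1000, m1, m2, n1, n2, x1, x2⟩ ⟨I.Y1, h, I.m1, I.m2, I.n1, I.n2, I.x1, I.x2⟩ hc.1
    · exact chk_sound hY4 r ⟨v * 1000, Y2, m1, m2, n1, n2, x1, x2⟩ ⟨h, I.Y2, I.m1, I.m2, I.n1, I.n2, I.x1, I.x2⟩ hc.2
  | .s1 v l r, ⟨Y1, Y2, m1, m2, n1, n2, x1, x2⟩, I, hc => by
    simp only [chk, Bool.and_eq_true] at hc
    rcases le_total m (vv (v * 1000)) with h | h
    · exact chk_sound hY4 l ⟨Y1, Y2, m1, v * 1000, n1, n2, x1, x2⟩ ⟨I.Y1, I.Y2, I.m1, h, I.n1, I.n2, I.x1, I.x2⟩ hc.1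
    · exact chk_sound hY4 r ⟨Y1, Y2, v * 1000, m2, n1, n2, x1, x2⟩ ⟨I.Y1, I.Y2, h, I.m2, I.n1, I.n2, I.x1, I.x2⟩ hc.2
  | .s2 v l r, ⟨Y1, Y2, m1, m2, n1, n2, x1, x2⟩, I, hc => by
    simp only [chk, Bool.and_eq_true] at hc
    rcases le_total n (vv (v * 1000)) with h | h
    · exact chk_sound hY4 l ⟨Y1, Y2, m1, m2, n1, v * 1000, x1, x2⟩ ⟨I.Y1, I.Y2, I.m1, I.m2, I.n1, h, I.x1, I.x2⟩ hc.1
    · exact chk_sound hY4 r ⟨Y1, Y2, m1, m2, v * 1000, n2, x1, x2⟩ ⟨I.Y1, I.Y2, I.m1, I.m2, h, I.n2, I.x1, I.x2⟩ hc.2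
  | .s3 v l r, ⟨Y1, Y2, m1, m2, n1, n2, x1, x2⟩, I, hc => by
    simp only [chk, Bool.and_eq_true] at hc
    rcases le_total x (vv (v * 1000)) with h | h
    · exact chk_sound hY4 l ⟨Y1, Y2, m1, m2, n1, n2, x1, v * 1000⟩
        ⟨I.Y1, I.Y2, I.m1, I.m2, I.n1, I.n2, I.x1, h⟩ hc.1
    · exact chk_sound hY4 r ⟨Y1, Y2, m1, m2, n1, n2, v * 1000, x2⟩
        ⟨I.Y1, I.Y2, I.m1, I.m2, I.n1, I.n2, h, I.x2⟩ hc.2

theorem root_in {a b : ℕ} (ha : vv a ≤ Y) (hb : Y ≤ vv b) :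
    Inb ⟨a, b, 0, 500000, 0, 166667, 0, 250000⟩ Y m n x := by
  have e0 : vv 0 = 0 := by unfold vv; norm_num
  have e5 : vv 500000 = 1 / 2 := by unfold vv; norm_num
  have e6 : 1 / 6 ≤ vv 166667 := by unfold vv; norm_num
  have e4 : vv 250000 = 1 / 4 := by unfold vv; norm_num
  refine ⟨ha, hb, ?_, ?_, ?_, ?_, ?_, ?_⟩
  · change vv 0 ≤ m; rw [e0]; exact H.m0.le
  · change m ≤ vv 500000; rw [e5]; exact H.mu2
  · change vv 0 ≤ n; rw [e0]; exact H.nu0.le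
  · change n ≤ vv 166667; exact H.nu6.trans e6
  · change vv 0 ≤ x; rw [e0]; exact H.nu0.le.trans H.nuxi
  · change x ≤ vv 250000; rw [e4]; exact H.xle

theorem exists_sh (hY4 : Y ≤ 4) :
    ∃ h : SH, SOK la E m n x ka (1 - m) h ∧ (A ≤ h.A ∧ Aa ≤ h.Aa ∧ al ≤ h.al ∧ MP ≤ h.MP
      ∧ M1 ≤ h.M1 ∧ P ≤ h.P ∧ K ≤ h.K ∧ K2 ≤ h.K2 ∧ Qp ≤ h.Qp ∧ Qn ≤ h.Qn ∧ R ≤ h.R) := by
  have e0 : vv 0 = 0 := by unfold vv; norm_num
  have e12 : vv 4000000 = 4 := by unfold vv; norm_num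
  have h0 : vv 0 ≤ Y := by rw [e0]; exact H.Y0.le
  have h12 : Y ≤ vv 4000000 := by rw [e12]; exact hY4
  rcases le_total Y (vv 1000000) with a1 | a1
  · exact chk_sound H hY4 _ _ (root_in H h0 a1) c0
  rcases le_total Y (vv 1100000) with a2 | a2
  · exact chk_sound H hY4 _ _ (root_in H a1 a2) c1
  rcases le_total Y (vv 1200000) with a3 | a3
  · exact chk_sound H hY4 _ _ (root_in H a2 a3) c2
  rcases le_total Y (vv 1300000) with a4 | a4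
  · exact chk_sound H hY4 _ _ (root_in H a3 a4) c3
  rcases le_total Y (vv 1400000) with a5 | a5
  · exact chk_sound H hY4 _ _ (root_in H a4 a5) c4
  rcases le_total Y (vv 1500000) with a6 | a6
  · exact chk_sound H hY4 _ _ (root_in H a5 a6) c5
  rcases le_total Y (vv 1600000) with a7 | a7
  · exact chk_sound H hY4 _ _ (root_in H a6 a7) c6
  rcases le_total Y (vv 1800000) with a8 | a8
  · exact chk_sound H hY4 _ _ (root_in H a7 a8) c7
  rcases le_total Y (vv 2000000) with a9 | a9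
  · exact chk_sound H hY4 _ _ (root_in H a8 a9) c8
  rcases le_total Y (vv 2500000) with a10 | a10
  · exact chk_sound H hY4 _ _ (root_in H a9 a10) c9
  rcases le_total Y (vv 3000000) with a11 | a11
  · exact chk_sound H hY4 _ _ (root_in H a10 a11) c10
  · exact chk_sound H hY4 _ _ (root_in H a11 h12) c11

end tree

/-- the certificate exists for `-c log p ≤ 4` -/
theorem hi_num {p : ℝ} {a m c m' x : ℕ} (h0 : 0 < p) (h1 : p < 1) (hpq : p ≤ c * (1 - p))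
    (h2 : 2 * m' ≤ c) (hca : c < a) (hd : 2 * (a - c) < m' - m) (hx1 : 1 ≤ x) (hx : x ≤ a - c)
    (hY : (c : ℝ) * (-Real.log p) ≤ 4) : ∃ d : Coin.HiDat, Coin.HiOKx p a m c m' x d := by
  have H := pt_ok p a m c m' x h0 h1 hpq hca h2 hd hx1 hx
  obtain ⟨h, hs, g1, g2, g3, g4, g5, g6, g7, g8, g9, g10, g11⟩ := exists_sh H hY
  exact ⟨h.toDat c, scale_ok p a m c m' x h h0 h1 hca h2 hd hx1 hx
    ⟨g1, g2, g3, g4, g5, g6, g7, g8, g9, g10, g11⟩ hs⟩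

theorem hiNumAll : Coin.HiNumAll := by
  intro p a m c m' x h0 h1 hpq h2 hca hd hx1 hx
  rcases le_total ((c : ℝ) * (-Real.log p)) 4 with h | h
  · exact hi_num h0 h1 hpq h2 hca hd hx1 hx h
  · exact ⟨_, Coin.Tail.hiOKx_tail h0 h1 h h2 hca hd hx1 hx⟩

end Coin.WN
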