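import Pool.Agent.Lib.Coin.WinLoChk

/-!
# Coin race, one-tail window, `c q ≤ p`: the kernel computation
-/

namespace Coin.IB

theorem lo_cover :
    cover chkL [8, 4, 8, 2] 20 [(0, 1000000), (0, 250000), (0, 500000), (0, 1000000)] = true := by
  decide +kernel

end Coin.IB
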