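import Pool.Agent.Lib.Coin.WinLoSound
import Pool.Agent.Lib.Coin.WinLoCov

/-!
# Coin race, one-tail window, `c q ≤ p`: the numeric inequality `LoSNum`
-/

namespace Coin.IB

/-- the property of the list of parameters -/
def LoP : List ℝ → Prop
  | [L, k, mu, r] => ∀ de E X ps K MP J Z T KL th S M P P1 Mn Pn : ℝ,
      LoBase L k mu r de E X ps K MP J Z T KL th →
      LoSU L k mu de E ps K MP J Z th S M P P1 Mn Pn →
      LoSFin L k mu r de E ps K MP J Z T KL th S M P P1 Mn
  | _ => True

theorem chkL_sound (b : List (ℕ × ℕ)) (h : chkL b = true) (x : List ℝ) (hx : MemB x b) :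
    LoP x := by
  match b, x, h, hx with
  | [b1, b2, b3, b4], [L, k, mu, r], h, hx =>
    obtain ⟨h1, h2, h3, h4, h5, h6, h7, h8, -⟩ := hx
    intro de E X ps K MP J Z T KL th S M P P1 Mn Pn B U
    exact chk_ok h h1 h2 h3 h4 h5 h6 h7 h8 B U
  | [b1, b2, b3, b4], [], h, hx => trivial
  | [b1, b2, b3, b4], [_], h, hx => trivial
  | [b1, b2, b3, b4], [_, _], h, hx => trivial
  | [b1, b2, b3, b4], [_, _, _], h, hx => trivial
  | [b1, b2, b3, b4], _ :: _ :: _ :: _ :: _ :: _, h, hx => trivial

end Coin.IB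

namespace Coin

open Coin.IB

/-- the numeric inequality of the range `c q ≤ p` -/
theorem loSNum : LoSNum := by
  intro L k mu r de E X ps K MP J Z T KL th S M P P1 Mn Pn B U
  have hL := B.L0
  have hk := B.k0
  have hk1 := B.k1
  have hmu := B.mu0
  have hmu1 := B.mu1
  have hr := B.r0
  have hr1 := B.r1
  have hLk := B.hL
  have hL1 : L ≤ 1 := by nlinarith
  have hm : MemB [L, k, mu, r] [(0, 1000000), (0, 250000), (0, 500000), (0, 1000000)] := by
    refine ⟨Lw.zero hL, ?_, Lw.zero hk, ?_, Lw.zero hmu, ?_, Lw.zero hr, ?_, trivial⟩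
    all_goals
      unfold Up
      push_cast
      linarith
  exact cover_sound chkL_sound 20 _ lo_cover _ hm de E X ps K MP J Z T KL th S M P P1 Mn Pn B U

end Coin
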