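import Mathlib

/-!
# Coin race, one-tail window, `c q ≤ p`: the numeric inequality in scaled variables (statement)

`L = c q`, `k = 1/c`, `mu = m'/c`, `r = m/m'`, `de = (a-c)/c`, `E = p^c`, `X = 1/p^m'`,
`S = c s`, `J = Jc/c`, `Z = Zc/c`, `T = R1/c^2`, `KL = Kc/(c q)`.
-/

namespace Coin

/-- the data without the unknowns -/
structure LoBase (L k mu r de E X ps K MP J Z T KL th : ℝ) : Prop where
  L0 : 0 ≤ L
  k0 : 0 ≤ k
  k1 : k ≤ 1 / 4
  mu0 : 0 ≤ mu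
  mu1 : mu ≤ 1 / 2
  r0 : 0 ≤ r
  r1 : r ≤ 1
  hL : L + L * k ≤ 1
  de0 : k ≤ de
  de1 : de ≤ (mu * (1 - r) - k) / 2
  hY : ∃ Y : ℝ, L + L ^ 2 * k / 2 ≤ Y ∧ Y ≤ L + L ^ 2 * k / 2 + 4 / 9 * (L ^ 3 * k ^ 2)
    ∧ E = Real.exp (-Y) ∧ X = Real.exp (mu * Y)
  hps : ps = E * (1 - (L * k + L))
  hK : K = E * (X - 1 - mu * L)
  MP0 : 0 ≤ MP
  hMP : MP ≤ E * ((X - 1) * r)
  J0 : 0 ≤ J
  hJ : J ≤ E * (r * mu * (1 - (L * k + L) + L * de) + L * (r * mu) * (r * mu + k) / 2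
    + (X - 1) * r * (r * mu + k) * ((1 - (L * k + L) + L * de) / 2 + L * (2 * (r * mu) + k) / 6))
  Z0 : 0 ≤ Z
  hZ : Z ≤ E * (L * mu * (mu + k) - (1 - mu) * (X - 1 - mu * L))
  T0 : 0 ≤ T
  hT : T ≤ E * (mu * (mu + k) / 2 + (X - 1) * (mu + k) * (2 * mu + k) / 6)
  KL0 : 0 ≤ KL
  hKL : KL ≤ E * ((mu + k) * (X - 1) / 2)
  th0 : 0 ≤ th
  hth : th * (1 - K) ≤ max 0 ((1 - k) * (L * E) + K + (2 - k) * (L * E) + MP - 1)

/-- the unknowns -/
structure LoSU (L k mu de E ps K MP J Z th S M P P1 Mn Pn : ℝ) : Prop where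
  S0 : 0 ≤ S
  hS : S * (1 - ((1 - mu) * (L * E) + th * K)) ≤ L * E
  M0 : 0 ≤ M
  P0 : 0 ≤ P
  P10 : 0 ≤ P1
  MMn : M ≤ Mn
  PPn : P ≤ Pn
  I1 : Mn ≤ M + (2 - k) * (de * (L * E * S) + L * E * P) + (1 + th) * (J * S) + MP * (Pn + M)
  I2 : Pn ≤ P + (2 - k) * (ps * S + L * E * M) + (1 + th) * (J * S) + MP * (Mn + P)
  I3 : M ≤ ps + ps * ((1 - mu) * S) + L * E * ((1 - mu) * M
      + (1 - mu) ^ 2 * (de * (L * E * S) + L * E * P) + (1 - mu) * (J * S + MP * (M + P)))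
      + th * (Z * S) + K * Pn
    ∨ M ≤ ps + L * E * ((1 - mu + k) * P1 + (de + 2 * mu - 2 * k) * P) + th * (Z * S) + K * Pn
  I4 : P1 ≤ 0 ∨ P1 ≤ L * E * ((1 - mu) * P1 + (1 - mu) ^ 2 * (ps * S + L * E * M)
      + (1 - mu) * (J * S + MP * (M + P))) + Z * S + K * Mn - ps
  I5 : P ≤ P1 ∨ P ≤ L * E * ((1 + de + mu - k) * M) + Z * S + K * Mn

/-- `Φ` -/
noncomputable def sPhi (L mu E ps K MP J Z S M P P1 Mn : ℝ) : ℝ :=
  L * E * ((1 - mu) * P1 + (1 - mu) ^ 2 * (ps * S + L * E * M)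
      + (1 - mu) * (J * S + MP * (M + P))) + Z * S + K * Mn - ps

/-- bound of `H_x` -/
noncomputable def sH (k mu de E KL th S : ℝ) : ℝ :=
  (E * (1 + (1 - mu + k - de) * S) + th * KL * S) / (1 - de * S)

/-- bound of `f_X - f_x`, divided by `c` -/
noncomputable def sInc (L k mu de E ps K MP J Z S M P P1 Mn : ℝ) : ℝ :=
  (1 - mu + k) * (-ps + Z * S + K * Mn)
    + L * E * ((P1 + (J * S + MP * (M + P))) * (1 - mu) ^ 2 / 2
      + (ps * S + L * E * M) * (1 - mu) ^ 3 / 3)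
    + (ps * S + L * E * M) * (de * (de + k) / 2)

/-- bound of `-rem`, divided by `c` -/
noncomputable def sRem (L k mu de E ps K MP J Z T KL S M P P1 Mn : ℝ) : ℝ :=
  E * (max ((1 - mu) * sPhi L mu E ps K MP J Z S M P P1 Mn)
      ((1 - mu + k - de) * sPhi L mu E ps K MP J Z S M P P1 Mn)
      + (1 - mu) ^ 2 * (ps * S + L * E * M) + (1 - mu) * (J * S + MP * (M + P)))
    + T * S + KL * Mn

/-- the final expression, divided by `c` -/
noncomputable def sFin (L k mu de E ps K MP J Z T KL th S M P P1 Mn : ℝ) : ℝ :=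
  (1 - mu + k) - (mu - k) * sH k mu de E KL th S
    - de * P1 * ((1 + sH k mu de E KL th S) / (1 - (de + (1 - mu) + k) * S) - 1)
    - max (sInc L k mu de E ps K MP J Z S M P P1 Mn)
      ((1 + sH k mu de E KL th S) * sInc L k mu de E ps K MP J Z S M P P1 Mn
        / (1 - (de + (1 - mu) + k) * S))
    - max (sRem L k mu de E ps K MP J Z T KL S M P P1 Mn)
      (sRem L k mu de E ps K MP J Z T KL S M P P1 Mn / (1 - de * S))

/-- what has to be proved, scaled -/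
def LoSFin (L k mu r de E ps K MP J Z T KL th S M P P1 Mn : ℝ) : Prop :=
  0 < 1 - (1 + de - r * mu) * S ∧
  (∃ p2 : ℝ, 0 ≤ p2 ∧
    -ps * (1 - (de - r * mu + mu - k) * S) + L * E * ((de - r * mu + mu - k) * M)
      + Z * S + K * Mn ≤ p2 ∧
    p2 ≤ 1 - (1 + de - r * mu) * S ∧
    ((1 - mu + k) * P1 + (de - r * mu + mu - k) * p2) * S
      ≤ (1 - (1 + de - r * mu) * S) * (1 - (1 + de - r * mu) * S - p2)) ∧
  0 < sFin L k mu de E ps K MP J Z T KL th S M P P1 Mn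

/-- the numeric inequality in scaled variables -/
def LoSNum : Prop :=
  ∀ L k mu r de E X ps K MP J Z T KL th S M P P1 Mn Pn : ℝ,
    LoBase L k mu r de E X ps K MP J Z T KL th →
    LoSU L k mu de E ps K MP J Z th S M P P1 Mn Pn →
    LoSFin L k mu r de E ps K MP J Z T KL th S M P P1 Mn

end Coin
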