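import Pool.Agent.Lib.Coin.WinLoPrim
import Pool.Agent.Lib.Coin.WinLoS

/-!
# Coin race, one-tail window, `c q ≤ p`: `LoNum` from the scaled statement `LoSNum`
-/

namespace Coin

open Finset

section

variable {p : ℝ} {a m c m' : ℕ}

theorem zc_eq (hmc : m' ≤ c) (hc : 0 < c) :
    ((c - m' : ℕ) : ℝ) = c * (1 - (m' : ℝ) / c) := by
  rw [Nat.cast_sub hmc]
  have : (c : ℝ) ≠ 0 := by exact_mod_cast hc.ne'
  field_simp

theorem alp_scale (hc : 0 < c) (s M : ℝ) :
    (c : ℝ) * alp p c s M = psi p c * (c * s) + c * (1 - p) * p ^ c * M := by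
  unfold alp
  ring

theorem alm_scale (hc : 0 < c) (s P : ℝ) :
    (c : ℝ) * alm p a c s P = ((a : ℝ) - c) / c * (c * (1 - p) * p ^ c * (c * s))
      + c * (1 - p) * p ^ c * P := by
  have : (c : ℝ) ≠ 0 := by exact_mod_cast hc.ne'
  unfold alm
  field_simp

theorem bet_scale (hc : 0 < c) (s M P : ℝ) :
    bet p a m c s M P = Jc p a m c / c * (c * s) + MP p a m * (M + P) := by
  have : (c : ℝ) ≠ 0 := by exact_mod_cast hc.ne'
  unfold bet
  field_simp

theorem PhiL_scale (hmc : m' ≤ c) (hc : 0 < c) (s M P P1 Mn : ℝ) :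
    PhiL p a m c m' s M P P1 Mn
      = sPhi (c * (1 - p)) ((m' : ℝ) / c) (p ^ c) (psi p c) (Kc p c m') (MP p a m)
        (Jc p a m c / c) (Zc p c m' / c) (c * s) M P P1 Mn := by
  have hc' : (c : ℝ) ≠ 0 := by exact_mod_cast hc.ne'
  unfold PhiL sPhi
  rw [zc_eq hmc hc, bet_scale hc]
  have e := alp_scale (p := p) hc s M
  have e1 : (1 - p) * p ^ c * (c * (1 - (m' : ℝ) / c) * P1
      + (c * (1 - (m' : ℝ) / c)) ^ 2 * alp p c s M
      + c * (1 - (m' : ℝ) / c) * (Jc p a m c / c * (c * s) + MP p a m * (M + P)))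
      = c * (1 - p) * p ^ c * ((1 - (m' : ℝ) / c) * P1
        + (1 - (m' : ℝ) / c) ^ 2 * (c * alp p c s M)
        + (1 - (m' : ℝ) / c) * (Jc p a m c / c * (c * s) + MP p a m * (M + P))) := by ring
  rw [e1, e]
  have e2 : Zc p c m' * s = Zc p c m' / c * (c * s) := by field_simp
  rw [e2]
  ring

theorem HbL_scale (h1 : p < 1) (hmc : m' ≤ c) (hc : 0 < c) (s th : ℝ) :
    HbL p a c m' s th = sH (1 / (c : ℝ)) ((m' : ℝ) / c) (((a : ℝ) - c) / c) (p ^ c)
      (Kc p c m' / (c * (1 - p))) th (c * s) := by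
  have hc' : (c : ℝ) ≠ 0 := by exact_mod_cast hc.ne'
  have hq : (1 - p) ≠ 0 := by linarith
  unfold HbL sH
  rw [zc_eq hmc hc]
  have e1 : (c * (1 - (m' : ℝ) / c) + 1 - ((a : ℝ) - c)) * s
      = (1 - (m' : ℝ) / c + 1 / c - ((a : ℝ) - c) / c) * (c * s) := by
    field_simp
  have e2 : th * Kc p c m' * s / (1 - p) = th * (Kc p c m' / (c * (1 - p))) * (c * s) := by
    field_simp
  have e3 : ((a : ℝ) - c) * s = ((a : ℝ) - c) / c * (c * s) := by field_simp
  rw [e1, e2, e3]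

theorem IncL_scale (hmc : m' ≤ c) (hc : 0 < c) (s M P P1 Mn : ℝ) :
    IncL p a m c m' s M P P1 Mn
      = c * sInc (c * (1 - p)) (1 / (c : ℝ)) ((m' : ℝ) / c) (((a : ℝ) - c) / c) (p ^ c) (psi p c)
        (Kc p c m') (MP p a m) (Jc p a m c / c) (Zc p c m' / c) (c * s) M P P1 Mn := by
  have hc' : (c : ℝ) ≠ 0 := by exact_mod_cast hc.ne'
  have e := alp_scale (p := p) hc s M
  have e0 : psi p c * s + (1 - p) * p ^ c * M = alp p c s M := rfl
  unfold IncL sInc
  rw [zc_eq hmc hc, bet_scale hc, e0, ← e]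
  field_simp

theorem RemL_scale (h1 : p < 1) (hmc : m' ≤ c) (hc : 0 < c) (s M P P1 Mn : ℝ) :
    RemL p a m c m' s M P P1 Mn
      = c * sRem (c * (1 - p)) (1 / (c : ℝ)) ((m' : ℝ) / c) (((a : ℝ) - c) / c) (p ^ c) (psi p c)
        (Kc p c m') (MP p a m) (Jc p a m c / c) (Zc p c m' / c) (R1 p c m' / c ^ 2)
        (Kc p c m' / (c * (1 - p))) (c * s) M P P1 Mn := by
  have hc' : (c : ℝ) ≠ 0 := by exact_mod_cast hc.ne'
  have hc0 : (0 : ℝ) ≤ c := by positivity
  have hq : (1 - p) ≠ 0 := by linarith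
  have e := alp_scale (p := p) hc s M
  unfold RemL sRem
  rw [PhiL_scale hmc hc]
  set Φ := sPhi (c * (1 - p)) ((m' : ℝ) / c) (p ^ c) (psi p c) (Kc p c m') (MP p a m)
        (Jc p a m c / c) (Zc p c m' / c) (c * s) M P P1 Mn
  rw [zc_eq hmc hc, bet_scale hc, ← e]
  have e1 : max (c * (1 - (m' : ℝ) / c) * Φ) ((c * (1 - (m' : ℝ) / c) + 1 - ((a : ℝ) - c)) * Φ)
      = c * max ((1 - (m' : ℝ) / c) * Φ) ((1 - (m' : ℝ) / c + 1 / c - ((a : ℝ) - c) / c) * Φ) := by
    rw [mul_max_of_nonneg _ _ hc0]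
    congr 1
    · ring
    · field_simp
  rw [e1]
  field_simp

theorem FinL_scale (h1 : p < 1) (hmc : m' ≤ c) (hc : 0 < c) (s th M P P1 Mn : ℝ) :
    FinL p a m c m' s th M P P1 Mn
      = c * sFin (c * (1 - p)) (1 / (c : ℝ)) ((m' : ℝ) / c) (((a : ℝ) - c) / c) (p ^ c) (psi p c)
        (Kc p c m') (MP p a m) (Jc p a m c / c) (Zc p c m' / c) (R1 p c m' / c ^ 2)
        (Kc p c m' / (c * (1 - p))) th (c * s) M P P1 Mn := by
  have hc' : (c : ℝ) ≠ 0 := by exact_mod_cast hc.ne'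
  have hc0 : (0 : ℝ) ≤ c := by positivity
  unfold FinL sFin
  rw [HbL_scale h1 hmc hc, IncL_scale hmc hc, RemL_scale h1 hmc hc]
  set H := sH (1 / (c : ℝ)) ((m' : ℝ) / c) (((a : ℝ) - c) / c) (p ^ c)
      (Kc p c m' / (c * (1 - p))) th (c * s)
  set I := sInc (c * (1 - p)) (1 / (c : ℝ)) ((m' : ℝ) / c) (((a : ℝ) - c) / c) (p ^ c) (psi p c)
        (Kc p c m') (MP p a m) (Jc p a m c / c) (Zc p c m' / c) (c * s) M P P1 Mn
  set R := sRem (c * (1 - p)) (1 / (c : ℝ)) ((m' : ℝ) / c) (((a : ℝ) - c) / c) (p ^ c) (psi p c)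
        (Kc p c m') (MP p a m) (Jc p a m c / c) (Zc p c m' / c) (R1 p c m' / c ^ 2)
        (Kc p c m' / (c * (1 - p))) (c * s) M P P1 Mn
  rw [zc_eq hmc hc]
  have e1 : ((a : ℝ) - c + c * (1 - (m' : ℝ) / c) + 1) * s
      = (((a : ℝ) - c) / c + (1 - (m' : ℝ) / c) + 1 / c) * (c * s) := by field_simp
  have e2 : ((a : ℝ) - c) * s = ((a : ℝ) - c) / c * (c * s) := by field_simp
  rw [e1, e2]
  set G2 := 1 - (((a : ℝ) - c) / c + (1 - (m' : ℝ) / c) + 1 / c) * (c * s)
  set G1 := 1 - ((a : ℝ) - c) / c * (c * s)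
  have e3 : max (c * I) ((1 + H) * (c * I) / G2) = c * max I ((1 + H) * I / G2) := by
    rw [mul_max_of_nonneg _ _ hc0]
    congr 1
    ring
  have e4 : max (c * R) (c * R / G1) = c * max R (R / G1) := by
    rw [mul_max_of_nonneg _ _ hc0]
    congr 1
    ring
  rw [e3, e4]
  have e5 : c * (1 - (m' : ℝ) / c) + 1 - ((m' : ℝ) - 1) * H - ((a : ℝ) - c) * P1 * ((1 + H) / G2 - 1)
      = c * ((1 - (m' : ℝ) / c + 1 / c) - ((m' : ℝ) / c - 1 / c) * H
        - ((a : ℝ) - c) / c * P1 * ((1 + H) / G2 - 1)) := by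
    field_simp
  rw [e5]
  ring

end

/-- the scaled base data -/
theorem loBase_of {p : ℝ} {a m c m' : ℕ} (h0 : 0 < p) (h1 : p < 1) (hl : c * (1 - p) ≤ p)
    (h2 : 2 * m' ≤ c) (hca : c < a) (hd : 2 * (a - c) < m' - m) :
    ∃ th : ℝ, (((c : ℝ) - 1) * ((1 - p) * p ^ c) + Kc p c m'
      + ((2 * (c : ℝ) - 1) * ((1 - p) * p ^ a) + MP p a m) - 1 ≤ th * (1 - Kc p c m')) ∧
    LoBase (c * (1 - p)) (1 / (c : ℝ)) ((m' : ℝ) / c) ((m : ℝ) / m') (((a : ℝ) - c) / c) (p ^ c)
      (1 / p ^ m') (psi p c) (Kc p c m') (MP p a m) (Jc p a m c / c) (Zc p c m' / c)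
      (R1 p c m' / c ^ 2) (Kc p c m' / (c * (1 - p))) th := by
  have hq : 0 < 1 - p := by linarith
  have hc6 : 6 ≤ c := by omega
  have hcr : (0 : ℝ) < c := by exact_mod_cast (by omega : 0 < c)
  have hc6r : (6 : ℝ) ≤ c := by exact_mod_cast hc6
  have hm0 : 0 < m' := by omega
  have hmr : (0 : ℝ) < m' := by exact_mod_cast hm0
  have hmc : m' ≤ c := by omega
  have hE : 0 < p ^ c := pow_pos h0 _
  have hX := one_le_X h0 h1.le m'
  have hK0 := Kc_nonneg h0 h1 (c := c) (m' := m') hmc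
  have hK1 := Kc_le h0 h1 h2
  have hcne : (c : ℝ) ≠ 0 := hcr.ne'
  have hmne : (m' : ℝ) ≠ 0 := hmr.ne'
  have hqne : (1 - p) ≠ 0 := hq.ne'
  have hq4 : 1 - p ≤ 1 / 4 := by nlinarith
  set num := ((c : ℝ) - 1) * ((1 - p) * p ^ c) + Kc p c m'
      + ((2 * (c : ℝ) - 1) * ((1 - p) * p ^ a) + MP p a m) - 1 with hnum
  have h1K : 0 < 1 - Kc p c m' := by linarith
  have hdr : 2 * ((a : ℝ) - c) + m + 1 ≤ m' := by
    have hN : 2 * (a - c) + m + 1 ≤ m' := by omega
    have : ((2 * (a - c) + m + 1 : ℕ) : ℝ) ≤ m' := by exact_mod_cast hN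
    push_cast [Nat.cast_sub hca.le] at this
    exact this
  have hac1 : (1 : ℝ) ≤ (a : ℝ) - c := by
    have : (c : ℝ) + 1 ≤ a := by exact_mod_cast hca
    linarith
  have hJ := Jc_nonneg h0 h1 hca (by omega : m ≤ a) hl
  have hZ := Zc_nonneg h0 h1 hmc hl
  have hR := R1_nonneg h0 c m'
  refine ⟨max 0 num / (1 - Kc p c m'), ?_, ?_⟩
  · rw [div_mul_cancel₀ _ h1K.ne']
    exact le_max_right _ _
  refine {
    L0 := by positivity
    k0 := by positivity
    k1 := by
      rw [div_le_div_iff₀ hcr (by norm_num)]; linarith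
    mu0 := by positivity
    mu1 := by
      rw [div_le_div_iff₀ hcr (by norm_num)]
      have : (2 : ℝ) * m' ≤ c := by exact_mod_cast h2
      linarith
    r0 := by positivity
    r1 := by
      rw [div_le_one hmr]
      exact_mod_cast (by omega : m ≤ m')
    hL := by
      have : (c : ℝ) * (1 - p) * (1 / c) = 1 - p := by field_simp
      linarith
    de0 := by
      exact div_le_div_of_nonneg_right hac1 hcr.le
    de1 := by
      have e : ((m' : ℝ) / c * (1 - m / m') - 1 / c) / 2 = ((m' : ℝ) - m - 1) / 2 / c := by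
        field_simp
      rw [e]
      exact div_le_div_of_nonneg_right (by linarith) hcr.le
    hY := by
      obtain ⟨b1, b2⟩ := neg_log_bounds hq hq4
      rw [show (1 : ℝ) - (1 - p) = p by ring] at b1 b2
      refine ⟨c * (-Real.log p), ?_, ?_, ?_, ?_⟩
      · have e : (c : ℝ) * (1 - p) + (c * (1 - p)) ^ 2 * (1 / c) / 2
            = c * ((1 - p) + (1 - p) ^ 2 / 2) := by field_simp
        rw [e]
        exact mul_le_mul_of_nonneg_left b1 hcr.le
      · have e : (c : ℝ) * (1 - p) + (c * (1 - p)) ^ 2 * (1 / c) / 2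
            + 4 / 9 * ((c * (1 - p)) ^ 3 * (1 / c) ^ 2)
            = c * ((1 - p) + (1 - p) ^ 2 / 2 + 4 / 9 * (1 - p) ^ 3) := by field_simp
        rw [e]
        exact mul_le_mul_of_nonneg_left b2 hcr.le
      · rw [show -((c : ℝ) * (-Real.log p)) = c * Real.log p by ring, ← Real.log_pow,
          Real.exp_log hE]
      · have e : (m' : ℝ) / c * (c * (-Real.log p)) = -(m' * Real.log p) := by field_simp
        rw [e, ← Real.log_pow, Real.exp_neg, Real.exp_log (pow_pos h0 _), one_div]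
    hps := by
      have : (c : ℝ) * (1 - p) * (1 / c) = 1 - p := by field_simp
      rw [this]
      unfold psi
      ring
    hK := by
      rw [Kc_prim h0 hmc]
      have : (m' : ℝ) / c * (c * (1 - p)) = (1 - p) * m' := by field_simp
      rw [this]
    MP0 := MP_nonneg h0 h1 a m
    hMP := MP_le_prim h0 h1 hca.le (by omega) hm0 (by omega)
    J0 := by positivity
    hJ := by
      have k := Jc_le_prim h0 h1 (a := a) (m := m) hca.le (by omega) hmc hl
      have k2 := div_le_div_of_nonneg_right k hcr.le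
      refine k2.trans (le_of_eq ?_)
      field_simp
      ring
    Z0 := by positivity
    hZ := by
      rw [Zc_prim h0 hmc, zc_eq hmc (by omega)]
      refine le_of_eq ?_
      field_simp
    T0 := by positivity
    hT := by
      have k := R1_le_prim h0 h1 hmc
      have k2 := div_le_div_of_nonneg_right k (by positivity : (0 : ℝ) ≤ (c : ℝ) ^ 2)
      refine k2.trans (le_of_eq ?_)
      field_simp
    KL0 := by positivity
    hKL := by
      have k := Kc_le_prim h0 h1 hmc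
      have k2 := div_le_div_of_nonneg_right k (by positivity : (0 : ℝ) ≤ (c : ℝ) * (1 - p))
      refine k2.trans (le_of_eq ?_)
      field_simp
    th0 := div_nonneg (le_max_left _ _) h1K.le
    hth := by
      rw [div_mul_cancel₀ _ h1K.ne']
      refine max_le_max le_rfl ?_
      rw [hnum]
      have e1 : (1 - 1 / (c : ℝ)) * (c * (1 - p) * p ^ c) = ((c : ℝ) - 1) * ((1 - p) * p ^ c) := by
        field_simp
      have e2 : (2 - 1 / (c : ℝ)) * (c * (1 - p) * p ^ c) = (2 * (c : ℝ) - 1) * ((1 - p) * p ^ c) := by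
        field_simp
      rw [e1, e2]
      have : p ^ a ≤ p ^ c := pow_le_pow_of_le_one h0.le h1.le hca.le
      have : (1 - p) * p ^ a ≤ (1 - p) * p ^ c := mul_le_mul_of_nonneg_left this hq.le
      have : (2 * (c : ℝ) - 1) * ((1 - p) * p ^ a) ≤ (2 * (c : ℝ) - 1) * ((1 - p) * p ^ c) :=
        mul_le_mul_of_nonneg_left this (by linarith)
      linarith }

theorem loSU_of {p : ℝ} {a m c m' : ℕ} (hmc : m' ≤ c) (hc : 0 < c)
    {s th M P P1 Mn Pn : ℝ} (U : LoU p a m c m' s th M P P1 Mn Pn) :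
    LoSU (c * (1 - p)) (1 / (c : ℝ)) ((m' : ℝ) / c) (((a : ℝ) - c) / c) (p ^ c) (psi p c)
      (Kc p c m') (MP p a m) (Jc p a m c / c) (Zc p c m' / c) th (c * s) M P P1 Mn Pn := by
  have hc' : (c : ℝ) ≠ 0 := by exact_mod_cast hc.ne'
  have hc0 : (0 : ℝ) < c := by exact_mod_cast hc
  have ea := alp_scale (p := p) hc s M
  have em := alm_scale (p := p) (a := a) hc s P
  have eb := bet_scale (p := p) (a := a) (m := m) hc s M P
  have ez := zc_eq hmc hc
  have eJ : Jc p a m c / c * (c * s) = Jc p a m c * s := by field_simp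
  have eZ : Zc p c m' / c * (c * s) = Zc p c m' * s := by field_simp
  refine {
    S0 := mul_nonneg hc0.le U.s0
    hS := ?_
    M0 := U.M0
    P0 := U.P0
    P10 := U.P10
    MMn := U.MMn
    PPn := U.PPn
    I1 := ?_
    I2 := ?_
    I3 := ?_
    I4 := ?_
    I5 := ?_ }
  · have k := mul_le_mul_of_nonneg_left U.hs hc0.le
    rw [ez] at k
    refine le_trans (le_of_eq ?_) (k.trans (le_of_eq ?_)) <;> ring
  · have k := U.I1
    rw [← em, eJ]
    refine k.trans (le_of_eq ?_)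
    field_simp
  · have k := U.I2
    rw [← ea, eJ]
    refine k.trans (le_of_eq ?_)
    field_simp
  · rcases U.I3 with k | k
    · left
      rw [← em, ← eb, eZ]
      rw [ez] at k
      refine k.trans (le_of_eq ?_)
      ring
    · right
      rw [eZ]
      rw [ez] at k
      refine k.trans (le_of_eq ?_)
      field_simp
      ring
  · rcases U.I4 with k | k
    · exact Or.inl k
    · right
      rw [PhiL_scale hmc hc] at k
      exact k
  · rcases U.I5 with k | k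
    · exact Or.inl k
    · right
      rw [eZ]
      refine k.trans (le_of_eq ?_)
      field_simp
      ring

/-- `LoNum` from the scaled statement -/
theorem lo_num_of (hN : LoSNum) {p : ℝ} {a m c m' : ℕ} (h0 : 0 < p) (h1 : p < 1)
    (hl : c * (1 - p) ≤ p) (h2 : 2 * m' ≤ c) (hca : c < a) (hd : 2 * (a - c) < m' - m) :
    LoNum p a m c m' := by
  have hc : 0 < c := by omega
  have hmc : m' ≤ c := by omega
  have hc' : (c : ℝ) ≠ 0 := by exact_mod_cast hc.ne'
  have hc0 : (0 : ℝ) < c := by exact_mod_cast hc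
  have hm' : (m' : ℝ) ≠ 0 := by
    have : m' ≠ 0 := by omega
    exact_mod_cast this
  obtain ⟨th, hth, B⟩ := loBase_of h0 h1 hl h2 hca hd
  refine ⟨th, B.th0, hth, ?_⟩
  intro s M P P1 Mn Pn U
  obtain ⟨F1, ⟨p2, G1, G2, G3, G4⟩, F3⟩ := hN _ _ _ _ _ _ _ _ _ _ _ _ _ _ _ _ _ _ _ _ _
    B (loSU_of hmc hc U)
  have ez := zc_eq hmc hc
  have e1 : (1 + ((a : ℝ) - c) / c - (m : ℝ) / m' * ((m' : ℝ) / c)) * (c * s)
      = ((a : ℝ) - m) * s := by
    field_simp
    ring
  have e2 : ((a : ℝ) - c) / c - (m : ℝ) / m' * ((m' : ℝ) / c) + (m' : ℝ) / c - 1 / c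
      = ((a : ℝ) - m - c * (1 - (m' : ℝ) / c) - 1) / c := by
    field_simp
    ring
  rw [e1] at F1
  rw [e1] at G3 G4
  rw [e2] at G2 G4
  have eZ : Zc p c m' / c * (c * s) = Zc p c m' * s := by field_simp
  rw [eZ] at G2
  refine ⟨F1, ⟨p2, G1, ?_, G3, ?_⟩, ?_⟩
  · rw [ez]
    refine le_trans (le_of_eq ?_) G2
    field_simp
  · rw [ez]
    refine le_trans (le_of_eq ?_) G4
    field_simp
  · rw [FinL_scale h1 hmc hc]
    exact mul_pos hc0 F3

end Coin
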