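import Pool.Agent.Lib.Coin.WinFullAsm
import Pool.Agent.Lib.Coin.WinLoScale
import Pool.Agent.Lib.Coin.WinLoAll
import Pool.Agent.Lib.Coin.WinHiNum

/-!
# Coin race, one-tail window, strict separation: `WinFull`
-/

namespace Coin

theorem loNumAll : LoNumAll := fun p a m c m' h0 h1 hl h2 hca hd =>
  lo_num_of loSNum h0 h1 hl h2 hca hd

theorem winFull : WinFull := winFull_of_nums loNumAll WN.hiNumAll

end Coin
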