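import Pool.Agent.Lib.Coin.WinSys
import Pool.Agent.Lib.Coin.Assembly

/-!
# Coin race, one-tail window: from the pair inequalities to the derivative of `G` (module M6a)
-/

namespace Coin

open Finset

/-! ### the two difference sets -/

theorem window_sdiff {a c m m' : ℕ} (hca : c < a) :
    (insert (c, 1) ((Icc 1 m').image (fun k => (k, 0)))) \
      (insert (a, 1) ((Icc 1 m).image (fun k => (k, 0))))
      = (insert (c, 1) ((Icc (m + 1) m').image (fun k => (k, 0))) : Finset (ℕ × ℕ)) := by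
  ext ⟨x, y⟩
  simp only [mem_sdiff, mem_insert, mem_image, mem_Icc, Prod.mk.injEq]
  constructor
  · rintro ⟨h1, h2⟩
    rcases h1 with h1 | ⟨k, hk, rfl, rfl⟩
    · exact Or.inl h1
    · right
      refine ⟨k, ⟨?_, hk.2⟩, rfl, rfl⟩
      by_contra hcon
      exact h2 (Or.inr ⟨k, ⟨hk.1, by omega⟩, rfl, rfl⟩)
  · rintro (⟨rfl, rfl⟩ | ⟨k, hk, rfl, rfl⟩)
    · refine ⟨Or.inl ⟨rfl, rfl⟩, ?_⟩
      rintro (h | ⟨k, -, -, h⟩)
      · omega
      · omega
    · refine ⟨Or.inr ⟨k, ⟨by omega, hk.2⟩, rfl, rfl⟩, ?_⟩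
      rintro (h | ⟨k', hk', h3, -⟩)
      · omega
      · omega

theorem window_sdiff' {a c m m' : ℕ} (hca : c < a) (hm : m ≤ m') :
    (insert (a, 1) ((Icc 1 m).image (fun k => (k, 0)))) \
      (insert (c, 1) ((Icc 1 m').image (fun k => (k, 0))))
      = ({(a, 1)} : Finset (ℕ × ℕ)) := by
  ext ⟨x, y⟩
  simp only [mem_sdiff, mem_insert, mem_image, mem_Icc, Prod.mk.injEq, mem_singleton]
  constructor
  · rintro ⟨h1, h2⟩
    rcases h1 with h1 | ⟨k, hk, rfl, rfl⟩
    · exact h1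
    · exfalso
      exact h2 (Or.inr ⟨k, ⟨hk.1, by omega⟩, rfl, rfl⟩)
  · rintro ⟨rfl, rfl⟩
    refine ⟨Or.inl ⟨rfl, rfl⟩, ?_⟩
    rintro (h | ⟨k, -, -, h⟩)
    · omega
    · omega

theorem window_card (c m m' : ℕ) :
    ((insert (c, 1) ((Icc (m + 1) m').image (fun k => (k, 0)))) : Finset (ℕ × ℕ)).card
      = 1 + (m' - m) := by
  rw [card_insert_of_notMem (by simp), card_image_of_injective _ (by
    intro x y h
    simpa using h)]
  simp
  omega

/-! ### the race function as a difference of positive terms -/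

theorem telescope {p : ℝ} (h0 : 0 < p) (w : ℤ → ℝ) (c n : ℕ) :
    ∑ i ∈ range n, 1 / p ^ (c + 1 + i) * (w ((c + 1 + i : ℕ) + 1) - p * w ((c + 1 + i : ℕ)))
      = 1 / p ^ (c + n) * w ((c + n : ℕ) + 1) - 1 / p ^ c * w ((c : ℕ) + 1) := by
  have hp : p ≠ 0 := h0.ne'
  induction n with
  | zero => simp
  | succ n ih =>
    rw [sum_range_succ, ih]
    have e1 : (((c + 1 + n : ℕ) : ℤ)) = ((c + n : ℕ) : ℤ) + 1 := by push_cast; ring
    have e2 : (((c + (n + 1) : ℕ) : ℤ)) = ((c + n : ℕ) : ℤ) + 1 := by push_cast; ring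
    rw [e1, e2, show c + (n + 1) = c + n + 1 by ring, show c + 1 + n = c + n + 1 by ring]
    have e3 : (1 : ℝ) / p ^ (c + n) = p * (1 / p ^ (c + n + 1)) := by
      rw [pow_succ]; field_simp
    rw [e3]
    ring

/-- `-(1-p) G = ∑ N_l - ∑ M_k` -/
theorem G_eq_NM {A B : List Bool} {a c m m' : ℕ} {p : ℝ} (h0 : 0 < p) (h1 : p < 1)
    (hA : A ≠ []) (hB : B ≠ []) (hca : c < a) (hm : m ≤ m')
    (hbA : bc A = insert (a, 1) ((Icc 1 m).image (fun k => (k, 0))))
    (hbB : bc B = insert (c, 1) ((Icc 1 m').image (fun k => (k, 0)))) :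
    -(1 - p) * G p A B
      = ∑ i ∈ range (a - c), 1 / p ^ (c + 1 + i) *
          (wz (pm p A) (pm p B) ((c + 1 + i : ℕ) + 1) - p * wz (pm p A) (pm p B) ((c + 1 + i : ℕ)))
        - ∑ k ∈ Icc (m + 1) m', (1 - p) * (1 / p ^ k) * wz (pm p A) (pm p B) k := by
  have hq : (1 - p) ≠ 0 := by intro h; linarith
  have hp : p ≠ 0 := h0.ne'
  have ha := isProb_pm h0 h1 hA
  have hb := isProb_pm h0 h1 hB
  rw [telescope h0, G_eq_sdiff h0 h1 hA hB, hbA, hbB, window_sdiff hca, window_sdiff' hca hm,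
    sum_insert (by simp), sum_singleton, sum_image (by
      intro x _ y _ h
      simpa using h)]
  have e1 : c + (a - c) = a := by omega
  rw [e1]
  simp only [kapc]
  have e2 : Wk (pm p A) (pm p B) (pm p B) (a + 1) = wz (pm p A) (pm p B) ((a : ℕ) + 1) := by
    rw [← wz_coe ha hb (by omega)]; push_cast; rfl
  have e3 : Wk (pm p A) (pm p B) (pm p B) (c + 1) = wz (pm p A) (pm p B) ((c : ℕ) + 1) := by
    rw [← wz_coe ha hb (by omega)]; push_cast; rfl
  have e4 : ∑ k ∈ Icc (m + 1) m', 1 / (p ^ k * (1 - p) ^ 0) *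
        Wk (pm p A) (pm p B) (pm p B) (k + 0)
      = ∑ k ∈ Icc (m + 1) m', 1 / p ^ k * wz (pm p A) (pm p B) k := by
    refine sum_congr rfl (fun k hk => ?_)
    have := (mem_Icc.mp hk).1
    rw [pow_zero, mul_one, add_zero, wz_coe ha hb (by omega)]
  have e5 : ∑ k ∈ Icc (m + 1) m', (1 - p) * (1 / p ^ k) * wz (pm p A) (pm p B) k
      = (1 - p) * ∑ k ∈ Icc (m + 1) m', 1 / p ^ k * wz (pm p A) (pm p B) k := by
    rw [mul_sum]
    exact sum_congr rfl (fun k _ => by ring)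
  rw [e2, e3, e4, e5]
  field_simp
  ring

/-! ### the derivative at a tie -/

/-- the pair inequality `d log N_l > d log M_k`, with `d = -p d/dp`, `f k = d w_k` -/
def WinIneq (p : ℝ) (w f : ℤ → ℝ) (l k : ℕ) : Prop :=
  ((p / (1 - p) + k) * w k + f k) * (w (l + 1) - p * w l)
    < (l * (w (l + 1) - p * w l) + f (l + 1) - p * f l + p * w l) * w k

theorem up_of_win {A B : List Bool} {a c m m' : ℕ} {p : ℝ} (h0 : 0 < p) (h1 : p < 1)
    (hA : A ≠ []) (hB : B ≠ []) (hca : c < a) (hm : m < m')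
    (hbA : bc A = insert (a, 1) ((Icc 1 m).image (fun k => (k, 0))))
    (hbB : bc B = insert (c, 1) ((Icc 1 m').image (fun k => (k, 0))))
    (hoA : OneT p a m (pm p A)) (hoB : OneT p c m' (pm p B))
    {dw : ℤ → ℝ}
    (hdw : ∀ k : ℤ, HasDerivAt (fun x => wz (pm x A) (pm x B) k) (dw k) p)
    (hG : G p A B = 0)
    (hW : ∀ l k : ℕ, c < l → l ≤ a → m < k → k ≤ m' →
      WinIneq p (wz (pm p A) (pm p B)) (fun k => -p * dw k) l k) :
    ∃ d : ℝ, 0 < d ∧ HasDerivAt (fun x => G x A B) d p := by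
  have hq : 0 < 1 - p := by linarith
  have hp : p ≠ 0 := h0.ne'
  set w : ℤ → ℝ := wz (pm p A) (pm p B) with hw
  -- the terms and their derivatives
  set N : ℕ → ℝ → ℝ := fun l x => 1 / x ^ l *
    (wz (pm x A) (pm x B) ((l : ℤ) + 1) - x * wz (pm x A) (pm x B) l) with hN
  set M : ℕ → ℝ → ℝ := fun k x => (1 - x) * (1 / x ^ k) * wz (pm x A) (pm x B) k with hM
  set dN : ℕ → ℝ := fun l => -(l : ℝ) / p * N l p + 1 / p ^ l * (dw (l + 1) - (w l + p * dw l))
    with hdN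
  set dM : ℕ → ℝ := fun k => -(1 / p ^ k) * w k - (k : ℝ) / p * M k p
    + (1 - p) * (1 / p ^ k) * dw k with hdM
  have hinv : ∀ n : ℕ, HasDerivAt (fun x : ℝ => 1 / x ^ n) (-(n : ℝ) / p * (1 / p ^ n)) p := by
    intro n
    have h2 := ((hasDerivAt_id p).pow n).inv (pow_ne_zero n hp)
    have h3 : (fun x : ℝ => 1 / x ^ n) = (fun x : ℝ => x ^ n)⁻¹ := by
      funext x
      simp [one_div]
    rw [h3]
    refine h2.congr_deriv ?_
    rcases Nat.eq_zero_or_pos n with hn | hn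
    · simp [hn]
    · have h4 : p ^ n = p ^ (n - 1) * p := by rw [← pow_succ, Nat.sub_add_cancel hn]
      simp only [id, mul_one, Pi.pow_apply]
      rw [h4]
      have h5 : p ^ (n - 1) ≠ 0 := pow_ne_zero _ hp
      field_simp
  have hN' : ∀ l : ℕ, HasDerivAt (N l) (dN l) p := by
    intro l
    have h2 : HasDerivAt (fun x => wz (pm x A) (pm x B) ((l : ℤ) + 1)
        - x * wz (pm x A) (pm x B) l) (dw (l + 1) - (1 * w l + p * dw l)) p :=
      (hdw _).sub ((hasDerivAt_id p).mul (hdw _))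
    have h3 := (hinv l).mul h2
    refine h3.congr_deriv ?_
    simp only [hdN, hN]
    ring
  have hM' : ∀ k : ℕ, HasDerivAt (M k) (dM k) p := by
    intro k
    have h2 : HasDerivAt (fun x : ℝ => (1 - x)) (-1) p := by
      have h := (hasDerivAt_const p (1 : ℝ)).sub (hasDerivAt_id p)
      rw [zero_sub] at h
      exact h
    have h3 := (h2.mul (hinv k)).mul (hdw (k : ℤ))
    refine h3.congr_deriv ?_
    simp only [hdM, hM, Pi.mul_apply, ← hw]
    ring
  -- the bracket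
  have hev : ∀ᶠ x in nhds p, 0 < x ∧ x < 1 :=
    (eventually_gt_nhds h0).and (eventually_lt_nhds h1)
  have hGf : ∀ x : ℝ, 0 < x → x < 1 → G x A B
      = -(1 / (1 - x)) * (∑ i ∈ range (a - c), N (c + 1 + i) x - ∑ k ∈ Icc (m + 1) m', M k x) := by
    intro x hx0 hx1
    have hx : (1 - x) ≠ 0 := by intro h; linarith
    have h2 := G_eq_NM hx0 hx1 hA hB hca hm.le hbA hbB
    have h3 : ∑ i ∈ range (a - c), N (c + 1 + i) x - ∑ k ∈ Icc (m + 1) m', M k x
        = -(1 - x) * G x A B := by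
      rw [h2]
    rw [h3]
    field_simp
  have hS : HasDerivAt (fun x => ∑ i ∈ range (a - c), N (c + 1 + i) x
      - ∑ k ∈ Icc (m + 1) m', M k x)
      (∑ i ∈ range (a - c), dN (c + 1 + i) - ∑ k ∈ Icc (m + 1) m', dM k) p := by
    refine HasDerivAt.sub ?_ ?_
    · exact HasDerivAt.fun_sum (fun i _ => hN' _)
    · exact HasDerivAt.fun_sum (fun k _ => hM' _)
  have hS0 : ∑ i ∈ range (a - c), N (c + 1 + i) p - ∑ k ∈ Icc (m + 1) m', M k p = 0 := by
    have h2 := hGf p h0 h1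
    rw [hG] at h2
    have h3 : (1 / (1 - p)) ≠ 0 := by positivity
    have h4 : -(1 / (1 - p)) ≠ 0 := neg_ne_zero.mpr h3
    rcases mul_eq_zero.mp h2.symm with h5 | h5
    · exact absurd h5 h4
    · exact h5
  have hD1 : HasDerivAt (fun x : ℝ => -(1 / (1 - x))) (-(1 / (1 - p) ^ 2)) p := by
    have h2 : HasDerivAt (fun x : ℝ => (1 - x)) (-1) p := by
      have h := (hasDerivAt_const p (1 : ℝ)).sub (hasDerivAt_id p)
      rw [zero_sub] at h
      exact h
    have h3 := (h2.inv hq.ne').neg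
    have h4 : (fun x : ℝ => -(1 / (1 - x))) = -(fun x : ℝ => (1 - x))⁻¹ := by
      funext x
      simp [one_div]
    rw [h4]
    refine h3.congr_deriv ?_
    ring
  have hD := hD1.mul hS
  have hD2 : HasDerivAt (fun x => G x A B)
      (-(1 / (1 - p) ^ 2) * (∑ i ∈ range (a - c), N (c + 1 + i) p - ∑ k ∈ Icc (m + 1) m', M k p)
        + -(1 / (1 - p)) * (∑ i ∈ range (a - c), dN (c + 1 + i) - ∑ k ∈ Icc (m + 1) m', dM k)) p := by
    refine hD.congr_of_eventuallyEq ?_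
    filter_upwards [hev] with x hx
    rw [hGf x hx.1 hx.2]
    rfl
  refine ⟨_, ?_, hD2⟩
  rw [hS0, mul_zero, zero_add]
  -- the pair inequalities
  have hpair : ∀ i ∈ range (a - c), ∀ k ∈ Icc (m + 1) m',
      N (c + 1 + i) p * (-p * dM k) < (-p * dN (c + 1 + i)) * M k p := by
    intro i hi k hk
    have hi' := mem_range.mp hi
    have hk' := mem_Icc.mp hk
    have h2 := hW (c + 1 + i) k (by omega) (by omega) (by omega) hk'.2
    unfold WinIneq at h2
    have hl : (0 : ℝ) < 1 / p ^ (c + 1 + i) := by positivity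
    have hkk : (0 : ℝ) < (1 - p) * (1 / p ^ k) := by positivity
    have h3 := mul_lt_mul_of_pos_left h2 (mul_pos hl hkk)
    have e1 : N (c + 1 + i) p * (-p * dM k)
        = 1 / p ^ (c + 1 + i) * ((1 - p) * (1 / p ^ k)) *
          (((p / (1 - p) + (k : ℝ)) * w k + -p * dw k) *
            (w (((c + 1 + i : ℕ) : ℤ) + 1) - p * w ((c + 1 + i : ℕ) : ℤ))) := by
      simp only [hN, hdM, hM, ← hw]
      field_simp
      ring
    have e2 : (-p * dN (c + 1 + i)) * M k p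
        = 1 / p ^ (c + 1 + i) * ((1 - p) * (1 / p ^ k)) *
          ((((c + 1 + i : ℕ) : ℝ) * (w (((c + 1 + i : ℕ) : ℤ) + 1) - p * w ((c + 1 + i : ℕ) : ℤ))
            + -p * dw (((c + 1 + i : ℕ) : ℤ) + 1) - p * (-p * dw ((c + 1 + i : ℕ) : ℤ))
            + p * w ((c + 1 + i : ℕ) : ℤ)) * w k) := by
      simp only [hN, hdN, hM, ← hw]
      field_simp
      ring
    rw [e1, e2]
    exact h3
  have hNpos : 0 < ∑ i ∈ range (a - c), N (c + 1 + i) p := by
    refine sum_pos (fun i hi => ?_) ⟨0, mem_range.mpr (by omega)⟩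
    have hi' := mem_range.mp hi
    refine mul_pos (by positivity) (win_N_pos h1 hoA hoB (by push_cast; omega))
  have hsum : (∑ i ∈ range (a - c), N (c + 1 + i) p) * (∑ k ∈ Icc (m + 1) m', (-p * dM k))
      < (∑ i ∈ range (a - c), (-p * dN (c + 1 + i))) * (∑ k ∈ Icc (m + 1) m', M k p) := by
    rw [sum_mul_sum, sum_mul_sum]
    refine sum_lt_sum_of_nonempty ⟨0, mem_range.mpr (by omega)⟩ (fun i hi => ?_)
    refine sum_lt_sum_of_nonempty ⟨m', mem_Icc.mpr ⟨by omega, le_rfl⟩⟩ (fun k hk => ?_)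
    exact hpair i hi k hk
  have hMN : ∑ k ∈ Icc (m + 1) m', M k p = ∑ i ∈ range (a - c), N (c + 1 + i) p := by linarith
  rw [hMN, mul_comm (∑ i ∈ range (a - c), (-p * dN (c + 1 + i)))] at hsum
  have hlt := lt_of_mul_lt_mul_left hsum hNpos.le
  rw [← mul_sum, ← mul_sum] at hlt
  have h5 : ∑ i ∈ range (a - c), dN (c + 1 + i) - ∑ k ∈ Icc (m + 1) m', dM k < 0 := by
    nlinarith
  have h6 : 0 < 1 / (1 - p) := by positivity
  nlinarith

/-- `WinFull` from the pair inequalities and the differentiability of the weights -/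
theorem winFull_of
    (hd : ∀ A B : List Bool, A ≠ [] → B ≠ [] → ∀ p : ℝ, 0 < p → p < 1 → ∀ k : ℤ,
      ∃ d : ℝ, HasDerivAt (fun x => wz (pm x A) (pm x B) k) d p)
    (hW : ∀ (A B : List Bool) (a c m m' : ℕ) (p : ℝ), 0 < p → p < 1 → c < a → a - c < m' - m →
      (∀ x : ℝ, 0 < x → x < 1 → OneT x a m (pm x A)) →
      (∀ x : ℝ, 0 < x → x < 1 → OneT x c m' (pm x B)) → G p A B = 0 →
      ∀ dw : ℤ → ℝ, (∀ k : ℤ, HasDerivAt (fun x => wz (pm x A) (pm x B) k) (dw k) p) →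
      ∀ l k : ℕ, c < l → l ≤ a → m < k → k ≤ m' →
        WinIneq p (wz (pm p A) (pm p B)) (fun k => -p * dw k) l k) : WinFull := by
  intro A B hA hB hA1 hB1 hca hcard p h0 h1 hG
  obtain ⟨m, hm, hbA, hoA⟩ := one_tail_law hA1
  obtain ⟨m', hm', hbB, hoB⟩ := one_tail_law hB1
  rw [hbA, hbB, window_sdiff hca, window_card] at hcard
  have hmm : m < m' := by omega
  choose dw hdw using hd A B hA hB p h0 h1
  exact up_of_win h0 h1 hA hB hca hmm hbA hbB (hoA p h0 h1) (hoB p h0 h1) hdw hG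
    (hW A B _ _ m m' p h0 h1 hca (by omega) hoA hoB hG dw hdw)

end Coin
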