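import Pool.Agent.Lib.Coin.WinHi2

/-!
# Coin race, one-tail window, `c q ≥ p`: the chain lemma
-/

namespace Coin

open Finset

namespace HiDat

variable {d : HiDat} {l : ℝ}

/-- both unknowns scaled -/
def scale (d : HiDat) (l : ℝ) : HiDat := { d with N := l * d.N, U := l * d.U }

theorem scale_b (hl : 1 ≤ l) (hPA : 0 ≤ d.PA) (hs : 0 ≤ d.s) : (d.scale l).b ≤ l * d.b := by
  unfold HiDat.b scale
  have : 0 ≤ (l - 1) * (d.PA * d.s) := mul_nonneg (by linarith) (by positivity)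
  simp only
  linarith

theorem scale_w1 (hl : 1 ≤ l) (hAa : 0 ≤ d.Aa) (hs : 0 ≤ d.s) :
    (d.scale l).w1 ≤ l * d.w1 := by
  unfold HiDat.w1 scale
  have : 0 ≤ (l - 1) * (d.Aa * d.s) := mul_nonneg (by linarith) (by positivity)
  simp only
  linarith

theorem scale_D1 (m : ℕ) (hl : 1 ≤ l) (hPA : 0 ≤ d.PA) (hs : 0 ≤ d.s) :
    (d.scale l).D1 m ≤ l * d.D1 m := by
  have h3 := scale_b hl hPA hs
  unfold HiDat.D1
  have : (2 * (m : ℝ) + 1) * ((d.scale l).qa * (d.scale l).U)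
      = l * ((2 * m + 1) * (d.qa * d.U)) := by
    unfold scale; simp only; ring
  linarith

theorem scale_D2 (m : ℕ) (hl : 1 ≤ l) (hPA : 0 ≤ d.PA) (hAa : 0 ≤ d.Aa) (hs : 0 ≤ d.s) :
    (d.scale l).D2 m ≤ l * d.D2 m := by
  have h3 := scale_b hl hPA hs
  have h4 := mul_le_mul_of_nonneg_left (scale_w1 hl hAa hs) (by positivity : (0 : ℝ) ≤ 2 * m + 1)
  unfold HiDat.D2
  linarith

theorem scale_w0 (m : ℕ) (hl : 1 ≤ l) (hPA : 0 ≤ d.PA) (hMP : 0 ≤ d.MP) (hs : 0 ≤ d.s)
    (ht : 0 ≤ d.t) : (d.scale l).w0 m ≤ l * d.w0 m := by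
  have h3 := mul_le_mul_of_nonneg_left (scale_D1 m hl hPA hs) hMP
  have h4 : 0 ≤ (l - 1) * (d.PA * (d.s + d.t)) := mul_nonneg (by linarith) (by positivity)
  unfold HiDat.w0
  have e1 : (d.scale l).PA * ((d.scale l).s + (d.scale l).t)
      + (d.scale l).M1 * ((d.scale l).U + (d.scale l).N)
      = l * (d.PA * (d.s + d.t) + d.M1 * (d.U + d.N)) - (l - 1) * (d.PA * (d.s + d.t)) := by
    unfold scale; simp only; ring
  have e2 : (d.scale l).MP = d.MP := rfl
  rw [e1, e2]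
  linarith

theorem scale_W (m c : ℕ) (hl : 1 ≤ l) (hPA : 0 ≤ d.PA) (hAa : 0 ≤ d.Aa) (hMP : 0 ≤ d.MP)
    (hs : 0 ≤ d.s) (ht : 0 ≤ d.t) : (d.scale l).W m c ≤ l * d.W m c := by
  have h3 := mul_le_mul_of_nonneg_left (scale_D2 m hl hPA hAa hs) hMP
  have h4 : 0 ≤ (l - 1) * (d.PA * (d.s + d.t)) := mul_nonneg (by linarith) (by positivity)
  unfold HiDat.W
  have e1 : (d.scale l).PA * ((d.scale l).s + (d.scale l).t)
      + (d.scale l).M1 * ((d.scale l).U + (d.scale l).N)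
      = l * (d.PA * (d.s + d.t) + d.M1 * (d.U + d.N)) - (l - 1) * (d.PA * (d.s + d.t)) := by
    unfold scale; simp only; ring
  have e2 : (d.scale l).MP = d.MP := rfl
  have e3 : (2 * (c : ℝ) - 1) * ((d.scale l).qa * (d.scale l).U)
      = l * ((2 * c - 1) * (d.qa * d.U)) := by
    unfold scale; simp only; ring
  rw [e1, e2, e3]
  linarith

end HiDat

namespace HiOKx

variable {p : ℝ} {a m c m' xn : ℕ} {g f : ℤ → ℝ} {d : HiDat}

theorem psi_c_le (h0 : 0 < p) (hk : p ≤ c * (1 - p)) : psi p c ≤ 0 := by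
  unfold psi
  have := pow_pos h0 c
  nlinarith

theorem psi_a_le (h0 : 0 < p) (h1 : p < 1) (hca : c < a) (hk : p ≤ c * (1 - p)) :
    psi p a ≤ 0 := by
  unfold psi
  have := pow_pos h0 a
  have h3 : (c : ℝ) ≤ a := by exact_mod_cast hca.le
  have : (c : ℝ) * (1 - p) ≤ a * (1 - p) := mul_le_mul_of_nonneg_right h3 (by linarith)
  nlinarith

/-- the numbers satisfy the hypotheses of the one-step lemma -/
theorem hib (ok : HiOKx p a m c m' xn d) (h : WSys p a m c m' g f) (h0 : 0 < p) (h1 : p < 1)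
    (hca : c < a) (hw : a - c < m' - m) (h2 : 2 * m' ≤ c) (hk : p ≤ c * (1 - p)) :
    HiB p a m c m' g d := by
  obtain ⟨s, hs, hat⟩ := WSys.exists_sup (a := a) (c := c) hca g
  have hs0 := h.s_nonneg hat
  have h3 := h.K1_s h0 h1 hca hw h2 hs hat ok.th0 ok.hth
  have h4 : s ≤ d.s := by
    have h5 := h3.trans ok.hs
    exact le_of_mul_le_mul_right h5 ok.hs0
  have h5 : d.th * s ≤ d.t := (mul_le_mul_of_nonneg_left h4 ok.th0).trans ok.ht
  have h6 : 0 ≤ d.th * s := mul_nonneg ok.th0 hs0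
  exact
    { hs := fun x hx1 hx2 => (hs x hx1 hx2).trans h4
      ht := fun n hn => by
        have := h.K1d h0 h1 hca hw h2 hs hat ok.th0 ok.hth hn
        linarith
      s0 := hs0.trans h4
      t0 := h6.trans h5
      psc := psi_c_le h0 hk
      psa := psi_a_le h0 h1 hca hk
      hA := ok.hA
      hAa := ok.hAa
      hqa := ok.hqa
      hMP := ok.hMP
      hM1 := ok.hM1
      hPA := ok.hPA
      hK := ok.hK
      hK2 := ok.hK2
      hQp := ok.hQp
      hQn := ok.hQn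
      N0 := ok.hN.le
      U0 := ok.hU.le }

theorem hib_scale (k : HiB p a m c m' g d) {l : ℝ} (hl : 0 ≤ l) :
    HiB p a m c m' g (d.scale l) :=
  { hs := k.hs
    ht := k.ht
    s0 := k.s0
    t0 := k.t0
    psc := k.psc
    psa := k.psa
    hA := k.hA
    hAa := k.hAa
    hqa := k.hqa
    hMP := k.hMP
    hM1 := k.hM1
    hPA := k.hPA
    hK := k.hK
    hK2 := k.hK2
    hQp := k.hQp
    hQn := k.hQn
    N0 := mul_nonneg hl k.N0
    U0 := mul_nonneg hl k.U0 }

/-- the strict step -/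
theorem step (ok : HiOKx p a m c m' xn d) (h : WSys p a m c m' g f) (h0 : 0 < p) (h1 : p < 1)
    (hca : c < a) (hw : a - c < m' - m) (h2 : 2 * m' ≤ c) (hk : p ≤ c * (1 - p)) {l : ℝ}
    (hl : 1 ≤ l) (hL : ∀ x : ℤ, 1 ≤ x → x ≤ a + c → -(l * d.N) ≤ dd f x)
    (hV : ∀ x : ℤ, 1 ≤ x → x ≤ a + c → dd f x ≤ l * d.U) {x : ℤ} (hx1 : 1 ≤ x)
    (hx2 : x ≤ a + c) : -dd f x < l * d.N ∧ dd f x < l * d.U := by
  have k := ok.hib h h0 h1 hca hw h2 hk
  have k' : HiB p a m c m' g (d.scale l) := hib_scale k (by linarith)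
  have hq : 0 < 1 - p := by linarith
  have hP : 0 < (1 - p) * p ^ c := by positivity
  have hA0 := k.A_nonneg
  have hAa0 := k.Aa_nonneg
  have hPA0 := k.PA_nonneg
  have hMP0 := k.MP_nonneg h0 h1
  have hQp0 := k.Qp_nonneg
  have hQn0 := k.Qn_nonneg
  have hK0 := k.K_nonneg h0 h1 (by omega)
  have hK20 := k.K2_nonneg h0 h1 (by omega)
  have hs0 := k.s0
  have ht0 := k.t0
  have hN0 := ok.hN
  have hU0 := ok.hU
  have hqa0 := k.qa_nonneg h0 h1
  have hb0 := k.b_nonneg h0 h1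
  have hw10 := k.w1_nonneg h0 h1
  have sb := HiDat.scale_b (d := d) hl hPA0 hs0
  have sw1 := HiDat.scale_w1 (d := d) hl hAa0 hs0
  have sw0 := HiDat.scale_w0 (d := d) m hl hPA0 hMP0 hs0 ht0
  have sW := HiDat.scale_W (d := d) m c hl hPA0 hAa0 hMP0 hs0 ht0
  have l0 : 0 < l := by linarith
  have q1 : d.Qp * d.s + d.Qn * d.t ≤ l * (d.Qp * d.s + d.Qn * d.t) := by
    have : 0 ≤ (l - 1) * (d.Qp * d.s + d.Qn * d.t) := mul_nonneg (by linarith) (by positivity)
    linarith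
  have q2 : d.Qn * d.s + d.Qp * d.t ≤ l * (d.Qn * d.s + d.Qp * d.t) := by
    have : 0 ≤ (l - 1) * (d.Qn * d.s + d.Qp * d.t) := mul_nonneg (by linarith) (by positivity)
    linarith
  have q3 : d.K * (l * d.U + (d.scale l).w0 m) ≤ l * (d.K * (d.U + d.w0 m)) := by
    have := mul_le_mul_of_nonneg_left sw0 hK0
    linarith
  have q4 : d.K * (l * d.N + (d.scale l).W m c) ≤ l * (d.K * (d.N + d.W m c)) := by
    have := mul_le_mul_of_nonneg_left sW hK0
    linarith
  rcases le_or_gt x ((c - m' : ℕ) + 1) with hz | hz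
  · obtain ⟨n, hn⟩ : ∃ n : ℕ, x = ((c - m' : ℕ) : ℤ) + 1 - n :=
      ⟨((c - m' : ℕ) + 1 - x).toNat, by omega⟩
    have hnz : n ≤ c - m' := by omega
    have hnr : (n : ℝ) ≤ ((c - m' : ℕ) : ℝ) := by exact_mod_cast hnz
    have hn0 : (0 : ℝ) ≤ n := by positivity
    have h3 := k'.zoneI h h0 h1 hca hw h2 hL hV hnz hn
    set z : ℝ := ((c - m' : ℕ) : ℝ) with hzdef
    have hz0 : 0 ≤ z := by positivity
    have e1 : d.A * (1 + n * d.s) ≤ l * (d.A * (1 + z * d.s)) := by
      have a1 : d.A * (1 + n * d.s) ≤ d.A * (1 + z * d.s) := by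
        have := mul_le_mul_of_nonneg_right hnr hs0
        exact mul_le_mul_of_nonneg_left (by linarith) hA0
      have : 0 ≤ (l - 1) * (d.A * (1 + z * d.s)) := mul_nonneg (by linarith) (by positivity)
      linarith
    have hnn : (n : ℝ) ^ 2 ≤ z ^ 2 := pow_le_pow_left₀ hn0 hnr 2
    have e2 : (n : ℝ) * (l * d.N) + n * (d.scale l).b + (n : ℝ) ^ 2 * (d.qa * (l * d.U))
        ≤ l * (z * d.N + z * d.b + z ^ 2 * (d.qa * d.U)) := by
      have a1 : (n : ℝ) * (l * d.N) ≤ z * (l * d.N) :=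
        mul_le_mul_of_nonneg_right hnr (by positivity)
      have a2 : (n : ℝ) * (d.scale l).b ≤ z * (l * d.b) :=
        (mul_le_mul_of_nonneg_left sb hn0).trans
          (mul_le_mul_of_nonneg_right hnr (by positivity))
      have a3 : (n : ℝ) ^ 2 * (d.qa * (l * d.U)) ≤ z ^ 2 * (d.qa * (l * d.U)) :=
        mul_le_mul_of_nonneg_right hnn (by positivity)
      linarith
    have e3 : (n : ℝ) * (l * d.U) + n * (d.scale l).b + (n : ℝ) ^ 2 * (d.scale l).w1
        ≤ l * (z * d.U + z * d.b + z ^ 2 * d.w1) := by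
      have a1 : (n : ℝ) * (l * d.U) ≤ z * (l * d.U) :=
        mul_le_mul_of_nonneg_right hnr (by positivity)
      have a2 : (n : ℝ) * (d.scale l).b ≤ z * (l * d.b) :=
        (mul_le_mul_of_nonneg_left sb hn0).trans
          (mul_le_mul_of_nonneg_right hnr (by positivity))
      have a3 : (n : ℝ) ^ 2 * (d.scale l).w1 ≤ z ^ 2 * (l * d.w1) :=
        (mul_le_mul_of_nonneg_left sw1 (by positivity)).trans
          (mul_le_mul_of_nonneg_right hnn (by positivity))
      linarith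
    have e4 : (d.scale l).w1 * ((2 * n + 1) * d.K + d.K2)
        ≤ l * (d.w1 * ((2 * z + 1) * d.K + d.K2)) := by
      have a1 : (2 * (n : ℝ) + 1) * d.K + d.K2 ≤ (2 * z + 1) * d.K + d.K2 := by
        have := mul_le_mul_of_nonneg_right hnr hK0
        linarith
      calc _ ≤ (l * d.w1) * ((2 * n + 1) * d.K + d.K2) :=
            mul_le_mul_of_nonneg_right sw1 (by positivity)
        _ ≤ (l * d.w1) * ((2 * z + 1) * d.K + d.K2) :=
            mul_le_mul_of_nonneg_left a1 (by positivity)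
        _ = _ := by ring
    have e5 := mul_le_mul_of_nonneg_left e2 hP.le
    have e6 := mul_le_mul_of_nonneg_left e3 hP.le
    have t1 := mul_lt_mul_of_pos_left ok.hN1 l0
    have t2 := mul_lt_mul_of_pos_left ok.hU1 l0
    have r1 : (d.scale l).N = l * d.N := rfl
    have r2 : (d.scale l).U = l * d.U := rfl
    have r3 : (d.scale l).A = d.A := rfl
    have r4 : (d.scale l).s = d.s := rfl
    have r5 : (d.scale l).t = d.t := rfl
    have r6 : (d.scale l).qa = d.qa := rfl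
    have r7 : (d.scale l).Qp = d.Qp := rfl
    have r8 : (d.scale l).Qn = d.Qn := rfl
    have r9 : (d.scale l).K = d.K := rfl
    have r10 : (d.scale l).K2 = d.K2 := rfl
    rw [r1, r2, r3, r4, r5, r6, r7, r8, r9, r10] at h3
    rw [← hzdef] at t1 t2
    constructor
    · linarith [h3.1]
    · linarith [h3.2]
  · obtain ⟨y, hy⟩ : ∃ y : ℕ, x = ((c - m' : ℕ) : ℤ) + 1 + y :=
      ⟨(x - ((c - m' : ℕ) + 1)).toNat, by omega⟩
    have hya : y + 1 ≤ a + m' := by omega
    have hyr : (y : ℝ) ≤ (a : ℝ) + m' - 1 := by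
      have : (y : ℝ) + 1 ≤ (a : ℝ) + m' := by exact_mod_cast hya
      linarith
    have h3 := k'.zoneII h h0 h1 hca hw h2 hL hV (y := y) (by omega) hy
    have e1 : d.A ≤ l * d.A := by
      have : 0 ≤ (l - 1) * d.A := mul_nonneg (by linarith) hA0
      linarith
    have e2 : (y : ℝ) * (l * d.U) ≤ l * (((a : ℝ) + m' - 1) * d.U) := by
      have := mul_le_mul_of_nonneg_right hyr (by positivity : 0 ≤ l * d.U)
      linarith
    have e3 : (y : ℝ) * (l * d.N) ≤ l * (((a : ℝ) + m' - 1) * d.N) := by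
      have := mul_le_mul_of_nonneg_right hyr (by positivity : 0 ≤ l * d.N)
      linarith
    have e4 : (d.scale l).w1 * (d.K + d.K2) ≤ l * (d.w1 * (d.K + d.K2)) := by
      have := mul_le_mul_of_nonneg_right sw1 (by positivity : 0 ≤ d.K + d.K2)
      linarith
    have e5 := mul_le_mul_of_nonneg_left e2 hP.le
    have e6 := mul_le_mul_of_nonneg_left e3 hP.le
    have t1 := mul_lt_mul_of_pos_left ok.hN2 l0
    have t2 := mul_lt_mul_of_pos_left ok.hU2 l0
    have r1 : (d.scale l).N = l * d.N := rfl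
    have r2 : (d.scale l).U = l * d.U := rfl
    have r3 : (d.scale l).A = d.A := rfl
    have r4 : (d.scale l).s = d.s := rfl
    have r5 : (d.scale l).t = d.t := rfl
    have r7 : (d.scale l).Qp = d.Qp := rfl
    have r8 : (d.scale l).Qn = d.Qn := rfl
    have r9 : (d.scale l).K = d.K := rfl
    have r10 : (d.scale l).K2 = d.K2 := rfl
    rw [r1, r2, r3, r4, r5, r7, r8, r9, r10] at h3
    constructor
    · linarith [h3.1]
    · linarith [h3.2]

/-- the bounds `-N ≤ e ≤ U` -/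
theorem bounds (ok : HiOKx p a m c m' xn d) (h : WSys p a m c m' g f) (h0 : 0 < p) (h1 : p < 1)
    (hca : c < a) (hw : a - c < m' - m) (h2 : 2 * m' ≤ c) (hk : p ≤ c * (1 - p)) :
    ∀ x : ℤ, 1 ≤ x → x ≤ a + c → -d.N ≤ dd f x ∧ dd f x ≤ d.U := by
  have hN0 := ok.hN
  have hU0 := ok.hU
  obtain ⟨x0, hx0, hmax⟩ := Finset.exists_max_image (Finset.Icc (1 : ℤ) (a + c))
    (fun x => max (-dd f x / d.N) (dd f x / d.U)) ⟨1, by rw [Finset.mem_Icc]; omega⟩
  rw [Finset.mem_Icc] at hx0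
  set l := max (-dd f x0 / d.N) (dd f x0 / d.U) with hldef
  have hall : ∀ x : ℤ, 1 ≤ x → x ≤ a + c → -(max l 1 * d.N) ≤ dd f x
      ∧ dd f x ≤ max l 1 * d.U := by
    intro x hx1 hx2
    have h3 := hmax x (by rw [Finset.mem_Icc]; omega)
    have h4 : -dd f x / d.N ≤ max l 1 := (le_max_left _ _).trans (h3.trans (le_max_left _ _))
    have h5 : dd f x / d.U ≤ max l 1 := (le_max_right _ _).trans (h3.trans (le_max_left _ _))
    rw [div_le_iff₀ hN0] at h4
    rw [div_le_iff₀ hU0] at h5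
    constructor <;> linarith
  have hlt := ok.step h h0 h1 hca hw h2 hk (l := max l 1) (le_max_right _ _)
    (fun x hx1 hx2 => (hall x hx1 hx2).1) (fun x hx1 hx2 => (hall x hx1 hx2).2) hx0.1 hx0.2
  have hl1 : l ≤ 1 := by
    by_contra hcon
    rw [not_le] at hcon
    rw [max_eq_left hcon.le] at hlt
    have h3 : -dd f x0 / d.N < l := by rw [div_lt_iff₀ hN0]; linarith [hlt.1]
    have h4 : dd f x0 / d.U < l := by rw [div_lt_iff₀ hU0]; linarith [hlt.2]
    exact absurd (max_lt h3 h4) (by rw [← hldef]; exact lt_irrefl _)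
  intro x hx1 hx2
  have := hall x hx1 hx2
  rw [max_eq_right hl1, one_mul, one_mul] at this
  exact this

end HiOKx

end Coin
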