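import Pool.Agent.Lib.Coin.HiCert

/-!
# Coin race, one-tail window, `c q ≥ p`: sharper bounds of the reflection correction
-/

namespace Coin

open Finset

namespace WinHi1

theorem sum_Icc_shift (H : ℕ → ℝ) (m : ℕ) : ∑ j ∈ Icc 1 m, H (j - 1) = ∑ k ∈ range m, H k := by
  induction m with
  | zero => simp
  | succ m ih => rw [Finset.sum_Icc_succ_top (by omega), ih, sum_range_succ, Nat.add_sub_cancel]

/-- the far terms are covered by the range and the near terms -/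
theorem cover {H : ℕ → ℝ} {M : ℝ} (hH0 : ∀ k, 0 ≤ H k) (hHM : ∀ k, H k ≤ M) {r : ℕ → ℝ}
    (hr : ∀ j, 1 ≤ r j) (n m : ℕ) :
    ∑ j ∈ Icc 1 m, r j * H (j - 1)
      ≤ ∑ k ∈ range n, H k + ∑ j ∈ Icc 1 m, r j * H (n + (j - 1))
        + (∑ j ∈ Icc 1 m, (r j - 1)) * M := by
  have e1 : ∑ j ∈ Icc 1 m, r j * H (j - 1)
      ≤ ∑ j ∈ Icc 1 m, H (j - 1) + (∑ j ∈ Icc 1 m, (r j - 1)) * M := by
    rw [sum_mul, ← sum_add_distrib]
    refine sum_le_sum (fun j _ => ?_)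
    have := mul_le_mul_of_nonneg_left (hHM (j - 1)) (by linarith [hr j] : 0 ≤ r j - 1)
    linarith
  have e2 : ∑ j ∈ Icc 1 m, H (n + (j - 1)) ≤ ∑ j ∈ Icc 1 m, r j * H (n + (j - 1)) := by
    refine sum_le_sum (fun j _ => ?_)
    have := mul_le_mul_of_nonneg_right (hr j) (hH0 (n + (j - 1)))
    linarith
  have e3 : ∑ j ∈ Icc 1 m, H (j - 1) ≤ ∑ k ∈ range n, H k + ∑ j ∈ Icc 1 m, H (n + (j - 1)) := by
    rw [sum_Icc_shift H m, sum_Icc_shift (fun k => H (n + k)) m, ← sum_range_add H n m]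
    exact sum_le_sum_of_subset_of_nonneg (range_subset_range.mpr (by omega)) (fun k _ _ => hH0 k)
  linarith

theorem sub_eq_sum_dd' (f : ℤ → ℝ) (v : ℤ) (n : ℕ) :
    f (v - n) - f v = ∑ k ∈ range n, dd f (v - k) := by
  induction n with
  | zero => simp
  | succ n ih =>
    rw [sum_range_succ, ← ih]
    unfold dd
    rw [show v - ((n + 1 : ℕ) : ℤ) = v - n - 1 by push_cast; ring]
    ring

theorem ePart_le {p : ℝ} (h0 : 0 < p) (h1 : p < 1) {E : ℤ → ℝ} {L V : ℝ}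
    (hL : ∀ x, -L ≤ E x) (hV : ∀ x, E x ≤ V) (v : ℤ) (n m : ℕ) :
    ∑ k ∈ range (2 * n + 1), E (v - k)
      + ∑ j ∈ Icc 1 m, 1 / p ^ j * (E (v - 2 * n - j) - E (v + 1 - j))
      ≤ (2 * n + 1) * V + (∑ j ∈ Icc 1 m, (1 / p ^ j - 1)) * (L + V) := by
  have hr : ∀ j : ℕ, 1 ≤ 1 / p ^ j := by
    intro j
    have : 0 < p ^ j := pow_pos h0 j
    rw [le_div_iff₀ this, one_mul]
    exact pow_le_one₀ h0.le h1.le
  have hc := cover (H := fun k : ℕ => V - E (v - k)) (M := L + V)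
    (fun k => by have := hV (v - k); linarith)
    (fun k => by have := hL (v - k); linarith) hr (2 * n + 1) m
  have e1 : ∑ j ∈ Icc 1 m, 1 / p ^ j * (V - E (v - ((j - 1 : ℕ) : ℤ)))
      = ∑ j ∈ Icc 1 m, 1 / p ^ j * V - ∑ j ∈ Icc 1 m, 1 / p ^ j * E (v + 1 - j) := by
    rw [← sum_sub_distrib]
    refine sum_congr rfl (fun j hj => ?_)
    rw [mem_Icc] at hj
    rw [show v - ((j - 1 : ℕ) : ℤ) = v + 1 - j by omega]
    ring
  have e2 : ∑ j ∈ Icc 1 m, 1 / p ^ j * (V - E (v - ((2 * n + 1 + (j - 1) : ℕ) : ℤ)))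
      = ∑ j ∈ Icc 1 m, 1 / p ^ j * V - ∑ j ∈ Icc 1 m, 1 / p ^ j * E (v - 2 * n - j) := by
    rw [← sum_sub_distrib]
    refine sum_congr rfl (fun j hj => ?_)
    rw [mem_Icc] at hj
    rw [show v - ((2 * n + 1 + (j - 1) : ℕ) : ℤ) = v - 2 * n - j by omega]
    ring
  have e3 : ∑ k ∈ range (2 * n + 1), (V - E (v - k))
      = (2 * n + 1) * V - ∑ k ∈ range (2 * n + 1), E (v - k) := by
    rw [sum_sub_distrib, sum_const, card_range, nsmul_eq_mul]
    push_cast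
    ring
  have e4 : ∑ j ∈ Icc 1 m, 1 / p ^ j * (E (v - 2 * n - j) - E (v + 1 - j))
      = ∑ j ∈ Icc 1 m, 1 / p ^ j * E (v - 2 * n - j)
        - ∑ j ∈ Icc 1 m, 1 / p ^ j * E (v + 1 - j) := by
    rw [← sum_sub_distrib]
    refine sum_congr rfl (fun j _ => ?_)
    ring
  rw [e1, e2, e3] at hc
  rw [e4]
  linarith

/-- the same with larger bounds at the near terms -/
theorem ePart_le' {p : ℝ} (h0 : 0 < p) (h1 : p < 1) {E : ℤ → ℝ} {L V D : ℝ} (hLV : -L ≤ V)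
    (hD : 0 ≤ D) {v : ℤ} {n m : ℕ}
    (hL : ∀ x : ℤ, v - 2 * n ≤ x → x ≤ v → -L ≤ E x)
    (hV : ∀ x : ℤ, v - 2 * n ≤ x → x ≤ v → E x ≤ V)
    (hLf : ∀ j : ℕ, 1 ≤ j → j ≤ m → -L ≤ E (v + 1 - j))
    (hVf : ∀ j : ℕ, 1 ≤ j → j ≤ m → E (v + 1 - j) ≤ V)
    (hVn : ∀ j : ℕ, 1 ≤ j → j ≤ m → E (v - 2 * n - j) ≤ V + D) :
    ∑ k ∈ range (2 * n + 1), E (v - k)
      + ∑ j ∈ Icc 1 m, 1 / p ^ j * (E (v - 2 * n - j) - E (v + 1 - j))
      ≤ (2 * n + 1) * V + (∑ j ∈ Icc 1 m, (1 / p ^ j - 1)) * (L + V)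
        + (∑ j ∈ Icc 1 m, 1 / p ^ j) * D := by
  have hc := ePart_le h0 h1 (E := fun x => max (-L) (min V (E x))) (L := L) (V := V)
    (fun x => le_max_left _ _) (fun x => max_le hLV (min_le_left _ _)) v n m
  have hin : ∀ x, -L ≤ E x → E x ≤ V → max (-L) (min V (E x)) = E x := by
    intro x hx1 hx2
    rw [min_eq_right hx2, max_eq_right hx1]
  have e1 : ∑ k ∈ range (2 * n + 1), max (-L) (min V (E (v - k)))
      = ∑ k ∈ range (2 * n + 1), E (v - k) := by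
    refine sum_congr rfl (fun k hk => ?_)
    rw [mem_range] at hk
    exact hin _ (hL _ (by omega) (by omega)) (hV _ (by omega) (by omega))
  have e2 : ∑ j ∈ Icc 1 m, 1 / p ^ j * (E (v - 2 * n - j) - E (v + 1 - j))
      ≤ ∑ j ∈ Icc 1 m, 1 / p ^ j * (max (-L) (min V (E (v - 2 * n - j)))
          - max (-L) (min V (E (v + 1 - j)))) + (∑ j ∈ Icc 1 m, 1 / p ^ j) * D := by
    rw [sum_mul, ← sum_add_distrib]
    refine sum_le_sum (fun j hj => ?_)
    rw [mem_Icc] at hj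
    rw [hin _ (hLf j hj.1 hj.2) (hVf j hj.1 hj.2), ← mul_add]
    refine mul_le_mul_of_nonneg_left ?_ (by positivity)
    have h3 := hVn j hj.1 hj.2
    have h4 : E (v - 2 * n - j) ≤ max (-L) (min V (E (v - 2 * n - j))) + D := by
      rcases le_total (E (v - 2 * n - j)) V with h5 | h5
      · rw [min_eq_right h5]
        have := le_max_right (-L) (E (v - 2 * n - j))
        linarith
      · rw [min_eq_left h5]
        have := le_max_right (-L) V
        linarith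
    linarith
  rw [e1] at hc
  linarith

end WinHi1

namespace WSys

variable {p : ℝ} {a m c m' : ℕ} {g f : ℤ → ℝ}

/-- sharper bounds of `dS` -/
theorem dS_coreJ (h : WSys p a m c m' g f) (h0 : 0 < p) (h1 : p < 1) (hca : c < a)
    (hw : a - c < m' - m) (h2 : 2 * m' ≤ c) {s t L V D1 D2 : ℝ}
    (hs : ∀ x : ℤ, 1 ≤ x → x ≤ a + c → dd g x ≤ s)
    {n : ℕ} (hn : n < c)
    (hts : ∀ j : ℕ, 1 ≤ j → j ≤ m → dd g (a + 1 - n - j) ≤ s) (ht0 : 0 ≤ t)
    (ht : ∀ j : ℕ, 1 ≤ j → j ≤ m → -t ≤ dd g (a + 1 - n - j))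
    (hLV : -L ≤ V) (hD1 : 0 ≤ D1) (hD2 : 0 ≤ D2)
    (hL : ∀ x : ℤ, 1 ≤ x → x ≤ a + c → -L ≤ dd f x)
    (hV : ∀ x : ℤ, 1 ≤ x → x ≤ a + c → dd f x ≤ V)
    (hLn : ∀ j : ℕ, 1 ≤ j → j ≤ m → -(L + D1) ≤ dd f (a + 1 - n - j))
    (hVn : ∀ j : ℕ, 1 ≤ j → j ≤ m → dd f (a + 1 - n - j) ≤ V + D2) :
    -dS p a m g f n ≤ (2 * n + 1) * (max (-psi p a) 0 * s + (1 - p) * p ^ a * L)
        + (∑ j ∈ Icc 1 m, |psi p (a - j)|) * (s + t)
        + ((1 - p) * p ^ a * ∑ j ∈ Icc 1 m, (1 / p ^ j - 1)) * (L + V) + MP p a m * D1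
    ∧ dS p a m g f n ≤ (2 * n + 1) * (max (psi p a) 0 * s + (1 - p) * p ^ a * V)
        + (∑ j ∈ Icc 1 m, |psi p (a - j)|) * (s + t)
        + ((1 - p) * p ^ a * ∑ j ∈ Icc 1 m, (1 / p ^ j - 1)) * (L + V) + MP p a m * D2 := by
  have hq : 0 < 1 - p := by linarith
  have hP : 0 < (1 - p) * p ^ a := by positivity
  have hs0 : 0 ≤ s := (h.mono 1 le_rfl).trans (hs 1 le_rfl (by omega))
  have g1 : g (a - n) - g (a + 1 + n) ≤ (2 * n + 1) * s := by
    have := sub_le_mul (g := g) (s := s) (u := (a : ℤ) - n) (n := 2 * n + 1)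
      (fun x hx1 hx2 => hs x (by omega) (by push_cast at hx2; omega))
    rw [show (a : ℤ) - n + ((2 * n + 1 : ℕ) : ℤ) = a + 1 + n by push_cast; ring] at this
    push_cast at this
    exact this
  have g0 : 0 ≤ g (a - n) - g (a + 1 + n) := by
    have := h.g_anti (x := (a : ℤ) - n) (y := a + 1 + n) (by omega) (by omega)
    linarith
  have hd : ∀ j, j ∈ Icc 1 m → |dd g (a + 1 - n - j) - dd g (a + 2 + n - j)| ≤ s + t := by
    intro j hj
    rw [mem_Icc] at hj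
    have a1 : dd g (a + 1 - n - j) ≤ s := hts j hj.1 hj.2
    have a2 : 0 ≤ dd g (a + 2 + n - j) := h.mono _ (by omega)
    have a3 : dd g (a + 2 + n - j) ≤ s := hs _ (by omega) (by omega)
    have a4 : -t ≤ dd g (a + 1 - n - j) := ht j hj.1 hj.2
    rw [abs_le]
    constructor <;> linarith
  -- the `e` part
  have fsum : f (a - n) - f (a + 1 + n)
      = ∑ k ∈ range (2 * n + 1), dd f ((a + 1 + n : ℤ) - k) := by
    rw [← WinHi1.sub_eq_sum_dd' f (a + 1 + n) (2 * n + 1)]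
    rw [show (a + 1 + n : ℤ) - ((2 * n + 1 : ℕ) : ℤ) = a - n by push_cast; ring]
  have hnear : ∀ j : ℕ, (a + 1 + n : ℤ) - 2 * n - j = a + 1 - n - j := fun j => by ring
  have hfar : ∀ j : ℕ, (a + 1 + n : ℤ) + 1 - j = a + 2 + n - j := fun j => by ring
  have hu := WinHi1.ePart_le' h0 h1 (E := dd f) (L := L) (V := V) (D := D2) hLV hD2
    (v := (a : ℤ) + 1 + n) (n := n) (m := m)
    (fun x hx1 hx2 => hL x (by omega) (by omega)) (fun x hx1 hx2 => hV x (by omega) (by omega))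
    (fun j hj1 hj2 => hL _ (by omega) (by omega)) (fun j hj1 hj2 => hV _ (by omega) (by omega))
    (fun j hj1 hj2 => by rw [hnear]; exact hVn j hj1 hj2)
  have hl := WinHi1.ePart_le' h0 h1 (E := fun x => -dd f x) (L := V) (V := L) (D := D1)
    (by linarith) hD1
    (v := (a : ℤ) + 1 + n) (n := n) (m := m)
    (fun x hx1 hx2 => by have := hV x (by omega) (by omega); linarith)
    (fun x hx1 hx2 => by have := hL x (by omega) (by omega); linarith)
    (fun j hj1 hj2 => by have := hV ((a : ℤ) + 1 + n + 1 - j) (by omega) (by omega); linarith)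
    (fun j hj1 hj2 => by have := hL ((a : ℤ) + 1 + n + 1 - j) (by omega) (by omega); linarith)
    (fun j hj1 hj2 => by rw [hnear]; have := hLn j hj1 hj2; linarith)
  simp only [hnear, hfar] at hu hl
  rw [← fsum] at hu
  have hl2 : -((f (a - n) - f (a + 1 + n))
      + ∑ j ∈ Icc 1 m, 1 / p ^ j * (dd f (a + 1 - n - j) - dd f (a + 2 + n - j)))
      ≤ (2 * n + 1) * L + (∑ j ∈ Icc 1 m, (1 / p ^ j - 1)) * (V + L)
        + (∑ j ∈ Icc 1 m, 1 / p ^ j) * D1 := by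
    refine le_trans (le_of_eq ?_) hl
    have e1 : ∑ k ∈ range (2 * n + 1), -dd f ((a + 1 + n : ℤ) - k)
        = -∑ k ∈ range (2 * n + 1), dd f ((a + 1 + n : ℤ) - k) := sum_neg_distrib _
    have e2 : ∑ j ∈ Icc 1 m, 1 / p ^ j * (-dd f (a + 1 - n - j) - -dd f (a + 2 + n - j))
        = -∑ j ∈ Icc 1 m, 1 / p ^ j * (dd f (a + 1 - n - j) - dd f (a + 2 + n - j)) := by
      rw [← sum_neg_distrib]
      refine sum_congr rfl (fun j _ => ?_)
      ring
    rw [e1, e2, fsum]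
    ring
  have hMP := sum_inv_eq h0 (a := a) (m := m) (by omega)
  have hpow : ∑ j ∈ Icc 1 m, (1 - p) * p ^ (a - j) *
        (dd f (a + 1 - n - j) - dd f (a + 2 + n - j))
      = (1 - p) * p ^ a *
        ∑ j ∈ Icc 1 m, 1 / p ^ j * (dd f (a + 1 - n - j) - dd f (a + 2 + n - j)) := by
    rw [mul_sum]
    refine sum_congr rfl (fun j hj => ?_)
    rw [mem_Icc] at hj
    rw [← pow_shift h0 (a := a) (j := j) (by omega)]
    ring
  have hpsi : |∑ j ∈ Icc 1 m, psi p (a - j) * (dd g (a + 1 - n - j) - dd g (a + 2 + n - j))|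
      ≤ (∑ j ∈ Icc 1 m, |psi p (a - j)|) * (s + t) := by
    rw [sum_mul]
    refine (abs_sum_le_sum_abs _ _).trans (sum_le_sum (fun j hj => ?_))
    rw [abs_mul]
    exact mul_le_mul_of_nonneg_left (hd j hj) (abs_nonneg _)
  rw [abs_le] at hpsi
  constructor
  · have b1 : -(psi p a * (g (a - n) - g (a + 1 + n))) ≤ (2 * n + 1) * (max (-psi p a) 0 * s) := by
      calc -(psi p a * (g (a - n) - g (a + 1 + n)))
          = -psi p a * (g (a - n) - g (a + 1 + n)) := by ring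
        _ ≤ max (-psi p a) 0 * (g (a - n) - g (a + 1 + n)) :=
            mul_le_mul_of_nonneg_right (le_max_left _ _) g0
        _ ≤ max (-psi p a) 0 * ((2 * n + 1) * s) :=
            mul_le_mul_of_nonneg_left g1 (le_max_right _ _)
        _ = _ := by ring
    have b3 := mul_le_mul_of_nonneg_left hl2 hP.le
    unfold dS
    rw [hpow]
    rw [← hMP]
    linarith
  · have b1 : psi p a * (g (a - n) - g (a + 1 + n)) ≤ (2 * n + 1) * (max (psi p a) 0 * s) := by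
      calc psi p a * (g (a - n) - g (a + 1 + n))
          ≤ max (psi p a) 0 * (g (a - n) - g (a + 1 + n)) :=
            mul_le_mul_of_nonneg_right (le_max_left _ _) g0
        _ ≤ max (psi p a) 0 * ((2 * n + 1) * s) :=
            mul_le_mul_of_nonneg_left g1 (le_max_right _ _)
        _ = _ := by ring
    have b3 := mul_le_mul_of_nonneg_left hu hP.le
    unfold dS
    rw [hpow]
    rw [← hMP]
    linarith

end WSys

end Coin
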