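import Pool.Agent.Lib.Coin.WinHi1

/-!
# Coin race, one-tail window, `c q ≥ p`: one step of the maximum argument
-/

namespace Coin

open Finset

/-- what the one-step lemma uses of the numbers -/
structure HiB (p : ℝ) (a m c m' : ℕ) (g : ℤ → ℝ) (d : HiDat) : Prop where
  hs : ∀ x : ℤ, 1 ≤ x → x ≤ a + c → dd g x ≤ d.s
  ht : ∀ n : ℕ, n < c → -d.t ≤ dd g (-(n : ℤ))
  s0 : 0 ≤ d.s
  t0 : 0 ≤ d.t
  psc : psi p c ≤ 0
  psa : psi p a ≤ 0
  hA : -psi p c ≤ d.A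
  hAa : -psi p a ≤ d.Aa
  hqa : (1 - p) * p ^ a ≤ d.qa
  hMP : Coin.MP p a m ≤ d.MP
  hM1 : (1 - p) * p ^ a * ∑ j ∈ Icc 1 m, (1 / p ^ j - 1) ≤ d.M1
  hPA : ∑ j ∈ Icc 1 m, |psi p (a - j)| ≤ d.PA
  hK : Kc p c m' ≤ d.K
  hK2 : ∑ i ∈ range m', 2 * (i : ℝ) * ((1 - p) * p ^ (c - m' + i) - (1 - p) * p ^ c) ≤ d.K2
  hQp : ∑ i ∈ range m', max (psi p (c - m' + i) - psi p c) 0 ≤ d.Qp
  hQn : ∑ i ∈ range m', max (-(psi p (c - m' + i) - psi p c)) 0 ≤ d.Qn
  N0 : 0 ≤ d.N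
  U0 : 0 ≤ d.U

namespace HiB

variable {p : ℝ} {a m c m' : ℕ} {g f : ℤ → ℝ} {d : HiDat}

theorem A_nonneg (k : HiB p a m c m' g d) : 0 ≤ d.A := by
  have := k.hA; have := k.psc; linarith

theorem Aa_nonneg (k : HiB p a m c m' g d) : 0 ≤ d.Aa := by
  have := k.hAa; have := k.psa; linarith

theorem qa_nonneg (k : HiB p a m c m' g d) (h0 : 0 < p) (h1 : p < 1) : 0 ≤ d.qa := by
  have h3 : 0 < (1 - p) * p ^ a := mul_pos (by linarith) (pow_pos h0 a)
  exact h3.le.trans k.hqa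

theorem MP_nonneg (k : HiB p a m c m' g d) (h0 : 0 < p) (h1 : p < 1) : 0 ≤ d.MP :=
  (Coin.MP_nonneg h0 h1 a m).trans k.hMP

theorem M1_nonneg (k : HiB p a m c m' g d) (h0 : 0 < p) (h1 : p < 1) : 0 ≤ d.M1 := by
  refine le_trans (mul_nonneg ?_ (sum_nonneg (fun j _ => ?_))) k.hM1
  · have : 0 < (1 - p) := by linarith
    positivity
  · have h3 : 0 < p ^ j := pow_pos h0 j
    rw [sub_nonneg, le_div_iff₀ h3, one_mul]
    exact pow_le_one₀ h0.le h1.le

theorem PA_nonneg (k : HiB p a m c m' g d) : 0 ≤ d.PA :=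
  (sum_nonneg (fun _ _ => abs_nonneg _)).trans k.hPA

theorem K_nonneg (k : HiB p a m c m' g d) (h0 : 0 < p) (h1 : p < 1) (hmc : m' ≤ c) : 0 ≤ d.K :=
  (Kc_nonneg h0 h1 hmc).trans k.hK

theorem K2_nonneg (k : HiB p a m c m' g d) (h0 : 0 < p) (h1 : p < 1) (hmc : m' ≤ c) :
    0 ≤ d.K2 := by
  refine le_trans (sum_nonneg (fun i hi => ?_)) k.hK2
  rw [mem_range] at hi
  have := eps_nonneg h0 h1 hmc hi
  positivity

theorem Qp_nonneg (k : HiB p a m c m' g d) : 0 ≤ d.Qp :=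
  (sum_nonneg (fun _ _ => le_max_right _ _)).trans k.hQp

theorem Qn_nonneg (k : HiB p a m c m' g d) : 0 ≤ d.Qn :=
  (sum_nonneg (fun _ _ => le_max_right _ _)).trans k.hQn

theorem b_nonneg (k : HiB p a m c m' g d) (h0 : 0 < p) (h1 : p < 1) : 0 ≤ d.b := by
  have h3 := k.PA_nonneg
  have h4 := k.M1_nonneg h0 h1
  have := k.s0
  have := k.N0
  have := k.U0
  unfold HiDat.b
  positivity

theorem w1_nonneg (k : HiB p a m c m' g d) (h0 : 0 < p) (h1 : p < 1) : 0 ≤ d.w1 := by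
  have h3 := k.Aa_nonneg
  have h4 := k.qa_nonneg h0 h1
  have := k.s0
  have := k.N0
  unfold HiDat.w1
  positivity

theorem D1_nonneg (k : HiB p a m c m' g d) (h0 : 0 < p) (h1 : p < 1) : 0 ≤ d.D1 m := by
  have h3 := k.b_nonneg h0 h1
  have h4 := k.qa_nonneg h0 h1
  have := k.U0
  unfold HiDat.D1
  positivity

theorem D2_nonneg (k : HiB p a m c m' g d) (h0 : 0 < p) (h1 : p < 1) : 0 ≤ d.D2 m := by
  have h3 := k.b_nonneg h0 h1
  have h4 := k.w1_nonneg h0 h1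
  unfold HiDat.D2
  positivity

theorem w0_nonneg (k : HiB p a m c m' g d) (h0 : 0 < p) (h1 : p < 1) : 0 ≤ d.w0 m := by
  have h3 := k.PA_nonneg
  have h4 := k.M1_nonneg h0 h1
  have h5 := k.MP_nonneg h0 h1
  have h6 := k.D1_nonneg h0 h1
  have := k.s0
  have := k.t0
  have := k.N0
  have := k.U0
  unfold HiDat.w0
  positivity

theorem W_nonneg (k : HiB p a m c m' g d) (h0 : 0 < p) (h1 : p < 1) (hc : 0 < c) :
    0 ≤ d.W m c := by
  have h3 := k.PA_nonneg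
  have h4 := k.M1_nonneg h0 h1
  have h5 := k.MP_nonneg h0 h1
  have h6 := k.D2_nonneg h0 h1
  have h7 := k.qa_nonneg h0 h1
  have := k.s0
  have := k.t0
  have := k.N0
  have := k.U0
  have hc1 : (1 : ℝ) ≤ c := by exact_mod_cast hc
  have : (0 : ℝ) ≤ 2 * c - 1 := by linarith
  unfold HiDat.W
  positivity

/-- the bounds of `dS` at the positions where only indices `≥ 1` occur -/
theorem dS1 (k : HiB p a m c m' g d) (h : WSys p a m c m' g f) (h0 : 0 < p) (h1 : p < 1)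
    (hca : c < a) (hw : a - c < m' - m) (h2 : 2 * m' ≤ c)
    (hL : ∀ x : ℤ, 1 ≤ x → x ≤ a + c → -d.N ≤ dd f x)
    (hV : ∀ x : ℤ, 1 ≤ x → x ≤ a + c → dd f x ≤ d.U) {n : ℕ} (hn : n < c) (hnm : n + m ≤ a) :
    -dS p a m g f n ≤ d.b + (2 * n + 1) * d.w1
    ∧ dS p a m g f n ≤ d.b + (2 * n + 1) * (d.qa * d.U) := by
  have hs0 := k.s0
  have hN0 := k.N0
  have hU0 := k.U0
  have h3 := h.dS_coreJ h0 h1 hca hw h2 (t := 0) (L := d.N) (V := d.U) (D1 := 0) (D2 := 0)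
    k.hs hn (fun j hj1 hj2 => k.hs _ (by omega) (by omega)) le_rfl
    (fun j hj1 hj2 => by
      have := h.mono ((a : ℤ) + 1 - n - j) (by omega)
      linarith)
    (by linarith) le_rfl le_rfl hL hV
    (fun j hj1 hj2 => by rw [add_zero]; exact hL _ (by omega) (by omega))
    (fun j hj1 hj2 => by rw [add_zero]; exact hV _ (by omega) (by omega))
  have e1 : max (-psi p a) 0 ≤ d.Aa := max_le k.hAa k.Aa_nonneg
  have e2 : max (psi p a) 0 = 0 := max_eq_right k.psa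
  rw [e2] at h3
  have hP : 0 < (1 - p) * p ^ a := mul_pos (by linarith) (pow_pos h0 a)
  have a1 : max (-psi p a) 0 * d.s + (1 - p) * p ^ a * d.N ≤ d.w1 := by
    unfold HiDat.w1
    have := mul_le_mul_of_nonneg_right e1 hs0
    have := mul_le_mul_of_nonneg_right k.hqa hN0
    linarith
  have a2 : (∑ j ∈ Icc 1 m, |psi p (a - j)|) * (d.s + 0)
      + ((1 - p) * p ^ a * ∑ j ∈ Icc 1 m, (1 / p ^ j - 1)) * (d.N + d.U) ≤ d.b := by
    unfold HiDat.b
    have := mul_le_mul_of_nonneg_right k.hPA hs0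
    have := mul_le_mul_of_nonneg_right k.hM1 (by linarith : 0 ≤ d.N + d.U)
    linarith
  have a3 : 0 * d.s + (1 - p) * p ^ a * d.U ≤ d.qa * d.U := by
    have := mul_le_mul_of_nonneg_right k.hqa hU0
    linarith
  have hnn : (0 : ℝ) ≤ 2 * n + 1 := by positivity
  have b1 := mul_le_mul_of_nonneg_left a1 hnn
  have b3 := mul_le_mul_of_nonneg_left a3 hnn
  constructor
  · linarith [h3.1]
  · linarith [h3.2]

/-- the bounds of `dS` for all `n < c` -/
theorem dS2 (k : HiB p a m c m' g d) (h : WSys p a m c m' g f) (h0 : 0 < p) (h1 : p < 1)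
    (hca : c < a) (hw : a - c < m' - m) (h2 : 2 * m' ≤ c)
    (hL : ∀ x : ℤ, 1 ≤ x → x ≤ a + c → -d.N ≤ dd f x)
    (hV : ∀ x : ℤ, 1 ≤ x → x ≤ a + c → dd f x ≤ d.U) {n : ℕ} (hn : n < c) :
    -dS p a m g f n ≤ d.w0 m + (2 * n + 1) * d.w1
    ∧ dS p a m g f n ≤ d.W m c := by
  have hs0 := k.s0
  have ht0 := k.t0
  have hN0 := k.N0
  have hU0 := k.U0
  have hD1 := k.D1_nonneg h0 h1
  have hD2 := k.D2_nonneg h0 h1
  have hq0 := k.qa_nonneg h0 h1
  have hw10 := k.w1_nonneg h0 h1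
  have hnear : ∀ j : ℕ, 1 ≤ j → j ≤ m →
      -(d.N + d.D1 m) ≤ dd f (a + 1 - n - j) ∧ dd f (a + 1 - n - j) ≤ d.U + d.D2 m := by
    intro j hj1 hj2
    rcases le_or_gt 1 ((a : ℤ) + 1 - n - j) with hy | hy
    · have := hL _ hy (by omega)
      have := hV _ hy (by omega)
      constructor <;> linarith
    · obtain ⟨i, hi⟩ : ∃ i : ℕ, (a : ℤ) + 1 - n - j = -(i : ℤ) :=
        ⟨(-((a : ℤ) + 1 - n - j)).toNat, by omega⟩
      have him : i ≤ m := by omega
      have h3 := k.dS1 h h0 h1 hca hw h2 hL hV (n := i) (by omega) (by omega)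
      rw [hi, h.dneg_f h0 (by omega) i]
      have := hL (i + 1) (by omega) (by omega)
      have := hV (i + 1) (by omega) (by omega)
      have hir : (i : ℝ) ≤ m := by exact_mod_cast him
      have c1 : (2 * (i : ℝ) + 1) * d.w1 ≤ (2 * m + 1) * d.w1 :=
        mul_le_mul_of_nonneg_right (by linarith) hw10
      have c2 : (2 * (i : ℝ) + 1) * (d.qa * d.U) ≤ (2 * m + 1) * (d.qa * d.U) :=
        mul_le_mul_of_nonneg_right (by linarith) (by positivity)
      unfold HiDat.D1 HiDat.D2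
      constructor
      · linarith [h3.2]
      · linarith [h3.1]
  have h3 := h.dS_coreJ h0 h1 hca hw h2 (t := d.t) (L := d.N) (V := d.U) (D1 := d.D1 m)
    (D2 := d.D2 m) k.hs hn (fun j hj1 hj2 => h.dd_le h0 h1 k.hs (by omega) (by omega)) ht0
    (fun j hj1 hj2 => by
      rcases le_or_gt 1 ((a : ℤ) + 1 - n - j) with hy | hy
      · have := h.mono _ hy
        linarith
      · obtain ⟨i, hi⟩ : ∃ i : ℕ, (a : ℤ) + 1 - n - j = -(i : ℤ) :=
          ⟨(-((a : ℤ) + 1 - n - j)).toNat, by omega⟩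
        rw [hi]
        exact k.ht i (by omega))
    (by linarith) hD1 hD2 hL hV (fun j hj1 hj2 => (hnear j hj1 hj2).1)
    (fun j hj1 hj2 => (hnear j hj1 hj2).2)
  have e1 : max (-psi p a) 0 ≤ d.Aa := max_le k.hAa k.Aa_nonneg
  have e2 : max (psi p a) 0 = 0 := max_eq_right k.psa
  rw [e2] at h3
  have a1 : max (-psi p a) 0 * d.s + (1 - p) * p ^ a * d.N ≤ d.w1 := by
    unfold HiDat.w1
    have := mul_le_mul_of_nonneg_right e1 hs0
    have := mul_le_mul_of_nonneg_right k.hqa hN0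
    linarith
  have a2 := mul_le_mul_of_nonneg_right k.hPA (by linarith : 0 ≤ d.s + d.t)
  have a4 := mul_le_mul_of_nonneg_right k.hM1 (by linarith : 0 ≤ d.N + d.U)
  have a3 : 0 * d.s + (1 - p) * p ^ a * d.U ≤ d.qa * d.U := by
    have := mul_le_mul_of_nonneg_right k.hqa hU0
    linarith
  have a5 := mul_le_mul_of_nonneg_right k.hMP hD1
  have a6 := mul_le_mul_of_nonneg_right k.hMP hD2
  have hnn : (0 : ℝ) ≤ 2 * n + 1 := by positivity
  have b1 := mul_le_mul_of_nonneg_left a1 hnn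
  have b3 := mul_le_mul_of_nonneg_left a3 hnn
  have hnc : (2 * (n : ℝ) + 1) * (d.qa * d.U) ≤ (2 * c - 1) * (d.qa * d.U) := by
    have : (n : ℝ) + 1 ≤ c := by exact_mod_cast hn
    exact mul_le_mul_of_nonneg_right (by linarith) (by positivity)
  constructor
  · unfold HiDat.w0
    linarith [h3.1]
  · unfold HiDat.W
    linarith [h3.2]

/-- `e_(-n)` for `n < c` -/
theorem eneg (k : HiB p a m c m' g d) (h : WSys p a m c m' g f) (h0 : 0 < p) (h1 : p < 1)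
    (hca : c < a) (hw : a - c < m' - m) (h2 : 2 * m' ≤ c)
    (hL : ∀ x : ℤ, 1 ≤ x → x ≤ a + c → -d.N ≤ dd f x)
    (hV : ∀ x : ℤ, 1 ≤ x → x ≤ a + c → dd f x ≤ d.U) {n : ℕ} (hn : n < c) :
    dd f (-(n : ℤ)) ≤ d.U + d.w0 m + (2 * n + 1) * d.w1
    ∧ -(d.N + d.W m c) ≤ dd f (-(n : ℤ)) := by
  have h3 := k.dS2 h h0 h1 hca hw h2 hL hV hn
  rw [h.dneg_f h0 (by omega) n]
  have := hL (n + 1) (by omega) (by omega)
  have := hV (n + 1) (by omega) (by omega)
  constructor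
  · linarith [h3.1]
  · linarith [h3.2]

/-- `f_(-n)` for `n ≤ z` -/
theorem fneg (k : HiB p a m c m' g d) (h : WSys p a m c m' g f) (h0 : 0 < p) (h1 : p < 1)
    (hca : c < a) (hw : a - c < m' - m) (h2 : 2 * m' ≤ c)
    (hL : ∀ x : ℤ, 1 ≤ x → x ≤ a + c → -d.N ≤ dd f x)
    (hV : ∀ x : ℤ, 1 ≤ x → x ≤ a + c → dd f x ≤ d.U) {n : ℕ} (hn : n ≤ c - m') :
    -f (-(n : ℤ)) ≤ n * d.N + n * d.b + (n : ℝ) ^ 2 * (d.qa * d.U)
    ∧ f (-(n : ℤ)) ≤ n * d.U + n * d.b + (n : ℝ) ^ 2 * d.w1 := by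
  have key : ∀ n : ℕ, n ≤ c - m' →
      -f (-(n : ℤ)) ≤ n * d.N + n * d.b + (n : ℝ) ^ 2 * (d.qa * d.U)
      ∧ f (-(n : ℤ)) ≤ n * d.U + n * d.b + (n : ℝ) ^ 2 * d.w1 := by
    intro n
    induction n with
    | zero => intro _; simp [h.f_zero]
    | succ n ih =>
      intro hn
      have h3 := ih (by omega)
      have h4 := k.dS1 h h0 h1 hca hw h2 hL hV (n := n) (by omega) (by omega)
      have h5 := h.dneg_f h0 (by omega) n
      have h6 := hL (n + 1) (by omega) (by omega)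
      have h7 := hV (n + 1) (by omega) (by omega)
      have e : f (-((n + 1 : ℕ) : ℤ)) = f (-(n : ℤ)) + dd f (-(n : ℤ)) := by
        unfold dd
        rw [show -((n + 1 : ℕ) : ℤ) = -(n : ℤ) - 1 by push_cast; ring]
        ring
      rw [e, h5]
      push_cast
      constructor
      · nlinarith [h3.1, h4.2]
      · nlinarith [h3.2, h4.1]
  exact key n hn

/-- the `ε` sum from above; `n0 = max (-y) 0` -/
theorem epsU (k : HiB p a m c m' g d) (h : WSys p a m c m' g f) (h0 : 0 < p) (h1 : p < 1)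
    (hca : c < a) (hw : a - c < m' - m) (h2 : 2 * m' ≤ c)
    (hL : ∀ x : ℤ, 1 ≤ x → x ≤ a + c → -d.N ≤ dd f x)
    (hV : ∀ x : ℤ, 1 ≤ x → x ≤ a + c → dd f x ≤ d.U) {y : ℤ} {n : ℕ} (hn : n ≤ c - m')
    (hy : -(n : ℤ) ≤ y) (hya : y ≤ a + c) :
    ∑ i ∈ range m', ((1 - p) * p ^ (c - m' + i) - (1 - p) * p ^ c) * dd f (y - i)
      ≤ d.K * (d.U + d.w0 m) + d.w1 * ((2 * n + 1) * d.K + d.K2) := by
  have hw10 := k.w1_nonneg h0 h1
  have hw00 := k.w0_nonneg h0 h1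
  have hU0 := k.U0
  have h3 : ∀ i ∈ range m', ((1 - p) * p ^ (c - m' + i) - (1 - p) * p ^ c) * dd f (y - i)
      ≤ ((1 - p) * p ^ (c - m' + i) - (1 - p) * p ^ c)
          * (d.U + d.w0 m + (2 * n + 1) * d.w1)
        + 2 * (i : ℝ) * ((1 - p) * p ^ (c - m' + i) - (1 - p) * p ^ c) * d.w1 := by
    intro i hi
    rw [mem_range] at hi
    have he := eps_nonneg h0 h1 (c := c) (m' := m') (i := i) (by omega) hi
    have h4 : dd f (y - i) ≤ d.U + d.w0 m + (2 * n + 1) * d.w1 + 2 * i * d.w1 := by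
      rcases le_or_gt 1 (y - i) with hyi | hyi
      · have := hV _ hyi (by omega)
        have : (0 : ℝ) ≤ (2 * n + 1) * d.w1 := by positivity
        have : (0 : ℝ) ≤ 2 * i * d.w1 := by positivity
        linarith
      · obtain ⟨j, hj⟩ : ∃ j : ℕ, y - i = -(j : ℤ) := ⟨(-(y - i)).toNat, by omega⟩
        have h5 := (k.eneg h h0 h1 hca hw h2 hL hV (n := j) (by omega)).1
        rw [hj]
        have hjr : (j : ℝ) ≤ n + i := by exact_mod_cast (by omega : j ≤ n + i)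
        have : (2 * (j : ℝ) + 1) * d.w1 ≤ (2 * (n + i) + 1) * d.w1 :=
          mul_le_mul_of_nonneg_right (by linarith) hw10
        linarith
    calc _ ≤ ((1 - p) * p ^ (c - m' + i) - (1 - p) * p ^ c)
          * (d.U + d.w0 m + (2 * n + 1) * d.w1 + 2 * i * d.w1) :=
          mul_le_mul_of_nonneg_left h4 he
      _ = _ := by ring
  refine (sum_le_sum h3).trans ?_
  rw [sum_add_distrib, ← sum_mul, ← sum_mul, sum_eps (by omega)]
  have h5 : Kc p c m' * (d.U + d.w0 m + (2 * n + 1) * d.w1)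
      ≤ d.K * (d.U + d.w0 m + (2 * n + 1) * d.w1) :=
    mul_le_mul_of_nonneg_right k.hK (by positivity)
  have h6 := mul_le_mul_of_nonneg_right k.hK2 hw10
  linarith

/-- the `ε` sum from below -/
theorem epsL (k : HiB p a m c m' g d) (h : WSys p a m c m' g f) (h0 : 0 < p) (h1 : p < 1)
    (hca : c < a) (hw : a - c < m' - m) (h2 : 2 * m' ≤ c)
    (hL : ∀ x : ℤ, 1 ≤ x → x ≤ a + c → -d.N ≤ dd f x)
    (hV : ∀ x : ℤ, 1 ≤ x → x ≤ a + c → dd f x ≤ d.U) {y : ℤ}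
    (hy : -((c - m' : ℕ) : ℤ) ≤ y) (hya : y ≤ a + c) :
    -∑ i ∈ range m', ((1 - p) * p ^ (c - m' + i) - (1 - p) * p ^ c) * dd f (y - i)
      ≤ d.K * (d.N + d.W m c) := by
  have hW0 := k.W_nonneg h0 h1 (by omega : 0 < c)
  have hN0 := k.N0
  rw [← sum_neg_distrib]
  have h3 : ∀ i ∈ range m', -(((1 - p) * p ^ (c - m' + i) - (1 - p) * p ^ c) * dd f (y - i))
      ≤ ((1 - p) * p ^ (c - m' + i) - (1 - p) * p ^ c) * (d.N + d.W m c) := by
    intro i hi
    rw [mem_range] at hi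
    have he := eps_nonneg h0 h1 (c := c) (m' := m') (i := i) (by omega) hi
    have h4 : -(d.N + d.W m c) ≤ dd f (y - i) := by
      rcases le_or_gt 1 (y - i) with hyi | hyi
      · have := hL _ hyi (by omega)
        linarith
      · obtain ⟨j, hj⟩ : ∃ j : ℕ, y - i = -(j : ℤ) := ⟨(-(y - i)).toNat, by omega⟩
        rw [hj]
        exact (k.eneg h h0 h1 hca hw h2 hL hV (n := j) (by omega)).2
    have := mul_le_mul_of_nonneg_left h4 he
    linarith
  refine (sum_le_sum h3).trans ?_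
  rw [← sum_mul, sum_eps (by omega)]
  exact mul_le_mul_of_nonneg_right k.hK (by linarith)

/-- the `ψ` sums -/
theorem phiS (k : HiB p a m c m' g d) (h : WSys p a m c m' g f) (h0 : 0 < p) (h1 : p < 1)
    (h2 : 2 * m' ≤ c) {y : ℤ}
    (hy : -((c - m' : ℕ) : ℤ) ≤ y) (hya : y ≤ a + c) :
    ∑ i ∈ range m', (psi p (c - m' + i) - psi p c) * dd g (y - i) ≤ d.Qp * d.s + d.Qn * d.t
    ∧ -∑ i ∈ range m', (psi p (c - m' + i) - psi p c) * dd g (y - i)
      ≤ d.Qn * d.s + d.Qp * d.t := by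
  have hs0 := k.s0
  have ht0 := k.t0
  have hb : ∀ i, i < m' → -d.t ≤ dd g (y - i) ∧ dd g (y - i) ≤ d.s := by
    intro i hi
    constructor
    · rcases le_or_gt 1 (y - i) with hyi | hyi
      · have := h.mono _ hyi
        linarith
      · obtain ⟨j, hj⟩ : ∃ j : ℕ, y - i = -(j : ℤ) := ⟨(-(y - i)).toNat, by omega⟩
        rw [hj]
        exact k.ht j (by omega)
    · exact h.dd_le h0 h1 k.hs (by omega) (by omega)
  have hsplit : ∀ x : ℝ, x = max x 0 - max (-x) 0 := by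
    intro x
    rcases le_total 0 x with hx | hx
    · rw [max_eq_left hx, max_eq_right (by linarith)]; ring
    · rw [max_eq_right hx, max_eq_left (by linarith)]; ring
  have q1 := mul_le_mul_of_nonneg_right k.hQp hs0
  have q2 := mul_le_mul_of_nonneg_right k.hQn ht0
  have q3 := mul_le_mul_of_nonneg_right k.hQn hs0
  have q4 := mul_le_mul_of_nonneg_right k.hQp ht0
  rw [sum_mul] at q1 q2 q3 q4
  constructor
  · refine le_trans ?_ (add_le_add q1 q2)
    rw [← sum_add_distrib]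
    refine sum_le_sum (fun i hi => ?_)
    rw [mem_range] at hi
    obtain ⟨b1, b2⟩ := hb i hi
    set φ := psi p (c - m' + i) - psi p c
    have c1 := mul_le_mul_of_nonneg_left b2 (le_max_right φ 0)
    have c2 := mul_le_mul_of_nonneg_left b1 (le_max_right (-φ) 0)
    have c3 : φ * dd g (y - i) = max φ 0 * dd g (y - i) - max (-φ) 0 * dd g (y - i) := by
      rw [← sub_mul, ← hsplit φ]
    rw [c3]
    linarith
  · refine le_trans ?_ (add_le_add q3 q4)
    rw [← sum_add_distrib, ← sum_neg_distrib]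
    refine sum_le_sum (fun i hi => ?_)
    rw [mem_range] at hi
    obtain ⟨b1, b2⟩ := hb i hi
    set φ := psi p (c - m' + i) - psi p c
    have c1 := mul_le_mul_of_nonneg_left b2 (le_max_right (-φ) 0)
    have c2 := mul_le_mul_of_nonneg_left b1 (le_max_right φ 0)
    have c3 : φ * dd g (y - i) = max φ 0 * dd g (y - i) - max (-φ) 0 * dd g (y - i) := by
      rw [← sub_mul, ← hsplit φ]
    rw [c3]
    linarith

/-- `-y U ≤ f_y ≤ y N` for `y ≥ 0` -/
theorem fpos (h : WSys p a m c m' g f)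
    (hL : ∀ x : ℤ, 1 ≤ x → x ≤ a + c → -d.N ≤ dd f x)
    (hV : ∀ x : ℤ, 1 ≤ x → x ≤ a + c → dd f x ≤ d.U) {n : ℕ} (hn : n ≤ a + c) :
    -f n ≤ n * d.U ∧ f n ≤ n * d.N := by
  have h3 := sub_le_mul (g := f) (s := d.U) (u := 0) (n := n)
    (fun x hx1 hx2 => hV x (by omega) (by omega))
  have h4 := sub_ge_mul (g := f) (s := -d.N) (u := 0) (n := n)
    (fun x hx1 hx2 => hL x (by omega) (by omega))
  rw [h.f_zero, zero_add] at h3 h4
  constructor <;> linarith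

/-- zone I, `n = z + 1 - x`, `0 ≤ n ≤ z` -/
theorem zoneI (k : HiB p a m c m' g d) (h : WSys p a m c m' g f) (h0 : 0 < p) (h1 : p < 1)
    (hca : c < a) (hw : a - c < m' - m) (h2 : 2 * m' ≤ c)
    (hL : ∀ x : ℤ, 1 ≤ x → x ≤ a + c → -d.N ≤ dd f x)
    (hV : ∀ x : ℤ, 1 ≤ x → x ≤ a + c → dd f x ≤ d.U) {x : ℤ} {n : ℕ} (hn : n ≤ c - m')
    (hx : x = ((c - m' : ℕ) : ℤ) + 1 - n) :
    -dd f x ≤ d.A * (1 + n * d.s)
        + (1 - p) * p ^ c * (n * d.N + n * d.b + (n : ℝ) ^ 2 * (d.qa * d.U))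
        + d.Qp * d.s + d.Qn * d.t + d.K * (d.U + d.w0 m) + d.w1 * ((2 * n + 1) * d.K + d.K2)
    ∧ dd f x ≤ (1 - p) * p ^ c * (n * d.U + n * d.b + (n : ℝ) ^ 2 * d.w1)
        + d.Qn * d.s + d.Qp * d.t + d.K * (d.N + d.W m c) := by
  have hq : 0 < 1 - p := by linarith
  have hP : 0 < (1 - p) * p ^ c := by positivity
  have hy : x - 1 - (c - m' : ℕ) = -(n : ℤ) := by rw [hx]; ring
  have he := h.eqBd x (by omega)
  rw [hy, sum_add_distrib] at he
  have h3 := k.epsU h h0 h1 hca hw h2 hL hV (y := -(n : ℤ)) (n := n) hn le_rfl (by omega)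
  have h4 := k.epsL h h0 h1 hca hw h2 hL hV (y := -(n : ℤ)) (by omega) (by omega)
  have h5 := k.phiS h h0 h1 h2 (y := -(n : ℤ)) (by omega) (by omega)
  have h6 := k.fneg h h0 h1 hca hw h2 hL hV hn
  have h7 := h.gneg_le h0 h1 k.hs (n := n) (by omega)
  have h8 := h.gneg_ge_one h0 h1 hca hw h2 (j := n) hn
  have hA0 := k.A_nonneg
  have a1 : -psi p c * g (-(n : ℤ)) ≤ d.A * (1 + n * d.s) := by
    calc -psi p c * g (-(n : ℤ)) ≤ d.A * g (-(n : ℤ)) :=
          mul_le_mul_of_nonneg_right k.hA (by linarith)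
      _ ≤ _ := mul_le_mul_of_nonneg_left h7 hA0
  have a2 : psi p c * g (-(n : ℤ)) ≤ 0 := mul_nonpos_of_nonpos_of_nonneg k.psc (by linarith)
  have a3 := mul_le_mul_of_nonneg_left h6.1 hP.le
  have a4 := mul_le_mul_of_nonneg_left h6.2 hP.le
  rw [he]
  constructor
  · linarith [h5.1]
  · linarith [h5.2]

/-- zone II, `y = x - 1 - z ≥ 0` -/
theorem zoneII (k : HiB p a m c m' g d) (h : WSys p a m c m' g f) (h0 : 0 < p) (h1 : p < 1)
    (hca : c < a) (hw : a - c < m' - m) (h2 : 2 * m' ≤ c)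
    (hL : ∀ x : ℤ, 1 ≤ x → x ≤ a + c → -d.N ≤ dd f x)
    (hV : ∀ x : ℤ, 1 ≤ x → x ≤ a + c → dd f x ≤ d.U) {x : ℤ} {y : ℕ} (hya : y ≤ a + c)
    (hx : x = ((c - m' : ℕ) : ℤ) + 1 + y) :
    -dd f x ≤ d.A + (1 - p) * p ^ c * (y * d.U)
        + d.Qp * d.s + d.Qn * d.t + d.K * (d.U + d.w0 m) + d.w1 * (d.K + d.K2)
    ∧ dd f x ≤ (1 - p) * p ^ c * (y * d.N)
        + d.Qn * d.s + d.Qp * d.t + d.K * (d.N + d.W m c) := by
  have hq : 0 < 1 - p := by linarith
  have hP : 0 < (1 - p) * p ^ c := by positivity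
  have hy : x - 1 - (c - m' : ℕ) = (y : ℤ) := by rw [hx]; ring
  have he := h.eqBd x (by omega)
  rw [hy, sum_add_distrib] at he
  have h3 := k.epsU h h0 h1 hca hw h2 hL hV (y := (y : ℤ)) (n := 0) (by omega) (by omega)
    (by omega)
  have h4 := k.epsL h h0 h1 hca hw h2 hL hV (y := (y : ℤ)) (by omega) (by omega)
  have h5 := k.phiS h h0 h1 h2 (y := (y : ℤ)) (by omega) (by omega)
  have h6 := fpos (d := d) h hL hV (n := y) hya
  have h7 := h.g_le_one (x := (y : ℤ)) (by omega)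
  have h8 := h.g_pos (y : ℤ) (by omega)
  have hA0 := k.A_nonneg
  have a1 : -psi p c * g (y : ℤ) ≤ d.A := by
    calc -psi p c * g (y : ℤ) ≤ d.A * g (y : ℤ) :=
          mul_le_mul_of_nonneg_right k.hA h8.le
      _ ≤ d.A * 1 := mul_le_mul_of_nonneg_left h7 hA0
      _ = d.A := mul_one _
  have a2 : psi p c * g (y : ℤ) ≤ 0 := mul_nonpos_of_nonpos_of_nonneg k.psc h8.le
  have a3 := mul_le_mul_of_nonneg_left h6.1 hP.le
  have a4 := mul_le_mul_of_nonneg_left h6.2 hP.le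
  have e3 : d.w1 * ((2 * ((0 : ℕ) : ℝ) + 1) * d.K + d.K2) = d.w1 * (d.K + d.K2) := by
    push_cast; ring
  rw [e3] at h3
  rw [he]
  constructor
  · linarith [h5.1]
  · linarith [h5.2]

end HiB

end Coin
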