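import Mathlib

/-!
# Coin race, one-tail window, `c q ≥ p`: the numeric check (natural numbers, unit `10^(-6)`)
-/

namespace Coin.WN

/-! ### the arithmetic -/

def mu (a b : ℕ) : ℕ := (a * b + 999999) / 1000000
def ml (a b : ℕ) : ℕ := a * b / 1000000
def du (a b : ℕ) : ℕ := (a * 1000000 + (b - 1)) / b

def tl (h : ℕ) : ℕ → ℕ → ℕ
  | 0, _ => 1000000
  | n + 1, k => 1000000 + h * tl h n (k + 1) / (1000000 * k)

def tu (h : ℕ) : ℕ → ℕ → ℕ
  | 0, _ => 1000000 + (h * 9 + 63) / 64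
  | n + 1, k => 1000000 + (h * tu h n (k + 1) + (1000000 * k - 1)) / (1000000 * k)

/-- upper bound of `exp (-y)` -/
def eN (y : ℕ) : ℕ :=
  du 1000000 (ml (ml (tl (y / 4) 8 1) (tl (y / 4) 8 1)) (ml (tl (y / 4) 8 1) (tl (y / 4) 8 1)))
/-- lower bound of `exp x` -/
def eL (x : ℕ) : ℕ := ml (tl (x / 2) 8 1) (tl (x / 2) 8 1)
/-- upper bound of `exp x`, for `x ≤ 2` -/
def eP (x : ℕ) : ℕ := mu (tu ((x + 1) / 2) 7 1) (tu ((x + 1) / 2) 7 1)

def mx (a b : ℕ) : ℕ := bif Nat.ble a b then b else a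
def mn (a b : ℕ) : ℕ := bif Nat.ble a b then a else b

/-- the real value of a fixed point number -/
noncomputable def vv (n : ℕ) : ℝ := n / 1000000

def UB (x : ℝ) (a : ℕ) : Prop := 0 ≤ x ∧ x ≤ vv a
def LB (x : ℝ) (a : ℕ) : Prop := vv a ≤ x

theorem vv_nonneg (a : ℕ) : 0 ≤ vv a := by unfold vv; positivity

theorem vv_add (a b : ℕ) : vv (a + b) = vv a + vv b := by unfold vv; push_cast; ring

theorem vv_one : vv 1000000 = 1 := by unfold vv; norm_num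

theorem vv_lt {a b : ℕ} (h : a < b) : vv a < vv b := by
  unfold vv
  have : (a : ℝ) < b := by exact_mod_cast h
  linarith [div_lt_div_of_pos_right this (by norm_num : (0 : ℝ) < 1000000)]

theorem vv_le {a b : ℕ} (h : a ≤ b) : vv a ≤ vv b := by
  unfold vv
  have : (a : ℝ) ≤ b := by exact_mod_cast h
  exact div_le_div_of_nonneg_right this (by norm_num)

theorem vv_pos {a : ℕ} (h : 0 < a) : 0 < vv a := by
  have := vv_lt h
  have h0 : vv 0 = 0 := by unfold vv; norm_num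
  linarith

theorem vv_sub_ge (a b : ℕ) : vv a - vv b ≤ vv (a - b) := by
  unfold vv
  have : (a : ℝ) ≤ ((a - b : ℕ) : ℝ) + b := by
    have h : a ≤ (a - b) + b := by omega
    exact_mod_cast h
  have h2 : (a : ℝ) / 1000000 - b / 1000000 = (a - b) / 1000000 := by ring
  rw [h2]
  exact div_le_div_of_nonneg_right (by linarith) (by norm_num)

theorem vv_sub_eq {a b : ℕ} (h : b ≤ a) : vv (a - b) = vv a - vv b := by
  unfold vv
  rw [Nat.cast_sub h]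
  ring

theorem vv_mu (a b : ℕ) : vv a * vv b ≤ vv (mu a b) := by
  unfold vv mu
  have h : a * b ≤ ((a * b + 999999) / 1000000) * 1000000 := by
    generalize a * b = n
    omega
  have h2 : (a : ℝ) * b ≤ (((a * b + 999999) / 1000000 : ℕ) : ℝ) * 1000000 := by exact_mod_cast h
  rw [div_mul_div_comm, div_le_div_iff₀ (by norm_num) (by norm_num)]
  nlinarith

theorem vv_ml (a b : ℕ) : vv (ml a b) ≤ vv a * vv b := by
  unfold vv ml
  have h : (a * b / 1000000) * 1000000 ≤ a * b := Nat.div_mul_le_self _ _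
  have h2 : ((a * b / 1000000 : ℕ) : ℝ) * 1000000 ≤ (a : ℝ) * b := by exact_mod_cast h
  rw [div_mul_div_comm, div_le_div_iff₀ (by norm_num) (by norm_num)]
  nlinarith

theorem vv_du (a : ℕ) {b : ℕ} (hb : 0 < b) : vv a ≤ vv (du a b) * vv b := by
  unfold vv du
  have h : a * 1000000 ≤ ((a * 1000000 + (b - 1)) / b) * b := by
    have h1 := Nat.div_add_mod (a * 1000000 + (b - 1)) b
    have h2 := Nat.mod_lt (a * 1000000 + (b - 1)) hb
    have h3 : b * ((a * 1000000 + (b - 1)) / b) = ((a * 1000000 + (b - 1)) / b) * b := by ring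
    omega
  have h2 : (a : ℝ) * 1000000 ≤ (((a * 1000000 + (b - 1)) / b : ℕ) : ℝ) * b := by
    exact_mod_cast h
  rw [div_mul_div_comm, div_le_div_iff₀ (by norm_num) (by norm_num)]
  nlinarith

theorem vv_half_up (a : ℕ) : vv a / 2 ≤ vv ((a + 1) / 2) := by
  unfold vv
  have h : a ≤ ((a + 1) / 2) * 2 := by omega
  have h2 : (a : ℝ) ≤ (((a + 1) / 2 : ℕ) : ℝ) * 2 := by exact_mod_cast h
  rw [div_div, div_le_div_iff₀ (by norm_num) (by norm_num)]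
  nlinarith

theorem vv_sixth_up (a : ℕ) : vv a / 6 ≤ vv ((a + 5) / 6) := by
  unfold vv
  have h : a ≤ ((a + 5) / 6) * 6 := by omega
  have h2 : (a : ℝ) ≤ (((a + 5) / 6 : ℕ) : ℝ) * 6 := by exact_mod_cast h
  rw [div_div, div_le_div_iff₀ (by norm_num) (by norm_num)]
  nlinarith

theorem vv_half_dn (a : ℕ) : vv (a / 2) ≤ vv a / 2 := by
  unfold vv
  have h : (a / 2) * 2 ≤ a := by omega
  have h2 : ((a / 2 : ℕ) : ℝ) * 2 ≤ a := by exact_mod_cast h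
  rw [div_div, div_le_div_iff₀ (by norm_num) (by norm_num)]
  nlinarith

theorem vv_quarter_dn (a : ℕ) : vv (a / 4) ≤ vv a / 4 := by
  unfold vv
  have h : (a / 4) * 4 ≤ a := by omega
  have h2 : ((a / 4 : ℕ) : ℝ) * 4 ≤ a := by exact_mod_cast h
  rw [div_div, div_le_div_iff₀ (by norm_num) (by norm_num)]
  nlinarith

theorem vv_two_mul (a : ℕ) : vv (2 * a) = 2 * vv a := by unfold vv; push_cast; ring
theorem vv_three_mul (a : ℕ) : vv (3 * a) = 3 * vv a := by unfold vv; push_cast; ring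

/-! ### upper and lower bounds -/

namespace UB

variable {x y : ℝ} {a b : ℕ}

theorem self (a : ℕ) : UB (vv a) a := ⟨vv_nonneg a, le_rfl⟩

theorem one : UB 1 1000000 := ⟨by norm_num, vv_one.ge⟩

theorem add (h : UB x a) (k : UB y b) : UB (x + y) (a + b) :=
  ⟨add_nonneg h.1 k.1, by rw [vv_add]; exact add_le_add h.2 k.2⟩

theorem mul (h : UB x a) (k : UB y b) : UB (x * y) (mu a b) :=
  ⟨mul_nonneg h.1 k.1, (mul_le_mul h.2 k.2 k.1 (vv_nonneg a)).trans (vv_mu a b)⟩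

theorem mono (h : UB y a) (h0 : 0 ≤ x) (hxy : x ≤ y) : UB x a := ⟨h0, hxy.trans h.2⟩

theorem up (h : UB x a) (hab : a ≤ b) : UB x b := ⟨h.1, h.2.trans (vv_le hab)⟩

theorem sub (h : UB x a) (k : vv b ≤ y) (h0 : 0 ≤ x - y) : UB (x - y) (a - b) :=
  ⟨h0, le_trans (by linarith [h.2]) (vv_sub_ge a b)⟩

theorem half (h : UB x a) : UB (x / 2) ((a + 1) / 2) :=
  ⟨by linarith [h.1], le_trans (by linarith [h.2]) (vv_half_up a)⟩

theorem sixth (h : UB x a) : UB (x / 6) ((a + 5) / 6) :=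
  ⟨by linarith [h.1], le_trans (by linarith [h.2]) (vv_sixth_up a)⟩

theorem two (h : UB x a) : UB (2 * x) (2 * a) :=
  ⟨by linarith [h.1], by rw [vv_two_mul]; linarith [h.2]⟩

theorem div (h : UB x a) (k : vv b ≤ y) (hb : 0 < b) : UB (x / y) (du a b) := by
  have hb' : 0 < vv b := vv_pos hb
  have hy : 0 < y := by linarith
  refine ⟨div_nonneg h.1 hy.le, ?_⟩
  rw [div_le_iff₀ hy]
  have h1 := vv_du a hb
  have h2 : vv (du a b) * vv b ≤ vv (du a b) * y :=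
    mul_le_mul_of_nonneg_left k (vv_nonneg _)
  linarith [h.2]

end UB

theorem LB_mul {x y : ℝ} {a b : ℕ} (h : vv a ≤ x) (k : vv b ≤ y) : vv (ml a b) ≤ x * y :=
  (vv_ml a b).trans (mul_le_mul h k (vv_nonneg b) ((vv_nonneg a).trans h))

theorem LB_sub {x y : ℝ} {a b : ℕ} (h : vv a ≤ x) (k : y ≤ vv b) (h0 : 0 ≤ x - y) :
    vv (a - b) ≤ x - y := by
  rcases le_or_gt b a with hab | hab
  · rw [vv_sub_eq hab]; linarith
  · have : a - b = 0 := by omega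
    rw [this]
    have h3 : vv 0 = 0 := by unfold vv; norm_num
    linarith

/-- lower bound when the difference of the numbers is positive -/
theorem LB_sub' {x y : ℝ} {a b : ℕ} (h : vv a ≤ x) (k : y ≤ vv b) (h0 : 0 < a - b) :
    vv (a - b) ≤ x - y := by
  rw [vv_sub_eq (by omega)]; linarith

theorem mx_eq (a b : ℕ) : mx a b = max a b := by
  unfold mx
  rcases le_total a b with h | h
  · rw [max_eq_right h]
    have : Nat.ble a b = true := Nat.ble_eq.mpr h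
    rw [this]; rfl
  · rw [max_eq_left h]
    rcases eq_or_lt_of_le h with h1 | h1
    · rw [h1]; simp
    · have : Nat.ble a b = false := by
        rw [← Bool.not_eq_true, Nat.ble_eq]; omega
      rw [this]; rfl

theorem mn_eq (a b : ℕ) : mn a b = min a b := by
  unfold mn
  rcases le_total a b with h | h
  · rw [min_eq_left h]
    have : Nat.ble a b = true := Nat.ble_eq.mpr h
    rw [this]; rfl
  · rw [min_eq_right h]
    rcases eq_or_lt_of_le h with h1 | h1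
    · rw [h1]; simp
    · have : Nat.ble a b = false := by
        rw [← Bool.not_eq_true, Nat.ble_eq]; omega
      rw [this]; rfl

/-! ### exponentials -/

noncomputable def tlr (x : ℝ) : ℕ → ℕ → ℝ
  | 0, _ => 1
  | n + 1, k => 1 + x * tlr x n (k + 1) / k

noncomputable def tur (x : ℝ) : ℕ → ℕ → ℝ
  | 0, _ => 1 + x * 9 / 64
  | n + 1, k => 1 + x * tur x n (k + 1) / k

theorem tl_le (h : ℕ) : ∀ n k : ℕ, 0 < k → vv (tl h n k) ≤ tlr (vv h) n k
  | 0, _, _ => by unfold tl tlr; exact vv_one.le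
  | n + 1, k, hk => by
    unfold tl tlr
    rw [vv_add, vv_one]
    have ih := tl_le h n (k + 1) (Nat.succ_pos k)
    have h1 : vv (h * tl h n (k + 1) / (1000000 * k)) ≤ vv h * vv (tl h n (k + 1)) / k := by
      unfold vv
      have h2 : (h * tl h n (k + 1) / (1000000 * k)) * (1000000 * k) ≤ h * tl h n (k + 1) :=
        Nat.div_mul_le_self _ _
      have h3 : ((h * tl h n (k + 1) / (1000000 * k) : ℕ) : ℝ) * (1000000 * k)
          ≤ (h : ℝ) * (tl h n (k + 1) : ℕ) := by exact_mod_cast h2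
      have hk' : (0 : ℝ) < k := by exact_mod_cast hk
      rw [div_mul_div_comm, div_div, div_le_div_iff₀ (by norm_num) (by positivity)]
      nlinarith
    have h2 : vv h * vv (tl h n (k + 1)) / k ≤ vv h * tlr (vv h) n (k + 1) / k := by
      have hk' : (0 : ℝ) < k := by exact_mod_cast hk
      exact div_le_div_of_nonneg_right (mul_le_mul_of_nonneg_left ih (vv_nonneg h)) hk'.le
    linarith

theorem tu_ge (h : ℕ) : ∀ n k : ℕ, 0 < k → tur (vv h) n k ≤ vv (tu h n k)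
  | 0, _, _ => by
    unfold tu tur
    rw [vv_add, vv_one]
    have : vv h * 9 / 64 ≤ vv ((h * 9 + 63) / 64) := by
      unfold vv
      have h2 : h * 9 ≤ ((h * 9 + 63) / 64) * 64 := by omega
      have h3 : (h : ℝ) * 9 ≤ (((h * 9 + 63) / 64 : ℕ) : ℝ) * 64 := by exact_mod_cast h2
      rw [div_mul_eq_mul_div, div_div, div_le_div_iff₀ (by norm_num) (by norm_num)]
      nlinarith
    linarith
  | n + 1, k, hk => by
    unfold tu tur
    rw [vv_add, vv_one]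
    have ih := tu_ge h n (k + 1) (Nat.succ_pos k)
    have hk' : (0 : ℝ) < k := by exact_mod_cast hk
    have h1 : vv h * vv (tu h n (k + 1)) / k
        ≤ vv ((h * tu h n (k + 1) + (1000000 * k - 1)) / (1000000 * k)) := by
      unfold vv
      have h2 : h * tu h n (k + 1)
          ≤ ((h * tu h n (k + 1) + (1000000 * k - 1)) / (1000000 * k)) * (1000000 * k) := by
        have h1 := Nat.div_add_mod (h * tu h n (k + 1) + (1000000 * k - 1)) (1000000 * k)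
        have h2 := Nat.mod_lt (h * tu h n (k + 1) + (1000000 * k - 1))
          (show 0 < 1000000 * k by omega)
        have h3 : 1000000 * k * ((h * tu h n (k + 1) + (1000000 * k - 1)) / (1000000 * k))
          = ((h * tu h n (k + 1) + (1000000 * k - 1)) / (1000000 * k)) * (1000000 * k) := by ring
        omega
      have h3 : (h : ℝ) * (tu h n (k + 1) : ℕ)
          ≤ (((h * tu h n (k + 1) + (1000000 * k - 1)) / (1000000 * k) : ℕ) : ℝ)
            * (1000000 * k) := by exact_mod_cast h2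
      rw [div_mul_div_comm, div_div, div_le_div_iff₀ (by positivity) (by norm_num)]
      nlinarith
    have h2 : vv h * tur (vv h) n (k + 1) / k ≤ vv h * vv (tu h n (k + 1)) / k :=
      div_le_div_of_nonneg_right (mul_le_mul_of_nonneg_left ih (vv_nonneg h)) hk'.le
    linarith

theorem tlr_le_exp {x : ℝ} (hx : 0 ≤ x) : tlr x 8 1 ≤ Real.exp x := by
  have h := Real.sum_le_exp_of_nonneg hx 9
  have e : tlr x 8 1 = ∑ i ∈ Finset.range 9, x ^ i / (i.factorial : ℝ) := by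
    simp only [tlr, Finset.sum_range_succ, Finset.sum_range_zero, Nat.factorial]
    push_cast
    ring
  rw [e]; exact h

theorem exp_le_tur {x : ℝ} (hx : 0 ≤ x) (hx1 : x ≤ 1) : Real.exp x ≤ tur x 7 1 := by
  have h := Real.exp_bound' hx hx1 (n := 8) (by norm_num)
  refine h.trans (le_of_eq ?_)
  simp only [tur, Finset.sum_range_succ, Finset.sum_range_zero, Nat.factorial]
  push_cast
  ring

theorem tl_le_exp (h : ℕ) {x : ℝ} (hx : vv h ≤ x) : vv (tl h 8 1) ≤ Real.exp x :=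
  (tl_le h 8 1 one_pos).trans ((tlr_le_exp (vv_nonneg h)).trans (Real.exp_le_exp.mpr hx))

theorem eL_le (x : ℕ) {r : ℝ} (hr : vv x ≤ r) : vv (eL x) ≤ Real.exp r := by
  have h1 : vv (tl (x / 2) 8 1) ≤ Real.exp (r / 2) :=
    tl_le_exp _ ((vv_half_dn x).trans (by linarith))
  have h2 := LB_mul h1 h1
  have e : Real.exp (r / 2) * Real.exp (r / 2) = Real.exp r := by
    rw [← Real.exp_add]; congr 1; ring
  rw [e] at h2
  exact h2

theorem le_eP (x : ℕ) (hx2 : x ≤ 2000000) {r : ℝ} (hr : r ≤ vv x) : Real.exp r ≤ vv (eP x) := by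
  have h0 : vv ((x + 1) / 2) ≤ 1 := by
    rw [← vv_one]; exact vv_le (by omega)
  have h1 : Real.exp (r / 2) ≤ vv (tu ((x + 1) / 2) 7 1) := by
    refine le_trans (Real.exp_le_exp.mpr ?_)
      ((exp_le_tur (vv_nonneg _) h0).trans (tu_ge _ 7 1 one_pos))
    exact le_trans (by linarith) (vv_half_up x)
  have h2 : UB (Real.exp (r / 2)) (tu ((x + 1) / 2) 7 1) := ⟨(Real.exp_pos _).le, h1⟩
  have h3 := (h2.mul h2).2
  have e : Real.exp (r / 2) * Real.exp (r / 2) = Real.exp r := by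
    rw [← Real.exp_add]; congr 1; ring
  rw [e] at h3
  exact h3

theorem tl_pos (h n k : ℕ) : 1000000 ≤ tl h n k := by
  cases n with
  | zero => unfold tl; exact le_rfl
  | succ n => unfold tl; exact Nat.le_add_right _ _

theorem ml_pos {a b : ℕ} (ha : 1000000 ≤ a) (hb : 1000000 ≤ b) : 1000000 ≤ ml a b := by
  unfold ml
  rw [Nat.le_div_iff_mul_le (by norm_num)]
  exact Nat.mul_le_mul ha hb

theorem le_eN (y : ℕ) {r : ℝ} (hr : vv y ≤ r) : Real.exp (-r) ≤ vv (eN y) := by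
  have h1 : vv (tl (y / 4) 8 1) ≤ Real.exp (r / 4) :=
    tl_le_exp _ ((vv_quarter_dn y).trans (by linarith))
  have h2 := LB_mul h1 h1
  have h3 := LB_mul h2 h2
  have e : Real.exp (r / 4) * Real.exp (r / 4) * (Real.exp (r / 4) * Real.exp (r / 4))
      = Real.exp r := by
    rw [← Real.exp_add, ← Real.exp_add]; congr 1; ring
  rw [e] at h3
  have hp : 0 < ml (ml (tl (y / 4) 8 1) (tl (y / 4) 8 1))
      (ml (tl (y / 4) 8 1) (tl (y / 4) 8 1)) := by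
    have h4 := tl_pos (y / 4) 8 1
    have h5 := ml_pos h4 h4
    have h6 := ml_pos h5 h5
    omega
  have h7 := (UB.div UB.one h3 hp).2
  rw [Real.exp_neg, ← one_div]
  exact h7

theorem eN_ub (y : ℕ) {r : ℝ} (hr : vv y ≤ r) : UB (Real.exp (-r)) (eN y) :=
  ⟨(Real.exp_pos _).le, le_eN y hr⟩

/-! ### boxes, hats, leaves, the tree -/

structure Bx where
  Y1 : ℕ
  Y2 : ℕ
  m1 : ℕ
  m2 : ℕ
  n1 : ℕ
  n2 : ℕ
  x1 : ℕ
  x2 : ℕ

def tight (b : Bx) : Bx :=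
  { Y1 := b.Y1, Y2 := b.Y2, m1 := mx b.m1 (2 * mx b.x1 b.n1 + b.n1), m2 := b.m2,
    n1 := b.n1, n2 := b.n2, x1 := mx b.x1 b.n1, x2 := mn b.x2 ((b.m2 - b.n1 + 1) / 2) }

namespace Bx
variable (b : Bx)
def E2 : ℕ := eN b.Y1
def rho : ℕ := 1000000 - (mu b.Y2 b.n2 + 1) / 2
def lam1 : ℕ := ml b.Y1 (1000000 - (mu b.Y1 b.n2 + 1) / 2)
def th2 : ℕ := 1000000 - b.m1
def th1 : ℕ := 1000000 - b.m2
def cor : ℕ := mu (1000000 - b.Y1 / 2) b.n2
def ye : ℕ := bif Nat.ble 1000000 b.Y1 then mu b.Y1 b.E2 else 367880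
def G : ℕ := bif Nat.ble b.Y2 2000000 then mu (b.Y2 - 1000000) (eN b.Y2) else
  bif Nat.ble 2000000 b.Y1 then mu (b.Y1 - 1000000) b.E2 else 135336
def A : ℕ := mn (b.G + mu b.ye b.cor) 135336
def pd : ℕ := eN (ml b.Y1 b.x1)
def al : ℕ := mu b.ye b.pd
def ex2 : ℕ := eP (mu b.Y2 b.m2)
def K : ℕ := mu b.E2 (b.ex2 - (1000000 + ml b.rho (ml b.Y2 b.m2)))
def mh : ℕ := b.m2 - (2 * b.x1 + b.n1)
def ew : ℕ := eP (mu b.Y2 b.mh)
def Epd : ℕ := mu b.E2 b.pd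
def MP : ℕ := mu b.Epd (b.ew - 1000000)
def M1 : ℕ := mu b.Epd (b.ew - (1000000 + ml b.rho (ml b.Y2 b.mh)))
def uu : ℕ := b.th1 + 3 * b.x1 + b.n1
def P : ℕ := mu b.mh (mx (mu (eN (ml b.Y1 b.uu)) (1000000 - ml b.lam1 (b.uu + b.n1))) 135336)
def v1 : ℕ := b.Y1 + ml b.Y1 b.x1
def v2 : ℕ := b.Y2 + mu b.Y2 ((b.m2 - b.n1 + 1) / 2)
def Ga : ℕ := bif Nat.ble b.v2 2000000 then mu (b.v2 - 1000000) (eN b.v2) else
  bif Nat.ble 2000000 b.v1 then mu (b.v1 - 1000000) (eN b.v1) else 135336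
def Aa : ℕ := mn (b.Ga + mu b.al b.cor) 135336
def K2 : ℕ := mu b.m2 b.K
def R : ℕ := mu b.E2 ((mu b.m2 (b.m2 + b.n2) + 1) / 2
  + (mu (mu (b.ex2 - 1000000) (b.m2 + b.n2)) (2 * b.m2 + b.n2) + 5) / 6)
def Qp : ℕ := bif Nat.ble b.Y2 2000000 then
    mu b.E2 (mu (mu b.m2 b.m2) b.Y2
      - ml b.th1 (eL (ml b.Y1 b.m1) - (1000000 + mu b.Y1 b.m1))) + mu (mu b.ye b.cor) b.m2
  else mu b.Y2 b.R
def Qn : ℕ := bif Nat.ble b.Y2 2000000 then 0 else b.K
def th : ℕ := du (b.ye + b.K + 2 * b.al + b.MP - 1000000) (1000000 - b.K)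
def den : ℕ := 1000000 - (mu b.th2 b.ye + mu b.th b.K)
def sig : ℕ := du b.ye b.den
def tau : ℕ := mu b.th b.sig
def Yh : ℕ := 1000000 + b.m2 + (b.m2 + 1) / 2 - b.n1
def dm3 : ℕ := b.m2 - b.n1 + (b.m2 - b.n1 + 1) / 2
end Bx

structure Lf where
  b : Bx
  N : ℕ
  U : ℕ

namespace Lf
variable (l : Lf)
def bb : ℕ := mu l.b.P l.b.sig + mu l.b.M1 (l.U + l.N)
def w1 : ℕ := mu l.b.Aa l.b.sig + mu l.b.al l.N
def aU : ℕ := mu l.b.al l.U
def D1 : ℕ := l.bb + mu (2 * l.b.mh + l.b.n2) l.aU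
def D2 : ℕ := l.bb + mu (2 * l.b.mh + l.b.n2) l.w1
def ps : ℕ := mu l.b.P (l.b.sig + l.b.tau) + mu l.b.M1 (l.U + l.N)
def w0 : ℕ := l.ps + mu l.b.MP l.D1
def W : ℕ := l.ps + mu l.b.MP l.D2 + 2 * l.aU
def q1 : ℕ := mu l.b.Qp l.b.sig + mu l.b.Qn l.b.tau + mu l.b.K (l.U + l.w0)
def q2 : ℕ := mu l.b.Qn l.b.sig + mu l.b.Qp l.b.tau + mu l.b.K (l.N + l.W)
def N1 : ℕ := mu l.b.A (1000000 + mu l.b.th2 l.b.sig)
  + mu l.b.ye (mu l.b.th2 (l.N + l.bb + mu l.b.th2 l.aU)) + l.q1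
  + mu l.w1 (mu (2 * l.b.th2 + l.b.n2) l.b.K + l.b.K2)
def N2 : ℕ := l.b.A + mu (mu l.b.ye l.b.Yh) l.U + l.q1 + mu l.w1 (mu l.b.n2 l.b.K + l.b.K2)
def U1 : ℕ := mu l.b.ye (mu l.b.th2 (l.U + l.bb + mu l.b.th2 l.w1)) + l.q2
def U2 : ℕ := mu (mu l.b.ye l.b.Yh) l.N + l.q2
def B : ℕ := l.b.A + l.q1 + mu l.w1 (mu l.b.n2 l.b.K + l.b.K2)
def C : ℕ := mu l.b.A l.b.sig + mu l.b.ye (l.N + l.bb + mu l.b.th2 l.aU) + 2 * mu l.b.K l.w1
def nn : ℕ := l.b.th2 + l.b.n2 - l.b.x1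
def g1 : ℕ := mu (l.b.x2 + l.b.th2 + l.b.n2) l.b.sig
def G0 : ℕ := 1000000 - l.g1
def eta : ℕ := mu l.b.E2 (1000000 + mu l.nn l.b.sig) + du (mu l.b.K l.b.tau) l.b.lam1
def rr : ℕ := du (l.eta + mu (l.b.th2 + l.b.n2) l.b.sig) l.G0
def Sx : ℕ := mu l.b.x2 (l.B + mu l.C (l.b.th2 + (l.b.n2 + 1) / 2 - l.b.x1 / 2))
def S1 : ℕ := mu (l.b.th2 + l.b.n2) l.B + (mu (mu l.C (l.b.th2 - l.b.x1)) l.nn + 1) / 2
  + (mu (mu (mu l.b.ye l.U) l.b.x2) (l.b.x2 + l.b.n2) + 1) / 2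
def ak : ℕ := l.b.ye + mu l.b.K l.b.tau
def RR : ℕ := l.B + mu (mu l.b.ye l.b.dm3) l.U + mu l.ak (du (l.Sx + l.S1) l.G0)
  + mu (l.b.th2 + l.b.n2) l.b.sig + mu l.b.dm3 l.ak
def pos : ℕ := ml (1000000 - mu l.b.x2 l.b.sig) (l.b.th1 + l.b.n1)
def neg : ℕ := mu l.eta (l.b.m2 - l.b.n1) + mu (1000000 + l.rr) l.S1 + mu l.rr l.Sx
  + mu (mu l.b.E2 l.nn) (l.N + l.bb + mu l.nn l.aU) + mu l.b.R l.b.sig
  + du (mu l.b.K (l.U + l.w0) + mu l.w1 (mu (2 * l.nn + l.b.n2) l.b.K + l.b.K2)) l.b.lam1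
def ok : Bool := Nat.ble (mu l.b.Y2 l.b.m2) 2000000 && Nat.blt l.b.K 1000000 && Nat.blt 0 l.b.lam1
  && Nat.blt 0 l.b.den && Nat.blt l.N1 l.N && Nat.blt l.N2 l.N && Nat.blt l.U1 l.U
  && Nat.blt l.U2 l.U && Nat.blt 0 l.G0 && Nat.ble (l.Sx + l.S1) (ml (l.b.th1 + l.b.n1) l.G0)
  && Nat.ble l.RR 1000000 && Nat.blt l.neg l.pos
end Lf

inductive T where
  | l (N U : ℕ) : T
  | p : T
  | s0 (v : ℕ) (a b : T) : T
  | s1 (v : ℕ) (a b : T) : T
  | s2 (v : ℕ) (a b : T) : T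
  | s3 (v : ℕ) (a b : T) : T

def prune (b : Bx) : Bool :=
  Nat.blt b.x2 b.n1 || Nat.blt b.m2 (2 * mx b.x1 b.n1 + b.n1) ||
  (Nat.ble b.Y2 1000000 && Nat.blt (b.Y2 + mu (mu b.Y2 (1000000 - b.Y2 / 2)) b.n2) 1000000)

def chk : T → Bx → Bool
  | .l N U, b => Lf.ok ⟨tight b, N * 1000, U * 1000⟩
  | .p, b => prune b
  | .s0 v l r, ⟨Y1, Y2, m1, m2, n1, n2, x1, x2⟩ =>
    chk l ⟨Y1, v * 1000, m1, m2, n1, n2, x1, x2⟩ && chk r ⟨v * 1000, Y2, m1, m2, n1, n2, x1, x2⟩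
  | .s1 v l r, ⟨Y1, Y2, m1, m2, n1, n2, x1, x2⟩ =>
    chk l ⟨Y1, Y2, m1, v * 1000, n1, n2, x1, x2⟩ && chk r ⟨Y1, Y2, v * 1000, m2, n1, n2, x1, x2⟩
  | .s2 v l r, ⟨Y1, Y2, m1, m2, n1, n2, x1, x2⟩ =>
    chk l ⟨Y1, Y2, m1, m2, n1, v * 1000, x1, x2⟩ && chk r ⟨Y1, Y2, m1, m2, v * 1000, n2, x1, x2⟩
  | .s3 v l r, ⟨Y1, Y2, m1, m2, n1, n2, x1, x2⟩ =>
    chk l ⟨Y1, Y2, m1, m2, n1, n2, x1, v * 1000⟩ && chk r ⟨Y1, Y2, m1, m2, n1, n2, v * 1000, x2⟩


end Coin.WN
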