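import Pool.Agent.Lib.Coin.WinHiDef
import Pool.Agent.Lib.Coin.WinHiChk
import Pool.Agent.Lib.Coin.WinNum

/-!
# Coin race, one-tail window, `c q ≥ p`: the hats of a box bound the true quantities
-/

namespace Coin.WN

open Real

/-- the point lies in the box -/
structure Inb (b : Bx) (Y m n x : ℝ) : Prop where
  Y1 : vv b.Y1 ≤ Y
  Y2 : Y ≤ vv b.Y2
  m1 : vv b.m1 ≤ m
  m2 : m ≤ vv b.m2
  n1 : vv b.n1 ≤ n
  n2 : n ≤ vv b.n2
  x1 : vv b.x1 ≤ x
  x2 : x ≤ vv b.x2

theorem exp_neg_two_le : exp (-2) ≤ vv 135336 := by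
  have h := Real.exp_one_gt_d9
  have e : exp (2 : ℝ) = exp 1 * exp 1 := by rw [← exp_add]; norm_num
  have h3 : (7.38905 : ℝ) < exp 2 := by rw [e]; nlinarith
  rw [exp_neg]
  unfold vv
  rw [inv_le_comm₀ (exp_pos _) (by norm_num)]
  refine le_trans ?_ h3.le
  norm_num

theorem exp_neg_one_le : exp (-1) ≤ vv 367880 := by
  have h := Real.exp_one_gt_d9
  rw [exp_neg]
  unfold vv
  rw [inv_le_comm₀ (exp_pos _) (by norm_num)]
  refine le_trans ?_ h.le
  norm_num

/-- `(v - 1) exp (-v)` decreases on `[2, oo)` -/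
theorem sub_mul_exp_neg_le' {x y : ℝ} (hx : 2 ≤ x) (hxy : x ≤ y) :
    (y - 1) * exp (-y) ≤ (x - 1) * exp (-x) := by
  have h1 : exp (-y) = exp (-x) * exp (-(y - x)) := by rw [← exp_add]; congr 1; ring
  have h2 : exp (-(y - x)) ≤ 1 / (1 + (y - x)) := by
    rw [exp_neg, one_div]
    apply inv_anti₀ (by linarith)
    have := add_one_le_exp (y - x)
    linarith
  have h3 : 0 < exp (-x) := exp_pos _
  rw [h1]
  have h4 : (y - 1) * (1 / (1 + (y - x))) ≤ x - 1 := by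
    rw [mul_one_div, div_le_iff₀ (by linarith)]
    nlinarith
  have h5 : (y - 1) * exp (-(y - x)) ≤ x - 1 :=
    le_trans (mul_le_mul_of_nonneg_left h2 (by linarith)) h4
  nlinarith

theorem sub_mul_exp_neg_le_two (v : ℝ) : (v - 1) * exp (-v) ≤ exp (-2) := by
  have h1 : exp (-v) = exp (-2) * exp (-(v - 2)) := by rw [← exp_add]; congr 1; ring
  have h2 := add_one_le_exp (v - 2)
  have h3 : (v - 1) * exp (-(v - 2)) ≤ 1 := by
    rw [exp_neg]
    have := exp_pos (v - 2)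
    rw [mul_inv_le_iff₀ this]
    linarith
  have h4 : 0 < exp (-2 : ℝ) := exp_pos _
  rw [h1]
  nlinarith

theorem bif_ble {α : Type*} (a b : ℕ) (x y : α) :
    (bif Nat.ble a b then x else y) = if a ≤ b then x else y := by
  by_cases h : a ≤ b
  · rw [if_pos h, Nat.ble_eq.mpr h]; rfl
  · rw [if_neg h]
    have : Nat.ble a b = false := by
      rw [← Bool.not_eq_true, Nat.ble_eq]; exact h
    rw [this]; rfl

theorem vv_two : vv 2000000 = 2 := by unfold vv; norm_num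

/-- the three cases of the bound of `(v - 1) exp (-v)` -/
theorem gG {a b : ℕ} {v : ℝ} (ha : vv a ≤ v) (hb : v ≤ vv b) :
    (v - 1) * exp (-v) ≤ vv (bif Nat.ble b 2000000 then mu (b - 1000000) (eN b) else
      bif Nat.ble 2000000 a then mu (a - 1000000) (eN a) else 135336) := by
  rw [bif_ble, bif_ble]
  split_ifs with h1 h2
  · rcases le_or_gt v 1 with h2 | h2
    · have h3 : (v - 1) * exp (-v) ≤ 0 :=
        mul_nonpos_of_nonpos_of_nonneg (by linarith) (exp_pos _).le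
      exact h3.trans (vv_nonneg _)
    · have hb2 : vv b ≤ 2 := by
        have := vv_le h1
        rwa [vv_two] at this
      have h3 := sub_mul_exp_neg_le h2.le hb hb2
      refine h3.trans ?_
      have h4 : UB (vv b - 1) (b - 1000000) :=
        UB.sub (UB.self b) vv_one.le (by linarith)
      exact (h4.mul (eN_ub b le_rfl)).2
  · have ha2 : 2 ≤ vv a := by
      have := vv_le h2
      rwa [vv_two] at this
    refine (sub_mul_exp_neg_le' ha2 ha).trans ?_
    have h4 : UB (vv a - 1) (a - 1000000) :=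
      UB.sub (UB.self a) vv_one.le (by linarith)
    exact (h4.mul (eN_ub a le_rfl)).2
  · exact (sub_mul_exp_neg_le_two v).trans exp_neg_two_le

/-- common form of the bounds of `K` and `M1` -/
theorem ub_exp_sub {x X l : ℝ} {e s r : ℕ} (hx0 : 0 ≤ x) (hxX : x ≤ X) (hr1 : vv r ≤ 1)
    (hl : vv r * x ≤ l) (hlx : l ≤ x) (he : exp X ≤ vv e) (hs : vv s ≤ vv r * X) :
    UB (exp x - 1 - l) (e - (1000000 + s)) := by
  have h1 := add_one_le_exp x
  refine ⟨by linarith, ?_⟩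
  have h2 : exp x + (X - x) ≤ exp X := by
    have h3 : exp X = exp x * exp (X - x) := by rw [← exp_add]; congr 1; ring
    have h4 := add_one_le_exp (X - x)
    have h5 : 1 ≤ exp x := one_le_exp hx0
    rw [h3]
    nlinarith
  have h3 := vv_sub_ge e (1000000 + s)
  rw [vv_add, vv_one] at h3
  have h4 : vv r * (X - x) ≤ X - x := by nlinarith
  nlinarith

section hats

variable {Y m n x de ka la E A Aa al MP M1 P K K2 Qp Qn R : ℝ}
  (H : HPt Y m n x de ka la E A Aa al MP M1 P K K2 Qp Qn R) (hY4 : Y ≤ 4)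
  {b : Bx} (I : Inb b Y m n x)

include H

theorem HPt.E0 : 0 < E := by rw [H.E1]; exact exp_pos _

theorem HPt.la0 : 0 < la := by
  have h1 := H.la1
  have h2 := H.nu0
  by_contra h
  have : la ≤ 0 := not_lt.mp h
  nlinarith

theorem HPt.m0 : 0 < m := by
  have := H.hmu; have := H.ka0; have := H.nu0; have := H.xide; have := H.nuxi
  linarith

theorem HPt.del : de ≤ (m - n) / 2 := by
  have := H.hmu; have := H.ka0
  linarith

theorem HPt.xle : x ≤ 1 / 4 := by
  have := H.del; have := H.mu2; have := H.nu0; have := H.xide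
  linarith

theorem HPt.Ede : exp (-(Y * (1 + de))) = E * exp (-(Y * de)) := by
  rw [H.E1, ← exp_add]; congr 1; ring

omit H in
theorem Inb.tight (H : HPt Y m n x de ka la E A Aa al MP M1 P K K2 Qp Qn R)
    (I : Inb b Y m n x) : Inb (tight b) Y m n x := by
  have hn := H.nuxi
  have h1 := H.del
  have h2 := H.hmu
  have h3 := H.ka0
  have h4 := H.xide
  have hx : vv (mx b.x1 b.n1) ≤ x := by
    rw [mx_eq]
    rcases le_total b.x1 b.n1 with h | h
    · rw [max_eq_right h]; linarith [I.n1]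
    · rw [max_eq_left h]; exact I.x1
  refine ⟨I.Y1, I.Y2, ?_, I.m2, I.n1, I.n2, hx, ?_⟩
  · change vv (mx b.m1 (2 * mx b.x1 b.n1 + b.n1)) ≤ m
    rw [mx_eq]
    rcases le_total b.m1 (2 * mx b.x1 b.n1 + b.n1) with h | h
    · rw [max_eq_right h, vv_add, vv_two_mul]; linarith [I.n1]
    · rw [max_eq_left h]; exact I.m1
  · change x ≤ vv (mn b.x2 ((b.m2 - b.n1 + 1) / 2))
    rw [mn_eq]
    rcases le_total b.x2 ((b.m2 - b.n1 + 1) / 2) with h | h
    · rw [min_eq_left h]; exact I.x2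
    · rw [min_eq_right h]
      have h5 := vv_half_up (b.m2 - b.n1)
      have h6 := vv_sub_ge b.m2 b.n1
      linarith [I.m2, I.n1]

include I

theorem ub_E2 : UB E b.E2 := by
  rw [H.E1]; exact eN_ub _ I.Y1

theorem rho_la : vv b.rho * Y ≤ la := by
  have h0 := H.la0
  have hY := H.Y0
  have h1 := H.laL
  have h2 : UB (Y * n / 2) ((mu b.Y2 b.n2 + 1) / 2) :=
    UB.half (UB.mul ⟨hY.le, I.Y2⟩ ⟨H.nu0.le, I.n2⟩)
  unfold Bx.rho
  rcases Nat.eq_zero_or_pos (1000000 - (mu b.Y2 b.n2 + 1) / 2) with h | h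
  · rw [h]
    have h3 : vv 0 = 0 := by unfold vv; norm_num
    rw [h3]; linarith
  · have h3 := LB_sub' vv_one.le h2.2 h
    nlinarith

omit H I in
theorem rho_le_one : vv b.rho ≤ 1 := by
  rw [← vv_one]; exact vv_le (Nat.sub_le _ _)

include hY4 in
theorem lam1_la : vv b.lam1 ≤ la := by
  have h0 := H.la0
  have hY := H.Y0
  have h1 := H.laL
  have h6 := H.nu6
  have hn0 := H.nu0
  have y0 := vv_nonneg b.Y1
  have h2 : UB (vv b.Y1 * vv b.n2 / 2) ((mu b.Y1 b.n2 + 1) / 2) :=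
    UB.half (UB.mul (UB.self _) (UB.self _))
  unfold Bx.lam1
  rcases Nat.eq_zero_or_pos (1000000 - (mu b.Y1 b.n2 + 1) / 2) with h | h
  · rw [h]
    have h3 : vv (ml b.Y1 0) = 0 := by unfold ml vv; norm_num
    rw [h3]; linarith
  · have h3 := LB_sub' vv_one.le h2.2 h
    have h4 := vv_ml b.Y1 (1000000 - (mu b.Y1 b.n2 + 1) / 2)
    have h5 : vv b.Y1 * vv (1000000 - (mu b.Y1 b.n2 + 1) / 2)
        ≤ vv b.Y1 * (1 - vv b.Y1 * vv b.n2 / 2) := mul_le_mul_of_nonneg_left h3 y0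
    have h7 : vv b.Y1 * (1 - vv b.Y1 * vv b.n2 / 2) ≤ vv b.Y1 * (1 - vv b.Y1 * n / 2) := by
      have := I.n2
      apply mul_le_mul_of_nonneg_left _ y0
      nlinarith
    have h8 : vv b.Y1 * (1 - vv b.Y1 * n / 2) ≤ Y * (1 - Y * n / 2) := by
      have a1 := I.Y1
      have a2 : (Y + vv b.Y1) * n / 2 ≤ 1 := by nlinarith
      nlinarith
    linarith

theorem ub_te : UB (1 - m) b.th2 :=
  UB.sub UB.one I.m1 (by linarith [H.mu2])

theorem lb_te : vv b.th1 ≤ 1 - m :=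
  LB_sub vv_one.le I.m2 (by linarith [H.mu2])

theorem ub_cor : UB (max (1 - Y / 2) 0 * n) b.cor := by
  have h1 := vv_half_dn b.Y1
  have h2 := vv_sub_ge 1000000 (b.Y1 / 2)
  rw [vv_one] at h2
  have h3 := I.Y1
  have h4 : UB (max (1 - Y / 2) 0) (1000000 - b.Y1 / 2) :=
    ⟨le_max_right _ _, max_le (by linarith) (vv_nonneg _)⟩
  exact h4.mul ⟨H.nu0.le, I.n2⟩

theorem ub_ye : UB (Y * E) b.ye := by
  have hY := H.Y0
  have hE := H.E0
  refine ⟨by positivity, ?_⟩
  rw [H.E1]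
  unfold Bx.ye
  rw [bif_ble]
  split_ifs with h1
  · have h2 : 1 ≤ vv b.Y1 := by
      have := vv_le h1
      rwa [vv_one] at this
    refine (mul_exp_neg_le h2 I.Y1).trans ?_
    exact ((UB.self b.Y1).mul (eN_ub b.Y1 le_rfl)).2
  · refine le_trans ?_ exp_neg_one_le
    have h2 := add_one_le_exp (Y - 1)
    have h3 : exp (-1) = exp (-Y) * exp (Y - 1) := by rw [← exp_add]; congr 1; ring
    have h4 : 0 < exp (-Y) := exp_pos _
    rw [h3]
    nlinarith

theorem ub_g : UB (la * E) b.ye :=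
  (ub_ye H I).mono (mul_nonneg H.la0.le H.E0.le) (mul_le_mul_of_nonneg_right H.laY H.E0.le)

theorem le_A : A ≤ vv b.A := by
  have hE := H.E0
  have hY := H.Y0
  have h1 : (Y - 1) * E ≤ vv b.G := by
    rw [H.E1]; exact gG I.Y1 I.Y2
  have h2 := ((ub_ye H I).mul (ub_cor H I))
  unfold Bx.A
  rw [mn_eq]
  rcases le_total (b.G + mu b.ye b.cor) 135336 with h | h
  · rw [min_eq_left h, vv_add, H.A1]
    rcases le_total Y 2 with h3 | h3
    · have h4 := H.la2 h3
      have h5 : E * (la * (1 + n) - 1) ≤ E * (Y + Y * (1 - Y / 2) * n - 1) :=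
        mul_le_mul_of_nonneg_left (by linarith) hE.le
      have h6 : Y * E * (max (1 - Y / 2) 0 * n) = Y * E * ((1 - Y / 2) * n) := by
        rw [max_eq_left (by linarith)]
      have h7 := h2.2
      rw [h6] at h7
      nlinarith
    · have h4 := H.la3 h3
      have h5 : E * (la * (1 + n) - 1) ≤ E * (Y - 1) :=
        mul_le_mul_of_nonneg_left (by linarith) hE.le
      have := vv_nonneg (mu b.ye b.cor)
      nlinarith
  · rw [min_eq_right h]
    exact H.A2.trans exp_neg_two_le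

theorem ub_pd : UB (exp (-(Y * de))) b.pd := by
  have h1 : vv b.x1 ≤ de := I.x1.trans H.xide
  exact eN_ub _ (LB_mul I.Y1 h1)

theorem ub_Epd : UB (exp (-(Y * (1 + de)))) b.Epd := by
  rw [H.Ede]; exact (ub_E2 H I).mul (ub_pd H I)

theorem ub_Yal : UB (Y * exp (-(Y * (1 + de)))) b.al := by
  have := (ub_ye H I).mul (ub_pd H I)
  rw [H.Ede, ← mul_assoc]; exact this

theorem ub_al : UB al b.al := by
  have h1 := ub_Yal H I
  rw [H.al1]
  exact h1.mono (mul_nonneg H.la0.le (exp_pos _).le)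
    (mul_le_mul_of_nonneg_right H.laY (exp_pos _).le)

theorem ub_ex2 (h2 : mu b.Y2 b.m2 ≤ 2000000) : UB (exp (Y * m)) b.ex2 :=
  ⟨(exp_pos _).le, le_eP _ h2 (UB.mul ⟨H.Y0.le, I.Y2⟩ ⟨H.m0.le, I.m2⟩).2⟩

omit H I in
theorem exp_prod_le {u w : ℕ} (h2 : mu u w ≤ 2000000) : exp (vv u * vv w) ≤ vv (eP (mu u w)) :=
  le_eP _ h2 (vv_mu u w)

omit H I in
theorem ml_ml_le (r u w : ℕ) : vv (ml r (ml u w)) ≤ vv r * (vv u * vv w) :=
  (vv_ml _ _).trans (mul_le_mul_of_nonneg_left (vv_ml u w) (vv_nonneg r))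

theorem ub_K (h2 : mu b.Y2 b.m2 ≤ 2000000) : UB K b.K := by
  have hY := H.Y0
  have hm := H.m0
  have h3 := rho_la H I
  rw [H.K1]
  refine (ub_E2 H I).mul ?_
  refine ub_exp_sub (by positivity)
    (mul_le_mul I.Y2 I.m2 hm.le (vv_nonneg _)) rho_le_one ?_ ?_ (exp_prod_le h2) (ml_ml_le _ _ _)
  · have := mul_le_mul_of_nonneg_right h3 hm.le
    nlinarith
  · exact mul_le_mul_of_nonneg_right H.laY hm.le

theorem ub_mh : UB ka b.mh := by
  refine ⟨H.ka0, ?_⟩
  have h1 := vv_sub_ge b.m2 (2 * b.x1 + b.n1)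
  rw [vv_add, vv_two_mul] at h1
  have := H.hmu
  have := H.xide
  exact le_trans (by linarith [I.m2, I.x1, I.n1]) h1

omit H I in
theorem mh_le (h2 : mu b.Y2 b.m2 ≤ 2000000) : mu b.Y2 b.mh ≤ 2000000 := by
  refine le_trans ?_ h2
  unfold mu Bx.mh
  apply Nat.div_le_div_right
  have : b.Y2 * (b.m2 - (2 * b.x1 + b.n1)) ≤ b.Y2 * b.m2 := Nat.mul_le_mul_left _ (Nat.sub_le _ _)
  omega

theorem ub_MP (h2 : mu b.Y2 b.m2 ≤ 2000000) : UB MP b.MP := by
  rw [H.MP1]
  refine (ub_Epd H I).mul ?_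
  have h4 : UB (exp (Y * ka)) b.ew :=
    ⟨(exp_pos _).le, le_eP _ (mh_le h2) (UB.mul ⟨H.Y0.le, I.Y2⟩ (ub_mh H I)).2⟩
  refine h4.sub vv_one.le ?_
  have : 1 ≤ exp (Y * ka) := one_le_exp (mul_nonneg H.Y0.le H.ka0)
  linarith

theorem ub_M1 (h2 : mu b.Y2 b.m2 ≤ 2000000) : UB M1 b.M1 := by
  have hY := H.Y0
  have hk := H.ka0
  have h3 := rho_la H I
  rw [H.M11]
  refine (ub_Epd H I).mul ?_
  refine ub_exp_sub (by positivity)
    (mul_le_mul I.Y2 (ub_mh H I).2 hk (vv_nonneg _)) rho_le_one ?_ ?_ (exp_prod_le (mh_le h2))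
    (ml_ml_le _ _ _)
  · have := mul_le_mul_of_nonneg_right h3 hk
    nlinarith
  · exact mul_le_mul_of_nonneg_right H.laY hk

theorem lb_uu : vv b.uu ≤ 1 + de - ka := by
  have h1 := lb_te H I
  have h2 := H.hmu
  have h3 := I.x1
  have h4 := H.xide
  have h5 := I.n1
  unfold Bx.uu
  rw [vv_add, vv_add, vv_three_mul]
  linarith

include hY4 in
theorem le_P : P ≤ vv b.P := by
  have hY := H.Y0
  have h1 := lb_uu H I
  have h2 := LB_mul I.Y1 h1
  have h3 := eN_ub _ h2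
  have h4 := lam1_la H hY4 I
  have h5 : vv (b.uu + b.n1) ≤ 1 + de - ka + n := by
    rw [vv_add]; linarith [I.n1]
  have h6 := LB_mul h4 h5
  have h7 : exp (-(Y * (1 + de - ka))) * (1 - la * (1 + de - ka + n))
      ≤ vv (mu (eN (ml b.Y1 b.uu)) (1000000 - ml b.lam1 (b.uu + b.n1))) := by
    rcases le_or_gt (1 - la * (1 + de - ka + n)) 0 with h | h
    · exact (mul_nonpos_of_nonneg_of_nonpos (exp_pos _).le h).trans (vv_nonneg _)
    · exact (h3.mul (UB.one.sub h6 h.le)).2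
  have h8 : max (exp (-(Y * (1 + de - ka))) * (1 - la * (1 + de - ka + n))) (exp (-2))
      ≤ vv (mx (mu (eN (ml b.Y1 b.uu)) (1000000 - ml b.lam1 (b.uu + b.n1))) 135336) := by
    rw [mx_eq]
    refine max_le (h7.trans (vv_le (le_max_left _ _)))
      (exp_neg_two_le.trans (vv_le (le_max_right _ _)))
  have h9 : UB (max (exp (-(Y * (1 + de - ka))) * (1 - la * (1 + de - ka + n))) (exp (-2)))
      (mx (mu (eN (ml b.Y1 b.uu)) (1000000 - ml b.lam1 (b.uu + b.n1))) 135336) :=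
    ⟨le_trans (exp_pos _).le (le_max_right _ _), h8⟩
  exact H.P1.trans ((ub_mh H I).mul h9).2

theorem lb_v1 : vv b.v1 ≤ Y * (1 + de) := by
  unfold Bx.v1
  rw [vv_add]
  have h1 : vv (ml b.Y1 b.x1) ≤ Y * de := LB_mul I.Y1 (I.x1.trans H.xide)
  have := I.Y1
  linarith

theorem ub_v2 : UB (Y * (1 + de)) b.v2 := by
  have h2 : UB ((m - n) / 2) ((b.m2 - b.n1 + 1) / 2) := by
    have := H.nu0; have h1 := H.del; have h2 := H.xide; have h3 := H.nuxi
    exact UB.half (UB.sub ⟨H.m0.le, I.m2⟩ I.n1 (by linarith))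
  have h3 := UB.mul (⟨H.Y0.le, I.Y2⟩ : UB Y b.Y2) h2
  have h4 := UB.add (⟨H.Y0.le, I.Y2⟩ : UB Y b.Y2) h3
  have hY := H.Y0
  have hd : 0 < de := by have := H.nu0; have := H.nuxi; have := H.xide; linarith
  refine h4.mono (by positivity) ?_
  have := H.del
  nlinarith

theorem le_Aa : Aa ≤ vv b.Aa := by
  have hY := H.Y0
  have hd : 0 < de := by have := H.nu0; have := H.nuxi; have := H.xide; linarith
  have h1 : (Y * (1 + de) - 1) * exp (-(Y * (1 + de))) ≤ vv b.Ga :=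
    gG (lb_v1 H I) (ub_v2 H I).2
  have h2 := (ub_Yal H I).mul (ub_cor H I)
  have hE : 0 < exp (-(Y * (1 + de))) := exp_pos _
  unfold Bx.Aa
  rw [mn_eq]
  rcases le_total (b.Ga + mu b.al b.cor) 135336 with h | h
  · rw [min_eq_left h, vv_add]
    rcases le_total (Y * (1 + de)) 2 with h3 | h3
    · have h4 := H.Aa1 h3
      have h5 : Y * n * (1 - Y * (1 + de) / 2) ≤ Y * (max (1 - Y / 2) 0 * n) := by
        have a1 : 1 - Y * (1 + de) / 2 ≤ max (1 - Y / 2) 0 :=
          le_trans (by nlinarith) (le_max_left _ _)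
        have a2 : 0 ≤ Y * n := mul_nonneg hY.le H.nu0.le
        nlinarith [mul_le_mul_of_nonneg_left a1 a2]
      have h6 : exp (-(Y * (1 + de))) * (Y * (1 + de) - 1 + Y * n * (1 - Y * (1 + de) / 2))
          ≤ exp (-(Y * (1 + de))) * (Y * (1 + de) - 1 + Y * (max (1 - Y / 2) 0 * n)) :=
        mul_le_mul_of_nonneg_left (by linarith) hE.le
      have h7 := h2.2
      nlinarith
    · have h4 := H.Aa3 h3
      have := vv_nonneg (mu b.al b.cor)
      linarith
  · rw [min_eq_right h]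
    exact H.Aa2.trans exp_neg_two_le

theorem le_K2 (h2 : mu b.Y2 b.m2 ≤ 2000000) : K2 ≤ vv b.K2 :=
  H.K21.trans (UB.mul ⟨H.m0.le, I.m2⟩ (ub_K H I h2)).2

theorem le_R (h2 : mu b.Y2 b.m2 ≤ 2000000) : R ≤ vv b.R := by
  have um : UB m b.m2 := ⟨H.m0.le, I.m2⟩
  have un : UB n b.n2 := ⟨H.nu0.le, I.n2⟩
  have h1 : 1 ≤ exp (Y * m) := one_le_exp (mul_nonneg H.Y0.le H.m0.le)
  have ue : UB (exp (Y * m) - 1) (b.ex2 - 1000000) :=
    (ub_ex2 H I h2).sub vv_one.le (by linarith)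
  have h3 := (ub_E2 H I).mul (((um.mul (um.add un)).half).add
    (((ue.mul (um.add un)).mul (um.two.add un)).sixth))
  exact H.R1.trans h3.2

theorem le_Qp (h2 : mu b.Y2 b.m2 ≤ 2000000) : Qp ≤ vv b.Qp := by
  have hY := H.Y0
  have hm := H.m0
  have hE := H.E0
  unfold Bx.Qp
  rw [bif_ble]
  split_ifs with h1
  · have hY2 : Y ≤ 2 := by
      have := vv_le h1
      rw [vv_two] at this
      exact I.Y2.trans this
    have um : UB m b.m2 := ⟨H.m0.le, I.m2⟩
    have uY : UB Y b.Y2 := ⟨hY.le, I.Y2⟩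
    have h3 := H.Qp1 hY2
    have h4 := H.la2 hY2
    have h5 : la * m * (1 + n) ≤ m * (Y + Y * (1 - Y / 2) * n) := by nlinarith
    have h6 : E * (la * m * (1 + n) - (1 - m) * (exp (Y * m) - 1))
        ≤ E * (m * m * Y - (1 - m) * (exp (Y * m) - 1 - Y * m))
          + Y * E * ((1 - Y / 2) * n) * m := by
      have h7 := mul_le_mul_of_nonneg_left h5 hE.le
      nlinarith
    have h7 : Y * E * ((1 - Y / 2) * n) * m ≤ vv (mu (mu b.ye b.cor) b.m2) := by
      have h8 := (((ub_ye H I).mul (ub_cor H I)).mul um).2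
      rw [max_eq_left (by linarith : (0 : ℝ) ≤ 1 - Y / 2)] at h8
      exact h8
    have h8 : vv (eL (ml b.Y1 b.m1) - (1000000 + mu b.Y1 b.m1)) ≤ exp (Y * m) - 1 - Y * m := by
      have a1 : 0 ≤ vv b.Y1 * vv b.m1 := mul_nonneg (vv_nonneg _) (vv_nonneg _)
      have a2 : vv b.Y1 * vv b.m1 ≤ Y * m := mul_le_mul I.Y1 I.m1 (vv_nonneg _) hY.le
      have a3 := eL_le (ml b.Y1 b.m1) (vv_ml b.Y1 b.m1)
      have a4 : 1 + vv b.Y1 * vv b.m1 ≤ vv (1000000 + mu b.Y1 b.m1) := by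
        rw [vv_add, vv_one]; linarith [vv_mu b.Y1 b.m1]
      have a5 := add_one_le_exp (vv b.Y1 * vv b.m1)
      have a6 := LB_sub a3 a4 (by linarith)
      have a7 : exp (vv b.Y1 * vv b.m1) + (Y * m - vv b.Y1 * vv b.m1) ≤ exp (Y * m) := by
        have h3 : exp (Y * m) = exp (vv b.Y1 * vv b.m1) * exp (Y * m - vv b.Y1 * vv b.m1) := by
          rw [← exp_add]; congr 1; ring
        have h4 := add_one_le_exp (Y * m - vv b.Y1 * vv b.m1)
        have h5 : 1 ≤ exp (vv b.Y1 * vv b.m1) := one_le_exp a1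
        rw [h3]
        nlinarith
      linarith
    have h9 := LB_mul (lb_te H I) h8
    have h10 : E * (m * m * Y - (1 - m) * (exp (Y * m) - 1 - Y * m))
        ≤ vv (mu b.E2 (mu (mu b.m2 b.m2) b.Y2
          - ml b.th1 (eL (ml b.Y1 b.m1) - (1000000 + mu b.Y1 b.m1)))) := by
      rcases le_or_gt (m * m * Y - (1 - m) * (exp (Y * m) - 1 - Y * m)) 0 with h | h
      · exact (mul_nonpos_of_nonneg_of_nonpos hE.le h).trans (vv_nonneg _)
      · exact ((ub_E2 H I).mul (((um.mul um).mul uY).sub h9 h.le)).2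
    rw [vv_add]
    linarith
  · have h3 := H.Qp2
    have h4 := le_R H I h2
    have h5 : la * R ≤ la * vv b.R := mul_le_mul_of_nonneg_left h4 H.la0.le
    have h6 : la * vv b.R ≤ vv b.Y2 * vv b.R :=
      mul_le_mul_of_nonneg_right (H.laY.trans I.Y2) (vv_nonneg _)
    exact (h3.trans (h5.trans h6)).trans (vv_mu _ _)

theorem le_Qn (h2 : mu b.Y2 b.m2 ≤ 2000000) : Qn ≤ vv b.Qn := by
  unfold Bx.Qn
  rw [bif_ble]
  split_ifs with h1
  · have hY2 : Y ≤ 2 := by
      have := vv_le h1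
      rw [vv_two] at this
      exact I.Y2.trans this
    exact (H.Qn1 hY2).trans (vv_nonneg _)
  · exact H.Qn2.trans (ub_K H I h2).2

end hats

end Coin.WN
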