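import Pool.Agent.Lib.Coin.HiCert

/-!
# Coin race, one-tail window, `c q ≥ p`: the certificate in scaled letters

`Y = -c log p`, `mu = m'/c`, `nu = 1/c`, `xi = x/c`, `de = (a-c)/c`, `ka = m/c`, `la = c q`,
`E = p^c = exp (-Y)`.  `SH` are the scaled numbers, `SOK` the scaled inequalities between them,
`HPt` the facts about a point which the numeric check uses.
-/

namespace Coin.WN

/-- scaled numbers: `s = c σ` and so on -/
structure SH where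
  s : ℝ
  t : ℝ
  th : ℝ
  A : ℝ
  Aa : ℝ
  al : ℝ
  MP : ℝ
  M1 : ℝ
  P : ℝ
  K : ℝ
  K2 : ℝ
  Qp : ℝ
  Qn : ℝ
  R : ℝ
  N : ℝ
  U : ℝ

namespace SH

variable (h : SH)

noncomputable def toDat (c : ℕ) : Coin.HiDat :=
  { s := h.s / c, t := h.t / c, th := h.th, A := h.A, Aa := h.Aa, qa := h.al / c, MP := h.MP,
    M1 := h.M1, PA := c * h.P, K := h.K, K2 := c * h.K2, Qp := c * h.Qp, Qn := c * h.Qn,
    R := c ^ 2 * h.R, N := h.N, U := h.U }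

def b : ℝ := h.P * h.s + h.M1 * (h.U + h.N)

def w1 : ℝ := h.Aa * h.s + h.al * h.N

def D1 (ka nu : ℝ) : ℝ := h.b + (2 * ka + nu) * (h.al * h.U)

def D2 (ka nu : ℝ) : ℝ := h.b + (2 * ka + nu) * h.w1

def w0 (ka nu : ℝ) : ℝ := h.P * (h.s + h.t) + h.M1 * (h.U + h.N) + h.MP * h.D1 ka nu

def W (ka nu : ℝ) : ℝ :=
  h.P * (h.s + h.t) + h.M1 * (h.U + h.N) + h.MP * h.D2 ka nu + 2 * (h.al * h.U)

def B (ka nu : ℝ) : ℝ :=
  h.A + h.Qp * h.s + h.Qn * h.t + h.K * (h.U + h.w0 ka nu) + h.w1 * (nu * h.K + h.K2)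

/-- `g = la * E`, `te = z / c = 1 - mu` -/
def C (g te : ℝ) : ℝ := h.A * h.s + g * (h.N + h.b + te * (h.al * h.U)) + 2 * (h.K * h.w1)

noncomputable def Sx (g te nu xi ka : ℝ) : ℝ :=
  xi * h.B ka nu + h.C g te * (xi * (te + nu) - xi * (xi + nu) / 2)

noncomputable def S (g te nu xi ka : ℝ) : ℝ :=
  h.Sx g te nu xi ka + (te + nu) * h.B ka nu + h.C g te * ((te - xi) * (te + nu - xi) / 2)
    + g * h.U * (xi * (xi + nu) / 2)

end SH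

/-- the scaled inequalities; `te = 1 - mu` -/
structure SOK (la E mu nu xi ka te : ℝ) (h : SH) : Prop where
  s0 : 0 ≤ h.s
  U0 : 0 < h.U
  N0 : 0 < h.N
  th0 : 0 ≤ h.th
  al0 : 0 ≤ h.al
  hth : la * E + h.K + 2 * h.al + h.MP - 1 ≤ h.th * (1 - h.K)
  hs0 : 0 < 1 - te * (la * E) - h.th * h.K
  hs : la * E ≤ h.s * (1 - te * (la * E) - h.th * h.K)
  ht : h.th * h.s ≤ h.t
  hN1 : h.A * (1 + te * h.s)
      + la * E * (te * h.N + te * h.b + te ^ 2 * (h.al * h.U))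
      + h.Qp * h.s + h.Qn * h.t + h.K * (h.U + h.w0 ka nu)
      + h.w1 * ((2 * te + nu) * h.K + h.K2) < h.N
  hN2 : h.A + la * E * ((1 + 3 / 2 * (mu - nu)) * h.U) + h.Qp * h.s + h.Qn * h.t
      + h.K * (h.U + h.w0 ka nu) + h.w1 * (nu * h.K + h.K2) < h.N
  hU1 : la * E * (te * h.U + te * h.b + te ^ 2 * h.w1)
      + h.Qn * h.s + h.Qp * h.t + h.K * (h.N + h.W ka nu) < h.U
  hU2 : la * E * ((1 + 3 / 2 * (mu - nu)) * h.N) + h.Qn * h.s + h.Qp * h.t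
      + h.K * (h.N + h.W ka nu) < h.U
  hG0 : (xi + te + nu) * h.s < 1
  hG : h.S (la * E) te nu xi ka ≤ (te + nu) * (1 - (xi + te + nu) * h.s)
  hRed : h.B ka nu + la * E * (3 / 2 * (mu - nu)) * h.U
      + (la * E + h.K * h.t) * (h.S (la * E) te nu xi ka / (1 - (xi + te + nu) * h.s))
      + (te + nu) * h.s + 3 / 2 * (mu - nu) * (la * E + h.K * h.t) ≤ 1
  hF : 0 < (1 - xi * h.s)
        * ((te + nu) - h.S (la * E) te nu xi ka / (1 - (xi + te + nu) * h.s))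
      - (E * (1 + (te + nu - xi) * h.s) + h.K * h.t / la)
        * ((mu - nu) + h.S (la * E) te nu xi ka / (1 - (xi + te + nu) * h.s))
      + h.Sx (la * E) te nu xi ka
      - E * (te + nu - xi) * (h.N + h.b + (te + nu - xi) * (h.al * h.U))
      - h.R * h.s
      - (h.K * (h.U + h.w0 ka nu) + h.w1 * ((2 * (te + nu - xi) + nu) * h.K + h.K2)) / la

/-- the numbers are upper bounds of the true quantities -/
structure SHat (p : ℝ) (a m c m' : ℕ) (h : SH) : Prop where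
  hA : -Coin.psi p c ≤ h.A
  hAa : -Coin.psi p a ≤ h.Aa
  hal : (c : ℝ) * ((1 - p) * p ^ a) ≤ h.al
  hMP : Coin.MP p a m ≤ h.MP
  hM1 : (1 - p) * p ^ a * ∑ j ∈ Finset.Icc 1 m, (1 / p ^ j - 1) ≤ h.M1
  hP : (∑ j ∈ Finset.Icc 1 m, |Coin.psi p (a - j)|) / c ≤ h.P
  hK : Coin.Kc p c m' ≤ h.K
  hK2 : (∑ i ∈ Finset.range m', 2 * (i : ℝ)
      * ((1 - p) * p ^ (c - m' + i) - (1 - p) * p ^ c)) / c ≤ h.K2
  hQp : (∑ i ∈ Finset.range m', max (Coin.psi p (c - m' + i) - Coin.psi p c) 0) / c ≤ h.Qp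
  hQn : (∑ i ∈ Finset.range m', max (-(Coin.psi p (c - m' + i) - Coin.psi p c)) 0) / c ≤ h.Qn
  hR : Coin.R1 p c m' / c ^ 2 ≤ h.R

/-- the facts about the true quantities used by the numeric check -/
structure HPt (Y mu nu xi de ka la E A Aa al MP M1 P K K2 Qp Qn R : ℝ) : Prop where
  Y0 : 0 < Y
  nu0 : 0 < nu
  nu6 : nu ≤ 1 / 6
  nuxi : nu ≤ xi
  xide : xi ≤ de
  ka0 : 0 ≤ ka
  hmu : 2 * de + ka + nu ≤ mu
  mu2 : mu ≤ 1 / 2
  E1 : E = Real.exp (-Y)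
  laY : la ≤ Y
  laL : Y * (1 - Y * nu / 2) ≤ la
  la1 : 1 ≤ la * (1 + nu)
  la2 : Y ≤ 2 → la * (1 + nu) ≤ Y + Y * (1 - Y / 2) * nu
  la3 : 2 ≤ Y → la * (1 + nu) ≤ Y
  A1 : A = E * (la * (1 + nu) - 1)
  A2 : A ≤ Real.exp (-2)
  Aa1 : Y * (1 + de) ≤ 2 →
    Aa ≤ Real.exp (-(Y * (1 + de))) * (Y * (1 + de) - 1 + Y * nu * (1 - Y * (1 + de) / 2))
  Aa2 : Aa ≤ Real.exp (-2)
  Aa3 : 2 ≤ Y * (1 + de) → Aa ≤ Real.exp (-(Y * (1 + de))) * (Y * (1 + de) - 1)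
  al1 : al = la * Real.exp (-(Y * (1 + de)))
  MP1 : MP = Real.exp (-(Y * (1 + de))) * (Real.exp (Y * ka) - 1)
  M11 : M1 = Real.exp (-(Y * (1 + de))) * (Real.exp (Y * ka) - 1 - la * ka)
  P1 : P ≤ ka * max (Real.exp (-(Y * (1 + de - ka))) * (1 - la * (1 + de - ka + nu)))
    (Real.exp (-2))
  K1 : K = E * (Real.exp (Y * mu) - 1 - la * mu)
  K21 : K2 ≤ mu * K
  Qp1 : Y ≤ 2 → Qp ≤ E * (la * mu * (1 + nu) - (1 - mu) * (Real.exp (Y * mu) - 1))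
  Qn1 : Y ≤ 2 → Qn ≤ 0
  Qp2 : Qp ≤ la * R
  Qn2 : Qn ≤ K
  R1 : R ≤ E * (mu * (mu + nu) / 2 + (Real.exp (Y * mu) - 1) * (mu + nu) * (2 * mu + nu) / 6)

/-- first interface: scaled inequalities give the certificate -/
def ScaleStatement : Prop := ∀ (p : ℝ) (a m c m' x : ℕ) (h : SH), 0 < p → p < 1 → c < a →
  2 * m' ≤ c → 2 * (a - c) < m' - m → 1 ≤ x → x ≤ a - c → SHat p a m c m' h →
  SOK (c * (1 - p)) (p ^ c) (m' / c) (1 / c) (x / c) (m / c) (1 - m' / c) h →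
  Coin.HiOKx p a m c m' x (h.toDat c)

/-- second interface: the facts about the true quantities -/
def PtStatement : Prop := ∀ (p : ℝ) (a m c m' x : ℕ), 0 < p → p < 1 → p ≤ c * (1 - p) → c < a →
  2 * m' ≤ c → 2 * (a - c) < m' - m → 1 ≤ x → x ≤ a - c →
  HPt (c * (-Real.log p)) (m' / c) (1 / c) (x / c) ((a - c : ℕ) / c) (m / c) (c * (1 - p)) (p ^ c)
    (-Coin.psi p c) (-Coin.psi p a) (c * ((1 - p) * p ^ a)) (Coin.MP p a m)
    ((1 - p) * p ^ a * ∑ j ∈ Finset.Icc 1 m, (1 / p ^ j - 1))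
    ((∑ j ∈ Finset.Icc 1 m, |Coin.psi p (a - j)|) / c) (Coin.Kc p c m')
    ((∑ i ∈ Finset.range m', 2 * (i : ℝ)
      * ((1 - p) * p ^ (c - m' + i) - (1 - p) * p ^ c)) / c)
    ((∑ i ∈ Finset.range m', max (Coin.psi p (c - m' + i) - Coin.psi p c) 0) / c)
    ((∑ i ∈ Finset.range m', max (-(Coin.psi p (c - m' + i) - Coin.psi p c)) 0) / c)
    (Coin.R1 p c m' / c ^ 2)

end Coin.WN
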