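import Pool.Agent.Lib.Coin.WinHiBox

/-!
# Coin race, one-tail window, `c q ≥ p`: an accepted leaf gives the scaled inequalities
-/

namespace Coin.WN

open Real

theorem fin_id {x s t n e d G sx s1 : ℝ} (hG : G ≠ 0) (hGe : G = 1 - (x + t + n) * s) :
    (1 - x * s) * ((t + n) - (sx + s1) / G) - e * (d + (sx + s1) / G) + sx
      = (1 - x * s) * (t + n)
        - (e * d + (1 + (e + (t + n) * s) / G) * s1 + (e + (t + n) * s) / G * sx) := by
  have h1 : (1 + (e + (t + n) * s) / G) * s1 + (e + (t + n) * s) / G * sx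
      = s1 + (e + (t + n) * s) * ((sx + s1) / G) := by ring
  have h2 : (sx + s1) / G * G = sx + s1 := div_mul_cancel₀ _ hG
  generalize (sx + s1) / G = a at *
  have h3 : a * G = a * (1 - (x + t + n) * s) := by rw [hGe]
  linarith

noncomputable def Lf.sh (l : Lf) : SH where
  s := vv l.b.sig
  t := vv l.b.tau
  th := vv l.b.th
  A := vv l.b.A
  Aa := vv l.b.Aa
  al := vv l.b.al
  MP := vv l.b.MP
  M1 := vv l.b.M1
  P := vv l.b.P
  K := vv l.b.K
  K2 := vv l.b.K2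
  Qp := vv l.b.Qp
  Qn := vv l.b.Qn
  R := vv l.b.R
  N := vv l.N
  U := vv l.U

section leaf

variable {l : Lf}

theorem ub_bb : UB l.sh.b l.bb := by
  unfold Lf.bb SH.b
  exact ((UB.self _).mul (UB.self _)).add ((UB.self _).mul ((UB.self _).add (UB.self _)))

theorem ub_w1 : UB l.sh.w1 l.w1 := by
  unfold Lf.w1 SH.w1
  exact ((UB.self _).mul (UB.self _)).add ((UB.self _).mul (UB.self _))

theorem ub_aU : UB (l.sh.al * l.sh.U) l.aU := by
  unfold Lf.aU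
  exact (UB.self _).mul (UB.self _)

variable {Y m n x de ka la E A Aa al MP M1 P K K2 Qp Qn R : ℝ}
  (H : HPt Y m n x de ka la E A Aa al MP M1 P K K2 Qp Qn R) (hY4 : Y ≤ 4)
  (I : Inb l.b Y m n x)

include H I

theorem ub_2kn : UB (2 * ka + n) (2 * l.b.mh + l.b.n2) :=
  ((ub_mh H I).two).add ⟨H.nu0.le, I.n2⟩

theorem ub_D1 : UB (l.sh.D1 ka n) l.D1 := by
  unfold Lf.D1 SH.D1
  exact ub_bb.add ((ub_2kn H I).mul ub_aU)

theorem ub_D2 : UB (l.sh.D2 ka n) l.D2 := by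
  unfold Lf.D2 SH.D2
  exact ub_bb.add ((ub_2kn H I).mul ub_w1)

omit H I in
theorem ub_ps : UB (l.sh.P * (l.sh.s + l.sh.t) + l.sh.M1 * (l.sh.U + l.sh.N)) l.ps := by
  unfold Lf.ps
  exact ((UB.self _).mul ((UB.self _).add (UB.self _))).add
    ((UB.self _).mul ((UB.self _).add (UB.self _)))

theorem ub_w0 : UB (l.sh.w0 ka n) l.w0 := by
  unfold Lf.w0 SH.w0
  exact ub_ps.add ((UB.self _).mul (ub_D1 H I))

theorem ub_W : UB (l.sh.W ka n) l.W := by
  unfold Lf.W SH.W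
  exact (ub_ps.add ((UB.self _).mul (ub_D2 H I))).add ub_aU.two

theorem ub_q1 : UB (l.sh.Qp * l.sh.s + l.sh.Qn * l.sh.t
    + l.sh.K * (l.sh.U + l.sh.w0 ka n)) l.q1 := by
  unfold Lf.q1
  exact (((UB.self _).mul (UB.self _)).add ((UB.self _).mul (UB.self _))).add
    ((UB.self _).mul ((UB.self _).add (ub_w0 H I)))

theorem ub_q2 : UB (l.sh.Qn * l.sh.s + l.sh.Qp * l.sh.t
    + l.sh.K * (l.sh.N + l.sh.W ka n)) l.q2 := by
  unfold Lf.q2
  exact (((UB.self _).mul (UB.self _)).add ((UB.self _).mul (UB.self _))).add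
    ((UB.self _).mul ((UB.self _).add (ub_W H I)))

theorem ub_wk : UB (l.sh.w1 * (n * l.sh.K + l.sh.K2)) (mu l.w1 (mu l.b.n2 l.b.K + l.b.K2)) := by
  have un : UB n l.b.n2 := ⟨H.nu0.le, I.n2⟩
  exact ub_w1.mul ((un.mul (UB.self _)).add (UB.self _))

theorem ub_N1 : UB (l.sh.A * (1 + (1 - m) * l.sh.s)
    + la * E * ((1 - m) * (l.sh.N + l.sh.b + (1 - m) * (l.sh.al * l.sh.U)))
    + (l.sh.Qp * l.sh.s + l.sh.Qn * l.sh.t + l.sh.K * (l.sh.U + l.sh.w0 ka n))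
    + l.sh.w1 * ((2 * (1 - m) + n) * l.sh.K + l.sh.K2)) l.N1 := by
  have un : UB n l.b.n2 := ⟨H.nu0.le, I.n2⟩
  have ut := ub_te H I
  unfold Lf.N1
  exact ((((UB.self _).mul (UB.one.add (ut.mul (UB.self _)))).add
    ((ub_g H I).mul (ut.mul (((UB.self _).add ub_bb).add (ut.mul ub_aU))))).add
    (ub_q1 H I)).add (ub_w1.mul ((((ut.two).add un).mul (UB.self _)).add (UB.self _)))

theorem ub_Yh : UB (1 + 3 / 2 * (m - n)) l.b.Yh := by
  have um : UB m l.b.m2 := ⟨H.m0.le, I.m2⟩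
  have hn := H.nu0
  have h1 := H.hmu
  have h2 := H.ka0
  have h3 := H.xide
  have h4 := H.nuxi
  have := (((UB.one.add um).add um.half).sub I.n1 (by linarith [H.mu2]))
  refine this.mono (by linarith) (by linarith)

theorem ub_dm3 : UB (3 / 2 * (m - n)) l.b.dm3 := by
  have um : UB m l.b.m2 := ⟨H.m0.le, I.m2⟩
  have hn := H.nu0
  have h1 := H.hmu
  have h2 := H.ka0
  have h3 := H.xide
  have h4 := H.nuxi
  have u1 := um.sub I.n1 (by linarith)
  have := u1.add u1.half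
  refine this.mono (by linarith) (by linarith)

theorem ub_N2 : UB (l.sh.A + la * E * (1 + 3 / 2 * (m - n)) * l.sh.U
    + (l.sh.Qp * l.sh.s + l.sh.Qn * l.sh.t + l.sh.K * (l.sh.U + l.sh.w0 ka n))
    + l.sh.w1 * (n * l.sh.K + l.sh.K2)) l.N2 := by
  unfold Lf.N2
  exact (((UB.self _).add (((ub_g H I).mul (ub_Yh H I)).mul (UB.self _))).add (ub_q1 H I)).add
    (ub_wk H I)

theorem ub_U1 : UB (la * E * ((1 - m) * (l.sh.U + l.sh.b + (1 - m) * l.sh.w1))
    + (l.sh.Qn * l.sh.s + l.sh.Qp * l.sh.t + l.sh.K * (l.sh.N + l.sh.W ka n))) l.U1 := by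
  have ut := ub_te H I
  unfold Lf.U1
  exact ((ub_g H I).mul (ut.mul (((UB.self _).add ub_bb).add (ut.mul ub_w1)))).add (ub_q2 H I)

theorem ub_U2 : UB (la * E * (1 + 3 / 2 * (m - n)) * l.sh.N
    + (l.sh.Qn * l.sh.s + l.sh.Qp * l.sh.t + l.sh.K * (l.sh.N + l.sh.W ka n))) l.U2 := by
  unfold Lf.U2
  exact (((ub_g H I).mul (ub_Yh H I)).mul (UB.self _)).add (ub_q2 H I)

theorem ub_B : UB (l.sh.B ka n) l.B := by
  have h := ((UB.self l.b.A).add (ub_q1 H I)).add (ub_wk H I)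
  unfold Lf.B
  have e : l.sh.B ka n = vv l.b.A + (l.sh.Qp * l.sh.s + l.sh.Qn * l.sh.t
    + l.sh.K * (l.sh.U + l.sh.w0 ka n)) + l.sh.w1 * (n * l.sh.K + l.sh.K2) := by
    unfold SH.B
    change vv l.b.A + _ + _ + _ + _ = _
    ring
  rw [e]
  exact h

theorem ub_C : UB (l.sh.C (la * E) (1 - m)) l.C := by
  have ut := ub_te H I
  unfold Lf.C SH.C
  exact (((UB.self _).mul (UB.self _)).add ((ub_g H I).mul
    (((UB.self _).add ub_bb).add (ut.mul ub_aU)))).add ((UB.self _).mul ub_w1).two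

theorem ub_nn : UB (1 - m + n - x) l.nn := by
  have ut := ub_te H I
  have un : UB n l.b.n2 := ⟨H.nu0.le, I.n2⟩
  unfold Lf.nn
  exact (ut.add un).sub I.x1 (by linarith [H.mu2, H.xle, H.nu0])

theorem ub_g1 : UB ((x + (1 - m) + n) * l.sh.s) l.g1 := by
  have ut := ub_te H I
  have un : UB n l.b.n2 := ⟨H.nu0.le, I.n2⟩
  have ux : UB x l.b.x2 := ⟨by linarith [H.nu0, H.nuxi], I.x2⟩
  unfold Lf.g1
  exact ((ux.add ut).add un).mul (UB.self _)

theorem lb_G0 (o9 : 0 < l.G0) : vv l.G0 ≤ 1 - (x + (1 - m) + n) * l.sh.s :=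
  LB_sub' vv_one.le (ub_g1 H I).2 o9

theorem ub_eta (hY4 : Y ≤ 4) (o3 : 0 < l.b.lam1) :
    UB (E * (1 + (1 - m + n - x) * l.sh.s) + l.sh.K * l.sh.t / la) l.eta := by
  unfold Lf.eta
  exact ((ub_E2 H I).mul (UB.one.add ((ub_nn H I).mul (UB.self _)))).add
    (((UB.self _).mul (UB.self _)).div (lam1_la H hY4 I) o3)

theorem ub_tn : UB (1 - m + n) (l.b.th2 + l.b.n2) :=
  (ub_te H I).add ⟨H.nu0.le, I.n2⟩

theorem ub_rr (hY4 : Y ≤ 4) (o3 : 0 < l.b.lam1) (o9 : 0 < l.G0) :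
    UB ((E * (1 + (1 - m + n - x) * l.sh.s) + l.sh.K * l.sh.t / la + (1 - m + n) * l.sh.s)
      / (1 - (x + (1 - m) + n) * l.sh.s)) l.rr := by
  unfold Lf.rr
  exact ((ub_eta H I hY4 o3).add ((ub_tn H I).mul (UB.self _))).div (lb_G0 H I o9) o9

theorem ub_Sx : UB (l.sh.Sx (la * E) (1 - m) n x ka) l.Sx := by
  have ut := ub_te H I
  have un : UB n l.b.n2 := ⟨H.nu0.le, I.n2⟩
  have ux : UB x l.b.x2 := ⟨by linarith [H.nu0, H.nuxi], I.x2⟩
  have hx1 : vv (l.b.x1 / 2) ≤ x / 2 := (vv_half_dn _).trans (by linarith [I.x1])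
  have h := ux.mul ((ub_B H I).add ((ub_C H I).mul
    ((ut.add un.half).sub hx1 (by linarith [H.mu2, H.xle, H.nu0]))))
  have e : l.sh.Sx (la * E) (1 - m) n x ka
      = x * (l.sh.B ka n + l.sh.C (la * E) (1 - m) * (1 - m + n / 2 - x / 2)) := by
    unfold SH.Sx
    ring
  rw [e]
  unfold Lf.Sx
  exact h

theorem ub_S1 : UB ((1 - m + n) * l.sh.B ka n
    + l.sh.C (la * E) (1 - m) * (1 - m - x) * (1 - m + n - x) / 2
    + la * E * l.sh.U * x * (x + n) / 2) l.S1 := by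
  have ut := ub_te H I
  have un : UB n l.b.n2 := ⟨H.nu0.le, I.n2⟩
  have ux : UB x l.b.x2 := ⟨by linarith [H.nu0, H.nuxi], I.x2⟩
  unfold Lf.S1
  exact (((ub_tn H I).mul (ub_B H I)).add
    ((((ub_C H I).mul (ut.sub I.x1 (by linarith [H.mu2, H.xle]))).mul (ub_nn H I)).half)).add
    (((((ub_g H I).mul (UB.self _)).mul ux).mul (ux.add un)).half)

omit H I in
theorem S_split : l.sh.S (la * E) (1 - m) n x ka = l.sh.Sx (la * E) (1 - m) n x ka
    + ((1 - m + n) * l.sh.B ka n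
      + l.sh.C (la * E) (1 - m) * (1 - m - x) * (1 - m + n - x) / 2
      + la * E * l.sh.U * x * (x + n) / 2) := by
  unfold SH.S
  ring

theorem ub_S : UB (l.sh.S (la * E) (1 - m) n x ka) (l.Sx + l.S1) := by
  rw [S_split]
  exact (ub_Sx H I).add (ub_S1 H I)

theorem ub_ak : UB (la * E + l.sh.K * l.sh.t) l.ak := by
  unfold Lf.ak
  exact (ub_g H I).add ((UB.self _).mul (UB.self _))

theorem ub_RR (o9 : 0 < l.G0) : UB (l.sh.B ka n + la * E * (3 / 2 * (m - n)) * l.sh.U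
      + (la * E + l.sh.K * l.sh.t)
        * (l.sh.S (la * E) (1 - m) n x ka / (1 - (x + (1 - m) + n) * l.sh.s))
      + (1 - m + n) * l.sh.s + 3 / 2 * (m - n) * (la * E + l.sh.K * l.sh.t)) l.RR := by
  unfold Lf.RR
  exact (((((ub_B H I).add (((ub_g H I).mul (ub_dm3 H I)).mul (UB.self _))).add
    ((ub_ak H I).mul ((ub_S H I).div (lb_G0 H I o9) o9))).add
    ((ub_tn H I).mul (UB.self _)))).add ((ub_dm3 H I).mul (ub_ak H I))

theorem ub_neg (hY4 : Y ≤ 4) (o3 : 0 < l.b.lam1)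
    (o9 : 0 < l.G0) :
    UB ((E * (1 + (1 - m + n - x) * l.sh.s) + l.sh.K * l.sh.t / la) * (m - n)
      + (1 + (E * (1 + (1 - m + n - x) * l.sh.s) + l.sh.K * l.sh.t / la + (1 - m + n) * l.sh.s)
        / (1 - (x + (1 - m) + n) * l.sh.s))
        * ((1 - m + n) * l.sh.B ka n
          + l.sh.C (la * E) (1 - m) * (1 - m - x) * (1 - m + n - x) / 2
          + la * E * l.sh.U * x * (x + n) / 2)
      + (E * (1 + (1 - m + n - x) * l.sh.s) + l.sh.K * l.sh.t / la + (1 - m + n) * l.sh.s)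
        / (1 - (x + (1 - m) + n) * l.sh.s) * l.sh.Sx (la * E) (1 - m) n x ka
      + E * (1 - m + n - x) * (l.sh.N + l.sh.b + (1 - m + n - x) * (l.sh.al * l.sh.U))
      + l.sh.R * l.sh.s
      + (l.sh.K * (l.sh.U + l.sh.w0 ka n)
        + l.sh.w1 * ((2 * (1 - m + n - x) + n) * l.sh.K + l.sh.K2)) / la) l.neg := by
  have um : UB m l.b.m2 := ⟨H.m0.le, I.m2⟩
  have un : UB n l.b.n2 := ⟨H.nu0.le, I.n2⟩
  have hmn : 0 ≤ m - n := by
    have h1 := H.hmu; have h2 := H.ka0; have h3 := H.xide; have h4 := H.nuxi; have := H.nu0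
    linarith
  unfold Lf.neg
  exact ((((((ub_eta H I hY4 o3).mul (um.sub I.n1 hmn)).add
    ((UB.one.add (ub_rr H I hY4 o3 o9)).mul (ub_S1 H I))).add
    ((ub_rr H I hY4 o3 o9).mul (ub_Sx H I))).add
    (((ub_E2 H I).mul (ub_nn H I)).mul (((UB.self _).add ub_bb).add
      ((ub_nn H I).mul ub_aU)))).add ((UB.self _).mul (UB.self _))).add
    ((((UB.self _).mul ((UB.self _).add (ub_w0 H I))).add
      (ub_w1.mul (((((ub_nn H I).two).add un).mul (UB.self _)).add (UB.self _)))).div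
      (lam1_la H hY4 I) o3)

theorem lb_pos : vv l.pos ≤ (1 - x * l.sh.s) * (1 - m + n) ∨ 1 - x * l.sh.s < 0 := by
  rcases le_or_gt 0 (1 - x * l.sh.s) with h | h
  · left
    have ux : UB x l.b.x2 := ⟨by linarith [H.nu0, H.nuxi], I.x2⟩
    have h1 := LB_sub vv_one.le (ux.mul (UB.self l.b.sig)).2 h
    have h2 : vv (l.b.th1 + l.b.n1) ≤ 1 - m + n := by
      rw [vv_add]; linarith [lb_te H I, I.n1]
    exact LB_mul h1 h2
  · right; exact h

/-- an accepted leaf gives all scaled inequalities -/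
theorem leaf_ok (hY4 : Y ≤ 4) (ok : l.ok = true) : SOK la E m n x ka (1 - m) l.sh := by
  simp only [Lf.ok, Bool.and_eq_true, Nat.blt_eq, Nat.ble_eq] at ok
  obtain ⟨⟨⟨⟨⟨⟨⟨⟨⟨⟨⟨o1, o2⟩, o3⟩, o4⟩, o5⟩, o6⟩, o7⟩, o8⟩, o9⟩, o10⟩, o11⟩, o12⟩ := ok
  have ug := ub_g H I
  have ut := ub_te H I
  have hden : vv l.b.den ≤ 1 - ((1 - m) * (la * E) + vv l.b.th * vv l.b.K) :=
    LB_sub' vv_one.le ((ut.mul ug).add ((UB.self l.b.th).mul (UB.self l.b.K))).2 o4
  have hden0 : 0 < vv l.b.den := vv_pos o4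
  have hG := lb_G0 H I o9
  have hG0 : 0 < vv l.G0 := vv_pos o9
  have hla := H.la0
  refine
    { s0 := vv_nonneg _
      U0 := vv_pos (by omega)
      N0 := vv_pos (by omega)
      th0 := vv_nonneg _
      al0 := vv_nonneg _
      hth := ?_
      hs0 := ?_
      hs := ?_
      ht := vv_mu _ _
      hN1 := ?_
      hN2 := ?_
      hU1 := ?_
      hU2 := ?_
      hG0 := by linarith
      hG := ?_
      hRed := ?_
      hF := ?_ }
  · change la * E + vv l.b.K + 2 * vv l.b.al + vv l.b.MP - 1 ≤ vv l.b.th * (1 - vv l.b.K)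
    have h1 := vv_du (l.b.ye + l.b.K + 2 * l.b.al + l.b.MP - 1000000)
      (b := 1000000 - l.b.K) (by omega)
    have h2 := vv_sub_ge (l.b.ye + l.b.K + 2 * l.b.al + l.b.MP) 1000000
    rw [vv_add, vv_add, vv_add, vv_two_mul, vv_one] at h2
    have h3 : vv (1000000 - l.b.K) = 1 - vv l.b.K := by rw [vv_sub_eq o2.le, vv_one]
    rw [h3] at h1
    have h4 := ug.2
    unfold Bx.th
    linarith
  · change 0 < 1 - (1 - m) * (la * E) - vv l.b.th * vv l.b.K
    linarith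
  · change la * E ≤ vv l.b.sig * (1 - (1 - m) * (la * E) - vv l.b.th * vv l.b.K)
    have h1 := vv_du l.b.ye o4
    have h2 : vv (du l.b.ye l.b.den) * vv l.b.den
        ≤ vv (du l.b.ye l.b.den) * (1 - ((1 - m) * (la * E) + vv l.b.th * vv l.b.K)) :=
      mul_le_mul_of_nonneg_left hden (vv_nonneg _)
    have h3 := ug.2
    unfold Bx.sig
    linarith
  · have h1 := (ub_N1 H I).2
    have h2 := vv_lt o5
    refine lt_of_le_of_lt (le_of_eq ?_) (lt_of_le_of_lt h1 h2)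
    ring
  · have h1 := (ub_N2 H I).2
    have h2 := vv_lt o6
    refine lt_of_le_of_lt (le_of_eq ?_) (lt_of_le_of_lt h1 h2)
    ring
  · have h1 := (ub_U1 H I).2
    have h2 := vv_lt o7
    refine lt_of_le_of_lt (le_of_eq ?_) (lt_of_le_of_lt h1 h2)
    ring
  · have h1 := (ub_U2 H I).2
    have h2 := vv_lt o8
    refine lt_of_le_of_lt (le_of_eq ?_) (lt_of_le_of_lt h1 h2)
    ring
  · have h1 := (ub_S H I).2
    have h2 := vv_le o10
    have h3 : vv (l.b.th1 + l.b.n1) ≤ 1 - m + n := by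
      rw [vv_add]; linarith [lb_te H I, I.n1]
    have h4 := LB_mul h3 hG
    linarith
  · have h1 := (ub_RR H I o9).2
    have h2 := vv_le o11
    rw [vv_one] at h2
    linarith
  · have h1 := (ub_neg H I hY4 o3 o9).2
    have h2 := vv_lt o12
    have hp : 0 < vv l.pos := lt_of_le_of_lt (vv_nonneg _) h2
    have h3 : vv l.pos ≤ (1 - x * l.sh.s) * (1 - m + n) := by
      rcases lb_pos H I with h | h
      · exact h
      · exfalso
        have a1 : 0 < 1 - (x + (1 - m) + n) * l.sh.s := by linarith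
        have a2 : 0 ≤ (1 - m + n) * l.sh.s :=
          mul_nonneg (by linarith [H.mu2, H.nu0]) (vv_nonneg _)
        nlinarith
    have hG1 : 0 < 1 - (x + (1 - m) + n) * l.sh.s := by linarith
    have key := lt_of_le_of_lt h1 (lt_of_lt_of_le h2 h3)
    rw [S_split]
    generalize l.sh.Sx (la * E) (1 - m) n x ka = sx at key ⊢
    generalize ((1 - m + n) * l.sh.B ka n
      + l.sh.C (la * E) (1 - m) * (1 - m - x) * (1 - m + n - x) / 2
      + la * E * l.sh.U * x * (x + n) / 2) = s1 at key ⊢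
    generalize (l.sh.K * (l.sh.U + l.sh.w0 ka n)
        + l.sh.w1 * ((2 * (1 - m + n - x) + n) * l.sh.K + l.sh.K2)) / la = r1 at key ⊢
    generalize l.sh.K * l.sh.t / la = r2 at key ⊢
    have hne : (1 - (x + (1 - m) + n) * l.sh.s) ≠ 0 := hG1.ne'
    have e := fin_id (d := m - n) (e := E * (1 + (1 - m + n - x) * l.sh.s) + r2) (sx := sx)
      (s1 := s1) hne rfl
    rw [e]
    linarith

/-- an accepted leaf gives bounds of all true quantities -/
theorem leaf_hat (hY4 : Y ≤ 4) (ok : l.ok = true) :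
    A ≤ l.sh.A ∧ Aa ≤ l.sh.Aa ∧ al ≤ l.sh.al ∧ MP ≤ l.sh.MP ∧ M1 ≤ l.sh.M1 ∧ P ≤ l.sh.P
      ∧ K ≤ l.sh.K ∧ K2 ≤ l.sh.K2 ∧ Qp ≤ l.sh.Qp ∧ Qn ≤ l.sh.Qn ∧ R ≤ l.sh.R := by
  simp only [Lf.ok, Bool.and_eq_true, Nat.blt_eq, Nat.ble_eq] at ok
  have o1 : mu l.b.Y2 l.b.m2 ≤ 2000000 := ok.1.1.1.1.1.1.1.1.1.1.1
  exact ⟨le_A H I, le_Aa H I, (ub_al H I).2, (ub_MP H I o1).2, (ub_M1 H I o1).2,
    le_P H hY4 I, (ub_K H I o1).2, le_K2 H I o1, le_Qp H I o1, le_Qn H I o1, le_R H I o1⟩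

end leaf

end Coin.WN
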