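import Pool.Agent.Lib.Coin.WinHiDef

/-!
# Coin race, one-tail window, `c q ≥ p`: facts about a point, part B

The fields `la2`, `la3`, `A1`, `A2`, `Aa1`, `Aa2`, `Aa3`, `P1` of `Coin.WN.HPt`.
-/

namespace Coin.WN

open Finset

theorem psi_eq1 (p : ℝ) (n : ℕ) : Coin.psi p n = p ^ n * (1 - (n + 1) * (1 - p)) := by
  unfold Coin.psi
  ring

theorem pow_exp_neg {p : ℝ} (h0 : 0 < p) (n : ℕ) : p ^ n = Real.exp (-(n * (-Real.log p))) := by
  have e : -((n : ℝ) * (-Real.log p)) = n * Real.log p := by ring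
  rw [e, Real.exp_nat_mul, Real.exp_log h0]

theorem neg_log_pos {p : ℝ} (h0 : 0 < p) (h1 : p < 1) : 0 < -Real.log p := by
  have := Real.log_neg h0 h1
  linarith

/-- `1 - e^(-y) ≤ y - y²/2 + y³/6` -/
theorem q_le_cubic {p : ℝ} (h0 : 0 < p) (h1 : p < 1) (hy : -Real.log p ≤ 1) :
    1 - p ≤ (-Real.log p) - (-Real.log p) ^ 2 / 2 + (-Real.log p) ^ 3 / 6 := by
  have hy0 := neg_log_pos h0 h1
  have e0 : Real.exp (Real.log p) = p := Real.exp_log h0
  generalize hL : Real.log p = L at *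
  have hb := Real.exp_bound (x := L) (by rw [abs_of_neg (by linarith)]; exact hy) (n := 5)
    (by norm_num)
  rw [abs_le] at hb
  have h5 := hb.1
  simp only [Finset.sum_range_succ, Finset.sum_range_zero] at h5
  have ha : |L| ^ 5 = (-L) ^ 5 := by rw [abs_of_neg (by linarith)]
  rw [ha, e0] at h5
  norm_num [Nat.factorial] at h5
  have h4 : 0 ≤ (-L) ^ 4 * (1 / 24 - (-L) / 100) := by
    apply mul_nonneg (by positivity); linarith
  nlinarith [h5, h4]

theorem lem_lo {p : ℝ} (h0 : 0 < p) (h1 : p < 1) {n : ℕ} (hn : 6 ≤ n)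
    (h2 : (n : ℝ) * (-Real.log p) ≤ 2) :
    ((n : ℝ) + 1) * (1 - p) ≤ n * (-Real.log p)
      + (-Real.log p) * (1 - n * (-Real.log p) / 2) := by
  have hy0 := neg_log_pos h0 h1
  have hn' : (6 : ℝ) ≤ n := by exact_mod_cast hn
  have hy1 : -Real.log p ≤ 1 / 3 := by nlinarith
  have hq := q_le_cubic h0 h1 (by linarith)
  generalize -Real.log p = y at *
  have e1 := mul_le_mul_of_nonneg_left hq (by positivity : (0 : ℝ) ≤ (n : ℝ) + 1)
  have e2 : 0 ≤ y ^ 2 * (3 - ((n : ℝ) * y + y)) := by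
    apply mul_nonneg (by positivity); linarith
  nlinarith [e1, e2]

theorem lem_hi {p : ℝ} (h0 : 0 < p) (h1 : p < 1) {n : ℕ}
    (h2 : 2 ≤ (n : ℝ) * (-Real.log p)) :
    ((n : ℝ) + 1) * (1 - p) ≤ n * (-Real.log p) := by
  have hy0 := neg_log_pos h0 h1
  have hq : 0 < 1 - p := by linarith
  have hx : (0 : ℝ) ≤ (1 - p) / p := by positivity
  have hl := Real.le_log_one_add_of_nonneg hx
  have e1 : 1 + (1 - p) / p = p⁻¹ := by field_simp; ring
  rw [e1, Real.log_inv] at hl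
  have e2 : 2 * ((1 - p) / p) / ((1 - p) / p + 2) = 2 * (1 - p) / (1 + p) := by
    field_simp
    ring
  rw [e2, div_le_iff₀ (by linarith)] at hl
  generalize -Real.log p = y at *
  -- `2 q ≤ y (1 + p)`, `n y ≥ 2`
  have e3 : 0 ≤ y - (1 - p) := by nlinarith
  have e4 : y * (1 - p) ≤ 2 * (y - (1 - p)) := by nlinarith
  have e5 : 2 * (y - (1 - p)) ≤ (n * y) * (y - (1 - p)) := mul_le_mul_of_nonneg_right h2 e3
  have e6 : y * (1 - p) ≤ y * (n * (y - (1 - p))) := by nlinarith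
  have e7 := le_of_mul_le_mul_left e6 hy0
  linarith

theorem lem_e2 {p : ℝ} (h0 : 0 < p) (h1 : p < 1) {n : ℕ} (hn : 3 ≤ n) :
    -Coin.psi p n ≤ Real.exp (-2) := by
  have hn' : (3 : ℝ) ≤ n := by exact_mod_cast hn
  have hn0 : (0 : ℝ) < n := by linarith
  set r : ℝ := n / (n + 1) with hr
  have hr0 : 0 < r := by positivity
  have hr1 : r ≤ 1 := by rw [hr, div_le_one (by linarith)]; linarith
  set s : ℝ := 1 - p / r ^ 2 with hs
  have hp : p = r ^ 2 * (1 - s) := by rw [hs]; field_simp; ring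
  have hs1 : 0 < 1 - s := by rw [hs]; have : 0 < p / r ^ 2 := by positivity
                             linarith
  have hs2 : -1 ≤ s := by
    rw [hs]
    have : p / r ^ 2 ≤ 2 := by
      rw [div_le_iff₀ (by positivity)]
      have h3 : 3 / 4 ≤ r := by rw [hr, le_div_iff₀ (by linarith)]; linarith
      nlinarith
    linarith
  have e1 : -Coin.psi p n = r ^ (2 * n + 1) * ((1 - s) ^ n * (1 + n * s)) := by
    have e3 : -Coin.psi p n = p ^ n * (n - (n + 1) * p) := by unfold Coin.psi; ring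
    have e4 : (n : ℝ) - (n + 1) * p = r * (1 + n * s) := by
      rw [hs, hr]; field_simp; ring
    rw [e3, e4]
    conv_lhs => rw [hp]
    rw [mul_pow, ← pow_mul, pow_succ]
    ring
  have e2 : (1 - s) ^ n * (1 + n * s) ≤ 1 := by
    have hb := one_add_mul_le_pow (a := s) (by linarith) n
    calc (1 - s) ^ n * (1 + n * s) ≤ (1 - s) ^ n * (1 + s) ^ n :=
          mul_le_mul_of_nonneg_left hb (by positivity)
      _ = (1 - s ^ 2) ^ n := by rw [← mul_pow]; ring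
      _ ≤ 1 := by
          apply pow_le_one₀
          · nlinarith
          · nlinarith [sq_nonneg s]
  have e5 : r ^ (2 * n + 1) ≤ Real.exp (-2) := by
    have hl := Real.le_log_one_add_of_nonneg (x := 1 / (n : ℝ)) (by positivity)
    have e6 : 2 * (1 / (n : ℝ)) / (1 / (n : ℝ) + 2) = 2 / (2 * n + 1) := by
      field_simp
      ring
    have e7 : 1 + 1 / (n : ℝ) = r⁻¹ := by rw [hr]; field_simp
    rw [e6, e7, Real.log_inv, div_le_iff₀ (by positivity)] at hl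
    rw [← Real.exp_log (pow_pos hr0 (2 * n + 1)), Real.log_pow, Real.exp_le_exp]
    push_cast
    nlinarith
  rw [e1]
  calc r ^ (2 * n + 1) * ((1 - s) ^ n * (1 + n * s)) ≤ r ^ (2 * n + 1) * 1 :=
        mul_le_mul_of_nonneg_left e2 (by positivity)
    _ ≤ Real.exp (-2) := by rw [mul_one]; exact e5

section

variable {p : ℝ} {a m c m' x : ℕ}

theorem c_ge_six (hmc : 2 * m' ≤ c) (hd : 2 * (a - c) < m' - m) (hx : 1 ≤ x)
    (hxa : x ≤ a - c) : 6 ≤ c := by omega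

theorem pt_la2 (h0 : 0 < p) (h1 : p < 1) (hc : 6 ≤ c)
    (hY : (c : ℝ) * (-Real.log p) ≤ 2) :
    (c : ℝ) * (1 - p) * (1 + 1 / (c : ℝ)) ≤ (c : ℝ) * (-Real.log p)
      + (c : ℝ) * (-Real.log p) * (1 - (c : ℝ) * (-Real.log p) / 2) * (1 / (c : ℝ)) := by
  have hc0 : (0 : ℝ) < c := by
    have : 0 < c := by omega
    exact_mod_cast this
  have h := lem_lo h0 h1 hc hY
  have e1 : (c : ℝ) * (1 - p) * (1 + 1 / (c : ℝ)) = ((c : ℝ) + 1) * (1 - p) := by
    field_simp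
  have e2 : (c : ℝ) * (-Real.log p) * (1 - (c : ℝ) * (-Real.log p) / 2) * (1 / (c : ℝ))
      = (-Real.log p) * (1 - c * (-Real.log p) / 2) := by
    field_simp
  rw [e1, e2]
  exact h

theorem pt_la3 (h0 : 0 < p) (h1 : p < 1) (hc : 6 ≤ c)
    (hY : 2 ≤ (c : ℝ) * (-Real.log p)) :
    (c : ℝ) * (1 - p) * (1 + 1 / (c : ℝ)) ≤ (c : ℝ) * (-Real.log p) := by
  have hc0 : (0 : ℝ) < c := by
    have : 0 < c := by omega
    exact_mod_cast this
  have e1 : (c : ℝ) * (1 - p) * (1 + 1 / (c : ℝ)) = ((c : ℝ) + 1) * (1 - p) := by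
    field_simp
  rw [e1]
  exact lem_hi h0 h1 hY

theorem pt_A1 (hc : 6 ≤ c) :
    -Coin.psi p c = p ^ c * ((c : ℝ) * (1 - p) * (1 + 1 / (c : ℝ)) - 1) := by
  have hc0 : (0 : ℝ) < c := by
    have : 0 < c := by omega
    exact_mod_cast this
  have e1 : (c : ℝ) * (1 - p) * (1 + 1 / (c : ℝ)) = ((c : ℝ) + 1) * (1 - p) := by
    field_simp
  rw [e1, psi_eq1]
  ring

theorem pt_A2 (h0 : 0 < p) (h1 : p < 1) (hc : 6 ≤ c) :
    -Coin.psi p c ≤ Real.exp (-2) := lem_e2 h0 h1 (by omega)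

theorem Y_a (hca : c < a) (hc : 6 ≤ c) :
    (c : ℝ) * (-Real.log p) * (1 + ((a - c : ℕ) : ℝ) / c) = a * (-Real.log p) := by
  have hc0 : (0 : ℝ) < c := by
    have : 0 < c := by omega
    exact_mod_cast this
  rw [Nat.cast_sub hca.le]
  field_simp
  ring

theorem pt_Aa1 (h0 : 0 < p) (h1 : p < 1) (hca : c < a) (hc : 6 ≤ c)
    (hY : (c : ℝ) * (-Real.log p) * (1 + ((a - c : ℕ) : ℝ) / c) ≤ 2) :
    -Coin.psi p a ≤ Real.exp (-((c : ℝ) * (-Real.log p) * (1 + ((a - c : ℕ) : ℝ) / c)))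
      * ((c : ℝ) * (-Real.log p) * (1 + ((a - c : ℕ) : ℝ) / c) - 1
        + (c : ℝ) * (-Real.log p) * (1 / (c : ℝ))
          * (1 - (c : ℝ) * (-Real.log p) * (1 + ((a - c : ℕ) : ℝ) / c) / 2)) := by
  have hc0 : (0 : ℝ) < c := by
    have : 0 < c := by omega
    exact_mod_cast this
  rw [Y_a hca hc] at hY ⊢
  have e2 : (c : ℝ) * (-Real.log p) * (1 / (c : ℝ)) = -Real.log p := by field_simp
  rw [e2, ← pow_exp_neg h0, psi_eq1]
  have h := lem_lo h0 h1 (n := a) (by omega) hY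
  have hpa : 0 < p ^ a := pow_pos h0 a
  have h3 := mul_le_mul_of_nonneg_left h hpa.le
  nlinarith [h3]

theorem pt_Aa2 (h0 : 0 < p) (h1 : p < 1) (hca : c < a) (hc : 6 ≤ c) :
    -Coin.psi p a ≤ Real.exp (-2) := lem_e2 h0 h1 (by omega)

theorem pt_Aa3 (h0 : 0 < p) (h1 : p < 1) (hca : c < a) (hc : 6 ≤ c)
    (hY : 2 ≤ (c : ℝ) * (-Real.log p) * (1 + ((a - c : ℕ) : ℝ) / c)) :
    -Coin.psi p a ≤ Real.exp (-((c : ℝ) * (-Real.log p) * (1 + ((a - c : ℕ) : ℝ) / c)))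
      * ((c : ℝ) * (-Real.log p) * (1 + ((a - c : ℕ) : ℝ) / c) - 1) := by
  rw [Y_a hca hc] at hY ⊢
  rw [← pow_exp_neg h0, psi_eq1]
  have h := lem_hi h0 h1 hY
  have hpa : 0 < p ^ a := pow_pos h0 a
  have h3 := mul_le_mul_of_nonneg_left h hpa.le
  nlinarith [h3]

theorem pt_P1 (h0 : 0 < p) (h1 : p < 1) (hca : c < a) (hmc : 2 * m' ≤ c)
    (hd : 2 * (a - c) < m' - m) (hc : 6 ≤ c) :
    (∑ j ∈ Finset.Icc 1 m, |Coin.psi p (a - j)|) / c ≤
      (m : ℝ) / c * max (Real.exp (-((c : ℝ) * (-Real.log p)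
          * (1 + ((a - c : ℕ) : ℝ) / c - (m : ℝ) / c)))
        * (1 - (c : ℝ) * (1 - p) * (1 + ((a - c : ℕ) : ℝ) / c - (m : ℝ) / c + 1 / (c : ℝ))))
        (Real.exp (-2)) := by
  have hc0 : (0 : ℝ) < c := by
    have : 0 < c := by omega
    exact_mod_cast this
  have hma : m ≤ a := by omega
  have e1 : (c : ℝ) * (-Real.log p) * (1 + ((a - c : ℕ) : ℝ) / c - (m : ℝ) / c)
      = ((a - m : ℕ) : ℝ) * (-Real.log p) := by
    rw [Nat.cast_sub hca.le, Nat.cast_sub hma]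
    field_simp
    ring
  have e2 : (c : ℝ) * (1 - p) * (1 + ((a - c : ℕ) : ℝ) / c - (m : ℝ) / c + 1 / (c : ℝ))
      = (((a - m : ℕ) : ℝ) + 1) * (1 - p) := by
    rw [Nat.cast_sub hca.le, Nat.cast_sub hma]
    field_simp
    ring
  rw [e1, e2, ← pow_exp_neg h0, div_mul_eq_mul_div]
  apply div_le_div_of_nonneg_right _ hc0.le
  have hterm : ∀ j ∈ Finset.Icc 1 m, |Coin.psi p (a - j)| ≤
      max (p ^ (a - m) * (1 - (((a - m : ℕ) : ℝ) + 1) * (1 - p))) (Real.exp (-2)) := by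
    intro j hj
    rw [Finset.mem_Icc] at hj
    rcases le_total 0 (Coin.psi p (a - j)) with hs | hs
    · rw [abs_of_nonneg hs]
      apply le_max_of_le_left
      have hq : 0 < 1 - p := by linarith
      rw [psi_eq1] at hs ⊢
      have hn : a - m ≤ a - j := by omega
      have hn' : ((a - m : ℕ) : ℝ) ≤ ((a - j : ℕ) : ℝ) := by exact_mod_cast hn
      have hf : 0 ≤ 1 - (((a - j : ℕ) : ℝ) + 1) * (1 - p) :=
        nonneg_of_mul_nonneg_right hs (pow_pos h0 _)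
      have hp1 : p ^ (a - j) ≤ p ^ (a - m) := pow_le_pow_of_le_one h0.le h1.le hn
      have hp2 : 1 - (((a - j : ℕ) : ℝ) + 1) * (1 - p)
          ≤ 1 - (((a - m : ℕ) : ℝ) + 1) * (1 - p) := by nlinarith
      exact mul_le_mul hp1 hp2 hf (pow_pos h0 _).le
    · rw [abs_of_nonpos hs]
      apply le_max_of_le_right
      exact lem_e2 h0 h1 (by omega)
  calc ∑ j ∈ Finset.Icc 1 m, |Coin.psi p (a - j)|
      ≤ ∑ j ∈ Finset.Icc 1 m,
        max (p ^ (a - m) * (1 - (((a - m : ℕ) : ℝ) + 1) * (1 - p))) (Real.exp (-2)) :=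
        Finset.sum_le_sum hterm
    _ = _ := by
        rw [Finset.sum_const, Nat.card_Icc, nsmul_eq_mul]
        simp

end

end Coin.WN
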