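import Pool.Agent.Lib.Coin.WinBd2

/-!
# Coin race, one-tail window: the chain lemma for `c q ≤ p`

From the closed system to one numeric inequality (suprema of `±e` over two ranges).
-/

namespace Coin

open Finset

/-- `Z = Σ_(i<m') (ψ(z+i) - ψ(c))` -/
noncomputable def Zc (p : ℝ) (c m' : ℕ) : ℝ := ∑ i ∈ range m', (psi p (c - m' + i) - psi p c)

/-- `J = m p^(a-m) - MP (c - (a-c)) ≥ Σ_(1≤j≤m) |ψ(a-j)|` -/
noncomputable def Jc (p : ℝ) (a m c : ℕ) : ℝ :=
  m * p ^ (a - m) - MP p a m * ((c : ℝ) - ((a : ℝ) - c))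

theorem psi_nonneg {p : ℝ} (h0 : 0 < p) {c : ℕ} (hl : c * (1 - p) ≤ p) : 0 ≤ psi p c := by
  unfold psi
  exact mul_nonneg (pow_pos h0 _).le (by linarith)

theorem psi_a_le {p : ℝ} (h0 : 0 < p) (h1 : p < 1) {a c : ℕ} (hca : c < a)
    (hl : c * (1 - p) ≤ p) : psi p a ≤ psi p c := by
  have hq : 0 < 1 - p := by linarith
  have hac : (c : ℝ) ≤ a := by exact_mod_cast hca.le
  have e1 : p ^ a ≤ p ^ c := pow_le_pow_of_le_one h0.le h1.le hca.le
  have ea : 0 < p ^ a := pow_pos h0 _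
  have ec : 0 < p ^ c := pow_pos h0 _
  unfold psi
  rcases le_or_gt 0 (p - a * (1 - p)) with h | h
  · calc p ^ a * (p - a * (1 - p)) ≤ p ^ c * (p - a * (1 - p)) := mul_le_mul_of_nonneg_right e1 h
      _ ≤ p ^ c * (p - c * (1 - p)) := mul_le_mul_of_nonneg_left (by nlinarith) ec.le
  · have : 0 ≤ p ^ c * (p - c * (1 - p)) := mul_nonneg ec.le (by linarith)
    have : p ^ a * (p - a * (1 - p)) ≤ 0 := mul_nonpos_of_nonneg_of_nonpos ea.le h.le
    linarith

theorem psi_a_ge {p : ℝ} (h0 : 0 < p) (h1 : p < 1) {a c : ℕ} (hca : c < a)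
    (hl : c * (1 - p) ≤ p) : -(((a : ℝ) - c) * ((1 - p) * p ^ c)) ≤ psi p a := by
  have hq : 0 < 1 - p := by linarith
  have hac : (c : ℝ) ≤ a := by exact_mod_cast hca.le
  have e1 : p ^ a ≤ p ^ c := pow_le_pow_of_le_one h0.le h1.le hca.le
  have ea : 0 < p ^ a := pow_pos h0 _
  unfold psi
  have e2 : -(((a : ℝ) - c) * (1 - p)) ≤ p - a * (1 - p) := by nlinarith
  calc -(((a : ℝ) - c) * ((1 - p) * p ^ c)) = -(((a : ℝ) - c) * (1 - p)) * p ^ c := by ring
    _ ≤ -(((a : ℝ) - c) * (1 - p)) * p ^ a := by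
        have : 0 ≤ ((a : ℝ) - c) * (1 - p) := mul_nonneg (by linarith) hq.le
        nlinarith
    _ ≤ (p - a * (1 - p)) * p ^ a := mul_le_mul_of_nonneg_right e2 ea.le
    _ = _ := by ring

theorem abs_psi_le {p : ℝ} (h0 : 0 < p) (h1 : p < 1) {a c j : ℕ} (hca : c < a) (hj : j ≤ a)
    (hl : c * (1 - p) ≤ p) :
    |psi p (a - j)| ≤ p ^ (a - j) * ((p - c * (1 - p)) + ((a : ℝ) - c) * (1 - p))
      + (1 - p) * (j * p ^ (a - j)) := by
  have hq : 0 < 1 - p := by linarith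
  have hac : (c : ℝ) ≤ a := by exact_mod_cast hca.le
  have ea : 0 < p ^ (a - j) := pow_pos h0 _
  unfold psi
  rw [abs_mul, abs_of_pos ea]
  have : |p - ((a - j : ℕ) : ℝ) * (1 - p)|
      ≤ ((p - c * (1 - p)) + ((a : ℝ) - c) * (1 - p)) + (1 - p) * j := by
    rw [Nat.cast_sub hj, abs_le]
    have hj0 : (0 : ℝ) ≤ j := by positivity
    constructor <;> nlinarith
  have := mul_le_mul_of_nonneg_left this ea.le
  linarith

/-- `Σ_(1≤j≤m) j p^(a-j) q^2 = m q p^(a-m) - p MP` -/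
theorem sum_j_pow {p : ℝ} {a m : ℕ} (hma : m ≤ a) :
    (1 - p) ^ 2 * ∑ j ∈ Icc 1 m, (j : ℝ) * p ^ (a - j)
      = (1 - p) * m * p ^ (a - m) - p * MP p a m := by
  have h := R1_aux p (a - m) m
  rw [Nat.sub_add_cancel hma] at h
  unfold MP
  rw [← h]
  congr 1
  refine sum_bij' (fun j _ => m - j) (fun i _ => m - i) ?_ ?_ ?_ ?_ ?_
  · intro j hj; rw [mem_Icc] at hj; rw [mem_range]; omega
  · intro i hi; rw [mem_range] at hi; rw [mem_Icc]; omega
  · intro j hj; rw [mem_Icc] at hj; omega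
  · intro i hi; rw [mem_range] at hi; omega
  · intro j hj
    rw [mem_Icc] at hj
    have e : a - m + (m - j) = a - j := by omega
    rw [e, Nat.cast_sub hj.2]
    ring

theorem sum_pow_Icc {p : ℝ} (h0 : 0 < p) {a m : ℕ} (hma : m ≤ a) :
    (1 - p) * ∑ j ∈ Icc 1 m, p ^ (a - j) = MP p a m := by
  rw [← sum_inv_eq h0 hma, mul_assoc, mul_sum, mul_sum (a := p ^ a)]
  rw [← mul_sum]
  congr 1
  refine sum_congr rfl (fun j hj => ?_)
  rw [mem_Icc] at hj
  rw [pow_shift h0 (by omega)]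

theorem sum_abs_psi {p : ℝ} (h0 : 0 < p) (h1 : p < 1) {a m c : ℕ} (hca : c < a) (hma : m ≤ a)
    (hl : c * (1 - p) ≤ p) : ∑ j ∈ Icc 1 m, |psi p (a - j)| ≤ Jc p a m c := by
  have hq : 0 < 1 - p := by linarith
  have e1 : ∑ j ∈ Icc 1 m, |psi p (a - j)|
      ≤ ∑ j ∈ Icc 1 m, (p ^ (a - j) * ((p - c * (1 - p)) + ((a : ℝ) - c) * (1 - p))
      + (1 - p) * (j * p ^ (a - j))) := by
    refine sum_le_sum (fun j hj => ?_)
    rw [mem_Icc] at hj
    exact abs_psi_le h0 h1 hca (by omega) hl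
  refine e1.trans (le_of_eq ?_)
  rw [sum_add_distrib, ← sum_mul, ← mul_sum]
  have e2 := sum_pow_Icc h0 hma (a := a) (m := m)
  have e3 := sum_j_pow (p := p) hma (a := a) (m := m)
  set S1 := ∑ j ∈ Icc 1 m, p ^ (a - j)
  set S2 := ∑ j ∈ Icc 1 m, (j : ℝ) * p ^ (a - j)
  have e4 : (1 - p) * S2 = m * p ^ (a - m) - p * S1 := by
    have : (1 - p) * ((1 - p) * S2) = (1 - p) * (m * p ^ (a - m) - p * S1) := by
      have : (1 - p) * ((1 - p) * S2) = (1 - p) ^ 2 * S2 := by ring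
      rw [this, e3, ← e2]; ring
    exact mul_left_cancel₀ hq.ne' this
  rw [e4]
  unfold Jc
  rw [← e2]
  ring

theorem Jc_nonneg {p : ℝ} (h0 : 0 < p) (h1 : p < 1) {a m c : ℕ} (hca : c < a) (hma : m ≤ a)
    (hl : c * (1 - p) ≤ p) : 0 ≤ Jc p a m c :=
  (sum_nonneg (fun _ _ => abs_nonneg _)).trans (sum_abs_psi h0 h1 hca hma hl)

theorem Zc_nonneg {p : ℝ} (h0 : 0 < p) (h1 : p < 1) {c m' : ℕ} (hmc : m' ≤ c)
    (hl : c * (1 - p) ≤ p) : 0 ≤ Zc p c m' := by
  unfold Zc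
  refine sum_nonneg (fun i hi => ?_)
  rw [mem_range] at hi
  have e : c - m' + i = c - (m' - i) := by omega
  rw [e]
  exact psi_diff_nonneg h0 h1 (by omega) (by linarith)

/-- the data of the chain -/
structure Dat (p : ℝ) (a m c m' : ℕ) (g f : ℤ → ℝ) (s th M P P1 Mn Pn : ℝ) : Prop where
  sys : WSys p a m c m' g f
  h0 : 0 < p
  h1 : p < 1
  hca : c < a
  hw : a - c < m' - m
  h2 : 2 * m' ≤ c
  hl : c * (1 - p) ≤ p
  th0 : 0 ≤ th
  s0 : 0 ≤ s
  hs : ∀ x : ℤ, 1 ≤ x → x ≤ a + c → dd g x ≤ s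
  hdn : ∀ n : ℕ, n < c → -(th * s) ≤ dd g (-(n : ℤ))
  M0 : 0 ≤ M
  P0 : 0 ≤ P
  P10 : 0 ≤ P1
  hM : ∀ x : ℤ, 1 ≤ x → x ≤ a + c → dd f x ≤ M
  hP : ∀ x : ℤ, 1 ≤ x → x ≤ a + c → -P ≤ dd f x
  hP1 : ∀ x : ℤ, 1 ≤ x → x ≤ (c - m' : ℕ) + 1 → -P1 ≤ dd f x
  hMn : ∀ x : ℤ, 1 - (c : ℤ) ≤ x → x ≤ a + c → dd f x ≤ Mn
  hPn : ∀ x : ℤ, 1 - (c : ℤ) ≤ x → x ≤ a + c → -Pn ≤ dd f x

/-- `α⁺` -/
noncomputable def alp (p : ℝ) (c : ℕ) (s M : ℝ) : ℝ := psi p c * s + (1 - p) * p ^ c * M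

/-- `α⁻` -/
noncomputable def alm (p : ℝ) (a c : ℕ) (s P : ℝ) : ℝ :=
  ((a : ℝ) - c) * ((1 - p) * p ^ c) * s + (1 - p) * p ^ c * P

/-- `β` -/
noncomputable def bet (p : ℝ) (a m c : ℕ) (s M P : ℝ) : ℝ := Jc p a m c * s + MP p a m * (M + P)

namespace Dat

variable {p : ℝ} {a m c m' : ℕ} {g f : ℤ → ℝ} {s th M P P1 Mn Pn : ℝ}

theorem ddg_le (D : Dat p a m c m' g f s th M P P1 Mn Pn) {x : ℤ} (h1 : 1 - (c : ℤ) ≤ x)
    (h2 : x ≤ a + c) : dd g x ≤ s := D.sys.dd_le D.h0 D.h1 D.hs h1 h2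

theorem ddg_ge (D : Dat p a m c m' g f s th M P P1 Mn Pn) {x : ℤ} (h1 : 1 - (c : ℤ) ≤ x) :
    -(th * s) ≤ dd g x := by
  have : 0 ≤ th * s := mul_nonneg D.th0 D.s0
  rcases le_or_gt 1 x with hx | hx
  · have := D.sys.mono x hx
    linarith
  · obtain ⟨n, hn⟩ : ∃ n : ℕ, x = -(n : ℤ) := ⟨(-x).toNat, by omega⟩
    rw [hn]
    exact D.hdn n (by omega)

/-- the bounds of `dS`, general range of indices -/
theorem dS_bd (D : Dat p a m c m' g f s th M P P1 Mn Pn) {t N' E' : ℝ} {n : ℕ} (hn : n < c)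
    (ht0 : 0 ≤ t)
    (ht : ∀ x : ℤ, (a : ℤ) + 1 - n - m ≤ x → x ≤ a → -t ≤ dd g x)
    (hN' : ∀ x : ℤ, (a : ℤ) + 1 - n - m ≤ x → x ≤ a → -N' ≤ dd f x)
    (hE' : ∀ x : ℤ, (a : ℤ) + 1 - n - m ≤ x → x ≤ a → dd f x ≤ E') :
    -dS p a m g f n ≤ (2 * n + 1) * alm p a c s P + Jc p a m c * (s + t) + MP p a m * (N' + M)
    ∧ dS p a m g f n ≤ (2 * n + 1) * alp p c s M + Jc p a m c * (s + t)
        + MP p a m * (E' + P) := by
  have h := D.sys
  have h0 := D.h0
  have h1 := D.h1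
  have hca := D.hca
  have hw := D.hw
  have h2 := D.h2
  have hs := D.hs
  have hq : 0 < 1 - p := by linarith
  have hP : 0 < (1 - p) * p ^ a := by positivity
  have hs0 := D.s0
  have hn0 : (0 : ℝ) ≤ 2 * n + 1 := by positivity
  have g1 : g (a - n) - g (a + 1 + n) ≤ (2 * n + 1) * s := by
    have := sub_le_mul (g := g) (s := s) (u := (a : ℤ) - n) (n := 2 * n + 1)
      (fun x hx1 hx2 => hs x (by omega) (by push_cast at hx2; omega))
    rw [show (a : ℤ) - n + ((2 * n + 1 : ℕ) : ℤ) = a + 1 + n by push_cast; ring] at this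
    push_cast at this
    exact this
  have g0 : 0 ≤ g (a - n) - g (a + 1 + n) := by
    have := h.g_anti (x := (a : ℤ) - n) (y := a + 1 + n) (by omega) (by omega)
    linarith
  have f1 : f (a - n) - f (a + 1 + n) ≤ (2 * n + 1) * M := by
    have := sub_le_mul (g := f) (s := M) (u := (a : ℤ) - n) (n := 2 * n + 1)
      (fun x hx1 hx2 => D.hM x (by omega) (by push_cast at hx2; omega))
    rw [show (a : ℤ) - n + ((2 * n + 1 : ℕ) : ℤ) = a + 1 + n by push_cast; ring] at this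
    push_cast at this
    exact this
  have f0 : -((2 * n + 1) * P) ≤ f (a - n) - f (a + 1 + n) := by
    have := sub_ge_mul (g := f) (s := -P) (u := (a : ℤ) - n) (n := 2 * n + 1)
      (fun x hx1 hx2 => D.hP x (by omega) (by push_cast at hx2; omega))
    rw [show (a : ℤ) - n + ((2 * n + 1 : ℕ) : ℤ) = a + 1 + n by push_cast; ring] at this
    push_cast at this
    linarith
  have hd : ∀ j, j ∈ Icc 1 m → |dd g (a + 1 - n - j) - dd g (a + 2 + n - j)| ≤ s + t := by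
    intro j hj
    rw [mem_Icc] at hj
    have a1 : dd g (a + 1 - n - j) ≤ s := h.dd_le h0 h1 hs (by omega) (by omega)
    have a2 : 0 ≤ dd g (a + 2 + n - j) := h.mono _ (by omega)
    have a3 : dd g (a + 2 + n - j) ≤ s := hs _ (by omega) (by omega)
    have a4 : -t ≤ dd g (a + 1 - n - j) := ht _ (by omega) (by omega)
    rw [abs_le]
    constructor <;> linarith
  have he : ∀ j, j ∈ Icc 1 m → -(N' + M) ≤ dd f (a + 1 - n - j) - dd f (a + 2 + n - j)
      ∧ dd f (a + 1 - n - j) - dd f (a + 2 + n - j) ≤ E' + P := by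
    intro j hj
    rw [mem_Icc] at hj
    have a1 : dd f (a + 1 - n - j) ≤ E' := hE' _ (by omega) (by omega)
    have a2 : -P ≤ dd f (a + 2 + n - j) := D.hP _ (by omega) (by omega)
    have a3 : dd f (a + 2 + n - j) ≤ M := D.hM _ (by omega) (by omega)
    have a4 : -N' ≤ dd f (a + 1 - n - j) := hN' _ (by omega) (by omega)
    constructor <;> linarith
  have hMP : ∀ v : ℝ, ∑ j ∈ Icc 1 m, (1 - p) * p ^ (a - j) * v = MP p a m * v := by
    intro v
    rw [← sum_mul, ← mul_sum, sum_pow_Icc h0 (by omega)]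
  have hA : (1 - p) * p ^ a ≤ (1 - p) * p ^ c :=
    mul_le_mul_of_nonneg_left (pow_le_pow_of_le_one h0.le h1.le hca.le) hq.le
  have hpc := psi_nonneg h0 D.hl
  have hpa := psi_a_le h0 h1 hca D.hl
  have hpa2 := psi_a_ge h0 h1 hca D.hl
  have hac : 0 ≤ ((a : ℝ) - c) * ((1 - p) * p ^ c) := by
    have : (c : ℝ) ≤ a := by exact_mod_cast hca.le
    exact mul_nonneg (by linarith) (by positivity)
  -- the psi sum
  have hJ : |∑ j ∈ Icc 1 m, psi p (a - j) * (dd g (a + 1 - n - j) - dd g (a + 2 + n - j))|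
      ≤ Jc p a m c * (s + t) := by
    refine (abs_sum_le_sum_abs _ _).trans ?_
    have hst : 0 ≤ s + t := by linarith
    refine le_trans (sum_le_sum (g := fun j => |psi p (a - j)| * (s + t)) (fun j hj => ?_)) ?_
    · rw [abs_mul]
      exact mul_le_mul_of_nonneg_left (hd j hj) (abs_nonneg _)
    · rw [← sum_mul]
      exact mul_le_mul_of_nonneg_right (sum_abs_psi h0 h1 hca (by omega) D.hl) hst
  rw [abs_le] at hJ
  obtain ⟨hJ1, hJ2⟩ := hJ
  have k1 : psi p a * (g (a - n) - g (a + 1 + n)) ≤ (2 * n + 1) * (psi p c * s) := by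
    calc psi p a * (g (a - n) - g (a + 1 + n)) ≤ psi p c * (g (a - n) - g (a + 1 + n)) :=
          mul_le_mul_of_nonneg_right hpa g0
      _ ≤ psi p c * ((2 * n + 1) * s) := mul_le_mul_of_nonneg_left g1 hpc
      _ = _ := by ring
  have k2 : -(psi p a * (g (a - n) - g (a + 1 + n)))
      ≤ (2 * n + 1) * (((a : ℝ) - c) * ((1 - p) * p ^ c) * s) := by
    calc -(psi p a * (g (a - n) - g (a + 1 + n)))
        ≤ (((a : ℝ) - c) * ((1 - p) * p ^ c)) * (g (a - n) - g (a + 1 + n)) := by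
          have := mul_le_mul_of_nonneg_right hpa2 g0
          linarith
      _ ≤ (((a : ℝ) - c) * ((1 - p) * p ^ c)) * ((2 * n + 1) * s) :=
          mul_le_mul_of_nonneg_left g1 hac
      _ = _ := by ring
  have k3 : (1 - p) * p ^ a * (f (a - n) - f (a + 1 + n)) ≤ (2 * n + 1) * ((1 - p) * p ^ c * M) := by
    calc (1 - p) * p ^ a * (f (a - n) - f (a + 1 + n)) ≤ (1 - p) * p ^ a * ((2 * n + 1) * M) :=
          mul_le_mul_of_nonneg_left f1 hP.le
      _ ≤ (1 - p) * p ^ c * ((2 * n + 1) * M) :=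
          mul_le_mul_of_nonneg_right hA (mul_nonneg hn0 D.M0)
      _ = _ := by ring
  have k4 : -((1 - p) * p ^ a * (f (a - n) - f (a + 1 + n)))
      ≤ (2 * n + 1) * ((1 - p) * p ^ c * P) := by
    calc -((1 - p) * p ^ a * (f (a - n) - f (a + 1 + n))) ≤ (1 - p) * p ^ a * ((2 * n + 1) * P) := by
          have := mul_le_mul_of_nonneg_left f0 hP.le
          linarith
      _ ≤ (1 - p) * p ^ c * ((2 * n + 1) * P) :=
          mul_le_mul_of_nonneg_right hA (mul_nonneg hn0 D.P0)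
      _ = _ := by ring
  have b4 : -∑ j ∈ Icc 1 m, (1 - p) * p ^ (a - j) *
      (dd f (a + 1 - n - j) - dd f (a + 2 + n - j)) ≤ MP p a m * (N' + M) := by
    rw [← hMP, ← sum_neg_distrib]
    refine sum_le_sum (fun j hj => ?_)
    have := mul_le_mul_of_nonneg_left (he j hj).1 (by positivity : 0 ≤ (1 - p) * p ^ (a - j))
    linarith
  have b5 : ∑ j ∈ Icc 1 m, (1 - p) * p ^ (a - j) *
      (dd f (a + 1 - n - j) - dd f (a + 2 + n - j)) ≤ MP p a m * (E' + P) := by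
    rw [← hMP]
    refine sum_le_sum (fun j hj => ?_)
    exact mul_le_mul_of_nonneg_left (he j hj).2 (by positivity : 0 ≤ (1 - p) * p ^ (a - j))
  unfold dS alm alp
  constructor <;> linarith

/-- the bounds of `dS` for `n < z` -/
theorem dS_near (D : Dat p a m c m' g f s th M P P1 Mn Pn) {n : ℕ} (hn : n < c - m') :
    -dS p a m g f n ≤ (2 * n + 1) * alm p a c s P + bet p a m c s M P
    ∧ dS p a m g f n ≤ (2 * n + 1) * alp p c s M + bet p a m c s M P := by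
  have hw := D.hw
  have hca := D.hca
  have h2 := D.h2
  have := D.dS_bd (t := 0) (N' := P) (E' := M) (n := n) (by omega) le_rfl
    (fun x hx1 hx2 => by have := D.sys.mono x (by omega); linarith)
    (fun x hx1 hx2 => D.hP x (by omega) (by omega))
    (fun x hx1 hx2 => D.hM x (by omega) (by omega))
  unfold bet
  rw [add_zero] at this
  constructor <;> linarith [this.1, this.2]

/-- the bounds of `dS` for all `n < c` -/
theorem dS_all (D : Dat p a m c m' g f s th M P P1 Mn Pn) {n : ℕ} (hn : n < c) :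
    -dS p a m g f n ≤ (2 * n + 1) * alm p a c s P + (1 + th) * (Jc p a m c * s)
      + MP p a m * (Pn + M)
    ∧ dS p a m g f n ≤ (2 * n + 1) * alp p c s M + (1 + th) * (Jc p a m c * s)
      + MP p a m * (Mn + P) := by
  have hw := D.hw
  have hca := D.hca
  have h2 := D.h2
  have := D.dS_bd (t := th * s) (N' := Pn) (E' := Mn) (n := n) hn (mul_nonneg D.th0 D.s0)
    (fun x hx1 hx2 => D.ddg_ge (by omega))
    (fun x hx1 hx2 => D.hPn x (by omega) (by omega))
    (fun x hx1 hx2 => D.hMn x (by omega) (by omega))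
  constructor <;> linarith [this.1, this.2]

theorem alm_nonneg (D : Dat p a m c m' g f s th M P P1 Mn Pn) : 0 ≤ alm p a c s P := by
  have h0 := D.h0
  have h1 := D.h1
  have hq : 0 < 1 - p := by linarith
  have : (c : ℝ) ≤ a := by exact_mod_cast D.hca.le
  have hs := D.s0
  have hP := D.P0
  unfold alm
  have : 0 ≤ ((a : ℝ) - c) * ((1 - p) * p ^ c) := mul_nonneg (by linarith) (by positivity)
  positivity

theorem alp_nonneg (D : Dat p a m c m' g f s th M P P1 Mn Pn) : 0 ≤ alp p c s M := by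
  have h0 := D.h0
  have h1 := D.h1
  have hq : 0 < 1 - p := by linarith
  have hs := D.s0
  have hM := D.M0
  have := psi_nonneg h0 D.hl
  unfold alp
  positivity

theorem bet_nonneg (D : Dat p a m c m' g f s th M P P1 Mn Pn) : 0 ≤ bet p a m c s M P := by
  have h0 := D.h0
  have h1 := D.h1
  have hs := D.s0
  have hM := D.M0
  have hP := D.P0
  have hw := D.hw
  have hca := D.hca
  have h2 := D.h2
  have := Jc_nonneg h0 h1 hca (by omega : m ≤ a) D.hl
  have := MP_nonneg h0 h1 a m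
  unfold bet
  positivity

/-- `f n = -Σ_(1≤t≤n) e_t` -/
theorem f_ge (D : Dat p a m c m' g f s th M P P1 Mn Pn) {n : ℕ} (hn : n ≤ a + c) :
    -(n * M) ≤ f n := by
  have := sub_le_mul (g := f) (s := M) (u := 0) (n := n)
    (fun x hx1 hx2 => D.hM x (by omega) (by omega))
  rw [D.sys.f_zero, zero_add] at this
  linarith

theorem f_le (D : Dat p a m c m' g f s th M P P1 Mn Pn) {n : ℕ} (hn : n ≤ c - m' + 1) :
    f n ≤ n * P1 := by
  have := sub_ge_mul (g := f) (s := -P1) (u := 0) (n := n)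
    (fun x hx1 hx2 => D.hP1 x (by omega) (by omega))
  rw [D.sys.f_zero, zero_add] at this
  linarith

/-- `f y ≤ (z+1) P1 + k P`, `y = z+1+k` -/
theorem f_le_far (D : Dat p a m c m' g f s th M P P1 Mn Pn) {k : ℕ}
    (hk : c - m' + 1 + k ≤ a + c) :
    f ((c - m' : ℕ) + 1 + k) ≤ (((c - m' : ℕ) : ℝ) + 1) * P1 + k * P := by
  have h1 := D.f_le (n := c - m' + 1) le_rfl
  have h3 := sub_ge_mul (g := f) (s := -P) (u := ((c - m' : ℕ) : ℤ) + 1) (n := k)
    (fun x hx1 hx2 => D.hP x (by omega) (by omega))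
  push_cast at h1
  linarith

/-- `f (-n) = -f n - Σ_(i<n) dS i` -/
theorem f_neg (D : Dat p a m c m' g f s th M P P1 Mn Pn) (n : ℕ) :
    f (-(n : ℤ)) = -f n - ∑ i ∈ range n, dS p a m g f i := by
  have hw := D.hw
  have hca := D.hca
  have h2 := D.h2
  have e1 := neg_eq_sum (g := f) n
  have e2 := sub_eq_sum_dd f 0 n
  rw [D.sys.f_zero] at e1 e2
  have e3 : ∑ i ∈ range n, dd f (-(i : ℤ))
      = ∑ i ∈ range n, dd f (0 + 1 + i) - ∑ i ∈ range n, dS p a m g f i := by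
    rw [← sum_sub_distrib]
    refine sum_congr rfl (fun i _ => ?_)
    rw [D.sys.dneg_f D.h0 (by omega : m ≤ a) i]
    congr 2
    ring
  rw [e3, ← e2, zero_add] at e1
  linarith

theorem sum_odd (n : ℕ) (α β : ℝ) :
    ∑ i ∈ range n, ((2 * (i : ℝ) + 1) * α + β) = (n : ℝ) ^ 2 * α + n * β := by
  induction n with
  | zero => simp
  | succ n ih => rw [sum_range_succ, ih]; push_cast; ring

theorem f_neg_le (D : Dat p a m c m' g f s th M P P1 Mn Pn) {n : ℕ} (hn : n ≤ c - m') :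
    f (-(n : ℤ)) ≤ -f n + (n : ℝ) ^ 2 * alm p a c s P + n * bet p a m c s M P := by
  rw [D.f_neg n]
  have : -∑ i ∈ range n, dS p a m g f i
      ≤ ∑ i ∈ range n, ((2 * (i : ℝ) + 1) * alm p a c s P + bet p a m c s M P) := by
    rw [← sum_neg_distrib]
    refine sum_le_sum (fun i hi => ?_)
    rw [mem_range] at hi
    exact (D.dS_near (by omega)).1
  rw [sum_odd] at this
  linarith

theorem f_neg_ge (D : Dat p a m c m' g f s th M P P1 Mn Pn) {n : ℕ} (hn : n ≤ c - m') :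
    -f n - (n : ℝ) ^ 2 * alp p c s M - n * bet p a m c s M P ≤ f (-(n : ℤ)) := by
  rw [D.f_neg n]
  have : ∑ i ∈ range n, dS p a m g f i
      ≤ ∑ i ∈ range n, ((2 * (i : ℝ) + 1) * alp p c s M + bet p a m c s M P) := by
    refine sum_le_sum (fun i hi => ?_)
    rw [mem_range] at hi
    exact (D.dS_near (by omega)).2
  rw [sum_odd] at this
  linarith

/-- the correction sum of the differentiated renewal -/
noncomputable def ZW (p : ℝ) (c m' : ℕ) (g f : ℤ → ℝ) (y : ℤ) : ℝ :=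
  ∑ i ∈ range m', ((psi p (c - m' + i) - psi p c) * dd g (y - i)
      + ((1 - p) * p ^ (c - m' + i) - (1 - p) * p ^ c) * dd f (y - i))

theorem ZW_le (D : Dat p a m c m' g f s th M P P1 Mn Pn) {y : ℤ} (h1 : (m' : ℤ) - c ≤ y)
    (h2 : y ≤ a + c) : ZW p c m' g f y ≤ Zc p c m' * s + Kc p c m' * Mn := by
  have hh := D.h2
  unfold ZW Zc
  rw [← sum_eps (by omega : m' ≤ c), sum_mul, sum_mul, ← sum_add_distrib]
  refine sum_le_sum (fun i hi => ?_)
  rw [mem_range] at hi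
  have e : c - m' + i = c - (m' - i) := by omega
  have w1 : 0 ≤ psi p (c - m' + i) - psi p c := by
    rw [e]; exact psi_diff_nonneg D.h0 D.h1 (by omega) (by linarith [D.hl])
  have w2 := eps_nonneg D.h0 D.h1 (c := c) (m' := m') (by omega) hi
  have u1 := mul_le_mul_of_nonneg_left (D.ddg_le (x := y - i) (by omega) (by omega)) w1
  have u2 := mul_le_mul_of_nonneg_left (D.hMn (y - i) (by omega) (by omega)) w2
  linarith

theorem ZW_ge (D : Dat p a m c m' g f s th M P P1 Mn Pn) {y : ℤ} (h1 : (m' : ℤ) - c ≤ y)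
    (h2 : y ≤ a + c) : -(Zc p c m' * (th * s) + Kc p c m' * Pn) ≤ ZW p c m' g f y := by
  have hh := D.h2
  unfold ZW Zc
  rw [← sum_eps (by omega : m' ≤ c), sum_mul, sum_mul, ← sum_add_distrib, ← sum_neg_distrib]
  refine sum_le_sum (fun i hi => ?_)
  rw [mem_range] at hi
  have e : c - m' + i = c - (m' - i) := by omega
  have w1 : 0 ≤ psi p (c - m' + i) - psi p c := by
    rw [e]; exact psi_diff_nonneg D.h0 D.h1 (by omega) (by linarith [D.hl])
  have w2 := eps_nonneg D.h0 D.h1 (c := c) (m' := m') (by omega) hi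
  have u1 := mul_le_mul_of_nonneg_left (D.ddg_ge (x := y - i) (by omega)) w1
  have u2 := mul_le_mul_of_nonneg_left (D.hPn (y - i) (by omega) (by omega)) w2
  linarith

theorem eqE (D : Dat p a m c m' g f s th M P P1 Mn Pn) {x : ℤ} (hx : 1 ≤ x) :
    dd f x = psi p c * g (x - 1 - (c - m' : ℕ)) + (1 - p) * p ^ c * f (x - 1 - (c - m' : ℕ))
      - ZW p c m' g f (x - 1 - (c - m' : ℕ)) := D.sys.eqBd x hx

/-- zone I, lower bound of `e` -/
theorem near_lo (D : Dat p a m c m' g f s th M P P1 Mn Pn) {n : ℕ} (hn : n ≤ c - m') :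
    -dd f (((c - m' : ℕ) : ℤ) + 1 - n) ≤ -psi p c + (1 - p) * p ^ c *
      (n * P1 + (n : ℝ) ^ 2 * alp p c s M + n * bet p a m c s M P)
      + Zc p c m' * s + Kc p c m' * Mn := by
  have hw := D.hw
  have hca := D.hca
  have h2 := D.h2
  have h0 := D.h0
  have h1 := D.h1
  have hq : 0 < 1 - p := by linarith
  rw [D.eqE (x := ((c - m' : ℕ) : ℤ) + 1 - n) (by omega)]
  rw [show ((c - m' : ℕ) : ℤ) + 1 - n - 1 - (c - m' : ℕ) = -(n : ℤ) by ring]
  have k1 := D.ZW_le (y := -(n : ℤ)) (by omega) (by omega)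
  have k2 := mul_le_mul_of_nonneg_left (D.sys.gneg_ge_one h0 h1 hca hw h2 hn)
    (psi_nonneg h0 D.hl)
  have k3 : -f (-(n : ℤ)) ≤ n * P1 + (n : ℝ) ^ 2 * alp p c s M + n * bet p a m c s M P := by
    have := D.f_neg_ge hn
    have := D.f_le (n := n) (by omega)
    linarith
  have k4 := mul_le_mul_of_nonneg_left k3 (by positivity : 0 ≤ (1 - p) * p ^ c)
  linarith

/-- zone I, upper bound of `e` -/
theorem near_hi (D : Dat p a m c m' g f s th M P P1 Mn Pn) {n : ℕ} (hn : n ≤ c - m') :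
    dd f (((c - m' : ℕ) : ℤ) + 1 - n) ≤ psi p c * (1 + n * s) + (1 - p) * p ^ c *
      (n * M + (n : ℝ) ^ 2 * alm p a c s P + n * bet p a m c s M P)
      + Zc p c m' * (th * s) + Kc p c m' * Pn := by
  have hw := D.hw
  have hca := D.hca
  have h2 := D.h2
  have h0 := D.h0
  have h1 := D.h1
  have hq : 0 < 1 - p := by linarith
  rw [D.eqE (x := ((c - m' : ℕ) : ℤ) + 1 - n) (by omega)]
  rw [show ((c - m' : ℕ) : ℤ) + 1 - n - 1 - (c - m' : ℕ) = -(n : ℤ) by ring]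
  have k1 := D.ZW_ge (y := -(n : ℤ)) (by omega) (by omega)
  have k2 := mul_le_mul_of_nonneg_left (D.sys.gneg_le h0 h1 D.hs (n := n) (by omega))
    (psi_nonneg h0 D.hl)
  have k3 : f (-(n : ℤ)) ≤ n * M + (n : ℝ) ^ 2 * alm p a c s P + n * bet p a m c s M P := by
    have := D.f_neg_le hn
    have := D.f_ge (n := n) (by omega)
    linarith
  have k4 := mul_le_mul_of_nonneg_left k3 (by positivity : 0 ≤ (1 - p) * p ^ c)
  linarith

/-- zone II, lower bound of `e` -/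
theorem far_lo (D : Dat p a m c m' g f s th M P P1 Mn Pn) {y : ℕ} (hy : y + 1 ≤ a + m') :
    -dd f (((c - m' : ℕ) : ℤ) + 1 + y) ≤ -psi p c * g y + (1 - p) * p ^ c * (y * M)
      + Zc p c m' * s + Kc p c m' * Mn := by
  have hw := D.hw
  have hca := D.hca
  have h2 := D.h2
  have h0 := D.h0
  have h1 := D.h1
  have hq : 0 < 1 - p := by linarith
  rw [D.eqE (x := ((c - m' : ℕ) : ℤ) + 1 + y) (by omega)]
  rw [show ((c - m' : ℕ) : ℤ) + 1 + y - 1 - (c - m' : ℕ) = (y : ℤ) by ring]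
  have k1 := D.ZW_le (y := (y : ℤ)) (by omega) (by omega)
  have k3 : -f (y : ℤ) ≤ y * M := by
    have := D.f_ge (n := y) (by omega)
    linarith
  have k4 := mul_le_mul_of_nonneg_left k3 (by positivity : 0 ≤ (1 - p) * p ^ c)
  linarith

/-- zone II, upper bound of `e` -/
theorem far_hi (D : Dat p a m c m' g f s th M P P1 Mn Pn) {y : ℕ} (hy : y + 1 ≤ a + m') :
    dd f (((c - m' : ℕ) : ℤ) + 1 + y) ≤ psi p c + (1 - p) * p ^ c * f y
      + Zc p c m' * (th * s) + Kc p c m' * Pn := by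
  have hw := D.hw
  have hca := D.hca
  have h2 := D.h2
  have h0 := D.h0
  have h1 := D.h1
  rw [D.eqE (x := ((c - m' : ℕ) : ℤ) + 1 + y) (by omega)]
  rw [show ((c - m' : ℕ) : ℤ) + 1 + y - 1 - (c - m' : ℕ) = (y : ℤ) by ring]
  have k1 := D.ZW_ge (y := (y : ℤ)) (by omega) (by omega)
  have k2 := mul_le_mul_of_nonneg_left (D.sys.g_le_one (x := (y : ℤ)) (by omega))
    (psi_nonneg h0 D.hl)
  linarith

end Dat

end Coin
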