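import Pool.Agent.Lib.Coin.WinLo

/-!
# Coin race, one-tail window, `c q ≤ p`: the numeric inequality (statement) and its use
-/

namespace Coin

open Finset

/-- `Φ`, the upper bound of `-e_x` on zone I -/
noncomputable def PhiL (p : ℝ) (a m c m' : ℕ) (s M P P1 Mn : ℝ) : ℝ :=
  -psi p c + (1 - p) * p ^ c * (((c - m' : ℕ) : ℝ) * P1 + ((c - m' : ℕ) : ℝ) ^ 2 * alp p c s M
    + ((c - m' : ℕ) : ℝ) * bet p a m c s M P) + Zc p c m' * s + Kc p c m' * Mn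

/-- the unknown suprema and their inequalities -/
structure LoU (p : ℝ) (a m c m' : ℕ) (s th M P P1 Mn Pn : ℝ) : Prop where
  s0 : 0 ≤ s
  hs : s * (1 - ((c - m' : ℕ) : ℝ) * ((1 - p) * p ^ c) - th * Kc p c m') ≤ (1 - p) * p ^ c
  M0 : 0 ≤ M
  P0 : 0 ≤ P
  P10 : 0 ≤ P1
  MMn : M ≤ Mn
  PPn : P ≤ Pn
  I1 : Mn ≤ M + (2 * (c : ℝ) - 1) * alm p a c s P + (1 + th) * (Jc p a m c * s)
    + MP p a m * (Pn + M)
  I2 : Pn ≤ P + (2 * (c : ℝ) - 1) * alp p c s M + (1 + th) * (Jc p a m c * s)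
    + MP p a m * (Mn + P)
  I3 : M ≤ psi p c * (1 + ((c - m' : ℕ) : ℝ) * s) + (1 - p) * p ^ c *
      (((c - m' : ℕ) : ℝ) * M + ((c - m' : ℕ) : ℝ) ^ 2 * alm p a c s P
        + ((c - m' : ℕ) : ℝ) * bet p a m c s M P) + Zc p c m' * (th * s) + Kc p c m' * Pn
    ∨ M ≤ psi p c + (1 - p) * p ^ c *
      ((((c - m' : ℕ) : ℝ) + 1) * P1 + ((a : ℝ) + m' - 2 - ((c - m' : ℕ) : ℝ)) * P)
      + Zc p c m' * (th * s) + Kc p c m' * Pn
  I4 : P1 ≤ 0 ∨ P1 ≤ PhiL p a m c m' s M P P1 Mn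
  I5 : P ≤ P1 ∨ P ≤ (1 - p) * p ^ c * (((a : ℝ) + m' - 1) * M) + Zc p c m' * s + Kc p c m' * Mn

/-- bound of `H_x` -/
noncomputable def HbL (p : ℝ) (a c m' : ℕ) (s th : ℝ) : ℝ :=
  (p ^ c * (1 + (((c - m' : ℕ) : ℝ) + 1 - ((a : ℝ) - c)) * s)
    + th * Kc p c m' * s / (1 - p)) / (1 - ((a : ℝ) - c) * s)

/-- bound of `f_X - f_x` -/
noncomputable def IncL (p : ℝ) (a m c m' : ℕ) (s M P P1 Mn : ℝ) : ℝ :=
  (((c - m' : ℕ) : ℝ) + 1) * (-psi p c + Zc p c m' * s + Kc p c m' * Mn)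
    + (1 - p) * p ^ c * ((P1 + bet p a m c s M P) * ((c - m' : ℕ) : ℝ) ^ 2 / 2
      + alp p c s M * ((c - m' : ℕ) : ℝ) ^ 3 / 3)
    + (psi p c * s + (1 - p) * p ^ c * M) * (((a : ℝ) - c) * ((a : ℝ) - c + 1) / 2)

/-- bound of `-rem` -/
noncomputable def RemL (p : ℝ) (a m c m' : ℕ) (s M P P1 Mn : ℝ) : ℝ :=
  p ^ c * (max (((c - m' : ℕ) : ℝ) * PhiL p a m c m' s M P P1 Mn)
      ((((c - m' : ℕ) : ℝ) + 1 - ((a : ℝ) - c)) * PhiL p a m c m' s M P P1 Mn)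
      + ((c - m' : ℕ) : ℝ) ^ 2 * alp p c s M + ((c - m' : ℕ) : ℝ) * bet p a m c s M P)
    + R1 p c m' * s + Kc p c m' / (1 - p) * Mn

/-- the final expression -/
noncomputable def FinL (p : ℝ) (a m c m' : ℕ) (s th M P P1 Mn : ℝ) : ℝ :=
  (((c - m' : ℕ) : ℝ) + 1) - ((m' : ℝ) - 1) * HbL p a c m' s th
    - ((a : ℝ) - c) * P1 * ((1 + HbL p a c m' s th)
      / (1 - ((a : ℝ) - c + ((c - m' : ℕ) : ℝ) + 1) * s) - 1)
    - max (IncL p a m c m' s M P P1 Mn)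
      ((1 + HbL p a c m' s th) * IncL p a m c m' s M P P1 Mn
        / (1 - ((a : ℝ) - c + ((c - m' : ℕ) : ℝ) + 1) * s))
    - max (RemL p a m c m' s M P P1 Mn) (RemL p a m c m' s M P P1 Mn / (1 - ((a : ℝ) - c) * s))

/-- what has to be proved about the unknowns -/
def LoFin (p : ℝ) (a m c m' : ℕ) (s th M P P1 Mn : ℝ) : Prop :=
  0 < 1 - ((a : ℝ) - m) * s ∧
  (∃ p2 : ℝ, 0 ≤ p2 ∧
    -psi p c * (1 - ((a : ℝ) - m - ((c - m' : ℕ) : ℝ) - 1) * s)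
      + (1 - p) * p ^ c * (((a : ℝ) - m - ((c - m' : ℕ) : ℝ) - 1) * M)
      + Zc p c m' * s + Kc p c m' * Mn ≤ p2 ∧
    p2 ≤ 1 - ((a : ℝ) - m) * s ∧
    ((((c - m' : ℕ) : ℝ) + 1) * P1 + ((a : ℝ) - m - ((c - m' : ℕ) : ℝ) - 1) * p2) * s
      ≤ (1 - ((a : ℝ) - m) * s) * (1 - ((a : ℝ) - m) * s - p2)) ∧
  0 < FinL p a m c m' s th M P P1 Mn

/-- the numeric inequality for `c q ≤ p` -/
def LoNum (p : ℝ) (a m c m' : ℕ) : Prop :=
  ∃ th : ℝ, 0 ≤ th ∧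
    ((c : ℝ) - 1) * ((1 - p) * p ^ c) + Kc p c m'
      + ((2 * (c : ℝ) - 1) * ((1 - p) * p ^ a) + MP p a m) - 1 ≤ th * (1 - Kc p c m') ∧
    ∀ s M P P1 Mn Pn : ℝ, LoU p a m c m' s th M P P1 Mn Pn → LoFin p a m c m' s th M P P1 Mn

theorem exists_sup0 (F : ℤ → ℝ) (lo hi : ℤ) : ∃ M : ℝ, 0 ≤ M ∧
    (∀ x : ℤ, lo ≤ x → x ≤ hi → F x ≤ M) ∧ (M = 0 ∨ ∃ x : ℤ, lo ≤ x ∧ x ≤ hi ∧ F x = M) := by
  rcases lt_or_ge hi lo with hlt | hge
  · exact ⟨0, le_rfl, fun x h1 h2 => by omega, Or.inl rfl⟩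
  obtain ⟨x, hx, hm⟩ := Finset.exists_max_image (Finset.Icc lo hi) F
    ⟨lo, by rw [Finset.mem_Icc]; omega⟩
  rw [Finset.mem_Icc] at hx
  rcases le_or_gt 0 (F x) with h3 | h3
  · exact ⟨F x, h3, fun y h1 h2 => hm y (by rw [Finset.mem_Icc]; omega), Or.inr ⟨x, hx.1, hx.2, rfl⟩⟩
  · exact ⟨0, le_rfl, fun y h1 h2 => by
      have := hm y (by rw [Finset.mem_Icc]; omega)
      linarith, Or.inl rfl⟩

namespace Dat

variable {p : ℝ} {a m c m' : ℕ} {g f : ℤ → ℝ} {s th M P P1 Mn Pn : ℝ}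

/-- zone I with the largest index -/
theorem near_Phi (D : Dat p a m c m' g f s th M P P1 Mn Pn) {x : ℤ} (hx1 : 1 ≤ x)
    (hx2 : x ≤ (c - m' : ℕ) + 1) : -dd f x ≤ PhiL p a m c m' s M P P1 Mn := by
  obtain ⟨n, hn⟩ : ∃ n : ℕ, x = ((c - m' : ℕ) : ℤ) + 1 - n :=
    ⟨(((c - m' : ℕ) : ℤ) + 1 - x).toNat, by omega⟩
  have hq : 0 < 1 - p := by linarith [D.h1]
  have h0 := D.h0
  have hnz : n ≤ c - m' := by omega
  have k := D.near_lo hnz
  rw [← hn] at k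
  refine k.trans ?_
  unfold PhiL
  have hr : (n : ℝ) ≤ ((c - m' : ℕ) : ℝ) := by exact_mod_cast hnz
  have hn0 : (0 : ℝ) ≤ n := by positivity
  have a1 := mul_le_mul_of_nonneg_right hr D.P10
  have a2 : (n : ℝ) ^ 2 * alp p c s M ≤ ((c - m' : ℕ) : ℝ) ^ 2 * alp p c s M :=
    mul_le_mul_of_nonneg_right (pow_le_pow_left₀ hn0 hr 2) D.alp_nonneg
  have a3 := mul_le_mul_of_nonneg_right hr D.bet_nonneg
  have a4 : (n : ℝ) * P1 + (n : ℝ) ^ 2 * alp p c s M + n * bet p a m c s M P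
      ≤ ((c - m' : ℕ) : ℝ) * P1 + ((c - m' : ℕ) : ℝ) ^ 2 * alp p c s M
        + ((c - m' : ℕ) : ℝ) * bet p a m c s M P := by linarith
  have a5 := mul_le_mul_of_nonneg_left a4 (by positivity : 0 ≤ (1 - p) * p ^ c)
  linarith

theorem f_le_Phi (D : Dat p a m c m' g f s th M P P1 Mn Pn) {n : ℕ} (hn : n ≤ c - m' + 1) :
    f n ≤ n * PhiL p a m c m' s M P P1 Mn := by
  have := sub_ge_mul (g := f) (s := -PhiL p a m c m' s M P P1 Mn) (u := 0) (n := n)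
    (fun x hx1 hx2 => by
      have := D.near_Phi (x := x) (by omega) (by omega)
      linarith)
  rw [D.sys.f_zero, zero_add] at this
  linarith

/-- the increment of `f` over zone I -/
theorem inc_near (D : Dat p a m c m' g f s th M P P1 Mn Pn) {n : ℕ} (hn : n ≤ c - m' + 1) :
    f (((c - m' : ℕ) : ℤ) + 1) - f (((c - m' : ℕ) : ℤ) + 1 - n)
      ≤ n * (-psi p c + Zc p c m' * s + Kc p c m' * Mn)
        + (1 - p) * p ^ c * ((P1 + bet p a m c s M P) * (n : ℝ) ^ 2 / 2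
          + alp p c s M * (n : ℝ) ^ 3 / 3) := by
  induction n with
  | zero => simp
  | succ n ih =>
    have h3 := ih (by omega)
    have k := D.near_lo (n := n) (by omega)
    have e : dd f (((c - m' : ℕ) : ℤ) + 1 - n)
        = f (((c - m' : ℕ) : ℤ) + 1 - ((n + 1 : ℕ) : ℤ)) - f (((c - m' : ℕ) : ℤ) + 1 - n) := by
      unfold dd
      congr 2
      push_cast; ring
    rw [e] at k
    have hq : 0 < 1 - p := by linarith [D.h1]
    have h0 := D.h0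
    have hA : 0 ≤ (1 - p) * p ^ c := by positivity
    have hb := D.bet_nonneg
    have ha := D.alp_nonneg
    have hP := D.P10
    have hn0 : (0 : ℝ) ≤ n := by positivity
    have key : (n : ℝ) * P1 + (n : ℝ) ^ 2 * alp p c s M + n * bet p a m c s M P
        ≤ ((P1 + bet p a m c s M P) * ((n + 1 : ℕ) : ℝ) ^ 2 / 2
          + alp p c s M * ((n + 1 : ℕ) : ℝ) ^ 3 / 3)
          - ((P1 + bet p a m c s M P) * (n : ℝ) ^ 2 / 2
          + alp p c s M * (n : ℝ) ^ 3 / 3) := by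
      push_cast
      nlinarith [mul_nonneg ha hn0]
    have key2 := mul_le_mul_of_nonneg_left key hA
    push_cast at h3 k key2 ⊢
    linarith

/-- the increment of `f` over zone II -/
theorem inc_far (D : Dat p a m c m' g f s th M P P1 Mn Pn) {x : ℕ} (hx : x + 1 ≤ a + m') :
    f (((c - m' : ℕ) : ℤ) + 1 + x) - f (((c - m' : ℕ) : ℤ) + 1)
      ≤ x * (-psi p c + Zc p c m' * s + Kc p c m' * Mn)
        + (psi p c * s + (1 - p) * p ^ c * M) * ((x : ℝ) * (x + 1) / 2) := by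
  induction x with
  | zero => simp
  | succ x ih =>
    have h3 := ih (by omega)
    have h2 := D.h2
    have k := D.far_lo (y := x + 1) (by omega)
    have e : dd f (((c - m' : ℕ) : ℤ) + 1 + ((x + 1 : ℕ) : ℤ))
        = f (((c - m' : ℕ) : ℤ) + 1 + x) - f (((c - m' : ℕ) : ℤ) + 1 + ((x + 1 : ℕ) : ℤ)) := by
      unfold dd
      congr 2
      push_cast; ring
    rw [e] at k
    have hg := D.sys.g_ge D.hs (n := x + 1) (by omega)
    have hp := psi_nonneg D.h0 D.hl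
    have k2 := mul_le_mul_of_nonneg_left hg hp
    push_cast at h3 k k2 ⊢
    linarith

/-- bound of `H_x` -/
theorem hz_le (D : Dat p a m c m' g f s th M P P1 Mn Pn) {x : ℕ} (hx1 : 1 ≤ x) (hx2 : x ≤ a - c)
    (hG : 0 < 1 - ((a : ℝ) - c) * s) : hz p g x ≤ HbL p a c m' s th := by
  have hw := D.hw
  have hca := D.hca
  have h2 := D.h2
  have h0 := D.h0
  have h1 := D.h1
  have hq : 0 < 1 - p := by linarith
  have hs0 := D.s0
  have hdel : ((a - c : ℕ) : ℝ) = (a : ℝ) - c := by rw [Nat.cast_sub hca.le]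
  have hxd : (x : ℝ) ≤ (a : ℝ) - c := by rw [← hdel]; exact_mod_cast hx2
  have hx0 : (0 : ℝ) ≤ x := by positivity
  have hzx : (a : ℝ) - c ≤ ((c - m' : ℕ) : ℝ) + 1 := by
    rw [← hdel]
    exact_mod_cast (by omega : a - c ≤ c - m' + 1)
  have hgx := D.sys.g_ge D.hs (n := x) (by omega)
  have hG2 : 0 < 1 - (x : ℝ) * s := by nlinarith
  have hd : dd g (x : ℤ) ≤ (1 - p) * p ^ c * (1 + (((c - m' : ℕ) : ℝ) + 1 - x) * s)
      + Kc p c m' * (th * s) := by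
    have h3 := D.sys.dd_le_of h0 h1 (by omega) (δ := th * s) (mul_nonneg D.th0 hs0) D.hdn
      (x := (x : ℤ)) (by omega)
    have h4 := D.sys.g_le h0 h1 D.hs (x := (x : ℤ)) (by omega) (by omega)
    have h5 := mul_le_mul_of_nonneg_left h4 (by positivity : 0 ≤ (1 - p) * p ^ c)
    push_cast at h5
    linarith
  have hK := Kc_nonneg h0 h1 (c := c) (m' := m') (by omega)
  unfold hz HbL
  rw [div_le_div_iff₀ (mul_pos hq (lt_of_lt_of_le hG2 hgx)) hG]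
  set z : ℝ := ((c - m' : ℕ) : ℝ) with hz
  set E := p ^ c with hE
  set K := Kc p c m' with hKd
  set δ : ℝ := (a : ℝ) - c with hδ
  have hE0 : 0 < E := pow_pos h0 _
  -- numerator function
  have e1 : (E * (1 + (z + 1 - δ) * s) + th * K * s / (1 - p)) * ((1 - p) * g x)
      = ((1 - p) * E * (1 + (z + 1 - δ) * s) + K * (th * s)) * g x := by
    field_simp
  rw [e1]
  have hth := D.th0
  have hKt : 0 ≤ K * (th * s) := by positivity
  have hN : 0 ≤ (1 - p) * E * (1 + (z + 1 - δ) * s) + K * (th * s) := by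
    have : 0 ≤ (z + 1 - δ) * s := mul_nonneg (by linarith) hs0
    have : 0 ≤ (1 - p) * E * (1 + (z + 1 - δ) * s) := by positivity
    linarith
  calc dd g (x : ℤ) * (1 - δ * s)
      ≤ ((1 - p) * E * (1 + (z + 1 - x) * s) + K * (th * s)) * (1 - δ * s) :=
        mul_le_mul_of_nonneg_right hd hG.le
    _ ≤ ((1 - p) * E * (1 + (z + 1 - δ) * s) + K * (th * s)) * (1 - x * s) := by
        have k1 : 0 ≤ (δ - x) * s := mul_nonneg (by linarith) hs0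
        have k2 : 0 ≤ (1 - p) * E * ((z + 1) * s) + K * (th * s) := by
          have : 0 ≤ (z + 1) * s := mul_nonneg (by positivity) hs0
          have : 0 ≤ (1 - p) * E * ((z + 1) * s) := by positivity
          linarith
        have := mul_nonneg k1 k2
        nlinarith
    _ ≤ _ := mul_le_mul_of_nonneg_left hgx hN

end Dat

end Coin
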