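import Pool.Agent.Lib.Coin.WinLo2

/-!
# Coin race, one-tail window, `c q ≤ p`: from the numeric inequality to `WinP`
-/

namespace Coin

open Finset

/-- existence of the data and their inequalities -/
theorem exists_LoU {p : ℝ} {a m c m' : ℕ} {g f : ℤ → ℝ} (h : WSys p a m c m' g f) (h0 : 0 < p)
    (h1 : p < 1) (hca : c < a) (hw : a - c < m' - m) (h2 : 2 * m' ≤ c) (hl : c * (1 - p) ≤ p)
    {th : ℝ} (hth0 : 0 ≤ th)
    (hth : ((c : ℝ) - 1) * ((1 - p) * p ^ c) + Kc p c m'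
      + ((2 * (c : ℝ) - 1) * ((1 - p) * p ^ a) + MP p a m) - 1 ≤ th * (1 - Kc p c m')) :
    ∃ s M P P1 Mn Pn : ℝ, Dat p a m c m' g f s th M P P1 Mn Pn ∧
      LoU p a m c m' s th M P P1 Mn Pn := by
  have hq : 0 < 1 - p := by linarith
  obtain ⟨s, hs, hat⟩ := WSys.exists_sup (a := a) (c := c) hca g
  have hs0 := h.s_nonneg hat
  obtain ⟨M, hM0, hM, hMa⟩ := exists_sup0 (dd f) 1 (a + c)
  obtain ⟨P, hP0, hP, hPa⟩ := exists_sup0 (fun x => -dd f x) 1 (a + c)
  obtain ⟨P1, hP10, hP1, hP1a⟩ := exists_sup0 (fun x => -dd f x) 1 ((c - m' : ℕ) + 1)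
  obtain ⟨Mn, hMn0, hMn, hMna⟩ := exists_sup0 (dd f) (1 - (c : ℤ)) (a + c)
  obtain ⟨Pn, hPn0, hPn, hPna⟩ := exists_sup0 (fun x => -dd f x) (1 - (c : ℤ)) (a + c)
  have D : Dat p a m c m' g f s th M P P1 Mn Pn := {
    sys := h, h0 := h0, h1 := h1, hca := hca, hw := hw, h2 := h2, hl := hl
    th0 := hth0, s0 := hs0, hs := hs
    hdn := fun n hn => h.K1d h0 h1 hca hw h2 hs hat hth0 hth hn
    M0 := hM0, P0 := hP0, P10 := hP10, hM := hM
    hP := fun x hx1 hx2 => by have := hP x hx1 hx2; linarith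
    hP1 := fun x hx1 hx2 => by have := hP1 x hx1 hx2; linarith
    hMn := hMn
    hPn := fun x hx1 hx2 => by have := hPn x hx1 hx2; linarith }
  refine ⟨s, M, P, P1, Mn, Pn, D, ?_⟩
  have hJ := Jc_nonneg h0 h1 hca (by omega : m ≤ a) hl
  have hMP := MP_nonneg h0 h1 a m
  have hK := Kc_nonneg h0 h1 (c := c) (m' := m') (by omega)
  have hZ := Zc_nonneg h0 h1 (c := c) (m' := m') (by omega) hl
  have hpc := psi_nonneg h0 hl
  have halm := D.alm_nonneg
  have halp := D.alp_nonneg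
  have hbet := D.bet_nonneg
  have hc1 : (1 : ℝ) ≤ c := by exact_mod_cast (by omega : 1 ≤ c)
  have hA : 0 < (1 - p) * p ^ c := by positivity
  have hz0 : (0 : ℝ) ≤ ((c - m' : ℕ) : ℝ) := by positivity
  have hJs : 0 ≤ (1 + th) * (Jc p a m c * s) := by positivity
  have hMMn : M ≤ Mn := by
    rcases hMa with hh | ⟨x, hx1, hx2, hx⟩
    · rw [hh]; exact hMn0
    · rw [← hx]; exact hMn x (by omega) hx2
  have hPPn : P ≤ Pn := by
    rcases hPa with hh | ⟨x, hx1, hx2, hx⟩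
    · rw [hh]; exact hPn0
    · rw [← hx]; exact hPn x (by omega) hx2
  have hYr : ((a : ℝ) + m' - 2 - ((c - m' : ℕ) : ℝ)) = ((a + m' - 2 - (c - m') : ℕ) : ℝ) := by
    have hN : ((a + m' - 2 - (c - m') : ℕ) : ℤ) = (a : ℤ) + m' - 2 - ((c - m' : ℕ) : ℤ) := by
      omega
    exact_mod_cast hN.symm
  have hYr2 : ((a : ℝ) + m' - 1) = ((a + m' - 1 : ℕ) : ℝ) := by
    have hN : ((a + m' - 1 : ℕ) : ℤ) = (a : ℤ) + m' - 1 := by omega
    exact_mod_cast hN.symm
  refine ⟨hs0, h.K1_s h0 h1 hca hw h2 hs hat hth0 hth, hM0, hP0, hP10, hMMn, hPPn,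
    ?_, ?_, ?_, ?_, ?_⟩
  · -- I1
    rcases hMna with hh | ⟨x, hx1, hx2, hx⟩
    · rw [hh]
      have : 0 ≤ (2 * (c : ℝ) - 1) * alm p a c s P := mul_nonneg (by linarith) halm
      have : 0 ≤ MP p a m * (Pn + M) := mul_nonneg hMP (by linarith)
      linarith
    rcases le_or_gt 1 x with hxp | hxn
    · have h3 := hM x hxp hx2
      rw [hx] at h3
      have : 0 ≤ (2 * (c : ℝ) - 1) * alm p a c s P := mul_nonneg (by linarith) halm
      have : 0 ≤ MP p a m * (Pn + M) := mul_nonneg hMP (by linarith)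
      linarith
    · obtain ⟨n, hn⟩ : ∃ n : ℕ, x = -(n : ℤ) := ⟨(-x).toNat, by omega⟩
      have hnc : n < c := by omega
      have h3 := (D.dS_all hnc).1
      have h4 := h.dneg_f h0 (by omega : m ≤ a) n
      rw [← hn, hx] at h4
      have h5 := hM (n + 1) (by omega) (by omega)
      have h6 : (2 * (n : ℝ) + 1) * alm p a c s P ≤ (2 * (c : ℝ) - 1) * alm p a c s P := by
        refine mul_le_mul_of_nonneg_right ?_ halm
        have : (n : ℝ) + 1 ≤ c := by exact_mod_cast hnc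
        linarith
      linarith
  · -- I2
    rcases hPna with hh | ⟨x, hx1, hx2, hx⟩
    · rw [hh]
      have : 0 ≤ (2 * (c : ℝ) - 1) * alp p c s M := mul_nonneg (by linarith) halp
      have : 0 ≤ MP p a m * (Mn + P) := mul_nonneg hMP (by linarith)
      linarith
    rcases le_or_gt 1 x with hxp | hxn
    · have h3 := hP x hxp hx2
      rw [hx] at h3
      have : 0 ≤ (2 * (c : ℝ) - 1) * alp p c s M := mul_nonneg (by linarith) halp
      have : 0 ≤ MP p a m * (Mn + P) := mul_nonneg hMP (by linarith)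
      linarith
    · obtain ⟨n, hn⟩ : ∃ n : ℕ, x = -(n : ℤ) := ⟨(-x).toNat, by omega⟩
      have hnc : n < c := by omega
      have h3 := (D.dS_all hnc).2
      have h4 := h.dneg_f h0 (by omega : m ≤ a) n
      rw [← hn] at h4
      have h5 := hP (n + 1) (by omega) (by omega)
      have h6 : (2 * (n : ℝ) + 1) * alp p c s M ≤ (2 * (c : ℝ) - 1) * alp p c s M := by
        refine mul_le_mul_of_nonneg_right ?_ halp
        have : (n : ℝ) + 1 ≤ c := by exact_mod_cast hnc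
        linarith
      linarith
  · -- I3
    have hb1 : 0 ≤ psi p c * (1 + ((c - m' : ℕ) : ℝ) * s) + (1 - p) * p ^ c *
      (((c - m' : ℕ) : ℝ) * M + ((c - m' : ℕ) : ℝ) ^ 2 * alm p a c s P
        + ((c - m' : ℕ) : ℝ) * bet p a m c s M P) + Zc p c m' * (th * s) + Kc p c m' * Pn := by
      positivity
    rcases hMa with hh | ⟨x, hx1, hx2, hx⟩
    · left; exact hh.le.trans hb1
    rcases le_or_gt x ((c - m' : ℕ) + 1) with hxz | hxz
    · left
      obtain ⟨n, hn⟩ : ∃ n : ℕ, x = ((c - m' : ℕ) : ℤ) + 1 - n :=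
        ⟨(((c - m' : ℕ) : ℤ) + 1 - x).toNat, by omega⟩
      have hnz : n ≤ c - m' := by omega
      have k := D.near_hi hnz
      rw [← hn, hx] at k
      refine k.trans ?_
      have hr : (n : ℝ) ≤ ((c - m' : ℕ) : ℝ) := by exact_mod_cast hnz
      have hn0 : (0 : ℝ) ≤ n := by positivity
      have a0 : psi p c * (1 + n * s) ≤ psi p c * (1 + ((c - m' : ℕ) : ℝ) * s) := by
        refine mul_le_mul_of_nonneg_left ?_ hpc
        have := mul_le_mul_of_nonneg_right hr hs0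
        linarith
      have a1 := mul_le_mul_of_nonneg_right hr hM0
      have a2 : (n : ℝ) ^ 2 * alm p a c s P ≤ ((c - m' : ℕ) : ℝ) ^ 2 * alm p a c s P :=
        mul_le_mul_of_nonneg_right (pow_le_pow_left₀ hn0 hr 2) halm
      have a3 := mul_le_mul_of_nonneg_right hr hbet
      have a4 : (n : ℝ) * M + (n : ℝ) ^ 2 * alm p a c s P + n * bet p a m c s M P
          ≤ ((c - m' : ℕ) : ℝ) * M + ((c - m' : ℕ) : ℝ) ^ 2 * alm p a c s P
            + ((c - m' : ℕ) : ℝ) * bet p a m c s M P := by linarith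
      have a5 := mul_le_mul_of_nonneg_left a4 hA.le
      linarith
    · right
      obtain ⟨y, hy⟩ : ∃ y : ℕ, x = ((c - m' : ℕ) : ℤ) + 1 + y :=
        ⟨(x - ((c - m' : ℕ) : ℤ) - 1).toNat, by omega⟩
      have k := D.far_hi (y := y) (by omega)
      rw [← hy, hx] at k
      refine k.trans ?_
      have a1 : f (y : ℤ) ≤ (((c - m' : ℕ) : ℝ) + 1) * P1
          + ((a : ℝ) + m' - 2 - ((c - m' : ℕ) : ℝ)) * P := by
        rw [hYr]
        rcases le_or_gt y (c - m' + 1) with hyz | hyz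
        · have k1 := D.f_le hyz
          have k2 : (y : ℝ) * P1 ≤ (((c - m' : ℕ) : ℝ) + 1) * P1 := by
            refine mul_le_mul_of_nonneg_right ?_ hP10
            exact_mod_cast hyz
          have k3 : 0 ≤ ((a + m' - 2 - (c - m') : ℕ) : ℝ) * P := by positivity
          linarith
        · obtain ⟨k, hk⟩ : ∃ k, y = c - m' + 1 + k := ⟨y - (c - m' + 1), by omega⟩
          have k1 := D.f_le_far (k := k) (by omega)
          have e : (y : ℤ) = ((c - m' : ℕ) : ℤ) + 1 + k := by rw [hk]; push_cast; ring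
          rw [e]
          have k2 : (k : ℝ) * P ≤ ((a + m' - 2 - (c - m') : ℕ) : ℝ) * P := by
            refine mul_le_mul_of_nonneg_right ?_ hP0
            exact_mod_cast (by omega : k ≤ a + m' - 2 - (c - m'))
          linarith
      have a2 := mul_le_mul_of_nonneg_left a1 hA.le
      linarith
  · -- I4
    rcases hP1a with hh | ⟨x, hx1, hx2, hx⟩
    · left; rw [hh]
    · right
      have := D.near_Phi hx1 hx2
      rw [hx] at this
      exact this
  · -- I5
    have hb : 0 ≤ (1 - p) * p ^ c * (((a : ℝ) + m' - 1) * M) + Zc p c m' * s + Kc p c m' * Mn := by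
      rw [hYr2]
      positivity
    rcases hPa with hh | ⟨x, hx1, hx2, hx⟩
    · left; rw [hh]; exact hP10
    rcases le_or_gt x ((c - m' : ℕ) + 1) with hxz | hxz
    · left
      have := hP1 x hx1 hxz
      linarith
    · right
      obtain ⟨y, hy⟩ : ∃ y : ℕ, x = ((c - m' : ℕ) : ℤ) + 1 + y :=
        ⟨(x - ((c - m' : ℕ) : ℤ) - 1).toNat, by omega⟩
      have k := D.far_lo (y := y) (by omega)
      rw [← hy, hx] at k
      refine k.trans ?_
      have hg := h.g_pos (y : ℤ) (by omega)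
      have k1 : 0 ≤ psi p c * g (y : ℤ) := mul_nonneg hpc hg.le
      have k2 : (y : ℝ) * M ≤ ((a : ℝ) + m' - 1) * M := by
        rw [hYr2]
        refine mul_le_mul_of_nonneg_right ?_ hM0
        exact_mod_cast (by omega : y ≤ a + m' - 1)
      have k3 := mul_le_mul_of_nonneg_left k2 hA.le
      linarith

namespace Dat

variable {p : ℝ} {a m c m' : ℕ} {g f : ℤ → ℝ} {s th M P P1 Mn Pn : ℝ}

/-- the condition of the reduction to `X = x + z + 1` -/
theorem step_ok (D : Dat p a m c m' g f s th M P P1 Mn Pn) (hG : 0 < 1 - ((a : ℝ) - m) * s)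
    {p2 : ℝ} (hp0 : 0 ≤ p2)
    (hp1 : -psi p c * (1 - ((a : ℝ) - m - ((c - m' : ℕ) : ℝ) - 1) * s)
      + (1 - p) * p ^ c * (((a : ℝ) - m - ((c - m' : ℕ) : ℝ) - 1) * M)
      + Zc p c m' * s + Kc p c m' * Mn ≤ p2)
    (hp2 : p2 ≤ 1 - ((a : ℝ) - m) * s)
    (hp3 : ((((c - m' : ℕ) : ℝ) + 1) * P1 + ((a : ℝ) - m - ((c - m' : ℕ) : ℝ) - 1) * p2) * s
      ≤ (1 - ((a : ℝ) - m) * s) * (1 - ((a : ℝ) - m) * s - p2))
    {t : ℤ} (ht1 : ((c - m' : ℕ) : ℤ) + 2 ≤ t) (ht2 : t ≤ a - m) :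
    -dd f t * g (t - 1) + f (t - 1) * dd g t ≤ g (t - 1) * g t := by
  have hw := D.hw
  have hca := D.hca
  have h2 := D.h2
  have h0 := D.h0
  have h1 := D.h1
  have hq : 0 < 1 - p := by linarith
  have hA : 0 < (1 - p) * p ^ c := by positivity
  have hpc := psi_nonneg h0 D.hl
  have hs0 := D.s0
  have hym : ((a : ℝ) - m - ((c - m' : ℕ) : ℝ) - 1) = ((a - m - (c - m') - 1 : ℕ) : ℝ) := by
    have hN : ((a - m - (c - m') - 1 : ℕ) : ℤ) = (a : ℤ) - m - ((c - m' : ℕ) : ℤ) - 1 := by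
      omega
    exact_mod_cast hN.symm
  have ham : ((a : ℝ) - m) = ((a - m : ℕ) : ℝ) := by rw [Nat.cast_sub (by omega)]
  rw [hym] at hp1 hp3
  set ym : ℕ := a - m - (c - m') - 1 with hymd
  -- zone II bound
  have hfar : ∀ y : ℕ, y ≤ ym → -dd f (((c - m' : ℕ) : ℤ) + 1 + y) ≤ p2 := by
    intro y hy
    refine le_trans ?_ hp1
    have k := D.far_lo (y := y) (by omega)
    refine k.trans ?_
    have hy' : (y : ℝ) ≤ ym := by exact_mod_cast hy
    have hg := D.sys.g_ge D.hs (n := y) (by omega)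
    have k1 : 1 - (ym : ℝ) * s ≤ g (y : ℤ) := by
      have := mul_le_mul_of_nonneg_right hy' hs0
      linarith
    have k2 := mul_le_mul_of_nonneg_left k1 hpc
    have k3 := mul_le_mul_of_nonneg_left (mul_le_mul_of_nonneg_right hy' D.M0) hA.le
    linarith
  obtain ⟨y, hy⟩ : ∃ y : ℕ, t = ((c - m' : ℕ) : ℤ) + 1 + ((y + 1 : ℕ) : ℤ) :=
    ⟨(t - ((c - m' : ℕ) : ℤ) - 2).toNat, by omega⟩
  have hyy : y + 1 ≤ ym := by omega
  have e1 : -dd f t ≤ p2 := by rw [hy]; exact hfar (y + 1) hyy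
  have e2 : f (t - 1) ≤ (((c - m' : ℕ) : ℝ) + 1) * P1 + ym * p2 := by
    have k1 := D.f_le (n := c - m' + 1) le_rfl
    have k2 := sub_ge_mul (g := f) (s := -p2) (u := ((c - m' : ℕ) : ℤ) + 1) (n := y)
      (fun x hx1 hx2 => by
        obtain ⟨i, hi⟩ : ∃ i : ℕ, x = ((c - m' : ℕ) : ℤ) + 1 + i :=
          ⟨(x - ((c - m' : ℕ) : ℤ) - 1).toNat, by omega⟩
        have := hfar i (by omega)
        rw [hi]
        linarith)
    have k3 : t - 1 = ((c - m' : ℕ) : ℤ) + 1 + y := by rw [hy]; push_cast; ring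
    rw [k3]
    have k4 : (y : ℝ) * p2 ≤ ym * p2 := by
      refine mul_le_mul_of_nonneg_right ?_ hp0
      exact_mod_cast (by omega : y ≤ ym)
    push_cast at k1
    linarith
  have e3 : dd g t ≤ s := D.hs t (by omega) (by omega)
  have e4 : 0 ≤ dd g t := D.sys.mono t (by omega)
  have e5 : 1 - ((a : ℝ) - m) * s ≤ g t := by
    have k1 := D.sys.g_anti (x := t) (y := ((a - m : ℕ) : ℤ)) (by omega) (by omega)
    have k2 := D.sys.g_ge D.hs (n := a - m) (by omega)
    rw [ham]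
    linarith
  have e6 : g t ≤ g (t - 1) := D.sys.g_anti (by omega) (by omega)
  have e7 : 0 ≤ (((c - m' : ℕ) : ℝ) + 1) * P1 + ym * p2 := by
    have := D.P10
    positivity
  have b1 : -dd f t * g (t - 1) ≤ p2 * g (t - 1) :=
    mul_le_mul_of_nonneg_right e1 (by linarith)
  have b2 : f (t - 1) * dd g t ≤ ((((c - m' : ℕ) : ℝ) + 1) * P1 + ym * p2) * s := by
    calc f (t - 1) * dd g t ≤ ((((c - m' : ℕ) : ℝ) + 1) * P1 + ym * p2) * dd g t :=
          mul_le_mul_of_nonneg_right e2 e4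
      _ ≤ _ := mul_le_mul_of_nonneg_left e3 e7
  have b3 : (1 - ((a : ℝ) - m) * s) * (1 - ((a : ℝ) - m) * s - p2) ≤ g (t - 1) * (g t - p2) :=
    mul_le_mul (by linarith) (by linarith) (by linarith) (by linarith)
  linarith

end Dat

end Coin
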