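import Pool.Agent.Lib.Coin.IvBox

/-!
# Coin race, one-tail window, `c q ≤ p`: the kernel check (functions on natural numbers)
-/

namespace Coin.IB

/-- coefficients (upper bounds, except `ps1`) -/
structure Co where
  LE : ℕ
  ze : ℕ
  zz : ℕ
  zk : ℕ
  c2 : ℕ
  K : ℕ
  MP : ℕ
  ps1 : ℕ
  psS : ℕ
  dLS : ℕ
  JS : ℕ
  tJS : ℕ
  ZS : ℕ
  cM : ℕ
  cM2 : ℕ
  e1 : ℕ
  e2 : ℕ

def apN (c : Co) (M : ℕ) : ℕ := c.psS + mU c.LE M
def amN (c : Co) (P : ℕ) : ℕ := c.dLS + mU c.LE P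
def beN (c : Co) (M P : ℕ) : ℕ := c.JS + mU c.MP (M + P)

def fMn (c : Co) (M P Pn : ℕ) : ℕ := M + mU c.c2 (amN c P) + c.tJS + mU c.MP (Pn + M)
def fPn (c : Co) (M P Mn : ℕ) : ℕ := P + mU c.c2 (apN c M) + c.tJS + mU c.MP (Mn + P)
def fP1 (c : Co) (M P P1 Mn : ℕ) : ℕ :=
  mU c.LE (mU c.ze P1 + mU c.zz (apN c M) + mU c.ze (beN c M P)) + c.ZS + mU c.K Mn
def fP (c : Co) (M Mn : ℕ) : ℕ := mU c.LE (mU c.e2 M) + c.ZS + mU c.K Mn
def fM1 (c : Co) (M P Pn : ℕ) : ℕ :=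
  c.cM + mU c.LE (mU c.ze M + mU c.zz (amN c P) + mU c.ze (beN c M P)) + mU c.K Pn
def fM2 (c : Co) (P P1 Pn : ℕ) : ℕ :=
  c.cM2 + mU c.LE (mU c.zk P1 + mU c.e1 P) + mU c.K Pn

/-- `n` Gauss-Seidel steps from above, then the test `t` -/
def run (c : Co) (t : ℕ → ℕ → ℕ → ℕ → ℕ → Bool) : ℕ → ℕ → ℕ → ℕ → ℕ → ℕ → Bool
  | 0, M, P, P1, Mn, Pn => t M P P1 Mn Pn
  | n + 1, M, P, P1, Mn, Pn =>
    let Mn' := fMn c M P Pn
    let Pn' := fPn c M P Mn'
    let P1' := fP1 c M P P1 Mn' - c.ps1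
    let P' := max P1' (fP c M Mn')
    let M' := max (fM1 c M P' Pn') (fM2 c P' P1' Pn')
    run c t n M' P' P1' Mn' Pn'

def coarse (c : Co) : Bool :=
  Nat.blt (fMn c 3000000 3000000 9000000) 9000000
  && (Nat.blt (fPn c 3000000 3000000 9000000) 9000000
  && (Nat.blt (fP1 c 3000000 3000000 2990000 9000000) 2990000
  && (Nat.blt (fP c 3000000 9000000) 3000000
  && (Nat.blt (fM1 c 3000000 3000000 9000000) 3000000
  && Nat.blt (fM2 c 3000000 2990000 9000000) 3000000))))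

def finL (c : Co) (S th KL T E1 E2 dh m2 k1 k2 rm1 ze1 M P P1 Mn Pn : ℕ) : Bool :=
  let KM := mU c.K Mn
  let G := 1000000 - mU (1000000 + dh - rm1) S
  let ym := (dh + m2) - (rm1 + k1)
  let ap := apN c M
  let be := beN c M P
  let p2 := (mU c.LE (mU ym M) + c.ZS + KM) - mL c.ps1 (1000000 - mU ym S)
  let G1 := 1000000 - mU dh S
  let G2 := 1000000 - mU (dh + c.zk) S
  let H := E2 + dU (mU (mU E2 c.zk + mU th KL) S) G1
  let ratio := dU (1000000 + H) G2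
  let zk1 := ze1 + k1
  let inp := c.ZS + KM
  let pos := mU c.zk (inp - c.ps1) + mU c.LE (hf (mU (P1 + be) c.zz) 2
    + hf (mU ap (mU c.zz c.ze)) 3) + hf (mU ap (mU dh (dh + k2))) 2
  let neg := mL zk1 (c.ps1 - inp)
  let Php := mU c.LE (mU c.ze P1 + mU c.zz ap + mU c.ze be) + inp
  let rp := mU E2 (mU c.zz ap + mU c.ze be) + mU T S + mU KL Mn
    + mU E2 (mU c.ze (Php - c.ps1))
  let rn := mL E1 (mL (zk1 - dh) (c.ps1 - Php))
  let cost := mU ratio (pos - neg) + dU (rp - rn) G1 + mU (m2 - k1) H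
    + mU (mU dh P1) (ratio - 1000000)
  let gain := (neg - pos) + (rn - rp)
  Nat.blt 0 G && (Nat.ble p2 G && (Nat.ble (mU (mU c.zk P1 + mU ym p2) S) (mL G (G - p2))
  && (Nat.blt 0 G1 && (Nat.blt 0 G2 && Nat.blt cost (zk1 + gain)))))

def chk (L1 L2 k1 k2 m1 m2 r1 r2 : ℕ) : Bool :=
  let q1 := mL L1 k1
  let q2 := mU L2 k2
  Nat.blt 1000000 (L1 + q1) ||
  (let dh := hf (mU m2 (1000000 - r1) - k1) 2
   Nat.blt dh k1 ||
   (let e1 := mL (mL L1 L1) k1 / 2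
    let e2a := mU (mU L2 L2) k2
    let e2 := hf e2a 2 + hf (4 * mU (mU e2a L2) k2) 9
    let Y1 := L1 + e1
    let Y2 := L2 + e2
    let E1 := eL Y2
    let E2 := eU Y1
    let x1 := mL m1 Y1
    let x2 := mU m2 Y2
    let a1 := eU x1
    let X1 := 1000000000000 / a1
    let b1 := eL x2
    let X2 := (1000000000000 + (b1 - 1)) / b1
    let kk1 := (X1 - (1000000 + x1)) + mL m1 e1
    let kk2 := (X2 - (1000000 + x2)) + mU m2 e2
    let K := mU E2 kk2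
    let ze1 := 1000000 - m2
    let ze2 := 1000000 - m1
    let LE := min (mU L2 E2) (mU L2 (eU (L2 + e1)))
    let ps1 := mL E1 (1000000 - (q2 + L2))
    let ps2 := mU E2 (1000000 - (q1 + L1))
    let A := min (1000000 - (q1 + L1) + mU L2 dh) (1000000 - (q1 + mL L1 (1000000 - dh)))
    let nu := mU r2 m2
    let X2m := X2 - 1000000
    let J := mU E2 (mU nu A + hf (mU (mU L2 nu) (nu + k2)) 2
      + mU (mU (mU X2m r2) (nu + k2)) (hf A 2 + hf (mU L2 (2 * nu + k2)) 6))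
    let MP := mU E2 (mU X2m r2)
    let th := dU ((mU (1000000 - k1) LE + K + mU (2000000 - k1) LE + MP) - 1000000) (1000000 - K)
    let den := 1000000 - (mU LE ze2 + mU th K)
    let S := dU LE den
    let ZS := mU (mU E2 (mU (mU L2 m2) (m2 + k2) - mL ze1 kk1)) S
    let T := mU E2 (hf (mU m2 (m2 + k2)) 2 + hf (mU (mU X2m (m2 + k2)) (2 * m2 + k2)) 6)
    let KL := mU E2 (hf (mU (m2 + k2) X2m) 2)
    let JS := mU J S
    let thZS := mU th ZS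
    let c : Co := ⟨LE, ze2, mU ze2 ze2, ze2 + k2, 2000000 - k1, K, MP, ps1, mU ps2 S,
      mU dh (mU LE S), JS, mU (1000000 + th) JS, ZS, ps2 + mU ps2 (mU ze2 S) + thZS, ps2 + thZS,
      (dh + 2 * m2) - 2 * k1, (1000000 + dh + m2) - k1⟩
    Nat.ble L2 1000000 && (Nat.ble Y2 32000000 && (Nat.ble x2 64000000 && (Nat.blt 0 b1 &&
    (Nat.blt 0 (1000000 - K) && (Nat.blt 0 den && (coarse c &&
    run c (finL c S th KL T E1 E2 dh m2 k1 k2 (mL r1 m1) ze1) 10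
      3000000 3000000 2990000 9000000 9000000))))))))

def chkL : List (ℕ × ℕ) → Bool
  | [l, k, m, r] => chk l.1 l.2 k.1 k.2 m.1 m.2 r.1 r.2
  | _ => false

end Coin.IB
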