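import Pool.Agent.Lib.Coin.WinLoNum

/-!
# Coin race, one-tail window, `c q ≤ p`: soundness of the final test
-/

namespace Coin.IB

theorem Up.half2 {x : ℝ} {a : ℕ} (h : Up x a) : Up (x / 2) (hf a 2) := by
  have := h.half (n := 2) (by norm_num)
  rwa [Nat.cast_ofNat] at this

theorem Up.half3 {x : ℝ} {a : ℕ} (h : Up x a) : Up (x / 3) (hf a 3) := by
  have := h.half (n := 3) (by norm_num)
  rwa [Nat.cast_ofNat] at this

theorem Up.half6 {x : ℝ} {a : ℕ} (h : Up x a) : Up (x / 6) (hf a 6) := by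
  have := h.half (n := 6) (by norm_num)
  rwa [Nat.cast_ofNat] at this

theorem Up.half9 {x : ℝ} {a : ℕ} (h : Up x a) : Up (x / 9) (hf a 9) := by
  have := h.half (n := 9) (by norm_num)
  rwa [Nat.cast_ofNat] at this

theorem max_sub_max (x : ℝ) : max 0 x - max 0 (-x) = x := by
  rcases le_total 0 x with h | h
  · rw [max_eq_right h, max_eq_left (by linarith)]; ring
  · rw [max_eq_left h, max_eq_right (by linarith)]; ring

theorem max_scale {ρ x : ℝ} (hρ : 1 ≤ ρ) : max x (ρ * x) = ρ * max 0 x - max 0 (-x) := by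
  rcases le_total 0 x with h | h
  · rw [max_eq_right (by nlinarith), max_eq_right h, max_eq_left (by linarith)]; ring
  · rw [max_eq_left (by nlinarith), max_eq_left h, max_eq_right (by linarith)]; ring

theorem max_two {u v x : ℝ} (hv : 0 ≤ v) (huv : v ≤ u) :
    max (u * x) (v * x) = u * max 0 x - v * max 0 (-x) := by
  rcases le_total 0 x with h | h
  · rw [max_eq_left (by nlinarith), max_eq_right h, max_eq_left (by linarith)]; ring
  · rw [max_eq_right (by nlinarith), max_eq_left h, max_eq_right (by linarith)]; ring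

variable {c : Co} {nM nP nP1 nMn nPn : ℕ} {L k mu de E ps K MP J Z th S M P P1 Mn Pn : ℝ}

theorem fin_ok {r T KL : ℝ} {nS nth nKL nT nE1 nE2 ndh m2 k1 k2 rm1 ze1 : ℕ}
    (C : CoOK c L k mu de E ps K MP J Z th S)
    (k0 : 0 ≤ k) (hk1 : Lw k1 k) (hk2 : Up k k2)
    (mu0 : 0 ≤ mu) (mu1 : mu ≤ 1 / 2) (hmu : Up mu m2) (hze1 : Lw ze1 (1 - mu))
    (r1 : r ≤ 1) (hrm : Lw rm1 (r * mu))
    (hkde : k ≤ de) (hde1 : de ≤ 1 / 4) (hde : Up de ndh)
    (E0 : 0 ≤ E) (hE1 : Lw nE1 E) (hE2 : Up E nE2)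
    (hth : Up th nth) (KL0 : 0 ≤ KL) (hKL : Up KL nKL) (T0 : 0 ≤ T) (hT : Up T nT)
    (hS : Up S nS)
    (hM0 : 0 ≤ M) (hP0 : 0 ≤ P) (hP10 : 0 ≤ P1) (hMn0 : 0 ≤ Mn)
    (hM : Up M nM) (hP : Up P nP) (hP1 : Up P1 nP1) (hMn : Up Mn nMn)
    (h : finL c nS nth nKL nT nE1 nE2 ndh m2 k1 k2 rm1 ze1 nM nP nP1 nMn nPn = true) :
    LoSFin L k mu r de E ps K MP J Z T KL th S M P P1 Mn := by
  have hde0 : 0 ≤ de := k0.trans hkde
  have S0 := C.S0
  unfold finL at h
  extract_lets KM G ym ap be p2 G1 G2 H ratio zk1 inp pos neg Php rp rn cost gain at h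
  rw [Bool.and_eq_true, Bool.and_eq_true, Bool.and_eq_true, Bool.and_eq_true,
    Bool.and_eq_true, Nat.blt_eq, Nat.ble_eq, Nat.ble_eq, Nat.blt_eq, Nat.blt_eq,
    Nat.blt_eq] at h
  obtain ⟨g1, g2, g3, g4, g5, g6⟩ := h
  have hKM : Up (K * Mn) KM := Up.mul hMn0 C.K hMn
  have hG : Lw G (1 - (1 + de - r * mu) * S) :=
    Lw.one.sub' (Up.mul S0 ((Up.one.add hde).sub hrm) hS) g1
  have hGpos := hG.pos g1
  have hym : Up (de - r * mu + mu - k) ym := by
    refine Up.le_trans (le_of_eq ?_) ((hde.add hmu).sub (hrm.add hk1))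
    ring
  have hrmu : r * mu ≤ mu := by nlinarith
  have hy0 : 0 ≤ de - r * mu + mu - k := by linarith
  set y := de - r * mu + mu - k with hy
  set Gr := 1 - (1 + de - r * mu) * S with hGr
  have hyS : 0 ≤ 1 - y * S := by
    have : y * S ≤ (1 + de - r * mu) * S := mul_le_mul_of_nonneg_right (by linarith) S0
    linarith
  have hw1 : Lw (1000000 - mU ym nS) (1 - y * S) := Lw.one.sub (Up.mul S0 hym hS) hyS
  have hp2 : Up (L * E * (y * M) + Z * S + K * Mn - ps * (1 - y * S)) p2 :=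
    (((Up.mul (mul_nonneg hy0 hM0) C.LE (Up.mul hM0 hym hM)).add C.ZS).add hKM).sub
      (C.ps1.mul hw1)
  have hp2r : Up ((p2 : ℝ) / 1000000) p2 := by
    unfold Up
    rw [div_mul_cancel₀ _ (by norm_num)]
  have hp20 : 0 ≤ (p2 : ℝ) / 1000000 := by positivity
  have e1 : L * E * (y * M) + Z * S + K * Mn - ps * (1 - y * S) ≤ (p2 : ℝ) / 1000000 := by
    rw [le_div_iff₀ (by norm_num)]
    exact hp2
  have e2 : (p2 : ℝ) / 1000000 ≤ Gr := Lw.le_of hp2r hG g2
  have e3 : ((1 - mu + k) * P1 + y * ((p2 : ℝ) / 1000000)) * S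
      ≤ Gr * (Gr - (p2 : ℝ) / 1000000) :=
    Lw.le_of (Up.mul S0 ((Up.mul hP10 C.zk hP1).add (Up.mul hp20 hym hp2r)) hS)
      (hG.mul (hG.sub hp2r (by linarith))) g3
  refine ⟨hGpos, ⟨(p2 : ℝ) / 1000000, hp20, by linarith, e2, e3⟩, ?_⟩
  have hG1 : Lw G1 (1 - de * S) := Lw.one.sub' (Up.mul S0 hde hS) g4
  have hG2 : Lw G2 (1 - (de + (1 - mu) + k) * S) := by
    have e : de + (1 - mu) + k = de + (1 - mu + k) := by ring
    rw [e]
    exact Lw.one.sub' (Up.mul S0 (hde.add C.zk) hS) g5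
  have hG1p := hG1.pos g4
  have hG2p := hG2.pos g5
  have hdeS : 0 ≤ de * S := mul_nonneg hde0 S0
  have hzkS : 0 ≤ (de + (1 - mu) + k) * S :=
    mul_nonneg (by have := C.ze0; linarith) S0
  -- `H`
  set Hr := sH k mu de E KL th S with hHr
  have eH : Hr = E + (E * (1 - mu + k) + th * KL) * S / (1 - de * S) := by
    rw [hHr]
    unfold sH
    field_simp
    ring
  have hnum : 0 ≤ (E * (1 - mu + k) + th * KL) * S :=
    mul_nonneg (add_nonneg (mul_nonneg E0 C.zk0) (mul_nonneg C.th0 KL0)) S0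
  have hH0 : 0 ≤ Hr := by
    rw [eH]
    have := div_nonneg hnum hG1p.le
    linarith
  have hH : Up Hr H := by
    rw [eH]
    exact hE2.add (Up.div (Up.mul S0 ((Up.mul C.zk0 hE2 C.zk).add (Up.mul KL0 hth hKL)) hS)
      hG1 g4)
  set G2r := 1 - (de + (1 - mu) + k) * S with hG2r
  set G1r := 1 - de * S with hG1r
  have hρ : Up ((1 + Hr) / G2r) ratio := Up.div (Up.one.add hH) hG2 g5
  have hρ1 : 1 ≤ (1 + Hr) / G2r := by
    rw [le_div_iff₀ hG2p]
    linarith
  set ρ := (1 + Hr) / G2r with hρd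
  have hzk1 : Lw zk1 (1 - mu + k) := hze1.add hk1
  have hinp : Up (Z * S + K * Mn) inp := C.ZS.add hKM
  have hap : Up (ps * S + L * E * M) ap := up_ap C hM0 hM
  have hbe : Up (J * S + MP * (M + P)) be := up_be C hM0 hP0 hM hP
  have hap0 := ap0 C hM0
  have hbe0 := be0 C hM0 hP0
  set apr := ps * S + L * E * M with hapr
  set ber := J * S + MP * (M + P) with hber
  have ze0 := C.ze0
  have zk0 := C.zk0
  have LE0 := C.LE0
  -- increments
  have hpos : Up ((1 - mu + k) * max 0 (Z * S + K * Mn - ps)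
      + L * E * ((P1 + ber) * (1 - mu) ^ 2 / 2 + apr * ((1 - mu) ^ 2 * (1 - mu)) / 3)
      + apr * (de * (de + k)) / 2) pos := by
    refine ((Up.mul (le_max_left _ _) C.zk (hinp.sub1 C.ps1)).add (Up.mul ?_ C.LE
      ((Up.mul (by positivity) (hP1.add hbe) C.zz).half2.add
        (Up.mul (by positivity) hap (Up.mul ze0 C.zz C.ze)).half3))).add
        (Up.mul (by positivity) hap (Up.mul (by positivity) hde (hde.add hk2))).half2
    positivity
  have hneg : Lw neg ((1 - mu + k) * max 0 (ps - (Z * S + K * Mn))) :=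
    hzk1.mul (C.ps1.sub1 hinp)
  set Posr := (1 - mu + k) * max 0 (Z * S + K * Mn - ps)
      + L * E * ((P1 + ber) * (1 - mu) ^ 2 / 2 + apr * ((1 - mu) ^ 2 * (1 - mu)) / 3)
      + apr * (de * (de + k)) / 2 with hPosr
  set Negr := (1 - mu + k) * max 0 (ps - (Z * S + K * Mn)) with hNegr
  have eInc : sInc L k mu de E ps K MP J Z S M P P1 Mn = Posr - Negr := by
    have e := max_sub_max (Z * S + K * Mn - ps)
    have e' : -(Z * S + K * Mn - ps) = ps - (Z * S + K * Mn) := by ring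
    rw [e'] at e
    unfold sInc
    rw [hPosr, hNegr]
    have e4 : (1 - mu + k) * max 0 (Z * S + K * Mn - ps)
        - (1 - mu + k) * max 0 (ps - (Z * S + K * Mn))
        = (1 - mu + k) * (Z * S + K * Mn - ps) := by rw [← mul_sub, e]
    linear_combination -e4
  -- `rem`
  have hphi := up_phi C hM0 hP0 hP10 hM hP hP1
  have hPhp : Up (L * E * ((1 - mu) * P1 + (1 - mu) ^ 2 * apr + (1 - mu) * ber)
      + (Z * S + K * Mn)) Php :=
    (Up.mul (phi0 C hM0 hP0 hP10) C.LE hphi).add hinp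
  set PhpR := L * E * ((1 - mu) * P1 + (1 - mu) ^ 2 * apr + (1 - mu) * ber)
      + (Z * S + K * Mn) with hPhpR
  have hrp : Up (E * ((1 - mu) ^ 2 * apr + (1 - mu) * ber) + T * S + KL * Mn
      + E * ((1 - mu) * max 0 (PhpR - ps))) rp :=
    (((Up.mul (by positivity) hE2 ((Up.mul hap0 C.zz hap).add (Up.mul hbe0 C.ze hbe))).add
      (Up.mul S0 hT hS)).add (Up.mul hMn0 hKL hMn)).add
      (Up.mul (mul_nonneg ze0 (le_max_left _ _)) hE2
        (Up.mul (le_max_left _ _) C.ze (hPhp.sub1 C.ps1)))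
  have hv0 : 0 ≤ 1 - mu + k - de := by linarith
  have hrn : Lw rn (E * ((1 - mu + k - de) * max 0 (ps - PhpR))) :=
    hE1.mul ((hzk1.sub hde hv0).mul (C.ps1.sub1 hPhp))
  set RPr := E * ((1 - mu) ^ 2 * apr + (1 - mu) * ber) + T * S + KL * Mn
      + E * ((1 - mu) * max 0 (PhpR - ps)) with hRPr
  set RNr := E * ((1 - mu + k - de) * max 0 (ps - PhpR)) with hRNr
  have eRem : sRem L k mu de E ps K MP J Z T KL S M P P1 Mn = RPr - RNr := by
    have ePhi : sPhi L mu E ps K MP J Z S M P P1 Mn = PhpR - ps := by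
      unfold sPhi
      rw [hPhpR, hapr, hber]
      ring
    unfold sRem
    rw [ePhi, max_two hv0 (by linarith : 1 - mu + k - de ≤ 1 - mu)]
    have e' : -(PhpR - ps) = ps - PhpR := by ring
    rw [e', hRPr, hRNr]
    ring
  -- the final comparison
  have hcost := (((Up.mul (le_max_left _ _) hρ (hpos.sub1 hneg)).add
    (Up.div (hrp.sub1 hrn) hG1 g4)).add (Up.mul hH0 (hmu.sub hk1) hH)).add
    (Up.mul (by linarith : (0 : ℝ) ≤ ρ - 1) (Up.mul hP10 hde hP1) (hρ.sub Lw.one))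
  have hgain := hzk1.add ((hneg.sub1 hpos).add (hrn.sub1 hrp))
  have hfin := Lw.lt_of hcost hgain g6
  unfold sFin
  rw [← hHr, ← hG2r, ← hG1r, eInc, eRem]
  have m1 : (1 + Hr) * (Posr - Negr) / G2r = ρ * (Posr - Negr) := by
    rw [hρd]; ring
  have m2' : (RPr - RNr) / G1r = 1 / G1r * (RPr - RNr) := by ring
  have hG1le : 1 ≤ 1 / G1r := by
    rw [le_div_iff₀ hG1p]
    linarith
  rw [m1, m2', max_scale hρ1, max_scale hG1le, ← hρd]
  have n1 : -(Posr - Negr) = Negr - Posr := by ring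
  have n2 : -(RPr - RNr) = RNr - RPr := by ring
  rw [n1, n2]
  have n3 : 1 / G1r * max 0 (RPr - RNr) = max 0 (RPr - RNr) / G1r := by ring
  rw [n3]
  linarith

end Coin.IB
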