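import Pool.Agent.Lib.Coin.WinLoS
import Pool.Agent.Lib.Coin.WinLoChk
import Pool.Agent.Lib.Coin.WinElim

/-!
# Coin race, one-tail window, `c q ≤ p`: soundness of the kernel check
-/

namespace Coin.IB

/-- the coefficients are bounded by `c` -/
structure CoOK (c : Co) (L k mu de E ps K MP J Z th S : ℝ) : Prop where
  LE0 : 0 ≤ L * E
  LE : Up (L * E) c.LE
  ze0 : 0 ≤ 1 - mu
  ze : Up (1 - mu) c.ze
  zz : Up ((1 - mu) ^ 2) c.zz
  zk0 : 0 ≤ 1 - mu + k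
  zk : Up (1 - mu + k) c.zk
  c20 : 0 ≤ 2 - k
  c2 : Up (2 - k) c.c2
  K0 : 0 ≤ K
  K : Up K c.K
  MP0 : 0 ≤ MP
  MP : Up MP c.MP
  ps0 : 0 ≤ ps
  ps1 : Lw c.ps1 ps
  psS0 : 0 ≤ ps * S
  psS : Up (ps * S) c.psS
  dLS0 : 0 ≤ de * (L * E * S)
  dLS : Up (de * (L * E * S)) c.dLS
  JS0 : 0 ≤ J * S
  JS : Up (J * S) c.JS
  th0 : 0 ≤ th
  tJS : Up ((1 + th) * (J * S)) c.tJS
  ZS0 : 0 ≤ Z * S
  ZS : Up (Z * S) c.ZS
  cM : Up (ps + ps * ((1 - mu) * S) + th * (Z * S)) c.cM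
  cM2 : Up (ps + th * (Z * S)) c.cM2
  e10 : 0 ≤ de + 2 * mu - 2 * k
  e1 : Up (de + 2 * mu - 2 * k) c.e1
  e20 : 0 ≤ 1 + de + mu - k
  e2 : Up (1 + de + mu - k) c.e2
  S0 : 0 ≤ S

section

variable {c : Co} {nM nP nP1 nMn nPn : ℕ} {L k mu de E ps K MP J Z th S M P P1 Mn Pn : ℝ}

theorem up_ap (C : CoOK c L k mu de E ps K MP J Z th S) (hM0 : 0 ≤ M) (hM : Up M nM) :
    Up (ps * S + L * E * M) (apN c nM) := C.psS.add (Up.mul hM0 C.LE hM)

theorem up_am (C : CoOK c L k mu de E ps K MP J Z th S) (hP0 : 0 ≤ P) (hP : Up P nP) :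
    Up (de * (L * E * S) + L * E * P) (amN c nP) := C.dLS.add (Up.mul hP0 C.LE hP)

theorem up_be (C : CoOK c L k mu de E ps K MP J Z th S) (hM0 : 0 ≤ M) (hP0 : 0 ≤ P)
    (hM : Up M nM) (hP : Up P nP) : Up (J * S + MP * (M + P)) (beN c nM nP) :=
  C.JS.add (Up.mul (add_nonneg hM0 hP0) C.MP (hM.add hP))

theorem ap0 (C : CoOK c L k mu de E ps K MP J Z th S) (hM0 : 0 ≤ M) :
    0 ≤ ps * S + L * E * M := add_nonneg C.psS0 (mul_nonneg C.LE0 hM0)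

theorem am0 (C : CoOK c L k mu de E ps K MP J Z th S) (hP0 : 0 ≤ P) :
    0 ≤ de * (L * E * S) + L * E * P := add_nonneg C.dLS0 (mul_nonneg C.LE0 hP0)

theorem be0 (C : CoOK c L k mu de E ps K MP J Z th S) (hM0 : 0 ≤ M) (hP0 : 0 ≤ P) :
    0 ≤ J * S + MP * (M + P) :=
  add_nonneg C.JS0 (mul_nonneg C.MP0 (add_nonneg hM0 hP0))

theorem up_Mn (C : CoOK c L k mu de E ps K MP J Z th S) (hM0 : 0 ≤ M) (hP0 : 0 ≤ P)
    (hPn0 : 0 ≤ Pn) (hM : Up M nM) (hP : Up P nP) (hPn : Up Pn nPn) :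
    Up (M + (2 - k) * (de * (L * E * S) + L * E * P) + (1 + th) * (J * S) + MP * (Pn + M))
      (fMn c nM nP nPn) :=
  ((hM.add (Up.mul (am0 C hP0) C.c2 (up_am C hP0 hP))).add C.tJS).add
    (Up.mul (add_nonneg hPn0 hM0) C.MP (hPn.add hM))

theorem up_Pn (C : CoOK c L k mu de E ps K MP J Z th S) (hM0 : 0 ≤ M) (hP0 : 0 ≤ P)
    (hMn0 : 0 ≤ Mn) (hM : Up M nM) (hP : Up P nP) (hMn : Up Mn nMn) :
    Up (P + (2 - k) * (ps * S + L * E * M) + (1 + th) * (J * S) + MP * (Mn + P))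
      (fPn c nM nP nMn) :=
  ((hP.add (Up.mul (ap0 C hM0) C.c2 (up_ap C hM0 hM))).add C.tJS).add
    (Up.mul (add_nonneg hMn0 hP0) C.MP (hMn.add hP))

theorem phi0 (C : CoOK c L k mu de E ps K MP J Z th S) (hM0 : 0 ≤ M) (hP0 : 0 ≤ P)
    (hP10 : 0 ≤ P1) : 0 ≤ (1 - mu) * P1 + (1 - mu) ^ 2 * (ps * S + L * E * M)
      + (1 - mu) * (J * S + MP * (M + P)) := by
  have h1 := mul_nonneg C.ze0 hP10
  have h2 := mul_nonneg (pow_nonneg C.ze0 2) (ap0 C hM0)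
  have h3 := mul_nonneg C.ze0 (be0 C hM0 hP0)
  linarith

theorem up_phi (C : CoOK c L k mu de E ps K MP J Z th S) (hM0 : 0 ≤ M) (hP0 : 0 ≤ P)
    (hP10 : 0 ≤ P1) (hM : Up M nM) (hP : Up P nP) (hP1 : Up P1 nP1) :
    Up ((1 - mu) * P1 + (1 - mu) ^ 2 * (ps * S + L * E * M)
      + (1 - mu) * (J * S + MP * (M + P)))
      (mU c.ze nP1 + mU c.zz (apN c nM) + mU c.ze (beN c nM nP)) :=
  ((Up.mul hP10 C.ze hP1).add (Up.mul (ap0 C hM0) C.zz (up_ap C hM0 hM))).add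
    (Up.mul (be0 C hM0 hP0) C.ze (up_be C hM0 hP0 hM hP))

theorem up_P1 (C : CoOK c L k mu de E ps K MP J Z th S) (hM0 : 0 ≤ M) (hP0 : 0 ≤ P)
    (hP10 : 0 ≤ P1) (hMn0 : 0 ≤ Mn) (hM : Up M nM) (hP : Up P nP) (hP1 : Up P1 nP1)
    (hMn : Up Mn nMn) :
    Up (L * E * ((1 - mu) * P1 + (1 - mu) ^ 2 * (ps * S + L * E * M)
      + (1 - mu) * (J * S + MP * (M + P))) + Z * S + K * Mn) (fP1 c nM nP nP1 nMn) :=
  ((Up.mul (phi0 C hM0 hP0 hP10) C.LE (up_phi C hM0 hP0 hP10 hM hP hP1)).add C.ZS).add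
    (Up.mul hMn0 C.K hMn)

theorem up_P (C : CoOK c L k mu de E ps K MP J Z th S) (hM0 : 0 ≤ M) (hMn0 : 0 ≤ Mn)
    (hM : Up M nM) (hMn : Up Mn nMn) :
    Up (L * E * ((1 + de + mu - k) * M) + Z * S + K * Mn) (fP c nM nMn) :=
  ((Up.mul (mul_nonneg C.e20 hM0) C.LE (Up.mul hM0 C.e2 hM)).add C.ZS).add
    (Up.mul hMn0 C.K hMn)

theorem up_M1 (C : CoOK c L k mu de E ps K MP J Z th S) (hM0 : 0 ≤ M) (hP0 : 0 ≤ P)
    (hPn0 : 0 ≤ Pn) (hM : Up M nM) (hP : Up P nP) (hPn : Up Pn nPn) :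
    Up (ps + ps * ((1 - mu) * S) + L * E * ((1 - mu) * M
      + (1 - mu) ^ 2 * (de * (L * E * S) + L * E * P) + (1 - mu) * (J * S + MP * (M + P)))
      + th * (Z * S) + K * Pn) (fM1 c nM nP nPn) := by
  have hin : 0 ≤ (1 - mu) * M + (1 - mu) ^ 2 * (de * (L * E * S) + L * E * P)
      + (1 - mu) * (J * S + MP * (M + P)) := by
    have h1 := mul_nonneg C.ze0 hM0
    have h2 := mul_nonneg (pow_nonneg C.ze0 2) (am0 C hP0)
    have h3 := mul_nonneg C.ze0 (be0 C hM0 hP0)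
    linarith
  have h := (C.cM.add (Up.mul hin C.LE (((Up.mul hM0 C.ze hM).add
    (Up.mul (am0 C hP0) C.zz (up_am C hP0 hP))).add
    (Up.mul (be0 C hM0 hP0) C.ze (up_be C hM0 hP0 hM hP))))).add (Up.mul hPn0 C.K hPn)
  unfold fM1
  refine Up.le_trans (le_of_eq ?_) h
  ring

theorem up_M2 (C : CoOK c L k mu de E ps K MP J Z th S) (hP0 : 0 ≤ P) (hP10 : 0 ≤ P1)
    (hPn0 : 0 ≤ Pn) (hP : Up P nP) (hP1 : Up P1 nP1) (hPn : Up Pn nPn) :
    Up (ps + L * E * ((1 - mu + k) * P1 + (de + 2 * mu - 2 * k) * P) + th * (Z * S) + K * Pn)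
      (fM2 c nP nP1 nPn) := by
  have hin : 0 ≤ (1 - mu + k) * P1 + (de + 2 * mu - 2 * k) * P :=
    add_nonneg (mul_nonneg C.zk0 hP10) (mul_nonneg C.e10 hP0)
  have h := (C.cM2.add (Up.mul hin C.LE ((Up.mul hP10 C.zk hP1).add
    (Up.mul hP0 C.e1 hP)))).add (Up.mul hPn0 C.K hPn)
  unfold fM2
  refine Up.le_trans (le_of_eq ?_) h
  ring

/-- the iteration -/
theorem run_ok {t : ℕ → ℕ → ℕ → ℕ → ℕ → Bool} (C : CoOK c L k mu de E ps K MP J Z th S)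
    (U : LoSU L k mu de E ps K MP J Z th S M P P1 Mn Pn) (n : ℕ) (nM nP nP1 nMn nPn : ℕ)
    (hM : Up M nM) (hP : Up P nP) (hP1 : Up P1 nP1) (hMn : Up Mn nMn) (hPn : Up Pn nPn)
    (h : run c t n nM nP nP1 nMn nPn = true) :
    ∃ a1 a2 a3 a4 a5 : ℕ, Up M a1 ∧ Up P a2 ∧ Up P1 a3 ∧ Up Mn a4 ∧ Up Pn a5
      ∧ t a1 a2 a3 a4 a5 = true := by
  have hMn0 : 0 ≤ Mn := U.M0.trans U.MMn
  have hPn0 : 0 ≤ Pn := U.P0.trans U.PPn
  induction n generalizing nM nP nP1 nMn nPn with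
  | zero => exact ⟨nM, nP, nP1, nMn, nPn, hM, hP, hP1, hMn, hPn, h⟩
  | succ n ih =>
    unfold run at h
    extract_lets a4 a5 a3 a2 a1 at h
    have h4 : Up Mn a4 := Up.le_trans U.I1 (up_Mn C U.M0 U.P0 hPn0 hM hP hPn)
    have h5 : Up Pn a5 := Up.le_trans U.I2 (up_Pn C U.M0 U.P0 hMn0 hM hP h4)
    have h3 : Up P1 a3 := by
      refine Up.le_trans ?_ ((up_P1 C U.M0 U.P0 U.P10 hMn0 hM hP hP1 h4).sub1 C.ps1)
      rcases U.I4 with h6 | h6
      · exact h6.trans (le_max_left _ _)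
      · exact h6.trans (le_max_right _ _)
    have h2 : Up P a2 := by
      refine Up.le_trans ?_ (h3.max (up_P C U.M0 hMn0 hM h4))
      rcases U.I5 with h6 | h6
      · exact h6.trans (le_max_left _ _)
      · exact h6.trans (le_max_right _ _)
    have h1 : Up M a1 := by
      refine Up.le_trans ?_ ((up_M1 C U.M0 U.P0 hPn0 hM h2 h5).max
        (up_M2 C U.P0 U.P10 hPn0 h2 h3 h5))
      rcases U.I3 with h6 | h6
      · exact h6.trans (le_max_left _ _)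
      · exact h6.trans (le_max_right _ _)
    exact ih a1 a2 a3 a4 a5 h1 h2 h3 h4 h5 h

theorem blt_up {x : ℝ} {a b : ℕ} (h : Up x a) (hab : a < b) :
    x + 1 / 1000000 ≤ (b : ℝ) / 1000000 := by
  unfold Up at h
  have : (a : ℝ) + 1 ≤ b := by exact_mod_cast hab
  rw [le_div_iff₀ (by norm_num)]
  linarith

theorem up3 : Up 3 3000000 := by unfold Up; norm_num
theorem up29 : Up (299 / 100) 2990000 := by unfold Up; norm_num
theorem up9 : Up 9 9000000 := by unfold Up; norm_num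

/-- the coarse bounds -/
theorem coarse_ok (C : CoOK c L k mu de E ps K MP J Z th S)
    (U : LoSU L k mu de E ps K MP J Z th S M P P1 Mn Pn) (h : coarse c = true) :
    M ≤ 3 ∧ P ≤ 3 ∧ P1 ≤ 299 / 100 ∧ Mn ≤ 9 ∧ Pn ≤ 9 := by
  have hMn0 : 0 ≤ Mn := U.M0.trans U.MMn
  have hPn0 : 0 ≤ Pn := U.P0.trans U.PPn
  unfold coarse at h
  rw [Bool.and_eq_true, Bool.and_eq_true, Bool.and_eq_true, Bool.and_eq_true,
    Bool.and_eq_true, Nat.blt_eq, Nat.blt_eq, Nat.blt_eq, Nat.blt_eq, Nat.blt_eq, Nat.blt_eq] at h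
  obtain ⟨q1, q2, q3, q4, q5, q6⟩ := h
  have p3 : (0 : ℝ) ≤ 3 := by norm_num
  have p29 : (0 : ℝ) ≤ 299 / 100 := by norm_num
  have p9 : (0 : ℝ) ≤ 9 := by norm_num
  have b1 := blt_up (up_Mn C p3 p3 p9 up3 up3 up9) q1
  have b2 := blt_up (up_Pn C p3 p3 p9 up3 up3 up9) q2
  have b3 := blt_up (up_P1 C p3 p3 p29 p9 up3 up3 up29 up9) q3
  have b4 := blt_up (up_P C p3 p9 up3 up9) q4
  have b5 := blt_up (up_M1 C p3 p3 p9 up3 up3 up9) q5
  have b6 := blt_up (up_M2 C p3 p29 p9 up3 up29 up9) q6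
  have v3 : ((3000000 : ℕ) : ℝ) / 1000000 = 3 := by norm_num
  have v29 : ((2990000 : ℕ) : ℝ) / 1000000 = 299 / 100 := by norm_num
  have v9 : ((9000000 : ℕ) : ℝ) / 1000000 = 9 := by norm_num
  rw [v9] at b1 b2
  rw [v29] at b3
  rw [v3] at b4 b5 b6
  have c1 := C.LE0
  have c2 := C.ze0
  have c3 := C.K0
  have c4 := C.MP0
  have c5 := C.c20
  have c6 := C.zk0
  have c7 := C.e10
  have c8 := C.e20
  have c9 := C.psS0
  have c10 := C.dLS0
  have c11 := C.JS0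
  have c12 := C.ZS0
  have c13 := C.th0
  have c14 := C.ps0
  have c15 := C.S0
  have i1 := U.I1
  have i2 := U.I2
  generalize hLE : L * E = W at *
  generalize hJS : J * S = JS at *
  generalize hZS : Z * S = ZS at *
  generalize hpS : ps * S = pS at *
  generalize hdS : de * (W * S) = dS at *
  refine WN.elim5 (v1 := M) (v2 := P) (v3 := P1) (v4 := Mn) (v5 := Pn) (w1 := 3) (w2 := 3)
    (w3 := 299 / 100) (w4 := 9) (w5 := 9) (by norm_num) (by norm_num) (by norm_num) (by norm_num)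
    (by norm_num) ?_ ?_ ?_ ?_ ?_
  · rcases U.I3 with h5 | h5
    · rw [hLE, hJS, hZS, hdS] at h5
      refine Or.inr ⟨W * ((1 - mu) + (1 - mu) * MP),
          W * ((1 - mu) ^ 2 * W + (1 - mu) * MP), 0, 0, K,
          ps + ps * ((1 - mu) * S) + th * ZS + W * ((1 - mu) ^ 2 * dS
            + (1 - mu) * JS) + 1 / 1000000, by positivity, by positivity, le_rfl, le_rfl, c3,
          by positivity, ?_, ?_⟩
      · linarith
      · linarith
    · rw [hLE, hZS] at h5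
      refine Or.inr ⟨0, W * (de + 2 * mu - 2 * k), W * (1 - mu + k), 0, K,
          ps + th * ZS + 1 / 1000000, le_rfl, by positivity, by positivity, le_rfl, c3,
          by positivity, ?_, ?_⟩
      · linarith
      · linarith
  · rcases U.I5 with h5 | h5
    · refine Or.inr ⟨0, 0, 1, 0, 0, 1 / 1000000, le_rfl, le_rfl, by norm_num, le_rfl, le_rfl,
          by norm_num, ?_, ?_⟩
      · linarith
      · norm_num
    · rw [hLE, hZS] at h5
      refine Or.inr ⟨W * (1 + de + mu - k), 0, 0, K, 0, ZS + 1 / 1000000, by positivity,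
          le_rfl, le_rfl, c3, le_rfl, by positivity, ?_, ?_⟩
      · linarith
      · linarith
  · rcases U.I4 with h5 | h5
    · exact Or.inl (h5.trans (by norm_num))
    · rw [hLE, hJS, hZS, hpS] at h5
      refine Or.inr ⟨W * ((1 - mu) ^ 2 * W + (1 - mu) * MP), W * ((1 - mu) * MP),
          W * (1 - mu), K, 0,
          W * ((1 - mu) ^ 2 * pS + (1 - mu) * JS) + ZS + 1 / 1000000,
          by positivity, by positivity, by positivity, c3, le_rfl, by positivity, ?_, ?_⟩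
      · linarith
      · linarith
  · refine Or.inr ⟨1 + MP, (2 - k) * W, 0, 0, MP,
        (2 - k) * dS + (1 + th) * JS + 1 / 1000000, by positivity,
        by positivity, le_rfl, le_rfl, c4, by positivity, ?_, ?_⟩
    · linarith
    · linarith
  · refine Or.inr ⟨(2 - k) * W, 1 + MP, 0, MP, 0,
        (2 - k) * pS + (1 + th) * JS + 1 / 1000000, by positivity,
        by positivity, le_rfl, c4, le_rfl, by positivity, ?_, ?_⟩
    · linarith
    · linarith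

end

end Coin.IB
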