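import Pool.Agent.Lib.Coin.WinLo2

/-!
# Coin race, one-tail window, `c q ≤ p`: the primitives of `LoNum` in scaled variables

`E = p^c`, `X = 1/p^m'`, `q = 1-p`.
-/

namespace Coin

open Finset

/-- `n (t^j - 1) ≤ j (t^n - 1)` for `t ≥ 1`, `j ≤ n` -/
theorem chord_pow {t : ℝ} (ht : 1 ≤ t) {j n : ℕ} (hj : j ≤ n) :
    n * (t ^ j - 1) ≤ j * (t ^ n - 1) := by
  have hS : (n : ℝ) * ∑ i ∈ range j, t ^ i ≤ j * ∑ i ∈ range n, t ^ i := by
    induction n, hj using Nat.le_induction with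
    | base => exact le_rfl
    | succ n hjn ih =>
      rw [sum_range_succ]
      have h1 : ∑ i ∈ range j, t ^ i ≤ ∑ i ∈ range j, t ^ n := by
        refine sum_le_sum (fun i hi => ?_)
        rw [mem_range] at hi
        exact pow_le_pow_right₀ ht (by omega)
      rw [sum_const, card_range, nsmul_eq_mul] at h1
      push_cast
      linarith
  have e1 : t ^ j - 1 = (∑ i ∈ range j, t ^ i) * (t - 1) := (geom_sum_mul t j).symm
  have e2 : t ^ n - 1 = (∑ i ∈ range n, t ^ i) * (t - 1) := (geom_sum_mul t n).symm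
  rw [e1, e2, ← mul_assoc, ← mul_assoc]
  exact mul_le_mul_of_nonneg_right hS (by linarith)

/-- `1/p^j ≤ 1 + (j/n)(1/p^n - 1)` -/
theorem chord_inv {p : ℝ} (h0 : 0 < p) (h1 : p ≤ 1) {j n : ℕ} (hj : j ≤ n) (hn : 0 < n) :
    1 / p ^ j ≤ 1 + (j : ℝ) / n * (1 / p ^ n - 1) := by
  have ht : 1 ≤ 1 / p := by rw [le_div_iff₀ h0]; linarith
  have h := chord_pow ht hj
  rw [one_div_pow, one_div_pow] at h
  have hn' : (0 : ℝ) < n := by exact_mod_cast hn
  have e : 1 + (j : ℝ) / n * (1 / p ^ n - 1) = (n + j * (1 / p ^ n - 1)) / n := by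
    field_simp
  rw [e, le_div_iff₀ hn']
  linarith

theorem pow_sub_eq {p : ℝ} (h0 : 0 < p) {c j : ℕ} (hj : j ≤ c) :
    p ^ (c - j) = p ^ c * (1 / p ^ j) := (pow_shift h0 hj).symm

theorem one_le_X {p : ℝ} (h0 : 0 < p) (h1 : p ≤ 1) (n : ℕ) : 1 ≤ 1 / p ^ n := by
  rw [le_div_iff₀ (pow_pos h0 _), one_mul]
  exact pow_le_one₀ h0.le h1

/-- `MP ≤ E (X-1) m/m'` -/
theorem MP_le_prim {p : ℝ} (h0 : 0 < p) (h1 : p < 1) {a m c m' : ℕ} (hca : c ≤ a)
    (hm : m ≤ m') (hm' : 0 < m') (hma : m ≤ a) :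
    MP p a m ≤ p ^ c * ((1 / p ^ m' - 1) * ((m : ℝ) / m')) := by
  unfold MP
  rw [pow_sub_eq h0 hma]
  have e1 : p ^ a ≤ p ^ c := pow_le_pow_of_le_one h0.le h1.le hca
  have e2 := chord_inv h0 h1.le hm hm'
  have e3 := one_le_X h0 h1.le m
  calc p ^ a * (1 / p ^ m) - p ^ a = p ^ a * (1 / p ^ m - 1) := by ring
    _ ≤ p ^ c * (1 / p ^ m - 1) := mul_le_mul_of_nonneg_right e1 (by linarith)
    _ ≤ p ^ c * ((1 / p ^ m' - 1) * ((m : ℝ) / m')) := by
        refine mul_le_mul_of_nonneg_left ?_ (pow_pos h0 _).le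
        linarith

/-- `K = E (X - 1 - q m')` -/
theorem Kc_prim {p : ℝ} (h0 : 0 < p) {c m' : ℕ} (hmc : m' ≤ c) :
    Kc p c m' = p ^ c * (1 / p ^ m' - 1 - (1 - p) * m') := by
  unfold Kc
  rw [pow_sub_eq h0 hmc]
  ring

/-- sums over `j ∈ [1, n]` from sums over `i < n` -/
theorem sum_flip (n : ℕ) (F : ℕ → ℝ) :
    ∑ i ∈ range n, F (n - i) = ∑ j ∈ Icc 1 n, F j := by
  refine sum_bij' (fun i _ => n - i) (fun j _ => n - j) ?_ ?_ ?_ ?_ ?_
  · intro i hi; rw [mem_range] at hi; rw [mem_Icc]; omega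
  · intro j hj; rw [mem_Icc] at hj; rw [mem_range]; omega
  · intro i hi; rw [mem_range] at hi; omega
  · intro j hj; rw [mem_Icc] at hj; omega
  · intro i hi; rfl

theorem sum_Icc_id (n : ℕ) : ∑ j ∈ Icc 1 n, (j : ℝ) = n * (n + 1) / 2 := by
  induction n with
  | zero => simp
  | succ n ih => rw [Finset.sum_Icc_succ_top (by omega), ih]; push_cast; ring

theorem sum_Icc_sq (n : ℕ) : ∑ j ∈ Icc 1 n, (j : ℝ) ^ 2 = n * (n + 1) * (2 * n + 1) / 6 := by
  induction n with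
  | zero => simp
  | succ n ih => rw [Finset.sum_Icc_succ_top (by omega), ih]; push_cast; ring

/-- `K ≤ q E (X-1)(m'+1)/2` -/
theorem Kc_le_prim {p : ℝ} (h0 : 0 < p) (h1 : p < 1) {c m' : ℕ} (hmc : m' ≤ c) :
    Kc p c m' ≤ (1 - p) * (p ^ c * ((1 / p ^ m' - 1) * (((m' : ℝ) + 1) / 2))) := by
  have hq : 0 < 1 - p := by linarith
  rcases Nat.eq_zero_or_pos m' with hz | hpos
  · subst hz; unfold Kc; simp
  rw [← sum_eps hmc]
  have hE : 0 < p ^ c := pow_pos h0 _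
  have hm : (0 : ℝ) < m' := by exact_mod_cast hpos
  have e1 : ∀ i ∈ range m', (1 - p) * p ^ (c - m' + i) - (1 - p) * p ^ c
      ≤ (1 - p) * (p ^ c * ((((m' - i : ℕ) : ℝ) / m') * (1 / p ^ m' - 1))) := by
    intro i hi
    rw [mem_range] at hi
    have e : c - m' + i = c - (m' - i) := by omega
    rw [e, pow_sub_eq h0 (by omega : m' - i ≤ c)]
    have := chord_inv h0 h1.le (j := m' - i) (n := m') (by omega) hpos
    have := mul_le_mul_of_nonneg_left this hE.le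
    have := mul_le_mul_of_nonneg_left this hq.le
    linarith
  refine (sum_le_sum e1).trans (le_of_eq ?_)
  rw [← mul_sum, ← mul_sum, ← sum_mul]
  have e2 : ∑ i ∈ range m', ((m' - i : ℕ) : ℝ) / m' = ((m' : ℝ) + 1) / 2 := by
    rw [← sum_div, sum_flip m' (fun j => (j : ℝ)), sum_Icc_id]
    field_simp
  rw [e2]
  ring

/-- `Z` in closed form -/
theorem Zc_prim {p : ℝ} (h0 : 0 < p) {c m' : ℕ} (hmc : m' ≤ c) :
    Zc p c m' = p ^ c * ((1 - p) * m' * (m' + 1)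
      - ((c - m' : ℕ) : ℝ) * (1 / p ^ m' - 1 - (1 - p) * m')) := by
  unfold Zc
  rw [sum_psi hmc, Kc_prim h0 hmc]
  ring

/-- `R1 ≤ E (m'(m'+1)/2 + (X-1)(m'+1)(2m'+1)/6)` -/
theorem R1_le_prim {p : ℝ} (h0 : 0 < p) (h1 : p < 1) {c m' : ℕ} (hmc : m' ≤ c) :
    R1 p c m' ≤ p ^ c * ((m' : ℝ) * (m' + 1) / 2
      + (1 / p ^ m' - 1) * ((m' : ℝ) + 1) * (2 * m' + 1) / 6) := by
  rcases Nat.eq_zero_or_pos m' with hz | hpos
  · subst hz; unfold R1; simp
  have hE : 0 < p ^ c := pow_pos h0 _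
  have hm : (0 : ℝ) < m' := by exact_mod_cast hpos
  unfold R1
  have e1 : ∀ i ∈ range m', ((m' : ℝ) - i) * p ^ (c - m' + i)
      ≤ p ^ c * (((m' - i : ℕ) : ℝ) + ((m' - i : ℕ) : ℝ) ^ 2 / m' * (1 / p ^ m' - 1)) := by
    intro i hi
    rw [mem_range] at hi
    have e : c - m' + i = c - (m' - i) := by omega
    rw [e, pow_sub_eq h0 (by omega : m' - i ≤ c), ← Nat.cast_sub hi.le]
    have := chord_inv h0 h1.le (j := m' - i) (n := m') (by omega) hpos
    have h3 := mul_le_mul_of_nonneg_left this (by positivity : (0 : ℝ) ≤ ((m' - i : ℕ) : ℝ))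
    have h4 := mul_le_mul_of_nonneg_left h3 hE.le
    have e5 : p ^ c * (((m' - i : ℕ) : ℝ) * (1 + ((m' - i : ℕ) : ℝ) / m' * (1 / p ^ m' - 1)))
        = p ^ c * (((m' - i : ℕ) : ℝ) + ((m' - i : ℕ) : ℝ) ^ 2 / m' * (1 / p ^ m' - 1)) := by
      ring
    rw [e5] at h4
    linarith
  refine (sum_le_sum e1).trans (le_of_eq ?_)
  rw [← mul_sum, sum_add_distrib, ← sum_mul, ← sum_div]
  rw [sum_flip m' (fun j => (j : ℝ)), sum_flip m' (fun j => (j : ℝ) ^ 2), sum_Icc_id, sum_Icc_sq]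
  field_simp

/-- `J` as a sum -/
theorem Jc_eq {p : ℝ} (h0 : 0 < p) (h1 : p < 1) {a m c : ℕ} (hma : m ≤ a) :
    Jc p a m c = ∑ j ∈ Icc 1 m, (p ^ (a - j) * ((p - c * (1 - p)) + ((a : ℝ) - c) * (1 - p))
      + (1 - p) * (j * p ^ (a - j))) := by
  have hq : 0 < 1 - p := by linarith
  rw [sum_add_distrib, ← sum_mul, ← mul_sum]
  have e2 := sum_pow_Icc h0 hma (a := a) (m := m)
  have e3 := sum_j_pow (p := p) hma (a := a) (m := m)
  set S1 := ∑ j ∈ Icc 1 m, p ^ (a - j)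
  set S2 := ∑ j ∈ Icc 1 m, (j : ℝ) * p ^ (a - j)
  have e4 : (1 - p) * S2 = m * p ^ (a - m) - p * S1 := by
    have : (1 - p) * ((1 - p) * S2) = (1 - p) * (m * p ^ (a - m) - p * S1) := by
      have : (1 - p) * ((1 - p) * S2) = (1 - p) ^ 2 * S2 := by ring
      rw [this, e3, ← e2]; ring
    exact mul_left_cancel₀ hq.ne' this
  rw [e4]
  unfold Jc
  rw [← e2]
  ring

theorem sum_form (A q Y : ℝ) (m : ℕ) :
    ∑ j ∈ Icc 1 m, (A + q * j + Y * (A * j + q * (j : ℝ) ^ 2))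
      = A * m + q * (m * (m + 1) / 2)
        + Y * (A * (m * (m + 1) / 2) + q * (m * (m + 1) * (2 * m + 1) / 6)) := by
  induction m with
  | zero => simp
  | succ m ih => rw [Finset.sum_Icc_succ_top (by omega), ih]; push_cast; ring

/-- `J ≤ E (A m + q m(m+1)/2 + (X-1)/m' (A m(m+1)/2 + q m(m+1)(2m+1)/6))`,
`A = (p - c q) + (a-c) q` -/
theorem Jc_le_prim {p : ℝ} (h0 : 0 < p) (h1 : p < 1) {a m c m' : ℕ} (hca : c ≤ a)
    (hm : m ≤ m') (hmc : m' ≤ c) (hl : c * (1 - p) ≤ p) :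
    Jc p a m c ≤ p ^ c * (((p - c * (1 - p)) + ((a : ℝ) - c) * (1 - p)) * m
      + (1 - p) * (m * (m + 1) / 2)
      + (1 / p ^ m' - 1) / m' * (((p - c * (1 - p)) + ((a : ℝ) - c) * (1 - p))
        * (m * (m + 1) / 2) + (1 - p) * (m * (m + 1) * (2 * m + 1) / 6))) := by
  have hq : 0 < 1 - p := by linarith
  rcases Nat.eq_zero_or_pos m' with hz | hpos
  · have : m = 0 := by omega
    subst this
    unfold Jc MP
    simp
  have hE : 0 < p ^ c := pow_pos h0 _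
  have hmr : (0 : ℝ) < m' := by exact_mod_cast hpos
  have hac : (c : ℝ) ≤ a := by exact_mod_cast hca
  rw [Jc_eq h0 h1 (by omega : m ≤ a)]
  set A := (p - c * (1 - p)) + ((a : ℝ) - c) * (1 - p) with hA
  have hA0 : 0 ≤ A := by
    have : 0 ≤ ((a : ℝ) - c) * (1 - p) := mul_nonneg (by linarith) hq.le
    linarith
  have e1 : ∀ j ∈ Icc 1 m, p ^ (a - j) * A + (1 - p) * (j * p ^ (a - j))
      ≤ p ^ c * (A + (1 - p) * j + (1 / p ^ m' - 1) / m' * (A * j + (1 - p) * (j : ℝ) ^ 2)) := by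
    intro j hj
    rw [mem_Icc] at hj
    have h2 : p ^ (a - j) ≤ p ^ c * (1 + (j : ℝ) / m' * (1 / p ^ m' - 1)) := by
      rw [pow_sub_eq h0 (by omega : j ≤ a)]
      have e1 : p ^ a ≤ p ^ c := pow_le_pow_of_le_one h0.le h1.le hca
      have := chord_inv h0 h1.le (j := j) (n := m') (by omega) hpos
      have h3 : (0 : ℝ) ≤ 1 / p ^ j := by positivity
      calc p ^ a * (1 / p ^ j) ≤ p ^ c * (1 / p ^ j) := mul_le_mul_of_nonneg_right e1 h3
        _ ≤ _ := mul_le_mul_of_nonneg_left this hE.le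
    have h3 : 0 ≤ A + (1 - p) * j := by positivity
    have h4 := mul_le_mul_of_nonneg_right h2 h3
    have e5 : p ^ c * (1 + (j : ℝ) / m' * (1 / p ^ m' - 1)) * (A + (1 - p) * j)
        = p ^ c * (A + (1 - p) * j + (1 / p ^ m' - 1) / m' * (A * j + (1 - p) * (j : ℝ) ^ 2)) := by
      ring
    rw [e5] at h4
    linarith
  refine (sum_le_sum e1).trans (le_of_eq ?_)
  rw [← mul_sum, sum_form]

/-! ### logarithm -/

/-- `-log (1-q)` between `q + q²/2` and `q + q²/2 + (4/9) q³`, for `0 < q ≤ 1/4` -/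
theorem neg_log_bounds {q : ℝ} (h0 : 0 < q) (h4 : q ≤ 1 / 4) :
    q + q ^ 2 / 2 ≤ -Real.log (1 - q) ∧
    -Real.log (1 - q) ≤ q + q ^ 2 / 2 + 4 / 9 * q ^ 3 := by
  have hs := Real.hasSum_pow_div_log_of_abs_lt_one (x := q) (by rw [abs_of_pos h0]; linarith)
  have e1 : ∑ i ∈ range 2, q ^ (i + 1) / ((i : ℝ) + 1) = q + q ^ 2 / 2 := by
    rw [sum_range_succ, sum_range_succ, sum_range_zero]
    norm_num
  constructor
  · have := sum_le_hasSum (range 2) (fun i _ => by positivity) hs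
    rw [e1] at this
    exact this
  · have h2 := (hasSum_nat_add_iff' 2).mpr hs
    rw [e1] at h2
    have h3 : HasSum (fun n : ℕ => q ^ 3 / 3 * q ^ n) (q ^ 3 / 3 * (1 - q)⁻¹) :=
      (hasSum_geometric_of_lt_one h0.le (by linarith)).mul_left _
    have h5 := hasSum_le (fun n => by
      have hn : (3 : ℝ) ≤ ((n + 2 : ℕ) : ℝ) + 1 := by push_cast; linarith [(by positivity : (0:ℝ) ≤ n)]
      have e : q ^ 3 / 3 * q ^ n = q ^ (n + 2 + 1) / 3 := by ring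
      rw [e]
      exact div_le_div_of_nonneg_left (by positivity) (by norm_num) hn) h2 h3
    have h6 : (1 - q)⁻¹ ≤ 4 / 3 := by
      rw [inv_le_comm₀ (by linarith) (by norm_num)]
      linarith
    have h7 : q ^ 3 / 3 * (1 - q)⁻¹ ≤ q ^ 3 / 3 * (4 / 3) :=
      mul_le_mul_of_nonneg_left h6 (by positivity)
    linarith

end Coin
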