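import Pool.Agent.Lib.Coin.WinLoFin

/-!
# Coin race, one-tail window, `c q ≤ p`: soundness of the check on a box
-/

namespace Coin.IB

theorem Up.two_mul {x : ℝ} {a : ℕ} (h : Up x a) : Up (2 * x) (2 * a) := by
  have := h.smul 2
  rwa [Nat.cast_ofNat] at this

theorem Up.four_mul {x : ℝ} {a : ℕ} (h : Up x a) : Up (4 * x) (4 * a) := by
  have := h.smul 4
  rwa [Nat.cast_ofNat] at this

theorem Lw.two_mul {x : ℝ} {a : ℕ} (h : Lw a x) : Lw (2 * a) (2 * x) := by
  unfold Lw at *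
  push_cast
  linarith

theorem Lw.half2 {x : ℝ} {a : ℕ} (h : Lw a x) : Lw (a / 2) (x / 2) := by
  have := h.half (n := 2) (by norm_num)
  rwa [Nat.cast_ofNat] at this

theorem self_up (n : ℕ) : Up ((n : ℝ) / 1000000) n := by
  unfold Up
  rw [div_mul_cancel₀ _ (by norm_num)]

theorem self_lw (n : ℕ) : Lw n ((n : ℝ) / 1000000) := by
  unfold Lw
  rw [div_mul_cancel₀ _ (by norm_num)]

theorem nat_le_of {a b : ℕ} {x : ℝ} (h1 : Lw a x) (h2 : Up x b) : a ≤ b := by
  unfold Lw Up at *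
  have : (a : ℝ) ≤ b := h1.trans h2
  exact_mod_cast this

theorem Lw_expP {n : ℕ} (hn : n ≤ 64000000) :
    Lw (1000000000000 / eU n) (Real.exp ((n : ℝ) / 1000000)) := by
  have h := eU_ge n hn
  unfold Up at h
  have hp := Real.exp_pos (-((n : ℝ) / 1000000))
  have hpos : (0 : ℝ) < eU n := lt_of_lt_of_le (by positivity) h
  have hpos' : 0 < eU n := by exact_mod_cast hpos
  unfold Lw
  refine (floorDiv_le _ _ hpos').trans ?_
  rw [div_le_iff₀ hpos]
  have e : Real.exp ((n : ℝ) / 1000000) * Real.exp (-((n : ℝ) / 1000000)) = 1 := by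
    rw [← Real.exp_add]; simp
  have hp2 := Real.exp_pos ((n : ℝ) / 1000000)
  have h3 := mul_le_mul_of_nonneg_left h hp2.le
  push_cast
  nlinarith

theorem Up_expP {n : ℕ} (hn : n ≤ 64000000) (h0 : 0 < eL n) :
    Up (Real.exp ((n : ℝ) / 1000000)) ((1000000000000 + (eL n - 1)) / eL n) := by
  have h := eL_le n hn
  unfold Lw at h
  have h0' : (0 : ℝ) < eL n := by exact_mod_cast h0
  unfold Up
  refine le_trans ?_ (le_ceilDiv 1000000000000 _ h0)
  rw [le_div_iff₀ h0']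
  have e : Real.exp ((n : ℝ) / 1000000) * Real.exp (-((n : ℝ) / 1000000)) = 1 := by
    rw [← Real.exp_add]; simp
  have hp2 := Real.exp_pos ((n : ℝ) / 1000000)
  have h3 := mul_le_mul_of_nonneg_left h hp2.le
  push_cast
  nlinarith

theorem h_mono {x y : ℝ} (hx : 0 ≤ x) (hxy : x ≤ y) :
    Real.exp x - (1 + x) ≤ Real.exp y - (1 + y) := by
  have e : Real.exp y = Real.exp x * Real.exp (y - x) := by rw [← Real.exp_add]; congr 1; ring
  have h1 := Real.add_one_le_exp (y - x)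
  have h2 : 1 ≤ Real.exp x := Real.one_le_exp hx
  rw [e]
  nlinarith

theorem xexp_mono {x y : ℝ} (hxy : x ≤ y) (hy : y ≤ 1) :
    x * Real.exp (-x) ≤ y * Real.exp (-y) := by
  have e : Real.exp (-x) = Real.exp (-y) * Real.exp (y - x) := by
    rw [← Real.exp_add]; congr 1; ring
  have h5 := Real.one_sub_le_exp_neg (y - x)
  have hp := Real.exp_pos (-y)
  have hp2 := Real.exp_pos (y - x)
  rcases le_or_gt x 0 with hx | hx
  · rcases le_or_gt 0 y with hy0 | hy0
    · have h1 : x * Real.exp (-x) ≤ 0 := mul_nonpos_of_nonpos_of_nonneg hx (Real.exp_pos _).le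
      have h2 : 0 ≤ y * Real.exp (-y) := mul_nonneg hy0 hp.le
      linarith
    · have : Real.exp (-y) ≤ Real.exp (-x) := Real.exp_le_exp.mpr (by linarith)
      nlinarith [Real.exp_pos (-x)]
  · -- `x exp (y - x) ≤ y`
    have hk : x * Real.exp (y - x) ≤ y := by
      have h6 : Real.exp (y - x) * Real.exp (-(y - x)) = 1 := by rw [← Real.exp_add]; simp
      have h7 : Real.exp (y - x) * (1 - (y - x)) ≤ 1 := by
        have := mul_le_mul_of_nonneg_left h5 hp2.le
        linarith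
      have h8 : x ≤ y * (1 - (y - x)) := by nlinarith
      have h9 := mul_le_mul_of_nonneg_right h8 hp2.le
      have hy0 : 0 < y := lt_of_lt_of_le hx hxy
      nlinarith
    rw [e]
    nlinarith

variable {L k mu r de E X ps K MP J Z T KL th S M P P1 Mn Pn : ℝ}

theorem chk_ok {L1 L2 k1 k2 m1 m2 r1 r2 : ℕ} (h : chk L1 L2 k1 k2 m1 m2 r1 r2 = true)
    (hL1 : Lw L1 L) (hL2 : Up L L2) (hk1 : Lw k1 k) (hk2 : Up k k2) (hm1 : Lw m1 mu)
    (hm2 : Up mu m2) (hr1 : Lw r1 r) (hr2 : Up r r2)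
    (B : LoBase L k mu r de E X ps K MP J Z T KL th)
    (U : LoSU L k mu de E ps K MP J Z th S M P P1 Mn Pn) :
    LoSFin L k mu r de E ps K MP J Z T KL th S M P P1 Mn := by
  have L0 := B.L0
  have k0 := B.k0
  have mu0 := B.mu0
  have mu1 := B.mu1
  have r0 := B.r0
  have r1' := B.r1
  have hLk := B.hL
  have hr' : 0 ≤ 1 - r := by linarith
  unfold chk at h
  extract_lets q1 q2 dh e1 e2a e2 Y1 Y2 E1 E2 x1 x2 a1 X1 b1 X2 kk1 kk2 K' ze1 ze2 LE' ps1 ps2 A
    nu X2m J' MP' th' den S' ZS T' KL' JS thZS c at h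
  have hq1 : Lw q1 (L * k) := hL1.mul hk1
  have hq2 : Up (L * k) q2 := Up.mul k0 hL2 hk2
  rw [Bool.or_eq_true] at h
  rcases h with h | h
  · exfalso
    rw [Nat.blt_eq] at h
    have h3 := hL1.add hq1
    unfold Lw at h3
    have h4 : (1000000 : ℝ) < ((L1 + q1 : ℕ) : ℝ) := by exact_mod_cast h
    nlinarith
  have hde : Up de dh :=
    Up.le_trans B.de1 ((Up.mul hr' hm2 (Up.one.sub hr1)).sub hk1).half2
  rw [Bool.or_eq_true] at h
  rcases h with h | h
  · exfalso
    rw [Nat.blt_eq] at h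
    have h3 : k1 ≤ dh := nat_le_of (hk1.le_trans B.de0) hde
    omega
  rw [Bool.and_eq_true, Bool.and_eq_true, Bool.and_eq_true, Bool.and_eq_true,
    Bool.and_eq_true, Bool.and_eq_true, Bool.and_eq_true, Nat.ble_eq, Nat.ble_eq, Nat.ble_eq,
    Nat.blt_eq, Nat.blt_eq, Nat.blt_eq] at h
  obtain ⟨c1, c2, c3, c4, c5, c6, c7, c8⟩ := h
  obtain ⟨Y, hY1, hY2, hE, hX⟩ := B.hY
  have de0 : 0 ≤ de := k0.trans B.de0
  have de14 : de ≤ 1 / 4 := by have := B.de1; nlinarith
  have ze0 : 0 ≤ 1 - mu := by linarith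
  have E0 : 0 < E := by rw [hE]; exact Real.exp_pos _
  have LE0 : 0 ≤ L * E := mul_nonneg L0 E0.le
  have S0 := U.S0
  have th0 := B.th0
  -- `Y`
  have he1 : Lw e1 (L * L * k / 2) := ((hL1.mul hL1).mul hk1).half2
  have he2a : Up (L * L * k) e2a := Up.mul k0 (Up.mul L0 hL2 hL2) hk2
  have he2 : Up (L * L * k / 2 + 4 * (L * L * k * L * k) / 9) e2 :=
    he2a.half2.add ((Up.mul k0 (Up.mul L0 he2a hL2) hk2).four_mul).half9
  have hYl : Lw Y1 Y := (hL1.add he1).le_trans (by nlinarith)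
  have hYu : Up Y Y2 := Up.le_trans (by nlinarith) (hL2.add he2)
  have Y0 : 0 ≤ Y := hYl.nonneg
  have hY12 : Y1 ≤ Y2 := nat_le_of hYl hYu
  have hmY0 : 0 ≤ mu * Y := mul_nonneg mu0 Y0
  have hE1 : Lw E1 E := by rw [hE]; exact Lw_exp hYu (by omega)
  have hE2 : Up E E2 := by rw [hE]; exact Up_exp hYl (by omega)
  -- `X`
  have hx1 : Lw x1 (mu * Y) := hm1.mul hYl
  have hx2 : Up (mu * Y) x2 := Up.mul Y0 hm2 hYu
  have hx12 : x1 ≤ x2 := nat_le_of hx1 hx2
  have hX1 : Lw X1 (Real.exp ((x1 : ℝ) / 1000000)) := Lw_expP (by omega)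
  have hX2 : Up (Real.exp ((x2 : ℝ) / 1000000)) X2 := Up_expP c3 c4
  have t1 : (x1 : ℝ) / 1000000 ≤ mu * Y := by
    rw [div_le_iff₀ (by norm_num)]; exact hx1
  have t2 : mu * Y ≤ (x2 : ℝ) / 1000000 := by
    rw [le_div_iff₀ (by norm_num)]; exact hx2
  have t10 : (0 : ℝ) ≤ (x1 : ℝ) / 1000000 := by positivity
  have m1 := h_mono t10 t1
  have m2' := h_mono hmY0 t2
  rw [← hX] at m1 m2'
  have hXX : Up X X2 := Up.le_trans (by rw [hX]; exact Real.exp_le_exp.mpr t2) hX2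
  have hX1r : 1 ≤ X := by rw [hX]; exact Real.one_le_exp hmY0
  have hX10 : 0 ≤ X - 1 := by linarith
  have hYL : L * L * k / 2 ≤ Y - L := by nlinarith
  have hYL2 : Y - L ≤ L * L * k / 2 + 4 * (L * L * k * L * k) / 9 := by nlinarith
  have hkk1 : Lw kk1 (X - 1 - mu * L) := by
    have a2 : Lw (X1 - (1000000 + x1)) (Real.exp ((x1 : ℝ) / 1000000) - (1 + (x1 : ℝ) / 1000000)) :=
      hX1.sub (Up.one.add (self_up x1)) (by
        have := Real.add_one_le_exp ((x1 : ℝ) / 1000000)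
        linarith)
    refine (a2.add (hm1.mul he1)).le_trans ?_
    have := mul_le_mul_of_nonneg_left hYL mu0
    linarith
  have hkk2 : Up (X - 1 - mu * L) kk2 := by
    have a2 : Up (Real.exp ((x2 : ℝ) / 1000000) - (1 + (x2 : ℝ) / 1000000)) (X2 - (1000000 + x2)) :=
      hX2.sub (Lw.one.add (self_lw x2))
    have hnn : 0 ≤ L * L * k / 2 + 4 * (L * L * k * L * k) / 9 := by positivity
    refine Up.le_trans ?_ (a2.add (Up.mul hnn hm2 he2))
    have := mul_le_mul_of_nonneg_left hYL2 mu0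
    linarith
  have hkk0 : 0 ≤ X - 1 - mu * L := hkk1.nonneg
  have hK : Up K K' := by rw [B.hK]; exact Up.mul hkk0 hE2 hkk2
  have K0 : 0 ≤ K := by rw [B.hK]; exact mul_nonneg E0.le hkk0
  have hze1 : Lw ze1 (1 - mu) := Lw.one.sub hm2 ze0
  have hze2 : Up (1 - mu) ze2 := Up.one.sub hm1
  -- `L E`
  have hLE : Up (L * E) LE' := by
    refine (Up.mul E0.le hL2 hE2).min ?_
    have hl2 : L ≤ (L2 : ℝ) / 1000000 := by
      rw [le_div_iff₀ (by norm_num)]; exact hL2
    have hl21 : (L2 : ℝ) / 1000000 ≤ 1 := by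
      rw [div_le_one (by norm_num)]; exact_mod_cast c1
    have hε : (e1 : ℝ) / 1000000 ≤ Y - L := by
      have : (e1 : ℝ) / 1000000 ≤ L * L * k / 2 := by
        rw [div_le_iff₀ (by norm_num)]; exact he1
      linarith
    have he1Y : e1 ≤ Y1 := Nat.le_add_left _ _
    have hub : Up (Real.exp (-(((L2 + e1 : ℕ) : ℝ) / 1000000))) (eU (L2 + e1)) :=
      eU_ge _ (by omega)
    have h6 : L * E ≤ (L2 : ℝ) / 1000000 * Real.exp (-(((L2 + e1 : ℕ) : ℝ) / 1000000)) := by
      have e5 : Real.exp (-(((L2 + e1 : ℕ) : ℝ) / 1000000))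
          = Real.exp (-((L2 : ℝ) / 1000000)) * Real.exp (-((e1 : ℝ) / 1000000)) := by
        rw [← Real.exp_add]; congr 1; push_cast; ring
      have e6 : E ≤ Real.exp (-L) * Real.exp (-((e1 : ℝ) / 1000000)) := by
        rw [hE, ← Real.exp_add]
        exact Real.exp_le_exp.mpr (by linarith)
      have e7 := xexp_mono hl2 hl21
      rw [e5]
      calc L * E ≤ L * (Real.exp (-L) * Real.exp (-((e1 : ℝ) / 1000000))) :=
            mul_le_mul_of_nonneg_left e6 L0
        _ = (L * Real.exp (-L)) * Real.exp (-((e1 : ℝ) / 1000000)) := by ring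
        _ ≤ ((L2 : ℝ) / 1000000 * Real.exp (-((L2 : ℝ) / 1000000)))
            * Real.exp (-((e1 : ℝ) / 1000000)) :=
            mul_le_mul_of_nonneg_right e7 (Real.exp_pos _).le
        _ = _ := by ring
    exact Up.le_trans h6 (Up.mul (Real.exp_pos _).le (self_up L2) hub)
  -- `ψ`
  have hq0 : 0 ≤ 1 - (L * k + L) := by linarith
  have hps1 : Lw ps1 ps := by
    rw [B.hps]; exact hE1.mul (Lw.one.sub (hq2.add hL2) hq0)
  have hps2 : Up ps ps2 := by
    rw [B.hps]; exact Up.mul hq0 hE2 (Up.one.sub (hq1.add hL1))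
  have ps0 : 0 ≤ ps := by rw [B.hps]; exact mul_nonneg E0.le hq0
  -- `A`
  have hA : Up (1 - (L * k + L) + L * de) A := by
    refine ((Up.one.sub (hq1.add hL1)).add (Up.mul de0 hL2 hde)).min ?_
    refine Up.le_trans (le_of_eq ?_) (Up.one.sub (hq1.add (hL1.mul (Lw.one.sub hde (by linarith)))))
    ring
  have A0 : 0 ≤ 1 - (L * k + L) + L * de := add_nonneg hq0 (mul_nonneg L0 de0)
  have hrm0 : 0 ≤ r * mu := mul_nonneg r0 mu0
  have hnu : Up (r * mu) nu := Up.mul mu0 hr2 hm2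
  have hX2m : Up (X - 1) X2m := hXX.sub Lw.one
  have hJ : Up J J' := by
    refine Up.le_trans B.hJ (Up.mul (by positivity) hE2 (((Up.mul A0 hnu hA).add
      (Up.mul (by positivity) (Up.mul hrm0 hL2 hnu) (hnu.add hk2)).half2).add
      (Up.mul (by positivity) (Up.mul (by positivity) (Up.mul r0 hX2m hr2) (hnu.add hk2))
        (hA.half2.add (Up.mul (by positivity) hL2 (hnu.two_mul.add hk2)).half6))))
  have hMP : Up MP MP' :=
    Up.le_trans B.hMP (Up.mul (by positivity) hE2 (Up.mul r0 hX2m hr2))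
  -- `θ`
  have hnum := ((((Up.mul LE0 (Up.one.sub hk1) hLE).add hK).add
    (Up.mul LE0 (Up.two.sub hk1) hLE)).add hMP).sub1 Lw.one
  have hK1 : Lw (1000000 - K') (1 - K) := Lw.one.sub' hK c5
  have hK1p := hK1.pos c5
  have hth : Up th th' := by
    refine Up.le_trans ?_ (Up.div hnum hK1 c5)
    rw [le_div_iff₀ hK1p]
    exact B.hth
  -- `S`
  have hden : Lw den (1 - ((1 - mu) * (L * E) + th * K)) := by
    have e : (1 - mu) * (L * E) + th * K = L * E * (1 - mu) + th * K := by ring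
    rw [e]
    exact Lw.one.sub' ((Up.mul ze0 hLE hze2).add (Up.mul K0 hth hK)) c6
  have hdenp := hden.pos c6
  have hS : Up S S' := by
    refine Up.le_trans ?_ (Up.div hLE hden c6)
    rw [le_div_iff₀ hdenp]
    exact U.hS
  -- `Z`
  have hy0 : 0 ≤ L * mu * (mu + k) - (1 - mu) * (X - 1 - mu * L) := by
    have h1 := B.Z0.trans B.hZ
    by_contra hcon
    rw [not_le] at hcon
    nlinarith
  have hZ : Up Z (mU E2 (mU (mU L2 m2) (m2 + k2) - mL ze1 kk1)) :=
    Up.le_trans B.hZ (Up.mul hy0 hE2 ((Up.mul (by positivity) (Up.mul mu0 hL2 hm2)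
      (hm2.add hk2)).sub (hze1.mul hkk1)))
  have hZS : Up (Z * S) ZS := Up.mul S0 hZ hS
  have hT : Up T T' :=
    Up.le_trans B.hT (Up.mul (by positivity) hE2 ((Up.mul (by positivity) hm2
      (hm2.add hk2)).half2.add (Up.mul (by positivity) (Up.mul (by positivity) hX2m (hm2.add hk2))
      (hm2.two_mul.add hk2)).half6))
  have hKL : Up KL KL' :=
    Up.le_trans B.hKL (Up.mul (by positivity) hE2 (Up.mul hX10 (hm2.add hk2) hX2m).half2)
  have hJS0 : 0 ≤ J * S := mul_nonneg B.J0 S0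
  have hZS0 : 0 ≤ Z * S := mul_nonneg B.Z0 S0
  have hJS : Up (J * S) JS := Up.mul S0 hJ hS
  have hthZS : Up (th * (Z * S)) thZS := Up.mul hZS0 hth hZS
  have h3k : 3 * k ≤ mu := by
    have h4 := B.de0
    have h5 := B.de1
    nlinarith
  have C : CoOK c L k mu de E ps K MP J Z th S := {
    LE0 := LE0
    LE := hLE
    ze0 := ze0
    ze := hze2
    zz := by
      rw [pow_two]
      exact Up.mul ze0 hze2 hze2
    zk0 := by linarith
    zk := hze2.add hk2
    c20 := by have := B.k1; linarith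
    c2 := Up.two.sub hk1
    K0 := K0
    K := hK
    MP0 := B.MP0
    MP := hMP
    ps0 := ps0
    ps1 := hps1
    psS0 := mul_nonneg ps0 S0
    psS := Up.mul S0 hps2 hS
    dLS0 := by positivity
    dLS := Up.mul (by positivity) hde (Up.mul S0 hLE hS)
    JS0 := hJS0
    JS := hJS
    th0 := th0
    tJS := Up.mul hJS0 (Up.one.add hth) hJS
    ZS0 := hZS0
    ZS := hZS
    cM := (hps2.add (Up.mul (by positivity) hps2 (Up.mul S0 hze2 hS))).add hthZS
    cM2 := hps2.add hthZS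
    e10 := by linarith
    e1 := (hde.add hm2.two_mul).sub hk1.two_mul
    e20 := by linarith
    e2 := ((Up.one.add hde).add hm2).sub hk1
    S0 := S0 }
  obtain ⟨u1, u2, u3, u4, u5⟩ := coarse_ok C U c7
  obtain ⟨b1', b2, b3, b4, b5, v1, v2, v3, v4, v5, v6⟩ := run_ok C U 10 3000000 3000000 2990000
    9000000 9000000 (Up.le_trans u1 up3) (Up.le_trans u2 up3) (Up.le_trans u3 up29)
    (Up.le_trans u4 up9) (Up.le_trans u5 up9) c8
  exact fin_ok C k0 hk1 hk2 mu0 mu1 hm2 hze1 r1' (hr1.mul hm1) B.de0 de14 hde E0.le hE1 hE2 hth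
    B.KL0 hKL B.T0 hT hS U.M0 U.P0 U.P10 (U.M0.trans U.MMn) v1 v2 v3 v4 v6

end Coin.IB
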