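import Pool.Agent.Lib.Coin.WinReal

/-!
# Coin race, one-tail window: the pair inequality in quotient form, reduction to `l - k = z + 1`
-/

namespace Coin

open Finset

/-- `H_x = d_x / ((1-p) g_x)` -/
noncomputable def hz (p : ℝ) (g : ℤ → ℝ) (x : ℤ) : ℝ := dd g x / ((1 - p) * g x)

/-- `R x = p^c f_y - Σ (m'-i) p^(z+i) d_(y-i) - Σ (p^(z+i) - p^c) e_(y-i)`, `y = x-1-z` -/
noncomputable def rem (p : ℝ) (c m' : ℕ) (g f : ℤ → ℝ) (x : ℤ) : ℝ :=
  p ^ c * f (x - 1 - (c - m' : ℕ))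
    - ∑ i ∈ range m', ((m' : ℝ) - i) * p ^ (c - m' + i) * dd g (x - 1 - (c - m' : ℕ) - i)
    - ∑ i ∈ range m', (p ^ (c - m' + i) - p ^ c) * dd f (x - 1 - (c - m' : ℕ) - i)

theorem psi_eq {p : ℝ} (h1 : p < 1) (n : ℕ) : psi p n = (1 - p) * p ^ n * (p / (1 - p) - n) := by
  have : (1 - p) ≠ 0 := by linarith
  unfold psi
  field_simp

namespace WSys

variable {p : ℝ} {a m c m' : ℕ} {g f : ℤ → ℝ}

/-- the derivative equation with the equation itself subtracted -/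
theorem dd_f (h : WSys p a m c m' g f) (h1 : p < 1) (hmc : m' ≤ c) {x : ℤ} (hx : 1 ≤ x) :
    dd f x = (p / (1 - p) - c) * dd g x + (1 - p) * rem p c m' g f x := by
  rw [h.eqBd x hx, h.eqB x hx]
  unfold rem
  rw [psi_eq h1 c]
  simp only [psi_eq h1]
  have e : ∑ i ∈ range m', (((1 - p) * p ^ (c - m' + i) * (p / (1 - p) - ((c - m' + i : ℕ) : ℝ))
        - (1 - p) * p ^ c * (p / (1 - p) - c)) * dd g (x - 1 - (c - m' : ℕ) - i)
      + ((1 - p) * p ^ (c - m' + i) - (1 - p) * p ^ c) * dd f (x - 1 - (c - m' : ℕ) - i))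
      = (p / (1 - p) - c) * (∑ i ∈ range m', ((1 - p) * p ^ (c - m' + i) - (1 - p) * p ^ c) *
          dd g (x - 1 - (c - m' : ℕ) - i))
        + (1 - p) * (∑ i ∈ range m', ((m' : ℝ) - i) * p ^ (c - m' + i) *
          dd g (x - 1 - (c - m' : ℕ) - i))
        + (1 - p) * (∑ i ∈ range m', (p ^ (c - m' + i) - p ^ c) *
          dd f (x - 1 - (c - m' : ℕ) - i)) := by
    rw [mul_sum, mul_sum, mul_sum, ← sum_add_distrib, ← sum_add_distrib]
    refine sum_congr rfl (fun i _ => ?_)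
    push_cast [hmc]
    ring
  rw [e]
  ring

/-- `WinP` from the quotient form -/
theorem winP_of_quot (h : WSys p a m c m' g f) (h1 : p < 1) (hmc : m' ≤ c)
    {l k : ℕ} (hl : l ≤ a) (hk : k ≤ a + 1)
    (hw : 0 < (1 + hz p g (a + 1 - l)) * ((l : ℝ) - k) - c * hz p g (a + 1 - l)
      + f (a + 1 - l) / g (a + 1 - l) - (1 + hz p g (a + 1 - l)) * (f (a + 1 - k) / g (a + 1 - k))
      + rem p c m' g f (a + 1 - l) / g (a + 1 - l)) : WinP p a g f l k := by
  have hq : 0 < 1 - p := by linarith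
  have hgx : 0 < g (a + 1 - l) := h.g_pos _ (by omega)
  have hgX : 0 < g (a + 1 - k) := h.g_pos _ (by omega)
  have hf := h.dd_f h1 hmc (x := (a : ℤ) + 1 - l) (by omega)
  have e1 : g ((a : ℤ) - l) = dd g (a + 1 - l) + g (a + 1 - l) := by
    unfold dd
    rw [show (a : ℤ) + 1 - l - 1 = a - l by ring]
    ring
  have e2 : f ((a : ℤ) - l) = dd f (a + 1 - l) + f (a + 1 - l) := by
    unfold dd
    rw [show (a : ℤ) + 1 - l - 1 = a - l by ring]
    ring
  have e3 : dd g (a + 1 - l) = (1 - p) * g (a + 1 - l) * hz p g (a + 1 - l) := by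
    unfold hz
    field_simp
  unfold WinP
  rw [e1, e2, hf, e3]
  set H := hz p g ((a : ℤ) + 1 - l)
  set R := rem p c m' g f ((a : ℤ) + 1 - l)
  set gx := g ((a : ℤ) + 1 - l)
  set gX := g ((a : ℤ) + 1 - k)
  set fx := f ((a : ℤ) + 1 - l)
  set fX := f ((a : ℤ) + 1 - k)
  have key : (l * ((1 - p) * gx * H + gx - p * gx) + ((p / (1 - p) - c) * ((1 - p) * gx * H)
      + (1 - p) * R + fx) - p * fx + p * gx) * gX
      - ((p / (1 - p) + k) * gX + fX) * ((1 - p) * gx * H + gx - p * gx)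
      = ((1 + H) * ((l : ℝ) - k) - c * H + fx / gx - (1 + H) * (fX / gX) + R / gx)
        * ((1 - p) * gx * gX) := by
    field_simp
    ring
  have := mul_pos hw (mul_pos (mul_pos hq hgx) hgX)
  rw [← key] at this
  linarith

/-- one step of the reduction: `(f/g)` grows by at most `1` -/
theorem quot_step {t : ℤ} (h1 : 0 < g (t - 1)) (h2 : 0 < g t)
    (hs : -dd f t * g (t - 1) + f (t - 1) * dd g t ≤ g (t - 1) * g t) :
    f t / g t - f (t - 1) / g (t - 1) ≤ 1 := by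
  rw [div_sub_div _ _ h2.ne' h1.ne', div_le_one (mul_pos h2 h1)]
  unfold dd at hs
  nlinarith

/-- the reduction to `X0` -/
theorem quot_le {X0 : ℤ} (h0 : 0 ≤ X0) (hpos : ∀ x : ℤ, 0 ≤ x → 0 < g x) (n : ℕ)
    (hs : ∀ t : ℤ, X0 < t → t ≤ X0 + n →
      -dd f t * g (t - 1) + f (t - 1) * dd g t ≤ g (t - 1) * g t) :
    f (X0 + n) / g (X0 + n) - f X0 / g X0 ≤ n := by
  induction n with
  | zero => simp
  | succ n ih =>
    have h2 := ih (fun t ht ht2 => hs t ht (by push_cast; omega))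
    have h3 := quot_step (g := g) (f := f) (t := X0 + ((n + 1 : ℕ) : ℤ)) (hpos _ (by push_cast; omega))
      (hpos _ (by push_cast; omega)) (hs _ (by push_cast; omega) le_rfl)
    rw [show X0 + ((n + 1 : ℕ) : ℤ) - 1 = X0 + n by push_cast; ring] at h3
    push_cast at h3 ⊢
    linarith

/-- `H ≥ 0` -/
theorem hz_nonneg (h : WSys p a m c m' g f) (h1 : p < 1) {x : ℤ} (hx : 1 ≤ x) : 0 ≤ hz p g x := by
  unfold hz
  have := h.mono x hx
  have := h.g_pos x (by omega)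
  have : 0 < 1 - p := by linarith
  positivity

/-- all pairs from the pairs with `X = x + z + 1` -/
theorem winP_of_main (h : WSys p a m c m' g f) (h1 : p < 1) (hca : c < a)
    (hw : a - c < m' - m) (h2 : 2 * m' ≤ c) {l k : ℕ} (hcl : c < l) (hl : l ≤ a)
    (hmk : m < k) (hk : k ≤ m')
    (hs : ∀ t : ℤ, (a : ℤ) + 1 - l + (c - m' : ℕ) + 1 < t → t ≤ a - m →
      -dd f t * g (t - 1) + f (t - 1) * dd g t ≤ g (t - 1) * g t)
    (hmain : 0 < (1 + hz p g (a + 1 - l)) * (((c - m' : ℕ) : ℝ) + 1) - c * hz p g (a + 1 - l)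
      + f (a + 1 - l) / g (a + 1 - l)
      - (1 + hz p g (a + 1 - l)) *
        (f (a + 1 - l + (c - m' : ℕ) + 1) / g (a + 1 - l + (c - m' : ℕ) + 1))
      + rem p c m' g f (a + 1 - l) / g (a + 1 - l)) : WinP p a g f l k := by
  have hmc : m' ≤ c := by omega
  refine h.winP_of_quot h1 hmc hl (by omega) (lt_of_lt_of_le hmain ?_)
  have hH := h.hz_nonneg h1 (x := (a : ℤ) + 1 - l) (by omega)
  obtain ⟨n, hn⟩ : ∃ n : ℕ, l = k + (c - m') + 1 + n := ⟨l - (k + (c - m') + 1), by omega⟩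
  have h3 := quot_le (g := g) (f := f) (X0 := (a : ℤ) + 1 - l + (c - m' : ℕ) + 1) (by omega)
    h.g_pos n (fun t ht ht2 => hs t ht (by omega))
  have e1 : (a : ℤ) + 1 - l + (c - m' : ℕ) + 1 + n = a + 1 - k := by
    rw [hn]; push_cast; ring
  rw [e1] at h3
  have e2 : ((l : ℝ) - k) = ((c - m' : ℕ) : ℝ) + 1 + n := by
    rw [hn]; push_cast; ring
  rw [e2]
  set H := hz p g ((a : ℤ) + 1 - l)
  have h4 := mul_le_mul_of_nonneg_left h3 (by linarith : 0 ≤ 1 + H)
  linarith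

end WSys

end Coin
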