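import Pool.Agent.Lib.Coin.WinSys
import Pool.Agent.Lib.Coin.WE2

/-!
# Coin race, one-tail window: the sign of the reflection correction (module M6a)
-/

namespace Coin

open Finset

theorem wz_eq_WZ (a b : ℕ → ℝ) (k : ℤ) : wz a b k = WZ a b k := rfl

theorem gz_eq_cr (b : ℕ → ℝ) (k : ℤ) : gz b k = cr b b k := rfl

/-- the point weights as a mixture over the law of `A` -/
theorem yz_mix {a b : ℕ → ℝ} (ha : IsProb a) (hb : IsProb b) (k : ℤ) :
    yz a b k = ∑' i : ℕ, a i * gz b (k - i) := FZ_eq ha hb k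

theorem gz_coe (b : ℕ → ℝ) (n : ℕ) : gz b n = lag b n := by
  unfold gz lag
  refine tsum_congr (fun j => ?_)
  rw [show (j : ℤ) + n = ((j + n : ℕ) : ℤ) by push_cast; ring, ext_coe]

theorem gz_natAbs (b : ℕ → ℝ) (k : ℤ) : gz b k = lag b k.natAbs := by
  rcases Int.natAbs_eq k with h | h
  · have h2 : gz b k = gz b (k.natAbs : ℤ) := by rw [← h]
    rw [h2, gz_coe]
  · have h2 : gz b k = gz b (-(k.natAbs : ℤ)) := by rw [← h]
    rw [h2, gz_neg, gz_coe]

/-- `P(B' - B = k)` decreases with the distance from `0` -/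
theorem gz_le {b : ℕ → ℝ} (hb : IsProb b) {LB : ℕ} (hb0 : ∀ n < LB, b n = 0)
    (hba : ∀ n, LB ≤ n → b (n + 1) ≤ b n) {j k : ℤ} (h : |j| ≤ |k|) : gz b k ≤ gz b j := by
  rw [gz_natAbs, gz_natAbs]
  refine lag_antitone hb hb0 hba ?_
  have := h
  rw [Int.abs_eq_natAbs, Int.abs_eq_natAbs] at this
  exact_mod_cast this

theorem gz_le_one {b : ℕ → ℝ} (hb : IsProb b) (k : ℤ) : gz b k ≤ 1 := by
  rw [gz_natAbs]; exact lag_le_one hb _

/-- a sum against nonincreasing nonnegative weights is nonnegative if all partial sums are -/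
theorem abel_nonneg {α φ : ℕ → ℝ} (hα : ∀ v, 0 ≤ α v) (hanti : ∀ v, α (v + 1) ≤ α v)
    (hΦ : ∀ V, 0 ≤ ∑ v ∈ range (V + 1), φ v) (N : ℕ) : 0 ≤ ∑ v ∈ range N, α v * φ v := by
  have key : ∀ N, ∑ v ∈ range (N + 1), α v * φ v
      = α N * ∑ v ∈ range (N + 1), φ v
        + ∑ V ∈ range N, (α V - α (V + 1)) * ∑ v ∈ range (V + 1), φ v := by
    intro N
    induction N with
    | zero => simp
    | succ N ih =>
      rw [sum_range_succ, ih, sum_range_succ φ (N + 1),
        sum_range_succ (fun V => (α V - α (V + 1)) * ∑ v ∈ range (V + 1), φ v) N]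
      ring
  cases N with
  | zero => simp
  | succ N =>
    rw [key]
    refine add_nonneg (mul_nonneg (hα N) (hΦ N)) (sum_nonneg (fun V _ => ?_))
    exact mul_nonneg (by linarith [hanti V]) (hΦ V)

/-- the increments above `|A|` are at most the reflected ones -/
theorem wz_refl_le {a b : ℕ → ℝ} (ha : IsProb a) (hb : IsProb b) {L LB : ℕ}
    (ha0 : ∀ n < L + 1, a n = 0) (haa : ∀ n, L + 1 ≤ n → a (n + 1) ≤ a n)
    (hb0 : ∀ n < LB, b n = 0) (hba : ∀ n, LB ≤ n → b (n + 1) ≤ b n) (n : ℕ) :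
    wz a b (L + 2 + n) - wz a b (L + 1 + n) ≤ wz a b (L + 1 - n) - wz a b (L - n) := by
  have hs : ∀ k : ℤ, Summable (fun i : ℕ => a i * gz b (k - i)) := fun k =>
    Summable.of_nonneg_of_le (fun i => mul_nonneg (ha.nonneg i) (gz_nonneg hb _))
      (fun i => mul_le_of_le_one_right (ha.nonneg i) (gz_le_one hb _)) ha.summable
  have hy : ∀ k : ℤ, HasSum (fun v : ℕ => a (L + 1 + v) * gz b (k - (L + 1) - v)) (yz a b k) := by
    intro k
    rw [yz_mix ha hb]
    have h2 : ∑ i ∈ range (L + 1), a i * gz b (k - i) = 0 :=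
      sum_eq_zero (fun i hi => by rw [ha0 i (mem_range.mp hi), zero_mul])
    have h3 : HasSum (fun v : ℕ => a (v + (L + 1)) * gz b (k - ((v + (L + 1) : ℕ) : ℤ)))
        (∑' i : ℕ, a i * gz b (k - i)) := by
      have h4 := (hasSum_nat_add_iff' (f := fun i : ℕ => a i * gz b (k - i)) (L + 1)).mpr
        (hs k).hasSum
      rw [h2, sub_zero] at h4
      exact h4
    refine h3.congr_fun ?_
    intro v
    rw [show v + (L + 1) = L + 1 + v by ring]
    congr 2
    push_cast; ring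
  set φ : ℕ → ℝ := fun v => gz b ((n : ℤ) + v) - gz b ((n : ℤ) + 2 + v)
    - (gz b ((n : ℤ) + 1 - v) - gz b ((n : ℤ) - 1 - v)) with hφ
  have hsum : HasSum (fun v : ℕ => a (L + 1 + v) * φ v)
      ((wz a b (L + 1 - n) - wz a b (L - n)) - (wz a b (L + 2 + n) - wz a b (L + 1 + n))) := by
    have e1 := hy ((L : ℤ) + 1 - n)
    have e2 := hy ((L : ℤ) - n - 1)
    have e3 := hy ((L : ℤ) + 2 + n)
    have e4 := hy ((L : ℤ) + 1 + n - 1)
    have e5 := (e1.sub e2).sub (e3.sub e4)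
    have e6 : (yz a b ((L : ℤ) + 1 - n) - yz a b ((L : ℤ) - n - 1)
        - (yz a b ((L : ℤ) + 2 + n) - yz a b ((L : ℤ) + 1 + n - 1)))
        = ((wz a b (L + 1 - n) - wz a b (L - n)) - (wz a b (L + 2 + n) - wz a b (L + 1 + n))) := by
      unfold wz
      rw [show (L : ℤ) + 1 - n - 1 = L - n by ring, show (L : ℤ) + 2 + n - 1 = L + 1 + n by ring]
      ring
    rw [← e6]
    refine e5.congr_fun ?_
    intro v
    have g1 : gz b ((L : ℤ) + 1 - n - (L + 1) - v) = gz b ((n : ℤ) + v) := by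
      rw [show (L : ℤ) + 1 - n - (L + 1) - v = -((n : ℤ) + v) by ring, gz_neg]
    have g2 : gz b ((L : ℤ) - n - 1 - (L + 1) - v) = gz b ((n : ℤ) + 2 + v) := by
      rw [show (L : ℤ) - n - 1 - (L + 1) - v = -((n : ℤ) + 2 + v) by ring, gz_neg]
    have g3 : (L : ℤ) + 2 + n - (L + 1) - v = (n : ℤ) + 1 - v := by ring
    have g4 : (L : ℤ) + 1 + n - 1 - (L + 1) - v = (n : ℤ) - 1 - v := by ring
    rw [g1, g2, g3, g4]
    simp only [hφ]
    ring
  have hΦ : ∀ V : ℕ, ∑ v ∈ range (V + 1), φ v = gz b ((n : ℤ) - V) + gz b ((n : ℤ) - 1 - V)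
      - gz b ((n : ℤ) + V + 1) - gz b ((n : ℤ) + V + 2) := by
    intro V
    induction V with
    | zero =>
      simp [hφ]
      ring
    | succ V ih =>
      rw [sum_range_succ, ih]
      simp only [hφ]
      push_cast
      rw [show (n : ℤ) + (V + 1) = n + V + 1 by ring,
        show (n : ℤ) + 2 + (V + 1) = n + (V + 1) + 2 by ring,
        show (n : ℤ) + 1 - (V + 1) = n - V by ring,
        show (n : ℤ) - 1 - (V + 1) = n - 1 - (V + 1) by ring,
        show (n : ℤ) - (V + 1) = n - 1 - V by ring,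
        show (n : ℤ) + V + 1 + 1 = n + V + 2 by ring]
      ring
  have hpart : ∀ N : ℕ, 0 ≤ ∑ v ∈ range N, a (L + 1 + v) * φ v := by
    intro N
    refine abel_nonneg (fun v => ha.nonneg _) (fun v => ?_) (fun V => ?_) N
    · exact haa (L + 1 + v) (by omega)
    · rw [hΦ]
      have h1 : gz b ((n : ℤ) + V + 1) ≤ gz b ((n : ℤ) - V) := by
        refine gz_le hb hb0 hba ?_
        rw [abs_of_nonneg (by positivity : (0 : ℤ) ≤ (n : ℤ) + V + 1)]
        rw [abs_le]; constructor <;> omega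
      have h2 : gz b ((n : ℤ) + V + 2) ≤ gz b ((n : ℤ) - 1 - V) := by
        refine gz_le hb hb0 hba ?_
        rw [abs_of_nonneg (by positivity : (0 : ℤ) ≤ (n : ℤ) + V + 2)]
        rw [abs_le]; constructor <;> omega
      linarith
  have hlim := hsum.tendsto_sum_nat
  have := ge_of_tendsto' hlim hpart
  linarith

/-- the reflection correction is nonnegative -/
theorem win_Gam_nonneg {p : ℝ} {a m c m' : ℕ} {α β : ℕ → ℝ} (hA : OneT p a m α)
    (hB : OneT p c m' β) (n : ℕ) :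
    wz α β (a + 2 + n) - wz α β (a + 1 + n) ≤ wz α β (a + 1 - n) - wz α β (a - n) :=
  wz_refl_le hA.prob hB.prob hA.low hA.anti hB.low hB.anti n

end Coin
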