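import Pool.Agent.Lib.Coin.WinGlue
import Pool.Agent.Lib.Coin.WinRefl

/-!
# Coin race, one-tail window: the closed system as a statement about real sequences (module M6a)

`g x = w_(a+1-x) / w_(a+1)`, `f x = -p (d/dp) g x`.
-/

namespace Coin

open Finset Filter

/-! ### the derivation `-p d/dp` -/

/-- `v` is the value at `p` of `-p F'` -/
def HasD (F : ℝ → ℝ) (v p : ℝ) : Prop := HasDerivAt F (-v / p) p

namespace HasD

variable {F G : ℝ → ℝ} {u v p : ℝ}

theorem unique (hp : p ≠ 0) (h1 : HasD F u p) (h2 : HasD F v p) : u = v := by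
  have := HasDerivAt.unique h1 h2
  field_simp at this
  linarith

theorem add (h1 : HasD F u p) (h2 : HasD G v p) : HasD (fun x => F x + G x) (u + v) p := by
  have := HasDerivAt.add h1 h2
  refine HasDerivAt.congr_deriv this ?_
  ring

theorem sub (h1 : HasD F u p) (h2 : HasD G v p) : HasD (fun x => F x - G x) (u - v) p := by
  have := HasDerivAt.sub h1 h2
  refine HasDerivAt.congr_deriv this ?_
  ring

theorem mul (h1 : HasD F u p) (h2 : HasD G v p) :
    HasD (fun x => F x * G x) (u * G p + F p * v) p := by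
  have := HasDerivAt.mul h1 h2
  refine HasDerivAt.congr_deriv this ?_
  ring

theorem sum {ι : Type*} {s : Finset ι} {F : ι → ℝ → ℝ} {v : ι → ℝ}
    (h : ∀ i ∈ s, HasD (F i) (v i) p) : HasD (fun x => ∑ i ∈ s, F i x) (∑ i ∈ s, v i) p := by
  have := HasDerivAt.fun_sum (u := s) (A := F) (A' := fun i => -v i / p) (x := p) h
  refine HasDerivAt.congr_deriv this ?_
  rw [← sum_neg_distrib, sum_div]

theorem congr (h : HasD F u p) (h2 : F =ᶠ[nhds p] G) : HasD G u p :=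
  HasDerivAt.congr_of_eventuallyEq h h2.symm

theorem const (c : ℝ) (p : ℝ) : HasD (fun _ => c) 0 p := by
  unfold HasD
  rw [neg_zero, zero_div]
  exact hasDerivAt_const p c

end HasD

/-- `p^n (p - n (1-p)) = -p d/dp ((1-p) p^n)` -/
noncomputable def psi (p : ℝ) (n : ℕ) : ℝ := p ^ n * (p - n * (1 - p))

theorem hasD_pow {p : ℝ} (hp : p ≠ 0) (n : ℕ) : HasD (fun x => x ^ n) (-(n : ℝ) * p ^ n) p := by
  unfold HasD
  have h := (hasDerivAt_id p).pow n
  refine HasDerivAt.congr_deriv h ?_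
  rcases Nat.eq_zero_or_pos n with hn | hn
  · simp [hn]
  · have h4 : p ^ n = p ^ (n - 1) * p := by rw [← pow_succ, Nat.sub_add_cancel hn]
    simp only [id, mul_one]
    rw [h4]
    field_simp

theorem hasD_inv {p : ℝ} (hp : p ≠ 0) (n : ℕ) :
    HasD (fun x => 1 / x ^ n) ((n : ℝ) * (1 / p ^ n)) p := by
  unfold HasD
  have h2 := ((hasDerivAt_id p).pow n).inv (pow_ne_zero n hp)
  have h3 : (fun x : ℝ => 1 / x ^ n) = (fun x : ℝ => x ^ n)⁻¹ := by
    funext x
    simp [one_div]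
  rw [h3]
  refine h2.congr_deriv ?_
  rcases Nat.eq_zero_or_pos n with hn | hn
  · simp [hn]
  · have h4 : p ^ n = p ^ (n - 1) * p := by rw [← pow_succ, Nat.sub_add_cancel hn]
    simp only [id, mul_one, Pi.pow_apply]
    rw [h4]
    have h5 : p ^ (n - 1) ≠ 0 := pow_ne_zero _ hp
    field_simp

theorem hasD_one_sub {p : ℝ} (hp : p ≠ 0) : HasD (fun x => 1 - x) p p := by
  unfold HasD
  have h := (hasDerivAt_const p (1 : ℝ)).sub (hasDerivAt_id p)
  refine h.congr_deriv ?_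
  field_simp
  ring

theorem hasD_qpow {p : ℝ} (hp : p ≠ 0) (n : ℕ) : HasD (fun x => (1 - x) * x ^ n) (psi p n) p := by
  have h := (hasD_one_sub hp).mul (hasD_pow hp n)
  have e : p * p ^ n + (1 - p) * (-(n : ℝ) * p ^ n) = psi p n := by
    unfold psi; ring
  rw [e] at h
  exact h

/-! ### the system -/

/-- the decrement `g (x-1) - g x` -/
def dd (g : ℤ → ℝ) (x : ℤ) : ℝ := g (x - 1) - g x

/-- the reflection correction divided by `(1-p) p^a` -/
noncomputable def Gam (p : ℝ) (a m : ℕ) (g : ℤ → ℝ) (n : ℤ) : ℝ :=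
  (g (a - n) - g (a + 1 + n))
    + ∑ j ∈ Icc 1 m, 1 / p ^ j * (dd g (a + 1 - n - j) - dd g (a + 2 + n - j))

/-- its derivative -/
noncomputable def dGam (p : ℝ) (a m : ℕ) (g f : ℤ → ℝ) (n : ℤ) : ℝ :=
  (f (a - n) - f (a + 1 + n))
    + ∑ j ∈ Icc 1 m, 1 / p ^ j * ((j : ℝ) * (dd g (a + 1 - n - j) - dd g (a + 2 + n - j))
      + (dd f (a + 1 - n - j) - dd f (a + 2 + n - j)))

/-- the closed system of the one-tail window, `z = c - m'` -/
structure WSys (p : ℝ) (a m c m' : ℕ) (g f : ℤ → ℝ) : Prop where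
  g_zero : g 0 = 1
  f_zero : f 0 = 0
  g_pos : ∀ x : ℤ, 0 ≤ x → 0 < g x
  mono : ∀ x : ℤ, 1 ≤ x → 0 ≤ dd g x
  eqB : ∀ x : ℤ, 1 ≤ x → dd g x = (1 - p) * p ^ c * g (x - 1 - (c - m' : ℕ))
    - ∑ i ∈ range m', ((1 - p) * p ^ (c - m' + i) - (1 - p) * p ^ c) *
      dd g (x - 1 - (c - m' : ℕ) - i)
  eqBd : ∀ x : ℤ, 1 ≤ x → dd f x = psi p c * g (x - 1 - (c - m' : ℕ))
      + (1 - p) * p ^ c * f (x - 1 - (c - m' : ℕ))
    - ∑ i ∈ range m', ((psi p (c - m' + i) - psi p c) * dd g (x - 1 - (c - m' : ℕ) - i)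
      + ((1 - p) * p ^ (c - m' + i) - (1 - p) * p ^ c) * dd f (x - 1 - (c - m' : ℕ) - i))
  eqR : ∀ n : ℤ, dd g (-n) = dd g (n + 1) - (1 - p) * p ^ a * Gam p a m g n
  eqRd : ∀ n : ℤ, dd f (-n) = dd f (n + 1)
    - (psi p a * Gam p a m g n + (1 - p) * p ^ a * dGam p a m g f n)
  gam_nonneg : ∀ n : ℤ, 0 ≤ n → 0 ≤ Gam p a m g n
  tie : p ^ (a - c) * g ((a : ℤ) - c)
    + (1 - p) * ∑ j ∈ Icc (m + 1) m', p ^ (a - j) * g ((a : ℤ) + 1 - j) = 1

/-- the pair inequality in the lag notation -/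
def WinP (p : ℝ) (a : ℕ) (g f : ℤ → ℝ) (l k : ℕ) : Prop :=
  ((p / (1 - p) + k) * g (a + 1 - k) + f (a + 1 - k)) * (g (a - l) - p * g (a + 1 - l))
    < (l * (g (a - l) - p * g (a + 1 - l)) + f (a - l) - p * f (a + 1 - l)
        + p * g (a + 1 - l)) * g (a + 1 - k)

section Norm

variable {p : ℝ} {a m c m' : ℕ} {α β : ℕ → ℝ}

theorem norm_eqB (h0 : 0 < p) (h1 : p < 1) (hA : OneT p a m α) (hB : OneT p c m' β) {x : ℤ}
    (hx : 1 ≤ x) :
    dd (fun x => wz α β (a + 1 - x) / wz α β (a + 1)) x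
      = (1 - p) * p ^ c * (wz α β (a + 1 - (x - 1 - (c - m' : ℕ))) / wz α β (a + 1))
        - ∑ i ∈ range m', ((1 - p) * p ^ (c - m' + i) - (1 - p) * p ^ c) *
          dd (fun x => wz α β (a + 1 - x) / wz α β (a + 1)) (x - 1 - (c - m' : ℕ) - i) := by
  have h2 := hB.two_le
  have hcm : m' ≤ c := by omega
  have h := winB' h0 h1 hA hB (k := a + 1 - x) (by omega)
  -- the sum over `j` becomes a sum over `i = m' - j`
  set w : ℤ → ℝ := wz α β with hw
  have hpm : ∀ i, i < m' → p ^ c * (1 / p ^ (m' - i)) = p ^ (c - m' + i) := by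
    intro i hi
    have : p ^ c = p ^ (c - m' + i) * p ^ (m' - i) := by rw [← pow_add]; congr 1; omega
    rw [this]
    have : p ^ (m' - i) ≠ 0 := pow_ne_zero _ h0.ne'
    field_simp
  have hre : ∑ j ∈ Icc 1 m', 1 / p ^ j * (w (a + 1 - x + c + 2 - j) - w (a + 1 - x + c + 1 - j))
      = ∑ i ∈ range m', 1 / p ^ (m' - i) *
        (w (a + 1 - (x - 1 - (c - m' : ℕ) - i - 1)) - w (a + 1 - (x - 1 - (c - m' : ℕ) - i))) := by
    refine sum_bij' (fun j _ => m' - j) (fun i _ => m' - i) ?_ ?_ ?_ ?_ ?_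
    · intro j hj; rw [mem_Icc] at hj; rw [mem_range]; omega
    · intro i hi; rw [mem_range] at hi; rw [mem_Icc]; omega
    · intro j hj; rw [mem_Icc] at hj; omega
    · intro i hi; rw [mem_range] at hi; omega
    · intro j hj
      rw [mem_Icc] at hj
      have e0 : m' - (m' - j) = j := by omega
      have e1 : (a : ℤ) + 1 - x + c + 2 - j
          = a + 1 - (x - 1 - (c - m' : ℕ) - ((m' - j : ℕ) : ℤ) - 1) := by
        push_cast [hcm, hj.2]; ring
      have e2 : (a : ℤ) + 1 - x + c + 1 - j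
          = a + 1 - (x - 1 - (c - m' : ℕ) - ((m' - j : ℕ) : ℤ)) := by
        push_cast [hcm, hj.2]; ring
      rw [e0, e1, e2]
  have htel : w (a + 1 - x + c + 1) = w (a + 1 - (x - 1 - (c - m' : ℕ)))
      + ∑ i ∈ range m',
        (w (a + 1 - (x - 1 - (c - m' : ℕ) - i - 1)) - w (a + 1 - (x - 1 - (c - m' : ℕ) - i))) := by
    have h3 := Finset.sum_range_sub (fun i : ℕ => w (a + 1 - (x - 1 - (c - m' : ℕ) - i))) m'
    have e3 : ∀ i : ℕ, (a : ℤ) + 1 - (x - 1 - (c - m' : ℕ) - i - 1)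
        = a + 1 - (x - 1 - (c - m' : ℕ) - ((i + 1 : ℕ) : ℤ)) := by
      intro i; push_cast; ring
    simp only [e3]
    rw [h3]
    have e4 : (a : ℤ) + 1 - (x - 1 - (c - m' : ℕ) - (m' : ℤ)) = a + 1 - x + c + 1 := by
      push_cast [hcm]; ring
    rw [e4]
    simp
  rw [hre, htel] at h
  have e5 : (a : ℤ) + 1 - x + 1 = a + 1 - (x - 1) := by ring
  rw [e5] at h
  unfold dd
  simp only
  rw [div_sub_div_same, h, ← mul_div_assoc, eq_comm]
  have e6 : ∑ i ∈ range m', ((1 - p) * p ^ (c - m' + i) - (1 - p) * p ^ c) *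
        (w (a + 1 - (x - 1 - (c - m' : ℕ) - i - 1)) / w (a + 1)
          - w (a + 1 - (x - 1 - (c - m' : ℕ) - i)) / w (a + 1))
      = (∑ i ∈ range m', ((1 - p) * p ^ (c - m' + i) - (1 - p) * p ^ c) *
        (w (a + 1 - (x - 1 - (c - m' : ℕ) - i - 1))
          - w (a + 1 - (x - 1 - (c - m' : ℕ) - i)))) / w (a + 1) := by
    rw [sum_div]
    refine sum_congr rfl (fun i _ => ?_)
    ring
  rw [e6, div_sub_div_same]
  congr 1
  have e7 : ∑ i ∈ range m', ((1 - p) * p ^ (c - m' + i) - (1 - p) * p ^ c) *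
        (w (a + 1 - (x - 1 - (c - m' : ℕ) - i - 1))
          - w (a + 1 - (x - 1 - (c - m' : ℕ) - i)))
      = (1 - p) * p ^ c * (∑ i ∈ range m', 1 / p ^ (m' - i) *
        (w (a + 1 - (x - 1 - (c - m' : ℕ) - i - 1))
          - w (a + 1 - (x - 1 - (c - m' : ℕ) - i))))
        - (1 - p) * p ^ c * ∑ i ∈ range m',
        (w (a + 1 - (x - 1 - (c - m' : ℕ) - i - 1))
          - w (a + 1 - (x - 1 - (c - m' : ℕ) - i))) := by
    rw [mul_sum, mul_sum, ← sum_sub_distrib]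
    refine sum_congr rfl (fun i hi => ?_)
    rw [← hpm i (mem_range.mp hi)]
    ring
  rw [e7]
  ring

theorem norm_eqR (h0 : 0 < p) (h1 : p < 1) (hA : OneT p a m α) (hb : IsProb β) (n : ℤ) :
    dd (fun x => wz α β (a + 1 - x) / wz α β (a + 1)) (-n)
      = dd (fun x => wz α β (a + 1 - x) / wz α β (a + 1)) (n + 1)
        - (1 - p) * p ^ a * Gam p a m (fun x => wz α β (a + 1 - x) / wz α β (a + 1)) n := by
  have hq : (1 - p) ≠ 0 := by intro h; linarith
  have hp : p ≠ 0 := h0.ne'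
  have h := wz_refl hA.ren hA.prob hb (n + 1)
  rw [hA.sum_eq (fun j => wz α β (n + 1 + j) - wz α β (n + 1 + j - 1)),
    hA.sum_eq (fun j => wz α β (1 - (n + 1) + j) - wz α β (1 - (n + 1) + j - 1))] at h
  set w : ℤ → ℝ := wz α β with hw
  have e1 : n + 1 + ((a + 1 : ℕ) : ℤ) = a + 1 - (-n - 1) := by push_cast; ring
  have e2 : (a : ℤ) + 1 - (-n - 1) - 1 = a + 1 - -n := by ring
  have e3 : 1 - (n + 1) + ((a + 1 : ℕ) : ℤ) = a + 1 - (n + 1 - 1) := by push_cast; ring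
  have e4 : (a : ℤ) + 1 - (n + 1 - 1) - 1 = a + 1 - (n + 1) := by ring
  rw [e1, e2, e3, e4] at h
  have hG : Gam p a m (fun x => w (a + 1 - x) / w (a + 1)) n
      = ((w (n + 1) + ∑ j ∈ Icc 1 m, 1 / p ^ j * (w (n + 1 + j) - w (n + 1 + j - 1)))
        - (w (1 - (n + 1)) + ∑ j ∈ Icc 1 m, 1 / p ^ j *
          (w (1 - (n + 1) + j) - w (1 - (n + 1) + j - 1)))) / w (a + 1) := by
    unfold Gam dd
    simp only
    have t1 : (a : ℤ) + 1 - (a - n) = n + 1 := by ring
    have t2 : (a : ℤ) + 1 - (a + 1 + n) = 1 - (n + 1) := by ring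
    rw [t1, t2]
    have t3 : ∑ j ∈ Icc 1 m, 1 / p ^ j * (w (a + 1 - (a + 1 - n - j - 1)) / w (a + 1)
          - w (a + 1 - (a + 1 - n - j)) / w (a + 1)
          - (w (a + 1 - (a + 2 + n - j - 1)) / w (a + 1)
            - w (a + 1 - (a + 2 + n - j)) / w (a + 1)))
        = ((∑ j ∈ Icc 1 m, 1 / p ^ j * (w (n + 1 + j) - w (n + 1 + j - 1)))
          - ∑ j ∈ Icc 1 m, 1 / p ^ j * (w (1 - (n + 1) + j) - w (1 - (n + 1) + j - 1)))
            / w (a + 1) := by
      rw [← sum_sub_distrib, sum_div]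
      refine sum_congr rfl (fun j _ => ?_)
      have u1 : (a : ℤ) + 1 - (a + 1 - n - j - 1) = n + 1 + j := by ring
      have u2 : (a : ℤ) + 1 - (a + 1 - n - j) = n + 1 + j - 1 := by ring
      have u3 : (a : ℤ) + 1 - (a + 2 + n - j - 1) = 1 - (n + 1) + j := by ring
      have u4 : (a : ℤ) + 1 - (a + 2 + n - j) = 1 - (n + 1) + j - 1 := by ring
      rw [u1, u2, u3, u4]
      ring
    rw [t3]
    ring
  rw [hG]
  unfold dd
  simp only
  have hc : p ^ a * (1 - p) ≠ 0 := mul_ne_zero (pow_ne_zero _ hp) hq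
  have h5 : 1 / (p ^ a * (1 - p)) * (w (a + 1 - (-n - 1)) - w (a + 1 - -n))
      = 1 / (p ^ a * (1 - p)) * (w (a + 1 - (n + 1 - 1)) - w (a + 1 - (n + 1)))
        - ((w (n + 1) + ∑ j ∈ Icc 1 m, 1 / p ^ j * (w (n + 1 + j) - w (n + 1 + j - 1)))
        - (w (1 - (n + 1)) + ∑ j ∈ Icc 1 m, 1 / p ^ j *
          (w (1 - (n + 1) + j) - w (1 - (n + 1) + j - 1)))) := by
    linarith
  have h6 : w (a + 1 - (-n - 1)) - w (a + 1 - -n)
      = (w (a + 1 - (n + 1 - 1)) - w (a + 1 - (n + 1)))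
        - (p ^ a * (1 - p)) *
        ((w (n + 1) + ∑ j ∈ Icc 1 m, 1 / p ^ j * (w (n + 1 + j) - w (n + 1 + j - 1)))
        - (w (1 - (n + 1)) + ∑ j ∈ Icc 1 m, 1 / p ^ j *
          (w (1 - (n + 1) + j) - w (1 - (n + 1) + j - 1)))) := by
    have h7 : w (a + 1 - (-n - 1)) - w (a + 1 - -n)
        = (p ^ a * (1 - p)) * (1 / (p ^ a * (1 - p)) * (w (a + 1 - (-n - 1)) - w (a + 1 - -n))) := by
      field_simp
    rw [h7, h5]
    field_simp
  rw [div_sub_div_same, h6, sub_div, div_sub_div_same]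
  ring

end Norm

/-! ### the system for two words -/

section Words

variable {A B : List Bool} {a m c m' : ℕ} {p : ℝ}

/-- `w_(a+1-x) / w_(a+1)` as a function of `p` -/
noncomputable def gF (A B : List Bool) (a : ℕ) (p : ℝ) (x : ℤ) : ℝ :=
  wz (pm p A) (pm p B) (a + 1 - x) / wz (pm p A) (pm p B) (a + 1)

theorem gF_eq (A B : List Bool) (a : ℕ) (p : ℝ) :
    gF A B a p = fun x => wz (pm p A) (pm p B) (a + 1 - x) / wz (pm p A) (pm p B) (a + 1) := rfl

theorem hasD_gF (h0 : 0 < p) {dw : ℤ → ℝ}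
    (hdw : ∀ k : ℤ, HasDerivAt (fun x => wz (pm x A) (pm x B) k) (dw k) p)
    (hpos : 0 < wz (pm p A) (pm p B) (a + 1)) (x : ℤ) :
    HasD (fun t => gF A B a t x)
      ((-p * dw (a + 1 - x) * wz (pm p A) (pm p B) (a + 1)
        - wz (pm p A) (pm p B) (a + 1 - x) * (-p * dw (a + 1)))
        / wz (pm p A) (pm p B) (a + 1) ^ 2) p := by
  unfold HasD
  have h := (hdw (a + 1 - x)).div (hdw (a + 1)) hpos.ne'
  refine HasDerivAt.congr_deriv h ?_
  have hp : p ≠ 0 := h0.ne'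
  field_simp
  ring

/-- differentiating an identity between functions of `p` on `(0,1)` -/
theorem HasD.eq_of_eq {F H : ℝ → ℝ} {u v : ℝ} (h0 : 0 < p) (h1 : p < 1) (hF : HasD F u p)
    (hH : HasD H v p) (h : ∀ x : ℝ, 0 < x → x < 1 → F x = H x) : u = v := by
  refine HasD.unique h0.ne' hF (hH.congr ?_)
  have hev : ∀ᶠ x in nhds p, 0 < x ∧ x < 1 :=
    (eventually_gt_nhds h0).and (eventually_lt_nhds h1)
  filter_upwards [hev] with x hx
  exact (h x hx.1 hx.2).symm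

theorem hasD_dd {g : ℝ → ℤ → ℝ} {f : ℤ → ℝ} (h : ∀ x, HasD (fun t => g t x) (f x) p) (x : ℤ) :
    HasD (fun t => dd (g t) x) (dd f x) p := (h (x - 1)).sub (h x)

theorem hasD_Gam (hp : p ≠ 0) {g : ℝ → ℤ → ℝ} {f : ℤ → ℝ}
    (h : ∀ x, HasD (fun t => g t x) (f x) p) (n : ℤ) :
    HasD (fun t => Gam t a m (g t) n) (dGam p a m (g p) f n) p := by
  unfold Gam dGam
  refine HasD.add ((h _).sub (h _)) (HasD.sum (fun j _ => ?_))
  have h2 := (hasD_inv hp j).mul ((hasD_dd h (a + 1 - n - j)).sub (hasD_dd h (a + 2 + n - j)))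
  refine HasDerivAt.congr_deriv h2 ?_
  ring

theorem wsys_of_words (h0 : 0 < p) (h1 : p < 1) (hA : A ≠ []) (hB : B ≠ []) (hca : c < a)
    (hm : m < m')
    (hbA : bc A = insert (a, 1) ((Icc 1 m).image (fun k => (k, 0))))
    (hbB : bc B = insert (c, 1) ((Icc 1 m').image (fun k => (k, 0))))
    (hoA : ∀ x : ℝ, 0 < x → x < 1 → OneT x a m (pm x A))
    (hoB : ∀ x : ℝ, 0 < x → x < 1 → OneT x c m' (pm x B))
    {dw : ℤ → ℝ}
    (hdw : ∀ k : ℤ, HasDerivAt (fun x => wz (pm x A) (pm x B) k) (dw k) p)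
    (hG : G p A B = 0) :
    WSys p a m c m' (gF A B a p) (fun x =>
      (-p * dw (a + 1 - x) * wz (pm p A) (pm p B) (a + 1)
        - wz (pm p A) (pm p B) (a + 1 - x) * (-p * dw (a + 1)))
        / wz (pm p A) (pm p B) (a + 1) ^ 2) := by
  have hp : p ≠ 0 := h0.ne'
  have hq : 0 < 1 - p := by linarith
  have hAp := hoA p h0 h1
  have hBp := hoB p h0 h1
  have hpos : 0 < wz (pm p A) (pm p B) (a + 1) := win_pos hAp hBp le_rfl
  set f : ℤ → ℝ := fun x => (-p * dw (a + 1 - x) * wz (pm p A) (pm p B) (a + 1)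
        - wz (pm p A) (pm p B) (a + 1 - x) * (-p * dw (a + 1)))
        / wz (pm p A) (pm p B) (a + 1) ^ 2 with hf
  have hD : ∀ x : ℤ, HasD (fun t => gF A B a t x) (f x) p := fun x => hasD_gF h0 hdw hpos x
  have hR : ∀ n : ℤ, dd (gF A B a p) (-n) = dd (gF A B a p) (n + 1)
      - (1 - p) * p ^ a * Gam p a m (gF A B a p) n := fun n => norm_eqR h0 h1 hAp hBp.prob n
  refine ⟨?_, ?_, ?_, ?_, ?_, ?_, ?_, ?_, ?_, ?_⟩
  · unfold gF
    rw [sub_zero]
    exact div_self hpos.ne'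
  · simp only [hf, sub_zero]
    ring
  · intro x hx
    exact div_pos (win_pos hAp hBp (by omega)) hpos
  · intro x hx
    unfold dd gF
    rw [div_sub_div_same]
    refine div_nonneg ?_ hpos.le
    have := win_mono hAp hBp (k := (a : ℤ) + 1 - x) (by omega)
    rw [show (a : ℤ) + 1 - x + 1 = a + 1 - (x - 1) by ring] at this
    linarith
  · intro x hx
    exact norm_eqB h0 h1 hAp hBp hx
  · intro x hx
    have e1 : HasD (fun t => (1 - t) * t ^ c * gF A B a t (x - 1 - (c - m' : ℕ))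
        - ∑ i ∈ range m', ((1 - t) * t ^ (c - m' + i) - (1 - t) * t ^ c) *
          dd (gF A B a t) (x - 1 - (c - m' : ℕ) - i))
        (psi p c * gF A B a p (x - 1 - (c - m' : ℕ))
          + (1 - p) * p ^ c * f (x - 1 - (c - m' : ℕ))
          - ∑ i ∈ range m', ((psi p (c - m' + i) - psi p c) *
            dd (gF A B a p) (x - 1 - (c - m' : ℕ) - i)
          + ((1 - p) * p ^ (c - m' + i) - (1 - p) * p ^ c) * dd f (x - 1 - (c - m' : ℕ) - i))) p := by
      refine HasD.sub ((hasD_qpow hp c).mul (hD _)) (HasD.sum (fun i _ => ?_))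
      exact ((hasD_qpow hp (c - m' + i)).sub (hasD_qpow hp c)).mul (hasD_dd hD _)
    exact HasD.eq_of_eq h0 h1 (hasD_dd hD x) e1
      (fun t ht0 ht1 => norm_eqB ht0 ht1 (hoA t ht0 ht1) (hoB t ht0 ht1) hx)
  · exact hR
  · intro n
    have e1 : HasD (fun t => dd (gF A B a t) (n + 1)
        - (1 - t) * t ^ a * Gam t a m (gF A B a t) n)
        (dd f (n + 1) - (psi p a * Gam p a m (gF A B a p) n
          + (1 - p) * p ^ a * dGam p a m (gF A B a p) f n)) p := by
      refine HasD.sub (hasD_dd hD _) ((hasD_qpow hp a).mul ?_)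
      exact hasD_Gam (g := fun t => gF A B a t) hp hD n
    exact HasD.eq_of_eq h0 h1 (hasD_dd hD (-n)) e1
      (fun t ht0 ht1 => norm_eqR ht0 ht1 (hoA t ht0 ht1) (hoB t ht0 ht1).prob n)
  · intro n hn
    obtain ⟨k, rfl⟩ := Int.eq_ofNat_of_zero_le hn
    have h2 := hR k
    have h3 := win_Gam_nonneg hAp hBp k
    have h4 : dd (gF A B a p) (-(k : ℤ)) ≤ dd (gF A B a p) (k + 1) := by
      unfold dd gF
      rw [div_sub_div_same, div_sub_div_same]
      refine div_le_div_of_nonneg_right ?_ hpos.le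
      rw [show (a : ℤ) + 1 - (-(k : ℤ) - 1) = a + 2 + k by ring,
        show (a : ℤ) + 1 - -(k : ℤ) = a + 1 + k by ring,
        show (a : ℤ) + 1 - ((k : ℤ) + 1 - 1) = a + 1 - k by ring,
        show (a : ℤ) + 1 - ((k : ℤ) + 1) = a - k by ring]
      exact h3
    have h5 : 0 < (1 - p) * p ^ a := by positivity
    by_contra hneg
    have h6 := not_le.mp hneg
    have h7 : (1 - p) * p ^ a * Gam p a m (gF A B a p) k < 0 := mul_neg_of_pos_of_neg h5 h6
    linarith
  · have h2 := G_eq_NM h0 h1 hA hB hca hm.le hbA hbB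
    rw [hG, mul_zero, telescope h0] at h2
    have e1 : c + (a - c) = a := by omega
    rw [e1] at h2
    have hpa : (0 : ℝ) < p ^ a := by positivity
    have h3 : p ^ (a - c) * wz (pm p A) (pm p B) ((c : ℕ) + 1)
        + (1 - p) * ∑ j ∈ Icc (m + 1) m', p ^ (a - j) * wz (pm p A) (pm p B) j
        = wz (pm p A) (pm p B) ((a : ℕ) + 1) := by
      have t1 : p ^ a * (1 / p ^ c) = p ^ (a - c) := by
        have : p ^ a = p ^ (a - c) * p ^ c := by rw [← pow_add]; congr 1; omega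
        rw [this]
        have : p ^ c ≠ 0 := pow_ne_zero _ hp
        field_simp
      have t2 : (1 - p) * ∑ j ∈ Icc (m + 1) m', p ^ (a - j) * wz (pm p A) (pm p B) j
          = p ^ a * ∑ k ∈ Icc (m + 1) m', (1 - p) * (1 / p ^ k) * wz (pm p A) (pm p B) k := by
        rw [mul_sum, mul_sum]
        refine sum_congr rfl (fun j hj => ?_)
        have hj' := (mem_Icc.mp hj).2
        have hmc := hBp.two_le
        have : p ^ a = p ^ (a - j) * p ^ j := by rw [← pow_add]; congr 1; omega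
        rw [this]
        have : p ^ j ≠ 0 := pow_ne_zero _ hp
        field_simp
      rw [t2, ← t1]
      have t3 : p ^ a * (1 / p ^ a) = 1 := by field_simp
      have h4 : p ^ a * 0 = p ^ a * (1 / p ^ a * wz (pm p A) (pm p B) ((a : ℕ) + 1)
          - 1 / p ^ c * wz (pm p A) (pm p B) ((c : ℕ) + 1)
          - ∑ k ∈ Icc (m + 1) m', (1 - p) * (1 / p ^ k) * wz (pm p A) (pm p B) k) := by rw [← h2]
      have h5 : p ^ a * (1 / p ^ a) * wz (pm p A) (pm p B) ((a : ℕ) + 1)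
          = p ^ a * (1 / p ^ c) * wz (pm p A) (pm p B) ((c : ℕ) + 1)
          + p ^ a * ∑ k ∈ Icc (m + 1) m', (1 - p) * (1 / p ^ k) * wz (pm p A) (pm p B) k := by
        linarith
      rw [t3, one_mul] at h5
      exact h5.symm
    unfold gF
    have e2 : (a : ℤ) + 1 - ((a : ℤ) - c) = (c : ℤ) + 1 := by ring
    have e3 : ∀ j : ℕ, (a : ℤ) + 1 - ((a : ℤ) + 1 - j) = j := fun j => by ring
    rw [e2]
    simp only [e3]
    have e4 : (1 - p) * ∑ j ∈ Icc (m + 1) m', p ^ (a - j) *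
          (wz (pm p A) (pm p B) j / wz (pm p A) (pm p B) (a + 1))
        = ((1 - p) * ∑ j ∈ Icc (m + 1) m', p ^ (a - j) * wz (pm p A) (pm p B) j)
          / wz (pm p A) (pm p B) (a + 1) := by
      rw [mul_div_assoc, sum_div]
      congr 1
      exact sum_congr rfl (fun j _ => by ring)
    rw [e4, ← mul_div_assoc, ← add_div, h3]
    exact div_self hpos.ne'

/-- from the lag notation back to the weights -/
theorem winIneq_of_winP (h0 : 0 < p) {dw : ℤ → ℝ}
    (hpos : 0 < wz (pm p A) (pm p B) (a + 1)) {l k : ℕ}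
    (h : WinP p a (gF A B a p) (fun x =>
      (-p * dw (a + 1 - x) * wz (pm p A) (pm p B) (a + 1)
        - wz (pm p A) (pm p B) (a + 1 - x) * (-p * dw (a + 1)))
        / wz (pm p A) (pm p B) (a + 1) ^ 2) l k) :
    WinIneq p (wz (pm p A) (pm p B)) (fun k => -p * dw k) l k := by
  unfold WinP gF at h
  unfold WinIneq
  have e1 : (a : ℤ) + 1 - (a + 1 - k) = k := by ring
  have e2 : (a : ℤ) + 1 - (a - l) = l + 1 := by ring
  have e3 : (a : ℤ) + 1 - (a + 1 - l) = l := by ring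
  simp only [e1, e2, e3] at h
  set w := wz (pm p A) (pm p B) with hw
  set W := w (a + 1) with hW
  have hW0 : W ≠ 0 := hpos.ne'
  have h2 := mul_lt_mul_of_pos_right h (pow_pos hpos 2)
  have s1 : ((p / (1 - p) + (k : ℝ)) * (w k / W) + (-p * dw k * W - w k * (-p * dw (a + 1))) / W ^ 2)
        * (w (l + 1) / W - p * (w l / W)) * W ^ 2
      = ((p / (1 - p) + (k : ℝ)) * w k + -p * dw k) * (w (l + 1) - p * w l)
        + p * dw (a + 1) / W * w k * (w (l + 1) - p * w l) := by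
    generalize p / (1 - p) = r
    field_simp
    ring
  have s2 : ((l : ℝ) * (w (l + 1) / W - p * (w l / W))
        + (-p * dw (l + 1) * W - w (l + 1) * (-p * dw (a + 1))) / W ^ 2
        - p * ((-p * dw l * W - w l * (-p * dw (a + 1))) / W ^ 2) + p * (w l / W)) * (w k / W) * W ^ 2
      = (l * (w (l + 1) - p * w l) + -p * dw (l + 1) - p * (-p * dw l) + p * w l) * w k
        + p * dw (a + 1) / W * w k * (w (l + 1) - p * w l) := by
    field_simp
    ring
  rw [s1, s2] at h2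
  linarith

end Words

/-- **`WinFull` from the pure real inequality** -/
theorem winFull_of_real
    (hW : ∀ (a c m m' : ℕ) (p : ℝ) (g f : ℤ → ℝ), 0 < p → p < 1 → c < a → a - c < m' - m →
      2 * m ≤ a → 2 * m' ≤ c → WSys p a m c m' g f →
      ∀ l k : ℕ, c < l → l ≤ a → m < k → k ≤ m' → WinP p a g f l k) : WinFull := by
  intro A B hA hB hA1 hB1 hca hcard p h0 h1 hG
  obtain ⟨m, hm, hbA, hoA⟩ := one_tail_law hA1
  obtain ⟨m', hm', hbB, hoB⟩ := one_tail_law hB1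
  rw [hbA, hbB, window_sdiff hca, window_card] at hcard
  have hmm : m < m' := by omega
  have hd : ∀ k : ℤ, ∃ d : ℝ, HasDerivAt (fun x => wz (pm x A) (pm x B) k) d p := fun k =>
    ⟨_, (differentiableAt_WZ h0 h1 hA hB k).hasDerivAt⟩
  choose dw hdw using hd
  refine up_of_win h0 h1 hA hB hca hmm hbA hbB (hoA p h0 h1) (hoB p h0 h1) hdw hG ?_
  intro l k hl1 hl2 hk1 hk2
  refine winIneq_of_winP (a := A.count true) h0 (win_pos (hoA p h0 h1) (hoB p h0 h1) le_rfl) ?_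
  exact hW _ _ m m' p _ _ h0 h1 hca (by omega) hm hm'
    (wsys_of_words h0 h1 hA hB hca hmm hbA hbB hoA hoB hdw hG) l k hl1 hl2 hk1 hk2

end Coin
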