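import Pool.Agent.Lib.Coin.WZ
import Pool.Agent.Lib.Coin.Comparable

/-!
# Coin race, one-tail window: the closed linear system of the weights (module M6a)

Words with exactly one tail: `a` heads, the borders are the runs of length `1 .. m` and the word.
-/

namespace Coin

open Finset

/-- the waiting time law of a one-tail word with `a` heads and unary border `m` -/
structure OneT (p : ℝ) (a m : ℕ) (α : ℕ → ℝ) : Prop where
  prob : IsProb α
  ren : Ren (insert (a + 1) (Icc 1 m))
    (fun k => if k ≤ m then 1 / p ^ k else 1 / (p ^ a * (1 - p))) α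
  two_le : 2 * m ≤ a
  low : ∀ n < a + 1, α n = 0
  anti : ∀ n, a + 1 ≤ n → α (n + 1) ≤ α n
  pos : ∀ n, a + 1 ≤ n → 0 < α n

theorem OneT.sum_eq {p : ℝ} {a m : ℕ} {α : ℕ → ℝ} (h : OneT p a m α) (f : ℕ → ℝ) :
    ∑ j ∈ insert (a + 1) (Icc 1 m), (if j ≤ m then 1 / p ^ j else 1 / (p ^ a * (1 - p))) * f j
      = 1 / (p ^ a * (1 - p)) * f (a + 1) + ∑ j ∈ Icc 1 m, 1 / p ^ j * f j := by
  have h2 := h.two_le
  rw [sum_insert (by simp; omega), if_neg (by omega)]
  congr 1
  refine sum_congr rfl (fun j hj => ?_)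
  rw [if_pos (mem_Icc.mp hj).2]

/-! ### Abel summation -/

theorem abel_down {p : ℝ} (h0 : 0 < p) (w : ℤ → ℝ) (K : ℤ) (m : ℕ) :
    w K - ∑ j ∈ Icc 1 m, 1 / p ^ j * (w (K - j + 1) - w (K - j))
      = 1 / p ^ m * (w (K - m) - (1 - p) * ∑ e ∈ range m, p ^ e * w (K - m + 1 + e)) := by
  have hp : p ≠ 0 := h0.ne'
  induction m with
  | zero => simp
  | succ m ih =>
    rw [Finset.sum_Icc_succ_top (by omega : 1 ≤ m + 1)]
    have e1 : w K - (∑ j ∈ Icc 1 m, 1 / p ^ j * (w (K - j + 1) - w (K - j))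
          + 1 / p ^ (m + 1) * (w (K - ((m + 1 : ℕ) : ℤ) + 1) - w (K - ((m + 1 : ℕ) : ℤ))))
        = (w K - ∑ j ∈ Icc 1 m, 1 / p ^ j * (w (K - j + 1) - w (K - j)))
          - 1 / p ^ (m + 1) * (w (K - m) - w (K - m - 1)) := by
      have e2 : K - ((m + 1 : ℕ) : ℤ) + 1 = K - m := by push_cast; ring
      have e3 : K - ((m + 1 : ℕ) : ℤ) = K - m - 1 := by push_cast; ring
      rw [e2, e3]; ring
    rw [e1, ih, sum_range_succ']
    have e4 : ∑ k ∈ range m, p ^ (k + 1) * w (K - ((m + 1 : ℕ) : ℤ) + 1 + ((k + 1 : ℕ) : ℤ))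
        = p * ∑ e ∈ range m, p ^ e * w (K - m + 1 + e) := by
      rw [mul_sum]
      refine sum_congr rfl (fun e _ => ?_)
      have : K - ((m + 1 : ℕ) : ℤ) + 1 + ((e + 1 : ℕ) : ℤ) = K - m + 1 + e := by push_cast; ring
      rw [this]; ring
    rw [e4]
    have e5 : K - ((m + 1 : ℕ) : ℤ) + 1 + ((0 : ℕ) : ℤ) = K - m := by push_cast; ring
    have e6 : K - ((m + 1 : ℕ) : ℤ) = K - m - 1 := by push_cast; ring
    rw [e5, e6]
    field_simp
    ring

theorem abel_up {p : ℝ} (h0 : 0 < p) (w : ℤ → ℝ) (K : ℤ) (m : ℕ) :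
    w K + ∑ j ∈ Icc 1 m, 1 / p ^ j * (w (K + j) - w (K + j - 1))
      = 1 / p ^ m * (w (K + m) - (1 - p) * ∑ e ∈ range m, p ^ e * w (K + m - 1 - e)) := by
  have h := abel_down h0 (fun x => w (-x)) (-K) m
  simp only [neg_neg] at h
  have e1 : ∑ j ∈ Icc 1 m, 1 / p ^ j * (w (-(-K - (j : ℤ) + 1)) - w (-(-K - (j : ℤ))))
      = - ∑ j ∈ Icc 1 m, 1 / p ^ j * (w (K + j) - w (K + j - 1)) := by
    rw [← sum_neg_distrib]
    refine sum_congr rfl (fun j _ => ?_)
    rw [show -(-K - (j : ℤ) + 1) = K + j - 1 by ring, show -(-K - (j : ℤ)) = K + j by ring]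
    ring
  have e2 : ∑ e ∈ range m, p ^ e * w (-(-K - (m : ℤ) + 1 + e))
      = ∑ e ∈ range m, p ^ e * w (K + m - 1 - e) := by
    refine sum_congr rfl (fun e _ => ?_)
    rw [show -(-K - (m : ℤ) + 1 + e) = K + m - 1 - e by ring]
  rw [e1, e2, show -(-K - (m : ℤ)) = K + m by ring] at h
  linarith

/-! ### the two identities -/

section Sys

variable {p : ℝ} {a m c m' : ℕ} {α β : ℕ → ℝ}

/-- **(B)** the renewal equation of the subtracted slot, `k ≤ a` -/
theorem winB (h0 : 0 < p) (h1 : p < 1) (hA : OneT p a m α) (hB : OneT p c m' β) {k : ℤ}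
    (hk : k ≤ a) :
    wz α β (k + 1) - wz α β k = (1 - p) * p ^ (c - m') * (wz α β (k + (c - m' : ℕ) + 1)
      - (1 - p) * ∑ e ∈ range m', p ^ e * wz α β (k + (c - m' : ℕ) + 2 + e)) := by
  have hq : (1 - p) ≠ 0 := by intro h; linarith
  have hp : p ≠ 0 := h0.ne'
  have h2 := hB.two_le
  have h := wz_rec hB.ren hA.prob hB.prob hA.low hB.low (k := k + c + 1) (by push_cast; omega)
  rw [hB.sum_eq (fun j => wz α β (k + c + 1 - j + 1) - wz α β (k + c + 1 - j))] at h
  have h3 := abel_down h0 (wz α β) (k + c + 1) m'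
  have e1 : k + (c : ℤ) + 1 - ((c + 1 : ℕ) : ℤ) = k := by push_cast; ring
  have e2 : k + (c : ℤ) + 1 - (m' : ℤ) = k + (c - m' : ℕ) + 1 := by
    have : m' ≤ c := by omega
    push_cast [this]; ring
  have e3 : ∀ e : ℕ, k + (c : ℤ) + 1 - (m' : ℤ) + 1 + e = k + (c - m' : ℕ) + 2 + e := by
    intro e
    have : m' ≤ c := by omega
    push_cast [this]; ring
  rw [e1] at h
  rw [e2] at h3
  have e4 : ∑ e ∈ range m', p ^ e * wz α β (k + (c - m' : ℕ) + 1 + 1 + e)
      = ∑ e ∈ range m', p ^ e * wz α β (k + (c - m' : ℕ) + 2 + e) := by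
    refine sum_congr rfl (fun e _ => ?_)
    rw [show k + ((c - m' : ℕ) : ℤ) + 1 + 1 + e = k + (c - m' : ℕ) + 2 + e by ring]
  rw [e4] at h3
  have h4 : 1 / (p ^ c * (1 - p)) * (wz α β (k + 1) - wz α β k)
      = 1 / p ^ m' * (wz α β (k + (c - m' : ℕ) + 1)
        - (1 - p) * ∑ e ∈ range m', p ^ e * wz α β (k + (c - m' : ℕ) + 2 + e)) := by
    rw [← h3]; linarith
  have hpc : p ^ c = p ^ (c - m') * p ^ m' := by
    rw [← pow_add]; congr 1; omega
  have hc : p ^ c * (1 - p) ≠ 0 := mul_ne_zero (pow_ne_zero _ hp) hq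
  have hm : p ^ m' ≠ 0 := pow_ne_zero _ hp
  calc wz α β (k + 1) - wz α β k
      = (p ^ c * (1 - p)) * (1 / (p ^ c * (1 - p)) * (wz α β (k + 1) - wz α β k)) := by
        field_simp
    _ = (p ^ c * (1 - p)) * (1 / p ^ m' * (wz α β (k + (c - m' : ℕ) + 1)
        - (1 - p) * ∑ e ∈ range m', p ^ e * wz α β (k + (c - m' : ℕ) + 2 + e))) := by rw [h4]
    _ = _ := by
      rw [hpc]
      field_simp

/-- the correction term of the reflection -/
noncomputable def Gc (p : ℝ) (m : ℕ) (w : ℤ → ℝ) (k : ℤ) : ℝ :=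
  1 / p ^ m * (w (k + m) - (1 - p) * ∑ e ∈ range m, p ^ e * w (k + m - 1 - e))

/-- **(A)** the reflection at `a + 1` -/
theorem winA (h0 : 0 < p) (h1 : p < 1) (hA : OneT p a m α) (hb : IsProb β) (n : ℤ) :
    wz α β (a + 2 + n) - wz α β (a + 1 + n) = wz α β (a + 1 - n) - wz α β (a - n)
      - (1 - p) * p ^ a * (Gc p m (wz α β) (n + 1) - Gc p m (wz α β) (-n)) := by
  have hq : (1 - p) ≠ 0 := by intro h; linarith
  have hp : p ≠ 0 := h0.ne'
  have h := wz_refl hA.ren hA.prob hb (n + 1)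
  rw [hA.sum_eq (fun j => wz α β (n + 1 + j) - wz α β (n + 1 + j - 1)),
    hA.sum_eq (fun j => wz α β (1 - (n + 1) + j) - wz α β (1 - (n + 1) + j - 1))] at h
  have h3 := abel_up h0 (wz α β) (n + 1) m
  have h4 := abel_up h0 (wz α β) (-n) m
  rw [show (1 : ℤ) - (n + 1) = -n by ring] at h
  have e1 : n + 1 + ((a + 1 : ℕ) : ℤ) = a + 2 + n := by push_cast; ring
  have e2 : (a : ℤ) + 2 + n - 1 = a + 1 + n := by ring
  have e3 : -n + ((a + 1 : ℕ) : ℤ) = a + 1 - n := by push_cast; ring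
  have e4 : (a : ℤ) + 1 - n - 1 = a - n := by ring
  rw [e1, e2, e3, e4] at h
  have h5 : 1 / (p ^ a * (1 - p)) * (wz α β (a + 2 + n) - wz α β (a + 1 + n))
      = 1 / (p ^ a * (1 - p)) * (wz α β (a + 1 - n) - wz α β (a - n))
        - (Gc p m (wz α β) (n + 1) - Gc p m (wz α β) (-n)) := by
    unfold Gc
    rw [← h3, ← h4]
    linarith
  have hc : p ^ a * (1 - p) ≠ 0 := mul_ne_zero (pow_ne_zero _ hp) hq
  calc wz α β (a + 2 + n) - wz α β (a + 1 + n)
      = (p ^ a * (1 - p)) * (1 / (p ^ a * (1 - p)) * (wz α β (a + 2 + n) - wz α β (a + 1 + n))) := by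
        field_simp
    _ = _ := by
      rw [h5]
      field_simp

/-- **(B0)** the renewal equation before the summation by parts: the terms are the differences -/
theorem winB' (h0 : 0 < p) (h1 : p < 1) (hA : OneT p a m α) (hB : OneT p c m' β) {k : ℤ}
    (hk : k ≤ a) :
    wz α β (k + 1) - wz α β k = (1 - p) * p ^ c * (wz α β (k + c + 1)
      - ∑ j ∈ Icc 1 m', 1 / p ^ j * (wz α β (k + c + 2 - j) - wz α β (k + c + 1 - j))) := by
  have hq : (1 - p) ≠ 0 := by intro h; linarith
  have hp : p ≠ 0 := h0.ne'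
  have h := wz_rec hB.ren hA.prob hB.prob hA.low hB.low (k := k + c + 1) (by push_cast; omega)
  rw [hB.sum_eq (fun j => wz α β (k + c + 1 - j + 1) - wz α β (k + c + 1 - j))] at h
  have e1 : k + (c : ℤ) + 1 - ((c + 1 : ℕ) : ℤ) = k := by push_cast; ring
  rw [e1] at h
  have e2 : ∑ j ∈ Icc 1 m', 1 / p ^ j * (wz α β (k + c + 1 - j + 1) - wz α β (k + c + 1 - j))
      = ∑ j ∈ Icc 1 m', 1 / p ^ j * (wz α β (k + c + 2 - j) - wz α β (k + c + 1 - j)) := by
    refine sum_congr rfl (fun j _ => ?_)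
    rw [show k + (c : ℤ) + 1 - j + 1 = k + c + 2 - j by ring]
  rw [e2] at h
  have hc : p ^ c * (1 - p) ≠ 0 := mul_ne_zero (pow_ne_zero _ hp) hq
  rw [← h]
  field_simp
  ring

/-- monotonicity up to `a + 1` -/
theorem win_mono (hA : OneT p a m α) (hB : OneT p c m' β) {k : ℤ} (hk : k ≤ a) :
    wz α β k ≤ wz α β (k + 1) :=
  wz_mono hA.prob hB.prob hA.low hB.low hB.anti (by push_cast; omega)

theorem win_mono' (hA : OneT p a m α) (hB : OneT p c m' β) {j k : ℤ} (hjk : j ≤ k)
    (hk : k ≤ a + 1) : wz α β j ≤ wz α β k := by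
  induction k, hjk using Int.le_induction with
  | base => exact le_rfl
  | succ k hjk ih => exact (ih (by omega)).trans (win_mono hA hB (by omega))

theorem win_pos (hA : OneT p a m α) (hB : OneT p c m' β) {k : ℤ} (hk : k ≤ a + 1) :
    0 < wz α β k :=
  wz_pos hA.prob hB.prob (hA.pos _ le_rfl) hB.pos (by push_cast; omega)

/-- `w_(l+1) - p w_l` is positive -/
theorem win_N_pos (h1 : p < 1) (hA : OneT p a m α) (hB : OneT p c m' β) {l : ℤ}
    (hl : l ≤ a) : 0 < wz α β (l + 1) - p * wz α β l := by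
  have h2 := win_mono hA hB hl
  have h3 := win_pos hA hB (k := l) (by omega)
  nlinarith

end Sys

/-! ### the words -/

/-- the border structure of a one-tail word -/
theorem one_tail_bd {Z : List Bool} (hZ : Z.count false = 1) :
    ∃ m : ℕ, 2 * m ≤ Z.count true ∧ bd Z = insert (Z.count true + 1) (Icc 1 m) ∧
      ∀ k ∈ Icc 1 m, cont (Z.take k) = (k, 0) := by
  have hf : false ∈ Z := List.count_pos_iff.mp (by omega)
  have hne : Z ≠ [] := List.ne_nil_of_mem hf
  have hlen : Z.length = Z.count true + 1 := by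
    have := count_add Z
    omega
  rcases exists_top Z with he | ⟨k, hk, hlt, he⟩
  · refine ⟨0, by omega, ?_, by simp⟩
    rw [← insert_erase (bd_self hne), he, hlen]
    simp
  · have hz : (Z.take k).count false = 0 := by
      have := count_lt hk hlt hf
      omega
    have hrep : Z.take k = List.replicate k true := by
      have := eq_replicate_of_count (l := Z.take k) (b := true) (by simpa using hz)
      rwa [length_take_bd hk] at this
    refine ⟨k, two_mul_le_of_one_tail hk hZ hz, ?_, ?_⟩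
    · rw [← insert_erase (bd_self hne), he, hlen, hrep, bd_replicate]
    · intro j hj
      have hj' := (mem_Icc.mp hj).2
      have : Z.take j = List.replicate j true := by
        have h2 := congrArg (List.take j) hrep
        rw [List.take_take, min_eq_left hj', List.take_replicate, min_eq_left hj'] at h2
        exact h2
      rw [this]
      simp [cont, List.count_replicate]

/-- the unary border of a one-tail word -/
theorem one_tail_law {Z : List Bool} (hZ : Z.count false = 1) :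
    ∃ m : ℕ, 2 * m ≤ Z.count true ∧ bc Z = insert (Z.count true, 1) ((Icc 1 m).image (fun k => (k, 0))) ∧
      ∀ p : ℝ, 0 < p → p < 1 → OneT p (Z.count true) m (pm p Z) := by
  obtain ⟨m, hm, hbd, hc⟩ := one_tail_bd hZ
  have hf : false ∈ Z := List.count_pos_iff.mp (by omega)
  have hne : Z ≠ [] := List.ne_nil_of_mem hf
  have hlen : Z.length = Z.count true + 1 := by
    have := count_add Z
    omega
  refine ⟨m, hm, ?_, ?_⟩
  · unfold bc
    rw [hbd, image_insert]
    congr 1
    · rw [← hlen, List.take_length]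
      simp [cont, hZ]
    · exact image_congr (fun k hk => hc k (by simpa using hk))
  · intro p h0 h1
    refine ⟨isProb_pm h0 h1 hne, ?_, hm, ?_, ?_, ?_⟩
    · have h := ren_pm h0 h1 hne
      rw [hbd] at h
      refine ⟨h.pos, h.van, fun n => ?_⟩
      rw [← h.eq n]
      refine sum_congr rfl (fun j hj => ?_)
      congr 1
      rw [kap_eq_kapc]
      by_cases hjm : j ≤ m
      · rw [if_pos hjm]
        have hj1 : j ∈ Icc 1 m := by
          rcases mem_insert.mp hj with h' | h'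
          · omega
          · exact h'
        rw [hc j hj1]
        simp [kapc]
      · rw [if_neg hjm]
        have hj1 : j = Z.count true + 1 := by
          rcases mem_insert.mp hj with h' | h'
          · exact h'
          · exact absurd (mem_Icc.mp h').2 hjm
        rw [hj1, ← hlen, List.take_length]
        simp [kapc, cont, hZ]
    · intro n hn
      exact pm_of_lt p (by omega)
    · intro n hn
      exact pm_succ_le h0.le h1.le (by omega)
    · intro n hn
      exact pm_pos h0 h1 hne (by omega)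

end Coin
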