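import Pool.Agent.Lib.Coin.Defs

/-!
# Coin race: words, renewal identity, monotonicity
-/

namespace Coin

open Finset

/-! ## weights -/

theorem wt_nil (p : ℝ) : wt p [] = 1 := by simp [wt]

theorem wt_append (p : ℝ) (u v : List Bool) : wt p (u ++ v) = wt p u * wt p v := by
  simp only [wt, List.count_append, pow_add]; ring

theorem wt_cons_true (p : ℝ) (l : List Bool) : wt p (true :: l) = p * wt p l := by
  simp [wt, pow_succ]; ring

theorem wt_cons_false (p : ℝ) (l : List Bool) : wt p (false :: l) = (1 - p) * wt p l := by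
  simp [wt, pow_succ]; ring

theorem wt_pos {p : ℝ} (h0 : 0 < p) (h1 : p < 1) (l : List Bool) : 0 < wt p l := by
  unfold wt
  have : 0 < 1 - p := by linarith
  positivity

theorem wt_nonneg {p : ℝ} (h0 : 0 ≤ p) (h1 : p ≤ 1) (l : List Bool) : 0 ≤ wt p l := by
  unfold wt
  have : 0 ≤ 1 - p := by linarith
  positivity

theorem wt_le_one {p : ℝ} (h0 : 0 ≤ p) (h1 : p ≤ 1) (l : List Bool) : wt p l ≤ 1 := by
  unfold wt
  have h2 : 0 ≤ 1 - p := by linarith
  have h3 : p ^ l.count true ≤ 1 := pow_le_one₀ h0 h1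
  have h4 : (1 - p) ^ l.count false ≤ 1 := pow_le_one₀ h2 (by linarith)
  have h5 : 0 ≤ p ^ l.count true := by positivity
  have h6 : 0 ≤ (1 - p) ^ l.count false := by positivity
  nlinarith

/-! ## the expectation operator -/

theorem ew_zero (p : ℝ) (f : List Bool → ℝ) : ew p 0 f = f [] := rfl

theorem ew_succ (p : ℝ) (n : ℕ) (f : List Bool → ℝ) :
    ew p (n + 1) f = p * ew p n (fun l => f (true :: l)) + (1 - p) * ew p n (fun l => f (false :: l)) :=
  rfl

theorem ew_congr (p : ℝ) : ∀ (n : ℕ) {f g : List Bool → ℝ}, (∀ l, l.length = n → f l = g l) →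
    ew p n f = ew p n g
  | 0, f, g, h => h [] rfl
  | n + 1, f, g, h => by
    rw [ew_succ, ew_succ, ew_congr p n (fun l hl => h (true :: l) (by simp [hl])),
      ew_congr p n (fun l hl => h (false :: l) (by simp [hl]))]

theorem ew_mono {p : ℝ} (h0 : 0 ≤ p) (h1 : p ≤ 1) : ∀ (n : ℕ) {f g : List Bool → ℝ},
    (∀ l, l.length = n → f l ≤ g l) → ew p n f ≤ ew p n g
  | 0, f, g, h => h [] rfl
  | n + 1, f, g, h => by
    rw [ew_succ, ew_succ]
    have i1 := ew_mono h0 h1 n (fun l hl => h (true :: l) (by simp [hl]))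
    have i2 := ew_mono h0 h1 n (fun l hl => h (false :: l) (by simp [hl]))
    have := mul_le_mul_of_nonneg_left i1 h0
    have := mul_le_mul_of_nonneg_left i2 (by linarith : (0 : ℝ) ≤ 1 - p)
    linarith

theorem ew_const (p c : ℝ) : ∀ n : ℕ, ew p n (fun _ => c) = c
  | 0 => rfl
  | n + 1 => by rw [ew_succ, ew_const p c n]; ring

theorem ew_add (p : ℝ) : ∀ (n : ℕ) (f g : List Bool → ℝ),
    ew p n (fun l => f l + g l) = ew p n f + ew p n g
  | 0, f, g => rfl
  | n + 1, f, g => by rw [ew_succ, ew_succ, ew_succ, ew_add p n, ew_add p n]; ring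

theorem ew_mul (p c : ℝ) : ∀ (n : ℕ) (f : List Bool → ℝ), ew p n (fun l => c * f l) = c * ew p n f
  | 0, f => rfl
  | n + 1, f => by rw [ew_succ, ew_succ, ew_mul p c n, ew_mul p c n]; ring

theorem ew_mul' (p c : ℝ) (n : ℕ) (f : List Bool → ℝ) : ew p n (fun l => f l * c) = ew p n f * c := by
  rw [mul_comm, ← ew_mul]
  exact ew_congr p n (fun l _ => mul_comm _ _)

theorem ew_sub (p : ℝ) : ∀ (n : ℕ) (f g : List Bool → ℝ),
    ew p n (fun l => f l - g l) = ew p n f - ew p n g
  | 0, f, g => rfl
  | n + 1, f, g => by rw [ew_succ, ew_succ, ew_succ, ew_sub p n, ew_sub p n]; ring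

theorem ew_sum {ι : Type*} (p : ℝ) (n : ℕ) (S : Finset ι) (f : ι → List Bool → ℝ) :
    ew p n (fun l => ∑ i ∈ S, f i l) = ∑ i ∈ S, ew p n (f i) := by
  classical
  induction S using Finset.induction_on with
  | empty => simpa using ew_const p 0 n
  | insert a s ha ih =>
    rw [Finset.sum_insert ha, ← ih, ← ew_add]
    exact ew_congr p n (fun l _ => Finset.sum_insert ha)

theorem ew_nonneg {p : ℝ} (h0 : 0 ≤ p) (h1 : p ≤ 1) (n : ℕ) {f : List Bool → ℝ}
    (h : ∀ l, l.length = n → 0 ≤ f l) : 0 ≤ ew p n f := by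
  have := ew_mono (p := p) h0 h1 n (f := fun _ => 0) (g := f) h
  rwa [ew_const] at this

/-- concatenation of independent blocks -/
theorem ew_append (p : ℝ) : ∀ (m n : ℕ) (f : List Bool → ℝ),
    ew p (m + n) f = ew p m (fun u => ew p n (fun v => f (u ++ v)))
  | 0, n, f => by simp [ew_zero]
  | m + 1, n, f => by
    rw [show m + 1 + n = (m + n) + 1 by ring, ew_succ, ew_succ, ew_append p m n, ew_append p m n]
    rfl

/-- only one word contributes -/
theorem ew_single (p : ℝ) : ∀ (w : List Bool) (f : List Bool → ℝ),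
    (∀ l, l.length = w.length → l ≠ w → f l = 0) → ew p w.length f = wt p w * f w
  | [], f, _ => by simp [ew_zero, wt_nil]
  | b :: w, f, h => by
    rw [List.length_cons, ew_succ]
    cases b with
    | true =>
      have e2 : ew p w.length (fun l => f (false :: l)) = 0 := by
        rw [ew_congr p w.length (g := fun _ => 0)
          (fun l hl => h (false :: l) (by simp [hl]) (by simp))]
        exact ew_const p 0 _
      rw [e2, ew_single p w (fun l => f (true :: l))
        (fun l hl hne => h (true :: l) (by simp [hl]) (by simpa using hne)), wt_cons_true]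
      ring
    | false =>
      have e2 : ew p w.length (fun l => f (true :: l)) = 0 := by
        rw [ew_congr p w.length (g := fun _ => 0)
          (fun l hl => h (true :: l) (by simp [hl]) (by simp))]
        exact ew_const p 0 _
      rw [e2, ew_single p w (fun l => f (false :: l))
        (fun l hl hne => h (false :: l) (by simp [hl]) (by simpa using hne)), wt_cons_false]
      ring

/-- the last letter does not matter -/
theorem ew_dropLast (p : ℝ) (n : ℕ) (f : List Bool → ℝ) :
    ew p (n + 1) (fun l => f l.dropLast) = ew p n f := by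
  rw [ew_append p n 1]
  refine ew_congr p n (fun u _ => ?_)
  rw [show (1 : ℕ) = 0 + 1 from rfl, ew_succ, ew_zero, ew_zero]
  simp
  ring

/-! ## the indicator -/

theorem nocc_of_infix {A l : List Bool} (h : A <:+: l) : nocc A l = 0 := by simp [nocc, h]

theorem nocc_of_not {A l : List Bool} (h : ¬ A <:+: l) : nocc A l = 1 := by simp [nocc, h]

theorem nocc_nonneg (A l : List Bool) : 0 ≤ nocc A l := by
  unfold nocc; split_ifs <;> norm_num

theorem nocc_le_one (A l : List Bool) : nocc A l ≤ 1 := by
  unfold nocc; split_ifs <;> norm_num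

theorem nocc_mono {A l m : List Bool} (h : l <:+: m) : nocc A m ≤ nocc A l := by
  by_cases h1 : A <:+: l
  · rw [nocc_of_infix h1, nocc_of_infix (h1.trans h)]
  · rw [nocc_of_not h1]; exact nocc_le_one A m

theorem nocc_append_le (A u v : List Bool) : nocc A (u ++ v) ≤ nocc A u * nocc A v := by
  by_cases h1 : A <:+: u
  · have : A <:+: u ++ v := h1.trans (List.infix_append' [] u v)
    rw [nocc_of_infix this]
    exact mul_nonneg (nocc_nonneg _ _) (nocc_nonneg _ _)
  · rw [nocc_of_not h1, one_mul]
    exact nocc_mono ⟨u, [], by simp⟩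

end Coin
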